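import Pool.Agent.Lib.H37D.BDefs
import Pool.Agent.Lib.H37N.C01

/-!
# H37D Bas0: elementary facts on the sets `Omd`, `VOD`, `VVd`, `FFd` (proved)
-/

open Set Filter Topology Asymptotics
open scoped ContDiff

namespace Pool.Agent.Lib.H37D

open Pool.Agent.Lib.H37N

variable {d : ℕ}

theorem mem_VVd {i : Sy} {z : En d} : z ∈ VVd d i ↔ z.1 ∈ VV i ∧ ‖z.2‖ ≤ 1 := by
  unfold VVd BW
  rw [mem_prod, mem_closedBall_zero_iff]

theorem mem_NNd {z : En d} : z ∈ NNd d ↔ z.1 ∈ NN ∧ ‖z.2‖ ≤ 1 := by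
  unfold NNd BW
  rw [mem_prod, mem_closedBall_zero_iff]

theorem mem_FFd {z : En d} : z ∈ FFd d ↔ z.1 ∈ FF ∧ ‖z.2‖ ≤ 1 := by
  unfold FFd BW
  rw [mem_prod, mem_closedBall_zero_iff]

theorem VVd_sub_Dd (i : Sy) : VVd d i ⊆ Dd d := by
  intro z hz
  cases i
  · exact Or.inl (Or.inl hz)
  · exact Or.inl (Or.inr hz)

theorem FFd_sub_Dd : FFd d ⊆ Dd d := fun _ hz => Or.inr hz

theorem VVd_FFd_disjoint : Disjoint (VVd d Sy.P ∪ VVd d Sy.Q) (FFd d) := by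
  rw [Set.disjoint_left]
  rintro z (hz | hz) hF
  · exact (Set.disjoint_left.1 VV_FF_disjoint) (Or.inl hz.1) hF.1
  · exact (Set.disjoint_left.1 VV_FF_disjoint) (Or.inr hz.1) hF.1

theorem Omd_sub : Omd d ⊆ Dd d := by
  rintro z ⟨hz, hw⟩
  have hw' : z.2 ∈ BW d := Metric.ball_subset_closedBall hw
  rcases Om_sub hz with (h | h) | h
  · exact Or.inl (Or.inl ⟨h, hw'⟩)
  · exact Or.inl (Or.inr ⟨h, hw'⟩)
  · exact Or.inr ⟨h, hw'⟩

theorem isOpen_Omd : IsOpen (Omd d) := isOpen_Om.prod Metric.isOpen_ball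

theorem isOpen_VOD : IsOpen (VOD d) := (isOpen_interior.union isOpen_interior).prod Metric.isOpen_ball

theorem VOD_sub_Omd : VOD d ⊆ Omd d := by
  rintro z ⟨hz, hw⟩
  exact ⟨Or.inl hz, hw⟩

theorem VOD_sub : VOD d ⊆ VVd d Sy.P ∪ VVd d Sy.Q := by
  rintro z ⟨hz, hw⟩
  have hw' : z.2 ∈ BW d := Metric.ball_subset_closedBall hw
  rcases hz with h | h
  · exact Or.inl ⟨interior_subset h, hw'⟩
  · exact Or.inr ⟨interior_subset h, hw'⟩

theorem interior_FFd : interior (FFd d) = interior FF ×ˢ Metric.ball 0 1 := by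
  unfold FFd BW
  rw [interior_prod_eq, interior_closedBall _ (by norm_num)]

theorem interior_VVd (i : Sy) : interior (VVd d i) = interior (VV i) ×ˢ Metric.ball 0 1 := by
  unfold VVd BW
  rw [interior_prod_eq, interior_closedBall _ (by norm_num)]

theorem interior_FFd_sub_Omd : interior (FFd d) ⊆ Omd d := by
  rw [interior_FFd]
  rintro z ⟨hz, hw⟩
  exact ⟨Or.inr hz, hw⟩

theorem interior_VVd_sub_VOD (i : Sy) : interior (VVd d i) ⊆ VOD d := by
  rw [interior_VVd]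
  rintro z ⟨hz, hw⟩
  cases i
  · exact ⟨Or.inl hz, hw⟩
  · exact ⟨Or.inr hz, hw⟩

end Pool.Agent.Lib.H37D
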