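import Pool.Agent.Lib.H37D.ADefs
import Pool.Agent.Lib.H37D.Bas0
import Pool.Agent.Lib.H37N.A02

/-!
# H37D A02 (size M): the cross system of a near map: existence, uniqueness, values

As `Lib/H37N/A02.lean`; for fixed `(y, w)` the function `x ↦ (g ((x, y), w)).1.1` has derivative `(fderiv ℝ g z (eX d)).1.1 ≥ 1 / pw i - e0`.
-/

open Set Filter Topology
open scoped ContDiff

namespace Pool.Agent.Lib.H37D

open Pool.Agent.Lib.H37N

variable {d : ℕ} {g : En d → En d}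

theorem mem_DX {z : Cx d} : z ∈ DX d ↔ z.1 ∈ II ∧ z.2.1 ∈ II ∧ ‖z.2.2‖ ≤ 1 := by
  unfold DX
  rw [mem_prod, mem_prod, mem_BW]

theorem VVd_sub_NNd (i : Sy) : VVd d i ⊆ NNd d := fun _ hz =>
  ⟨VV_sub_NN i hz.1, hz.2⟩

theorem da02_fd (h : NearD g) (i : Sy) {z : En d} (hz : z ∈ VVd d i) :
    HasFDerivAt g (fderiv ℝ g z) z := by
  obtain ⟨O, hO, hsub, hc, -, -⟩ := h.smooth
  have hzO : z ∈ O := hsub (VVd_sub_Dd i hz)
  have h1 : ContDiffAt ℝ ∞ g z := hc.contDiffAt (hO.mem_nhds hzO)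
  exact (h1.differentiableAt (by simp)).hasFDerivAt

theorem da02_der (h : NearD g) (i : Sy) {x y : ℝ} {w : Wd d} (hz : ((x, y), w) ∈ VVd d i) :
    HasDerivAt (fun x => (g ((x, y), w)).1.1) (fderiv ℝ g ((x, y), w) (eX d)).1.1 x := by
  have h0 : HasDerivAt (fun x : ℝ => ((x, y) : Pt)) ((1, 0) : Pt) x :=
    (hasDerivAt_id x).prodMk (hasDerivAt_const x y)
  have h1 : HasDerivAt (fun x : ℝ => (((x, y), w) : En d)) (eX d) x :=
    h0.prodMk (hasDerivAt_const x w)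
  have h2 : HasDerivAt (fun x : ℝ => g ((x, y), w)) (fderiv ℝ g ((x, y), w) (eX d)) x :=
    (da02_fd h i hz).comp_hasDerivAt x h1
  have h3 : HasDerivAt (fun x : ℝ => (g ((x, y), w)).1) (fderiv ℝ g ((x, y), w) (eX d)).1 x :=
    (ContinuousLinearMap.fst ℝ Pt (Wd d)).hasFDerivAt.comp_hasDerivAt x h2
  exact (ContinuousLinearMap.fst ℝ ℝ ℝ).hasFDerivAt.comp_hasDerivAt x h3

theorem da02_mem {i : Sy} {x0 x1 y x : ℝ} {w : Wd d} (h0 : ((x0, y), w) ∈ VVd d i)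
    (h1 : ((x1, y), w) ∈ VVd d i) (hx : x ∈ Icc x0 x1) : ((x, y), w) ∈ VVd d i :=
  ⟨a02_mem h0.1 h1.1 hx, h0.2⟩

theorem g1_mono (h : NearD g) (i : Sy) {x0 x1 y : ℝ} {w : Wd d} (h0 : ((x0, y), w) ∈ VVd d i)
    (h1 : ((x1, y), w) ∈ VVd d i) (hx : x0 ≤ x1) :
    (1 / pw i - e0) * (x1 - x0) ≤ (g ((x1, y), w)).1.1 - (g ((x0, y), w)).1.1 := by
  have hD : ∀ x ∈ Icc x0 x1, HasDerivAt (fun x => (g ((x, y), w)).1.1)
      (fderiv ℝ g ((x, y), w) (eX d)).1.1 x :=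
    fun x hx => da02_der h i (da02_mem h0 h1 hx)
  refine (convex_Icc x0 x1).mul_sub_le_image_sub_of_le_deriv (f := fun x => (g ((x, y), w)).1.1)
    (fun x hx => (hD x hx).continuousAt.continuousWithinAt)
    (fun x hx => (hD x (interior_subset hx)).differentiableAt.differentiableWithinAt) ?_
    x0 ⟨le_rfl, hx⟩ x1 ⟨hx, le_rfl⟩ hx
  intro x hx
  rw [(hD x (interior_subset hx)).deriv]
  have := (h.close1 i ((x, y), w) (da02_mem h0 h1 (interior_subset hx))).1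
  linarith [(abs_le.mp this).1]

theorem XX_spec (h : NearD g) (i : Sy) {z : Cx d} (hz : z ∈ DX d) :
    ((XX g i z, z.2.1), z.2.2) ∈ VVd d i ∧ (g ((XX g i z, z.2.1), z.2.2)).1.1 = z.1 := by
  obtain ⟨hz1, hz2, hz3⟩ := mem_DX.mp hz
  have hp := a02_pw i
  have hle : al i - del ≤ al i + pw i + del := by
    have : 0 < del := by norm_num [del]
    linarith
  have hL : ((al i - del, z.2.1), z.2.2) ∈ VVd d i := mem_VVd.2 ⟨⟨⟨le_rfl, hle⟩, hz2⟩, hz3⟩
  have hR : ((al i + pw i + del, z.2.1), z.2.2) ∈ VVd d i := mem_VVd.2 ⟨⟨⟨hle, le_rfl⟩, hz2⟩, hz3⟩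
  have hcont : ContinuousOn (fun x => (g ((x, z.2.1), z.2.2)).1.1)
      (Icc (al i - del) (al i + pw i + del)) :=
    fun x hx => (da02_der h i (da02_mem hL hR hx)).continuousAt.continuousWithinAt
  have h1 : (g ((al i - del, z.2.1), z.2.2)).1.1 ≤ z.1 := by
    have := (h.close0 i _ hL).1
    have h2 : (Aff i (al i - del, z.2.1)).1 = -del / pw i := by
      simp only [Aff]; congr 1; ring
    rw [h2] at this
    have h3 := (abs_le.mp this).2
    have h4 : -del / pw i + e0 ≤ -del := by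
      cases i <;> norm_num [del, pw, e0]
    linarith [hz1.1]
  have h1' : z.1 ≤ (g ((al i + pw i + del, z.2.1), z.2.2)).1.1 := by
    have := (h.close0 i _ hR).1
    have h2 : (Aff i (al i + pw i + del, z.2.1)).1 = (pw i + del) / pw i := by
      simp only [Aff]; congr 1; ring
    rw [h2] at this
    have h3 := (abs_le.mp this).1
    have h4 : 1 + del ≤ (pw i + del) / pw i - e0 := by
      cases i <;> norm_num [del, pw, e0]
    linarith [hz1.2]
  obtain ⟨x, hx, hxe⟩ := intermediate_value_Icc hle hcont ⟨h1, h1'⟩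
  have hm : ((x, z.2.1), z.2.2) ∈ VVd d i := da02_mem hL hR hx
  have hex : ∃ x, (x, z.2.1) ∈ VV i ∧ (g ((x, z.2.1), z.2.2)).1.1 = z.1 :=
    ⟨x, (mem_VVd.1 hm).1, hxe⟩
  have := Classical.epsilon_spec
    (p := fun x => (x, z.2.1) ∈ VV i ∧ (g ((x, z.2.1), z.2.2)).1.1 = z.1) hex
  unfold XX
  rw [if_pos hz]
  exact ⟨mem_VVd.2 ⟨this.1, hz3⟩, this.2⟩

theorem XX_unique (h : NearD g) (i : Sy) {z : Cx d} (hz : z ∈ DX d) {x : ℝ}
    (hx : ((x, z.2.1), z.2.2) ∈ VVd d i) (hgx : (g ((x, z.2.1), z.2.2)).1.1 = z.1) :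
    x = XX g i z := by
  obtain ⟨h1, h2⟩ := XX_spec h i hz
  have hi := a02_inv i
  rcases le_total x (XX g i z) with hle | hle
  · have h3 := g1_mono h i hx h1 hle
    rw [h2, hgx, sub_self] at h3
    have : XX g i z - x ≤ 0 := by
      by_contra hc
      push Not at hc
      linarith [mul_pos hi hc]
    linarith
  · have h3 := g1_mono h i h1 hx hle
    rw [h2, hgx, sub_self] at h3
    have : x - XX g i z ≤ 0 := by
      by_contra hc
      push Not at hc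
      linarith [mul_pos hi hc]
    linarith

theorem XX_val (h : NearD g) (i : Sy) {z : Cx d} (hz : z ∈ DX d) :
    |XX g i z - (al i + pw i * z.1)| ≤ e0 := by
  obtain ⟨h1, h2⟩ := XX_spec h i hz
  have h3 := (h.close0 i _ h1).1
  rw [h2] at h3
  simp only [Aff] at h3
  have hp := a02_pw i
  have e : XX g i z - (al i + pw i * z.1) = -(pw i * (z.1 - (XX g i z - al i) / pw i)) := by
    have := hp.1.ne'
    field_simp
    ring
  rw [e, abs_neg, abs_mul, abs_of_pos hp.1]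
  calc pw i * |z.1 - (XX g i z - al i) / pw i| ≤ 1 * e0 :=
        mul_le_mul (by linarith [hp.2]) h3 (abs_nonneg _) zero_le_one
    _ = e0 := one_mul _

theorem YY_val (h : NearD g) (i : Sy) {z : Cx d} (hz : z ∈ DX d) :
    |YY g i z - (be i + qw i * z.2.1)| ≤ e0 := by
  obtain ⟨h1, h2⟩ := XX_spec h i hz
  have h3 := (h.close0 i _ h1).2
  simp only [Aff] at h3
  unfold YY
  rw [if_pos hz]
  exact h3

/-- Proof: `h.wval` at the point of `XX_spec`. -/
theorem KK_val (h : NearD g) (i : Sy) {z : Cx d} (hz : z ∈ DX d) :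
    ‖KK g i z‖ ≤ aw * ‖z.2.2‖ + e0 := by
  obtain ⟨h1, h2⟩ := XX_spec h i hz
  have h3 := h.wval _ (VVd_sub_Dd i h1)
  unfold KK
  rw [if_pos hz]
  exact h3

theorem XX_int (h : NearD g) (i : Sy) {z : Cx d} (hz : z ∈ DX d) :
    XX g i z ∈ Ioo (al i - del) (al i + pw i + del) := by
  have h1 := abs_le.mp (XX_val h i hz)
  obtain ⟨hz1, -, -⟩ := mem_DX.mp hz
  have hp := a02_pw i
  have h2 : pw i * (-del) ≤ pw i * z.1 := mul_le_mul_of_nonneg_left hz1.1 hp.1.le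
  have h3 : pw i * z.1 ≤ pw i * (1 + del) := mul_le_mul_of_nonneg_left hz1.2 hp.1.le
  have h4 : pw i * del + e0 < del := by
    cases i <;> norm_num [del, pw, e0]
  constructor <;> linarith [h1.1, h1.2]

theorem YY_int (h : NearD g) (i : Sy) {z : Cx d} (hz : z ∈ DX d) :
    YY g i z ∈ Ioo (-del) (1 + del) := by
  have h1 := abs_le.mp (YY_val h i hz)
  obtain ⟨-, hz1, -⟩ := mem_DX.mp hz
  have hp := a02_qw i
  have h2 : qw i * (-del) ≤ qw i * z.2.1 := mul_le_mul_of_nonneg_left hz1.1 hp.1.le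
  have h3 : qw i * z.2.1 ≤ qw i * (1 + del) := mul_le_mul_of_nonneg_left hz1.2 hp.1.le
  have h4 : qw i * del + e0 < del := by
    cases i <;> norm_num [del, qw, e0]
  have h5 : 0 ≤ be i ∧ be i + qw i ≤ 1 := by
    cases i <;> norm_num [be, qw]
  constructor <;> linarith [h1.1, h1.2, h5.1, h5.2]

/-- Proof: `KK_val`, `aw + e0 < 1`. -/
theorem KK_int (h : NearD g) (i : Sy) {z : Cx d} (hz : z ∈ DX d) : ‖KK g i z‖ < 1 := by
  obtain ⟨-, -, hz3⟩ := mem_DX.mp hz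
  have h1 := KK_val h i hz
  have h2 : aw * ‖z.2.2‖ ≤ aw * 1 := mul_le_mul_of_nonneg_left hz3 (by norm_num [aw])
  have h3 : aw * 1 + e0 < 1 := by norm_num [aw, e0]
  linarith

/-- A point of `VVd d i` whose image is in `NNd d` satisfies the cross equations. -/
theorem cross_of (h : NearD g) (i : Sy) {z : En d} (hz : z ∈ VVd d i) (hgz : g z ∈ NNd d) :
    XX g i ((g z).1.1, z.1.2, z.2) = z.1.1 ∧ YY g i ((g z).1.1, z.1.2, z.2) = (g z).1.2 ∧
      KK g i ((g z).1.1, z.1.2, z.2) = (g z).2 := by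
  have hz0 := mem_VVd.1 hz
  have hz' : (((g z).1.1, z.1.2, z.2) : Cx d) ∈ DX d :=
    mem_DX.mpr ⟨(mem_NN.mp (mem_NNd.mp hgz).1).1, (mem_NN.mp (VV_sub_NN i hz0.1)).2, hz0.2⟩
  have h1 : z.1.1 = XX g i ((g z).1.1, z.1.2, z.2) := XX_unique h i hz' (x := z.1.1) hz rfl
  refine ⟨h1.symm, ?_, ?_⟩
  · unfold YY
    rw [if_pos hz', ← h1]
  · unfold KK
    rw [if_pos hz', ← h1]

theorem g_cross (h : NearD g) (i : Sy) {x' y : ℝ} {w : Wd d} (hz : ((x', y, w) : Cx d) ∈ DX d) :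
    g ((XX g i (x', y, w), y), w) = ((x', YY g i (x', y, w)), KK g i (x', y, w)) := by
  obtain ⟨h1, h2⟩ := XX_spec h i hz
  refine Prod.ext (Prod.ext h2 ?_) ?_
  · unfold YY
    rw [if_pos hz]
  · unfold KK
    rw [if_pos hz]

end Pool.Agent.Lib.H37D
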