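import Pool.Agent.Lib.H37D.A01
import Pool.Agent.Lib.H37D.A02

/-!
# H37D A03 (size M): mean derivatives of `g` on `VVd d i`

As `Lib/H37N/A03.lean`: `mean_two` (A01) with `K = VVd d i` (convex), `L = e0`, `C` = the set below (intersection of preimages of closed balls under
linear maps `A ↦ A v`; convex and closed).
-/

open Set Filter Topology
open scoped ContDiff

namespace Pool.Agent.Lib.H37D

open Pool.Agent.Lib.H37N

variable {d : ℕ} {g : En d → En d}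

/-- the admissible derivatives on the strip `i` -/
def CD (d : ℕ) (i : Sy) : Set (En d →L[ℝ] En d) :=
  {A | |(A (eX d)).1.1 - 1 / pw i| ≤ e0 ∧ |(A (eX d)).1.2| ≤ e0 ∧ |(A (eY d)).1.1| ≤ e0 ∧
    |(A (eY d)).1.2 - qw i| ≤ e0 ∧ ‖(A (eX d)).2‖ ≤ e0 ∧ ‖(A (eY d)).2‖ ≤ e0 ∧
    (∀ w : Wd d, ‖(A (0, w)).1‖ ≤ e0 * ‖w‖) ∧ ∀ w : Wd d, ‖(A (0, w)).2‖ ≤ aw * ‖w‖}

theorem A03_ball {F : Type*} [NormedAddCommGroup F] [NormedSpace ℝ F]
    (l : (En d →L[ℝ] En d) →L[ℝ] F) (c : F) (e : ℝ) :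
    Convex ℝ {A | ‖l A - c‖ ≤ e} ∧ IsClosed {A | ‖l A - c‖ ≤ e} := by
  have h : {A | ‖l A - c‖ ≤ e} = l ⁻¹' Metric.closedBall c e := by
    ext A
    simp [dist_eq_norm]
  rw [h]
  exact ⟨(convex_closedBall c e).linear_preimage l.toLinearMap,
    Metric.isClosed_closedBall.preimage l.continuous⟩

/-- evaluation at `v`, followed by a projection -/
noncomputable def A03_l {F : Type*} [NormedAddCommGroup F] [NormedSpace ℝ F] (P : En d →L[ℝ] F)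
    (v : En d) : (En d →L[ℝ] En d) →L[ℝ] F :=
  P.comp (ContinuousLinearMap.apply ℝ (En d) v)

noncomputable def A03_x : En d →L[ℝ] ℝ :=
  (ContinuousLinearMap.fst ℝ ℝ ℝ).comp (ContinuousLinearMap.fst ℝ Pt (Wd d))

noncomputable def A03_y : En d →L[ℝ] ℝ :=
  (ContinuousLinearMap.snd ℝ ℝ ℝ).comp (ContinuousLinearMap.fst ℝ Pt (Wd d))

theorem A03_set (i : Sy) : CD d i =
    {A | ‖A03_l A03_x (eX d) A - 1 / pw i‖ ≤ e0} ∩ ({A | ‖A03_l A03_y (eX d) A - 0‖ ≤ e0} ∩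
      ({A | ‖A03_l A03_x (eY d) A - 0‖ ≤ e0} ∩ ({A | ‖A03_l A03_y (eY d) A - qw i‖ ≤ e0} ∩
        ({A | ‖A03_l (ContinuousLinearMap.snd ℝ Pt (Wd d)) (eX d) A - 0‖ ≤ e0} ∩
          ({A | ‖A03_l (ContinuousLinearMap.snd ℝ Pt (Wd d)) (eY d) A - 0‖ ≤ e0} ∩
            ((⋂ w : Wd d, {A | ‖A03_l (ContinuousLinearMap.fst ℝ Pt (Wd d)) (0, w) A - 0‖ ≤
              e0 * ‖w‖}) ∩
            (⋂ w : Wd d, {A | ‖A03_l (ContinuousLinearMap.snd ℝ Pt (Wd d)) (0, w) A - 0‖ ≤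
              aw * ‖w‖}))))))) := by
  ext A
  simp [CD, A03_l, A03_x, A03_y]

theorem CD_convex (i : Sy) : Convex ℝ (CD d i) := by
  rw [A03_set]
  exact (A03_ball _ _ _).1.inter ((A03_ball _ _ _).1.inter ((A03_ball _ _ _).1.inter
    ((A03_ball _ _ _).1.inter ((A03_ball _ _ _).1.inter ((A03_ball _ _ _).1.inter
    ((convex_iInter fun _ => (A03_ball _ _ _).1).inter
      (convex_iInter fun _ => (A03_ball _ _ _).1)))))))

theorem CD_closed (i : Sy) : IsClosed (CD d i) := by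
  rw [A03_set]
  exact (A03_ball _ _ _).2.inter ((A03_ball _ _ _).2.inter ((A03_ball _ _ _).2.inter
    ((A03_ball _ _ _).2.inter ((A03_ball _ _ _).2.inter ((A03_ball _ _ _).2.inter
    ((isClosed_iInter fun _ => (A03_ball _ _ _).2).inter
      (isClosed_iInter fun _ => (A03_ball _ _ _).2)))))))

theorem near_mean (h : NearD g) (i : Sy) {z0 z1 z2 z3 : En d} (h0 : z0 ∈ VVd d i)
    (h1 : z1 ∈ VVd d i) (h2 : z2 ∈ VVd d i) (h3 : z3 ∈ VVd d i) :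
    ∃ A ∈ CD d i, ∃ A' ∈ CD d i, g z1 - g z0 = A (z1 - z0) ∧ g z3 - g z2 = A' (z3 - z2) ∧
      ‖A - A'‖ ≤ e0 * max ‖z2 - z0‖ ‖z3 - z1‖ := by
  obtain ⟨O, hO, hsub, hsm, -, -⟩ := h.smooth
  have hK : Convex ℝ (VVd d i) :=
    ((convex_Icc _ _).prod (convex_Icc _ _)).prod (convex_closedBall _ _)
  have he0 : (0 : ℝ) ≤ e0 := by norm_num [e0]
  refine mean_two hO hK ((VVd_sub_Dd i).trans hsub) hsm he0 (h.lip i) (CD_convex i)
    (CD_closed i) ?_ h0 h1 h2 h3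
  intro z hz
  obtain ⟨c1, c2, c3, c4⟩ := h.close1 i z hz
  have hzD := VVd_sub_Dd i hz
  exact ⟨c1, c2, c3, c4, (h.wx z hzD).1, (h.wx z hzD).2, fun w => (h.ww z hzD w).1,
    fun w => (h.ww z hzD w).2⟩

end Pool.Agent.Lib.H37D
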