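import Pool.Agent.Lib.H37D.A03
import Pool.Agent.Lib.H37N.A04

/-!
# H37D A04 (size M/L): mean value properties of the cross coordinates

`A ∈ CD d i` with `g z1 - g z0 = A (z1 - z0)`, `z_j = ((x_j, y_j), w_j)`, `x_j = XX g i (x'_j, y_j, w_j)` (`XX_spec`: `(g z_j).1.1 = x'_j`). Put `a = (A (eX d)).1.1 ≥ 12/10`
(`a04_a` in `Lib/H37N/A04.lean`). Then `x'_1 - x'_0 = a Δx + (A (eY d)).1.1 Δy + (A (0, Δw)).1.1`, so `Δx = B (Δx', Δy, Δw)` with the linear map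
`B (t, s, w) = (t - s (A (eY d)).1.1 - (A (0, w)).1.1) / a`, and `(Δy', Δw')` = the other components of
`A ((B (t,s,w), s), w)`. Hence the mean linear maps below, `crs A : Cx d →L En d`: `crs A u = A ((B u, u.2.1), u.2.2)` has first coordinate `u.1`. For two
maps `A, A' ∈ CD d i`: `‖B - B'‖ ≤ 3 ‖A - A'‖` (`a04_r2`), so `‖crs A - crs A'‖ ≤ 10 ‖A - A'‖` (`‖A‖ ≤ 6`: `1/pw i ≤ 5.03`). The distances
`‖z2 - z0‖` are at most `2` times the distances of the cross coordinates (`|Δx| ≤ |Δx'| + 2 e0 (...)`, apply the formula to the pair `z2, z0`: with `near_mean` for that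
pair). Total constant `e0 * 10 * 2 ≤ ee = 100 e0`.
-/

open Set Filter Topology
open scoped ContDiff

namespace Pool.Agent.Lib.H37D

open Pool.Agent.Lib.H37N

variable {d : ℕ} {g : En d → En d}

/-- the triple `(X, Y, K)` of a cross point -/
noncomputable def crT (g : En d → En d) (i : Sy) (z : Cx d) : ℝ × ℝ × Wd d := (XX g i z, YY g i z, KK g i z)

/-- the slaved coordinate of the mean cross map -/
noncomputable def A04_B (A : En d →L[ℝ] En d) : Cx d →L[ℝ] ℝ :=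
  (1 / (A (eX d)).1.1) • (ContinuousLinearMap.fst ℝ ℝ (ℝ × Wd d) -
    (A (eY d)).1.1 • (ContinuousLinearMap.fst ℝ ℝ (Wd d)).comp
      (ContinuousLinearMap.snd ℝ ℝ (ℝ × Wd d)) -
    ((A03_x.comp A).comp (ContinuousLinearMap.inr ℝ Pt (Wd d))).comp
      ((ContinuousLinearMap.snd ℝ ℝ (Wd d)).comp (ContinuousLinearMap.snd ℝ ℝ (ℝ × Wd d))))

theorem A04_B_apply (A : En d →L[ℝ] En d) (u : Cx d) :
    A04_B A u = 1 / (A (eX d)).1.1 * (u.1 - (A (eY d)).1.1 * u.2.1 - (A (0, u.2.2)).1.1) := by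
  simp [A04_B, A03_x]

/-- the lift of a cross vector -/
noncomputable def A04_E (A : En d →L[ℝ] En d) : Cx d →L[ℝ] En d :=
  ((A04_B A).prod ((ContinuousLinearMap.fst ℝ ℝ (Wd d)).comp
    (ContinuousLinearMap.snd ℝ ℝ (ℝ × Wd d)))).prod
    ((ContinuousLinearMap.snd ℝ ℝ (Wd d)).comp (ContinuousLinearMap.snd ℝ ℝ (ℝ × Wd d)))

theorem A04_E_apply (A : En d →L[ℝ] En d) (u : Cx d) :
    A04_E A u = ((A04_B A u, u.2.1), u.2.2) := by
  simp [A04_E]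

/-- the mean cross map -/
noncomputable def A04_crs (A : En d →L[ℝ] En d) : Cx d →L[ℝ] ℝ × ℝ × Wd d :=
  (A04_B A).prod (((A03_y.comp A).comp (A04_E A)).prod
    (((ContinuousLinearMap.snd ℝ Pt (Wd d)).comp A).comp (A04_E A)))

theorem A04_crs_apply (A : En d →L[ℝ] En d) (u : Cx d) :
    A04_crs A u = (A04_B A u, (A ((A04_B A u, u.2.1), u.2.2)).1.2,
      (A ((A04_B A u, u.2.1), u.2.2)).2) := by
  simp [A04_crs, A04_E_apply, A03_y]

theorem A04_split (x y : ℝ) (w : Wd d) :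
    (((x, y), w) : En d) = x • eX d + y • eY d + (0, w) := by
  simp [eX, eY]

theorem A04_lin (A : En d →L[ℝ] En d) (x y : ℝ) (w : Wd d) :
    A ((x, y), w) = x • A (eX d) + y • A (eY d) + A (0, w) := by
  rw [A04_split, map_add, map_add, map_smul, map_smul]

theorem A04_x (A : En d →L[ℝ] En d) (x y : ℝ) (w : Wd d) :
    (A ((x, y), w)).1.1 = x * (A (eX d)).1.1 + y * (A (eY d)).1.1 + (A (0, w)).1.1 := by
  rw [A04_lin]
  simp

theorem A04_y (A : En d →L[ℝ] En d) (x y : ℝ) (w : Wd d) :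
    (A ((x, y), w)).1.2 = x * (A (eX d)).1.2 + y * (A (eY d)).1.2 + (A (0, w)).1.2 := by
  rw [A04_lin]
  simp

theorem A04_w (A : En d →L[ℝ] En d) (x y : ℝ) (w : Wd d) :
    (A ((x, y), w)).2 = x • (A (eX d)).2 + y • (A (eY d)).2 + (A (0, w)).2 := by
  rw [A04_lin]
  simp

theorem A04_e0 : (0 : ℝ) < e0 ∧ e0 ≤ 1 / 1000 ∧ ee = 100 * e0 := by
  refine ⟨?_, ?_, ?_⟩ <;> norm_num [e0, ee]

/-- the components of a vector -/
theorem A04_comp (z : En d) : |z.1.1| ≤ ‖z‖ ∧ |z.1.2| ≤ ‖z‖ ∧ ‖z.2‖ ≤ ‖z‖ :=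
  ⟨(norm_fst_le z.1).trans (norm_fst_le z), (norm_snd_le z.1).trans (norm_fst_le z),
    norm_snd_le z⟩

theorem A04_compC (z : Cx d) : |z.1| ≤ ‖z‖ ∧ |z.2.1| ≤ ‖z‖ ∧ ‖z.2.2‖ ≤ ‖z‖ :=
  ⟨norm_fst_le z, (norm_fst_le z.2).trans (norm_snd_le z), (norm_snd_le z.2).trans (norm_snd_le z)⟩

theorem A04_leE {z : En d} {M : ℝ} (h1 : |z.1.1| ≤ M) (h2 : |z.1.2| ≤ M) (h3 : ‖z.2‖ ≤ M) :
    ‖z‖ ≤ M := by
  rw [Prod.norm_def, Prod.norm_def]
  exact max_le (max_le h1 h2) h3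

theorem A04_leC {z : Cx d} {M : ℝ} (h1 : |z.1| ≤ M) (h2 : |z.2.1| ≤ M) (h3 : ‖z.2.2‖ ≤ M) :
    ‖z‖ ≤ M := by
  rw [Prod.norm_def, Prod.norm_def]
  exact max_le h1 (max_le h2 h3)

theorem A04_eX : ‖eX d‖ ≤ 1 ∧ ‖eY d‖ ≤ 1 := by
  constructor
  · apply A04_leE <;> simp [eX]
  · apply A04_leE <;> simp [eY]

/-- bound for the slaved coordinate before the division -/
theorem A04_num {i : Sy} {A : En d →L[ℝ] En d} (hA : A ∈ CD d i) (u : Cx d) :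
    |u.1 - (A (eY d)).1.1 * u.2.1 - (A (0, u.2.2)).1.1| ≤ 11 / 10 * ‖u‖ := by
  obtain ⟨-, -, h3, -, -, -, h7, -⟩ := hA
  obtain ⟨c1, c2, c3⟩ := A04_compC u
  obtain ⟨p1, p2, -⟩ := A04_e0
  have hn := norm_nonneg u
  have k1 : |(A (eY d)).1.1 * u.2.1| ≤ e0 * ‖u‖ := by
    rw [abs_mul]
    exact mul_le_mul h3 c2 (abs_nonneg _) p1.le
  have k2 : |(A (0, u.2.2)).1.1| ≤ e0 * ‖u‖ :=
    (norm_fst_le (A (0, u.2.2)).1).trans ((h7 _).trans (mul_le_mul_of_nonneg_left c3 p1.le))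
  have k3 : e0 * ‖u‖ ≤ 1 / 1000 * ‖u‖ := mul_le_mul_of_nonneg_right p2 hn
  have k4 := abs_sub (u.1 - (A (eY d)).1.1 * u.2.1) ((A (0, u.2.2)).1.1)
  have k5 := abs_sub u.1 ((A (eY d)).1.1 * u.2.1)
  linarith

theorem A04_Bn {i : Sy} {A : En d →L[ℝ] En d} (hA : A ∈ CD d i) (u : Cx d) :
    |A04_B A u| ≤ ‖u‖ := by
  rw [A04_B_apply, abs_mul]
  have h1 := a04_a hA.1
  have h0 : 0 < (A (eX d)).1.1 := by linarith
  have h2 := A04_num hA u
  have h3 : |1 / (A (eX d)).1.1| ≤ 10 / 11 := by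
    rw [abs_of_pos (by positivity), div_le_iff₀ h0]
    linarith
  have := mul_le_mul h3 h2 (abs_nonneg _) (by norm_num)
  linarith

/-- The slaved coordinates of two mean maps. -/
theorem A04_Bd {i : Sy} {A A' : En d →L[ℝ] En d} (hA : A ∈ CD d i) (hA' : A' ∈ CD d i)
    (u : Cx d) : |A04_B A u - A04_B A' u| ≤ 4 * ‖A - A'‖ * ‖u‖ := by
  rw [A04_B_apply, A04_B_apply]
  obtain ⟨c1, c2, c3⟩ := A04_compC u
  have hn := norm_nonneg u
  have hd := norm_nonneg (A - A')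
  have h1 := a04_a hA.1
  have h1' := a04_a hA'.1
  have j1 : ‖A (eX d) - A' (eX d)‖ ≤ ‖A - A'‖ := by
    have := (A - A').le_opNorm (eX d)
    have k := mul_le_mul_of_nonneg_left (A04_eX (d := d)).1 hd
    rw [mul_one] at k
    exact this.trans k
  have j2 : ‖A (eY d) - A' (eY d)‖ ≤ ‖A - A'‖ := by
    have := (A - A').le_opNorm (eY d)
    have k := mul_le_mul_of_nonneg_left (A04_eX (d := d)).2 hd
    rw [mul_one] at k
    exact this.trans k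
  have j3 : ‖A (0, u.2.2) - A' (0, u.2.2)‖ ≤ ‖A - A'‖ * ‖u‖ := by
    have := (A - A').le_opNorm ((0, u.2.2) : En d)
    refine this.trans (mul_le_mul_of_nonneg_left ?_ hd)
    exact A04_leE (by simp) (by simp) c3
  have i1 : |(A (eX d)).1.1 - (A' (eX d)).1.1| ≤ ‖A - A'‖ := (A04_comp _).1.trans j1
  have i2 : |(A (eY d)).1.1 - (A' (eY d)).1.1| ≤ ‖A - A'‖ := (A04_comp _).1.trans j2
  have i3 : |(A (0, u.2.2)).1.1 - (A' (0, u.2.2)).1.1| ≤ ‖A - A'‖ * ‖u‖ :=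
    (A04_comp _).1.trans j3
  have k1 := a04_r2 h1 h1' i1
  have k2 := A04_num hA u
  have e : 1 / (A (eX d)).1.1 * (u.1 - (A (eY d)).1.1 * u.2.1 - (A (0, u.2.2)).1.1) -
      1 / (A' (eX d)).1.1 * (u.1 - (A' (eY d)).1.1 * u.2.1 - (A' (0, u.2.2)).1.1) =
      (1 / (A (eX d)).1.1 - 1 / (A' (eX d)).1.1) *
        (u.1 - (A (eY d)).1.1 * u.2.1 - (A (0, u.2.2)).1.1) +
      (-(((A (eY d)).1.1 - (A' (eY d)).1.1) * u.2.1 +
        ((A (0, u.2.2)).1.1 - (A' (0, u.2.2)).1.1))) * (1 / (A' (eX d)).1.1) := by ring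
  rw [e]
  have k3 : |(1 / (A (eX d)).1.1 - 1 / (A' (eX d)).1.1) *
      (u.1 - (A (eY d)).1.1 * u.2.1 - (A (0, u.2.2)).1.1)| ≤ ‖A - A'‖ * (11 / 10 * ‖u‖) := by
    rw [abs_mul]
    exact mul_le_mul k1 k2 (abs_nonneg _) hd
  have k4 : |-(((A (eY d)).1.1 - (A' (eY d)).1.1) * u.2.1 +
        ((A (0, u.2.2)).1.1 - (A' (0, u.2.2)).1.1))| ≤ 2 * (‖A - A'‖ * ‖u‖) := by
    rw [abs_neg]
    refine (abs_add_le _ _).trans ?_
    have : |((A (eY d)).1.1 - (A' (eY d)).1.1) * u.2.1| ≤ ‖A - A'‖ * ‖u‖ := by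
      rw [abs_mul]
      exact mul_le_mul i2 c2 (abs_nonneg _) hd
    linarith
  have k5 := a04_r3 h1' k4
  refine (abs_add_le _ _).trans ?_
  have hm : 0 ≤ ‖A - A'‖ * ‖u‖ := mul_nonneg hd hn
  linarith

theorem A04_crs_dist {i : Sy} {A A' : En d →L[ℝ] En d} (hA : A ∈ CD d i) (hA' : A' ∈ CD d i) :
    ‖A04_crs A - A04_crs A'‖ ≤ 4 * ‖A - A'‖ := by
  have hd := norm_nonneg (A - A')
  refine ContinuousLinearMap.opNorm_le_bound _ (by linarith) fun u => ?_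
  have hn := norm_nonneg u
  have hm : 0 ≤ ‖A - A'‖ * ‖u‖ := mul_nonneg hd hn
  obtain ⟨p1, p2, -⟩ := A04_e0
  obtain ⟨c1, c2, c3⟩ := A04_compC u
  have hB := A04_Bd hA hA' u
  have hBn := A04_Bn hA u
  have e1 : ‖(A - A') ((A04_B A u, u.2.1), u.2.2)‖ ≤ ‖A - A'‖ * ‖u‖ :=
    ((A - A').le_opNorm _).trans (mul_le_mul_of_nonneg_left (A04_leE hBn c2 c3) hd)
  have e2 : A ((A04_B A u, u.2.1), u.2.2) - A' ((A04_B A' u, u.2.1), u.2.2) =
      (A - A') ((A04_B A u, u.2.1), u.2.2) + (A04_B A u - A04_B A' u) • A' (eX d) := by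
    have : (A - A') ((A04_B A u, u.2.1), u.2.2) =
        A ((A04_B A u, u.2.1), u.2.2) - A' ((A04_B A u, u.2.1), u.2.2) := rfl
    rw [this, A04_lin A' (A04_B A u), A04_lin A' (A04_B A' u)]
    module
  obtain ⟨-, g2, -, -, g5, -, -, -⟩ := hA'
  obtain ⟨q1, q2, q3⟩ := A04_comp ((A - A') ((A04_B A u, u.2.1), u.2.2))
  have k1 : |A04_B A u - A04_B A' u| * e0 ≤ ‖A - A'‖ * ‖u‖ := by
    have := mul_le_mul hB p2 p1.le (by positivity)
    linarith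
  show ‖A04_crs A u - A04_crs A' u‖ ≤ _
  rw [A04_crs_apply, A04_crs_apply]
  refine A04_leC ?_ ?_ ?_
  · exact hB
  · have e3 : (A ((A04_B A u, u.2.1), u.2.2)).1.2 - (A' ((A04_B A' u, u.2.1), u.2.2)).1.2 =
        ((A - A') ((A04_B A u, u.2.1), u.2.2)).1.2 +
          (A04_B A u - A04_B A' u) * (A' (eX d)).1.2 :=
      congrArg (fun z : En d => z.1.2) e2
    show |(A ((A04_B A u, u.2.1), u.2.2)).1.2 - (A' ((A04_B A' u, u.2.1), u.2.2)).1.2| ≤ _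
    rw [e3]
    refine (abs_add_le _ _).trans ?_
    have : |(A04_B A u - A04_B A' u) * (A' (eX d)).1.2| ≤ |A04_B A u - A04_B A' u| * e0 := by
      rw [abs_mul]
      exact mul_le_mul_of_nonneg_left g2 (abs_nonneg _)
    linarith
  · have e3 : (A ((A04_B A u, u.2.1), u.2.2)).2 - (A' ((A04_B A' u, u.2.1), u.2.2)).2 =
        ((A - A') ((A04_B A u, u.2.1), u.2.2)).2 +
          (A04_B A u - A04_B A' u) • (A' (eX d)).2 :=
      congrArg (fun z : En d => z.2) e2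
    show ‖(A ((A04_B A u, u.2.1), u.2.2)).2 - (A' ((A04_B A' u, u.2.1), u.2.2)).2‖ ≤ _
    rw [e3]
    refine (norm_add_le _ _).trans ?_
    have : ‖(A04_B A u - A04_B A' u) • (A' (eX d)).2‖ ≤ |A04_B A u - A04_B A' u| * e0 := by
      rw [norm_smul, Real.norm_eq_abs]
      exact mul_le_mul_of_nonneg_left g5 (abs_nonneg _)
    linarith

/-- the bounds on the mean cross map -/
theorem A04_bounds {i : Sy} {A : En d →L[ℝ] En d} (hA : A ∈ CD d i) :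
    |(A04_crs A (1, 0, 0)).1 - pw i| ≤ ee ∧ |(A04_crs A (0, 1, 0)).1| ≤ ee ∧
      (∀ w, |(A04_crs A (0, 0, w)).1| ≤ ee * ‖w‖) ∧
    |(A04_crs A (1, 0, 0)).2.1| ≤ ee ∧ |(A04_crs A (0, 1, 0)).2.1 - qw i| ≤ ee ∧
      (∀ w, |(A04_crs A (0, 0, w)).2.1| ≤ ee * ‖w‖) ∧
    ‖(A04_crs A (1, 0, 0)).2.2‖ ≤ ee ∧ ‖(A04_crs A (0, 1, 0)).2.2‖ ≤ ee ∧
      ∀ w, ‖(A04_crs A (0, 0, w)).2.2‖ ≤ 1 / 50 * ‖w‖ := by
  obtain ⟨p1, p2, p3⟩ := A04_e0
  obtain ⟨h1, h2, h3, h4, h5, h6, h7, h8⟩ := hA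
  have a1 := a04_a h1
  obtain ⟨r1, r2⟩ := a04_inv a1
  have b0 : A04_B A (1, 0, 0) = 1 / (A (eX d)).1.1 := by
    rw [A04_B_apply]
    have : (A ((0, (0 : Wd d)) : En d)).1.1 = 0 := by
      have : ((0, (0 : Wd d)) : En d) = 0 := rfl
      rw [this, map_zero]
      rfl
    simp only [this]
    ring
  have b1 : A04_B A (0, 1, 0) = -((A (eY d)).1.1 * (1 / (A (eX d)).1.1)) := by
    rw [A04_B_apply]
    have : (A ((0, (0 : Wd d)) : En d)).1.1 = 0 := by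
      have : ((0, (0 : Wd d)) : En d) = 0 := rfl
      rw [this, map_zero]
      rfl
    simp only [this]
    ring
  have b2 : ∀ w : Wd d, A04_B A (0, 0, w) = -((A (0, w)).1.1 * (1 / (A (eX d)).1.1)) := by
    intro w
    rw [A04_B_apply]
    ring
  have z0 : A ((0, (0 : Wd d)) : En d) = 0 := by
    have : ((0, (0 : Wd d)) : En d) = 0 := rfl
    rw [this, map_zero]
  have m0 : |A04_B A (1, 0, 0)| ≤ 1 := by
    rw [b0, abs_of_pos r1]
    exact r2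
  have m1 : |A04_B A (0, 1, 0)| ≤ e0 := by
    rw [b1, abs_neg]
    exact a04_r3 a1 h3
  have m2 : ∀ w : Wd d, |A04_B A (0, 0, w)| ≤ e0 * ‖w‖ := by
    intro w
    rw [b2, abs_neg]
    exact a04_r3 a1 ((norm_fst_le (A (0, w)).1).trans (h7 w))
  have s1 : ee = 100 * e0 := p3
  have s2 : e0 * e0 ≤ e0 := by
    have := mul_le_mul_of_nonneg_left (p2.trans (by norm_num : (1 : ℝ) / 1000 ≤ 1)) p1.le
    linarith
  simp only [A04_crs_apply]
  refine ⟨?_, ?_, ?_, ?_, ?_, ?_, ?_, ?_, ?_⟩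
  · rw [b0]
    have := a04_r1 h1
    linarith
  · linarith
  · intro w
    have := m2 w
    have hw := norm_nonneg w
    have : e0 * ‖w‖ ≤ ee * ‖w‖ := mul_le_mul_of_nonneg_right (by linarith) hw
    linarith
  · rw [A04_y, z0]
    have : |A04_B A (1, 0, 0) * (A (eX d)).1.2| ≤ 1 * e0 := by
      rw [abs_mul]
      exact mul_le_mul m0 h2 (abs_nonneg _) zero_le_one
    simp only [zero_mul, Prod.fst_zero, Prod.snd_zero, add_zero]
    linarith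
  · rw [A04_y, z0]
    have : |A04_B A (0, 1, 0) * (A (eX d)).1.2| ≤ e0 * e0 := by
      rw [abs_mul]
      exact mul_le_mul m1 h2 (abs_nonneg _) p1.le
    simp only [one_mul, Prod.fst_zero, Prod.snd_zero, add_zero]
    have e : A04_B A (0, 1, 0) * (A (eX d)).1.2 + (A (eY d)).1.2 - qw i =
        A04_B A (0, 1, 0) * (A (eX d)).1.2 + ((A (eY d)).1.2 - qw i) := by ring
    rw [e]
    refine (abs_add_le _ _).trans ?_
    linarith
  · intro w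
    have hw := norm_nonneg w
    rw [A04_y]
    have k1 : |A04_B A (0, 0, w) * (A (eX d)).1.2| ≤ (e0 * ‖w‖) * 1 := by
      rw [abs_mul]
      exact mul_le_mul (m2 w) (h2.trans (by linarith)) (abs_nonneg _) (by positivity)
    have k2 : |(A (0, w)).1.2| ≤ e0 * ‖w‖ := (norm_snd_le (A (0, w)).1).trans (h7 w)
    simp only [zero_mul, add_zero]
    refine (abs_add_le _ _).trans ?_
    have : 2 * e0 * ‖w‖ ≤ ee * ‖w‖ := mul_le_mul_of_nonneg_right (by linarith) hw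
    linarith
  · rw [A04_w, z0]
    have : ‖A04_B A (1, 0, 0) • (A (eX d)).2‖ ≤ 1 * e0 := by
      rw [norm_smul, Real.norm_eq_abs]
      exact mul_le_mul m0 h5 (norm_nonneg _) zero_le_one
    simp only [zero_smul, Prod.snd_zero, add_zero]
    linarith
  · rw [A04_w, z0]
    have : ‖A04_B A (0, 1, 0) • (A (eX d)).2‖ ≤ e0 * e0 := by
      rw [norm_smul, Real.norm_eq_abs]
      exact mul_le_mul m1 h5 (norm_nonneg _) p1.le
    simp only [one_smul, Prod.snd_zero, add_zero]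
    refine (norm_add_le _ _).trans ?_
    linarith
  · intro w
    have hw := norm_nonneg w
    rw [A04_w]
    have k1 : ‖A04_B A (0, 0, w) • (A (eX d)).2‖ ≤ (e0 * ‖w‖) * 1 := by
      rw [norm_smul, Real.norm_eq_abs]
      exact mul_le_mul (m2 w) (h5.trans (by linarith)) (norm_nonneg _) (by positivity)
    have k2 := h8 w
    simp only [zero_smul, add_zero]
    refine (norm_add_le _ _).trans ?_
    have : e0 * ‖w‖ ≤ 1 / 1000 * ‖w‖ := mul_le_mul_of_nonneg_right p2 hw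
    have : aw * ‖w‖ ≤ 1 / 1000 * ‖w‖ := mul_le_mul_of_nonneg_right (by norm_num [aw]) hw
    linarith

/-- the point of `VVd d i` over a cross point -/
noncomputable def A04_up (g : En d → En d) (i : Sy) (z : Cx d) : En d :=
  ((XX g i z, z.2.1), z.2.2)

theorem A04_g (h : NearD g) (i : Sy) {z : Cx d} (hz : z ∈ DX d) :
    g (A04_up g i z) = ((z.1, YY g i z), KK g i z) := g_cross h i (x' := z.1) hz

theorem A04_diff {A : En d →L[ℝ] En d} {i : Sy} (h : NearD g) (hA : A ∈ CD d i) {z z' : Cx d}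
    (hz : z ∈ DX d) (hz' : z' ∈ DX d)
    (he : g (A04_up g i z') - g (A04_up g i z) = A (A04_up g i z' - A04_up g i z)) :
    crT g i z' - crT g i z = A04_crs A (z' - z) := by
  have a1 := a04_a hA.1
  have a0 : (A (eX d)).1.1 ≠ 0 := by linarith
  rw [A04_g h i hz, A04_g h i hz'] at he
  have e0' : A04_up g i z' - A04_up g i z = ((XX g i z' - XX g i z, (z' - z).2.1),
      (z' - z).2.2) := rfl
  rw [e0'] at he
  have e1 : z'.1 - z.1 = (A ((XX g i z' - XX g i z, (z' - z).2.1), (z' - z).2.2)).1.1 :=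
    congrArg (fun z : En d => z.1.1) he
  have e2 : YY g i z' - YY g i z =
      (A ((XX g i z' - XX g i z, (z' - z).2.1), (z' - z).2.2)).1.2 :=
    congrArg (fun z : En d => z.1.2) he
  have e3 : KK g i z' - KK g i z = (A ((XX g i z' - XX g i z, (z' - z).2.1), (z' - z).2.2)).2 :=
    congrArg (fun z : En d => z.2) he
  have hB : A04_B A (z' - z) = XX g i z' - XX g i z := by
    rw [A04_B_apply]
    have : (z' - z).1 = z'.1 - z.1 := rfl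
    rw [this, e1, A04_x A (XX g i z' - XX g i z) (z' - z).2.1 (z' - z).2.2]
    field_simp
    ring
  rw [A04_crs_apply, hB, ← e2, ← e3]
  rfl

theorem A04_dist (h : NearD g) (i : Sy) {z z' : Cx d} (hz : z ∈ DX d) (hz' : z' ∈ DX d) :
    ‖A04_up g i z' - A04_up g i z‖ ≤ ‖z' - z‖ := by
  have m0 := (XX_spec h i hz).1
  have m1 := (XX_spec h i hz').1
  obtain ⟨A, hA, -, -, he, -, -⟩ := near_mean h i m0 m1 m0 m1
  have hd := A04_diff h hA hz hz' he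
  have e1 : XX g i z' - XX g i z = A04_B A (z' - z) := by
    have := congrArg Prod.fst hd
    rw [A04_crs_apply] at this
    exact this
  obtain ⟨c1, c2, c3⟩ := A04_compC (z' - z)
  refine A04_leE ?_ c2 c3
  show |XX g i z' - XX g i z| ≤ _
  rw [e1]
  exact A04_Bn hA _

theorem A04_B0 {i : Sy} {A : En d →L[ℝ] En d} (hA : A ∈ CD d i) (u : Cx d) (hu : u.1 = 0) :
    |(A04_crs A u).1| ≤ ee * ‖u‖ := by
  obtain ⟨c1, c2, c3⟩ := A04_compC u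
  obtain ⟨p1, p2, p3⟩ := A04_e0
  obtain ⟨h1, -, h3, -, -, -, h7, -⟩ := hA
  have hn := norm_nonneg u
  have a1 := a04_a h1
  rw [A04_crs_apply]
  show |A04_B A u| ≤ _
  rw [A04_B_apply, hu, mul_comm]
  refine a04_r3 a1 ?_
  have k1 : |(A (eY d)).1.1 * u.2.1| ≤ e0 * ‖u‖ := by
    rw [abs_mul]
    exact mul_le_mul h3 c2 (abs_nonneg _) p1.le
  have k2 : |(A (0, u.2.2)).1.1| ≤ e0 * ‖u‖ :=
    (norm_fst_le (A (0, u.2.2)).1).trans ((h7 _).trans (mul_le_mul_of_nonneg_left c3 p1.le))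
  have k4 := abs_sub (0 - (A (eY d)).1.1 * u.2.1) ((A (0, u.2.2)).1.1)
  have k5 : |0 - (A (eY d)).1.1 * u.2.1| = |(A (eY d)).1.1 * u.2.1| := by
    rw [zero_sub, abs_neg]
  have k6 : 2 * e0 * ‖u‖ ≤ ee * ‖u‖ := mul_le_mul_of_nonneg_right (by linarith) hn
  linarith

/-- `cross_mean` with one more bound (used in A05). -/
theorem A04_mean (h : NearD g) (i : Sy) {z0 z1 z2 z3 : Cx d} (h0 : z0 ∈ DX d) (h1 : z1 ∈ DX d)
    (h2 : z2 ∈ DX d) (h3 : z3 ∈ DX d) :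
    ∃ A A' : Cx d →L[ℝ] ℝ × ℝ × Wd d,
      crT g i z1 - crT g i z0 = A (z1 - z0) ∧ crT g i z3 - crT g i z2 = A' (z3 - z2) ∧
      ‖A - A'‖ ≤ ee * max ‖z2 - z0‖ ‖z3 - z1‖ ∧ ∀ B ∈ ({A, A'} : Set (Cx d →L[ℝ] ℝ × ℝ × Wd d)),
        (|(B (1, 0, 0)).1 - pw i| ≤ ee ∧ |(B (0, 1, 0)).1| ≤ ee ∧
          (∀ w, |(B (0, 0, w)).1| ≤ ee * ‖w‖) ∧
        |(B (1, 0, 0)).2.1| ≤ ee ∧ |(B (0, 1, 0)).2.1 - qw i| ≤ ee ∧
          (∀ w, |(B (0, 0, w)).2.1| ≤ ee * ‖w‖) ∧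
        ‖(B (1, 0, 0)).2.2‖ ≤ ee ∧ ‖(B (0, 1, 0)).2.2‖ ≤ ee ∧
          ∀ w, ‖(B (0, 0, w)).2.2‖ ≤ 1 / 50 * ‖w‖) ∧
        ∀ u : Cx d, u.1 = 0 → |(B u).1| ≤ ee * ‖u‖ := by
  obtain ⟨p1, p2, p3⟩ := A04_e0
  obtain ⟨A, hA, A', hA', e1, e2, e3⟩ := near_mean h i (XX_spec h i h0).1 (XX_spec h i h1).1
    (XX_spec h i h2).1 (XX_spec h i h3).1
  refine ⟨A04_crs A, A04_crs A', A04_diff h hA h0 h1 e1, A04_diff h hA' h2 h3 e2, ?_, ?_⟩
  · have hM := max_le_max (A04_dist h i h0 h2) (A04_dist h i h1 h3)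
    have k1 := A04_crs_dist hA hA'
    have k2 : ‖A - A'‖ ≤ e0 * max ‖z2 - z0‖ ‖z3 - z1‖ :=
      e3.trans (mul_le_mul_of_nonneg_left hM p1.le)
    have k3 : 0 ≤ e0 * max ‖z2 - z0‖ ‖z3 - z1‖ := (norm_nonneg _).trans k2
    rw [p3]
    linarith
  · intro B hB
    rcases hB with rfl | hB
    · exact ⟨A04_bounds hA, A04_B0 hA⟩
    · rw [mem_singleton_iff] at hB
      subst hB
      exact ⟨A04_bounds hA', A04_B0 hA'⟩

theorem cross_mean (h : NearD g) (i : Sy) {z0 z1 z2 z3 : Cx d} (h0 : z0 ∈ DX d) (h1 : z1 ∈ DX d)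
    (h2 : z2 ∈ DX d) (h3 : z3 ∈ DX d) :
    ∃ A A' : Cx d →L[ℝ] ℝ × ℝ × Wd d,
      crT g i z1 - crT g i z0 = A (z1 - z0) ∧ crT g i z3 - crT g i z2 = A' (z3 - z2) ∧
      ‖A - A'‖ ≤ ee * max ‖z2 - z0‖ ‖z3 - z1‖ ∧ ∀ B ∈ ({A, A'} : Set (Cx d →L[ℝ] ℝ × ℝ × Wd d)),
        |(B (1, 0, 0)).1 - pw i| ≤ ee ∧ |(B (0, 1, 0)).1| ≤ ee ∧ (∀ w, |(B (0, 0, w)).1| ≤ ee * ‖w‖) ∧
        |(B (1, 0, 0)).2.1| ≤ ee ∧ |(B (0, 1, 0)).2.1 - qw i| ≤ ee ∧
          (∀ w, |(B (0, 0, w)).2.1| ≤ ee * ‖w‖) ∧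
        ‖(B (1, 0, 0)).2.2‖ ≤ ee ∧ ‖(B (0, 1, 0)).2.2‖ ≤ ee ∧
          ∀ w, ‖(B (0, 0, w)).2.2‖ ≤ 1 / 50 * ‖w‖ := by
  obtain ⟨A, A', e1, e2, e3, e4⟩ := A04_mean h i h0 h1 h2 h3
  exact ⟨A, A', e1, e2, e3, fun B hB => (e4 B hB).1⟩

end Pool.Agent.Lib.H37D
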