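import Pool.Agent.Lib.H37D.A04

/-!
# H37D A05 (size M): the unstable and the stable system of a near map are good

`q0`, `qsum`: `qw P = 1/2`, `qw Q = 499/1000`, `pw P = 4/5`, `pw Q = 199/1000`; `Y0`: `YY_val`, `XX_val` (`off_qw`, `off_pw`, `e0 ≤ ee`); `X0`, `K0`: `XX_int` (`VV_sub_NN`), `YY_int`, `KK_val`.
Mean values: from `cross_mean`, with the components of `A` (compositions with `fst`, `snd`). For the stable system the linear map on `(ℝ × Wd d) × ℝ × Wd 0` is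
`u ↦ A (u.2.1, u.1.1, u.1.2)`, of norm at most that of `A` (the same for differences); `‖((B (0,y,w)).2)‖ ≤ 811/1000 ‖(y,w)‖`; the coordinate in `Wd 0` is `0` (`Subsingleton`).
-/

open Set Filter Topology
open scoped ContDiff

namespace Pool.Agent.Lib.H37D

open Pool.Agent.Lib.H37N

variable {d : ℕ} {g : En d → En d}

/-- the bounds of `cross_mean` -/
def A05_bd (i : Sy) (B : Cx d →L[ℝ] ℝ × ℝ × Wd d) : Prop :=
  |(B (1, 0, 0)).1 - pw i| ≤ ee ∧ |(B (0, 1, 0)).1| ≤ ee ∧ (∀ w, |(B (0, 0, w)).1| ≤ ee * ‖w‖) ∧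
    |(B (1, 0, 0)).2.1| ≤ ee ∧ |(B (0, 1, 0)).2.1 - qw i| ≤ ee ∧
      (∀ w, |(B (0, 0, w)).2.1| ≤ ee * ‖w‖) ∧
    ‖(B (1, 0, 0)).2.2‖ ≤ ee ∧ ‖(B (0, 1, 0)).2.2‖ ≤ ee ∧
      ∀ w, ‖(B (0, 0, w)).2.2‖ ≤ 1 / 50 * ‖w‖

/-- the additional bound of `A04_mean` -/
def A05_b0 (B : Cx d →L[ℝ] ℝ × ℝ × Wd d) : Prop := ∀ u : Cx d, u.1 = 0 → |(B u).1| ≤ ee * ‖u‖

theorem A05_mv (h : NearD g) (i : Sy) {E' Z : Type*} [NormedAddCommGroup E'] [NormedSpace ℝ E']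
    [NormedAddCommGroup Z] [NormedSpace ℝ Z] (T : E' →L[ℝ] Cx d) (hT : ∀ u, ‖T u‖ ≤ ‖u‖)
    (P : ℝ × ℝ × Wd d →L[ℝ] Z) (hP : ∀ v, ‖P v‖ ≤ ‖v‖) (S : Set E')
    (hS : ∀ z ∈ S, T z ∈ DX d) (C : Set (E' →L[ℝ] Z)) (F : E' → Z)
    (hF : ∀ z, F z = P (crT g i (T z)))
    (hC : ∀ B : Cx d →L[ℝ] ℝ × ℝ × Wd d, A05_bd i B → A05_b0 B → (P.comp B).comp T ∈ C) :
    MVd S C F := by
  intro z0 h0 z1 h1 z2 h2 z3 h3
  obtain ⟨A, A', e1, e2, e3, e4⟩ := A04_mean h i (hS z0 h0) (hS z1 h1) (hS z2 h2) (hS z3 h3)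
  refine ⟨(P.comp A).comp T, hC A (e4 A (by simp)).1 (e4 A (by simp)).2, (P.comp A').comp T,
    hC A' (e4 A' (by simp)).1 (e4 A' (by simp)).2, ?_, ?_, ?_⟩
  · rw [hF, hF, ← map_sub, e1, ← map_sub]
    rfl
  · rw [hF, hF, ← map_sub, e2, ← map_sub]
    rfl
  · have k1 : ‖(P.comp A).comp T - (P.comp A').comp T‖ ≤ ‖A - A'‖ := by
      refine ContinuousLinearMap.opNorm_le_bound _ (norm_nonneg _) fun u => ?_
      have : ((P.comp A).comp T - (P.comp A').comp T) u = P ((A - A') (T u)) := by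
        simp
      rw [this]
      exact (hP _).trans (((A - A').le_opNorm _).trans
        (mul_le_mul_of_nonneg_left (hT u) (norm_nonneg _)))
    refine k1.trans (e3.trans (mul_le_mul_of_nonneg_left (max_le_max ?_ ?_) ee_pos.le))
    · rw [← map_sub]
      exact hT _
    · rw [← map_sub]
      exact hT _

theorem A05_lin {Z : Type*} [NormedAddCommGroup Z] [NormedSpace ℝ Z] (B : Cx d →L[ℝ] Z)
    (t s : ℝ) (w : Wd d) : B (t, s, w) = t • B (1, 0, 0) + s • B (0, 1, 0) + B (0, 0, w) := by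
  rw [← map_smul, ← map_smul, ← map_add, ← map_add]
  congr 1
  simp

theorem A05_t {Z : Type*} [NormedAddCommGroup Z] [NormedSpace ℝ Z] (B : Cx d →L[ℝ] Z)
    (t : ℝ) : B (t, 0, 0) = t • B (1, 0, 0) := by
  rw [← map_smul]
  congr 1
  simp

theorem A05_consts (i : Sy) : 19 / 100 ≤ qw i ∧ qw i ≤ 1 / 2 ∧ 19 / 100 ≤ pw i ∧
    pw i ≤ 4 / 5 ∧ ee ≤ 1 / 1000 ∧ 0 < ee := by
  cases i <;> norm_num [qw, pw, ee]

theorem A05_P1 (v : ℝ × ℝ × Wd d) : ‖ContinuousLinearMap.fst ℝ ℝ (ℝ × Wd d) v‖ ≤ ‖v‖ :=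
  norm_fst_le v

theorem A05_P2 (v : ℝ × ℝ × Wd d) :
    ‖((ContinuousLinearMap.fst ℝ ℝ (Wd d)).comp (ContinuousLinearMap.snd ℝ ℝ (ℝ × Wd d))) v‖ ≤
      ‖v‖ :=
  (norm_fst_le v.2).trans (norm_snd_le v)

theorem A05_P3 (v : ℝ × ℝ × Wd d) :
    ‖((ContinuousLinearMap.snd ℝ ℝ (Wd d)).comp (ContinuousLinearMap.snd ℝ ℝ (ℝ × Wd d))) v‖ ≤
      ‖v‖ :=
  (norm_snd_le v.2).trans (norm_snd_le v)

theorem A05_P4 (v : ℝ × ℝ × Wd d) : ‖ContinuousLinearMap.snd ℝ ℝ (ℝ × Wd d) v‖ ≤ ‖v‖ :=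
  norm_snd_le v

/-- the time reversal of the coordinates -/
noncomputable def A05_T (d : ℕ) : (ℝ × Wd d) × ℝ × Wd 0 →L[ℝ] Cx d :=
  ((ContinuousLinearMap.fst ℝ ℝ (Wd 0)).comp
    (ContinuousLinearMap.snd ℝ (ℝ × Wd d) (ℝ × Wd 0))).prod
    (ContinuousLinearMap.fst ℝ (ℝ × Wd d) (ℝ × Wd 0))

theorem A05_T_apply (u : (ℝ × Wd d) × ℝ × Wd 0) : A05_T d u = (u.2.1, u.1) := rfl

theorem A05_T_norm (u : (ℝ × Wd d) × ℝ × Wd 0) : ‖A05_T d u‖ ≤ ‖u‖ := by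
  rw [A05_T_apply, Prod.norm_def]
  exact max_le ((norm_fst_le u.2).trans (norm_snd_le u)) (norm_fst_le u)

theorem A05_II1 (h : NearD g) (i : Sy) {z : Cx d} (hz : z ∈ DX d) : XX g i z ∈ II :=
  (mem_NN.mp (VV_sub_NN i (mem_VVd.mp (XX_spec h i hz).1).1)).1

theorem A05_II2 (h : NearD g) (i : Sy) {z : Cx d} (hz : z ∈ DX d) : YY g i z ∈ II :=
  Ioo_subset_Icc_self (YY_int h i hz)

theorem A05_domV {z : (ℝ × Wd d) × ℝ × Wd 0} (hz : z ∈ (SV g).dom) :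
    A05_T d z ∈ DX d := by
  obtain ⟨h1, h2, -⟩ := hz
  exact ⟨h2, h1.1, h1.2⟩

theorem NearD.good_U (h : NearD g) : (SU g).Good where
  q0 := fun i => by
    obtain ⟨c1, c2, -⟩ := A05_consts i
    exact ⟨c1, c2.trans (by norm_num)⟩
  qsum := by
    show qw Sy.P + qw Sy.Q = 1 - gam
    norm_num [qw, gam]
  X0 := fun i z hz => A05_II1 h i hz
  Y0 := fun i z hz => by
    show |YY g i z - (off qw i + qw i * z.2.1)| ≤ ee
    rw [off_qw]
    exact (YY_val h i hz).trans (by norm_num [e0, ee])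
  K0 := fun i z hz => by
    refine ⟨mem_BW.mpr (KK_int h i hz).le, (KK_val h i hz).trans ?_⟩
    have := mul_le_mul_of_nonneg_right (show aw ≤ 1 / 50 by norm_num [aw]) (norm_nonneg z.2.2)
    have : e0 ≤ ee := by norm_num [e0, ee]
    linarith
  mvX := fun i => by
    refine A05_mv h i (ContinuousLinearMap.id ℝ (Cx d)) (fun u => le_rfl)
      (ContinuousLinearMap.fst ℝ ℝ (ℝ × Wd d)) A05_P1 (SU g).dom (fun z hz => hz) _ _
      (fun z => rfl) ?_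
    rintro B ⟨b1, b2, b3, b4, b5, b6, b7, b8, b9⟩ b10
    refine ⟨fun t => ?_, b2, b3⟩
    show ‖(B (t, 0, 0)).1‖ ≤ 811 / 1000 * ‖t‖
    rw [A05_t]
    show ‖t • (B (1, 0, 0)).1‖ ≤ _
    rw [norm_smul, mul_comm]
    refine mul_le_mul_of_nonneg_right ?_ (norm_nonneg _)
    obtain ⟨-, -, c3, c4, c5, c6⟩ := A05_consts i
    rw [Real.norm_eq_abs, abs_le]
    have := abs_le.mp b1
    constructor <;> linarith [this.1, this.2]
  mvY := fun i => by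
    refine A05_mv h i (ContinuousLinearMap.id ℝ (Cx d)) (fun u => le_rfl)
      ((ContinuousLinearMap.fst ℝ ℝ (Wd d)).comp (ContinuousLinearMap.snd ℝ ℝ (ℝ × Wd d)))
      A05_P2 (SU g).dom (fun z hz => hz) _ _ (fun z => rfl) ?_
    rintro B ⟨b1, b2, b3, b4, b5, b6, b7, b8, b9⟩ b10
    refine ⟨fun t => ?_, b5, b6⟩
    show |(B (t, 0, 0)).2.1| ≤ ee * ‖t‖
    rw [A05_t]
    show |t * (B (1, 0, 0)).2.1| ≤ _
    rw [abs_mul, mul_comm]
    exact mul_le_mul_of_nonneg_right b4 (abs_nonneg _)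
  mvK := fun i => by
    refine A05_mv h i (ContinuousLinearMap.id ℝ (Cx d)) (fun u => le_rfl)
      ((ContinuousLinearMap.snd ℝ ℝ (Wd d)).comp (ContinuousLinearMap.snd ℝ ℝ (ℝ × Wd d)))
      A05_P3 (SU g).dom (fun z hz => hz) _ _ (fun z => rfl) ?_
    rintro B ⟨b1, b2, b3, b4, b5, b6, b7, b8, b9⟩ b10
    refine ⟨fun t => ?_, b8, b9⟩
    show ‖(B (t, 0, 0)).2.2‖ ≤ ee * ‖t‖
    rw [A05_t]
    show ‖t • (B (1, 0, 0)).2.2‖ ≤ _
    rw [norm_smul, mul_comm]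
    exact mul_le_mul_of_nonneg_right b7 (norm_nonneg _)

theorem NearD.good_S (h : NearD g) : (SV g).Good where
  q0 := fun i => by
    obtain ⟨-, -, c1, c2, -⟩ := A05_consts i
    exact ⟨c1, c2.trans (by norm_num)⟩
  qsum := by
    show pw Sy.P + pw Sy.Q = 1 - gam
    norm_num [pw, gam]
  X0 := fun i z hz =>
    ⟨A05_II2 h i (A05_domV hz), mem_BW.mpr (KK_int h i (A05_domV hz)).le⟩
  Y0 := fun i z hz => by
    show |XX g i (A05_T d z) - (off pw i + pw i * (A05_T d z).1)| ≤ ee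
    rw [off_pw]
    exact (XX_val h i (A05_domV hz)).trans (by norm_num [e0, ee])
  K0 := fun i z hz => by
    refine ⟨(RgW 0).zero_mem, ?_⟩
    show ‖(0 : Wd 0)‖ ≤ _
    rw [norm_zero]
    have := norm_nonneg z.2.2
    have := ee_pos
    positivity
  mvX := fun i => by
    refine A05_mv h i (A05_T d) A05_T_norm
      (ContinuousLinearMap.snd ℝ ℝ (ℝ × Wd d)) A05_P4 (SV g).dom (fun z hz => A05_domV hz) _ _
      (fun z => rfl) ?_
    rintro B ⟨b1, b2, b3, b4, b5, b6, b7, b8, b9⟩ b10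
    obtain ⟨c1, c2, c3, c4, c5, c6⟩ := A05_consts i
    refine ⟨fun u => ?_, ?_, fun v => ?_⟩
    · show ‖(B (0, u.1, u.2)).2‖ ≤ 811 / 1000 * ‖u‖
      have hu1 : |u.1| ≤ ‖u‖ := norm_fst_le u
      have hu2 : ‖u.2‖ ≤ ‖u‖ := norm_snd_le u
      have hu := norm_nonneg u
      rw [A05_lin, zero_smul, zero_add, Prod.norm_def]
      refine max_le ?_ ?_
      · show |u.1 * (B (0, 1, 0)).2.1 + (B (0, 0, u.2)).2.1| ≤ _
        have k1 : |u.1 * (B (0, 1, 0)).2.1| ≤ ‖u‖ * (501 / 1000) := by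
          rw [abs_mul]
          refine mul_le_mul hu1 ?_ (abs_nonneg _) hu
          rw [abs_le]
          have := abs_le.mp b5
          constructor <;> linarith [this.1, this.2]
        have k2 : |(B (0, 0, u.2)).2.1| ≤ 1 / 1000 * ‖u‖ :=
          (b6 u.2).trans (mul_le_mul c5 hu2 (norm_nonneg _) (by norm_num))
        refine (abs_add_le _ _).trans ?_
        linarith
      · show ‖u.1 • (B (0, 1, 0)).2.2 + (B (0, 0, u.2)).2.2‖ ≤ _
        have k1 : ‖u.1 • (B (0, 1, 0)).2.2‖ ≤ ‖u‖ * (1 / 1000) := by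
          rw [norm_smul]
          exact mul_le_mul hu1 (b8.trans c5) (norm_nonneg _) hu
        have k2 : ‖(B (0, 0, u.2)).2.2‖ ≤ 1 / 50 * ‖u‖ :=
          (b9 u.2).trans (mul_le_mul_of_nonneg_left hu2 (by norm_num))
        refine (norm_add_le _ _).trans ?_
        linarith
    · show ‖(B (1, 0, 0)).2‖ ≤ ee
      rw [Prod.norm_def]
      exact max_le b4 b7
    · show ‖(B (0, 0)).2‖ ≤ ee * ‖v‖
      have : ((0, 0) : Cx d) = 0 := rfl
      rw [this, map_zero, Prod.snd_zero, norm_zero]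
      exact mul_nonneg c6.le (norm_nonneg _)
  mvY := fun i => by
    refine A05_mv h i (A05_T d) A05_T_norm
      (ContinuousLinearMap.fst ℝ ℝ (ℝ × Wd d)) A05_P1 (SV g).dom (fun z hz => A05_domV hz) _ _
      (fun z => rfl) ?_
    rintro B ⟨b1, b2, b3, b4, b5, b6, b7, b8, b9⟩ b10
    obtain ⟨c1, c2, c3, c4, c5, c6⟩ := A05_consts i
    refine ⟨fun u => ?_, b1, fun v => ?_⟩
    · exact b10 (0, u.1, u.2) rfl |>.trans (mul_le_mul_of_nonneg_left (by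
        rw [Prod.norm_def]
        exact max_le (by simp) le_rfl) c6.le)
    · show |(B (0, 0)).1| ≤ ee * ‖v‖
      have : ((0, 0) : Cx d) = 0 := rfl
      rw [this, map_zero, Prod.fst_zero, abs_zero]
      exact mul_nonneg c6.le (norm_nonneg _)
  mvK := fun i => by
    intro z0 h0 z1 h1 z2 h2 z3 h3
    have hC : (0 : (ℝ × Wd d) × ℝ × Wd 0 →L[ℝ] Wd 0) ∈
        {A : (ℝ × Wd d) × ℝ × Wd 0 →L[ℝ] Wd 0 | (∀ h, ‖A (h, 0, 0)‖ ≤ ee * ‖h‖) ∧
        ‖A (0, 1, 0)‖ ≤ ee ∧ ∀ v, ‖A (0, 0, v)‖ ≤ 1 / 50 * ‖v‖} := by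
      refine ⟨fun u => ?_, ?_, fun v => ?_⟩
      · rw [zero_apply, norm_zero]
        exact mul_nonneg ee_pos.le (norm_nonneg _)
      · rw [zero_apply, norm_zero]
        exact ee_pos.le
      · rw [zero_apply, norm_zero]
        exact mul_nonneg (by norm_num) (norm_nonneg _)
    refine ⟨0, hC, 0, hC, ?_, ?_, ?_⟩
    · show (0 : Wd 0) - 0 = _
      rw [zero_apply, sub_self]
    · show (0 : Wd 0) - 0 = _
      rw [zero_apply, sub_self]
    · rw [sub_self, norm_zero]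
      exact mul_nonneg ee_pos.le (le_max_of_le_left (norm_nonneg _))

end Pool.Agent.Lib.H37D
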