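import Pool.Agent.Lib.H37D.A51

/-!
# H37D A53 (size M): monotonicity of `DD` in both leaves

As `Lib/H37N/A53.lean` (cone order for the unstable leaves).
-/

open Set Filter Topology

namespace Pool.Agent.Lib.H37D

open Pool.Agent.Lib.H37N

variable {d : ℕ} {g : En d → En d}

/-- Proof: `fold_vert` for the points `pt f0 x`, `pt f1 x`; `|s h1 - s h0| ≤ 10 ee * 10^-6 * Δ`. -/
theorem hh_mono (h : NearD g) {f0 f1 : ℝ → ℝ × Wd d} {s : ℝ × Wd d → ℝ} (h0 : ULeaf f0)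
    (h1 : ULeaf f1) (hs : SLeaf s) {x : ℝ} (hx : x ∈ JJ) (hle : LeC f0 f1 x) :
    (cc - 1 / 10 ^ 8) * ((f1 x).1 - (f0 x).1) ≤ hh g f1 s x - hh g f0 s x ∧
      hh g f1 s x - hh g f0 s x ≤ (cc + 1 / 10 ^ 8) * ((f1 x).1 - (f0 x).1) := by
  have a0 := graph_FF h0 hx
  have a1 := graph_FF h1 hx
  obtain ⟨b1, b2, b3⟩ := fold_vert h a0 a1 hle.2
  have b4 := hs.lip ((g (pt f1 x)).1.2, (g (pt f1 x)).2) ((g (pt f0 x)).1.2, (g (pt f0 x)).2)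
  have hD : 0 ≤ (f1 x).1 - (f0 x).1 := sub_nonneg.2 hle.1
  have b5 : |s ((g (pt f1 x)).1.2, (g (pt f1 x)).2) - s ((g (pt f0 x)).1.2, (g (pt f0 x)).2)| ≤
      10 * ee * (1 / 10 ^ 6 * ((f1 x).1 - (f0 x).1)) :=
    b4.trans (mul_le_mul_of_nonneg_left b3 (by norm_num [ee]))
  obtain ⟨b6, b7⟩ := abs_le.1 b5
  simp only [hh, pt, cc, ee, e0] at *
  constructor <;> nlinarith

theorem DD_mono_f (h : NearD g) {f0 f1 : ℝ → ℝ × Wd d} {s : ℝ × Wd d → ℝ} (h0 : ULeaf f0)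
    (h1 : ULeaf f1) (hs : SLeaf s) {L H : ℝ} (hL : 0 ≤ L) (hle : ∀ x ∈ JJ, LeC f0 f1 x)
    (hLe : ∀ x ∈ JJ, L ≤ (f1 x).1 - (f0 x).1) (hHe : ∀ x ∈ JJ, (f1 x).1 - (f0 x).1 ≤ H) :
    (cc - 1 / 10 ^ 8) * L ≤ DD g f1 s - DD g f0 s ∧ DD g f1 s - DD g f0 s ≤ (cc + 1 / 10 ^ 8) * H := by
  obtain ⟨x0, hx0, e0'⟩ := DD_attained h h0 hs
  obtain ⟨x1, hx1, e1'⟩ := DD_attained h h1 hs
  have c1 := hh_le_DD h h1 hs hx0
  have c0 := hh_le_DD h h0 hs hx1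
  have d0 := (hh_mono h h0 h1 hs hx0 (hle x0 hx0)).1
  have d1 := (hh_mono h h0 h1 hs hx1 (hle x1 hx1)).2
  have l0 := hLe x0 hx0
  have l1 := hHe x1 hx1
  have m0 : (cc - 1 / 10 ^ 8) * L ≤ (cc - 1 / 10 ^ 8) * ((f1 x0).1 - (f0 x0).1) :=
    mul_le_mul_of_nonneg_left l0 (by norm_num [cc])
  have m1 : (cc + 1 / 10 ^ 8) * ((f1 x1).1 - (f0 x1).1) ≤ (cc + 1 / 10 ^ 8) * H :=
    mul_le_mul_of_nonneg_left l1 (by norm_num [cc])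
  constructor <;> linarith

theorem DD_mono_s (h : NearD g) {f : ℝ → ℝ × Wd d} {s0 s1 : ℝ × Wd d → ℝ} (hf : ULeaf f)
    (h0 : SLeaf s0) (h1 : SLeaf s1) {L H : ℝ} (hLe : ∀ y, L ≤ s1 y - s0 y)
    (hHe : ∀ y, s1 y - s0 y ≤ H) : L ≤ DD g f s0 - DD g f s1 ∧ DD g f s0 - DD g f s1 ≤ H := by
  obtain ⟨x0, hx0, e0'⟩ := DD_attained h hf h0
  obtain ⟨x1, hx1, e1'⟩ := DD_attained h hf h1
  have c1 := hh_le_DD h hf h1 hx0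
  have c0 := hh_le_DD h hf h0 hx1
  have l0 := hLe ((g (pt f x1)).1.2, (g (pt f x1)).2)
  have l1 := hHe ((g (pt f x0)).1.2, (g (pt f x0)).2)
  simp only [hh] at e0' e1' c0 c1
  constructor <;> linarith

theorem DD_le_f (h : NearD g) {f0 f1 : ℝ → ℝ × Wd d} {s : ℝ × Wd d → ℝ} (h0 : ULeaf f0)
    (h1 : ULeaf f1) (hs : SLeaf s) (hle : ∀ x ∈ JJ, LeC f0 f1 x) : DD g f0 s ≤ DD g f1 s := by
  obtain ⟨x0, hx0, e0'⟩ := DD_attained h h0 hs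
  have c1 := hh_le_DD h h1 hs hx0
  have d0 := (hh_mono h h0 h1 hs hx0 (hle x0 hx0)).1
  have m0 : 0 ≤ (cc - 1 / 10 ^ 8) * ((f1 x0).1 - (f0 x0).1) :=
    mul_nonneg (by norm_num [cc]) (sub_nonneg.2 (hle x0 hx0).1)
  linarith

theorem DD_le_s (h : NearD g) {f : ℝ → ℝ × Wd d} {s0 s1 : ℝ × Wd d → ℝ} (hf : ULeaf f)
    (h0 : SLeaf s0) (h1 : SLeaf s1) (hle : ∀ y, s0 y ≤ s1 y) : DD g f s1 ≤ DD g f s0 := by
  obtain ⟨x1, hx1, e1'⟩ := DD_attained h hf h1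
  have c0 := hh_le_DD h hf h0 hx1
  have l0 := hle ((g (pt f x1)).1.2, (g (pt f x1)).2)
  simp only [hh] at e1' c0
  linarith

end Pool.Agent.Lib.H37D
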