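import Pool.Agent.Lib.H37D.D0
import Pool.Agent.Lib.H37N.T6a

/-! # H37D, chunk DN06: FC, flat correction by a small perturbation in `En d` (port of H37N/T6b) -/

open Set Filter Topology Asymptotics
open scoped ContDiff

namespace Pool.Agent.Lib.H37D

open Pool.Agent.Lib.H37N

variable {d : ℕ}

/-- T6 (FC) in `En d`. -/
theorem flat_corrD (R : ℕ) {ε : ℝ} (hε : 0 < ε) {z₀ : En d} (hz : z₀ ∈ interior (K0D d)) {G : En d → En d}
    (hG : ∀ᶠ z in 𝓝 z₀, ContDiffAt ℝ ∞ G z)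
    (h : (fun z => G z - z) =O[𝓝 z₀] fun z => ‖z - z₀‖ ^ (R + 1)) {B : Set (En d)} (hB : B ∈ 𝓝 z₀) :
    ∃ ψ : En d → En d, SmallD R ε ψ ∧ (∀ z, z ∉ B → ψ z = z) ∧ ψ =ᶠ[𝓝 z₀] G := by
  have hG' : ∀ᶠ z in 𝓝 z₀, ContDiffAt ℝ ∞ (fun z => G z - z) z := by
    filter_upwards [hG] with z hz
    exact hz.sub contDiffAt_id
  obtain ⟨f, hf, hfG⟩ := localise_at hG'
  have hf2 : f =O[𝓝 z₀] fun z => ‖z - z₀‖ ^ (R + 1) := hfG.trans_isBigO h
  have hB2 : B ∩ interior (K0D d) ∈ 𝓝 z₀ := inter_mem hB (isOpen_interior.mem_nhds hz)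
  obtain ⟨g, hg, hgc, hgs, hgf, hgb⟩ := flat_cut hf z₀ R hf2 hε hB2
  have h0 : ∀ z, z ∉ B ∩ interior (K0D d) → g z = 0 := by
    intro z hz
    by_contra hne
    exact hz (hgs (subset_tsupport g hne))
  refine ⟨fun z => z + g z, ⟨contDiff_id.add hg, ?_, ?_⟩, ?_, ?_⟩
  · intro z hz
    have h1 : g z = 0 := h0 z (fun h => hz (interior_subset h.2))
    simp [h1]
  · intro j hj z
    have h1 : (fun z => z + g z - z) = g := by
      funext z
      simp
    rw [h1]
    exact hgb j hj z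
  · intro z hz
    have h1 : g z = 0 := h0 z (fun h => hz h.1)
    simp [h1]
  · filter_upwards [hgf, hfG] with z h1 h2
    rw [h1, h2]
    simp

/-- the region is inside the box of perturbations -/
theorem omd_sub_K0D : Omd d ⊆ interior (K0D d) := by
  have h1 : IsOpen (Omd d) := by
    unfold Omd Om
    exact ((isOpen_interior.union isOpen_interior).union isOpen_interior).prod Metric.isOpen_ball
  refine interior_maximal ?_ h1
  intro z hz
  refine ⟨?_, ?_⟩
  · have h2 : z.1 ∈ Om := hz.1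
    rcases h2 with (h2 | h2) | h2
    · have h3 := interior_subset h2
      simp only [VV, mem_prod, mem_Icc, al, pw, del] at h3
      simp only [K0, mem_prod, mem_Icc]
      refine ⟨⟨?_, ?_⟩, ⟨?_, ?_⟩⟩ <;> linarith [h3.1.1, h3.1.2, h3.2.1, h3.2.2]
    · have h3 := interior_subset h2
      simp only [VV, mem_prod, mem_Icc, al, pw, del] at h3
      simp only [K0, mem_prod, mem_Icc]
      refine ⟨⟨?_, ?_⟩, ⟨?_, ?_⟩⟩ <;> linarith [h3.1.1, h3.1.2, h3.2.1, h3.2.2]
    · have h3 := interior_subset h2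
      simp only [FF, mem_prod, mem_Icc, xc, u0, del] at h3
      simp only [K0, mem_prod, mem_Icc]
      refine ⟨⟨?_, ?_⟩, ⟨?_, ?_⟩⟩ <;> linarith [h3.1.1, h3.1.2, h3.2.1, h3.2.2]
  · have h2 : z.2 ∈ Metric.ball (0 : Wd d) 1 := hz.2
    exact Metric.closedBall_subset_closedBall (by norm_num) (Metric.ball_subset_closedBall h2)

end Pool.Agent.Lib.H37D
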