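import Pool.Agent.Lib.H37D.A11

/-!
# H37D A12 (size M): the graph transform preserves leaves; comparison of two leaves

As `Lib/H37N/A12.lean`. The norm of `ℝ × V` is the maximum of the two norms.
-/

open Set Filter Topology

namespace Pool.Agent.Lib.H37D

open Pool.Agent.Lib.H37N

variable {H V : Type*} [NormedAddCommGroup H] [NormedSpace ℝ H] [CompleteSpace H]
  [NormedAddCommGroup V] [NormedSpace ℝ V] {S : Sys H V}

theorem da12_ee : 0 < ee ∧ ee ≤ 1 / 100000 := by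
  have : ee = 1 / 10 ^ 10 := rfl
  rw [this]
  norm_num

theorem da12_fst {V : Type*} [NormedAddCommGroup V] (a b : ℝ × V) : |a.1 - b.1| ≤ ‖a - b‖ := by
  have := norm_fst_le (a - b)
  simpa using this

theorem da12_snd {V : Type*} [NormedAddCommGroup V] (a b : ℝ × V) : ‖a.2 - b.2‖ ≤ ‖a - b‖ := by
  have := norm_snd_le (a - b)
  simpa using this

theorem da12_le {V : Type*} [NormedAddCommGroup V] {a b : ℝ × V} {c : ℝ} (h1 : |a.1 - b.1| ≤ c)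
    (h2 : ‖a.2 - b.2‖ ≤ c) : ‖a - b‖ ≤ c := by
  rw [Prod.norm_def]
  refine max_le ?_ ?_
  · simpa using h1
  · simpa using h2

theorem GG_val (h : S.Good) (i : Sy) {f : H → ℝ × V} (hf : S.Leaf f) (x' : H) :
    |(S.GG i f x').1 - (off S.q i + S.q i * (f (S.sol i f x')).1)| ≤ ee :=
  h.Y0 i _ (hf.mem_dom x' _)

theorem GG_int (h : S.Good) (i : Sy) {f : H → ℝ × V} (hf : S.Leaf f) (x' : H) :
    -del + del / 10 ≤ (S.GG i f x').1 ∧ (S.GG i f x').1 ≤ 1 + del - del / 10 :=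
  h.Y_mem i (hf.mem_dom x' _)

/-- Proof. `mem1`: `GG_int`; `mem2`, `small`: `h.K0` (`1/50 * 3 ee + ee ≤ 3 ee`); `lip`: with `x = sol x'`, `y = sol y'`, `D = ‖cl x' - cl y'‖`,
`Y_diff` (`|q i| ≤ 81/100`) and `K_diff`: both components of the difference are at most
`ee D + (81/100 + 2 ee) ‖f x - f y‖ ≤ ee D + (811/1000) * 10 ee * (812/1000) D ≤ 10 ee D` (`sol_lip`), `RH.cl_lip`. -/
theorem GG_leaf (h : S.Good) (i : Sy) {f : H → ℝ × V} (hf : S.Leaf f) : S.Leaf (S.GG i f) := by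
  obtain ⟨he0, he1⟩ := da12_ee
  refine ⟨fun x => ?_, fun x => ?_, fun x => ?_, fun x' y' => ?_⟩
  · obtain ⟨h1, h2⟩ := GG_int h i hf x
    have hd : (0 : ℝ) < del := by norm_num [del]
    rw [II_def]
    exact ⟨by linarith, by linarith⟩
  · exact (h.K0 i _ (hf.mem_dom x _)).1
  · have h1 := (h.K0 i _ (hf.mem_dom x (S.sol i f x))).2
    have h2 := hf.small (S.sol i f x)
    refine h1.trans ?_
    simp only
    linarith
  · have hq := h.q0 i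
    have hY := h.Y_diff i (hf.mem_dom y' (S.sol i f y')) (hf.mem_dom x' (S.sol i f x'))
    have hK := h.K_diff i (hf.mem_dom y' (S.sol i f y')) (hf.mem_dom x' (S.sol i f x'))
    have hs := sol_lip h i hf x' y'
    have h3 := hf.lip (S.sol i f x') (S.sol i f y')
    have h4 := S.RH.cl_lip x' y'
    simp only at hY hK
    have a1 := da12_fst (f (S.sol i f x')) (f (S.sol i f y'))
    have a2 := da12_snd (f (S.sol i f x')) (f (S.sol i f y'))
    set D := ‖S.RH.cl x' - S.RH.cl y'‖ with hD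
    set F := ‖f (S.sol i f x') - f (S.sol i f y')‖ with hF
    have hF0 : 0 ≤ F := norm_nonneg _
    have hD0 : 0 ≤ D := norm_nonneg _
    have h5 : F ≤ 10 * ee * (812 / 1000 * D) :=
      h3.trans (mul_le_mul_of_nonneg_left hs (by positivity))
    have h6 : ee * D ≤ ee * ‖x' - y'‖ := mul_le_mul_of_nonneg_left h4 he0.le
    have h7 : ee * F ≤ 1 / 100000 * F := mul_le_mul_of_nonneg_right he1 hF0
    have h8 : ee * |(f (S.sol i f x')).1 - (f (S.sol i f y')).1| ≤ ee * F :=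
      mul_le_mul_of_nonneg_left a1 he0.le
    have h9 : ee * ‖(f (S.sol i f x')).2 - (f (S.sol i f y')).2‖ ≤ ee * F :=
      mul_le_mul_of_nonneg_left a2 he0.le
    have h12 : 0 ≤ ee * D := by positivity
    have h13 : 10 * ee * (812 / 1000 * D) = 812 / 100 * (ee * D) := by ring
    rw [h13] at h5
    refine da12_le ?_ ?_
    · have h10 : |S.q i * ((f (S.sol i f x')).1 - (f (S.sol i f y')).1)| ≤ 81 / 100 * F := by
        rw [abs_mul, abs_of_nonneg (by linarith [hq.1] : (0 : ℝ) ≤ S.q i)]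
        exact mul_le_mul hq.2 a1 (abs_nonneg _) (by norm_num)
      have h11 := abs_add_le (S.Y i (S.RH.cl x', f (S.sol i f x')) -
        S.Y i (S.RH.cl y', f (S.sol i f y')) -
        S.q i * ((f (S.sol i f x')).1 - (f (S.sol i f y')).1))
        (S.q i * ((f (S.sol i f x')).1 - (f (S.sol i f y')).1))
      rw [sub_add_cancel] at h11
      show |S.Y i (S.RH.cl x', f (S.sol i f x')) - S.Y i (S.RH.cl y', f (S.sol i f y'))| ≤ _
      linarith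
    · show ‖S.K i (S.RH.cl x', f (S.sol i f x')) - S.K i (S.RH.cl y', f (S.sol i f y'))‖ ≤ _
      linarith

/-- comparison. Proof. `x0 = sol f0 x'`, `x1 = sol f1 x'`; `X_diff` with equal first components: `‖x1 - x0‖ ≤ 2 ee ‖f1 x1 - f0 x0‖`;
`f1 x1 - f0 x0 = (f1 x1 - f1 x0) + (f1 x0 - f0 x0)`, `‖f1 x1 - f1 x0‖ ≤ 10 ee ‖x1 - x0‖ ≤ 20 ee^2 ‖f1 x1 - f0 x0‖`, so
`‖f1 x1 - f0 x0‖ ≤ 1.001 M` and `‖f1 x1 - f1 x0‖ ≤ 21 ee^2 M`, `M = ‖f1 x0 - f0 x0‖`. `Y_diff`, `K_diff` with equal first components. -/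
theorem GG_diff (h : S.Good) (i : Sy) {f0 f1 : H → ℝ × V} (h0 : S.Leaf f0) (h1 : S.Leaf f1) (x' : H) :
    |(S.GG i f1 x').1 - (S.GG i f0 x').1 -
        S.q i * ((f1 (S.sol i f0 x')).1 - (f0 (S.sol i f0 x')).1)| ≤
      3 * ee * ‖f1 (S.sol i f0 x') - f0 (S.sol i f0 x')‖ ∧
    ‖(S.GG i f1 x').2 - (S.GG i f0 x').2‖ ≤
      1 / 50 * ‖(f1 (S.sol i f0 x')).2 - (f0 (S.sol i f0 x')).2‖ +
        3 * ee * ‖f1 (S.sol i f0 x') - f0 (S.sol i f0 x')‖ := by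
  obtain ⟨he0, he1⟩ := da12_ee
  have hq := h.q0 i
  set x0 := S.sol i f0 x' with hx0
  set x1 := S.sol i f1 x' with hx1
  have e0 : x0 = S.X i (S.RH.cl x', f0 x0) := sol_spec h i h0 x'
  have e1 : x1 = S.X i (S.RH.cl x', f1 x1) := sol_spec h i h1 x'
  have h2 := h.X_diff i (h0.mem_dom x' x0) (h1.mem_dom x' x1)
  rw [← e0, ← e1] at h2
  simp only [sub_self, norm_zero, mul_zero, zero_add] at h2
  have h3 := h.Y_diff i (h0.mem_dom x' x0) (h1.mem_dom x' x1)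
  simp only [sub_self, norm_zero, mul_zero, zero_add] at h3
  have h4 := h.K_diff i (h0.mem_dom x' x0) (h1.mem_dom x' x1)
  simp only [sub_self, norm_zero, mul_zero, zero_add] at h4
  have h5 := h1.lip x1 x0
  have w1 := da12_fst (f1 x1) (f0 x0)
  have w2 := da12_snd (f1 x1) (f0 x0)
  have v1 := da12_fst (f1 x1) (f1 x0)
  have v2 := da12_snd (f1 x1) (f1 x0)
  have m : ‖f1 x1 - f0 x0‖ ≤ ‖f1 x1 - f1 x0‖ + ‖f1 x0 - f0 x0‖ := norm_sub_le_norm_sub_add_norm_sub _ _ _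
  set W := ‖f1 x1 - f0 x0‖ with hW
  set E := ‖f1 x1 - f1 x0‖ with hE
  set M := ‖f1 x0 - f0 x0‖ with hM
  have hW0 : 0 ≤ W := norm_nonneg _
  have hE0 : 0 ≤ E := norm_nonneg _
  have hM0 : 0 ≤ M := norm_nonneg _
  have w3 : ee * |(f1 x1).1 - (f0 x0).1| ≤ ee * W := mul_le_mul_of_nonneg_left w1 he0.le
  have w4 : ee * ‖(f1 x1).2 - (f0 x0).2‖ ≤ ee * W := mul_le_mul_of_nonneg_left w2 he0.le
  have h6 : ‖x1 - x0‖ ≤ 2 * (ee * W) := by linarith
  have h7 : E ≤ 10 * ee * (2 * (ee * W)) := h5.trans (mul_le_mul_of_nonneg_left h6 (by positivity))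
  have h8 : 10 * ee * (2 * (ee * W)) ≤ 1 / 10000 * (2 * (ee * W)) :=
    mul_le_mul_of_nonneg_right (by linarith) (by positivity)
  have h9 : ee * W ≤ 1 / 100000 * W := mul_le_mul_of_nonneg_right he1 hW0
  have h10 : W ≤ 1001 / 1000 * M := by linarith
  have h11 : ee * W ≤ ee * (1001 / 1000 * M) := mul_le_mul_of_nonneg_left h10 he0.le
  have h12 : ee * (1001 / 1000 * M) = 1001 / 1000 * (ee * M) := by ring
  have h13 : 0 ≤ ee * M := by positivity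
  have h14 : 3 * ee * M = 3 * (ee * M) := by ring
  rw [h14]
  constructor
  · have h15 : |S.q i * ((f1 x1).1 - (f1 x0).1)| ≤ 1 * E := by
      rw [abs_mul, abs_of_nonneg (by linarith [hq.1] : (0 : ℝ) ≤ S.q i)]
      exact mul_le_mul (by linarith [hq.2]) v1 (abs_nonneg _) (by norm_num)
    have h16 := abs_add_le ((S.GG i f1 x').1 - (S.GG i f0 x').1 -
      S.q i * ((f1 x1).1 - (f0 x0).1)) (S.q i * ((f1 x1).1 - (f1 x0).1))
    have e : (S.GG i f1 x').1 - (S.GG i f0 x').1 - S.q i * ((f1 x1).1 - (f0 x0).1) +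
        S.q i * ((f1 x1).1 - (f1 x0).1) = (S.GG i f1 x').1 - (S.GG i f0 x').1 -
        S.q i * ((f1 x0).1 - (f0 x0).1) := by ring
    rw [e] at h16
    have h3' : |(S.GG i f1 x').1 - (S.GG i f0 x').1 - S.q i * ((f1 x1).1 - (f0 x0).1)| ≤
      ee * |(f1 x1).1 - (f0 x0).1| + ee * ‖(f1 x1).2 - (f0 x0).2‖ := h3
    linarith
  · have h4' : ‖(S.GG i f1 x').2 - (S.GG i f0 x').2‖ ≤
      ee * |(f1 x1).1 - (f0 x0).1| + 1 / 50 * ‖(f1 x1).2 - (f0 x0).2‖ := h4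
    have h17 : ‖(f1 x1).2 - (f0 x0).2‖ ≤ ‖(f1 x1).2 - (f1 x0).2‖ + ‖(f1 x0).2 - (f0 x0).2‖ :=
      norm_sub_le_norm_sub_add_norm_sub _ _ _
    linarith

theorem da12_norm {V : Type*} [NormedAddCommGroup V] {a b : ℝ × V} (h1 : a.1 ≤ b.1)
    (h2 : ‖b.2 - a.2‖ ≤ b.1 - a.1) : ‖b - a‖ = b.1 - a.1 := by
  refine le_antisymm (da12_le (le_of_eq (abs_of_nonneg (sub_nonneg.2 h1))) h2) ?_
  exact (le_abs_self _).trans (da12_fst b a)

theorem da12_cone {V : Type*} [NormedAddCommGroup V] {a b a' b' : ℝ × V} {e q : ℝ}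
    (h1 : a.1 ≤ b.1) (h2 : ‖b.2 - a.2‖ ≤ b.1 - a.1) (he0 : 0 < e) (he1 : e ≤ 1 / 100000)
    (hq : 19 / 100 ≤ q ∧ q ≤ 81 / 100)
    (h3 : |b'.1 - a'.1 - q * (b.1 - a.1)| ≤ 3 * e * ‖b - a‖)
    (h4 : ‖b'.2 - a'.2‖ ≤ 1 / 50 * ‖b.2 - a.2‖ + 3 * e * ‖b - a‖) :
    18 / 100 * (b.1 - a.1) ≤ b'.1 - a'.1 ∧ ‖b'.2 - a'.2‖ ≤ b'.1 - a'.1 := by
  rw [da12_norm h1 h2] at h3 h4
  have h5 := (abs_le.1 h3).1
  have h6 : 0 ≤ b.1 - a.1 := sub_nonneg.2 h1
  have h7 : 19 / 100 * (b.1 - a.1) ≤ q * (b.1 - a.1) := mul_le_mul_of_nonneg_right hq.1 h6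
  have h8 : 3 * e * (b.1 - a.1) ≤ 1 / 1000 * (b.1 - a.1) :=
    mul_le_mul_of_nonneg_right (by linarith) h6
  constructor <;> linarith

/-- Proof. `GG_diff` at `x0`: `Δ = (f1 x0).1 - (f0 x0).1 ≥ 0`, `‖f1 x0 - f0 x0‖ = Δ` (cone), so the new first component is
`≥ (q i - 3 ee) Δ ≥ 18/100 Δ` and the new second component has norm `≤ (1/50 + 3 ee) Δ`. -/
theorem GG_mono (h : S.Good) (i : Sy) {f0 f1 : H → ℝ × V} (h0 : S.Leaf f0) (h1 : S.Leaf f1)
    (hle : ∀ x, LeC f0 f1 x) (x' : H) : LeC (S.GG i f0) (S.GG i f1) x' := by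
  obtain ⟨he0, he1⟩ := da12_ee
  obtain ⟨h2, h3⟩ := GG_diff h i h0 h1 x'
  obtain ⟨h4, h5⟩ := hle (S.sol i f0 x')
  obtain ⟨h6, h7⟩ := da12_cone h4 h5 he0 he1 (h.q0 i) h2 h3
  have h8 : 0 ≤ (f1 (S.sol i f0 x')).1 - (f0 (S.sol i f0 x')).1 := sub_nonneg.2 h4
  exact ⟨by linarith, h7⟩

theorem GG_strictMono (h : S.Good) (i : Sy) {f0 f1 : H → ℝ × V} (h0 : S.Leaf f0) (h1 : S.Leaf f1)
    (hle : ∀ x, LtC f0 f1 x) (x' : H) : LtC (S.GG i f0) (S.GG i f1) x' := by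
  obtain ⟨he0, he1⟩ := da12_ee
  obtain ⟨h2, h3⟩ := GG_diff h i h0 h1 x'
  obtain ⟨h4, h5⟩ := hle (S.sol i f0 x')
  obtain ⟨h6, h7⟩ := da12_cone h4.le h5 he0 he1 (h.q0 i) h2 h3
  have h8 : 0 < (f1 (S.sol i f0 x')).1 - (f0 (S.sol i f0 x')).1 := sub_pos.2 h4
  exact ⟨by linarith, h7⟩

theorem GG_contr (h : S.Good) (i : Sy) {f0 f1 : H → ℝ × V} (h0 : S.Leaf f0) (h1 : S.Leaf f1) {C : ℝ}
    (hC : ∀ x, ‖f1 x - f0 x‖ ≤ C) (x' : H) : ‖S.GG i f1 x' - S.GG i f0 x'‖ ≤ 82 / 100 * C := by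
  obtain ⟨he0, he1⟩ := da12_ee
  obtain ⟨h2, h3⟩ := GG_diff h i h0 h1 x'
  have hc := hC (S.sol i f0 x')
  have a1 := da12_fst (f1 (S.sol i f0 x')) (f0 (S.sol i f0 x'))
  have a2 := da12_snd (f1 (S.sol i f0 x')) (f0 (S.sol i f0 x'))
  have hq := h.q0 i
  set M := ‖f1 (S.sol i f0 x') - f0 (S.sol i f0 x')‖ with hM
  have hM0 : 0 ≤ M := norm_nonneg _
  have h5 : 3 * ee * M ≤ 1 / 1000 * M := mul_le_mul_of_nonneg_right (by linarith) hM0
  refine da12_le ?_ ?_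
  · have h6 : |S.q i * ((f1 (S.sol i f0 x')).1 - (f0 (S.sol i f0 x')).1)| ≤ 81 / 100 * M := by
      rw [abs_mul, abs_of_nonneg (by linarith [hq.1] : (0 : ℝ) ≤ S.q i)]
      exact mul_le_mul hq.2 a1 (abs_nonneg _) (by norm_num)
    have h7 := abs_add_le ((S.GG i f1 x').1 - (S.GG i f0 x').1 -
      S.q i * ((f1 (S.sol i f0 x')).1 - (f0 (S.sol i f0 x')).1))
      (S.q i * ((f1 (S.sol i f0 x')).1 - (f0 (S.sol i f0 x')).1))
    rw [sub_add_cancel] at h7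
    linarith
  · linarith

/-! the same for words: induction on `w` (generalizing the leaves) -/

theorem Gw_leaf (h : S.Good) (w : List Sy) {f : H → ℝ × V} (hf : S.Leaf f) : S.Leaf (S.Gw w f) := by
  induction w generalizing f with
  | nil => exact hf
  | cons i w ih => exact ih (GG_leaf h i hf)

theorem Gw_mono (h : S.Good) (w : List Sy) {f0 f1 : H → ℝ × V} (h0 : S.Leaf f0) (h1 : S.Leaf f1)
    (hle : ∀ x, LeC f0 f1 x) (x' : H) : LeC (S.Gw w f0) (S.Gw w f1) x' := by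
  induction w generalizing f0 f1 with
  | nil => exact hle x'
  | cons i w ih => exact ih (GG_leaf h i h0) (GG_leaf h i h1) (GG_mono h i h0 h1 hle)

theorem Gw_strictMono (h : S.Good) (w : List Sy) {f0 f1 : H → ℝ × V} (h0 : S.Leaf f0)
    (h1 : S.Leaf f1) (hle : ∀ x, LtC f0 f1 x) (x' : H) : LtC (S.Gw w f0) (S.Gw w f1) x' := by
  induction w generalizing f0 f1 with
  | nil => exact hle x'
  | cons i w ih => exact ih (GG_leaf h i h0) (GG_leaf h i h1) (GG_strictMono h i h0 h1 hle)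

theorem Gw_contr (h : S.Good) (w : List Sy) {f0 f1 : H → ℝ × V} (h0 : S.Leaf f0) (h1 : S.Leaf f1)
    {C : ℝ} (hC : ∀ x, ‖f1 x - f0 x‖ ≤ C) (x' : H) :
    ‖S.Gw w f1 x' - S.Gw w f0 x'‖ ≤ (82 / 100) ^ w.length * C := by
  induction w generalizing f0 f1 C with
  | nil => simpa [Sys.Gw_nil] using hC x'
  | cons i w ih =>
    have h2 := ih (GG_leaf h i h0) (GG_leaf h i h1) (GG_contr h i h0 h1 hC)
    rw [List.length_cons, pow_succ, mul_assoc]
    exact h2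

theorem Sys.Leaf.continuous {f : H → ℝ × V} (hf : S.Leaf f) : Continuous f := by
  refine LipschitzWith.continuous (K := ⟨10 * ee, by norm_num [ee]⟩) ?_
  refine LipschitzWith.of_dist_le_mul fun x y => ?_
  rw [dist_eq_norm, dist_eq_norm]
  exact hf.lip x y

end Pool.Agent.Lib.H37D
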