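import Pool.Agent.Lib.H37D.A12

/-!
# H37D A35 (size S/M): points of transformed leaves lie on cross orbits

As `Lib/H37N/A35.lean`.
-/

open Set Filter Topology

namespace Pool.Agent.Lib.H37D

open Pool.Agent.Lib.H37N

variable {H V : Type*} [NormedAddCommGroup H] [NormedSpace ℝ H] [CompleteSpace H]
  [NormedAddCommGroup V] [NormedSpace ℝ V] {S : Sys H V}

theorem leaf_orbit (h : S.Good) (w : List Sy) {f : H → ℝ × V} (hf : S.Leaf f) {x : H}
    (hx : x ∈ S.RH.S) : ∃ (xs : ℕ → H) (ys : ℕ → ℝ) (vs : ℕ → V),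
      S.Orb (fun n => w.getD n Sy.P) w.length xs ys vs ∧ xs w.length = x ∧
      (ys w.length, vs w.length) = S.Gw w f x ∧ (ys 0, vs 0) = f (xs 0) := by
  induction w generalizing f with
  | nil =>
    exact ⟨fun _ => x, fun _ => (f x).1, fun _ => (f x).2,
      ⟨fun n _ => hx, fun n _ => hf.mem1 x, fun n _ => hf.mem2 x,
      fun n hn => absurd hn (Nat.not_lt_zero _), fun n hn => absurd hn (Nat.not_lt_zero _),
      fun n hn => absurd hn (Nat.not_lt_zero _)⟩,
      rfl, rfl, rfl⟩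
  | cons j w ih =>
    obtain ⟨xs, ys, vs, o, h1, h2, h3⟩ := ih (GG_leaf h j hf)
    have hx0 : xs 0 ∈ S.RH.S := o.mx 0 (Nat.zero_le _)
    refine ⟨fun n => Nat.casesOn n (S.sol j f (xs 0)) xs,
      fun n => Nat.casesOn n (f (S.sol j f (xs 0))).1 ys,
      fun n => Nat.casesOn n (f (S.sol j f (xs 0))).2 vs, ⟨?_, ?_, ?_, ?_, ?_, ?_⟩, ?_, ?_, ?_⟩
    · rintro (_ | n) hn
      · exact sol_mem h j hf _
      · exact o.mx n (Nat.le_of_succ_le_succ hn)
    · rintro (_ | n) hn
      · exact hf.mem1 _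
      · exact o.my n (Nat.le_of_succ_le_succ hn)
    · rintro (_ | n) hn
      · exact hf.mem2 _
      · exact o.mv n (Nat.le_of_succ_le_succ hn)
    · rintro (_ | n) hn
      · have := sol_spec h j hf (xs 0)
        rw [S.RH.cl_of _ hx0] at this
        exact this
      · exact o.ex n (Nat.lt_of_succ_lt_succ hn)
    · rintro (_ | n) hn
      · have h4 : ys 0 = (S.GG j f (xs 0)).1 := congrArg Prod.fst h3
        show ys 0 = S.Y j (xs 0, (f (S.sol j f (xs 0))).1, (f (S.sol j f (xs 0))).2)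
        rw [h4]
        unfold Sys.GG
        rw [S.RH.cl_of _ hx0]
      · exact o.ey n (Nat.lt_of_succ_lt_succ hn)
    · rintro (_ | n) hn
      · have h4 : vs 0 = (S.GG j f (xs 0)).2 := congrArg Prod.snd h3
        show vs 0 = S.K j (xs 0, (f (S.sol j f (xs 0))).1, (f (S.sol j f (xs 0))).2)
        rw [h4]
        unfold Sys.GG
        rw [S.RH.cl_of _ hx0]
      · exact o.ev n (Nat.lt_of_succ_lt_succ hn)
    · exact h1
    · exact h2
    · rfl

end Pool.Agent.Lib.H37D
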