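import Pool.Agent.Lib.H37D.A15
import Pool.Agent.Lib.H37D.A36
import Pool.Agent.Lib.H37N.A37

/-!
# H37D A37 (size M): gaps of the leaves of a word

As `Lib/H37N/A37.lean`.
-/

open Set Filter Topology

namespace Pool.Agent.Lib.H37D

open Pool.Agent.Lib.H37N

variable {H V : Type*} [NormedAddCommGroup H] [NormedSpace ℝ H] [CompleteSpace H]
  [NormedAddCommGroup V] [NormedSpace ℝ V] [CompleteSpace V] {S : Sys H V}

/-- the gap of the word at `x'` -/
noncomputable def gp (S : Sys H V) (w : List Sy) (x' : H) : ℝ :=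
  (S.Gw w (S.fixL Sy.Q) x').1 - (S.Gw w (S.fixL Sy.P) x').1

theorem da37_lt (h : S.Good) (x : H) : LtC (S.fixL Sy.P) (S.fixL Sy.Q) x :=
  (fixP_lt_GPQ h x).trans ((GPQ_lt_GQP h x).trans (GQP_lt_fixQ h x))

theorem gp_pos (h : S.Good) (w : List Sy) (x' : H) : 0 < gp S w x' := by
  unfold gp
  rw [sub_pos]
  exact (Gw_strictMono h w (fixL_leaf h _) (fixL_leaf h _) (da37_lt h) x').1

theorem da37_base (h : S.Good) (x y : H) :
    |(S.fixL Sy.Q x).1 - (S.fixL Sy.P y).1 - 1| ≤ 100 * ee := by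
  have h1 := abs_le.1 (fixL_Q_val h x)
  have h2 := abs_le.1 (fixL_P_val h y)
  have h3 := ee_pos
  rw [abs_le]
  constructor <;> linarith [h1.1, h1.2, h2.1, h2.2]

/-- comparison of a pair with the full pair -/
theorem da37_comp (h : S.Good) (w : List Sy) {a b : H → ℝ × V} (ha : S.Leaf a) (hb : S.Leaf b)
    {m : ℝ} (hm : gam / 2 ≤ m) (hm1 : m ≤ 1) (hab : ∀ x y, |(b x).1 - (a y).1 - m| ≤ 100 * ee)
    (x x' : H) :
    (m - kap) * gp S w x' ≤ (S.Gw w b x).1 - (S.Gw w a x).1 ∧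
      (S.Gw w b x).1 - (S.Gw w a x).1 ≤ (m + kap) * gp S w x' := by
  have hm0 : 0 < m := lt_of_lt_of_le (by norm_num [gam]) hm
  have e1 := leaf_dist h w ha hb (fixL_leaf h Sy.P) (fixL_leaf h Sy.Q) (m := m) (m' := 1) hm
    (by norm_num [gam]) hab (da37_base h) x x'
  have e2 := leaf_dist h w (fixL_leaf h Sy.P) (fixL_leaf h Sy.Q) ha hb (m := 1) (m' := m)
    (by norm_num [gam]) hm (da37_base h) hab x' x
  have hg := gp_pos h w x'
  change _ ≤ (1 + 1 / 20000) * (gp S w x' / 1) at e1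
  change gp S w x' / 1 ≤ _ at e2
  rw [div_one] at e1 e2
  rw [div_le_iff₀ hm0] at e1
  generalize gp S w x' = g at *
  generalize (S.Gw w b x).1 - (S.Gw w a x).1 = d at *
  have e3 : m * g ≤ (1 + 1 / 20000) * d := by
    have := mul_le_mul_of_nonneg_left e2 hm0.le
    calc m * g ≤ m * ((1 + 1 / 20000) * (d / m)) := this
      _ = (1 + 1 / 20000) * d := by field_simp
  have e4 : m * g ≤ 1 * g := mul_le_mul_of_nonneg_right hm1 hg.le
  have e5 : 0 < m * g := mul_pos hm0 hg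
  unfold kap
  constructor
  · nlinarith
  · nlinarith

theorem gap_full (h : S.Good) (w : List Sy) (x x' : H) :
    (1 - kap) * gp S w x' ≤ gp S w x ∧ gp S w x ≤ (1 + kap) * gp S w x' :=
  da37_comp h w (fixL_leaf h _) (fixL_leaf h _) (by norm_num [gam]) le_rfl (da37_base h) x x'

theorem gap_P (h : S.Good) (w : List Sy) (x x' : H) :
    (S.q Sy.P - kap) * gp S w x' ≤
      (S.Gw w (S.GG Sy.P (S.fixL Sy.Q)) x).1 - (S.Gw w (S.fixL Sy.P) x).1 ∧
    (S.Gw w (S.GG Sy.P (S.fixL Sy.Q)) x).1 - (S.Gw w (S.fixL Sy.P) x).1 ≤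
      (S.q Sy.P + kap) * gp S w x' := by
  have hq := h.q0 Sy.P
  refine da37_comp h w (fixL_leaf h _) (GG_leaf h _ (fixL_leaf h _)) ?_ ?_ ?_ x x'
  · unfold gam; linarith [hq.1]
  · linarith [hq.2]
  · intro x y
    have h1 := abs_le.1 (GGPQ_val h x)
    have h2 := abs_le.1 (fixL_P_val h y)
    have h3 := ee_pos
    rw [abs_le]
    constructor <;> linarith [h1.1, h1.2, h2.1, h2.2]

theorem gap_Q (h : S.Good) (w : List Sy) (x x' : H) :
    (S.q Sy.Q - kap) * gp S w x' ≤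
      (S.Gw w (S.fixL Sy.Q) x).1 - (S.Gw w (S.GG Sy.Q (S.fixL Sy.P)) x).1 ∧
    (S.Gw w (S.fixL Sy.Q) x).1 - (S.Gw w (S.GG Sy.Q (S.fixL Sy.P)) x).1 ≤
      (S.q Sy.Q + kap) * gp S w x' := by
  have hq := h.q0 Sy.Q
  refine da37_comp h w (GG_leaf h _ (fixL_leaf h _)) (fixL_leaf h _) ?_ ?_ ?_ x x'
  · unfold gam; linarith [hq.1]
  · linarith [hq.2]
  · intro x y
    have h1 := abs_le.1 (fixL_Q_val h x)
    have h2 := abs_le.1 (GGQP_val h y)
    have h3 := ee_pos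
    have h4 := h.qsum
    rw [abs_le]
    constructor <;> linarith [h1.1, h1.2, h2.1, h2.2]

theorem gap_mid (h : S.Good) (w : List Sy) (x x' : H) :
    0 < (S.Gw w (S.GG Sy.Q (S.fixL Sy.P)) x).1 - (S.Gw w (S.GG Sy.P (S.fixL Sy.Q)) x).1 ∧
    (S.Gw w (S.GG Sy.Q (S.fixL Sy.P)) x).1 - (S.Gw w (S.GG Sy.P (S.fixL Sy.Q)) x).1 ≤
      2 * gam * gp S w x' := by
  constructor
  · rw [sub_pos]
    exact (Gw_strictMono h w (GG_leaf h _ (fixL_leaf h _)) (GG_leaf h _ (fixL_leaf h _))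
      (fun x => GPQ_lt_GQP h x) x).1
  · have := (da37_comp h w (m := gam) (GG_leaf h Sy.P (fixL_leaf h Sy.Q))
      (GG_leaf h Sy.Q (fixL_leaf h Sy.P)) (by norm_num [gam]) (by norm_num [gam]) ?_ x x').2
    · refine this.trans (mul_le_mul_of_nonneg_right ?_ (gp_pos h w x').le)
      norm_num [gam, kap]
    · intro x y
      have h1 := abs_le.1 (GGQP_val h x)
      have h2 := abs_le.1 (GGPQ_val h y)
      have h3 := ee_pos
      rw [abs_le]
      constructor <;> linarith [h1.1, h1.2, h2.1, h2.2]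

/-! the cone conditions -/

theorem base_lt (h : S.Good) (w : List Sy) (x : H) : LtC (S.Gw w (S.fixL Sy.P)) (S.Gw w (S.fixL Sy.Q)) x :=
  Gw_strictMono h w (fixL_leaf h _) (fixL_leaf h _) (da37_lt h) x

end Pool.Agent.Lib.H37D
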