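import Pool.Agent.Lib.H37D.AD2
import Pool.Agent.Lib.H37D.A05
import Pool.Agent.Lib.H37D.A37

/-!
# H37D A39 (size M, book-keeping): the stable leaves `Ss` of a near map: order, gaps

As `Lib/H37N/A39.lean`. Everything follows from `A12`, `A14`, `A15`, `A37` for the system `SV g` (`h.good_S`), whose second coordinate is trivial
(`LeC.of_fst`, `LtC.of_fst` in `AD2`); `Ss g b v h = (Sv g b v h).1`, `hS g v = gp (SV g) v.reverse (yc, 0)`, `(SV g).q = pw`.
-/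

open Set Filter Topology

namespace Pool.Agent.Lib.H37D

open Pool.Agent.Lib.H37N

variable {d : ℕ} {g : En d → En d}

theorem Sv_leaf (h : NearD g) (b : Sy) (v : List Sy) : (SV g).Leaf (Sv g b v) := by
  exact Gw_leaf h.good_S _ (fixL_leaf h.good_S b)

theorem Ss_leaf (h : NearD g) (b : Sy) (v : List Sy) : SLeaf (Ss g b v) := by
  exact (Sv_leaf h b v).sleaf

theorem Sv_append (g : En d → En d) (b : Sy) (v u : List Sy) :
    Sv g b (v ++ u) = (SV g).Gw v.reverse (Sv g b u) := by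
  unfold Sv
  rw [List.reverse_append, Sys.Gw_append]

theorem Sv_append_self (h : NearD g) (i : Sy) (v : List Sy) : Sv g i (v ++ [i]) = Sv g i v := by
  unfold Sv
  rw [List.reverse_append, List.reverse_singleton, List.singleton_append, Sys.Gw_cons, fixL_fix h.good_S]

theorem Ss_append_self (h : NearD g) (i : Sy) (v : List Sy) : Ss g i (v ++ [i]) = Ss g i v := by
  funext y
  unfold Ss
  rw [Sv_append_self h]

theorem a39_snoc (g : En d → En d) (b i : Sy) (v : List Sy) :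
    Sv g b (v ++ [i]) = (SV g).Gw v.reverse ((SV g).GG i ((SV g).fixL b)) := by
  unfold Sv
  rw [List.reverse_append]
  rfl

theorem Ss_P_lt (h : NearD g) (v : List Sy) (y : ℝ × Wd d) :
    Ss g Sy.P v y < Ss g Sy.Q (v ++ [Sy.P]) y := by
  have hc := h.good_S
  unfold Ss
  rw [a39_snoc]
  exact (Gw_strictMono hc _ (fixL_leaf hc _) (GG_leaf hc _ (fixL_leaf hc _)) (fixP_lt_GPQ hc) y).1

theorem Ss_mid_lt (h : NearD g) (v : List Sy) (y : ℝ × Wd d) :
    Ss g Sy.Q (v ++ [Sy.P]) y < Ss g Sy.P (v ++ [Sy.Q]) y := by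
  have hc := h.good_S
  unfold Ss
  rw [a39_snoc, a39_snoc]
  exact (Gw_strictMono hc _ (GG_leaf hc _ (fixL_leaf hc _)) (GG_leaf hc _ (fixL_leaf hc _))
    (GPQ_lt_GQP hc) y).1

theorem Ss_lt_Q (h : NearD g) (v : List Sy) (y : ℝ × Wd d) :
    Ss g Sy.P (v ++ [Sy.Q]) y < Ss g Sy.Q v y := by
  have hc := h.good_S
  unfold Ss
  rw [a39_snoc]
  exact (Gw_strictMono hc _ (GG_leaf hc _ (fixL_leaf hc _)) (fixL_leaf hc _) (GQP_lt_fixQ hc) y).1

theorem Ss_PQ_lt (h : NearD g) (v : List Sy) (y : ℝ × Wd d) : Ss g Sy.P v y < Ss g Sy.Q v y := by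
  exact (Ss_P_lt h v y).trans ((Ss_mid_lt h v y).trans (Ss_lt_Q h v y))

/-- the fixed leaves bound all the stable leaves -/
theorem a39_bound (h : NearD g) (b : Sy) (u : List Sy) :
    ∀ y, LeC (Sv g Sy.P []) (Sv g b u) y ∧ LeC (Sv g b u) (Sv g Sy.Q []) y := by
  have hc := h.good_S
  have hPQ : ∀ y, LeC (Sv g Sy.P []) (Sv g Sy.Q []) y := fun y =>
    (((fixP_lt_GPQ hc y).trans (GPQ_lt_GQP hc y)).trans (GQP_lt_fixQ hc y)).le
  induction u with
  | nil =>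
    intro y
    cases b
    · exact ⟨LeC.refl _ _, hPQ y⟩
    · exact ⟨hPQ y, LeC.refl _ _⟩
  | cons i u ih =>
    intro y
    have e1 : Sv g b (i :: u) = (SV g).GG i (Sv g b u) := Sv_append g b [i] u
    have eP : (SV g).GG Sy.P (Sv g Sy.P []) = Sv g Sy.P [] := fixL_fix hc Sy.P
    have eQ : (SV g).GG Sy.Q (Sv g Sy.Q []) = Sv g Sy.Q [] := fixL_fix hc Sy.Q
    have q1 : ∀ i, LeC (Sv g Sy.P []) ((SV g).GG i (Sv g Sy.P [])) y := by
      intro i
      cases i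
      · rw [eP]; exact LeC.refl _ _
      · exact ((fixP_lt_GPQ hc y).trans (GPQ_lt_GQP hc y)).le
    have q2 : ∀ i, LeC ((SV g).GG i (Sv g Sy.Q [])) (Sv g Sy.Q []) y := by
      intro i
      cases i
      · exact ((GPQ_lt_GQP hc y).trans (GQP_lt_fixQ hc y)).le
      · rw [eQ]; exact LeC.refl _ _
    rw [e1]
    exact ⟨(q1 i).trans (GG_mono hc i (Sv_leaf h _ _) (Sv_leaf h _ _) (fun x => (ih x).1) y),
      (GG_mono hc i (Sv_leaf h _ _) (Sv_leaf h _ _) (fun x => (ih x).2) y).trans (q2 i)⟩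

/-- longer words stay between (new letters after `v`). Proof as in the plane. -/
theorem Ss_between (h : NearD g) (b : Sy) (v u : List Sy) (y : ℝ × Wd d) :
    Ss g Sy.P v y ≤ Ss g b (v ++ u) y ∧ Ss g b (v ++ u) y ≤ Ss g Sy.Q v y := by
  have hc := h.good_S
  have e : ∀ c, Sv g c v = (SV g).Gw v.reverse (Sv g c []) := by
    intro c
    have := Sv_append g c v []
    simpa using this
  unfold Ss
  rw [Sv_append, e Sy.P, e Sy.Q]
  exact ⟨(Gw_mono hc _ (Sv_leaf h _ _) (Sv_leaf h _ _) (fun x => (a39_bound h b u x).1) y).1,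
    (Gw_mono hc _ (Sv_leaf h _ _) (Sv_leaf h _ _) (fun x => (a39_bound h b u x).2) y).1⟩

theorem hS_pos (h : NearD g) (v : List Sy) : 0 < hS g v := by
  exact gp_pos h.good_S v.reverse (yc, 0)

theorem Ss_full (h : NearD g) (v : List Sy) (y : ℝ × Wd d) :
    (1 - kap) * hS g v ≤ Ss g Sy.Q v y - Ss g Sy.P v y ∧
      Ss g Sy.Q v y - Ss g Sy.P v y ≤ (1 + kap) * hS g v := by
  exact gap_full h.good_S v.reverse y (yc, 0)

theorem Ss_gapP (h : NearD g) (v : List Sy) (y : ℝ × Wd d) :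
    (pw Sy.P - kap) * hS g v ≤ Ss g Sy.Q (v ++ [Sy.P]) y - Ss g Sy.P v y ∧
      Ss g Sy.Q (v ++ [Sy.P]) y - Ss g Sy.P v y ≤ (pw Sy.P + kap) * hS g v := by
  unfold Ss
  rw [a39_snoc]
  exact gap_P h.good_S v.reverse y (yc, 0)

theorem Ss_gapQ (h : NearD g) (v : List Sy) (y : ℝ × Wd d) :
    (pw Sy.Q - kap) * hS g v ≤ Ss g Sy.Q v y - Ss g Sy.P (v ++ [Sy.Q]) y ∧
      Ss g Sy.Q v y - Ss g Sy.P (v ++ [Sy.Q]) y ≤ (pw Sy.Q + kap) * hS g v := by
  unfold Ss
  rw [a39_snoc]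
  exact gap_Q h.good_S v.reverse y (yc, 0)

theorem Ss_gapM (h : NearD g) (v : List Sy) (y : ℝ × Wd d) :
    0 < Ss g Sy.P (v ++ [Sy.Q]) y - Ss g Sy.Q (v ++ [Sy.P]) y ∧
      Ss g Sy.P (v ++ [Sy.Q]) y - Ss g Sy.Q (v ++ [Sy.P]) y ≤ 2 * gam * hS g v := by
  unfold Ss
  rw [a39_snoc, a39_snoc]
  exact gap_mid h.good_S v.reverse y (yc, 0)

end Pool.Agent.Lib.H37D
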