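import Pool.Agent.Lib.H37D.A38
import Pool.Agent.Lib.H37D.A39

/-!
# H37D A120 (size M): one step of real orbits on leaves

As `Lib/H37N/A120.lean`.
-/

open Set Filter Topology

namespace Pool.Agent.Lib.H37D

open Pool.Agent.Lib.H37N

variable {d : ℕ} {g : En d → En d}

/-- the contracted coordinates `(y, w)` of a point -/
def vt (z : En d) : ℝ × Wd d := (z.1.2, z.2)

/-- the preimage of the point over `x` of the transformed leaf. Proof. `x0 = (SU g).sol i f x` satisfies `x0 = XX g i (x, f x0)` (`sol_spec` for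
`h.good_U`, `hf.leaf g`; `RgI.cl = cl`, `cl_of_mem`), `(x, f x0) ∈ DX d`; `XX_spec`, `XX_int`, `g_cross`;
`(SU g).GG i f x = (YY g i (x, f x0), KK g i (x, f x0))` by definition. -/
theorem step_U (h : NearD g) (i : Sy) {f : ℝ → ℝ × Wd d} (hf : ULeaf f) {x : ℝ} (hx : x ∈ II) :
    pt f ((SU g).sol i f x) ∈ VVd d i ∧
    (SU g).sol i f x ∈ Ioo (al i - del) (al i + pw i + del) ∧
    g (pt f ((SU g).sol i f x)) = pt ((SU g).GG i f) x := by
  have h1 := sol_spec h.good_U i (hf.leaf g) x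
  have hcl : (SU g).RH.cl x = x := cl_of_mem hx
  rw [hcl] at h1
  have hG : (SU g).GG i f x = (YY g i (x, f ((SU g).sol i f x)), KK g i (x, f ((SU g).sol i f x))) := by
    unfold Sys.GG
    rw [hcl]
    rfl
  show _ ∧ _ ∧ _ = (((x, ((SU g).GG i f x).1), ((SU g).GG i f x).2) : En d)
  rw [hG]
  generalize (SU g).sol i f x = s at *
  have h1' : s = XX g i (x, f s) := h1
  have hN : ((x, f s) : Cx d) ∈ DX d := mem_DX.2 ⟨hx, hf.mem s, hf.norm_le s⟩
  have h2 := (XX_spec h i hN).1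
  have h4 := XX_int h i hN
  have h5 := g_cross h i (x' := x) (y := (f s).1) (w := (f s).2) hN
  have h1'' : s = XX g i (x, (f s).1, (f s).2) := h1'
  rw [← h1'] at h2 h4
  rw [← h1''] at h5
  exact ⟨h2, h4, h5⟩

/-- the values of the transformed leaf are interior (`YY_int`, `KK_int`) -/
theorem GG_U_int (h : NearD g) (i : Sy) {f : ℝ → ℝ × Wd d} (hf : ULeaf f) (x : ℝ) :
    ((SU g).GG i f x).1 ∈ Ioo (-del) (1 + del) ∧ ‖((SU g).GG i f x).2‖ < 1 := by
  have hcl : (SU g).RH.cl x ∈ II := (SU g).RH.cl_mem x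
  have hG : (SU g).GG i f x = (YY g i ((SU g).RH.cl x, f ((SU g).sol i f x)),
      KK g i ((SU g).RH.cl x, f ((SU g).sol i f x))) := rfl
  rw [hG]
  have hN : (((SU g).RH.cl x, f ((SU g).sol i f x)) : Cx d) ∈ DX d :=
    mem_DX.2 ⟨hcl, hf.mem _, hf.norm_le _⟩
  exact ⟨YY_int h i hN, KK_int h i hN⟩

/-- the image of the point over `y` of the transformed stable leaf. Proof. `q = (SV g).sol i s y` satisfies
`q = (YY g i ((s q).1, y), KK g i ((s q).1, y))` (`sol_spec` for `h.good_S`; `(SV g).RH.cl y = y` for `y ∈ II ×ˢ BW d`), and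
`((SV g).GG i s y).1 = XX g i ((s q).1, y)`. With `((s q).1, y) ∈ DX d`: `g_cross`, `XX_spec`, `XX_int`, `YY_int`, `KK_int`. -/
theorem step_S (h : NearD g) (i : Sy) {s : ℝ × Wd d → ℝ × Wd 0} (hs : (SV g).Leaf s)
    {y : ℝ × Wd d} (hy : y.1 ∈ II) (hw : ‖y.2‖ ≤ 1) :
    (((((SV g).GG i s y).1, y.1), y.2) : En d) ∈ VVd d i ∧
    ((SV g).GG i s y).1 ∈ Ioo (al i - del) (al i + pw i + del) ∧
    (((SV g).sol i s y).1 ∈ Ioo (-del) (1 + del) ∧ ‖((SV g).sol i s y).2‖ < 1) ∧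
    g ((((SV g).GG i s y).1, y.1), y.2) =
      (((s ((SV g).sol i s y)).1, ((SV g).sol i s y).1), ((SV g).sol i s y).2) := by
  have h1 := sol_spec h.good_S i hs y
  have hcl : (SV g).RH.cl y = y := (SV g).RH.cl_of y ⟨hy, mem_BW.2 hw⟩
  rw [hcl] at h1
  have hG : ((SV g).GG i s y).1 = XX g i ((s ((SV g).sol i s y)).1, y) := by
    unfold Sys.GG
    rw [hcl]
    rfl
  rw [hG]
  generalize (SV g).sol i s y = t at *
  have h1' : t = (YY g i ((s t).1, y), KK g i ((s t).1, y)) := h1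
  have hN : (((s t).1, y) : Cx d) ∈ DX d := mem_DX.2 ⟨hs.mem1 t, hy, hw⟩
  have ht1 : t.1 = YY g i ((s t).1, y) := congrArg Prod.fst h1'
  have ht2 : t.2 = KK g i ((s t).1, y) := congrArg Prod.snd h1'
  refine ⟨(XX_spec h i hN).1, XX_int h i hN, ⟨?_, ?_⟩, ?_⟩
  · rw [ht1]
    exact YY_int h i hN
  · rw [ht2]
    exact KK_int h i hN
  · have h5 := g_cross h i (x' := (s t).1) (y := y.1) (w := y.2) hN
    have e1 : YY g i ((s t).1, y.1, y.2) = t.1 := ht1.symm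
    have e2 : KK g i ((s t).1, y.1, y.2) = t.2 := ht2.symm
    rw [e1, e2] at h5
    exact h5

/-- two-point estimate along one step of real orbits. Proof. `cross_of` for both points (`(g z).1.1 ∈ II`), and `X_diff`, `Y_diff`, `K_diff` of
`h.good_U` (`qw ≤ 1/2`, the norm of `vt z' - vt z` is the maximum of the two). -/
theorem real_diff (h : NearD g) (i : Sy) {z z' : En d} (hz : z ∈ VVd d i) (hz' : z' ∈ VVd d i)
    (hgz : g z ∈ NNd d) (hgz' : g z' ∈ NNd d) :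
    |z'.1.1 - z.1.1| ≤ 812 / 1000 * |(g z').1.1 - (g z).1.1| + 2 * ee * ‖vt z' - vt z‖ ∧
    ‖vt (g z') - vt (g z)‖ ≤ 812 / 1000 * ‖vt z' - vt z‖ + 2 * ee * |(g z').1.1 - (g z).1.1| := by
  obtain ⟨a1, a2, a3⟩ := cross_of h i hz hgz
  obtain ⟨b1, b2, b3⟩ := cross_of h i hz' hgz'
  have hzz := mem_VVd.1 hz
  have hzz' := mem_VVd.1 hz'
  have hN : (((g z).1.1, z.1.2, z.2) : Cx d) ∈ (SU g).dom :=
    mem_DX.2 ⟨(mem_NN.1 (mem_NNd.1 hgz).1).1, (mem_NN.1 (VV_sub_NN i hzz.1)).2, hzz.2⟩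
  have hN' : (((g z').1.1, z'.1.2, z'.2) : Cx d) ∈ (SU g).dom :=
    mem_DX.2 ⟨(mem_NN.1 (mem_NNd.1 hgz').1).1, (mem_NN.1 (VV_sub_NN i hzz'.1)).2, hzz'.2⟩
  have hX : |z'.1.1 - z.1.1| ≤ 811 / 1000 * |(g z').1.1 - (g z).1.1| +
      ee * |z'.1.2 - z.1.2| + ee * ‖z'.2 - z.2‖ := by
    have h1 := h.good_U.X_diff i hN hN'
    have e1 : (SU g).X i ((g z).1.1, z.1.2, z.2) = z.1.1 := a1
    have e2 : (SU g).X i ((g z').1.1, z'.1.2, z'.2) = z'.1.1 := b1
    rw [e1, e2] at h1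
    exact h1
  have hY : |(g z').1.2 - (g z).1.2 - qw i * (z'.1.2 - z.1.2)| ≤
      ee * |(g z').1.1 - (g z).1.1| + ee * |z'.1.2 - z.1.2| + ee * ‖z'.2 - z.2‖ := by
    have h1 := h.good_U.Y_diff i hN hN'
    have e1 : (SU g).Y i ((g z).1.1, z.1.2, z.2) = (g z).1.2 := a2
    have e2 : (SU g).Y i ((g z').1.1, z'.1.2, z'.2) = (g z').1.2 := b2
    rw [e1, e2] at h1
    exact h1
  have hK : ‖(g z').2 - (g z).2‖ ≤
      ee * |(g z').1.1 - (g z).1.1| + ee * |z'.1.2 - z.1.2| + 1 / 50 * ‖z'.2 - z.2‖ := by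
    have h1 := h.good_U.K_diff i hN hN'
    have e1 : (SU g).K i ((g z).1.1, z.1.2, z.2) = (g z).2 := a3
    have e2 : (SU g).K i ((g z').1.1, z'.1.2, z'.2) = (g z').2 := b3
    rw [e1, e2] at h1
    exact h1
  have hq : 0 ≤ qw i ∧ qw i ≤ 1 / 2 := by cases i <;> norm_num [qw]
  have he : ee ≤ 1 / 1000 := by norm_num [ee]
  have he0 := ee_pos
  have hv1 : |z'.1.2 - z.1.2| ≤ ‖vt z' - vt z‖ := norm_fst_le (vt z' - vt z)
  have hv2 : ‖z'.2 - z.2‖ ≤ ‖vt z' - vt z‖ := norm_snd_le (vt z' - vt z)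
  have hB := abs_nonneg ((g z').1.1 - (g z).1.1)
  have hD := abs_nonneg (z'.1.2 - z.1.2)
  have hE := norm_nonneg (vt z' - vt z)
  have k1 := mul_le_mul_of_nonneg_left hv1 he0.le
  have k2 := mul_le_mul_of_nonneg_left hv2 he0.le
  have k3 : ee * ‖vt z' - vt z‖ ≤ 1 / 1000 * ‖vt z' - vt z‖ := mul_le_mul_of_nonneg_right he hE
  have k4 : 0 ≤ ee * |(g z').1.1 - (g z).1.1| := mul_nonneg he0.le hB
  constructor
  · linarith
  · have e : ‖vt (g z') - vt (g z)‖ = max |(g z').1.2 - (g z).1.2| ‖(g z').2 - (g z).2‖ := by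
      rw [Prod.norm_def]
      rfl
    rw [e]
    refine max_le ?_ ?_
    · have h1 := abs_sub_abs_le_abs_sub ((g z').1.2 - (g z).1.2) (qw i * (z'.1.2 - z.1.2))
      rw [abs_mul, abs_of_nonneg hq.1] at h1
      have h2 : qw i * |z'.1.2 - z.1.2| ≤ 1 / 2 * ‖vt z' - vt z‖ :=
        mul_le_mul hq.2 hv1 hD (by norm_num)
      linarith
    · linarith

theorem vt_ext {z z' : En d} (h1 : z.1.1 = z'.1.1) (h2 : vt z = vt z') : z = z' := by
  unfold vt at h2
  have h3 := congrArg Prod.fst h2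
  have h4 := congrArg Prod.snd h2
  exact Prod.ext (Prod.ext h1 h3) h4

/-- two points of `NNd d` (`II` has length `1 + 2 del`) -/
theorem NNd_two {z z' : En d} (hz : z ∈ NNd d) (hz' : z' ∈ NNd d) :
    |z'.1.1 - z.1.1| ≤ 2 ∧ ‖vt z' - vt z‖ ≤ 2 := by
  obtain ⟨h1, h2⟩ := mem_NNd.1 hz
  obtain ⟨h3, h4⟩ := mem_NNd.1 hz'
  obtain ⟨h5, h6⟩ := mem_NN.1 h1
  obtain ⟨h7, h8⟩ := mem_NN.1 h3
  rw [II_def] at h5 h6 h7 h8
  have hd : del = 1 / 100000 := rfl
  rw [hd] at h5 h6 h7 h8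
  constructor
  · rw [abs_le]
    constructor <;> linarith [h5.1, h5.2, h7.1, h7.2]
  · have e : ‖vt z' - vt z‖ = max |z'.1.2 - z.1.2| ‖z'.2 - z.2‖ := by
      rw [Prod.norm_def]
      rfl
    rw [e]
    refine max_le ?_ ?_
    · rw [abs_le]
      constructor <;> linarith [h6.1, h6.2, h8.1, h8.2]
    · exact (norm_sub_le _ _).trans (by linarith)

/-- iteration of the inequalities. Proof: induction on `k` as `a121_iter` in `Lib/H37N/A121.lean`. -/
theorem ineq_iter {E F : ℕ → ℝ} {N0 : ℕ} (hE2 : ∀ n, N0 ≤ n → E n ≤ 2) (hF2 : ∀ n, N0 ≤ n → F n ≤ 2)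
    (h1 : ∀ n, N0 ≤ n → E (n + 1) ≤ 812 / 1000 * E n + 2 * ee * F (n + 1))
    (h2 : ∀ n, N0 ≤ n → F n ≤ 812 / 1000 * F (n + 1) + 2 * ee * E n) (k : ℕ) :
    ∀ n, N0 + k ≤ n → E n ≤ 2 * (82 / 100) ^ k ∧ F n ≤ 2 * (82 / 100) ^ k := by
  have he : 2 * ee ≤ 1 / 1000 := by norm_num [ee]
  have he0 : 0 < 2 * ee := by have := ee_pos; linarith
  induction k with
  | zero =>
    intro n hn
    rw [pow_zero, mul_one]
    exact ⟨hE2 n (by omega), hF2 n (by omega)⟩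
  | succ k ih =>
    intro n hn
    obtain ⟨m, rfl⟩ : ∃ m, n = m + 1 := ⟨n - 1, by omega⟩
    have a1 := (ih m (by omega)).1
    have a2 := ih (m + 1) (by omega)
    have a3 := ih (m + 1 + 1) (by omega)
    have hM : (0 : ℝ) < 2 * (82 / 100) ^ k := by positivity
    have b1 := h1 m (by omega)
    have b2 := h2 (m + 1) (by omega)
    rw [pow_succ]
    generalize (82 / 100 : ℝ) ^ k = M at *
    have c1 : 2 * ee * F (m + 1) ≤ 2 * ee * (2 * M) := mul_le_mul_of_nonneg_left a2.2 he0.le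
    have c2 : 2 * ee * E (m + 1) ≤ 2 * ee * (2 * M) := mul_le_mul_of_nonneg_left a2.1 he0.le
    have c3 : 2 * ee * (2 * M) ≤ 1 / 1000 * (2 * M) := mul_le_mul_of_nonneg_right he hM.le
    constructor
    · linarith
    · linarith [a3.2]

/-- Proof: as `a121_zero` in `Lib/H37N/A121.lean`. -/
theorem ineq_zero {E F : ℕ → ℝ} (hE0 : E 0 = 0) (hE2 : ∀ n, E n ≤ 2) (hF2 : ∀ n, F n ≤ 2)
    (hF0 : 0 ≤ F 0) (h1 : ∀ n, E (n + 1) ≤ 812 / 1000 * E n + 2 * ee * F (n + 1))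
    (h2 : ∀ n, F n ≤ 812 / 1000 * F (n + 1) + 2 * ee * E n) : F 0 = 0 := by
  have he : 2 * ee ≤ 1 / 1000 := by norm_num [ee]
  have he0 : 0 < 2 * ee := by have := ee_pos; linarith
  have key : ∀ k : ℕ, ∀ n, E n ≤ 2 * (82 / 100) ^ k ∧ F n ≤ 2 * (82 / 100) ^ k := by
    intro k
    induction k with
    | zero =>
      intro n
      rw [pow_zero, mul_one]
      exact ⟨hE2 n, hF2 n⟩
    | succ k ih =>
      intro n
      have hM : (0 : ℝ) < 2 * (82 / 100) ^ k := by positivity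
      have a1 := ih n
      have a2 := ih (n + 1)
      have b2 := h2 n
      rw [pow_succ]
      constructor
      · rcases n with _ | m
        · rw [hE0]; positivity
        · have a3 := (ih m).1
          have b1 := h1 m
          generalize (82 / 100 : ℝ) ^ k = M at *
          have c1 : 2 * ee * F (m + 1) ≤ 2 * ee * (2 * M) := mul_le_mul_of_nonneg_left a1.2 he0.le
          have c3 : 2 * ee * (2 * M) ≤ 1 / 1000 * (2 * M) := mul_le_mul_of_nonneg_right he hM.le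
          linarith
      · generalize (82 / 100 : ℝ) ^ k = M at *
        have c1 : 2 * ee * E n ≤ 2 * ee * (2 * M) := mul_le_mul_of_nonneg_left a1.1 he0.le
        have c3 : 2 * ee * (2 * M) ≤ 1 / 1000 * (2 * M) := mul_le_mul_of_nonneg_right he hM.le
        linarith [a2.2]
  refine le_antisymm ?_ hF0
  have ht : Tendsto (fun k : ℕ => (2 : ℝ) * (82 / 100) ^ k) atTop (𝓝 (2 * 0)) :=
    (tendsto_pow_atTop_nhds_zero_of_lt_one (by norm_num) (by norm_num)).const_mul 2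
  rw [mul_zero] at ht
  exact ge_of_tendsto' ht fun k => (key k 0).2

end Pool.Agent.Lib.H37D
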