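import Pool.Agent.Lib.H37D.A120

/-!
# H37D A123 (size M): the fixed points

As `Lib/H37N/A123.lean`.
-/

open Set Filter Topology

namespace Pool.Agent.Lib.H37D

open Pool.Agent.Lib.H37N

variable {d : ℕ} {g : En d → En d}

theorem mem_int_VVd {b : Sy} {z : En d} (hx : z.1.1 ∈ Ioo (al b - del) (al b + pw b + del))
    (hy : z.1.2 ∈ Ioo (-del) (1 + del)) (hw : ‖z.2‖ < 1) : z ∈ interior (VVd d b) := by
  unfold VVd VV BW
  rw [interior_prod_eq, interior_prod_eq, interior_Icc, interior_Icc,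
    interior_closedBall _ (by norm_num)]
  exact ⟨⟨hx, hy⟩, by rwa [mem_ball_zero_iff]⟩

theorem da123_sub (b : Sy) {z : En d} (hz : z ∈ VVd d b) : z ∈ NNd d :=
  ⟨VV_sub_NN b hz.1, hz.2⟩

theorem da123_contr (h : NearD g) (b : Sy) {f : ℝ → ℝ × Wd d} (hf : ULeaf f) :
    ∃ x, (SU g).sol b f x = x := by
  have hK : ContractingWith (82 / 100 : NNReal) (fun x => (SU g).sol b f x) := by
    refine ⟨?_, ?_⟩
    · rw [← NNReal.coe_lt_coe]
      push_cast
      norm_num
    · refine LipschitzWith.of_dist_le_mul fun x y => ?_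
      rw [dist_eq_norm, dist_eq_norm]
      have h1 := sol_lip h.good_U b (hf.leaf g) x y
      have h2 := (SU g).RH.cl_lip x y
      have h4 : ((82 / 100 : NNReal) : ℝ) = 82 / 100 := by push_cast; norm_num
      rw [h4]
      exact h1.trans (mul_le_mul (by norm_num) h2 (norm_nonneg _) (by norm_num))
  exact ⟨ContractingWith.fixedPoint _ hK, ContractingWith.fixedPoint_isFixedPt hK⟩

/-- Proof. Existence: `x ↦ (SU g).sol b f x`, `f = (SU g).fixL b`, is a contraction of `ℝ` (`sol_lip`, `RgI.cl_lip`), let `x` be its fixed point;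
`x ∈ II` (`sol_mem`), `step_U` gives `g (pt f x) = pt (GG f) x = pt f x` (`fixL_fix`), and `pt f x ∈ interior (VVd d b)` (`mem_int_VVd`, `step_U`,
`GG_U_int`). Uniqueness: `real_diff` for two fixed points in `VVd d b ⊆ NNd d` gives `E ≤ .812 E + 2 ee F`, `F ≤ .812 F + 2 ee E`, so
`E = F = 0` (`vt_ext`). `Classical.epsilon_spec`. -/
theorem fixP_spec (h : NearD g) (b : Sy) : fixP g b ∈ interior (VVd d b) ∧ g (fixP g b) = fixP g b ∧
    ∀ z ∈ VVd d b, g z = z → z = fixP g b := by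
  have huniq : ∀ z ∈ VVd d b, ∀ z' ∈ VVd d b, g z = z → g z' = z' → z = z' := by
    intro z hz z' hz' hg hg'
    have h1 := real_diff h b hz hz' (hg.symm ▸ da123_sub b hz) (hg'.symm ▸ da123_sub b hz')
    rw [hg, hg'] at h1
    obtain ⟨h2, h3⟩ := h1
    have h4 := abs_nonneg (z'.1.1 - z.1.1)
    have h5 := norm_nonneg (vt z' - vt z)
    have he : ee = 1 / 10 ^ 10 := rfl
    rw [he] at h2 h3
    have h6 : |z'.1.1 - z.1.1| = 0 := by linarith
    have h7 : ‖vt z' - vt z‖ = 0 := by linarith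
    rw [abs_eq_zero, sub_eq_zero] at h6
    rw [norm_eq_zero, sub_eq_zero] at h7
    exact vt_ext h6.symm h7.symm
  have hf' := fixL_leaf h.good_U b
  have hf : ULeaf ((SU g).fixL b) := Uu_leaf h b []
  obtain ⟨x, hx⟩ := da123_contr h b hf
  have hxI : x ∈ II := by
    have h1 := sol_mem h.good_U b hf' x
    rw [hx] at h1
    exact h1
  obtain ⟨h1, h2, h3⟩ := step_U h b hf hxI
  obtain ⟨h4, h5⟩ := GG_U_int h b hf x
  rw [hx] at h1 h2 h3
  rw [fixL_fix h.good_U b] at h3 h4 h5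
  have h6 : pt ((SU g).fixL b) x ∈ interior (VVd d b) := mem_int_VVd h2 h4 h5
  have hsp : fixP g b ∈ VVd d b ∧ g (fixP g b) = fixP g b :=
    Classical.epsilon_spec (p := fun z => z ∈ VVd d b ∧ g z = z) ⟨_, h1, h3⟩
  have h7 := huniq _ h1 _ hsp.1 h3 hsp.2
  exact ⟨h7 ▸ h6, hsp.2, fun z hz hgz => huniq z hz _ hsp.1 hgz hsp.2⟩

end Pool.Agent.Lib.H37D
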