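import Pool.Agent.Lib.H37D.A12

/-!
# H37D A14 (size M): the fixed leaves

As `Lib/H37N/A14.lean`, with norms.
-/

open Set Filter Topology

namespace Pool.Agent.Lib.H37D

open Pool.Agent.Lib.H37N

variable {H V : Type*} [NormedAddCommGroup H] [NormedSpace ℝ H] [CompleteSpace H]
  [NormedAddCommGroup V] [NormedSpace ℝ V] [CompleteSpace V] {S : Sys H V}

theorem a14_ee : (0 : ℝ) < ee := by norm_num [ee]

/-- constant leaves. Proof: `S.RV.zero_mem`. -/
theorem leaf_const {c : ℝ} (hc : c ∈ II) : S.Leaf fun _ => (c, 0) := by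
  refine ⟨fun _ => hc, fun _ => S.RV.zero_mem, fun _ => ?_, fun h h' => ?_⟩
  · rw [norm_zero]
    have := a14_ee
    positivity
  · rw [sub_self, norm_zero]
    have := a14_ee
    positivity

theorem a14_leaf (h : S.Good) (i : Sy) (n : ℕ) : S.Leaf ((S.GG i)^[n] (fun _ => 0)) := by
  induction n with
  | zero =>
    have h0 : (0 : ℝ) ∈ II := by rw [II_def]; constructor <;> norm_num [del]
    exact leaf_const h0
  | succ n ih =>
    rw [Function.iterate_succ_apply']
    exact GG_leaf h i ih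

theorem a14_two {f g : H → ℝ × V} (hf : S.Leaf f) (hg : S.Leaf g) (x : H) : ‖f x - g x‖ ≤ 2 := by
  rw [Prod.norm_def]
  refine max_le ?_ ?_
  · show ‖(f x).1 - (g x).1‖ ≤ 2
    have h1 := (hf.mem1 x).1
    have h2 := (hf.mem1 x).2
    have h3 := (hg.mem1 x).1
    have h4 := (hg.mem1 x).2
    simp only [del] at h1 h2 h3 h4
    rw [Real.norm_eq_abs, abs_le]
    constructor <;> linarith
  · exact S.RV.diam _ (hf.mem2 x) _ (hg.mem2 x)

theorem a14_step (h : S.Good) (i : Sy) (n : ℕ) (x : H) :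
    ‖(S.GG i)^[n + 1] (fun _ => 0) x - (S.GG i)^[n] (fun _ => 0) x‖ ≤ 2 * (82 / 100) ^ n := by
  induction n generalizing x with
  | zero =>
    rw [pow_zero, mul_one]
    exact a14_two (a14_leaf h i _) (a14_leaf h i _) x
  | succ n ih =>
    rw [Function.iterate_succ_apply' (S.GG i) (n + 1), Function.iterate_succ_apply' (S.GG i) n]
    have := GG_contr h i (a14_leaf h i n) (a14_leaf h i (n + 1)) ih x
    rw [Function.iterate_succ_apply' (S.GG i) n] at this
    refine this.trans (le_of_eq ?_)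
    ring

theorem a14_dist (h : S.Good) (i : Sy) (n : ℕ) (x : H) :
    dist ((S.GG i)^[n] (fun _ => 0) x) ((S.GG i)^[n + 1] (fun _ => 0) x) ≤
      2 * (82 / 100) ^ n := by
  rw [dist_eq_norm, norm_sub_rev]
  exact a14_step h i n x

theorem a14_lim {a b c r : ℝ} (hr0 : 0 ≤ r) (hr : r < 1) (h : ∀ n : ℕ, a ≤ b * r ^ n + c) :
    a ≤ c := by
  have h1 : Tendsto (fun n : ℕ => b * r ^ n + c) atTop (𝓝 (b * 0 + c)) :=
    ((tendsto_pow_atTop_nhds_zero_of_lt_one hr0 hr).const_mul b).add_const c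
  rw [mul_zero, zero_add] at h1
  exact ge_of_tendsto' h1 h

/-- Proof. `F n = (S.GG i)^[n] (fun _ => 0)` are leaves; `‖F (n+1) x - F n x‖ ≤ (82/100)^n * 2` (induction, `GG_contr`; two values of leaves differ by at
most `2`: `II` has length `1 + 2 del`, the second components have norm `≤ 3 ee`). Cauchy in `ℝ × V`. -/
theorem fixL_tendsto (h : S.Good) (i : Sy) (x : H) :
    Tendsto (fun n : ℕ => (S.GG i)^[n] (fun _ => 0) x) atTop (𝓝 (S.fixL i x)) := by
  exact (cauchySeq_of_le_geometric (82 / 100) 2 (by norm_num)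
    fun n => a14_dist h i n x).tendsto_limUnder

theorem fixL_rate (h : S.Good) (i : Sy) (n : ℕ) (x : H) :
    ‖(S.GG i)^[n] (fun _ => 0) x - S.fixL i x‖ ≤ 12 * (82 / 100) ^ n := by
  have := dist_le_of_le_geometric_of_tendsto (82 / 100) 2 (by norm_num)
    (fun n => a14_dist h i n x) (fixL_tendsto h i x) n
  rw [dist_eq_norm] at this
  have h2 : (0 : ℝ) ≤ (82 / 100) ^ n := by positivity
  refine this.trans ?_
  rw [div_le_iff₀ (by norm_num)]
  nlinarith

/-- Proof. All conditions are closed (`S.RV.closed`), pass to the limit. -/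
theorem fixL_leaf (h : S.Good) (i : Sy) : S.Leaf (S.fixL i) := by
  have t1 : ∀ x, Tendsto (fun n : ℕ => ((S.GG i)^[n] (fun _ => 0) x).1) atTop
      (𝓝 (S.fixL i x).1) := fun x =>
    (continuous_fst.tendsto _).comp (fixL_tendsto h i x)
  have t2 : ∀ x, Tendsto (fun n : ℕ => ((S.GG i)^[n] (fun _ => 0) x).2) atTop
      (𝓝 (S.fixL i x).2) := fun x =>
    (continuous_snd.tendsto _).comp (fixL_tendsto h i x)
  refine ⟨fun x => ?_, fun x => ?_, fun x => ?_, fun x y => ?_⟩
  · have hc : IsClosed II := isClosed_Icc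
    exact hc.mem_of_tendsto (t1 x) (Eventually.of_forall fun n => (a14_leaf h i n).mem1 x)
  · exact S.RV.closed.mem_of_tendsto (t2 x)
      (Eventually.of_forall fun n => (a14_leaf h i n).mem2 x)
  · exact le_of_tendsto (t2 x).norm (Eventually.of_forall fun n => (a14_leaf h i n).small x)
  · exact le_of_tendsto ((fixL_tendsto h i x).sub (fixL_tendsto h i y)).norm
      (Eventually.of_forall fun n => (a14_leaf h i n).lip x y)

theorem fixL_fix (h : S.Good) (i : Sy) : S.GG i (S.fixL i) = S.fixL i := by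
  funext x
  have key : ∀ n : ℕ, ‖S.GG i (S.fixL i) x - S.fixL i x‖ ≤ 24 * (82 / 100) ^ n + 0 := by
    intro n
    have h1 := GG_contr h i (a14_leaf h i n) (fixL_leaf h i) (C := 12 * (82 / 100) ^ n)
      (fun x => by rw [norm_sub_rev]; exact fixL_rate h i n x) x
    have h2 := fixL_rate h i (n + 1) x
    rw [Function.iterate_succ_apply'] at h2
    have h3 := norm_sub_le_norm_sub_add_norm_sub (S.GG i (S.fixL i) x)
      (S.GG i ((S.GG i)^[n] (fun _ => 0)) x) (S.fixL i x)
    have h4 : (0 : ℝ) ≤ (82 / 100) ^ n := by positivity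
    rw [pow_succ] at h2
    linarith
  have h0 := a14_lim (by norm_num) (by norm_num) key
  exact sub_eq_zero.1 (norm_le_zero_iff.1 h0)

theorem fixL_unique (h : S.Good) (i : Sy) {f : H → ℝ × V} (hf : S.Leaf f) (hfix : S.GG i f = f) :
    f = S.fixL i := by
  have key : ∀ (n : ℕ) (x : H), ‖f x - S.fixL i x‖ ≤ 2 * (82 / 100) ^ n := by
    intro n
    induction n with
    | zero =>
      intro x
      rw [pow_zero, mul_one]
      exact a14_two hf (fixL_leaf h i) x
    | succ n ih =>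
      intro x
      have := GG_contr h i (fixL_leaf h i) hf ih x
      rw [hfix, fixL_fix h i] at this
      refine this.trans (le_of_eq ?_)
      ring
  funext x
  have h0 : ‖f x - S.fixL i x‖ ≤ 0 :=
    a14_lim (b := 2) (r := 82 / 100) (by norm_num) (by norm_num) (fun n => by linarith [key n x])
  exact sub_eq_zero.1 (norm_le_zero_iff.1 h0)

/-- the values of the base leaves, as in `A14` -/
theorem fixL_P_val (h : S.Good) (x : H) : |(S.fixL Sy.P x).1| ≤ 6 * ee := by
  have hq := (h.q0 Sy.P)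
  have key : ∀ (n : ℕ) (x : H), |(S.fixL Sy.P x).1| ≤ 2 * (81 / 100) ^ n + 55 / 10 * ee := by
    intro n
    induction n with
    | zero =>
      intro x
      have h1 := (fixL_leaf h Sy.P).mem1 x
      have h2 := h1.1
      have h3 := h1.2
      simp only [del] at h2 h3
      rw [pow_zero, mul_one, abs_le]
      have := a14_ee
      constructor <;> linarith
    | succ n ih =>
      intro x
      have h1 := GG_val h Sy.P (fixL_leaf h Sy.P) x
      rw [fixL_fix h] at h1
      have h2 := ih (S.sol Sy.P (S.fixL Sy.P) x)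
      simp only [off, zero_add] at h1
      have h3 : |S.q Sy.P * (S.fixL Sy.P (S.sol Sy.P (S.fixL Sy.P) x)).1| ≤
          81 / 100 * (2 * (81 / 100) ^ n + 55 / 10 * ee) := by
        rw [abs_mul, abs_of_nonneg (by linarith : (0 : ℝ) ≤ S.q Sy.P)]
        exact mul_le_mul hq.2 h2 (abs_nonneg _) (by norm_num)
      have h4 := abs_sub_abs_le_abs_sub (S.fixL Sy.P x).1
        (S.q Sy.P * (S.fixL Sy.P (S.sol Sy.P (S.fixL Sy.P) x)).1)
      have := a14_ee
      rw [pow_succ]
      linarith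
  have h0 := a14_lim (by norm_num) (by norm_num) (fun n => key n x)
  have := a14_ee
  linarith

theorem fixL_Q_val (h : S.Good) (x : H) : |(S.fixL Sy.Q x).1 - 1| ≤ 6 * ee := by
  have hq := (h.q0 Sy.Q)
  have key : ∀ (n : ℕ) (x : H), |(S.fixL Sy.Q x).1 - 1| ≤ 2 * (81 / 100) ^ n + 55 / 10 * ee := by
    intro n
    induction n with
    | zero =>
      intro x
      have h1 := (fixL_leaf h Sy.Q).mem1 x
      have h2 := h1.1
      have h3 := h1.2
      simp only [del] at h2 h3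
      rw [pow_zero, mul_one, abs_le]
      have := a14_ee
      constructor <;> linarith
    | succ n ih =>
      intro x
      have h1 := GG_val h Sy.Q (fixL_leaf h Sy.Q) x
      rw [fixL_fix h] at h1
      have h2 := ih (S.sol Sy.Q (S.fixL Sy.Q) x)
      have hsum := h.qsum
      have h3 : |S.q Sy.Q * ((S.fixL Sy.Q (S.sol Sy.Q (S.fixL Sy.Q) x)).1 - 1)| ≤
          81 / 100 * (2 * (81 / 100) ^ n + 55 / 10 * ee) := by
        rw [abs_mul, abs_of_nonneg (by linarith : (0 : ℝ) ≤ S.q Sy.Q)]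
        exact mul_le_mul hq.2 h2 (abs_nonneg _) (by norm_num)
      have h5 : (S.fixL Sy.Q x).1 - (off S.q Sy.Q + S.q Sy.Q *
          (S.fixL Sy.Q (S.sol Sy.Q (S.fixL Sy.Q) x)).1) = ((S.fixL Sy.Q x).1 - 1) -
          S.q Sy.Q * ((S.fixL Sy.Q (S.sol Sy.Q (S.fixL Sy.Q) x)).1 - 1) := by
        simp only [off]
        linear_combination -hsum
      rw [h5] at h1
      have h4 := abs_sub_abs_le_abs_sub ((S.fixL Sy.Q x).1 - 1)
        (S.q Sy.Q * ((S.fixL Sy.Q (S.sol Sy.Q (S.fixL Sy.Q) x)).1 - 1))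
      have := a14_ee
      rw [pow_succ]
      linarith
  have h0 := a14_lim (by norm_num) (by norm_num) (fun n => key n x)
  have := a14_ee
  linarith

theorem GGPQ_val (h : S.Good) (x : H) : |(S.GG Sy.P (S.fixL Sy.Q) x).1 - S.q Sy.P| ≤ 6 * ee := by
  have hq := (h.q0 Sy.P)
  have h1 := GG_val h Sy.P (fixL_leaf h Sy.Q) x
  have h2 := fixL_Q_val h (S.sol Sy.P (S.fixL Sy.Q) x)
  have h3 : |S.q Sy.P * ((S.fixL Sy.Q (S.sol Sy.P (S.fixL Sy.Q) x)).1 - 1)| ≤
      81 / 100 * (6 * ee) := by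
    rw [abs_mul, abs_of_nonneg (by linarith : (0 : ℝ) ≤ S.q Sy.P)]
    exact mul_le_mul hq.2 h2 (abs_nonneg _) (by norm_num)
  have h4 : (S.GG Sy.P (S.fixL Sy.Q) x).1 - S.q Sy.P = ((S.GG Sy.P (S.fixL Sy.Q) x).1 -
      (off S.q Sy.P + S.q Sy.P * (S.fixL Sy.Q (S.sol Sy.P (S.fixL Sy.Q) x)).1)) +
      S.q Sy.P * ((S.fixL Sy.Q (S.sol Sy.P (S.fixL Sy.Q) x)).1 - 1) := by
    simp only [off]; ring
  rw [h4]
  refine (abs_add_le _ _).trans ?_
  have := a14_ee
  linarith

theorem GGQP_val (h : S.Good) (x : H) :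
    |(S.GG Sy.Q (S.fixL Sy.P) x).1 - (S.q Sy.P + gam)| ≤ 6 * ee := by
  have hq := (h.q0 Sy.Q)
  have h1 := GG_val h Sy.Q (fixL_leaf h Sy.P) x
  have h2 := fixL_P_val h (S.sol Sy.Q (S.fixL Sy.P) x)
  have h3 : |S.q Sy.Q * (S.fixL Sy.P (S.sol Sy.Q (S.fixL Sy.P) x)).1| ≤
      81 / 100 * (6 * ee) := by
    rw [abs_mul, abs_of_nonneg (by linarith : (0 : ℝ) ≤ S.q Sy.Q)]
    exact mul_le_mul hq.2 h2 (abs_nonneg _) (by norm_num)
  have h4 : (S.GG Sy.Q (S.fixL Sy.P) x).1 - (S.q Sy.P + gam) = ((S.GG Sy.Q (S.fixL Sy.P) x).1 -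
      (off S.q Sy.Q + S.q Sy.Q * (S.fixL Sy.P (S.sol Sy.Q (S.fixL Sy.P) x)).1)) +
      S.q Sy.Q * (S.fixL Sy.P (S.sol Sy.Q (S.fixL Sy.P) x)).1 := by
    simp only [off]; ring
  rw [h4]
  refine (abs_add_le _ _).trans ?_
  have := a14_ee
  linarith

theorem Gw_cons_fixL (h : S.Good) (i : Sy) (w : List Sy) :
    S.Gw (i :: w) (S.fixL i) = S.Gw w (S.fixL i) := by
  rw [Sys.Gw_cons, fixL_fix h]

end Pool.Agent.Lib.H37D
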