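import Pool.Agent.Lib.H37D.A14

/-!
# H37D A15 (size S/M): the order of the base leaves (cone order)

As `Lib/H37N/A15.lean`; the second components of leaves have norm `≤ 3 ee`, so the cone condition `‖v1 - v0‖ ≤ y1 - y0` follows from
`y1 - y0 ≥ 6 ee`.
-/

open Set Filter Topology

namespace Pool.Agent.Lib.H37D

open Pool.Agent.Lib.H37N

variable {H V : Type*} [NormedAddCommGroup H] [NormedSpace ℝ H] [CompleteSpace H]
  [NormedAddCommGroup V] [NormedSpace ℝ V] [CompleteSpace V] {S : Sys H V}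

/-- Proof: `Leaf.small` and the triangle inequality. -/
theorem LtC.of_gap {f0 f1 : H → ℝ × V} (h0 : S.Leaf f0) (h1 : S.Leaf f1) {x : H}
    (hg : (f0 x).1 + 6 * ee ≤ (f1 x).1) : LtC f0 f1 x := by
  have he := ee_pos
  refine ⟨by linarith, ?_⟩
  have a := norm_sub_le (f1 x).2 (f0 x).2
  have b := h0.small x
  have c := h1.small x
  linarith

theorem lo_leaf : S.Leaf lo := leaf_const ⟨le_rfl, del_le⟩
theorem hi_leaf : S.Leaf hi := leaf_const ⟨del_le, le_rfl⟩

theorem lo_lt_fixL (h : S.Good) (i : Sy) (x : H) : LtC lo (S.fixL i) x := by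
  refine LtC.of_gap lo_leaf (fixL_leaf h i) ?_
  show -del + 6 * ee ≤ _
  cases i with
  | P =>
    have := abs_le.1 (fixL_P_val h x)
    unfold del ee at *
    linarith [this.1]
  | Q =>
    have := abs_le.1 (fixL_Q_val h x)
    unfold del ee at *
    linarith [this.1]

theorem fixL_lt_hi (h : S.Good) (i : Sy) (x : H) : LtC (S.fixL i) hi x := by
  refine LtC.of_gap (fixL_leaf h i) hi_leaf ?_
  show _ ≤ 1 + del
  cases i with
  | P =>
    have := abs_le.1 (fixL_P_val h x)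
    unfold del ee at *
    linarith [this.2]
  | Q =>
    have := abs_le.1 (fixL_Q_val h x)
    unfold del ee at *
    linarith [this.2]

theorem fixP_lt_GPQ (h : S.Good) (x : H) : LtC (S.fixL Sy.P) (S.GG Sy.P (S.fixL Sy.Q)) x := by
  refine LtC.of_gap (fixL_leaf h _) (GG_leaf h _ (fixL_leaf h _)) ?_
  have h1 := abs_le.1 (fixL_P_val h x)
  have h2 := abs_le.1 (GGPQ_val h x)
  have h3 := h.q0 Sy.P
  unfold ee at *
  linarith [h1.2, h2.1, h3.1]

theorem GPQ_lt_GQP (h : S.Good) (x : H) :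
    LtC (S.GG Sy.P (S.fixL Sy.Q)) (S.GG Sy.Q (S.fixL Sy.P)) x := by
  refine LtC.of_gap (GG_leaf h _ (fixL_leaf h _)) (GG_leaf h _ (fixL_leaf h _)) ?_
  have h1 := abs_le.1 (GGQP_val h x)
  have h2 := abs_le.1 (GGPQ_val h x)
  unfold ee gam at *
  linarith [h1.1, h2.2]

theorem GQP_lt_fixQ (h : S.Good) (x : H) : LtC (S.GG Sy.Q (S.fixL Sy.P)) (S.fixL Sy.Q) x := by
  refine LtC.of_gap (GG_leaf h _ (fixL_leaf h _)) (fixL_leaf h _) ?_
  have h1 := abs_le.1 (GGQP_val h x)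
  have h2 := abs_le.1 (fixL_Q_val h x)
  have h3 := (h.q0 Sy.P).2
  unfold ee gam at *
  linarith [h1.2, h2.1]

/-- Proof: `GG_int` (`del / 10 ≥ 6 ee`). -/
theorem lo_lt_GG (h : S.Good) (i : Sy) {f : H → ℝ × V} (hf : S.Leaf f) (x : H) :
    LtC lo (S.GG i f) x := by
  refine LtC.of_gap lo_leaf (GG_leaf h _ hf) ?_
  have h1 := (GG_int h i hf x).1
  show -del + 6 * ee ≤ _
  have h2 : 6 * ee ≤ del / 10 := by norm_num [ee, del]
  linarith

theorem GG_lt_hi (h : S.Good) (i : Sy) {f : H → ℝ × V} (hf : S.Leaf f) (x : H) :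
    LtC (S.GG i f) hi x := by
  refine LtC.of_gap (GG_leaf h _ hf) hi_leaf ?_
  have h1 := (GG_int h i hf x).2
  show _ ≤ 1 + del
  have h2 : 6 * ee ≤ del / 10 := by norm_num [ee, del]
  linarith

/-- Proof: `GG_val` for the two constants. -/
theorem GP_hi_lt_GQ_lo (h : S.Good) (x : H) : LtC (S.GG Sy.P hi) (S.GG Sy.Q lo) x := by
  refine LtC.of_gap (GG_leaf h _ hi_leaf) (GG_leaf h _ lo_leaf) ?_
  have h1 : (S.GG Sy.P hi x).1 - (0 + S.q Sy.P * (1 + del)) ≤ ee :=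
    (abs_le.1 (GG_val h Sy.P hi_leaf x)).2
  have h2 : -ee ≤ (S.GG Sy.Q lo x).1 - ((S.q Sy.P + gam) + S.q Sy.Q * (-del)) :=
    (abs_le.1 (GG_val h Sy.Q lo_leaf x)).1
  have h3 := (h.q0 Sy.P).2
  have h4 := (h.q0 Sy.Q).2
  generalize (S.GG Sy.P hi x).1 = a at *
  generalize (S.GG Sy.Q lo x).1 = b at *
  unfold ee gam del at *
  linarith

/-- Proof: the last letter of `w` (`List.eq_nil_or_concat`, `Gw_append`), `lo_lt_GG`. -/
theorem lo_lt_Gw (h : S.Good) {w : List Sy} (hw : w ≠ []) {f : H → ℝ × V} (hf : S.Leaf f) (x : H) :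
    LtC lo (S.Gw w f) x := by
  rcases List.eq_nil_or_concat w with h1 | ⟨l, a, h1⟩
  · exact absurd h1 hw
  · rw [h1, List.concat_eq_append, Sys.Gw_append]
    exact lo_lt_GG h a (Gw_leaf h l hf) x

theorem Gw_lt_hi (h : S.Good) {w : List Sy} (hw : w ≠ []) {f : H → ℝ × V} (hf : S.Leaf f) (x : H) :
    LtC (S.Gw w f) hi x := by
  rcases List.eq_nil_or_concat w with h1 | ⟨l, a, h1⟩
  · exact absurd h1 hw
  · rw [h1, List.concat_eq_append, Sys.Gw_append]
    exact GG_lt_hi h a (Gw_leaf h l hf) x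

end Pool.Agent.Lib.H37D
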