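import Pool.Agent.Lib.H37D.A11

/-!
# H37D A31 (size M): pairs of cross orbits with the same end coordinate

As `Lib/H37N/A31.lean`. Notation `E n = ‖x1 n - x0 n‖`, `D n = y1 n - y0 n`, `W n = ‖v1 n - v0 n‖`, `M n = max |D n| (W n)`.
-/

open Set Filter Topology

namespace Pool.Agent.Lib.H37D

open Pool.Agent.Lib.H37N

variable {H V : Type*} [NormedAddCommGroup H] [NormedSpace ℝ H] [NormedAddCommGroup V]
  [NormedSpace ℝ V] {S : Sys H V}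

theorem Sys.Orb.mem_dom {i : ℕ → Sy} {k : ℕ} {x : ℕ → H} {y : ℕ → ℝ} {v : ℕ → V}
    (o : S.Orb i k x y v) {n : ℕ} (hn : n < k) : (x (n + 1), y n, v n) ∈ S.dom :=
  ⟨o.mx _ hn, o.my _ hn.le, o.mv _ hn.le⟩

/-- one step. Proof: `X_diff`, `Y_diff`, `K_diff` at the points `(x (n+1), y n, v n)`. -/
theorem orb_step (h : S.Good) {i : ℕ → Sy} {k : ℕ} {x0 x1 : ℕ → H} {y0 y1 : ℕ → ℝ} {v0 v1 : ℕ → V}
    (o0 : S.Orb i k x0 y0 v0) (o1 : S.Orb i k x1 y1 v1) {n : ℕ} (hn : n < k) :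
    ‖x1 n - x0 n‖ ≤ 811 / 1000 * ‖x1 (n + 1) - x0 (n + 1)‖ + ee * |y1 n - y0 n| +
        ee * ‖v1 n - v0 n‖ ∧
    |y1 (n + 1) - y0 (n + 1) - S.q (i n) * (y1 n - y0 n)| ≤
      ee * ‖x1 (n + 1) - x0 (n + 1)‖ + ee * |y1 n - y0 n| + ee * ‖v1 n - v0 n‖ ∧
    ‖v1 (n + 1) - v0 (n + 1)‖ ≤
      ee * ‖x1 (n + 1) - x0 (n + 1)‖ + ee * |y1 n - y0 n| + 1 / 50 * ‖v1 n - v0 n‖ := by
  have m0 := o0.mem_dom hn
  have m1 := o1.mem_dom hn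
  have hX := h.X_diff (i n) m0 m1
  have hY := h.Y_diff (i n) m0 m1
  have hK := h.K_diff (i n) m0 m1
  rw [← o0.ex n hn, ← o1.ex n hn] at hX
  rw [← o0.ey n hn, ← o1.ey n hn] at hY
  rw [← o0.ev n hn, ← o1.ev n hn] at hK
  exact ⟨hX, hY, hK⟩

theorem a31_D' {D' D E' W q : ℝ} (hq : 19 / 100 ≤ q ∧ q ≤ 81 / 100)
    (h2 : |D' - q * D| ≤ ee * E' + ee * |D| + ee * W) :
    |D'| ≤ 81 / 100 * |D| + (ee * E' + ee * |D| + ee * W) := by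
  have a2 : |D'| ≤ |D' - q * D| + |q * D| := by
    have := abs_add_le (D' - q * D) (q * D)
    rwa [sub_add_cancel] at this
  have a4 : |q * D| ≤ 81 / 100 * |D| := by
    rw [abs_mul, abs_of_nonneg (by linarith [hq.1] : 0 ≤ q)]
    exact mul_le_mul_of_nonneg_right hq.2 (abs_nonneg _)
  linarith

/-- `M' ≤ 812 / 1000 M + ee E'` -/
theorem a31_M {D' D E' W W' : ℝ} (hD : 0 ≤ D) (hW : 0 ≤ W)
    (h2 : D' ≤ 81 / 100 * D + (ee * E' + ee * D + ee * W))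
    (h3 : W' ≤ ee * E' + ee * D + 1 / 50 * W) :
    max D' W' ≤ 812 / 1000 * max D W + ee * E' := by
  have m1 := le_max_left D W
  have m2 := le_max_right D W
  unfold ee at *
  refine max_le ?_ ?_ <;> linarith

theorem a31_num1 {E E' D' D W W' : ℝ} (hD : 0 ≤ D) (hW : 0 ≤ W)
    (h1 : E ≤ 811 / 1000 * E' + ee * D + ee * W)
    (h2 : D' ≤ 81 / 100 * D + (ee * E' + ee * D + ee * W))
    (h3 : W' ≤ ee * E' + ee * D + 1 / 50 * W) (h4 : E' ≤ 6 * ee * max D' W') :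
    E ≤ 6 * ee * max D W := by
  have hM := a31_M hD hW h2 h3
  have m1 := le_max_left D W
  have m2 := le_max_right D W
  unfold ee at *
  linarith

/-- Proof. Backward induction: `E k = 0`. If `E (n+1) ≤ 4 ee M (n+1)` then, as
`M (n+1) ≤ 812/1000 M n + ee E (n+1)`, `M (n+1) ≤ 813/1000 M n`, and
`E n ≤ 811/1000 * 4 ee * 813/1000 M n + 2 ee M n ≤ 4.7 ee M n`; so use the constant `6`: `.811 * 6 * .813 + 2 ≤ 5.96`. -/
theorem pair_E (h : S.Good) {i : ℕ → Sy} {k : ℕ} {x0 x1 : ℕ → H} {y0 y1 : ℕ → ℝ} {v0 v1 : ℕ → V}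
    (o0 : S.Orb i k x0 y0 v0) (o1 : S.Orb i k x1 y1 v1) (hk : x0 k = x1 k) {n : ℕ} (hn : n ≤ k) :
    ‖x1 n - x0 n‖ ≤ 6 * ee * max |y1 n - y0 n| ‖v1 n - v0 n‖ := by
  have key : ∀ m n, n + m = k → ‖x1 n - x0 n‖ ≤ 6 * ee * max |y1 n - y0 n| ‖v1 n - v0 n‖ := by
    intro m
    induction m with
    | zero =>
      intro n hn
      rw [Nat.add_zero] at hn
      rw [hn, hk, sub_self, norm_zero]
      exact mul_nonneg (mul_nonneg (by norm_num) ee_pos.le) ((abs_nonneg _).trans (le_max_left _ _))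
    | succ m ih =>
      intro n hn
      have hnk : n < k := by omega
      obtain ⟨s1, s2, s3⟩ := orb_step h o0 o1 hnk
      exact a31_num1 (abs_nonneg _) (norm_nonneg _) s1 (a31_D' (h.q0 (i n)) s2) s3
        (ih (n + 1) (by omega))
  exact key (k - n) n (by omega)

theorem a31_num2 {D' D E' W W' q : ℝ} (hq : 19 / 100 ≤ q ∧ q ≤ 81 / 100) (hW : 0 ≤ W)
    (hE : 0 ≤ E') (hD : 0 < D) (hWD : W ≤ D)
    (h2 : |D' - q * D| ≤ ee * E' + ee * |D| + ee * W)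
    (h3 : W' ≤ ee * E' + ee * |D| + 1 / 50 * W) (h4 : E' ≤ 6 * ee * max |D'| W') :
    (0 < D' ∧ W' ≤ D') ∧ 18 / 100 * D ≤ D' ∧ D' ≤ 82 / 100 * D := by
  have hM := a31_M (abs_nonneg D) hW (a31_D' hq h2) h3
  have m3 : max |D| W = D := by rw [abs_of_pos hD]; exact max_eq_left hWD
  rw [m3] at hM
  rw [abs_of_pos hD] at h2 h3
  have a1 : 19 / 100 * D ≤ q * D := mul_le_mul_of_nonneg_right hq.1 hD.le
  have a2 : q * D ≤ 81 / 100 * D := mul_le_mul_of_nonneg_right hq.2 hD.le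
  obtain ⟨c1, c2⟩ := abs_le.1 h2
  unfold ee at *
  refine ⟨⟨?_, ?_⟩, ?_, ?_⟩ <;> linarith

/-- Proof. Forward induction on the cone condition `0 < D n`, `W n ≤ D n` (so `M n = D n`, `E (n+1) ≤ 6 ee M (n+1)`,
`M (n+1) ≤ 813/1000 D n`): `D (n+1) ≥ (19/100 - 3 ee) D n`, `W (n+1) ≤ (1/50 + 3 ee) D n ≤ D (n+1)`. -/
theorem pair_D (h : S.Good) {i : ℕ → Sy} {k : ℕ} {x0 x1 : ℕ → H} {y0 y1 : ℕ → ℝ} {v0 v1 : ℕ → V}
    (o0 : S.Orb i k x0 y0 v0) (o1 : S.Orb i k x1 y1 v1) (hk : x0 k = x1 k) (h0 : y0 0 < y1 0)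
    (hc : ‖v1 0 - v0 0‖ ≤ y1 0 - y0 0) :
    (∀ n ≤ k, 0 < y1 n - y0 n ∧ ‖v1 n - v0 n‖ ≤ y1 n - y0 n) ∧
    ∀ n < k, 18 / 100 * (y1 n - y0 n) ≤ y1 (n + 1) - y0 (n + 1) ∧
      y1 (n + 1) - y0 (n + 1) ≤ 82 / 100 * (y1 n - y0 n) := by
  have step : ∀ n, n < k → 0 < y1 n - y0 n ∧ ‖v1 n - v0 n‖ ≤ y1 n - y0 n →
      (0 < y1 (n + 1) - y0 (n + 1) ∧ ‖v1 (n + 1) - v0 (n + 1)‖ ≤ y1 (n + 1) - y0 (n + 1)) ∧
      18 / 100 * (y1 n - y0 n) ≤ y1 (n + 1) - y0 (n + 1) ∧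
      y1 (n + 1) - y0 (n + 1) ≤ 82 / 100 * (y1 n - y0 n) := by
    intro n hn hp
    obtain ⟨_, s2, s3⟩ := orb_step h o0 o1 hn
    exact a31_num2 (h.q0 (i n)) (norm_nonneg _) (norm_nonneg _) hp.1 hp.2 s2 s3
      (pair_E h o0 o1 hk hn)
  have pos : ∀ n ≤ k, 0 < y1 n - y0 n ∧ ‖v1 n - v0 n‖ ≤ y1 n - y0 n := by
    intro n
    induction n with
    | zero => intro _; exact ⟨by linarith, hc⟩
    | succ n ih =>
      intro hn
      exact (step n (by omega) (ih (by omega))).1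
  exact ⟨pos, fun n hn => (step n hn (pos n hn.le)).2⟩

end Pool.Agent.Lib.H37D
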