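import Pool.Agent.Lib.H37D.A31
import Pool.Agent.Lib.H37D.A32
import Pool.Agent.Lib.H37D.A33

/-!
# H37D A34 (size M/L): distortion of four cross orbits

As `Lib/H37N/A34.lean`. Notation: `D n = y1 n - y0 n > 0`, `r n = (D n)⁻¹ • (x1 n - x0 n)`, `s n = (D n)⁻¹ • (v1 n - v0 n)`, the same with primes for the
orbits `2, 3`. `‖r n‖ ≤ 6 ee` (`pair_E`, `pair_D`), `‖s n‖ ≤ 1`.
-/

open Set Filter Topology

namespace Pool.Agent.Lib.H37D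

open Pool.Agent.Lib.H37N

variable {H V : Type*} [NormedAddCommGroup H] [NormedSpace ℝ H] [NormedAddCommGroup V]
  [NormedSpace ℝ V] {S : Sys H V}

/-- the restrictions of a linear map to the factors -/
noncomputable def da34_1 {Z : Type*} [NormedAddCommGroup Z] [NormedSpace ℝ Z] (A : H × ℝ × V →L[ℝ] Z) :
    H →L[ℝ] Z := A.comp (ContinuousLinearMap.inl ℝ H (ℝ × V))

noncomputable def da34_3 {Z : Type*} [NormedAddCommGroup Z] [NormedSpace ℝ Z] (A : H × ℝ × V →L[ℝ] Z) :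
    V →L[ℝ] Z := A.comp ((ContinuousLinearMap.inr ℝ H (ℝ × V)).comp (ContinuousLinearMap.inr ℝ ℝ V))

theorem da34_1_apply {Z : Type*} [NormedAddCommGroup Z] [NormedSpace ℝ Z] (A : H × ℝ × V →L[ℝ] Z)
    (x : H) : da34_1 A x = A (x, 0, 0) := rfl

theorem da34_3_apply {Z : Type*} [NormedAddCommGroup Z] [NormedSpace ℝ Z] (A : H × ℝ × V →L[ℝ] Z)
    (v : V) : da34_3 A v = A (0, 0, v) := rfl

theorem da34_norm {Z : Type*} [NormedAddCommGroup Z] [NormedSpace ℝ Z] {A A' : H × ℝ × V →L[ℝ] Z}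
    {c : ℝ} (hA : ‖A - A'‖ ≤ c) : ‖da34_1 A - da34_1 A'‖ ≤ c ∧ ‖A (0, 1, 0) - A' (0, 1, 0)‖ ≤ c ∧
      ‖da34_3 A - da34_3 A'‖ ≤ c := by
  have hc : 0 ≤ c := (norm_nonneg _).trans hA
  refine ⟨?_, ?_, ?_⟩
  · refine ContinuousLinearMap.opNorm_le_bound _ hc fun x => ?_
    have h1 := (A - A').le_opNorm (x, 0, 0)
    have h2 : ‖((x, 0, 0) : H × ℝ × V)‖ = ‖x‖ := by
      simp [Prod.norm_def]
    rw [h2] at h1
    exact h1.trans (mul_le_mul_of_nonneg_right hA (norm_nonneg _))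
  · have h1 := (A - A').le_opNorm (0, 1, 0)
    have h2 : ‖((0, 1, 0) : H × ℝ × V)‖ = 1 := by
      simp [Prod.norm_def]
    rw [h2, mul_one] at h1
    exact h1.trans hA
  · refine ContinuousLinearMap.opNorm_le_bound _ hc fun x => ?_
    have h1 := (A - A').le_opNorm (0, 0, x)
    have h2 : ‖((0, 0, x) : H × ℝ × V)‖ = ‖x‖ := by
      simp [Prod.norm_def]
    rw [h2] at h1
    exact h1.trans (mul_le_mul_of_nonneg_right hA (norm_nonneg _))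

theorem da34_key {Z : Type*} [NormedAddCommGroup Z] [NormedSpace ℝ Z] (A : H × ℝ × V →L[ℝ] Z)
    {E1 : H} {D0 D1 : ℝ} {W0 : V} (h0 : 0 < D0) (h1 : 0 < D1) :
    A (E1, D0, W0) = D1 • da34_1 A (D1⁻¹ • E1) + D0 • (A (0, 1, 0) + da34_3 A (D0⁻¹ • W0)) := by
  rw [lin_split A]
  show A (E1, 0, 0) + D0 • A (0, 1, 0) + A (0, 0, W0) = _
  rw [← da34_1_apply, ← da34_3_apply, map_smul, map_smul, smul_add, smul_smul, smul_smul,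
    mul_inv_cancel₀ h1.ne', mul_inv_cancel₀ h0.ne', one_smul, one_smul]
  abel

/-- the formulas for one pair -/
theorem da34_alg {AX : H × ℝ × V →L[ℝ] H} {AY : H × ℝ × V →L[ℝ] ℝ} {AK : H × ℝ × V →L[ℝ] V}
    {E0 E1 : H} {D0 D1 : ℝ} {W0 W1 : V} (h0 : 0 < D0) (h1 : 0 < D1)
    (hX : E0 = AX (E1, D0, W0)) (hY : D1 = AY (E1, D0, W0)) (hK : W1 = AK (E1, D0, W0))
    (hu : |da34_1 AY (D1⁻¹ • E1)| < 1) :
    D1 / D0 = (AY (0, 1, 0) + da34_3 AY (D0⁻¹ • W0)) / (1 - da34_1 AY (D1⁻¹ • E1)) ∧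
    D0⁻¹ • E0 = (D1 / D0) • da34_1 AX (D1⁻¹ • E1) + AX (0, 1, 0) + da34_3 AX (D0⁻¹ • W0) ∧
    D1⁻¹ • W1 = da34_1 AK (D1⁻¹ • E1) + (D1 / D0)⁻¹ • (AK (0, 1, 0) + da34_3 AK (D0⁻¹ • W0)) := by
  rw [da34_key AX h0 h1] at hX
  rw [da34_key AY h0 h1] at hY
  rw [da34_key AK h0 h1] at hK
  refine ⟨?_, ?_, ?_⟩
  · have hpos : 0 < 1 - da34_1 AY (D1⁻¹ • E1) := by
      have := (abs_lt.1 hu).2
      linarith
    rw [div_eq_div_iff h0.ne' hpos.ne']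
    rw [smul_eq_mul, smul_eq_mul] at hY
    linear_combination hY
  · rw [hX, smul_add, smul_smul, smul_smul, inv_mul_cancel₀ h0.ne', one_smul,
      div_eq_inv_mul, add_assoc]
  · rw [hK, smul_add, smul_smul, smul_smul, inv_mul_cancel₀ h1.ne', one_smul, inv_div,
      div_eq_inv_mul]

theorem da34_pt (z w : H × ℝ × V) : ‖w - z‖ ≤ ‖w.1 - z.1‖ + |w.2.1 - z.2.1| + ‖w.2.2 - z.2.2‖ := by
  have a := norm_nonneg (w.1 - z.1)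
  have b := abs_nonneg (w.2.1 - z.2.1)
  have c := norm_nonneg (w.2.2 - z.2.2)
  rw [Prod.norm_def, Prod.norm_def]
  refine max_le ?_ (max_le ?_ ?_)
  · show ‖w.1 - z.1‖ ≤ _
    linarith
  · show ‖w.2.1 - z.2.1‖ ≤ _
    rw [Real.norm_eq_abs]
    linarith
  · show ‖w.2.2 - z.2.2‖ ≤ _
    linarith

theorem da34_diff {E Z : Type*} [NormedAddCommGroup E] [NormedSpace ℝ E] [NormedAddCommGroup Z]
    [NormedSpace ℝ Z] {A A' : E →L[ℝ] Z} {c m t : ℝ} (hc : ‖A - A'‖ ≤ c) (hm : ∀ v, ‖A' v‖ ≤ m * ‖v‖)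
    {v v' : E} (hv : ‖v‖ ≤ t) (hc0 : 0 ≤ c) :
    ‖A v - A' v'‖ ≤ c * t + m * ‖v - v'‖ := by
  have e : A v - A' v' = (A - A') v + A' (v - v') := by
    rw [ContinuousLinearMap.sub_apply, map_sub]
    abel
  rw [e]
  refine (norm_add_le _ _).trans (add_le_add ?_ (hm _))
  refine ((A - A').le_opNorm v).trans ?_
  exact mul_le_mul hc hv (norm_nonneg _) hc0

theorem da34_core {AX AX' : H × ℝ × V →L[ℝ] H} {AY AY' : H × ℝ × V →L[ℝ] ℝ}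
    {AK AK' : H × ℝ × V →L[ℝ] V} {E0 E1 E0' E1' : H} {D0 D1 D0' D1' q δ : ℝ} {W0 W1 W0' W1' : V}
    (hq : 19 / 100 ≤ q ∧ q ≤ 81 / 100) (hδ : 0 ≤ δ) (h0 : 0 < D0) (h1 : 0 < D1) (h0' : 0 < D0')
    (h1' : 0 < D1') (hρ : 18 / 100 * D0 ≤ D1) (hρ' : 18 / 100 * D0' ≤ D1') (hW : ‖W0‖ ≤ D0)
    (hW' : ‖W0'‖ ≤ D0') (hE : ‖E1‖ ≤ 6 * ee * D1) (hE' : ‖E1'‖ ≤ 6 * ee * D1')
    (eX : E0 = AX (E1, D0, W0)) (eY : D1 = AY (E1, D0, W0)) (eK : W1 = AK (E1, D0, W0))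
    (eX' : E0' = AX' (E1', D0', W0')) (eY' : D1' = AY' (E1', D0', W0'))
    (eK' : W1' = AK' (E1', D0', W0'))
    (cX : ‖AX (0, 1, 0)‖ ≤ ee) (cX' : (∀ h, ‖AX' (h, 0, 0)‖ ≤ 811 / 1000 * ‖h‖) ∧
      ‖AX' (0, 1, 0)‖ ≤ ee ∧ ∀ v, ‖AX' (0, 0, v)‖ ≤ ee * ‖v‖)
    (cY : (∀ h, |AY (h, 0, 0)| ≤ ee * ‖h‖) ∧ |AY (0, 1, 0) - q| ≤ ee ∧
      ∀ v, |AY (0, 0, v)| ≤ ee * ‖v‖)
    (cY' : (∀ h, |AY' (h, 0, 0)| ≤ ee * ‖h‖) ∧ |AY' (0, 1, 0) - q| ≤ ee ∧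
      ∀ v, |AY' (0, 0, v)| ≤ ee * ‖v‖)
    (cK' : (∀ h, ‖AK' (h, 0, 0)‖ ≤ ee * ‖h‖) ∧ ‖AK' (0, 1, 0)‖ ≤ ee ∧
      ∀ v, ‖AK' (0, 0, v)‖ ≤ 1 / 50 * ‖v‖)
    (dX : ‖AX - AX'‖ ≤ ee * δ) (dY : ‖AY - AY'‖ ≤ ee * δ) (dK : ‖AK - AK'‖ ≤ ee * δ) :
    |Real.log (D1 / D0) - Real.log (D1' / D0')| ≤
      20 * ee * (δ + ‖D0⁻¹ • W0 - D0'⁻¹ • W0'‖ + ‖D1⁻¹ • E1 - D1'⁻¹ • E1'‖) ∧
    ‖D0⁻¹ • E0 - D0'⁻¹ • E0'‖ ≤ 7 / 10 * ‖D1⁻¹ • E1 - D1'⁻¹ • E1'‖ +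
      5 * ee * (δ + ‖D0⁻¹ • W0 - D0'⁻¹ • W0'‖) ∧
    ‖D1⁻¹ • W1 - D1'⁻¹ • W1'‖ ≤ 12 / 100 * ‖D0⁻¹ • W0 - D0'⁻¹ • W0'‖ +
      20 * ee * (δ + ‖D1⁻¹ • E1 - D1'⁻¹ • E1'‖) := by
  have he : (0 : ℝ) < ee := ee_pos
  have hee6 : ee * (6 * ee) ≤ 1 / 1000 := by norm_num [ee]
  have hee1 : 6 * ee ≤ 1 := by norm_num [ee]
  have hee2 : ee ≤ 1 / 10 ^ 6 := by norm_num [ee]
  have hr : ‖D1⁻¹ • E1‖ ≤ 6 * ee := by
    rw [norm_smul, norm_inv, Real.norm_eq_abs, abs_of_pos h1, inv_mul_le_iff₀ h1, mul_comm]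
    exact hE
  have hr' : ‖D1'⁻¹ • E1'‖ ≤ 6 * ee := by
    rw [norm_smul, norm_inv, Real.norm_eq_abs, abs_of_pos h1', inv_mul_le_iff₀ h1', mul_comm]
    exact hE'
  have hs : ‖D0⁻¹ • W0‖ ≤ 1 := by
    rw [norm_smul, norm_inv, Real.norm_eq_abs, abs_of_pos h0, inv_mul_le_iff₀ h0, mul_one]
    exact hW
  have hs' : ‖D0'⁻¹ • W0'‖ ≤ 1 := by
    rw [norm_smul, norm_inv, Real.norm_eq_abs, abs_of_pos h0', inv_mul_le_iff₀ h0', mul_one]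
    exact hW'
  have hu : |da34_1 AY (D1⁻¹ • E1)| ≤ 1 / 1000 :=
    (cY.1 _).trans ((mul_le_mul_of_nonneg_left hr he.le).trans hee6)
  have hu' : |da34_1 AY' (D1'⁻¹ • E1')| ≤ 1 / 1000 :=
    (cY'.1 _).trans ((mul_le_mul_of_nonneg_left hr' he.le).trans hee6)
  obtain ⟨q1, q2, q3⟩ := da34_alg h0 h1 eX eY eK (by linarith)
  obtain ⟨q1', q2', q3'⟩ := da34_alg h0' h1' eX' eY' eK' (by linarith)
  have hρ1 : 18 / 100 ≤ D1 / D0 := by rw [le_div_iff₀ h0]; exact hρ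
  have hρ1' : 18 / 100 ≤ D1' / D0' := by rw [le_div_iff₀ h0']; exact hρ'
  rw [q2, q2', q3, q3']
  obtain ⟨nX1, nX2, nX3⟩ := da34_norm dX
  obtain ⟨nY1, nY2, nY3⟩ := da34_norm dY
  obtain ⟨nK1, nK2, nK3⟩ := da34_norm dK
  have hed : 0 ≤ ee * δ := mul_nonneg he.le hδ
  have kb := da34_diff (A := da34_3 AY) (A' := da34_3 AY') (v' := D0'⁻¹ • W0') nY3
    (m := ee) cY'.2.2 hs hed
  have ku := da34_diff (A := da34_1 AY) (A' := da34_1 AY') (v' := D1'⁻¹ • E1') nY1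
    (m := ee) cY'.1 hr hed
  have hb1 := cY.2.2 (D0⁻¹ • W0)
  have hb1' := cY'.2.2 (D0'⁻¹ • W0')
  rw [← da34_3_apply] at hb1 hb1'
  generalize D1⁻¹ • E1 = r at *
  generalize D1'⁻¹ • E1' = r' at *
  generalize D0⁻¹ • W0 = s at *
  generalize D0'⁻¹ • W0' = s' at *
  rw [Real.norm_eq_abs] at kb ku nY2
  have hb2 : |da34_3 AY s| ≤ ee := hb1.trans (by
    have := mul_le_mul_of_nonneg_left hs he.le
    linarith)
  have hb2' : |da34_3 AY' s'| ≤ ee := hb1'.trans (by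
    have := mul_le_mul_of_nonneg_left hs' he.le
    linarith)
  obtain ⟨b, hb⟩ : ∃ b, b = AY (0, 1, 0) + da34_3 AY s := ⟨_, rfl⟩
  obtain ⟨b', hb'⟩ : ∃ b', b' = AY' (0, 1, 0) + da34_3 AY' s' := ⟨_, rfl⟩
  have hbb : |b - b'| ≤ 2 * (ee * δ) + ee * ‖s - s'‖ := by
    have e : b - b' = (AY (0, 1, 0) - AY' (0, 1, 0)) + (da34_3 AY s - da34_3 AY' s') := by
      rw [hb, hb']
      ring
    rw [e]
    refine (abs_add_le _ _).trans ?_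
    linarith
  have hub : |da34_1 AY r - da34_1 AY' r'| ≤ ee * δ + ee * ‖r - r'‖ := by
    refine ku.trans ?_
    have := mul_le_mul_of_nonneg_left hee1 hed
    linarith
  rw [← hb] at q1
  rw [← hb'] at q1'
  have hbl : 18 / 100 ≤ b ∧ b ≤ 82 / 100 := by
    have k1 := abs_le.1 cY.2.1
    have k2 := abs_le.1 hb2
    norm_num at hee2
    rw [hb]
    constructor <;> linarith [k1.1, k1.2, k2.1, k2.2, hq.1, hq.2]
  have hbl' : 18 / 100 ≤ b' ∧ b' ≤ 82 / 100 := by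
    have k1 := abs_le.1 cY'.2.1
    have k2 := abs_le.1 hb2'
    norm_num at hee2
    rw [hb']
    constructor <;> linarith [k1.1, k1.2, k2.1, k2.2, hq.1, hq.2]
  have hss := norm_nonneg (s - s')
  have hrr := norm_nonneg (r - r')
  have p1 : 0 ≤ ee * ‖s - s'‖ := mul_nonneg he.le hss
  have p2 : 0 ≤ ee * ‖r - r'‖ := mul_nonneg he.le hrr
  have hsr := step_rho (b := b) (b' := b') (by rw [abs_le]; constructor <;> linarith [hbl.1, hbl.2])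
    (by rw [abs_le]; constructor <;> linarith [hbl'.1, hbl'.2]) hu hu'
  rw [← q1, ← q1'] at hsr
  have hρρ : |D1 / D0 - D1' / D0'| ≤ 5 * ee * (δ + ‖s - s'‖ + ‖r - r'‖) := by
    refine hsr.1.trans ?_
    nlinarith
  refine ⟨?_, ?_, ?_⟩
  · have hl := step_log hbl.1 hbl'.1 (hu.trans (by norm_num)) (hu'.trans (by norm_num))
    rw [← q1, ← q1'] at hl
    refine hl.trans ?_
    nlinarith
  · exact step_r hδ nX1 cX'.1 nX3 cX'.2.2 nX2 hr hr' hs hsr.2 hρρ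
  · exact step_s hδ nK1 cK'.1 nK3 cK'.2.2 nK2 cK'.2.1 hr hs hs' hρ1 hρ1' hρρ

/-- Proof. The mean value properties for the four points `z_j = (x_j (n+1), y_j n, v_j n)` give linear maps
`A_X, A_Y, A_K, A'_X, ...`; with `lin_split` and division by `D n` (and `D (n+1) = ρ D n`):
`ρ = D (n+1) / D n = (A_Y (0,1,0) + A_Y (0,0,s n)) / (1 - A_Y (r (n+1),0,0))`,
`r n = ρ • A_X (r (n+1),0,0) + A_X (0,1,0) + A_X (0,0,s n)`,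
`s (n+1) = A_K (r (n+1),0,0) + ρ⁻¹ • (A_K (0,1,0) + A_K (0,0,s n))`. `δ = max ‖z_2 - z_0‖ ‖z_3 - z_1‖`. The restrictions of `A_X` etc. to the three factors
(compositions with `ContinuousLinearMap.inl`, `inr`, of norm `≤ 1`) differ by at most `ee δ`. `step_log`, `step_rho`, `step_r`, `step_s`. -/
theorem dist_step (h : S.Good) {i : ℕ → Sy} {k : ℕ} {x0 x1 x2 x3 : ℕ → H} {y0 y1 y2 y3 : ℕ → ℝ}
    {v0 v1 v2 v3 : ℕ → V} (o0 : S.Orb i k x0 y0 v0) (o1 : S.Orb i k x1 y1 v1)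
    (o2 : S.Orb i k x2 y2 v2) (o3 : S.Orb i k x3 y3 v3) (hk : x0 k = x1 k) (hk' : x2 k = x3 k)
    (h0 : y0 0 < y1 0) (h0' : y2 0 < y3 0) (hc : ‖v1 0 - v0 0‖ ≤ y1 0 - y0 0)
    (hc' : ‖v3 0 - v2 0‖ ≤ y3 0 - y2 0) {n : ℕ} (hn : n < k) : ∃ δ : ℝ, 0 ≤ δ ∧
      δ ≤ (‖x2 (n + 1) - x0 (n + 1)‖ + |y2 n - y0 n| + ‖v2 n - v0 n‖) +
        (‖x3 (n + 1) - x1 (n + 1)‖ + |y3 n - y1 n| + ‖v3 n - v1 n‖) ∧
      |Real.log ((y1 (n + 1) - y0 (n + 1)) / (y1 n - y0 n)) -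
        Real.log ((y3 (n + 1) - y2 (n + 1)) / (y3 n - y2 n))| ≤
        20 * ee * (δ + ‖(y1 n - y0 n)⁻¹ • (v1 n - v0 n) - (y3 n - y2 n)⁻¹ • (v3 n - v2 n)‖ +
          ‖(y1 (n + 1) - y0 (n + 1))⁻¹ • (x1 (n + 1) - x0 (n + 1)) -
            (y3 (n + 1) - y2 (n + 1))⁻¹ • (x3 (n + 1) - x2 (n + 1))‖) ∧
      ‖(y1 n - y0 n)⁻¹ • (x1 n - x0 n) - (y3 n - y2 n)⁻¹ • (x3 n - x2 n)‖ ≤
        7 / 10 * ‖(y1 (n + 1) - y0 (n + 1))⁻¹ • (x1 (n + 1) - x0 (n + 1)) -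
            (y3 (n + 1) - y2 (n + 1))⁻¹ • (x3 (n + 1) - x2 (n + 1))‖ +
          5 * ee * (δ + ‖(y1 n - y0 n)⁻¹ • (v1 n - v0 n) - (y3 n - y2 n)⁻¹ • (v3 n - v2 n)‖) ∧
      ‖(y1 (n + 1) - y0 (n + 1))⁻¹ • (v1 (n + 1) - v0 (n + 1)) -
          (y3 (n + 1) - y2 (n + 1))⁻¹ • (v3 (n + 1) - v2 (n + 1))‖ ≤
        12 / 100 * ‖(y1 n - y0 n)⁻¹ • (v1 n - v0 n) - (y3 n - y2 n)⁻¹ • (v3 n - v2 n)‖ +
          20 * ee * (δ + ‖(y1 (n + 1) - y0 (n + 1))⁻¹ • (x1 (n + 1) - x0 (n + 1)) -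
            (y3 (n + 1) - y2 (n + 1))⁻¹ • (x3 (n + 1) - x2 (n + 1))‖) := by
  have z0 := o0.mem_dom hn
  have z1 := o1.mem_dom hn
  have z2 := o2.mem_dom hn
  have z3 := o3.mem_dom hn
  obtain ⟨AX, hAX, AX', hAX', eX, eX', dX⟩ := h.mvX (i n) _ z0 _ z1 _ z2 _ z3
  obtain ⟨AY, hAY, AY', hAY', eY, eY', dY⟩ := h.mvY (i n) _ z0 _ z1 _ z2 _ z3
  obtain ⟨AK, hAK, AK', hAK', eK, eK', dK⟩ := h.mvK (i n) _ z0 _ z1 _ z2 _ z3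
  rw [← o0.ex n hn, ← o1.ex n hn] at eX
  rw [← o2.ex n hn, ← o3.ex n hn] at eX'
  rw [← o0.ey n hn, ← o1.ey n hn] at eY
  rw [← o2.ey n hn, ← o3.ey n hn] at eY'
  rw [← o0.ev n hn, ← o1.ev n hn] at eK
  rw [← o2.ev n hn, ← o3.ev n hn] at eK'
  obtain ⟨hD, hD2⟩ := pair_D h o0 o1 hk h0 hc
  obtain ⟨hD', hD2'⟩ := pair_D h o2 o3 hk' h0' hc'
  have hE := pair_E h o0 o1 hk (n := n + 1) hn
  have hE' := pair_E h o2 o3 hk' (n := n + 1) hn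
  rw [abs_of_pos (hD (n + 1) hn).1, max_eq_left (hD (n + 1) hn).2] at hE
  rw [abs_of_pos (hD' (n + 1) hn).1, max_eq_left (hD' (n + 1) hn).2] at hE'
  obtain ⟨δ, hδe⟩ : ∃ δ : ℝ, δ = max ‖((x2 (n + 1), y2 n, v2 n) : H × ℝ × V) -
      (x0 (n + 1), y0 n, v0 n)‖ ‖((x3 (n + 1), y3 n, v3 n) : H × ℝ × V) -
      (x1 (n + 1), y1 n, v1 n)‖ := ⟨_, rfl⟩
  rw [← hδe] at dX dY dK
  have hδ : 0 ≤ δ := by
    rw [hδe]
    exact (norm_nonneg _).trans (le_max_left _ _)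
  refine ⟨δ, hδ, ?_, ?_⟩
  · rw [hδe]
    have k1 := da34_pt (x0 (n + 1), y0 n, v0 n) (x2 (n + 1), y2 n, v2 n)
    have k2 := da34_pt (x1 (n + 1), y1 n, v1 n) (x3 (n + 1), y3 n, v3 n)
    dsimp only at k1 k2
    have a1 := norm_nonneg (x2 (n + 1) - x0 (n + 1))
    have a2 := abs_nonneg (y2 n - y0 n)
    have a3 := norm_nonneg (v2 n - v0 n)
    have a4 := norm_nonneg (x3 (n + 1) - x1 (n + 1))
    have a5 := abs_nonneg (y3 n - y1 n)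
    have a6 := norm_nonneg (v3 n - v1 n)
    exact max_le (by linarith) (by linarith)
  · exact da34_core (h.q0 (i n)) hδ (hD n hn.le).1 (hD (n + 1) hn).1 (hD' n hn.le).1
      (hD' (n + 1) hn).1 (hD2 n hn).1 (hD2' n hn).1 (hD n hn.le).2 (hD' n hn.le).2 hE hE'
      eX eY eK eX' eY' eK' hAX.2.1 hAX' hAY hAY' hAK' dX dY dK

/-- Proof. `Σ δ n ≤ 40` (`sum_dist` for the pairs (0,2), (1,3)). `R = Σ_{n<k} ‖r (n+1) - r' (n+1)‖`, `T = Σ_{n<k} ‖s n - s' n‖`, `r k - r' k = 0`,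
`‖s 0 - s' 0‖ ≤ 2`: `R ≤ .7 R + 5 ee (40 + T)`, `T ≤ 2 + .12 T + 20 ee (40 + R)`; so `T ≤ 3`, `R ≤ 1`. Telescoping of the logarithms as in `A34`:
`≤ 20 ee (40 + T + R) ≤ 1000 ee`. -/
theorem distortion (h : S.Good) {i : ℕ → Sy} {k : ℕ} {x0 x1 x2 x3 : ℕ → H} {y0 y1 y2 y3 : ℕ → ℝ}
    {v0 v1 v2 v3 : ℕ → V} (o0 : S.Orb i k x0 y0 v0) (o1 : S.Orb i k x1 y1 v1)
    (o2 : S.Orb i k x2 y2 v2) (o3 : S.Orb i k x3 y3 v3) (hk : x0 k = x1 k) (hk' : x2 k = x3 k)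
    (h0 : y0 0 < y1 0) (h0' : y2 0 < y3 0) (hc : ‖v1 0 - v0 0‖ ≤ y1 0 - y0 0)
    (hc' : ‖v3 0 - v2 0‖ ≤ y3 0 - y2 0) :
    |Real.log ((y1 k - y0 k) / (y1 0 - y0 0)) - Real.log ((y3 k - y2 k) / (y3 0 - y2 0))| ≤
      1000 * ee := by
  have he : (0 : ℝ) < ee := ee_pos
  have hst := fun n (hn : n < k) => dist_step h o0 o1 o2 o3 hk hk' h0 h0' hc hc' hn
  choose! δ hδ0 hδ1 hδ2 hδ3 hδ4 using hst
  obtain ⟨hD, -⟩ := pair_D h o0 o1 hk h0 hc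
  obtain ⟨hD', -⟩ := pair_D h o2 o3 hk' h0' hc'
  have hsum : ∑ n ∈ Finset.range k, δ n ≤ 40 := by
    have k1 : ∑ n ∈ Finset.range k, δ n ≤ ∑ n ∈ Finset.range k,
        ((‖x2 (n + 1) - x0 (n + 1)‖ + |y2 n - y0 n| + ‖v2 n - v0 n‖) +
          (‖x3 (n + 1) - x1 (n + 1)‖ + |y3 n - y1 n| + ‖v3 n - v1 n‖)) :=
      Finset.sum_le_sum fun n hn => hδ1 n (Finset.mem_range.1 hn)
    rw [Finset.sum_add_distrib] at k1
    have k2 := sum_dist h o0 o2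
    have k3 := sum_dist h o1 o3
    linarith
  obtain ⟨R, hR⟩ : ∃ R : ℕ → ℝ, ∀ n, R n =
      ‖(y1 n - y0 n)⁻¹ • (x1 n - x0 n) - (y3 n - y2 n)⁻¹ • (x3 n - x2 n)‖ := ⟨_, fun _ => rfl⟩
  obtain ⟨T, hT⟩ : ∃ T : ℕ → ℝ, ∀ n, T n =
      ‖(y1 n - y0 n)⁻¹ • (v1 n - v0 n) - (y3 n - y2 n)⁻¹ • (v3 n - v2 n)‖ := ⟨_, fun _ => rfl⟩
  simp only [← hR, ← hT] at hδ2 hδ3 hδ4
  have hR0 : ∀ n, 0 ≤ R n := fun n => by rw [hR]; exact norm_nonneg _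
  have hT0 : ∀ n, 0 ≤ T n := fun n => by rw [hT]; exact norm_nonneg _
  have hRk : R k = 0 := by
    rw [hR, hk, hk']
    simp
  have hT00 : T 0 ≤ 2 := by
    rw [hT]
    have a1 : ‖(y1 0 - y0 0)⁻¹ • (v1 0 - v0 0)‖ ≤ 1 := by
      have hp := (hD 0 (Nat.zero_le _)).1
      rw [norm_smul, norm_inv, Real.norm_eq_abs, abs_of_pos hp, inv_mul_le_iff₀ hp, mul_one]
      exact hc
    have a2 : ‖(y3 0 - y2 0)⁻¹ • (v3 0 - v2 0)‖ ≤ 1 := by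
      have hp := (hD' 0 (Nat.zero_le _)).1
      rw [norm_smul, norm_inv, Real.norm_eq_abs, abs_of_pos hp, inv_mul_le_iff₀ hp, mul_one]
      exact hc'
    have a3 := norm_sub_le ((y1 0 - y0 0)⁻¹ • (v1 0 - v0 0)) ((y3 0 - y2 0)⁻¹ • (v3 0 - v2 0))
    linarith
  obtain ⟨SD, hSD⟩ : ∃ SD, SD = ∑ n ∈ Finset.range k, δ n := ⟨_, rfl⟩
  obtain ⟨SR, hSR⟩ : ∃ SR, SR = ∑ n ∈ Finset.range k, R (n + 1) := ⟨_, rfl⟩
  obtain ⟨ST, hST⟩ : ∃ ST, ST = ∑ n ∈ Finset.range k, T n := ⟨_, rfl⟩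
  have hSR0 : 0 ≤ SR := by
    rw [hSR]
    exact Finset.sum_nonneg fun n _ => hR0 _
  have hST0 : 0 ≤ ST := by
    rw [hST]
    exact Finset.sum_nonneg fun n _ => hT0 _
  rw [← hSD] at hsum
  have k1 : SR ≤ 7 / 10 * SR + 5 * ee * (SD + ST) := by
    have a1 : ∑ n ∈ Finset.range k, R n ≤ ∑ n ∈ Finset.range k,
        (7 / 10 * R (n + 1) + 5 * ee * (δ n + T n)) :=
      Finset.sum_le_sum fun n hn => hδ3 n (Finset.mem_range.1 hn)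
    rw [Finset.sum_add_distrib, ← Finset.mul_sum, ← Finset.mul_sum, Finset.sum_add_distrib,
      ← hSR, ← hSD, ← hST] at a1
    have a2 : ∑ n ∈ Finset.range k, R (n + 1) + R 0 = ∑ n ∈ Finset.range k, R n + R k := by
      rw [← Finset.sum_range_succ', ← Finset.sum_range_succ]
    rw [← hSR, hRk] at a2
    have a3 := hR0 0
    linarith
  have k2 : ST ≤ 2 + (12 / 100 * ST + 20 * ee * (SD + SR)) := by
    have a1 : ∑ n ∈ Finset.range k, T (n + 1) ≤ ∑ n ∈ Finset.range k,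
        (12 / 100 * T n + 20 * ee * (δ n + R (n + 1))) :=
      Finset.sum_le_sum fun n hn => hδ4 n (Finset.mem_range.1 hn)
    rw [Finset.sum_add_distrib, ← Finset.mul_sum, ← Finset.mul_sum, Finset.sum_add_distrib,
      ← hSR, ← hSD, ← hST] at a1
    have a2 : ∑ n ∈ Finset.range k, T (n + 1) + T 0 = ∑ n ∈ Finset.range k, T n + T k := by
      rw [← Finset.sum_range_succ', ← Finset.sum_range_succ]
    rw [← hST] at a2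
    have a3 := hT0 k
    linarith
  have hlog : ∀ y y' : ℕ → ℝ, (∀ n ≤ k, 0 < y' n - y n) →
      Real.log ((y' k - y k) / (y' 0 - y 0)) =
        ∑ n ∈ Finset.range k, Real.log ((y' (n + 1) - y (n + 1)) / (y' n - y n)) := by
    intro y y' hp
    rw [Real.log_div (hp k le_rfl).ne' (hp 0 (Nat.zero_le _)).ne',
      ← Finset.sum_range_sub (fun n => Real.log (y' n - y n)) k]
    refine Finset.sum_congr rfl fun n hn => ?_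
    have hn' := Finset.mem_range.1 hn
    rw [Real.log_div (hp (n + 1) hn').ne' (hp n hn'.le).ne']
  rw [hlog y0 y1 (fun n hn => (hD n hn).1), hlog y2 y3 (fun n hn => (hD' n hn).1),
    ← Finset.sum_sub_distrib]
  refine (Finset.abs_sum_le_sum_abs _ _).trans ?_
  have h5 : ∑ n ∈ Finset.range k, |Real.log ((y1 (n + 1) - y0 (n + 1)) / (y1 n - y0 n)) -
      Real.log ((y3 (n + 1) - y2 (n + 1)) / (y3 n - y2 n))| ≤
      ∑ n ∈ Finset.range k, 20 * ee * (δ n + T n + R (n + 1)) :=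
    Finset.sum_le_sum fun n hn => hδ2 n (Finset.mem_range.1 hn)
  refine h5.trans ?_
  rw [← Finset.mul_sum, Finset.sum_add_distrib, Finset.sum_add_distrib, ← hSD, ← hST, ← hSR]
  have hST3 : ST ≤ 3 := by
    simp only [ee] at k1 k2
    norm_num at k1 k2
    linarith
  have hSR1 : SR ≤ 1 := by
    simp only [ee] at k1
    norm_num at k1
    linarith
  have h6 : SD + ST + SR ≤ 50 := by linarith
  calc 20 * ee * (SD + ST + SR) ≤ 20 * ee * 50 :=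
        mul_le_mul_of_nonneg_left h6 (by positivity)
    _ = 1000 * ee := by ring

end Pool.Agent.Lib.H37D
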