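import Pool.Agent.Lib.H37D.AD2
import Pool.Agent.Lib.H37D.A05
import Pool.Agent.Lib.H37D.A37

/-!
# H37D A38 (size M, book-keeping): the unstable leaves `Uu` of a near map: order, gaps

As `Lib/H37N/A38.lean`. Everything follows from `A12`, `A14`, `A15`, `A37` for the system `SU g` (`h.good_U`)
(`Uu g b (i :: w) = (SU g).Gw w ((SU g).GG i ((SU g).fixL b))` by definition, `hU g w = gp (SU g) w xc`; `(SU g).q = qw`). `≤`, `<` become `LeC`, `LtC`.
-/

open Set Filter Topology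

namespace Pool.Agent.Lib.H37D

open Pool.Agent.Lib.H37N

variable {d : ℕ} {g : En d → En d}

theorem Uu_leaf (h : NearD g) (b : Sy) (w : List Sy) : ULeaf (Uu g b w) := by
  exact (Gw_leaf h.good_U w (fixL_leaf h.good_U b)).uleaf

theorem Uu_cons_self (h : NearD g) (i : Sy) (w : List Sy) : Uu g i (i :: w) = Uu g i w := by
  exact Gw_cons_fixL h.good_U i w

theorem Uu_append (g : En d → En d) (b : Sy) (u w : List Sy) :
    Uu g b (u ++ w) = (SU g).Gw w (Uu g b u) := by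
  exact Sys.Gw_append _ u w _

/-- order of the four leaves -/
theorem Uu_P_lt (h : NearD g) (w : List Sy) (x : ℝ) :
    LtC (Uu g Sy.P w) (Uu g Sy.Q (Sy.P :: w)) x := by
  exact Gw_strictMono h.good_U w (fixL_leaf h.good_U _) (GG_leaf h.good_U _ (fixL_leaf h.good_U _))
    (fixP_lt_GPQ h.good_U) x

theorem Uu_mid_lt (h : NearD g) (w : List Sy) (x : ℝ) :
    LtC (Uu g Sy.Q (Sy.P :: w)) (Uu g Sy.P (Sy.Q :: w)) x := by
  exact Gw_strictMono h.good_U w (GG_leaf h.good_U _ (fixL_leaf h.good_U _))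
    (GG_leaf h.good_U _ (fixL_leaf h.good_U _)) (GPQ_lt_GQP h.good_U) x

theorem Uu_lt_Q (h : NearD g) (w : List Sy) (x : ℝ) :
    LtC (Uu g Sy.P (Sy.Q :: w)) (Uu g Sy.Q w) x := by
  exact Gw_strictMono h.good_U w (GG_leaf h.good_U _ (fixL_leaf h.good_U _))
    (fixL_leaf h.good_U _) (GQP_lt_fixQ h.good_U) x

theorem Uu_PQ_lt (h : NearD g) (w : List Sy) (x : ℝ) : LtC (Uu g Sy.P w) (Uu g Sy.Q w) x := by
  exact ((Uu_P_lt h w x).trans (Uu_mid_lt h w x)).trans (Uu_lt_Q h w x)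

/-- longer words stay between (new letters in front of `w`). Proof as in the plane: `Uu_append`, `Gw_mono`, and
`LeC (fixL P) (Uu g b u)`, `LeC (Uu g b u) (fixL Q)` for all `u` (`List.reverseRecOn`, `GG_mono`, `fixL_fix`, `A15`, `LeC.trans`). -/
theorem Uu_between (h : NearD g) (b : Sy) (u w : List Sy) (x : ℝ) :
    LeC (Uu g Sy.P w) (Uu g b (u ++ w)) x ∧ LeC (Uu g b (u ++ w)) (Uu g Sy.Q w) x := by
  have hcs := h.good_U
  have lP := fixL_leaf hcs Sy.P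
  have lQ := fixL_leaf hcs Sy.Q
  have hPQ : ∀ x, LeC ((SU g).fixL Sy.P) ((SU g).fixL Sy.Q) x := fun x =>
    (((fixP_lt_GPQ hcs x).trans (GPQ_lt_GQP hcs x)).trans (GQP_lt_fixQ hcs x)).le
  have hP : ∀ i x, LeC ((SU g).fixL Sy.P) ((SU g).GG i ((SU g).fixL Sy.P)) x := by
    intro i x
    cases i
    · rw [fixL_fix hcs]
      exact LeC.refl _ _
    · exact ((fixP_lt_GPQ hcs x).trans (GPQ_lt_GQP hcs x)).le
  have hQ : ∀ i x, LeC ((SU g).GG i ((SU g).fixL Sy.Q)) ((SU g).fixL Sy.Q) x := by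
    intro i x
    cases i
    · exact ((GPQ_lt_GQP hcs x).trans (GQP_lt_fixQ hcs x)).le
    · rw [fixL_fix hcs]
      exact LeC.refl _ _
  have key : (∀ x, LeC ((SU g).fixL Sy.P) (Uu g b u) x) ∧
      ∀ x, LeC (Uu g b u) ((SU g).fixL Sy.Q) x := by
    induction u using List.reverseRecOn with
    | nil =>
      cases b
      · exact ⟨fun x => LeC.refl _ _, hPQ⟩
      · exact ⟨hPQ, fun x => LeC.refl _ _⟩
    | append_singleton u i ih =>
      have e : Uu g b (u ++ [i]) = (SU g).GG i (Uu g b u) := Uu_append g b u [i]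
      rw [e]
      have hl : (SU g).Leaf (Uu g b u) := Gw_leaf hcs u (fixL_leaf hcs b)
      exact ⟨fun x => (hP i x).trans (GG_mono hcs i lP hl ih.1 x),
        fun x => (GG_mono hcs i hl lQ ih.2 x).trans (hQ i x)⟩
  have hl : (SU g).Leaf (Uu g b u) := Gw_leaf hcs u (fixL_leaf hcs b)
  rw [Uu_append]
  exact ⟨Gw_mono hcs w lP hl key.1 x, Gw_mono hcs w hl lQ key.2 x⟩

theorem hU_pos (h : NearD g) (w : List Sy) : 0 < hU g w := by
  exact gp_pos h.good_U w xc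

theorem Uu_full (h : NearD g) (w : List Sy) (x : ℝ) :
    (1 - kap) * hU g w ≤ (Uu g Sy.Q w x).1 - (Uu g Sy.P w x).1 ∧
      (Uu g Sy.Q w x).1 - (Uu g Sy.P w x).1 ≤ (1 + kap) * hU g w := by
  exact gap_full h.good_U w x xc

theorem Uu_gapP (h : NearD g) (w : List Sy) (x : ℝ) :
    (qw Sy.P - kap) * hU g w ≤ (Uu g Sy.Q (Sy.P :: w) x).1 - (Uu g Sy.P w x).1 ∧
      (Uu g Sy.Q (Sy.P :: w) x).1 - (Uu g Sy.P w x).1 ≤ (qw Sy.P + kap) * hU g w := by
  exact gap_P h.good_U w x xc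

theorem Uu_gapQ (h : NearD g) (w : List Sy) (x : ℝ) :
    (qw Sy.Q - kap) * hU g w ≤ (Uu g Sy.Q w x).1 - (Uu g Sy.P (Sy.Q :: w) x).1 ∧
      (Uu g Sy.Q w x).1 - (Uu g Sy.P (Sy.Q :: w) x).1 ≤ (qw Sy.Q + kap) * hU g w := by
  exact gap_Q h.good_U w x xc

theorem Uu_gapM (h : NearD g) (w : List Sy) (x : ℝ) :
    0 < (Uu g Sy.P (Sy.Q :: w) x).1 - (Uu g Sy.Q (Sy.P :: w) x).1 ∧
      (Uu g Sy.P (Sy.Q :: w) x).1 - (Uu g Sy.Q (Sy.P :: w) x).1 ≤ 2 * gam * hU g w := by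
  exact gap_mid h.good_U w x xc

end Pool.Agent.Lib.H37D
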