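import Pool.Agent.Lib.H37D.AD2

/-!
# H37D A51 (size M): the function `hh`: estimates on `FFd d` along cone vectors, continuity, maximum

As `Lib/H37N/A51.lean`.
-/

open Set Filter Topology
open scoped ContDiff

namespace Pool.Agent.Lib.H37D

open Pool.Agent.Lib.H37N

variable {d : ℕ} {g : En d → En d}

theorem a51_convex : Convex ℝ (FFd d) :=
  ((convex_Icc _ _).prod (convex_Icc _ _)).prod (convex_closedBall _ _)

theorem a51_hasFDerivAt (h : NearD g) {z : En d} (hz : z ∈ FFd d) : HasFDerivAt g (fderiv ℝ g z) z := by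
  obtain ⟨O, hO, hsub, hC, -, -⟩ := h.smooth
  have hm : z ∈ O := hsub (FFd_sub_Dd hz)
  have hd : DifferentiableAt ℝ g z :=
    (hC.contDiffAt (hO.mem_nhds hm)).differentiableAt (by simp)
  exact hd.hasFDerivAt

theorem a51_contOn (h : NearD g) : ContinuousOn g (FFd d) := by
  obtain ⟨O, hO, hsub, hC, -, -⟩ := h.smooth
  exact hC.continuousOn.mono fun z hz => hsub (FFd_sub_Dd hz)

/-- components of the derivative along a vertical cone vector -/
theorem a51_vec (h : NearD g) {z : En d} (hz : z ∈ FFd d) {D : ℝ} {w : Wd d} (hw : ‖w‖ ≤ D) :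
    |(fderiv ℝ g z ((0, D), w)).1.1 - cc * D| ≤ 2 * e0 * D ∧ |(fderiv ℝ g z ((0, D), w)).1.2| ≤ 2 * e0 * D ∧
      ‖(fderiv ℝ g z ((0, D), w)).2‖ ≤ (e0 + aw) * D := by
  have hD : 0 ≤ D := le_trans (norm_nonneg w) hw
  have he : (0 : ℝ) ≤ e0 := by unfold e0; positivity
  have ha : (0 : ℝ) ≤ aw := by unfold aw; positivity
  obtain ⟨f1, f2⟩ := h.fold1 z hz
  obtain ⟨-, f3⟩ := h.wx z (FFd_sub_Dd hz)
  obtain ⟨f4, f5⟩ := h.ww z (FFd_sub_Dd hz) w
  set L := fderiv ℝ g z with hL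
  have hv : (((0, D), w) : En d) = D • eY d + ((0 : Pt), w) := by
    unfold eY
    ext <;> simp
  have hs : L ((0, D), w) = D • L (eY d) + L (0, w) := by
    rw [hv, map_add, map_smul]
  have g1 : |(L ((0 : Pt), w)).1.1| ≤ e0 * D := by
    have h2 := norm_fst_le (L ((0 : Pt), w)).1
    rw [Real.norm_eq_abs] at h2
    exact h2.trans (f4.trans (mul_le_mul_of_nonneg_left hw he))
  have g2 : |(L ((0 : Pt), w)).1.2| ≤ e0 * D := by
    have h2 := norm_snd_le (L ((0 : Pt), w)).1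
    rw [Real.norm_eq_abs] at h2
    exact h2.trans (f4.trans (mul_le_mul_of_nonneg_left hw he))
  have g3 : ‖(L ((0 : Pt), w)).2‖ ≤ aw * D := f5.trans (mul_le_mul_of_nonneg_left hw ha)
  refine ⟨?_, ?_, ?_⟩
  · have e : (L ((0, D), w)).1.1 - cc * D = D * ((L (eY d)).1.1 - cc) + (L ((0 : Pt), w)).1.1 := by
      rw [hs]
      simp only [Prod.fst_add, Prod.smul_fst, smul_eq_mul]
      ring
    rw [e]
    calc _ ≤ |D * ((L (eY d)).1.1 - cc)| + |(L ((0 : Pt), w)).1.1| := abs_add_le _ _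
      _ = D * |(L (eY d)).1.1 - cc| + |(L ((0 : Pt), w)).1.1| := by rw [abs_mul, abs_of_nonneg hD]
      _ ≤ D * e0 + e0 * D := add_le_add (mul_le_mul_of_nonneg_left f1 hD) g1
      _ = 2 * e0 * D := by ring
  · have e : (L ((0, D), w)).1.2 = D * (L (eY d)).1.2 + (L ((0 : Pt), w)).1.2 := by
      rw [hs]
      simp only [Prod.fst_add, Prod.smul_fst, Prod.snd_add, Prod.smul_snd, smul_eq_mul]
    rw [e]
    calc _ ≤ |D * (L (eY d)).1.2| + |(L ((0 : Pt), w)).1.2| := abs_add_le _ _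
      _ = D * |(L (eY d)).1.2| + |(L ((0 : Pt), w)).1.2| := by rw [abs_mul, abs_of_nonneg hD]
      _ ≤ D * e0 + e0 * D := add_le_add (mul_le_mul_of_nonneg_left f2 hD) g2
      _ = 2 * e0 * D := by ring
  · have e : (L ((0, D), w)).2 = D • (L (eY d)).2 + (L ((0 : Pt), w)).2 := by
      rw [hs]
      simp only [Prod.snd_add, Prod.smul_snd]
    rw [e]
    calc _ ≤ ‖D • (L (eY d)).2‖ + ‖(L ((0 : Pt), w)).2‖ := norm_add_le _ _
      _ = D * ‖(L (eY d)).2‖ + ‖(L ((0 : Pt), w)).2‖ := by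
          rw [norm_smul, Real.norm_eq_abs, abs_of_nonneg hD]
      _ ≤ D * e0 + aw * D := add_le_add (mul_le_mul_of_nonneg_left f3 hD) g3
      _ = (e0 + aw) * D := by ring

/-- Proof. `z0 = ((x, y0), w0)`, `z1 = ((x, y1), w1)`, `Δ = y1 - y0`; `FFd d` is convex (product of intervals and a ball), so the segment
`z t = z0 + t • (z1 - z0)`, `t ∈ [0,1]`, is in `FFd d ⊆ O` and `φ t = g (z t)` has derivative `Dg (z t) (z1 - z0)`, where
`z1 - z0 = Δ • eY d + (0, w1 - w0)`, so (`fold1`, `wx`, `ww`): `|(φ' t).1.1 - cc Δ| ≤ e0 Δ + e0 ‖w1 - w0‖ ≤ 2 e0 Δ`, `|(φ' t).1.2| ≤ 2 e0 Δ`,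
`‖(φ' t).2‖ ≤ e0 Δ + aw Δ`. Mean value inequality (`norm_image_sub_le_of_norm_deriv_le_segment_01'` or `image_norm_le_of_norm_deriv_right_le...`) for the
functions `t ↦ (φ t).1.1 - cc Δ t`, `t ↦ ((φ t).1.2, (φ t).2)`. -/
theorem fold_vert (h : NearD g) {x y0 y1 : ℝ} {w0 w1 : Wd d} (h0 : ((x, y0), w0) ∈ FFd d)
    (h1 : ((x, y1), w1) ∈ FFd d) (hw : ‖w1 - w0‖ ≤ y1 - y0) :
    (cc - 2 * e0) * (y1 - y0) ≤ (g ((x, y1), w1)).1.1 - (g ((x, y0), w0)).1.1 ∧
    (g ((x, y1), w1)).1.1 - (g ((x, y0), w0)).1.1 ≤ (cc + 2 * e0) * (y1 - y0) ∧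
    ‖((g ((x, y1), w1)).1.2, (g ((x, y1), w1)).2) -
      ((g ((x, y0), w0)).1.2, (g ((x, y0), w0)).2)‖ ≤ 1 / 10 ^ 6 * (y1 - y0) := by
  set D := y1 - y0 with hD
  have hD0 : 0 ≤ D := le_trans (norm_nonneg _) hw
  set z0 : En d := ((x, y0), w0) with hz0
  set z1 : En d := ((x, y1), w1) with hz1
  have hdz : z1 - z0 = ((0, D), w1 - w0) := by
    rw [hz0, hz1, hD]
    ext <;> simp
  have hmem : ∀ t ∈ Icc (0 : ℝ) 1, z0 + t • (z1 - z0) ∈ FFd d := fun t ht =>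
    a51_convex.add_smul_sub_mem h0 h1 ht
  have hder : ∀ t ∈ Icc (0 : ℝ) 1, HasDerivAt (fun t : ℝ => g (z0 + t • (z1 - z0)))
      (fderiv ℝ g (z0 + t • (z1 - z0)) ((0, D), w1 - w0)) t := by
    intro t ht
    have h2 : HasDerivAt (fun t : ℝ => z0 + t • (z1 - z0)) (z1 - z0) t := by
      simpa using ((hasDerivAt_id t).smul_const (z1 - z0)).const_add z0
    have h3 := (a51_hasFDerivAt h (hmem t ht)).comp_hasDerivAt t h2
    rw [← hdz]
    exact h3
  have he1 : z0 + (1 : ℝ) • (z1 - z0) = z1 := by rw [one_smul]; abel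
  have he0 : z0 + (0 : ℝ) • (z1 - z0) = z0 := by rw [zero_smul, add_zero]
  have hd1 : ∀ t ∈ Icc (0 : ℝ) 1, HasDerivAt (fun t : ℝ => (g (z0 + t • (z1 - z0))).1.1)
      (fderiv ℝ g (z0 + t • (z1 - z0)) ((0, D), w1 - w0)).1.1 t := fun t ht =>
    ((ContinuousLinearMap.fst ℝ ℝ ℝ).comp
      (ContinuousLinearMap.fst ℝ Pt (Wd d))).hasFDerivAt.comp_hasDerivAt t (hder t ht)
  have hd2 : ∀ t ∈ Icc (0 : ℝ) 1, HasDerivAt
      (fun t : ℝ => ((g (z0 + t • (z1 - z0))).1.2, (g (z0 + t • (z1 - z0))).2))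
      ((fderiv ℝ g (z0 + t • (z1 - z0)) ((0, D), w1 - w0)).1.2,
      (fderiv ℝ g (z0 + t • (z1 - z0)) ((0, D), w1 - w0)).2) t := fun t ht =>
    (((ContinuousLinearMap.snd ℝ ℝ ℝ).comp (ContinuousLinearMap.fst ℝ Pt (Wd d))).prod
      (ContinuousLinearMap.snd ℝ Pt (Wd d))).hasFDerivAt.comp_hasDerivAt t (hder t ht)
  -- the first component
  have hA := norm_image_sub_le_of_norm_deriv_le_segment_01' (C := 2 * e0 * D)
    (f := fun t : ℝ => (g (z0 + t • (z1 - z0))).1.1 - t * (cc * D))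
    (f' := fun t : ℝ => (fderiv ℝ g (z0 + t • (z1 - z0)) ((0, D), w1 - w0)).1.1 - 1 * (cc * D))
    (fun t ht => (HasDerivAt.sub (hd1 t ht) ((hasDerivAt_id t).mul_const (cc * D))).hasDerivWithinAt)
    (fun t ht => by
      rw [Real.norm_eq_abs, one_mul]
      exact (a51_vec h (hmem t ⟨ht.1, ht.2.le⟩) hw).1)
  simp only [he1, he0] at hA
  rw [Real.norm_eq_abs, abs_le] at hA
  -- the other components
  have hB := norm_image_sub_le_of_norm_deriv_le_segment_01' (C := 1 / 10 ^ 6 * D)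
    (f := fun t : ℝ => ((g (z0 + t • (z1 - z0))).1.2, (g (z0 + t • (z1 - z0))).2))
    (f' := fun t : ℝ => ((fderiv ℝ g (z0 + t • (z1 - z0)) ((0, D), w1 - w0)).1.2,
      (fderiv ℝ g (z0 + t • (z1 - z0)) ((0, D), w1 - w0)).2))
    (fun t ht => (hd2 t ht).hasDerivWithinAt)
    (fun t ht => by
      obtain ⟨-, k2, k3⟩ := a51_vec h (hmem t ⟨ht.1, ht.2.le⟩) hw
      rw [Prod.norm_def, Real.norm_eq_abs]
      refine max_le (k2.trans ?_) (k3.trans ?_)
      · refine mul_le_mul_of_nonneg_right ?_ hD0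
        norm_num [e0]
      · refine mul_le_mul_of_nonneg_right ?_ hD0
        norm_num [e0, aw])
  simp only [he1, he0] at hB
  refine ⟨by linarith [hA.1], by linarith [hA.2], ?_⟩
  exact hB

theorem graph_FF {f : ℝ → ℝ × Wd d} (hf : ULeaf f) {x : ℝ} (hx : x ∈ JJ) : pt f x ∈ FFd d :=
  mem_FFd.2 ⟨⟨hx, hf.mem x⟩, hf.norm_le x⟩

theorem hh_cont (h : NearD g) {f : ℝ → ℝ × Wd d} {s : ℝ × Wd d → ℝ} (hf : ULeaf f) (hs : SLeaf s) :
    ContinuousOn (hh g f s) JJ := by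
  have h0 : Continuous fun x : ℝ => pt f x := by
    have hc := hf.continuous
    unfold pt
    fun_prop
  have h1 : ContinuousOn (fun x : ℝ => g (pt f x)) JJ :=
    (a51_contOn h).comp h0.continuousOn fun x hx => graph_FF hf hx
  have h2 : ContinuousOn (fun x : ℝ => s ((g (pt f x)).1.2, (g (pt f x)).2)) JJ :=
    hs.continuous.comp_continuousOn
      ((continuous_snd.comp_continuousOn (continuous_fst.comp_continuousOn h1)).prodMk
        (continuous_snd.comp_continuousOn h1))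
  exact (continuous_fst.comp_continuousOn (continuous_fst.comp_continuousOn h1)).sub h2

/-- Proof. `JJ` compact and nonempty: `IsCompact.exists_isMaxOn`; the maximum is the supremum of the image. -/
theorem DD_attained (h : NearD g) {f : ℝ → ℝ × Wd d} {s : ℝ × Wd d → ℝ} (hf : ULeaf f)
    (hs : SLeaf s) : ∃ x ∈ JJ, DD g f s = hh g f s x := by
  have hne : JJ.Nonempty := ⟨xc, by norm_num [JJ, xc, u0]⟩
  have hcomp : IsCompact JJ := isCompact_Icc
  obtain ⟨x, hx, hm⟩ := hcomp.exists_isMaxOn hne (hh_cont h hf hs)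
  refine ⟨x, hx, le_antisymm ?_ ?_⟩
  · refine csSup_le (hne.image _) ?_
    rintro _ ⟨y, hy, rfl⟩
    exact hm hy
  · exact le_csSup (hcomp.bddAbove_image (hh_cont h hf hs)) ⟨x, hx, rfl⟩

/-- Proof. `le_csSup` with `IsCompact.bddAbove_image`. -/
theorem hh_le_DD (h : NearD g) {f : ℝ → ℝ × Wd d} {s : ℝ × Wd d → ℝ} (hf : ULeaf f) (hs : SLeaf s)
    {x : ℝ} (hx : x ∈ JJ) : hh g f s x ≤ DD g f s := by
  have hcomp : IsCompact JJ := isCompact_Icc
  exact le_csSup (hcomp.bddAbove_image (hh_cont h hf hs)) ⟨x, hx, rfl⟩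

end Pool.Agent.Lib.H37D
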