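import Pool.Agent.Lib.H37D.A38
import Pool.Agent.Lib.H37D.A39
import Pool.Agent.Lib.H37D.A53
import Pool.Agent.Lib.H37D.A55

/-!
# H37D A61 (size S/M): the empty pair is Ok; size of `DD` between the leaves of a linked pair

As `Lib/H37N/A61.lean`.
-/

open Set Filter Topology

namespace Pool.Agent.Lib.H37D

open Pool.Agent.Lib.H37N

variable {d : ℕ} {g : En d → En d}

theorem a61_UP (h : NearD g) (x : ℝ) : |(Uu g Sy.P [] x).1| ≤ 6 * ee := fixL_P_val h.good_U x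
theorem a61_UQ (h : NearD g) (x : ℝ) : |(Uu g Sy.Q [] x).1 - 1| ≤ 6 * ee := fixL_Q_val h.good_U x
theorem a61_SP (h : NearD g) (x : ℝ × Wd d) : |Ss g Sy.P [] x| ≤ 6 * ee := fixL_P_val h.good_S x
theorem a61_SQ (h : NearD g) (x : ℝ × Wd d) : |Ss g Sy.Q [] x - 1| ≤ 6 * ee :=
  fixL_Q_val h.good_S x

/-- Proof. `Uu g b [] = (SU g).fixL b`, `Sv g b [] = (SV g).fixL b`; `fixL_P_val`, `fixL_Q_val` for `h.good_U`, `h.good_S`: the values are
within `6 ee` of `0` (`P`), `1` (`Q`). `DD_val`: `DD (U^Q, S^P) ≥ 3/4 - 10^-7 > 0`, `DD (U^P, S^Q) ≤ -3/4 + 10^-7 < 0`. `hU, hS` are within `12 ee` of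
`1`, so `rr` is within `0.01` of `1/2`. -/
theorem ok_nil (h : NearD g) : Ok g [] [] := by
  have u1 := abs_le.1 (a61_UP h xc)
  have u2 := abs_le.1 (a61_UQ h xc)
  have s1 := abs_le.1 (a61_SP h (yc, 0))
  have s2 := abs_le.1 (a61_SQ h (yc, 0))
  refine ⟨⟨?_, ?_⟩, ?_, ?_⟩
  · have := abs_le.1 (DD_val h (Uu_leaf h Sy.Q []) (Ss_leaf h Sy.P []))
    unfold ee cc at *
    linarith [this.1]
  · have := abs_le.1 (DD_val h (Uu_leaf h Sy.P []) (Ss_leaf h Sy.Q []))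
    unfold ee cc at *
    linarith [this.2]
  · unfold rr hU hS
    rw [le_div_iff₀ (by unfold ee at *; linarith)]
    unfold ee cc at *
    linarith
  · unfold rr hU hS
    rw [div_le_iff₀ (by unfold ee at *; linarith)]
    unfold ee cc at *
    linarith

/-- Proof as in the plane. -/
theorem DD_small (h : NearD g) {w v : List Sy} (hl : Linked g w v) {f : ℝ → ℝ × Wd d}
    {s : ℝ × Wd d → ℝ} (hf : ULeaf f) (hs : SLeaf s) (hf0 : ∀ x, LeC (Uu g Sy.P w) f x)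
    (hf1 : ∀ x, LeC f (Uu g Sy.Q w) x) (hs0 : ∀ y, Ss g Sy.P v y ≤ s y)
    (hs1 : ∀ y, s y ≤ Ss g Sy.Q v y) : |DD g f s| ≤ 3 * (hU g w + hS g v) := by
  have lUP := Uu_leaf h Sy.P w
  have lUQ := Uu_leaf h Sy.Q w
  have lSP := Ss_leaf h Sy.P v
  have lSQ := Ss_leaf h Sy.Q v
  have a1 : DD g (Uu g Sy.P w) (Ss g Sy.Q v) ≤ DD g f s :=
    (DD_le_s h lUP hs lSQ hs1).trans (DD_le_f h lUP hf hs fun x _ => hf0 x)
  have a2 : DD g f s ≤ DD g (Uu g Sy.Q w) (Ss g Sy.P v) :=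
    (DD_le_f h hf lUQ hs fun x _ => hf1 x).trans (DD_le_s h lUQ lSP hs hs0)
  have a3 := (DD_mono_f h lUP lUQ lSP (L := 0) (H := (1 + kap) * hU g w) le_rfl
    (fun x _ => (Uu_PQ_lt h w x).le)
    (fun x _ => (sub_pos.2 (Uu_PQ_lt h w x).1).le) (fun x _ => (Uu_full h w x).2)).2
  have a4 := (DD_mono_s h lUP lSP lSQ (L := 0) (H := (1 + kap) * hS g v)
    (fun y => (sub_pos.2 (Ss_PQ_lt h v y)).le) (fun y => (Ss_full h v y).2)).2
  have hu := hU_pos h w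
  have hs' := hS_pos h v
  have h1 := hl.1
  have h2 := hl.2
  have h3 : (cc + 1 / 10 ^ 8) * ((1 + kap) * hU g w) ≤ 3 * hU g w := by
    rw [← mul_assoc]
    exact mul_le_mul_of_nonneg_right (by norm_num [cc, kap]) hu.le
  have h4 : (1 + kap) * hS g v ≤ 3 * hS g v :=
    mul_le_mul_of_nonneg_right (by norm_num [kap]) hs'.le
  rw [abs_le]
  constructor <;> linarith

end Pool.Agent.Lib.H37D
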