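import Pool.Agent.Lib.H37D.A61

/-!
# H37D A70 (size M): the two key inequalities and the branching of linked pairs

As `Lib/H37N/A70.lean` (same statements, same proofs; `DD_mono_f` has the additional hypothesis that the pairs of leaves are in cone order:
`Uu_PQ_lt`, `Uu_mid_lt`, ... with `LtC.le`).
-/

open Set Filter Topology

namespace Pool.Agent.Lib.H37D

open Pool.Agent.Lib.H37N

variable {d : ℕ} {g : En d → En d}

theorem key_U (h : NearD g) {w v : List Sy} (hr : rr g w v ≤ 100) :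
    DD g (Uu g Sy.P (Sy.Q :: w)) (Ss g Sy.Q v) < DD g (Uu g Sy.Q (Sy.P :: w)) (Ss g Sy.P v) := by
  have lU1 := Uu_leaf h Sy.P (Sy.Q :: w)
  have lU2 := Uu_leaf h Sy.Q (Sy.P :: w)
  have lS1 := Ss_leaf h Sy.P v
  have lS2 := Ss_leaf h Sy.Q v
  have e1 := (DD_mono_s h lU1 lS1 lS2 (fun y => (Ss_full h v y).1) (fun y => (Ss_full h v y).2)).1
  have e2 := (DD_mono_f h lU2 lU1 lS1 (L := 0) (H := 2 * gam * hU g w) le_rfl
    (fun x _ => (Uu_mid_lt h w x).le)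
    (fun x _ => (Uu_gapM h w x).1.le) (fun x _ => (Uu_gapM h w x).2)).2
  have hu := hU_pos h w
  have hs := hS_pos h v
  unfold rr at hr
  rw [div_le_iff₀ hs] at hr
  unfold cc gam kap at *
  linarith

theorem key_S (h : NearD g) {w v : List Sy} (hr : 1 / 100 ≤ rr g w v) :
    DD g (Uu g Sy.P w) (Ss g Sy.Q (v ++ [Sy.P])) <
      DD g (Uu g Sy.Q w) (Ss g Sy.P (v ++ [Sy.Q])) := by
  have lU1 := Uu_leaf h Sy.P w
  have lU2 := Uu_leaf h Sy.Q w
  have lS1 := Ss_leaf h Sy.Q (v ++ [Sy.P])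
  have lS2 := Ss_leaf h Sy.P (v ++ [Sy.Q])
  have hu := hU_pos h w
  have hs := hS_pos h v
  have e1 := (DD_mono_f h lU1 lU2 lS1 (L := (1 - kap) * hU g w)
    (mul_nonneg (by norm_num [kap]) hu.le) (fun x _ => (Uu_PQ_lt h w x).le)
    (fun x _ => (Uu_full h w x).1) (fun x _ => (Uu_full h w x).2)).1
  have e2 := (DD_mono_s h lU2 lS1 lS2 (L := 0) (H := 2 * gam * hS g v)
    (fun y => (Ss_gapM h v y).1.le) (fun y => (Ss_gapM h v y).2)).2
  unfold rr at hr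
  rw [le_div_iff₀ hs] at hr
  unfold cc gam kap at *
  linarith

theorem branch_U (h : NearD g) {w v : List Sy} (hl : Linked g w v) (hr : rr g w v ≤ 100) :
    ∃ i, Linked g (i :: w) v := by
  by_cases h0 : 0 ≤ DD g (Uu g Sy.Q (Sy.P :: w)) (Ss g Sy.P v)
  · refine ⟨Sy.P, h0, ?_⟩
    rw [Uu_cons_self h]
    exact hl.2
  · refine ⟨Sy.Q, ?_, ?_⟩
    · rw [Uu_cons_self h]
      exact hl.1
    · exact ((key_U h hr).trans (not_le.1 h0)).le

theorem branch_S (h : NearD g) {w v : List Sy} (hl : Linked g w v) (hr : 1 / 100 ≤ rr g w v) :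
    ∃ i, Linked g w (v ++ [i]) := by
  by_cases h0 : DD g (Uu g Sy.P w) (Ss g Sy.Q (v ++ [Sy.P])) ≤ 0
  · refine ⟨Sy.P, ?_, h0⟩
    rw [Ss_append_self h]
    exact hl.1
  · refine ⟨Sy.Q, ?_, ?_⟩
    · exact ((not_le.1 h0).trans (key_S h hr)).le
    · rw [Ss_append_self h]
      exact hl.2

theorem hU_cons (h : NearD g) (i : Sy) (w : List Sy) :
    49 / 100 * hU g w ≤ hU g (i :: w) ∧ hU g (i :: w) ≤ 51 / 100 * hU g w := by
  have hu := hU_pos h w
  cases i with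
  | P =>
    have e := Uu_gapP h w xc
    have e' : hU g (Sy.P :: w) = (Uu g Sy.Q (Sy.P :: w) xc).1 - (Uu g Sy.P w xc).1 := by
      unfold hU
      rw [Uu_cons_self h]
    rw [e']
    refine ⟨(mul_le_mul_of_nonneg_right ?_ hu.le).trans e.1,
      e.2.trans (mul_le_mul_of_nonneg_right ?_ hu.le)⟩ <;> norm_num [qw, kap]
  | Q =>
    have e := Uu_gapQ h w xc
    have e' : hU g (Sy.Q :: w) = (Uu g Sy.Q w xc).1 - (Uu g Sy.P (Sy.Q :: w) xc).1 := by
      unfold hU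
      rw [Uu_cons_self h]
    rw [e']
    refine ⟨(mul_le_mul_of_nonneg_right ?_ hu.le).trans e.1,
      e.2.trans (mul_le_mul_of_nonneg_right ?_ hu.le)⟩ <;> norm_num [qw, kap]

theorem hS_append (h : NearD g) (i : Sy) (v : List Sy) :
    1 / 5.4 * hS g v ≤ hS g (v ++ [i]) ∧ hS g (v ++ [i]) ≤ 81 / 100 * hS g v := by
  have hu := hS_pos h v
  cases i with
  | P =>
    have e := Ss_gapP h v (yc, 0)
    have e' : hS g (v ++ [Sy.P]) = Ss g Sy.Q (v ++ [Sy.P]) (yc, 0) - Ss g Sy.P v (yc, 0) := by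
      unfold hS
      rw [Ss_append_self h]
    rw [e']
    refine ⟨(mul_le_mul_of_nonneg_right ?_ hu.le).trans e.1,
      e.2.trans (mul_le_mul_of_nonneg_right ?_ hu.le)⟩ <;> norm_num [pw, kap]
  | Q =>
    have e := Ss_gapQ h v (yc, 0)
    have e' : hS g (v ++ [Sy.Q]) = Ss g Sy.Q v (yc, 0) - Ss g Sy.P (v ++ [Sy.Q]) (yc, 0) := by
      unfold hS
      rw [Ss_append_self h]
    rw [e']
    refine ⟨(mul_le_mul_of_nonneg_right ?_ hu.le).trans e.1,
      e.2.trans (mul_le_mul_of_nonneg_right ?_ hu.le)⟩ <;> norm_num [pw, kap]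

theorem both_linked (h : NearD g) {w v : List Sy} (hr : rr g w v ≤ 100)
    (h0 : DD g (Uu g Sy.Q (Sy.P :: w)) (Ss g Sy.P v) = 0) :
    Linked g (Sy.P :: w) v ∧ Linked g (Sy.Q :: w) v := by
  have lU := Uu_leaf h Sy.Q (Sy.P :: w)
  have lUP := Uu_leaf h Sy.P w
  have lUQ := Uu_leaf h Sy.Q w
  have lSP := Ss_leaf h Sy.P v
  have lSQ := Ss_leaf h Sy.Q v
  refine ⟨⟨h0.ge, ?_⟩, ?_, ?_⟩
  · rw [Uu_cons_self h, ← h0]
    exact (DD_le_f h lUP lU lSQ fun x _ => (Uu_P_lt h w x).le).trans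
      (DD_le_s h lU lSP lSQ fun y => (Ss_PQ_lt h v y).le)
  · rw [Uu_cons_self h, ← h0]
    exact DD_le_f h lU lUQ lSP fun x _ => ((Uu_mid_lt h w x).trans (Uu_lt_Q h w x)).le
  · rw [← h0]
    exact (key_U h hr).le

end Pool.Agent.Lib.H37D
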