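import Pool.Agent.Lib.H37D.A70

/-!
# H37D A81 (size S/M): deep linked pairs of comparable sizes

As `Lib/H37N/A81.lean` (same statements, same proofs).
-/

open Set Filter Topology

namespace Pool.Agent.Lib.H37D

open Pool.Agent.Lib.H37N

variable {d : ℕ} {g : En d → En d}

/-- one step. Proof. If `1 ≤ rr`: `branch_U`, new first letter, `rr' = rr * hU'/hU ∈ [.49 rr, .51 rr]` (`hU_cons`), and
`cc hU ≥ hS`, so `cc hU' + hS' ≤ cc hU + hS - .49 cc hU ≤ (1 - .245)(cc hU + hS)`. If `rr < 1`: `branch_S`, new last letter,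
`rr' ∈ [rr / .81, 5.4 rr]` (`hS_append`), `hS > cc hU`, `cc hU + hS' ≤ (cc hU + hS) - .19 hS ≤ (1 - .095)(cc hU + hS)`. -/
theorem depth_step (h : NearD g) {w v : List Sy} (hok : Ok g w v) :
    ∃ w' v', Linked g (w' ++ w) (v ++ v') ∧
      ((1 ≤ rr g w v ∧ 49 / 100 * rr g w v ≤ rr g (w' ++ w) (v ++ v') ∧
        rr g (w' ++ w) (v ++ v') ≤ 51 / 100 * rr g w v) ∨
       (rr g w v < 1 ∧ 12 / 10 * rr g w v ≤ rr g (w' ++ w) (v ++ v') ∧
        rr g (w' ++ w) (v ++ v') ≤ 54 / 10 * rr g w v)) ∧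
      cc * hU g (w' ++ w) + hS g (v ++ v') ≤ 92 / 100 * (cc * hU g w + hS g v) := by
  have ha : 0 < hU g w := hU_pos h w
  have hb : 0 < hS g v := hS_pos h v
  have hc : (0 : ℝ) < cc := by norm_num [cc]
  by_cases h1 : 1 ≤ rr g w v
  · obtain ⟨i, hi⟩ := branch_U h hok.1 hok.2.2
    obtain ⟨h2, h3⟩ := hU_cons h i w
    refine ⟨[i], [], ?_, Or.inl ⟨h1, ?_, ?_⟩, ?_⟩
    · simpa using hi
    · simp only [List.singleton_append, List.append_nil]
      unfold rr
      rw [← mul_div_assoc]
      apply div_le_div_of_nonneg_right _ hb.le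
      nlinarith
    · simp only [List.singleton_append, List.append_nil]
      unfold rr
      rw [← mul_div_assoc]
      apply div_le_div_of_nonneg_right _ hb.le
      nlinarith
    · simp only [List.singleton_append, List.append_nil]
      have h4 : hS g v ≤ cc * hU g w := by
        unfold rr at h1
        rwa [one_le_div hb] at h1
      nlinarith
  · have h1' : rr g w v < 1 := not_le.mp h1
    obtain ⟨i, hi⟩ := branch_S h hok.1 hok.2.1
    obtain ⟨h2, h3⟩ := hS_append h i v
    have hb' : 0 < hS g (v ++ [i]) := hS_pos h _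
    have hca : 0 < cc * hU g w := mul_pos hc ha
    refine ⟨[], [i], ?_, Or.inr ⟨h1', ?_, ?_⟩, ?_⟩
    · simpa using hi
    · simp only [List.nil_append]
      unfold rr
      rw [← mul_div_assoc, div_le_div_iff₀ hb hb']
      nlinarith
    · simp only [List.nil_append]
      unfold rr
      rw [← mul_div_assoc, div_le_div_iff₀ hb' hb]
      have h5 : hS g v ≤ 54 / 10 * hS g (v ++ [i]) := by linarith
      nlinarith
    · simp only [List.nil_append]
      have h4 : cc * hU g w < hS g v := by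
        unfold rr at h1'
        rwa [div_lt_one hb] at h1'
      linarith

/-- Proof. Induction on `K`, from `depth_step` (the invariant implies `Ok`): with
`min (49/100) ((6/5)^K / 100) ≤ rr ≤ max (54/10) (100 * (51/100)^K)`. Step: if `rr ≥ 1` then `rr' ≥ .49`,
`rr' ≤ .51 rr ≤ max (.51 * 5.4) (100 * .51^(K+1))`; if `rr < 1` then `rr' ≤ 5.4`, `rr' ≥ 1.2 rr ≥ min (1.2 * .49) (1.2^(K+1)/100)`. -/
theorem depth_iter (h : NearD g) {w v : List Sy} (hok : Ok g w v) (K : ℕ) :
    ∃ w' v', Linked g (w' ++ w) (v ++ v') ∧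
      min (49 / 100) ((6 / 5) ^ K / 100) ≤ rr g (w' ++ w) (v ++ v') ∧
      rr g (w' ++ w) (v ++ v') ≤ max (54 / 10) (100 * (51 / 100) ^ K) ∧
      cc * hU g (w' ++ w) + hS g (v ++ v') ≤ (92 / 100) ^ K * (cc * hU g w + hS g v) := by
  induction K with
  | zero =>
    refine ⟨[], [], ?_, ?_, ?_, ?_⟩
    · simpa using hok.1
    · simp only [List.nil_append, List.append_nil, pow_zero]
      refine (min_le_right _ _).trans ?_
      have := hok.2.1
      linarith
    · simp only [List.nil_append, List.append_nil, pow_zero]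
      refine le_trans ?_ (le_max_right _ _)
      have := hok.2.2
      linarith
    · simp
  | succ K ih =>
    obtain ⟨w1, v1, hl, hlo, hhi, hs⟩ := ih
    have hp1 : (1 : ℝ) ≤ (6 / 5) ^ K := one_le_pow₀ (by norm_num)
    have hp2 : ((51 : ℝ) / 100) ^ K ≤ 1 := pow_le_one₀ (by norm_num) (by norm_num)
    have hlo' : 1 / 100 ≤ rr g (w1 ++ w) (v ++ v1) := by
      refine le_trans (le_min (by norm_num) ?_) hlo
      linarith
    have hhi' : rr g (w1 ++ w) (v ++ v1) ≤ 100 := by
      refine hhi.trans (max_le (by norm_num) ?_)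
      linarith
    obtain ⟨w2, v2, hl2, hr, hs2⟩ := depth_step h (w := w1 ++ w) (v := v ++ v1) ⟨hl, hlo', hhi'⟩
    refine ⟨w2 ++ w1, v1 ++ v2, ?_, ?_, ?_, ?_⟩
    · rw [List.append_assoc, ← List.append_assoc v]
      exact hl2
    · rw [List.append_assoc, ← List.append_assoc v]
      rcases hr with ⟨h1, h2, _⟩ | ⟨h1, h2, _⟩
      · refine (min_le_left _ _).trans ?_
        linarith
      · refine le_trans ?_ h2
        rcases min_le_iff.mp hlo with h3 | h3
        · refine (min_le_left _ _).trans ?_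
          linarith
        · refine (min_le_right _ _).trans ?_
          rw [pow_succ]
          linarith
    · rw [List.append_assoc, ← List.append_assoc v]
      rcases hr with ⟨h1, _, h2⟩ | ⟨h1, _, h2⟩
      · refine h2.trans ?_
        rcases le_max_iff.mp hhi with h3 | h3
        · refine le_trans ?_ (le_max_left _ _)
          linarith
        · refine le_trans ?_ (le_max_right _ _)
          rw [pow_succ]
          linarith
      · refine le_trans ?_ (le_max_left _ _)
        linarith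
    · rw [List.append_assoc, ← List.append_assoc v]
      refine hs2.trans ?_
      rw [pow_succ]
      linarith

/-- Proof. Take `K` in `depth_iter` with `(6/5)^K ≥ 100`, `100 * (51/100)^K ≤ 1` and
`(92/100)^K * (cc * hU g w + hS g v) < η / 2`; `hU + hS ≤ 2 (cc hU + hS)` (`cc = 1/2`). -/
theorem depth (h : NearD g) {w v : List Sy} (hok : Ok g w v) {η : ℝ} (hη : 0 < η) :
    ∃ w' v', Linked g (w' ++ w) (v ++ v') ∧ 1 / 10 ≤ rr g (w' ++ w) (v ++ v') ∧
      rr g (w' ++ w) (v ++ v') ≤ 10 ∧ hU g (w' ++ w) + hS g (v ++ v') < η := by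
  have hc : (cc : ℝ) = 1 / 2 := rfl
  set A : ℝ := cc * hU g w + hS g v with hA
  obtain ⟨K1, hK1⟩ := pow_unbounded_of_one_lt (100 : ℝ) (show (1 : ℝ) < 6 / 5 by norm_num)
  obtain ⟨K2, hK2⟩ := exists_pow_lt_of_lt_one (show (0 : ℝ) < 1 / 100 by norm_num)
    (show (51 / 100 : ℝ) < 1 by norm_num)
  have hApos : 0 < A := by
    have h1 := hU_pos h w
    have h2 := hS_pos h v
    rw [hA, hc]
    linarith
  obtain ⟨K3, hK3⟩ := exists_pow_lt_of_lt_one (show (0 : ℝ) < η / 2 / A by positivity)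
    (show (92 / 100 : ℝ) < 1 by norm_num)
  obtain ⟨w1, v1, hl, hlo, hhi, hs⟩ := depth_iter h hok (K1 + K2 + K3)
  have e1 : (100 : ℝ) ≤ (6 / 5) ^ (K1 + K2 + K3) :=
    hK1.le.trans (pow_le_pow_right₀ (by norm_num) (by omega))
  have e2 : ((51 : ℝ) / 100) ^ (K1 + K2 + K3) ≤ 1 / 100 :=
    (pow_le_pow_of_le_one (by norm_num) (by norm_num) (by omega)).trans hK2.le
  have e3 : ((92 : ℝ) / 100) ^ (K1 + K2 + K3) < η / 2 / A :=
    (pow_le_pow_of_le_one (by norm_num) (by norm_num) (by omega)).trans_lt hK3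
  refine ⟨w1, v1, hl, ?_, ?_, ?_⟩
  · refine le_trans (le_min (by norm_num) ?_) hlo
    linarith
  · refine hhi.trans (max_le (by norm_num) ?_)
    linarith
  · have h1 : (92 / 100) ^ (K1 + K2 + K3) * A < η / 2 := by
      rwa [lt_div_iff₀ hApos] at e3
    have h2 := hU_pos h (w1 ++ w)
    have h3 := hS_pos h (v ++ v1)
    rw [← hA, hc] at hs
    linarith

/-- both extensions of such a pair have admissible ratio. Proof: `hU_cons`. -/
theorem rr_cons (h : NearD g) {w v : List Sy} (h0 : 1 / 10 ≤ rr g w v) (h1 : rr g w v ≤ 10) (i : Sy) :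
    1 / 100 ≤ rr g (i :: w) v ∧ rr g (i :: w) v ≤ 100 := by
  have ha : 0 < hU g w := hU_pos h w
  have hb : 0 < hS g v := hS_pos h v
  have hc : (0 : ℝ) < cc := by norm_num [cc]
  have hca : 0 < cc * hU g w := mul_pos hc ha
  obtain ⟨h2, h3⟩ := hU_cons h i w
  unfold rr at h0 h1 ⊢
  rw [le_div_iff₀ hb] at h0 ⊢
  rw [div_le_iff₀ hb] at h1 ⊢
  constructor
  · nlinarith
  · nlinarith

end Pool.Agent.Lib.H37D
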