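import Pool.Agent.Lib.H37D.A38

/-!
# H37D A91 (size M): strips

As `Lib/H37N/A91.lean`.
-/

open Set Filter Topology

namespace Pool.Agent.Lib.H37D

open Pool.Agent.Lib.H37N

variable {d : ℕ} {g : En d → En d}

theorem a91_cont (h : NearD g) (w : List Sy) {f : ℝ → ℝ × Wd d} (hf : (SU g).Leaf f) :
    Continuous fun z : En d => ((SU g).Gw w f z.1.1).1 :=
  (continuous_fst.comp (Gw_leaf h.good_U w hf).continuous).comp
    (continuous_fst.comp continuous_fst)

/-- Proof. Finite intersection of sets `{u < v}` with continuous `u, v` (`Gw_leaf`, `Sys.Leaf.continuous`, `isOpen_lt`). -/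
theorem Zs_open (h : NearD g) (w : List Sy) : IsOpen (Zs g w) := by
  have h1 : IsOpen {z : En d | z.1.1 ∈ Ioo (xc - u0) (xc + u0)} :=
    isOpen_Ioo.preimage (continuous_fst.comp continuous_fst)
  have h2 : IsOpen {z : En d | ((SU g).Gw w lo z.1.1).1 < z.1.2} :=
    isOpen_lt (a91_cont h w lo_leaf) (continuous_snd.comp continuous_fst)
  have h3 : IsOpen {z : En d | z.1.2 < ((SU g).Gw w hi z.1.1).1} :=
    isOpen_lt (continuous_snd.comp continuous_fst) (a91_cont h w hi_leaf)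
  have h4 : IsOpen {z : En d | ‖z.2‖ < 1} :=
    isOpen_lt (continuous_norm.comp continuous_snd) continuous_const
  exact h1.inter (h2.inter (h3.inter h4))

/-- Proof. `Gw [] f = f`; `interior_prod_eq`, `interior_Icc`, `interior_closedBall`. -/
theorem Zs_nil (g : En d → En d) : Zs g [] = interior (FFd d) := by
  unfold FFd FF BW
  rw [interior_prod_eq, interior_prod_eq, interior_Icc, interior_Icc,
    interior_closedBall _ (by norm_num)]
  ext z
  constructor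
  · rintro ⟨h1, h2, h3, h4⟩
    exact ⟨⟨h1, h2, h3⟩, by rwa [mem_ball_zero_iff]⟩
  · rintro ⟨⟨h1, h2, h3⟩, h4⟩
    rw [mem_ball_zero_iff] at h4
    exact ⟨h1, h2, h3, h4⟩

theorem a91_lo (h : NearD g) (u : List Sy) (x : ℝ) : LeC lo ((SU g).Gw u lo) x := by
  rcases List.eq_nil_or_concat u with rfl | ⟨u', i, rfl⟩
  · exact LeC.refl _ _
  · exact (lo_lt_Gw h.good_U (by simp) lo_leaf x).le

theorem a91_hi (h : NearD g) (u : List Sy) (x : ℝ) : LeC ((SU g).Gw u hi) hi x := by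
  rcases List.eq_nil_or_concat u with rfl | ⟨u', i, rfl⟩
  · exact LeC.refl _ _
  · exact (Gw_lt_hi h.good_U (by simp) hi_leaf x).le

/-- Proof. `Gw (u ++ w) lo = Gw w (Gw u lo)` (`Sys.Gw_append`); for `u ≠ []` `LtC lo (Gw u lo)` (`lo_lt_Gw`), so `Gw_mono`; the same
above. -/
theorem Zs_append (h : NearD g) (u w : List Sy) : Zs g (u ++ w) ⊆ Zs g w := by
  rintro z ⟨hz1, hz2, hz3, hz4⟩
  rw [Sys.Gw_append] at hz2 hz3
  have l1 := Gw_leaf h.good_U u lo_leaf
  have l2 := Gw_leaf h.good_U u hi_leaf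
  exact ⟨hz1, (Gw_mono h.good_U w lo_leaf l1 (a91_lo h u) z.1.1).1.trans_lt hz2,
    hz3.trans_le (Gw_mono h.good_U w l2 hi_leaf (a91_hi h u) z.1.1).1, hz4⟩

theorem Zs_sub_FF (h : NearD g) (w : List Sy) : Zs g w ⊆ interior (FFd d) := by
  rw [← Zs_nil g]
  have := Zs_append h w []
  rwa [List.append_nil] at this

theorem Zs_sub_Dd (h : NearD g) (w : List Sy) : Zs g w ⊆ Dd d :=
  (Zs_sub_FF h w).trans (interior_subset.trans FFd_sub_Dd)

/-- Proof. A common point `z` would satisfy `z.1.2 < (Gw w (GG P hi) z.1.1).1 ≤ (Gw w (GG Q lo) z.1.1).1 < z.1.2` (`GP_hi_lt_GQ_lo`,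
`Gw_mono`). -/
theorem Zs_disjoint (h : NearD g) (w : List Sy) :
    Disjoint (Zs g (Sy.P :: w)) (Zs g (Sy.Q :: w)) := by
  rw [Set.disjoint_left]
  rintro z ⟨-, -, hz3, -⟩ ⟨-, hz2', -, -⟩
  rw [Sys.Gw_cons] at hz3 hz2'
  have := (Gw_mono h.good_U w (GG_leaf h.good_U Sy.P hi_leaf) (GG_leaf h.good_U Sy.Q lo_leaf)
    (fun x => (GP_hi_lt_GQ_lo h.good_U x).le) z.1.1).1
  exact lt_irrefl _ (hz3.trans_le (this.trans hz2'.le))

/-- all unstable leaves are strictly between the constant leaves (`lo_lt_fixL`, `lo_lt_Gw`, ...) -/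
theorem Uu_bound (h : NearD g) (b : Sy) (u : List Sy) (x : ℝ) :
    LtC lo (Uu g b u) x ∧ LtC (Uu g b u) hi x := by
  rcases List.eq_nil_or_concat u with rfl | ⟨u', i, rfl⟩
  · exact ⟨lo_lt_fixL h.good_U b x, fixL_lt_hi h.good_U b x⟩
  · exact ⟨lo_lt_Gw h.good_U (by simp) (fixL_leaf h.good_U b) x,
      Gw_lt_hi h.good_U (by simp) (fixL_leaf h.good_U b) x⟩

theorem Uu_mem_Zs (h : NearD g) (b : Sy) (u w : List Sy) {x : ℝ} (hx : x ∈ Ioo (xc - u0) (xc + u0)) :
    pt (Uu g b (u ++ w)) x ∈ Zs g w := by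
  have hl := (Uu_leaf h b u).leaf g
  refine ⟨hx, ?_, ?_, ?_⟩
  · show ((SU g).Gw w lo x).1 < (Uu g b (u ++ w) x).1
    rw [Uu_append]
    exact (Gw_strictMono h.good_U w lo_leaf hl (fun x => (Uu_bound h b u x).1) x).1
  · show (Uu g b (u ++ w) x).1 < ((SU g).Gw w hi x).1
    rw [Uu_append]
    exact (Gw_strictMono h.good_U w hl hi_leaf (fun x => (Uu_bound h b u x).2) x).1
  · show ‖(Uu g b (u ++ w) x).2‖ < 1
    exact ((Uu_leaf h b (u ++ w)).small x).trans_lt (by norm_num [ee])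

end Pool.Agent.Lib.H37D
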