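import Pool.Agent.Lib.H37D.ADefs
import Pool.Agent.Lib.H37D.Bas0

/-!
# H37D, section A: leaves without reference to a map
-/

open Set Filter Topology

namespace Pool.Agent.Lib.H37D

open Pool.Agent.Lib.H37N

variable {d : ℕ} {g : En d → En d}

/-- unstable leaves (the same as `(SU g).Leaf f` for every `g`) -/
structure ULeaf (f : ℝ → ℝ × Wd d) : Prop where
  mem : ∀ x, (f x).1 ∈ II
  small : ∀ x, ‖(f x).2‖ ≤ 3 * ee
  lip : ∀ x x', ‖f x - f x'‖ ≤ 10 * ee * |x - x'|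

theorem Sys.Leaf.uleaf {f : ℝ → ℝ × Wd d} (hf : (SU g).Leaf f) : ULeaf f :=
  ⟨hf.mem1, hf.small, fun x x' => by
    have h := hf.lip x x'
    rwa [Real.norm_eq_abs (x - x')] at h⟩

theorem ULeaf.leaf {f : ℝ → ℝ × Wd d} (hf : ULeaf f) (g : En d → En d) : (SU g).Leaf f where
  mem1 := hf.mem
  mem2 := fun x => by
    show (f x).2 ∈ BW d
    rw [mem_BW]
    exact (hf.small x).trans (by norm_num [ee])
  small := hf.small
  lip := fun x x' => by rw [Real.norm_eq_abs (x - x')]; exact hf.lip x x'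

theorem ULeaf.norm_le {f : ℝ → ℝ × Wd d} (hf : ULeaf f) (x : ℝ) : ‖(f x).2‖ ≤ 1 :=
  (hf.small x).trans (by norm_num [ee])

theorem Sys.Leaf.sleaf {f : ℝ × Wd d → ℝ × Wd 0} (hf : (SV g).Leaf f) : SLeaf fun h => (f h).1 where
  mem := hf.mem1
  lip := fun h h' => by
    have h1 := hf.lip h h'
    have h2 : ‖(f h - f h').1‖ ≤ ‖f h - f h'‖ := by
      rw [Prod.norm_def]
      exact le_max_left _ _
    rw [Prod.fst_sub, Real.norm_eq_abs] at h2
    exact h2.trans h1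

theorem SLeaf.leaf {s : ℝ × Wd d → ℝ} (hs : SLeaf s) (g : En d → En d) :
    (SV g).Leaf fun h => ((s h, 0) : ℝ × Wd 0) where
  mem1 := hs.mem
  mem2 := fun h => (RgW 0).zero_mem
  small := fun h => by
    show ‖(0 : Wd 0)‖ ≤ _
    rw [norm_zero]
    norm_num [ee]
  lip := fun h h' => by
    have h1 := hs.lip h h'
    rw [Prod.norm_def]
    simp only [Prod.fst_sub, Prod.snd_sub, sub_self, norm_zero, Real.norm_eq_abs]
    exact max_le h1 (mul_nonneg (by norm_num [ee]) (norm_nonneg _))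

theorem LtC.of_fst {H : Type*} {f0 f1 : H → ℝ × Wd 0} {h : H} (hlt : (f0 h).1 < (f1 h).1) :
    LtC f0 f1 h := by
  refine ⟨hlt, ?_⟩
  rw [Subsingleton.elim ((f1 h).2 - (f0 h).2) 0, norm_zero]
  linarith

theorem LeC.of_fst {H : Type*} {f0 f1 : H → ℝ × Wd 0} {h : H} (hle : (f0 h).1 ≤ (f1 h).1) :
    LeC f0 f1 h := by
  refine ⟨hle, ?_⟩
  rw [Subsingleton.elim ((f1 h).2 - (f0 h).2) 0, norm_zero]
  linarith

theorem ULeaf.continuous {f : ℝ → ℝ × Wd d} (hf : ULeaf f) : Continuous f := by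
  refine LipschitzWith.continuous (K := ⟨10 * ee, by norm_num [ee]⟩) ?_
  refine LipschitzWith.of_dist_le_mul fun x y => ?_
  rw [dist_eq_norm, dist_eq_norm, Real.norm_eq_abs (x - y)]
  exact hf.lip x y

theorem SLeaf.continuous {s : ℝ × Wd d → ℝ} (hs : SLeaf s) : Continuous s := by
  refine LipschitzWith.continuous (K := ⟨10 * ee, by norm_num [ee]⟩) ?_
  refine LipschitzWith.of_dist_le_mul fun x y => ?_
  rw [dist_eq_norm, dist_eq_norm, Real.norm_eq_abs]
  exact hs.lip x y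

end Pool.Agent.Lib.H37D
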