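import Pool.Agent.Lib.H37D.Defs
import Pool.Agent.Lib.H37N.ADefs

/-!
# H37D, section A: definitions (general cross systems with slaved coordinates, leaves, linked pairs, strips)

General cross systems: a coordinate `h ∈ H` which is expanded (slaved backwards), a main contracting coordinate `y ∈ ℝ`, a strongly
contracted coordinate `v ∈ V` (slaved forwards). Unstable leaves of a near map: `H = ℝ`, `V = Wd d`. Stable leaves (time
reversed): `H = ℝ × Wd d`, `V = Wd 0`.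
-/

open Set Filter Topology
open scoped ContDiff

namespace Pool.Agent.Lib.H37D

open Pool.Agent.Lib.H37N

noncomputable section

/-- a region with a retraction of Lipschitz constant `1` -/
structure Rg (H : Type*) [NormedAddCommGroup H] where
  S : Set H
  cl : H → H
  zero_mem : (0 : H) ∈ S
  cl_mem : ∀ h, cl h ∈ S
  cl_of : ∀ h ∈ S, cl h = h
  cl_lip : ∀ h h', ‖cl h - cl h'‖ ≤ ‖h - h'‖
  diam : ∀ h ∈ S, ∀ h' ∈ S, ‖h - h'‖ ≤ 2
  closed : IsClosed S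

/-- mean value property for two segments: mean derivatives in `C`, slowly varying -/
def MVd {E Z : Type*} [NormedAddCommGroup E] [NormedSpace ℝ E] [NormedAddCommGroup Z] [NormedSpace ℝ Z]
    (S : Set E) (C : Set (E →L[ℝ] Z)) (F : E → Z) : Prop :=
  ∀ z0 ∈ S, ∀ z1 ∈ S, ∀ z2 ∈ S, ∀ z3 ∈ S, ∃ A ∈ C, ∃ A' ∈ C,
    F z1 - F z0 = A (z1 - z0) ∧ F z3 - F z2 = A' (z3 - z2) ∧
    ‖A - A'‖ ≤ ee * max ‖z2 - z0‖ ‖z3 - z1‖

/-- data of a general cross system: `h = X i (h', y, v)`, `y' = Y i (h', y, v)`, `v' = K i (h', y, v)` -/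
structure Sys (H V : Type*) [NormedAddCommGroup H] [NormedSpace ℝ H] [NormedAddCommGroup V]
    [NormedSpace ℝ V] where
  RH : Rg H
  RV : Rg V
  q : Sy → ℝ
  X : Sy → H × ℝ × V → H
  Y : Sy → H × ℝ × V → ℝ
  K : Sy → H × ℝ × V → V

theorem Rg.cl_cl {H : Type*} [NormedAddCommGroup H] (R : Rg H) (h : H) :
    R.cl (R.cl h) = R.cl h := R.cl_of _ (R.cl_mem h)

section gen

variable {H V : Type*} [NormedAddCommGroup H] [NormedSpace ℝ H] [NormedAddCommGroup V]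
  [NormedSpace ℝ V]

/-- the domain of the cross system -/
def Sys.dom (S : Sys H V) : Set (H × ℝ × V) := S.RH.S ×ˢ (II ×ˢ S.RV.S)

/-- cross systems: the conditions -/
structure Sys.Good (S : Sys H V) : Prop where
  q0 : ∀ i, 19 / 100 ≤ S.q i ∧ S.q i ≤ 81 / 100
  qsum : S.q Sy.P + S.q Sy.Q = 1 - gam
  X0 : ∀ i, ∀ z ∈ S.dom, S.X i z ∈ S.RH.S
  Y0 : ∀ i, ∀ z ∈ S.dom, |S.Y i z - (off S.q i + S.q i * z.2.1)| ≤ ee
  K0 : ∀ i, ∀ z ∈ S.dom, S.K i z ∈ S.RV.S ∧ ‖S.K i z‖ ≤ 1 / 50 * ‖z.2.2‖ + ee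
  mvX : ∀ i, MVd S.dom {A : H × ℝ × V →L[ℝ] H | (∀ h, ‖A (h, 0, 0)‖ ≤ 811 / 1000 * ‖h‖) ∧
    ‖A (0, 1, 0)‖ ≤ ee ∧ ∀ v, ‖A (0, 0, v)‖ ≤ ee * ‖v‖} (S.X i)
  mvY : ∀ i, MVd S.dom {A : H × ℝ × V →L[ℝ] ℝ | (∀ h, |A (h, 0, 0)| ≤ ee * ‖h‖) ∧
    |A (0, 1, 0) - S.q i| ≤ ee ∧ ∀ v, |A (0, 0, v)| ≤ ee * ‖v‖} (S.Y i)
  mvK : ∀ i, MVd S.dom {A : H × ℝ × V →L[ℝ] V | (∀ h, ‖A (h, 0, 0)‖ ≤ ee * ‖h‖) ∧
    ‖A (0, 1, 0)‖ ≤ ee ∧ ∀ v, ‖A (0, 0, v)‖ ≤ 1 / 50 * ‖v‖} (S.K i)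

/-- leaves: graphs `(y, v) = f h` with `y ∈ II`, `v` of size `3 ee`, Lipschitz constant `10 ee` -/
structure Sys.Leaf (S : Sys H V) (f : H → ℝ × V) : Prop where
  mem1 : ∀ h, (f h).1 ∈ II
  mem2 : ∀ h, (f h).2 ∈ S.RV.S
  small : ∀ h, ‖(f h).2‖ ≤ 3 * ee
  lip : ∀ h h', ‖f h - f h'‖ ≤ 10 * ee * ‖h - h'‖

/-- `f0 ≤ f1` in the cone order at the point `h` -/
def LeC (f0 f1 : H → ℝ × V) (h : H) : Prop :=
  (f0 h).1 ≤ (f1 h).1 ∧ ‖(f1 h).2 - (f0 h).2‖ ≤ (f1 h).1 - (f0 h).1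

/-- strict version -/
def LtC (f0 f1 : H → ℝ × V) (h : H) : Prop :=
  (f0 h).1 < (f1 h).1 ∧ ‖(f1 h).2 - (f0 h).2‖ ≤ (f1 h).1 - (f0 h).1

/-- the solution `h` of `h = X i (h', f h)` (with `h'` clamped) -/
def Sys.sol (S : Sys H V) (i : Sy) (f : H → ℝ × V) (h' : H) : H :=
  Classical.epsilon fun h => h = S.X i (S.RH.cl h', f h)

/-- graph transform -/
def Sys.GG (S : Sys H V) (i : Sy) (f : H → ℝ × V) (h' : H) : ℝ × V :=
  (S.Y i (S.RH.cl h', f (S.sol i f h')), S.K i (S.RH.cl h', f (S.sol i f h')))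

/-- graph transform of a word (the first letter is applied first) -/
def Sys.Gw (S : Sys H V) : List Sy → (H → ℝ × V) → (H → ℝ × V)
  | [], f => f
  | i :: w, f => Sys.Gw S w (S.GG i f)

/-- the fixed leaf of a letter -/
def Sys.fixL (S : Sys H V) (i : Sy) (h : H) : ℝ × V :=
  limUnder atTop fun n : ℕ => (S.GG i)^[n] (fun _ => 0) h

/-- constant leaves -/
def lo : H → ℝ × V := fun _ => (-del, 0)
def hi : H → ℝ × V := fun _ => (1 + del, 0)

/-- cross orbits of length `k` with itinerary `i 0, ..., i (k-1)` -/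
structure Sys.Orb (S : Sys H V) (i : ℕ → Sy) (k : ℕ) (x : ℕ → H) (y : ℕ → ℝ) (v : ℕ → V) :
    Prop where
  mx : ∀ n ≤ k, x n ∈ S.RH.S
  my : ∀ n ≤ k, y n ∈ II
  mv : ∀ n ≤ k, v n ∈ S.RV.S
  ex : ∀ n < k, x n = S.X (i n) (x (n + 1), y n, v n)
  ey : ∀ n < k, y (n + 1) = S.Y (i n) (x (n + 1), y n, v n)
  ev : ∀ n < k, v (n + 1) = S.K (i n) (x (n + 1), y n, v n)

theorem Sys.Gw_nil (S : Sys H V) (f : H → ℝ × V) : S.Gw [] f = f := rfl

theorem Sys.Gw_cons (S : Sys H V) (i : Sy) (w : List Sy) (f : H → ℝ × V) :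
    S.Gw (i :: w) f = S.Gw w (S.GG i f) := rfl

theorem Sys.Gw_append (S : Sys H V) (w w' : List Sy) (f : H → ℝ × V) :
    S.Gw (w ++ w') f = S.Gw w' (S.Gw w f) := by
  induction w generalizing f with
  | nil => rfl
  | cons i w ih => exact ih _

theorem Sys.GG_cl (S : Sys H V) (i : Sy) (f : H → ℝ × V) (h : H) :
    S.GG i f (S.RH.cl h) = S.GG i f h := by
  unfold Sys.GG Sys.sol
  rw [Rg.cl_cl]

end gen

section cone

variable {H V : Type*} [NormedAddCommGroup V]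

theorem LtC.le {f0 f1 : H → ℝ × V} {h : H} (hl : LtC f0 f1 h) : LeC f0 f1 h := ⟨hl.1.le, hl.2⟩

theorem LeC.refl (f : H → ℝ × V) (h : H) : LeC f f h := ⟨le_rfl, by simp⟩

theorem LeC.trans {f0 f1 f2 : H → ℝ × V} {h : H} (h1 : LeC f0 f1 h) (h2 : LeC f1 f2 h) :
    LeC f0 f2 h := by
  refine ⟨h1.1.trans h2.1, ?_⟩
  have e : (f2 h).2 - (f0 h).2 = ((f2 h).2 - (f1 h).2) + ((f1 h).2 - (f0 h).2) := by abel
  rw [e]
  refine (norm_add_le _ _).trans ?_
  linarith [h1.2, h2.2]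

theorem LtC.trans_le {f0 f1 f2 : H → ℝ × V} {h : H} (h1 : LtC f0 f1 h) (h2 : LeC f1 f2 h) :
    LtC f0 f2 h :=
  ⟨h1.1.trans_le h2.1, (h1.le.trans h2).2⟩

theorem LeC.trans_lt {f0 f1 f2 : H → ℝ × V} {h : H} (h1 : LeC f0 f1 h) (h2 : LtC f1 f2 h) :
    LtC f0 f2 h :=
  ⟨h1.1.trans_lt h2.1, (h1.trans h2.le).2⟩

theorem LtC.trans {f0 f1 f2 : H → ℝ × V} {h : H} (h1 : LtC f0 f1 h) (h2 : LtC f1 f2 h) :
    LtC f0 f2 h := h1.trans_le h2.le

end cone

/-! ### regions -/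

/-- the interval `II` -/
def RgI : Rg ℝ where
  S := II
  cl := cl
  zero_mem := by rw [II_def]; constructor <;> norm_num [del]
  cl_mem := cl_mem
  cl_of := fun _ h => cl_of_mem h
  cl_lip := fun x y => by rw [Real.norm_eq_abs, Real.norm_eq_abs]; exact cl_lip x y
  diam := fun x hx y hy => by
    rw [II_def] at hx hy
    rw [Real.norm_eq_abs, abs_le]
    have h : del = 1 / 100000 := rfl
    rw [h] at hx hy
    constructor <;> linarith [hx.1, hx.2, hy.1, hy.2]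
  closed := isClosed_Icc

/-- clamping to the unit ball of `Wd d` -/
def clW {d : ℕ} (w : Wd d) : Wd d := fun i => max (-1) (min (w i) 1)

theorem mem_BW {d : ℕ} {w : Wd d} : w ∈ BW d ↔ ‖w‖ ≤ 1 := by
  unfold BW
  rw [mem_closedBall_zero_iff]

/-- the unit ball of `Wd d` -/
def RgW (d : ℕ) : Rg (Wd d) where
  S := BW d
  cl := clW
  zero_mem := by rw [mem_BW, norm_zero]; norm_num
  cl_mem := fun w => by
    rw [mem_BW, pi_norm_le_iff_of_nonneg zero_le_one]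
    intro i
    rw [Real.norm_eq_abs, abs_le]
    exact ⟨le_max_left _ _, max_le (by norm_num) (min_le_right _ _)⟩
  cl_of := fun w hw => by
    rw [mem_BW, pi_norm_le_iff_of_nonneg zero_le_one] at hw
    funext i
    have := hw i
    rw [Real.norm_eq_abs, abs_le] at this
    show max (-1) (min (w i) 1) = w i
    rw [min_eq_left this.2, max_eq_right this.1]
  cl_lip := fun w w' => by
    rw [pi_norm_le_iff_of_nonneg (norm_nonneg _)]
    intro i
    have h1 : |max (-1) (min (w i) 1) - max (-1) (min (w' i) 1)| ≤ |w i - w' i| := by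
      have a := abs_max_sub_max_le_max (-1) (min (w i) 1) (-1) (min (w' i) 1)
      have b := abs_min_sub_min_le_max (w i) 1 (w' i) 1
      simp only [sub_self, abs_zero] at a b
      have c : max (0 : ℝ) |min (w i) 1 - min (w' i) 1| = |min (w i) 1 - min (w' i) 1| :=
        max_eq_right (abs_nonneg _)
      have d : max |w i - w' i| (0 : ℝ) = |w i - w' i| := max_eq_left (abs_nonneg _)
      rw [c] at a
      rw [d] at b
      exact a.trans b
    have h2 := norm_le_pi_norm (w - w') i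
    rw [Real.norm_eq_abs] at h2
    show ‖max (-1) (min (w i) 1) - max (-1) (min (w' i) 1)‖ ≤ _
    rw [Real.norm_eq_abs]
    exact h1.trans h2
  diam := fun w hw w' hw' => by
    rw [mem_BW] at hw hw'
    exact (norm_sub_le _ _).trans (by linarith)
  closed := Metric.isClosed_closedBall

/-- product of two regions -/
def Rg.prod {H1 H2 : Type*} [NormedAddCommGroup H1] [NormedAddCommGroup H2] (R1 : Rg H1)
    (R2 : Rg H2) : Rg (H1 × H2) where
  S := R1.S ×ˢ R2.S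
  cl := fun h => (R1.cl h.1, R2.cl h.2)
  zero_mem := ⟨R1.zero_mem, R2.zero_mem⟩
  cl_mem := fun h => ⟨R1.cl_mem _, R2.cl_mem _⟩
  cl_of := fun h hh => Prod.ext (R1.cl_of _ hh.1) (R2.cl_of _ hh.2)
  cl_lip := fun h h' => by
    rw [Prod.norm_def, Prod.norm_def]
    exact max_le_max (R1.cl_lip _ _) (R2.cl_lip _ _)
  diam := fun h hh h' hh' => by
    rw [Prod.norm_def]
    exact max_le (R1.diam _ hh.1 _ hh'.1) (R2.diam _ hh.2 _ hh'.2)
  closed := R1.closed.prod R2.closed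

/-! ### the cross system of a map -/

variable {d : ℕ}

/-- cross coordinates `(x', y, w)` -/
abbrev Cx (d : ℕ) := ℝ × ℝ × Wd d

/-- the domain of the cross system of a map -/
def DX (d : ℕ) : Set (Cx d) := II ×ˢ (II ×ˢ BW d)

open Classical in
/-- for `(x', y, w)` the number `x` with `(x, y) ∈ VV i` and `(g (x, y, w)).x = x'` -/
def XX (g : En d → En d) (i : Sy) (z : Cx d) : ℝ :=
  if z ∈ DX d then Classical.epsilon fun x => (x, z.2.1) ∈ VV i ∧ (g ((x, z.2.1), z.2.2)).1.1 = z.1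
  else 0

open Classical in
def YY (g : En d → En d) (i : Sy) (z : Cx d) : ℝ :=
  if z ∈ DX d then (g ((XX g i z, z.2.1), z.2.2)).1.2 else 0

open Classical in
def KK (g : En d → En d) (i : Sy) (z : Cx d) : Wd d :=
  if z ∈ DX d then (g ((XX g i z, z.2.1), z.2.2)).2 else 0

/-- the unstable system -/
def SU (g : En d → En d) : Sys ℝ (Wd d) where
  RH := RgI
  RV := RgW d
  q := qw
  X := XX g
  Y := YY g
  K := KK g

/-- the stable system (time reversed) -/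
def SV (g : En d → En d) : Sys (ℝ × Wd d) (Wd 0) where
  RH := RgI.prod (RgW d)
  RV := RgW 0
  q := pw
  X := fun i z => (YY g i (z.2.1, z.1), KK g i (z.2.1, z.1))
  Y := fun i z => XX g i (z.2.1, z.1)
  K := fun _ _ => 0

/-- unstable leaf `U_w^b` (curve `(x, y, w) = (x, Uu g b w x)`); a new FIRST letter of `w` refines -/
def Uu (g : En d → En d) (b : Sy) (w : List Sy) : ℝ → ℝ × Wd d :=
  (SU g).Gw w ((SU g).fixL b)

/-- stable leaf as a leaf of the system `SV g` -/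
def Sv (g : En d → En d) (b : Sy) (v : List Sy) : ℝ × Wd d → ℝ × Wd 0 :=
  (SV g).Gw v.reverse ((SV g).fixL b)

/-- stable leaf `S_v^b` (hypersurface `x = Ss g b v (y, w)`); a new LAST letter of `v` refines -/
def Ss (g : En d → En d) (b : Sy) (v : List Sy) (h : ℝ × Wd d) : ℝ := (Sv g b v h).1

/-- real valued leaves over `(y, w)` -/
structure SLeaf (s : ℝ × Wd d → ℝ) : Prop where
  mem : ∀ h, s h ∈ II
  lip : ∀ h h', |s h - s h'| ≤ 10 * ee * ‖h - h'‖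

/-- the point over `x` of a curve -/
def pt (f : ℝ → ℝ × Wd d) (x : ℝ) : En d := ((x, (f x).1), (f x).2)

/-- horizontal distance of the image of the point `pt f x` from the graph of `s` -/
def hh (g : En d → En d) (f : ℝ → ℝ × Wd d) (s : ℝ × Wd d → ℝ) (x : ℝ) : ℝ :=
  (g (pt f x)).1.1 - s ((g (pt f x)).1.2, (g (pt f x)).2)

def DD (g : En d → En d) (f : ℝ → ℝ × Wd d) (s : ℝ × Wd d → ℝ) : ℝ := sSup (hh g f s '' JJ)

def hU (g : En d → En d) (w : List Sy) : ℝ := (Uu g Sy.Q w xc).1 - (Uu g Sy.P w xc).1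
def hS (g : En d → En d) (v : List Sy) : ℝ := Ss g Sy.Q v (yc, 0) - Ss g Sy.P v (yc, 0)
def rr (g : En d → En d) (w v : List Sy) : ℝ := cc * hU g w / hS g v

/-- linked pairs -/
def Linked (g : En d → En d) (w v : List Sy) : Prop :=
  0 ≤ DD g (Uu g Sy.Q w) (Ss g Sy.P v) ∧ DD g (Uu g Sy.P w) (Ss g Sy.Q v) ≤ 0

/-- linked pairs of comparable sizes -/
def Ok (g : En d → En d) (w v : List Sy) : Prop :=
  Linked g w v ∧ 1 / 100 ≤ rr g w v ∧ rr g w v ≤ 100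

/-- open strip of the word `w` over the interior of `JJ` -/
def Zs (g : En d → En d) (w : List Sy) : Set (En d) :=
  {z | z.1.1 ∈ Ioo (xc - u0) (xc + u0) ∧ ((SU g).Gw w lo z.1.1).1 < z.1.2 ∧
    z.1.2 < ((SU g).Gw w hi z.1.1).1 ∧ ‖z.2‖ < 1}

/-- compact core of the strip -/
def Cw (g : En d → En d) (w : List Sy) : Set (En d) :=
  {z | |z.1.1 - xc| ≤ u0 / 2 ∧ (Uu g Sy.P w z.1.1).1 ≤ z.1.2 ∧ z.1.2 ≤ (Uu g Sy.Q w z.1.1).1 ∧
    ‖z.2‖ ≤ 1 / 2}

/-- the fixed point of `g` in `VVd d b` -/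
def fixP (g : En d → En d) (b : Sy) : En d :=
  Classical.epsilon fun z => z ∈ VVd d b ∧ g z = z

end

end Pool.Agent.Lib.H37D
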