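import Pool.Agent.Lib.H37D.D0
import Pool.Agent.Lib.H37N.BDefs

/-!
# H37D, section B: definitions (linear charts and transversal connection in `En d`)
-/

open Set Filter Topology
open scoped ContDiff

namespace Pool.Agent.Lib.H37D

open Pool.Agent.Lib.H37N

noncomputable section

variable {d : ℕ}

/-- determinant of a linear map of the plane -/
def det2 (M : Pt →L[ℝ] Pt) : ℝ := (M (1, 0)).1 * (M (0, 1)).2 - (M (1, 0)).2 * (M (0, 1)).1

/-- the minor of the planar block of a linear map -/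
def planar (L : En d →L[ℝ] En d) : ℝ :=
  (L ((1, 0), 0)).1.1 * (L ((0, 1), 0)).1.2 - (L ((1, 0), 0)).1.2 * (L ((0, 1), 0)).1.1

/-- the planar minor of the derivative -/
def pjac (g : En d → En d) (z : En d) : ℝ := planar (fderiv ℝ g z)

/-- the box of the linear charts -/
def BxD (d : ℕ) : Set (En d) := Bx ×ˢ Metric.ball (0 : Wd d) 2

/-- the domain of the two affine branches -/
def VOD (d : ℕ) : Set (En d) := VO ×ˢ Metric.ball (0 : Wd d) 1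

/-- `κ` linearises `g` near its fixed point in `VVd i`; coordinates `((x,y),w)`: `x` weakly stable, `y` unstable, `w` strongly
stable; `c` is the inverse of `κ`.  `sgn1`, `sgn2`: orientation in the quotient by the strong stable directions (PROOFN.md 0.2):
`slp K s` is the map `z ↦ (K (z,0)).1 - s ((K (z,0)).2)`. -/
structure LinChartD (g : En d → En d) (i : Sy) (κ c : En d → En d) (lam mu : ℝ) (al : Wd d) : Prop where
  smooth : ContDiff ℝ ∞ κ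
  inj : InjOn κ (BxD d)
  inv : ∀ v ∈ BxD d, Function.Bijective (fderiv ℝ κ v)
  isOpen : IsOpen (κ '' BxD d)
  sub : κ '' BxD d ⊆ interior (VV i) ×ˢ Metric.ball (0 : Wd d) 1
  smooth_c : ContDiff ℝ ∞ c
  left : ∀ v ∈ BxD d, c (κ v) = v
  lin : ∀ (x y : ℝ) (w : Wd d), |x| < 2 → |mu * y| < 2 → ‖w‖ < 2 →
    g (κ ((x, y), w)) = κ ((lam * x, mu * y), mulw al w)
  lam_mem : lam ∈ Ioo (49 / 100 : ℝ) (51 / 100)
  mu_mem : mu ∈ muR i
  al_mem : ∀ k, al k ∈ Ioo (89 / 10 ^ 9 : ℝ) (101 / 10 ^ 9)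
  sgn1 : ∀ v ∈ BxD d, ∀ s : Wd d →L[ℝ] Pt, ‖s‖ ≤ 1 / 10 ^ 8 → 0 < det2 (slp (fderiv ℝ κ v) s)
  sgn2 : ∀ z ∈ κ '' BxD d, ∃ (B : Pt →L[ℝ] Pt) (s : Wd d →L[ℝ] Pt), 0 < det2 B ∧ ‖s‖ ≤ 1 / 10 ^ 8 ∧
    ∀ u : En d, (fderiv ℝ c z u).1 = B (u.1 - s u.2)

/-- the transition map from the chart at `P` to the chart at `Q` -/
def SMD (g κP cQ : En d → En d) (kS : ℕ) (uS : ℝ) (v : En d) : En d :=
  cQ (g^[kS] (κP ((v.1.1, uS + v.1.2), v.2)))

/-- a transversal connection of the two fixed points -/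
structure SDataD (g κP κQ cQ : En d → En d) (kS : ℕ) (uS sS : ℝ) (wS : Wd d) : Prop where
  pos : 1 ≤ kS
  u_ne : uS ≠ 0
  u_lt : |uS| < 1
  s_lt : |sS| < 1
  w_lt : ‖wS‖ < 1
  path : ∀ᶠ v in 𝓝 (0 : En d), ∀ j ≤ kS, g^[j] (κP ((v.1.1, uS + v.1.2), v.2)) ∈ VOD d
  hit : g^[kS] (κP ((0, uS), 0)) = κQ ((sS, 0), wS)
  smooth : ∀ᶠ v in 𝓝 (0 : En d), ContDiffAt ℝ ∞ (SMD g κP cQ kS uS) v
  S0 : SMD g κP cQ kS uS 0 = ((sS, 0), wS)
  back : ∀ᶠ v in 𝓝 (0 : En d), SMD g κP cQ kS uS v ∈ BxD d ∧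
    κQ (SMD g κP cQ kS uS v) = g^[kS] (κP ((v.1.1, uS + v.1.2), v.2))
  pj_pos : 0 < pjac (SMD g κP cQ kS uS) 0
  d_pos : 0 < (fderiv ℝ (SMD g κP cQ kS uS) 0 ((0, 1), 0)).1.2

/-- the data of the two charts and of the connection -/
structure FrD (d : ℕ) where
  κ : Sy → En d → En d
  c : Sy → En d → En d
  lam : Sy → ℝ
  mu : Sy → ℝ
  al : Sy → Wd d
  kS : ℕ
  uS : ℝ
  sS : ℝ
  wS : Wd d

/-- `F` is a frame of `g` -/
structure IsFrD (g : En d → En d) (F : FrD d) : Prop where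
  chart : ∀ i, LinChartD g i (F.κ i) (F.c i) (F.lam i) (F.mu i) (F.al i)
  irr : Irrational (Real.log (F.lam Sy.P * F.mu Sy.P) / Real.log (F.lam Sy.Q * F.mu Sy.Q))
  sdata : SDataD g (F.κ Sy.P) (F.κ Sy.Q) (F.c Sy.Q) F.kS F.uS F.sS F.wS

end

end Pool.Agent.Lib.H37D
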