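import Pool.Agent.Lib.H37D.BDefs
import Pool.Agent.Lib.H37N.CDefs

/-!
# H37D, section C: tangency data, places (definitions)
-/

open Set Filter Topology Asymptotics
open scoped ContDiff

namespace Pool.Agent.Lib.H37D

open Pool.Agent.Lib.H37N

noncomputable section

variable {d : ℕ}

/-- the transition from the unstable axis of `P` to the stable hyperplane of `Q` in the charts -/
def SSD (g : En d → En d) (s : FrD d) (v : En d) : En d := SMD g (s.κ Sy.P) (s.c Sy.Q) s.kS s.uS v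

/-- the map from the chart at `Q` to the point after `k` steps -/
def InD (g : En d → En d) (s : FrD d) (b : ℝ) (k : ℕ) (v : En d) : En d :=
  g^[k] (s.κ Sy.Q ((v.1.1, b + v.1.2), v.2))

/-- the chart coordinates at `P` after `l` steps -/
def PlD (g : En d → En d) (s : FrD d) (l : ℕ) (w : En d) : En d := s.c Sy.P (g^[l] w)

/-- the transition map from the chart at `Q` to the chart at `P` -/
def TTD (g : En d → En d) (s : FrD d) (b : ℝ) (k l : ℕ) (v : En d) : En d :=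
  PlD g s l (g (InD g s b k v))

/-- `g' = g` off `Z` -/
def EqOffD (Z : Set (En d)) (g g' : En d → En d) : Prop :=
  ∀ z ∈ Dd d, z ∉ Z → g' z = g z

/-- a tangency of order (at least) `m` between the unstable manifold of `Q` and the stable manifold of
`P`, which visits the fold region only in the open set `Z` -/
structure TDD (g : En d → En d) (s : FrD d) (Z : Set (En d)) (m : ℕ) (b a : ℝ) (wT : Wd d) (k l : ℕ) :
    Prop where
  openZ : IsOpen Z
  subZ : Z ⊆ interior (FFd d)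
  b_pos : 0 < |b|
  b_lt : |b| < 1
  a_lt : |a| < 1
  w_lt : ‖wT‖ < 1
  path1 : ∀ i ≤ k, InD g s b i 0 ∈ VOD d ∪ Z
  memZ : InD g s b k 0 ∈ Z
  dist : ∀ i < k, InD g s b i 0 ≠ InD g s b k 0
  path2 : ∀ i ≤ l, g^[i] (g (InD g s b k 0)) ∈ VOD d
  fin : g^[l] (g (InD g s b k 0)) = s.κ Sy.P ((a, 0), wT)
  ord : (fun t : ℝ => (TTD g s b k l ((0, t), 0)).1.2) =O[𝓝 0] fun t => |t| ^ (m + 1)

/-- a place where the map can be perturbed: the chart coordinates `PlD` identify the open set `D` with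
the ball of radius `r` around `((a,0),wT)`; the orbits of the points of `B` in the chart at `Q` enter
`D` exactly at the time `k + 1` -/
structure PlaceD (g : En d → En d) (s : FrD d) (Z : Set (En d)) (b a : ℝ) (wT : Wd d) (k l : ℕ) (r : ℝ)
    (D B : Set (En d)) (Li : En d → En d) : Prop where
  r_pos : 0 < r
  r_lt : |a| + r < 1
  r_ltw : ‖wT‖ + r < 1
  openD : IsOpen D
  subD : D ⊆ g '' Z
  compD : ∃ C : Set (En d), IsCompact C ∧ D ⊆ C ∧ C ⊆ K0D d ∧ C ⊆ g '' Z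
  Pl_mem : ∀ w ∈ D, PlD g s l w ∈ Metric.ball (((a, 0), wT) : En d) r
  Li_Pl : ∀ w ∈ D, Li (PlD g s l w) = w
  Li_mem : ∀ v ∈ Metric.ball (((a, 0), wT) : En d) r, Li v ∈ D
  Pl_Li : ∀ v ∈ Metric.ball (((a, 0), wT) : En d) r, PlD g s l (Li v) = v
  smLi : ContDiffOn ℝ ∞ Li (Metric.ball (((a, 0), wT) : En d) r)
  smPl : ContDiffOn ℝ ∞ (PlD g s l) D
  path : ∀ w ∈ D, ∀ i ≤ l, g^[i] w ∈ VOD d
  land : ∀ w ∈ D, g^[l] w = s.κ Sy.P (PlD g s l w)
  nhB : B ∈ 𝓝 (0 : En d)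
  boxB : ∀ v ∈ B, |v.1.1| < 1 ∧ |b + v.1.2| < 1 ∧ ‖v.2‖ < 1
  pathB : ∀ v ∈ B, ∀ i ≤ k, InD g s b i v ∈ VOD d ∪ Z
  notD : ∀ v ∈ B, ∀ i < k, g (InD g s b i v) ∉ D
  inD : ∀ v ∈ B, g (InD g s b k v) ∈ D
  TB : ∀ v ∈ B, TTD g s b k l v ∈ Metric.ball (((a, 0), wT) : En d) (r / 2)

/-- an admissible perturbation at the place -/
def AdmD (D : Set (En d)) (ψ : En d → En d) : Prop := (∀ w ∉ D, ψ w = w) ∧ ∀ w ∈ D, ψ w ∈ D

end

end Pool.Agent.Lib.H37D
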