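import Pool.Agent.Lib.H37D.Defs

/-!
# H37D D0 (M): the closeness constant `en d` and the class `NearS`

`diagonalizable`: let `L0 = MdL d i` (the derivative of the model), `C0 = CC0 d`, so `L0 C0 = C0 D0` with `D0 = dgD (qw i) (1 / pw i) (awk d)`; the `d + 2` numbers
`qw i, 1 / pw i, awk d k` are pairwise distinct. Consider `Φ(X, D) = (C0 + C0 X) D - L (C0 + C0 X)`, where `X` is a linear map with zero diagonal (in the
standard basis of `En d`) and `D` is diagonal; `Φ = 0` at `X = 0, D = D0, L = L0`, and `C0⁻¹ ∂Φ (Ẋ, Ḋ) = X' D0 - D0 X' + Ḋ` is bijective onto the linear maps (its `(i,j)` entry is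
`X'_ij (D0_j - D0_i)` for `i ≠ j` and `Ḋ_i` for `i = j`; injective, and the dimensions are equal, or explicit inverse). Implicit function theorem (or
`open_param`, T9; the solutions are as close to `(0, D0)` as we want). `C = C0 (1 + X)` is invertible for small `X`.
-/

open Set Filter Topology
open scoped ContDiff

namespace Pool.Agent.Lib.H37D

open Pool.Agent.Lib.H37N

noncomputable section

variable {d : ℕ}

/-- the rates of the model in the directions `w`: distinct, in `(0.9 * 10^-7, 10^-7)` -/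
def awk (d : ℕ) (k : Fin d) : ℝ := aw * (1 - ((k : ℝ) + 1) / (10 * ((d : ℝ) + 1)))

/-- coordinatewise product -/
def mulw (a w : Wd d) : Wd d := fun k => a k * w k

/-- coordinatewise product as a linear map -/
def mulL (a : Wd d) : Wd d →L[ℝ] Wd d :=
  ContinuousLinearMap.pi fun k => a k • ContinuousLinearMap.proj k

@[simp] theorem mulL_apply (a w : Wd d) : mulL a w = mulw a w := by
  ext k; simp [mulL, mulw]

/-- the diagonal linear map in the coordinates of the charts (`x` stable, `y` unstable, `w`) -/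
def dgD (lam mu : ℝ) (al : Wd d) : En d →L[ℝ] En d :=
  ((lam • ContinuousLinearMap.fst ℝ ℝ ℝ).prod (mu • ContinuousLinearMap.snd ℝ ℝ ℝ)).prodMap (mulL al)

theorem dgD_apply (lam mu : ℝ) (al : Wd d) (v : En d) :
    dgD lam mu al v = ((lam * v.1.1, mu * v.1.2), mulw al v.2) := by
  have h : (mulL al : Wd d →L[ℝ] Wd d) v.2 = mulw al v.2 := mulL_apply al v.2
  show (((lam * v.1.1, mu * v.1.2) : Pt), mulL al v.2) = _
  rw [h]

/-- the derivative of the model on `VVd d i` -/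
def MdL (d : ℕ) (i : Sy) : En d →L[ℝ] En d := dgD (1 / pw i) (qw i) (awk d)

/-- the derivative of the model of the fold at `z` -/
def FoldL (d : ℕ) (z : En d) : En d →L[ℝ] En d :=
  (((-(2 * dd * (z.1.1 - xc))) • ContinuousLinearMap.fst ℝ ℝ ℝ + cc • ContinuousLinearMap.snd ℝ ℝ ℝ).prod
    (-ContinuousLinearMap.fst ℝ ℝ ℝ)).prodMap (mulL (awk d))

/-- the model of the charts: `((x,y),w) ↦ ((y,-x),w)` -/
def CC0 (d : ℕ) : En d →L[ℝ] En d :=
  ((ContinuousLinearMap.snd ℝ ℝ ℝ).prod (-ContinuousLinearMap.fst ℝ ℝ ℝ)).prodMap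
    (ContinuousLinearMap.id ℝ (Wd d))

/-- Diagonalisation near a diagonalisable element with different eigenvalues. -/
theorem d0_gen {R : Type*} [NormedRing R] [NormedAlgebra ℝ R] [CompleteSpace R] {I : Type}
    [Fintype I] [DecidableEq I] (P : I → R) (hP : ∀ a, P a * P a = P a)
    (hPQ : ∀ a b, a ≠ b → P a * P b = 0) (hsum : ∑ a, P a = 1)
    (hrank : ∀ a M, ∃ m : ℝ, P a * M * P a = m • P a) (Λ : I → ℝ) (hΛ : Function.Injective Λ)
    {C0 C0i : R} (h1 : C0 * C0i = 1) (h2 : C0i * C0 = 1) {δ : ℝ} (hδ : 0 < δ) :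
    ∃ ε > (0 : ℝ), ∀ L : R, ‖L - C0 * (∑ a, Λ a • P a) * C0i‖ ≤ ε →
      ∃ (C C' : R) (Λ' : I → ℝ), C' * C = 1 ∧ C * C' = 1 ∧ L * C = C * ∑ a, Λ' a • P a ∧
        ‖C - C0‖ ≤ δ ∧ ∀ a, |Λ' a - Λ a| ≤ δ := by
  have hPD : ∀ b (l : I → ℝ), P b * ∑ a, l a • P a = l b • P b := by
    intro b l
    rw [Finset.mul_sum, Finset.sum_eq_single b]
    · rw [mul_smul_comm, hP]
    · intro a _ hab
      rw [mul_smul_comm, hPQ b a (Ne.symm hab), smul_zero]
    · intro h
      exact absurd (Finset.mem_univ b) h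
  have hDP : ∀ b (l : I → ℝ), (∑ a, l a • P a) * P b = l b • P b := by
    intro b l
    rw [Finset.sum_mul, Finset.sum_eq_single b]
    · rw [smul_mul_assoc, hP]
    · intro a _ hab
      rw [smul_mul_assoc, hPQ a b hab, smul_zero]
    · intro h
      exact absurd (Finset.mem_univ b) h
  obtain ⟨D', hD'⟩ : ∃ D' : (I → ℝ) →L[ℝ] R, ∀ l, D' l = ∑ a, l a • P a :=
    ⟨∑ a, (ContinuousLinearMap.proj (R := ℝ) (φ := fun _ : I => ℝ) a).smulRight (P a), fun l => by
      simp⟩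
  obtain ⟨Ψ, hΨ⟩ : ∃ Ψ : R × (I → ℝ) → R, ∀ p, Ψ p = C0 * (1 + p.1) * D' p.2 *
    Ring.inverse (1 + p.1) * C0i := ⟨_, fun _ => rfl⟩
  -- the derivative
  have hA : HasStrictFDerivAt (fun p : R × (I → ℝ) => 1 + p.1)
      (ContinuousLinearMap.fst ℝ R (I → ℝ)) (0, Λ) := hasStrictFDerivAt_fst.const_add 1
  have hB : HasStrictFDerivAt (fun p : R × (I → ℝ) => D' p.2)
      (D'.comp (ContinuousLinearMap.snd ℝ R (I → ℝ))) (0, Λ) :=
    (D'.comp (ContinuousLinearMap.snd ℝ R (I → ℝ))).hasStrictFDerivAt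
  have hC : HasStrictFDerivAt (fun p : R × (I → ℝ) => Ring.inverse (1 + p.1))
      (-ContinuousLinearMap.fst ℝ R (I → ℝ)) (0, Λ) := by
    have h3 := hasStrictFDerivAt_ringInverse (𝕜 := ℝ) (1 : Rˣ)
    have h4 : HasStrictFDerivAt Ring.inverse
        (-((ContinuousLinearMap.mulLeftRight ℝ R) ↑((1 : Rˣ)⁻¹)) ↑((1 : Rˣ)⁻¹)) (1 + (0 : R)) := by
      rw [add_zero]
      exact h3
    have h5 := HasStrictFDerivAt.comp ((0 : R), Λ) h4 hA
    have h6 : (-((ContinuousLinearMap.mulLeftRight ℝ R) ↑((1 : Rˣ)⁻¹)) ↑((1 : Rˣ)⁻¹)).comp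
        (ContinuousLinearMap.fst ℝ R (I → ℝ)) = -ContinuousLinearMap.fst ℝ R (I → ℝ) := by
      ext p <;> simp
    rw [h6] at h5
    exact h5
  have hd := (((hA.const_mul C0).mul' hB).mul' hC).mul_const' C0i
  obtain ⟨f', hf', hval⟩ : ∃ f' : (R × (I → ℝ)) →L[ℝ] R, HasStrictFDerivAt Ψ f' (0, Λ) ∧
      ∀ X l, f' (X, l) = C0 * (X * D' Λ + D' l - D' Λ * X) * C0i := by
    refine ⟨_, hd.congr_of_eventuallyEq (Filter.Eventually.of_forall fun p => (hΨ p).symm), ?_⟩
    intro X l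
    simp
    noncomm_ring
  have hsurj : (↑f' : R × (I → ℝ) →ₗ[ℝ] R).range = ⊤ := by
    rw [LinearMap.range_eq_top]
    intro M
    obtain ⟨N, hN⟩ : ∃ N, N = C0i * M * C0 := ⟨_, rfl⟩
    choose m hm using fun a => hrank a N
    obtain ⟨X, hX⟩ : ∃ X : R, X = ∑ a, ∑ b, (if a = b then (0 : ℝ) else (Λ b - Λ a)⁻¹) •
      (P a * N * P b) := ⟨_, rfl⟩
    refine ⟨(X, m), ?_⟩
    show f' (X, m) = M
    rw [hval]
    have e1 : X * D' Λ + D' m - D' Λ * X = N := by
      have e2 : X * D' Λ = ∑ a, ∑ b, ((if a = b then (0 : ℝ) else (Λ b - Λ a)⁻¹) * Λ b) •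
          (P a * N * P b) := by
        rw [hX, Finset.sum_mul]
        refine Finset.sum_congr rfl fun a _ => ?_
        rw [Finset.sum_mul]
        refine Finset.sum_congr rfl fun b _ => ?_
        rw [smul_mul_assoc, mul_assoc (P a * N), hD', hPD, mul_smul_comm, smul_smul]
      have e3 : D' Λ * X = ∑ a, ∑ b, ((if a = b then (0 : ℝ) else (Λ b - Λ a)⁻¹) * Λ a) •
          (P a * N * P b) := by
        rw [hX, Finset.mul_sum]
        refine Finset.sum_congr rfl fun a _ => ?_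
        rw [Finset.mul_sum]
        refine Finset.sum_congr rfl fun b _ => ?_
        rw [mul_smul_comm, mul_assoc (P a), ← mul_assoc (D' Λ), hD', hDP, smul_mul_assoc,
          smul_smul]
      have e4 : D' m = ∑ a, ∑ b, (if a = b then (1 : ℝ) else 0) • (P a * N * P b) := by
        rw [hD']
        refine Finset.sum_congr rfl fun a _ => ?_
        rw [← hm a, Finset.sum_eq_single a]
        · rw [if_pos rfl, one_smul]
        · intro b _ hab
          rw [if_neg (Ne.symm hab), zero_smul]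
        · intro h
          exact absurd (Finset.mem_univ a) h
      have e5 : N = ∑ a, ∑ b, P a * N * P b := by
        have e6 : N = (∑ a, P a) * N * (∑ b, P b) := by rw [hsum, one_mul, mul_one]
        conv_lhs => rw [e6]
        rw [Finset.sum_mul, Finset.sum_mul]
        refine Finset.sum_congr rfl fun a _ => ?_
        rw [Finset.mul_sum]
      rw [e2, e3, e4]
      conv_rhs => rw [e5]
      rw [← Finset.sum_add_distrib, ← Finset.sum_sub_distrib]
      refine Finset.sum_congr rfl fun a _ => ?_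
      rw [← Finset.sum_add_distrib, ← Finset.sum_sub_distrib]
      refine Finset.sum_congr rfl fun b _ => ?_
      rw [← add_smul, ← sub_smul]
      have e7 : (if a = b then (0 : ℝ) else (Λ b - Λ a)⁻¹) * Λ b + (if a = b then (1 : ℝ) else 0) -
          (if a = b then (0 : ℝ) else (Λ b - Λ a)⁻¹) * Λ a = 1 := by
        by_cases hab : a = b
        · rw [if_pos hab, if_pos hab]
          ring
        · rw [if_neg hab, if_neg hab]
          have h3 : Λ b - Λ a ≠ 0 := sub_ne_zero.2 (fun h => hab (hΛ h.symm))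
          field_simp
          ring
      rw [e7, one_smul]
    rw [e1, hN]
    calc C0 * (C0i * M * C0) * C0i = (C0 * C0i) * M * (C0 * C0i) := by noncomm_ring
      _ = M := by rw [h1, one_mul, mul_one]
  have hmap := hf'.map_nhds_eq_of_surj hsurj
  -- the neighbourhood
  have hS : ∀ᶠ p : R × (I → ℝ) in 𝓝 (0, Λ), IsUnit (1 + p.1) ∧ ‖C0 * (1 + p.1) - C0‖ ≤ δ ∧
      ∀ a, |p.2 a - Λ a| ≤ δ := by
    refine Filter.Eventually.and ?_ (Filter.Eventually.and ?_ ?_)
    · have h3 : Continuous fun p : R × (I → ℝ) => 1 + p.1 := by fun_prop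
      have h4 := Units.isOpen.preimage h3
      apply h4.mem_nhds
      show IsUnit (1 + (0 : R))
      rw [add_zero]
      exact isUnit_one
    · have h3 : Continuous fun p : R × (I → ℝ) => ‖C0 * (1 + p.1) - C0‖ := by fun_prop
      have h4 : Tendsto (fun p : R × (I → ℝ) => ‖C0 * (1 + p.1) - C0‖) (𝓝 (0, Λ)) (𝓝 0) := by
        have h5 := h3.tendsto ((0 : R), Λ)
        simpa using h5
      exact h4.eventually (Iic_mem_nhds hδ)
    · rw [Filter.eventually_all]
      intro a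
      have h3 : Continuous fun p : R × (I → ℝ) => |p.2 a - Λ a| := by fun_prop
      have h4 : Tendsto (fun p : R × (I → ℝ) => |p.2 a - Λ a|) (𝓝 (0, Λ)) (𝓝 0) := by
        have h5 := h3.tendsto ((0 : R), Λ)
        simpa using h5
      exact h4.eventually (Iic_mem_nhds hδ)
  have himg := Filter.image_mem_map (m := Ψ) hS
  rw [hmap] at himg
  obtain ⟨ε, hε, hball⟩ := Metric.nhds_basis_closedBall.mem_iff.1 himg
  refine ⟨ε, hε, fun L hL => ?_⟩
  have hΨ0 : Ψ (0, Λ) = C0 * (∑ a, Λ a • P a) * C0i := by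
    rw [hΨ, hD']
    simp
  have hLmem : L ∈ Metric.closedBall (Ψ (0, Λ)) ε := by
    rw [Metric.mem_closedBall, dist_eq_norm, hΨ0]
    exact hL
  obtain ⟨⟨X, l⟩, ⟨hu, hc, hl⟩, hXL⟩ := hball hLmem
  rw [hΨ] at hXL
  dsimp only at hu hc hl hXL
  have hi1 := Ring.inverse_mul_cancel _ hu
  have hi2 := Ring.mul_inverse_cancel _ hu
  refine ⟨C0 * (1 + X), Ring.inverse (1 + X) * C0i, l, ?_, ?_, ?_, hc, hl⟩
  · calc Ring.inverse (1 + X) * C0i * (C0 * (1 + X)) =
        Ring.inverse (1 + X) * (C0i * C0) * (1 + X) := by noncomm_ring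
      _ = 1 := by rw [h2, mul_one, hi1]
  · calc C0 * (1 + X) * (Ring.inverse (1 + X) * C0i) =
        C0 * ((1 + X) * Ring.inverse (1 + X)) * C0i := by noncomm_ring
      _ = 1 := by rw [hi2, mul_one, h1]
  · rw [← hXL, ← hD']
    calc C0 * (1 + X) * D' l * Ring.inverse (1 + X) * C0i * (C0 * (1 + X)) =
        C0 * (1 + X) * D' l * (Ring.inverse (1 + X) * (C0i * C0) * (1 + X)) := by noncomm_ring
      _ = C0 * (1 + X) * D' l := by rw [h2, mul_one, hi1, mul_one]

/-- the coordinate functionals -/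
def d0_phi (d : ℕ) : Option (Option (Fin d)) → (En d →L[ℝ] ℝ)
  | none => (ContinuousLinearMap.fst ℝ ℝ ℝ).comp (ContinuousLinearMap.fst ℝ Pt (Wd d))
  | some none => (ContinuousLinearMap.snd ℝ ℝ ℝ).comp (ContinuousLinearMap.fst ℝ Pt (Wd d))
  | some (some k) => (ContinuousLinearMap.proj (R := ℝ) (φ := fun _ : Fin d => ℝ) k).comp
      (ContinuousLinearMap.snd ℝ Pt (Wd d))

/-- the standard basis -/
def d0_e (d : ℕ) : Option (Option (Fin d)) → En d
  | none => ((1, 0), 0)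
  | some none => ((0, 1), 0)
  | some (some k) => ((0, 0), Pi.single k 1)

theorem d0_phi_e (d : ℕ) (a b : Option (Option (Fin d))) :
    d0_phi d a (d0_e d b) = if a = b then 1 else 0 := by
  rcases a with _ | _ | k <;> rcases b with _ | _ | l <;>
    simp [d0_phi, d0_e, Pi.single_apply]

theorem d0_sum (d : ℕ) (v : En d) : ∑ a, d0_phi d a v • d0_e d a = v := by
  rw [Fintype.sum_option, Fintype.sum_option]
  ext k
  · simp [d0_phi, d0_e, Prod.fst_sum]
  · simp [d0_phi, d0_e, Prod.fst_sum]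
  · simp [d0_phi, d0_e, Prod.snd_sum, Finset.sum_apply, Pi.single_apply]

/-- the projections -/
def d0_P (d : ℕ) (a : Option (Option (Fin d))) : En d →L[ℝ] En d :=
  (d0_phi d a).smulRight (d0_e d a)

theorem d0_P_apply (d : ℕ) (a : Option (Option (Fin d))) (v : En d) :
    d0_P d a v = d0_phi d a v • d0_e d a := rfl

theorem d0_dgD (d : ℕ) (Λ : Option (Option (Fin d)) → ℝ) :
    ∑ a, Λ a • d0_P d a = dgD (Λ none) (Λ (some none)) (fun k => Λ (some (some k))) := by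
  rw [Fintype.sum_option, Fintype.sum_option]
  apply ContinuousLinearMap.ext
  intro v
  rw [dgD_apply]
  ext k
  · simp [d0_P_apply, d0_phi, d0_e, Prod.fst_sum]
  · simp [d0_P_apply, d0_phi, d0_e, Prod.fst_sum]
  · simp [d0_P_apply, d0_phi, d0_e, Prod.snd_sum, Finset.sum_apply, Pi.single_apply, mulw]

/-- the inverse of `CC0` -/
def d0_C0i (d : ℕ) : En d →L[ℝ] En d :=
  ((-ContinuousLinearMap.snd ℝ ℝ ℝ).prod (ContinuousLinearMap.fst ℝ ℝ ℝ)).prodMap
    (ContinuousLinearMap.id ℝ (Wd d))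

theorem d0_awk_pos (d : ℕ) (k : Fin d) : 0 < awk d k ∧ awk d k ≤ 1 / 10 ^ 7 := by
  have hk : (k : ℝ) + 1 ≤ (d : ℝ) + 1 := by
    have h1 : (k : ℝ) ≤ (d : ℝ) := by exact_mod_cast k.2.le
    linarith
  have hk0 : 0 ≤ (k : ℝ) := Nat.cast_nonneg _
  have hd : 0 < 10 * ((d : ℝ) + 1) := by positivity
  have h2 : ((k : ℝ) + 1) / (10 * ((d : ℝ) + 1)) ≤ 1 / 10 := by
    rw [div_le_iff₀ hd]
    linarith
  have h3 : 0 ≤ ((k : ℝ) + 1) / (10 * ((d : ℝ) + 1)) := by positivity
  unfold awk aw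
  constructor
  · apply mul_pos (by norm_num)
    linarith
  · have h4 : (1 : ℝ) / 10 ^ 7 * (1 - ((k : ℝ) + 1) / (10 * ((d : ℝ) + 1))) ≤ 1 / 10 ^ 7 * 1 := by
      apply mul_le_mul_of_nonneg_left _ (by norm_num)
      linarith
    linarith

theorem d0_awk_inj (d : ℕ) {k l : Fin d} (h : awk d k = awk d l) : k = l := by
  unfold awk at h
  have h1 : (1 - ((k : ℝ) + 1) / (10 * ((d : ℝ) + 1))) = (1 - ((l : ℝ) + 1) / (10 * ((d : ℝ) + 1))) :=
    mul_left_cancel₀ (by unfold aw; norm_num) h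
  have hd : (10 * ((d : ℝ) + 1)) ≠ 0 := by positivity
  have h2 : ((k : ℝ) + 1) / (10 * ((d : ℝ) + 1)) = ((l : ℝ) + 1) / (10 * ((d : ℝ) + 1)) := by
    linarith
  rw [div_left_inj' hd] at h2
  have h3 : (k : ℝ) = (l : ℝ) := by linarith
  exact Fin.ext (by exact_mod_cast h3)

/-- the eigenvalues -/
def d0_lam (d : ℕ) (i : Sy) : Option (Option (Fin d)) → ℝ
  | none => qw i
  | some none => 1 / pw i
  | some (some k) => awk d k

theorem d0_lam_inj (d : ℕ) (i : Sy) : Function.Injective (d0_lam d i) := by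
  have hq : 1 / 10 ^ 6 < qw i := by cases i <;> norm_num [qw]
  have hp : 1 / 10 ^ 6 < 1 / pw i := by cases i <;> norm_num [pw]
  have hqp : qw i < 1 / pw i := by cases i <;> norm_num [pw, qw]
  intro a b hab
  rcases a with _ | _ | k <;> rcases b with _ | _ | l
  · rfl
  · exact absurd hab hqp.ne
  · have h1 : qw i = awk d l := hab
    have h2 := (d0_awk_pos d l).2
    norm_num at h2 hq
    linarith
  · exact absurd hab hqp.ne'
  · rfl
  · have h1 : 1 / pw i = awk d l := hab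
    have h2 := (d0_awk_pos d l).2
    norm_num at h2 hp h1
    linarith
  · have h1 : awk d k = qw i := hab
    have h2 := (d0_awk_pos d k).2
    norm_num at h2 hq
    linarith
  · have h1 : awk d k = 1 / pw i := hab
    have h2 := (d0_awk_pos d k).2
    norm_num at h2 hp h1
    linarith
  · have h1 : awk d k = awk d l := hab
    rw [d0_awk_inj d h1]

theorem d0_one (d : ℕ) (i : Sy) : ∃ ε > (0 : ℝ), ∀ (L : En d →L[ℝ] En d), ‖L - MdL d i‖ ≤ ε →
    ∃ (C C' : En d →L[ℝ] En d) (lam mu : ℝ) (al : Wd d), C'.comp C = ContinuousLinearMap.id ℝ _ ∧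
      C.comp C' = ContinuousLinearMap.id ℝ _ ∧ L.comp C = C.comp (dgD lam mu al) ∧
      ‖C - CC0 d‖ ≤ 1 / 10 ^ 12 ∧ |lam - qw i| ≤ 1 / 10 ^ 12 ∧ |mu - 1 / pw i| ≤ 1 / 10 ^ 12 ∧
      ∀ k, |al k - awk d k| ≤ 1 / (10 ^ 12 * ((d : ℝ) + 1)) := by
  have hδ : (0 : ℝ) < 1 / (10 ^ 12 * ((d : ℝ) + 1)) := by positivity
  have hδ' : (1 : ℝ) / (10 ^ 12 * ((d : ℝ) + 1)) ≤ 1 / 10 ^ 12 := by
    apply one_div_le_one_div_of_le (by norm_num)
    have h1 : (0 : ℝ) ≤ (d : ℝ) := Nat.cast_nonneg _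
    nlinarith
  have h1 : CC0 d * d0_C0i d = 1 := by
    apply ContinuousLinearMap.ext
    intro v
    ext k <;> simp [CC0, d0_C0i]
  have h2 : d0_C0i d * CC0 d = 1 := by
    apply ContinuousLinearMap.ext
    intro v
    ext k <;> simp [CC0, d0_C0i]
  obtain ⟨ε, hε, h⟩ := d0_gen (d0_P d) (by
    intro a
    apply ContinuousLinearMap.ext
    intro v
    rw [ContinuousLinearMap.mul_apply, d0_P_apply, d0_P_apply, map_smul, d0_phi_e, if_pos rfl,
      smul_eq_mul, mul_one]) (by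
    intro a b hab
    apply ContinuousLinearMap.ext
    intro v
    rw [ContinuousLinearMap.mul_apply, d0_P_apply, d0_P_apply, map_smul, d0_phi_e, if_neg hab,
      smul_zero, zero_smul, ContinuousLinearMap.zero_apply]) (by
    apply ContinuousLinearMap.ext
    intro v
    rw [ContinuousLinearMap.sum_apply]
    exact d0_sum d v) (by
    intro a M
    refine ⟨d0_phi d a (M (d0_e d a)), ?_⟩
    apply ContinuousLinearMap.ext
    intro v
    rw [ContinuousLinearMap.mul_apply, ContinuousLinearMap.mul_apply,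
      ContinuousLinearMap.smul_apply, d0_P_apply, d0_P_apply, map_smul, map_smul, smul_eq_mul,
      smul_smul, mul_comm]) (d0_lam d i) (d0_lam_inj d i) h1 h2 hδ
  refine ⟨ε, hε, fun L hL => ?_⟩
  have h3 : CC0 d * (∑ a, d0_lam d i a • d0_P d a) * d0_C0i d = MdL d i := by
    rw [d0_dgD]
    apply ContinuousLinearMap.ext
    intro v
    rw [ContinuousLinearMap.mul_apply, ContinuousLinearMap.mul_apply, dgD_apply, MdL, dgD_apply]
    ext k <;> simp [CC0, d0_C0i, d0_lam]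
  rw [h3] at h
  obtain ⟨C, C', Λ', k1, k2, k3, k4, k5⟩ := h L hL
  rw [d0_dgD] at k3
  exact ⟨C, C', Λ' none, Λ' (some none), fun k => Λ' (some (some k)), k1, k2, k3, k4.trans hδ',
    (k5 none).trans hδ', (k5 (some none)).trans hδ', fun k => k5 (some (some k))⟩

theorem exists_en (d : ℕ) : ∃ ε > (0 : ℝ), ∀ (i : Sy) (L : En d →L[ℝ] En d), ‖L - MdL d i‖ ≤ ε →
    ∃ (C C' : En d →L[ℝ] En d) (lam mu : ℝ) (al : Wd d), C'.comp C = ContinuousLinearMap.id ℝ _ ∧
      C.comp C' = ContinuousLinearMap.id ℝ _ ∧ L.comp C = C.comp (dgD lam mu al) ∧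
      ‖C - CC0 d‖ ≤ 1 / 10 ^ 12 ∧ |lam - qw i| ≤ 1 / 10 ^ 12 ∧ |mu - 1 / pw i| ≤ 1 / 10 ^ 12 ∧
      ∀ k, |al k - awk d k| ≤ 1 / (10 ^ 12 * ((d : ℝ) + 1)) := by
  obtain ⟨ε, hε, h⟩ := d0_one d Sy.P
  obtain ⟨ε', hε', h'⟩ := d0_one d Sy.Q
  refine ⟨min ε ε', lt_min hε hε', ?_⟩
  intro i L hL
  cases i
  · exact h L (hL.trans (min_le_left _ _))
  · exact h' L (hL.trans (min_le_right _ _))

/-- the closeness constant in dimension `2 + d` -/
def en (d : ℕ) : ℝ := min (min (exists_en d).choose e0) (1 / (10 ^ 12 * ((d : ℝ) + 1)))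

theorem en_pos (d : ℕ) : 0 < en d := by
  unfold en
  refine lt_min (lt_min (exists_en d).choose_spec.1 (by norm_num [e0])) (by positivity)

theorem en_le (d : ℕ) : en d ≤ e0 := (min_le_left _ _).trans (min_le_right _ _)

theorem diagonalizable {i : Sy} {L : En d →L[ℝ] En d} (h : ‖L - MdL d i‖ ≤ en d) :
    ∃ (C C' : En d →L[ℝ] En d) (lam mu : ℝ) (al : Wd d), C'.comp C = ContinuousLinearMap.id ℝ _ ∧
      C.comp C' = ContinuousLinearMap.id ℝ _ ∧ L.comp C = C.comp (dgD lam mu al) ∧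
      ‖C - CC0 d‖ ≤ 1 / 10 ^ 12 ∧ |lam - qw i| ≤ 1 / 10 ^ 12 ∧ |mu - 1 / pw i| ≤ 1 / 10 ^ 12 ∧
      ∀ k, |al k - awk d k| ≤ 1 / (10 ^ 12 * ((d : ℝ) + 1)) :=
  (exists_en d).choose_spec.2 i L (h.trans ((min_le_left _ _).trans (min_le_left _ _)))

/-- `NearD` with the closeness `en d` and the model rates `awk d`; for all sections except A -/
structure NearS (g : En d → En d) : Prop extends NearD g where
  closeS : ∀ i, ∀ z ∈ VVd d i, ‖fderiv ℝ g z - MdL d i‖ ≤ en d
  foldS : ∀ z ∈ FFd d, ‖fderiv ℝ g z - FoldL d z‖ ≤ en d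
  wvalS : ∀ z ∈ Dd d, ‖(g z).2 - mulw (awk d) z.2‖ ≤ en d

/-- the box in which perturbations are supported -/
def K0D (d : ℕ) : Set (En d) := K0 ×ˢ Metric.closedBall 0 4

/-- small perturbations of the identity -/
structure SmallD (R : ℕ) (ε : ℝ) (ψ : En d → En d) : Prop where
  smooth : ContDiff ℝ ∞ ψ
  supp : ∀ z, z ∉ K0D d → ψ z = z
  bound : ∀ j ≤ R, ∀ z, ‖iteratedFDeriv ℝ j (fun z => ψ z - z) z‖ ≤ ε

/-- sets of maps which are open for perturbations (after the map) that are small in `C^R` -/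
def PertOpenD (R : ℕ) (U : Set (En d → En d)) : Prop :=
  ∀ g ∈ U, ∃ ε > (0 : ℝ), ∀ ψ, SmallD R ε ψ → ψ ∘ g ∈ U

/-- a centre spot: a smooth disc of periodic points in `Omd d` -/
def CentreSpot (g : En d → En d) : Prop :=
  ∃ K : ℕ, 0 < K ∧ ∃ ι : Pt → En d, (∀ᶠ v in 𝓝 (0 : Pt), ContDiffAt ℝ ∞ ι v) ∧
    Function.Injective (fderiv ℝ ι 0) ∧
    ∀ᶠ v in 𝓝 (0 : Pt), (∀ i < K, g^[i] (ι v) ∈ Omd d) ∧ g^[K] (ι v) = ι v

end

end Pool.Agent.Lib.H37D
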