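import Pool.Agent.Lib.H37N.T2
import Pool.Agent.Lib.H37N.T5d
import Pool.Agent.Lib.H37N.T5b

/-! # H37D, chunk DB00 (M, pure): Taylor formula with multilinear maps and parameters, homogeneous parts -/

open Set Filter Topology Asymptotics
open scoped ContDiff

namespace Pool.Agent.Lib.H37D

open Pool.Agent.Lib.H37N

variable {P E W : Type} [NormedAddCommGroup P] [NormedSpace ℝ P] [FiniteDimensional ℝ P]
  [NormedAddCommGroup E] [NormedSpace ℝ E] [FiniteDimensional ℝ E]
  [NormedAddCommGroup W] [NormedSpace ℝ W] [FiniteDimensional ℝ W]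

/-- One step.

PROOF. `hadamard` for G (values in the finite-dimensional, hence complete, space E [×n]→L W): G(p,v) = G(p,0) + H(p,v) v with H(p,v) : E →L (E [×n]→L W), smooth.  Put
G'(p,v) = (H(p,v)).uncurryLeft (`ContinuousLinearMap.uncurryLeft`; smooth: it is the continuous linear equivalence (`continuousMultilinearCurryLeftEquiv ℝ (fun _ : Fin (n+1) => E) W`).symm
composed with H; `ContinuousLinearMap.uncurryLeft_apply`: (uncurryLeft f) m = f (m 0) (tail m), and tail (fun _ => v) = fun _ => v). -/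
theorem db00_step {n : ℕ} {G : P × E → (E [×n]→L[ℝ] W)} (hG : ContDiff ℝ ∞ G) :
    ∃ G' : P × E → (E [×(n + 1)]→L[ℝ] W), ContDiff ℝ ∞ G' ∧
      ∀ p v, G (p, v) (fun _ => v) = G (p, 0) (fun _ => v) + G' (p, v) (fun _ => v) := by
  have : CompleteSpace W := FiniteDimensional.complete ℝ W
  obtain ⟨H, hH, hH2, -⟩ := hadamard (P := P) (E := E) (W := E [×n]→L[ℝ] W) hG
  refine ⟨fun q => (continuousMultilinearCurryLeftEquiv ℝ (fun _ : Fin (n + 1) => E) W).symm (H q), ?_, ?_⟩
  · exact (continuousMultilinearCurryLeftEquiv ℝ (fun _ : Fin (n + 1) => E) W).symm.contDiff.comp hH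
  · intro p v
    have h1 := congrArg (fun M : E [×n]→L[ℝ] W => M (fun _ => v)) (hH2 p v)
    simp only [add_apply] at h1
    rw [h1]
    congr 1

noncomputable def db00_seq (F : P × E → W) (hF : ContDiff ℝ ∞ F) :
    (n : ℕ) → {G : P × E → (E [×n]→L[ℝ] W) // ContDiff ℝ ∞ G}
  | 0 => ⟨fun q => (continuousMultilinearCurryFin0 ℝ E W).symm (F q),
      (continuousMultilinearCurryFin0 ℝ E W).symm.contDiff.comp hF⟩
  | n + 1 => ⟨(db00_step (db00_seq F hF n).2).choose, (db00_step (db00_seq F hF n).2).choose_spec.1⟩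

/-- Taylor formula with multilinear maps and parameters.

PROOF. Define recursively (choice, `db00_step`) smooth G_n : P × E → (E [×n]→L W), G_0(p,v) = the constant map with value F(p,v)
(`ContinuousMultilinearMap.constOfIsEmpty` or `(continuousMultilinearCurryFin0 ℝ E W).symm`), G_(n+1) from G_n.  M n p = G_n(p,0) (smooth).  Induction on n:
F(p,v) = Σ_(k<n) M k p (v,..,v) + G_n(p,v)(v,..,v) (`Finset.sum_range_succ`). -/
theorem taylorM {F : P × E → W} (hF : ContDiff ℝ ∞ F) :
    ∃ M : (k : ℕ) → P → (E [×k]→L[ℝ] W), (∀ k, ContDiff ℝ ∞ (M k)) ∧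
      ∀ n, ∃ G : P × E → (E [×n]→L[ℝ] W), ContDiff ℝ ∞ G ∧ (∀ p, G (p, 0) = M n p) ∧
        ∀ p v, F (p, v) = ∑ k ∈ Finset.range n, M k p (fun _ => v) + G (p, v) (fun _ => v) := by
  refine ⟨fun k p => (db00_seq F hF k).1 (p, 0), fun k => ?_, fun n => ?_⟩
  · exact (db00_seq F hF k).2.comp (contDiff_id.prodMk contDiff_const)
  · refine ⟨(db00_seq F hF n).1, (db00_seq F hF n).2, fun p => rfl, fun p v => ?_⟩
    induction n with
    | zero =>
      simp only [Finset.range_zero, Finset.sum_empty, zero_add]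
      simp [db00_seq]
    | succ n ih =>
      rw [Finset.sum_range_succ, ih, add_assoc]
      congr 1
      exact (db00_step (db00_seq F hF n).2).choose_spec.2 p v

/-- PROOF. M (v,..,v) is bounded by ‖M‖ ‖v‖^n (`ContinuousMultilinearMap.le_opNorm`, `Finset.prod_const`, `Finset.card_univ`, `Fintype.card_fin`); for a continuous family G the norm ‖G v‖ is
bounded near 0. -/
theorem multi_isBigO {n : ℕ} {G : E → (E [×n]→L[ℝ] W)} (hG : ContinuousAt G 0) :
    (fun v => G v (fun _ => v)) =O[𝓝 0] fun v => ‖v‖ ^ n := by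
  have h1 : ∀ᶠ v in 𝓝 (0 : E), ‖G v‖ < ‖G 0‖ + 1 := by
    exact (hG.norm).eventually (gt_mem_nhds (by linarith))
  refine IsBigO.of_bound (‖G 0‖ + 1) (h1.mono fun v hv => ?_)
  have h2 := (G v).le_opNorm (fun _ => v)
  rw [Finset.prod_const, Finset.card_univ, Fintype.card_fin] at h2
  rw [norm_pow, norm_norm]
  exact h2.trans (mul_le_mul_of_nonneg_right hv.le (by positivity))

/-- The homogeneous part of order n.

PROOF. `taylorM` with P = ℝ for F(p,v) = f v (p = 0): f v = Σ_(k<n+1) M k 0 (v,..,v) + G(0,v)(v,..,v) with G of degree n+1, the last term is O(‖v‖^(n+1)) (`multi_isBigO`).  If n = 0: M = M 0 0.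
If n ≥ 1, fix v.  The function t ↦ f (t • v) is O(t^n) at 0 (composition with t ↦ t • v), and M k 0 (t v,..,t v) = t^k M k 0 (v,..,v) (`ContinuousMultilinearMap.map_smul_univ`), so
Σ_(k ≤ n-1) t^k M k 0 (v,..,v) = O(t^n), and `poly1_unique` (with k = n - 1) gives M k 0 (v,..,v) = 0 for k < n.  So f v - M n 0 (v,..,v) = G(0,v)(v,..,v). -/
theorem homog_partM {f : E → W} (hf : ContDiff ℝ ∞ f) (n : ℕ) (h : f =O[𝓝 0] fun v => ‖v‖ ^ n) :
    ∃ M : (E [×n]→L[ℝ] W), (fun v => f v - M (fun _ => v)) =O[𝓝 0] fun v => ‖v‖ ^ (n + 1) := by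
  obtain ⟨M, hM, hT⟩ := taylorM (P := ℝ) (E := E) (W := W) (F := fun q => f q.2) (hf.comp contDiff_snd)
  obtain ⟨G, hG, -, hGT⟩ := hT (n + 1)
  have hrem : (fun v => G (0, v) (fun _ => v)) =O[𝓝 0] fun v => ‖v‖ ^ (n + 1) := by
    refine multi_isBigO (G := fun v => G (0, v)) ?_
    exact (hG.continuous.comp (by fun_prop : Continuous fun v : E => ((0 : ℝ), v))).continuousAt
  have hzero : ∀ k, k < n → ∀ v, M k 0 (fun _ => v) = 0 := by
    intro k hk v
    obtain ⟨m, rfl⟩ : ∃ m, n = m + 1 := ⟨n - 1, by omega⟩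
    have hdir : Tendsto (fun t : ℝ => t • v) (𝓝 0) (𝓝 0) := by
      have : Continuous fun t : ℝ => t • v := by fun_prop
      simpa using this.tendsto 0
    have hnorm : ∀ j : ℕ, (fun t : ℝ => ‖t • v‖ ^ j) =O[𝓝 0] fun t : ℝ => t ^ j := by
      intro j
      refine IsBigO.of_bound (‖v‖ ^ j) (Eventually.of_forall fun t => ?_)
      rw [norm_smul, mul_pow, norm_mul, norm_pow, norm_norm, norm_pow, norm_pow, norm_norm, mul_comm]
    have a1 : (fun t : ℝ => f (t • v)) =O[𝓝 0] fun t : ℝ => t ^ (m + 1) :=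
      (h.comp_tendsto hdir).trans (hnorm _)
    have a2 : (fun t : ℝ => G (0, t • v) (fun _ => t • v)) =O[𝓝 0] fun t : ℝ => t ^ (m + 1) := by
      have b1 := (hrem.comp_tendsto hdir).trans (hnorm (m + 1 + 1))
      refine b1.trans ?_
      have b2 : (fun t : ℝ => t ^ (m + 1 + 1)) =O[𝓝 0] fun t : ℝ => t ^ (m + 1) := by
        have : (fun t : ℝ => t ^ (m + 1 + 1)) = fun t : ℝ => t * t ^ (m + 1) := by
          funext t; ring
        rw [this]
        have b3 : (fun t : ℝ => t) =O[𝓝 0] fun _ : ℝ => (1 : ℝ) := by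
          exact (continuous_id.continuousAt (x := (0 : ℝ))).norm.isBoundedUnder_le.isBigO_one ℝ
        simpa using b3.mul (isBigO_refl (fun t : ℝ => t ^ (m + 1)) (𝓝 0))
      exact b2
    have a3 : (fun t : ℝ => M (m + 1) 0 (fun _ => t • v)) =O[𝓝 0] fun t : ℝ => t ^ (m + 1) := by
      have : (fun t : ℝ => M (m + 1) 0 (fun _ => t • v)) = fun t : ℝ => t ^ (m + 1) • M (m + 1) 0 (fun _ => v) := by
        funext t
        have := (M (m + 1) 0).map_smul_univ (fun _ => t) (fun _ => v)
        simpa using this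
      rw [this]
      refine IsBigO.of_bound ‖M (m + 1) 0 (fun _ => v)‖ (Eventually.of_forall fun t => ?_)
      rw [norm_smul, mul_comm]
    have a4 : (fun t : ℝ => ∑ j ∈ Finset.range (m + 1), t ^ j • M j 0 (fun _ => v)) =O[𝓝 0]
        fun t : ℝ => t ^ (m + 1) := by
      have : (fun t : ℝ => ∑ j ∈ Finset.range (m + 1), t ^ j • M j 0 (fun _ => v)) =
          fun t : ℝ => f (t • v) - M (m + 1) 0 (fun _ => t • v) - G (0, t • v) (fun _ => t • v) := by
        funext t
        have := hGT 0 (t • v)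
        simp only at this
        rw [this, Finset.sum_range_succ _ (m + 1)]
        have e : ∀ j, M j 0 (fun _ => t • v) = t ^ j • M j 0 (fun _ => v) := by
          intro j
          have := (M j 0).map_smul_univ (fun _ => t) (fun _ => v)
          simpa using this
        simp only [e]
        abel
      rw [this]
      exact (a1.sub a3).sub a2
    exact poly1_unique m (fun j => M j 0 (fun _ => v)) a4 k (by omega)
  refine ⟨M n 0, ?_⟩
  have : (fun v => f v - M n 0 (fun _ => v)) = fun v => G (0, v) (fun _ => v) := by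
    funext v
    have := hGT 0 v
    simp only at this
    rw [this, Finset.sum_range_succ, Finset.sum_eq_zero (fun k hk => hzero k (Finset.mem_range.1 hk) v)]
    abel
  rw [this]
  exact hrem

end Pool.Agent.Lib.H37D
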