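import Pool.Agent.Lib.H37D.Bas0
import Pool.Agent.Lib.H37N.B01

/-! # H37D, chunk DB01 (M): elementary facts on near maps on the strips (pattern: H37N/B01.lean) -/

open Set Filter Topology
open scoped ContDiff

namespace Pool.Agent.Lib.H37D

open Pool.Agent.Lib.H37N

variable {d : ℕ} {g : En d → En d} {i : Sy}

/-- PROOF. `interior_prod_eq`, `interior_closedBall` (radius 1 ≠ 0). -/
theorem mem_interior_VVd {z : En d} : z ∈ interior (VVd d i) ↔ z.1 ∈ interior (VV i) ∧ ‖z.2‖ < 1 := by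
  unfold VVd BW
  rw [interior_prod_eq, interior_closedBall _ one_ne_zero, mem_prod, mem_ball_zero_iff]

/-- PROOF. `VV_sub_interior_K0`, `interior_prod_eq`, the unit ball is in the ball of radius 4. -/
theorem VVd_sub_interior_K0D (i : Sy) : VVd d i ⊆ interior (K0D d) := by
  intro z hz
  rw [mem_VVd] at hz
  unfold K0D
  rw [interior_prod_eq, interior_closedBall _ (by norm_num), mem_prod, mem_ball_zero_iff]
  exact ⟨VV_sub_interior_K0 i hz.1, by linarith [hz.2]⟩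

theorem not_mem_VVd_of_ne {j : Sy} (hij : i ≠ j) {z : En d} (hz : z ∈ VVd d i) : z ∉ VVd d j := by
  intro hz'
  exact not_mem_VV_of_ne hij (mem_VVd.1 hz).1 (mem_VVd.1 hz').1

/-- PROOF. `hg.smooth` gives an open O; `ContDiffOn.contDiffAt` at every w ∈ O, and O is a neighbourhood of z. -/
theorem NearD.contDiffAt (hg : NearD g) {z : En d} (hz : z ∈ Dd d) : ∀ᶠ w in 𝓝 z, ContDiffAt ℝ ∞ g w := by
  obtain ⟨O, hO, hsub, hs, -, -⟩ := hg.smooth
  filter_upwards [hO.mem_nhds (hsub hz)] with w hw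
  exact hs.contDiffAt (hO.mem_nhds hw)

theorem NearD.bij (hg : NearD g) {z : En d} (hz : z ∈ Dd d) : Function.Bijective (fderiv ℝ g z) := by
  obtain ⟨O, hO, hsub, hs, -, hb⟩ := hg.smooth
  exact hb z (hsub hz)

theorem db01_norms (v : En d) : |v.1.1| ≤ ‖v‖ ∧ |v.1.2| ≤ ‖v‖ ∧ ‖v.2‖ ≤ ‖v‖ := by
  have h1 := norm_fst_le v
  have h2 := norm_fst_le v.1
  have h3 := norm_snd_le v.1
  rw [Real.norm_eq_abs] at h2 h3
  exact ⟨h2.trans h1, h3.trans h1, norm_snd_le v⟩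

theorem db01_split (L : En d →L[ℝ] En d) (v : En d) :
    L v = v.1.1 • L (eX d) + v.1.2 • L (eY d) + L (0, v.2) := by
  have hv : v = v.1.1 • eX d + v.1.2 • eY d + ((0 : Pt), v.2) := by
    unfold eX eY
    ext <;> simp
  conv_lhs => rw [hv]
  rw [map_add, map_add, map_smul, map_smul]

/-- PROOF. v = v.1.1 • eX + v.1.2 • eY + (0, v.2), linearity, `hg.close1`, `hg.wx`, `hg.ww`, |v.1.1|, |v.1.2|, ‖v.2‖ ≤ ‖v‖ (sup norm).  Each of the two planar components has three error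
terms, each at most e0 ‖v‖. -/
theorem NearD.deriv_apply (hg : NearD g) {z : En d} (hz : z ∈ VVd d i) (v : En d) :
    |(fderiv ℝ g z v).1.1 - v.1.1 / pw i| ≤ 3 * e0 * ‖v‖ ∧ |(fderiv ℝ g z v).1.2 - qw i * v.1.2| ≤ 3 * e0 * ‖v‖ ∧
      ‖(fderiv ℝ g z v).2‖ ≤ aw * ‖v.2‖ + 2 * e0 * ‖v‖ := by
  obtain ⟨c1, c2, c3, c4⟩ := hg.close1 i z hz
  obtain ⟨w1, w2⟩ := hg.wx z (VVd_sub_Dd i hz)
  obtain ⟨u1, u2⟩ := hg.ww z (VVd_sub_Dd i hz) v.2
  obtain ⟨n1, n2, n3⟩ := db01_norms v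
  have he : (0 : ℝ) ≤ e0 := by unfold e0; positivity
  set L := fderiv ℝ g z with hL
  have hu1 : |(L ((0 : Pt), v.2)).1.1| ≤ e0 * ‖v‖ := by
    have h2 := norm_fst_le (L ((0 : Pt), v.2)).1
    rw [Real.norm_eq_abs] at h2
    calc _ ≤ _ := h2
      _ ≤ e0 * ‖v.2‖ := u1
      _ ≤ e0 * ‖v‖ := by gcongr
  have hu2 : |(L ((0 : Pt), v.2)).1.2| ≤ e0 * ‖v‖ := by
    have h2 := norm_snd_le (L ((0 : Pt), v.2)).1
    rw [Real.norm_eq_abs] at h2
    calc _ ≤ _ := h2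
      _ ≤ e0 * ‖v.2‖ := u1
      _ ≤ e0 * ‖v‖ := by gcongr
  have hs := db01_split L v
  refine ⟨?_, ?_, ?_⟩
  · have h1 : (L v).1.1 - v.1.1 / pw i
        = v.1.1 * ((L (eX d)).1.1 - 1 / pw i) + v.1.2 * (L (eY d)).1.1 + (L ((0 : Pt), v.2)).1.1 := by
      rw [hs]
      simp only [Prod.fst_add, Prod.smul_fst, smul_eq_mul]
      ring
    rw [h1]
    calc _ ≤ |v.1.1 * ((L (eX d)).1.1 - 1 / pw i) + v.1.2 * (L (eY d)).1.1| +
          |(L ((0 : Pt), v.2)).1.1| := abs_add_le _ _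
      _ ≤ |v.1.1 * ((L (eX d)).1.1 - 1 / pw i)| + |v.1.2 * (L (eY d)).1.1| +
          |(L ((0 : Pt), v.2)).1.1| := by
          gcongr
          exact abs_add_le _ _
      _ = |v.1.1| * |(L (eX d)).1.1 - 1 / pw i| + |v.1.2| * |(L (eY d)).1.1| +
          |(L ((0 : Pt), v.2)).1.1| := by rw [abs_mul, abs_mul]
      _ ≤ ‖v‖ * e0 + ‖v‖ * e0 + e0 * ‖v‖ := by gcongr
      _ = 3 * e0 * ‖v‖ := by ring
  · have h1 : (L v).1.2 - qw i * v.1.2
        = v.1.1 * (L (eX d)).1.2 + v.1.2 * ((L (eY d)).1.2 - qw i) + (L ((0 : Pt), v.2)).1.2 := by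
      rw [hs]
      simp only [Prod.fst_add, Prod.smul_fst, Prod.snd_add, Prod.smul_snd, smul_eq_mul]
      ring
    rw [h1]
    calc _ ≤ |v.1.1 * (L (eX d)).1.2 + v.1.2 * ((L (eY d)).1.2 - qw i)| +
          |(L ((0 : Pt), v.2)).1.2| := abs_add_le _ _
      _ ≤ |v.1.1 * (L (eX d)).1.2| + |v.1.2 * ((L (eY d)).1.2 - qw i)| +
          |(L ((0 : Pt), v.2)).1.2| := by
          gcongr
          exact abs_add_le _ _
      _ = |v.1.1| * |(L (eX d)).1.2| + |v.1.2| * |(L (eY d)).1.2 - qw i| +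
          |(L ((0 : Pt), v.2)).1.2| := by rw [abs_mul, abs_mul]
      _ ≤ ‖v‖ * e0 + ‖v‖ * e0 + e0 * ‖v‖ := by gcongr
      _ = 3 * e0 * ‖v‖ := by ring
  · have h1 : (L v).2 = v.1.1 • (L (eX d)).2 + v.1.2 • (L (eY d)).2 + (L ((0 : Pt), v.2)).2 := by
      rw [hs]
      simp only [Prod.snd_add, Prod.smul_snd]
    rw [h1]
    calc _ ≤ ‖v.1.1 • (L (eX d)).2 + v.1.2 • (L (eY d)).2‖ + ‖(L ((0 : Pt), v.2)).2‖ :=
          norm_add_le _ _
      _ ≤ ‖v.1.1 • (L (eX d)).2‖ + ‖v.1.2 • (L (eY d)).2‖ + ‖(L ((0 : Pt), v.2)).2‖ := by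
          gcongr
          exact norm_add_le _ _
      _ = |v.1.1| * ‖(L (eX d)).2‖ + |v.1.2| * ‖(L (eY d)).2‖ + ‖(L ((0 : Pt), v.2)).2‖ := by
          rw [norm_smul, norm_smul, Real.norm_eq_abs, Real.norm_eq_abs]
      _ ≤ ‖v‖ * e0 + ‖v‖ * e0 + aw * ‖v.2‖ := by gcongr
      _ = aw * ‖v.2‖ + 2 * e0 * ‖v‖ := by ring

theorem db01_convex : Convex ℝ (VVd d i) :=
  ((convex_Icc _ _).prod (convex_Icc _ _)).prod (convex_closedBall _ _)

theorem db01_seg {W : Type} [NormedAddCommGroup W] [NormedSpace ℝ W] {h : En d → W}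
    {h' : En d → En d →L[ℝ] W} {C : ℝ} {z z' : En d} (hz : z ∈ VVd d i) (hz' : z' ∈ VVd d i)
    (hd : ∀ x ∈ VVd d i, HasFDerivAt h (h' x) x) (hb : ∀ x ∈ VVd d i, ‖h' x (z - z')‖ ≤ C) :
    ‖h z - h z'‖ ≤ C := by
  have hmem : ∀ t ∈ Icc (0 : ℝ) 1, z' + t • (z - z') ∈ VVd d i := fun t ht =>
    db01_convex.add_smul_sub_mem hz' hz ht
  have h1 : ∀ t ∈ Icc (0 : ℝ) 1, HasDerivWithinAt (fun t : ℝ => h (z' + t • (z - z')))
      (h' (z' + t • (z - z')) (z - z')) (Icc (0 : ℝ) 1) t := by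
    intro t ht
    have h2 : HasDerivAt (fun t : ℝ => z' + t • (z - z')) (z - z') t := by
      simpa using ((hasDerivAt_id t).smul_const (z - z')).const_add z'
    exact ((hd _ (hmem t ht)).comp_hasDerivAt t h2).hasDerivWithinAt
  have h3 := norm_image_sub_le_of_norm_deriv_le_segment_01' h1
    (fun t ht => hb _ (hmem t ⟨ht.1, ht.2.le⟩))
  simpa using h3

/-- Mean value estimates on a strip.

PROOF. VVd d i is convex.  Put φ(t) = g (z' + t • (z - z')) - (linear part): on [0,1] the point is in VVd d i, φ has the derivative fderiv g (..) (z - z') - ..., whose components are bounded by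
`NearD.deriv_apply` with v = z - z'; `norm_image_sub_le_of_norm_deriv_le_segment_01'` (or `Convex.norm_image_sub_le_of_norm_hasFDerivWithin_le` for the first two, as in H37N/B01.lean `Near.diff`). -/
theorem NearD.diff (hg : NearD g) {z z' : En d} (hz : z ∈ VVd d i) (hz' : z' ∈ VVd d i) :
    |(g z).1.1 - (g z').1.1 - (z.1.1 - z'.1.1) / pw i| ≤ 3 * e0 * ‖z - z'‖ ∧
      |(g z).1.2 - (g z').1.2 - qw i * (z.1.2 - z'.1.2)| ≤ 3 * e0 * ‖z - z'‖ ∧
      ‖(g z).2 - (g z').2‖ ≤ aw * ‖z.2 - z'.2‖ + 2 * e0 * ‖z - z'‖ := by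
  have hd : ∀ x ∈ VVd d i, HasFDerivAt g (fderiv ℝ g x) x := by
    intro x hx
    have h1 : ContDiffAt ℝ ∞ g x := (hg.contDiffAt (VVd_sub_Dd i hx)).self_of_nhds
    exact (h1.differentiableAt (by simp)).hasFDerivAt
  refine ⟨?_, ?_, ?_⟩
  · have h1 : ∀ x ∈ VVd d i, HasFDerivAt (fun z : En d => (g z).1.1 - (1 / pw i) * z.1.1)
        ((((ContinuousLinearMap.fst ℝ ℝ ℝ).comp (ContinuousLinearMap.fst ℝ Pt (Wd d))).comp
          (fderiv ℝ g x)) - (1 / pw i) •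
          ((ContinuousLinearMap.fst ℝ ℝ ℝ).comp (ContinuousLinearMap.fst ℝ Pt (Wd d)))) x := by
      intro x hx
      have ha : HasFDerivAt (fun z : En d => (g z).1.1)
          (((ContinuousLinearMap.fst ℝ ℝ ℝ).comp (ContinuousLinearMap.fst ℝ Pt (Wd d))).comp
            (fderiv ℝ g x)) x :=
        ((ContinuousLinearMap.fst ℝ ℝ ℝ).comp
          (ContinuousLinearMap.fst ℝ Pt (Wd d))).hasFDerivAt.comp x (hd x hx)
      have hb : HasFDerivAt (fun z : En d => (1 / pw i) * z.1.1)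
          ((1 / pw i) • ((ContinuousLinearMap.fst ℝ ℝ ℝ).comp
            (ContinuousLinearMap.fst ℝ Pt (Wd d)))) x :=
        ((ContinuousLinearMap.fst ℝ ℝ ℝ).comp
          (ContinuousLinearMap.fst ℝ Pt (Wd d))).hasFDerivAt.const_mul (1 / pw i)
      exact ha.sub hb
    have h5 := db01_seg hz hz' h1 (C := 3 * e0 * ‖z - z'‖) (by
      intro x hx
      have h3 := (hg.deriv_apply hx (z - z')).1
      rw [Real.norm_eq_abs]
      refine le_trans (le_of_eq ?_) h3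
      congr 1
      simp [div_eq_inv_mul])
    rw [Real.norm_eq_abs] at h5
    refine le_trans (le_of_eq ?_) h5
    congr 1
    ring
  · have h1 : ∀ x ∈ VVd d i, HasFDerivAt (fun z : En d => (g z).1.2 - (qw i) * z.1.2)
        ((((ContinuousLinearMap.snd ℝ ℝ ℝ).comp (ContinuousLinearMap.fst ℝ Pt (Wd d))).comp
          (fderiv ℝ g x)) - (qw i) •
          ((ContinuousLinearMap.snd ℝ ℝ ℝ).comp (ContinuousLinearMap.fst ℝ Pt (Wd d)))) x := by
      intro x hx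
      have ha : HasFDerivAt (fun z : En d => (g z).1.2)
          (((ContinuousLinearMap.snd ℝ ℝ ℝ).comp (ContinuousLinearMap.fst ℝ Pt (Wd d))).comp
            (fderiv ℝ g x)) x :=
        ((ContinuousLinearMap.snd ℝ ℝ ℝ).comp
          (ContinuousLinearMap.fst ℝ Pt (Wd d))).hasFDerivAt.comp x (hd x hx)
      have hb : HasFDerivAt (fun z : En d => (qw i) * z.1.2)
          ((qw i) • ((ContinuousLinearMap.snd ℝ ℝ ℝ).comp
            (ContinuousLinearMap.fst ℝ Pt (Wd d)))) x :=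
        ((ContinuousLinearMap.snd ℝ ℝ ℝ).comp
          (ContinuousLinearMap.fst ℝ Pt (Wd d))).hasFDerivAt.const_mul (qw i)
      exact ha.sub hb
    have h5 := db01_seg hz hz' h1 (C := 3 * e0 * ‖z - z'‖) (by
      intro x hx
      have h3 := (hg.deriv_apply hx (z - z')).2.1
      rw [Real.norm_eq_abs]
      exact h3)
    rw [Real.norm_eq_abs] at h5
    refine le_trans (le_of_eq ?_) h5
    congr 1
    ring
  · have h1 : ∀ x ∈ VVd d i, HasFDerivAt (fun z : En d => (g z).2)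
        ((ContinuousLinearMap.snd ℝ Pt (Wd d)).comp (fderiv ℝ g x)) x := fun x hx =>
      (ContinuousLinearMap.snd ℝ Pt (Wd d)).hasFDerivAt.comp x (hd x hx)
    have h5 := db01_seg hz hz' h1 (C := aw * ‖z.2 - z'.2‖ + 2 * e0 * ‖z - z'‖) (by
      intro x hx
      have h3 := (hg.deriv_apply hx (z - z')).2.2
      rw [Prod.snd_sub] at h3
      rw [ContinuousLinearMap.comp_apply, ContinuousLinearMap.coe_snd']
      exact h3)
    exact h5

end Pool.Agent.Lib.H37D
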