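import Pool.Agent.Lib.H37D.DB01
import Pool.Agent.Lib.H37N.B02

/-! # H37D, chunk DB02 (M): fixed points (port of H37N/B02.lean) -/

open Set Filter Topology
open scoped ContDiff

namespace Pool.Agent.Lib.H37D

open Pool.Agent.Lib.H37N

variable {d : ℕ}

/-- The contraction whose fixed points are the fixed points of g in VVd d i. -/
noncomputable def db02Phi (g : En d → En d) (i : Sy) (z : En d) : En d :=
  ((z.1.1 - pw i / (1 - pw i) * ((g z).1.1 - z.1.1), (g z).1.2), (g z).2)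

/-- PROOF. As `b02_contr` in H37N/B02.lean: κ = pw/(1-pw) ≤ 4, 1 + κ = κ/pw; first component at most 12 e0 ‖z-z'‖, second at most qw |..| + 3 e0 ‖z-z'‖, third at most aw ‖..‖ + 2 e0 ‖z-z'‖
(`NearD.diff`). -/
theorem db02_contr {g : En d → En d} (hg : NearD g) {i : Sy} {z z' : En d} (hz : z ∈ VVd d i) (hz' : z' ∈ VVd d i) :
    ‖db02Phi g i z - db02Phi g i z'‖ ≤ 51 / 100 * ‖z - z'‖ := by
  obtain ⟨d1, d2, d3⟩ := hg.diff hz hz'
  obtain ⟨p0, p1, p4, pp⟩ := b02_pw i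
  obtain ⟨n1, n2, n3⟩ := db01_norms (z - z')
  rw [Prod.fst_sub, Prod.snd_sub] at n2
  rw [Prod.snd_sub] at n3
  have nn : 0 ≤ ‖z - z'‖ := norm_nonneg _
  rw [Prod.norm_def, Prod.norm_def]
  apply max_le
  · apply max_le
    · rw [Real.norm_eq_abs]
      have h1 : (db02Phi g i z - db02Phi g i z').1.1
          = -(pw i / (1 - pw i)) * ((g z).1.1 - (g z').1.1 - (z.1.1 - z'.1.1) / pw i) := by
        have hne : pw i ≠ 0 := p0.ne'
        have hne' : 1 - pw i ≠ 0 := by linarith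
        simp only [db02Phi, Prod.fst_sub]
        field_simp
        ring
      rw [h1, abs_mul, abs_neg, abs_of_pos pp]
      calc pw i / (1 - pw i) * |(g z).1.1 - (g z').1.1 - (z.1.1 - z'.1.1) / pw i|
          ≤ 4 * (3 * e0 * ‖z - z'‖) := by gcongr
        _ ≤ 51 / 100 * ‖z - z'‖ := by
            unfold e0
            nlinarith
    · rw [Real.norm_eq_abs]
      have h1 : (db02Phi g i z - db02Phi g i z').1.2
          = ((g z).1.2 - (g z').1.2 - qw i * (z.1.2 - z'.1.2)) + qw i * (z.1.2 - z'.1.2) := by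
        simp only [db02Phi, Prod.snd_sub, Prod.fst_sub]
        ring
      have q1 : 0 ≤ qw i ∧ qw i ≤ 1 / 2 := by
        cases i <;> simp only [qw] <;> norm_num
      rw [h1]
      calc |((g z).1.2 - (g z').1.2 - qw i * (z.1.2 - z'.1.2)) + qw i * (z.1.2 - z'.1.2)|
          ≤ |(g z).1.2 - (g z').1.2 - qw i * (z.1.2 - z'.1.2)| + |qw i * (z.1.2 - z'.1.2)| :=
            abs_add_le _ _
        _ ≤ 3 * e0 * ‖z - z'‖ + 1 / 2 * ‖z - z'‖ := by
            rw [abs_mul, abs_of_nonneg q1.1]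
            have := mul_le_mul q1.2 n2 (abs_nonneg _) (by norm_num)
            linarith
        _ ≤ 51 / 100 * ‖z - z'‖ := by
            unfold e0
            nlinarith
  · have h1 : (db02Phi g i z - db02Phi g i z').2 = (g z).2 - (g z').2 := rfl
    rw [h1]
    calc ‖(g z).2 - (g z').2‖ ≤ aw * ‖z.2 - z'.2‖ + 2 * e0 * ‖z - z'‖ := d3
      _ ≤ aw * ‖z - z'‖ + 2 * e0 * ‖z - z'‖ := by
          have : (0 : ℝ) ≤ aw := by unfold aw; positivity
          gcongr
      _ ≤ 51 / 100 * ‖z - z'‖ := by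
          unfold e0 aw
          nlinarith

theorem db02_close {g : En d → En d} (hg : NearD g) {i : Sy} {z : En d} (hz : z ∈ VVd d i) :
    |(db02Phi g i z).1.1 - fx i| ≤ 4 * e0 ∧ |(db02Phi g i z).1.2 - (be i + qw i * z.1.2)| ≤ e0 ∧
      ‖(db02Phi g i z).2‖ ≤ aw * ‖z.2‖ + e0 := by
  obtain ⟨c1, c2⟩ := hg.close0 i z hz
  obtain ⟨p0, p1, p4, pp⟩ := b02_pw i
  simp only [Aff] at c1 c2
  refine ⟨?_, c2, hg.wval z (VVd_sub_Dd i hz)⟩
  have h1 : (db02Phi g i z).1.1 - fx i = -(pw i / (1 - pw i)) * ((g z).1.1 - (z.1.1 - al i) / pw i) := by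
    simp only [db02Phi]
    cases i
    · simp only [pw, al, fx]
      ring
    · simp only [pw, al, fx]
      ring
  rw [h1, abs_mul, abs_neg, abs_of_pos pp]
  gcongr

/-- PROOF. As `b02_maps`; third component: ‖(g z).2‖ ≤ aw ‖z.2‖ + e0 ≤ 1 (`hg.wval`). -/
theorem db02_maps {g : En d → En d} (hg : NearD g) {i : Sy} {z : En d} (hz : z ∈ VVd d i) : db02Phi g i z ∈ VVd d i := by
  obtain ⟨h1, h2, h3⟩ := db02_close hg hz
  rw [mem_VVd, mem_VV] at hz ⊢
  obtain ⟨⟨⟨a1, a2⟩, a3, a4⟩, a5⟩ := hz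
  rw [abs_le] at h1 h2
  obtain ⟨h11, h12⟩ := h1
  obtain ⟨h21, h22⟩ := h2
  have a6 : ‖(db02Phi g i z).2‖ ≤ 1 := by
    unfold aw e0 at h3
    nlinarith [norm_nonneg z.2]
  cases i <;> simp only [pw, al, fx, be, qw, del, e0] at a1 a2 a3 a4 h11 h12 h21 h22 ⊢ <;>
    refine ⟨⟨⟨?_, ?_⟩, ?_, ?_⟩, a6⟩ <;> linarith

theorem db02_fix_iff {g : En d → En d} {i : Sy} {z : En d} : db02Phi g i z = z ↔ g z = z := by
  obtain ⟨p0, p1, p4, pp⟩ := b02_pw i
  constructor
  · intro h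
    have h1 := congrArg (fun v : En d => v.1.1) h
    have h2 := congrArg (fun v : En d => v.1.2) h
    have h5 := congrArg (fun v : En d => v.2) h
    simp only [db02Phi] at h1 h2 h5
    have h3 : pw i / (1 - pw i) * ((g z).1.1 - z.1.1) = 0 := by linarith
    rcases mul_eq_zero.mp h3 with h4 | h4
    · exact absurd h4 pp.ne'
    · exact Prod.ext (Prod.ext (by linarith) h2) h5
  · intro h
    simp only [db02Phi, h, sub_self, mul_zero, sub_zero]

/-- PROOF. As `exists_fix` in H37N/B02.lean (VVd d i is closed, nonempty: it contains ((fx i, fx i), 0); `ContractingWith.exists_fixedPoint'`).  For the third component: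
‖z.2‖ = ‖(g z).2‖ ≤ aw ‖z.2‖ + e0, so ‖z.2‖ ≤ 2 e0.  Interior: `mem_interior_VVd`, `mem_interior_VV`. -/
theorem exists_fixD {g : En d → En d} (hg : NearD g) (i : Sy) :
    ∃ z ∈ interior (VVd d i), g z = z ∧ |z.1.1 - fx i| ≤ 1 / 10 ^ 11 ∧ |z.1.2 - fx i| ≤ 1 / 10 ^ 11 ∧ ‖z.2‖ ≤ 1 / 10 ^ 11 := by
  have hcl : IsClosed (VVd d i) := (isClosed_Icc.prod isClosed_Icc).prod Metric.isClosed_closedBall
  have hne : (((fx i, fx i), 0) : En d) ∈ VVd d i := by
    rw [mem_VVd, mem_VV]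
    refine ⟨?_, by simp⟩
    cases i <;> simp only [fx, al, pw, del] <;> norm_num
  have hmaps : MapsTo (db02Phi g i) (VVd d i) (VVd d i) := fun z hz => db02_maps hg hz
  have hcon : ContractingWith (51 / 100 : NNReal) (hmaps.restrict (db02Phi g i) (VVd d i) (VVd d i)) := by
    refine ⟨?_, ?_⟩
    · rw [← NNReal.coe_lt_coe]
      push_cast
      norm_num
    · apply LipschitzWith.of_dist_le_mul
      rintro ⟨z, hz⟩ ⟨z', hz'⟩
      rw [Subtype.dist_eq, Subtype.dist_eq, dist_eq_norm, dist_eq_norm]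
      push_cast
      exact db02_contr hg hz hz'
  obtain ⟨z, hz, hfix, -⟩ := hcon.exists_fixedPoint' hcl.isComplete hmaps hne (edist_ne_top _ _)
  have hfix' : db02Phi g i z = z := hfix
  have hgz : g z = z := db02_fix_iff.mp hfix'
  obtain ⟨h1, h2, h3⟩ := db02_close hg hz
  rw [hfix'] at h1 h2 h3
  have hz2 := hz
  rw [mem_VVd, mem_VV] at hz2
  obtain ⟨⟨⟨a1, a2⟩, a3, a4⟩, a5⟩ := hz2
  rw [abs_le] at h1 h2
  obtain ⟨h11, h12⟩ := h1
  obtain ⟨h21, h22⟩ := h2
  have h4 : ‖z.2‖ ≤ 1 / 10 ^ 11 := by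
    unfold aw e0 at h3
    have := norm_nonneg z.2
    norm_num at h3 ⊢
    linarith
  refine ⟨z, ?_, hgz, ?_, ?_, h4⟩
  · rw [mem_interior_VVd, mem_interior_VV]
    refine ⟨?_, lt_of_le_of_lt h4 (by norm_num)⟩
    cases i <;> simp only [pw, al, fx, be, qw, del, e0] at a1 a2 a3 a4 h11 h12 h21 h22 ⊢ <;>
      refine ⟨⟨?_, ?_⟩, ?_, ?_⟩ <;> linarith
  · rw [abs_le]
    cases i <;> simp only [fx, e0] at h11 h12 ⊢ <;> constructor <;> linarith
  · rw [abs_le]
    cases i <;> simp only [be, qw, fx, e0] at h21 h22 ⊢ <;> constructor <;> linarith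

/-- PROOF. Both are fixed points of db02Phi; `db02_contr`. -/
theorem fix_uniqueD {g : En d → En d} (hg : NearD g) {i : Sy} {z z' : En d} (hz : z ∈ VVd d i) (hz' : z' ∈ VVd d i)
    (h : g z = z) (h' : g z' = z') : z = z' := by
  have h1 := db02_contr hg hz hz'
  rw [db02_fix_iff.mpr h, db02_fix_iff.mpr h'] at h1
  have h2 : 0 ≤ ‖z - z'‖ := norm_nonneg _
  have h3 : ‖z - z'‖ = 0 := by linarith
  exact sub_eq_zero.mp (norm_eq_zero.mp h3)

end Pool.Agent.Lib.H37D
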