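import Pool.Agent.Lib.H37D.BDefs

/-! # H37D, chunk DB03 (S/M): the eigenbasis at a point of a strip -/

open Set Filter Topology
open scoped ContDiff

namespace Pool.Agent.Lib.H37D

open Pool.Agent.Lib.H37N

variable {d : ℕ}

theorem db03_CC0 (v : En d) : CC0 d v = ((v.1.2, -v.1.1), v.2) := rfl

theorem db03_awk (k : Fin d) : awk d k ∈ Icc (90 / 10 ^ 9 : ℝ) (100 / 10 ^ 9) := by
  have h1 : ((k : ℕ) : ℝ) + 1 ≤ (d : ℝ) + 1 := by
    have : ((k : ℕ) : ℝ) ≤ (d : ℝ) := by exact_mod_cast k.2.le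
    linarith
  have h0 : (0 : ℝ) < (d : ℝ) + 1 := by positivity
  have h2 : ((k : ℕ) : ℝ) + 1 ≤ 1 * ((d : ℝ) + 1) := by linarith
  have h3 : (((k : ℕ) : ℝ) + 1) / (10 * ((d : ℝ) + 1)) ≤ 1 / 10 := by
    rw [div_le_div_iff₀ (by positivity) (by norm_num)]
    linarith
  have h4 : 0 ≤ (((k : ℕ) : ℝ) + 1) / (10 * ((d : ℝ) + 1)) := by positivity
  unfold awk aw
  constructor
  · norm_num at *
    linarith
  · norm_num at *
    linarith

/-- PROOF. `diagonalizable` for L = fderiv ℝ g z (`hg.closeS`); C as a continuous linear equivalence: `ContinuousLinearEquiv.equivOfInverse` with inverse C'.  fderiv g z (C v) = C (dgD lam mu al v):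
apply L.comp C = C.comp (dgD ..) to v.  Ranges: qw i ∈ {1/2, 499/1000}, 1/pw i ∈ {5/4, 1000/199}, muR; awk d k = aw (1 - (k+1)/(10(d+1))) ∈ [9/10^8, 1/10^7] (k + 1 ≤ d + 1), aw = 1/10^7,
error at most 1/10^12.
Sign: ‖C - CC0‖ ≤ 1/10^12 and CC0 ((x,y),w) = ((y,-x),w).  So (C ((1,0),0)) is within 1/10^12 of ((0,-1),0), (C ((0,1),0)) within 1/10^12 of ((1,0),0) (the norms of ((1,0),0), ((0,1),0) are 1),
slp C s z = (C (z,0)).1 - s ((C (z,0)).2), ‖s ((C (z,0)).2)‖ ≤ 1/10^8 * 1/10^12 for z = (1,0), (0,1): the four entries of slp C s are within 2/10^12 of those of ((0,1),(-1,0)), det2 > 0.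
Slope: CC0 (0,w) = (0,w), so ‖(C (0,w)).1‖ ≤ 1/10^12 ‖w‖ and ‖(C (0,w)).2‖ ≥ ‖w‖ - 1/10^12 ‖w‖. -/
theorem exists_eigD {g : En d → En d} (hg : NearS g) {i : Sy} {z : En d} (hz : z ∈ VVd d i) :
    ∃ (C : En d ≃L[ℝ] En d) (lam mu : ℝ) (al : Wd d), lam ∈ Ioo (49 / 100 : ℝ) (51 / 100) ∧ mu ∈ muR i ∧
      (∀ k, al k ∈ Ioo (89 / 10 ^ 9 : ℝ) (101 / 10 ^ 9)) ∧
      (∀ v, fderiv ℝ g z (C v) = C (dgD lam mu al v)) ∧
      (∀ s : Wd d →L[ℝ] Pt, ‖s‖ ≤ 1 / 10 ^ 8 → 0 < det2 (slp (C : En d →L[ℝ] En d) s)) ∧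
      ∀ w : Wd d, ‖(C (0, w)).1‖ ≤ 1 / 10 ^ 9 * ‖(C (0, w)).2‖ := by
  obtain ⟨C, C', lam, mu, al, hCC, hCC', hL, hC0, hlam, hmu, hal⟩ := diagonalizable (hg.closeS i z hz)
  have hleft : Function.LeftInverse C' C := fun v => congrArg (fun f : En d →L[ℝ] En d => f v) hCC
  have hright : Function.RightInverse C' C := fun v => congrArg (fun f : En d →L[ℝ] En d => f v) hCC'
  have hE : ∀ v : En d, ‖C v - CC0 d v‖ ≤ 1 / 10 ^ 12 * ‖v‖ := by
    intro v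
    have h1 := (C - CC0 d).le_opNorm v
    rw [sub_apply] at h1
    exact h1.trans (mul_le_mul_of_nonneg_right hC0 (norm_nonneg _))
  refine ⟨ContinuousLinearEquiv.equivOfInverse C C' hleft hright, lam, mu, al, ?_, ?_, ?_, ?_, ?_, ?_⟩
  · rw [abs_le] at hlam
    obtain ⟨a1, a2⟩ := hlam
    cases i <;> simp only [qw] at a1 a2 <;> constructor <;> linarith
  · rw [abs_le] at hmu
    obtain ⟨a1, a2⟩ := hmu
    cases i <;> simp only [pw, muR] at a1 a2 ⊢ <;> norm_num at a1 a2 <;> constructor <;> linarith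
  · intro k
    have h1 := hal k
    have h2 := db03_awk k
    have h3 : 1 / (10 ^ 12 * ((d : ℝ) + 1)) ≤ 1 / 10 ^ 12 := by
      apply one_div_le_one_div_of_le (by norm_num)
      have : (0 : ℝ) ≤ (d : ℝ) := by positivity
      nlinarith
    rw [abs_le] at h1
    obtain ⟨h4, h5⟩ := h1
    obtain ⟨h6, h7⟩ := h2
    constructor <;> linarith
  · intro v
    exact congrArg (fun f : En d →L[ℝ] En d => f v) hL
  · intro s hs
    have key : ∀ x : Pt, ‖x‖ ≤ 1 → ‖slp C s x - (x.2, -x.1)‖ ≤ 2 / 10 ^ 12 := by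
      intro x hx
      have hn : ‖((x, 0) : En d)‖ ≤ 1 := by
        rw [Prod.norm_def, norm_zero]
        exact max_le hx zero_le_one
      have h1 : ‖C (x, 0) - CC0 d (x, 0)‖ ≤ 1 / 10 ^ 12 := by
        refine (hE (x, 0)).trans ?_
        calc (1 : ℝ) / 10 ^ 12 * ‖((x, 0) : En d)‖ ≤ 1 / 10 ^ 12 * 1 := by gcongr
          _ = 1 / 10 ^ 12 := mul_one _
      rw [db03_CC0] at h1
      have h2 : ‖(C (x, 0)).1 - (x.2, -x.1)‖ ≤ 1 / 10 ^ 12 := (norm_fst_le _).trans h1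
      have h3 : ‖(C (x, 0)).2‖ ≤ 1 / 10 ^ 12 := by
        have h4 := (norm_snd_le _).trans h1
        simpa using h4
      have h5 : ‖s ((C (x, 0)).2)‖ ≤ 1 / 10 ^ 12 := by
        calc ‖s ((C (x, 0)).2)‖ ≤ ‖s‖ * ‖(C (x, 0)).2‖ := s.le_opNorm _
          _ ≤ 1 / 10 ^ 8 * (1 / 10 ^ 12) := by gcongr
          _ ≤ 1 / 10 ^ 12 := by norm_num
      have h6 : slp C s x - (x.2, -x.1) = ((C (x, 0)).1 - (x.2, -x.1)) - s ((C (x, 0)).2) := by
        show ((C (x, 0)).1 - s ((C (x, 0)).2)) - (x.2, -x.1) = _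
        abel
      rw [h6]
      calc _ ≤ ‖(C (x, 0)).1 - (x.2, -x.1)‖ + ‖s ((C (x, 0)).2)‖ := norm_sub_le _ _
        _ ≤ 1 / 10 ^ 12 + 1 / 10 ^ 12 := add_le_add h2 h5
        _ = 2 / 10 ^ 12 := by norm_num
    have k1 := key (1, 0) (by simp [Prod.norm_def])
    have k2 := key (0, 1) (by simp [Prod.norm_def])
    have a1 := (norm_fst_le _).trans k1
    have a2 := (norm_snd_le _).trans k1
    have a3 := (norm_fst_le _).trans k2
    have a4 := (norm_snd_le _).trans k2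
    rw [Real.norm_eq_abs] at a1 a2 a3 a4
    simp only [Prod.fst_sub, Prod.snd_sub] at a1 a2 a3 a4
    rw [abs_le] at a1 a2 a3 a4
    show 0 < det2 (slp C s)
    unfold det2
    set a := (slp C s (1, 0)).1
    set b := (slp C s (1, 0)).2
    set c := (slp C s (0, 1)).1
    set e := (slp C s (0, 1)).2
    obtain ⟨a11, a12⟩ := a1
    obtain ⟨a21, a22⟩ := a2
    obtain ⟨a31, a32⟩ := a3
    obtain ⟨a41, a42⟩ := a4
    have hb : 1 - 2 / 10 ^ 12 ≤ -b := by linarith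
    have hc : 1 - 2 / 10 ^ 12 ≤ c := by linarith
    have h7 : (1 - 2 / 10 ^ 12) * (1 - 2 / 10 ^ 12) ≤ (-b) * c :=
      mul_le_mul hb hc (by norm_num) (le_trans (by norm_num) hb)
    have h8 : |a * e| ≤ 2 / 10 ^ 12 * (2 / 10 ^ 12) := by
      rw [abs_mul]
      apply mul_le_mul _ _ (abs_nonneg _) (by norm_num)
      · rw [abs_le]; constructor <;> linarith
      · rw [abs_le]; constructor <;> linarith
    rw [abs_le] at h8
    norm_num at h7 h8 ⊢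
    linarith [h8.1]
  · intro w
    show ‖(C (0, w)).1‖ ≤ 1 / 10 ^ 9 * ‖(C (0, w)).2‖
    have hn : ‖((0, w) : En d)‖ = ‖w‖ := by
      rw [Prod.norm_def, norm_zero]
      exact max_eq_right (norm_nonneg w)
    have h1 := hE (0, w)
    rw [db03_CC0, hn] at h1
    have h2 : ‖(C (0, w)).1‖ ≤ 1 / 10 ^ 12 * ‖w‖ := by
      have h4 := (norm_fst_le _).trans h1
      have h5 : (C (0, w) - (((0 : Pt).2, -(0 : Pt).1), w)).1 = (C (0, w)).1 := by
        rw [Prod.fst_sub]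
        have : (((0 : Pt).2, -(0 : Pt).1) : Pt) = 0 := by simp
        rw [this, sub_zero]
      rwa [h5] at h4
    have h3 : ‖(C (0, w)).2 - w‖ ≤ 1 / 10 ^ 12 * ‖w‖ := (norm_snd_le _).trans h1
    have h4 : ‖w‖ ≤ ‖(C (0, w)).2‖ + ‖(C (0, w)).2 - w‖ := by
      have h5 := norm_sub_le (C (0, w)).2 ((C (0, w)).2 - w)
      rwa [sub_sub_cancel] at h5
    have h6 := norm_nonneg w
    norm_num at h2 h3 ⊢
    linarith

end Pool.Agent.Lib.H37D
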