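import Pool.Agent.Lib.H37D.BDefs
import Pool.Agent.Lib.H37D.DT67
import Pool.Agent.Lib.H37N.T3

/-! # H37D, chunk DB04 (S/M): small perturbations of the derivative at a point (port of H37N/B04.lean) -/

open Set Filter Topology
open scoped ContDiff

namespace Pool.Agent.Lib.H37D

open Pool.Agent.Lib.H37N

variable {d : ℕ}

/-- PROOF. As `lin_pert`: Ψ(t,z) = z + χ z • (A t) (z - z₀), `small_familyD`. -/
theorem lin_pertD (R : ℕ) {ε : ℝ} (hε : 0 < ε) {z₀ : En d} (hz : z₀ ∈ interior (K0D d)) {T : Type}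
    [NormedAddCommGroup T] [NormedSpace ℝ T] (A : T →L[ℝ] (En d →L[ℝ] En d))
    {B : Set (En d)} (hB : B ∈ 𝓝 z₀) :
    ∀ᶠ t in 𝓝 (0 : T), ∃ ψ : En d → En d, SmallD R ε ψ ∧ (∀ z, z ∉ B → ψ z = z) ∧
      ψ =ᶠ[𝓝 z₀] fun z => z + A t (z - z₀) := by
  have hO : IsOpen (interior B ∩ interior (K0D d)) := isOpen_interior.inter isOpen_interior
  have hz0 : z₀ ∈ interior B ∩ interior (K0D d) := ⟨mem_interior_iff_mem_nhds.2 hB, hz⟩
  obtain ⟨χ, hχ, hcs, hts, -, h1⟩ :=
    exists_cutoff (isCompact_singleton (x := z₀)) hO (singleton_subset_iff.2 hz0)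
  rw [nhdsSet_singleton] at h1
  have hA : ContDiff ℝ ∞ (fun q : T × En d => A q.1 (q.2 - z₀)) :=
    (A.contDiff.comp contDiff_fst).clm_apply (contDiff_snd.sub contDiff_const)
  have hsm : ContDiff ℝ ∞ (fun q : T × En d => q.2 + χ q.2 • A q.1 (q.2 - z₀)) :=
    contDiff_snd.add ((hχ.comp contDiff_snd).smul hA)
  have hzero : ∀ (t : T) (z : En d), z ∉ tsupport χ → z + χ z • A t (z - z₀) = z := by
    intro t z hzt
    rw [image_eq_zero_of_notMem_tsupport hzt]
    simp
  have key := small_familyD hsm (0 : T) (fun z => by simp) (C := tsupport χ) hcs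
    (fun z hzt => interior_subset (hts hzt).2) hzero R hε
  filter_upwards [key] with t ht
  refine ⟨_, ht, ?_, ?_⟩
  · intro z hzB
    exact hzero t z fun h => hzB (interior_subset (hts h).1)
  · filter_upwards [h1] with z hz1
    simp only [hz1, one_smul]

end Pool.Agent.Lib.H37D
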