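import Mathlib

/-! # H37D, chunk DB05 (M, pure): generic eigenvalues have rationally independent logarithms; nonresonance -/

open Set Filter Topology

namespace Pool.Agent.Lib.H37D

variable {ι : Type} [Fintype ι]

/-- The bad set of one integer relation is nowhere dense.

PROOF. F(t) = c₀ A + Σ_j c_j log((1 + t_j) L_j) is continuous on the open set {t | ∀ j, 0 < 1 + t_j} (continuity of log off 0).  The complement of the set in question is
{t | ∀ j, 0 < 1 + t j} ∩ {F ≠ 0} ∪ {t | ∃ j, 1 + t j ≤ 0}: we prove that its interior is dense, in the form needed: every nonempty open V contained in {t | ∀ j, 0 < 1 + t j} contains a nonempty open V'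
on which F ≠ 0.  By continuity it is enough to find t ∈ V with F t ≠ 0.  If some c_j ≠ 0: take t ∈ V and move only the coordinate j (`Function.update`): two values of F at two different
values of t_j differ by c_j (log((1+a) L_j) - log((1+b) L_j)) ≠ 0 (log injective on positive reals), so one of them is ≠ 0.  If all c_j = 0 then c₀ ≠ 0 and F = c₀ A ≠ 0. -/
theorem db05_nowhere {A : ℝ} (hA : A ≠ 0) {L : ι → ℝ} (hL : ∀ j, 0 < L j) {c : Option ι → ℚ} (hc : c ≠ 0)
    {V : Set (ι → ℝ)} (hV : IsOpen V) (hVne : V.Nonempty) (hpos : ∀ t ∈ V, ∀ j, 0 < 1 + t j) :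
    ∃ V' ⊆ V, IsOpen V' ∧ V'.Nonempty ∧ ∀ t ∈ V',
      (c none : ℝ) * A + ∑ j, (c (some j) : ℝ) * Real.log ((1 + t j) * L j) ≠ 0 := by
  classical
  set F : (ι → ℝ) → ℝ := fun t => (c none : ℝ) * A + ∑ j, (c (some j) : ℝ) * Real.log ((1 + t j) * L j)
    with hF
  have hcont : ContinuousOn F V := by
    refine ContinuousOn.add continuousOn_const ?_
    refine continuousOn_finsetSum _ fun j _ => ?_
    refine ContinuousOn.mul continuousOn_const ?_
    refine ContinuousOn.log (by fun_prop) ?_
    intro t ht
    have := hpos t ht j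
    have := hL j
    positivity
  have hex : ∃ t ∈ V, F t ≠ 0 := by
    obtain ⟨t, ht⟩ := hVne
    by_cases hj : ∃ j, c (some j) ≠ 0
    · obtain ⟨j, hj⟩ := hj
      by_contra hcon
      push Not at hcon
      have hcu : Continuous fun s : ℝ => Function.update t j s := by fun_prop
      have hmem : ∀ᶠ s in 𝓝 (t j), Function.update t j s ∈ V := by
        refine hcu.continuousAt.eventually_mem ?_
        refine hV.mem_nhds ?_
        rw [Function.update_eq_self]
        exact ht
      obtain ⟨s, hs, hst⟩ : ∃ s, Function.update t j s ∈ V ∧ t j < s := by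
        have h1 : ∀ᶠ s in 𝓝[>] (t j), Function.update t j s ∈ V := hmem.filter_mono nhdsWithin_le_nhds
        exact (h1.and self_mem_nhdsWithin).exists
      have e1 := hcon t ht
      have e2 := hcon _ hs
      simp only [hF] at e1 e2
      rw [← Finset.add_sum_erase _ _ (Finset.mem_univ j)] at e1 e2
      have e3 : ∑ x ∈ Finset.univ.erase j, (c (some x) : ℝ) * Real.log ((1 + Function.update t j s x) * L x) =
          ∑ x ∈ Finset.univ.erase j, (c (some x) : ℝ) * Real.log ((1 + t x) * L x) := by
        refine Finset.sum_congr rfl fun x hx => ?_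
        rw [Function.update_of_ne (Finset.ne_of_mem_erase hx)]
      rw [e3, Function.update_self] at e2
      have e4 : (c (some j) : ℝ) * Real.log ((1 + t j) * L j) = (c (some j) : ℝ) * Real.log ((1 + s) * L j) := by
        linarith
      have hj' : (c (some j) : ℝ) ≠ 0 := by exact_mod_cast hj
      have e5 := mul_left_cancel₀ hj' e4
      have p1 : 0 < (1 + t j) * L j := mul_pos (hpos t ht j) (hL j)
      have p2 : 0 < (1 + s) * L j := by
        have := hpos _ hs j
        rw [Function.update_self] at this
        exact mul_pos this (hL j)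
      have e6 := Real.log_injOn_pos (Set.mem_Ioi.2 p1) (Set.mem_Ioi.2 p2) e5
      have e7 := mul_right_cancel₀ (hL j).ne' e6
      linarith
    · push Not at hj
      refine ⟨t, ht, ?_⟩
      have hc0 : c none ≠ 0 := by
        intro h0
        apply hc
        funext o
        cases o with
        | none => exact h0
        | some j => exact hj j
      simp only [hF, hj, Rat.cast_zero, zero_mul, Finset.sum_const_zero, add_zero]
      exact mul_ne_zero (by exact_mod_cast hc0) hA
  obtain ⟨t, ht, htF⟩ := hex
  refine ⟨V ∩ F ⁻¹' {0}ᶜ, inter_subset_left, hcont.isOpen_inter_preimage hV isOpen_compl_singleton,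
    ⟨t, ht, htF⟩, ?_⟩
  intro t' ht'
  exact ht'.2

/-- Generic eigenvalues.

PROOF. Let V₀ be an open neighbourhood of 0 on which p holds and 1 + t j > 0 for all j.  For every c ≠ 0 (countably many c : Option ι → ℚ) the set
Z_c = {t ∈ V₀ | c none * A + Σ c (some j) log((1+t j) L j) = 0} is nowhere dense by `db05_nowhere` (applied to the open subsets of V₀).  By the Baire category theorem the union of the Z_c does not
contain V₀ (for instance: the sets D_c = interior of the complement of Z_c are open and dense in the complete space ι → ℝ, `dense_iInter_of_isOpen` (countable index type {c // c ≠ 0}), and V₀ is open and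
nonempty, so there is t ∈ V₀ ∩ ⋂ D_c; t ∈ V₀ and t ∉ Z_c).  For this t: p t, all 1 + t j > 0, and the family is linearly independent over ℚ: `Fintype.linearIndependent_iff` (sum over Option ι:
`Fintype.sum_option`; the action of ℚ on ℝ is multiplication by the cast: `Rat.smul_def`). -/
theorem gen_logs {A : ℝ} (hA : A ≠ 0) {L : ι → ℝ} (hL : ∀ j, 0 < L j) {p : (ι → ℝ) → Prop}
    (hp : ∀ᶠ t in 𝓝 (0 : ι → ℝ), p t) :
    ∃ t, p t ∧ (∀ j, 0 < 1 + t j) ∧
      LinearIndependent ℚ (fun o : Option ι => o.elim A fun j => Real.log ((1 + t j) * L j)) := by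
  classical
  have h1 : ∀ᶠ t in 𝓝 (0 : ι → ℝ), ∀ j, 0 < 1 + t j := by
    rw [eventually_all]
    intro j
    have hc : Continuous fun t : ι → ℝ => 1 + t j := by fun_prop
    refine hc.continuousAt.eventually (lt_mem_nhds ?_)
    simp
  obtain ⟨V₀, hV₀, hV₀o, h0⟩ := eventually_nhds_iff.1 (hp.and h1)
  have hpos : ∀ t ∈ V₀, ∀ j, 0 < 1 + t j := fun t ht => (hV₀ t ht).2
  let D : {c : Option ι → ℚ // c ≠ 0} → Set (ι → ℝ) := fun c =>
    interior {t | t ∈ V₀ → (c.1 none : ℝ) * A + ∑ j, (c.1 (some j) : ℝ) * Real.log ((1 + t j) * L j) ≠ 0}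
  have hdense : Dense (⋂ c, D c) := by
    refine dense_iInter_of_isOpen (fun c => isOpen_interior) fun c => ?_
    rw [dense_iff_inter_open]
    intro W hW hWne
    by_cases hWV : (W ∩ V₀).Nonempty
    · obtain ⟨V', hV', hV'o, ⟨t, ht⟩, hne⟩ := db05_nowhere hA hL c.2 (hW.inter hV₀o) hWV
        (fun t ht => hpos t ht.2)
      refine ⟨t, (hV' ht).1, ?_⟩
      exact mem_interior.2 ⟨V', fun x hx _ => hne x hx, hV'o, ht⟩
    · obtain ⟨t, ht⟩ := hWne
      refine ⟨t, ht, mem_interior.2 ⟨W, fun x hx hxV => absurd ⟨x, hx, hxV⟩ hWV, hW, ht⟩⟩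
  obtain ⟨t, htV, htD⟩ := hdense.inter_open_nonempty V₀ hV₀o ⟨0, h0⟩
  refine ⟨t, (hV₀ t htV).1, (hV₀ t htV).2, ?_⟩
  rw [Fintype.linearIndependent_iff]
  intro g hg
  by_contra hcon
  push Not at hcon
  obtain ⟨o, ho⟩ := hcon
  have hgne : g ≠ 0 := by
    intro h
    exact ho (by rw [h]; rfl)
  have h2 := mem_iInter.1 htD ⟨g, hgne⟩
  have h3 := interior_subset h2 htV
  apply h3
  rw [Fintype.sum_option] at hg
  simpa [Rat.smul_def] using hg

/-- No resonances.

PROOF. Take logarithms (`Real.log_prod`, all Λ > 0): Σ_(j : Fin n) log Λ (t j) = log Λ a, and Σ_(j : Fin n) log Λ (t j) = Σ_b (card {j | t j = b}) log Λ b (`Finset.sum_fiberwise` /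
`Finset.card_eq_sum_ones`).  So Σ_b (card {j | t j = b} - [b = a]) log Λ b = 0 is a rational relation; all its coefficients are 0 by independence (the family j ↦ log Λ j is linearly independent:
composition of h with the injective map some, `LinearIndependent.comp`).  The sum of the coefficients is n - 1 ≥ 1: contradiction. -/
theorem nonresM {A : ℝ} {Λ : ι → ℝ} (hpos : ∀ j, 0 < Λ j)
    (h : LinearIndependent ℚ (fun o : Option ι => o.elim A fun j => Real.log (Λ j))) {n : ℕ} (hn : 2 ≤ n)
    (t : Fin n → ι) (a : ι) : ∏ j, Λ (t j) ≠ Λ a := by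
  classical
  intro heq
  have hlog : ∑ j, Real.log (Λ (t j)) = Real.log (Λ a) := by
    rw [← heq, Real.log_prod]
    intro j _
    exact (hpos _).ne'
  have hfib : ∑ j, Real.log (Λ (t j)) =
      ∑ b, ((Finset.univ.filter fun j => t j = b).card : ℝ) * Real.log (Λ b) := by
    rw [← Finset.sum_fiberwise Finset.univ t]
    refine Finset.sum_congr rfl fun b _ => ?_
    rw [Finset.sum_congr rfl (g := fun _ => Real.log (Λ b))]
    · rw [Finset.sum_const, nsmul_eq_mul]
    · intro x hx
      rw [(Finset.mem_filter.1 hx).2]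
  rw [Fintype.linearIndependent_iff] at h
  let g : Option ι → ℚ := fun o => o.elim 0 fun b =>
    ((Finset.univ.filter fun j => t j = b).card : ℚ) - if b = a then 1 else 0
  have hg0 : ∑ o, g o • (fun o : Option ι => o.elim A fun j => Real.log (Λ j)) o = 0 := by
    rw [Fintype.sum_option]
    have e : ∀ b, g (some b) • (fun o : Option ι => o.elim A fun j => Real.log (Λ j)) (some b) =
        ((Finset.univ.filter fun j => t j = b).card : ℝ) * Real.log (Λ b) -
          (if b = a then Real.log (Λ b) else 0) := by
      intro b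
      simp only [g, Option.elim_some, Rat.smul_def, Rat.cast_sub, Rat.cast_natCast, sub_mul]
      by_cases hb : b = a
      · simp [hb]
      · simp [hb]
    rw [Finset.sum_congr rfl fun b _ => e b, Finset.sum_sub_distrib, ← hfib, hlog]
    simp [g]
  have hg := h g hg0
  have hsum : ∑ b : ι, (((Finset.univ.filter fun j => t j = b).card : ℚ) - if b = a then 1 else 0) = 0 :=
    Finset.sum_eq_zero fun b _ => hg (some b)
  rw [Finset.sum_sub_distrib] at hsum
  have hcard : ∑ b : ι, ((Finset.univ.filter fun j => t j = b).card : ℚ) = n := by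
    have := Finset.card_eq_sum_card_fiberwise (f := t) (s := (Finset.univ : Finset (Fin n)))
      (t := (Finset.univ : Finset ι)) (fun x _ => Finset.mem_coe.2 (Finset.mem_univ _))
    rw [Finset.card_univ, Fintype.card_fin] at this
    rw [← Nat.cast_sum]
    exact_mod_cast this.symm
  rw [hcard] at hsum
  have h1 : ∑ b : ι, (if b = a then (1 : ℚ) else 0) = 1 := by simp
  rw [h1] at hsum
  have : (2 : ℚ) ≤ n := by exact_mod_cast hn
  linarith

/-- PROOF. If A / (log (Λ a) + log (Λ b)) = q is rational then A = q (log Λ a + log Λ b) (the denominator is ≠ 0 by independence: a ≠ b), a nontrivial rational relation between A, log Λ a, log Λ b: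
contradiction.  `Real.log_mul`. -/
theorem irr_of_indep {A : ℝ} {Λ : ι → ℝ} (hpos : ∀ j, 0 < Λ j)
    (h : LinearIndependent ℚ (fun o : Option ι => o.elim A fun j => Real.log (Λ j))) {a b : ι} (hab : a ≠ b) :
    Irrational (A / Real.log (Λ a * Λ b)) := by
  classical
  rw [Fintype.linearIndependent_iff] at h
  rw [Real.log_mul (hpos a).ne' (hpos b).ne']
  have key : ∀ x y : ℚ, (x : ℝ) * A + (y : ℝ) * (Real.log (Λ a) + Real.log (Λ b)) = 0 → x = 0 ∧ y = 0 := by
    intro x y hxy
    let g : Option ι → ℚ := fun o => o.elim x fun i => if i = a then y else if i = b then y else 0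
    have hg0 : ∑ o, g o • (fun o : Option ι => o.elim A fun j => Real.log (Λ j)) o = 0 := by
      rw [Fintype.sum_option]
      have e : ∀ i, g (some i) • (fun o : Option ι => o.elim A fun j => Real.log (Λ j)) (some i) =
          (if i = a then (y : ℝ) * Real.log (Λ a) else 0) + (if i = b then (y : ℝ) * Real.log (Λ b) else 0) := by
        intro i
        by_cases h1 : i = a
        · subst h1
          simp [g, hab, Rat.smul_def]
        · by_cases h2 : i = b
          · subst h2
            simp [g, h1, Rat.smul_def]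
          · simp [g, h1, h2, Rat.smul_def]
      rw [Finset.sum_congr rfl fun i _ => e i, Finset.sum_add_distrib]
      simp only [Finset.sum_ite_eq', Finset.mem_univ, if_true]
      simp only [g, Option.elim_none, Rat.smul_def]
      linarith
    have hg := h g hg0
    refine ⟨hg none, ?_⟩
    have := hg (some a)
    simpa [g] using this
  intro hq
  obtain ⟨q, hq⟩ := hq
  by_cases h0 : Real.log (Λ a) + Real.log (Λ b) = 0
  · have := (key 0 1 (by rw [h0]; simp)).2
    exact one_ne_zero this
  · have hA : A = q * (Real.log (Λ a) + Real.log (Λ b)) := by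
      rw [hq]
      field_simp
    have := (key 1 (-q) (by push_cast; rw [one_mul]; linarith)).1
    exact one_ne_zero this

end Pool.Agent.Lib.H37D
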