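import Mathlib

/-! # H37D, chunk DB06a (M, pure): the homological equation in an eigenbasis -/

open Set Filter Topology Asymptotics
open scoped ContDiff

namespace Pool.Agent.Lib.H37D

variable {V ι : Type} [NormedAddCommGroup V] [NormedSpace ℝ V] [FiniteDimensional ℝ V] [Fintype ι]

/-- Expansion of a multilinear map in a basis.

PROOF. v = Σ_a (b.repr v a) • b a (`Module.Basis.sum_repr`), `ContinuousMultilinearMap.map_sum` (or `MultilinearMap.map_sum`) for the n equal arguments and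
`ContinuousMultilinearMap.map_smul_univ`. -/
theorem db06_expand (b : Module.Basis ι ℝ V) {n : ℕ} (M : (V [×n]→L[ℝ] V)) (v : V) :
    M (fun _ => v) = ∑ t : Fin n → ι, (∏ j, b.repr v (t j)) • M (fun j => b (t j)) := by
  classical
  have h : (fun _ : Fin n => v) = fun _ : Fin n => ∑ a, b.repr v a • b a := by
    funext _
    exact (b.sum_repr v).symm
  rw [h, M.map_sum]
  refine Finset.sum_congr rfl fun t _ => ?_
  exact M.map_smul_univ (fun j => b.repr v (t j)) (fun j => b (t j))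

/-- The homological equation.

PROOF. Λ^t = ∏_j Λ (t j).  H(v) = Σ_t (∏_j (b.repr v (t j))) • Σ_a ((b.repr (M (b ∘ t)) a) / (Λ^t - Λ a)) • b a.  Smooth: v ↦ b.repr v a is linear (continuous in finite dimension:
`LinearMap.toContinuousLinearMap` of `b.coord a`), finite products and sums.  H = O(‖v‖^n): |b.repr v a| ≤ C ‖v‖.  b.repr (L v) a = Λ a * b.repr v a (expand v in the basis, hΛ), so
∏_j b.repr (L v) (t j) = Λ^t ∏_j b.repr v (t j) (`Finset.prod_mul_distrib`).  L(H v) - H(L v) = Σ_t ∏.. • Σ_a (b.repr (M(b∘t)) a) (Λ a - Λ^t)/(Λ^t - Λ a) • b a = - Σ_t ∏.. • M (b ∘ t) =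
- M (v,..,v) (`db06_expand`, Λ^t ≠ Λ a by hnr, `Module.Basis.sum_repr`). -/
theorem homol (b : Module.Basis ι ℝ V) {L : V →L[ℝ] V} {Λ : ι → ℝ} (hΛ : ∀ a, L (b a) = Λ a • b a) {n : ℕ}
    (hnr : ∀ (t : Fin n → ι) (a : ι), ∏ j, Λ (t j) ≠ Λ a) (M : (V [×n]→L[ℝ] V)) :
    ∃ H : V → V, ContDiff ℝ ∞ H ∧ (H =O[𝓝 0] fun v => ‖v‖ ^ n) ∧
      ∀ v, L (H v) - H (L v) = - M (fun _ => v) := by
  classical
  -- the coordinates
  have hrepr : ∀ v a, b.repr (L v) a = Λ a * b.repr v a := by
    intro v a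
    have h1 : L v = ∑ c, (b.repr v c * Λ c) • b c := by
      conv_lhs => rw [← b.sum_repr v]
      rw [map_sum]
      refine Finset.sum_congr rfl fun c _ => ?_
      rw [map_smul, hΛ, smul_smul]
    rw [h1, b.repr_sum_self]
    ring
  have hcd : ∀ a, ContDiff ℝ ∞ (fun v => b.repr v a) := by
    intro a
    exact (LinearMap.toContinuousLinearMap (b.coord a)).contDiff
  have hbd : ∀ a v, ‖b.repr v a‖ ≤ ‖LinearMap.toContinuousLinearMap (b.coord a)‖ * ‖v‖ := by
    intro a v
    exact (LinearMap.toContinuousLinearMap (b.coord a)).le_opNorm v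
  obtain ⟨W, hW⟩ : ∃ W : (Fin n → ι) → V, ∀ t, W t = ∑ a,
      ((b.repr (M (fun j => b (t j))) a) / (∏ j, Λ (t j) - Λ a)) • b a := ⟨_, fun _ => rfl⟩
  refine ⟨fun v => ∑ t : Fin n → ι, (∏ j, b.repr v (t j)) • W t, ?_, ?_, ?_⟩
  · apply ContDiff.sum
    intro t _
    apply ContDiff.smul
    · apply contDiff_prod
      intro j _
      exact hcd (t j)
    · exact contDiff_const
  · apply IsBigO.fun_sum
    intro t _
    apply IsBigO.of_bound ((∏ j, ‖LinearMap.toContinuousLinearMap (b.coord (t j))‖) * ‖W t‖)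
    apply Filter.Eventually.of_forall
    intro v
    rw [norm_smul, norm_prod, norm_pow, norm_norm]
    have h1 : ∏ j, ‖b.repr v (t j)‖ ≤
        ∏ j, (‖LinearMap.toContinuousLinearMap (b.coord (t j))‖ * ‖v‖) :=
      Finset.prod_le_prod (fun j _ => norm_nonneg _) (fun j _ => hbd (t j) v)
    rw [Finset.prod_mul_distrib, Finset.prod_const, Finset.card_univ, Fintype.card_fin] at h1
    calc (∏ j, ‖b.repr v (t j)‖) * ‖W t‖ ≤
        ((∏ j, ‖LinearMap.toContinuousLinearMap (b.coord (t j))‖) * ‖v‖ ^ n) * ‖W t‖ :=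
          mul_le_mul_of_nonneg_right h1 (norm_nonneg _)
      _ = _ := by ring
  · intro v
    rw [db06_expand b M v, map_sum, ← Finset.sum_sub_distrib, ← Finset.sum_neg_distrib]
    refine Finset.sum_congr rfl fun t _ => ?_
    have h1 : ∏ j, b.repr (L v) (t j) = (∏ j, Λ (t j)) * ∏ j, b.repr v (t j) := by
      rw [← Finset.prod_mul_distrib]
      exact Finset.prod_congr rfl fun j _ => hrepr v (t j)
    have h2 : L (W t) - (∏ j, Λ (t j)) • W t = - M (fun j => b (t j)) := by
      rw [hW, map_sum, Finset.smul_sum, ← Finset.sum_sub_distrib,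
        ← b.sum_repr (M (fun j => b (t j))), ← Finset.sum_neg_distrib]
      refine Finset.sum_congr rfl fun a _ => ?_
      rw [b.sum_repr, map_smul, hΛ, smul_smul, smul_smul, ← sub_smul, ← neg_smul]
      congr 1
      have h3 : ∏ j, Λ (t j) - Λ a ≠ 0 := sub_ne_zero.2 (hnr t a)
      field_simp
      ring
    rw [h1, map_smul, mul_comm, mul_smul, ← smul_sub, h2, smul_neg]

end Pool.Agent.Lib.H37D
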