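import Pool.Agent.Lib.H37D.DB00
import Pool.Agent.Lib.H37D.DB06a

/-! # H37D, chunk DB06b: the normal form in a finite-dimensional space -/

open Set Filter Topology Asymptotics
open scoped ContDiff

namespace Pool.Agent.Lib.H37D

open Pool.Agent.Lib.H37N

variable {V ι : Type} [NormedAddCommGroup V] [NormedSpace ℝ V] [FiniteDimensional ℝ V] [Fintype ι]

/-- PROOF. F = f - L is smooth, fderiv F 0 = 0, and fderiv F is differentiable at 0, so ‖fderiv F z‖ ≤ C ‖z‖ for ‖z‖ ≤ r (`HasFDerivAt.isBigO_sub`,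
`IsBigO.exists_nonneg`, `Metric.eventually_nhds_iff`; take a smaller r for closed balls).  Mean value inequality on the convex set closedBall 0 (max ‖a‖ ‖b‖)
(`Convex.norm_image_sub_le_of_norm_fderiv_le`): ‖F a - F b‖ ≤ C max(‖a‖,‖b‖) ‖a - b‖. -/
theorem lip_remM {f : V → V} (hf : ContDiff ℝ ∞ f) (L : V →L[ℝ] V) (hL : fderiv ℝ f 0 = L) :
    ∃ C r : ℝ, 0 ≤ C ∧ 0 < r ∧ ∀ a b : V, ‖a‖ ≤ r → ‖b‖ ≤ r →
      ‖f a - f b - L (a - b)‖ ≤ C * max ‖a‖ ‖b‖ * ‖a - b‖ := by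
  have h1 : ContDiff ℝ ∞ (fderiv ℝ f) := hf.fderiv_right (by simp)
  have h2 : DifferentiableAt ℝ (fderiv ℝ f) 0 := h1.differentiable (by simp) 0
  have h3 : (fun z : V => fderiv ℝ f z - fderiv ℝ f 0) =O[𝓝 0] fun z : V => z - 0 := h2.isBigO_sub
  obtain ⟨C, hC0, hC⟩ := h3.exists_nonneg
  rw [IsBigOWith, Metric.eventually_nhds_iff] at hC
  obtain ⟨r, hr, hCr⟩ := hC
  refine ⟨C, r / 2, hC0, by positivity, ?_⟩
  intro a b ha hb
  set m := max ‖a‖ ‖b‖ with hm
  have hmr : m ≤ r / 2 := max_le ha hb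
  have hbound : ∀ z ∈ Metric.closedBall (0 : V) m, ‖fderiv ℝ f z - L‖ ≤ C * m := by
    intro z hz
    rw [mem_closedBall_zero_iff] at hz
    have h4 := hCr (y := z) (by rw [dist_zero_right]; linarith)
    rw [hL, sub_zero] at h4
    exact h4.trans (mul_le_mul_of_nonneg_left hz hC0)
  have h5 := (convex_closedBall (0 : V) m).norm_image_sub_le_of_norm_fderiv_le' (𝕜 := ℝ)
    (fun z _ => hf.differentiable (by simp) z) hbound
    (mem_closedBall_zero_iff.2 (le_max_right ‖a‖ ‖b‖)) (mem_closedBall_zero_iff.2 (le_max_left ‖a‖ ‖b‖))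
  exact h5

theorem db06b_pow {m n : ℕ} (h : n ≤ m) :
    (fun v : V => ‖v‖ ^ m) =O[𝓝 0] fun v => ‖v‖ ^ n := by
  refine IsBigO.of_bound 1 ?_
  filter_upwards [Metric.closedBall_mem_nhds (0 : V) one_pos] with v hv
  rw [mem_closedBall_zero_iff] at hv
  rw [norm_pow, norm_pow, norm_norm, one_mul]
  exact pow_le_pow_of_le_one (norm_nonneg v) hv h

theorem db06b_tendsto {H : V → V} {n : ℕ} (hn : 1 ≤ n) (hH : H =O[𝓝 0] fun v => ‖v‖ ^ n) :
    Tendsto H (𝓝 0) (𝓝 0) := by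
  refine hH.trans_tendsto ?_
  have : Continuous (fun v : V => ‖v‖ ^ n) := by fun_prop
  have h2 := this.tendsto 0
  rw [norm_zero, zero_pow (by omega)] at h2
  exact h2

theorem db06b_zero {H : V → V} {n : ℕ} (hn : 1 ≤ n) (hH : H =O[𝓝 0] fun v => ‖v‖ ^ n) :
    H 0 = 0 := by
  obtain ⟨C, hC⟩ := hH.bound
  have := hC.self_of_nhds
  rw [norm_zero, zero_pow (by omega), norm_zero, mul_zero] at this
  exact norm_le_zero_iff.1 this

/-- PROOF. By `lip_rem` with a = h v + H v, b = h v (both small for small v, h and H continuous, zero at 0): the error is at most C max(‖h v + H v‖, ‖h v‖) ‖H v‖ and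
‖h v‖ = O(‖v‖) (differentiable, h 0 = 0), ‖H v‖ = O(‖v‖^n) = O(‖v‖) (n ≥ 1). -/
theorem db06_add {f h H : V → V} (hf : ContDiff ℝ ∞ f) {L : V →L[ℝ] V} (hL : fderiv ℝ f 0 = L)
    (hh : ContDiff ℝ ∞ h) (h0 : h 0 = 0) {n : ℕ} (hn : 1 ≤ n) (hH : H =O[𝓝 0] fun v => ‖v‖ ^ n) :
    (fun v => f (h v + H v) - f (h v) - L (H v)) =O[𝓝 0] fun v => ‖v‖ ^ (n + 1) := by
  obtain ⟨C, r, hC, hr, hlip⟩ := lip_remM hf L hL
  have hHt : Tendsto H (𝓝 0) (𝓝 0) := db06b_tendsto hn hH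
  have hht : Tendsto h (𝓝 0) (𝓝 0) := by
    have := hh.continuous.tendsto 0
    rw [h0] at this
    exact this
  have hst : Tendsto (fun v => h v + H v) (𝓝 0) (𝓝 0) := by simpa using hht.add hHt
  have e1 : ∀ᶠ v in 𝓝 (0 : V), ‖h v + H v‖ ≤ r := by
    filter_upwards [hst (Metric.closedBall_mem_nhds (0 : V) hr)] with v hv
    exact mem_closedBall_zero_iff.1 hv
  have e2 : ∀ᶠ v in 𝓝 (0 : V), ‖h v‖ ≤ r := by
    filter_upwards [hht (Metric.closedBall_mem_nhds (0 : V) hr)] with v hv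
    exact mem_closedBall_zero_iff.1 hv
  have hO1 : (fun v => ‖h v‖ + ‖H v‖) =O[𝓝 0] fun v : V => ‖v‖ ^ 1 := by
    have h3 : h =O[𝓝 0] fun v : V => ‖v‖ ^ 1 := by
      have h4 := (hh.differentiable (by simp) 0).isBigO_sub
      simp only [h0, sub_zero] at h4
      simpa only [pow_one] using h4.norm_right
    exact h3.norm_left.add (hH.trans (db06b_pow hn)).norm_left
  have hO2 : (fun v => (‖h v‖ + ‖H v‖) * ‖H v‖) =O[𝓝 0] fun v : V => ‖v‖ ^ (n + 1) := by
    refine (hO1.mul hH.norm_left).congr_right fun v => ?_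
    rw [pow_one, pow_succ, mul_comm]
  refine IsBigO.trans (IsBigO.of_bound C ?_) hO2
  filter_upwards [e1, e2] with v h1 h2
  have h3 := hlip (h v + H v) (h v) h1 h2
  rw [add_sub_cancel_left] at h3
  refine h3.trans ?_
  rw [norm_mul, norm_norm, Real.norm_of_nonneg (by positivity), mul_assoc]
  refine mul_le_mul_of_nonneg_left ?_ hC
  refine mul_le_mul_of_nonneg_right ?_ (norm_nonneg _)
  exact max_le (norm_add_le _ _) (by linarith [norm_nonneg (H v)])

/-- Normal form.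

PROOF. n ≤ 2: h = id; f v - L v = O(‖v‖^2) by `lip_rem` with b = 0; and ‖v‖^2 = O(‖v‖^n).  Step from n ≥ 2 to n+1: E(v) = f (h v) - h (L v) is smooth and O(‖v‖^n); `homog_part` gives c with
E = Σ + O(‖v‖^(n+1)), `homog_solve` gives H.  New h' = h + H: smooth, h' 0 = 0 (H 0 = 0 because H = O(‖v‖^n), n ≥ 1), fderiv h' 0 = id because fderiv H 0 = 0 (H = O(‖v‖^2) = o(‖v‖)).
f (h' v) - h' (L v) = [f (h v + H v) - f (h v) - L (H v)] + [E(v) - Σ] + [Σ + L (H v) - H (L v)], the last bracket is 0, the first is O(‖v‖^(n+1)) by `db06_add`. -/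
theorem normal_formM (b : Module.Basis ι ℝ V) {f : V → V} (hf : ContDiff ℝ ∞ f) (h0 : f 0 = 0) {L : V →L[ℝ] V} {Λ : ι → ℝ}
    (hL : fderiv ℝ f 0 = L) (hΛ : ∀ a, L (b a) = Λ a • b a)
    (hnr : ∀ n : ℕ, 2 ≤ n → ∀ (t : Fin n → ι) (a : ι), ∏ j, Λ (t j) ≠ Λ a) (n : ℕ) :
    ∃ h : V → V, ContDiff ℝ ∞ h ∧ h 0 = 0 ∧ fderiv ℝ h 0 = ContinuousLinearMap.id ℝ V ∧
      (fun v => f (h v) - h (L v)) =O[𝓝 0] fun v => ‖v‖ ^ n := by
  have key : ∀ m, 2 ≤ m → ∃ h : V → V, ContDiff ℝ ∞ h ∧ h 0 = 0 ∧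
      fderiv ℝ h 0 = ContinuousLinearMap.id ℝ V ∧
      (fun v => f (h v) - h (L v)) =O[𝓝 0] fun v => ‖v‖ ^ m := by
    intro m hm
    induction m, hm using Nat.le_induction with
    | base =>
      refine ⟨id, contDiff_id, rfl, fderiv_id, ?_⟩
      obtain ⟨C, r, hC, hr, hlip⟩ := lip_remM hf L hL
      refine IsBigO.of_bound C ?_
      filter_upwards [Metric.closedBall_mem_nhds (0 : V) hr] with v hv
      have h3 := hlip v 0 (mem_closedBall_zero_iff.1 hv) (by rw [norm_zero]; exact hr.le)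
      rw [h0, sub_zero, sub_zero, norm_zero, max_eq_left (norm_nonneg v)] at h3
      rw [norm_pow, norm_norm]
      refine h3.trans (le_of_eq ?_)
      ring
    | succ n hn ih =>
      obtain ⟨h, hh, hh0, hhd, hO⟩ := ih
      have hE : ContDiff ℝ ∞ (fun v => f (h v) - h (L v)) :=
        (hf.comp hh).sub (hh.comp L.contDiff)
      obtain ⟨M, hM⟩ := homog_partM hE n hO
      obtain ⟨H, hHs, hHO, hHe⟩ := homol b hΛ (hnr n hn) M
      have hH0 : H 0 = 0 := db06b_zero (by omega) hHO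
      have hHd : HasFDerivAt H (0 : V →L[ℝ] V) 0 := by
        rw [hasFDerivAt_iff_isLittleO_nhds_zero]
        simp only [zero_add, hH0, sub_zero, zero_apply]
        have h4 : H =O[𝓝 0] fun v : V => ‖v‖ ^ 2 := hHO.trans (db06b_pow hn)
        refine h4.trans_isLittleO ?_
        exact isLittleO_norm_pow_id one_lt_two
      refine ⟨fun v => h v + H v, hh.add hHs, by simp only [hh0, hH0, add_zero], ?_, ?_⟩
      · have h5 : HasFDerivAt (fun v => h v + H v) (fderiv ℝ h 0 + 0) 0 :=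
          (hh.differentiable (by simp) 0).hasFDerivAt.add hHd
        rw [h5.fderiv, hhd, add_zero]
      · have h6 := db06_add hf hL hh hh0 (n := n) (by omega) hHO
        refine (h6.add hM).congr_left fun v => ?_
        have h7 := hHe v
        have h8 : M (fun _ => v) = H (L v) - L (H v) := by
          rw [← neg_inj, ← h7]
          abel
        simp only [h8]
        abel
  obtain ⟨h, hh, hh0, hhd, hO⟩ := key (max n 2) (le_max_right _ _)
  exact ⟨h, hh, hh0, hhd, hO.trans (db06b_pow (le_max_left _ _))⟩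

end Pool.Agent.Lib.H37D
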