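import Pool.Agent.Lib.H37D.DB06b
import Pool.Agent.Lib.H37N.T10a
import Pool.Agent.Lib.H37N.T3

/-! # H37D, chunk DB07: linearisation by a flat correction, in a finite-dimensional space -/

open Set Filter Topology Asymptotics
open scoped ContDiff

namespace Pool.Agent.Lib.H37D

open Pool.Agent.Lib.H37N

variable {V ι : Type} [NormedAddCommGroup V] [NormedSpace ℝ V] [FiniteDimensional ℝ V] [Fintype ι]

/-- Approximate linearisation.

PROOF. f₀(v) = C⁻¹ (g (z₀ + C v) - z₀) is smooth near 0, f₀ 0 = 0, fderiv f₀ 0 = C⁻¹ ∘ fderiv g z₀ ∘ C = L (chain rule, hC).  `localise_at`: a global smooth f with f = f₀ near 0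
(so the same value and derivative at 0: `Filter.EventuallyEq.fderiv_eq`).  h from `normal_form` for f and n; κ₀ v = z₀ + C (h v).  For v near 0, h v is near 0, g (κ₀ v) = z₀ + C (f (h v)), so
g (κ₀ v) - κ₀ (L v) = C (f (h v) - h (L v)) = O(‖v‖^n). -/
theorem db07_approx (b : Module.Basis ι ℝ V) {g : V → V} {z₀ : V} (hg : ∀ᶠ z in 𝓝 z₀, ContDiffAt ℝ ∞ g z) (hfix : g z₀ = z₀)
    (C : V ≃L[ℝ] V) {L : V →L[ℝ] V} {Λ : ι → ℝ} (hC : ∀ v, fderiv ℝ g z₀ (C v) = C (L v)) (hΛ : ∀ a, L (b a) = Λ a • b a)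
    (hnr : ∀ n : ℕ, 2 ≤ n → ∀ (t : Fin n → ι) (a : ι), ∏ j, Λ (t j) ≠ Λ a) (n : ℕ) :
    ∃ κ₀ : V → V, ContDiff ℝ ∞ κ₀ ∧ κ₀ 0 = z₀ ∧ fderiv ℝ κ₀ 0 = (C : V →L[ℝ] V) ∧
      (fun v => g (κ₀ v) - κ₀ (L v)) =O[𝓝 0] fun v => ‖v‖ ^ n := by
  have hCs : ContDiff ℝ ∞ (fun v : V => z₀ + C v) := contDiff_const.add C.contDiff
  have hC0 : z₀ + C 0 = z₀ := by rw [map_zero, add_zero]
  have hf0 : ∀ᶠ v in 𝓝 (0 : V), ContDiffAt ℝ ∞ (fun v => C.symm (g (z₀ + C v) - z₀)) v := by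
    have ht : Tendsto (fun v : V => z₀ + C v) (𝓝 0) (𝓝 z₀) := by
      have := hCs.continuous.tendsto 0
      rw [hC0] at this
      exact this
    filter_upwards [ht.eventually hg] with v hv
    have h1 : ContDiffAt ℝ ∞ (fun v => g (z₀ + C v)) v := ContDiffAt.comp v hv hCs.contDiffAt
    exact C.symm.contDiff.contDiffAt.comp v (h1.sub contDiffAt_const)
  have hder : HasFDerivAt (fun v => C.symm (g (z₀ + C v) - z₀)) L 0 := by
    have h1 : HasFDerivAt (fun v : V => z₀ + C v) (C : V →L[ℝ] V) 0 :=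
      (C.hasFDerivAt).const_add z₀
    have h2 : HasFDerivAt g (fderiv ℝ g z₀) (z₀ + C 0) := by
      rw [hC0]
      exact (hg.self_of_nhds.differentiableAt (by simp)).hasFDerivAt
    have h3 := (C.symm.hasFDerivAt (x := g (z₀ + C 0) - z₀)).comp (0 : V) ((h2.comp (0 : V) h1).sub_const z₀)
    have h4 : ((C.symm : V →L[ℝ] V).comp ((fderiv ℝ g z₀).comp (C : V →L[ℝ] V))) = L := by
      refine ContinuousLinearMap.ext fun v => ?_
      simp only [ContinuousLinearMap.comp_apply, ContinuousLinearEquiv.coe_coe, hC,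
        ContinuousLinearEquiv.symm_apply_apply]
    rw [h4] at h3
    exact h3
  obtain ⟨f, hf, hfe⟩ := localise_at hf0
  have hf00 : f 0 = 0 := by
    rw [hfe.eq_of_nhds]
    simp only [map_zero, add_zero, hfix, sub_self]
  have hfd : fderiv ℝ f 0 = L := by
    rw [hfe.fderiv_eq]
    exact hder.fderiv
  obtain ⟨h, hh, hh0, hhd, hO⟩ := normal_formM b hf hf00 hfd hΛ hnr n
  refine ⟨fun v => z₀ + C (h v), contDiff_const.add (C.contDiff.comp hh), ?_, ?_, ?_⟩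
  · simp only [hh0, map_zero, add_zero]
  · have h1 : HasFDerivAt h (ContinuousLinearMap.id ℝ V) 0 := by
      rw [← hhd]
      exact (hh.differentiable (by simp) 0).hasFDerivAt
    have h2 : HasFDerivAt (fun v => z₀ + C (h v)) ((C : V →L[ℝ] V).comp (ContinuousLinearMap.id ℝ V)) 0 :=
      ((C.hasFDerivAt (x := h 0)).comp (0 : V) h1).const_add z₀
    rw [h2.fderiv, ContinuousLinearMap.comp_id]
  · have ht : Tendsto h (𝓝 0) (𝓝 0) := by
      have := hh.continuous.tendsto 0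
      rw [hh0] at this
      exact this
    have h3 : (fun v => C (f (h v) - h (L v))) =O[𝓝 0] fun v => ‖v‖ ^ n :=
      ((C : V →L[ℝ] V).isBigO_comp _ _).trans hO
    refine h3.congr' ?_ (EventuallyEq.refl _ _)
    filter_upwards [ht.eventually hfe] with v hv
    rw [hv, map_sub, ContinuousLinearEquiv.apply_symm_apply]
    abel

theorem db07_bij (b : Module.Basis ι ℝ V) {L : V →L[ℝ] V} {Λ : ι → ℝ} (hΛ : ∀ a, L (b a) = Λ a • b a)
    (hne : ∀ a, Λ a ≠ 0) : Function.Bijective L := by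
  have hs : Function.Surjective (L : V →ₗ[ℝ] V) := by
    intro w
    refine ⟨∑ a, (b.repr w a / Λ a) • b a, ?_⟩
    rw [map_sum]
    conv_rhs => rw [← b.sum_repr w]
    refine Finset.sum_congr rfl fun a _ => ?_
    rw [map_smul, ContinuousLinearMap.coe_coe, hΛ, smul_smul, div_mul_cancel₀ _ (hne a)]
  exact ⟨LinearMap.injective_iff_surjective.2 hs, hs⟩

/-- Linearisation after a small perturbation.

PROOF. κ₀ from `db07_approx` with n = R+1.  θ = g ∘ κ₀ is smooth near 0 (κ₀ continuous, κ₀ 0 = z₀), θ 0 = z₀, fderiv θ 0 = fderiv g z₀ ∘ C = C ∘ L is bijective (lam, mu ≠ 0).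
`inverse_fun`: τ smooth with τ z₀ = 0, τ (θ v) = v for v near 0, θ (τ w) = w for w near z₀.  G w = κ₀ (L (τ w)) is smooth, and near z₀: G w - w = κ₀ (L (τ w)) - θ (τ w) =
- (g (κ₀ v) - κ₀ (L v)) at v = τ w, so it is O(‖τ w‖^(R+1)) = O(‖w - z₀‖^(R+1)) (τ differentiable at z₀, τ z₀ = 0: `IsBigO.comp_tendsto`, `DifferentiableAt.isBigO_sub`).
`flat_corr` gives ψ with ψ = G near z₀.  For v near 0: ψ (g (κ₀ v)) = ψ (θ v) = G (θ v) = κ₀ (L (τ (θ v))) = κ₀ (L v). -/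
theorem flat_germM (b : Module.Basis ι ℝ V) {g : V → V} {z₀ : V} (hg : ∀ᶠ z in 𝓝 z₀, ContDiffAt ℝ ∞ g z)
    (hfix : g z₀ = z₀) (C : V ≃L[ℝ] V) {L : V →L[ℝ] V} {Λ : ι → ℝ} (hC : ∀ v, fderiv ℝ g z₀ (C v) = C (L v))
    (hΛ : ∀ a, L (b a) = Λ a • b a) (hne : ∀ a, Λ a ≠ 0)
    (hnr : ∀ n : ℕ, 2 ≤ n → ∀ (t : Fin n → ι) (a : ι), ∏ j, Λ (t j) ≠ Λ a) (R : ℕ) :
    ∃ G κ₀ : V → V, ContDiff ℝ ∞ G ∧ ((fun w => G w - w) =O[𝓝 z₀] fun w => ‖w - z₀‖ ^ (R + 1)) ∧ ContDiff ℝ ∞ κ₀ ∧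
      κ₀ 0 = z₀ ∧ fderiv ℝ κ₀ 0 = (C : V →L[ℝ] V) ∧ ∀ᶠ v in 𝓝 (0 : V), G (g (κ₀ v)) = κ₀ (L v) := by
  obtain ⟨κ₀, hκ, hκ0, hκd, hO⟩ := db07_approx b hg hfix C hC hΛ hnr (R + 1)
  have hκt : Tendsto κ₀ (𝓝 0) (𝓝 z₀) := by
    have := hκ.continuous.tendsto 0
    rw [hκ0] at this
    exact this
  have hθs : ∀ᶠ v in 𝓝 (0 : V), ContDiffAt ℝ ∞ (fun v => g (κ₀ v)) v := by
    filter_upwards [hκt.eventually hg] with v hv
    exact ContDiffAt.comp v hv hκ.contDiffAt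
  have hθ0 : g (κ₀ 0) = z₀ := by rw [hκ0, hfix]
  have hθd : fderiv ℝ (fun v => g (κ₀ v)) 0 = (fderiv ℝ g z₀).comp (C : V →L[ℝ] V) := by
    have h1 : HasFDerivAt κ₀ (C : V →L[ℝ] V) 0 := by
      rw [← hκd]
      exact (hκ.differentiable (by simp) 0).hasFDerivAt
    have h2 : HasFDerivAt g (fderiv ℝ g z₀) (κ₀ 0) := by
      rw [hκ0]
      exact (hg.self_of_nhds.differentiableAt (by simp)).hasFDerivAt
    exact (h2.comp (0 : V) h1).fderiv
  have hbij : Function.Bijective (fderiv ℝ (fun v => g (κ₀ v)) 0) := by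
    rw [hθd]
    have h1 : ∀ v, ((fderiv ℝ g z₀).comp (C : V →L[ℝ] V)) v = C (L v) := fun v => hC v
    have h2 : Function.Bijective L := db07_bij b hΛ hne
    have h3 : ⇑((fderiv ℝ g z₀).comp (C : V →L[ℝ] V)) = fun v => C (L v) := funext h1
    rw [h3]
    exact C.bijective.comp h2
  obtain ⟨τ, hτ, hτ0, hτl, hτr⟩ := inverse_fun hθs hbij
  simp only [hθ0] at hτ0 hτr
  have hτt : Tendsto τ (𝓝 z₀) (𝓝 0) := by
    have := hτ.continuous.tendsto z₀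
    rw [hτ0] at this
    exact this
  have hG : ContDiff ℝ ∞ (fun w => κ₀ (L (τ w))) :=
    hκ.comp (L.contDiff.comp hτ)
  have hGO : (fun w => κ₀ (L (τ w)) - w) =O[𝓝 z₀] fun w => ‖w - z₀‖ ^ (R + 1) := by
    have h1 : (fun w => g (κ₀ (τ w)) - κ₀ (L (τ w))) =O[𝓝 z₀] fun w => ‖τ w‖ ^ (R + 1) :=
      hO.comp_tendsto hτt
    have h2 : (fun w => ‖τ w‖ ^ (R + 1)) =O[𝓝 z₀] fun w => ‖w - z₀‖ ^ (R + 1) := by
      have h3 : (fun w => τ w - τ z₀) =O[𝓝 z₀] fun w => w - z₀ := (hτ.differentiable (by simp) z₀).isBigO_sub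
      simp only [hτ0, sub_zero] at h3
      exact h3.norm_norm.pow _
    refine ((h1.trans h2).neg_left).congr' ?_ (EventuallyEq.refl _ _)
    filter_upwards [hτr] with w hw
    rw [hw]
    abel
  refine ⟨fun w => κ₀ (L (τ w)), κ₀, hG, hGO, hκ, hκ0, hκd, ?_⟩
  filter_upwards [hτl] with v h2
  rw [h2]

end Pool.Agent.Lib.H37D
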