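import Pool.Agent.Lib.H37D.BDefs

/-! # H37D, chunk DB08a (M, linear algebra): orientation in the quotient by the strong stable directions -/

open Set Filter Topology
open scoped ContDiff

namespace Pool.Agent.Lib.H37D

open Pool.Agent.Lib.H37N

variable {d : ℕ}

/-- PROOF. (u.1, u.2) = (u.1,0) + (0,u.2), linearity. -/
theorem slp_apply (K : En d →L[ℝ] En d) (s : Wd d →L[ℝ] Pt) (z : Pt) :
    slp K s z = (K (z, 0)).1 - s ((K (z, 0)).2) := rfl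

theorem db08a_lin (A : Pt →L[ℝ] Pt) (v : Pt) : A v = v.1 • A (1, 0) + v.2 • A (0, 1) := by
  have e : v = v.1 • ((1, 0) : Pt) + v.2 • ((0, 1) : Pt) := by simp
  conv_lhs => rw [e]
  rw [map_add, map_smul, map_smul]

/-- The determinant is multiplicative.

PROOF. Write B (1,0) = (a,b), B (0,1) = (a',b'): A (B (1,0)) = a • A (1,0) + b • A (0,1); `ring`. -/
theorem det2_comp (A B : Pt →L[ℝ] Pt) : det2 (A.comp B) = det2 A * det2 B := by
  have h1 : (A.comp B) (1, 0) = A (B (1, 0)) := rfl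
  have h2 : (A.comp B) (0, 1) = A (B (0, 1)) := rfl
  unfold det2
  rw [h1, h2, db08a_lin A (B (1, 0)), db08a_lin A (B (0, 1))]
  simp only [Prod.fst_add, Prod.smul_fst, Prod.snd_add, Prod.smul_snd, smul_eq_mul]
  ring

theorem db08a_split (K : En d →L[ℝ] En d) (u : En d) : K u = K (u.1, 0) + K (0, u.2) := by
  rw [← map_add]
  congr 1
  simp

/-- The planar part of the inverse.

PROOF. For w: (K (0,w)).2 = 0 implies (K (0,w)).1 = 0 (hsl), so K (0,w) = 0 and w = 0 (D (K (0,w)) = (0,w)).  So w ↦ (K (0,w)).2 is an injective linear endomorphism of the finite-dimensional space Wd d,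
hence a linear equivalence e (`LinearEquiv.ofInjectiveEndo` or `LinearMap.injective_iff_surjective`); s w' := (K (0, e⁻¹ w')).1 (continuous: finite dimension, `LinearMap.mkContinuous`), ‖s w'‖ ≤ 1/10^8 ‖w'‖ by hsl, so
‖s‖ ≤ 1/10^8 (`ContinuousLinearMap.opNorm_le_bound`), and K (0,w) = (s w', w') with w' = e w.  B z := (D (z,0)).1.  For u: u = (u.1 - s u.2, 0) + (s u.2, u.2), and (s u.2, u.2) = K (0, e⁻¹ u.2), so
D (s u.2, u.2) = (0, e⁻¹ u.2) has planar part 0: (D u).1 = B (u.1 - s u.2).  For z: D (K (z,0)) = (z,0), so z = B ((K (z,0)).1 - s (K (z,0)).2) = B (slp K s z): B.comp (slp K s) = id,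
det2 B * det2 (slp K s) = 1 (`det2_comp`) and det2 (slp K s) > 0 (hsg), so det2 B > 0. -/
theorem sgn2_of {K D : En d →L[ℝ] En d} (hDK : ∀ u, D (K u) = u)
    (hsg : ∀ s : Wd d →L[ℝ] Pt, ‖s‖ ≤ 1 / 10 ^ 8 → 0 < det2 (slp K s))
    (hsl : ∀ w : Wd d, ‖(K (0, w)).1‖ ≤ 1 / 10 ^ 8 * ‖(K (0, w)).2‖) :
    ∃ (B : Pt →L[ℝ] Pt) (s : Wd d →L[ℝ] Pt), 0 < det2 B ∧ ‖s‖ ≤ 1 / 10 ^ 8 ∧
      ∀ u : En d, (D u).1 = B (u.1 - s u.2) := by
  set Kw : Wd d →L[ℝ] En d := K.comp (ContinuousLinearMap.inr ℝ Pt (Wd d)) with hKw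
  have hKwa : ∀ w, Kw w = K (0, w) := fun w => rfl
  set E : Wd d →ₗ[ℝ] Wd d := (((ContinuousLinearMap.snd ℝ Pt (Wd d)).comp Kw : Wd d →L[ℝ] Wd d) :
    Wd d →ₗ[ℝ] Wd d) with hE
  have hEa : ∀ w, E w = (K (0, w)).2 := fun w => rfl
  have hinj : Function.Injective E := by
    rw [injective_iff_map_eq_zero]
    intro w hw
    rw [hEa] at hw
    have h1 := hsl w
    rw [hw, norm_zero, mul_zero] at h1
    have h2 : K (0, w) = 0 := Prod.ext (norm_le_zero_iff.1 h1) hw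
    have h3 := hDK (0, w)
    rw [h2, map_zero] at h3
    exact (congrArg Prod.snd h3).symm
  set e : Wd d ≃ₗ[ℝ] Wd d := LinearEquiv.ofInjectiveEndo E hinj with he
  have hea : ∀ w, e w = (K (0, w)).2 := fun w => rfl
  have hes : ∀ w, (K (0, e.symm w)).2 = w := fun w => by
    rw [← hea, LinearEquiv.apply_symm_apply]
  set s0 : Wd d →ₗ[ℝ] Pt := (((ContinuousLinearMap.fst ℝ Pt (Wd d)).comp Kw : Wd d →L[ℝ] Pt) :
    Wd d →ₗ[ℝ] Pt).comp e.symm.toLinearMap with hs0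
  have hs0a : ∀ w, s0 w = (K (0, e.symm w)).1 := fun w => rfl
  have hs0b : ∀ w, ‖s0 w‖ ≤ 1 / 10 ^ 8 * ‖w‖ := fun w => by
    rw [hs0a]
    have := hsl (e.symm w)
    rwa [hes] at this
  set s : Wd d →L[ℝ] Pt := s0.mkContinuous (1 / 10 ^ 8) hs0b with hs
  have hsa : ∀ w, s w = (K (0, e.symm w)).1 := fun w => rfl
  have hsn : ‖s‖ ≤ 1 / 10 ^ 8 := s0.mkContinuous_norm_le (by norm_num) hs0b
  have hK : ∀ w, K (0, e.symm w) = (s w, w) := fun w => Prod.ext (hsa w).symm (hes w)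
  set B : Pt →L[ℝ] Pt := ((ContinuousLinearMap.fst ℝ Pt (Wd d)).comp D).comp
    (ContinuousLinearMap.inl ℝ Pt (Wd d)) with hB
  have hBa : ∀ z, B z = (D (z, 0)).1 := fun z => rfl
  have hu : ∀ u : En d, (D u).1 = B (u.1 - s u.2) := by
    intro u
    have h1 : u = (u.1 - s u.2, 0) + (s u.2, u.2) := by
      refine Prod.ext ?_ ?_
      · show u.1 = u.1 - s u.2 + s u.2
        abel
      · show u.2 = 0 + u.2
        rw [zero_add]
    have h2 : D (s u.2, u.2) = (0, e.symm u.2) := by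
      rw [← hK, hDK]
    conv_lhs => rw [h1]
    rw [map_add, h2, hBa]
    simp
  refine ⟨B, s, ?_, hsn, hu⟩
  have h1 : B.comp (slp K s) = ContinuousLinearMap.id ℝ Pt := by
    refine ContinuousLinearMap.ext fun z => ?_
    show B (slp K s z) = z
    rw [slp_apply, ← hu, hDK]
  have h2 := det2_comp B (slp K s)
  rw [h1] at h2
  have h3 : det2 (ContinuousLinearMap.id ℝ Pt) = 1 := by
    simp [det2]
  rw [h3] at h2
  have h4 := hsg s hsn
  by_contra hcon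
  have h5 : det2 B * det2 (slp K s) ≤ 0 := mul_nonpos_of_nonpos_of_nonneg (not_lt.1 hcon) h4.le
  linarith

/-- The sign conditions are open.

PROOF. Bijectivity: the continuous linear equivalences are open (`ContinuousLinearEquiv.nhds`).  Second: the set {s | ‖s‖ ≤ 1/10^8} = closedBall 0 (1/10^8) is compact
(Wd d →L Pt is finite-dimensional: `ProperSpace`/`isCompact_closedBall`), (K,s) ↦ det2 (slp K s) is continuous (evaluations of K and s are continuous: `ContinuousLinearMap.apply`, or `fun_prop`), so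
`IsCompact.eventually_forall_of_forall_eventually` (tube lemma).  Third: C is antilipschitz: ‖C u‖ ≥ c ‖u‖ with c > 0 (‖u‖ = ‖C⁻¹ (C u)‖ ≤ ‖C⁻¹‖ ‖C u‖), so for u = (0,w): ‖C (0,w)‖ ≥ c ‖w‖, and
‖C (0,w)‖ = max(‖.1‖,‖.2‖) = ‖(C (0,w)).2‖ by h2.  For ‖K - C‖ ≤ δ: ‖(K (0,w)).1‖ ≤ 1/10^9 ‖(C (0,w)).2‖ + δ ‖w‖ ≤ 1/10^9 (‖(K (0,w)).2‖ + δ‖w‖) + δ‖w‖ and ‖(K (0,w)).2‖ ≥ (c - δ)‖w‖:
choose δ with 2 δ ≤ (9/10^9) (c - δ). -/
theorem sgn_open (C : En d ≃L[ℝ] En d)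
    (h1 : ∀ s : Wd d →L[ℝ] Pt, ‖s‖ ≤ 1 / 10 ^ 8 → 0 < det2 (slp (C : En d →L[ℝ] En d) s))
    (h2 : ∀ w : Wd d, ‖(C (0, w)).1‖ ≤ 1 / 10 ^ 9 * ‖(C (0, w)).2‖) :
    ∀ᶠ K : En d →L[ℝ] En d in 𝓝 (C : En d →L[ℝ] En d), Function.Bijective K ∧
      (∀ s : Wd d →L[ℝ] Pt, ‖s‖ ≤ 1 / 10 ^ 8 → 0 < det2 (slp K s)) ∧
      ∀ w : Wd d, ‖(K (0, w)).1‖ ≤ 1 / 10 ^ 8 * ‖(K (0, w)).2‖ := by
  have hA : ∀ᶠ K : En d →L[ℝ] En d in 𝓝 (C : En d →L[ℝ] En d), Function.Bijective K := by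
    filter_upwards [ContinuousLinearEquiv.nhds C] with K hK
    obtain ⟨e', he'⟩ := hK
    rw [← he']
    exact e'.bijective
  have hB : ∀ᶠ K : En d →L[ℝ] En d in 𝓝 (C : En d →L[ℝ] En d),
      ∀ s ∈ Metric.closedBall (0 : Wd d →L[ℝ] Pt) (1 / 10 ^ 8), 0 < det2 (slp K s) := by
    have hprop : ProperSpace (Wd d →L[ℝ] Pt) := FiniteDimensional.proper ℝ _
    refine (isCompact_closedBall (0 : Wd d →L[ℝ] Pt) (1 / 10 ^ 8)).eventually_forall_of_forall_eventually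
      fun s hs => ?_
    have hev : ∀ z : Pt, Continuous fun p : (En d →L[ℝ] En d) × (Wd d →L[ℝ] Pt) => slp p.1 p.2 z := by
      intro z
      have e1 : Continuous fun p : (En d →L[ℝ] En d) × (Wd d →L[ℝ] Pt) => p.1 (z, 0) :=
        continuous_fst.clm_apply continuous_const
      exact e1.fst.sub (continuous_snd.clm_apply e1.snd)
    have hc : Continuous fun p : (En d →L[ℝ] En d) × (Wd d →L[ℝ] Pt) => det2 (slp p.1 p.2) :=
      ((hev (1, 0)).fst.mul (hev (0, 1)).snd).sub ((hev (1, 0)).snd.mul (hev (0, 1)).fst)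
    exact hc.continuousAt.eventually (lt_mem_nhds (h1 s (by simpa using hs)))
  have hCi : ∀ w : Wd d, ‖w‖ ≤ (‖(C.symm : En d →L[ℝ] En d)‖ + 1) * ‖(C (0, w)).2‖ := by
    intro w
    have e1 : ‖C.symm (C (0, w))‖ ≤ ‖(C.symm : En d →L[ℝ] En d)‖ * ‖C (0, w)‖ :=
      (C.symm : En d →L[ℝ] En d).le_opNorm _
    rw [ContinuousLinearEquiv.symm_apply_apply] at e1
    have e2 : ‖w‖ ≤ ‖((0, w) : En d)‖ := norm_snd_le ((0, w) : En d)
    have e3 : ‖C (0, w)‖ ≤ ‖(C (0, w)).2‖ := by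
      rw [Prod.norm_def]
      refine max_le ((h2 w).trans ?_) le_rfl
      exact mul_le_of_le_one_left (norm_nonneg _) (by norm_num)
    calc ‖w‖ ≤ ‖(C.symm : En d →L[ℝ] En d)‖ * ‖C (0, w)‖ := e2.trans e1
      _ ≤ (‖(C.symm : En d →L[ℝ] En d)‖ + 1) * ‖(C (0, w)).2‖ :=
        mul_le_mul (by linarith) e3 (norm_nonneg _) (by positivity)
  set a : ℝ := ‖(C.symm : En d →L[ℝ] En d)‖ + 1 with ha
  have ha0 : 0 < a := by positivity
  have hC : ∀ᶠ K : En d →L[ℝ] En d in 𝓝 (C : En d →L[ℝ] En d),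
      ∀ w : Wd d, ‖(K (0, w)).1‖ ≤ 1 / 10 ^ 8 * ‖(K (0, w)).2‖ := by
    have hδ : 0 < 1 / (10 ^ 9 * a) := by positivity
    filter_upwards [Metric.ball_mem_nhds (C : En d →L[ℝ] En d) hδ] with K hK w
    rw [mem_ball_iff_norm] at hK
    have e0 : ‖((0, w) : En d)‖ = ‖w‖ := by
      rw [Prod.norm_def, norm_zero]
      exact max_eq_right (norm_nonneg w)
    have e1 : ‖K (0, w) - C (0, w)‖ ≤ 1 / (10 ^ 9 * a) * ‖w‖ := by
      have := (K - (C : En d →L[ℝ] En d)).le_opNorm (0, w)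
      rw [e0] at this
      exact this.trans (mul_le_mul_of_nonneg_right hK.le (norm_nonneg _))
    have e2 : ‖(K (0, w)).1 - (C (0, w)).1‖ ≤ 1 / (10 ^ 9 * a) * ‖w‖ := (norm_fst_le _).trans e1
    have e3 : ‖(K (0, w)).2 - (C (0, w)).2‖ ≤ 1 / (10 ^ 9 * a) * ‖w‖ := (norm_snd_le _).trans e1
    have e4 : 1 / (10 ^ 9 * a) * ‖w‖ ≤ 1 / 10 ^ 9 * ‖(C (0, w)).2‖ := by
      have := hCi w
      rw [one_div_mul_eq_div, div_le_iff₀ (by positivity)]
      calc ‖w‖ ≤ a * ‖(C (0, w)).2‖ := this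
        _ = 1 / 10 ^ 9 * ‖(C (0, w)).2‖ * (10 ^ 9 * a) := by ring
    have e5 : ‖(K (0, w)).1‖ ≤ ‖(K (0, w)).1 - (C (0, w)).1‖ + ‖(C (0, w)).1‖ := norm_le_norm_sub_add _ _
    have e6 : ‖(C (0, w)).2‖ ≤ ‖(K (0, w)).2 - (C (0, w)).2‖ + ‖(K (0, w)).2‖ := by
      rw [norm_sub_rev]
      exact norm_le_norm_sub_add _ _
    have e7 := h2 w
    have e8 := norm_nonneg (C (0, w)).2
    have e9 := e2.trans e4
    have e10 := e3.trans e4
    clear e1 e2 e3 e4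
    norm_num at e7 e9 e10 ⊢
    linarith
  filter_upwards [hA, hB, hC] with K k1 k2 k3
  exact ⟨k1, fun s hs => k2 s (by simpa using hs), k3⟩

end Pool.Agent.Lib.H37D
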