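import Pool.Agent.Lib.H37D.DB08a
import Pool.Agent.Lib.H37N.T10a
import Pool.Agent.Lib.H37N.B08

/-! # H37D, chunk DB08b (M): from a germ to a chart on the box (port of H37N/B08.lean) -/

open Set Filter Topology
open scoped ContDiff

namespace Pool.Agent.Lib.H37D

open Pool.Agent.Lib.H37N

variable {d : ℕ}

theorem db08b_norm {v : En d} (hv : v ∈ BxD d) : ‖v‖ < 2 := by
  rw [Prod.norm_def]
  refine max_lt (b08_norm hv.1) ?_
  exact mem_ball_zero_iff.1 hv.2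

theorem db08b_fderiv {κ₀ : En d → En d} (hκ : ContDiff ℝ ∞ κ₀) (r : ℝ) (v : En d) :
    fderiv ℝ (fun v => κ₀ (r • v)) v = r • fderiv ℝ κ₀ (r • v) := by
  have h1 : HasFDerivAt (fun v : En d => r • v) (r • ContinuousLinearMap.id ℝ (En d)) v :=
    (hasFDerivAt_id v).const_smul r
  have h2 : HasFDerivAt κ₀ (fderiv ℝ κ₀ (r • v)) (r • v) :=
    (hκ.differentiable (by simp) _).hasFDerivAt
  have h3 : fderiv ℝ (fun v => κ₀ (r • v)) v =
      (fderiv ℝ κ₀ (r • v)).comp (r • ContinuousLinearMap.id ℝ (En d)) := (h2.comp v h1).fderiv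
  rw [h3]
  refine ContinuousLinearMap.ext fun w => ?_
  simp only [ContinuousLinearMap.comp_apply, smul_apply,
    ContinuousLinearMap.id_apply, map_smul]

theorem db08b_slp (K : En d →L[ℝ] En d) (s : Wd d →L[ℝ] Pt) (r : ℝ) :
    slp (r • K) s = r • slp K s := by
  refine ContinuousLinearMap.ext fun z => ?_
  rw [slp_apply, smul_apply, smul_apply, slp_apply, Prod.smul_fst, Prod.smul_snd, map_smul,
    smul_sub]

theorem db08b_det2 (M : Pt →L[ℝ] Pt) (r : ℝ) : det2 (r • M) = r ^ 2 * det2 M := by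
  simp only [det2, smul_apply, Prod.smul_fst, Prod.smul_snd, smul_eq_mul]
  ring

theorem db08b_bij {K : En d →L[ℝ] En d} (hK : Function.Bijective K) {r : ℝ} (hr : r ≠ 0) :
    Function.Bijective (r • K : En d →L[ℝ] En d) := by
  constructor
  · intro v w hvw
    simp only [smul_apply] at hvw
    exact hK.1 (smul_right_injective (En d) hr hvw)
  · intro w
    obtain ⟨v, hv⟩ := hK.2 (r⁻¹ • w)
    refine ⟨v, ?_⟩
    simp only [smul_apply]
    rw [hv, smul_smul, mul_inv_cancel₀ hr, one_smul]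

/-- PROOF. As `chart_of_germ` in H37N/B08.lean.  fderiv κ₀ 0 = C is bijective; `inverse_fun`: c₀ smooth, c₀ (κ₀ v) = v for v near 0, κ₀ (c₀ w) = w for w in an open N containing κ₀ 0.
Choose r in (0,1) such that for all u with ‖u‖ < 3 r: c₀ (κ₀ u) = u, κ₀ u ∈ N, κ₀ u ∈ interior (VV i) × ball 0 1 (open), g (κ₀ u) = κ₀ (dgD lam mu al u), and K = fderiv κ₀ u is bijective and satisfies
the two sign conditions of `sgn_open` (fderiv κ₀ is continuous).  κ v = κ₀ (r • v), c w = r⁻¹ • c₀ w.  BxD d is in the ball of radius 2 (sup norm).  fderiv κ v = r • fderiv κ₀ (r • v) (chain rule):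
bijective (r ≠ 0), slp (r • K) s = r • slp K s, det2 (r • M) = r^2 det2 M > 0, and the slope condition does not change.  isOpen: κ '' BxD = N ∩ {w | c w ∈ BxD}.  sgn2 at z = κ v: D = fderiv c z satisfies
D (fderiv κ v u) = u (differentiate c (κ v') = v' for v' near v, BxD is open), `sgn2_of`.  lin: |y| < 2 because |mu y| < 2 and mu > 1, the point r • ((x,y),w) has norm < 2 r, and
dgD lam mu al (r • v) = r • dgD lam mu al v. -/
theorem chart_of_germD {g : En d → En d} {i : Sy} {κ₀ : En d → En d} (hκ : ContDiff ℝ ∞ κ₀)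
    (h0 : κ₀ 0 ∈ interior (VV i) ×ˢ Metric.ball (0 : Wd d) 1) (C : En d ≃L[ℝ] En d)
    (hC : fderiv ℝ κ₀ 0 = (C : En d →L[ℝ] En d))
    (h1 : ∀ s : Wd d →L[ℝ] Pt, ‖s‖ ≤ 1 / 10 ^ 8 → 0 < det2 (slp (C : En d →L[ℝ] En d) s))
    (h2 : ∀ w : Wd d, ‖(C (0, w)).1‖ ≤ 1 / 10 ^ 9 * ‖(C (0, w)).2‖)
    {lam mu : ℝ} {al : Wd d} (hlam : lam ∈ Ioo (49 / 100 : ℝ) (51 / 100)) (hmu : mu ∈ muR i)
    (hal : ∀ k, al k ∈ Ioo (89 / 10 ^ 9 : ℝ) (101 / 10 ^ 9))
    (hconj : ∀ᶠ v in 𝓝 (0 : En d), g (κ₀ v) = κ₀ (dgD lam mu al v)) :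
    ∃ κ c : En d → En d, LinChartD g i κ c lam mu al := by
  have hbij : Function.Bijective (fderiv ℝ κ₀ 0) := by
    rw [hC]
    exact C.bijective
  obtain ⟨c₀, hc, -, hl, hr⟩ := inverse_fun (f := κ₀) (x₀ := (0 : En d))
    (Eventually.of_forall fun x => hκ.contDiffAt) hbij
  obtain ⟨N, hNe, hNo, hN0⟩ := eventually_nhds_iff.1 hr
  have hfc : Continuous (fderiv ℝ κ₀) := hκ.continuous_fderiv (by simp)
  have hsg := sgn_open C h1 h2
  rw [← hC] at hsg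
  have hVo : IsOpen (interior (VV i) ×ˢ Metric.ball (0 : Wd d) 1) :=
    isOpen_interior.prod Metric.isOpen_ball
  have hev : ∀ᶠ u in 𝓝 (0 : En d), c₀ (κ₀ u) = u ∧ κ₀ u ∈ N ∧
      (Function.Bijective (fderiv ℝ κ₀ u) ∧
      (∀ s : Wd d →L[ℝ] Pt, ‖s‖ ≤ 1 / 10 ^ 8 → 0 < det2 (slp (fderiv ℝ κ₀ u) s)) ∧
      ∀ w : Wd d, ‖((fderiv ℝ κ₀ u) (0, w)).1‖ ≤ 1 / 10 ^ 8 * ‖((fderiv ℝ κ₀ u) (0, w)).2‖) ∧
      κ₀ u ∈ interior (VV i) ×ˢ Metric.ball (0 : Wd d) 1 ∧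
      g (κ₀ u) = κ₀ (dgD lam mu al u) := by
    filter_upwards [hl, hκ.continuous.continuousAt.eventually (hNo.mem_nhds hN0),
      hfc.continuousAt.eventually hsg,
      hκ.continuous.continuousAt.eventually (hVo.mem_nhds h0), hconj] with u h1 h2 h3 h4 h5
    exact ⟨h1, h2, h3, h4, h5⟩
  obtain ⟨δ, hδ, hδe⟩ := Metric.eventually_nhds_iff.1 hev
  have hr0 : 0 < δ / 3 := by positivity
  set r := δ / 3 with hrdef
  have hbig : ∀ v : En d, ‖v‖ < 2 → c₀ (κ₀ (r • v)) = r • v ∧ κ₀ (r • v) ∈ N ∧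
      (Function.Bijective (fderiv ℝ κ₀ (r • v)) ∧
      (∀ s : Wd d →L[ℝ] Pt, ‖s‖ ≤ 1 / 10 ^ 8 → 0 < det2 (slp (fderiv ℝ κ₀ (r • v)) s)) ∧
      ∀ w : Wd d, ‖((fderiv ℝ κ₀ (r • v)) (0, w)).1‖ ≤
        1 / 10 ^ 8 * ‖((fderiv ℝ κ₀ (r • v)) (0, w)).2‖) ∧
      κ₀ (r • v) ∈ interior (VV i) ×ˢ Metric.ball (0 : Wd d) 1 ∧
      g (κ₀ (r • v)) = κ₀ (dgD lam mu al (r • v)) := by
    intro v hv
    refine hδe ?_
    rw [dist_zero_right, norm_smul, Real.norm_of_nonneg hr0.le]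
    have : r * ‖v‖ < r * 2 := mul_lt_mul_of_pos_left hv hr0
    linarith
  have hleft : ∀ v ∈ BxD d, r⁻¹ • c₀ (κ₀ (r • v)) = v := by
    intro v hv
    rw [(hbig v (db08b_norm hv)).1, smul_smul, inv_mul_cancel₀ hr0.ne', one_smul]
  have hopen : IsOpen (BxD d) := (isOpen_Ioo.prod isOpen_Ioo).prod Metric.isOpen_ball
  have hcs : ContDiff ℝ ∞ (fun w => r⁻¹ • c₀ w) := hc.const_smul r⁻¹
  have hκs : ContDiff ℝ ∞ (fun v : En d => κ₀ (r • v)) := hκ.comp (contDiff_const_smul r)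
  have hsgn1 : ∀ v ∈ BxD d, ∀ s : Wd d →L[ℝ] Pt, ‖s‖ ≤ 1 / 10 ^ 8 →
      0 < det2 (slp (fderiv ℝ (fun v => κ₀ (r • v)) v) s) := by
    intro v hv s hs
    rw [db08b_fderiv hκ, db08b_slp, db08b_det2]
    exact mul_pos (by positivity) ((hbig v (db08b_norm hv)).2.2.1.2.1 s hs)
  refine ⟨fun v => κ₀ (r • v), fun w => r⁻¹ • c₀ w, ?_⟩
  refine ⟨hκs, ?_, ?_, ?_, ?_, hcs, hleft, ?_, hlam, hmu, hal, hsgn1, ?_⟩
  · intro v hv w hw hvw
    rw [← hleft v hv, ← hleft w hw]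
    simp only at hvw
    rw [hvw]
  · intro v hv
    rw [db08b_fderiv hκ]
    exact db08b_bij (hbig v (db08b_norm hv)).2.2.1.1 hr0.ne'
  · have heq : (fun v => κ₀ (r • v)) '' BxD d = N ∩ (fun w => r⁻¹ • c₀ w) ⁻¹' BxD d := by
      ext w
      constructor
      · rintro ⟨v, hv, rfl⟩
        refine ⟨(hbig v (db08b_norm hv)).2.1, ?_⟩
        simp only [mem_preimage]
        rw [hleft v hv]
        exact hv
      · rintro ⟨h1, h2⟩
        refine ⟨r⁻¹ • c₀ w, h2, ?_⟩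
        simp only
        rw [smul_smul, mul_inv_cancel₀ hr0.ne', one_smul]
        exact hNe w h1
    rw [heq]
    exact hNo.inter (hopen.preimage hcs.continuous)
  · rintro w ⟨v, hv, rfl⟩
    exact (hbig v (db08b_norm hv)).2.2.2.1
  · intro x y w hx hy hw
    have hmu1 := b08_one_lt hmu
    have hy2 : |y| < 2 := by
      rw [abs_mul, abs_of_pos (by linarith : 0 < mu)] at hy
      nlinarith [abs_nonneg y]
    have h1 := (hbig ((x, y), w) (by
      rw [Prod.norm_def, Prod.norm_def]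
      exact max_lt (max_lt hx hy2) hw)).2.2.2.2
    rw [h1, map_smul, dgD_apply]
  · rintro z ⟨v, hv, rfl⟩
    have hb := hbig v (db08b_norm hv)
    refine sgn2_of (K := fderiv ℝ (fun v => κ₀ (r • v)) v)
      (D := fderiv ℝ (fun w => r⁻¹ • c₀ w) (κ₀ (r • v))) ?_ (hsgn1 v hv) ?_
    · intro u
      have e1 : (fun v' : En d => r⁻¹ • c₀ (κ₀ (r • v'))) =ᶠ[𝓝 v] fun v' => v' := by
        filter_upwards [hopen.mem_nhds hv] with v' hv'
        exact hleft v' hv'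
      have e2 : HasFDerivAt (fun v' : En d => κ₀ (r • v'))
          (fderiv ℝ (fun v => κ₀ (r • v)) v) v :=
        (hκs.differentiable (by simp) v).hasFDerivAt
      have e3 : HasFDerivAt (fun w => r⁻¹ • c₀ w)
          (fderiv ℝ (fun w => r⁻¹ • c₀ w) (κ₀ (r • v))) (κ₀ (r • v)) :=
        (hcs.differentiable (by simp) _).hasFDerivAt
      have e4 := HasFDerivAt.comp v e3 e2
      have e5 : HasFDerivAt (fun v' : En d => v')
          ((fderiv ℝ (fun w => r⁻¹ • c₀ w) (κ₀ (r • v))).comp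
            (fderiv ℝ (fun v => κ₀ (r • v)) v)) v :=
        e4.congr_of_eventuallyEq e1.symm
      have e6 := e5.unique (hasFDerivAt_id v)
      have e7 := congrArg (fun L : En d →L[ℝ] En d => L u) e6
      exact e7
    · intro w
      rw [db08b_fderiv hκ]
      simp only [smul_apply, Prod.smul_fst, Prod.smul_snd, norm_smul]
      have h3 := hb.2.2.1.2.2 w
      have h4 : 0 ≤ ‖r‖ := norm_nonneg r
      calc ‖r‖ * ‖((fderiv ℝ κ₀ (r • v)) (0, w)).1‖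
          ≤ ‖r‖ * (1 / 10 ^ 8 * ‖((fderiv ℝ κ₀ (r • v)) (0, w)).2‖) :=
            mul_le_mul_of_nonneg_left h3 h4
        _ = 1 / 10 ^ 8 * (‖r‖ * ‖((fderiv ℝ κ₀ (r • v)) (0, w)).2‖) := by ring

end Pool.Agent.Lib.H37D
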