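import Pool.Agent.Lib.H37D.BDefs

/-! # H37D, chunk DB09a (M): the standard basis of `En d`, perturbation of the eigenvalues -/

open Set Filter Topology
open scoped ContDiff

namespace Pool.Agent.Lib.H37D

open Pool.Agent.Lib.H37N

variable {d : ℕ}

/-- the standard basis of `En d` -/
noncomputable def basD (d : ℕ) : Module.Basis (Fin 2 ⊕ Fin d) ℝ (En d) :=
  (Module.Basis.finTwoProd ℝ).prod (Pi.basisFun ℝ (Fin d))

/-- the eigenvalues as a function on the index set of the basis -/
def LamD (lam mu : ℝ) (al : Wd d) : Fin 2 ⊕ Fin d → ℝ := Sum.elim ![lam, mu] al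

/-- PROOF. Cases a = inl 0, inl 1, inr k: the basis vectors are ((1,0),0), ((0,1),0), (0, Pi.single k 1) (`Module.Basis.prod_apply_inl_fst` etc.); `dgD_apply`. -/
theorem dgD_basD (lam mu : ℝ) (al : Wd d) (a : Fin 2 ⊕ Fin d) :
    dgD lam mu al (basD d a) = LamD lam mu al a • basD d a := by
  rcases a with a | k
  · fin_cases a
    · rw [dgD_apply]
      ext j
      · simp [basD, LamD, Module.Basis.prod_apply_inl_fst]
      · simp [basD, LamD, Module.Basis.prod_apply_inl_fst]
      · simp [basD, LamD, mulw]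
    · rw [dgD_apply]
      ext j
      · simp [basD, LamD, Module.Basis.prod_apply_inl_fst]
      · simp [basD, LamD, Module.Basis.prod_apply_inl_fst]
      · simp [basD, LamD, mulw]
  · rw [dgD_apply]
    ext j
    · simp [basD, LamD]
    · simp [basD, LamD]
    · simp only [basD, LamD, mulw, Module.Basis.prod_apply_inr_snd, Pi.basisFun_apply, Sum.elim_inr,
        Prod.smul_snd, Pi.smul_apply, smul_eq_mul]
      by_cases hjk : j = k
      · subst hjk; simp
      · simp [hjk]

/-- The family of perturbations of the eigenvalues.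

PROOF. The map t ↦ C ∘ dgD (t (inl 0)) (t (inl 1)) (fun k => t (inr k)) ∘ C⁻¹ is linear in t (dgD is linear in (lam,mu,al)); a linear map on the finite-dimensional space is continuous
(`LinearMap.toContinuousLinearMap`). -/
theorem exists_pertA (C : En d ≃L[ℝ] En d) :
    ∃ A : (Fin 2 ⊕ Fin d → ℝ) →L[ℝ] (En d →L[ℝ] En d), ∀ t v,
      A t (C v) = C (dgD (t (Sum.inl 0)) (t (Sum.inl 1)) (fun k => t (Sum.inr k)) v) := by
  have hadd : ∀ (s t : Fin 2 ⊕ Fin d → ℝ) (v : En d),
      dgD ((s + t) (Sum.inl 0)) ((s + t) (Sum.inl 1)) (fun k => (s + t) (Sum.inr k)) v =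
        dgD (s (Sum.inl 0)) (s (Sum.inl 1)) (fun k => s (Sum.inr k)) v +
          dgD (t (Sum.inl 0)) (t (Sum.inl 1)) (fun k => t (Sum.inr k)) v := by
    intro s t v
    rw [dgD_apply, dgD_apply, dgD_apply]
    ext j
    · simp only [Pi.add_apply, Prod.fst_add]; ring
    · simp only [Pi.add_apply, Prod.fst_add, Prod.snd_add]; ring
    · simp only [Pi.add_apply, Prod.snd_add, mulw]; ring
  have hsmul : ∀ (r : ℝ) (t : Fin 2 ⊕ Fin d → ℝ) (v : En d),
      dgD ((r • t) (Sum.inl 0)) ((r • t) (Sum.inl 1)) (fun k => (r • t) (Sum.inr k)) v =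
        r • dgD (t (Sum.inl 0)) (t (Sum.inl 1)) (fun k => t (Sum.inr k)) v := by
    intro r t v
    rw [dgD_apply, dgD_apply]
    ext j
    · simp only [Pi.smul_apply, Prod.smul_fst, smul_eq_mul]; ring
    · simp only [Pi.smul_apply, Prod.smul_fst, Prod.smul_snd, smul_eq_mul]; ring
    · simp only [Pi.smul_apply, Prod.smul_snd, mulw, smul_eq_mul]; ring
  let A₀ : (Fin 2 ⊕ Fin d → ℝ) →ₗ[ℝ] (En d →L[ℝ] En d) :=
    { toFun := fun t => (C : En d →L[ℝ] En d).comp
        ((dgD (t (Sum.inl 0)) (t (Sum.inl 1)) (fun k => t (Sum.inr k))).comp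
          (C.symm : En d →L[ℝ] En d))
      map_add' := by
        intro s t
        apply ContinuousLinearMap.ext
        intro v
        simp only [ContinuousLinearMap.comp_apply, ContinuousLinearEquiv.coe_coe, hadd, map_add]
        rfl
      map_smul' := by
        intro r t
        apply ContinuousLinearMap.ext
        intro v
        simp only [ContinuousLinearMap.comp_apply, ContinuousLinearEquiv.coe_coe, hsmul, map_smul]
        rfl }
  refine ⟨LinearMap.toContinuousLinearMap A₀, fun t v => ?_⟩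
  rw [LinearMap.coe_toContinuousLinearMap']
  show C ((dgD (t (Sum.inl 0)) (t (Sum.inl 1)) (fun k => t (Sum.inr k))) (C.symm (C v))) = _
  rw [ContinuousLinearEquiv.symm_apply_apply]

/-- The derivative of the perturbed map at the fixed point.

PROOF. As `b09_deriv` in H37N/B09.lean: fderiv ψ z₀ = id + A t, chain rule at z₀ = g z₀; dgD t₀ t₁ t₂ (dgD lam mu al v) + dgD lam mu al v = dgD ((1+t₀) lam) .. v. -/
theorem db09_deriv {g ψ : En d → En d} {z₀ : En d} (hg : DifferentiableAt ℝ g z₀) (hfix : g z₀ = z₀)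
    (C : En d ≃L[ℝ] En d) {lam mu : ℝ} {al : Wd d} (hC : ∀ v, fderiv ℝ g z₀ (C v) = C (dgD lam mu al v))
    {A : (Fin 2 ⊕ Fin d → ℝ) →L[ℝ] (En d →L[ℝ] En d)}
    (hA : ∀ t v, A t (C v) = C (dgD (t (Sum.inl 0)) (t (Sum.inl 1)) (fun k => t (Sum.inr k)) v))
    (t : Fin 2 ⊕ Fin d → ℝ) (hψ : ψ =ᶠ[𝓝 z₀] fun z => z + A t (z - z₀)) (v : En d) :
    fderiv ℝ (ψ ∘ g) z₀ (C v) =
      C (dgD ((1 + t (Sum.inl 0)) * lam) ((1 + t (Sum.inl 1)) * mu) (fun k => (1 + t (Sum.inr k)) * al k) v) := by
  have h1 : HasFDerivAt (fun z => z + A t (z - z₀)) (ContinuousLinearMap.id ℝ (En d) + A t) z₀ := by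
    have h2 : HasFDerivAt (fun z : En d => A t (z - z₀)) (A t) z₀ := by
      have := (A t).hasFDerivAt.comp z₀ ((hasFDerivAt_id z₀).sub_const z₀)
      simpa [Function.comp_def] using this
    exact (hasFDerivAt_id z₀).add h2
  have h3 : HasFDerivAt ψ (ContinuousLinearMap.id ℝ (En d) + A t) (g z₀) := by
    rw [hfix]
    exact h1.congr_of_eventuallyEq hψ
  have h4 := (h3.comp z₀ hg.hasFDerivAt).fderiv
  rw [h4, ContinuousLinearMap.comp_apply, hC, ContinuousLinearMap.add_apply, hA,
    ContinuousLinearMap.id_apply, ← map_add]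
  congr 1
  rw [dgD_apply, dgD_apply, dgD_apply]
  ext j
  · simp only [Prod.fst_add]; ring
  · simp only [Prod.fst_add, Prod.snd_add]; ring
  · simp only [Prod.snd_add, Pi.add_apply, mulw]; ring

end Pool.Agent.Lib.H37D
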