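import Pool.Agent.Lib.H37D.DB02
import Pool.Agent.Lib.H37D.DB03
import Pool.Agent.Lib.H37D.DB04
import Pool.Agent.Lib.H37D.DB05
import Pool.Agent.Lib.H37D.DB07
import Pool.Agent.Lib.H37D.DB08b
import Pool.Agent.Lib.H37D.DB09a
import Pool.Agent.Lib.H37N.B09

/-! # H37D, chunk DB09 (M): a chart at one of the fixed points (port of H37N/B09.lean) -/

open Set Filter Topology
open scoped ContDiff

namespace Pool.Agent.Lib.H37D

open Pool.Agent.Lib.H37N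

variable {d : ℕ}

theorem db09_pos {lam mu : ℝ} {al : Wd d} (h1 : 0 < lam) (h2 : 0 < mu) (h3 : ∀ k, 0 < al k)
    (j : Fin 2 ⊕ Fin d) : 0 < LamD lam mu al j := by
  rcases j with j | k
  · fin_cases j
    · exact h1
    · exact h2
  · exact h3 k

theorem db09_ev {ι : Type} [Finite ι] (j : ι) {a : ℝ} {O : Set ℝ} (hO : IsOpen O) (ha : a ∈ O) :
    ∀ᶠ t in 𝓝 (0 : ι → ℝ), (1 + t j) * a ∈ O := by
  have hc : Continuous fun t : ι → ℝ => (1 + t j) * a := by fun_prop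
  have ht : Tendsto (fun t : ι → ℝ => (1 + t j) * a) (𝓝 0) (𝓝 a) := by
    have := hc.tendsto 0
    simpa using this
  exact ht.eventually (hO.mem_nhds ha)

/-- PROOF. z₀, C, lam, mu, al from `exists_fixD`, `exists_eigD`; A from `exists_pertA`; ε₁ from hU for g.  `lin_pertD` with A and B = VVd d i (a neighbourhood of z₀, z₀ ∈ interior (K0D d) by
`VVd_sub_interior_K0D`), and `gen_logs` with L = LamD lam mu al, p t := (the conclusion of `lin_pertD` at t) ∧ (1 + t (inl 0)) lam ∈ Ioo (49/100) (51/100) ∧ (1 + t (inl 1)) mu ∈ muR i ∧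
∀ k, (1 + t (inr k)) al k ∈ Ioo (89/10^9) (101/10^9) (eventually true, open conditions): ψ₁ and the new lam₁, mu₁, al₁ with LamD lam₁ mu₁ al₁ j = (1 + t j) LamD lam mu al j (cases j).
g₁ = ψ₁ ∘ g ∈ U is NearS, g₁ z₀ = z₀, the derivative is given by `db09_deriv`.  ε₂ from hU for g₁; `flat_germM` for g₁ with b = basD d, L = dgD lam₁ mu₁ al₁, Λ = LamD lam₁ mu₁ al₁ (`dgD_basD`; Λ ≠ 0: positive;
nonresonance from `nonresM`): G, κ₀; `flat_corrD` with B = VVd d i: ψ₂ = G near z₀, so ψ₂ (g₁ (κ₀ v)) = κ₀ (L v) for v near 0 (g₁ (κ₀ v) → z₀).  ψ = ψ₂ ∘ ψ₁.  `chart_of_germD` for ψ₂ ∘ g₁ (κ₀ 0 = z₀ in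
the interior: `mem_interior_VVd`).  Irrationality: `irr_of_indep` with a = inl 0, b = inl 1. -/
theorem lin_atD {R : ℕ} {U : Set (En d → En d)} (hU : PertOpenD R U) (hN : ∀ g ∈ U, NearS g) {g : En d → En d}
    (hg : g ∈ U) (i : Sy) {A : ℝ} (hA : A ≠ 0) :
    ∃ ψ : En d → En d, ψ ∘ g ∈ U ∧ (∀ z, z ∉ VVd d i → ψ z = z) ∧ ∃ (κ c : En d → En d) (lam mu : ℝ) (al : Wd d),
      LinChartD (ψ ∘ g) i κ c lam mu al ∧ Irrational (A / Real.log (lam * mu)) := by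
  obtain ⟨z₀, hz0, hfix, -, -, -⟩ := exists_fixD (hN g hg).toNearD i
  have hzV : z₀ ∈ VVd d i := interior_subset hz0
  have hnb : VVd d i ∈ 𝓝 z₀ := mem_interior_iff_mem_nhds.1 hz0
  have hK : z₀ ∈ interior (K0D d) := VVd_sub_interior_K0D i hzV
  obtain ⟨C, lam, mu, al, hlam, hmu, hal, hC, hs1, hs2⟩ := exists_eigD (hN g hg) hzV
  have hmu1 : 1 < mu := one_lt_of_muR hmu
  have hL : ∀ j, 0 < LamD lam mu al j := db09_pos (by linarith [hlam.1]) (by linarith)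
    fun k => lt_trans (by norm_num) (hal k).1
  obtain ⟨A', hA'⟩ := exists_pertA C
  obtain ⟨ε₁, hε₁, hU₁⟩ := hU g hg
  have h1 := lin_pertD R hε₁ hK A' hnb
  have h2 : ∀ᶠ t in 𝓝 (0 : Fin 2 ⊕ Fin d → ℝ),
      (1 + t (Sum.inl 0)) * lam ∈ Ioo (49 / 100 : ℝ) (51 / 100) :=
    db09_ev (Sum.inl 0) isOpen_Ioo hlam
  have h3 : ∀ᶠ t in 𝓝 (0 : Fin 2 ⊕ Fin d → ℝ), (1 + t (Sum.inl 1)) * mu ∈ muR i :=
    db09_ev (Sum.inl 1) (by cases i <;> exact isOpen_Ioo) hmu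
  have h4 : ∀ᶠ t in 𝓝 (0 : Fin 2 ⊕ Fin d → ℝ), ∀ k,
      (1 + t (Sum.inr k)) * al k ∈ Ioo (89 / 10 ^ 9 : ℝ) (101 / 10 ^ 9) :=
    eventually_all.2 fun k => db09_ev (Sum.inr k) isOpen_Ioo (hal k)
  obtain ⟨t, ⟨⟨ψ₁, hs1', hout1, hloc1⟩, hlam1, hmu1', hal1⟩, -, hind⟩ :=
    gen_logs hA hL (h1.and (h2.and (h3.and h4)))
  have hmu1'' : 1 < (1 + t (Sum.inl 1)) * mu := one_lt_of_muR hmu1'
  have hpos : ∀ j, 0 < LamD ((1 + t (Sum.inl 0)) * lam) ((1 + t (Sum.inl 1)) * mu)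
      (fun k => (1 + t (Sum.inr k)) * al k) j :=
    db09_pos (by linarith [hlam1.1]) (by linarith) fun k => lt_trans (by norm_num) (hal1 k).1
  have hLam : ∀ j, (1 + t j) * LamD lam mu al j = LamD ((1 + t (Sum.inl 0)) * lam)
      ((1 + t (Sum.inl 1)) * mu) (fun k => (1 + t (Sum.inr k)) * al k) j := by
    intro j
    rcases j with j | k
    · fin_cases j
      · rfl
      · rfl
    · rfl
  simp only [hLam] at hind
  have hg1 : ψ₁ ∘ g ∈ U := hU₁ ψ₁ hs1'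
  have hψz : ψ₁ z₀ = z₀ := by
    have h9 := hloc1.eq_of_nhds
    simp only [sub_self, map_zero, add_zero] at h9
    exact h9
  have hfix1 : (ψ₁ ∘ g) z₀ = z₀ := by
    rw [Function.comp_apply, hfix, hψz]
  have hdiff : DifferentiableAt ℝ g z₀ :=
    ((hN g hg).toNearD.contDiffAt (VVd_sub_Dd i hzV)).self_of_nhds.differentiableAt (by simp)
  have hC1 := db09_deriv hdiff hfix C hC hA' t hloc1
  obtain ⟨ε₂, hε₂, hU₂⟩ := hU _ hg1
  have hsm1 := (hN _ hg1).toNearD.contDiffAt (VVd_sub_Dd i hzV)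
  obtain ⟨G, κ₀, hG, hGO, hκs, hκ0, hdκ, hconj⟩ := flat_germM (basD d) hsm1 hfix1 C hC1
    (fun a => dgD_basD _ _ _ a) (fun a => (hpos a).ne')
    (fun n hn t a => nonresM hpos hind hn t a) R
  obtain ⟨ψ₂, hs2', hout2, hloc2⟩ := flat_corrD R hε₂ hK
    (Eventually.of_forall fun z => hG.contDiffAt) hGO hnb
  have ht : Tendsto (fun v => (ψ₁ ∘ g) (κ₀ v)) (𝓝 0) (𝓝 z₀) := by
    have h5 : ContinuousAt (fun v => (ψ₁ ∘ g) (κ₀ v)) 0 := by
      refine ContinuousAt.comp (g := ψ₁ ∘ g) ?_ hκs.continuous.continuousAt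
      rw [hκ0]
      exact hsm1.self_of_nhds.continuousAt
    have h6 := h5.tendsto
    rw [hκ0, hfix1] at h6
    exact h6
  have hconj2 : ∀ᶠ v in 𝓝 (0 : En d), (ψ₂ ∘ (ψ₁ ∘ g)) (κ₀ v) =
      κ₀ (dgD ((1 + t (Sum.inl 0)) * lam) ((1 + t (Sum.inl 1)) * mu)
        (fun k => (1 + t (Sum.inr k)) * al k) v) := by
    filter_upwards [hconj, ht.eventually hloc2] with v hv1 hv2
    rw [Function.comp_apply, hv2, hv1]
  have h0 : κ₀ 0 ∈ interior (VV i) ×ˢ Metric.ball (0 : Wd d) 1 := by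
    rw [hκ0]
    have h7 := mem_interior_VVd.1 hz0
    exact ⟨h7.1, mem_ball_zero_iff.2 h7.2⟩
  obtain ⟨κ, c, hchart⟩ := chart_of_germD (g := ψ₂ ∘ (ψ₁ ∘ g)) (i := i) hκs h0 C hdκ hs1 hs2
    hlam1 hmu1' hal1 hconj2
  refine ⟨ψ₂ ∘ ψ₁, hU₂ ψ₂ hs2', ?_, κ, c, _, _, _, hchart, ?_⟩
  · intro z hz
    rw [Function.comp_apply, hout1 z hz, hout2 z hz]
  · exact irr_of_indep hpos hind (a := Sum.inl 0) (b := Sum.inl 1) (by simp)

end Pool.Agent.Lib.H37D
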