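import Pool.Agent.Lib.H37D.BDefs
import Pool.Agent.Lib.H37N.B10

/-! # H37D, chunk DB10 (M): elementary properties of linear charts (port of H37N/B10.lean) -/

open Set Filter Topology
open scoped ContDiff

namespace Pool.Agent.Lib.H37D

open Pool.Agent.Lib.H37N

variable {d : ℕ} {g g' : En d → En d} {i : Sy} {κ c : En d → En d} {lam mu : ℝ} {al : Wd d}

theorem LinChartD.one_lt (h : LinChartD g i κ c lam mu al) : 1 < mu := by
  have := h.mu_mem
  cases i
  · simp only [muR, mem_Ioo] at this; linarith [this.1]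
  · simp only [muR, mem_Ioo] at this; linarith [this.1]

theorem LinChartD.lam_pos (h : LinChartD g i κ c lam mu al) : 0 < lam := by
  have := h.lam_mem.1
  linarith

theorem mem_BxD {x y : ℝ} {w : Wd d} : ((x, y), w) ∈ BxD d ↔ (|x| < 2 ∧ |y| < 2) ∧ ‖w‖ < 2 := by
  unfold BxD
  rw [mem_prod, mem_ball_zero_iff, b10_mem_Bx]

theorem isOpen_BxD : IsOpen (BxD d) :=
  (isOpen_Ioo.prod isOpen_Ioo).prod Metric.isOpen_ball

/-- PROOF. sup norm: |al k * w k| ≤ (101/10^9) |w k| (`norm_mulw`-like: `pi_norm_le_iff_of_nonneg`). -/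
theorem norm_mulw_le (h : LinChartD g i κ c lam mu al) (w : Wd d) : ‖mulw al w‖ ≤ 101 / 10 ^ 9 * ‖w‖ := by
  rw [pi_norm_le_iff_of_nonneg (by positivity)]
  intro k
  obtain ⟨h1, h2⟩ := h.al_mem k
  have h3 := norm_le_pi_norm w k
  unfold mulw
  rw [norm_mul, Real.norm_eq_abs, abs_of_pos (lt_trans (by norm_num) h1)]
  exact mul_le_mul h2.le h3 (norm_nonneg _) (by norm_num)

/-- PROOF. |w k| = |al k * w k| / al k ≤ ‖mulw al w‖ * 10^9/89. -/
theorem le_norm_mulw (h : LinChartD g i κ c lam mu al) (w : Wd d) : 89 / 10 ^ 9 * ‖w‖ ≤ ‖mulw al w‖ := by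
  have h0 : ‖w‖ ≤ 10 ^ 9 / 89 * ‖mulw al w‖ := by
    rw [pi_norm_le_iff_of_nonneg (by positivity)]
    intro k
    obtain ⟨h1, h2⟩ := h.al_mem k
    have h3 := norm_le_pi_norm (mulw al w) k
    unfold mulw at h3
    rw [norm_mul, Real.norm_eq_abs, abs_of_pos (lt_trans (by norm_num) h1)] at h3
    have h4 : 89 / 10 ^ 9 * ‖w k‖ ≤ al k * ‖w k‖ := mul_le_mul_of_nonneg_right h1.le (norm_nonneg _)
    have h5 : 89 / 10 ^ 9 * ‖w k‖ ≤ ‖mulw al w‖ := h4.trans h3
    norm_num at h5 ⊢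
    linarith
  norm_num at h0 ⊢
  linarith

theorem db10_abs_lam (h : LinChartD g i κ c lam mu al) {x : ℝ} (hx : |x| < 2) : |lam * x| < 2 := by
  have h1 := h.lam_pos
  have h2 := h.lam_mem.2
  rw [abs_mul, abs_of_pos h1]
  nlinarith [abs_nonneg x]

theorem db10_abs_mu (h : LinChartD g i κ c lam mu al) {y : ℝ} (hy : |mu * y| < 2) : |y| < 2 := by
  have h1 := h.one_lt
  rw [abs_mul, abs_of_pos (by linarith)] at hy
  nlinarith [abs_nonneg y]

theorem db10_norm_w (h : LinChartD g i κ c lam mu al) {w : Wd d} (hw : ‖w‖ < 2) : ‖mulw al w‖ < 2 := by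
  have h1 := norm_mulw_le h w
  have h2 : 101 / 10 ^ 9 * ‖w‖ ≤ 1 * ‖w‖ := mul_le_mul_of_nonneg_right (by norm_num) (norm_nonneg _)
  linarith

/-- PROOF. Only `lin` mentions g, and κ ((x,y),w) ∈ interior (VV i) × ball 0 1 for |x| < 2, |mu y| < 2 (then |y| < 2), ‖w‖ < 2. -/
theorem LinChartD.congr (h : LinChartD g i κ c lam mu al)
    (hg : ∀ z ∈ interior (VV i) ×ˢ Metric.ball (0 : Wd d) 1, g' z = g z) : LinChartD g' i κ c lam mu al := by
  refine ⟨h.smooth, h.inj, h.inv, h.isOpen, h.sub, h.smooth_c, h.left, ?_, h.lam_mem, h.mu_mem,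
    h.al_mem, h.sgn1, h.sgn2⟩
  intro x y w hx hy hw
  rw [hg _ (h.sub ⟨((x, y), w), mem_BxD.2 ⟨⟨hx, db10_abs_mu h hy⟩, hw⟩, rfl⟩)]
  exact h.lin x y w hx hy hw

/-- PROOF. ψ (g (κ v)) = ψ (κ (..)) = κ (..), because κ (..) ∈ interior (VV i) × ball 0 1 ⊆ VVd d i. -/
theorem LinChartD.of_comp (h : LinChartD g i κ c lam mu al) {ψ : En d → En d} (hψ : ∀ z ∈ VVd d i, ψ z = z) :
    LinChartD (ψ ∘ g) i κ c lam mu al := by
  refine ⟨h.smooth, h.inj, h.inv, h.isOpen, h.sub, h.smooth_c, h.left, ?_, h.lam_mem, h.mu_mem,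
    h.al_mem, h.sgn1, h.sgn2⟩
  intro x y w hx hy hw
  simp only [Function.comp_apply]
  rw [h.lin x y w hx hy hw]
  apply hψ
  have h1 := h.sub ⟨((lam * x, mu * y), mulw al w),
    mem_BxD.2 ⟨⟨db10_abs_lam h hx, hy⟩, db10_norm_w h hw⟩, rfl⟩
  exact ⟨interior_subset h1.1, Metric.ball_subset_closedBall h1.2⟩

/-- the reflection ((x,y),w) ↦ ((-x,-y),w) -/
def rfl2 (v : En d) : En d := (-v.1, v.2)

/-- the reflection as a linear map -/
def rfl2L : En d →L[ℝ] En d := (-(ContinuousLinearMap.id ℝ Pt)).prodMap (ContinuousLinearMap.id ℝ (Wd d))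

theorem rfl2L_apply (v : En d) : rfl2L v = rfl2 v := rfl

theorem rfl2_rfl2 (v : En d) : rfl2 (rfl2 v) = v := by
  unfold rfl2
  simp

theorem rfl2_mem {v : En d} (hv : v ∈ BxD d) : rfl2 v ∈ BxD d := by
  obtain ⟨⟨x, y⟩, w⟩ := v
  rw [mem_BxD] at hv
  change ((-x, -y), w) ∈ BxD d
  rw [mem_BxD, abs_neg, abs_neg]
  exact hv

theorem rfl2_fderiv_comp (h : ContDiff ℝ ∞ κ) (v : En d) :
    fderiv ℝ (fun v => κ (rfl2 v)) v = (fderiv ℝ κ (rfl2 v)).comp rfl2L := by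
  have h1 : HasFDerivAt κ (fderiv ℝ κ (rfl2 v)) (rfl2 v) :=
    (h.differentiable (by simp) (rfl2 v)).hasFDerivAt
  have h2 : HasFDerivAt (fun v : En d => rfl2 v) (rfl2L : En d →L[ℝ] En d) v :=
    (rfl2L : En d →L[ℝ] En d).hasFDerivAt
  exact (HasFDerivAt.comp v h1 h2).fderiv

theorem rfl2_comp_fderiv (h : ContDiff ℝ ∞ c) (v : En d) :
    fderiv ℝ (fun v => rfl2 (c v)) v = rfl2L.comp (fderiv ℝ c v) := by
  have h1 : HasFDerivAt c (fderiv ℝ c v) v :=
    (h.differentiable (by simp) v).hasFDerivAt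
  exact ((rfl2L : En d →L[ℝ] En d).hasFDerivAt.comp v h1).fderiv

/-- PROOF. BxD d is invariant under rfl2; fderiv (κ ∘ rfl2) v = fderiv κ (rfl2 v) ∘ J, J the linear map rfl2: slp (K ∘ J) s = - slp K s (J (z,0) = (-z,0)), det2 (-M) = det2 M; bijective composition.  sgn2:
(fderiv (rfl2 ∘ c) z u).1 = - (fderiv c z u).1 = (-B) (u.1 - s u.2). -/
theorem LinChartD.neg (h : LinChartD g i κ c lam mu al) :
    LinChartD g i (fun v => κ (rfl2 v)) (fun w => rfl2 (c w)) lam mu al := by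
  have himg : (fun v => κ (rfl2 v)) '' BxD d = κ '' BxD d := by
    ext w
    constructor
    · rintro ⟨v, hv, rfl⟩
      exact ⟨rfl2 v, rfl2_mem hv, rfl⟩
    · rintro ⟨v, hv, rfl⟩
      exact ⟨rfl2 v, rfl2_mem hv, by simp only [rfl2_rfl2]⟩
  refine ⟨h.smooth.comp (rfl2L : En d →L[ℝ] En d).contDiff, ?_, ?_, ?_, ?_,
    (rfl2L : En d →L[ℝ] En d).contDiff.comp h.smooth_c, ?_, ?_, h.lam_mem, h.mu_mem, h.al_mem, ?_, ?_⟩
  · intro v hv w hw hvw
    have h1 := h.inj (rfl2_mem hv) (rfl2_mem hw) hvw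
    rw [← rfl2_rfl2 v, h1, rfl2_rfl2]
  · intro v hv
    rw [rfl2_fderiv_comp h.smooth]
    have h1 := h.inv _ (rfl2_mem hv)
    have h2 : Function.Bijective (rfl2L : En d →L[ℝ] En d) :=
      Function.Involutive.bijective (f := (rfl2L : En d →L[ℝ] En d)) rfl2_rfl2
    exact h1.comp h2
  · rw [himg]; exact h.isOpen
  · rw [himg]; exact h.sub
  · intro v hv
    show rfl2 (c (κ (rfl2 v))) = v
    rw [h.left _ (rfl2_mem hv), rfl2_rfl2]
  · intro x y w hx hy hw
    have h1 := h.lin (-x) (-y) w (by rwa [abs_neg]) (by rwa [mul_neg, abs_neg]) hw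
    show g (κ (-(x, y), w)) = κ (-(lam * x, mu * y), mulw al w)
    rw [Prod.neg_mk, Prod.neg_mk, h1, mul_neg, mul_neg]
  · intro v hv s hs
    have h1 := h.sgn1 _ (rfl2_mem hv) s hs
    rw [rfl2_fderiv_comp h.smooth]
    have h2 : ∀ x : Pt, slp ((fderiv ℝ κ (rfl2 v)).comp rfl2L) s x = -(slp (fderiv ℝ κ (rfl2 v)) s x) := by
      intro x
      rw [← map_neg]
      rfl
    unfold det2 at h1 ⊢
    rw [h2, h2]
    simp only [Prod.fst_neg, Prod.snd_neg]
    linarith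
  · rw [himg]
    intro z hz
    obtain ⟨B, s, hB, hs, hu⟩ := h.sgn2 z hz
    refine ⟨-B, s, ?_, hs, ?_⟩
    · unfold det2 at hB ⊢
      simp only [neg_apply, Prod.fst_neg, Prod.snd_neg]
      linarith
    · intro u
      rw [rfl2_comp_fderiv h.smooth_c, neg_apply, ← hu u]
      rfl

theorem LinChartD.fix (h : LinChartD g i κ c lam mu al) : g (κ 0) = κ 0 := by
  have h1 := h.lin 0 0 0 (by simp) (by simp) (by simp)
  rw [mul_zero, mul_zero] at h1
  have h2 : mulw al (0 : Wd d) = 0 := by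
    funext k
    exact mul_zero _
  rw [h2] at h1
  exact h1

theorem LinChartD.right (h : LinChartD g i κ c lam mu al) {w : En d} (hw : w ∈ κ '' BxD d) : κ (c w) = w ∧ c w ∈ BxD d := by
  obtain ⟨v, hv, rfl⟩ := hw
  rw [h.left v hv]
  exact ⟨rfl, hv⟩

/-- PROOF. Induction on n (|mu^j y| ≤ |mu^n y| for j ≤ n because mu > 1; |lam x| < 2; ‖mulw al w‖ < 2).  The iterate of the w-part: k ↦ al k ^ n * w k. -/
theorem LinChartD.iter (h : LinChartD g i κ c lam mu al) (n : ℕ) {x y : ℝ} {w : Wd d} (hx : |x| < 2)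
    (hy : |mu ^ n * y| < 2) (hw : ‖w‖ < 2) :
    g^[n] (κ ((x, y), w)) = κ ((lam ^ n * x, mu ^ n * y), mulw (fun k => al k ^ n) w) := by
  induction n generalizing x y w with
  | zero =>
    have h1 : mulw (fun k => al k ^ 0) w = w := by
      funext k
      simp [mulw]
    rw [h1]; simp
  | succ n ih =>
    have h1 := h.one_lt
    have hmy : |mu * y| < 2 := by
      have h2 : |mu * y| ≤ |mu ^ (n + 1) * y| := by
        rw [abs_mul, abs_mul]
        apply mul_le_mul_of_nonneg_right _ (abs_nonneg _)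
        rw [abs_of_pos (by linarith), abs_of_pos (by positivity)]
        calc mu = mu ^ 1 := (pow_one mu).symm
          _ ≤ mu ^ (n + 1) := pow_le_pow_right₀ h1.le (by omega)
      linarith
    rw [Function.iterate_succ_apply, h.lin x y w hx hmy hw,
      ih (db10_abs_lam h hx) (by rw [← mul_assoc, ← pow_succ]; exact hy) (db10_norm_w h hw)]
    have h3 : mulw (fun k => al k ^ n) (mulw al w) = mulw (fun k => al k ^ (n + 1)) w := by
      funext k
      simp only [mulw]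
      rw [pow_succ, mul_assoc]
    rw [h3]
    congr 3
    · rw [pow_succ, mul_assoc]
    · rw [pow_succ, mul_assoc]

/-- PROOF. `LinChartD.iter` for j, `sub`. -/
theorem LinChartD.iter_mem (h : LinChartD g i κ c lam mu al) (n : ℕ) {x y : ℝ} {w : Wd d} (hx : |x| < 2)
    (hy : |mu ^ n * y| < 2) (hw : ‖w‖ < 2) :
    ∀ j ≤ n, g^[j] (κ ((x, y), w)) ∈ interior (VV i) ×ˢ Metric.ball (0 : Wd d) 1 := by
  intro j hj
  have h1 := h.one_lt
  have h0 := h.lam_pos
  have hj' : |mu ^ j * y| < 2 := by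
    have h2 : |mu ^ j * y| ≤ |mu ^ n * y| := by
      rw [abs_mul, abs_mul]
      apply mul_le_mul_of_nonneg_right _ (abs_nonneg _)
      rw [abs_of_pos (by positivity), abs_of_pos (by positivity)]
      exact pow_le_pow_right₀ h1.le hj
    linarith
  rw [h.iter j hx hj' hw]
  apply h.sub
  refine ⟨_, mem_BxD.2 ⟨⟨?_, hj'⟩, ?_⟩, rfl⟩
  · rw [abs_mul, abs_of_pos (by positivity)]
    have h3 : lam ^ j ≤ 1 := pow_le_one₀ h0.le (by linarith [h.lam_mem.2])
    nlinarith [abs_nonneg x, pow_pos h0 j]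
  · have h4 : ‖mulw (fun k => al k ^ j) w‖ ≤ ‖w‖ := by
      rw [pi_norm_le_iff_of_nonneg (norm_nonneg _)]
      intro k
      obtain ⟨h5, h6⟩ := h.al_mem k
      have h7 := norm_le_pi_norm w k
      have h8 : (0 : ℝ) < al k := lt_trans (by norm_num) h5
      have h9 : al k ^ j ≤ 1 := pow_le_one₀ h8.le (h6.le.trans (by norm_num))
      unfold mulw
      rw [norm_mul, Real.norm_eq_abs, abs_of_pos (pow_pos h8 j)]
      calc al k ^ j * ‖w k‖ ≤ 1 * ‖w k‖ := mul_le_mul_of_nonneg_right h9 (norm_nonneg _)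
        _ = ‖w k‖ := one_mul _
        _ ≤ ‖w‖ := h7
    linarith

end Pool.Agent.Lib.H37D
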