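import Pool.Agent.Lib.H37D.DB09
import Pool.Agent.Lib.H37D.DB10

/-! # H37D, chunk DB11 (S): B.2 theorem LIN (port of H37N/B11.lean) -/

open Set Filter Topology
open scoped ContDiff

namespace Pool.Agent.Lib.H37D

open Pool.Agent.Lib.H37N

variable {d : ℕ}

/-- PROOF. `lin_atD` at P with A = 1: a chart at P.  0 < lamP muP < 51/100 * 126/100 < 1, so A = log (lamP muP) ≠ 0.  `lin_atD` at Q for the new map with this A.  The chart at P is kept by
`LinChartD.of_comp` (z ∈ VVd P is not in VVd Q: `not_mem_VVd_of_ne`). -/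
theorem LIND {R : ℕ} {U : Set (En d → En d)} (hU : PertOpenD R U) (hN : ∀ g ∈ U, NearS g) {g : En d → En d} (hg : g ∈ U) :
    ∃ g' ∈ U, ∃ (κ c : Sy → En d → En d) (lam mu : Sy → ℝ) (al : Sy → Wd d),
      (∀ i, LinChartD g' i (κ i) (c i) (lam i) (mu i) (al i)) ∧
      Irrational (Real.log (lam Sy.P * mu Sy.P) / Real.log (lam Sy.Q * mu Sy.Q)) := by
  obtain ⟨ψ₁, h1U, -, κP, cP, lamP, muP, alP, hP, -⟩ :=
    lin_atD hU hN hg Sy.P one_ne_zero
  have hlamP := hP.lam_mem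
  have hmuP : muP ∈ Ioo (124 / 100 : ℝ) (126 / 100) := hP.mu_mem
  have hlamP0 : 0 < lamP := by linarith [hlamP.1]
  have hmuP0 : 0 < muP := by linarith [hmuP.1]
  have hlog : Real.log (lamP * muP) ≠ 0 := by
    have h0 : 0 < lamP * muP := mul_pos hlamP0 hmuP0
    have h1 : lamP * muP < 1 := by nlinarith [hlamP.2, hmuP.2]
    exact (Real.log_neg h0 h1).ne
  obtain ⟨ψ₂, h2U, h2out, κQ, cQ, lamQ, muQ, alQ, hQ, hirr⟩ :=
    lin_atD hU hN h1U Sy.Q hlog
  have hP2 : LinChartD (ψ₂ ∘ (ψ₁ ∘ g)) Sy.P κP cP lamP muP alP :=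
    hP.of_comp fun z hz => h2out z (not_mem_VVd_of_ne (by decide) hz)
  refine ⟨ψ₂ ∘ (ψ₁ ∘ g), h2U, fun i => match i with | Sy.P => κP | Sy.Q => κQ,
    fun i => match i with | Sy.P => cP | Sy.Q => cQ,
    fun i => match i with | Sy.P => lamP | Sy.Q => lamQ,
    fun i => match i with | Sy.P => muP | Sy.Q => muQ,
    fun i => match i with | Sy.P => alP | Sy.Q => alQ, ?_, hirr⟩
  intro i
  cases i with
  | P => exact hP2
  | Q => exact hQ

end Pool.Agent.Lib.H37D
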