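import Pool.Agent.Lib.H37D.DB13
import Pool.Agent.Lib.H37N.B12
import Pool.Agent.Lib.H37N.B14

/-! # H37D, chunk DB14 (M): decay of orbits with the same itinerary, the connecting orbit (port of H37N/B14.lean) -/

open Set Filter Topology
open scoped ContDiff

namespace Pool.Agent.Lib.H37D

open Pool.Agent.Lib.H37N

variable {d : ℕ}

theorem db14_tri (z : En d) : ‖z‖ ≤ |z.1.1| + (|z.1.2| + ‖z.2‖) := by
  rw [Prod.norm_def, Prod.norm_def, Real.norm_eq_abs, Real.norm_eq_abs]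
  have h1 := abs_nonneg z.1.1
  have h2 := abs_nonneg z.1.2
  have h3 := norm_nonneg z.2
  refine max_le (max_le ?_ ?_) ?_ <;> linarith

/-- one step: the three estimates -/
theorem db14_step {g : En d → En d} (hg : NearD g) {i : Sy} {z z' : En d} (hz : z ∈ VVd d i)
    (hz' : z' ∈ VVd d i) :
    |z.1.1 - z'.1.1| ≤ 81 / 100 * |(g z).1.1 - (g z').1.1| +
      1 / 10 ^ 11 * (|z.1.1 - z'.1.1| + max |z.1.2 - z'.1.2| ‖z.2 - z'.2‖) ∧
    max |(g z).1.2 - (g z').1.2| ‖(g z).2 - (g z').2‖ ≤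
      81 / 100 * max |z.1.2 - z'.1.2| ‖z.2 - z'.2‖ +
      1 / 10 ^ 11 * (|z.1.1 - z'.1.1| + max |z.1.2 - z'.1.2| ‖z.2 - z'.2‖) := by
  obtain ⟨h1, h2, h2w⟩ := hg.diff hz hz'
  have h3 : ‖z - z'‖ ≤ |z.1.1 - z'.1.1| + max |z.1.2 - z'.1.2| ‖z.2 - z'.2‖ := by
    rw [Prod.norm_def, Prod.norm_def]
    simp only [Prod.fst_sub, Prod.snd_sub, Real.norm_eq_abs]
    have a1 := abs_nonneg (z.1.1 - z'.1.1)
    have a2 := le_max_left |z.1.2 - z'.1.2| ‖z.2 - z'.2‖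
    have a3 := le_max_right |z.1.2 - z'.1.2| ‖z.2 - z'.2‖
    have a4 := norm_nonneg (z.2 - z'.2)
    refine max_le (max_le ?_ ?_) ?_ <;> linarith
  obtain ⟨hp0, hp1⟩ := b14_pw i
  obtain ⟨hq0, hq1⟩ := b14_qw i
  set m := max |z.1.2 - z'.1.2| ‖z.2 - z'.2‖ with hm
  have hmy : |z.1.2 - z'.1.2| ≤ m := le_max_left _ _
  have hmw : ‖z.2 - z'.2‖ ≤ m := le_max_right _ _
  have hm0 : 0 ≤ m := le_trans (norm_nonneg _) hmw
  set N := |z.1.1 - z'.1.1| + m with hN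
  have hN0 : 0 ≤ N := add_nonneg (abs_nonneg _) hm0
  have he : 3 * e0 * ‖z - z'‖ ≤ 3 / 10 ^ 12 * N := by
    have : (3 * e0 : ℝ) = 3 / 10 ^ 12 := by norm_num [e0]
    rw [this]
    exact mul_le_mul_of_nonneg_left h3 (by positivity)
  have he2 : 2 * e0 * ‖z - z'‖ ≤ 3 / 10 ^ 12 * N := by
    refine le_trans ?_ he
    have : (0 : ℝ) ≤ e0 := by norm_num [e0]
    nlinarith [norm_nonneg (z - z'), mul_nonneg this (norm_nonneg (z - z'))]
  have h8 : 3 / 10 ^ 12 * N ≤ 1 / 10 ^ 11 * N :=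
    mul_le_mul_of_nonneg_right (by norm_num) hN0
  refine ⟨?_, max_le ?_ ?_⟩
  · have h4 : z.1.1 - z'.1.1 = pw i * ((g z).1.1 - (g z').1.1) -
        pw i * ((g z).1.1 - (g z').1.1 - (z.1.1 - z'.1.1) / pw i) := by
      field_simp
      ring
    have h5 : |z.1.1 - z'.1.1| ≤ pw i * |(g z).1.1 - (g z').1.1| +
        pw i * |(g z).1.1 - (g z').1.1 - (z.1.1 - z'.1.1) / pw i| := by
      calc |z.1.1 - z'.1.1| = |pw i * ((g z).1.1 - (g z').1.1) -
            pw i * ((g z).1.1 - (g z').1.1 - (z.1.1 - z'.1.1) / pw i)| := by rw [← h4]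
        _ ≤ |pw i * ((g z).1.1 - (g z').1.1)| +
            |pw i * ((g z).1.1 - (g z').1.1 - (z.1.1 - z'.1.1) / pw i)| := abs_sub _ _
        _ = _ := by rw [abs_mul, abs_mul, abs_of_pos hp0]
    have h6 : pw i * |(g z).1.1 - (g z').1.1| ≤ 81 / 100 * |(g z).1.1 - (g z').1.1| :=
      mul_le_mul_of_nonneg_right (by linarith) (abs_nonneg _)
    have h7 : pw i * |(g z).1.1 - (g z').1.1 - (z.1.1 - z'.1.1) / pw i| ≤
        1 * (3 / 10 ^ 12 * N) :=
      mul_le_mul (by linarith) (h1.trans he) (abs_nonneg _) (by norm_num)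
    linarith
  · have h5 : |(g z).1.2 - (g z').1.2| ≤ |(g z).1.2 - (g z').1.2 - qw i * (z.1.2 - z'.1.2)| +
        qw i * |z.1.2 - z'.1.2| := by
      have h9 := abs_add_le ((g z).1.2 - (g z').1.2 - qw i * (z.1.2 - z'.1.2))
        (qw i * (z.1.2 - z'.1.2))
      rw [sub_add_cancel, abs_mul (qw i), abs_of_pos hq0] at h9
      exact h9
    have h6 : qw i * |z.1.2 - z'.1.2| ≤ 81 / 100 * m :=
      mul_le_mul (by linarith) hmy (abs_nonneg _) (by norm_num)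
    linarith [h2.trans he]
  · have h6 : aw * ‖z.2 - z'.2‖ ≤ 81 / 100 * m :=
      mul_le_mul (by norm_num [aw]) hmw (norm_nonneg _) (by norm_num)
    linarith

theorem db14_tendsto {s s' : ℕ → En d}
    (h1 : Tendsto (fun n => |(s n).1.1 - (s' n).1.1|) atTop (𝓝 0))
    (h2 : Tendsto (fun n => max |(s n).1.2 - (s' n).1.2| ‖(s n).2 - (s' n).2‖) atTop (𝓝 0)) :
    Tendsto (fun n => s n - s' n) atTop (𝓝 0) := by
  refine squeeze_zero_norm (a := fun n => |(s n).1.1 - (s' n).1.1| +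
    max |(s n).1.2 - (s' n).1.2| ‖(s n).2 - (s' n).2‖) (fun n => ?_) ?_
  · rw [Prod.norm_def, Prod.norm_def]
    simp only [Prod.fst_sub, Prod.snd_sub, Real.norm_eq_abs]
    have a1 := abs_nonneg ((s n).1.1 - (s' n).1.1)
    have a2 := le_max_left |(s n).1.2 - (s' n).1.2| ‖(s n).2 - (s' n).2‖
    have a3 := le_max_right |(s n).1.2 - (s' n).1.2| ‖(s n).2 - (s' n).2‖
    have a4 := norm_nonneg ((s n).2 - (s' n).2)
    refine max_le (max_le ?_ ?_) ?_ <;> linarith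
  · simpa using h1.add h2

theorem db14_two {w w' : Wd d} (h : ‖w‖ ≤ 1) (h' : ‖w'‖ ≤ 1) : ‖w - w'‖ ≤ 2 := by
  refine le_trans (norm_sub_le _ _) ?_
  linarith

/-- PROOF. `mem_interior_VVd`, planar part as `mem_interior_of` in H37N/B14.lean; ‖z.2‖ = ‖(g w).2‖ ≤ aw + e0 < 1 (`hg.wval`). -/
theorem mem_interior_ofD {g : En d → En d} (hg : NearD g) {i j k : Sy} {z w : En d} (hz : z ∈ VVd d i)
    (hz' : g z ∈ VVd d j) (hw : w ∈ VVd d k) (hw' : g w = z) : z ∈ interior (VVd d i) := by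
  rw [mem_interior_VVd, mem_interior_VV]
  have h1 := (abs_le.1 (hg.close0 i z hz).1)
  have h2 := (abs_le.1 (hg.close0 k w hw).2)
  obtain ⟨h3, h4⟩ := b14_x (mem_VVd.1 hz').1
  obtain ⟨h5, h6⟩ := b14_y (mem_VVd.1 hw).1
  obtain ⟨hp0, hp1⟩ := b14_pw i
  obtain ⟨hq0, hq1⟩ := b14_qw k
  have hd : del = 1 / 100000 := rfl
  have he : e0 = 1 / 10 ^ 12 := rfl
  have hww : ‖z.2‖ < 1 := by
    have h5 := hg.wval w (VVd_sub_Dd _ hw)
    rw [hw'] at h5
    have h6 : aw * ‖w.2‖ ≤ aw * 1 :=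
      mul_le_mul_of_nonneg_left (mem_VVd.1 hw).2 (by norm_num [aw])
    have h7 : (aw : ℝ) = 1 / 10 ^ 7 := rfl
    have h8 : aw * 1 + e0 < 1 := by rw [h7, he]; norm_num
    linarith
  simp only [Aff] at h1 h2
  rw [hw'] at h2
  have ha : z.1.1 = al i + pw i * ((z.1.1 - al i) / pw i) := by
    field_simp
    ring
  set t := (z.1.1 - al i) / pw i with ht
  have ht1 : -del - e0 ≤ t := by linarith [h1.2]
  have ht2 : t ≤ 1 + del + e0 := by linarith [h1.1]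
  have h7 : pw i * (-del - e0) ≤ pw i * t := mul_le_mul_of_nonneg_left ht1 hp0.le
  have h8 : pw i * t ≤ pw i * (1 + del + e0) := mul_le_mul_of_nonneg_left ht2 hp0.le
  have h9 : pw i * (del + e0) ≤ 4 / 5 * (del + e0) :=
    mul_le_mul_of_nonneg_right hp1 (by rw [hd, he]; norm_num)
  have h10 : 4 / 5 * (del + e0) < del := by rw [hd, he]; norm_num
  have h11 : qw k * (-del) ≤ qw k * w.1.2 := mul_le_mul_of_nonneg_left h5 hq0.le
  have h12 : qw k * w.1.2 ≤ qw k * (1 + del) := mul_le_mul_of_nonneg_left h6 hq0.le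
  have h13 : qw k * del ≤ 1 / 2 * del := mul_le_mul_of_nonneg_right hq1 (by rw [hd]; norm_num)
  have h14 : 1 / 2 * del + e0 < del := by rw [hd, he]; norm_num
  have h15 : 0 ≤ be k ∧ be k + qw k ≤ 1 := by
    cases k <;> norm_num [be, qw]
  refine ⟨⟨⟨by linarith, by linarith⟩, by linarith, by linarith⟩, hww⟩

/-- Forward orbits with the same itinerary.

PROOF. `seq_decay_tendsto` (H37N/B12.lean) with u k = max |(s k).1.2 - (s' k).1.2| ‖(s k).2 - (s' k).2‖ and v k = |(s k).1.1 - (s' k).1.1| ≤ 2.  `NearD.diff`: with δ = ‖s k - s' k‖ ≤ u k + v k: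
|(s (k+1)).1.2 - ..| ≤ qw |..| + 3 e0 δ, ‖(s (k+1)).2 - ..‖ ≤ aw ‖..‖ + 2 e0 δ, so u (k+1) ≤ 81/100 u k + 1/10^11 (..); |(s k).1.1 - ..| ≤ pw (v (k+1) + 3 e0 δ). -/
theorem fwd_decayD {g : En d → En d} (hg : NearD g) {i : ℕ → Sy} {s s' : ℕ → En d} (hs : ∀ n, s n ∈ VVd d (i n))
    (hs' : ∀ n, s' n ∈ VVd d (i n)) (h : ∀ n, g (s n) = s (n + 1)) (h' : ∀ n, g (s' n) = s' (n + 1)) :
    Tendsto (fun n => s n - s' n) atTop (𝓝 0) := by
  have h1 := seq_decay_tendsto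
    (u := fun k => max |(s k).1.2 - (s' k).1.2| ‖(s k).2 - (s' k).2‖)
    (v := fun k => |(s k).1.1 - (s' k).1.1|) (M := 2)
    (fun k => le_trans (norm_nonneg _) (le_max_right _ _)) (fun k => abs_nonneg _)
    (fun k => b14_two (b14_x (mem_VVd.1 (hs k)).1) (b14_x (mem_VVd.1 (hs' k)).1))
    (fun k => ?_) (fun k => ?_)
  · exact db14_tendsto h1.2 h1.1
  · have h2 := (db14_step hg (hs k) (hs' k)).2
    rw [h k, h' k] at h2
    have h3 : 0 ≤ max |(s (k + 1)).1.2 - (s' (k + 1)).1.2| ‖(s (k + 1)).2 - (s' (k + 1)).2‖ :=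
      le_trans (norm_nonneg _) (le_max_right _ _)
    have h4 := abs_nonneg ((s (k + 1)).1.1 - (s' (k + 1)).1.1)
    linarith
  · have h2 := (db14_step hg (hs k) (hs' k)).1
    rw [h k, h' k] at h2
    have h3 : 0 ≤ max |(s (k + 1)).1.2 - (s' (k + 1)).1.2| ‖(s (k + 1)).2 - (s' (k + 1)).2‖ :=
      le_trans (norm_nonneg _) (le_max_right _ _)
    have h4 := abs_nonneg ((s (k + 1)).1.1 - (s' (k + 1)).1.1)
    linarith

/-- Backward orbits with the same itinerary.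

PROOF. As `bwd_decay` in H37N/B14.lean: u k = |(s (k+1)).1.1 - (s' (k+1)).1.1| and v k = max |(s (k+1)).1.2 - ..| ‖(s (k+1)).2 - ..‖ ≤ 2. -/
theorem bwd_decayD {g : En d → En d} (hg : NearD g) {i : ℕ → Sy} {s s' : ℕ → En d} (hs : ∀ n, s (n + 1) ∈ VVd d (i n))
    (hs' : ∀ n, s' (n + 1) ∈ VVd d (i n)) (h : ∀ n, g (s (n + 1)) = s n) (h' : ∀ n, g (s' (n + 1)) = s' n) :
    Tendsto (fun n => s n - s' n) atTop (𝓝 0) := by
  have h1 := seq_decay_tendsto (u := fun k => |(s (k + 1)).1.1 - (s' (k + 1)).1.1|)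
    (v := fun k => max |(s (k + 1)).1.2 - (s' (k + 1)).1.2| ‖(s (k + 1)).2 - (s' (k + 1)).2‖)
    (M := 2) (fun k => abs_nonneg _)
    (fun k => le_trans (norm_nonneg _) (le_max_right _ _))
    (fun k => max_le (b14_two (b14_y (mem_VVd.1 (hs k)).1) (b14_y (mem_VVd.1 (hs' k)).1))
      (db14_two (mem_VVd.1 (hs k)).2 (mem_VVd.1 (hs' k)).2)) (fun k => ?_) (fun k => ?_)
  · exact (tendsto_add_atTop_iff_nat 1).1
      (db14_tendsto (s := fun n => s (n + 1)) (s' := fun n => s' (n + 1)) h1.1 h1.2)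
  · have h2 := (db14_step hg (hs (k + 1)) (hs' (k + 1))).1
    rw [h (k + 1), h' (k + 1)] at h2
    have h3 : 0 ≤ max |(s (k + 1)).1.2 - (s' (k + 1)).1.2| ‖(s (k + 1)).2 - (s' (k + 1)).2‖ :=
      le_trans (norm_nonneg _) (le_max_right _ _)
    have h4 := abs_nonneg ((s (k + 1)).1.1 - (s' (k + 1)).1.1)
    linarith
  · have h2 := (db14_step hg (hs (k + 1)) (hs' (k + 1))).2
    rw [h (k + 1), h' (k + 1)] at h2
    have h3 : 0 ≤ max |(s (k + 1)).1.2 - (s' (k + 1)).1.2| ‖(s (k + 1)).2 - (s' (k + 1)).2‖ :=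
      le_trans (norm_nonneg _) (le_max_right _ _)
    have h4 := abs_nonneg ((s (k + 1)).1.1 - (s' (k + 1)).1.1)
    linarith

/-- The connecting orbit.

PROOF. As `exists_conn` in H37N/B14.lean: `exists_orbitD` with i n = if n < 0 then P else Q, `mem_interior_ofD`, `bwd_decayD`, `fwd_decayD`, `not_mem_VVd_of_ne`. -/
theorem exists_connD {g : En d → En d} (hg : NearD g) {p q : En d} (hp : p ∈ VVd d Sy.P) (hp' : g p = p)
    (hq : q ∈ VVd d Sy.Q) (hq' : g q = q) :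
    ∃ a b : ℕ → En d, a 0 = b 0 ∧ (∀ n, g (a (n + 1)) = a n) ∧ (∀ n, g (b n) = b (n + 1)) ∧
      (∀ n, a (n + 1) ∈ interior (VVd d Sy.P)) ∧ (∀ n, b n ∈ interior (VVd d Sy.Q)) ∧
      Tendsto a atTop (𝓝 p) ∧ Tendsto b atTop (𝓝 q) ∧ ∀ n, a n ≠ p := by
  obtain ⟨s, hs⟩ := exists_orbitD hg (fun n => if n < 0 then Sy.P else Sy.Q)
  have hP : ∀ n : ℤ, n < 0 → s n ∈ VVd d Sy.P := by
    intro n hn
    have := (hs n).1
    rwa [if_pos hn] at this
  have hQ : ∀ n : ℤ, 0 ≤ n → s n ∈ VVd d Sy.Q := by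
    intro n hn
    have := (hs n).1
    rwa [if_neg (not_lt.2 hn)] at this
  have hint : ∀ (n : ℤ) (j : Sy), s n ∈ VVd d j → s n ∈ interior (VVd d j) := by
    intro n j hj
    have h1 : g (s n) ∈ VVd d (if n + 1 < 0 then Sy.P else Sy.Q) := by
      rw [(hs n).2]
      exact (hs (n + 1)).1
    have h2 : g (s (n - 1)) = s n := by
      have := (hs (n - 1)).2
      rwa [sub_add_cancel] at this
    exact mem_interior_ofD hg hj h1 (hs (n - 1)).1 h2
  have hstepa : ∀ n : ℕ, g (s (-((n + 1 : ℕ) : ℤ))) = s (-(n : ℤ)) := by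
    intro n
    rw [(hs _).2]
    congr 1
    push_cast
    ring
  have hstepb : ∀ n : ℕ, g (s (n : ℤ)) = s ((n + 1 : ℕ) : ℤ) := by
    intro n
    rw [(hs _).2]
    congr 1
  have haP : ∀ n : ℕ, s (-((n + 1 : ℕ) : ℤ)) ∈ VVd d Sy.P := by
    intro n
    refine hP _ ?_
    push_cast
    omega
  have hbQ : ∀ n : ℕ, s (n : ℤ) ∈ VVd d Sy.Q := fun n => hQ _ (by omega)
  refine ⟨fun n => s (-(n : ℤ)), fun n => s (n : ℤ), ?_, hstepa, hstepb,
    fun n => hint _ _ (haP n), fun n => hint _ _ (hbQ n), ?_, ?_, ?_⟩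
  · simp
  · have h1 := bwd_decayD hg (i := fun _ => Sy.P) (s := fun n => s (-(n : ℤ))) (s' := fun _ => p)
      haP (fun _ => hp) hstepa (fun _ => hp')
    have h2 := h1.add_const p
    simpa using h2
  · have h1 := fwd_decayD hg (i := fun _ => Sy.Q) (s := fun n => s (n : ℤ)) (s' := fun _ => q)
      hbQ (fun _ => hq) hstepb (fun _ => hq')
    have h2 := h1.add_const q
    simpa using h2
  · intro n hn
    have h0 : ∀ m : ℕ, s (-(m : ℤ)) = p → s 0 = p := by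
      intro m
      induction m with
      | zero => intro h; simpa using h
      | succ m ih =>
        intro h
        apply ih
        rw [← hstepa m, h, hp']
    have h1 : s 0 = p := h0 n hn
    have h2 : s 0 ∈ VVd d Sy.Q := hQ 0 le_rfl
    rw [h1] at h2
    exact not_mem_VVd_of_ne (by decide) hp h2

end Pool.Agent.Lib.H37D
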