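import Pool.Agent.Lib.H37D.DB10
import Pool.Agent.Lib.H37N.B15

/-! # H37D, chunk DB15 (M): orbits converging to the fixed point (port of H37N/B15.lean) -/

open Set Filter Topology
open scoped ContDiff

namespace Pool.Agent.Lib.H37D

open Pool.Agent.Lib.H37N

variable {d : ℕ} {g : En d → En d} {i : Sy} {κ c : En d → En d} {lam mu : ℝ} {al : Wd d}

theorem db15_zero : (0 : En d) ∈ BxD d := by
  have h : ((((0 : ℝ), (0 : ℝ)), (0 : Wd d)) : En d) ∈ BxD d := mem_BxD.2 (by simp)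
  exact h

theorem db15_lim (h : LinChartD g i κ c lam mu al) {w : ℕ → En d}
    (hlim : Tendsto w atTop (𝓝 (κ 0))) : Tendsto (fun n => c (w n)) atTop (𝓝 0) := by
  have h1 : Tendsto (fun n => c (w n)) atTop (𝓝 (c (κ 0))) :=
    (h.smooth_c.continuous.tendsto (κ 0)).comp hlim
  rw [h.left 0 db15_zero] at h1
  exact h1

theorem db15_ev (h : LinChartD g i κ c lam mu al) {w : ℕ → En d}
    (hlim : Tendsto w atTop (𝓝 (κ 0))) : ∃ N : ℕ, ∀ n ≥ N, κ (c (w n)) = w n ∧ c (w n) ∈ BxD d ∧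
      |(c (w n)).1.1| < 1 / 10 ∧ |(c (w n)).1.2| < 1 / 10 ∧ ‖(c (w n)).2‖ < 1 / 10 := by
  have h1 : ∀ᶠ n in atTop, w n ∈ κ '' BxD d :=
    hlim.eventually (h.isOpen.mem_nhds ⟨0, db15_zero, rfl⟩)
  have h2 : ∀ᶠ n in atTop, c (w n) ∈ Metric.ball (0 : En d) (1 / 10) :=
    (db15_lim h hlim).eventually (Metric.ball_mem_nhds _ (by norm_num))
  obtain ⟨N, hN⟩ := eventually_atTop.1 (h1.and h2)
  refine ⟨N, fun n hn => ?_⟩
  obtain ⟨h3, h4⟩ := hN n hn
  obtain ⟨h5, h6⟩ := h.right h3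
  rw [mem_ball_zero_iff, Prod.norm_def, max_lt_iff, Prod.norm_def, max_lt_iff, Real.norm_eq_abs,
    Real.norm_eq_abs] at h4
  exact ⟨h5, h6, h4.1.1, h4.1.2, h4.2⟩

theorem db15_step (h : LinChartD g i κ c lam mu al) {w w' : En d} (e : κ (c w) = w)
    (e' : κ (c w') = w') (hB' : c w' ∈ BxD d) (h1 : |(c w).1.1| < 1 / 10)
    (h2 : |(c w).1.2| < 1 / 10) (h3 : ‖(c w).2‖ < 1 / 10) (hw : g w = w') :
    c w' = ((lam * (c w).1.1, mu * (c w).1.2), mulw al (c w).2) := by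
  obtain ⟨m1, m2⟩ := b15_mu h.mu_mem
  have hl := h.lam_mem
  have a1 : |lam * (c w).1.1| < 2 := by
    rw [abs_mul, abs_of_pos (by linarith [hl.1])]
    nlinarith [abs_nonneg (c w).1.1, hl.1, hl.2]
  have a2 : |mu * (c w).1.2| < 2 := by
    rw [abs_mul, abs_of_pos (by linarith)]
    nlinarith [abs_nonneg (c w).1.2]
  have a3 : ‖mulw al (c w).2‖ < 2 := by
    have := norm_mulw_le h (c w).2
    nlinarith [norm_nonneg (c w).2]
  have h5 := h.lin (c w).1.1 (c w).1.2 (c w).2 (by linarith) a2 (by linarith)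
  have h4 : κ (((c w).1.1, (c w).1.2), (c w).2) = κ (c w) := rfl
  rw [h4, e, hw, ← e'] at h5
  exact h.inj hB' (mem_BxD.2 ⟨⟨a1, a2⟩, a3⟩) h5

/-- PROOF. As `LinChart.fwd`: c (w n) = ((x_n,y_n),w_n) → 0, for large n c (w (n+1)) = ((lam x_n, mu y_n), mulw al w_n), so |y_(n+1)| ≥ |y_n| and y_n → 0: y_n = 0 (`b15_mono`). -/
theorem LinChartD.fwd (h : LinChartD g i κ c lam mu al) {w : ℕ → En d} (hw : ∀ n, g (w n) = w (n + 1))
    (hlim : Tendsto w atTop (𝓝 (κ 0))) :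
    ∀ᶠ n in atTop, ∃ (x : ℝ) (om : Wd d), |x| < 1 ∧ ‖om‖ < 1 ∧ w n = κ ((x, 0), om) := by
  obtain ⟨N, hN⟩ := db15_ev h hlim
  obtain ⟨m1, m2⟩ := b15_mu h.mu_mem
  have hs : ∀ n ≥ N, |(c (w n)).1.2| ≤ |(c (w (n + 1))).1.2| := by
    intro n hn
    obtain ⟨e, -, h1, h2, h3⟩ := hN n hn
    obtain ⟨e', hB', -, -, -⟩ := hN (n + 1) (by omega)
    rw [db15_step h e e' hB' h1 h2 h3 (hw n)]
    simp only [abs_mul, abs_of_pos (show (0 : ℝ) < mu by linarith)]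
    nlinarith [abs_nonneg (c (w n)).1.2]
  have hl : Tendsto (fun n => (c (w n)).1.2) atTop (𝓝 0) := by
    have := ((continuous_snd.comp continuous_fst).tendsto (0 : En d)).comp (db15_lim h hlim)
    exact this
  have h0 := b15_mono hs hl
  refine eventually_atTop.2 ⟨N, fun n hn => ?_⟩
  obtain ⟨e, -, h1, -, h3⟩ := hN n hn
  refine ⟨(c (w n)).1.1, (c (w n)).2, by linarith, by linarith, ?_⟩
  rw [← h0 n hn]
  exact e.symm

/-- PROOF. As `LinChart.bwd`: x_n = lam x_(n+1), w_n = mulw al w_(n+1) for large n (norm increases, tends to 0), so x_n = 0, w_n = 0. -/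
theorem LinChartD.bwd (h : LinChartD g i κ c lam mu al) {w : ℕ → En d} (hw : ∀ n, g (w (n + 1)) = w n)
    (hlim : Tendsto w atTop (𝓝 (κ 0))) : ∀ᶠ n in atTop, ∃ y : ℝ, |y| < 1 ∧ w n = κ ((0, y), 0) := by
  obtain ⟨N, hN⟩ := db15_ev h hlim
  have hl0 := h.lam_mem
  have hst : ∀ n ≥ N, c (w n) =
      ((lam * (c (w (n + 1))).1.1, mu * (c (w (n + 1))).1.2), mulw al (c (w (n + 1))).2) := by
    intro n hn
    obtain ⟨e, hB, -, -, -⟩ := hN n hn
    obtain ⟨e', -, h1, h2, h3⟩ := hN (n + 1) (by omega)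
    exact db15_step h e' e hB h1 h2 h3 (hw n)
  have hs : ∀ n ≥ N, |(c (w n)).1.1| ≤ |(c (w (n + 1))).1.1| := by
    intro n hn
    rw [hst n hn]
    simp only [abs_mul, abs_of_pos (show (0 : ℝ) < lam by linarith [hl0.1])]
    nlinarith [abs_nonneg (c (w (n + 1))).1.1, hl0.2]
  have hs2 : ∀ n ≥ N, |‖(c (w n)).2‖| ≤ |‖(c (w (n + 1))).2‖| := by
    intro n hn
    rw [hst n hn, abs_of_nonneg (norm_nonneg _), abs_of_nonneg (norm_nonneg _)]
    have := norm_mulw_le h (c (w (n + 1))).2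
    simp only
    nlinarith [norm_nonneg (c (w (n + 1))).2]
  have hl : Tendsto (fun n => (c (w n)).1.1) atTop (𝓝 0) := by
    have := ((continuous_fst.comp continuous_fst).tendsto (0 : En d)).comp (db15_lim h hlim)
    exact this
  have hl2 : Tendsto (fun n => ‖(c (w n)).2‖) atTop (𝓝 0) := by
    have h5 : Tendsto (fun v : En d => ‖v.2‖) (𝓝 0) (𝓝 ‖(0 : En d).2‖) :=
      (continuous_norm.comp (continuous_snd (X := Pt) (Y := Wd d))).tendsto (0 : En d)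
    have h6 : ‖(0 : En d).2‖ = 0 := by simp
    rw [h6] at h5
    exact h5.comp (db15_lim h hlim)
  have h0 := b15_mono hs hl
  have h02 := b15_mono hs2 hl2
  refine eventually_atTop.2 ⟨N, fun n hn => ?_⟩
  obtain ⟨e, -, -, h1, -⟩ := hN n hn
  refine ⟨(c (w n)).1.2, by linarith, ?_⟩
  have e2 : (c (w n)).2 = 0 := norm_eq_zero.1 (h02 n hn)
  rw [← h0 n hn, ← e2]
  exact e.symm

end Pool.Agent.Lib.H37D
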