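import Pool.Agent.Lib.H37D.DB01
import Pool.Agent.Lib.H37D.DB16

/-! # H37D, chunk DB16b (M): the horizontal cone (port of the cone part of H37N/B16.lean) -/

open Set Filter Topology
open scoped ContDiff

namespace Pool.Agent.Lib.H37D

open Pool.Agent.Lib.H37N

variable {d : ℕ} {g : En d → En d}

/-- the horizontal cone -/
def HCone (u : En d) : Prop := |u.1.2| ≤ |u.1.1| / 2 ∧ ‖u.2‖ ≤ |u.1.1| / 2

/-- PROOF. ‖u‖ = |u.1.1|.  `NearD.deriv_apply`: |(Dg u).1.1| ≥ |u.1.1| / pw - 3 e0 |u.1.1| ≥ (5/4 - 3 e0) |u.1.1|; the other components are ≤ (1/4 + 3 e0) |u.1.1|. -/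
theorem cone_mapD (hg : NearD g) {i : Sy} {z : En d} (hz : z ∈ VVd d i) {u : En d} (hu : HCone u) :
    HCone (fderiv ℝ g z u) ∧ 6 / 5 * |u.1.1| ≤ |(fderiv ℝ g z u).1.1| := by
  obtain ⟨hu1, hu2⟩ := hu
  have hu0 := abs_nonneg u.1.1
  have hn : ‖u‖ = |u.1.1| := by
    rw [Prod.norm_def, Prod.norm_def, Real.norm_eq_abs, Real.norm_eq_abs]
    rw [max_eq_left (a := |u.1.1|) (b := |u.1.2|) (by linarith)]
    exact max_eq_left (by linarith)
  obtain ⟨h1, h2, h7⟩ := hg.deriv_apply hz u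
  rw [hn] at h1 h2 h7
  have hp : 0 < pw i ∧ pw i ≤ 4 / 5 := by cases i <;> norm_num [pw]
  have hq : 0 < qw i ∧ qw i ≤ 1 / 2 := by cases i <;> norm_num [qw]
  have h3 : 5 / 4 * |u.1.1| ≤ |u.1.1 / pw i| := by
    rw [abs_div, abs_of_pos hp.1, le_div_iff₀ hp.1]
    nlinarith
  have h4 : |qw i * u.1.2| ≤ 1 / 4 * |u.1.1| := by
    rw [abs_mul, abs_of_pos hq.1]
    nlinarith [abs_nonneg u.1.2]
  have h5 := abs_sub_abs_le_abs_sub (u.1.1 / pw i) (fderiv ℝ g z u).1.1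
  rw [abs_sub_comm] at h5
  have h6 := abs_sub_abs_le_abs_sub (fderiv ℝ g z u).1.2 (qw i * u.1.2)
  simp only [e0, aw] at h1 h2 h7
  refine ⟨⟨?_, ?_⟩, ?_⟩ <;> linarith

/-- PROOF. Induction on n, chain rule, `cone_mapD` (a point of VOD d is in VVd d P or VVd d Q). -/
theorem cone_iterD (hg : NearD g) (n : ℕ) {z : En d} (hz : ∀ j < n, g^[j] z ∈ VOD d) {u : En d} (hu : HCone u) :
    HCone (fderiv ℝ (g^[n]) z u) ∧ (6 / 5) ^ n * |u.1.1| ≤ |(fderiv ℝ (g^[n]) z u).1.1| := by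
  induction n with
  | zero =>
    simp only [Function.iterate_zero]
    rw [fderiv_id]
    simpa using hu
  | succ n ih =>
    have hz' : ∀ j < n, g^[j] z ∈ VOD d := fun j hj => hz j (hj.trans (Nat.lt_succ_self n))
    have h2 := hz n (Nat.lt_succ_self n)
    have h1 : DifferentiableAt ℝ (g^[n]) z := db16_gnd hg fun j hj => VOD_sub_Omd (hz' j hj)
    obtain ⟨i, hi⟩ : ∃ i, g^[n] z ∈ VVd d i := by
      obtain ⟨h5, h6⟩ := h2
      have h6' : (g^[n] z).2 ∈ BW d := Metric.ball_subset_closedBall h6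
      rcases h5 with h | h
      · exact ⟨_, interior_subset h, h6'⟩
      · exact ⟨_, interior_subset h, h6'⟩
    obtain ⟨a, b⟩ := ih hz'
    have h3 : fderiv ℝ (g^[n + 1]) z u = fderiv ℝ g (g^[n] z) (fderiv ℝ (g^[n]) z u) := by
      rw [Function.iterate_succ', fderiv_comp z (db16_gd hg (VOD_sub_Omd h2)) h1]
      rfl
    rw [h3]
    obtain ⟨c, e⟩ := cone_mapD hg hi a
    refine ⟨c, le_trans ?_ e⟩
    rw [pow_succ]
    nlinarith

end Pool.Agent.Lib.H37D
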