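import Pool.Agent.Lib.H37D.DB10
import Pool.Agent.Lib.H37D.DB16b

/-! # H37D, chunk DB17 (M): the unstable axis and the stable hyperplane of a chart and the horizontal cone (port of H37N/B17.lean) -/

open Set Filter Topology
open scoped ContDiff

namespace Pool.Agent.Lib.H37D

open Pool.Agent.Lib.H37N

variable {d : ℕ} {g : En d → En d} {i : Sy} {κ c : En d → En d} {lam mu : ℝ} {al : Wd d}

theorem db17_kappa (h : LinChartD g i κ c lam mu al) (v : En d) : HasFDerivAt κ (fderiv ℝ κ v) v :=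
  (h.smooth.differentiable (by simp) v).hasFDerivAt

theorem db17_VOD (j : Sy) : interior (VV j) ×ˢ Metric.ball (0 : Wd d) 1 ⊆ VOD d := by
  refine prod_mono ?_ subset_rfl
  cases j
  · exact subset_union_left
  · exact subset_union_right

theorem db17_mulw_zero (a : Wd d) : mulw a 0 = 0 := by
  ext k; simp [mulw]

theorem db17_norm3 (u : En d) (h1 : |u.1.2| < ‖u‖) (h2 : ‖u.2‖ < ‖u‖) : ‖u‖ = |u.1.1| := by
  rcases max_choice ‖u.1‖ ‖u.2‖ with h | h
  · have h3 : ‖u‖ = ‖u.1‖ := by rw [Prod.norm_def, h]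
    rcases max_choice ‖u.1.1‖ ‖u.1.2‖ with h' | h'
    · have h4 : ‖u.1‖ = ‖u.1.1‖ := by rw [Prod.norm_def, h']
      rw [h3, h4, Real.norm_eq_abs]
    · have h4 : ‖u.1‖ = ‖u.1.2‖ := by rw [Prod.norm_def, h']
      rw [h3, h4, Real.norm_eq_abs] at h1
      exact absurd h1 (lt_irrefl _)
  · have h3 : ‖u‖ = ‖u.2‖ := by rw [Prod.norm_def, h]
    rw [h3] at h2
    exact absurd h2 (lt_irrefl _)

/-- The unstable direction at the fixed point.

PROOF. g (κ v) = κ (dgD lam mu al v) near 0; differentiate at 0 in the direction ((0,1),0): fderiv g (κ 0) u = mu • u, u = fderiv κ 0 ((0,1),0).  `NearD.deriv_apply` at κ 0 ∈ VVd d i: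
|mu u.1.2 - qw u.1.2| ≤ 3 e0 ‖u‖ and mu - qw ≥ 7/10, so |u.1.2| ≤ 5 e0 ‖u‖; mu ‖u.2‖ ≤ aw ‖u.2‖ + 2 e0 ‖u‖, so ‖u.2‖ ≤ 2 e0 ‖u‖; u ≠ 0 (`h.inv`), so ‖u‖ = |u.1.1| > 0. -/
theorem db17_zero (hg : NearD g) (h : LinChartD g i κ c lam mu al) :
    |(fderiv ℝ κ 0 ((0, 1), 0)).1.2| < |(fderiv ℝ κ 0 ((0, 1), 0)).1.1| / 2 ∧
      ‖(fderiv ℝ κ 0 ((0, 1), 0)).2‖ < |(fderiv ℝ κ 0 ((0, 1), 0)).1.1| / 2 := by
  have hmu := h.one_lt
  have h0B : (0 : En d) ∈ BxD d := by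
    have h1 : (((0 : ℝ), (0 : ℝ)), (0 : Wd d)) ∈ BxD d := mem_BxD.2 ⟨⟨by simp, by simp⟩, by simp⟩
    exact h1
  have hz0 := h.sub ⟨0, h0B, rfl⟩
  have hz : κ 0 ∈ VVd d i := by
    rw [mem_VVd]
    exact ⟨interior_subset hz0.1, (mem_ball_zero_iff.1 hz0.2).le⟩
  have hgd : DifferentiableAt ℝ g (κ 0) :=
    (hg.contDiffAt (VVd_sub_Dd i hz)).self_of_nhds.differentiableAt (by simp)
  have hc1 : HasDerivAt (fun t : ℝ => ((((0 : ℝ), t), 0) : En d)) (((0 : ℝ), (1 : ℝ)), 0) 0 :=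
    ((hasDerivAt_const (0 : ℝ) (0 : ℝ)).prodMk (hasDerivAt_id (0 : ℝ))).prodMk (hasDerivAt_const (0 : ℝ) (0 : Wd d))
  have hc2 : HasDerivAt (fun t : ℝ => ((((0 : ℝ), mu * t), 0) : En d)) (((0 : ℝ), mu), 0) 0 := by
    have := ((hasDerivAt_const (0 : ℝ) (0 : ℝ)).prodMk ((hasDerivAt_id (0 : ℝ)).const_mul mu)).prodMk
      (hasDerivAt_const (0 : ℝ) (0 : Wd d))
    simpa using this
  have e1 : HasDerivAt (fun t : ℝ => κ (((0 : ℝ), t), 0)) (fderiv ℝ κ 0 ((0, 1), 0)) 0 :=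
    HasFDerivAt.comp_hasDerivAt (0 : ℝ) (f := fun t : ℝ => ((((0 : ℝ), t), 0) : En d)) (db17_kappa h _) hc1
  have e2 : HasDerivAt (fun t : ℝ => κ (((0 : ℝ), mu * t), 0)) (fderiv ℝ κ 0 ((0, mu), 0)) 0 := by
    have hk : HasFDerivAt κ (fderiv ℝ κ 0) ((fun t : ℝ => ((((0 : ℝ), mu * t), 0) : En d)) 0) := by
      have : ((fun t : ℝ => ((((0 : ℝ), mu * t), 0) : En d)) 0) = (0 : En d) := by
        simp only [mul_zero]; rfl
      rw [this]
      exact db17_kappa h 0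
    exact HasFDerivAt.comp_hasDerivAt (0 : ℝ) hk hc2
  have e3 : HasDerivAt (fun t : ℝ => g (κ (((0 : ℝ), t), 0))) (fderiv ℝ g (κ 0) (fderiv ℝ κ 0 ((0, 1), 0))) 0 :=
    HasFDerivAt.comp_hasDerivAt (0 : ℝ) (f := fun t : ℝ => κ (((0 : ℝ), t), 0)) hgd.hasFDerivAt e1
  have hev : (fun t : ℝ => g (κ (((0 : ℝ), t), 0))) =ᶠ[𝓝 0] fun t : ℝ => κ (((0 : ℝ), mu * t), 0) := by
    have h1 : ∀ᶠ t in 𝓝 (0 : ℝ), |mu * t| < 2 := by
      have : ContinuousAt (fun t : ℝ => |mu * t|) 0 := by fun_prop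
      apply this.eventually_lt continuousAt_const
      simp
    filter_upwards [h1] with t ht
    rw [h.lin 0 t 0 (by simp) ht (by simp), mul_zero, db17_mulw_zero]
  have e4 : fderiv ℝ g (κ 0) (fderiv ℝ κ 0 ((0, 1), 0)) = fderiv ℝ κ 0 ((0, mu), 0) :=
    e3.unique (e2.congr_of_eventuallyEq hev)
  set v := fderiv ℝ κ 0 ((0, 1), 0) with hv
  have e5 : fderiv ℝ κ 0 ((0, mu), 0) = mu • v := by
    rw [hv, ← map_smul]
    simp
  rw [e5] at e4
  have hvne : v ≠ 0 := by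
    intro h0
    have h1 := (h.inv 0 h0B).1 (show fderiv ℝ κ 0 ((0, 1), 0) = fderiv ℝ κ 0 0 by rw [← hv, h0, map_zero])
    have h2 := congrArg (fun q : En d => q.1.2) h1
    simp at h2
  obtain ⟨-, hd, hdw⟩ := hg.deriv_apply hz v
  rw [e4] at hd hdw
  have hq : 7 / 10 ≤ mu - qw i := by
    have := h.mu_mem
    cases i
    · simp only [muR, mem_Ioo] at this; simp only [qw]; linarith [this.1]
    · simp only [muR, mem_Ioo] at this; simp only [qw]; linarith [this.1]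
  have hd2 : (mu - qw i) * |v.1.2| ≤ 3 * e0 * ‖v‖ := by
    have : (mu • v).1.2 - qw i * v.1.2 = (mu - qw i) * v.1.2 := by
      simp only [Prod.smul_fst, Prod.smul_snd, smul_eq_mul]; ring
    rw [this, abs_mul, abs_of_pos (by linarith)] at hd
    exact hd
  have he0 : (0 : ℝ) < e0 := by unfold e0; positivity
  have hd3 : |v.1.2| ≤ 5 * e0 * ‖v‖ := by
    nlinarith [abs_nonneg v.1.2, norm_nonneg v, mul_nonneg he0.le (norm_nonneg v)]
  have hd4 : ‖v.2‖ ≤ 5 * e0 * ‖v‖ := by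
    have h1 : ‖(mu • v).2‖ = mu * ‖v.2‖ := by
      rw [Prod.smul_snd, norm_smul, Real.norm_eq_abs, abs_of_pos (by linarith)]
    rw [h1] at hdw
    have h2 : (aw : ℝ) = 1 / 10 ^ 7 := rfl
    rw [h2] at hdw
    have h3 := norm_nonneg v.2
    have h4 := mul_nonneg he0.le (norm_nonneg v)
    have h5 : ‖v.2‖ ≤ mu * ‖v.2‖ := by nlinarith
    norm_num at hdw
    nlinarith
  have hvn : 0 < ‖v‖ := norm_pos_iff.2 hvne
  have he : e0 = 1 / 10 ^ 12 := rfl
  rw [he] at hd3 hd4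
  have hlt : |v.1.2| < ‖v‖ := by nlinarith
  have hlt2 : ‖v.2‖ < ‖v‖ := by nlinarith
  have hn : ‖v‖ = |v.1.1| := db17_norm3 v hlt hlt2
  rw [hn] at hd3 hd4 hvn
  constructor
  · nlinarith
  · nlinarith

/-- The unstable direction is in the horizontal cone.

PROOF. As `LinChart.cone`.  By `db17_zero` and continuity of fderiv κ there is ρ > 0 with the strict inequalities at ((0,y'),0) for |y'| < ρ.  Choose n with |y| / mu^n < ρ.  For t near y:
|mu^n (t/mu^n)| = |t| < 2, so g^[n] (κ ((0, t/mu^n),0)) = κ ((0, t),0) (`LinChartD.iter`, mulw _ 0 = 0); the points g^[j] (κ ((0, y/mu^n),0)), j < n, are in VOD d (`LinChartD.iter_mem`).  Differentiate at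
t = y: fderiv κ ((0,y),0) ((0,1),0) = fderiv (g^[n]) (..) (mu^(-n) • fderiv κ ((0, y/mu^n),0) ((0,1),0)); `cone_iterD`. -/
theorem LinChartD.cone (hg : NearD g) (h : LinChartD g i κ c lam mu al) {y : ℝ} (hy : |y| < 2) :
    HCone (fderiv ℝ κ ((0, y), 0) ((0, 1), 0)) ∧ 0 < |(fderiv ℝ κ ((0, y), 0) ((0, 1), 0)).1.1| := by
  have hmu := h.one_lt
  have hcontκ : Continuous (fun v : En d => fderiv ℝ κ v ((0, 1), 0)) :=
    (h.smooth.continuous_fderiv (by simp)).clm_apply continuous_const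
  have c1 : Continuous (fun t : ℝ => fderiv ℝ κ ((((0 : ℝ), t), 0) : En d) ((0, 1), 0)) :=
    hcontκ.comp (by fun_prop : Continuous fun t : ℝ => ((((0 : ℝ), t), 0) : En d))
  have c3 : ContinuousAt (fun t : ℝ => |(fderiv ℝ κ ((((0 : ℝ), t), 0) : En d) ((0, 1), 0)).1.1| / 2) 0 :=
    ((continuous_abs.comp (continuous_fst.comp (continuous_fst.comp c1))).div_const 2).continuousAt
  have hz0 := db17_zero hg h
  have hopen1 : ∀ᶠ t in 𝓝 (0 : ℝ), |(fderiv ℝ κ ((((0 : ℝ), t), 0) : En d) ((0, 1), 0)).1.2| <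
      |(fderiv ℝ κ ((((0 : ℝ), t), 0) : En d) ((0, 1), 0)).1.1| / 2 := by
    have c2 : ContinuousAt (fun t : ℝ => |(fderiv ℝ κ ((((0 : ℝ), t), 0) : En d) ((0, 1), 0)).1.2|) 0 :=
      (continuous_abs.comp (continuous_snd.comp (continuous_fst.comp c1))).continuousAt
    exact c2.eventually_lt c3 hz0.1
  have hopen2 : ∀ᶠ t in 𝓝 (0 : ℝ), ‖(fderiv ℝ κ ((((0 : ℝ), t), 0) : En d) ((0, 1), 0)).2‖ <
      |(fderiv ℝ κ ((((0 : ℝ), t), 0) : En d) ((0, 1), 0)).1.1| / 2 := by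
    have c2 : ContinuousAt (fun t : ℝ => ‖(fderiv ℝ κ ((((0 : ℝ), t), 0) : En d) ((0, 1), 0)).2‖) 0 :=
      (continuous_norm.comp (continuous_snd.comp c1)).continuousAt
    exact c2.eventually_lt c3 hz0.2
  have hlim : Tendsto (fun n : ℕ => y / mu ^ n) atTop (𝓝 0) := by
    have h1 : Tendsto (fun n : ℕ => mu ^ n) atTop atTop := tendsto_pow_atTop_atTop_of_one_lt hmu
    exact h1.const_div_atTop y
  obtain ⟨n, hn1, hn2⟩ := (hlim.eventually (hopen1.and hopen2)).exists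
  set y' := y / mu ^ n with hy'
  have hpn : (0 : ℝ) < mu ^ n := by positivity
  have hmy : mu ^ n * y' = y := by
    rw [hy']; field_simp
  have hmem : ∀ j < n, g^[j] (κ ((0, y'), 0)) ∈ VOD d := by
    intro j hj
    exact db17_VOD i (h.iter_mem n (x := 0) (y := y') (w := 0) (by simp) (by rw [hmy]; exact hy) (by simp) j hj.le)
  have hgd : DifferentiableAt ℝ (g^[n]) (κ ((0, y'), 0)) :=
    (hg.iter isOpen_VOD (VOD_sub_Omd.trans Omd_sub_Dd) n hmem).self_of_nhds.1.differentiableAt (by simp)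
  have hc1 : HasDerivAt (fun t : ℝ => ((((0 : ℝ), t), 0) : En d)) (((0 : ℝ), (1 : ℝ)), 0) y :=
    ((hasDerivAt_const y (0 : ℝ)).prodMk (hasDerivAt_id y)).prodMk (hasDerivAt_const y (0 : Wd d))
  have hc2 : HasDerivAt (fun t : ℝ => ((((0 : ℝ), t / mu ^ n), 0) : En d)) (((0 : ℝ), 1 / mu ^ n), 0) y :=
    ((hasDerivAt_const y (0 : ℝ)).prodMk ((hasDerivAt_id y).div_const _)).prodMk (hasDerivAt_const y (0 : Wd d))
  have e1 : HasDerivAt (fun t : ℝ => κ (((0 : ℝ), t), 0)) (fderiv ℝ κ ((0, y), 0) ((0, 1), 0)) y :=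
    HasFDerivAt.comp_hasDerivAt y (f := fun t : ℝ => ((((0 : ℝ), t), 0) : En d)) (db17_kappa h _) hc1
  have e2 : HasDerivAt (fun t : ℝ => κ (((0 : ℝ), t / mu ^ n), 0)) (fderiv ℝ κ ((0, y'), 0) ((0, 1 / mu ^ n), 0)) y :=
    HasFDerivAt.comp_hasDerivAt y (f := fun t : ℝ => ((((0 : ℝ), t / mu ^ n), 0) : En d)) (db17_kappa h _) hc2
  have e3 : HasDerivAt (fun t : ℝ => g^[n] (κ (((0 : ℝ), t / mu ^ n), 0)))
      (fderiv ℝ (g^[n]) (κ ((0, y'), 0)) (fderiv ℝ κ ((0, y'), 0) ((0, 1 / mu ^ n), 0))) y :=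
    HasFDerivAt.comp_hasDerivAt y (f := fun t : ℝ => κ (((0 : ℝ), t / mu ^ n), 0)) hgd.hasFDerivAt e2
  have hev : (fun t : ℝ => g^[n] (κ (((0 : ℝ), t / mu ^ n), 0))) =ᶠ[𝓝 y] fun t : ℝ => κ (((0 : ℝ), t), 0) := by
    have h1 : ∀ᶠ t in 𝓝 y, |t| < 2 := by
      have : ContinuousAt (fun t : ℝ => |t|) y := by fun_prop
      exact this.eventually_lt continuousAt_const hy
    filter_upwards [h1] with t ht
    have hmt : mu ^ n * (t / mu ^ n) = t := by field_simp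
    rw [h.iter n (by simp) (by rw [hmt]; exact ht) (by simp), hmt, mul_zero, db17_mulw_zero]
  have e4 : fderiv ℝ (g^[n]) (κ ((0, y'), 0)) (fderiv ℝ κ ((0, y'), 0) ((0, 1 / mu ^ n), 0)) =
      fderiv ℝ κ ((0, y), 0) ((0, 1), 0) :=
    e3.unique (e1.congr_of_eventuallyEq hev)
  have e5 : fderiv ℝ κ ((0, y'), 0) ((0, 1 / mu ^ n), 0) = (1 / mu ^ n) • fderiv ℝ κ ((0, y'), 0) ((0, 1), 0) := by
    rw [← map_smul]
    simp
  have hpos : (0 : ℝ) < 1 / mu ^ n := by positivity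
  have hw : HCone (fderiv ℝ κ ((0, y'), 0) ((0, 1 / mu ^ n), 0)) := by
    rw [e5]
    constructor
    · simp only [Prod.smul_fst, Prod.smul_snd, smul_eq_mul, abs_mul, abs_of_pos hpos]
      nlinarith
    · simp only [Prod.smul_fst, Prod.smul_snd, smul_eq_mul, abs_mul, norm_smul, Real.norm_eq_abs, abs_of_pos hpos]
      nlinarith
  have hci := cone_iterD hg n hmem hw
  rw [e4] at hci
  refine ⟨hci.1, lt_of_lt_of_le ?_ hci.2⟩
  apply mul_pos (by positivity)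
  rw [e5]
  simp only [Prod.smul_fst, smul_eq_mul, abs_mul, abs_of_pos hpos]
  apply mul_pos hpos
  have := abs_nonneg (fderiv ℝ κ ((0, y'), 0) ((0, 1), 0)).1.2
  linarith

/-- A stable direction is not in the horizontal cone.

PROOF. As `LinChart.stable_not_cone`.  u = fderiv κ ((x,0),w) ((a,0),b).  For all n and t near 0: g^[n] (κ ((x + t a, 0), w + t b)) = κ ((lam^n (x + t a), 0), mulw (al^n) (w + t b)), so
fderiv (g^[n]) (κ ((x,0),w)) u = fderiv κ ((lam^n x, 0), mulw (al^n) w) ((lam^n a, 0), mulw (al^n) b), which tends to 0.  By `cone_iterD` |u.1.1| ≤ (6/5)^n |u.1.1| ≤ |(..).1.1| → 0.  So u.1.1 = 0, u = 0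
(cone), and fderiv κ is injective (`h.inv`): a = 0, b = 0. -/
theorem LinChartD.stable_not_cone (hg : NearD g) (h : LinChartD g i κ c lam mu al) {x : ℝ} {w : Wd d} (hx : |x| < 2)
    (hw : ‖w‖ < 2) {a : ℝ} {b : Wd d} (hc : HCone (fderiv ℝ κ ((x, 0), w) ((a, 0), b))) : a = 0 ∧ b = 0 := by
  have hmu := h.one_lt
  have hlam := h.lam_pos
  have hlam1 : lam < 1 := by linarith [h.lam_mem.2]
  set u := fderiv ℝ κ ((x, 0), w) ((a, 0), b) with hu
  have hmem : ∀ n : ℕ, ∀ j < n, g^[j] (κ ((x, 0), w)) ∈ VOD d := by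
    intro n j hj
    exact db17_VOD i (h.iter_mem n (x := x) (y := 0) (w := w) hx (by simp) hw j hj.le)
  have key : ∀ n : ℕ, fderiv ℝ (g^[n]) (κ ((x, 0), w)) u =
      fderiv ℝ κ ((lam ^ n * x, 0), mulw (fun k => al k ^ n) w) ((lam ^ n * a, 0), mulw (fun k => al k ^ n) b) := by
    intro n
    have hgd : DifferentiableAt ℝ (g^[n]) (κ ((x, 0), w)) :=
      (hg.iter isOpen_VOD (VOD_sub_Omd.trans Omd_sub_Dd) n (hmem n)).self_of_nhds.1.differentiableAt (by simp)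
    have hb : HasDerivAt (fun t : ℝ => w + t • b) b 0 := by
      have := ((hasDerivAt_id (0 : ℝ)).smul_const b).const_add w
      simpa using this
    have hc1 : HasDerivAt (fun t : ℝ => (((x + t * a, (0 : ℝ)), w + t • b) : En d)) ((a, (0 : ℝ)), b) 0 := by
      have := ((hasDerivAt_id (0 : ℝ)).mul_const a).const_add x
      have h2 := (this.prodMk (hasDerivAt_const (0 : ℝ) (0 : ℝ))).prodMk hb
      simpa using h2
    have hc2 : HasDerivAt (fun t : ℝ => (((lam ^ n * (x + t * a), (0 : ℝ)), mulw (fun k => al k ^ n) (w + t • b)) : En d))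
        ((lam ^ n * a, (0 : ℝ)), mulw (fun k => al k ^ n) b) 0 := by
      have h1 := (((hasDerivAt_id (0 : ℝ)).mul_const a).const_add x).const_mul (lam ^ n)
      have h3 : HasDerivAt (fun t : ℝ => mulw (fun k => al k ^ n) (w + t • b)) (mulw (fun k => al k ^ n) b) 0 := by
        have h4 := HasFDerivAt.comp_hasDerivAt (0 : ℝ) (f := fun t : ℝ => w + t • b)
          (mulL (fun k => al k ^ n) : Wd d →L[ℝ] Wd d).hasFDerivAt hb
        simpa [Function.comp_def] using h4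
      have h2 := (h1.prodMk (hasDerivAt_const (0 : ℝ) (0 : ℝ))).prodMk h3
      simpa using h2
    have hp1 : (fun t : ℝ => (((x + t * a, (0 : ℝ)), w + t • b) : En d)) 0 = ((x, 0), w) := by simp
    have hp2 : (fun t : ℝ => (((lam ^ n * (x + t * a), (0 : ℝ)), mulw (fun k => al k ^ n) (w + t • b)) : En d)) 0 =
        ((lam ^ n * x, 0), mulw (fun k => al k ^ n) w) := by simp
    have e1 : HasDerivAt (fun t : ℝ => κ ((x + t * a, (0 : ℝ)), w + t • b)) u 0 := by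
      have hk : HasFDerivAt κ (fderiv ℝ κ ((x, 0), w)) ((fun t : ℝ => (((x + t * a, (0 : ℝ)), w + t • b) : En d)) 0) := by
        rw [hp1]; exact db17_kappa h _
      exact HasFDerivAt.comp_hasDerivAt (0 : ℝ) hk hc1
    have e2 : HasDerivAt (fun t : ℝ => κ ((lam ^ n * (x + t * a), (0 : ℝ)), mulw (fun k => al k ^ n) (w + t • b)))
        (fderiv ℝ κ ((lam ^ n * x, 0), mulw (fun k => al k ^ n) w) ((lam ^ n * a, 0), mulw (fun k => al k ^ n) b)) 0 := by
      have hk : HasFDerivAt κ (fderiv ℝ κ ((lam ^ n * x, 0), mulw (fun k => al k ^ n) w))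
          ((fun t : ℝ => (((lam ^ n * (x + t * a), (0 : ℝ)), mulw (fun k => al k ^ n) (w + t • b)) : En d)) 0) := by
        rw [hp2]; exact db17_kappa h _
      exact HasFDerivAt.comp_hasDerivAt (0 : ℝ) hk hc2
    have e3 : HasDerivAt (fun t : ℝ => g^[n] (κ ((x + t * a, (0 : ℝ)), w + t • b)))
        (fderiv ℝ (g^[n]) (κ ((x, 0), w)) u) 0 := by
      have hk : HasFDerivAt (g^[n]) (fderiv ℝ (g^[n]) (κ ((x, 0), w)))
          ((fun t : ℝ => κ ((x + t * a, (0 : ℝ)), w + t • b)) 0) := by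
        simp only [zero_mul, add_zero, zero_smul]
        exact hgd.hasFDerivAt
      exact HasFDerivAt.comp_hasDerivAt (0 : ℝ) hk e1
    have hev : (fun t : ℝ => g^[n] (κ ((x + t * a, (0 : ℝ)), w + t • b))) =ᶠ[𝓝 0]
        fun t : ℝ => κ ((lam ^ n * (x + t * a), (0 : ℝ)), mulw (fun k => al k ^ n) (w + t • b)) := by
      have h1 : ∀ᶠ t in 𝓝 (0 : ℝ), |x + t * a| < 2 := by
        have : ContinuousAt (fun t : ℝ => |x + t * a|) 0 := by fun_prop
        apply this.eventually_lt continuousAt_const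
        simpa using hx
      have h2 : ∀ᶠ t in 𝓝 (0 : ℝ), ‖w + t • b‖ < 2 := by
        have : ContinuousAt (fun t : ℝ => ‖w + t • b‖) 0 := by fun_prop
        apply this.eventually_lt continuousAt_const
        simpa using hw
      filter_upwards [h1, h2] with t ht ht2
      rw [h.iter n ht (by simp) ht2, mul_zero]
    exact e3.unique (e2.congr_of_eventuallyEq hev)
  have hlimx : Tendsto (fun n : ℕ => lam ^ n) atTop (𝓝 0) :=
    tendsto_pow_atTop_nhds_zero_of_lt_one hlam.le hlam1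
  have hlimw : ∀ v : Wd d, Tendsto (fun n : ℕ => mulw (fun k => al k ^ n) v) atTop (𝓝 0) := by
    intro v
    rw [tendsto_pi_nhds]
    intro k
    have h1 : al k ∈ Ioo (89 / 10 ^ 9 : ℝ) (101 / 10 ^ 9) := h.al_mem k
    have h2 : Tendsto (fun n : ℕ => al k ^ n) atTop (𝓝 0) :=
      tendsto_pow_atTop_nhds_zero_of_lt_one (le_trans (by norm_num) h1.1.le) (lt_trans h1.2 (by norm_num))
    have h3 := h2.mul_const (v k)
    rw [zero_mul] at h3
    exact h3
  have hpt : ∀ (r : ℝ) (v : Wd d), Tendsto (fun n : ℕ => (((lam ^ n * r, (0 : ℝ)), mulw (fun k => al k ^ n) v) : En d))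
      atTop (𝓝 0) := by
    intro r v
    have h1 : Tendsto (fun n : ℕ => lam ^ n * r) atTop (𝓝 0) := by
      have := hlimx.mul_const r
      rwa [zero_mul] at this
    exact (h1.prodMk_nhds tendsto_const_nhds).prodMk_nhds (hlimw v)
  have hcontκ : Continuous (fun q : En d × En d => (fderiv ℝ κ q.1) q.2) :=
    ((h.smooth.continuous_fderiv (by simp)).comp continuous_fst).clm_apply continuous_snd
  have hlim : Tendsto (fun n : ℕ => |(fderiv ℝ κ ((lam ^ n * x, 0), mulw (fun k => al k ^ n) w)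
      ((lam ^ n * a, 0), mulw (fun k => al k ^ n) b)).1.1|) atTop (𝓝 0) := by
    have c1 : Continuous (fun q : En d × En d => |((fderiv ℝ κ q.1) q.2).1.1|) :=
      continuous_abs.comp (continuous_fst.comp (continuous_fst.comp hcontκ))
    have h5 := (c1.tendsto ((0 : En d), (0 : En d))).comp ((hpt x w).prodMk_nhds (hpt a b))
    have h6 : |((fderiv ℝ κ ((0 : En d), (0 : En d)).1) ((0 : En d), (0 : En d)).2).1.1| = 0 := by simp
    rw [h6] at h5
    exact h5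
  have hle : ∀ n : ℕ, |u.1.1| ≤ |(fderiv ℝ κ ((lam ^ n * x, 0), mulw (fun k => al k ^ n) w)
      ((lam ^ n * a, 0), mulw (fun k => al k ^ n) b)).1.1| := by
    intro n
    have h1 := (cone_iterD hg n (hmem n) hc).2
    rw [key n] at h1
    have h2 : (1 : ℝ) ≤ (6 / 5) ^ n := one_le_pow₀ (by norm_num)
    have h3 := abs_nonneg u.1.1
    nlinarith
  have hw1 : |u.1.1| ≤ 0 := ge_of_tendsto' hlim hle
  have hw1' : u.1.1 = 0 := abs_nonpos_iff.1 hw1
  obtain ⟨hc1, hc2⟩ := hc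
  rw [hw1'] at hc1 hc2
  simp only [abs_zero, zero_div] at hc1 hc2
  have hw2' : u.1.2 = 0 := abs_nonpos_iff.1 hc1
  have hw3' : u.2 = 0 := norm_le_zero_iff.1 hc2
  have hw0 : u = 0 := Prod.ext (Prod.ext hw1' hw2') hw3'
  have hB : (((x, 0), w) : En d) ∈ BxD d := mem_BxD.2 ⟨⟨hx, by simp⟩, hw⟩
  have h1 := (h.inv _ hB).1 (show fderiv ℝ κ ((x, 0), w) ((a, 0), b) = fderiv ℝ κ ((x, 0), w) 0 by
    rw [← hu, hw0, map_zero])
  exact ⟨congrArg (fun q : En d => q.1.1) h1, congrArg (fun q : En d => q.2) h1⟩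

end Pool.Agent.Lib.H37D
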