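import Pool.Agent.Lib.H37D.DB14
import Pool.Agent.Lib.H37D.DB15

/-! # H37D, chunk DB18a (S/M): the connecting orbit in the charts (port of H37N/B18a.lean) -/

open Set Filter Topology
open scoped ContDiff

namespace Pool.Agent.Lib.H37D

open Pool.Agent.Lib.H37N

variable {d : ℕ}

theorem db18a_zero : (0 : En d) ∈ BxD d := by
  have h : (((0 : ℝ), (0 : ℝ)), (0 : Wd d)) ∈ BxD d := by
    rw [mem_BxD]
    simp
  exact h

theorem db18a_sub {i : Sy} {z : En d} (h : z ∈ interior (VV i) ×ˢ Metric.ball (0 : Wd d) 1) :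
    z ∈ VVd d i :=
  mem_VVd.2 ⟨interior_subset h.1, (mem_ball_zero_iff.1 h.2).le⟩

theorem db18a_VOD {z : En d} {i : Sy} (h : z ∈ interior (VVd d i)) : z ∈ VOD d := by
  rw [mem_interior_VVd] at h
  refine ⟨?_, mem_ball_zero_iff.2 h.2⟩
  cases i
  · exact Or.inl h.1
  · exact Or.inr h.1

theorem db18a_back {g : En d → En d} {a : ℕ → En d} (ha : ∀ n, g (a (n + 1)) = a n) :
    ∀ j n, j ≤ n → g^[j] (a n) = a (n - j) := by
  intro j
  induction j with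
  | zero => intro n _; rfl
  | succ j ih =>
    intro n hn
    rw [Function.iterate_succ_apply']
    rw [ih n (by omega)]
    have e : n - j = (n - (j + 1)) + 1 := by omega
    rw [e, ha]

theorem db18a_fwd {g : En d → En d} {b : ℕ → En d} (hb : ∀ n, g (b n) = b (n + 1)) :
    ∀ j, g^[j] (b 0) = b j := by
  intro j
  induction j with
  | zero => rfl
  | succ j ih => rw [Function.iterate_succ_apply', ih, hb]

/-- PROOF. As `sdata_core`: p = κP 0 ∈ VVd P, q = κQ 0 ∈ VVd Q are fixed.  `exists_connD`: a, b.  `LinChartD.bwd` for a: n ≥ 1 with a n = κP ((0,y),0), |y| < 1, y ≠ 0 because a n ≠ p.  `LinChartD.fwd` for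
b: m with b m = κQ ((x,0),w).  kS = n + m. -/
theorem sdata_coreD {g κP cP κQ cQ : En d → En d} {lamP muP lamQ muQ : ℝ} {alP alQ : Wd d} (hg : NearD g)
    (hP : LinChartD g Sy.P κP cP lamP muP alP) (hQ : LinChartD g Sy.Q κQ cQ lamQ muQ alQ) :
    ∃ (kS : ℕ) (uS sS : ℝ) (wS : Wd d), 1 ≤ kS ∧ uS ≠ 0 ∧ |uS| < 1 ∧ |sS| < 1 ∧ ‖wS‖ < 1 ∧
      (∀ j ≤ kS, g^[j] (κP ((0, uS), 0)) ∈ VOD d) ∧ g^[kS] (κP ((0, uS), 0)) = κQ ((sS, 0), wS) := by
  have hp : κP 0 ∈ VVd d Sy.P := db18a_sub (hP.sub ⟨0, db18a_zero, rfl⟩)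
  have hq : κQ 0 ∈ VVd d Sy.Q := db18a_sub (hQ.sub ⟨0, db18a_zero, rfl⟩)
  obtain ⟨a, b, h0, ha, hb, haP, hbQ, hla, hlb, hne⟩ := exists_connD hg hp hP.fix hq hQ.fix
  obtain ⟨N, hN⟩ := eventually_atTop.1 (hP.bwd ha hla)
  obtain ⟨M, hM⟩ := eventually_atTop.1 (hQ.fwd hb hlb)
  obtain ⟨y, hy1, hy⟩ := hN (N + 1) (by omega)
  obtain ⟨x, om, hx1, hom, hx⟩ := hM M le_rfl
  have key : ∀ j, g^[N + 1 + j] (κP ((0, y), 0)) = b j := by
    intro j
    rw [add_comm, Function.iterate_add_apply, ← hy, db18a_back ha (N + 1) (N + 1) le_rfl,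
      Nat.sub_self, h0, db18a_fwd hb]
  refine ⟨N + 1 + M, y, x, om, by omega, ?_, hy1, hx1, hom, ?_, ?_⟩
  · rintro rfl
    exact hne (N + 1) hy
  · intro j hj
    rcases lt_or_ge j (N + 1) with h | h
    · have e : N + 1 - j = (N - j) + 1 := by omega
      rw [← hy, db18a_back ha j (N + 1) h.le, e]
      exact db18a_VOD (haP _)
    · obtain ⟨k, rfl⟩ := Nat.exists_eq_add_of_le h
      rw [key]
      exact db18a_VOD (hbQ _)
  · rw [key, hx]

end Pool.Agent.Lib.H37D
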