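import Pool.Agent.Lib.H37D.DB17

/-! # H37D, chunk DB18b (M): the transition map of the connection (port of H37N/B18b.lean) -/

open Set Filter Topology
open scoped ContDiff

namespace Pool.Agent.Lib.H37D

open Pool.Agent.Lib.H37N

variable {d : ℕ} {g κP cP κQ cQ : En d → En d} {lamP muP lamQ muQ : ℝ} {alP alQ : Wd d} {kS : ℕ} {uS sS : ℝ} {wS : Wd d}

/-- the shift along the unstable axis -/
def db18b_tau (uS : ℝ) (v : En d) : En d := ((v.1.1, uS + v.1.2), v.2)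

theorem db18b_tau_eq (uS : ℝ) (v : En d) : db18b_tau uS v = v + ((0, uS), 0) := by
  unfold db18b_tau
  refine Prod.ext (Prod.ext ?_ ?_) ?_
  · simp
  · simp [add_comm]
  · simp

theorem db18b_tau_contDiff (uS : ℝ) : ContDiff ℝ ∞ (db18b_tau (d := d) uS) := by
  have h : (db18b_tau (d := d) uS) = fun v => v + ((0, uS), 0) := funext (db18b_tau_eq uS)
  rw [h]
  exact contDiff_id.add contDiff_const

theorem db18b_tau_zero (uS : ℝ) : db18b_tau (d := d) uS 0 = ((0, uS), 0) := by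
  simp [db18b_tau]

theorem db18b_tau_hasFDerivAt (uS : ℝ) (v : En d) :
    HasFDerivAt (db18b_tau (d := d) uS) (ContinuousLinearMap.id ℝ (En d)) v := by
  have h : (db18b_tau (d := d) uS) = fun v => v + ((0, uS), 0) := funext (db18b_tau_eq uS)
  rw [h]
  exact (hasFDerivAt_id v).add_const _

theorem db18b_tau_fderiv (uS : ℝ) (v : En d) :
    fderiv ℝ (db18b_tau (d := d) uS) v = ContinuousLinearMap.id ℝ (En d) :=
  (db18b_tau_hasFDerivAt uS v).fderiv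

/-- PROOF. The map v ↦ κP ((v.1.1, uS + v.1.2), v.2) is smooth, at v = 0 it is κP ((0,uS),0).  `NearD.iter` with V = VOD d, n = kS + 1 (pull back the eventual statement). -/
theorem db18_path (hg : NearD g) (hP : LinChartD g Sy.P κP cP lamP muP alP)
    (hpath : ∀ j ≤ kS, g^[j] (κP ((0, uS), 0)) ∈ VOD d) :
    ∀ᶠ v in 𝓝 (0 : En d), (∀ j ≤ kS, g^[j] (κP ((v.1.1, uS + v.1.2), v.2)) ∈ VOD d) ∧
      ContDiffAt ℝ ∞ (fun v : En d => g^[kS] (κP ((v.1.1, uS + v.1.2), v.2))) v := by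
  have hVD : VOD d ⊆ Dd d := VOD_sub_Omd.trans Omd_sub_Dd
  have hsm : ContDiff ℝ ∞ (fun v : En d => κP (db18b_tau uS v)) :=
    hP.smooth.comp (db18b_tau_contDiff uS)
  have hc : Tendsto (fun v : En d => κP (db18b_tau uS v)) (𝓝 0) (𝓝 (κP ((0, uS), 0))) := by
    have := hsm.continuous.continuousAt (x := (0 : En d))
    have h2 : Tendsto (fun v : En d => κP (db18b_tau uS v)) (𝓝 0) (𝓝 (κP (db18b_tau uS 0))) := this
    rwa [db18b_tau_zero] at h2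
  have h1 := NearD.iter hg isOpen_VOD hVD (kS + 1) (z := κP ((0, uS), 0)) (fun j hj => hpath j (Nat.lt_succ_iff.mp hj))
  have h2 := NearD.iter hg isOpen_VOD hVD kS (z := κP ((0, uS), 0)) (fun j hj => hpath j hj.le)
  filter_upwards [hc.eventually h1, hc.eventually h2] with v hv1 hv2
  refine ⟨fun j hj => hv1.2 j (Nat.lt_succ_iff.mpr hj), ?_⟩
  exact ContDiffAt.comp v (g := g^[kS]) (f := fun v : En d => κP (db18b_tau uS v)) hv2.1 hsm.contDiffAt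

/-- PROOF. cQ is smooth. -/
theorem db18_smooth (hg : NearD g) (hP : LinChartD g Sy.P κP cP lamP muP alP) (hQ : LinChartD g Sy.Q κQ cQ lamQ muQ alQ)
    (hpath : ∀ j ≤ kS, g^[j] (κP ((0, uS), 0)) ∈ VOD d) :
    ∀ᶠ v in 𝓝 (0 : En d), ContDiffAt ℝ ∞ (SMD g κP cQ kS uS) v := by
  filter_upwards [db18_path hg hP hpath] with v hv
  exact ContDiffAt.comp v (g := cQ) (f := fun v : En d => g^[kS] (κP ((v.1.1, uS + v.1.2), v.2)))
    hQ.smooth_c.contDiffAt hv.2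

theorem db18b_mem_Bx (hs : |sS| < 1) (hw : ‖wS‖ < 1) : (((sS, 0), wS) : En d) ∈ BxD d := by
  rw [mem_BxD]
  refine ⟨⟨by linarith, by simp⟩, by linarith⟩

theorem db18b_mem_Bx' (hs : |uS| < 1) : (((0, uS), 0) : En d) ∈ BxD d := by
  rw [mem_BxD]
  refine ⟨⟨by simp, by linarith⟩, by simp⟩

/-- PROOF. `LinChartD.left` at ((sS,0),wS) ∈ BxD d. -/
theorem db18_zero (hQ : LinChartD g Sy.Q κQ cQ lamQ muQ alQ) (hs : |sS| < 1) (hw : ‖wS‖ < 1)
    (hit : g^[kS] (κP ((0, uS), 0)) = κQ ((sS, 0), wS)) : SMD g κP cQ kS uS 0 = ((sS, 0), wS) := by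
  have h0 : SMD g κP cQ kS uS 0 = cQ (g^[kS] (κP ((0, uS), 0))) := by
    simp [SMD]
  rw [h0, hit]
  exact hQ.left _ (db18b_mem_Bx hs hw)

/-- PROOF. v ↦ g^[kS] (κP (..)) is continuous at 0 with value in the open set κQ '' BxD d; `LinChartD.right`. -/
theorem db18_back (hg : NearD g) (hP : LinChartD g Sy.P κP cP lamP muP alP) (hQ : LinChartD g Sy.Q κQ cQ lamQ muQ alQ)
    (hs : |sS| < 1) (hw : ‖wS‖ < 1) (hpath : ∀ j ≤ kS, g^[j] (κP ((0, uS), 0)) ∈ VOD d)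
    (hit : g^[kS] (κP ((0, uS), 0)) = κQ ((sS, 0), wS)) :
    ∀ᶠ v in 𝓝 (0 : En d), SMD g κP cQ kS uS v ∈ BxD d ∧
      κQ (SMD g κP cQ kS uS v) = g^[kS] (κP ((v.1.1, uS + v.1.2), v.2)) := by
  have hc := (db18_path hg hP hpath).self_of_nhds.2.continuousAt
  have hmem : (fun v : En d => g^[kS] (κP ((v.1.1, uS + v.1.2), v.2))) 0 ∈ κQ '' BxD d := by
    have h0 : (fun v : En d => g^[kS] (κP ((v.1.1, uS + v.1.2), v.2))) 0 = g^[kS] (κP ((0, uS), 0)) := by simp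
    rw [h0, hit]
    exact mem_image_of_mem _ (db18b_mem_Bx hs hw)
  have hev := hc.preimage_mem_nhds (hQ.isOpen.mem_nhds hmem)
  filter_upwards [hev] with v hv
  obtain ⟨h1, h2⟩ := hQ.right hv
  exact ⟨h2, h1⟩

/-- the two factorisations of the transition -/
theorem db18b_germ (hg : NearD g) (hP : LinChartD g Sy.P κP cP lamP muP alP) (hQ : LinChartD g Sy.Q κQ cQ lamQ muQ alQ)
    (hs : |sS| < 1) (hw : ‖wS‖ < 1) (hpath : ∀ j ≤ kS, g^[j] (κP ((0, uS), 0)) ∈ VOD d)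
    (hit : g^[kS] (κP ((0, uS), 0)) = κQ ((sS, 0), wS)) :
    κQ ∘ SMD g κP cQ kS uS =ᶠ[𝓝 (0 : En d)] g^[kS] ∘ (κP ∘ db18b_tau uS) := by
  filter_upwards [db18_back hg hP hQ hs hw hpath hit] with v hv
  exact hv.2

theorem db18b_iter_diff (hg : NearD g) (hpath : ∀ j ≤ kS, g^[j] (κP ((0, uS), 0)) ∈ VOD d) :
    DifferentiableAt ℝ (g^[kS]) (κP ((0, uS), 0)) :=
  ((NearD.iter hg isOpen_VOD (VOD_sub_Omd.trans Omd_sub_Dd) kS (z := κP ((0, uS), 0))
    (fun j hj => hpath j hj.le)).self_of_nhds.1).differentiableAt (by simp)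

theorem db18b_SM_diff (hg : NearD g) (hP : LinChartD g Sy.P κP cP lamP muP alP) (hQ : LinChartD g Sy.Q κQ cQ lamQ muQ alQ)
    (hpath : ∀ j ≤ kS, g^[j] (κP ((0, uS), 0)) ∈ VOD d) :
    DifferentiableAt ℝ (SMD g κP cQ kS uS) 0 :=
  ((db18_smooth hg hP hQ hpath).self_of_nhds).differentiableAt (by simp)

theorem db18b_tau_diff (hP : LinChartD g Sy.P κP cP lamP muP alP) :
    HasFDerivAt (fun v : En d => κP (db18b_tau uS v)) (fderiv ℝ κP ((0, uS), 0)) 0 := by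
  have h1 : HasFDerivAt κP (fderiv ℝ κP ((0, uS), 0)) (db18b_tau uS 0) := by
    rw [db18b_tau_zero]
    exact (hP.smooth.differentiable (by simp)).differentiableAt.hasFDerivAt
  have h2 := h1.comp (0 : En d) (db18b_tau_hasFDerivAt uS 0)
  rwa [ContinuousLinearMap.comp_id] at h2

/-- PROOF. `quot_pjac` at v = 0 with κ := fun v => κP ((v.1.1, uS + v.1.2), v.2) (its derivative at 0 is fderiv κP ((0,uS),0); sgn1 of the chart), c := cQ (sgn2 at κQ ((sS,0),wS) ∈ κQ '' BxD d),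
VOD ⊆ Omd (`VOD_sub_Omd`). -/
theorem db18_pj (hg : NearD g) (hP : LinChartD g Sy.P κP cP lamP muP alP) (hQ : LinChartD g Sy.Q κQ cQ lamQ muQ alQ)
    (hu : |uS| < 1) (hs : |sS| < 1) (hw : ‖wS‖ < 1) (hpath : ∀ j ≤ kS, g^[j] (κP ((0, uS), 0)) ∈ VOD d)
    (hit : g^[kS] (κP ((0, uS), 0)) = κQ ((sS, 0), wS)) : 0 < pjac (SMD g κP cQ kS uS) 0 := by
  have hk0 : (fun v : En d => κP (db18b_tau uS v)) 0 = κP ((0, uS), 0) := by
    simp only [db18b_tau_zero]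
  have hfd := db18b_tau_diff (uS := uS) hP
  have key := quot_pjac hg (n := kS) (κ := fun v : En d => κP (db18b_tau uS v)) (c := cQ) (v := 0)
    hfd.differentiableAt
    (by
      intro s hs1
      rw [hfd.fderiv]
      exact hP.sgn1 _ (db18b_mem_Bx' hu) s hs1)
    (by
      intro j hj
      simp only [db18b_tau_zero]
      exact VOD_sub_Omd (hpath j hj.le))
    (hQ.smooth_c.differentiable (by simp)).differentiableAt
    (by
      simp only [db18b_tau_zero]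
      rw [hit]
      exact hQ.sgn2 _ (mem_image_of_mem _ (db18b_mem_Bx hs hw)))
  exact key

/-- PROOF. Suppose it is 0 and write fderiv SMD 0 ((0,1),0) = ((a,0),b).  κQ ∘ SMD = g^[kS] ∘ κP ∘ τ near 0 (`db18_back`), so fderiv κQ ((sS,0),wS) ((a,0),b) =
fderiv (g^[kS]) (κP ((0,uS),0)) (fderiv κP ((0,uS),0) ((0,1),0)) =: u.  By `LinChartD.cone` and `cone_iterD` u ∈ HCone and |u.1.1| > 0.  `LinChartD.stable_not_cone` for κQ gives a = 0, b = 0, so
u = 0, contradiction. -/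
theorem db18_d_ne (hg : NearD g) (hP : LinChartD g Sy.P κP cP lamP muP alP) (hQ : LinChartD g Sy.Q κQ cQ lamQ muQ alQ)
    (hu : |uS| < 1) (hs : |sS| < 1) (hw : ‖wS‖ < 1) (hpath : ∀ j ≤ kS, g^[j] (κP ((0, uS), 0)) ∈ VOD d)
    (hit : g^[kS] (κP ((0, uS), 0)) = κQ ((sS, 0), wS)) :
    (fderiv ℝ (SMD g κP cQ kS uS) 0 ((0, 1), 0)).1.2 ≠ 0 := by
  intro h0
  have hgerm := db18b_germ hg hP hQ hs hw hpath hit
  have hSM0 := db18_zero (κP := κP) hQ hs hw hit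
  have e1 : fderiv ℝ (κQ ∘ SMD g κP cQ kS uS) 0 ((0, 1), 0) =
      fderiv ℝ κQ ((sS, 0), wS) (fderiv ℝ (SMD g κP cQ kS uS) 0 ((0, 1), 0)) := by
    rw [fderiv_comp (0 : En d) (hQ.smooth.differentiable (by simp)).differentiableAt
      (db18b_SM_diff hg hP hQ hpath), hSM0]
    rfl
  have e2 : fderiv ℝ (g^[kS] ∘ (κP ∘ db18b_tau uS)) 0 ((0, 1), 0) =
      fderiv ℝ (g^[kS]) (κP ((0, uS), 0)) (fderiv ℝ κP ((0, uS), 0) ((0, 1), 0)) := by
    have hd : HasFDerivAt (g^[kS]) (fderiv ℝ (g^[kS]) (κP ((0, uS), 0))) ((κP ∘ db18b_tau uS) 0) := by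
      have h9 : (κP ∘ db18b_tau uS) 0 = κP ((0, uS), 0) := by
        simp [db18b_tau_zero]
      rw [h9]
      exact (db18b_iter_diff hg hpath).hasFDerivAt
    have hd2 : HasFDerivAt (κP ∘ db18b_tau uS) (fderiv ℝ κP ((0, uS), 0)) 0 := db18b_tau_diff hP
    rw [(hd.comp (0 : En d) hd2).fderiv]
    rfl
  have e3 : fderiv ℝ κQ ((sS, 0), wS) (fderiv ℝ (SMD g κP cQ kS uS) 0 ((0, 1), 0)) =
      fderiv ℝ (g^[kS]) (κP ((0, uS), 0)) (fderiv ℝ κP ((0, uS), 0) ((0, 1), 0)) := by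
    rw [← e1, ← e2, hgerm.fderiv_eq]
  obtain ⟨c1, c2⟩ := hP.cone hg (y := uS) (by linarith)
  obtain ⟨d1, d2⟩ := cone_iterD hg kS (z := κP ((0, uS), 0)) (fun j hj => hpath j hj.le) c1
  have ha : fderiv ℝ (SMD g κP cQ kS uS) 0 ((0, 1), 0) =
      (((fderiv ℝ (SMD g κP cQ kS uS) 0 ((0, 1), 0)).1.1, 0), (fderiv ℝ (SMD g κP cQ kS uS) 0 ((0, 1), 0)).2) :=
    Prod.ext (Prod.ext rfl h0) rfl
  rw [ha] at e3
  have hz := hQ.stable_not_cone hg (x := sS) (w := wS)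
    (a := (fderiv ℝ (SMD g κP cQ kS uS) 0 ((0, 1), 0)).1.1)
    (b := (fderiv ℝ (SMD g κP cQ kS uS) 0 ((0, 1), 0)).2)
    (by linarith) (by linarith) (by rw [e3]; exact d1)
  rw [hz.1, hz.2] at e3
  have hz2 : fderiv ℝ κQ ((sS, 0), wS) (((0, 0), 0) : En d) = 0 := by
    have h9 : (((0, 0), 0) : En d) = 0 := rfl
    rw [h9, map_zero]
  rw [hz2] at e3
  rw [← e3] at d2
  have hpos : 0 < (6 / 5 : ℝ) ^ kS * |(fderiv ℝ κP ((0, uS), 0) ((0, 1), 0)).1.1| := by positivity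
  simp at d2
  linarith

end Pool.Agent.Lib.H37D
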