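import Pool.Agent.Lib.H37D.DB18a
import Pool.Agent.Lib.H37D.DB18b

/-! # H37D, chunk DB18c (S/M): the transversal connection (port of H37N/B18c.lean) -/

open Set Filter Topology
open scoped ContDiff

namespace Pool.Agent.Lib.H37D

open Pool.Agent.Lib.H37N

variable {d : ℕ}

/-- the connection from the facts of DB18b, if the unstable derivative is positive -/
theorem db18c_of_pos {g κP cP κQ cQ : En d → En d} {lamP muP lamQ muQ : ℝ} {alP alQ : Wd d} {kS : ℕ} {uS sS : ℝ}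
    {wS : Wd d} (hg : NearD g)
    (hP : LinChartD g Sy.P κP cP lamP muP alP) (hQ : LinChartD g Sy.Q κQ cQ lamQ muQ alQ)
    (h1 : 1 ≤ kS) (hune : uS ≠ 0) (hu : |uS| < 1) (hs : |sS| < 1) (hw : ‖wS‖ < 1)
    (hpath : ∀ j ≤ kS, g^[j] (κP ((0, uS), 0)) ∈ VOD d) (hit : g^[kS] (κP ((0, uS), 0)) = κQ ((sS, 0), wS))
    (hd : 0 < (fderiv ℝ (SMD g κP cQ kS uS) 0 ((0, 1), 0)).1.2) : SDataD g κP κQ cQ kS uS sS wS where
  pos := h1
  u_ne := hune
  u_lt := hu
  s_lt := hs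
  w_lt := hw
  path := (db18_path hg hP hpath).mono fun _ hv => hv.1
  hit := hit
  smooth := db18_smooth hg hP hQ hpath
  S0 := db18_zero hQ hs hw hit
  back := db18_back hg hP hQ hs hw hpath hit
  pj_pos := db18_pj hg hP hQ hu hs hw hpath hit
  d_pos := hd

/-- the reflection as a continuous linear map -/
noncomputable def db18cR (d : ℕ) : En d →L[ℝ] En d :=
  (-(ContinuousLinearMap.fst ℝ Pt (Wd d))).prod (ContinuousLinearMap.snd ℝ Pt (Wd d))

theorem db18cR_apply (v : En d) : db18cR d v = rfl2 v := rfl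

/-- PROOF. As `exists_sdata`: `sdata_coreD` and the lemmas of DB18b.  If d = (fderiv SMD 0 ((0,1),0)).1.2 > 0 take κQ, cQ.  If d < 0 take κQ ∘ rfl2, rfl2 ∘ cQ (`LinChartD.neg`) and -sS, wS: then
κQ' ((-sS,0),wS) = κQ ((sS,0),wS) and SMD g κP cQ' = rfl2 ∘ SMD g κP cQ has the derivative rfl2 ∘ .., so the number is positive; pj_pos from `db18_pj` for the new chart. -/
theorem exists_sdataD {g κP cP κQ cQ : En d → En d} {lamP muP lamQ muQ : ℝ} {alP alQ : Wd d} (hg : NearD g)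
    (hP : LinChartD g Sy.P κP cP lamP muP alP) (hQ : LinChartD g Sy.Q κQ cQ lamQ muQ alQ) :
    ∃ (κQ' cQ' : En d → En d) (kS : ℕ) (uS sS : ℝ) (wS : Wd d), LinChartD g Sy.Q κQ' cQ' lamQ muQ alQ ∧
      SDataD g κP κQ' cQ' kS uS sS wS := by
  obtain ⟨kS, uS, sS, wS, h1, hune, hu, hs, hw, hpath, hit⟩ := sdata_coreD hg hP hQ
  have hd := db18_d_ne hg hP hQ hu hs hw hpath hit
  rcases lt_or_gt_of_ne hd with hneg | hpos
  · have hs' : |(-sS)| < 1 := by rwa [abs_neg]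
    have hit' : g^[kS] (κP ((0, uS), 0)) = (fun v => κQ (rfl2 v)) (((-sS, 0), wS) : En d) := by
      rw [hit]
      simp [rfl2]
    refine ⟨fun v => κQ (rfl2 v), fun w => rfl2 (cQ w), kS, uS, -sS, wS, hQ.neg, ?_⟩
    refine db18c_of_pos hg hP hQ.neg h1 hune hu hs' hw hpath hit' ?_
    have hSM : SMD g κP (fun w => rfl2 (cQ w)) kS uS = fun v => db18cR d (SMD g κP cQ kS uS v) := rfl
    have hdiff : DifferentiableAt ℝ (SMD g κP cQ kS uS) 0 :=
      (db18_smooth hg hP hQ hpath).self_of_nhds.differentiableAt (by simp)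
    have hF : HasFDerivAt (fun v => db18cR d (SMD g κP cQ kS uS v))
        ((db18cR d).comp (fderiv ℝ (SMD g κP cQ kS uS) 0)) 0 :=
      (db18cR d).hasFDerivAt.comp 0 hdiff.hasFDerivAt
    rw [hSM, hF.fderiv, ContinuousLinearMap.comp_apply, db18cR_apply]
    change 0 < -(fderiv ℝ (SMD g κP cQ kS uS) 0 ((0, 1), 0)).1.2
    linarith
  · exact ⟨κQ, cQ, kS, uS, sS, wS, hQ, db18c_of_pos hg hP hQ h1 hune hu hs hw hpath hit hpos⟩

end Pool.Agent.Lib.H37D
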