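import Pool.Agent.Lib.H37D.DB11
import Pool.Agent.Lib.H37D.DB18c

/-! # H37D, chunk DB19 (S/M): section B, final theorem and persistence (port of H37N/B19.lean) -/

open Set Filter Topology
open scoped ContDiff

namespace Pool.Agent.Lib.H37D

open Pool.Agent.Lib.H37N

variable {d : ℕ}

/-- PROOF. `LIND` and `exists_sdataD`. -/
theorem sectionBD {R : ℕ} {U : Set (En d → En d)} (hU : PertOpenD R U) (hN : ∀ g ∈ U, NearS g) {g : En d → En d}
    (hg : g ∈ U) : ∃ g' ∈ U, ∃ F : FrD d, IsFrD g' F := by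
  obtain ⟨g', hg', κ, c, lam, mu, al, hch, hirr⟩ := LIND hU hN hg
  obtain ⟨κQ', cQ', kS, uS, sS, wS, hQ', hsd⟩ := exists_sdataD (hN g' hg').toNearD (hch Sy.P) (hch Sy.Q)
  refine ⟨g', hg', ⟨fun i => Sy.casesOn i (κ Sy.P) κQ', fun i => Sy.casesOn i (c Sy.P) cQ',
    lam, mu, al, kS, uS, sS, wS⟩, ⟨?_, hirr, hsd⟩⟩
  intro i
  cases i
  · exact hch Sy.P
  · exact hQ'

/-- PROOF. If g^[j] z ∈ VOD d for j < n then g'^[j] z = g^[j] z for j ≤ n (induction, `Function.iterate_succ_apply'`). -/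
theorem iterate_eq_of_VOD {g g' : En d → En d} (h : ∀ z ∈ VOD d, g' z = g z) {n : ℕ} {z : En d}
    (hz : ∀ j < n, g^[j] z ∈ VOD d) : ∀ j ≤ n, g'^[j] z = g^[j] z := by
  intro j
  induction j with
  | zero => intro _; rfl
  | succ j ih =>
    intro hj
    rw [Function.iterate_succ_apply', Function.iterate_succ_apply', ih (by omega)]
    exact h _ (hz j (by omega))

/-- PROOF. As `SData.congr`. -/
theorem SDataD.congr {g g' κP κQ cQ : En d → En d} {kS : ℕ} {uS sS : ℝ} {wS : Wd d}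
    (h : SDataD g κP κQ cQ kS uS sS wS) (hg : ∀ z ∈ VOD d, g' z = g z) : SDataD g' κP κQ cQ kS uS sS wS := by
  have key : ∀ᶠ v in 𝓝 (0 : En d), ∀ j ≤ kS,
      g'^[j] (κP ((v.1.1, uS + v.1.2), v.2)) = g^[j] (κP ((v.1.1, uS + v.1.2), v.2)) := by
    filter_upwards [h.path] with v hv
    exact iterate_eq_of_VOD hg (n := kS) (fun j hj => hv j hj.le)
  have hSM : SMD g' κP cQ kS uS =ᶠ[𝓝 (0 : En d)] SMD g κP cQ kS uS := by
    filter_upwards [key] with v hv
    unfold SMD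
    rw [hv kS le_rfl]
  have hfd : fderiv ℝ (SMD g' κP cQ kS uS) 0 = fderiv ℝ (SMD g κP cQ kS uS) 0 := hSM.fderiv_eq
  refine ⟨h.pos, h.u_ne, h.u_lt, h.s_lt, h.w_lt, ?_, ?_, ?_, ?_, ?_, ?_, ?_⟩
  · filter_upwards [h.path, key] with v hv hk j hj
    rw [hk j hj]
    exact hv j hj
  · have h1 := key.self_of_nhds kS le_rfl
    simp only [Prod.fst_zero, Prod.snd_zero, add_zero] at h1
    rw [h1]
    exact h.hit
  · filter_upwards [h.smooth, hSM.eventually_nhds] with v h1 h2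
    exact h1.congr_of_eventuallyEq h2
  · rw [hSM.self_of_nhds]
    exact h.S0
  · filter_upwards [h.back, hSM, key] with v h1 h2 h3
    rw [h2, h3 kS le_rfl]
    exact h1
  · have := h.pj_pos
    unfold pjac at this ⊢
    rw [hfd]
    exact this
  · rw [hfd]
    exact h.d_pos

/-- PROOF. `LinChartD.congr` (interior (VV i) × ball 0 1 ⊆ VOD d), `SDataD.congr`. -/
theorem IsFrD.congr {g g' : En d → En d} {F : FrD d} (h : IsFrD g F) (hg : ∀ z ∈ VOD d, g' z = g z) : IsFrD g' F := by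
  refine ⟨fun i => (h.chart i).congr ?_, h.irr, h.sdata.congr hg⟩
  intro z hz
  refine hg z ⟨?_, hz.2⟩
  cases i
  · exact Or.inl hz.1
  · exact Or.inr hz.1

end Pool.Agent.Lib.H37D
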