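import Pool.Agent.Lib.H37D.BDefs

/-! # H37D, chunk DB20 (S/M): rates (port of H37N/B20.lean) -/

open Set Filter Topology
open scoped ContDiff

namespace Pool.Agent.Lib.H37D

open Pool.Agent.Lib.H37N

variable {d : ℕ}

theorem db20_bds {g : En d → En d} {F : FrD d} (h : IsFrD g F) :
    (49 / 100 < F.lam Sy.P ∧ F.lam Sy.P < 51 / 100) ∧ (49 / 100 < F.lam Sy.Q ∧ F.lam Sy.Q < 51 / 100) ∧
      (124 / 100 < F.mu Sy.P ∧ F.mu Sy.P < 126 / 100) ∧ (5 < F.mu Sy.Q ∧ F.mu Sy.Q < 505 / 100) := by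
  have h1 := (h.chart Sy.P).lam_mem
  have h2 := (h.chart Sy.Q).lam_mem
  have h3 := (h.chart Sy.P).mu_mem
  have h4 := (h.chart Sy.Q).mu_mem
  exact ⟨⟨h1.1, h1.2⟩, ⟨h2.1, h2.2⟩, ⟨h3.1, h3.2⟩, ⟨h4.1, h4.2⟩⟩

/-- PROOF. lamP muP < 51/100 * 126/100 = 0.6426; lamQ muQ > 49/100 * 5 = 2.45. -/
theorem IsFrD.rates {g : En d → En d} {F : FrD d} (h : IsFrD g F) :
    0 < F.lam Sy.P ∧ F.lam Sy.P < 1 ∧ 0 < F.lam Sy.Q ∧ F.lam Sy.Q < 1 ∧ 1 < F.mu Sy.P ∧ 1 < F.mu Sy.Q ∧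
      F.lam Sy.P * F.mu Sy.P < 1 ∧ 1 < F.lam Sy.Q * F.mu Sy.Q := by
  obtain ⟨⟨a1, a2⟩, ⟨b1, b2⟩, ⟨c1, c2⟩, ⟨d1, d2⟩⟩ := db20_bds h
  refine ⟨by linarith, by linarith, by linarith, by linarith, by linarith, by linarith, ?_, ?_⟩
  · nlinarith
  · nlinarith

/-- (R1).

PROOF. b0 = log (lamQ muQ) ≤ log 2.5755 ≤ 1 (exp 1 > 2.7), a0 = -log (lamP muP) ≥ -log 0.6426 ≥ 0.4 (exp 0.4 ≤ 1.55: exp (0.4)^5 = (exp 1)^2 < 7.39 and 1.55^5 > 8.9), log muP ≤ log 1.26 ≤ 0.25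
(1 + x + x^2/2 ≤ exp x), log lamQ ≤ log 0.51 = log 0.5 + log 1.02 ≤ -0.693 + 0.02.  So log lamQ + (b0/a0) log muP ≤ -0.673 + 2.5 * 0.25 = -0.048 < 0. -/
theorem IsFrD.R1 {g : En d → En d} {F : FrD d} (h : IsFrD g F) :
    Real.log (F.lam Sy.Q) + Real.log (F.lam Sy.Q * F.mu Sy.Q) / (-Real.log (F.lam Sy.P * F.mu Sy.P)) *
      Real.log (F.mu Sy.P) < 0 := by
  obtain ⟨⟨a1, a2⟩, ⟨b1, b2⟩, ⟨c1, c2⟩, ⟨d1, d2⟩⟩ := db20_bds h
  set lP := F.lam Sy.P
  set lQ := F.lam Sy.Q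
  set mP := F.mu Sy.P
  set mQ := F.mu Sy.Q
  -- the logarithms
  have hmP0 : 0 < Real.log mP := Real.log_pos (by linarith)
  have hmP : Real.log mP ≤ 1 / 4 := by
    rw [Real.log_le_iff_le_exp (by linarith)]
    have := Real.quadratic_le_exp_of_nonneg (show (0 : ℝ) ≤ 1 / 4 by norm_num)
    norm_num at this ⊢
    linarith
  have hQ0 : 0 < Real.log (lQ * mQ) := Real.log_pos (by nlinarith)
  have hQ : Real.log (lQ * mQ) ≤ 1 := by
    rw [Real.log_le_iff_le_exp (by nlinarith)]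
    have := Real.exp_one_gt_d9
    nlinarith
  have hP : Real.log (lP * mP) ≤ -(2 / 5) := by
    have h1 : Real.log (lP * mP) ≤ Real.log (6426 / 10000) :=
      Real.log_le_log (by nlinarith) (by nlinarith)
    have h2 : Real.log (6426 / 10000) ≤ -(2 / 5) := by
      rw [Real.log_le_iff_le_exp (by norm_num)]
      have h3 : (Real.exp (-(2 / 5))) ^ 5 = (Real.exp 1)⁻¹ ^ 2 := by
        rw [← Real.exp_nat_mul, ← Real.exp_neg, ← Real.exp_nat_mul]
        congr 1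
        norm_num
      have h4 : (6426 / 10000 : ℝ) ^ 5 ≤ (Real.exp (-(2 / 5))) ^ 5 := by
        rw [h3, inv_pow, le_inv_comm₀ (by positivity) (by positivity)]
        have h5 := Real.exp_one_lt_d9
        have h6 : Real.exp 1 ^ 2 ≤ 2.7182818286 ^ 2 :=
          pow_le_pow_left₀ (Real.exp_pos 1).le h5.le 2
        refine h6.trans ?_
        norm_num
      exact le_of_pow_le_pow_left₀ (by norm_num) (Real.exp_pos _).le h4
    linarith
  have hlQ : Real.log lQ ≤ -(66 / 100) := by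
    have h1 : Real.log lQ ≤ Real.log (51 / 100) := Real.log_le_log (by linarith) b2.le
    have h2 : Real.log (51 / 100) = Real.log (102 / 100) - Real.log 2 := by
      rw [← Real.log_div (by norm_num) (by norm_num)]
      norm_num
    have h3 : Real.log (102 / 100) ≤ 102 / 100 - 1 := Real.log_le_sub_one_of_pos (by norm_num)
    have h4 := Real.log_two_gt_d9
    linarith
  have hq : Real.log (lQ * mQ) / (-Real.log (lP * mP)) ≤ 5 / 2 := by
    rw [div_le_iff₀ (by linarith)]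
    linarith
  have hq0 : 0 ≤ Real.log (lQ * mQ) / (-Real.log (lP * mP)) := by
    apply div_nonneg hQ0.le; linarith
  nlinarith

/-- The strong rates.

PROOF. al ≤ 101/10^9 < 1/10^6, lam ≥ 49/100, mu ≤ 505/100 (and muP ≤ 126/100). -/
theorem IsFrD.strong {g : En d → En d} {F : FrD d} (h : IsFrD g F) (i j : Sy) (k : Fin d) :
    0 < F.al i k ∧ F.al i k < 1 / 10 ^ 6 ∧ F.al i k < F.lam j / 10 ^ 5 ∧ F.al i k * F.mu j < 1 / 10 ^ 6 := by
  obtain ⟨h1, h2⟩ := (h.chart i).al_mem k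
  obtain ⟨l1, l2⟩ := (h.chart j).lam_mem
  have hmu : 0 < F.mu j ∧ F.mu j < 505 / 100 := by
    have h4 := (h.chart j).mu_mem
    cases j
    · exact ⟨by linarith [h4.1], by linarith [h4.2]⟩
    · exact ⟨by linarith [h4.1], by linarith [h4.2]⟩
  norm_num at h1 h2
  refine ⟨by linarith, by norm_num; linarith, by norm_num; linarith, ?_⟩
  have h5 : F.al i k * F.mu j ≤ 101 / 1000000000 * (505 / 100) :=
    mul_le_mul h2.le hmu.2.le hmu.1.le (by norm_num)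
  norm_num at h5 ⊢
  linarith

end Pool.Agent.Lib.H37D
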