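import Pool.Agent.Lib.H37D.CDefsD
import Pool.Agent.Lib.H37D.Bas0

/-!
# H37D DC01 (size M): iterates along orbits in `Omd`
-/

open Set Filter Topology Asymptotics
open scoped ContDiff

namespace Pool.Agent.Lib.H37D

open Pool.Agent.Lib.H37N

variable {d : ℕ} {g : En d → En d}

theorem NearD.contDiffAt_Omd (h : NearD g) {z : En d} (hz : z ∈ Omd d) :
    ∀ᶠ w in 𝓝 z, ContDiffAt ℝ ∞ g w := by
  obtain ⟨O, hO, hsub, hs, -, -⟩ := h.smooth
  filter_upwards [hO.mem_nhds (hsub (Omd_sub hz))] with w hw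
  exact hs.contDiffAt (hO.mem_nhds hw)

theorem NearD.bij_Omd (h : NearD g) {z : En d} (hz : z ∈ Omd d) : Function.Bijective (fderiv ℝ g z) := by
  obtain ⟨O, hO, hsub, hs, -, hj⟩ := h.smooth
  exact hj z (hsub (Omd_sub hz))

theorem NearD.iter_Omd (h : NearD g) (n : ℕ) {z : En d} (hz : ∀ j < n, g^[j] z ∈ Omd d) :
    ∀ᶠ w in 𝓝 z, ContDiffAt ℝ ∞ (g^[n]) w ∧ ∀ j < n, g^[j] w ∈ Omd d := by
  induction n with
  | zero =>
    refine Eventually.of_forall fun w => ⟨?_, fun j hj => absurd hj (Nat.not_lt_zero j)⟩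
    exact contDiffAt_id
  | succ n ih =>
    have ih' := ih fun j hj => hz j (hj.trans (Nat.lt_succ_self n))
    have hc : ContinuousAt (g^[n]) z := ih'.self_of_nhds.1.continuousAt
    have hV : ∀ᶠ w in 𝓝 z, g^[n] w ∈ Omd d :=
      hc.eventually_mem (isOpen_Omd.mem_nhds (hz n (Nat.lt_succ_self n)))
    filter_upwards [ih', hV] with w hw hw'
    refine ⟨?_, fun j hj => ?_⟩
    · rw [Function.iterate_succ']
      exact (h.contDiffAt_Omd hw').self_of_nhds.comp w hw.1
    · rcases Nat.lt_succ_iff_lt_or_eq.1 hj with h' | rfl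
      · exact hw.2 j h'
      · exact hw'

/-- the same with `VOD` -/
theorem NearD.iter_VOD (h : NearD g) (n : ℕ) {z : En d} (hz : ∀ j < n, g^[j] z ∈ VOD d) :
    ∀ᶠ w in 𝓝 z, ContDiffAt ℝ ∞ (g^[n]) w ∧ ∀ j < n, g^[j] w ∈ VOD d := by
  induction n with
  | zero =>
    refine Eventually.of_forall fun w => ⟨?_, fun j hj => absurd hj (Nat.not_lt_zero j)⟩
    exact contDiffAt_id
  | succ n ih =>
    have ih' := ih fun j hj => hz j (hj.trans (Nat.lt_succ_self n))
    have hc : ContinuousAt (g^[n]) z := ih'.self_of_nhds.1.continuousAt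
    have hV : ∀ᶠ w in 𝓝 z, g^[n] w ∈ VOD d :=
      hc.eventually_mem (isOpen_VOD.mem_nhds (hz n (Nat.lt_succ_self n)))
    filter_upwards [ih', hV] with w hw hw'
    refine ⟨?_, fun j hj => ?_⟩
    · rw [Function.iterate_succ']
      exact (h.contDiffAt_Omd (VOD_sub_Omd hw')).self_of_nhds.comp w hw.1
    · rcases Nat.lt_succ_iff_lt_or_eq.1 hj with h' | rfl
      · exact hw.2 j h'
      · exact hw'

theorem dc01_iter_eq {g g' : En d → En d} {n : ℕ} (he : ∀ z ∈ VOD d, g' z = g z) {z : En d}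
    (hz : ∀ j < n, g^[j] z ∈ VOD d) : ∀ j ≤ n, g'^[j] z = g^[j] z := by
  intro j
  induction j with
  | zero => intro _; rfl
  | succ j ih =>
    intro hj
    rw [Function.iterate_succ_apply', Function.iterate_succ_apply', ih (by omega),
      he _ (hz j (by omega))]

end Pool.Agent.Lib.H37D
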