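import Pool.Agent.Lib.H37D.DC33

/-!
# H37D DC34: the stable side of the first tangency
-/

open Set Filter Topology
open scoped ContDiff

namespace Pool.Agent.Lib.H37D

open Pool.Agent.Lib.H37N

variable {d : ℕ}

theorem dc34_st_side {g : En d → En d} (h : NearD g) {F : FrD d} (hF : IsFrD g F) (v : List Sy)
    {y : ℝ × Wd d} (hy : y.1 ∈ Ioo (-del) (1 + del)) (hyw : ‖y.2‖ < 1) :
    ∃ (a : ℝ) (wT : Wd d) (l : ℕ), |a| < 1 ∧ ‖wT‖ < 1 ∧
      (∀ i ≤ l, g^[i] ((Ss g Sy.P v y, y.1), y.2) ∈ VOD d) ∧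
      g^[l] ((Ss g Sy.P v y, y.1), y.2) = F.κ Sy.P ((a, 0), wT) ∧
      ∀ᶠ w in 𝓝 (((Ss g Sy.P v y, y.1), y.2) : En d),
        (F.c Sy.P (g^[l] w)).1.2 = 0 → w.1.1 = Ss g Sy.P v (w.1.2, w.2) := by
  have hch := hF.chart Sy.P
  obtain ⟨hfix, hκ0⟩ := dc33_fix h hF Sy.P
  have hyI : y.1 ∈ II := ⟨hy.1.le, hy.2.le⟩
  obtain ⟨-, hint, hlim⟩ := forw_orbit h Sy.P v hyI hyw.le
  have hint := hint hy hyw
  set w0 : En d := ((Ss g Sy.P v y, y.1), y.2) with hw0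
  rw [← hfix] at hlim
  have hev := hch.fwd (w := fun n => g^[n] w0)
    (fun n => (Function.iterate_succ_apply' g n w0).symm) hlim
  obtain ⟨l, ⟨a, wT, ha, hwT, hla⟩, hl⟩ := (hev.and (eventually_ge_atTop v.length)).exists
  have hVO : ∀ n, g^[n] w0 ∈ VOD d := fun n => interior_VVd_sub_VOD _ (hint n)
  have hget : ∀ n, l ≤ n → v.getD n Sy.P = Sy.P := by
    intro n hn
    rw [List.getD_eq_getElem?_getD, List.getElem?_eq_none (hl.trans hn)]
    rfl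
  have hcont : ∀ n, ContinuousAt (g^[n]) w0 := fun n =>
    (NearD.iter_VOD h n (fun j _ => hVO j)).self_of_nhds.1.continuousAt
  refine ⟨a, wT, l, ha, hwT, fun i _ => hVO i, hla, ?_⟩
  have hev1 : ∀ᶠ w in 𝓝 w0, ∀ i ∈ Finset.range l, g^[i] w ∈ interior (VVd d (v.getD i Sy.P)) :=
    (eventually_all_finset (Finset.range l)).2 fun i _ =>
      (hcont i).eventually_mem (isOpen_interior.mem_nhds (hint i))
  have haBx : (((a, 0), wT) : En d) ∈ BxD d := mem_BxD.2 ⟨⟨by linarith, by norm_num⟩, by linarith⟩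
  have hev2 : ∀ᶠ w in 𝓝 w0, g^[l] w ∈ F.κ Sy.P '' BxD d :=
    (hcont l).eventually_mem (hch.isOpen.mem_nhds (by
      have h3 : g^[l] w0 = F.κ Sy.P ((a, 0), wT) := hla
      rw [h3]
      exact mem_image_of_mem _ haBx))
  filter_upwards [hev1, hev2] with w hw1 hw2 hc
  obtain ⟨h4, h5⟩ := hch.right hw2
  have h6 : F.c Sy.P (g^[l] w) = (((F.c Sy.P (g^[l] w)).1.1, 0), (F.c Sy.P (g^[l] w)).2) :=
    Prod.ext (Prod.ext rfl hc) rfl
  have h5' : (((F.c Sy.P (g^[l] w)).1.1, (F.c Sy.P (g^[l] w)).1.2), (F.c Sy.P (g^[l] w)).2) ∈ BxD d := h5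
  obtain ⟨⟨h7, -⟩, h8⟩ := mem_BxD.1 h5'
  refine forw_char h Sy.P v fun n => ?_
  rcases lt_or_ge n l with hn | hn
  · exact interior_subset (hw1 n (Finset.mem_range.2 hn))
  · obtain ⟨m, rfl⟩ := Nat.exists_eq_add_of_le' hn
    rw [hget _ hn, Function.iterate_add_apply, ← h4, h6]
    have h9 := hch.iter_mem m h7 (y := 0) (by rw [mul_zero, abs_zero]; norm_num) h8 m le_rfl
    rw [← interior_VVd] at h9
    exact interior_subset h9

end Pool.Agent.Lib.H37D
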