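import Pool.Agent.Lib.H37D.Defs

/-!
# H37D DC35: constant sign on one side of a hypersurface
-/

open Set Filter Topology Asymptotics
open scoped ContDiff

namespace Pool.Agent.Lib.H37D

open Pool.Agent.Lib.H37N

variable {E : Type*} [NormedAddCommGroup E] [NormedSpace ℝ E]

theorem dc35_side {s : E → ℝ} {ψ : ℝ × E → ℝ} {w : ℝ × E} {ρ : ℝ} {B : Set E}
    (hw : w.2 ∈ B) (h1 : s w.2 - ρ < w.1) (h2 : w.1 ≤ s w.2)
    (hc : ContinuousAt ψ w) {P : ℝ → Prop} (hP : IsClosed {x | P x})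
    (h : ∀ d ∈ Ioo 0 ρ ×ˢ B, P (ψ (s d.2 - d.1, d.2))) : P (ψ w) := by
  have ht : Tendsto (fun a : ℝ => ψ (w.1 - a, w.2)) (𝓝[>] 0) (𝓝 (ψ w)) := by
    have h3 : Tendsto (fun a : ℝ => ((w.1 - a, w.2) : ℝ × E)) (𝓝[>] 0) (𝓝 w) := by
      have h4 : Continuous (fun a : ℝ => ((w.1 - a, w.2) : ℝ × E)) := by fun_prop
      have h5 := h4.tendsto 0
      simp only [sub_zero] at h5
      exact h5.mono_left nhdsWithin_le_nhds
    exact hc.tendsto.comp h3
  have h6 : ∀ᶠ a in 𝓝[>] (0 : ℝ), P (ψ (w.1 - a, w.2)) := by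
    have h7 : 0 < ρ - (s w.2 - w.1) := by linarith
    filter_upwards [Ioo_mem_nhdsGT h7] with a ha
    have h8 := h (s w.2 - w.1 + a, w.2) ⟨⟨by linarith [ha.1], by linarith [ha.2]⟩, hw⟩
    have h9 : s w.2 - (s w.2 - w.1 + a) = w.1 - a := by ring
    simp only [h9] at h8
    exact h8
  exact hP.mem_of_tendsto ht h6

/-- the sign of a function on one side of the hypersurface `x = s e` which contains all its zeros -/
theorem sign_sideD {s : E → ℝ} (hs : Continuous s) {ψ : ℝ × E → ℝ} {w0 : ℝ × E} (h0 : w0.1 = s w0.2)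
    (hc : ∀ᶠ w in 𝓝 w0, ContinuousAt ψ w) (hz : ∀ᶠ w in 𝓝 w0, ψ w = 0 → w.1 = s w.2) :
    (∀ᶠ w in 𝓝 w0, w.1 ≤ s w.2 → 0 ≤ ψ w) ∨ (∀ᶠ w in 𝓝 w0, w.1 ≤ s w.2 → ψ w ≤ 0) := by
  obtain ⟨ε, hε, hball⟩ := Metric.eventually_nhds_iff.1 (hc.and hz)
  obtain ⟨r0, hr0, hsr⟩ := Metric.continuousAt_iff.1 (hs.continuousAt (x := w0.2)) (ε / 2) (by linarith)
  obtain ⟨r, hr, hrr0, hrε⟩ : ∃ r : ℝ, 0 < r ∧ r ≤ r0 ∧ r ≤ ε :=
    ⟨min r0 ε, lt_min hr0 hε, min_le_left _ _, min_le_right _ _⟩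
  have hA : ∀ w : ℝ × E, w.2 ∈ Metric.ball w0.2 r → s w.2 - ε / 2 < w.1 → w.1 ≤ s w.2 →
      ContinuousAt ψ w ∧ (ψ w = 0 → w.1 = s w.2) := by
    intro w hw h1 h2
    apply hball
    rw [Metric.mem_ball] at hw
    have h4 : dist w.2 w0.2 < r0 := by linarith
    have h5 := hsr h4
    rw [Real.dist_eq] at h5
    have h6 := abs_lt.1 h5
    rw [Prod.dist_eq]
    apply max_lt
    · rw [Real.dist_eq, h0, abs_lt]
      constructor <;> linarith [h6.1, h6.2]
    · linarith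
  set D : Set (ℝ × E) := Ioo 0 (ε / 2) ×ˢ Metric.ball w0.2 r with hD
  have hD1 : ∀ d ∈ D, ContinuousAt ψ (s d.2 - d.1, d.2) ∧ ψ (s d.2 - d.1, d.2) ≠ 0 := by
    intro d hd
    obtain ⟨h1, h2⟩ := hA (s d.2 - d.1, d.2) hd.2 (by simp only; linarith [hd.1.2])
      (by simp only; linarith [hd.1.1])
    refine ⟨h1, fun h3 => ?_⟩
    have h4 := h2 h3
    simp only at h4
    linarith [hd.1.1]
  have hcont : ContinuousOn (fun d : ℝ × E => ψ (s d.2 - d.1, d.2)) D := by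
    intro d hd
    have h1 : ContinuousAt (fun d : ℝ × E => ((s d.2 - d.1, d.2) : ℝ × E)) d := by
      apply Continuous.continuousAt
      fun_prop
    exact (ContinuousAt.comp (f := fun d : ℝ × E => ((s d.2 - d.1, d.2) : ℝ × E)) (hD1 d hd).1
      h1).continuousWithinAt
  have hpre : IsPreconnected D :=
    (isPreconnected_Ioo).prod (convex_ball _ _).isPreconnected
  have hN : ∀ᶠ w : ℝ × E in 𝓝 w0, w.2 ∈ Metric.ball w0.2 r ∧ s w.2 - ε / 2 < w.1 := by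
    refine Filter.Eventually.and ?_ ?_
    · exact (continuous_snd.tendsto w0).eventually (Metric.ball_mem_nhds _ hr)
    · have h1 : Continuous fun w : ℝ × E => s w.2 - ε / 2 := by fun_prop
      refine (h1.tendsto w0).eventually_lt (continuous_fst.tendsto w0) ?_
      rw [h0]
      linarith
  by_cases hpos : ∀ d ∈ D, 0 ≤ ψ (s d.2 - d.1, d.2)
  · left
    filter_upwards [hN] with w hw hws
    exact dc35_side (P := fun x => 0 ≤ x) hw.1 hw.2 hws (hA w hw.1 hw.2 hws).1 isClosed_Ici hpos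
  · right
    push Not at hpos
    obtain ⟨d1, hd1, hneg⟩ := hpos
    have hall : ∀ d ∈ D, ψ (s d.2 - d.1, d.2) ≤ 0 := by
      intro d hd
      by_contra hc2
      push Not at hc2
      obtain ⟨d2, hd2, h2⟩ := hpre.intermediate_value hd1 hd hcont
        (show (0 : ℝ) ∈ Icc _ _ from ⟨hneg.le, hc2.le⟩)
      exact (hD1 d2 hd2).2 h2
    filter_upwards [hN] with w hw hws
    exact dc35_side (P := fun x => x ≤ 0) hw.1 hw.2 hws (hA w hw.1 hw.2 hws).1 isClosed_Iic hall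

/-- the form for `En d`: the hypersurface `x = s (y, w)` -/
theorem sign_sideE {d : ℕ} {s : ℝ × Wd d → ℝ} (hs : Continuous s) {ψ : En d → ℝ} {w0 : En d}
    (h0 : w0.1.1 = s (w0.1.2, w0.2)) (hc : ∀ᶠ w in 𝓝 w0, ContinuousAt ψ w)
    (hz : ∀ᶠ w in 𝓝 w0, ψ w = 0 → w.1.1 = s (w.1.2, w.2)) :
    (∀ᶠ w in 𝓝 w0, w.1.1 ≤ s (w.1.2, w.2) → 0 ≤ ψ w) ∨
      (∀ᶠ w in 𝓝 w0, w.1.1 ≤ s (w.1.2, w.2) → ψ w ≤ 0) := by
  set a : ℝ × (ℝ × Wd d) → En d := fun q => ((q.1, q.2.1), q.2.2) with ha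
  have hac : Continuous a := by fun_prop
  set b : En d → ℝ × (ℝ × Wd d) := fun w => (w.1.1, (w.1.2, w.2)) with hb
  have hbc : Continuous b := by fun_prop
  have hab : ∀ w, a (b w) = w := fun w => rfl
  have hta : Tendsto a (𝓝 (b w0)) (𝓝 w0) := by
    have := hac.tendsto (b w0)
    rwa [hab] at this
  have htb : Tendsto b (𝓝 w0) (𝓝 (b w0)) := hbc.tendsto w0
  have h1 := sign_sideD (E := ℝ × Wd d) hs (ψ := ψ ∘ a) (w0 := b w0) h0
    (by
      filter_upwards [hta.eventually hc] with q hq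
      exact ContinuousAt.comp hq hac.continuousAt)
    (by
      filter_upwards [hta.eventually hz] with q hq hq'
      exact hq hq')
  rcases h1 with h1 | h1
  · left
    filter_upwards [htb.eventually h1] with w hw hw'
    exact hw hw'
  · right
    filter_upwards [htb.eventually h1] with w hw hw'
    exact hw hw'

end Pool.Agent.Lib.H37D
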