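import Pool.Agent.Lib.H37D.DC37

/-!
# H37D DC50: persistence of tangency data (C.1), the induction on the order (C.5), the first datum (C.6)
-/

open Set Filter Topology Asymptotics
open scoped ContDiff

namespace Pool.Agent.Lib.H37D

open Pool.Agent.Lib.H37N

variable {d : ℕ}

/-- persistence of the path -/
theorem dc50_path {g g' : En d → En d} {F : FrD d} {b : ℝ} {Z : Set (En d)}
    (he : ∀ z ∈ VOD d ∪ Z, g' z = g z) {v : En d} {k : ℕ} (hv : ∀ i < k, InD g F b i v ∈ VOD d ∪ Z) :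
    ∀ i ≤ k, InD g' F b i v = InD g F b i v := by
  intro i
  induction i with
  | zero => intro _; rfl
  | succ i ih =>
    intro hi
    have h1 := ih (by omega)
    have h2 := hv i (by omega)
    unfold InD at h1 h2 ⊢
    rw [Function.iterate_succ_apply', Function.iterate_succ_apply', h1, he _ h2]

/-- persistence (C.1) -/
theorem TDD.congr {g g' : En d → En d} (h : NearD g) {F : FrD d} (hF : IsFrD g F) {Z : Set (En d)} {m : ℕ}
    {b a : ℝ} {wT : Wd d} {k l : ℕ} (t : TDD g F Z m b a wT k l) (he : ∀ z ∈ VOD d ∪ Z, g' z = g z) :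
    TDD g' F Z m b a wT k l := by
  have hOm : VOD d ∪ Z ⊆ Omd d := union_subset VOD_sub_Omd (t.subZ.trans interior_FFd_sub_Omd)
  have hopen : IsOpen (VOD d ∪ Z) := isOpen_VOD.union t.openZ
  have hIn0 : ∀ i, InD g F b i 0 = g^[i] (F.κ Sy.Q ((0, b), 0)) := by
    intro i; simp [InD]
  have hκ : Tendsto (fun v : En d => F.κ Sy.Q ((v.1.1, b + v.1.2), v.2)) (𝓝 0)
      (𝓝 (F.κ Sy.Q ((0, b), 0))) := by
    have h1 : Continuous (fun v : En d => F.κ Sy.Q ((v.1.1, b + v.1.2), v.2)) :=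
      (hF.chart Sy.Q).smooth.continuous.comp (by fun_prop)
    have h2 := h1.tendsto 0
    simpa using h2
  have hcont : ∀ i ≤ k, Tendsto (fun v : En d => InD g F b i v) (𝓝 0) (𝓝 (InD g F b i 0)) := by
    intro i hi
    have h1 := (h.iter_Omd i (z := F.κ Sy.Q ((0, b), 0)) (fun j hj => by
      have := t.path1 j (by omega)
      rw [hIn0] at this
      exact hOm this)).self_of_nhds.1.continuousAt.tendsto
    rw [hIn0]
    exact h1.comp hκ
  have hpath : ∀ᶠ v in 𝓝 (0 : En d), ∀ i ≤ k, InD g F b i v ∈ VOD d ∪ Z := by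
    have h1 : ∀ i ∈ Finset.range (k + 1), ∀ᶠ v in 𝓝 (0 : En d), InD g F b i v ∈ VOD d ∪ Z := by
      intro i hi
      have hi' : i ≤ k := by simpa [Nat.lt_succ_iff] using hi
      exact (hcont i hi').eventually (hopen.mem_nhds (t.path1 i hi'))
    have h2 := (Finset.eventually_all (Finset.range (k + 1))).2 h1
    filter_upwards [h2] with v hv i hi
    exact hv i (by simpa [Nat.lt_succ_iff] using hi)
  have hIn : ∀ᶠ v in 𝓝 (0 : En d), ∀ i ≤ k, InD g' F b i v = InD g F b i v := by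
    filter_upwards [hpath] with v hv
    exact dc50_path he (fun i hi => hv i hi.le)
  have hIn' := hIn.self_of_nhds
  have hgz : g' (InD g F b k 0) = g (InD g F b k 0) := he _ (Or.inr t.memZ)
  have hVO : ∀ z ∈ VOD d, g' z = g z := fun z hz => he z (Or.inl hz)
  have hit := dc01_iter_eq (n := l) hVO (z := g (InD g F b k 0)) (fun j hj => t.path2 j hj.le)
  refine ⟨t.openZ, t.subZ, t.b_pos, t.b_lt, t.a_lt, t.w_lt, ?_, ?_, ?_, ?_, ?_, ?_⟩
  · intro i hi
    rw [hIn' i hi]; exact t.path1 i hi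
  · rw [hIn' k le_rfl]; exact t.memZ
  · intro i hi
    rw [hIn' i hi.le, hIn' k le_rfl]; exact t.dist i hi
  · intro i hi
    rw [hIn' k le_rfl, hgz, hit i hi]; exact t.path2 i hi
  · rw [hIn' k le_rfl, hgz, hit l le_rfl]; exact t.fin
  · have hgc : Tendsto (fun v : En d => g (InD g F b k v)) (𝓝 0) (𝓝 (g (InD g F b k 0))) := by
      have h1 := (h.contDiffAt_Omd (hOm (Or.inr t.memZ))).self_of_nhds.continuousAt.tendsto
      exact h1.comp (hcont k le_rfl)
    have hl := h.iter_VOD l (z := g (InD g F b k 0)) (fun j hj => t.path2 j hj.le)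
    have hev : ∀ᶠ v in 𝓝 (0 : En d), TTD g' F b k l v = TTD g F b k l v := by
      filter_upwards [hIn, hpath, hgc.eventually hl] with v h1 h2 h3
      unfold TTD PlD
      rw [h1 k le_rfl, he _ (h2 k le_rfl), dc01_iter_eq (n := l) hVO h3.2 l le_rfl]
    have hline : Tendsto (fun t : ℝ => (((0, t), 0) : En d)) (𝓝 0) (𝓝 0) := by
      have : Continuous (fun t : ℝ => (((0, t), 0) : En d)) := by fun_prop
      exact this.tendsto 0
    refine t.ord.congr' ?_ EventuallyEq.rfl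
    filter_upwards [hline.eventually hev] with s hs
    rw [hs]

theorem EqOffD.trans {Z : Set (En d)} {g g' g'' : En d → En d} (h : EqOffD Z g g') (h' : EqOffD Z g' g'') :
    EqOffD Z g g'' := fun z hz hz' => (h' z hz hz').trans (h z hz hz')

theorem EqOffD.mono {Z Z' : Set (En d)} {g g' : En d → En d} (h : EqOffD Z g g') (hZ : Z ⊆ Z') :
    EqOffD Z' g g' := fun z hz hz' => h z hz fun h' => hz' (hZ h')

theorem EqOffD.strips {Z : Set (En d)} {g g' : En d → En d} (h : EqOffD Z g g') (hZ : Z ⊆ interior (FFd d)) :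
    ∀ z ∈ VVd d Sy.P ∪ VVd d Sy.Q, g' z = g z := fun z hz =>
  h z (Or.inl hz) fun h' => (Set.disjoint_left.mp VVd_FFd_disjoint) hz (interior_subset (hZ h'))

theorem TDD.of_eqOff {g g' : En d → En d} (h : NearD g) {F : FrD d} (hF : IsFrD g F) {Z Z' : Set (En d)}
    {m : ℕ} {b a : ℝ} {wT : Wd d} {k l : ℕ} (t : TDD g F Z m b a wT k l) (he : EqOffD Z' g g')
    (hZ' : Z' ⊆ interior (FFd d)) (hd : Disjoint Z Z') : TDD g' F Z m b a wT k l := by
  refine t.congr h hF ?_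
  rintro z (hz | hz)
  · exact he.strips hZ' z (VOD_sub hz)
  · exact he z (FFd_sub_Dd (interior_subset (t.subZ hz))) (Set.disjoint_left.mp hd hz)

theorem TDD.mono {g : En d → En d} {F : FrD d} {Z Z' : Set (En d)} {m : ℕ} {b a : ℝ} {wT : Wd d} {k l : ℕ}
    (t : TDD g F Z m b a wT k l) (hZ : Z ⊆ Z') (ho : IsOpen Z') (hF' : Z' ⊆ interior (FFd d)) :
    TDD g F Z' m b a wT k l :=
  ⟨ho, hF', t.b_pos, t.b_lt, t.a_lt, t.w_lt, fun i hi => (t.path1 i hi).imp id fun h => hZ h, hZ t.memZ,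
    t.dist, t.path2, t.fin, t.ord⟩

/-- the induction step on the order of the tangency (output of stage I) -/
def StepI (U : Set (En d → En d)) (F : FrD d) : Prop :=
  ∀ g ∈ U, IsFrD g F → ∀ Z1 Z2 : Set (En d), Disjoint Z1 Z2 → ∀ m : ℕ, 1 ≤ m →
    (∃ (b a : ℝ) (wT : Wd d) (k l : ℕ), TDD g F Z1 m b a wT k l) →
    (∃ (b a : ℝ) (wT : Wd d) (k l : ℕ), TDD g F Z2 m b a wT k l) →
      ∃ g' ∈ U, EqOffD (Z1 ∪ Z2) g g' ∧
        ∃ (b a : ℝ) (wT : Wd d) (k l : ℕ), TDD g' F (Z1 ∪ Z2) (m + 1) b a wT k l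

/-- C.5 (induction on the order), from stage I -/
theorem X_mD {R : ℕ} {U : Set (En d → En d)} (hU : PertOpenD R U) (hN : ∀ g ∈ U, NearD g) {F : FrD d}
    (hI : StepI U F) (m : ℕ) (hm : 1 ≤ m) : ∀ g ∈ U, IsFrD g F → ∀ w v : List Sy, Ok g w v →
      ∃ g' ∈ U, EqOffD (Zs g w) g g' ∧
        ∃ (b a : ℝ) (wT : Wd d) (k l : ℕ), TDD g' F (Zs g w) m b a wT k l := by
  induction m, hm using Nat.le_induction with
  | base => intro g hg hF w v hok; exact first_tangencyD hU hN hg hF hok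
  | succ m hm ih =>
    intro g hg hF w v hok
    obtain ⟨g1, hg1, hV1, hFF1, w', v', hokP, hokQ⟩ := double_pair hU hN hg hok
    have hN0 := hN g hg
    have hN1 := hN g1 hg1
    have he1 : EqOffD (Zs g w) g g1 := by
      rintro z (hz | hz) hzZ
      · exact hV1 z hz
      · exact hFF1 z hz hzZ
    have hF1 : IsFrD g1 F := hF.congr fun z hz => hV1 z (VOD_sub hz)
    have hZ1 : Zs g1 = Zs g := Zs_congr hN0 hV1
    -- first extension
    obtain ⟨g2, hg2, he2, b2, a2, wT2, k2, l2, t2⟩ := ih g1 hg1 hF1 _ _ hokP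
    have hN2 := hN g2 hg2
    have hV2 := he2.strips (Zs_sub_FF hN1 _)
    have hF2 : IsFrD g2 F := hF1.congr fun z hz => hV2 z (VOD_sub hz)
    have hd := Zs_disjoint hN1 (w' ++ w)
    have hok2 : Ok g2 (Sy.Q :: (w' ++ w)) (v ++ v') :=
      Ok_congr hN1 hV2 (fun z hz hzZ => he2 z (FFd_sub_Dd hz) hzZ) hd.symm hokQ
    -- second extension
    obtain ⟨g3, hg3, he3, b3, a3, wT3, k3, l3, t3⟩ := ih g2 hg2 hF2 _ _ hok2
    have hN3 := hN g3 hg3
    have hZ2 : Zs g2 = Zs g1 := Zs_congr hN1 hV2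
    rw [hZ2] at he3 t3
    have hF3 : IsFrD g3 F := hF2.congr fun z hz => he3.strips (Zs_sub_FF hN1 _) z (VOD_sub hz)
    have t2' := t2.of_eqOff hN2 hF2 he3 (Zs_sub_FF hN1 _) hd
    -- stage I
    obtain ⟨g4, hg4, he4, b4, a4, wT4, k4, l4, t4⟩ := hI g3 hg3 hF3 _ _ hd m hm
      ⟨_, _, _, _, _, t2'⟩ ⟨_, _, _, _, _, t3⟩
    have hsubP : Zs g1 (Sy.P :: (w' ++ w)) ⊆ Zs g w := by
      rw [hZ1]
      exact Zs_append hN0 (Sy.P :: w') w
    have hsubQ : Zs g1 (Sy.Q :: (w' ++ w)) ⊆ Zs g w := by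
      rw [hZ1]
      exact Zs_append hN0 (Sy.Q :: w') w
    refine ⟨g4, hg4, ?_, b4, a4, wT4, k4, l4, ?_⟩
    · exact ((he1.trans (he2.mono hsubP)).trans (he3.mono hsubQ)).trans
        (he4.mono (union_subset hsubP hsubQ))
    · exact t4.mono (union_subset hsubP hsubQ) (Zs_open hN0 w) (Zs_sub_FF hN0 w)

/-- C.6 -/
theorem exists_TDD {R : ℕ} {U : Set (En d → En d)} (hU : PertOpenD R U) (hN : ∀ g ∈ U, NearD g) {F : FrD d}
    (hI : StepI U F) (m : ℕ) (hm : 1 ≤ m) {g : En d → En d} (hg : g ∈ U) (hF : IsFrD g F) :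
    ∃ g' ∈ U, EqOffD (interior (FFd d)) g g' ∧ IsFrD g' F ∧
      ∃ (b a : ℝ) (wT : Wd d) (k l : ℕ), TDD g' F (interior (FFd d)) m b a wT k l := by
  obtain ⟨g', hg', he, ht⟩ := X_mD hU hN hI m hm g hg hF [] [] (ok_nil (hN g hg))
  rw [Zs_nil] at he ht
  refine ⟨g', hg', he, hF.congr fun z hz => ?_, ht⟩
  exact he.strips subset_rfl z (VOD_sub hz)

end Pool.Agent.Lib.H37D
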