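import Pool.Agent.Lib.H37D.FDefs
import Pool.Agent.Lib.H37N.T10a

/-!
# H37D DF01c: flat arcs (pure part)
-/

open Set Filter Topology Asymptotics
open scoped ContDiff

namespace Pool.Agent.Lib.H37D

open Pool.Agent.Lib.H37N

variable {d : ℕ}

theorem df01_core {T : En d → En d} {O : Set (En d)} (hO : IsOpen O) (h0 : (0 : En d) ∈ O)
    (hT : ContDiffOn ℝ ∞ T O) {a : ℝ} {wT : Wd d} (hT0 : T 0 = ((a, 0), wT))
    (hα : (fderiv ℝ T 0 ((0, 1), 0)).1.1 ≠ 0) {m : ℕ}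
    (hord : (fun t : ℝ => (T ((0, t), 0)).1.2) =O[𝓝 0] fun t => |t| ^ (m + 1)) :
    ∃ (Gh : En d → En d) (O1 : Set (En d)), IsOpen O1 ∧ (((a, 0), wT) : En d) ∈ O1 ∧ ContDiffOn ℝ ∞ Gh O1 ∧
      ((fun v => Gh v - v) =O[𝓝 (((a, 0), wT) : En d)] fun v => ‖v - ((a, 0), wT)‖ ^ (m + 1)) ∧
      Gh ((a, 0), wT) = ((a, 0), wT) ∧ ∀ᶠ t : ℝ in 𝓝 0, (Gh (T ((0, t), 0))).1.2 = 0 := by
  have hT0' : T ((0, 0), 0) = ((a, 0), wT) := hT0
  have hcont : Continuous (fun t : ℝ => (((0, t), 0) : En d)) := by fun_prop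
  have hmem : ∀ᶠ t : ℝ in 𝓝 0, (((0, t), 0) : En d) ∈ O :=
    hcont.continuousAt.eventually_mem (hO.mem_nhds h0)
  have hls : ContDiff ℝ ∞ (fun t : ℝ => (((0, t), 0) : En d)) := by fun_prop
  have hφ : ∀ᶠ t : ℝ in 𝓝 0, ContDiffAt ℝ ∞ (fun t : ℝ => (T ((0, t), 0)).1.1) t := by
    filter_upwards [hmem] with t ht
    exact ContDiffAt.comp (g := fun v : En d => (T v).1.1) (f := fun t : ℝ => (((0, t), 0) : En d)) t
      (hT.contDiffAt (hO.mem_nhds ht)).fst.fst hls.contDiffAt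
  have hTd : HasFDerivAt T (fderiv ℝ T 0) (((0 : ℝ), (0 : ℝ)), (0 : Wd d)) :=
    ((hT.contDiffAt (hO.mem_nhds h0)).differentiableAt (by simp)).hasFDerivAt
  have hld : HasDerivAt (fun t : ℝ => (((0, t), 0) : En d)) (((0 : ℝ), (1 : ℝ)), (0 : Wd d)) 0 :=
    ((hasDerivAt_const 0 (0 : ℝ)).prodMk (hasDerivAt_id 0)).prodMk (hasDerivAt_const 0 (0 : Wd d))
  have hTd2 : HasDerivAt (fun t : ℝ => T ((0, t), 0)) (fderiv ℝ T 0 ((0, 1), 0)) 0 :=
    hTd.comp_hasDerivAt (0 : ℝ) hld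
  have hφd : HasDerivAt (fun t : ℝ => (T ((0, t), 0)).1.1) (fderiv ℝ T 0 ((0, 1), 0)).1.1 0 :=
    ((ContinuousLinearMap.fst ℝ ℝ ℝ).comp
      (ContinuousLinearMap.fst ℝ Pt (Wd d))).hasFDerivAt.comp_hasDerivAt (0 : ℝ) hTd2
  have hb : Function.Bijective (fderiv ℝ (fun t : ℝ => (T ((0, t), 0)).1.1) 0) := by
    have h1 : ∀ v : ℝ, fderiv ℝ (fun t : ℝ => (T ((0, t), 0)).1.1) 0 v =
        v * (fderiv ℝ T 0 ((0, 1), 0)).1.1 := by
      intro v
      rw [hφd.hasFDerivAt.fderiv]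
      simp
    constructor
    · intro v w hvw
      rw [h1, h1] at hvw
      exact mul_right_cancel₀ hα hvw
    · intro w
      refine ⟨w / (fderiv ℝ T 0 ((0, 1), 0)).1.1, ?_⟩
      rw [h1]
      field_simp
  obtain ⟨θ, hθ, hθ0, hθ1, -⟩ := inverse_fun hφ hb
  simp only [hT0'] at hθ0
  refine ⟨fun v => ((v.1.1, v.1.2 - (T ((0, θ v.1.1), 0)).1.2), v.2),
    {v | (((0, θ v.1.1), 0) : En d) ∈ O}, ?_, ?_, ?_, ?_, ?_, ?_⟩
  · have hc : Continuous (fun v : En d => (((0, θ v.1.1), 0) : En d)) :=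
      hcont.comp (hθ.continuous.comp (continuous_fst.comp continuous_fst))
    exact hO.preimage hc
  · change (((0, θ a), 0) : En d) ∈ O
    rw [hθ0]
    exact h0
  · have hc : ContDiff ℝ ∞ (fun v : En d => (((0, θ v.1.1), 0) : En d)) :=
      hls.comp (hθ.comp (contDiff_fst.comp contDiff_fst))
    have h2 : ContDiffOn ℝ ∞ (fun v : En d => (T ((0, θ v.1.1), 0)).1.2)
        {v | (((0, θ v.1.1), 0) : En d) ∈ O} :=
      (hT.comp hc.contDiffOn (fun v hv => hv)).fst.snd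
    exact ((contDiff_fst.comp contDiff_fst).contDiffOn.prodMk
      ((contDiff_snd.comp contDiff_fst).contDiffOn.sub h2)).prodMk contDiff_snd.contDiffOn
  · have ht : Tendsto (fun v : En d => θ v.1.1) (𝓝 (((a, 0), wT) : En d)) (𝓝 0) := by
      have h := (hθ.continuous.comp (continuous_fst.comp continuous_fst)).tendsto (((a, 0), wT) : En d)
      simp only [Function.comp_apply, hθ0] at h
      exact h
    have h1 : (fun v : En d => (T ((0, θ v.1.1), 0)).1.2) =O[𝓝 (((a, 0), wT) : En d)]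
        fun v => |θ v.1.1| ^ (m + 1) := hord.comp_tendsto ht
    have h2 : (fun v : En d => θ v.1.1) =O[𝓝 (((a, 0), wT) : En d)] fun v => v.1.1 - a := by
      have h3 : (fun X : ℝ => θ X - θ a) =O[𝓝 a] fun X => X - a :=
        ((hθ.differentiable (by simp)) a).isBigO_sub
      have h4 : Tendsto (fun v : En d => v.1.1) (𝓝 (((a, 0), wT) : En d)) (𝓝 a) :=
        (continuous_fst.comp continuous_fst).tendsto _
      have h5 := h3.comp_tendsto h4
      simpa [Function.comp_def, hθ0] using h5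
    have h6 : (fun v : En d => v.1.1 - a) =O[𝓝 (((a, 0), wT) : En d)] fun v => ‖v - ((a, 0), wT)‖ := by
      refine IsBigO.of_bound 1 (Eventually.of_forall fun v => ?_)
      rw [one_mul, norm_norm]
      exact (norm_fst_le (v - ((a, 0), wT)).1).trans (norm_fst_le (v - ((a, 0), wT)))
    have h7 : (fun v : En d => |θ v.1.1| ^ (m + 1)) =O[𝓝 (((a, 0), wT) : En d)]
        fun v => ‖v - ((a, 0), wT)‖ ^ (m + 1) := by
      refine IsBigO.pow ?_ _
      exact (h2.trans h6).norm_left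
    have h8 := h1.trans h7
    refine IsBigO.trans ?_ h8
    refine IsBigO.of_bound 1 (Eventually.of_forall fun v => ?_)
    rw [one_mul, Prod.norm_def, Prod.norm_def]
    simp
  · simp only [hθ0, hT0']
    simp
  · filter_upwards [hθ1] with t ht
    change (T ((0, t), 0)).1.2 - (T ((0, θ (T ((0, t), 0)).1.1), 0)).1.2 = 0
    rw [ht, sub_self]

/-- the Jacobian along the flat arc -/
noncomputable def df02_M (T : En d → En d) (t : ℝ) : ℝ :=
  -(deriv (fun t : ℝ => (T ((0, t), 0)).1.1) t * (fderiv ℝ T ((0, t), 0) ((1, 0), 0)).1.2)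

theorem df02_line : ContDiff ℝ ∞ (fun t : ℝ => (((0, t), 0) : En d)) := by fun_prop

theorem df02_deriv {T : En d → En d} {t : ℝ} (h : DifferentiableAt ℝ T ((0, t), 0)) :
    HasDerivAt (fun t : ℝ => (T ((0, t), 0)).1.1) (fderiv ℝ T ((0, t), 0) ((0, 1), 0)).1.1 t := by
  have hline : HasDerivAt (fun t : ℝ => (((0, t), 0) : En d)) (((0 : ℝ), (1 : ℝ)), (0 : Wd d)) t :=
    ((hasDerivAt_const t (0 : ℝ)).prodMk (hasDerivAt_id t)).prodMk (hasDerivAt_const t (0 : Wd d))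
  exact ((ContinuousLinearMap.fst ℝ ℝ ℝ).comp
    (ContinuousLinearMap.fst ℝ Pt (Wd d))).hasFDerivAt.comp_hasDerivAt t
      (h.hasFDerivAt.comp_hasDerivAt t hline)

theorem df02_M_diff {T : En d → En d} {O : Set (En d)} (hO : IsOpen O) (h0 : (0 : En d) ∈ O)
    (hT : ContDiffOn ℝ ∞ T O) : DifferentiableAt ℝ (df02_M T) 0 := by
  have h1 : ∀ᶠ t : ℝ in 𝓝 0, (((0, t), 0) : En d) ∈ O :=
    df02_line.continuous.continuousAt.eventually_mem (hO.mem_nhds h0)
  have h2 : df02_M T =ᶠ[𝓝 0] fun t : ℝ =>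
      -((fderiv ℝ T ((0, t), 0) ((0, 1), 0)).1.1 * (fderiv ℝ T ((0, t), 0) ((1, 0), 0)).1.2) := by
    filter_upwards [h1] with t ht
    unfold df02_M
    rw [(df02_deriv ((hT.contDiffAt (hO.mem_nhds ht)).differentiableAt (by simp))).deriv]
  refine DifferentiableAt.congr_of_eventuallyEq ?_ h2
  have h3 : ContDiffAt ℝ ∞ (fderiv ℝ T) (0 : En d) :=
    (hT.contDiffAt (hO.mem_nhds h0)).fderiv_right (by simp)
  have h4 : DifferentiableAt ℝ (fun t : ℝ => fderiv ℝ T (((0, t), 0) : En d)) 0 := by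
    have h5 : DifferentiableAt ℝ (fderiv ℝ T) ((fun t : ℝ => (((0, t), 0) : En d)) 0) :=
      h3.differentiableAt (by simp)
    exact h5.comp (0 : ℝ) (df02_line.differentiable (by simp) 0)
  exact ((h4.clm_apply (differentiableAt_const _)).fst.fst.mul
    (h4.clm_apply (differentiableAt_const _)).fst.snd).neg

end Pool.Agent.Lib.H37D
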