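import Pool.Agent.Lib.H37D.DP04
import Pool.Agent.Lib.H37D.DF01c

/-!
# H37D DF00: tangency data after an admissible perturbation
-/

open Set Filter Topology Asymptotics
open scoped ContDiff

namespace Pool.Agent.Lib.H37D

open Pool.Agent.Lib.H37N

variable {d : ℕ} {g : En d → En d} {s : FrD d} {Z : Set (En d)} {m : ℕ} {b a : ℝ} {wT : Wd d} {k l : ℕ}

/-- the derivative of the first coordinate along the arc -/
theorem df00_alpha (hN : NearS g) (hs : IsFrD g s) (hm : 1 ≤ m) (ht : TDD g s Z m b a wT k l) :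
    ∃ α : ℝ, α ≠ 0 ∧ HasDerivAt (fun t : ℝ => (TTD g s b k l ((0, t), 0)).1.1) α 0 := by
  obtain ⟨⟨O, hO, h0, hc, -, -⟩, -⟩ := tt_regularD hN hs ht
  obtain ⟨-, h2, h3⟩ := tt_derivD hN hs hm ht
  have hd : DifferentiableAt ℝ (TTD g s b k l) ((0, 0), 0) :=
    (hc.contDiffAt (hO.mem_nhds h0)).differentiableAt (by simp)
  refine ⟨_, ?_, df02_deriv hd⟩
  intro h4
  have e : (fderiv ℝ (TTD g s b k l) 0 ((0, 1), 0)).1.1 = 0 := h4
  rw [e, zero_mul] at h2
  linarith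

theorem df00_td (hN : NearS g) (ht : TDD g s Z m b a wT k l) {r : ℝ} {D B : Set (En d)}
    {Li : En d → En d} (hp : PlaceD g s Z b a wT k l r D B Li) {ψ : En d → En d} (hψ : AdmD D ψ)
    (hfix : ψ (g (InD g s b k 0)) = g (InD g s b k 0))
    (hord : (fun t : ℝ => (TTD (ψ ∘ g) s b k l ((0, t), 0)).1.2) =O[𝓝 0] fun t => |t| ^ (m + 1)) :
    TDD (ψ ∘ g) s Z m b a wT k l := by
  have h0 : (0 : En d) ∈ B := mem_of_mem_nhds hp.nhB
  have hin := PlaceD.iter_in hN hp hψ h0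
  have hk : (ψ ∘ g) (InD (ψ ∘ g) s b k 0) = g (InD g s b k 0) := by
    rw [hin k le_rfl]
    exact hfix
  have hD := PlaceD.iter_D hN ht.subZ hp hψ (hp.inD 0 h0)
  refine ⟨ht.openZ, ht.subZ, ht.b_pos, ht.b_lt, ht.a_lt, ht.w_lt, ?_, ?_, ?_, ?_, ?_, hord⟩
  · intro i hi
    rw [hin i hi]
    exact ht.path1 i hi
  · rw [hin k le_rfl]
    exact ht.memZ
  · intro i hi
    rw [hin i hi.le, hin k le_rfl]
    exact ht.dist i hi
  · intro i hi
    rw [hk, hD i hi]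
    exact ht.path2 i hi
  · rw [hk, hD l le_rfl]
    exact ht.fin

theorem df00_fix (hN : NearS g) (hs : IsFrD g s) (ht : TDD g s Z m b a wT k l) {r : ℝ}
    {D B : Set (En d)} {Li : En d → En d} (hp : PlaceD g s Z b a wT k l r D B Li) {ψ : En d → En d}
    (hψ : AdmD D ψ) (h : PlD g s l (ψ (Li ((a, 0), wT))) = ((a, 0), wT)) :
    ψ (g (InD g s b k 0)) = g (InD g s b k 0) := by
  have h0 : (0 : En d) ∈ B := mem_of_mem_nhds hp.nhB
  have hw := hp.inD 0 h0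
  have hT : PlD g s l (g (InD g s b k 0)) = ((a, 0), wT) := (tt_regularD hN hs ht).2
  have e1 : Li ((a, 0), wT) = g (InD g s b k 0) := by
    rw [← hT]
    exact hp.Li_Pl _ hw
  rw [e1] at h
  have e2 := hp.Li_Pl _ (hψ.2 _ hw)
  rw [h, e1] at e2
  exact e2.symm

end Pool.Agent.Lib.H37D
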