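import Pool.Agent.Lib.H37D.KDefs

/-! # H37D, KT8 (port of T8): small perturbations are diffeomorphisms -/

open Set Filter Topology Asymptotics
open scoped ContDiff

namespace Pool.Agent.Lib.H37D

open Pool.Agent.Lib.H37N

variable {d : ℕ}

theorem k0D_compact (d : ℕ) : IsCompact (K0D d) :=
  (isCompact_Icc.prod isCompact_Icc).prod (isCompact_closedBall _ _)

theorem k0D_norm {z : En d} (hz : z ∈ K0D d) : ‖z‖ ≤ 4 := by
  obtain ⟨⟨⟨h1, h2⟩, h3, h4⟩, h5⟩ := hz
  rw [Prod.norm_def, Prod.norm_def, Real.norm_eq_abs, Real.norm_eq_abs]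
  exact max_le (max_le (abs_le.2 ⟨by linarith, h2⟩) (abs_le.2 ⟨by linarith, h4⟩)) (by simpa using h5)

theorem SmallD.mono {R R' : ℕ} {ε ε' : ℝ} {ψ : En d → En d} (h : SmallD R ε ψ) (hR : R' ≤ R) (hε : ε ≤ ε') : SmallD R' ε' ψ :=
  ⟨h.smooth, h.supp, fun j hj z => (h.bound j (hj.trans hR) z).trans hε⟩

/-- PROOF. j = 0: `norm_iteratedFDeriv_zero`. -/
theorem SmallD.norm_sub_le {R : ℕ} {ε : ℝ} {ψ : En d → En d} (h : SmallD R ε ψ) (z : En d) : ‖ψ z - z‖ ≤ ε := by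
  have h1 := h.bound 0 (Nat.zero_le _) z
  rwa [norm_iteratedFDeriv_zero] at h1

theorem kt8_fderiv {R : ℕ} {ε : ℝ} {ψ : En d → En d} (h : SmallD R ε ψ) (hR : 1 ≤ R) (z : En d) :
    ‖fderiv ℝ (fun z => ψ z - z) z‖ ≤ ε := by
  have h1 := h.bound 1 hR z
  rwa [norm_iteratedFDeriv_one] at h1

theorem kt8_diff {R : ℕ} {ε : ℝ} {ψ : En d → En d} (h : SmallD R ε ψ) : Differentiable ℝ (fun z => ψ z - z) :=
  (h.smooth.differentiable (by simp)).sub differentiable_id

/-- PROOF. j = 1: ‖iteratedFDeriv 1 f z‖ = ‖fderiv f z‖ (`norm_iteratedFDeriv_one`), mean value inequality on the whole plane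
(`Convex.norm_image_sub_le_of_norm_fderiv_le`, convex_univ). -/
theorem SmallD.lip {R : ℕ} {ε : ℝ} {ψ : En d → En d} (h : SmallD R ε ψ) (hR : 1 ≤ R) (z w : En d) :
    ‖(ψ z - z) - (ψ w - w)‖ ≤ ε * ‖z - w‖ := by
  exact Convex.norm_image_sub_le_of_norm_fderiv_le (𝕜 := ℝ) (f := fun z => ψ z - z) (s := univ)
    (fun x _ => (kt8_diff h) x) (fun x _ => kt8_fderiv h hR x) convex_univ (mem_univ w) (mem_univ z)

theorem kt8_expand {ψ : En d → En d} (h : SmallD 1 (1 / 2) ψ) (z w : En d) :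
    ‖z - w‖ ≤ 2 * ‖ψ z - ψ w‖ := by
  have h1 := h.lip le_rfl z w
  have h2 : z - w = (ψ z - ψ w) - ((ψ z - z) - (ψ w - w)) := by abel
  have h3 : ‖z - w‖ ≤ ‖ψ z - ψ w‖ + ‖(ψ z - z) - (ψ w - w)‖ := by
    conv_lhs => rw [h2]
    exact norm_sub_le _ _
  linarith

theorem kt8_inj {ψ : En d → En d} (h : SmallD 1 (1 / 2) ψ) : Function.Injective ψ := by
  intro z w hzw
  have h1 := kt8_expand h z w
  rw [hzw, sub_self, norm_zero, mul_zero] at h1
  have h2 : ‖z - w‖ = 0 := le_antisymm h1 (norm_nonneg _)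
  exact sub_eq_zero.mp (norm_eq_zero.mp h2)

theorem kt8_surj {ψ : En d → En d} (h : SmallD 1 (1 / 2) ψ) : Function.Surjective ψ := by
  intro w
  have hc : ContractingWith (1 / 2 : NNReal) (fun z => w - (ψ z - z)) := by
    refine ⟨by norm_num, LipschitzWith.of_dist_le_mul fun x y => ?_⟩
    have h1 := h.lip le_rfl x y
    rw [dist_eq_norm, dist_eq_norm]
    have h2 : (w - (ψ x - x)) - (w - (ψ y - y)) = -((ψ x - x) - (ψ y - y)) := by abel
    rw [h2, norm_neg]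
    simpa using h1
  refine ⟨hc.fixedPoint, ?_⟩
  have h1 := hc.fixedPoint_isFixedPt
  have h2 : w - (ψ (hc.fixedPoint) - hc.fixedPoint) = hc.fixedPoint := h1
  have h3 : ψ (hc.fixedPoint) = w - (w - (ψ (hc.fixedPoint) - hc.fixedPoint)) + hc.fixedPoint := by abel
  rw [h3, h2]
  abel

/-- the inverse as a homeomorphism -/
noncomputable def kt8_homeo {ψ : En d → En d} (h : SmallD 1 (1 / 2) ψ) : En d ≃ₜ En d where
  toEquiv := Equiv.ofBijective ψ ⟨kt8_inj h, kt8_surj h⟩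
  continuous_toFun := h.smooth.continuous
  continuous_invFun := by
    have hL : LipschitzWith 2 (Equiv.ofBijective ψ ⟨kt8_inj h, kt8_surj h⟩).symm := by
      refine LipschitzWith.of_dist_le_mul fun x y => ?_
      rw [dist_eq_norm, dist_eq_norm]
      have h1 := kt8_expand h ((Equiv.ofBijective ψ ⟨kt8_inj h, kt8_surj h⟩).symm x)
        ((Equiv.ofBijective ψ ⟨kt8_inj h, kt8_surj h⟩).symm y)
      rw [Equiv.ofBijective_apply_symm_apply ψ ⟨kt8_inj h, kt8_surj h⟩ x,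
        Equiv.ofBijective_apply_symm_apply ψ ⟨kt8_inj h, kt8_surj h⟩ y] at h1
      simpa using h1
    exact hL.continuous

/-- PROOF. Injective: `SmallD.lip` with ε = 1/2.  Surjective: for given w the map z ↦ w - (ψ z - z) is a contraction (factor 1/2) of the complete space En d; its fixed point is a preimage.
The inverse φ is smooth: fderiv ψ z = id + A with ‖A‖ ≤ 1/2 is invertible (injective: ‖v + A v‖ ≥ ‖v‖/2; finite dimension), `ContDiffAt.to_localInverse` or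
`OpenPartialHomeomorph.contDiffAt_symm` for the homeomorphism ψ (continuous inverse: ‖φ a - φ b‖ ≤ 2 ‖a - b‖).  φ z = z for z ∉ K0D d because ψ z = z. -/
theorem SmallD.exists_inverse {ψ : En d → En d} (h : SmallD 1 (1 / 2) ψ) :
    ∃ φ : En d → En d, ContDiff ℝ ∞ φ ∧ (∀ z, φ (ψ z) = z) ∧ (∀ z, ψ (φ z) = z) ∧ ∀ z, z ∉ K0D d → φ z = z := by
  have hder : ∀ z, HasFDerivAt ψ (fderiv ℝ ψ z) z := fun z =>
    ((h.smooth.differentiable (by simp)) z).hasFDerivAt
  have hA : ∀ z, ‖fderiv ℝ ψ z - ContinuousLinearMap.id ℝ (En d)‖ ≤ 1 / 2 := by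
    intro z
    have h1 := kt8_fderiv h le_rfl z
    have h2 : fderiv ℝ (fun z => ψ z - z) z = fderiv ℝ ψ z - ContinuousLinearMap.id ℝ (En d) :=
      ((hder z).sub (hasFDerivAt_id z)).fderiv
    rwa [h2] at h1
  have hlt : ∀ z, ‖-(fderiv ℝ ψ z - ContinuousLinearMap.id ℝ (En d))‖ < 1 := by
    intro z
    rw [norm_neg]
    linarith [hA z]
  have hcoe : ∀ z, ((ContinuousLinearEquiv.ofUnit (Units.oneSub _ (hlt z)) : En d ≃L[ℝ] En d) : En d →L[ℝ] En d) =
      fderiv ℝ ψ z := by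
    intro z
    refine ContinuousLinearMap.ext fun v => ?_
    simp [ContinuousLinearEquiv.ofUnit, Units.oneSub]
  refine ⟨(kt8_homeo h).symm, ?_, ?_, ?_, ?_⟩
  · refine Homeomorph.contDiff_symm (kt8_homeo h)
      (f₀' := fun z => ContinuousLinearEquiv.ofUnit (Units.oneSub _ (hlt z))) ?_ h.smooth
    intro z
    rw [hcoe z]
    exact hder z
  · intro z
    exact (kt8_homeo h).symm_apply_apply z
  · intro z
    exact (kt8_homeo h).apply_symm_apply z
  · intro z hz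
    apply kt8_inj h
    rw [h.supp z hz]
    exact (kt8_homeo h).apply_symm_apply z

/-- PROOF. If ψ z ∉ K0D d then ψ (ψ z) = ψ z, so ψ z = z (injectivity), z ∉ K0D d. -/
theorem SmallD.mem_K0D {ψ : En d → En d} (h : SmallD 1 (1 / 2) ψ) {z : En d} (hz : z ∈ K0D d) : ψ z ∈ K0D d := by
  by_contra hc
  have h1 := kt8_inj h (h.supp _ hc)
  rw [h1] at hc
  exact hc hz


end Pool.Agent.Lib.H37D
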