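import Pool.Agent.Lib.H37D.CDefsD
import Pool.Agent.Lib.H37D.DT67
import Pool.Agent.Lib.H37D.KT8
import Pool.Agent.Lib.H37P.P06

/-!
# H37D DP06 (M): flat corrections at a place (port of H37P/P06.lean)

Word for word as H37P/P06 (`flat_corrD` of DT67 with `R + 1` in place of `R`, the injectivity of `SmallD 1 (1/2)` maps from KT8).
-/

open Set Filter Topology Asymptotics
open scoped ContDiff

namespace Pool.Agent.Lib.H37D

open Pool.Agent.Lib.H37N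

variable {d : ℕ} {g : En d → En d} {s : FrD d} {Z : Set (En d)} {b a : ℝ} {wT : Wd d} {k l : ℕ}
  {r : ℝ} {D B : Set (En d)} {Li : En d → En d}

theorem PlaceD.flat (hp : PlaceD g s Z b a wT k l r D B Li) {v0 : En d}
    (hv0 : v0 ∈ Metric.ball (((a, 0), wT) : En d) r) {R : ℕ} {Gh : En d → En d} {O1 : Set (En d)}
    (hO1 : IsOpen O1) (hv1 : v0 ∈ O1) (hG : ContDiffOn ℝ ∞ Gh O1)
    (hG1 : (fun v => Gh v - v) =O[𝓝 v0] fun v => ‖v - v0‖ ^ (R + 2)) {ε : ℝ} (hε : 0 < ε)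
    {O : Set (En d)} (hO : O ∈ 𝓝 v0) :
    ∃ ψ : En d → En d, SmallD R ε ψ ∧ AdmD D ψ ∧
      (∀ᶠ v in 𝓝 v0, PlD g s l (ψ (Li v)) = Gh v) ∧
      ∀ v ∈ Metric.ball (((a, 0), wT) : En d) r, v ∉ O → PlD g s l (ψ (Li v)) = v := by
  have hball : IsOpen (Metric.ball (((a, 0), wT) : En d) r) := Metric.isOpen_ball
  have hw0 : Li v0 ∈ D := hp.Li_mem v0 hv0
  have hPw0 : PlD g s l (Li v0) = v0 := hp.Pl_Li v0 hv0
  obtain ⟨C, -, hDC, hCK, -⟩ := hp.compD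
  have hK : Li v0 ∈ interior (K0D d) :=
    interior_maximal (hDC.trans hCK) hp.openD hw0
  -- Gh fixes v0
  have hfix : Gh v0 = v0 := by
    obtain ⟨c, hc⟩ := hG1.bound
    have h1 := hc.self_of_nhds
    simp only [sub_self, norm_zero] at h1
    rw [zero_pow (by omega), norm_zero, mul_zero] at h1
    exact sub_eq_zero.1 (norm_eq_zero.1 (le_antisymm h1 (norm_nonneg _)))
  have hPlat : ∀ w ∈ D, ContDiffAt ℝ ∞ (PlD g s l) w := fun w hw =>
    hp.smPl.contDiffAt (hp.openD.mem_nhds hw)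
  have hLiat : ∀ v ∈ Metric.ball (((a, 0), wT) : En d) r, ContDiffAt ℝ ∞ Li v := fun v hv =>
    hp.smLi.contDiffAt (hball.mem_nhds hv)
  have hPc : Tendsto (PlD g s l) (𝓝 (Li v0)) (𝓝 v0) := by
    have h1 := (hPlat _ hw0).continuousAt.tendsto
    rwa [hPw0] at h1
  have hLc : Tendsto Li (𝓝 v0) (𝓝 (Li v0)) := (hLiat v0 hv0).continuousAt.tendsto
  have hGc : Tendsto Gh (𝓝 v0) (𝓝 v0) := by
    have h1 := (hG.contDiffAt (hO1.mem_nhds hv1)).continuousAt.tendsto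
    rwa [hfix] at h1
  have hDn : ∀ᶠ w in 𝓝 (Li v0), w ∈ D := hp.openD.mem_nhds hw0
  have hGs : ∀ᶠ w in 𝓝 (Li v0), ContDiffAt ℝ ∞ (fun w => Li (Gh (PlD g s l w))) w := by
    have h1 : ∀ᶠ w in 𝓝 (Li v0), PlD g s l w ∈ O1 := hPc.eventually (hO1.mem_nhds hv1)
    have h2 : ∀ᶠ w in 𝓝 (Li v0), Gh (PlD g s l w) ∈ Metric.ball (((a, 0), wT) : En d) r :=
      (hGc.comp hPc).eventually (hball.mem_nhds hv0)
    filter_upwards [hDn, h1, h2] with w h3 h4 h5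
    exact (hLiat _ h5).comp w ((hG.contDiffAt (hO1.mem_nhds h4)).comp w (hPlat w h3))
  have hbig : (fun w => Li (Gh (PlD g s l w)) - w) =O[𝓝 (Li v0)]
      fun w => ‖w - Li v0‖ ^ (R + 2) := by
    obtain ⟨K, T, hT, hKT⟩ := ((hLiat v0 hv0).of_le (by simp : (1 : WithTop ℕ∞) ≤ ∞)).exists_lipschitzOnWith
    have h1 : (fun w => Li (Gh (PlD g s l w)) - w) =O[𝓝 (Li v0)]
        fun w => Gh (PlD g s l w) - PlD g s l w := by
      refine IsBigO.of_bound K ?_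
      filter_upwards [hDn, hPc.eventually hT, (hGc.comp hPc).eventually hT] with w h2 h3 h4
      have h5 : w = Li (PlD g s l w) := (hp.Li_Pl w h2).symm
      have h6 := hKT.dist_le_mul _ h4 _ h3
      rw [dist_eq_norm, dist_eq_norm] at h6
      calc ‖Li (Gh (PlD g s l w)) - w‖ = ‖Li (Gh (PlD g s l w)) - Li (PlD g s l w)‖ := by
            rw [← h5]
        _ ≤ _ := h6
    have h2 : (fun w => Gh (PlD g s l w) - PlD g s l w) =O[𝓝 (Li v0)]
        fun w => ‖PlD g s l w - v0‖ ^ (R + 2) := hG1.comp_tendsto hPc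
    have h3 : (fun w => PlD g s l w - v0) =O[𝓝 (Li v0)] fun w => w - Li v0 := by
      have h4 := ((hPlat _ hw0).differentiableAt (by simp)).hasFDerivAt.isBigO_sub
      rwa [hPw0] at h4
    exact (h1.trans h2).trans (h3.norm_norm.pow (R + 2))
  have hB : {w | w ∈ D ∧ PlD g s l w ∈ O} ∈ 𝓝 (Li v0) :=
    Filter.inter_mem (hp.openD.mem_nhds hw0) (hPc hO)
  obtain ⟨ψ, hψ, hψB, hψG⟩ := flat_corrD (R + 1) (ε := min ε (1 / 2)) (lt_min hε (by norm_num)) hK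
    hGs hbig hB
  have hinj : Function.Injective ψ :=
    kt8_inj (hψ.mono (R' := 1) (ε' := 1 / 2) (by omega) (min_le_right _ _))
  refine ⟨ψ, hψ.mono (Nat.le_succ R) (min_le_left _ _), ⟨?_, ?_⟩, ?_, ?_⟩
  · intro w hw
    exact hψB w fun h => hw h.1
  · intro w hw
    by_contra hc
    have h1 : ψ (ψ w) = ψ w := hψB _ fun h => hc h.1
    exact hc ((hinj h1).symm ▸ hw)
  · have h1 : ∀ᶠ v in 𝓝 v0, ψ (Li v) = Li (Gh (PlD g s l (Li v))) := hLc.eventually hψG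
    have h2 : ∀ᶠ v in 𝓝 v0, v ∈ Metric.ball (((a, 0), wT) : En d) r := hball.mem_nhds hv0
    have h3 : ∀ᶠ v in 𝓝 v0, Gh v ∈ Metric.ball (((a, 0), wT) : En d) r :=
      hGc.eventually (hball.mem_nhds hv0)
    filter_upwards [h1, h2, h3] with v h4 h5 h6
    rw [h4, hp.Pl_Li v h5, hp.Pl_Li _ h6]
  · intro v hv hvO
    have h1 : ψ (Li v) = Li v := hψB _ fun h => by
      have h2 : PlD g s l (Li v) ∈ O := h.2
      rw [hp.Pl_Li v hv] at h2
      exact hvO h2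
    rw [h1, hp.Pl_Li v hv]

end Pool.Agent.Lib.H37D
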