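import Pool.Agent.Lib.H37D.DF00
import Pool.Agent.Lib.H37D.DP06

/-!
# H37D DF01: flat arcs
-/

open Set Filter Topology Asymptotics
open scoped ContDiff

namespace Pool.Agent.Lib.H37D

open Pool.Agent.Lib.H37N

variable {d : ℕ}

theorem flat_arcD {R m : ℕ} (hm : R + 1 ≤ m) {U : Set (En d → En d)} (hU : PertOpenD R U)
    (hUN : ∀ g ∈ U, NearS g) {g : En d → En d} (hg : g ∈ U) {s : FrD d} (hs : IsFrD g s)
    {Z : Set (En d)} {b a : ℝ} {wT : Wd d} {k l : ℕ} (ht : TDD g s Z m b a wT k l) :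
    ∃ g' ∈ U, EqOffD Z g g' ∧ TDD g' s Z m b a wT k l ∧
      ∀ᶠ t : ℝ in 𝓝 0, (TTD g' s b k l ((0, t), 0)).1.2 = 0 := by
  have hN := hUN g hg
  obtain ⟨⟨O, hO, hO0, hTs, -, -⟩, hT0⟩ := tt_regularD hN hs ht
  obtain ⟨-, hd2, hd3⟩ := tt_derivD hN hs (by omega) ht
  have hα : (fderiv ℝ (TTD g s b k l) 0 ((0, 1), 0)).1.1 ≠ 0 := by
    intro h
    rw [h, zero_mul] at hd2
    linarith
  obtain ⟨Gh, O1, hO1, ha1, hGs, hGO, hGa, hG0⟩ := df01_core hO hO0 hTs hT0 hα ht.ord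
  obtain ⟨r, D, B, Li, hp⟩ := exists_placeD hN hs ht
  obtain ⟨ε, hε, hU'⟩ := hU g hg
  have hcen : (((a, 0), wT) : En d) ∈ Metric.ball (((a, 0), wT) : En d) r := Metric.mem_ball_self hp.r_pos
  have hGO' : (fun v => Gh v - v) =O[𝓝 (((a, 0), wT) : En d)] fun v => ‖v - ((a, 0), wT)‖ ^ (R + 2) := by
    refine hGO.trans ?_
    refine IsBigO.of_bound 1 ?_
    have h1 : ∀ᶠ v in 𝓝 (((a, 0), wT) : En d), v ∈ Metric.ball (((a, 0), wT) : En d) 1 :=
      Metric.ball_mem_nhds _ one_pos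
    filter_upwards [h1] with v hv
    have hv' : ‖v - ((a, 0), wT)‖ ≤ 1 := by
      rw [Metric.mem_ball, dist_eq_norm] at hv
      exact hv.le
    rw [one_mul, norm_pow, norm_pow, norm_norm]
    exact pow_le_pow_of_le_one (norm_nonneg _) hv' (by omega)
  obtain ⟨ψ, hψS, hψA, hψG, -⟩ := hp.flat hcen hO1 ha1 hGs hGO' hε (O := univ) univ_mem
  have h0B : (0 : En d) ∈ B := mem_of_mem_nhds hp.nhB
  have hev : ∀ᶠ t : ℝ in 𝓝 0, (TTD (ψ ∘ g) s b k l ((0, t), 0)).1.2 = 0 := by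
    have hcont : Continuous (fun t : ℝ => (((0, t), 0) : En d)) := by fun_prop
    have h1 : ∀ᶠ t : ℝ in 𝓝 0, (((0, t), 0) : En d) ∈ B :=
      hcont.continuousAt.eventually_mem hp.nhB
    have h2 : Tendsto (fun t : ℝ => TTD g s b k l ((0, t), 0)) (𝓝 0) (𝓝 (((a, 0), wT) : En d)) := by
      have h3 : ContinuousAt (TTD g s b k l) ((0, 0), 0) :=
        (hTs.contDiffAt (hO.mem_nhds hO0)).continuousAt
      have h4 : Tendsto (fun t : ℝ => TTD g s b k l ((0, t), 0)) (𝓝 0)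
          (𝓝 (TTD g s b k l ((0, 0), 0))) :=
        h3.tendsto.comp (hcont.tendsto 0)
      have h5 : TTD g s b k l ((0, 0), 0) = ((a, 0), wT) := hT0
      rwa [h5] at h4
    filter_upwards [h1, h2.eventually hψG, hG0] with t ht1 ht2 ht3
    rw [(hp.transition hN ht.subZ hψA ht1).1, ht2, ht3]
  refine ⟨ψ ∘ g, hU' ψ hψS, hp.eqOff hN ht.subZ hψA, ?_, hev⟩
  refine df00_td hN ht hp hψA (df00_fix hN hs ht hp hψA ?_) ?_
  · rw [hψG.self_of_nhds, hGa]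
  · refine IsBigO.of_bound 0 ?_
    filter_upwards [hev] with t ht1
    rw [ht1]
    simp

end Pool.Agent.Lib.H37D
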