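import Pool.Agent.Lib.H37D.DF00
import Pool.Agent.Lib.H37D.DP05

/-!
# H37D DF02: the slope of the logarithmic Jacobian along the arc (port of H37P/F02)
-/

open Set Filter Topology Asymptotics
open scoped ContDiff

namespace Pool.Agent.Lib.H37D

open Pool.Agent.Lib.H37N

variable {d : ℕ}

theorem flat_slopeD {R m : ℕ} (hm : 1 ≤ m) {U : Set (En d → En d)} (hU : PertOpenD R U)
    (hUN : ∀ g ∈ U, NearS g) {g : En d → En d} (hg : g ∈ U) {s : FrD d} (hs : IsFrD g s)
    {Z : Set (En d)} {b a : ℝ} {wT : Wd d} {k l : ℕ} (ht : TDD g s Z m b a wT k l)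
    (hfl : ∀ᶠ t : ℝ in 𝓝 0, (TTD g s b k l ((0, t), 0)).1.2 = 0) :
    ∃ g' ∈ U, EqOffD Z g g' ∧ TDD g' s Z m b a wT k l ∧
      (∀ᶠ t : ℝ in 𝓝 0, (TTD g' s b k l ((0, t), 0)).1.2 = 0) ∧
      deriv (fun t : ℝ => Real.log (df02_M (TTD g' s b k l) t)) 0 ≠ 0 := by
  have hN := hUN g hg
  by_cases hL : deriv (fun t : ℝ => Real.log (df02_M (TTD g s b k l) t)) 0 = 0
  swap
  · exact ⟨g, hg, fun _ _ _ => rfl, ht, hfl, hL⟩
  obtain ⟨⟨O, hO, h0, hc, -, -⟩, hTT0⟩ := tt_regularD hN hs ht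
  obtain ⟨α, hα, hX⟩ := df00_alpha hN hs hm ht
  obtain ⟨r, D, B, Li, hp⟩ := exists_placeD hN hs ht
  have hr := hp.r_pos
  obtain ⟨χ, hχ, -, hχs, -, hχ1⟩ := exists_cutoff (E := En d) (C := {(((a, 0), wT) : En d)})
    (O := Metric.ball (((a, 0), wT) : En d) (r / 2)) isCompact_singleton Metric.isOpen_ball
    (singleton_subset_iff.2 (Metric.mem_ball_self (by linarith)))
  rw [nhdsSet_singleton] at hχ1
  obtain ⟨ε, hε, hUε⟩ := hU g hg
  have hfam := PlaceD.family hp (P := ℝ)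
    (fun q : ℝ × En d => (((q.2.1.1, q.2.1.2 + q.2.1.2 * q.1 * (q.2.1.1 - a) * χ q.2), q.2.2) : En d))
    (by
      have h1 : ContDiff ℝ ∞ (fun q : ℝ × En d => χ q.2) := hχ.comp contDiff_snd
      fun_prop)
    (fun v => by
      refine Prod.ext (Prod.ext rfl ?_) rfl
      simp)
    (fun p v hv => by
      have : χ v = 0 := by
        by_contra hc
        exact hv (Metric.ball_subset_closedBall (hχs (subset_tsupport χ hc)))
      refine Prod.ext (Prod.ext rfl ?_) rfl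
      simp [this]) R hε
  obtain ⟨p, ⟨ψ, hSm, hAdm, hform⟩, hp0⟩ :=
    ((hfam.filter_mono (nhdsWithin_le_nhds (s := {(0 : ℝ)}ᶜ))).and self_mem_nhdsWithin).exists
  have hp0' : p ≠ 0 := hp0
  have hball : Metric.ball (((a, 0), wT) : En d) (r / 2) ⊆ Metric.ball (((a, 0), wT) : En d) r :=
    Metric.ball_subset_ball (by linarith)
  have hTTc : ContinuousAt (TTD g s b k l) 0 := (hc.contDiffAt (hO.mem_nhds h0)).continuousAt
  have hχt : ∀ᶠ v : En d in 𝓝 0, χ (TTD g s b k l v) = 1 := by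
    have hc : Tendsto (TTD g s b k l) (𝓝 0) (𝓝 ((a, 0), wT)) := by
      have h := hTTc.tendsto
      rwa [hTT0] at h
    exact hc.eventually hχ1
  have hTT' : ∀ᶠ v : En d in 𝓝 0, TTD (ψ ∘ g) s b k l v =
      (((TTD g s b k l v).1.1, (TTD g s b k l v).1.2 * (1 + p * ((TTD g s b k l v).1.1 - a))),
        (TTD g s b k l v).2) := by
    filter_upwards [hp.nhB, hχt] with v h1 h2
    rw [(PlaceD.transition hN ht.subZ hp hAdm h1).1, hform _ (hball (hp.TB _ h1))]
    simp only [h2, mul_one]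
    refine Prod.ext (Prod.ext rfl ?_) rfl
    simp only
    ring
  have hline : Tendsto (fun t : ℝ => (((0, t), 0) : En d)) (𝓝 0) (𝓝 0) :=
    df02_line.continuous.continuousAt
  have hev : ∀ᶠ t : ℝ in 𝓝 0, ∀ᶠ v : En d in 𝓝 ((0, t), 0), TTD (ψ ∘ g) s b k l v =
      (((TTD g s b k l v).1.1, (TTD g s b k l v).1.2 * (1 + p * ((TTD g s b k l v).1.1 - a))),
        (TTD g s b k l v).2) :=
    hline.eventually (eventually_eventually_nhds.mpr hTT')
  have hflat' : ∀ᶠ t : ℝ in 𝓝 0, (TTD (ψ ∘ g) s b k l ((0, t), 0)).1.2 = 0 := by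
    filter_upwards [hfl, hline.eventually hTT'] with t h1 h2
    rw [h2, h1, zero_mul]
  have hTd : ∀ᶠ t : ℝ in 𝓝 0, DifferentiableAt ℝ (TTD g s b k l) (((0, t), 0) : En d) := by
    filter_upwards [hline.eventually (hO.mem_nhds h0)] with t h1
    exact (hc.contDiffAt (hO.mem_nhds h1)).differentiableAt (by simp)
  -- the new Jacobian
  have hM' : df02_M (TTD (ψ ∘ g) s b k l) =ᶠ[𝓝 0] fun t : ℝ =>
      df02_M (TTD g s b k l) t * (1 + p * ((TTD g s b k l ((0, t), 0)).1.1 - a)) := by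
    filter_upwards [hev, hfl, hTd] with t h1 h2 h3
    have e1 : deriv (fun t : ℝ => (TTD (ψ ∘ g) s b k l ((0, t), 0)).1.1) t =
        deriv (fun t : ℝ => (TTD g s b k l ((0, t), 0)).1.1) t := by
      refine EventuallyEq.deriv_eq ?_
      filter_upwards [df02_line.continuous.continuousAt.eventually h1] with u hu
      rw [hu]
    have e2 : (fderiv ℝ (TTD (ψ ∘ g) s b k l) ((0, t), 0) ((1, 0), 0)).1.2 =
        (fderiv ℝ (TTD g s b k l) ((0, t), 0) ((1, 0), 0)).1.2 *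
          (1 + p * ((TTD g s b k l ((0, t), 0)).1.1 - a)) := by
      have d0 := h3.hasFDerivAt
      have d1 : HasFDerivAt (fun v : En d => (TTD g s b k l v).1.1)
          ((ContinuousLinearMap.fst ℝ ℝ ℝ).comp ((ContinuousLinearMap.fst ℝ Pt (Wd d)).comp
            (fderiv ℝ (TTD g s b k l) ((0, t), 0)))) ((0, t), 0) := d0.fst.fst
      have d2 : HasFDerivAt (fun v : En d => (TTD g s b k l v).1.2)
          ((ContinuousLinearMap.snd ℝ ℝ ℝ).comp ((ContinuousLinearMap.fst ℝ Pt (Wd d)).comp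
            (fderiv ℝ (TTD g s b k l) ((0, t), 0)))) ((0, t), 0) := d0.fst.snd
      have d3 := d2.mul (((d1.sub_const a).const_mul p).const_add 1)
      have d4 := ((d1.prodMk d3).prodMk d0.snd).congr_of_eventuallyEq h1
      rw [d4.fderiv]
      simp [h2, mul_comm]
    unfold df02_M
    rw [e1, e2]
    ring
  have hMd := df02_M_diff hO h0 hc
  have hM0 : 0 < df02_M (TTD g s b k l) 0 := by
    obtain ⟨-, h2, h3⟩ := tt_derivD hN hs hm ht
    unfold df02_M
    have e : deriv (fun t : ℝ => (TTD g s b k l ((0, t), 0)).1.1) 0 =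
        (fderiv ℝ (TTD g s b k l) 0 ((0, 1), 0)).1.1 :=
      (df02_deriv (t := 0) ((hc.contDiffAt (hO.mem_nhds h0)).differentiableAt (by simp))).deriv
    have e' : (((0, 0), 0) : En d) = 0 := rfl
    rw [e, e', h2, neg_neg]
    exact h3
  have ha : (TTD g s b k l (((0 : ℝ), (0 : ℝ)), 0)).1.1 = a := by
    have : TTD g s b k l (((0 : ℝ), (0 : ℝ)), 0) = TTD g s b k l 0 := rfl
    rw [this, hTT0]
  have hf : HasDerivAt (fun t : ℝ => 1 + p * ((TTD g s b k l ((0, t), 0)).1.1 - a)) (p * α) 0 :=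
    ((hX.sub_const a).const_mul p).const_add 1
  have hf0 : (1 : ℝ) + p * ((TTD g s b k l (((0 : ℝ), (0 : ℝ)), 0)).1.1 - a) = 1 := by
    rw [ha]
    ring
  refine ⟨ψ ∘ g, hUε ψ hSm, PlaceD.eqOff hN ht.subZ hp hAdm, ?_, hflat', ?_⟩
  · refine df00_td hN ht hp hAdm (df00_fix hN hs ht hp hAdm ?_) ?_
    · rw [hform _ (Metric.mem_ball_self hr)]
      refine Prod.ext (Prod.ext rfl ?_) rfl
      simp
    · have h1 : (fun t : ℝ => (TTD (ψ ∘ g) s b k l ((0, t), 0)).1.2) =ᶠ[𝓝 0] fun _ => (0 : ℝ) := hflat'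
      exact h1.trans_isBigO (isBigO_zero _ _)
  · have h1 : (fun t : ℝ => Real.log (df02_M (TTD (ψ ∘ g) s b k l) t)) =ᶠ[𝓝 0] fun t =>
        Real.log (df02_M (TTD g s b k l) t) +
          Real.log (1 + p * ((TTD g s b k l ((0, t), 0)).1.1 - a)) := by
      have hpos : (0 : ℝ) < (fun t : ℝ => 1 + p * ((TTD g s b k l ((0, t), 0)).1.1 - a)) 0 := by
        show (0 : ℝ) < 1 + p * ((TTD g s b k l (((0 : ℝ), (0 : ℝ)), 0)).1.1 - a)
        rw [hf0]
        exact one_pos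
      filter_upwards [hM', hMd.continuousAt.eventually (lt_mem_nhds hM0),
        hf.continuousAt.eventually (lt_mem_nhds hpos)] with t h1 h2 h3
      rw [h1, Real.log_mul h2.ne' h3.ne']
    have h3 : HasDerivAt (fun t : ℝ => Real.log (df02_M (TTD g s b k l) t)) 0 0 := by
      have := (hMd.log hM0.ne').hasDerivAt
      rwa [hL] at this
    have h4 : HasDerivAt (fun t : ℝ => Real.log (1 + p * ((TTD g s b k l ((0, t), 0)).1.1 - a)))
        (p * α) 0 := by
      have h := hf.log (by rw [hf0]; exact one_ne_zero)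
      rwa [hf0, div_one] at h
    have h5 : HasDerivAt (fun t : ℝ => Real.log (df02_M (TTD (ψ ∘ g) s b k l) t)) (p * α) 0 := by
      have h := (h3.add h4).congr_of_eventuallyEq h1
      rwa [zero_add] at h
    rw [h5.deriv]
    exact mul_ne_zero hp0' hα

end Pool.Agent.Lib.H37D
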