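import Pool.Agent.Lib.H37D.DP01
import Pool.Agent.Lib.H37D.DB10
import Pool.Agent.Lib.H37D.DB16
import Pool.Agent.Lib.H37P.P02

/-!
# H37D DP02 (M): local regularity of the maps of a tangency datum (port of H37P/P02.lean)

As in H37P/P02 with bijective derivatives instead of positive Jacobians (composition of bijections, chain rule) and the planar minor:
* the set of `v` with `Function.Bijective (fderiv ℝ f v)` is open where `f` is smooth (the units of the algebra of continuous linear maps are open; in finite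
  dimension bijective = unit; or: `inverse_fun` / `ContDiffAt` and the determinant of the linear map is a continuous function);
* `InD g s b k = g^[k] ∘ κQ ∘ shift`, `fderiv κQ` is bijective on `BxD` (`LinChartD.inv`), `fderiv g` along the orbit (`NearD.bij_Omd`), induction on `k`;
* `PlD g s l = cP ∘ g^[l]`; near `g z` the point `g^[l] w` is in the open set `κP '' BxD`, `g^[l] w = κP (PlD w)`, so `fderiv κP ∘ fderiv PlD = fderiv g^[l]` is
  bijective, and `fderiv κP` is bijective;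
* the planar minor: `TTD g s b k l v = cP (g^[k+1+l] (κ' v))` with `κ' v = κQ ((v.1.1, b + v.1.2), v.2)` (`Function.iterate_add_apply`), `quot_pjac` (DB16) with
  `n = k + 1 + l`, `κ := κ'` (its derivative at `v` is that of `κQ` at the shifted point, `sgn1`), `c := cP` (`sgn2`), at every `v` near `0` (all the points
  are in `Omd d`, and the last one is in `κP '' BxD`).
`tt_derivD`: as `tt_deriv` (the function `t ↦ (TTD ((0,t),0)).1.2` is `O(|t|^(m+1))`, so its derivative is `0`).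
-/

open Set Filter Topology Asymptotics
open scoped ContDiff

namespace Pool.Agent.Lib.H37D

open Pool.Agent.Lib.H37N

variable {d : ℕ}

theorem dp02_of_ev {P : En d → Prop} {z : En d} (h : ∀ᶠ v in 𝓝 z, P v) :
    ∃ O : Set (En d), IsOpen O ∧ z ∈ O ∧ ∀ v ∈ O, P v := by
  obtain ⟨O, h1, h2, h3⟩ := mem_nhds_iff.mp h
  exact ⟨O, h2, h3, fun v hv => h1 hv⟩

/-- bijectivity of the derivative is an open condition -/
theorem dp02_bij_ev {f : En d → En d} {v : En d} (hf : ContDiffAt ℝ ∞ f v)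
    (hb : Function.Bijective (fderiv ℝ f v)) :
    ∀ᶠ w in 𝓝 v, Function.Bijective (fderiv ℝ f w) := by
  obtain ⟨e, he⟩ : ∃ e : En d ≃L[ℝ] En d, (e : En d →L[ℝ] En d) = fderiv ℝ f v := by
    refine ⟨ContinuousLinearEquiv.ofBijective (fderiv ℝ f v) ?_ ?_, ?_⟩
    · exact LinearMap.ker_eq_bot.2 hb.1
    · exact LinearMap.range_eq_top.2 hb.2
    · exact ContinuousLinearEquiv.coe_ofBijective _ _ _
  have hcont : ContinuousAt (fderiv ℝ f) v := (hf.fderiv_right (m := ∞) (by simp)).continuousAt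
  have hinv : ∀ᶠ x in 𝓝 v, fderiv ℝ f x ∈
      range ((↑) : (En d ≃L[ℝ] En d) → En d →L[ℝ] En d) := by
    apply hcont.eventually
    rw [← he]
    exact ContinuousLinearEquiv.nhds e
  filter_upwards [hinv] with w hw
  obtain ⟨e', he'⟩ := hw
  rw [← he']
  exact e'.bijective

theorem dp02_comp {f h : En d → En d} {v : En d} (hf : DifferentiableAt ℝ f (h v))
    (hh : DifferentiableAt ℝ h v) :
    (fderiv ℝ (f ∘ h) v : En d → En d) = (fderiv ℝ f (h v)) ∘ (fderiv ℝ h v) := by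
  rw [fderiv_comp v hf hh]
  rfl

theorem dp02_bij_iter {g : En d → En d} (hN : NearD g) (n : ℕ) {z : En d}
    (hz : ∀ j < n, g^[j] z ∈ Omd d) : Function.Bijective (fderiv ℝ (g^[n]) z) := by
  induction n with
  | zero =>
    have : fderiv ℝ (g^[0]) z = ContinuousLinearMap.id ℝ (En d) := by
      simp only [Function.iterate_zero]
      exact fderiv_id
    rw [this]
    exact Function.bijective_id
  | succ n ih =>
    have hz' : ∀ j < n, g^[j] z ∈ Omd d := fun j hj => hz j (hj.trans (Nat.lt_succ_self n))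
    have hzn := hz n (Nat.lt_succ_self n)
    have h1 : DifferentiableAt ℝ (g^[n]) z :=
      (hN.iter_Omd n hz').self_of_nhds.1.differentiableAt (by simp)
    have h2 : DifferentiableAt ℝ g (g^[n] z) :=
      (hN.contDiffAt_Omd hzn).self_of_nhds.differentiableAt (by simp)
    rw [Function.iterate_succ', dp02_comp h2 h1]
    exact (hN.bij_Omd hzn).comp (ih hz')

/-- the shift in the chart -/
theorem dp02_shift (b : ℝ) : ContDiff ℝ ∞ (fun v : En d => (((v.1.1, b + v.1.2), v.2) : En d)) :=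
  ((contDiff_fst.comp contDiff_fst).prodMk
    (contDiff_const.add (contDiff_snd.comp contDiff_fst))).prodMk contDiff_snd

theorem dp02_dshift (b : ℝ) (v : En d) :
    HasFDerivAt (fun v : En d => (((v.1.1, b + v.1.2), v.2) : En d))
      (ContinuousLinearMap.id ℝ (En d)) v := by
  have e : (fun v : En d => (((v.1.1, b + v.1.2), v.2) : En d)) =
      fun v : En d => v + ((0, b), 0) := by
    funext v
    ext <;> simp [add_comm]
  rw [e]
  exact (hasFDerivAt_id v).add_const _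

theorem dp02_kd {κ : En d → En d} (hκ : ContDiff ℝ ∞ κ) (b : ℝ) (v : En d) :
    fderiv ℝ (fun v : En d => κ ((v.1.1, b + v.1.2), v.2)) v =
      fderiv ℝ κ ((v.1.1, b + v.1.2), v.2) := by
  have h1 : HasFDerivAt κ (fderiv ℝ κ ((v.1.1, b + v.1.2), v.2)) ((v.1.1, b + v.1.2), v.2) :=
    (hκ.differentiable (by simp) _).hasFDerivAt
  have h2 := HasFDerivAt.comp (g := κ) v h1 (dp02_dshift b v)
  rw [ContinuousLinearMap.comp_id] at h2
  exact h2.fderiv

theorem dp02_sub {Z : Set (En d)} (h : Z ⊆ interior (FFd d)) : VOD d ∪ Z ⊆ Omd d := by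
  rintro z (hz | hz)
  · exact VOD_sub_Omd hz
  · have h1 := h hz
    unfold FFd BW at h1
    rw [interior_prod_eq, interior_closedBall _ one_ne_zero] at h1
    exact ⟨Or.inr h1.1, h1.2⟩

theorem dp02_box {b : ℝ} (hb : |b| < 1) :
    ∀ᶠ v in 𝓝 (0 : En d), (((v.1.1, b + v.1.2), v.2) : En d) ∈ BxD d := by
  have hc : ContinuousAt (fun v : En d => (((v.1.1, b + v.1.2), v.2) : En d)) 0 :=
    (dp02_shift b).continuous.continuousAt
  refine hc.eventually_mem (isOpen_BxD.mem_nhds ?_)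
  rw [mem_BxD]
  simp
  linarith

theorem dp02_in {g : En d → En d} {s : FrD d} {Z : Set (En d)} {m : ℕ} {b a : ℝ} {wT : Wd d}
    {k l : ℕ} (hN : NearS g) (hs : IsFrD g s) (ht : TDD g s Z m b a wT k l) {i : ℕ} (hi : i ≤ k) :
    (∀ᶠ v in 𝓝 (0 : En d), ContDiffAt ℝ ∞ (InD g s b i) v ∧ InD g s b i v ∈ VOD d ∪ Z) ∧
      Function.Bijective (fderiv ℝ (InD g s b i) 0) := by
  have hc := hs.chart Sy.Q
  have hsm : ContDiff ℝ ∞ (fun v : En d => s.κ Sy.Q ((v.1.1, b + v.1.2), v.2)) :=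
    hc.smooth.comp (dp02_shift b)
  have hpath : ∀ j < i, g^[j] (s.κ Sy.Q (((0 : En d).1.1, b + (0 : En d).1.2), (0 : En d).2)) ∈
      Omd d := fun j hj => dp02_sub ht.subZ (ht.path1 j (hj.le.trans hi))
  have h1 := hN.toNearD.iter_Omd i hpath
  have hcont : ContinuousAt (fun v : En d => s.κ Sy.Q ((v.1.1, b + v.1.2), v.2)) 0 :=
    hsm.continuous.continuousAt
  have h2 : ∀ᶠ v in 𝓝 (0 : En d), ContDiffAt ℝ ∞ (InD g s b i) v := by
    filter_upwards [hcont.eventually h1] with v hv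
    exact ContDiffAt.comp v hv.1 hsm.contDiffAt
  refine ⟨?_, ?_⟩
  · have hmem : ∀ᶠ v in 𝓝 (0 : En d), InD g s b i v ∈ VOD d ∪ Z :=
      h2.self_of_nhds.continuousAt.eventually_mem
        ((isOpen_VOD.union ht.openZ).mem_nhds (ht.path1 i hi))
    exact h2.and hmem
  · have e : InD g s b i = g^[i] ∘ (fun v : En d => s.κ Sy.Q ((v.1.1, b + v.1.2), v.2)) := rfl
    have d1 : DifferentiableAt ℝ (g^[i]) ((fun v : En d => s.κ Sy.Q ((v.1.1, b + v.1.2), v.2)) 0) :=
      h1.self_of_nhds.1.differentiableAt (by simp)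
    have d2 : DifferentiableAt ℝ (fun v : En d => s.κ Sy.Q ((v.1.1, b + v.1.2), v.2)) 0 :=
      hsm.contDiffAt.differentiableAt (by simp)
    rw [e, dp02_comp (f := g^[i]) (h := fun v : En d => s.κ Sy.Q ((v.1.1, b + v.1.2), v.2)) d1 d2,
      dp02_kd hc.smooth]
    exact (dp02_bij_iter hN.toNearD i hpath).comp
      (hc.inv _ (dp02_box ht.b_lt).self_of_nhds)

theorem in_regularD {g : En d → En d} {s : FrD d} {Z : Set (En d)} {m : ℕ} {b a : ℝ} {wT : Wd d}
    {k l : ℕ} (hN : NearS g) (hs : IsFrD g s) (ht : TDD g s Z m b a wT k l) :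
    ∃ O : Set (En d), IsOpen O ∧ (0 : En d) ∈ O ∧ (∀ i ≤ k, ContDiffOn ℝ ∞ (InD g s b i) O) ∧
      (∀ v ∈ O, Function.Bijective (fderiv ℝ (InD g s b k) v)) ∧
      (∀ v ∈ O, ∀ i ≤ k, InD g s b i v ∈ VOD d ∪ Z) := by
  have h1 : ∀ᶠ v in 𝓝 (0 : En d), ∀ i ∈ Finset.range (k + 1),
      ContDiffAt ℝ ∞ (InD g s b i) v ∧ InD g s b i v ∈ VOD d ∪ Z := by
    rw [Filter.eventually_all_finset]
    intro i hi
    exact (dp02_in hN hs ht (Nat.lt_succ_iff.mp (Finset.mem_range.mp hi))).1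
  have hk := dp02_in hN hs ht (le_refl k)
  have h2 : ∀ᶠ v in 𝓝 (0 : En d), Function.Bijective (fderiv ℝ (InD g s b k) v) :=
    dp02_bij_ev hk.1.self_of_nhds.1 hk.2
  obtain ⟨O, hO, h0, h3⟩ := dp02_of_ev (h1.and h2)
  refine ⟨O, hO, h0, fun i hi v hv => ?_, fun v hv => (h3 v hv).2, fun v hv i hi => ?_⟩
  · exact ((h3 v hv).1 i (Finset.mem_range.mpr (Nat.lt_succ_iff.mpr hi))).1.contDiffWithinAt
  · exact ((h3 v hv).1 i (Finset.mem_range.mpr (Nat.lt_succ_iff.mpr hi))).2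

theorem dp02_a {g : En d → En d} {s : FrD d} {Z : Set (En d)} {m : ℕ} {b a : ℝ} {wT : Wd d}
    {k l : ℕ} (ht : TDD g s Z m b a wT k l) : (((a, 0), wT) : En d) ∈ BxD d := by
  rw [mem_BxD]
  refine ⟨⟨lt_trans ht.a_lt (by norm_num), by norm_num⟩, lt_trans ht.w_lt (by norm_num)⟩

theorem pl_regularD {g : En d → En d} {s : FrD d} {Z : Set (En d)} {m : ℕ} {b a : ℝ} {wT : Wd d}
    {k l : ℕ} (hN : NearS g) (hs : IsFrD g s) (ht : TDD g s Z m b a wT k l) :
    ∃ O : Set (En d), IsOpen O ∧ g (InD g s b k 0) ∈ O ∧ ContDiffOn ℝ ∞ (PlD g s l) O ∧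
      (∀ w ∈ O, Function.Bijective (fderiv ℝ (PlD g s l) w)) ∧
      (∀ w ∈ O, ∀ i ≤ l, g^[i] w ∈ VOD d) ∧
      (∀ w ∈ O, g^[l] w = s.κ Sy.P (PlD g s l w) ∧ PlD g s l w ∈ BxD d) := by
  have hc := hs.chart Sy.P
  have h1 := hN.toNearD.iter_VOD (l + 1) (z := g (InD g s b k 0)) fun j hj =>
    ht.path2 j (Nat.lt_succ_iff.mp hj)
  have h1' := hN.toNearD.iter_VOD l (z := g (InD g s b k 0)) fun j hj => ht.path2 j hj.le
  have hev : ∀ᶠ w in 𝓝 (g (InD g s b k 0)), g^[l] w ∈ s.κ Sy.P '' BxD d := by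
    refine h1'.self_of_nhds.1.continuousAt.eventually_mem (hc.isOpen.mem_nhds ?_)
    rw [ht.fin]
    exact mem_image_of_mem _ (dp02_a ht)
  obtain ⟨O, hO, h0, h3⟩ := dp02_of_ev ((h1.and h1').and hev)
  have hland : ∀ w ∈ O, g^[l] w = s.κ Sy.P (PlD g s l w) ∧ PlD g s l w ∈ BxD d := by
    intro w hw
    obtain ⟨v, hv, hv'⟩ := (h3 w hw).2
    have e : PlD g s l w = v := by
      unfold PlD
      rw [← hv', hc.left v hv]
    rw [e]
    exact ⟨hv'.symm, hv⟩
  have hsm : ∀ w ∈ O, ContDiffAt ℝ ∞ (PlD g s l) w := fun w hw =>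
    hc.smooth_c.contDiffAt.comp w (h3 w hw).1.2.1
  refine ⟨O, hO, h0, fun w hw => (hsm w hw).contDiffWithinAt, fun w hw => ?_, fun w hw i hi => ?_,
    hland⟩
  · have e : (g^[l]) =ᶠ[𝓝 w] (s.κ Sy.P ∘ PlD g s l) := by
      filter_upwards [hO.mem_nhds hw] with w' hw'
      exact (hland w' hw').1
    have h4 : Function.Bijective (fderiv ℝ (g^[l]) w) :=
      dp02_bij_iter hN.toNearD l fun j hj => VOD_sub_Omd ((h3 w hw).1.2.2 j hj)
    rw [e.fderiv_eq, dp02_comp (hc.smooth.contDiffAt.differentiableAt (by simp))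
      ((hsm w hw).differentiableAt (by simp))] at h4
    exact (Function.Bijective.of_comp_iff' (hc.inv _ (hland w hw).2) _).1 h4
  · exact (h3 w hw).1.1.2 i (Nat.lt_succ_iff.mpr hi)

theorem tt_regularD {g : En d → En d} {s : FrD d} {Z : Set (En d)} {m : ℕ} {b a : ℝ} {wT : Wd d}
    {k l : ℕ} (hN : NearS g) (hs : IsFrD g s) (ht : TDD g s Z m b a wT k l) :
    (∃ O : Set (En d), IsOpen O ∧ (0 : En d) ∈ O ∧ ContDiffOn ℝ ∞ (TTD g s b k l) O ∧
      (∀ v ∈ O, Function.Bijective (fderiv ℝ (TTD g s b k l) v)) ∧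
      ∀ v ∈ O, 0 < pjac (TTD g s b k l) v) ∧ TTD g s b k l 0 = ((a, 0), wT) := by
  refine ⟨?_, ?_⟩
  · obtain ⟨O1, hO1, h01, hs1, hj1, hm1⟩ := in_regularD hN hs ht
    obtain ⟨O2, hO2, h02, hs2, hj2, hm2, hl2⟩ := pl_regularD hN hs ht
    have hInC : ∀ v ∈ O1, ContDiffAt ℝ ∞ (InD g s b k) v := fun v hv =>
      (hs1 k le_rfl).contDiffAt (hO1.mem_nhds hv)
    have hgC : ∀ v ∈ O1, ContDiffAt ℝ ∞ g (InD g s b k v) := fun v hv =>
      (hN.toNearD.contDiffAt_Omd (dp02_sub ht.subZ (hm1 v hv k le_rfl))).self_of_nhds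
    have hgI : ∀ v ∈ O1, ContDiffAt ℝ ∞ (fun v => g (InD g s b k v)) v := fun v hv =>
      (hgC v hv).comp v (hInC v hv)
    have hev : ∀ᶠ v in 𝓝 (0 : En d), v ∈ O1 ∧ g (InD g s b k v) ∈ O2 :=
      (hO1.eventually_mem h01).and ((hgI 0 h01).continuousAt.eventually_mem (hO2.mem_nhds h02))
    obtain ⟨O, hO, h0, h3⟩ := dp02_of_ev (hev.and (dp02_box ht.b_lt))
    refine ⟨O, hO, h0, fun v hv => ?_, fun v hv => ?_, fun v hv => ?_⟩
    · obtain ⟨⟨h4, h5⟩, -⟩ := h3 v hv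
      exact (((hs2.contDiffAt (hO2.mem_nhds h5))).comp v (hgI v h4)).contDiffWithinAt
    · obtain ⟨⟨h4, h5⟩, -⟩ := h3 v hv
      have e : TTD g s b k l = PlD g s l ∘ (g ∘ InD g s b k) := rfl
      have hd2 : DifferentiableAt ℝ (PlD g s l) ((g ∘ InD g s b k) v) :=
        (hs2.contDiffAt (hO2.mem_nhds h5)).differentiableAt (by simp)
      have hd1 : DifferentiableAt ℝ (g ∘ InD g s b k) v := (hgI v h4).differentiableAt (by simp)
      rw [e, dp02_comp hd2 hd1, dp02_comp ((hgC v h4).differentiableAt (by simp))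
        ((hInC v h4).differentiableAt (by simp))]
      exact (hj2 _ h5).comp ((hN.toNearD.bij_Omd (dp02_sub ht.subZ (hm1 v h4 k le_rfl))).comp
        (hj1 v h4))
    · obtain ⟨⟨h4, h5⟩, h6⟩ := h3 v hv
      have hcP := hs.chart Sy.P
      have hcQ := hs.chart Sy.Q
      have hit : ∀ i v', g^[i + (k + 1)] (s.κ Sy.Q ((v'.1.1, b + v'.1.2), v'.2)) =
          g^[i] (g (InD g s b k v')) := by
        intro i v'
        rw [Function.iterate_add_apply, Function.iterate_succ_apply']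
        rfl
      have e : TTD g s b k l = fun v' => s.c Sy.P (g^[l + (k + 1)]
          ((fun v : En d => s.κ Sy.Q ((v.1.1, b + v.1.2), v.2)) v')) := by
        funext v'
        show s.c Sy.P (g^[l] (g (InD g s b k v'))) = _
        rw [← hit]
      rw [e]
      have hz : g^[l + (k + 1)] ((fun v : En d => s.κ Sy.Q ((v.1.1, b + v.1.2), v.2)) v) =
          s.κ Sy.P (PlD g s l (g (InD g s b k v))) := by
        show g^[l + (k + 1)] (s.κ Sy.Q ((v.1.1, b + v.1.2), v.2)) = _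
        rw [hit]
        exact (hl2 _ h5).1
      refine quot_pjac hN.toNearD
        ((hcQ.smooth.comp (dp02_shift b)).contDiffAt.differentiableAt (by simp)) ?_ ?_
        (hcP.smooth_c.contDiffAt.differentiableAt (by simp)) ?_
      · intro s' hs'
        rw [dp02_kd hcQ.smooth]
        exact hcQ.sgn1 _ h6 s' hs'
      · intro j hj
        show g^[j] (s.κ Sy.Q ((v.1.1, b + v.1.2), v.2)) ∈ Omd d
        rcases Nat.lt_or_ge j (k + 1) with h7 | h7
        · exact dp02_sub ht.subZ (hm1 v h4 j (Nat.lt_succ_iff.mp h7))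
        · obtain ⟨i, rfl⟩ := Nat.exists_eq_add_of_le h7
          rw [add_comm (k + 1) i, hit]
          exact VOD_sub_Omd (hm2 _ h5 i (by omega))
      · rw [hz]
        exact hcP.sgn2 _ (mem_image_of_mem _ (hl2 _ h5).2)
  · unfold TTD PlD
    rw [ht.fin, (hs.chart Sy.P).left _ (dp02_a ht)]

/-- the derivatives at the tangency -/
theorem tt_derivD {g : En d → En d} {s : FrD d} {Z : Set (En d)} {m : ℕ} {b a : ℝ} {wT : Wd d}
    {k l : ℕ} (hN : NearS g) (hs : IsFrD g s) (hm : 1 ≤ m) (ht : TDD g s Z m b a wT k l) :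
    (fderiv ℝ (TTD g s b k l) 0 ((0, 1), 0)).1.2 = 0 ∧
    (fderiv ℝ (TTD g s b k l) 0 ((0, 1), 0)).1.1 * (fderiv ℝ (TTD g s b k l) 0 ((1, 0), 0)).1.2 =
      -pjac (TTD g s b k l) 0 ∧ 0 < pjac (TTD g s b k l) 0 := by
  obtain ⟨⟨O, hO, h0, hc, -, hj⟩, hTT0⟩ := tt_regularD hN hs ht
  have hd : DifferentiableAt ℝ (TTD g s b k l) 0 :=
    (hc.contDiffAt (hO.mem_nhds h0)).differentiableAt (by simp)
  have hline : HasDerivAt (fun t : ℝ => (((0 : ℝ), t), (0 : Wd d))) (((0 : ℝ), (1 : ℝ)), 0) 0 :=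
    ((hasDerivAt_const (0 : ℝ) (0 : ℝ)).prodMk (hasDerivAt_id (0 : ℝ))).prodMk
      (hasDerivAt_const (0 : ℝ) (0 : Wd d))
  have h1 : HasDerivAt (fun t : ℝ => TTD g s b k l ((0, t), 0))
      (fderiv ℝ (TTD g s b k l) 0 ((0, 1), 0)) 0 := by
    have h : HasFDerivAt (TTD g s b k l) (fderiv ℝ (TTD g s b k l) 0)
      (((0 : ℝ), (0 : ℝ)), (0 : Wd d)) := hd.hasFDerivAt
    generalize TTD g s b k l = T at h
    exact HasFDerivAt.comp_hasDerivAt (l := T)
      (f := fun t : ℝ => (((0 : ℝ), t), (0 : Wd d))) (0 : ℝ) h hline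
  have h2 : HasDerivAt (fun t : ℝ => (TTD g s b k l ((0, t), 0)).1.2)
      (fderiv ℝ (TTD g s b k l) 0 ((0, 1), 0)).1.2 0 := h1.fst.snd
  have h3 : HasDerivAt (fun t : ℝ => (TTD g s b k l ((0, t), 0)).1.2) 0 0 := by
    rw [hasDerivAt_iff_isLittleO]
    have e0 : (TTD g s b k l ((0, (0 : ℝ)), 0)).1.2 = 0 := by
      have : TTD g s b k l ((0, (0 : ℝ)), 0) = TTD g s b k l 0 := rfl
      rw [this, hTT0]
    simp only [e0, sub_zero, smul_zero]
    refine ht.ord.trans_isLittleO ?_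
    have h4 : (fun t : ℝ => t ^ (m + 1)) =o[𝓝 0] fun t : ℝ => t ^ 1 :=
      isLittleO_pow_pow (by omega)
    simp only [pow_one] at h4
    refine IsLittleO.congr' (h4.norm_left) ?_ (Eventually.of_forall fun _ => rfl)
    exact Eventually.of_forall fun t => by simp [Real.norm_eq_abs]
  have h5 : (fderiv ℝ (TTD g s b k l) 0 ((0, 1), 0)).1.2 = 0 := h2.unique h3
  refine ⟨h5, ?_, hj 0 h0⟩
  unfold pjac planar
  rw [h5]
  ring

end Pool.Agent.Lib.H37D
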