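import Pool.Agent.Lib.H37D.DF03c
import Pool.Agent.Lib.H37D.DF01c
import Pool.Agent.Lib.H37D.DP02

/-!
# H37D DF03: the local form near a flat arc
-/

open Set Filter Topology Asymptotics
open scoped ContDiff

namespace Pool.Agent.Lib.H37D

open Pool.Agent.Lib.H37N

variable {d : ℕ}

theorem exists_flatD {g : En d → En d} {s : FrD d} {Z : Set (En d)} {m : ℕ} {b a : ℝ} {wT : Wd d}
    {k l : ℕ} (hN : NearS g) (hs : IsFrD g s) (hm : 1 ≤ m) (ht : TDD g s Z m b a wT k l)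
    (hfl : ∀ᶠ t : ℝ in 𝓝 0, (TTD g s b k l ((0, t), 0)).1.2 = 0) :
    ∃ (A : En d → ℝ) (Aw : En d → Wd d) (Nn : (ℝ × Wd d) × ℝ → ℝ) (Mh : (ℝ × Wd d) × En d → ℝ)
      (Mw : (ℝ × Wd d) × En d → (Wd d →L[ℝ] ℝ)) (rF : ℝ), FlatD g s b a wT k l A Aw Nn Mh Mw rF ∧
      ∀ᶠ t : ℝ in 𝓝 0, hGD A Mh t = df02_M (TTD g s b k l) t := by
  obtain ⟨⟨O, hO, h0O, hTO, -, -⟩, hT0⟩ := tt_regularD hN hs ht
  obtain ⟨-, hd2, hjac⟩ := tt_derivD hN hs hm ht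
  have hTev : ∀ᶠ v in 𝓝 (0 : En d), ContDiffAt ℝ ∞ (TTD g s b k l) v := by
    filter_upwards [hO.mem_nhds h0O] with v hv
    exact hTO.contDiffAt (hO.mem_nhds hv)
  obtain ⟨A, Aw, Nn, Mh, Mw, r, hr, h1, h2, h3, h4, h5, h6, h7, h8, h9, h10, h11, h12, h13⟩ :=
    df03_core hTev hT0 (by rw [hd2]; linarith) hfl
  refine ⟨A, Aw, Nn, Mh, Mw, r, ⟨hr, h1, h2, h3, h4, h5, h6, h7, h8, h9, h10, h11, h12⟩, ?_⟩
  filter_upwards [h13] with t ht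
  unfold hGD df02_M
  rw [ht]

end Pool.Agent.Lib.H37D
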