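import Pool.Agent.Lib.H37D.FDefs
import Pool.Agent.Lib.H37N.T10b
import Pool.Agent.Lib.H37N.T2
import Pool.Agent.Lib.H37N.T3

/-!
# H37D DF03c: the local form near a flat arc (pure part)

As H37P/F03. Parameters `p = (ξ0, w0)`.
-/

open Set Filter Topology Asymptotics
open scoped ContDiff

namespace Pool.Agent.Lib.H37D

open Pool.Agent.Lib.H37N

variable {d : ℕ}

theorem df03_vert {H : En d → En d} {x y : ℝ} {w : Wd d} (h : DifferentiableAt ℝ H ((x, y), w)) :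
    HasDerivAt (fun t : ℝ => (H ((x, t), w)).1.1) (fderiv ℝ H ((x, y), w) ((0, 1), 0)).1.1 y := by
  have h1 : HasDerivAt (fun t : ℝ => (((x, t), w) : En d)) ((0, 1), 0) y :=
    ((hasDerivAt_const y x).prodMk (hasDerivAt_id y)).prodMk (hasDerivAt_const y w)
  have h2 : HasDerivAt (fun t : ℝ => H ((x, t), w)) (fderiv ℝ H ((x, y), w) ((0, 1), 0)) y :=
    h.hasFDerivAt.comp_hasDerivAt y h1
  exact ((ContinuousLinearMap.fst ℝ ℝ ℝ).comp (ContinuousLinearMap.fst ℝ Pt (Wd d))).hasFDerivAt.comp_hasDerivAt y h2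

theorem df03_core {T : En d → En d} {a : ℝ} {wT : Wd d} (hTev : ∀ᶠ v in 𝓝 (0 : En d), ContDiffAt ℝ ∞ T v)
    (hT0 : T 0 = ((a, 0), wT))
    (hd2 : (fderiv ℝ T 0 ((0, 1), 0)).1.1 * (fderiv ℝ T 0 ((1, 0), 0)).1.2 < 0)
    (hfl : ∀ᶠ t : ℝ in 𝓝 0, (T ((0, t), 0)).1.2 = 0) :
    ∃ (A : En d → ℝ) (Aw : En d → Wd d) (Nn : (ℝ × Wd d) × ℝ → ℝ) (Mh : (ℝ × Wd d) × En d → ℝ)
      (Mw : (ℝ × Wd d) × En d → (Wd d →L[ℝ] ℝ)) (r : ℝ), 0 < r ∧ ContDiff ℝ ∞ A ∧ ContDiff ℝ ∞ Aw ∧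
      ContDiff ℝ ∞ Nn ∧ ContDiff ℝ ∞ Mh ∧ ContDiff ℝ ∞ Mw ∧
      (∀ v : En d, ‖v‖ < r → (T v).1.1 = a + A v) ∧ (∀ v : En d, ‖v‖ < r → (T v).2 = wT + Aw v) ∧
      (∀ (ξ0 ζ t : ℝ) (w0 η : Wd d), |ξ0| < r → |ζ| < r → |t| < r → ‖w0‖ < r → ‖η‖ < r →
        (T ((ξ0 + ζ, t), w0 + η)).1.2 = Nn ((ξ0, w0), a + A ((ξ0 + ζ, t), w0 + η)) +
          ζ * Mh ((ξ0, w0), ((ζ, t), η)) + Mw ((ξ0, w0), ((ζ, t), η)) η) ∧
      (∀ X : ℝ, |X - a| < r → Nn ((0, 0), X) = 0) ∧ A ((0, 0), 0) = 0 ∧ Aw ((0, 0), 0) = 0 ∧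
      deriv (fun t => A ((0, t), 0)) 0 * Mh ((0, 0), ((0, 0), 0)) < 0 ∧
      ∀ᶠ t : ℝ in 𝓝 0, deriv (fun t => A ((0, t), 0)) t * Mh ((0, 0), ((0, t), 0)) =
        deriv (fun t : ℝ => (T ((0, t), 0)).1.1) t * (fderiv ℝ T ((0, t), 0) ((1, 0), 0)).1.2 := by
  obtain ⟨Tg, hTg, hTgeq⟩ := localise_at hTev
  have hTgd : Differentiable ℝ Tg := hTg.differentiable (by simp)
  have hTg0 : Tg ((0, 0), 0) = ((a, 0), wT) := by
    have h1 : Tg 0 = T 0 := hTgeq.eq_of_nhds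
    rw [hT0] at h1
    exact h1
  set A : En d → ℝ := fun v => (Tg v).1.1 - a with hA
  set Aw : En d → Wd d := fun v => (Tg v).2 - wT with hAw
  set Y : En d → ℝ := fun v => (Tg v).1.2 with hY
  have hAs : ContDiff ℝ ∞ A := (contDiff_fst.comp (contDiff_fst.comp hTg)).sub contDiff_const
  have hAws : ContDiff ℝ ∞ Aw := (contDiff_snd.comp hTg).sub contDiff_const
  have hYs : ContDiff ℝ ∞ Y := contDiff_snd.comp (contDiff_fst.comp hTg)
  have hA0 : A ((0, 0), 0) = 0 := by simp [hA, hTg0]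
  have hAw0 : Aw ((0, 0), 0) = 0 := by simp [hAw, hTg0]
  -- vertical line through zero
  have hvert : Tendsto (fun t : ℝ => (((0, t), 0) : En d)) (𝓝 0) (𝓝 (0 : En d)) := by
    have h1 : Continuous (fun t : ℝ => (((0, t), 0) : En d)) := by fun_prop
    exact h1.tendsto 0
  have hY0 : ∀ᶠ t : ℝ in 𝓝 0, Y ((0, t), 0) = 0 := by
    filter_upwards [hfl, hvert.eventually hTgeq] with t h1 h2
    show (Tg ((0, t), 0)).1.2 = 0
    rw [h2, h1]
  -- derivatives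
  have hfd : ∀ᶠ v in 𝓝 (0 : En d), Tg =ᶠ[𝓝 v] T := hTgeq.eventuallyEq_nhds
  have hfd0 : fderiv ℝ Tg ((0, 0), 0) = fderiv ℝ T 0 := (hfd.self_of_nhds).fderiv_eq
  have hdA : ∀ t : ℝ, HasDerivAt (fun t : ℝ => A ((0, t), 0))
      (fderiv ℝ Tg ((0, t), 0) ((0, 1), 0)).1.1 t := by
    intro t
    exact (df03_vert (hTgd ((0, t), 0))).sub_const a
  have hdA0 : deriv (fun t : ℝ => A ((0, t), 0)) 0 ≠ 0 := by
    rw [(hdA 0).deriv, hfd0]
    intro h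
    rw [h, zero_mul] at hd2
    exact lt_irrefl _ hd2
  -- the implicit function
  set F : (ℝ × Wd d) × ℝ → ℝ := fun q => a + A ((q.1.1, q.2), q.1.2) with hF
  have hFs : ContDiff ℝ ∞ F := by
    have h1 : ContDiff ℝ ∞ (fun q : (ℝ × Wd d) × ℝ => (((q.1.1, q.2), q.1.2) : En d)) := by fun_prop
    exact contDiff_const.add (hAs.comp h1)
  obtain ⟨θ, hθ, hθ0, hθ1, hθ2⟩ := inverse_param (F := F) (p₀ := ((0 : ℝ), (0 : Wd d))) (t₀ := (0 : ℝ))
    (Eventually.of_forall fun q => hFs.contDiffAt) (by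
      have h1 : HasDerivAt (fun t : ℝ => F (((0 : ℝ), (0 : Wd d)), t)) _ 0 := (hdA 0).const_add a
      rw [h1.deriv, ← (hdA 0).deriv]
      exact hdA0)
  have hF0 : F (((0 : ℝ), (0 : Wd d)), 0) = a := by
    show a + A ((0, 0), 0) = a
    rw [hA0, add_zero]
  rw [hF0] at hθ0 hθ2
  set Nn : (ℝ × Wd d) × ℝ → ℝ := fun q => Y ((q.1.1, θ q), q.1.2) with hNn
  have hNs : ContDiff ℝ ∞ Nn := by
    have h1 : ContDiff ℝ ∞ (fun q : (ℝ × Wd d) × ℝ => (((q.1.1, θ q), q.1.2) : En d)) :=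
      ((contDiff_fst.comp contDiff_fst).prodMk hθ).prodMk (contDiff_snd.comp contDiff_fst)
    exact hYs.comp h1
  have hN0 : ∀ᶠ X : ℝ in 𝓝 a, Nn ((0, 0), X) = 0 := by
    have h1 : Tendsto (fun X : ℝ => θ ((0, 0), X)) (𝓝 a) (𝓝 0) := by
      have h2 : Continuous (fun X : ℝ => θ ((0, 0), X)) := hθ.continuous.comp (by fun_prop)
      have h3 := h2.tendsto a
      rwa [hθ0] at h3
    filter_upwards [h1.eventually hY0] with X hX
    exact hX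
  -- the remainder
  set M : ((ℝ × Wd d) × ℝ) × (ℝ × Wd d) → ℝ := fun q =>
    Y ((q.1.1.1 + q.2.1, q.1.2), q.1.1.2 + q.2.2) -
      Nn (q.1.1, a + A ((q.1.1.1 + q.2.1, q.1.2), q.1.1.2 + q.2.2)) with hM
  have hMs : ContDiff ℝ ∞ M := by
    have h1 : ContDiff ℝ ∞ (fun q : ((ℝ × Wd d) × ℝ) × (ℝ × Wd d) =>
        (((q.1.1.1 + q.2.1, q.1.2), q.1.1.2 + q.2.2) : En d)) := by fun_prop
    have h2 : ContDiff ℝ ∞ (fun q : ((ℝ × Wd d) × ℝ) × (ℝ × Wd d) => q.1.1) := by fun_prop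
    exact (hYs.comp h1).sub (hNs.comp (h2.prodMk (contDiff_const.add (hAs.comp h1))))
  obtain ⟨G, hG, hG1, hG2⟩ := hadamard hMs
  have hM0 : ∀ᶠ p : (ℝ × Wd d) × ℝ in 𝓝 ((0, 0), 0), M (p, 0) = 0 := by
    filter_upwards [hθ1] with p hp
    show Y ((p.1.1 + 0, p.2), p.1.2 + 0) -
      Y ((p.1.1, θ (p.1, a + A ((p.1.1 + 0, p.2), p.1.2 + 0))), p.1.2) = 0
    have h1 : θ (p.1, a + A ((p.1.1, p.2), p.1.2)) = p.2 := hp
    rw [add_zero, add_zero, h1, sub_self]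
  set arg : (ℝ × Wd d) × En d → ((ℝ × Wd d) × ℝ) × (ℝ × Wd d) := fun q =>
    ((q.1, q.2.1.2), (q.2.1.1, q.2.2)) with harg
  have hargs : ContDiff ℝ ∞ arg := by
    rw [harg]
    fun_prop
  set Mh : (ℝ × Wd d) × En d → ℝ := fun q => G (arg q) (1, 0) with hMh
  set Mw : (ℝ × Wd d) × En d → (Wd d →L[ℝ] ℝ) := fun q =>
    (G (arg q)).comp (ContinuousLinearMap.inr ℝ ℝ (Wd d)) with hMw
  have hMhs : ContDiff ℝ ∞ Mh := (hG.comp hargs).clm_apply contDiff_const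
  have hMws : ContDiff ℝ ∞ Mw := (hG.comp hargs).clm_comp contDiff_const
  -- the value of Mh on the arc
  have hMh0 : ∀ᶠ t : ℝ in 𝓝 0, Mh ((0, 0), ((0, t), 0)) = (fderiv ℝ Tg ((0, t), 0) ((1, 0), 0)).1.2 := by
    have hat : Tendsto (fun t : ℝ => a + A ((0, t), 0)) (𝓝 0) (𝓝 a) := by
      have h2 : Continuous (fun t : ℝ => a + A ((0, t), 0)) := by
        have := hAs.continuous
        fun_prop
      have h3 := h2.tendsto 0
      simp only [hA0, add_zero] at h3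
      exact h3
    filter_upwards [hat.eventually hN0.eventually_nhds] with t h1
    show G ((((0 : ℝ), (0 : Wd d)), t), (0, 0)) (1, 0) = _
    have e0 : ((0 : ℝ), (0 : Wd d)) = 0 := rfl
    rw [show (((((0 : ℝ), (0 : Wd d)), t), ((0 : ℝ), (0 : Wd d))) : ((ℝ × Wd d) × ℝ) × (ℝ × Wd d)) =
      ((((0 : ℝ), (0 : Wd d)), t), 0) from rfl, hG2 (((0 : ℝ), (0 : Wd d)), t)]
    have h2 : (fun v : ℝ × Wd d => M ((((0 : ℝ), (0 : Wd d)), t), v)) =ᶠ[𝓝 0]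
        fun v : ℝ × Wd d => (Tg ((v.1, t), v.2)).1.2 := by
      have h3 : Tendsto (fun v : ℝ × Wd d => a + A ((v.1, t), v.2)) (𝓝 0) (𝓝 (a + A ((0, t), 0))) := by
        have h4 : Continuous (fun v : ℝ × Wd d => a + A ((v.1, t), v.2)) := by
          have := hAs.continuous
          fun_prop
        exact h4.tendsto 0
      filter_upwards [h3.eventually h1] with v hv
      show Y ((0 + v.1, t), 0 + v.2) - Nn (((0 : ℝ), (0 : Wd d)), a + A ((0 + v.1, t), 0 + v.2)) =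
        (Tg ((v.1, t), v.2)).1.2
      rw [zero_add, zero_add, hv, sub_zero]
    rw [h2.fderiv_eq]
    have h5 : HasFDerivAt (fun v : ℝ × Wd d => (((v.1, t), v.2) : En d))
        (((ContinuousLinearMap.fst ℝ ℝ (Wd d)).prod 0).prod (ContinuousLinearMap.snd ℝ ℝ (Wd d))) 0 :=
      ((hasFDerivAt_fst).prodMk (hasFDerivAt_const _ _)).prodMk hasFDerivAt_snd
    have h6 : HasFDerivAt Tg (fderiv ℝ Tg ((0, t), 0)) ((fun v : ℝ × Wd d => (((v.1, t), v.2) : En d)) 0) :=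
      (hTgd ((0, t), 0)).hasFDerivAt
    have h7 := (h6.comp (0 : ℝ × Wd d) h5).fst.snd
    have h8 : HasFDerivAt (fun v : ℝ × Wd d => (Tg ((v.1, t), v.2)).1.2) _ 0 := h7
    rw [h8.fderiv]
    simp
  -- the radius
  obtain ⟨r1, hr1, H1⟩ := Metric.eventually_nhds_iff.1 hTgeq
  obtain ⟨r2, hr2, H2⟩ := Metric.eventually_nhds_iff.1 hM0
  obtain ⟨r3, hr3, H3⟩ := Metric.eventually_nhds_iff.1 hN0
  have hpos : 0 < min (r1 / 2) (min r2 r3) := lt_min (half_pos hr1) (lt_min hr2 hr3)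
  refine ⟨A, Aw, Nn, Mh, Mw, min (r1 / 2) (min r2 r3), hpos, hAs, hAws, hNs, hMhs, hMws, ?_, ?_, ?_, ?_,
    hA0, hAw0, ?_, ?_⟩
  · intro v hv
    have h3 : dist v 0 < r1 := by
      rw [dist_zero_right]
      linarith [(lt_min_iff.1 hv).1]
    have h4 := H1 h3
    show (T v).1.1 = a + ((Tg v).1.1 - a)
    rw [h4]
    ring
  · intro v hv
    have h3 : dist v 0 < r1 := by
      rw [dist_zero_right]
      linarith [(lt_min_iff.1 hv).1]
    have h4 := H1 h3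
    show (T v).2 = wT + ((Tg v).2 - wT)
    rw [h4]
    abel
  · intro ξ0 ζ t w0 η h0 hζ ht hw hη
    obtain ⟨h01, h02⟩ := lt_min_iff.1 h0
    obtain ⟨h11, h12⟩ := lt_min_iff.1 hζ
    obtain ⟨h21, h22⟩ := lt_min_iff.1 ht
    obtain ⟨h31, h32⟩ := lt_min_iff.1 hw
    obtain ⟨h41, h42⟩ := lt_min_iff.1 hη
    have h1 : |ξ0 + ζ| < r1 := by
      have := abs_add_le ξ0 ζ
      linarith
    have h2 : |t| < r1 := by linarith
    have h2' : ‖w0 + η‖ < r1 := by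
      have := norm_add_le w0 η
      linarith
    have h3 : dist (((ξ0 + ζ, t), w0 + η) : En d) 0 < r1 := by
      rw [dist_zero_right, Prod.norm_def, Prod.norm_def]
      exact max_lt (max_lt h1 h2) h2'
    have h4 := H1 h3
    have h5 : dist (((ξ0, w0), t) : (ℝ × Wd d) × ℝ) ((0, 0), 0) < r2 := by
      rw [show (((0, 0), 0) : (ℝ × Wd d) × ℝ) = 0 from rfl, dist_zero_right, Prod.norm_def, Prod.norm_def]
      exact max_lt (max_lt (lt_min_iff.1 h02).1 (lt_min_iff.1 h32).1) (lt_min_iff.1 h22).1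
    have h6 := H2 h5
    have h7 := hG1 ((ξ0, w0), t) (ζ, η)
    rw [h6, zero_add] at h7
    have h8 : M (((ξ0, w0), t), (ζ, η)) = Y ((ξ0 + ζ, t), w0 + η) -
      Nn ((ξ0, w0), a + A ((ξ0 + ζ, t), w0 + η)) := rfl
    rw [h8] at h7
    have h9 : G (((ξ0, w0), t), (ζ, η)) (ζ, η) = ζ * G (((ξ0, w0), t), (ζ, η)) (1, 0) +
        G (((ξ0, w0), t), (ζ, η)) (0, η) := by
      have e : ((ζ, η) : ℝ × Wd d) = ζ • ((1 : ℝ), (0 : Wd d)) + ((0 : ℝ), η) := by simp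
      conv_lhs => rw [e]
      rw [map_add, map_smul, smul_eq_mul]
      rw [← e]
    rw [h9] at h7
    rw [← h4]
    show Y ((ξ0 + ζ, t), w0 + η) = Nn ((ξ0, w0), a + A ((ξ0 + ζ, t), w0 + η)) +
      ζ * G (((ξ0, w0), t), (ζ, η)) (1, 0) + G (((ξ0, w0), t), (ζ, η)) (0, η)
    linarith
  · intro X hX
    refine H3 ?_
    rw [Real.dist_eq]
    exact (lt_min_iff.1 (lt_min_iff.1 hX).2).2
  · rw [(hdA 0).deriv, hMh0.self_of_nhds, hfd0]
    exact hd2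
  · filter_upwards [hMh0, hvert.eventually hfd] with t h1 h2
    rw [(hdA t).deriv, h1, ← h2.fderiv_eq]
    congr 1
    have h3 : (fun t : ℝ => (T ((0, t), 0)).1.1) =ᶠ[𝓝 t] fun t : ℝ => (Tg ((0, t), 0)).1.1 := by
      have h4 : Tendsto (fun t : ℝ => (((0, t), 0) : En d)) (𝓝 t) (𝓝 (((0, t), 0) : En d)) := by
        have h5 : Continuous (fun t : ℝ => (((0, t), 0) : En d)) := by fun_prop
        exact h5.tendsto t
      filter_upwards [h4.eventually h2] with u hu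
      rw [hu]
    rw [h3.deriv_eq]
    exact (df03_vert (hTgd ((0, t), 0))).deriv.symm

end Pool.Agent.Lib.H37D
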