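import Pool.Agent.Lib.H37D.DP02
import Pool.Agent.Lib.H37P.P03

/-!
# H37D DP03 (M): places exist (port of H37P/P03.lean)

* `dp03_image_open`: as `Near.image_open` (H37N/A112): the derivative is bijective at the points of `Dd d`, `HasStrictFDerivAt.map_nhds_eq_of_surj`.
* `dp03_injOn`: `hN.smooth`.
* `dp03_fold_image`: planar part as `fold_image` (H37N/A112) from `fold0`; `‖(g z).2‖ ≤ aw + e0 < 1` (`wval`).
* `exists_placeD`: as `exists_place`: `inverse_fun` for `PlD` at `g z`, `z = InD k 0` (bijective derivative by `pl_regularD`); `D = O1 ∩ PlD ⁻¹' ball ((a,0),wT) r`; `r` with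
  `|a| + r < 1` and `‖wT‖ + r < 1`; separation of the earlier visits by injectivity on `Dd d`; `C = Li '' closedBall ⊆ g '' Z ⊆ K0D d` by `dp03_fold_image`.
-/

open Set Filter Topology Asymptotics
open scoped ContDiff

namespace Pool.Agent.Lib.H37D

open Pool.Agent.Lib.H37N

variable {d : ℕ}

theorem dp03_injOn {g : En d → En d} (h : NearS g) : InjOn g (Dd d) := by
  obtain ⟨O, hO, hsub, hd, hinj, hjac⟩ := h.smooth
  exact hinj.mono hsub

theorem dp03_image_open {g : En d → En d} (h : NearS g) {Z : Set (En d)} (hZ : IsOpen Z)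
    (hZD : Z ⊆ Dd d) : IsOpen (g '' Z) := by
  obtain ⟨O, hO, hsub, hd, hinj, hjac⟩ := h.smooth
  rw [isOpen_iff_mem_nhds]
  rintro _ ⟨z, hz, rfl⟩
  have hzO : z ∈ O := hsub (hZD hz)
  have hc : ContDiffAt ℝ ∞ g z := hd.contDiffAt (hO.mem_nhds hzO)
  have hs : HasStrictFDerivAt g (fderiv ℝ g z) z := hc.hasStrictFDerivAt (by simp)
  have hr : (fderiv ℝ g z).range = ⊤ :=
    LinearMap.range_eq_top.2 (hjac z hzO).2
  rw [← hs.map_nhds_eq_of_surj hr]
  rw [mem_map]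
  exact mem_of_superset (hZ.mem_nhds hz) (subset_preimage_image g Z)

theorem dp03_fold_image {g : En d → En d} (h : NearS g) {z : En d} (hz : z ∈ FFd d) :
    (g z).1.1 ∈ Ioo (0 : ℝ) 1 ∧ (g z).1.2 ∈ Ioo (0 : ℝ) 1 ∧ ‖(g z).2‖ < 1 := by
  obtain ⟨h1, h2⟩ := h.fold0 z hz
  have h3 := h.wval z (FFd_sub_Dd hz)
  rw [mem_FFd] at hz
  obtain ⟨⟨⟨a1, a2⟩, ⟨b1, b2⟩⟩, hw⟩ := hz
  rw [abs_le] at h1 h2
  simp only [Fold, xc, yc, u0, cc, dd, del, e0, aw] at *
  have hsq : (z.1.1 - 8005 / 10000) ^ 2 ≤ (1 / 4000) ^ 2 := by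
    apply sq_le_sq'
    · linarith
    · linarith
  have hsq0 := sq_nonneg (z.1.1 - 8005 / 10000)
  refine ⟨⟨?_, ?_⟩, ⟨?_, ?_⟩, ?_⟩
  · linarith [h1.1, h1.2, h2.1, h2.2]
  · linarith [h1.1, h1.2, h2.1, h2.2]
  · linarith [h1.1, h1.2, h2.1, h2.2]
  · linarith [h1.1, h1.2, h2.1, h2.2]
  · have h4 : (1 : ℝ) / 10 ^ 7 * ‖z.2‖ ≤ 1 / 10 ^ 7 * 1 :=
      mul_le_mul_of_nonneg_left hw (by norm_num)
    norm_num at h3 h4 ⊢
    linarith

theorem exists_placeD {g : En d → En d} {s : FrD d} {Z : Set (En d)} {m : ℕ} {b a : ℝ}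
    {wT : Wd d} {k l : ℕ} (hN : NearS g) (hs : IsFrD g s) (ht : TDD g s Z m b a wT k l) :
    ∃ (r : ℝ) (D B : Set (En d)) (Li : En d → En d), PlaceD g s Z b a wT k l r D B Li := by
  obtain ⟨O, hO, hwO, hPs, hPj, hPp, hPl⟩ := pl_regularD hN hs ht
  obtain ⟨O', hO', h0O', hIs, -, hIp⟩ := in_regularD hN hs ht
  set w0 : En d := g (InD g s b k 0) with hw0
  have hZF : Z ⊆ Dd d := fun z hz => Or.inr (interior_subset (ht.subZ hz))
  have hOm : VOD d ∪ Z ⊆ Omd d :=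
    union_subset VOD_sub_Omd (fun z hz => interior_FFd_sub_Omd (ht.subZ hz))
  have hgZ : IsOpen (g '' Z) := dp03_image_open hN ht.openZ hZF
  have hw0Z : w0 ∈ g '' Z := ⟨_, ht.memZ, rfl⟩
  have haB : (((a, 0), wT) : En d) ∈ BxD d := by
    have h1 := ht.a_lt
    have h2 := ht.w_lt
    rw [mem_BxD]
    refine ⟨⟨by linarith, by norm_num⟩, by linarith⟩
  have hPw0 : PlD g s l w0 = ((a, 0), wT) := by
    show s.c Sy.P (g^[l] w0) = ((a, 0), wT)
    rw [hw0, ht.fin, (hs.chart Sy.P).left _ haB]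
  have hc0 : ∀ᶠ w in 𝓝 w0, ContDiffAt ℝ ∞ (PlD g s l) w := by
    filter_upwards [hO.mem_nhds hwO] with w hw
    exact hPs.contDiffAt (hO.mem_nhds hw)
  obtain ⟨Li, hLs, hL0, hLP, hPL⟩ := inverse_fun hc0 (hPj w0 hwO)
  rw [hPw0] at hL0 hPL
  have hIc : ∀ i ≤ k, ContinuousAt (InD g s b i) 0 := fun i hi =>
    ((hIs i hi).contDiffAt (hO'.mem_nhds h0O')).continuousAt
  have hgc : ∀ i ≤ k, ContinuousAt (fun v => g (InD g s b i v)) 0 := by
    intro i hi
    have h1 : ContinuousAt g (InD g s b i 0) := by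
      have h2 : InD g s b i 0 ∈ Omd d := hOm (hIp 0 h0O' i hi)
      exact (hN.toNearD.contDiffAt_Omd h2).self_of_nhds.continuousAt
    exact ContinuousAt.comp (f := InD g s b i) (g := g) h1 (hIc i hi)
  -- separation
  have hsep : ∀ i < k, ∃ U : Set (En d), U ∈ 𝓝 w0 ∧ ∀ᶠ v in 𝓝 (0 : En d), g (InD g s b i v) ∉ U := by
    intro i hi
    have hne : g (InD g s b i 0) ≠ w0 := by
      intro he
      exact ht.dist i hi (dp03_injOn hN (Omd_sub (hOm (ht.path1 i hi.le)))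
        (Omd_sub (hOm (ht.path1 k le_rfl))) he)
    obtain ⟨V, U, hV, hU, hVm, hUm, hVU⟩ := t2_separation hne
    refine ⟨U, hU.mem_nhds hUm, ?_⟩
    filter_upwards [(hgc i hi.le).eventually_mem (hV.mem_nhds hVm)] with v hv hvU
    exact Set.disjoint_left.1 hVU hv hvU
  choose! U hU1 hU2 using hsep
  have hUall : ∀ᶠ w in 𝓝 w0, ∀ i ∈ Finset.range k, w ∈ U i :=
    (Finset.eventually_all (Finset.range k)).2 fun i hi => hU1 i (Finset.mem_range.1 hi)
  have hVall : ∀ᶠ v in 𝓝 (0 : En d), ∀ i ∈ Finset.range k, g (InD g s b i v) ∉ U i :=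
    (Finset.eventually_all (Finset.range k)).2 fun i hi => hU2 i (Finset.mem_range.1 hi)
  have hall : ∀ᶠ w in 𝓝 w0, (w ∈ O ∧ w ∈ g '' Z) ∧
      (Li (PlD g s l w) = w ∧ ∀ i ∈ Finset.range k, w ∈ U i) := by
    filter_upwards [hO.mem_nhds hwO, hgZ.mem_nhds hw0Z, hLP, hUall] with w h1 h2 h3 h4
    exact ⟨⟨h1, h2⟩, h3, h4⟩
  obtain ⟨O1, hO1sub, hO1, hw01⟩ := eventually_nhds_iff.1 hall
  have hO1c : ContinuousOn (PlD g s l) O1 := fun w hw =>
    ((hPs.contDiffAt (hO.mem_nhds (hO1sub _ hw).1.1)).continuousAt).continuousWithinAt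
  have hev : ∀ᶠ v in 𝓝 (((a, 0), wT) : En d), PlD g s l (Li v) = v ∧ Li v ∈ O1 := by
    refine hPL.and ?_
    have h1 : ContinuousAt Li (((a, 0), wT) : En d) := hLs.continuous.continuousAt
    exact h1.eventually_mem (by rw [hL0]; exact hO1.mem_nhds hw01)
  obtain ⟨r1, hr1, hball⟩ := (Metric.nhds_basis_closedBall.mem_iff).1 hev
  obtain ⟨r, hr0, hrr, hra, hrw⟩ : ∃ r : ℝ, 0 < r ∧ r ≤ r1 ∧ |a| + r < 1 ∧ ‖wT‖ + r < 1 := by
    have ha := ht.a_lt
    have hw := ht.w_lt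
    refine ⟨min r1 (min ((1 - |a|) / 2) ((1 - ‖wT‖) / 2)),
      lt_min hr1 (lt_min (by linarith) (by linarith)), min_le_left _ _, ?_, ?_⟩
    · have := (min_le_right r1 (min ((1 - |a|) / 2) ((1 - ‖wT‖) / 2))).trans (min_le_left _ _)
      linarith
    · have := (min_le_right r1 (min ((1 - |a|) / 2) ((1 - ‖wT‖) / 2))).trans (min_le_right _ _)
      linarith
  have hcb : ∀ v ∈ Metric.closedBall (((a, 0), wT) : En d) r, PlD g s l (Li v) = v ∧ Li v ∈ O1 :=
    fun v hv => hball (Metric.closedBall_subset_closedBall hrr hv)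
  set D : Set (En d) := O1 ∩ PlD g s l ⁻¹' Metric.ball (((a, 0), wT) : En d) r with hD
  have hDo : IsOpen D := hO1c.isOpen_inter_preimage hO1 Metric.isOpen_ball
  have hw0D : w0 ∈ D := ⟨hw01, by
    show PlD g s l w0 ∈ Metric.ball (((a, 0), wT) : En d) r
    rw [hPw0]
    exact Metric.mem_ball_self hr0⟩
  have hDC : D ⊆ Li '' Metric.closedBall (((a, 0), wT) : En d) r := fun w hw =>
    ⟨PlD g s l w, Metric.ball_subset_closedBall hw.2, (hO1sub _ hw.1).2.1⟩
  have hCZ : Li '' Metric.closedBall (((a, 0), wT) : En d) r ⊆ g '' Z := by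
    rintro _ ⟨v, hv, rfl⟩
    exact (hO1sub _ (hcb v hv).2).1.2
  have hPc : ContinuousAt (PlD g s l) w0 := (hc0.self_of_nhds).continuousAt
  have hTT : ∀ᶠ v in 𝓝 (0 : En d),
      TTD g s b k l v ∈ Metric.ball (((a, 0), wT) : En d) (r / 2) := by
    have h1 : ContinuousAt (fun v => PlD g s l (g (InD g s b k v))) 0 :=
      ContinuousAt.comp (f := fun v => g (InD g s b k v)) (g := PlD g s l) hPc (hgc k le_rfl)
    have h2 : PlD g s l (g (InD g s b k 0)) = ((a, 0), wT) := hPw0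
    refine h1.eventually_mem ?_
    rw [h2]
    exact Metric.ball_mem_nhds _ (half_pos hr0)
  have hbox : ∀ᶠ v in 𝓝 (0 : En d), |v.1.1| < 1 ∧ |b + v.1.2| < 1 ∧ ‖v.2‖ < 1 := by
    have h1 : Continuous fun v : En d => |v.1.1| := by fun_prop
    have h2 : Continuous fun v : En d => |b + v.1.2| := by fun_prop
    have h3 : Continuous fun v : En d => ‖v.2‖ := by fun_prop
    refine (h1.continuousAt.eventually_lt continuousAt_const (by simp)).and
      ((h2.continuousAt.eventually_lt continuousAt_const ?_).and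
        (h3.continuousAt.eventually_lt continuousAt_const (by simp)))
    show |b + 0| < 1
    rw [add_zero]
    exact ht.b_lt
  refine ⟨r, D, {v | (|v.1.1| < 1 ∧ |b + v.1.2| < 1 ∧ ‖v.2‖ < 1) ∧
    (∀ i ≤ k, InD g s b i v ∈ VOD d ∪ Z) ∧
    (∀ i < k, g (InD g s b i v) ∉ D) ∧ g (InD g s b k v) ∈ D ∧
    TTD g s b k l v ∈ Metric.ball (((a, 0), wT) : En d) (r / 2)}, Li, ?_⟩
  refine
    { r_pos := hr0
      r_lt := hra
      r_ltw := hrw
      openD := hDo
      subD := hDC.trans hCZ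
      compD := ⟨Li '' Metric.closedBall (((a, 0), wT) : En d) r,
        (isCompact_closedBall _ _).image hLs.continuous, hDC, ?_, hCZ⟩
      Pl_mem := fun w hw => hw.2
      Li_Pl := fun w hw => (hO1sub _ hw.1).2.1
      Li_mem := fun v hv => ⟨(hcb v (Metric.ball_subset_closedBall hv)).2, by
        show PlD g s l (Li v) ∈ Metric.ball (((a, 0), wT) : En d) r
        rw [(hcb v (Metric.ball_subset_closedBall hv)).1]
        exact hv⟩
      Pl_Li := fun v hv => (hcb v (Metric.ball_subset_closedBall hv)).1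
      smLi := hLs.contDiffOn
      smPl := hPs.mono fun w hw => (hO1sub _ hw.1).1.1
      path := fun w hw i hi => hPp w (hO1sub _ hw.1).1.1 i hi
      land := fun w hw => (hPl w (hO1sub _ hw.1).1.1).1
      nhB := ?_
      boxB := fun v hv => hv.1
      pathB := fun v hv => hv.2.1
      notD := fun v hv => hv.2.2.1
      inD := fun v hv => hv.2.2.2.1
      TB := fun v hv => hv.2.2.2.2 }
  · intro w hw
    obtain ⟨z, hz, rfl⟩ := hCZ hw
    obtain ⟨h1, h2, h3⟩ := dp03_fold_image hN (interior_subset (ht.subZ hz))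
    refine ⟨⟨⟨by linarith [h1.1], by linarith [h1.2]⟩, by linarith [h2.1], by linarith [h2.2]⟩, ?_⟩
    rw [mem_closedBall_zero_iff]
    linarith
  · have h3 : ∀ᶠ v in 𝓝 (0 : En d), ∀ i ≤ k, InD g s b i v ∈ VOD d ∪ Z := by
      filter_upwards [hO'.mem_nhds h0O'] with v hv
      exact hIp v hv
    have h4 : ∀ᶠ v in 𝓝 (0 : En d), g (InD g s b k v) ∈ D :=
      (hgc k le_rfl).eventually_mem (hDo.mem_nhds hw0D)
    filter_upwards [hbox, h3, hVall, h4, hTT] with v a1 a2 a3 a4 a5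
    refine ⟨a1, a2, fun i hi hiD => ?_, a4, a5⟩
    exact a3 i (Finset.mem_range.2 hi) ((hO1sub _ hiD.1).2.2 i (Finset.mem_range.2 hi))

end Pool.Agent.Lib.H37D
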