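import Pool.Agent.Lib.H37D.Defs

/-!
# H37D, section N: definitions (centre discs, centre spots in normal form)
-/

open Set Filter Topology
open scoped ContDiff

namespace Pool.Agent.Lib.H37D

open Pool.Agent.Lib.H37N

noncomputable section

variable {d : ℕ}

/-- the result of stage II: a smooth disc of points of (not necessarily minimal) period `K` in the region `Omd` -/
def CDisc (g : En d → En d) : Prop :=
  ∃ K : ℕ, 0 < K ∧ ∃ ι : Pt → En d, ContDiff ℝ ∞ ι ∧ Function.Injective (fderiv ℝ ι 0) ∧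
    ∀ᶠ v in 𝓝 (0 : Pt), (∀ i < K, g^[i] (ι v) ∈ Omd d) ∧ g^[K] (ι v) = ι v

/-- the box of the tube -/
def Bt (d : ℕ) : Set (En d) := Metric.ball 0 4

/-- a centre spot in normal form: the points `Θ (v, 0)` have period `m` (the images of the tube `Θ (Bt d)` under
`g^i`, `0 < i < m`, are disjoint from the tube), and `g^m (Θ (v, w)) = Θ (v, A v w)` -/
structure CSpotD (g : En d → En d) (m : ℕ) (Θ c : En d → En d) (A : Pt → Wd d →L[ℝ] Wd d) : Prop where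
  pos : 0 < m
  smooth : ContDiff ℝ ∞ Θ
  smooth_c : ContDiff ℝ ∞ c
  left : ∀ p ∈ Bt d, c (Θ p) = p
  isOpen : IsOpen (Θ '' Bt d)
  smooth_A : ContDiff ℝ ∞ A
  A_bij : ∀ v, ‖v‖ < 4 → Function.Bijective (A v)
  A_le : ∀ v, ‖v‖ < 4 → ∀ w, ‖A v w‖ ≤ 1 / 8 * ‖w‖
  A_close : ∀ v, ‖v‖ < 4 → ∀ v', ‖v'‖ < 4 → ∀ w, ‖A v w - A v' w‖ ≤ 1 / 100 * ‖A v' w‖
  lin : ∀ v w, ‖v‖ < 4 → ‖w‖ < 4 → g^[m] (Θ (v, w)) = Θ (v, A v w)
  path : ∀ p ∈ Bt d, ∀ i ≤ m, g^[i] (Θ p) ∈ Omd d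
  disj : ∀ i, 0 < i → i < m → ∀ p ∈ Bt d, ∀ q ∈ Bt d, g^[i] (Θ p) ≠ Θ q
  cone : ∀ v w, ‖v‖ < 4 → ‖w‖ < 4 → ‖(Θ (v, w)).1 - (Θ (v, 0)).1‖ ≤ 1 / 10 ^ 7 * ‖(Θ (v, w)).2 - (Θ (v, 0)).2‖

/-- `g` has a centre spot -/
def LocalSpotD (g : En d → En d) : Prop :=
  ∃ (m : ℕ) (Θ c : En d → En d) (A : Pt → Wd d →L[ℝ] Wd d), CSpotD g m Θ c A

end

end Pool.Agent.Lib.H37D
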