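import Pool.Agent.Lib.H37D.DZ27
import Pool.Agent.Lib.H37D.DP06
import Pool.Agent.Lib.H37D.NDefs
import Pool.Agent.Lib.H37D.Bas0
import Pool.Agent.Lib.H37P.Z28

/-! # H37D, chunk DZ28 (M): the centre disc (port of H37P/Z28.lean) -/

open Set Filter Topology Asymptotics
open scoped ContDiff

namespace Pool.Agent.Lib.H37D

open Pool.Agent.Lib.H37N

variable {d : ℕ}

/-- The return map in the new coordinates is flat.

PROOF. Word for word `z28_ret` (H37P/Z28.lean) with En d. -/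
theorem dz28_ret {Y Yi S : En d → En d} {V0 : En d} {m : ℕ} (hY : ContDiff ℝ ∞ Y) (hYi : ContDiff ℝ ∞ Yi)
    (h1 : ∀ V, Yi (Y V) = V) (h2 : ∀ v, Y (Yi v) = v) (hS : ContDiff ℝ ∞ S) (hS0 : S V0 = V0)
    (hO : (fun V : En d => S V - V) =O[𝓝 V0] (fun V => ‖V - V0‖ ^ m)) :
    (fun v : En d => Y (S (Yi v)) - v) =O[𝓝 (Y V0)] (fun v => ‖v - Y V0‖ ^ m) := by
  have hYs : HasStrictFDerivAt Y (fderiv ℝ Y V0) V0 :=
    hY.contDiffAt.hasStrictFDerivAt (by simp)
  have hYis : HasStrictFDerivAt Yi (fderiv ℝ Yi (Y V0)) (Y V0) :=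
    hYi.contDiffAt.hasStrictFDerivAt (by simp)
  have hA : (fun V : En d => Y (S V) - Y V) =O[𝓝 V0] (fun V => S V - V) := by
    have ht : Tendsto (fun V : En d => (S V, V)) (𝓝 V0) (𝓝 (V0, V0)) := by
      have := (hS.continuous.prodMk continuous_id).tendsto V0
      simpa only [id, hS0] using this
    exact hYs.isBigO_sub.comp_tendsto ht
  have hB : (fun V : En d => Y (S V) - Y V) =O[𝓝 V0] (fun V => ‖V - V0‖ ^ m) := hA.trans hO
  have ht2 : Tendsto Yi (𝓝 (Y V0)) (𝓝 V0) := by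
    have := hYi.continuous.tendsto (Y V0)
    rwa [h1] at this
  have hC : (fun v : En d => Y (S (Yi v)) - v) =O[𝓝 (Y V0)] (fun v => ‖Yi v - V0‖ ^ m) := by
    have := hB.comp_tendsto ht2
    refine this.congr_left fun v => ?_
    simp only [Function.comp_apply, h2]
  have hD : (fun v : En d => Yi v - V0) =O[𝓝 (Y V0)] (fun v => v - Y V0) := by
    have := hYis.hasFDerivAt.isBigO_sub
    simpa only [h1] using this
  exact hC.trans ((hD.norm_norm).pow m)

/-- A centre disc.

PROOF. e = R + 1.  `realizeD` gives ψ, K, Y, Yi, S, om, φ, W; φ 0 = 0 (the O-estimate at 0, as in `spot_of_flat`).  `z28_inv` for φ (m = R + 2 > 1): G : Pt → Pt smooth, G (φ v) = v near 0, G v - v = O(‖v‖^(R+2)),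
G 0 = 0.  Ξ z = (G z.1, z.2) : smooth, Ξ (0, om 0) = (0, om 0), Ξ z - z = (G z.1 - z.1, 0) = O(‖z - (0, om 0)‖^(R+2)) (|z.1| ≤ ‖z - (0, om 0)‖).  Gh = Y ∘ Ξ ∘ Yi: `dz28_ret` (S = Ξ).
`PlaceD.flat` (DP06) at v0 = Y (0, om 0) with O from `realizeD` gives χ, SmallD R ε1 χ, ε1 from `hU (ψ ∘ g)`; χ ∘ ψ ∘ g ∈ U; χ acts trivially on Y (W j), 0 < j < nb e.  G' = (χ ∘ ψ) ∘ g.
ι v = κP (Y (v, om v)) (smooth: `(hs.chart Sy.P).smooth`).  For v near 0: G'^[j K] (ι v) = κP (Y (S j (v, om v))) for j < nb e, G'^[nb e * K] (ι v) = κP (PlD (χ (Li (Y (S (nb e) (v, om v)))))) =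
κP (Gh (Y (φ v, om v))) (Y (S (nb e) (v, om v)) tends to v0 as v → 0) = κP (Y (Ξ (φ v, om v))) = κP (Y (v, om v)) = ι v.  The orbits are in VOD d ∪ Z ⊆ Omd d (`VOD_sub_Omd`, `interior_FFd_sub_Omd`); i = i % K + (i / K) * K
as in H37P/Z28.lean.  fderiv ι 0 is injective: (Yi (c P (ι v))).1 = v for v near 0 (`(hs.chart Sy.P).left`, Y (0, om 0) is in the ball of radius r around ((a,0),wT), r_lt, r_ltw, so in the interior of BxD d), so the derivative of the
smooth map (Prod.fst ∘ Yi ∘ c P) composed with fderiv ι 0 is the identity. -/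
theorem disc_of_flatD {R : ℕ} {U : Set (En d → En d)} (hU : PertOpenD R U)
    {g : En d → En d} (hg : g ∈ U) {s : FrD d} {Z : Set (En d)} {b a : ℝ} {wT : Wd d} {k l : ℕ} {r : ℝ}
    {D B : Set (En d)} {Li : En d → En d} (hN : NearS g) (hs : IsFrD g s) (hZ : Z ⊆ interior (FFd d))
    (hb : |b| < 1) (hp : PlaceD g s Z b a wT k l r D B Li)
    {A : En d → ℝ} {Aw : En d → Wd d} {Nn : (ℝ × Wd d) × ℝ → ℝ} {Mh : (ℝ × Wd d) × En d → ℝ}
    {Mw : (ℝ × Wd d) × En d → (Wd d →L[ℝ] ℝ)} {rF : ℝ} (hF : FlatD g s b a wT k l A Aw Nn Mh Mw rF)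
    (hne : deriv (fun U => Real.log (hGD A Mh U)) 0 ≠ 0) : ∃ g' ∈ U, CDisc g' := by
  obtain ⟨ψ, K, Y, Yi, S, om, φ, W, hψU, hψ, hK, ⟨hY, hYi, hYY, hYY'⟩, hS, hS0, hom, hφ, hSN, hφO,
    hball, hWo, hSW, ⟨O, hOn, hOd⟩, hmain⟩ :=
    realizeD (e := R + 1) (by omega) hU hg hN hs hZ hb hp hF hne
  set N := nb (R + 1) with hNdef
  have hNpos : 0 < N := by
    rw [hNdef]
    unfold nb
    omega
  have hφ0 : φ 0 = 0 := by
    obtain ⟨c, hc⟩ := hφO.bound
    have := hc.self_of_nhds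
    simp only [sub_zero, norm_zero] at this
    rw [norm_pow, norm_zero, zero_pow (by omega), mul_zero] at this
    exact norm_le_zero_iff.1 this
  obtain ⟨Gi, hGi, hGi1, hGi2⟩ := z28_inv (m := R + 2) (v0 := (0 : Pt)) (by omega) hφ hφ0
    (by simpa only [sub_zero] using hφO)
  have hGi0 : Gi 0 = 0 := by
    have := hGi1.self_of_nhds
    rwa [hφ0] at this
  set Xi : En d → En d := fun z => (Gi z.1, z.2) with hXi
  have hXis : ContDiff ℝ ∞ Xi := (hGi.comp contDiff_fst).prodMk contDiff_snd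
  have hXi0 : Xi (0, om 0) = (0, om 0) := by
    simp only [hXi, hGi0]
  have hfst : Tendsto (fun z : En d => z.1) (𝓝 (0, om 0)) (𝓝 0) := continuous_fst.tendsto _
  have hXiO : (fun z : En d => Xi z - z) =O[𝓝 (0, om 0)] (fun z => ‖z - (0, om 0)‖ ^ (R + 2)) := by
    have h1 : (fun z : En d => Xi z - z) =O[𝓝 (0, om 0)] (fun z => Gi z.1 - z.1) := by
      refine IsBigO.of_bound 1 (Eventually.of_forall fun z => ?_)
      have h2 : Xi z - z = (Gi z.1 - z.1, 0) := by
        simp only [hXi]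
        refine Prod.ext ?_ ?_
        · simp
        · simp
      rw [h2, one_mul]
      refine (Prod.norm_def _).le.trans (max_le le_rfl ?_)
      simp
    have h3 : (fun z : En d => Gi z.1 - z.1) =O[𝓝 (0, om 0)] (fun z => ‖z.1 - 0‖ ^ (R + 2)) :=
      hGi2.comp_tendsto hfst
    have h4 : (fun z : En d => z.1 - 0) =O[𝓝 ((0, om 0) : En d)] (fun z => z - (0, om 0)) := by
      refine IsBigO.of_bound 1 (Eventually.of_forall fun z => ?_)
      rw [one_mul]
      exact norm_fst_le (z - (0, om 0))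
    exact (h1.trans h3).trans (h4.norm_norm.pow (R + 2))
  have hret := dz28_ret hY hYi hYY hYY' hXis hXi0 hXiO
  have hGhs : ContDiff ℝ ∞ (fun v => Y (Xi (Yi v))) := hY.comp (hXis.comp hYi)
  obtain ⟨ε1, hε1, hpert⟩ := hU (ψ ∘ g) hψU
  obtain ⟨χ, hχs, hχA, hχ1, hχ2⟩ := hp.flat hball isOpen_univ (mem_univ _) hGhs.contDiffOn hret hε1 hOn
  have hev := hmain χ hχA (by
    rintro v hv j hj0 hjN ⟨V, hV, rfl⟩
    exact hχ2 _ hv (hOd j hj0 hjN V hV))
  have hmem : χ ∘ (ψ ∘ g) ∈ U := hpert χ hχs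
  set G : En d → En d := (χ ∘ ψ) ∘ g with hG
  have hL := hs.chart Sy.P
  have hom' : Continuous fun v : Pt => ((v, om v) : En d) := continuous_id.prodMk hom.continuous
  have hvt : Tendsto (fun v : Pt => ((v, om v) : En d)) (𝓝 0) (𝓝 (0, om 0)) := hom'.tendsto 0
  have hYφ : Tendsto (fun v : Pt => Y (φ v, om v)) (𝓝 0) (𝓝 (Y (0, om 0))) := by
    have h4 : Continuous (fun v : Pt => Y (φ v, om v)) :=
      hY.continuous.comp (hφ.continuous.prodMk hom.continuous)
    have h5 := h4.tendsto 0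
    simp only [hφ0] at h5
    exact h5
  have hιs : ContDiff ℝ ∞ (fun v : Pt => s.κ Sy.P (Y (v, om v))) :=
    hL.smooth.comp (hY.comp (contDiff_id.prodMk hom))
  refine ⟨G, hmem, N * K, Nat.mul_pos hNpos hK, fun v => s.κ Sy.P (Y (v, om v)), hιs, ?_, ?_⟩
  · -- injectivity of the derivative
    have hBx : Y (0, om 0) ∈ interior (BxD d) := by
      rw [IsOpen.interior_eq]
      · have h1 := mem_ball_iff_norm.1 hball
        have h2 : ‖(Y (0, om 0) - ((a, 0), wT)).1‖ < r := (norm_fst_le _).trans_lt h1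
        have h3 : ‖(Y (0, om 0) - ((a, 0), wT)).2‖ < r := (norm_snd_le _).trans_lt h1
        have h4 : ‖(Y (0, om 0) - ((a, 0), wT)).1.1‖ < r := (norm_fst_le _).trans_lt h2
        have h5 : ‖(Y (0, om 0) - ((a, 0), wT)).1.2‖ < r := (norm_snd_le _).trans_lt h2
        have h6 := hp.r_lt
        have h7 := hp.r_ltw
        have h8 : |(Y (0, om 0)).1.1 - a| < r := h4
        have h9 : |(Y (0, om 0)).1.2 - 0| < r := h5
        have h10 : ‖(Y (0, om 0)).2 - wT‖ < r := h3
        have h11 := abs_nonneg a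
        have h12 := norm_nonneg wT
        refine ⟨b10_mem_Bx.2 ⟨?_, ?_⟩, mem_ball_zero_iff.2 ?_⟩
        · have := abs_sub_abs_le_abs_sub (Y (0, om 0)).1.1 a
          linarith
        · rw [sub_zero] at h9
          linarith
        · have := norm_sub_norm_le (Y (0, om 0)).2 wT
          linarith
      · refine IsOpen.prod ?_ Metric.isOpen_ball
        have h1 : Bx = {z : Pt | |z.1| < 2 ∧ |z.2| < 2} := by
          ext z
          exact b10_mem_Bx
        rw [h1]
        exact (isOpen_lt (continuous_abs.comp continuous_fst) continuous_const).inter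
          (isOpen_lt (continuous_abs.comp continuous_snd) continuous_const)
    have hYv : Tendsto (fun v : Pt => Y (v, om v)) (𝓝 0) (𝓝 (Y (0, om 0))) :=
      (hY.continuous.tendsto _).comp hvt
    have hLi : ∀ᶠ v in 𝓝 (0 : Pt), (Yi (s.c Sy.P (s.κ Sy.P (Y (v, om v))))).1 = v := by
      filter_upwards [hYv.eventually (isOpen_interior.mem_nhds hBx)] with v hv
      rw [hL.left _ (interior_subset hv), hYY]
    have hLs : ContDiff ℝ ∞ (fun w : En d => (Yi (s.c Sy.P w)).1) :=
      contDiff_fst.comp (hYi.comp hL.smooth_c)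
    have hd1 := (hιs.differentiable (by simp) 0).hasFDerivAt
    have hd2 := (hLs.differentiable (by simp) (s.κ Sy.P (Y (0, om 0)))).hasFDerivAt
    have hd3 := hd2.comp (0 : Pt) hd1
    have hd4 : HasFDerivAt ((fun w : En d => (Yi (s.c Sy.P w)).1) ∘
        fun v : Pt => s.κ Sy.P (Y (v, om v))) (ContinuousLinearMap.id ℝ Pt) 0 := by
      refine (hasFDerivAt_id (𝕜 := ℝ) (0 : Pt)).congr_of_eventuallyEq ?_
      filter_upwards [hLi] with v hv
      exact hv
    have hd5 := hd3.unique hd4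
    intro u w huw
    have h1 := congrArg (fun T : Pt →L[ℝ] Pt => T u) hd5
    have h2 := congrArg (fun T : Pt →L[ℝ] Pt => T w) hd5
    simp only [ContinuousLinearMap.comp_apply, ContinuousLinearMap.id_apply] at h1 h2
    rw [← h1, ← h2, huw]
  · filter_upwards [hvt.eventually hev, hSN, hGi1, hYφ.eventually hχ1] with v h1 h2 h3 h4
    obtain ⟨hst, hlast, horb⟩ := h1
    have hiter : ∀ j, j < N → G^[j * K] (s.κ Sy.P (Y (v, om v))) =
        s.κ Sy.P (Y (S j (v, om v))) := by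
      intro j
      induction j with
      | zero =>
        intro _
        rw [zero_mul, Function.iterate_zero, hS0]
        rfl
      | succ j ih =>
        intro hj
        rw [Nat.succ_mul, Nat.add_comm, Function.iterate_add_apply, ih (by omega), hst j hj]
    constructor
    · intro i hi
      have hdiv : i / K < N := Nat.div_lt_of_lt_mul (by rwa [Nat.mul_comm] at hi)
      have hmod : i % K < K := Nat.mod_lt _ hK
      have he : i = i % K + i / K * K := by
        rw [Nat.mul_comm, Nat.mod_add_div]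
      rw [he, Function.iterate_add_apply, hiter _ hdiv]
      rcases horb (i / K) hdiv (i % K) hmod.le with h | h
      · exact VOD_sub_Omd h
      · exact interior_FFd_sub_Omd (hZ h)
    · have he : N * K = K + (N - 1) * K := by
        obtain ⟨N', hN'⟩ : ∃ N', N = N' + 1 := ⟨N - 1, by omega⟩
        rw [hN', Nat.add_sub_cancel]
        ring
      rw [he, Function.iterate_add_apply, hiter _ (by omega), hlast, h2, h4, hYY]
      simp only [hXi, h3]

end Pool.Agent.Lib.H37D
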