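import Pool.Agent.Lib.H37D.DF01
import Pool.Agent.Lib.H37D.DF02
import Pool.Agent.Lib.H37D.DF03
import Pool.Agent.Lib.H37D.DZ28
import Pool.Agent.Lib.H37D.DP03
import Pool.Agent.Lib.H37D.DC50

/-!
# H37D DF04: from a tangency of high order to a centre disc
-/

open Set Filter Topology Asymptotics
open scoped ContDiff

namespace Pool.Agent.Lib.H37D

open Pool.Agent.Lib.H37N

variable {d : ℕ}

theorem disc_of_order {R m : ℕ} (hm : R + 1 ≤ m) {U : Set (En d → En d)} (hU : PertOpenD R U)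
    (hUN : ∀ g ∈ U, NearS g) {g : En d → En d} (hg : g ∈ U) {s : FrD d} (hs : IsFrD g s)
    {Z : Set (En d)} {b a : ℝ} {wT : Wd d} {k l : ℕ} (ht : TDD g s Z m b a wT k l) :
    ∃ g' ∈ U, CDisc g' := by
  obtain ⟨g1, hg1, he1, ht1, hfl1⟩ := flat_arcD hm hU hUN hg hs ht
  have hs1 : IsFrD g1 s := hs.congr fun z hz => he1.strips ht.subZ z (VOD_sub hz)
  obtain ⟨g2, hg2, he2, ht2, hfl2, hsl⟩ :=
    flat_slopeD (by omega) hU hUN hg1 hs1 ht1 hfl1
  have hs2 : IsFrD g2 s := hs1.congr fun z hz => he2.strips ht.subZ z (VOD_sub hz)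
  obtain ⟨A, Aw, Nn, Mh, Mw, rF, hF, hGF⟩ := exists_flatD (hUN g2 hg2) hs2 (by omega) ht2 hfl2
  obtain ⟨r, D, B, Li, hp⟩ := exists_placeD (hUN g2 hg2) hs2 ht2
  refine disc_of_flatD hU hg2 (hUN g2 hg2) hs2 ht2.subZ ht2.b_lt hp hF ?_
  have hEq : (fun U => Real.log (hGD A Mh U)) =ᶠ[𝓝 0]
      fun t : ℝ => Real.log (df02_M (TTD g2 s b k l) t) := by
    filter_upwards [hGF] with t ht
    rw [ht]
  rw [hEq.deriv_eq]
  exact hsl

theorem CDisc.spot {g : En d → En d} (h : CDisc g) : CentreSpot g := by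
  obtain ⟨K, hK, ι, h1, h2, h3⟩ := h
  exact ⟨K, hK, ι, Eventually.of_forall fun v => h1.contDiffAt, h2, h3⟩

end Pool.Agent.Lib.H37D
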