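import Pool.Agent.Lib.H37D.DHA

open TopologicalSpace Set Filter Topology

namespace Pool.Agent.Lib.H37D

variable {X : Type*} [TopologicalSpace X] {F F' : X ≃ₜ X} {T : Set X} {m : ℕ} {η : X → X} {p : X}

theorem dh10_q (h : Glue F F' T m η p) (q : ℕ) {y : X} (hy : y ∈ T) :
    (⇑F)^[q * m] y ∈ T ∧ η ((⇑F)^[q * m] y) = (⇑F')^[q * m] (η y) := by
  induction q with
  | zero => simpa using hy
  | succ q ih =>
    have h1 : (⇑F)^[(q + 1) * m] y = (⇑F)^[m] ((⇑F)^[q * m] y) := by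
      rw [← Function.iterate_add_apply]
      congr 2
      ring
    have h2 : (⇑F')^[(q + 1) * m] (η y) = (⇑F')^[m] ((⇑F')^[q * m] (η y)) := by
      rw [← Function.iterate_add_apply]
      congr 2
      ring
    rw [h1, h2, ← ih.2]
    exact ⟨h.into _ ih.1, h.conj _ ih.1⟩

/-- **DH10 (S).** The value of the glued map `h = gl F F' T η`: `F'^k (h x) = η (F^k x)` whenever `F^k x ∈ T`.

Proof. (a) For `y ∈ T`: `F^(q m) y ∈ T` and `η (F^(q m) y) = F'^(q m) (η y)` (induction on `q`, `into`, `conj`;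
`Function.iterate_mul` or `F^(q m + m) = F^m ∘ F^(q m)`). (b) If `y ∈ T` and `F^j y ∈ T` then `m ∣ j`: `j = q m + i`, `i < m`,
`F^j y = F^i (F^(q m) y)` with `F^(q m) y ∈ T`, so `i = 0` by `ret`. (c) Let `k₀ = Nat.find h ≤ k`, `y = F^[k₀] x ∈ T`,
`j = k - k₀`, so `F^j y = F^k x ∈ T`, `j = q m`. `F'^k (h x) = F'^j (F'^k₀ (F'⁻¹^[k₀] (η y))) = F'^j (η y) = η (F^j y)`. -/
theorem gl_eq (h : Glue F F' T m η p) {x : X} {k : ℕ} (hk : (⇑F)^[k] x ∈ T) :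
    (⇑F')^[k] (gl F F' T η x) = η ((⇑F)^[k] x) := by
  classical
  have hex : ∃ k, (⇑F)^[k] x ∈ T := ⟨k, hk⟩
  unfold gl
  rw [dif_pos hex]
  obtain ⟨k₀, hk₀⟩ : ∃ k₀, k₀ = Nat.find hex := ⟨_, rfl⟩
  have h0 : (⇑F)^[k₀] x ∈ T := by
    rw [hk₀]
    exact Nat.find_spec hex
  have hle : k₀ ≤ k := by
    rw [hk₀]
    exact Nat.find_min' hex hk
  rw [← hk₀]
  obtain ⟨j, rfl⟩ := Nat.exists_eq_add_of_le hle
  have h1 : (⇑F)^[k₀ + j] x = (⇑F)^[j] ((⇑F)^[k₀] x) := by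
    rw [← Function.iterate_add_apply, Nat.add_comm]
  rw [h1] at hk ⊢
  obtain ⟨y, hy⟩ : ∃ y, y = (⇑F)^[k₀] x := ⟨_, rfl⟩
  rw [← hy] at hk h0 ⊢
  have h2 : (⇑F')^[k₀ + j] ((⇑F'.symm)^[k₀] (η y)) = (⇑F')^[j] (η y) := by
    rw [Nat.add_comm, Function.iterate_add_apply]
    congr 1
    exact (Function.LeftInverse.iterate F'.apply_symm_apply k₀) (η y)
  rw [h2]
  have hj : j % m = 0 := by
    by_contra hne
    have h3 := h.ret (j % m) (Nat.pos_of_ne_zero hne) (Nat.mod_lt _ h.pos) _ (dh10_q h (j / m) h0).1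
    apply h3
    rw [← Function.iterate_add_apply, Nat.mod_add_div' j m]
    exact hk
  have hj' : j = j / m * m := (Nat.div_mul_cancel (Nat.dvd_of_mod_eq_zero hj)).symm
  rw [hj']
  exact (dh10_q h (j / m) h0).2.symm

/-- **DH10, second part.** -/
theorem gl_off {x : X} (hx : ∀ k, (⇑F)^[k] x ∉ T) : gl F F' T η x = x := by
  unfold gl
  rw [dif_neg]
  rintro ⟨k, hk⟩
  exact hx k hk

end Pool.Agent.Lib.H37D
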