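import Pool.Agent.Lib.H37D.DH10

open TopologicalSpace Set Filter Topology

namespace Pool.Agent.Lib.H37D

variable {X : Type*} [TopologicalSpace X] {F F' : X ≃ₜ X} {T : Set X} {m : ℕ} {η η' : X → X} {p : X}

/-- **DH11 (S).** The glued map `h` is a semiconjugacy: `h ∘ F = F' ∘ h`.

Proof. Let some `F^k x ∈ T`; then `F^(k+m) x = F^m (F^k x) ∈ T`, so we may assume `k = j + 1 ≥ 1` (replace `k` by `k + m`,
`m > 0`). `F^j (F x) ∈ T`, so by `gl_eq` `F'^j (h (F x)) = η (F^(j+1) x)` and `F'^(j+1) (h x) = η (F^(j+1) x)`; as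
`F'^(j+1) (h x) = F'^j (F' (h x))` and `F'^j` is injective, `h (F x) = F' (h x)`. If no `F^k x ∈ T`, then the same holds for
`F x`, so `h (F x) = F x`, `h x = x` (`gl_off`) and `F x = F' x` (`off`). -/
theorem gl_conj (h : Glue F F' T m η p) (x : X) : gl F F' T η (F x) = F' (gl F F' T η x) := by
  by_cases hx : ∃ k, (⇑F)^[k] x ∈ T
  · obtain ⟨k, hk⟩ := hx
    have h1 : (⇑F)^[k + m] x ∈ T := by
      rw [Nat.add_comm, Function.iterate_add_apply]
      exact h.into _ hk
    obtain ⟨j, hj⟩ : ∃ j, k + m = j + 1 := ⟨k + m - 1, by have := h.pos; omega⟩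
    rw [hj] at h1
    have h2 : (⇑F)^[j] (F x) ∈ T := h1
    have h3 := gl_eq h h2
    have h4 := gl_eq h h1
    have h5 : (⇑F')^[j + 1] (gl F F' T η x) = (⇑F')^[j] (F' (gl F F' T η x)) := rfl
    have h6 : (⇑F)^[j + 1] x = (⇑F)^[j] (F x) := rfl
    rw [h5, h6, ← h3] at h4
    exact (F'.injective.iterate j h4).symm
  · have hx' : ∀ k, (⇑F)^[k] x ∉ T := fun k hk => hx ⟨k, hk⟩
    rw [gl_off hx', gl_off fun k => hx' (k + 1)]
    exact h.off x hx'

/-- **DH11, second part.** The glued map of the inverse data is the inverse.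

Proof. If `F^k x ∈ T`, let `y = h x`; `F'^k y = η (F^k x) ∈ T` (`gl_eq`, `maps`), so `F^k (h' y) = η' (F'^k y) = η' (η (F^k x)) = F^k x`
(`gl_eq` for `h'`), and `F^k` is injective. If no `F^k x ∈ T`, then `h x = x`; `F'^k x = F^k x` for all `k` by induction
(`off` at the point `F^k x`, whose orbit avoids `T`), so no `F'^k x` is in `T` and `h' x = x` (`gl_off`). -/
theorem gl_inv (h : Glue F F' T m η p) (h' : Glue F' F T m η' p) (hl : ∀ x ∈ T, η' (η x) = x) (x : X) :
    gl F' F T η' (gl F F' T η x) = x := by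
  by_cases hx : ∃ k, (⇑F)^[k] x ∈ T
  · obtain ⟨k, hk⟩ := hx
    have h1 := gl_eq h hk
    have h2 : (⇑F')^[k] (gl F F' T η x) ∈ T := by
      rw [h1]
      exact h.maps _ hk
    have h3 := gl_eq h' h2
    rw [h1, hl _ hk] at h3
    exact F.injective.iterate k h3
  · have hx' : ∀ k, (⇑F)^[k] x ∉ T := fun k hk => hx ⟨k, hk⟩
    rw [gl_off hx']
    have h1 : ∀ k, (⇑F')^[k] x = (⇑F)^[k] x := by
      intro k
      induction k with
      | zero => rfl
      | succ k ih =>
        rw [Function.iterate_succ_apply', Function.iterate_succ_apply', ih]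
        refine (h.off _ fun j => ?_).symm
        rw [← Function.iterate_add_apply]
        exact hx' _
    apply gl_off
    intro k
    rw [h1]
    exact hx' k

end Pool.Agent.Lib.H37D
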