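import Pool.Agent.Lib.H37D.DH10

open TopologicalSpace Set Filter Topology

namespace Pool.Agent.Lib.H37D

variable {X : Type*} [TopologicalSpace X] {F F' : X ≃ₜ X} {T : Set X} {m : ℕ} {η η' : X → X} {p : X}

/-- **DH12 (S).** Near a point whose orbit avoids `T`, for each fixed `k`, the glued map `h` is the identity at the points `u`
with `F^k u ∈ T`.

Proof. If `F^k x ∉ closure T` then `F^k u ∉ closure T` for `u` near `x` (continuity of `F^k`). Otherwise `y = F^k x ∈ closure T`,
its orbit avoids `T` (`F^j y = F^(j+k) x`), so `bdry` holds for all `v` near `y`, in particular for `v = F^k u`, `u` near `x`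
(continuity): if `v ∈ T` then `η v = v` and (with `F^k u = v`) `F'^k u = v`. By `gl_eq`, `F'^k (h u) = η v = v = F'^k u`, so
`h u = u`. -/
theorem gl_near (h : Glue F F' T m η p) {x : X} (hx : ∀ k, (⇑F)^[k] x ∉ T) (k : ℕ) :
    ∀ᶠ u in 𝓝 x, (⇑F)^[k] u ∈ T → gl F F' T η u = u := by
  have hc : Continuous ((⇑F)^[k]) := F.continuous.iterate k
  by_cases hy : (⇑F)^[k] x ∈ closure T
  · have h1 := h.bdry _ hy fun j => by
      rw [← Function.iterate_add_apply]
      exact hx _
    have h2 := (hc.tendsto x).eventually h1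
    filter_upwards [h2] with u hu huT
    obtain ⟨h3, h4⟩ := hu huT
    have h5 := gl_eq h huT
    rw [h3, ← h4 k u rfl] at h5
    exact F'.injective.iterate k h5
  · have h1 : ∀ᶠ u in 𝓝 x, (⇑F)^[k] u ∈ (closure T)ᶜ :=
      (hc.tendsto x).eventually (isClosed_closure.isOpen_compl.mem_nhds hy)
    filter_upwards [h1] with u hu huT
    exact absurd (subset_closure huT) hu

/-- **DH12, second part.** If `k ≥ m` is the first number with `F^k u ∈ T` then `F^k u` is not in `F^m T`.

Proof. If `F^m y = F^k u = F^m (F^(k-m) u)`, `y ∈ T`, then `F^(k-m) u = y ∈ T`, and `k - m < k` (`m > 0`). -/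
theorem gl_first (h : Glue F F' T m η p) {u : X} {k : ℕ} (hk : m ≤ k) (hk' : ∀ j < k, (⇑F)^[j] u ∉ T) :
    ∀ y ∈ T, (⇑F)^[m] y ≠ (⇑F)^[k] u := by
  intro y hy heq
  have h1 : (⇑F)^[k] u = (⇑F)^[m] ((⇑F)^[k - m] u) := by
    rw [← Function.iterate_add_apply, Nat.add_sub_cancel' hk]
  rw [h1] at heq
  have h2 := F.injective.iterate m heq
  rw [h2] at hy
  have := h.pos
  exact hk' (k - m) (by omega) hy

end Pool.Agent.Lib.H37D
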