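import Pool.Agent.Lib.H37D.DH12

open TopologicalSpace Set Filter Topology

namespace Pool.Agent.Lib.H37D

variable {X : Type*} [TopologicalSpace X] {F F' : X ≃ₜ X} {T : Set X} {m : ℕ} {η η' : X → X} {p : X}

/-- **DH13 (M).** The glued map `h` is continuous.

Proof. Let `x` be a point. (1) `F^k x ∈ T` for some `k`: on the open set `{u | F^k u ∈ T}` we have
`h u = F'⁻¹^[k] (η (F^k u))` (`gl_eq`: apply `F'⁻¹^[k]`), which is continuous at `x` (`cont`, `op`: `η` is continuous at `F^k x`).
(2) `F^k x ∉ T` for all `k`; `h x = x` (`gl_off`). Let `V` be a neighbourhood of `x`. We show `h u ∈ V` for `u` near `x`.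
(2a) `x ≠ p`. `X` is Hausdorff: there are disjoint neighbourhoods `V₁` of `x` and `V₂` of `p`. Let `N` be the number of
`unif` for `V₂`; by `gl_near` for `u` near `x` and all `k < max N m`: `F^k u ∈ T → h u = u` (`Filter.eventually_all_finite` or
`(Finset.range _).eventually_all`); let also `u ∈ V₁ ∩ V`. If no `F^k u ∈ T`, `h u = u ∈ V`. Otherwise let `k` be the first one
(`Nat.find`). If `k < max N m` then `h u = u ∈ V`. If `k ≥ max N m` then by `gl_first` and `unif` `u ∈ V₂`, a contradiction.
(2b) `x = p`. Let `N` be the number of `h'.unif` for `V` (the data `(F', F)`), and as before `u` near `p` such that `u ∈ V` and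
`F^k u ∈ T → h u = u` for all `k < max N m`. If no `F^k u ∈ T`, `h u = u ∈ V`. Otherwise let `k` be the first one. If
`k < max N m` then `h u = u ∈ V`. If `k ≥ max N m`, let `y = h u`: `F'^k y = η (F^k u) ∈ T` (`gl_eq`, `maps`), and this point is
not in `F'^m T`: if `F'^m t = η (F^k u)`, `t ∈ T`, then with `s = η' t ∈ T`, `η s = t` and `F'^m t = F'^m (η s) = η (F^m s)`
(`conj`), so `η (F^m s) = η (F^k u)`, and `η'` gives `F^m s = F^k u` (`hl`, both points in `T`), a contradiction to `gl_first`.
So `y ∈ V` by `h'.unif`. -/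
theorem gl_cont [T2Space X] (h : Glue F F' T m η p) (h' : Glue F' F T m η' p) (hl : ∀ x ∈ T, η' (η x) = x)
    (hr : ∀ x ∈ T, η (η' x) = x) : Continuous (gl F F' T η) := by
  classical
  rw [continuous_iff_continuousAt]
  intro x
  by_cases hx : ∃ k, (⇑F)^[k] x ∈ T
  · obtain ⟨k, hk⟩ := hx
    have hc : Continuous (⇑F)^[k] := F.continuous.iterate k
    have hO : ∀ᶠ u in 𝓝 x, (⇑F)^[k] u ∈ T := hc.continuousAt.eventually (h.op.mem_nhds hk)
    have hval : (fun u => (⇑F'.symm)^[k] (η ((⇑F)^[k] u))) =ᶠ[𝓝 x] gl F F' T η := by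
      filter_upwards [hO] with u hu
      rw [← gl_eq h hu]
      exact (Function.LeftInverse.iterate F'.symm_apply_apply k) _
    have h0 : ContinuousAt η ((⇑F)^[k] x) := h.cont.continuousAt (h.op.mem_nhds hk)
    have h1 : ContinuousAt (fun u => (⇑F'.symm)^[k] (η ((⇑F)^[k] u))) x :=
      ContinuousAt.comp (F'.symm.continuous.iterate k).continuousAt
        (ContinuousAt.comp h0 hc.continuousAt)
    exact h1.congr hval
  · push Not at hx
    have h0 : gl F F' T η x = x := gl_off hx
    have hnear : ∀ N, ∀ᶠ u in 𝓝 x, ∀ k ∈ Finset.range N, (⇑F)^[k] u ∈ T →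
        gl F F' T η u = u := fun N =>
      (Finset.range N).eventually_all.2 fun k _ => gl_near h hx k
    intro V hV
    rw [h0] at hV
    show ∀ᶠ u in 𝓝 x, gl F F' T η u ∈ V
    by_cases hp : x = p
    · rw [hp] at hV
      obtain ⟨N, hN⟩ := h'.unif V hV
      rw [← hp] at hV
      filter_upwards [hV, hnear (max N m)] with u hu hk
      by_cases hu' : ∃ k, (⇑F)^[k] u ∈ T
      · have hkT := Nat.find_spec hu'
        by_cases hkk : Nat.find hu' < max N m
        · rw [hk _ (Finset.mem_range.2 hkk) hkT]
          exact hu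
        · push Not at hkk
          have hfirst := gl_first h (k := Nat.find hu') ((le_max_right _ _).trans hkk)
            (fun j hj => Nat.find_min hu' hj)
          refine hN (Nat.find hu') ((le_max_left _ _).trans hkk) _ ?_ ?_
          · rw [gl_eq h hkT]
            exact h.maps _ hkT
          · intro t ht hEq
            rw [gl_eq h hkT] at hEq
            have hs := h'.maps t ht
            have e1 := h.conj _ hs
            rw [hr t ht, hEq] at e1
            have e2 := congrArg η' e1
            rw [hl _ (h.into _ hs), hl _ hkT] at e2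
            exact hfirst _ hs e2
      · push Not at hu'
        rw [gl_off hu']
        exact hu
    · obtain ⟨V₁, V₂, o1, o2, m1, m2, hd⟩ := t2_separation hp
      obtain ⟨N, hN⟩ := h.unif V₂ (o2.mem_nhds m2)
      filter_upwards [hV, o1.mem_nhds m1, hnear (max N m)] with u hu hu1 hk
      by_cases hu' : ∃ k, (⇑F)^[k] u ∈ T
      · have hkT := Nat.find_spec hu'
        by_cases hkk : Nat.find hu' < max N m
        · rw [hk _ (Finset.mem_range.2 hkk) hkT]
          exact hu
        · push Not at hkk
          have hfirst := gl_first h (k := Nat.find hu') ((le_max_right _ _).trans hkk)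
            (fun j hj => Nat.find_min hu' hj)
          have hu2 : u ∈ V₂ := hN (Nat.find hu') ((le_max_left _ _).trans hkk) _ hkT hfirst
          exact absurd hu2 (Set.disjoint_left.1 hd hu1)
      · push Not at hu'
        rw [gl_off hu']
        exact hu

end Pool.Agent.Lib.H37D
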