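import Pool.Agent.Lib.H37D.DH11
import Pool.Agent.Lib.H37D.DH13

open TopologicalSpace Set Filter Topology

namespace Pool.Agent.Lib.H37D

variable {X : Type*} [TopologicalSpace X] {F F' : X ≃ₜ X} {T : Set X} {m : ℕ} {η η' : X → X} {p : X}

/-- **DH14, gluing lemma.** -/
theorem glue [T2Space X] (h : Glue F F' T m η p) (h' : Glue F' F T m η' p) (hl : ∀ x ∈ T, η' (η x) = x)
    (hr : ∀ x ∈ T, η (η' x) = x) : ∃ H : X ≃ₜ X, ∀ x, H (F x) = F' (H x) :=
  ⟨{ toFun := gl F F' T η
     invFun := gl F' F T η'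
     left_inv := gl_inv h h' hl
     right_inv := gl_inv h' h hr
     continuous_toFun := gl_cont h h' hl hr
     continuous_invFun := gl_cont h' h hr hl }, gl_conj h⟩

end Pool.Agent.Lib.H37D
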