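import Mathlib

open TopologicalSpace Set Filter Topology

namespace Pool.Agent.Lib.H37D

/-- **DH20 (M).** Fixed-point lemma for bounded continuous functions.

Proof. We may assume that `Z` is nonempty (otherwise trivial: `k` is the empty function), so `0 ≤ C`. On the complete metric
space `BoundedContinuousFunction Z W` consider `Φ k = (z ↦ G z (k (σ z)))`: continuous, and bounded, as
`‖G z a‖ ≤ ‖G z 0‖ + c ‖a‖ ≤ C + c ‖k‖` (`BoundedContinuousFunction.ofNormedAddCommGroup`). It is a contraction with constant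
`c` (`BoundedContinuousFunction.dist_le`, `hL`): `ContractingWith ⟨c, hc0⟩ Φ`; let `k` be its fixed point
(`ContractingWith.fixedPoint`, `ContractingWith.fixedPoint_isFixedPt`). `‖k z‖ = ‖G z (k (σ z))‖ ≤ C + c ‖k‖` for all `z`, so
`‖k‖ ≤ C + c ‖k‖`, `‖k z‖ ≤ ‖k‖ ≤ C / (1 - c)`. -/
theorem exists_fp {Z W : Type*} [TopologicalSpace Z] [NormedAddCommGroup W] [CompleteSpace W] {G : Z → W → W}
    (hG : Continuous fun q : Z × W => G q.1 q.2) {c C : ℝ} (hc0 : 0 ≤ c) (hc1 : c < 1)
    (hL : ∀ z a b, ‖G z a - G z b‖ ≤ c * ‖a - b‖) (hC : ∀ z, ‖G z 0‖ ≤ C) {σ : Z → Z} (hσ : Continuous σ) :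
    ∃ k : Z → W, Continuous k ∧ (∀ z, ‖k z‖ ≤ C / (1 - c)) ∧ ∀ z, k z = G z (k (σ z)) := by
  rcases isEmpty_or_nonempty Z with hZ | hZ
  · exact ⟨fun _ => 0, continuous_const, fun z => (hZ.false z).elim, fun z => (hZ.false z).elim⟩
  have hb : ∀ z a, ‖G z a‖ ≤ C + c * ‖a‖ := fun z a => by
    have h1 := hL z a 0
    rw [sub_zero] at h1
    have h2 := norm_sub_norm_le (G z a) (G z 0)
    linarith [hC z]
  let Φ : BoundedContinuousFunction Z W → BoundedContinuousFunction Z W := fun k =>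
    BoundedContinuousFunction.ofNormedAddCommGroup (fun z => G z (k (σ z)))
      (hG.comp (continuous_id.prodMk (k.continuous.comp hσ))) (C + c * ‖k‖) (fun z => (hb z _).trans (by
        have := k.norm_coe_le_norm (σ z)
        gcongr))
  have hΦ : ContractingWith (⟨c, hc0⟩ : NNReal) Φ := by
    refine ⟨show (⟨c, hc0⟩ : NNReal) < 1 from NNReal.coe_lt_coe.1 hc1, LipschitzWith.of_dist_le_mul fun k k' => ?_⟩
    show dist (Φ k) (Φ k') ≤ c * dist k k'
    refine (BoundedContinuousFunction.dist_le (mul_nonneg hc0 dist_nonneg)).2 fun z => ?_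
    rw [dist_eq_norm]
    refine (hL z _ _).trans ?_
    rw [← dist_eq_norm]
    exact mul_le_mul_of_nonneg_left (BoundedContinuousFunction.dist_coe_le_dist _) hc0
  have hfix : Φ (ContractingWith.fixedPoint Φ hΦ) = ContractingWith.fixedPoint Φ hΦ :=
    hΦ.fixedPoint_isFixedPt
  generalize ContractingWith.fixedPoint Φ hΦ = k at hfix
  have hk : ∀ z, k z = G z (k (σ z)) := fun z => by
    have h1 : (Φ k) z = k z := by rw [hfix]
    exact h1.symm
  have hk2 : ∀ z, ‖k z‖ ≤ C + c * ‖k‖ := fun z => by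
    rw [hk z]
    refine (hb z _).trans ?_
    have := k.norm_coe_le_norm (σ z)
    gcongr
  have hk3 : ‖k‖ ≤ C + c * ‖k‖ :=
    (BoundedContinuousFunction.norm_le ((norm_nonneg _).trans (hk2 (Classical.arbitrary Z)))).2 hk2
  refine ⟨k, k.continuous, fun z => ?_, hk⟩
  refine (k.norm_coe_le_norm z).trans ?_
  rw [le_div_iff₀ (by linarith)]
  linarith

/-- **DH20, second part (S).** Proof: by induction on `j`, `b z ≤ C * (1 / 8) ^ j` for all `z` with `P z`; the limit is `0`
(`ge_of_tendsto'` with `tendsto_pow_atTop_nhds_zero_of_lt_one`). -/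
theorem eq_zero_of_contr {Z : Type*} {b : Z → ℝ} {C : ℝ} {P : Z → Prop} (h0 : ∀ z, 0 ≤ b z) (hC : ∀ z, P z → b z ≤ C)
    (h : ∀ z, P z → ∃ z', P z' ∧ b z ≤ 1 / 8 * b z') {z : Z} (hz : P z) : b z = 0 := by
  have key : ∀ j : ℕ, ∀ z, P z → b z ≤ C * (1 / 8) ^ j := by
    intro j
    induction j with
    | zero => intro z hz; rw [pow_zero, mul_one]; exact hC z hz
    | succ j ih =>
      intro z hz
      obtain ⟨z', hz', h1⟩ := h z hz
      have h2 := ih z' hz'
      rw [pow_succ]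
      linarith
  have hl : Tendsto (fun j : ℕ => C * (1 / 8 : ℝ) ^ j) atTop (𝓝 (C * 0)) :=
    (tendsto_pow_atTop_nhds_zero_of_lt_one (by norm_num) (by norm_num)).const_mul C
  rw [mul_zero] at hl
  exact le_antisymm (ge_of_tendsto' hl fun j => key j z hz) (h0 z)

end Pool.Agent.Lib.H37D
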