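import Pool.Agent.Lib.H37D.DHA

open TopologicalSpace Set Filter Topology

namespace Pool.Agent.Lib.H37D

/-! **DH21 (S).** Elementary properties of the cut-off `th` and of `Coc`. -/

section

variable {r : ℝ}

theorem th_nonneg (r t : ℝ) : 0 ≤ th r t := le_max_left _ _

theorem th_le_one (r t : ℝ) : th r t ≤ 1 := max_le zero_le_one (min_le_left _ _)

theorem th_one (hr : 0 < r) {t : ℝ} (ht : t ≤ r / 4) : th r t = 1 := by
  have h1 : 4 * t / r ≤ 1 := by rw [div_le_one hr]; linarith
  unfold th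
  rw [min_eq_left (by linarith), max_eq_right zero_le_one]

theorem th_zero (hr : 0 < r) {t : ℝ} (ht : r / 2 ≤ t) : th r t = 0 := by
  have h1 : 2 ≤ 4 * t / r := by rw [le_div_iff₀ hr]; linarith
  unfold th
  exact max_eq_left ((min_le_right _ _).trans (by linarith))

theorem th_cont (r : ℝ) : Continuous (th r) := by
  unfold th
  exact continuous_const.max (continuous_const.min
    (continuous_const.sub ((continuous_const.mul continuous_id).div_const r)))

/-- `max 0 ∘ min 1` is Lipschitz with constant `1` (`abs_max_sub_max_le_max`, `abs_min_sub_min_le_max`). -/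
theorem th_lip (hr : 0 < r) (t t' : ℝ) : |th r t - th r t'| ≤ 4 / r * |t - t'| := by
  unfold th
  have h1 := abs_max_sub_max_le_max (0 : ℝ) (min 1 (2 - 4 * t / r)) 0 (min 1 (2 - 4 * t' / r))
  have h2 := abs_min_sub_min_le_max (1 : ℝ) (2 - 4 * t / r) 1 (2 - 4 * t' / r)
  rw [sub_self, abs_zero] at h1 h2
  have h4 := h1.trans (max_le (abs_nonneg _) le_rfl)
  have h5 := h2.trans (max_le (abs_nonneg _) le_rfl)
  refine (h4.trans h5).trans (le_of_eq ?_)
  have h3 : 2 - 4 * t / r - (2 - 4 * t' / r) = 4 / r * (t' - t) := by ring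
  rw [h3, abs_mul, abs_of_pos (by positivity), abs_sub_comm]

end

variable {Y : Type*} [TopologicalSpace Y] {W : Type*} [NormedAddCommGroup W] [NormedSpace ℝ W] {A B : Y → W ≃L[ℝ] W}

/-- Proof: `((A y).symm : W →L[ℝ] W) = ContinuousLinearMap.inverse (A y : W →L[ℝ] W)` (`ContinuousLinearMap.inverse_equiv`), and
`ContinuousLinearMap.inverse` is continuous at invertible maps (`contDiffAt_map_inverse (A y)` gives `ContDiffAt`, so
`ContinuousAt`; `n = 0`). -/
theorem continuous_symm [CompleteSpace W] (h : Continuous fun y => (A y : W →L[ℝ] W)) :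
    Continuous fun y => ((A y).symm : W →L[ℝ] W) := by
  rw [continuous_iff_continuousAt]
  intro y
  have h1 : ContinuousAt (ContinuousLinearMap.inverse : (W →L[ℝ] W) → W →L[ℝ] W) (A y : W →L[ℝ] W) :=
    (contDiffAt_map_inverse (𝕜 := ℝ) (n := 0) (A y)).continuousAt
  have h2 : ContinuousAt (fun y => ContinuousLinearMap.inverse (A y : W →L[ℝ] W)) y :=
    ContinuousAt.comp (f := fun y => (A y : W →L[ℝ] W)) h1 h.continuousAt
  simpa only [ContinuousLinearMap.inverse_equiv] using h2

/-- `Continuous.clm_apply` -/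
theorem continuous_app (h : Continuous fun y => (A y : W →L[ℝ] W)) : Continuous fun q : Y × W => A q.1 q.2 := by
  have h1 : Continuous fun q : Y × W => (A q.1 : W →L[ℝ] W) q.2 :=
    (h.comp continuous_fst).clm_apply continuous_snd
  exact h1

theorem continuous_app_symm [CompleteSpace W] (h : Continuous fun y => (A y : W →L[ℝ] W)) :
    Continuous fun q : Y × W => (A q.1).symm q.2 := by
  have h1 : Continuous fun q : Y × W => ((A q.1).symm : W →L[ℝ] W) q.2 :=
    ((continuous_symm h).comp continuous_fst).clm_apply continuous_snd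
  exact h1

/-- `‖w‖ = ‖A (A⁻¹ w)‖ ≤ ‖A⁻¹ w‖ / 8` -/
theorem Coc.le_symmA (h : Coc A B) (y : Y) (w : W) : 8 * ‖w‖ ≤ ‖(A y).symm w‖ := by
  have h1 := h.leA y ((A y).symm w)
  rw [ContinuousLinearEquiv.apply_symm_apply] at h1
  linarith

theorem Coc.le_symmB (h : Coc A B) (y : Y) (w : W) : 8 * ‖w‖ ≤ ‖(B y).symm w‖ := by
  have h1 := h.leB y ((B y).symm w)
  rw [ContinuousLinearEquiv.apply_symm_apply] at h1
  linarith

/-- `close` at `A⁻¹ w` -/
theorem Coc.BA (h : Coc A B) (y : Y) (w : W) : ‖B y ((A y).symm w) - w‖ ≤ 1 / 100 * ‖w‖ := by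
  have h1 := h.close y ((A y).symm w)
  rwa [ContinuousLinearEquiv.apply_symm_apply] at h1

/-- `close` at `w = B⁻¹ u`: `‖u - A w‖ ≤ ‖A w‖ / 100 ≤ (‖u‖ + ‖u - A w‖) / 100` -/
theorem Coc.AB (h : Coc A B) (y : Y) (u : W) : ‖A y ((B y).symm u) - u‖ ≤ 1 / 99 * ‖u‖ := by
  have h1 := h.close y ((B y).symm u)
  rw [ContinuousLinearEquiv.apply_symm_apply, norm_sub_rev] at h1
  have h2 : ‖A y ((B y).symm u)‖ ≤ ‖A y ((B y).symm u) - u‖ + ‖u‖ := by
    have := norm_add_le (A y ((B y).symm u) - u) u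
    rwa [sub_add_cancel] at this
  linarith

end Pool.Agent.Lib.H37D
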