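import Pool.Agent.Lib.H37D.DH20
import Pool.Agent.Lib.H37D.DH21

open TopologicalSpace Set Filter Topology

namespace Pool.Agent.Lib.H37D

variable {Y : Type*} [TopologicalSpace Y] {W : Type*} [NormedAddCommGroup W] [NormedSpace ℝ W] {A B : Y → W ≃L[ℝ] W} {r : ℝ}

theorem dh22_eq (y : Y) (w : W) :
    sC A B r y w - w = th r ‖w‖ • (B y ((A y).symm w) - w) := by
  unfold sC
  abel

theorem dh22_aux (h : Coc A B) (hr : 0 < r) (y : Y) (w w' : W) (hle : ‖w'‖ ≤ ‖w‖) :
    ‖(sC A B r y w - w) - (sC A B r y w' - w')‖ ≤ 3 / 100 * ‖w - w'‖ := by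
  rw [dh22_eq, dh22_eq]
  by_cases hw' : r / 2 ≤ ‖w'‖
  · rw [th_zero hr hw', th_zero hr (hw'.trans hle), zero_smul, zero_smul, sub_zero, norm_zero]
    positivity
  · have hw : ‖w'‖ < r / 2 := not_le.mp hw'
    have e : th r ‖w‖ • (B y ((A y).symm w) - w) - th r ‖w'‖ • (B y ((A y).symm w') - w')
        = th r ‖w‖ • (B y ((A y).symm (w - w')) - (w - w'))
          + (th r ‖w‖ - th r ‖w'‖) • (B y ((A y).symm w') - w') := by
      rw [map_sub, map_sub]
      module
    rw [e]
    refine (norm_add_le _ _).trans ?_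
    have h1 : ‖th r ‖w‖ • (B y ((A y).symm (w - w')) - (w - w'))‖ ≤ 1 / 100 * ‖w - w'‖ := by
      rw [norm_smul, Real.norm_eq_abs, abs_of_nonneg (th_nonneg _ _)]
      calc th r ‖w‖ * ‖B y ((A y).symm (w - w')) - (w - w')‖
          ≤ 1 * (1 / 100 * ‖w - w'‖) :=
            mul_le_mul (th_le_one _ _) (h.BA y _) (norm_nonneg _) zero_le_one
        _ = 1 / 100 * ‖w - w'‖ := one_mul _
    have h2 : ‖(th r ‖w‖ - th r ‖w'‖) • (B y ((A y).symm w') - w')‖ ≤ 2 / 100 * ‖w - w'‖ := by
      rw [norm_smul, Real.norm_eq_abs]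
      have h3 : |th r ‖w‖ - th r ‖w'‖| ≤ 4 / r * ‖w - w'‖ :=
        (th_lip hr _ _).trans (mul_le_mul_of_nonneg_left (abs_norm_sub_norm_le w w')
          (by positivity))
      have h4 : ‖B y ((A y).symm w') - w'‖ ≤ 1 / 100 * (r / 2) :=
        (h.BA y w').trans (by linarith)
      calc |th r ‖w‖ - th r ‖w'‖| * ‖B y ((A y).symm w') - w'‖
          ≤ (4 / r * ‖w - w'‖) * (1 / 100 * (r / 2)) :=
            mul_le_mul h3 h4 (norm_nonneg _) (by positivity)
        _ = 2 / 100 * ‖w - w'‖ := by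
            field_simp
            ring
    linarith

/-- **DH22 (M).** `sC A B r y` is a Lipschitz perturbation of the identity.

Proof. `g w = B_y A_y⁻¹ w - w` is linear with `‖g w‖ ≤ ‖w‖ / 100` (`Coc.BA`), `sC y w - w = θ(‖w‖) g w`, `θ = th r`. By symmetry let
`‖w'‖ ≤ ‖w‖`. If `‖w'‖ ≥ r/2` both terms are `0`. Otherwise
`θ(‖w‖) g w - θ(‖w'‖) g w' = θ(‖w‖) g (w - w') + (θ(‖w‖) - θ(‖w'‖)) g w'` has norm at most
`‖w - w'‖ / 100 + (4 / r) ‖w - w'‖ (r / 2) / 100 = 3/100 ‖w - w'‖` (`th_lip`, `abs_norm_sub_norm_le`). -/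
theorem sC_lip (h : Coc A B) (hr : 0 < r) (y : Y) (w w' : W) :
    ‖(sC A B r y w - w) - (sC A B r y w' - w')‖ ≤ 3 / 100 * ‖w - w'‖ := by
  rcases le_total ‖w'‖ ‖w‖ with hle | hle
  · exact dh22_aux h hr y w w' hle
  · rw [norm_sub_rev, norm_sub_rev w w']
    exact dh22_aux h hr y w' w hle

/-- If `‖w‖ ≥ r/2` it is `0`, otherwise `‖w‖ / 100 ≤ r / 200`. -/
theorem sC_bound (h : Coc A B) (hr : 0 < r) (y : Y) (w : W) : ‖sC A B r y w - w‖ ≤ r / 200 := by
  rw [dh22_eq]
  by_cases hw' : r / 2 ≤ ‖w‖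
  · rw [th_zero hr hw', zero_smul, norm_zero]
    positivity
  · have hw : ‖w‖ < r / 2 := not_le.mp hw'
    rw [norm_smul, Real.norm_eq_abs, abs_of_nonneg (th_nonneg _ _)]
    calc th r ‖w‖ * ‖B y ((A y).symm w) - w‖ ≤ 1 * (1 / 100 * ‖w‖) :=
          mul_le_mul (th_le_one _ _) (h.BA y _) (norm_nonneg _) zero_le_one
      _ ≤ r / 200 := by linarith

theorem sC_cont [CompleteSpace W] (h : Coc A B) (r : ℝ) : Continuous fun q : Y × W => sC A B r q.1 q.2 := by
  have h1 : Continuous fun q : Y × W => (A q.1).symm q.2 := continuous_app_symm h.contA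
  have h2 : Continuous fun q : Y × W => B q.1 ((A q.1).symm q.2) :=
    (continuous_app h.contB).comp (continuous_fst.prodMk h1)
  have h3 : Continuous fun q : Y × W => th r ‖q.2‖ := (th_cont r).comp continuous_snd.norm
  exact continuous_snd.add (h3.smul (h2.sub continuous_snd))

/-- **DH22, second part.** The inverse of `sC` is continuous in both variables.

Proof. `exists_fp` with `Z = Y × W`, `σ = id`, `G (y, u) a = -(sC y (u + a) - (u + a))`, `c = 3/100`, `C = r/200` gives a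
continuous `k`; let `S y u = u + k (y, u)`. Then `S y u - u = -(sC y (S y u) - S y u)`, so `sC y (S y u) = u`. `sC y` is injective
(`sC_lip`: if `sC y w = sC y w'` then `‖w - w'‖ ≤ 3/100 ‖w - w'‖`), so `S y (sC y w) = w`. -/
theorem exists_sInv [CompleteSpace W] (h : Coc A B) (hr : 0 < r) :
    ∃ S : Y → W → W, (Continuous fun q : Y × W => S q.1 q.2) ∧ (∀ y w, S y (sC A B r y w) = w) ∧
      ∀ y w, sC A B r y (S y w) = w := by
  have hs : Continuous fun q : (Y × W) × W => q.1.2 + q.2 :=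
    (continuous_snd.comp continuous_fst).add continuous_snd
  have hG : Continuous fun q : (Y × W) × W =>
      -(sC A B r q.1.1 (q.1.2 + q.2) - (q.1.2 + q.2)) := by
    have h1 : Continuous fun q : (Y × W) × W => sC A B r q.1.1 (q.1.2 + q.2) :=
      (sC_cont h r).comp ((continuous_fst.comp continuous_fst).prodMk hs)
    exact (h1.sub hs).neg
  obtain ⟨k, hk, _, hfix⟩ := exists_fp (Z := Y × W) (W := W)
    (G := fun z a => -(sC A B r z.1 (z.2 + a) - (z.2 + a))) hG (c := 3 / 100) (C := r / 200)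
    (by norm_num) (by norm_num)
    (by
      intro z a b
      have h1 := sC_lip h hr z.1 (z.2 + a) (z.2 + b)
      have e : ‖-(sC A B r z.1 (z.2 + a) - (z.2 + a)) - -(sC A B r z.1 (z.2 + b) - (z.2 + b))‖
          = ‖(sC A B r z.1 (z.2 + a) - (z.2 + a)) - (sC A B r z.1 (z.2 + b) - (z.2 + b))‖ := by
        rw [← norm_neg]
        congr 1
        abel
      rw [add_sub_add_left_eq_sub] at h1
      calc _ = _ := e
        _ ≤ _ := h1)
    (by
      intro z
      have h1 := sC_bound h hr z.1 (z.2 + 0)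
      show ‖-(sC A B r z.1 (z.2 + 0) - (z.2 + 0))‖ ≤ r / 200
      rw [norm_neg]
      exact h1)
    (σ := id) continuous_id
  have hright : ∀ y w, sC A B r y (w + k (y, w)) = w := by
    intro y w
    have h1 : k (y, w) = -(sC A B r y (w + k (y, w)) - (w + k (y, w))) := hfix (y, w)
    have h2 : sC A B r y (w + k (y, w)) = (w + k (y, w)) - k (y, w) := by
      nth_rewrite 3 [h1]
      abel
    rw [h2]
    abel
  have hinj : ∀ y w w', sC A B r y w = sC A B r y w' → w = w' := by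
    intro y w w' he
    have h1 := sC_lip h hr y w w'
    have e : (sC A B r y w - w) - (sC A B r y w' - w') = -(w - w') := by
      rw [he]
      abel
    rw [e, norm_neg] at h1
    have h2 : ‖w - w'‖ ≤ 0 := by linarith [norm_nonneg (w - w')]
    exact sub_eq_zero.mp (norm_le_zero_iff.mp h2)
  refine ⟨fun y u => u + k (y, u), ?_, ?_, hright⟩
  · exact continuous_snd.add hk
  · intro y w
    exact hinj y _ _ (hright y (sC A B r y w))

end Pool.Agent.Lib.H37D
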