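import Pool.Agent.Lib.H37D.DH22

open TopologicalSpace Set Filter Topology

namespace Pool.Agent.Lib.H37D

variable {Y : Type*} [TopologicalSpace Y] {W : Type*} [NormedAddCommGroup W] [NormedSpace ℝ W] {A B : Y → W ≃L[ℝ] W} {r : ℝ}

/-- **DH23 (M).** The map `K`: solution of `K y w = (1 - θ) w + θ B_y K (ψ⁻¹ y, A_y⁻¹ w)`, `θ = th r ‖w‖`.

Proof. `exists_fp` with `Z = Y × W`, `σ (y, w) = (ψ⁻¹ y, A_y⁻¹ w)` (continuous by `continuous_app_symm`),
`G (y, w) a = θ(‖w‖) (B_y A_y⁻¹ w - w) + θ(‖w‖) B_y a` (continuous by `continuous_app`; the first summand is `sC y w - w`),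
`c = 1/8` (`leB`, `0 ≤ θ ≤ 1`), `C = r/200` (`sC_bound`) gives a continuous `k` with `‖k‖ ≤ (8/7) (r/200) ≤ r/100`; let
`K y w = w + k (y, w)`. Then `K y w - w = θ (B_y A_y⁻¹ w - w) + θ B_y (K (ψ⁻¹ y) (A_y⁻¹ w) - A_y⁻¹ w)`, this is the equation
in the first property. If `‖w‖ ≥ r/2` then `θ = 0`, so `K y w = w`. If `‖w‖ ≥ r/16`, then `‖A_y⁻¹ w‖ ≥ r/2` (`le_symmA`), so
`K (ψ⁻¹ y) (A_y⁻¹ w) = A_y⁻¹ w` and `K y w = sC y w`. If `‖w‖ ≤ r/4` then `θ = 1`. -/
theorem exists_K [CompleteSpace W] (h : Coc A B) (hr : 0 < r) (ψ : Y ≃ₜ Y) :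
    ∃ K : Y → W → W, (Continuous fun q : Y × W => K q.1 q.2) ∧ (∀ y w, ‖K y w - w‖ ≤ r / 100) ∧
      (∀ y w, K y w - w = th r ‖w‖ • (B y (K (ψ.symm y) ((A y).symm w)) - w)) ∧
      (∀ y w, r / 2 ≤ ‖w‖ → K y w = w) ∧ (∀ y w, r / 16 ≤ ‖w‖ → K y w = sC A B r y w) ∧
      ∀ y w, ‖w‖ ≤ r / 4 → K y w = B y (K (ψ.symm y) ((A y).symm w)) := by
  have hAs := continuous_app_symm h.contA
  have hB := continuous_app h.contB
  have hth : Continuous fun q : Y × W => th r ‖q.2‖ := (th_cont r).comp continuous_snd.norm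
  have hσ : Continuous fun z : Y × W => (ψ.symm z.1, (A z.1).symm z.2) :=
    (ψ.symm.continuous.comp continuous_fst).prodMk hAs
  have hG : Continuous fun q : (Y × W) × W =>
      (sC A B r q.1.1 q.1.2 - q.1.2) + th r ‖q.1.2‖ • B q.1.1 q.2 := by
    have c1 : Continuous fun q : (Y × W) × W => sC A B r q.1.1 q.1.2 :=
      (sC_cont h r).comp continuous_fst
    have c2 : Continuous fun q : (Y × W) × W => th r ‖q.1.2‖ := hth.comp continuous_fst
    have c3 : Continuous fun q : (Y × W) × W => B q.1.1 q.2 :=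
      hB.comp ((continuous_fst.comp continuous_fst).prodMk continuous_snd)
    exact (c1.sub (continuous_snd.comp continuous_fst)).add (c2.smul c3)
  obtain ⟨k, hk, hkb, hkf⟩ := exists_fp (Z := Y × W) (W := W)
    (G := fun z a => (sC A B r z.1 z.2 - z.2) + th r ‖z.2‖ • B z.1 a) hG
    (c := 1 / 8) (C := r / 200) (by norm_num) (by norm_num)
    (by
      intro z a b
      have e : (sC A B r z.1 z.2 - z.2) + th r ‖z.2‖ • B z.1 a
          - ((sC A B r z.1 z.2 - z.2) + th r ‖z.2‖ • B z.1 b) = th r ‖z.2‖ • B z.1 (a - b) := by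
        rw [map_sub, smul_sub]; abel
      rw [e, norm_smul, Real.norm_eq_abs, abs_of_nonneg (th_nonneg _ _)]
      calc th r ‖z.2‖ * ‖B z.1 (a - b)‖ ≤ 1 * (1 / 8 * ‖a - b‖) :=
            mul_le_mul (th_le_one _ _) (h.leB _ _) (norm_nonneg _) (by norm_num)
        _ = 1 / 8 * ‖a - b‖ := one_mul _)
    (by
      intro z
      simp only [map_zero, smul_zero, add_zero]
      exact sC_bound h hr z.1 z.2)
    hσ
  have h3 : ∀ y w, (w + k (y, w)) - w =
      th r ‖w‖ • (B y ((A y).symm w + k (ψ.symm y, (A y).symm w)) - w) := by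
    intro y w
    have := hkf (y, w)
    simp only at this
    have e1 : sC A B r y w - w = th r ‖w‖ • (B y ((A y).symm w) - w) := by
      unfold sC; abel
    rw [e1] at this
    rw [add_sub_cancel_left, this, map_add, ← smul_add]
    congr 1
    abel
  have h4 : ∀ y w, r / 2 ≤ ‖w‖ → w + k (y, w) = w := by
    intro y w hw
    have := h3 y w
    rw [th_zero hr hw, zero_smul, sub_eq_zero] at this
    exact this
  refine ⟨fun y w => w + k (y, w), ?_, ?_, h3, h4, ?_, ?_⟩
  · exact continuous_snd.add hk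
  · intro y w
    rw [add_sub_cancel_left]
    refine (hkb (y, w)).trans ?_
    rw [div_le_iff₀ (by norm_num)]
    linarith
  · intro y w hw
    have h5 := h3 y w
    have h6 : (A y).symm w + k (ψ.symm y, (A y).symm w) = (A y).symm w := by
      apply h4
      have := h.le_symmA y w
      linarith
    rw [h6] at h5
    have e0 : w + k (y, w) = w + ((w + k (y, w)) - w) := by abel
    change w + k (y, w) = _
    rw [e0, h5]
    rfl
  · intro y w hw
    have h5 := h3 y w
    rw [th_one hr hw, one_smul] at h5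
    exact sub_left_injective h5

end Pool.Agent.Lib.H37D
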