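import Pool.Agent.Lib.H37D.DH22

open TopologicalSpace Set Filter Topology

namespace Pool.Agent.Lib.H37D

variable {Y : Type*} [TopologicalSpace Y] {W : Type*} [NormedAddCommGroup W] [NormedSpace ℝ W] {A B : Y → W ≃L[ℝ] W} {r : ℝ}

/-- **DH24 (M).** The map `L`, which will be the inverse of `K`: the solution of
`L y u = (1 - θ') S_y u + θ' A_y L (ψ⁻¹ y, B_y⁻¹ u)`, where `θ' = th r (4 ‖u‖)` (so `θ' = 1` for `‖u‖ ≤ r/16` and `θ' = 0` for
`‖u‖ ≥ r/8`) and `S` is the inverse of `sC`.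

Proof. `exists_fp` with `Z = Y × W`, `σ (y, u) = (ψ⁻¹ y, B_y⁻¹ u)`,
`G (y, u) a = (1 - θ') (S_y u - u) + θ' (A_y B_y⁻¹ u - u) + θ' A_y a`, `c = 1/8`, `C = r/200`: `‖S_y u - u‖ ≤ r/200` by `sC_bound` at
`S_y u`, and `θ' ‖A_y B_y⁻¹ u - u‖ ≤ θ' ‖u‖ / 99 ≤ θ' r / 200` (`Coc.AB`; `θ' = 0` if `‖u‖ ≥ r/8`). It gives `l` with `‖l‖ ≤ r/100`;
`L y u = u + l (y, u)`, and `L y u = (1 - θ') S_y u + θ' A_y L (ψ⁻¹ y) (B_y⁻¹ u)`  (E).
(1) If `‖u‖ ≥ r/8`, then `θ' = 0`: `L y u = S_y u`. If `‖u‖ ≥ r/2`, moreover `sC y u = u` (`th_zero`), so `S_y u = u`, `L y u = u`.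
(2) Let `r/16 ≤ ‖u‖ ≤ r/8`. `‖B_y⁻¹ u‖ ≥ r/2` (`le_symmB`), so `L (ψ⁻¹ y) (B_y⁻¹ u) = B_y⁻¹ u` by (1). `w = A_y B_y⁻¹ u` has
`‖w‖ ≤ (1 + 1/99) r/8 ≤ r/4`, so `sC y w = B_y A_y⁻¹ w = u` (`th_one`) and `S_y u = w`. So both terms in (E) are multiples of
`w`: `L y u = w = S_y u = A_y L (ψ⁻¹ y) (B_y⁻¹ u)`.
(3) If `‖u‖ ≤ r/16` then `θ' = 1`. -/
theorem exists_L [CompleteSpace W] (h : Coc A B) (hr : 0 < r) (ψ : Y ≃ₜ Y) {S : Y → W → W}
    (hS : Continuous fun q : Y × W => S q.1 q.2) (hl : ∀ y w, S y (sC A B r y w) = w) (hr' : ∀ y w, sC A B r y (S y w) = w) :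
    ∃ L : Y → W → W, (Continuous fun q : Y × W => L q.1 q.2) ∧ (∀ y u, ‖L y u - u‖ ≤ r / 100) ∧
      (∀ y u, r / 2 ≤ ‖u‖ → L y u = u) ∧ (∀ y u, r / 16 ≤ ‖u‖ → L y u = S y u) ∧
      ∀ y u, ‖u‖ ≤ r / 8 → L y u = A y (L (ψ.symm y) ((B y).symm u)) := by
  have hcA := continuous_app h.contA
  have hcBs := continuous_app_symm h.contB
  have t0 : ∀ y : Y × W, 0 ≤ th r (4 * ‖y.2‖) := fun y => th_nonneg _ _
  have t1 : ∀ y : Y × W, th r (4 * ‖y.2‖) ≤ 1 := fun y => th_le_one _ _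
  have hSb : ∀ y u, ‖S y u - u‖ ≤ r / 200 := fun y u => by
    have h1 := sC_bound h hr y (S y u)
    rw [hr', norm_sub_rev] at h1
    exact h1
  obtain ⟨l, lc, lb, le⟩ := exists_fp (Z := Y × W) (W := W)
    (G := fun q a => (1 - th r (4 * ‖q.2‖)) • (S q.1 q.2 - q.2) +
      th r (4 * ‖q.2‖) • (A q.1 ((B q.1).symm q.2) - q.2) + th r (4 * ‖q.2‖) • A q.1 a)
    (σ := fun q => (ψ.symm q.1, (B q.1).symm q.2)) (c := 1 / 8) (C := r / 200)
    (by
      have c1 : Continuous fun q : (Y × W) × W => th r (4 * ‖q.1.2‖) :=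
        (th_cont r).comp (continuous_const.mul (continuous_norm.comp (continuous_snd.comp continuous_fst)))
      have c2 : Continuous fun q : (Y × W) × W => S q.1.1 q.1.2 := hS.comp continuous_fst
      have c3 : Continuous fun q : (Y × W) × W => (B q.1.1).symm q.1.2 := hcBs.comp continuous_fst
      have c4 : Continuous fun q : (Y × W) × W => A q.1.1 ((B q.1.1).symm q.1.2) :=
        hcA.comp ((continuous_fst.comp continuous_fst).prodMk c3)
      have c5 : Continuous fun q : (Y × W) × W => A q.1.1 q.2 :=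
        hcA.comp ((continuous_fst.comp continuous_fst).prodMk continuous_snd)
      have c6 : Continuous fun q : (Y × W) × W => q.1.2 := continuous_snd.comp continuous_fst
      exact (((continuous_const.sub c1).smul (c2.sub c6)).add (c1.smul (c4.sub c6))).add (c1.smul c5))
    (by norm_num) (by norm_num)
    (fun z a b => by
      have e : ((1 - th r (4 * ‖z.2‖)) • (S z.1 z.2 - z.2) +
          th r (4 * ‖z.2‖) • (A z.1 ((B z.1).symm z.2) - z.2) + th r (4 * ‖z.2‖) • A z.1 a) -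
          ((1 - th r (4 * ‖z.2‖)) • (S z.1 z.2 - z.2) +
          th r (4 * ‖z.2‖) • (A z.1 ((B z.1).symm z.2) - z.2) + th r (4 * ‖z.2‖) • A z.1 b) =
          th r (4 * ‖z.2‖) • A z.1 (a - b) := by
        rw [map_sub]
        module
      show ‖((1 - th r (4 * ‖z.2‖)) • (S z.1 z.2 - z.2) +
          th r (4 * ‖z.2‖) • (A z.1 ((B z.1).symm z.2) - z.2) + th r (4 * ‖z.2‖) • A z.1 a) -
          ((1 - th r (4 * ‖z.2‖)) • (S z.1 z.2 - z.2) +
          th r (4 * ‖z.2‖) • (A z.1 ((B z.1).symm z.2) - z.2) + th r (4 * ‖z.2‖) • A z.1 b)‖ ≤ _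
      rw [e, norm_smul, Real.norm_eq_abs, abs_of_nonneg (t0 z)]
      have h1 := h.leA z.1 (a - b)
      have h2 : th r (4 * ‖z.2‖) * ‖A z.1 (a - b)‖ ≤ 1 * ‖A z.1 (a - b)‖ :=
        mul_le_mul_of_nonneg_right (t1 z) (norm_nonneg _)
      linarith)
    (fun z => by
      show ‖(1 - th r (4 * ‖z.2‖)) • (S z.1 z.2 - z.2) +
          th r (4 * ‖z.2‖) • (A z.1 ((B z.1).symm z.2) - z.2) + th r (4 * ‖z.2‖) • A z.1 0‖ ≤ _
      rw [map_zero, smul_zero, add_zero]
      refine (norm_add_le _ _).trans ?_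
      rw [norm_smul, norm_smul, Real.norm_eq_abs, Real.norm_eq_abs, abs_of_nonneg (t0 z),
        abs_of_nonneg (sub_nonneg.2 (t1 z))]
      have h1 : (1 - th r (4 * ‖z.2‖)) * ‖S z.1 z.2 - z.2‖ ≤ (1 - th r (4 * ‖z.2‖)) * (r / 200) :=
        mul_le_mul_of_nonneg_left (hSb _ _) (sub_nonneg.2 (t1 z))
      have h2 : th r (4 * ‖z.2‖) * ‖A z.1 ((B z.1).symm z.2) - z.2‖ ≤ th r (4 * ‖z.2‖) * (r / 200) := by
        rcases le_or_gt (r / 8) ‖z.2‖ with h3 | h3
        · rw [th_zero hr (by linarith), zero_mul, zero_mul]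
        · refine mul_le_mul_of_nonneg_left ?_ (t0 z)
          have h4 := h.AB z.1 z.2
          linarith
      linarith)
    (by
      exact (ψ.symm.continuous.comp continuous_fst).prodMk hcBs)
  have E : ∀ y u, u + l (y, u) = (1 - th r (4 * ‖u‖)) • S y u +
      th r (4 * ‖u‖) • A y ((B y).symm u + l (ψ.symm y, (B y).symm u)) := fun y u => by
    have h1 : l (y, u) = (1 - th r (4 * ‖u‖)) • (S y u - u) +
      th r (4 * ‖u‖) • (A y ((B y).symm u) - u) +
        th r (4 * ‖u‖) • A y (l (ψ.symm y, (B y).symm u)) := le (y, u)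
    rw [h1, map_add]
    module
  have P1 : ∀ y u, r / 8 ≤ ‖u‖ → u + l (y, u) = S y u := fun y u hu => by
    rw [E y u, th_zero hr (by linarith), sub_zero, one_smul, zero_smul, add_zero]
  have P1' : ∀ y u, r / 2 ≤ ‖u‖ → u + l (y, u) = u := fun y u hu => by
    rw [P1 y u (by linarith)]
    have h1 : sC A B r y u = u := by
      unfold sC
      rw [th_zero hr hu, zero_smul, add_zero]
    calc S y u = S y (sC A B r y u) := by rw [h1]
      _ = u := hl y u
  have P2 : ∀ y u, r / 16 ≤ ‖u‖ → ‖u‖ ≤ r / 8 →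
      A y ((B y).symm u + l (ψ.symm y, (B y).symm u)) = S y u := fun y u h1 h2 => by
    have h3 := h.le_symmB y u
    rw [P1' (ψ.symm y) ((B y).symm u) (by linarith)]
    have h4 := h.AB y u
    have h5 : ‖A y ((B y).symm u)‖ ≤ r / 4 := by
      have h6 := norm_sub_norm_le (A y ((B y).symm u)) u
      linarith
    have h7 : sC A B r y (A y ((B y).symm u)) = u := by
      unfold sC
      rw [th_one hr h5, one_smul, ContinuousLinearEquiv.symm_apply_apply,
        ContinuousLinearEquiv.apply_symm_apply]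
      abel
    calc A y ((B y).symm u) = S y (sC A B r y (A y ((B y).symm u))) := (hl _ _).symm
      _ = S y u := by rw [h7]
  have P2' : ∀ y u, r / 16 ≤ ‖u‖ → u + l (y, u) = S y u := fun y u h1 => by
    rcases le_or_gt ‖u‖ (r / 8) with h2 | h2
    · rw [E y u, P2 y u h1 h2]
      module
    · exact P1 y u h2.le
  refine ⟨fun y u => u + l (y, u), continuous_snd.add lc, fun y u => ?_, P1', P2', fun y u hu => ?_⟩
  · show ‖u + l (y, u) - u‖ ≤ r / 100
    rw [add_sub_cancel_left]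
    refine (lb (y, u)).trans ?_
    have e : r / 200 / (1 - 1 / 8) = 1 / 175 * r := by ring
    rw [e]
    linarith
  · show u + l (y, u) = A y ((B y).symm u + l (ψ.symm y, (B y).symm u))
    rcases le_or_gt (r / 16) ‖u‖ with h1 | h1
    · rw [P2' y u h1, P2 y u h1 hu]
    · rw [E y u, th_one hr (by linarith)]
      module

end Pool.Agent.Lib.H37D
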