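import Pool.Agent.Lib.H37D.DH22

open TopologicalSpace Set Filter Topology

namespace Pool.Agent.Lib.H37D

variable {Y : Type*} [TopologicalSpace Y] {W : Type*} [NormedAddCommGroup W] [NormedSpace ℝ W] {A B : Y → W ≃L[ℝ] W} {r : ℝ}

/-- **DH25 (M).** `L ∘ K = id`.

Proof. `b (y, w) = ‖L y (K y w) - w‖` is bounded by `r/50` (`hKb`, `hLb`). We show for each `(y, w)`: `b (y, w) = 0` or
`b (y, w) ≤ b (ψ⁻¹ y, A_y⁻¹ w) / 8`; then `eq_zero_of_contr` (DH20, `P = True`) gives `b = 0`.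
(1) `‖w‖ ≥ r/16`, `u = K y w = sC y w` (`hKs`). If `‖u‖ ≥ r/16`: `L y u = S y u = w`. If `‖u‖ < r/16`: `‖w‖ ≤ ‖u‖ + r/200 ≤ r/4` (`sC_bound`), so
`u = B_y A_y⁻¹ w` (`th_one`), `B_y⁻¹ u = A_y⁻¹ w`, of norm `≥ r/2` (`le_symmA`). `L y u = A_y L (ψ⁻¹ y) (A_y⁻¹ w) = A_y A_y⁻¹ w = w` (`hLi`, `hL1`).
(2) `‖w‖ < r/16`: `u = K y w = B_y K (ψ⁻¹ y) (A_y⁻¹ w)` (`hKi`), `‖u‖ ≤ r/16 + r/100 ≤ r/8`, so
`L y u = A_y L (ψ⁻¹ y) (B_y⁻¹ u) = A_y L (ψ⁻¹ y) (K (ψ⁻¹ y) (A_y⁻¹ w))` and
`L y u - w = A_y (L (ψ⁻¹ y) (K (ψ⁻¹ y) (A_y⁻¹ w)) - A_y⁻¹ w)`, with norm `≤ b (ψ⁻¹ y, A_y⁻¹ w) / 8` (`leA`). -/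
theorem L_K [CompleteSpace W] (h : Coc A B) (hr : 0 < r) (ψ : Y ≃ₜ Y) {S K L : Y → W → W}
    (hl : ∀ y w, S y (sC A B r y w) = w)
    (hKb : ∀ y w, ‖K y w - w‖ ≤ r / 100) (hKs : ∀ y w, r / 16 ≤ ‖w‖ → K y w = sC A B r y w)
    (hKi : ∀ y w, ‖w‖ ≤ r / 4 → K y w = B y (K (ψ.symm y) ((A y).symm w)))
    (hLb : ∀ y u, ‖L y u - u‖ ≤ r / 100) (hL1 : ∀ y u, r / 2 ≤ ‖u‖ → L y u = u)
    (hLs : ∀ y u, r / 16 ≤ ‖u‖ → L y u = S y u)
    (hLi : ∀ y u, ‖u‖ ≤ r / 8 → L y u = A y (L (ψ.symm y) ((B y).symm u))) (y : Y) (w : W) : L y (K y w) = w := by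
  have key := eq_zero_of_contr (Z := Y × W) (b := fun z => ‖L z.1 (K z.1 z.2) - z.2‖) (C := r / 50)
    (P := fun _ => True) (fun z => norm_nonneg _)
    (by
      intro z _
      have e : L z.1 (K z.1 z.2) - z.2 = (L z.1 (K z.1 z.2) - K z.1 z.2) + (K z.1 z.2 - z.2) := by abel
      rw [e]
      refine (norm_add_le _ _).trans ?_
      have h1 := hLb z.1 (K z.1 z.2)
      have h2 := hKb z.1 z.2
      linarith)
    (by
      rintro ⟨y, w⟩ _
      refine ⟨(ψ.symm y, (A y).symm w), trivial, ?_⟩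
      simp only
      rcases le_or_gt (r / 16) ‖w‖ with hw | hw
      · have hz : L y (K y w) = w := by
          have hu := hKs y w hw
          rcases le_or_gt (r / 16) ‖K y w‖ with hu2 | hu2
          · rw [hLs y _ hu2, hu, hl]
          · have hb := hKb y w
            have hw4 : ‖w‖ ≤ r / 4 := by
              have e : w = K y w - (K y w - w) := by abel
              have : ‖w‖ ≤ ‖K y w‖ + ‖K y w - w‖ := by
                calc ‖w‖ = ‖K y w - (K y w - w)‖ := by rw [← e]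
                  _ ≤ _ := norm_sub_le _ _
              linarith
            have hu3 : K y w = B y ((A y).symm w) := by
              rw [hu]
              unfold sC
              rw [th_one hr hw4, one_smul]
              abel
            rw [hLi y _ (by linarith)]
            have e2 : (B y).symm (K y w) = (A y).symm w := by
              rw [hu3, ContinuousLinearEquiv.symm_apply_apply]
            rw [e2, hL1 _ _ (by have := h.le_symmA y w; linarith),
              ContinuousLinearEquiv.apply_symm_apply]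
        rw [hz, sub_self, norm_zero]
        positivity
      · have hb := hKb y w
        have hu2 : ‖K y w‖ ≤ r / 8 := by
          have : ‖K y w‖ ≤ ‖K y w - w‖ + ‖w‖ := by
            calc ‖K y w‖ = ‖(K y w - w) + w‖ := by rw [sub_add_cancel]
              _ ≤ _ := norm_add_le _ _
          linarith
        have e1 : L y (K y w) = A y (L (ψ.symm y) (K (ψ.symm y) ((A y).symm w))) := by
          rw [hLi y _ hu2]
          have : (B y).symm (K y w) = K (ψ.symm y) ((A y).symm w) := by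
            rw [hKi y w (by linarith), ContinuousLinearEquiv.symm_apply_apply]
          rw [this]
        have e2 : L y (K y w) - w = A y (L (ψ.symm y) (K (ψ.symm y) ((A y).symm w)) - (A y).symm w) := by
          rw [map_sub, ContinuousLinearEquiv.apply_symm_apply, e1]
        rw [e2]
        exact h.leA _ _)
    (z := (y, w)) trivial
  simp only at key
  rw [norm_eq_zero, sub_eq_zero] at key
  exact key

end Pool.Agent.Lib.H37D
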