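import Pool.Agent.Lib.H37D.DH22

open TopologicalSpace Set Filter Topology

namespace Pool.Agent.Lib.H37D

variable {Y : Type*} [TopologicalSpace Y] {W : Type*} [NormedAddCommGroup W] [NormedSpace ℝ W] {A B : Y → W ≃L[ℝ] W} {r : ℝ}

/-- **DH26 (M).** `K ∘ L = id`.

Proof. `b (y, u) = ‖K y (L y u) - u‖` is bounded by `r/50`. We show for each `(y, u)`: `b (y, u) = 0` or
`b (y, u) ≤ b (ψ⁻¹ y, B_y⁻¹ u) / 8`; then `eq_zero_of_contr` (DH20, `P = True`) gives `b = 0`.
(1) `‖u‖ ≥ r/16`, `w = L y u = S y u` (`hLs`), so `sC y w = u`. If `‖w‖ ≥ r/16`: `K y w = sC y w = u` (`hKs`). If `‖w‖ < r/16`: then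
`u = sC y w = B_y A_y⁻¹ w` (`th_one`), so `A_y⁻¹ w = B_y⁻¹ u`, of norm `≥ r/2` (`le_symmB`), and
`K y w = B_y K (ψ⁻¹ y) (A_y⁻¹ w) = B_y A_y⁻¹ w = u` (`hKi`, `hK1`).
(2) `‖u‖ < r/16`: `w = L y u = A_y L (ψ⁻¹ y) (B_y⁻¹ u)` (`hLi`), `‖w‖ ≤ r/16 + r/100 ≤ r/4`, so
`K y w = B_y K (ψ⁻¹ y) (A_y⁻¹ w) = B_y K (ψ⁻¹ y) (L (ψ⁻¹ y) (B_y⁻¹ u))` and the difference with `u = B_y B_y⁻¹ u` has norm
`≤ b (ψ⁻¹ y, B_y⁻¹ u) / 8` (`leB`). -/
theorem K_L [CompleteSpace W] (h : Coc A B) (hr : 0 < r) (ψ : Y ≃ₜ Y) {S K L : Y → W → W}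
    (hr' : ∀ y w, sC A B r y (S y w) = w)
    (hKb : ∀ y w, ‖K y w - w‖ ≤ r / 100) (hK1 : ∀ y w, r / 2 ≤ ‖w‖ → K y w = w)
    (hKs : ∀ y w, r / 16 ≤ ‖w‖ → K y w = sC A B r y w)
    (hKi : ∀ y w, ‖w‖ ≤ r / 4 → K y w = B y (K (ψ.symm y) ((A y).symm w)))
    (hLb : ∀ y u, ‖L y u - u‖ ≤ r / 100) (hLs : ∀ y u, r / 16 ≤ ‖u‖ → L y u = S y u)
    (hLi : ∀ y u, ‖u‖ ≤ r / 8 → L y u = A y (L (ψ.symm y) ((B y).symm u))) (y : Y) (u : W) : K y (L y u) = u := by
  have key := eq_zero_of_contr (Z := Y × W) (b := fun z => ‖K z.1 (L z.1 z.2) - z.2‖) (C := r / 50)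
    (P := fun _ => True) (fun z => norm_nonneg _)
    (by
      intro z _
      have e : K z.1 (L z.1 z.2) - z.2 = (K z.1 (L z.1 z.2) - L z.1 z.2) + (L z.1 z.2 - z.2) := by abel
      rw [e]
      refine (norm_add_le _ _).trans ?_
      have h1 := hKb z.1 (L z.1 z.2)
      have h2 := hLb z.1 z.2
      linarith)
    (by
      rintro ⟨y, u⟩ _
      refine ⟨(ψ.symm y, (B y).symm u), trivial, ?_⟩
      simp only
      rcases le_or_gt (r / 16) ‖u‖ with hu | hu
      · have hz : K y (L y u) = u := by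
          have hw : sC A B r y (L y u) = u := by rw [hLs y u hu, hr']
          rcases le_or_gt (r / 16) ‖L y u‖ with hw2 | hw2
          · rw [hKs y _ hw2, hw]
          · have hu3 : B y ((A y).symm (L y u)) = u := by
              have := hw
              unfold sC at this
              rw [th_one hr (by linarith), one_smul] at this
              rw [add_sub_cancel] at this
              exact this
            have e2 : (A y).symm (L y u) = (B y).symm u := by
              conv_rhs => rw [← hu3]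
              rw [ContinuousLinearEquiv.symm_apply_apply]
            rw [hKi y _ (by linarith), e2, hK1 _ _ (by have := h.le_symmB y u; linarith),
              ContinuousLinearEquiv.apply_symm_apply]
        rw [hz, sub_self, norm_zero]
        positivity
      · have hb := hLb y u
        have hw2 : ‖L y u‖ ≤ r / 4 := by
          have : ‖L y u‖ ≤ ‖L y u - u‖ + ‖u‖ := by
            calc ‖L y u‖ = ‖(L y u - u) + u‖ := by rw [sub_add_cancel]
              _ ≤ _ := norm_add_le _ _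
          linarith
        have e1 : K y (L y u) = B y (K (ψ.symm y) (L (ψ.symm y) ((B y).symm u))) := by
          rw [hKi y _ hw2]
          have : (A y).symm (L y u) = L (ψ.symm y) ((B y).symm u) := by
            rw [hLi y u (by linarith), ContinuousLinearEquiv.symm_apply_apply]
          rw [this]
        have e2 : K y (L y u) - u = B y (K (ψ.symm y) (L (ψ.symm y) ((B y).symm u)) - (B y).symm u) := by
          rw [map_sub, ContinuousLinearEquiv.apply_symm_apply, e1]
        rw [e2]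
        exact h.leB _ _)
    (z := (y, u)) trivial
  simp only at key
  rw [norm_eq_zero, sub_eq_zero] at key
  exact key

end Pool.Agent.Lib.H37D
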