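import Pool.Agent.Lib.H37D.DH23
import Pool.Agent.Lib.H37D.DH24
import Pool.Agent.Lib.H37D.DH25
import Pool.Agent.Lib.H37D.DH26

open TopologicalSpace Set Filter Topology

namespace Pool.Agent.Lib.H37D

variable {Y : Type*} [TopologicalSpace Y] {W : Type*} [NormedAddCommGroup W] [NormedSpace ℝ W] {A B : Y → W ≃L[ℝ] W} {r : ℝ}

/-- **DH27 (S/M), cocycle lemma.** Let `A, B` be close families of contractions over the homeomorphism `ψ`. The maps
`(y, w) ↦ (ψ y, A (ψ y) w)` and `(y, w) ↦ (ψ y, B (ψ y) w)` are conjugate near `w = 0` by a homeomorphism `(y, w) ↦ (y, K y w)`,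
which is the identity for `‖w‖ ≥ r/2`.

Proof. `S` from `exists_sInv`, `K` from `exists_K`, `L` from `exists_L`, `L_K`, `K_L`. (5): `‖A (ψ y) w‖ ≤ r/8 ≤ r/4`, so
`K (ψ y) (A (ψ y) w) = B (ψ y) (K y w)` (`ψ.symm (ψ y) = y`, `A⁻¹ A w = w`). (6): apply (5) to `w' = L y w` (`‖L y w‖ < r` if `‖w‖ < r`, see (7);
for `‖w‖ = r`: `L y w = w`): `K (ψ y) (A (ψ y) (L y w)) = B (ψ y) w`, then apply `L (ψ y)`. (7): if `‖w‖ < r` and `‖K y w‖ ≥ r`, then
`K y (K y w) = K y w`, so `K y w = w` by injectivity, a contradiction. (8) the same for `L`. (9): `P (y, w) = (y ∈ D)`,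
`b (y, w) = ‖K y w - w‖`; if `y ∈ D` then `K y w - w = θ (B_y K (ψ⁻¹ y) (A_y⁻¹ w) - B_y A_y⁻¹ w)` (as `B_y = A_y`), of norm
`≤ b (ψ⁻¹ y, A_y⁻¹ w) / 8`; `eq_zero_of_contr`; and `L y w = L y (K y w) = w`. -/
theorem exists_coc [CompleteSpace W] (h : Coc A B) (hr : 0 < r) (ψ : Y ≃ₜ Y) :
    ∃ K L : Y → W → W, (Continuous fun q : Y × W => K q.1 q.2) ∧ (Continuous fun q : Y × W => L q.1 q.2) ∧
      (∀ y w, L y (K y w) = w) ∧ (∀ y w, K y (L y w) = w) ∧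
      (∀ y w, ‖w‖ ≤ r → K (ψ y) (A (ψ y) w) = B (ψ y) (K y w)) ∧
      (∀ y w, ‖w‖ ≤ r → L (ψ y) (B (ψ y) w) = A (ψ y) (L y w)) ∧
      (∀ y w, ‖w‖ < r → ‖K y w‖ < r) ∧ (∀ y w, ‖w‖ < r → ‖L y w‖ < r) ∧
      ∀ D : Set Y, (∀ y ∈ D, ψ.symm y ∈ D) → (∀ y ∈ D, A y = B y) → ∀ y ∈ D, ∀ w, K y w = w ∧ L y w = w := by
  obtain ⟨S, hS, hl, hr'⟩ := exists_sInv h hr
  obtain ⟨K, hKc, hKb, hKeq, hK1, hKs, hKi⟩ := exists_K h hr ψ
  obtain ⟨L, hLc, hLb, hL1, hLs, hLi⟩ := exists_L h hr ψ hS hl hr'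
  have LK := L_K h hr ψ hl hKb hKs hKi hLb hL1 hLs hLi
  have KL := K_L h hr ψ hr' hKb hK1 hKs hKi hLb hLs hLi
  have h5 : ∀ y w, ‖w‖ ≤ r → K (ψ y) (A (ψ y) w) = B (ψ y) (K y w) := by
    intro y w hw
    have h1 : ‖A (ψ y) w‖ ≤ r / 4 := (h.leA _ _).trans (by linarith)
    have h2 := hKi (ψ y) (A (ψ y) w) h1
    rw [ψ.symm_apply_apply, (A (ψ y)).symm_apply_apply] at h2
    exact h2
  have h7 : ∀ y w, ‖w‖ < r → ‖K y w‖ < r := by
    intro y w hw
    by_contra hc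
    push Not at hc
    have h1 := hK1 y (K y w) (by linarith)
    have h2 := congrArg (L y) h1
    rw [LK, LK] at h2
    rw [h2] at hc
    linarith
  have h8 : ∀ y w, ‖w‖ < r → ‖L y w‖ < r := by
    intro y w hw
    by_contra hc
    push Not at hc
    have h1 := hL1 y (L y w) (by linarith)
    have h2 := congrArg (K y) h1
    rw [KL, KL] at h2
    rw [h2] at hc
    linarith
  refine ⟨K, L, hKc, hLc, LK, KL, h5, ?_, h7, h8, ?_⟩
  · intro y w hw
    have hw' : ‖L y w‖ ≤ r := by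
      rcases hw.lt_or_eq with h1 | h1
      · exact (h8 y w h1).le
      · rw [hL1 y w (by linarith)]
        exact hw
    have e := h5 y (L y w) hw'
    rw [KL] at e
    rw [← e, LK]
  · intro D hD hAB y hy w
    have hK : K y w = w := by
      have key := eq_zero_of_contr (Z := Y × W) (b := fun q => ‖K q.1 q.2 - q.2‖) (C := r / 100)
        (P := fun q => q.1 ∈ D) (fun _ => norm_nonneg _) (fun q _ => hKb _ _)
        (fun q hq => ⟨(ψ.symm q.1, (A q.1).symm q.2), hD _ hq, ?_⟩) (z := (y, w)) hy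
      · exact sub_eq_zero.1 (norm_eq_zero.1 key)
      · show ‖K q.1 q.2 - q.2‖ ≤
          1 / 8 * ‖K (ψ.symm q.1) ((A q.1).symm q.2) - (A q.1).symm q.2‖
        have e1 : B q.1 ((A q.1).symm q.2) = q.2 := by
          rw [← hAB _ hq, ContinuousLinearEquiv.apply_symm_apply]
        have e2 : B q.1 (K (ψ.symm q.1) ((A q.1).symm q.2)) - q.2 =
            B q.1 (K (ψ.symm q.1) ((A q.1).symm q.2) - (A q.1).symm q.2) := by
          rw [map_sub, e1]
        rw [hKeq, e2, norm_smul, Real.norm_eq_abs, abs_of_nonneg (th_nonneg _ _)]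
        have e3 := h.leB q.1 (K (ψ.symm q.1) ((A q.1).symm q.2) - (A q.1).symm q.2)
        have e4 := th_le_one r ‖q.2‖
        have e5 := th_nonneg r ‖q.2‖
        calc th r ‖q.2‖ * ‖B q.1 (K (ψ.symm q.1) ((A q.1).symm q.2) - (A q.1).symm q.2)‖
            ≤ 1 * ‖B q.1 (K (ψ.symm q.1) ((A q.1).symm q.2) - (A q.1).symm q.2)‖ :=
              mul_le_mul_of_nonneg_right e4 (norm_nonneg _)
          _ ≤ _ := by rw [one_mul]; exact e3
    refine ⟨hK, ?_⟩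
    have e6 := LK y w
    rw [hK] at e6
    exact e6

end Pool.Agent.Lib.H37D
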