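import Pool.Agent.Lib.H37D.DHDefs

open TopologicalSpace Set Filter Topology
open scoped Manifold ContDiff
open Pool.Agent.Lib.Helper37.ConjBorel Pool.Agent.Lib.H37C

namespace Pool.Agent.Lib.H37D

/-- **DH30 (S).** Cut-off functions exist: a `ContDiffBump (0 : W)` with `rIn = r / 2`, `rOut = r`
(`ContDiffBump.contDiff`, `ContDiffBump.nonneg`, `ContDiffBump.le_one`, `ContDiffBump.one_of_mem_closedBall`,
`ContDiffBump.zero_of_le_dist`). -/
theorem exists_cut {W : Type*} [NormedAddCommGroup W] [NormedSpace ℝ W] [FiniteDimensional ℝ W] {r : ℝ} (hr : 0 < r) :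
    ∃ χ : W → ℝ, Cut χ r := by
  let b : ContDiffBump (0 : W) := ⟨r / 2, r, by linarith, by linarith⟩
  refine ⟨b, ⟨b.contDiff, fun w => b.nonneg, fun w => b.le_one, fun w hw => ?_, fun w hw => ?_⟩⟩
  · apply b.one_of_mem_closedBall
    rw [mem_closedBall_zero_iff]
    exact hw
  · apply b.zero_of_le_dist
    rw [dist_zero_right]
    exact hw

end Pool.Agent.Lib.H37D
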