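import Pool.Agent.Lib.H37D.DHDefs

open TopologicalSpace Set Filter Topology
open scoped Manifold ContDiff
open Pool.Agent.Lib.Helper37.ConjBorel Pool.Agent.Lib.H37C

namespace Pool.Agent.Lib.H37D

/-- **DH31 (S/M).** Pairs of regular families are regular.

Proof. `ContDiffAt.prodMk`; `iteratedFDeriv_prodMk` (Mathlib: the iterated derivative of the pair is the pair of the iterated
derivatives, `ContinuousMultilinearMap.prod`), which is a continuous function of the pair of the derivatives
(`ContinuousMultilinearMap.prodL` is a linear isometry equivalence). The equality holds for all `p` near `(z₀, x₀)`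
(`ContinuousAt.congr`). -/
theorem regN_prodMk {Z E F F' : Type*} [TopologicalSpace Z] [NormedAddCommGroup E] [NormedSpace ℝ E]
    [NormedAddCommGroup F] [NormedSpace ℝ F] [NormedAddCommGroup F'] [NormedSpace ℝ F'] {G : Z → E → F} {H : Z → E → F'}
    {z₀ : Z} {x₀ : E} (hG : RegN ⊤ G z₀ x₀) (hH : RegN ⊤ H z₀ x₀) : RegN ⊤ (fun z x => (G z x, H z x)) z₀ x₀ := by
  refine ⟨?_, fun k hk => ?_⟩
  · filter_upwards [hG.1, hH.1] with p hp hp'
    exact hp.prodMk hp'
  · have e : (fun p : Z × E => ContinuousMultilinearMap.prodL ℝ (fun _ : Fin k => E) F F'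
        (iteratedFDeriv ℝ k (G p.1) p.2, iteratedFDeriv ℝ k (H p.1) p.2)) =ᶠ[𝓝 (z₀, x₀)]
        fun p : Z × E => iteratedFDeriv ℝ k (fun x => (G p.1 x, H p.1 x)) p.2 := by
      filter_upwards [hG.1, hH.1] with p hp hp'
      exact (iteratedFDeriv_prodMk hp hp' (by exact_mod_cast le_top)).symm
    refine ContinuousAt.congr ?_ e
    exact (ContinuousMultilinearMap.prodL ℝ (fun _ : Fin k => E) F F').continuous.continuousAt.comp
      ((hG.2 k hk).prodMk (hH.2 k hk))

end Pool.Agent.Lib.H37D
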