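import Pool.Agent.Lib.H37D.DH31

open TopologicalSpace Set Filter Topology
open scoped Manifold ContDiff
open Pool.Agent.Lib.Helper37.ConjBorel Pool.Agent.Lib.H37C

namespace Pool.Agent.Lib.H37D

variable {n : ℕ} {W : Type*} [NormedAddCommGroup W] [NormedSpace ℝ W]

/-- **DH32 (S).** The perturbation is `x + (δ χ) J (Fld)`. (Linearity of `L.symm`; `psi lt c ζ = ζ + c • Fld lt ζ` by definition.) -/
theorem PE_eq (L : Euc n ≃L[ℝ] Euc 2 × W) (χ : W → ℝ) (lt : ℕ → ℕ → Prop) (δ : ℝ) (x : Euc n) :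
    PE L χ lt δ x = x + (δ * χ (L x).2) • L.symm (Fld lt (L x).1, (0 : W)) := by
  unfold PE PP psi
  have h1 : (((L x).1 + (δ * χ (L x).2) • Fld lt (L x).1, (L x).2) : Euc 2 × W) =
      L x + (δ * χ (L x).2) • (Fld lt (L x).1, (0 : W)) := by
    ext1 <;> simp
  rw [h1, map_add, map_smul, L.symm_apply_apply]

/-- **DH32, second part (M).** The family of perturbations is regular.

Proof. `PE_eq`. Let `q (s, a, x) = x + (s * χ (L x).2) • L.symm (a, 0)`, a smooth function on `ℝ × Euc 2 × Euc n`. For fixed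
`(t, δ)`: `PE x = q (δ, Fld (lt t) (L x).1, x)`. The family `(t, δ) ↦ (x ↦ Fld (lt t) (L x).1)` is regular (`fld_regN`, `RegN.reparam` with
`Prod.fst`, `RegN.comp` with the constant family `x ↦ (L x).1`, regular by `regN_of_contDiffOn isOpen_univ`), the family
`(t, δ) ↦ (x ↦ (δ : ℝ))` is regular (`regN_of_joint` for `ℝ`, then `RegN.reparam` with `Prod.snd`), the family `x ↦ x` is regular; the triple
is regular by `regN_prodMk` (twice), and `RegN.comp` with the constant family `q` (`regN_of_contDiffOn isOpen_univ`) gives the result. -/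
theorem PE_regN {T : Type*} [TopologicalSpace T] (lt : T → ℕ → ℕ → Prop) (hs : ∀ t, IsStrictTotalOrder ℕ (lt t))
    (hc : ∀ i j, IsClopen {t | lt t i j}) (L : Euc n ≃L[ℝ] Euc 2 × W) {χ : W → ℝ} (hχ : ContDiff ℝ ∞ χ) (p₀ : T × ℝ)
    (x₀ : Euc n) : RegN ⊤ (fun p : T × ℝ => (PE L χ (lt p.1) p.2 : Euc n → Euc n)) p₀ x₀ := by
  have hL1 : RegN ⊤ (fun _ : T × ℝ => (fun x : Euc n => (L x).1)) p₀ x₀ :=
    regN_of_contDiffOn isOpen_univ (contDiff_fst.comp L.contDiff).contDiffOn p₀ (mem_univ x₀)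
  have hF : RegN ⊤ (fun p : T × ℝ => (Fld (lt p.1) : Euc 2 → Euc 2)) p₀ ((fun x : Euc n => (L x).1) x₀) :=
    RegN.reparam (g := fun t => (Fld (lt t) : Euc 2 → Euc 2)) (σ := fun p : T × ℝ => p.1)
      (fld_regN lt hs hc p₀.1 _) continuous_fst.continuousAt
  have hFL : RegN ⊤ (fun p : T × ℝ => (fun x : Euc n => (Fld (lt p.1) (L x).1 : Euc 2))) p₀ x₀ :=
    RegN.comp (H := fun _ : T × ℝ => (fun x : Euc n => (L x).1)) hF hL1
  have hδ0 : RegN ⊤ (fun (s : ℝ) (_ : Euc n) => s) p₀.2 x₀ :=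
    regN_of_joint (fun (s : ℝ) (_ : Euc n) => s) isOpen_univ contDiff_fst.contDiffOn (mem_univ _)
  have hδ : RegN ⊤ (fun (p : T × ℝ) (_ : Euc n) => p.2) p₀ x₀ :=
    RegN.reparam (g := fun (s : ℝ) (_ : Euc n) => s) (σ := fun p : T × ℝ => p.2) hδ0
      continuous_snd.continuousAt
  have hid : RegN ⊤ (fun _ : T × ℝ => (fun x : Euc n => x)) p₀ x₀ :=
    regN_of_contDiffOn isOpen_univ contDiff_id.contDiffOn p₀ (mem_univ x₀)
  have htr := regN_prodMk hδ (regN_prodMk hFL hid)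
  have hq : ContDiff ℝ ∞ (fun q : ℝ × Euc 2 × Euc n =>
      q.2.2 + (q.1 * χ (L q.2.2).2) • L.symm (q.2.1, (0 : W))) := by
    have h1 : ContDiff ℝ ∞ (fun q : ℝ × Euc 2 × Euc n => q.2.2) := contDiff_snd.comp contDiff_snd
    have h2 : ContDiff ℝ ∞ (fun q : ℝ × Euc 2 × Euc n => χ (L q.2.2).2) :=
      hχ.comp (contDiff_snd.comp (L.contDiff.comp h1))
    have h3 : ContDiff ℝ ∞ (fun q : ℝ × Euc 2 × Euc n => L.symm (q.2.1, (0 : W))) :=
      L.symm.contDiff.comp ((contDiff_fst.comp contDiff_snd).prodMk contDiff_const)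
    exact h1.add ((contDiff_fst.mul h2).smul h3)
  have hqr : RegN ⊤ (fun _ : T × ℝ => (fun q : ℝ × Euc 2 × Euc n =>
      q.2.2 + (q.1 * χ (L q.2.2).2) • L.symm (q.2.1, (0 : W)))) p₀
      (p₀.2, (Fld (lt p₀.1) (L x₀).1 : Euc 2), x₀) :=
    regN_of_contDiffOn isOpen_univ hq.contDiffOn p₀ (mem_univ _)
  have h := RegN.comp (G := fun _ : T × ℝ => (fun q : ℝ × Euc 2 × Euc n =>
      q.2.2 + (q.1 * χ (L q.2.2).2) • L.symm (q.2.1, (0 : W)))) hqr htr
  refine h.congr (Filter.Eventually.of_forall fun p => ?_)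
  exact (PE_eq L χ (lt p.1.1) p.1.2 p.2).symm

end Pool.Agent.Lib.H37D
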