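import Pool.Agent.Lib.H37D.DH32

open TopologicalSpace Set Filter Topology
open scoped Manifold ContDiff NNReal
open Pool.Agent.Lib.Helper37.ConjBorel Pool.Agent.Lib.H37C

namespace Pool.Agent.Lib.H37D

variable {n : ℕ} {W : Type*} [NormedAddCommGroup W] [NormedSpace ℝ W] {lt : ℕ → ℕ → Prop} [IsStrictTotalOrder ℕ lt]

/-- **DH33 (S).** Smoothness: `PE_eq`, `s7_fld_contDiff`. -/
theorem PE_contDiff (L : Euc n ≃L[ℝ] Euc 2 × W) {χ : W → ℝ} (hχ : ContDiff ℝ ∞ χ) (δ : ℝ) :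
    ContDiff ℝ ∞ (PE L χ lt δ : Euc n → Euc n) := by
  have h : (PE L χ lt δ : Euc n → Euc n) =
      fun x => x + (δ * χ (L x).2) • L.symm (Fld lt (L x).1, (0 : W)) := by
    funext x
    exact PE_eq L χ lt δ x
  rw [h]
  have hL1 : ContDiff ℝ ∞ (fun x => (L x).1) := contDiff_fst.comp L.contDiff
  have hL2 : ContDiff ℝ ∞ (fun x => (L x).2) := contDiff_snd.comp L.contDiff
  have hF : ContDiff ℝ ∞ (fun x => (Fld lt (L x).1 : Euc 2)) := (s7_fld_contDiff (lt := lt) (n := 2)).comp hL1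
  have hc0 : ContDiff ℝ ∞ (fun _ : Euc n => (0 : W)) := contDiff_const
  have hJ : ContDiff ℝ ∞ (fun x => L.symm (Fld lt (L x).1, (0 : W))) :=
    L.symm.contDiff.comp (hF.prodMk hc0)
  have hd : ContDiff ℝ ∞ (fun x => δ * χ (L x).2) := contDiff_const.mul (hχ.comp hL2)
  exact contDiff_id.add (hd.smul hJ)

/-- **DH33, second part (S).** `PE` is bijective: for each `w` the map `psi lt (δ χ(w))` is bijective (`psi_diffeo`,
`0 ≤ δ χ(w) ≤ 1`). -/
theorem PE_bijective (L : Euc n ≃L[ℝ] Euc 2 × W) {χ : W → ℝ} {r : ℝ} (hχ : Cut χ r) {δ : ℝ} (h0 : 0 ≤ δ) (h1 : δ ≤ 1) :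
    Function.Bijective (PE L χ lt δ : Euc n → Euc n) := by
  have hP : Function.Bijective (PP χ lt δ : Euc 2 × W → Euc 2 × W) := by
    have hw : ∀ w : W, 0 ≤ δ * χ w ∧ δ * χ w ≤ 1 := fun w =>
      ⟨mul_nonneg h0 (hχ.nonneg w), by
        calc δ * χ w ≤ 1 * 1 := mul_le_mul h1 (hχ.le_one w) (hχ.nonneg w) zero_le_one
          _ = 1 := one_mul 1⟩
    have hd : ∀ w : W, ∃ g : Euc 2 → Euc 2, (∀ x, g (psi lt (δ * χ w) x) = x) ∧
        ∀ x, psi lt (δ * χ w) (g x) = x := fun w => by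
      obtain ⟨-, g, -, h2, h3⟩ := psi_diffeo (lt := lt) (n := 2) (hw w).1 (hw w).2
      exact ⟨g, h2, h3⟩
    choose g hg1 hg2 using hd
    refine ⟨?_, ?_⟩
    · intro v v' h
      have h2a : (PP χ lt δ v).2 = (PP χ lt δ v').2 := by rw [h]
      have h2 : v.2 = v'.2 := h2a
      have h1a : (PP χ lt δ v).1 = (PP χ lt δ v').1 := by rw [h]
      have h1' : psi lt (δ * χ v.2) v.1 = psi lt (δ * χ v'.2) v'.1 := h1a
      rw [← h2] at h1'
      have h3 := congrArg (g v.2) h1'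
      rw [hg1, hg1] at h3
      exact Prod.ext h3 h2
    · intro v
      refine ⟨(g v.2 v.1, v.2), ?_⟩
      exact Prod.ext (hg2 v.2 v.1) rfl
  exact L.symm.bijective.comp (hP.comp L.bijective)

/-- **DH33, third part (M).** The derivative of `PE` is injective, so invertible (finite dimension).

Proof. `PE x = x + (δ * χ (L x).2) • J (Fld lt (L x).1)`, `J a = L.symm (a, 0)` (`PE_eq`). Let `D = fderiv ℝ (Fld lt) (L x).1`; `‖D‖ ≤ 1/2`
(`fld_lip`, `norm_fderiv_le_of_lipschitz`), `s7_fld_contDiff`. The derivative of `PE` at `x` in the direction `v`, with `L v = (a, b)`, is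
`v + (δ * χ (L x).2) • J (D a) + (δ * fderiv χ (L x).2 b) • J (Fld lt (L x).1)`. Let it be `0` and apply `L`: the second component gives
`b = 0`, so the first one is `a + (δ * χ (L x).2) • D a = 0`, so `‖a‖ ≤ ‖a‖ / 2`, `a = 0`, `v = 0`. -/
theorem PE_fderiv (L : Euc n ≃L[ℝ] Euc 2 × W) {χ : W → ℝ} {r : ℝ} (hχ : Cut χ r) {δ : ℝ} (h0 : 0 ≤ δ) (h1 : δ ≤ 1)
    (x : Euc n) : ∃ f' : Euc n ≃L[ℝ] Euc n, HasFDerivAt (PE L χ lt δ : Euc n → Euc n) (f' : Euc n →L[ℝ] Euc n) x := by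
  have h1' := h1
  set D : Euc 2 →L[ℝ] Euc 2 := fderiv ℝ (Fld lt : Euc 2 → Euc 2) (L x).1 with hD
  have hFd : HasFDerivAt (Fld lt : Euc 2 → Euc 2) D (L x).1 :=
    ((s7_fld_contDiff (lt := lt) (n := 2)).differentiable (by simp) _).hasFDerivAt
  have hDn : ‖D‖ ≤ 1 / 2 := by
    have hlip : LipschitzWith (1 / 2 : ℝ≥0) (Fld lt : Euc 2 → Euc 2) := by
      refine LipschitzWith.of_dist_le_mul fun x y => ?_
      rw [dist_eq_norm, dist_eq_norm]
      simpa using fld_lip (lt := lt) x y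
    have h2 := norm_fderiv_le_of_lipschitz ℝ (x₀ := (L x).1) hlip
    calc ‖D‖ ≤ ((1 / 2 : ℝ≥0) : ℝ) := h2
      _ = 1 / 2 := by simp
  have hPEd : HasFDerivAt (PE L χ lt δ : Euc n → Euc n) (fderiv ℝ (PE L χ lt δ : Euc n → Euc n) x) x :=
    ((PE_contDiff (lt := lt) L hχ.smooth δ).differentiable (by simp) x).hasFDerivAt
  set T := fderiv ℝ (PE L χ lt δ : Euc n → Euc n) x with hT
  have hinj : Function.Injective T := by
    rw [injective_iff_map_eq_zero]
    intro v hv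
    -- the derivative of `L ∘ PE ∘ L.symm = PP`
    have h1 : HasFDerivAt (fun y => L (PE L χ lt δ y)) ((L : Euc n →L[ℝ] Euc 2 × W).comp T) x :=
      (L : Euc n →L[ℝ] Euc 2 × W).hasFDerivAt.comp x hPEd
    have hχd : HasFDerivAt χ (fderiv ℝ χ (L x).2) (L x).2 := (hχ.smooth.differentiable (by simp) _).hasFDerivAt
    have hLx : HasFDerivAt (fun y => L y) (L : Euc n →L[ℝ] Euc 2 × W) x := (L : Euc n →L[ℝ] Euc 2 × W).hasFDerivAt
    have hL1 : HasFDerivAt (fun y => (L y).1) ((ContinuousLinearMap.fst ℝ (Euc 2) W).comp (L : Euc n →L[ℝ] Euc 2 × W)) x :=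
      hLx.fst
    have hL2 : HasFDerivAt (fun y => (L y).2) ((ContinuousLinearMap.snd ℝ (Euc 2) W).comp (L : Euc n →L[ℝ] Euc 2 × W)) x :=
      hLx.snd
    have h2 : HasFDerivAt (fun y => (Fld lt (L y).1 : Euc 2))
        (D.comp ((ContinuousLinearMap.fst ℝ (Euc 2) W).comp (L : Euc n →L[ℝ] Euc 2 × W))) x :=
      HasFDerivAt.comp (g := (Fld lt : Euc 2 → Euc 2)) x hFd hL1
    have h3 : HasFDerivAt (fun y => δ * χ (L y).2)
        (δ • ((fderiv ℝ χ (L x).2).comp ((ContinuousLinearMap.snd ℝ (Euc 2) W).comp (L : Euc n →L[ℝ] Euc 2 × W)))) x :=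
      (HasFDerivAt.comp x hχd hL2).const_mul δ
    have h4 := hL1.add (h3.smul h2)
    have h5 : (fun y => L (PE L χ lt δ y)) =
        fun y => ((L y).1 + (δ * χ (L y).2) • (Fld lt (L y).1 : Euc 2), (L y).2) := by
      funext y
      show L (L.symm (PP χ lt δ (L y))) = _
      rw [L.apply_symm_apply]
      rfl
    rw [h5] at h1
    have h6 := (h4.prodMk hL2).unique h1
    have h7 := congrArg (fun S : Euc n →L[ℝ] Euc 2 × W => S v) h6
    have h8 : ((L : Euc n →L[ℝ] Euc 2 × W).comp T) v = 0 := by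
      show L (T v) = 0
      rw [hv, map_zero]
    rw [h8] at h7
    have h9 : (L v).2 = 0 := congrArg Prod.snd h7
    have h10 : (L v).1 + ((δ * χ (L x).2) • D (L v).1 +
        (δ * (fderiv ℝ χ (L x).2) (L v).2) • (Fld lt (L x).1 : Euc 2)) = 0 := congrArg Prod.fst h7
    rw [h9, map_zero, mul_zero, zero_smul, add_zero] at h10
    have h11 : ‖(L v).1‖ ≤ 1 / 2 * ‖(L v).1‖ := by
      have h12 : (L v).1 = -((δ * χ (L x).2) • D (L v).1) := eq_neg_of_add_eq_zero_left h10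
      have h13 : ‖(L v).1‖ = ‖(δ * χ (L x).2) • D (L v).1‖ := by
        conv_lhs => rw [h12]
        exact norm_neg _
      have h14 : δ * χ (L x).2 ≤ 1 := by
        calc δ * χ (L x).2 ≤ 1 * 1 := mul_le_mul h1' (hχ.le_one _) (hχ.nonneg _) zero_le_one
          _ = 1 := one_mul 1
      calc ‖(L v).1‖ = δ * χ (L x).2 * ‖D (L v).1‖ := by
            rw [h13, norm_smul, Real.norm_eq_abs, abs_of_nonneg (mul_nonneg h0 (hχ.nonneg _))]
        _ ≤ 1 * (1 / 2 * ‖(L v).1‖) := by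
            refine mul_le_mul h14 ?_ (norm_nonneg _) zero_le_one
            exact (D.le_opNorm _).trans (mul_le_mul_of_nonneg_right hDn (norm_nonneg _))
        _ = 1 / 2 * ‖(L v).1‖ := one_mul _
    have h15 : ‖(L v).1‖ = 0 := by
      have := norm_nonneg (L v).1
      linarith
    have h16 : L v = 0 := Prod.ext (norm_eq_zero.1 h15) h9
    exact (map_eq_zero_iff L L.injective).1 h16
  have hsurj : Function.Surjective T := (LinearMap.injective_iff_surjective (f := (T : Euc n →ₗ[ℝ] Euc n))).1 hinj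
  refine ⟨ContinuousLinearEquiv.ofBijective T (LinearMap.ker_eq_bot.2 hinj) (LinearMap.range_eq_top.2 hsurj), ?_⟩
  rw [ContinuousLinearEquiv.coe_ofBijective]
  exact hPEd

end Pool.Agent.Lib.H37D
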