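import Pool.Agent.Lib.H37D.DH33

open TopologicalSpace Set Filter Topology
open scoped Manifold ContDiff
open Pool.Agent.Lib.Helper37.ConjBorel Pool.Agent.Lib.H37C

namespace Pool.Agent.Lib.H37D

variable {n : ℕ} {W : Type*} [NormedAddCommGroup W] [NormedSpace ℝ W] {lt : ℕ → ℕ → Prop} [IsStrictTotalOrder ℕ lt]

/-- **DH34 (M).** `PE` is a smooth diffeomorphism.

Proof. `PE` is a continuous bijection, and an open map: `isOpenMap_iff_nhds_le`, `HasStrictFDerivAt.map_nhds_eq_of_equiv`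
(`ContDiffAt.hasStrictFDerivAt'`, `PE_fderiv`), so a homeomorphism `h` (`Equiv.ofBijective`,
`Equiv.toHomeomorphOfContinuousOpen`); `h.contDiff_symm` (`Homeomorph.contDiff_symm`, used in the same way in `psi_diffeo`, Lib/H37C/S7). -/
theorem PE_diffeo (L : Euc n ≃L[ℝ] Euc 2 × W) {χ : W → ℝ} {r : ℝ} (hχ : Cut χ r) {δ : ℝ} (h0 : 0 ≤ δ) (h1 : δ ≤ 1) :
    ContDiff ℝ ∞ (PE L χ lt δ : Euc n → Euc n) ∧ ∃ g : Euc n → Euc n, ContDiff ℝ ∞ g ∧
      (∀ x, g (PE L χ lt δ x) = x) ∧ ∀ x, PE L χ lt δ (g x) = x := by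
  have hc := PE_contDiff (lt := lt) L hχ.smooth δ
  refine ⟨hc, ?_⟩
  have hopen : IsOpenMap (PE L χ lt δ : Euc n → Euc n) := by
    rw [isOpenMap_iff_nhds_le]
    intro x
    obtain ⟨f', hf'⟩ := PE_fderiv (lt := lt) L hχ h0 h1 x
    have hs : HasStrictFDerivAt (PE L χ lt δ : Euc n → Euc n) (f' : Euc n →L[ℝ] Euc n) x :=
      hc.contDiffAt.hasStrictFDerivAt' hf' (by simp)
    exact hs.map_nhds_eq_of_equiv.ge
  set h : Euc n ≃ₜ Euc n := (Equiv.ofBijective _ (PE_bijective (lt := lt) L hχ h0 h1)).toHomeomorphOfContinuousOpen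
    hc.continuous hopen with hh
  have hco : (h : Euc n → Euc n) = PE L χ lt δ := rfl
  have hD : ∀ a : Euc n, ∃ f' : Euc n ≃L[ℝ] Euc n, HasFDerivAt h (f' : Euc n →L[ℝ] Euc n) a := fun a =>
    PE_fderiv (lt := lt) L hχ h0 h1 a
  choose f' hf' using hD
  have hcs : ContDiff ℝ ∞ h.symm := h.contDiff_symm hf' hc
  refine ⟨h.symm, hcs, fun x => ?_, fun x => ?_⟩
  · exact h.symm_apply_apply x
  · exact h.apply_symm_apply x

end Pool.Agent.Lib.H37D
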