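import Pool.Agent.Lib.H37D.DHDefs

open TopologicalSpace Set Filter Topology
open scoped Manifold ContDiff
open Pool.Agent.Lib.Helper37.ConjBorel Pool.Agent.Lib.H37C

namespace Pool.Agent.Lib.H37D

variable {n : ℕ} {M : Type*} [TopologicalSpace M] [ChartedSpace (Euc n) M]

theorem dh35_closed [T2Space M] {e : OpenPartialHomeomorph M (Euc n)} {C : Set (Euc n)}
    (hC : IsCompact C) (hCe : C ⊆ e.target) : IsClosed (e.symm '' C) :=
  (hC.image_of_continuousOn (e.continuousOn_symm.mono hCe)).isClosed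

theorem dh35_off {e : OpenPartialHomeomorph M (Euc n)} {C : Set (Euc n)} {ψ : Euc n → Euc n}
    (hoff : ∀ x, x ∉ C → ψ x = x) {z : M} (hz : z ∉ e.symm '' C) : ext e ψ z = z := by
  by_cases h : z ∈ e.source
  · rw [ext_of_mem h]
    by_cases h2 : e z ∈ C
    · exact absurd ⟨e z, h2, e.left_inv h⟩ hz
    · rw [hoff _ h2, e.left_inv h]
  · exact ext_of_notMem h

theorem dh35_notMem {e : OpenPartialHomeomorph M (Euc n)} {C : Set (Euc n)} (hCe : C ⊆ e.target)
    {z : M} (hz : z ∉ e.source) : z ∉ e.symm '' C := by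
  rintro ⟨x, hx, rfl⟩
  exact hz (e.map_target (hCe hx))

theorem dh35_target {e : OpenPartialHomeomorph M (Euc n)} {C : Set (Euc n)} (hCe : C ⊆ e.target)
    {ψ : Euc n → Euc n} (hoff : ∀ x, x ∉ C → ψ x = x) (hon : ∀ x, x ∈ C → ψ x ∈ C) {x : Euc n}
    (hx : x ∈ e.target) : ψ x ∈ e.target := by
  by_cases h : x ∈ C
  · exact hCe (hon x h)
  · rw [hoff x h]
    exact hx

theorem dh35_on {C : Set (Euc n)} {ψ : Euc n → Euc n} (hoff : ∀ x, x ∉ C → ψ x = x)
    (hψi : Function.Injective ψ) (x : Euc n) (hx : x ∈ C) : ψ x ∈ C := by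
  by_contra h
  have h3 := hψi (hoff (ψ x) h)
  rw [h3] at h
  exact h hx

theorem dh35_comp {e : OpenPartialHomeomorph M (Euc n)} {C : Set (Euc n)} (hCe : C ⊆ e.target)
    {ψ g : Euc n → Euc n} (hoff : ∀ x, x ∉ C → ψ x = x) (h1 : ∀ x, g (ψ x) = x) (z : M) :
    ext e g (ext e ψ z) = z := by
  by_cases h : z ∈ e.source
  · have h2 := dh35_target hCe hoff (dh35_on hoff (Function.LeftInverse.injective h1))
      (e.map_source h)
    have h3 := e.map_target h2
    rw [ext_of_mem h, ext_of_mem h3, e.right_inv h2, h1, e.left_inv h]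
  · rw [ext_of_notMem h, ext_of_notMem h]

theorem dh35_smooth [T2Space M] [IsManifold (𝓡 n) ∞ M] {e : OpenPartialHomeomorph M (Euc n)}
    (he : e ∈ IsManifold.maximalAtlas (𝓡 n) ∞ M) {C : Set (Euc n)} (hC : IsCompact C)
    (hCe : C ⊆ e.target) {ψ : Euc n → Euc n} (hψ : ContDiff ℝ ∞ ψ)
    (hoff : ∀ x, x ∉ C → ψ x = x) (hψi : Function.Injective ψ) :
    ContMDiff (𝓡 n) (𝓡 n) ∞ (ext e ψ) := by
  intro z
  by_cases h : z ∈ e.source
  · have h1 : ContMDiffAt (𝓡 n) (𝓡 n) ∞ (fun z => e.symm (ψ (e z))) z := by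
      have h2 : ContMDiffAt (𝓡 n) (𝓡 n) ∞ ψ (e z) := hψ.contMDiff.contMDiffAt
      have h3 : ContMDiffAt (𝓡 n) (𝓡 n) ∞ e z :=
        (contMDiffOn_of_mem_maximalAtlas he).contMDiffAt (e.open_source.mem_nhds h)
      have h4 : ContMDiffAt (𝓡 n) (𝓡 n) ∞ e.symm (ψ (e z)) :=
        (contMDiffOn_symm_of_mem_maximalAtlas he).contMDiffAt
          (e.open_target.mem_nhds (dh35_target hCe hoff (dh35_on hoff hψi) (e.map_source h)))
      exact h4.comp z (h2.comp z h3)
    refine h1.congr_of_eventuallyEq ?_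
    filter_upwards [e.open_source.mem_nhds h] with w hw
    exact ext_of_mem hw
  · refine contMDiffAt_id.congr_of_eventuallyEq ?_
    filter_upwards [(dh35_closed hC hCe).isOpen_compl.mem_nhds (dh35_notMem hCe h)] with w hw
    exact dh35_off hoff hw

/-- **DH35 (M).** Port of `exists_diff` (Lib/H37C/E1): the ball of radius `2` is replaced by a compact set `C` in the image of
the chart.

Proof: the proof in Lib/H37C/E1.lean, word for word, with `Metric.closedBall 0 2` replaced by `C` and `2 ≤ ‖x‖` by `x ∉ C`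
(`ψ` maps `C` to itself: if `x ∈ C` and `ψ x ∉ C` then `ψ (ψ x) = ψ x`, so `ψ x = x`). -/
theorem exists_diffC [T2Space M] [IsManifold (𝓡 n) ∞ M] {e : OpenPartialHomeomorph M (Euc n)}
    (he : e ∈ IsManifold.maximalAtlas (𝓡 n) ∞ M) {C : Set (Euc n)} (hC : IsCompact C) (hCe : C ⊆ e.target)
    {ψ g : Euc n → Euc n} (hψ : ContDiff ℝ ∞ ψ) (hg : ContDiff ℝ ∞ g) (h1 : ∀ x, g (ψ x) = x) (h2 : ∀ x, ψ (g x) = x)
    (hoff : ∀ x, x ∉ C → ψ x = x) : ∃ G : DiffInf n M, ∀ z, G z = ext e ψ z := by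
  have hg2 : ∀ x, x ∉ C → g x = x := fun x hx => by
    rw [← hoff x hx, h1, hoff x hx]
  exact ⟨{ toFun := ext e ψ
           invFun := ext e g
           left_inv := dh35_comp hCe hoff h1
           right_inv := dh35_comp hCe hg2 h2
           contMDiff_toFun := dh35_smooth he hC hCe hψ hoff (Function.LeftInverse.injective h1)
           contMDiff_invFun := dh35_smooth he hC hCe hg hg2 (Function.LeftInverse.injective h2) },
    fun z => rfl⟩

/-- **DH35, second part.** Port of `jc_ext` (Lib/H37C/E2), in the same way. -/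
theorem jc_extC [T2Space M] [IsManifold (𝓡 n) ∞ M] {Z : Type*} [TopologicalSpace Z]
    {e : OpenPartialHomeomorph M (Euc n)} (he : e ∈ IsManifold.maximalAtlas (𝓡 n) ∞ M) {C : Set (Euc n)}
    (hC : IsCompact C) (hCe : C ⊆ e.target) (ψ : Z → Euc n → Euc n) (hψ : ∀ z x, RegN ⊤ ψ z x)
    (hoff : ∀ z x, x ∉ C → ψ z x = x) (hon : ∀ z x, x ∈ C → ψ z x ∈ C) :
    JC (n := n) (fun z => (ext e (ψ z) : M → M)) := by
  have htar : ∀ z, ∀ x ∈ e.target, ψ z x ∈ e.target := fun z x hx =>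
    dh35_target hCe (hoff z) (hon z) hx
  constructor
  · rw [continuous_iff_continuousAt]
    rintro ⟨z₀, m₀⟩
    by_cases h : m₀ ∈ e.source
    · have h1 : ContinuousAt (fun p : Z × M => (p.1, e p.2)) (z₀, m₀) :=
        continuous_fst.continuousAt.prodMk (ContinuousAt.comp (g := e)
          (f := fun p : Z × M => p.2) (e.continuousAt h) continuous_snd.continuousAt)
      have h2 : ContinuousAt (fun p : Z × M => ψ p.1 (e p.2)) (z₀, m₀) :=
        ContinuousAt.comp (g := fun q : Z × Euc n => ψ q.1 q.2)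
          (f := fun p : Z × M => (p.1, e p.2)) (hψ z₀ (e m₀)).continuousAt h1
      have h3 : ContinuousAt (fun p : Z × M => e.symm (ψ p.1 (e p.2))) (z₀, m₀) :=
        ContinuousAt.comp (g := e.symm) (f := fun p : Z × M => ψ p.1 (e p.2))
          (e.symm.continuousAt (htar _ _ (e.map_source h))) h2
      refine h3.congr ?_
      filter_upwards [continuous_snd.continuousAt.eventually (e.open_source.mem_nhds h)]
        with p hp
      exact (ext_of_mem hp).symm
    · refine continuous_snd.continuousAt.congr ?_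
      filter_upwards [continuous_snd.continuousAt.eventually
        ((dh35_closed hC hCe).isOpen_compl.mem_nhds (dh35_notMem hCe h))] with p hp
      exact (dh35_off (hoff p.1) hp).symm
  · intro φ hφ χ hχ z₀ x₀ hx₀ hgx'
    have hgx : ext e (ψ z₀) (φ.symm x₀) ∈ χ.source := hgx'
    by_cases h : φ.symm x₀ ∈ e.source
    · have hA : RegN ⊤ (fun _ : Z => (e ∘ φ.symm : Euc n → Euc n)) z₀ x₀ :=
        regN_of_contDiffOn (isOpen_expr (f := id) continuous_id φ e) (contDiffOn_change hφ he) z₀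
          ⟨hx₀, h⟩
      have hy : e.symm (ψ z₀ (e (φ.symm x₀))) ∈ χ.source := by
        rwa [ext_of_mem h] at hgx
      have hB : RegN ⊤ (fun _ : Z => (χ ∘ e.symm : Euc n → Euc n)) z₀ (ψ z₀ (e (φ.symm x₀))) :=
        regN_of_contDiffOn (isOpen_expr (f := id) continuous_id e χ) (contDiffOn_change he hχ) z₀
          ⟨htar _ _ (e.map_source h), hy⟩
      have hD1 : RegN ⊤ (fun z : Z => ψ z ∘ (e ∘ φ.symm : Euc n → Euc n)) z₀ x₀ :=
        RegN.comp (G := ψ) (H := fun _ => (e ∘ φ.symm : Euc n → Euc n)) (hψ z₀ _) hA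
      have hD : RegN ⊤ (fun z : Z => (χ ∘ e.symm : Euc n → Euc n) ∘
          (ψ z ∘ (e ∘ φ.symm : Euc n → Euc n))) z₀ x₀ :=
        RegN.comp (G := fun _ => (χ ∘ e.symm : Euc n → Euc n))
          (H := fun z : Z => ψ z ∘ (e ∘ φ.symm : Euc n → Euc n)) hB hD1
      refine hD.congr ?_
      filter_upwards [e2_ev (z₀ := z₀) hx₀ e.open_source h] with p hp
      show χ (e.symm (ψ p.1 (e (φ.symm p.2)))) = χ (ext e (ψ p.1) (φ.symm p.2))
      rw [ext_of_mem hp]
    · have hy : φ.symm x₀ ∈ χ.source := by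
        rwa [ext_of_notMem h] at hgx
      have hA : RegN ⊤ (fun _ : Z => (χ ∘ φ.symm : Euc n → Euc n)) z₀ x₀ :=
        regN_of_contDiffOn (isOpen_expr (f := id) continuous_id φ χ) (contDiffOn_change hφ hχ) z₀
          ⟨hx₀, hy⟩
      refine hA.congr ?_
      filter_upwards [e2_ev (z₀ := z₀) hx₀ (dh35_closed hC hCe).isOpen_compl (dh35_notMem hCe h)]
        with p hp
      show χ (φ.symm p.2) = χ (ext e (ψ p.1) (φ.symm p.2))
      rw [dh35_off (hoff p.1) hp]

end Pool.Agent.Lib.H37D
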