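import Pool.Agent.Lib.H37D.DH34
import Pool.Agent.Lib.H37D.DH35

open TopologicalSpace Set Filter Topology
open scoped Manifold ContDiff
open Pool.Agent.Lib.Helper37.ConjBorel Pool.Agent.Lib.H37C

namespace Pool.Agent.Lib.H37D

variable {n : ℕ} {M : Type*} [TopologicalSpace M] [ChartedSpace (Euc n) M]
variable {W : Type*} [NormedAddCommGroup W] [NormedSpace ℝ W] [FiniteDimensional ℝ W]

/-- the support of the perturbation -/
def dh36_C (L : Euc n ≃L[ℝ] Euc 2 × W) (r : ℝ) : Set (Euc n) :=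
  L.symm '' {v | ‖v.1‖ ≤ 2 ∧ ‖v.2‖ ≤ r}

theorem dh36_compact (L : Euc n ≃L[ℝ] Euc 2 × W) (r : ℝ) : IsCompact (dh36_C L r) := by
  have h1 : {v : Euc 2 × W | ‖v.1‖ ≤ 2 ∧ ‖v.2‖ ≤ r} =
      Metric.closedBall 0 2 ×ˢ Metric.closedBall 0 r := by
    ext v
    simp [mem_prod]
  unfold dh36_C
  rw [h1]
  exact ((isCompact_closedBall _ _).prod (isCompact_closedBall _ _)).image L.symm.continuous

theorem dh36_sub {e : OpenPartialHomeomorph M (Euc n)} {L : Euc n ≃L[ℝ] Euc 2 × W} {r : ℝ}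
    (hb : ∀ v ∈ Bx r, L.symm v ∈ e.target) : dh36_C L r ⊆ e.target := by
  rintro x ⟨v, hv, rfl⟩
  exact hb v ⟨hv.1.trans (by norm_num), hv.2⟩

omit [FiniteDimensional ℝ W] in
theorem dh36_mem {L : Euc n ≃L[ℝ] Euc 2 × W} {r : ℝ} {x : Euc n} :
    x ∈ dh36_C L r ↔ ‖(L x).1‖ ≤ 2 ∧ ‖(L x).2‖ ≤ r := by
  constructor
  · rintro ⟨v, hv, rfl⟩
    rw [L.apply_symm_apply]
    exact hv
  · intro h
    exact ⟨L x, h, L.symm_apply_apply x⟩

omit [FiniteDimensional ℝ W] in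
theorem dh36_off (L : Euc n ≃L[ℝ] Euc 2 × W) {χ : W → ℝ} {r : ℝ} (hχ : Cut χ r)
    {lt : ℕ → ℕ → Prop} [IsStrictTotalOrder ℕ lt] (δ : ℝ) (x : Euc n) (hx : x ∉ dh36_C L r) :
    PE L χ lt δ x = x := by
  rw [dh36_mem, not_and_or] at hx
  unfold PE PP
  have h1 : (psi lt (δ * χ (L x).2) (L x).1 : Euc 2) = (L x).1 := by
    rcases hx with hx | hx
    · exact psi_out fun h => hx h.2.le
    · rw [hχ.zero _ (not_le.1 hx).le]
      simp [psi]
  rw [h1, Prod.mk.eta, L.symm_apply_apply]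

omit [FiniteDimensional ℝ W] in
theorem dh36_on (L : Euc n ≃L[ℝ] Euc 2 × W) {χ : W → ℝ} {r : ℝ} (hχ : Cut χ r)
    {lt : ℕ → ℕ → Prop} [IsStrictTotalOrder ℕ lt] {δ : ℝ} (h0 : 0 ≤ δ) (h1 : δ ≤ 1) (x : Euc n)
    (hx : x ∈ dh36_C L r) : PE L χ lt δ x ∈ dh36_C L r := by
  rw [dh36_mem] at hx ⊢
  unfold PE PP
  rw [L.apply_symm_apply]
  refine ⟨?_, hx.2⟩
  exact (psi_ball (mul_nonneg h0 (hχ.nonneg _))
    (mul_le_one₀ h1 (hχ.nonneg _) (hχ.le_one _))).2 hx.1

/-- **DH36 (M).** The family of perturbations in the open set `U`.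

Proof: as `exists_family` (Lib/H37C/E3), with `C = L.symm '' {v | ‖v.1‖ ≤ 2 ∧ ‖v.2‖ ≤ r}` (compact: product of closed balls in
finite-dimensional spaces; contained in the target by `hb`), `exists_diffC`, `jc_extC`, `PE_diffeo`, `PE_regN`, `JC.comp_left`,
`continuous_of_jc`. If `x ∉ C`, `L x = (ζ, w)`: `‖ζ‖ > 2`, so `psi_out`, or `‖w‖ > r`, so `χ w = 0` and `psi lt 0 = id`. `PE` maps
`C` to `C` by `psi_ball` (`0 ≤ δ χ(w) ≤ 1`). For `δ = 0`, `PE L χ lt 0 = id`. -/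
theorem exists_familyC [T2Space M] [IsManifold (𝓡 n) ∞ M] {T : Type*} [TopologicalSpace T] [CompactSpace T]
    (f₀ : DiffInf n M) {U : Set (DiffInf n M)} (hU : IsOpen U) (h₀ : f₀ ∈ U) {e : OpenPartialHomeomorph M (Euc n)}
    (he : e ∈ IsManifold.maximalAtlas (𝓡 n) ∞ M) (L : Euc n ≃L[ℝ] Euc 2 × W) {χ : W → ℝ} {r : ℝ} (hχ : Cut χ r)
    (hb : ∀ v ∈ Bx r, L.symm v ∈ e.target) (lt : T → ℕ → ℕ → Prop) (hs : ∀ t, IsStrictTotalOrder ℕ (lt t))
    (hc : ∀ i j, IsClopen {t | lt t i j}) :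
    ∃ δ : ℝ, 0 < δ ∧ δ ≤ 1 ∧ ∃ F : T → DiffInf n M, Continuous F ∧ (∀ t, F t ∈ U) ∧
      ∀ t, IsPert f₀ e L χ (lt t) δ (F t) := by
  have hCc := dh36_compact L r
  have hCe := dh36_sub (M := M) hb
  have hG : ∀ p : T × Icc (0 : ℝ) 1, ∃ G : DiffInf n M, ∀ z, G z =
      ext e (PE L χ (lt p.1) p.2) z := by
    rintro ⟨t, δ⟩
    have := hs t
    obtain ⟨h1, g, h2, h3, h4⟩ := PE_diffeo (lt := lt t) L hχ δ.2.1 δ.2.2
    exact exists_diffC he hCc hCe h1 h2 h3 h4 (fun x hx => dh36_off L hχ _ x hx)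
  choose G hG using hG
  let H : T × Icc (0 : ℝ) 1 → DiffInf n M := fun p => (G p).trans f₀
  have hHz : ∀ p z, H p z = f₀ (ext e (PE L χ (lt p.1) p.2) z) := fun p z => by
    show f₀ (G p z) = _
    rw [hG]
  have hJ : JC (n := n) (fun p : T × Icc (0 : ℝ) 1 =>
      (ext e (PE L χ (lt p.1) p.2) : M → M)) := by
    refine jc_extC he hCc hCe (fun p : T × Icc (0 : ℝ) 1 => PE L χ (lt p.1) p.2) ?_ ?_ ?_
    · intro p x
      have h1 := PE_regN lt hs hc L hχ.smooth (p.1, (p.2 : ℝ)) x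
      exact RegN.reparam (σ := fun p : T × Icc (0 : ℝ) 1 => (p.1, (p.2 : ℝ))) h1
        (by fun_prop)
    · intro p x hx
      have := hs p.1
      exact dh36_off L hχ _ x hx
    · intro p x hx
      have := hs p.1
      exact dh36_on L hχ p.2.2.1 p.2.2.2 x hx
  have hHc : Continuous H := by
    refine continuous_of_jc ?_
    have h1 := JC.comp_left hJ f₀
    have h2 : (fun p => (H p : M → M)) =
        fun p : T × Icc (0 : ℝ) 1 => (f₀ ∘ (ext e (PE L χ (lt p.1) p.2)) : M → M) := by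
      funext p z
      exact hHz p z
    rw [h2]
    exact h1
  have h0 : ∀ t, H (t, ⟨0, by simp⟩) ∈ U := by
    intro t
    have : H (t, ⟨0, by simp⟩) = f₀ := by
      apply Diffeomorph.ext
      intro z
      rw [hHz]
      congr 1
      have h1 : (PE L χ (lt t) 0 : Euc n → Euc n) = id := by
        funext x
        unfold PE PP
        have h3 : (psi (lt t) (0 * χ (L x).2) (L x).1 : Euc 2) = (L x).1 := by
          simp [psi]
        rw [h3, Prod.mk.eta, L.symm_apply_apply]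
        rfl
      show ext e (PE L χ (lt t) 0) z = z
      rw [h1]
      by_cases hz : z ∈ e.source
      · rw [ext_of_mem hz]; exact e.left_inv hz
      · exact ext_of_notMem hz
    rw [this]
    exact h₀
  have hev : ∀ᶠ s in 𝓝 (0 : ℝ), ∀ t ∈ (univ : Set T), H (t, projIcc 0 1 zero_le_one s) ∈ U := by
    refine isCompact_univ.eventually_forall_of_forall_eventually fun t _ => ?_
    have h1 : ContinuousAt (fun q : ℝ × T => H (q.2, projIcc 0 1 zero_le_one q.1)) (0, t) := by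
      have : Continuous fun q : ℝ × T => H (q.2, projIcc 0 1 zero_le_one q.1) :=
        hHc.comp (continuous_snd.prodMk (continuous_projIcc.comp continuous_fst))
      exact this.continuousAt
    apply h1.eventually
    apply hU.mem_nhds
    show H (t, projIcc 0 1 zero_le_one 0) ∈ U
    have h2 : projIcc (0 : ℝ) 1 zero_le_one 0 = ⟨0, by simp⟩ := by
      rw [projIcc_left]
    rw [h2]
    exact h0 t
  obtain ⟨s, hs0, hs1⟩ := hev.exists_gt
  set δ := projIcc (0 : ℝ) 1 zero_le_one s with hδ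
  have hδ0 : 0 < (δ : ℝ) := by
    rw [hδ, coe_projIcc]
    exact lt_max_of_lt_right (lt_min one_pos hs0)
  exact ⟨δ, hδ0, δ.2.2, fun t => H (t, δ), hHc.comp (continuous_id.prodMk continuous_const),
    fun t => hs1 t (mem_univ t), fun t z => hHz (t, δ) z⟩

end Pool.Agent.Lib.H37D
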