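import Pool.Agent.Lib.H37D.DHDefs

open TopologicalSpace Set Filter Topology
open scoped Manifold ContDiff
open Pool.Agent.Lib.Helper37.ConjBorel Pool.Agent.Lib.H37C

namespace Pool.Agent.Lib.H37D

/-! **DH40 (S/M).** Elementary properties of the perturbation in the coordinates and of the chart. -/

variable {n : ℕ} {M : Type*} [TopologicalSpace M] [ChartedSpace (Euc n) M]
variable {W : Type*} [NormedAddCommGroup W] [NormedSpace ℝ W]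
variable {f₀ : DiffInf n M} {m : ℕ} {p : M} {e : OpenPartialHomeomorph M (Euc n)} {L : Euc n ≃L[ℝ] Euc 2 × W}
variable {A : Euc 2 → W ≃L[ℝ] W} {r₂ r₃ : ℝ} {χ : W → ℝ} {lt : ℕ → ℕ → Prop} {δ : ℝ} {F : DiffInf n M}

theorem dh40_range (hχ : Cut χ r₂) (h0 : 0 ≤ δ) (h1 : δ ≤ 1) (w : W) : 0 ≤ δ * χ w ∧ δ * χ w ≤ 1 :=
  ⟨mul_nonneg h0 (hχ.nonneg w), mul_le_one₀ h1 (hχ.nonneg w) (hχ.le_one w)⟩

/-- `psi` fixes the points outside the shell (`psi_out`) and preserves `‖ζ‖ ≤ 2` (`psi_ball`, `0 ≤ δ χ(w) ≤ 1`). -/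
theorem PP_mem [IsStrictTotalOrder ℕ lt] (hχ : Cut χ r₂) (h0 : 0 ≤ δ) (h1 : δ ≤ 1) {v : Euc 2 × W} {r : ℝ} (hv : v ∈ Bx r) :
    PP χ lt δ v ∈ Bx r := by
  have ha := dh40_range hχ h0 h1 v.2
  refine ⟨?_, hv.2⟩
  show ‖psi lt (δ * χ v.2) v.1‖ ≤ 3
  by_cases h : ‖v.1‖ ≤ 2
  · exact ((psi_ball ha.1 ha.2).2 h).trans (by norm_num)
  · rw [psi_out (fun h' => h h'.2.le)]
    exact hv.1

theorem PP_tube [IsStrictTotalOrder ℕ lt] (hχ : Cut χ r₂) (h0 : 0 ≤ δ) (h1 : δ ≤ 1) {v : Euc 2 × W} :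
    ‖(PP χ lt δ v).1‖ < 5 / 2 ↔ ‖v.1‖ < 5 / 2 := by
  have ha := dh40_range hχ h0 h1 v.2
  show ‖psi lt (δ * χ v.2) v.1‖ < 5 / 2 ↔ _
  by_cases h : ‖v.1‖ ≤ 2
  · have h2 := (psi_ball (lt := lt) ha.1 ha.2).2 h
    constructor
    · intro _
      linarith
    · intro _
      linarith
  · rw [psi_out (fun h' => h h'.2.le)]

theorem PP_out [IsStrictTotalOrder ℕ lt] (hχ : Cut χ r₂) {v : Euc 2 × W}
    (hv : ¬ (1 < ‖v.1‖ ∧ ‖v.1‖ < 2 ∧ ‖v.2‖ < r₂)) : PP χ lt δ v = v := by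
  unfold PP
  ext1
  · show psi lt (δ * χ v.2) v.1 = v.1
    by_cases h : ‖v.1‖ ∈ Ioo (1 : ℝ) 2
    · have h2 : r₂ ≤ ‖v.2‖ := by
        by_contra h3
        exact hv ⟨h.1, h.2, not_le.1 h3⟩
      rw [hχ.zero v.2 h2, mul_zero]
      unfold psi
      rw [zero_smul, add_zero]
    · exact psi_out h
  · rfl

theorem PP_one (hχ : Cut χ r₂) {v : Euc 2 × W} (hv : ‖v.2‖ ≤ r₂ / 2) : PP χ lt δ v = (psi lt δ v.1, v.2) := by
  unfold PP
  rw [hχ.one v.2 hv, mul_one]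

/-- `psi_diffeo`; for the last property: if `‖v'.1‖ > 3` then `v = PP v' = v'` (`PP_out`). -/
theorem PP_surj [IsStrictTotalOrder ℕ lt] (hχ : Cut χ r₂) (h0 : 0 ≤ δ) (h1 : δ ≤ 1) (v : Euc 2 × W) :
    ∃ v' : Euc 2 × W, v'.2 = v.2 ∧ PP χ lt δ v' = v ∧ (‖v.1‖ ≤ 3 → ‖v'.1‖ ≤ 3) := by
  have ha := dh40_range hχ h0 h1 v.2
  obtain ⟨_, g, _, _, hg⟩ := psi_diffeo (lt := lt) (n := 2) ha.1 ha.2
  refine ⟨(g v.1, v.2), rfl, ?_, ?_⟩
  · unfold PP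
    ext1
    · exact hg v.1
    · rfl
  · intro h3
    show ‖g v.1‖ ≤ 3
    by_cases h : ‖g v.1‖ ≤ 2
    · linarith
    · have h4 := psi_out (lt := lt) (δ := δ * χ v.2) (x := g v.1) (fun h' => h h'.2.le)
      rw [hg v.1] at h4
      rw [← h4]
      exact h3

/-- `L.symm v, L.symm v'` are in `e.target`, where `e.symm` is injective. -/
theorem ptM_inj (hS : CSpot f₀ m p e L A r₂ r₃) {v v' : Euc 2 × W} (hv : v ∈ Bx r₃) (hv' : v' ∈ Bx r₃)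
    (h : ptM e L v = ptM e L v') : v = v' := by
  unfold ptM at h
  have h1 := congrArg e h
  rw [e.right_inv (hS.big v hv), e.right_inv (hS.big v' hv')] at h1
  exact L.symm.injective h1

theorem coord_ptM (hS : CSpot f₀ m p e L A r₂ r₃) {v : Euc 2 × W} (hv : v ∈ Bx r₃) : L (e (ptM e L v)) = v := by
  unfold ptM
  rw [e.right_inv (hS.big v hv), L.apply_symm_apply]

theorem ptM_source (hS : CSpot f₀ m p e L A r₂ r₃) {v : Euc 2 × W} (hv : v ∈ Bx r₃) : ptM e L v ∈ e.source :=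
  e.map_target (hS.big v hv)

theorem ptM_coord {z : M} (hz : z ∈ e.source) : ptM e L (L (e z)) = z := by
  unfold ptM
  rw [L.symm_apply_apply, e.left_inv hz]

/-- `ext_of_mem`, `e.right_inv` -/
theorem ext_pt (hS : CSpot f₀ m p e L A r₂ r₃) {v : Euc 2 × W} (hv : v ∈ Bx r₃) :
    ext e (PE L χ lt δ) (ptM e L v) = ptM e L (PP χ lt δ v) := by
  rw [ext_of_mem (ptM_source hS hv)]
  unfold PE
  rw [coord_ptM hS hv]
  rfl

/-- If `z ∈ e.source`, `z = ptM e L v` with `v = L (e z)`; `PP_out`. -/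
theorem ext_fix [IsStrictTotalOrder ℕ lt] (hχ : Cut χ r₂) {z : M} (hz : z ∉ CoC e L r₂) :
    ext e (PE L χ lt δ) z = z := by
  by_cases h : z ∈ e.source
  · rw [ext_of_mem h]
    unfold PE
    rw [PP_out hχ]
    · exact ptM_coord h
    · intro hv
      exact hz ⟨L (e z), hv, ptM_coord h⟩
  · exact ext_of_notMem h

end Pool.Agent.Lib.H37D
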