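import Pool.Agent.Lib.H37D.DH40

open TopologicalSpace Set Filter Topology
open scoped Manifold ContDiff
open Pool.Agent.Lib.Helper37.ConjBorel Pool.Agent.Lib.H37C

namespace Pool.Agent.Lib.H37D

variable {n : ℕ} {M : Type*} [TopologicalSpace M] [ChartedSpace (Euc n) M]
variable {W : Type*} [NormedAddCommGroup W] [NormedSpace ℝ W]
variable {f₀ : DiffInf n M} {m : ℕ} {p : M} {e : OpenPartialHomeomorph M (Euc n)} {L : Euc n ≃L[ℝ] Euc 2 × W}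
variable {A : Euc 2 → W ≃L[ℝ] W} {r₂ r₃ : ℝ} {χ : W → ℝ} {lt : ℕ → ℕ → Prop} {δ : ℝ} {F : DiffInf n M}

/-- **DH41 (S/M).** The first `m` iterates of `F` in the box: `F^i (pt v) = f₀^i (pt (PP v))`.

Proof by induction on `i`: `F (pt v) = f₀ (pt (PP v))` (`ext_pt`); for `1 ≤ i < m` the point `f₀^i (pt (PP v))` is not in
`CoC e L r₂` (`disj`, `PP_mem`; the points of `CoC` are `pt v'` with `v' ∈ Bx r₃`, as `r₂ < r₃`), so `ext` fixes it (`ext_fix`) and `F` acts on it as `f₀`. -/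
theorem iter_tube [IsStrictTotalOrder ℕ lt] (hS : CSpot f₀ m p e L A r₂ r₃) (hχ : Cut χ r₂) (h0 : 0 ≤ δ) (h1 : δ ≤ 1)
    (hF : IsPert f₀ e L χ lt δ F) {v : Euc 2 × W} (hv : v ∈ Bx r₃) {i : ℕ} (hi0 : 0 < i) (hi : i ≤ m) :
    (⇑F)^[i] (ptM e L v) = (⇑f₀)^[i] (ptM e L (PP χ lt δ v)) := by
  induction i with
  | zero => exact absurd hi0 (lt_irrefl 0)
  | succ i ih =>
    rcases Nat.eq_zero_or_pos i with h | h
    · subst h
      rw [zero_add, Function.iterate_one, Function.iterate_one, hF, ext_pt hS hv]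
    · rw [Function.iterate_succ_apply', Function.iterate_succ_apply', ih h (by omega), hF]
      rw [ext_fix hχ]
      rintro ⟨v', ⟨h2, h3, h4⟩, hv'⟩
      have hB : v' ∈ Bx r₃ := ⟨by linarith, by linarith [hS.r_lt]⟩
      exact hS.disj i h (by omega) _ (PP_mem hχ h0 h1 hv) v' hB hv'.symm

/-- `per` -/
theorem iter_m [IsStrictTotalOrder ℕ lt] (hS : CSpot f₀ m p e L A r₂ r₃) (hχ : Cut χ r₂) (h0 : 0 ≤ δ) (h1 : δ ≤ 1)
    (hF : IsPert f₀ e L χ lt δ F) {v : Euc 2 × W} (hv : v ∈ Bx r₃) :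
    (⇑F)^[m] (ptM e L v) = ptM e L ((PP χ lt δ v).1, A (PP χ lt δ v).1 v.2) := by
  rw [iter_tube hS hχ h0 h1 hF hv hS.pos le_rfl, hS.per _ (PP_mem hχ h0 h1 hv)]
  rfl

/-- `disj` -/
theorem iter_ne [IsStrictTotalOrder ℕ lt] (hS : CSpot f₀ m p e L A r₂ r₃) (hχ : Cut χ r₂) (h0 : 0 ≤ δ) (h1 : δ ≤ 1)
    (hF : IsPert f₀ e L χ lt δ F) {v v' : Euc 2 × W} (hv : v ∈ Bx r₃) (hv' : v' ∈ Bx r₃) {i : ℕ} (hi0 : 0 < i)
    (hi : i < m) : (⇑F)^[i] (ptM e L v) ≠ ptM e L v' := by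
  rw [iter_tube hS hχ h0 h1 hF hv hi0 hi.le]
  exact hS.disj i hi0 hi _ (PP_mem hχ h0 h1 hv) v' hv'

end Pool.Agent.Lib.H37D
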