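import Pool.Agent.Lib.H37D.DH40

open TopologicalSpace Set Filter Topology
open scoped Manifold ContDiff
open Pool.Agent.Lib.Helper37.ConjBorel Pool.Agent.Lib.H37C

namespace Pool.Agent.Lib.H37D

variable {n : ℕ} {M : Type*} [TopologicalSpace M] [ChartedSpace (Euc n) M]
variable {W : Type*} [NormedAddCommGroup W] [NormedSpace ℝ W]
variable {f₀ : DiffInf n M} {m : ℕ} {p : M} {e : OpenPartialHomeomorph M (Euc n)} {L : Euc n ≃L[ℝ] Euc 2 × W}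
variable {A : Euc 2 → W ≃L[ℝ] W} {r₂ r₃ : ℝ} {χ : W → ℝ} {lt : ℕ → ℕ → Prop} {δ : ℝ} {F : DiffInf n M}

/-- **DH42 (S/M).** Returns to the box under `f₀`.

Proof: strong induction on `j`, for all `v`. `j < m` contradicts `disj`. Otherwise `f₀^m (pt v) = pt v₁`, `v₁ = (v.1, A v.1 v.2) ∈ Bx r₃`,
`‖v₁.2‖ ≤ ‖v.2‖ / 8`. If `j = m`, `v₁ = a` (`ptM_inj`). If `j > m`: `f₀^(j-m) (pt v₁) = pt a`, induction hypothesis:
`a.1 = v₁.1 = v.1`, `‖a.2‖ ≤ ‖v₁.2‖ / 8`. -/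
theorem ret_box (hS : CSpot f₀ m p e L A r₂ r₃) {v a : Euc 2 × W} (hv : v ∈ Bx r₃) (ha : a ∈ Bx r₃) {j : ℕ} (hj : 0 < j)
    (h : (⇑f₀)^[j] (ptM e L v) = ptM e L a) : a.1 = v.1 ∧ ‖a.2‖ ≤ 1 / 8 * ‖v.2‖ := by
  induction j using Nat.strong_induction_on generalizing v with
  | _ j ih =>
    by_cases hjm : j < m
    · exact absurd h (hS.disj j hj hjm v hv a ha)
    · obtain ⟨j', rfl⟩ : ∃ j', j = j' + m := ⟨j - m, by omega⟩
      rw [Function.iterate_add_apply, hS.per v hv] at h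
      have h2 := hS.A_le v.1 v.2
      have hv1 : ((v.1, A v.1 v.2) : Euc 2 × W) ∈ Bx r₃ := by
        refine ⟨hv.1, ?_⟩
        show ‖A v.1 v.2‖ ≤ r₃
        have h3 : ‖v.2‖ ≤ r₃ := hv.2
        linarith [norm_nonneg v.2]
      rcases Nat.eq_zero_or_pos j' with h0 | h0
      · subst h0
        rw [Function.iterate_zero, id_eq] at h
        have h3 := ptM_inj hS hv1 ha h
        rw [← h3]
        exact ⟨rfl, h2⟩
      · have h3 := ih j' (by have := hS.pos; omega) hv1 h0 h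
        refine ⟨h3.1, h3.2.trans ?_⟩
        show 1 / 8 * ‖A v.1 v.2‖ ≤ _
        linarith [norm_nonneg v.2]

/-- **DH42, second part.** Backward orbits which avoid the shell.

Proof by induction on `k`: let `u' = f₀⁻¹^[k] u`, `u'' = f₀⁻¹ u'`; `F u'' = f₀ (ext .. u'') = f₀ u'' = u'` (hypothesis for `j = k + 1`), so
`F⁻¹ u' = u''`. -/
theorem back_of (hF : IsPert f₀ e L χ lt δ F) {u : M}
    (h : ∀ j, 0 < j → ext e (PE L χ lt δ) ((⇑f₀.symm)^[j] u) = (⇑f₀.symm)^[j] u) (k : ℕ) :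
    (⇑F.symm)^[k] u = (⇑f₀.symm)^[k] u := by
  induction k with
  | zero => rfl
  | succ k ih =>
    rw [Function.iterate_succ_apply', ih]
    have h1 := h (k + 1) (Nat.succ_pos k)
    have h2 : F ((⇑f₀.symm)^[k + 1] u) = (⇑f₀.symm)^[k] u := by
      rw [hF, h1, Function.iterate_succ_apply', f₀.apply_symm_apply]
    rw [← h2, F.symm_apply_apply]

theorem dh42_inv (f : DiffInf n M) (j : ℕ) (x : M) : (⇑f)^[j] ((⇑f.symm)^[j] x) = x :=
  Function.LeftInverse.iterate (fun y => f.apply_symm_apply y) j x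

/-- `back_of`, `ext_fix`: if `f₀⁻¹^[j] (pt a) = pt v` with `1 < ‖v.1‖ < 2`, `‖v.2‖ < r₂`, then `f₀^j (pt v) = pt a`, so
`‖a.2‖ ≤ ‖v.2‖ / 8 < r₂` by `ret_box`. -/
theorem back_ann [IsStrictTotalOrder ℕ lt] (hS : CSpot f₀ m p e L A r₂ r₃) (hχ : Cut χ r₂) (hF : IsPert f₀ e L χ lt δ F)
    {a : Euc 2 × W} (ha : a ∈ Bx r₃) (hr : r₂ ≤ ‖a.2‖) (k : ℕ) :
    (⇑F.symm)^[k] (ptM e L a) = (⇑f₀.symm)^[k] (ptM e L a) := by
  apply back_of hF
  intro j hj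
  apply ext_fix hχ
  rintro ⟨v', ⟨h2, h3, h4⟩, hv'⟩
  have hB : v' ∈ Bx r₃ := ⟨by linarith, by linarith [hS.r_lt]⟩
  have h5 : (⇑f₀)^[j] (ptM e L v') = ptM e L a := by rw [hv', dh42_inv]
  have h6 := (ret_box hS hB ha hj h5).2
  linarith [norm_nonneg v'.2]

/-- The same with `a.1 = v.1`, `‖v.1‖ < 2`. -/
theorem back_side [IsStrictTotalOrder ℕ lt] (hS : CSpot f₀ m p e L A r₂ r₃) (hχ : Cut χ r₂) (hF : IsPert f₀ e L χ lt δ F)
    {a : Euc 2 × W} (ha : a ∈ Bx r₃) (hr : 2 ≤ ‖a.1‖) (k : ℕ) :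
    (⇑F.symm)^[k] (ptM e L a) = (⇑f₀.symm)^[k] (ptM e L a) := by
  apply back_of hF
  intro j hj
  apply ext_fix hχ
  rintro ⟨v', ⟨h2, h3, h4⟩, hv'⟩
  have hB : v' ∈ Bx r₃ := ⟨by linarith, by linarith [hS.r_lt]⟩
  have h5 : (⇑f₀)^[j] (ptM e L v') = ptM e L a := by rw [hv', dh42_inv]
  have h6 := (ret_box hS hB ha hj h5).1
  rw [h6] at hr
  linarith

end Pool.Agent.Lib.H37D
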