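import Pool.Agent.Lib.H37D.DH41
import Pool.Agent.Lib.H37D.DH42

open TopologicalSpace Set Filter Topology
open scoped Manifold ContDiff
open Pool.Agent.Lib.Helper37.ConjBorel Pool.Agent.Lib.H37C

namespace Pool.Agent.Lib.H37D

variable {n : ℕ} {M : Type*} [TopologicalSpace M] [ChartedSpace (Euc n) M]
variable {W : Type*} [NormedAddCommGroup W] [NormedSpace ℝ W]
variable {f₀ : DiffInf n M} {m : ℕ} {p : M} {e : OpenPartialHomeomorph M (Euc n)} {L : Euc n ≃L[ℝ] Euc 2 × W}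
variable {A : Euc 2 → W ≃L[ℝ] W} {r₂ r₃ : ℝ} {χ : W → ℝ} {lt : ℕ → ℕ → Prop} {δ : ℝ} {F : DiffInf n M}

/-- **DH43 (S/M).** Preimages under `F^m` in the box.

Proof. `w' = (A a.1)⁻¹ a.2`: `A a.1 w' = a.2` has norm `≤ r₂`, so `‖w'‖ ≤ r₃` (`fund`), and `8 ‖a.2‖ ≤ ‖w'‖` (`A_le`). `PP_surj` for `(a.1, w')`
gives `a'`, `a'.2 = w'`, `PP a' = (a.1, w')`; `iter_m`: `F^m (pt a') = pt (a.1, A a.1 w') = pt a`. `PP_tube`. -/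
theorem pre_m [IsStrictTotalOrder ℕ lt] (hS : CSpot f₀ m p e L A r₂ r₃) (hχ : Cut χ r₂) (h0 : 0 ≤ δ) (h1 : δ ≤ 1)
    (hF : IsPert f₀ e L χ lt δ F) {a : Euc 2 × W} (ha : ‖a.1‖ < 5 / 2) (ha' : ‖a.2‖ ≤ r₂) :
    ∃ a' : Euc 2 × W, a' ∈ Bx r₃ ∧ ‖a'.1‖ < 5 / 2 ∧ 8 * ‖a.2‖ ≤ ‖a'.2‖ ∧ (⇑F)^[m] (ptM e L a') = ptM e L a := by
  have h2 : A a.1 ((A a.1).symm a.2) = a.2 := (A a.1).apply_symm_apply a.2
  have h3 := hS.fund a.1 ((A a.1).symm a.2) (by rw [h2]; exact ha')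
  have h4 := hS.A_le a.1 ((A a.1).symm a.2)
  rw [h2] at h4
  obtain ⟨a', h5, h6, h7⟩ := PP_surj (lt := lt) hχ h0 h1 ((a.1, (A a.1).symm a.2) : Euc 2 × W)
  have h8 : ‖a'.1‖ ≤ 3 := h7 (by show ‖a.1‖ ≤ 3; linarith)
  have h9 : a' ∈ Bx r₃ := ⟨h8, by rw [h5]; exact h3⟩
  refine ⟨a', h9, ?_, ?_, ?_⟩
  · rw [← PP_tube (lt := lt) hχ h0 h1, h6]
    exact ha
  · rw [h5]
    show 8 * ‖a.2‖ ≤ ‖(A a.1).symm a.2‖
    linarith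
  · rw [iter_m hS hχ h0 h1 hF h9, h6, h5]
    show ptM e L (a.1, A a.1 ((A a.1).symm a.2)) = ptM e L a
    rw [h2]

theorem dh43_back {x y : M} {k : ℕ} (h : (⇑F)^[k] x = y) : (⇑F.symm)^[k] y = x := by
  rw [← h]
  exact Function.LeftInverse.iterate (fun z => F.symm_apply_apply z) k x

theorem dh43_sub {x y y' : M} {k : ℕ} (hk : m ≤ k) (h : (⇑F)^[k] x = y) (h' : (⇑F)^[m] y' = y) :
    (⇑F)^[k - m] x = y' := by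
  have h1 : (⇑F)^[m] ((⇑F)^[k - m] x) = (⇑F)^[m] y' := by
    rw [← Function.iterate_add_apply, h', ← h]
    congr 2
    omega
  exact (F.injective.iterate m) h1

/-- **DH43, second part (M).** The backward orbits of the tube tend to `p`, uniformly.

Proof. Let `N₀` be the number of `src` for `V`, `N = N₀ + 2 m`. Let `k ≥ N`, `F^k x = pt a ∈ Tb`, not in `F^m Tb`. `pre_m`: `a'`, so
`F^m (pt a') = pt a = F^m (F^(k-m) x)`, `F^(k-m) x = pt a'` (`F^m` injective). As `pt a' ∉ Tb` and `‖a'.1‖ < 5/2`, `‖a'.2‖ ≥ r₂/2`.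
If `‖a'.2‖ ≥ r₂`: `x = F⁻¹^[k-m] (pt a') = f₀⁻¹^[k-m] (pt a')` (`back_ann`) is in `V` (`src`). If `‖a'.2‖ < r₂`: `pre_m` again: `a''` with
`‖a''.2‖ ≥ 8 ‖a'.2‖ ≥ 4 r₂ ≥ r₂`, `F^(k-2m) x = pt a''`, `x = F⁻¹^[k-2m] (pt a'') = f₀⁻¹^[k-2m] (pt a'') ∈ V`. -/
theorem unif_of [IsStrictTotalOrder ℕ lt] (hS : CSpot f₀ m p e L A r₂ r₃) (hχ : Cut χ r₂) (h0 : 0 ≤ δ) (h1 : δ ≤ 1)
    (hF : IsPert f₀ e L χ lt δ F) {V : Set M} (hV : V ∈ 𝓝 p) :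
    ∃ N : ℕ, ∀ k ≥ N, ∀ x, (⇑F)^[k] x ∈ Tb e L r₂ → (∀ y ∈ Tb e L r₂, (⇑F)^[m] y ≠ (⇑F)^[k] x) → x ∈ V := by
  obtain ⟨N₀, hN⟩ := hS.src V hV
  have hr := hS.r_pos
  refine ⟨N₀ + 2 * m, fun k hk x hx hno => ?_⟩
  obtain ⟨a, ⟨ha1, ha2⟩, hax⟩ := hx
  obtain ⟨a', hB, h5, _, h6⟩ := pre_m hS hχ h0 h1 hF (a := a) ha1 (by linarith)
  have h7 := dh43_sub (by omega : m ≤ k) hax.symm h6
  have h8 : r₂ / 2 ≤ ‖a'.2‖ := by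
    by_contra h9
    exact hno (ptM e L a') ⟨a', ⟨h5, not_le.1 h9⟩, rfl⟩ (by rw [h6, hax])
  by_cases h9 : r₂ ≤ ‖a'.2‖
  · rw [← dh43_back h7, back_ann hS hχ hF hB h9]
    exact hN _ (by omega) a' hB h9
  · obtain ⟨a'', hB', h5', h10, h6'⟩ := pre_m hS hχ h0 h1 hF (a := a') h5 (not_le.1 h9).le
    have h11 := dh43_sub (by omega : m ≤ k - m) h7 h6'
    have h12 : r₂ ≤ ‖a''.2‖ := by linarith
    rw [← dh43_back h11, back_ann hS hχ hF hB' h12]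
    exact hN _ (by omega) a'' hB' h12

end Pool.Agent.Lib.H37D
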