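import Pool.Agent.Lib.H37D.DH40

open TopologicalSpace Set Filter Topology
open scoped Manifold ContDiff
open Pool.Agent.Lib.Helper37.ConjBorel Pool.Agent.Lib.H37C

namespace Pool.Agent.Lib.H37D

variable {n : ℕ} {M : Type*} [TopologicalSpace M] [ChartedSpace (Euc n) M]
variable {W : Type*} [NormedAddCommGroup W] [NormedSpace ℝ W]
variable {f₀ : DiffInf n M} {m : ℕ} {p : M} {e : OpenPartialHomeomorph M (Euc n)} {L : Euc n ≃L[ℝ] Euc 2 × W}
variable {A : Euc 2 → W ≃L[ℝ] W} {r₂ r₃ : ℝ} {χ : W → ℝ} {lt : ℕ → ℕ → Prop} {δ : ℝ} {F : DiffInf n M}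

/-- **DH44 (S/M).** Topology of the box.

`e.symm` maps open subsets of `e.target` to open sets (`OpenPartialHomeomorph.isOpen_image_symm_of_subset_target`); `ptM e L` is
continuous on the box. -/
theorem isOpen_image_ptM (hS : CSpot f₀ m p e L A r₂ r₃) {O : Set (Euc 2 × W)} (hO : IsOpen O) (hOB : O ⊆ Bx r₃) :
    IsOpen (ptM e L '' O) := by
  have h1 : ptM e L '' O = e.symm '' (L.symm '' O) := by
    rw [Set.image_image]
    rfl
  rw [h1]
  apply e.isOpen_image_symm_of_subset_target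
  · exact L.symm.toHomeomorph.isOpenMap O hO
  · rintro _ ⟨v, hv, rfl⟩
    exact hS.big v (hOB hv)

theorem continuousOn_ptM (hS : CSpot f₀ m p e L A r₂ r₃) : ContinuousOn (ptM e L) (Bx r₃) :=
  ContinuousOn.comp (g := e.symm) (f := fun v : Euc 2 × W => L.symm v) e.continuousOn_symm
    L.symm.continuous.continuousOn (fun v hv => hS.big v hv)

/-- compact sets have compact, so closed, images -/
theorem isClosed_image_ptM [T2Space M] (hS : CSpot f₀ m p e L A r₂ r₃) {C : Set (Euc 2 × W)} (hC : IsCompact C)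
    (hCB : C ⊆ Bx r₃) : IsClosed (ptM e L '' C) :=
  (hC.image_of_continuousOn ((continuousOn_ptM hS).mono hCB)).isClosed

theorem isOpen_Tb (hS : CSpot f₀ m p e L A r₂ r₃) : IsOpen (Tb e L r₂) := by
  apply isOpen_image_ptM hS
  · exact (isOpen_lt (continuous_fst.norm) continuous_const).inter
      (isOpen_lt (continuous_snd.norm) continuous_const)
  · rintro v ⟨h1, h2⟩
    have := hS.r_lt
    have := hS.r_pos
    exact ⟨by linarith, by linarith⟩

theorem isOpen_CoC (hS : CSpot f₀ m p e L A r₂ r₃) : IsOpen (CoC e L r₂) := by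
  apply isOpen_image_ptM hS
  · exact (isOpen_lt continuous_const (continuous_fst.norm)).inter
      ((isOpen_lt (continuous_fst.norm) continuous_const).inter
      (isOpen_lt (continuous_snd.norm) continuous_const))
  · rintro v ⟨h0, h1, h2⟩
    have := hS.r_lt
    exact ⟨by linarith, by linarith⟩

/-- `Tb` is contained in the closed set `ptM e L '' {v | ‖v.1‖ ≤ 5/2 ∧ ‖v.2‖ ≤ r₂/2}` (`isClosed_image_ptM`). -/
theorem closure_Tb [T2Space M] [FiniteDimensional ℝ W] (hS : CSpot f₀ m p e L A r₂ r₃) {y : M} (hy : y ∈ closure (Tb e L r₂)) :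
    ∃ v : Euc 2 × W, ‖v.1‖ ≤ 5 / 2 ∧ ‖v.2‖ ≤ r₂ / 2 ∧ ptM e L v = y := by
  have h1 := hS.r_lt
  have h2 := hS.r_pos
  have hcl : IsClosed (ptM e L '' (Metric.closedBall (0 : Euc 2) (5 / 2) ×ˢ
      Metric.closedBall (0 : W) (r₂ / 2))) := by
    apply isClosed_image_ptM hS
    · exact (isCompact_closedBall (0 : Euc 2) (5 / 2)).prod (isCompact_closedBall (0 : W) (r₂ / 2))
    · rintro v ⟨h3, h4⟩
      rw [mem_closedBall_zero_iff] at h3 h4
      exact ⟨by linarith, by linarith⟩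
  have hsub : Tb e L r₂ ⊆ ptM e L '' (Metric.closedBall (0 : Euc 2) (5 / 2) ×ˢ
      Metric.closedBall (0 : W) (r₂ / 2)) := by
    rintro _ ⟨v, ⟨h3, h4⟩, rfl⟩
    refine ⟨v, ⟨?_, ?_⟩, rfl⟩
    · rw [mem_closedBall_zero_iff]; exact h3.le
    · rw [mem_closedBall_zero_iff]; exact h4.le
  obtain ⟨v, ⟨h3, h4⟩, hv⟩ := closure_minimal hsub hcl hy
  rw [mem_closedBall_zero_iff] at h3 h4
  exact ⟨v, h3, h4, hv⟩

/-- Neighbourhoods in the coordinates: `z ↦ L (e z)` is continuous at `ptM e L v`, with value `v`. -/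
theorem eventually_ptM (hS : CSpot f₀ m p e L A r₂ r₃) {v : Euc 2 × W} (hv : v ∈ Bx r₃) {P : Euc 2 × W → Prop}
    (hP : ∀ᶠ v' in 𝓝 v, P v') : ∀ᶠ z in 𝓝 (ptM e L v), z ∈ e.source ∧ P (L (e z)) := by
  have hs := ptM_source hS hv
  have h1 : ContinuousAt (fun z => L (e z)) (ptM e L v) :=
    ContinuousAt.comp (g := fun x => L x) (f := fun z => e z) L.continuous.continuousAt
      (e.continuousAt hs)
  have h2 : Tendsto (fun z => L (e z)) (𝓝 (ptM e L v)) (𝓝 v) := by
    have h3 := h1.tendsto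
    simp only [coord_ptM hS hv] at h3
    exact h3
  have h4 : ∀ᶠ z in 𝓝 (ptM e L v), z ∈ e.source := e.open_source.mem_nhds hs
  exact h4.and (h2.eventually hP)

end Pool.Agent.Lib.H37D
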