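import Pool.Agent.Lib.H37D.DH43
import Pool.Agent.Lib.H37D.DH44

open TopologicalSpace Set Filter Topology
open scoped Manifold ContDiff
open Pool.Agent.Lib.Helper37.ConjBorel Pool.Agent.Lib.H37C

namespace Pool.Agent.Lib.H37D

variable {n : ℕ} {M : Type*} [TopologicalSpace M] [ChartedSpace (Euc n) M]
variable {W : Type*} [NormedAddCommGroup W] [NormedSpace ℝ W]
variable {f₀ : DiffInf n M} {m : ℕ} {p : M} {e : OpenPartialHomeomorph M (Euc n)} {L : Euc n ≃L[ℝ] Euc 2 × W}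
variable {A : Euc 2 → W ≃L[ℝ] W} {r₂ r₃ : ℝ} {χ : W → ℝ} {lt : ℕ → ℕ → Prop} {δ : ℝ} {F : DiffInf n M}

/-- the conjugacy on the tube -/
noncomputable def etaM (e : OpenPartialHomeomorph M (Euc n)) (L : Euc n ≃L[ℝ] Euc 2 × W) (φ : Euc 2 → Euc 2)
    (K : Euc 2 → W → W) (z : M) : M :=
  ptM e L (φ (L (e z)).1, K (L (e z)).1 (L (e z)).2)

/-- **DH50 (M).** The tube carries gluing data for `F, F'`.

Proof. `v ∈ Bx r₃` for the points `pt v` of the tube (`5/2 ≤ 3`, `r₂/2 < r₂ < r₃`). `φ` preserves `‖ζ‖ < 5/2`: if `‖ζ‖ < 2`, then `‖φ ζ‖ < 2`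
(otherwise `φ (φ ζ) = φ ζ`, so `φ ζ = ζ` by injectivity), otherwise `φ ζ = ζ`.
- `op`: `isOpen_Tb`. `into`: `iter_m`, `PP_tube`, `A_le`. `ret`: `iter_ne`. `maps`: `hKr`, `coord_ptM`.
- `cont`: `e` is continuous on its source, `L`, `φ`, `K` are continuous, `continuousOn_ptM`.
- `conj`: `x = pt (ζ, w)`, `F^m x = pt (ψ ζ, A (ψ ζ) w)`, `ψ = psi lt δ` (`iter_m`, `PP_one`), `η (F^m x) = pt (φ (ψ ζ), K (ψ ζ) (A (ψ ζ) w)) =
pt (ψ' (φ ζ), A (φ (ψ ζ)) (K ζ w))` (`hKc`), and `F'^m (η x) = F'^m (pt (φ ζ, K ζ w)) = pt (ψ' (φ ζ), A (ψ' (φ ζ)) (K ζ w))`; `hφ`.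
- `off`: such an `x` is not in `CoC e L r₂`: if `x = pt v`, `1 < ‖v.1‖ < 2`, `‖v.2‖ < r₂`, then `F^m x = pt ((PP v).1, A .. v.2)` is in the tube
(`‖A .. v.2‖ ≤ r₂/8 < r₂/2`, `PP_tube`). So `F x = f₀ x = F' x` by `ext_fix`.
- `np`: `p ∉ CoC` (`notin`), so `F p = f₀ p = p`, `F^k p = p`, not in the tube (`notin`).
- `unif`: `unif_of`.
- `bdry`: `y = pt v`, `‖v.1‖ ≤ 5/2`, `‖v.2‖ ≤ r₂/2` (`closure_Tb`). If `‖v.1‖ ≤ 2`, `F^m y = pt (ψ v.1, A .. v.2)` (`iter_m`) would be in the tube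
(`PP_tube`; `‖A .. v.2‖ ≤ r₂/16`), so `‖v.1‖ > 2`. By `eventually_ptM`, for `u` near `y`: `u ∈ e.source` and `‖(L (e u)).1‖ > 2`. Let `u ∈ Tb`,
`u = pt a`, `a = L (e u)` (`coord_ptM`). Then `η u = pt (φ a.1, K a.1 a.2) = pt a = u` (`hφ2`, `hK2`). If `F^k x = u`, then
`x = F⁻¹^[k] u = f₀⁻¹^[k] u = F'⁻¹^[k] u` (`back_side` twice), so `F'^k x = u`. -/
theorem glue_of [T2Space M] [FiniteDimensional ℝ W] [IsStrictTotalOrder ℕ lt] {lt' : ℕ → ℕ → Prop}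
    [IsStrictTotalOrder ℕ lt'] (hS : CSpot f₀ m p e L A r₂ r₃) (hχ : Cut χ r₂) (h0 : 0 ≤ δ) (h1 : δ ≤ 1)
    (hF : IsPert f₀ e L χ lt δ F) {F' : DiffInf n M} (hF' : IsPert f₀ e L χ lt' δ F') (φ : Euc 2 ≃ₜ Euc 2)
    (hφ2 : ∀ x, 2 ≤ ‖x‖ → φ x = x) (hφ : ∀ x, φ (psi lt δ x) = psi lt' δ (φ x)) {K : Euc 2 → W → W}
    (hK : Continuous fun q : Euc 2 × W => K q.1 q.2)
    (hKc : ∀ ζ w, ‖w‖ ≤ r₂ / 2 → K (psi lt δ ζ) (A (psi lt δ ζ) w) = A (φ (psi lt δ ζ)) (K ζ w))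
    (hKr : ∀ ζ w, ‖w‖ < r₂ / 2 → ‖K ζ w‖ < r₂ / 2) (hK2 : ∀ ζ, 2 ≤ ‖ζ‖ → ∀ w, K ζ w = w) :
    Glue F.toHomeomorph F'.toHomeomorph (Tb e L r₂) m (etaM e L φ K) p := by
  have hrp := hS.r_pos
  have hrl := hS.r_lt
  have hbx : ∀ v : Euc 2 × W, ‖v.1‖ < 5 / 2 → ‖v.2‖ < r₂ / 2 → v ∈ Bx r₃ := fun v a b =>
    ⟨by linarith, by linarith⟩
  have hφt : ∀ ζ, ‖ζ‖ < 5 / 2 → ‖φ ζ‖ < 5 / 2 := by
    intro ζ hζ
    by_cases h : 2 ≤ ‖ζ‖
    · rw [hφ2 ζ h]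
      exact hζ
    · by_contra hc
      push Not at hc
      have h3 := φ.injective (hφ2 (φ ζ) (by linarith))
      rw [h3] at hc
      linarith
  have hsub : Tb e L r₂ ⊆ e.source := by
    rintro z ⟨v, hv, rfl⟩
    exact ptM_source hS (hbx v hv.1 hv.2)
  have heta : ∀ v : Euc 2 × W, v ∈ Bx r₃ →
      etaM e L φ K (ptM e L v) = ptM e L (φ v.1, K v.1 v.2) := by
    intro v hv
    unfold etaM
    rw [coord_ptM hS hv]
  have hCp : p ∉ CoC e L r₂ := by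
    rintro ⟨v, hv, he⟩
    exact hS.notin v ⟨by linarith [hv.2.1], by linarith [hv.2.2]⟩ he
  have hFp : F p = p := by rw [hF, ext_fix hχ hCp, hS.fix]
  refine
    { pos := hS.pos
      op := isOpen_Tb hS
      into := ?_
      ret := ?_
      maps := ?_
      cont := ?_
      conj := ?_
      off := ?_
      np := ?_
      unif := fun V hV => unif_of hS hχ h0 h1 hF hV
      bdry := ?_ }
  · rintro x ⟨v, ⟨hv1, hv2⟩, rfl⟩
    show (⇑F)^[m] (ptM e L v) ∈ Tb e L r₂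
    rw [iter_m hS hχ h0 h1 hF (hbx v hv1 hv2)]
    refine ⟨((PP χ lt δ v).1, A (PP χ lt δ v).1 v.2),
      ⟨(PP_tube (lt := lt) hχ h0 h1 (v := v)).2 hv1, ?_⟩, rfl⟩
    exact (hS.A_le _ _).trans_lt (by linarith [norm_nonneg v.2])
  · rintro i hi0 hi x ⟨v, hv, rfl⟩ ⟨v', hv', he⟩
    exact iter_ne hS hχ h0 h1 hF (hbx v hv.1 hv.2) (hbx v' hv'.1 hv'.2) hi0 hi he.symm
  · rintro x ⟨v, hv, rfl⟩
    rw [heta v (hbx v hv.1 hv.2)]
    exact ⟨(φ v.1, K v.1 v.2), ⟨hφt _ hv.1, hKr _ _ hv.2⟩, rfl⟩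
  · have hcz : ContinuousOn (fun z => L (e z)) (Tb e L r₂) :=
      L.continuous.comp_continuousOn (e.continuousOn.mono hsub)
    have hg : ContinuousOn (fun z => (φ (L (e z)).1, K (L (e z)).1 (L (e z)).2)) (Tb e L r₂) :=
      (φ.continuous.comp_continuousOn (continuous_fst.comp_continuousOn hcz)).prodMk
        (hK.comp_continuousOn hcz)
    refine (continuousOn_ptM hS).comp hg ?_
    rintro z ⟨v, hv, rfl⟩
    show (φ (L (e (ptM e L v))).1, K (L (e (ptM e L v))).1 (L (e (ptM e L v))).2) ∈ Bx r₃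
    rw [coord_ptM hS (hbx v hv.1 hv.2)]
    exact hbx _ (hφt _ hv.1) (hKr _ _ hv.2)
  · rintro x ⟨v, ⟨hv1, hv2⟩, rfl⟩
    show etaM e L φ K ((⇑F)^[m] (ptM e L v)) = (⇑F')^[m] (etaM e L φ K (ptM e L v))
    have hvB := hbx v hv1 hv2
    have hvB' : ((φ v.1, K v.1 v.2) : Euc 2 × W) ∈ Bx r₃ := hbx _ (hφt _ hv1) (hKr _ _ hv2)
    rw [iter_m hS hχ h0 h1 hF hvB, heta v hvB, iter_m hS hχ h0 h1 hF' hvB', PP_one hχ hv2.le,
      PP_one hχ (hKr _ _ hv2).le]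
    have hBB : ((psi lt δ v.1, A (psi lt δ v.1) v.2) : Euc 2 × W) ∈ Bx r₃ := by
      have h3 := (PP_tube (lt := lt) hχ h0 h1 (v := v)).2 hv1
      rw [PP_one hχ hv2.le] at h3
      exact hbx _ h3 ((hS.A_le _ _).trans_lt (by linarith [norm_nonneg v.2]))
    show etaM e L φ K (ptM e L (psi lt δ v.1, A (psi lt δ v.1) v.2)) =
      ptM e L (psi lt' δ (φ v.1), A (psi lt' δ (φ v.1)) (K v.1 v.2))
    rw [heta _ hBB]
    show ptM e L (φ (psi lt δ v.1), K (psi lt δ v.1) (A (psi lt δ v.1) v.2)) = _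
    rw [hKc _ _ hv2.le, hφ]
  · intro x hx
    have hC : x ∉ CoC e L r₂ := by
      rintro ⟨v, ⟨hv1, hv2, hv3⟩, rfl⟩
      apply hx m
      show (⇑F)^[m] (ptM e L v) ∈ Tb e L r₂
      rw [iter_m hS hχ h0 h1 hF ⟨by linarith, by linarith⟩]
      refine ⟨((PP χ lt δ v).1, A (PP χ lt δ v).1 v.2),
        ⟨(PP_tube (lt := lt) hχ h0 h1 (v := v)).2 (by linarith), ?_⟩, rfl⟩
      exact (hS.A_le _ _).trans_lt (by linarith)
    show F x = F' x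
    rw [hF, hF', ext_fix hχ hC, ext_fix hχ hC]
  · intro k
    show (⇑F)^[k] p ∉ Tb e L r₂
    rw [Function.iterate_fixed hFp k]
    rintro ⟨v, hv, he⟩
    exact hS.notin v (hbx v hv.1 hv.2) he
  · intro y hy hyo
    obtain ⟨v, hv1, hv2, rfl⟩ := closure_Tb hS hy
    have hvB : v ∈ Bx r₃ := ⟨by linarith, by linarith⟩
    have hv : 2 < ‖v.1‖ := by
      by_contra hc
      push Not at hc
      apply hyo m
      show (⇑F)^[m] (ptM e L v) ∈ Tb e L r₂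
      rw [iter_m hS hχ h0 h1 hF hvB]
      refine ⟨((PP χ lt δ v).1, A (PP χ lt δ v).1 v.2),
        ⟨(PP_tube (lt := lt) hχ h0 h1 (v := v)).2 (by linarith), ?_⟩, rfl⟩
      exact (hS.A_le _ _).trans_lt (by linarith)
    have hev : ∀ᶠ v' : Euc 2 × W in 𝓝 v, 2 < ‖v'.1‖ :=
      (continuous_fst.norm).continuousAt.eventually (lt_mem_nhds hv)
    filter_upwards [eventually_ptM hS hvB hev] with u hu
    intro hT
    obtain ⟨a, ⟨ha1, ha2⟩, rfl⟩ := hT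
    have haB := hbx a ha1 ha2
    rw [coord_ptM hS haB] at hu
    constructor
    · rw [heta a haB, hφ2 _ hu.2.le, hK2 _ hu.2.le]
    · intro k x hx
      show (⇑F')^[k] x = ptM e L a
      have hx' : (⇑F)^[k] x = ptM e L a := hx
      have h3 : x = (⇑F.symm)^[k] (ptM e L a) := by
        rw [← hx']
        exact ((Function.LeftInverse.iterate F.symm_apply_apply k) x).symm
      rw [back_side hS hχ hF haB hu.2.le, ← back_side hS hχ hF' haB hu.2.le] at h3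
      rw [h3]
      exact (Function.LeftInverse.iterate F'.apply_symm_apply k) _

end Pool.Agent.Lib.H37D
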