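import Pool.Agent.Lib.H37D.DH14
import Pool.Agent.Lib.H37D.DH27
import Pool.Agent.Lib.H37D.DH50

open TopologicalSpace Set Filter Topology
open scoped Manifold ContDiff
open Pool.Agent.Lib.Helper37.ConjBorel Pool.Agent.Lib.H37C

namespace Pool.Agent.Lib.H37D

variable {n : ℕ} {M : Type*} [TopologicalSpace M] [ChartedSpace (Euc n) M]
variable {W : Type*} [NormedAddCommGroup W] [NormedSpace ℝ W]
variable {f₀ : DiffInf n M} {m : ℕ} {p : M} {e : OpenPartialHomeomorph M (Euc n)} {L : Euc n ≃L[ℝ] Euc 2 × W}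
variable {A : Euc 2 → W ≃L[ℝ] W} {r₂ r₃ : ℝ} {χ : W → ℝ} {lt : ℕ → ℕ → Prop} {δ : ℝ} {F : DiffInf n M}

/-- **DH51 (M).** Isomorphic orders give topologically conjugate diffeomorphisms.

Proof. `conj_space 2 π` (Lib/H37C/C5) gives `φ` with `hφ2`, `hφ`. `ψ : Euc 2 ≃ₜ Euc 2` with `ψ ζ = psi lt δ ζ` (`psi_diffeo`). `Coc A (fun ζ => A (φ ζ))`
(`cont_A`, `A_le`, `A_close`; `W` is complete: `FiniteDimensional.complete ℝ W`). `exists_coc` (DH27) with `r = r₂/2` gives `K₁, L₁`; with `D = {ζ | 2 ≤ ‖ζ‖}`: on `D`,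
`psi lt δ ζ = ζ` (`psi_out`), so `ψ.symm ζ = ζ`, and `φ ζ = ζ`; so `K₁ ζ w = w = L₁ ζ w`. `glue_of` with `(φ, K₁)` for `(F, F')`, and with
`(φ.symm, K₂)`, `K₂ ζ w = L₁ (φ.symm ζ) w` for `(F', F)`: with `y = φ.symm ζ`, `φ.symm (psi lt' δ ζ) = psi lt δ y = ψ y` and `psi lt' δ ζ = φ (ψ y)`, so
`K₂ (psi lt' δ ζ) (A (psi lt' δ ζ) w) = L₁ (ψ y) (A (φ (ψ y)) w) = A (ψ y) (L₁ y w)` (sixth property in `exists_coc`). The two maps `etaM` are inverse to each other on the tube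
(`coord_ptM`; for `x = pt (ζ, w)`: `η x = pt (φ ζ, K₁ ζ w)`, `η' (η x) = pt (ζ, L₁ ζ (K₁ ζ w))`; `η' x = pt (φ⁻¹ ζ, L₁ (φ⁻¹ ζ) w)`,
`η (η' x) = pt (ζ, K₁ (φ⁻¹ ζ) (L₁ (φ⁻¹ ζ) w))`; the images are in the tube by `Glue.maps`). `glue` (DH14). -/
theorem topConj_of_isoC [T2Space M] [FiniteDimensional ℝ W] [IsStrictTotalOrder ℕ lt] {lt' : ℕ → ℕ → Prop}
    [IsStrictTotalOrder ℕ lt'] (hS : CSpot f₀ m p e L A r₂ r₃) (hχ : Cut χ r₂) (π : lt ≃r lt') (h0 : 0 < δ) (h1 : δ ≤ 1)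
    (hF : IsPert f₀ e L χ lt δ F) {F' : DiffInf n M} (hF' : IsPert f₀ e L χ lt' δ F') : TopConj F F' := by
  obtain ⟨φ, hφ2, hφ⟩ := conj_space 2 π h0 h1
  obtain ⟨hc, g, hgc, hg1, hg2⟩ := psi_diffeo (lt := lt) (n := 2) h0.le h1
  let ψ : Euc 2 ≃ₜ Euc 2 :=
    { toFun := psi lt δ
      invFun := g
      left_inv := hg1
      right_inv := hg2
      continuous_toFun := hc.continuous
      continuous_invFun := hgc.continuous }
  have hψ : ∀ ζ, ψ ζ = psi lt δ ζ := fun _ => rfl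
  haveI : CompleteSpace W := FiniteDimensional.complete ℝ W
  have hCoc : Coc A (fun ζ => A (φ ζ)) :=
    ⟨hS.cont_A, hS.cont_A.comp φ.continuous, hS.A_le, fun y w => hS.A_le _ _,
      fun y w => hS.A_close _ _ _⟩
  obtain ⟨K₁, L₁, hKc, hLc, hLK, hKL, hK5, hL6, hK7, hL8, hD⟩ :=
    exists_coc hCoc (half_pos hS.r_pos) ψ
  have hDD := hD {ζ | 2 ≤ ‖ζ‖} (by
      intro y hy
      have e1 : psi lt δ y = y := psi_out (fun h => absurd h.2 (not_lt.2 hy))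
      have e2 : ψ.symm y = y := by
        rw [Homeomorph.symm_apply_eq, hψ, e1]
      rw [e2]
      exact hy) (by
      intro y hy
      show A y = A (φ y)
      rw [hφ2 y hy])
  have hsym2 : ∀ x, 2 ≤ ‖x‖ → φ.symm x = x := by
    intro x hx
    rw [Homeomorph.symm_apply_eq, hφ2 x hx]
  have hsym : ∀ x, φ.symm (psi lt' δ x) = psi lt δ (φ.symm x) := by
    intro x
    rw [Homeomorph.symm_apply_eq, hφ, Homeomorph.apply_symm_apply]
  have G1 : Glue F.toHomeomorph F'.toHomeomorph (Tb e L r₂) m (etaM e L φ K₁) p :=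
    glue_of hS hχ h0.le h1 hF hF' φ hφ2 hφ hKc (fun ζ w hw => hK5 ζ w hw)
      (fun ζ w hw => hK7 ζ w hw) (fun ζ hζ w => (hDD ζ hζ w).1)
  have G2 : Glue F'.toHomeomorph F.toHomeomorph (Tb e L r₂) m
      (etaM e L φ.symm (fun ζ w => L₁ (φ.symm ζ) w)) p := by
    refine glue_of hS hχ h0.le h1 hF' hF φ.symm hsym2 hsym ?_ ?_ ?_ ?_
    · exact hLc.comp ((φ.symm.continuous.comp continuous_fst).prodMk continuous_snd)
    · intro ζ w hw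
      show L₁ (φ.symm (psi lt' δ ζ)) (A (psi lt' δ ζ) w) =
        A (φ.symm (psi lt' δ ζ)) (L₁ (φ.symm ζ) w)
      have h6 := hL6 (φ.symm ζ) w hw
      have e1 : φ (ψ (φ.symm ζ)) = psi lt' δ ζ := by
        rw [hψ, hφ, Homeomorph.apply_symm_apply]
      have e2 : ψ (φ.symm ζ) = φ.symm (psi lt' δ ζ) := by
        rw [hψ, hsym]
      rw [e1, e2] at h6
      exact h6
    · exact fun ζ w hw => hL8 (φ.symm ζ) w hw
    · intro ζ hζ w
      show L₁ (φ.symm ζ) w = w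
      rw [hsym2 ζ hζ]
      exact (hDD ζ hζ w).2
  have hbox : ∀ v : Euc 2 × W, ‖v.1‖ < 5 / 2 ∧ ‖v.2‖ < r₂ / 2 → v ∈ Bx (W := W) r₃ := by
    intro v hv
    have h2 := hS.r_pos
    have h3 := hS.r_lt
    exact ⟨by linarith [hv.1], by linarith [hv.2]⟩
  have hcoord : ∀ x ∈ Tb e L r₂, ∀ z ∈ Tb e L r₂, L (e x) = L (e z) → x = z := by
    rintro _ ⟨v, hv, rfl⟩ _ ⟨v', hv', rfl⟩ h
    rw [coord_ptM hS (hbox v hv), coord_ptM hS (hbox v' hv')] at h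
    rw [h]
  have hval : ∀ v : Euc 2 × W, ptM e L v ∈ Tb e L r₂ → v ∈ Bx (W := W) r₃ → L (e (ptM e L v)) = v :=
    fun v _ hv => coord_ptM hS hv
  have hη : ∀ (φ' : Euc 2 → Euc 2) (K : Euc 2 → W → W), ∀ x ∈ Tb e L r₂,
      ‖φ' (L (e x)).1‖ < 5 / 2 → ‖K (L (e x)).1 (L (e x)).2‖ < r₂ / 2 →
      L (e (etaM e L φ' K x)) = (φ' (L (e x)).1, K (L (e x)).1 (L (e x)).2) := by
    intro φ' K x _ h3 h4
    exact coord_ptM hS (hbox _ ⟨h3, h4⟩)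
  have hx : ∀ x ∈ Tb e L r₂, ‖(L (e x)).1‖ < 5 / 2 ∧ ‖(L (e x)).2‖ < r₂ / 2 := by
    rintro _ ⟨v, hv, rfl⟩
    rw [coord_ptM hS (hbox v hv)]
    exact hv
  have hball : ∀ φ' : Euc 2 ≃ₜ Euc 2, (∀ x, 2 ≤ ‖x‖ → φ' x = x) → ∀ ζ, ‖ζ‖ < 5 / 2 →
      ‖φ' ζ‖ < 5 / 2 := by
    intro φ' h ζ hζ
    by_contra hc
    push Not at hc
    have e1 := h (φ' ζ) (by linarith)
    have e2 := φ'.injective e1
    rw [e2] at hc
    linarith
  refine glue G1 G2 ?_ ?_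
  · intro x hxT
    obtain ⟨a1, a2⟩ := hx x hxT
    have m1 := G1.maps x hxT
    have m2 := G2.maps _ m1
    have c1 := hη φ K₁ x hxT (hball φ hφ2 _ a1) (hK7 _ _ a2)
    have b1 := hx _ m1
    have c2 := hη φ.symm (fun ζ w => L₁ (φ.symm ζ) w) _ m1 (hball φ.symm hsym2 _ b1.1)
      (hL8 _ _ b1.2)
    apply hcoord _ m2 _ hxT
    rw [c2, c1]
    show (φ.symm (φ (L (e x)).1), L₁ (φ.symm (φ (L (e x)).1)) (K₁ (L (e x)).1 (L (e x)).2)) =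
      L (e x)
    rw [Homeomorph.symm_apply_apply, hLK]
  · intro x hxT
    obtain ⟨a1, a2⟩ := hx x hxT
    have m1 := G2.maps x hxT
    have m2 := G1.maps _ m1
    have c1 := hη φ.symm (fun ζ w => L₁ (φ.symm ζ) w) x hxT (hball φ.symm hsym2 _ a1)
      (hL8 _ _ a2)
    have b1 := hx _ m1
    have c2 := hη φ K₁ _ m1 (hball φ hφ2 _ b1.1) (hK7 _ _ b1.2)
    apply hcoord _ m2 _ hxT
    rw [c2, c1]
    show (φ (φ.symm (L (e x)).1), K₁ (φ.symm (L (e x)).1) (L₁ (φ.symm (L (e x)).1) (L (e x)).2)) =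
      L (e x)
    rw [Homeomorph.apply_symm_apply, hKL]

end Pool.Agent.Lib.H37D
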