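import Pool.Agent.Lib.H37D.DHDefs

open TopologicalSpace Set Filter Topology
open Pool.Agent.Lib.H37C

namespace Pool.Agent.Lib.H37D

variable {Z : Type*} [TopologicalSpace Z] {X Co Di : Set Z} {rad : Z → ℝ} {K : Set ℝ}

/-- **DH60.** Port of Lib/H37C/F4. Accumulation in `X` gives accumulation of the radial coordinates. -/
theorem accR_of_accX_C (hD : RadC X Co Di rad K) {S : Set Z} (hS : S ⊆ X) {z : Z} (hz : z ∈ X ∩ Co)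
    (h : AccX X S z) : AccR (rad '' (S ∩ Co)) (rad z) := by
  unfold AccR
  rw [Metric.mem_closure_iff]
  intro ε hε
  have h1 : ∀ᶠ z' in 𝓝 z, z' ∈ Co := hD.isOpen.mem_nhds hz.2
  have h2 : ∀ᶠ z' in 𝓝 z, dist (rad z) (rad z') < ε := by
    have h3 : ContinuousAt rad z := hD.cont.continuousAt (hD.isOpen.mem_nhds hz.2)
    have h4 := Metric.continuousAt_iff'.1 h3 ε hε
    filter_upwards [h4] with z' hz'
    rwa [dist_comm]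
  have h3 := hD.loc z hz
  obtain ⟨z', hz'1, hz'2⟩ := mem_closure_iff_nhds.1 h _ ((h1.and h2).and h3)
  refine ⟨rad z', ⟨⟨z', ⟨hz'2.1, hz'1.1.1⟩, rfl⟩, fun h5 => hz'2.2 (hz'1.2 (hS hz'2.1) h5)⟩, hz'1.1.2⟩

theorem accX_of_accR_C (hD : RadC X Co Di rad K) {T : Set ℝ} {z : Z} (hz : z ∈ X ∩ Co)
    (h : AccR T (rad z)) : AccX X {z' | z' ∈ Di ∧ rad z' ∈ T} z := by
  obtain ⟨σ, hσ1, hσ2, hσ3⟩ := hD.lift z ((hD.mem z hz.2).1 hz.1).1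
  unfold AccX
  rw [mem_closure_iff_nhds]
  intro V hV
  have h1 : ∀ᶠ k in 𝓝 (rad z), σ k ∈ V := by
    apply hσ1.eventually
    rw [hσ2]
    exact hV
  obtain ⟨k, hk1, hk2⟩ := mem_closure_iff_nhds.1 h _ (h1.and hσ3)
  refine ⟨σ k, hk1.1, ⟨hk1.2.1, ?_⟩, fun hc => ?_⟩
  · rw [hk1.2.2]; exact hk2.1
  · have h3 := (hD.comp z hz _ hc).2
    rw [hk1.2.2] at h3
    exact hk2.2 h3

theorem topProp_of_radC (hD : RadC X Co Di rad K) {Ω : Type*} {r : Ω → Ω → Prop}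
    (h : ∃ k ∈ K, (∃ R : Ω → Set ℝ, GoodR K r R ∧ ∀ l, AccR (R l) k) ∧ ∀ D, SelfR K D → k ∉ D) :
    TopProp r X := by
  obtain ⟨k, hk, ⟨R, hR, hacc⟩, hno⟩ := h
  obtain ⟨z, hz, rfl⟩ := hD.surj k hk
  have hzC : z ∈ Co := hD.sub hz
  have hzX : z ∈ X := (hD.mem z hzC).2 ⟨hz, hk⟩
  refine ⟨fun l => {z' | z' ∈ Di ∧ rad z' ∈ R l}, ?_, z, hzX, fun l =>
    accX_of_accR_C hD ⟨hzX, hzC⟩ (hacc l), fun D hDs hzD => ?_⟩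
  · rintro l x ⟨hx1, hx2⟩
    have hxX : x ∈ X := (hD.mem x (hD.sub hx1)).2 ⟨hx1, (hR l _ hx2).1⟩
    exact ⟨hxX, fun l' hl' => accX_of_accR_C hD ⟨hxX, hD.sub hx1⟩ ((hR l _ hx2).2 l' hl')⟩
  · refine hno (rad '' (D ∩ Co)) ⟨?_, ?_⟩ ⟨z, ⟨hzD, hzC⟩, rfl⟩
    · rintro _ ⟨x, ⟨hx1, hx2⟩, rfl⟩
      exact ((hD.mem x hx2).1 (hDs.1 hx1)).2
    · rintro _ ⟨x, ⟨hx1, hx2⟩, rfl⟩
      exact accR_of_accX_C hD hDs.1 ⟨hDs.1 hx1, hx2⟩ (hDs.2 x hx1)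

theorem self_of_radC (hD : RadC X Co Di rad K) {Ω : Type*} {r : Ω → Ω → Prop}
    (h : ∀ R : Ω → Set ℝ, GoodR K r R → ∀ k ∈ K, (∀ l, AccR (R l) k) → ∃ D, SelfR K D ∧ k ∈ D)
    {R : Ω → Set Z} (hR : GoodFam X r R) {z : Z} (hz : z ∈ X ∩ Co) (hacc : ∀ l, AccX X (R l) z) :
    ∃ D, SelfAcc X D ∧ z ∈ D := by
  have hRX : ∀ l, R l ⊆ X := fun l x hx => (hR l x hx).1
  have hgood : GoodR K r (fun l => rad '' (R l ∩ Co)) := by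
    rintro l _ ⟨x, ⟨hx1, hx2⟩, rfl⟩
    have hxX := (hR l x hx1).1
    exact ⟨((hD.mem x hx2).1 hxX).2, fun l' hl' =>
      accR_of_accX_C hD (hRX l') ⟨hxX, hx2⟩ ((hR l x hx1).2 l' hl')⟩
  have hzK := (hD.mem z hz.2).1 hz.1
  obtain ⟨D, hD1, hD2⟩ := h _ hgood (rad z) hzK.2 (fun l => accR_of_accX_C hD (hRX l) hz (hacc l))
  refine ⟨{z' | z' ∈ Di ∧ rad z' ∈ D}, ⟨?_, ?_⟩, hzK.1, hD2⟩
  · rintro x ⟨hx1, hx2⟩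
    exact (hD.mem x (hD.sub hx1)).2 ⟨hx1, hD1.1 hx2⟩
  · rintro x ⟨hx1, hx2⟩
    exact accX_of_accR_C hD ⟨(hD.mem x (hD.sub hx1)).2 ⟨hx1, hD1.1 hx2⟩, hD.sub hx1⟩ (hD1.2 _ hx2)

end Pool.Agent.Lib.H37D
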