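import Pool.Agent.Lib.H37D.DHDefs

open TopologicalSpace Set Filter Topology
open scoped Manifold ContDiff
open Pool.Agent.Lib.Helper37.ConjBorel Pool.Agent.Lib.H37C

namespace Pool.Agent.Lib.H37D

/-- **DH61.** Abstract version of Lib/H37C/F2 (`comp_subset`). -/
theorem comp_subset_C {Z : Type*} [TopologicalSpace Z] {X Co : Set Z} {rad : Z → ℝ} {lt : ℕ → ℕ → Prop}
    [IsStrictTotalOrder ℕ lt] (hX : ∀ z ∈ Co, z ∈ X → rad z ∈ Kint lt) (hcl : IsClosed (X ∩ Co)) (hop : IsOpen Co)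
    (hc : ContinuousOn rad Co) :
    ∀ z ∈ X ∩ Co, ∀ z' ∈ connectedComponentIn X z, z' ∈ Co ∧ rad z' = rad z := by
  rintro z ⟨hzX, hzC⟩
  have hpre := isPreconnected_connectedComponentIn (F := X) (x := z)
  have hsub : connectedComponentIn X z ⊆ X := connectedComponentIn_subset X z
  have hmem : z ∈ connectedComponentIn X z := mem_connectedComponentIn hzX
  have h1 : connectedComponentIn X z ⊆ Co := by
    intro w hw
    by_contra hwC
    obtain ⟨v, hv1, hv2, hv3⟩ := hpre Co (X ∩ Co)ᶜ hop hcl.isOpen_compl (by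
      intro v hv
      by_cases h : v ∈ Co
      · exact Or.inl h
      · exact Or.inr fun h2 => h h2.2) ⟨z, hmem, hzC⟩ ⟨w, hw, fun h2 => hwC h2.2⟩
    exact hv3 ⟨hsub hv1, hv2⟩
  intro z' hz'
  refine ⟨h1 hz', ?_⟩
  have himg : IsPreconnected (rad '' connectedComponentIn X z) := hpre.image _ (hc.mono h1)
  have hK : ∀ w ∈ connectedComponentIn X z, rad w ∈ Kset lt := fun w hw =>
    (hX w (h1 hw) (hsub hw)).1
  have key : ∀ w ∈ connectedComponentIn X z, ∀ w' ∈ connectedComponentIn X z,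
      ¬ rad w < rad w' := by
    intro w hw w' hw' hlt
    obtain ⟨x, hx1, hx2⟩ := f2_gap (hK w hw) (hK w' hw') hlt
    obtain ⟨v, hv, rfl⟩ := himg.Icc_subset (mem_image_of_mem _ hw) (mem_image_of_mem _ hw') hx1
    exact hx2 (hK v hv)
  exact le_antisymm (not_lt.1 (key z hmem z' hz')) (not_lt.1 (key z' hz' z hmem))

end Pool.Agent.Lib.H37D
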