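import Pool.Agent.Lib.H37D.DH44
import Pool.Agent.Lib.H37D.DH61

open TopologicalSpace Set Filter Topology
open scoped Manifold ContDiff
open Pool.Agent.Lib.Helper37.ConjBorel Pool.Agent.Lib.H37C

namespace Pool.Agent.Lib.H37D

variable {n : ℕ} {M : Type*} [TopologicalSpace M] [ChartedSpace (Euc n) M]
variable {W : Type*} [NormedAddCommGroup W] [NormedSpace ℝ W]
variable {f₀ : DiffInf n M} {m : ℕ} {p : M} {e : OpenPartialHomeomorph M (Euc n)} {L : Euc n ≃L[ℝ] Euc 2 × W}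
variable {A : Euc 2 → W ≃L[ℝ] W} {r₂ r₃ : ℝ}

theorem dh62_mem (hS : CSpot f₀ m p e L A r₂ r₃) {v : Euc 2 × W} (h1 : ‖v.1‖ ≤ 3)
    (h2 : ‖v.2‖ < r₂) : v ∈ Bx r₃ := ⟨h1, h2.le.trans hS.r_lt.le⟩

theorem dh62_mem0 (hS : CSpot f₀ m p e L A r₂ r₃) {ζ : Euc 2} (h1 : ‖ζ‖ ≤ 3) :
    ((ζ, 0) : Euc 2 × W) ∈ Bx r₃ := dh62_mem hS h1 (by
  show ‖(0 : W)‖ < r₂
  rw [norm_zero]
  exact hS.r_pos)

theorem dh62_Di {z : M} (hz : z ∈ DiC e L) :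
    ∃ ζ : Euc 2, 1 < ‖ζ‖ ∧ ‖ζ‖ < 2 ∧ z = ptM e L (ζ, 0) := by
  obtain ⟨⟨ζ, w⟩, ⟨h1, h2, h3⟩, rfl⟩ := hz
  have h3' : w = 0 := h3
  subst h3'
  exact ⟨ζ, h1, h2, rfl⟩

/-- **DH62 (S/M).** The radial coordinate in the shell (port of Lib/H37C/F1).

`radC` is continuous on the source of the chart. -/
theorem continuousOn_radC (hS : CSpot f₀ m p e L A r₂ r₃) : ContinuousOn (radC e L) (CoC e L r₂) := by
  have hsub : CoC e L r₂ ⊆ e.source := by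
    rintro _ ⟨v, ⟨h1, h2, h3⟩, rfl⟩
    exact ptM_source hS (dh62_mem hS (by linarith) h3)
  have h1 : ContinuousOn (fun z => L (e z)) (CoC e L r₂) :=
    L.continuous.comp_continuousOn (e.continuousOn.mono hsub)
  have h2 : ContinuousOn (fun z => ‖(L (e z)).1‖ - 1) (CoC e L r₂) :=
    ((continuous_fst.comp_continuousOn h1).norm).sub continuousOn_const
  exact h2

/-- `coord_ptM` -/
theorem radC_ptM (hS : CSpot f₀ m p e L A r₂ r₃) {v : Euc 2 × W} (hv : v ∈ Bx r₃) : radC e L (ptM e L v) = ‖v.1‖ - 1 := by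
  unfold radC
  rw [coord_ptM hS hv]

/-- The set is the image of the compact set `{v | v.2 = 0 ∧ ‖v.1‖ ≤ 2 ∧ ‖v.1‖ - 1 ∈ K}`, a product of a compact set of `Euc 2` and
`{0}` (`isClosed_image_ptM`). -/
theorem isClosed_radC [T2Space M] (hS : CSpot f₀ m p e L A r₂ r₃) {K : Set ℝ} (hK : IsClosed K) {a b : ℝ} (ha : 0 < a)
    (hb1 : b < 1) (hKab : K ⊆ Icc a b) : IsClosed {z | z ∈ DiC e L ∧ radC e L z ∈ K} := by
  have h1 : {z | z ∈ DiC e L ∧ radC e L z ∈ K} =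
      ptM e L '' ((Metric.closedBall (0 : Euc 2) 2 ∩ {ζ | ‖ζ‖ - 1 ∈ K}) ×ˢ ({0} : Set W)) := by
    ext z
    constructor
    · rintro ⟨hz1, hz2⟩
      obtain ⟨ζ, h2, h3, rfl⟩ := dh62_Di hz1
      rw [radC_ptM hS (dh62_mem0 hS (by linarith))] at hz2
      exact ⟨(ζ, 0), ⟨⟨by simpa using h3.le, hz2⟩, rfl⟩, rfl⟩
    · rintro ⟨⟨ζ, w⟩, ⟨⟨h2, h3⟩, h4⟩, rfl⟩
      have h4' : w = 0 := h4
      subst h4'
      have h5 : ‖ζ‖ - 1 ∈ K := h3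
      have h6 := hKab h5
      have h7 : 1 < ‖ζ‖ := by linarith [h6.1]
      have h8 : ‖ζ‖ < 2 := by linarith [h6.2]
      refine ⟨⟨(ζ, 0), ⟨h7, h8, rfl⟩, rfl⟩, ?_⟩
      rw [radC_ptM hS (dh62_mem0 hS (by linarith))]
      exact h5
  rw [h1]
  refine isClosed_image_ptM hS ?_ ?_
  · exact (((isCompact_closedBall _ _).inter_right
      (hK.preimage (continuous_norm.sub continuous_const))).prod isCompact_singleton)
  · rintro ⟨ζ, w⟩ ⟨⟨h2, -⟩, h4⟩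
    have h4' : w = 0 := h4
    subst h4'
    rw [mem_closedBall_zero_iff] at h2
    exact dh62_mem0 hS (by linarith)

/-- `z = pt (ζ, 0)`: `σ k = pt (((k + 1) / ‖ζ‖) • ζ, 0)` (see `exists_lift` in Lib/H37C/F1). -/
theorem exists_liftC (hS : CSpot f₀ m p e L A r₂ r₃) {z : M} (hz : z ∈ DiC e L) :
    ∃ σ : ℝ → M, ContinuousAt σ (radC e L z) ∧ σ (radC e L z) = z ∧
      ∀ᶠ k in 𝓝 (radC e L z), σ k ∈ DiC e L ∧ radC e L (σ k) = k := by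
  obtain ⟨ζ, hz1, hz2, rfl⟩ := dh62_Di hz
  have hn : ‖ζ‖ ≠ 0 := by linarith
  have hr : radC e L (ptM e L ((ζ, 0) : Euc 2 × W)) = ‖ζ‖ - 1 :=
    radC_ptM hS (dh62_mem0 hS (by linarith))
  rw [hr]
  have h1 : ((‖ζ‖ - 1 + 1) / ‖ζ‖) • ζ = ζ := by
    rw [sub_add_cancel, div_self hn, one_smul]
  refine ⟨fun k => ptM e L (((k + 1) / ‖ζ‖) • ζ, 0), ?_, ?_, ?_⟩
  · have h2 : Continuous fun k : ℝ => L.symm ((((k + 1) / ‖ζ‖) • ζ, 0) : Euc 2 × W) :=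
      L.symm.continuous.comp (by fun_prop)
    refine ContinuousAt.comp (g := e.symm)
      (f := fun k : ℝ => L.symm ((((k + 1) / ‖ζ‖) • ζ, 0) : Euc 2 × W)) ?_ h2.continuousAt
    apply e.symm.continuousAt
    show L.symm ((((‖ζ‖ - 1 + 1) / ‖ζ‖) • ζ, 0) : Euc 2 × W) ∈ e.target
    rw [h1]
    exact hS.big _ (dh62_mem0 hS (by linarith))
  · show ptM e L ((((‖ζ‖ - 1 + 1) / ‖ζ‖) • ζ, 0) : Euc 2 × W) = _
    rw [h1]
  · have h3 : ∀ᶠ k in 𝓝 (‖ζ‖ - 1), 0 < k ∧ k < 1 := by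
      apply IsOpen.mem_nhds (isOpen_Ioo (a := (0 : ℝ)) (b := 1))
      exact ⟨by linarith, by linarith⟩
    filter_upwards [h3] with k hk
    have h4 : ‖((k + 1) / ‖ζ‖) • ζ‖ = k + 1 := by
      rw [norm_smul, Real.norm_eq_abs, abs_of_nonneg
        (div_nonneg (by linarith) (norm_nonneg _)), div_mul_cancel₀ _ hn]
    have h5 : 1 < ‖((k + 1) / ‖ζ‖) • ζ‖ := by rw [h4]; linarith
    have h6 : ‖((k + 1) / ‖ζ‖) • ζ‖ < 2 := by rw [h4]; linarith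
    refine ⟨⟨(((k + 1) / ‖ζ‖) • ζ, 0), ⟨h5, h6, rfl⟩, rfl⟩, ?_⟩
    rw [radC_ptM hS (dh62_mem0 hS (by linarith))]
    show ‖((k + 1) / ‖ζ‖) • ζ‖ - 1 = k
    rw [h4]
    ring

/-- `pt ((k + 1, 0), 0)` -/
theorem exists_radC_eq (hS : CSpot f₀ m p e L A r₂ r₃) {k : ℝ} (hk : k ∈ Ioo (0 : ℝ) 1) :
    ∃ z ∈ DiC e L, radC e L z = k := by
  obtain ⟨ζ, hζ⟩ : ∃ ζ : Euc 2, ζ = EuclideanSpace.single 0 (k + 1) := ⟨_, rfl⟩
  have h1 : ‖ζ‖ = k + 1 := by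
    rw [hζ, EuclideanSpace.norm_single, Real.norm_eq_abs, abs_of_pos (by linarith [hk.1])]
  have h2 : 1 < ‖ζ‖ := by rw [h1]; linarith [hk.1]
  have h3 : ‖ζ‖ < 2 := by rw [h1]; linarith [hk.2]
  refine ⟨ptM e L (ζ, 0), ⟨(ζ, 0), ⟨h2, h3, rfl⟩, rfl⟩, ?_⟩
  rw [radC_ptM hS (dh62_mem0 hS (by linarith))]
  show ‖ζ‖ - 1 = k
  rw [h1]
  ring

/-- Port of `comp_loc` (Lib/H37C/F2).

Proof. `z = pt (ζ, 0)`, `r = ‖ζ‖ ∈ (1, 2)`. The sphere of radius `r` of `Euc 2` is preconnected (`isPreconnected_sphere`, rank `2`), so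
its image `I` under `ζ' ↦ pt (ζ', 0)` is (`continuousOn_ptM`), `I ⊆ X` by `hX` (`radC_ptM`), `z ∈ I`, so `I` is contained in the component
(`IsPreconnected.subset_connectedComponentIn`). For `z'` near `z`: `z' ∈ CoC` (`isOpen_CoC`); if `z' ∈ X` then `z' ∈ DiC`, `z' = pt (ζ', 0)`, and
`radC z' = radC z` gives `‖ζ'‖ = r`, `z' ∈ I`. -/
theorem comp_locC (hS : CSpot f₀ m p e L A r₂ r₃) {lt : ℕ → ℕ → Prop} {X : Set M}
    (hX : ∀ z ∈ CoC e L r₂, z ∈ X ↔ z ∈ DiC e L ∧ radC e L z ∈ Kint lt) :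
    ∀ z ∈ X ∩ CoC e L r₂, ∀ᶠ z' in 𝓝 z, z' ∈ X → radC e L z' = radC e L z → z' ∈ connectedComponentIn X z := by
  rintro z ⟨hzX, hzC⟩
  obtain ⟨hzD, hzK⟩ := (hX z hzC).1 hzX
  obtain ⟨ζ, hz1, hz2, rfl⟩ := dh62_Di hzD
  rw [radC_ptM hS (dh62_mem0 hS (by linarith))] at hzK
  have hrank : 1 < Module.rank ℝ (Euc 2) := by
    rw [← Module.finrank_eq_rank, finrank_euclideanSpace_fin]
    exact_mod_cast (by norm_num : 1 < 2)
  have hSp := isPreconnected_sphere hrank (0 : Euc 2) ‖ζ‖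
  have hcont : ContinuousOn (fun ζ' : Euc 2 => ptM e L ((ζ', 0) : Euc 2 × W))
      (Metric.sphere (0 : Euc 2) ‖ζ‖) := by
    refine (continuousOn_ptM hS).comp
      (Continuous.continuousOn (by fun_prop)) ?_
    intro x hx
    rw [mem_sphere_zero_iff_norm] at hx
    exact dh62_mem0 hS (by linarith)
  have hI : IsPreconnected ((fun ζ' : Euc 2 => ptM e L ((ζ', 0) : Euc 2 × W)) ''
      Metric.sphere (0 : Euc 2) ‖ζ‖) := hSp.image _ hcont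
  have hIX : (fun ζ' : Euc 2 => ptM e L ((ζ', 0) : Euc 2 × W)) ''
      Metric.sphere (0 : Euc 2) ‖ζ‖ ⊆ X := by
    rintro _ ⟨x, hx, rfl⟩
    rw [mem_sphere_zero_iff_norm] at hx
    have h1 : 1 < ‖x‖ := by rw [hx]; exact hz1
    have h2 : ‖x‖ < 2 := by rw [hx]; exact hz2
    have h3 : ptM e L ((x, 0) : Euc 2 × W) ∈ CoC e L r₂ :=
      ⟨(x, 0), ⟨h1, h2, by
        show ‖(0 : W)‖ < r₂
        rw [norm_zero]
        exact hS.r_pos⟩, rfl⟩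
    rw [hX _ h3]
    refine ⟨⟨(x, 0), ⟨h1, h2, rfl⟩, rfl⟩, ?_⟩
    rw [radC_ptM hS (dh62_mem0 hS (by linarith))]
    show ‖x‖ - 1 ∈ Kint lt
    rw [hx]
    exact hzK
  have hzI : ptM e L ((ζ, 0) : Euc 2 × W) ∈ (fun ζ' : Euc 2 => ptM e L ((ζ', 0) : Euc 2 × W)) ''
      Metric.sphere (0 : Euc 2) ‖ζ‖ := ⟨ζ, by simp, rfl⟩
  have hsub := hI.subset_connectedComponentIn hzI hIX
  filter_upwards [(isOpen_CoC hS).mem_nhds hzC] with z' hz' hzX' hr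
  obtain ⟨hzD', -⟩ := (hX z' hz').1 hzX'
  obtain ⟨ζ', h1, h2, rfl⟩ := dh62_Di hzD'
  rw [radC_ptM hS (dh62_mem0 hS (by linarith)), radC_ptM hS (dh62_mem0 hS (by linarith))] at hr
  apply hsub
  refine ⟨ζ', ?_, rfl⟩
  rw [mem_sphere_zero_iff_norm]
  have hr' : ‖ζ'‖ - 1 = ‖ζ‖ - 1 := hr
  linarith

end Pool.Agent.Lib.H37D
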