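import Pool.Agent.Lib.H37D.DH41
import Pool.Agent.Lib.H37D.DH62

open TopologicalSpace Set Filter Topology
open scoped Manifold ContDiff
open Pool.Agent.Lib.Helper37.ConjBorel Pool.Agent.Lib.H37C

namespace Pool.Agent.Lib.H37D

variable {n : ℕ} {M : Type*} [TopologicalSpace M] [ChartedSpace (Euc n) M]
variable {W : Type*} [NormedAddCommGroup W] [NormedSpace ℝ W]
variable {f₀ : DiffInf n M} {m : ℕ} {p : M} {e : OpenPartialHomeomorph M (Euc n)} {L : Euc n ≃L[ℝ] Euc 2 × W}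
variable {A : Euc 2 → W ≃L[ℝ] W} {r₂ r₃ : ℝ} {χ : W → ℝ} {lt : ℕ → ℕ → Prop} {δ : ℝ} {F : DiffInf n M}

/-- **DH63 (S/M).** The fixed points of `F^m` in the shell.

Proof. `z = pt v`, `F^m z = pt ((PP v).1, A (PP v).1 v.2)` (`iter_m`). If `F^m z = z` then by `ptM_inj` `A _ v.2 = v.2`, so `‖v.2‖ ≤ ‖v.2‖ / 8`,
`v.2 = 0`, `χ 0 = 1` (`PP_one`), `psi lt δ v.1 = v.1`; by `norm_psi`, `δ * vv 2 lt (‖v.1‖ - 1) = 0`, so `‖v.1‖ - 1 ∈ Kset lt` (`vv_eq_zero_iff`, as in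
Lib/H37C/F3). Conversely, `z = pt (ζ, 0)` with `‖ζ‖ - 1 ∈ Kset lt`: `psi lt δ ζ = ζ` (`psi_eq`), `A _ 0 = 0`. -/
theorem mem_fixC [IsStrictTotalOrder ℕ lt] (hS : CSpot f₀ m p e L A r₂ r₃) (hχ : Cut χ r₂) (h0 : 0 < δ) (h1 : δ ≤ 1)
    (hF : IsPert f₀ e L χ lt δ F) {z : M} (hz : z ∈ CoC e L r₂) :
    z ∈ {z | (⇑F)^[m] z = z} ↔ z ∈ DiC e L ∧ radC e L z ∈ Kint lt := by
  obtain ⟨⟨ζ, w⟩, ⟨hz1, hz2, hz3⟩, rfl⟩ := hz
  replace hz1 : 1 < ‖ζ‖ := hz1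
  replace hz2 : ‖ζ‖ < 2 := hz2
  replace hz3 : ‖w‖ < r₂ := hz3
  have hv : ((ζ, w) : Euc 2 × W) ∈ Bx r₃ := dh62_mem hS (by show ‖ζ‖ ≤ 3; linarith) hz3
  have hr : radC e L (ptM e L ((ζ, w) : Euc 2 × W)) = ‖ζ‖ - 1 := radC_ptM hS hv
  have hcrit : psi lt δ ζ = ζ ↔ ‖ζ‖ - 1 ∈ Kint lt := by
    have hn : ‖ζ‖ ≠ 0 := by linarith
    have e3 : psi lt δ ζ = ζ ↔ vv 2 lt (‖ζ‖ - 1) = 0 := by
      constructor
      · intro h
        have h3 := norm_psi (lt := lt) h0.le ζ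
        rw [h] at h3
        have h4 : δ * vv 2 lt (‖ζ‖ - 1) = 0 := by linarith
        rcases mul_eq_zero.1 h4 with h5 | h5
        · exact absurd h5 h0.ne'
        · exact h5
      · intro h
        rw [psi_eq, h, mul_zero, add_zero, mul_inv_cancel₀ hn, one_smul]
    rw [e3, vv_eq_zero_iff 2 ⟨by linarith, by linarith⟩]
    exact ⟨fun h => ⟨h, by linarith, by linarith⟩, fun h => h.1⟩
  have hPm := PP_mem (lt := lt) hχ h0.le h1 hv
  have hit := iter_m hS hχ h0.le h1 hF hv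
  show (⇑F)^[m] (ptM e L (ζ, w)) = ptM e L (ζ, w) ↔ _
  rw [hit, hr]
  constructor
  · intro h
    have hA := hS.A_le (PP χ lt δ ((ζ, w) : Euc 2 × W)).1 w
    have hm : (((PP χ lt δ ((ζ, w) : Euc 2 × W)).1, A (PP χ lt δ ((ζ, w) : Euc 2 × W)).1 w) :
        Euc 2 × W) ∈ Bx r₃ := by
      refine ⟨hPm.1, ?_⟩
      have h5 := hv.2
      have h6 := norm_nonneg w
      exact hA.trans (by
        show 1 / 8 * ‖w‖ ≤ r₃
        have h7 : ‖w‖ ≤ r₃ := h5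
        linarith)
    have h2 := ptM_inj hS hm hv h
    have h3 := congrArg Prod.fst h2
    have h4 := congrArg Prod.snd h2
    replace h3 : (PP χ lt δ ((ζ, w) : Euc 2 × W)).1 = ζ := h3
    replace h4 : A (PP χ lt δ ((ζ, w) : Euc 2 × W)).1 w = w := h4
    rw [h4] at hA
    have hw : w = 0 := by
      rw [← norm_eq_zero]
      have := norm_nonneg w
      linarith
    subst hw
    have h5 : PP χ lt δ ((ζ, 0) : Euc 2 × W) = (psi lt δ ζ, 0) := PP_one hχ (by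
      show ‖(0 : W)‖ ≤ r₂ / 2
      rw [norm_zero]
      linarith [hS.r_pos])
    rw [h5] at h3
    exact ⟨⟨(ζ, 0), ⟨hz1, hz2, rfl⟩, rfl⟩, hcrit.1 h3⟩
  · rintro ⟨hD, hK⟩
    obtain ⟨ζ', h2, h3, h4⟩ := dh62_Di hD
    have h5 := ptM_inj hS hv (dh62_mem0 hS (by linarith)) h4
    have h6 : w = 0 := congrArg Prod.snd h5
    subst h6
    have h7 : PP χ lt δ ((ζ, 0) : Euc 2 × W) = (psi lt δ ζ, 0) := PP_one hχ (by
      show ‖(0 : W)‖ ≤ r₂ / 2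
      rw [norm_zero]
      linarith [hS.r_pos])
    rw [h7]
    show ptM e L (psi lt δ ζ, A (psi lt δ ζ) 0) = _
    rw [hcrit.2 hK, map_zero]

/-- **DH63, second part (S).** Port of `radData` (Lib/H37C/F3): `isOpen_CoC`, `mem_fixC`, `isClosed_Kint`, `isClosed_radC`, `comp_subset_C`, `comp_locC`,
`continuousOn_radC`, `exists_liftC`, `exists_radC_eq`. -/
theorem radDataC [T2Space M] [IsStrictTotalOrder ℕ lt] (hS : CSpot f₀ m p e L A r₂ r₃) (hχ : Cut χ r₂) {b t : ℕ}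
    (hb : ∀ i, i ≠ b → lt b i) (ht : ∀ i, i ≠ t → lt i t) (h0 : 0 < δ) (h1 : δ ≤ 1) (hF : IsPert f₀ e L χ lt δ F) :
    RadC {z | (⇑F)^[m] z = z} (CoC e L r₂) (DiC e L) (radC e L) (Kint lt) := by
  have hmem : ∀ z ∈ CoC e L r₂, z ∈ {z | (⇑F)^[m] z = z} ↔ z ∈ DiC e L ∧ radC e L z ∈ Kint lt :=
    fun z hz => mem_fixC hS hχ h0 h1 hF hz
  have hsub : DiC e L ⊆ CoC e L r₂ := by
    intro z hz
    obtain ⟨ζ, h2, h3, rfl⟩ := dh62_Di hz
    exact ⟨(ζ, 0), ⟨h2, h3, by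
      show ‖(0 : W)‖ < r₂
      rw [norm_zero]
      exact hS.r_pos⟩, rfl⟩
  obtain ⟨hKc, hKs⟩ := isClosed_Kint hb ht
  have hcl : IsClosed ({z | (⇑F)^[m] z = z} ∩ CoC e L r₂) := by
    have h3 := isClosed_radC hS hKc (wt_pos b) (by linarith [wt_pos t]) hKs
    have h4 : {z | (⇑F)^[m] z = z} ∩ CoC e L r₂ = {z | z ∈ DiC e L ∧ radC e L z ∈ Kint lt} := by
      ext z
      constructor
      · rintro ⟨h4, h5⟩
        exact (hmem z h5).1 h4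
      · rintro ⟨h4, h5⟩
        exact ⟨(hmem z (hsub h4)).2 ⟨h4, h5⟩, hsub h4⟩
    rw [h4]
    exact h3
  exact
    { isOpen := isOpen_CoC hS
      sub := hsub
      closed := hcl
      mem := hmem
      comp := comp_subset_C (fun z hz hzX => ((hmem z hz).1 hzX).2) hcl (isOpen_CoC hS)
        (continuousOn_radC hS)
      loc := comp_locC hS hmem
      cont := continuousOn_radC hS
      lift := fun z hz => exists_liftC hS hz
      surj := fun k hk => exists_radC_eq hS hk.2 }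

end Pool.Agent.Lib.H37D
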