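import Pool.Agent.Lib.H37D.DH63

open TopologicalSpace Set Filter Topology
open scoped Manifold ContDiff
open Pool.Agent.Lib.Helper37.ConjBorel Pool.Agent.Lib.H37C

namespace Pool.Agent.Lib.H37D

variable {n : ℕ} {M : Type*} [TopologicalSpace M] [ChartedSpace (Euc n) M]
variable {W : Type*} [NormedAddCommGroup W] [NormedSpace ℝ W]
variable {f₀ : DiffInf n M} {m : ℕ} {p : M} {e : OpenPartialHomeomorph M (Euc n)} {L : Euc n ≃L[ℝ] Euc 2 × W}
variable {A : Euc 2 → W ≃L[ℝ] W} {r₂ r₃ : ℝ} {χ : W → ℝ} {lt : ℕ → ℕ → Prop} {δ : ℝ} {F : DiffInf n M}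

/-- **DH64 (S).** For a fixed point `y` of `F^m` in the shell: `f₀^i y = F^i y` for `i ≤ m`.

Proof: `y = pt v` with `v.2 = 0` (`mem_fixC`) and `PP v = v`: by `iter_m` `F^m y = pt ((PP v).1, 0) = pt v`, so `(PP v).1 = v.1` (`ptM_inj`). `iter_tube`; `i = 0` is trivial. -/
theorem iter_fixC [IsStrictTotalOrder ℕ lt] (hS : CSpot f₀ m p e L A r₂ r₃) (hχ : Cut χ r₂) (h0 : 0 < δ) (h1 : δ ≤ 1)
    (hF : IsPert f₀ e L χ lt δ F) {y : M} (hy : y ∈ CoC e L r₂) (hy' : (⇑F)^[m] y = y) {i : ℕ} (hi : i ≤ m) :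
    (⇑f₀)^[i] y = (⇑F)^[i] y := by
  obtain ⟨⟨v, ⟨h3, h4, h5⟩, rfl⟩, -⟩ := (mem_fixC hS hχ h0 h1 hF hy).1 hy'
  have hr : 0 < r₃ := hS.r_pos.trans hS.r_lt
  have hv : v ∈ Bx r₃ := ⟨by linarith, by rw [h5, norm_zero]; exact hr.le⟩
  have h6 := iter_m hS hχ h0.le h1 hF hv
  rw [hy', h5, map_zero] at h6
  have hv' : ((PP χ lt δ v).1, (0 : W)) ∈ Bx r₃ :=
    ⟨(PP_mem hχ h0.le h1 hv).1, by simp only [norm_zero]; exact hr.le⟩
  have h7 := ptM_inj hS hv hv' h6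
  have h8 : PP χ lt δ v = v := by
    have h9 : PP χ lt δ v = ((PP χ lt δ v).1, v.2) := rfl
    rw [h9, h5]
    exact h7.symm
  rcases Nat.eq_zero_or_pos i with h | h
  · rw [h]; rfl
  · rw [iter_tube hS hχ h0.le h1 hF hv h hi, h8]

/-- **DH64, second part (M).** Outside the orbit of the shell, the fixed points of `F^m` are the background.

Proof. Let `O` be the set of the points `f₀^i y`, `i < m`, `y ∈ CoC`.
(1) Let `F^m z = z`, `z ∉ O`. No `y = F^j z`, `j < m`, is in `CoC`: otherwise `F^m y = y`, so `z = F^m z = F^(m-j) y = f₀^(m-j) y` (`iter_fixC`); if `j > 0`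
then `z ∈ O`; if `j = 0`, `z = y ∈ O`. So `F^j z = f₀^j z` for `j ≤ m` (induction, `ext_fix`), `f₀^m z = z`.
(2) Let `f₀^m z = z`, `z ∉ O`. No `y = f₀^j z`, `j < m`, is in `CoC`: `z = f₀^m z = f₀^(m-j) y ∈ O` if `j > 0`, and `z = y ∈ O` if `j = 0`. So `F^j z = f₀^j z`
for `j ≤ m`, `F^m z = z`. -/
theorem fix_off [IsStrictTotalOrder ℕ lt] (hS : CSpot f₀ m p e L A r₂ r₃) (hχ : Cut χ r₂) (h0 : 0 < δ) (h1 : δ ≤ 1)
    (hF : IsPert f₀ e L χ lt δ F) {z : M} (hz : ∀ i < m, ∀ y ∈ CoC e L r₂, (⇑f₀)^[i] y ≠ z) :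
    (⇑F)^[m] z = z ↔ (⇑f₀)^[m] z = z := by
  have hstep : ∀ x : M, x ∉ CoC e L r₂ → F x = f₀ x := by
    intro x hx
    rw [hF x, ext_fix hχ hx]
  constructor
  · intro hFz
    have hno : ∀ j < m, (⇑F)^[j] z ∉ CoC e L r₂ := by
      intro j hj hy
      have h2 : (⇑F)^[m] ((⇑F)^[j] z) = (⇑F)^[j] z := by
        rw [← Function.iterate_add_apply, add_comm, Function.iterate_add_apply, hFz]
      have h3 : (⇑F)^[m - j] ((⇑F)^[j] z) = z := by
        rw [← Function.iterate_add_apply, Nat.sub_add_cancel hj.le, hFz]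
      have h4 := iter_fixC hS hχ h0 h1 hF hy h2 (Nat.sub_le m j)
      rcases Nat.eq_zero_or_pos j with h | h
      · rw [h] at hy
        exact hz 0 hS.pos z hy rfl
      · exact hz (m - j) (by omega) _ hy (by rw [h4, h3])
    have hall : ∀ j ≤ m, (⇑F)^[j] z = (⇑f₀)^[j] z := by
      intro j
      induction j with
      | zero => intro _; rfl
      | succ j ih =>
        intro hj
        rw [Function.iterate_succ_apply', Function.iterate_succ_apply', hstep _ (hno j (by omega)),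
          ih (by omega)]
    rw [← hall m le_rfl]
    exact hFz
  · intro hfz
    have hno : ∀ j < m, (⇑f₀)^[j] z ∉ CoC e L r₂ := by
      intro j hj hy
      have h3 : (⇑f₀)^[m - j] ((⇑f₀)^[j] z) = z := by
        rw [← Function.iterate_add_apply, Nat.sub_add_cancel hj.le, hfz]
      rcases Nat.eq_zero_or_pos j with h | h
      · rw [h] at hy
        exact hz 0 hS.pos z hy rfl
      · exact hz (m - j) (by omega) _ hy h3
    have hall : ∀ j ≤ m, (⇑F)^[j] z = (⇑f₀)^[j] z := by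
      intro j
      induction j with
      | zero => intro _; rfl
      | succ j ih =>
        intro hj
        rw [Function.iterate_succ_apply', Function.iterate_succ_apply', ih (by omega),
          hstep _ (hno j (by omega))]
    rw [hall m le_rfl]
    exact hfz

/-- **DH64, third part (M).** The fixed points of `F^m` in the orbit of the shell.

Proof. `z = f₀^i y`, `y = pt v ∈ CoC`, `F^m z = z`. If `i = 0` it is `z ∈ X`. Let `i > 0`. For `j < m - i` the point `f₀^j z = f₀^(i+j) y` is not in the shell (`disj`), so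
`F^(m-i) z = f₀^(m-i) z = f₀^m y = pt (v.1, A v.1 v.2) =: y'` (`per`; induction, `ext_fix`); `y' ∈ CoC` and `F^m y' = y'` (`F^(m-i)` commutes with `F^m`). `mem_fixC` for `y'`:
`A v.1 v.2 = 0`, so `v.2 = 0` and `y' = y`. So `F^m y = y`. -/
theorem fix_on [IsStrictTotalOrder ℕ lt] (hS : CSpot f₀ m p e L A r₂ r₃) (hχ : Cut χ r₂) (h0 : 0 < δ) (h1 : δ ≤ 1)
    (hF : IsPert f₀ e L χ lt δ F) {y : M} (hy : y ∈ CoC e L r₂) {i : ℕ} (hi : i < m)
    (hz : (⇑F)^[m] ((⇑f₀)^[i] y) = (⇑f₀)^[i] y) : (⇑F)^[m] y = y := by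
  rcases Nat.eq_zero_or_pos i with h | h
  · rw [h] at hz
    exact hz
  have hr : 0 < r₃ := hS.r_pos.trans hS.r_lt
  have hstep : ∀ x : M, x ∉ CoC e L r₂ → F x = f₀ x := by
    intro x hx
    rw [hF x, ext_fix hχ hx]
  have hy0 := hy
  obtain ⟨v, ⟨h3, h4, h5⟩, hvy⟩ := hy
  have hv : v ∈ Bx r₃ := ⟨by linarith, by linarith [hS.r_lt]⟩
  have hno : ∀ j < m - i, (⇑f₀)^[j] ((⇑f₀)^[i] y) ∉ CoC e L r₂ := by
    rintro j hj ⟨v', ⟨g3, g4, g5⟩, hv'⟩
    rw [← Function.iterate_add_apply, ← hvy] at hv'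
    exact hS.disj (j + i) (by omega) (by omega) v hv v' ⟨by linarith, by linarith [hS.r_lt]⟩ hv'.symm
  have hall : ∀ j ≤ m - i, (⇑F)^[j] ((⇑f₀)^[i] y) = (⇑f₀)^[j] ((⇑f₀)^[i] y) := by
    intro j
    induction j with
    | zero => intro _; rfl
    | succ j ih =>
      intro hj
      rw [Function.iterate_succ_apply', Function.iterate_succ_apply', ih (by omega),
        hstep _ (hno j (by omega))]
  have h6 : (⇑F)^[m - i] ((⇑f₀)^[i] y) = ptM e L (v.1, A v.1 v.2) := by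
    rw [hall _ le_rfl, ← Function.iterate_add_apply, Nat.sub_add_cancel hi.le, ← hvy, hS.per v hv]
  have hA := hS.A_le v.1 v.2
  have h7 : ptM e L (v.1, A v.1 v.2) ∈ CoC e L r₂ :=
    ⟨(v.1, A v.1 v.2), ⟨h3, h4, by
      show ‖A v.1 v.2‖ < r₂
      have := norm_nonneg v.2
      linarith⟩, rfl⟩
  have h8 : (⇑F)^[m] (ptM e L (v.1, A v.1 v.2)) = ptM e L (v.1, A v.1 v.2) := by
    rw [← h6, ← Function.iterate_add_apply, add_comm, Function.iterate_add_apply, hz]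
  obtain ⟨⟨v', ⟨g3, g4, g5⟩, hv'⟩, -⟩ := (mem_fixC hS hχ h0 h1 hF h7).1 h8
  have hb : (v.1, A v.1 v.2) ∈ Bx r₃ := ⟨hv.1, by
      show ‖A v.1 v.2‖ ≤ r₃
      have := norm_nonneg v.2
      linarith [hv.2]⟩
  have hb' : v' ∈ Bx r₃ := ⟨by linarith, by rw [g5, norm_zero]; exact hr.le⟩
  have h9 := ptM_inj hS hb' hb hv'
  have h10 : A v.1 v.2 = 0 := by
    rw [← g5, h9]
  have h11 : v.2 = 0 := (A v.1).map_eq_zero_iff.1 h10
  have h12 : (v.1, A v.1 v.2) = v := Prod.ext rfl (h10.trans h11.symm)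
  rw [h12, hvy] at h8
  exact h8

end Pool.Agent.Lib.H37D
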