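import Pool.Agent.Lib.H37D.DH64

open TopologicalSpace Set Filter Topology
open scoped Manifold ContDiff
open Pool.Agent.Lib.Helper37.ConjBorel Pool.Agent.Lib.H37C

namespace Pool.Agent.Lib.H37D

variable {n : ℕ} {M : Type*} [TopologicalSpace M] [ChartedSpace (Euc n) M]
variable {W : Type*} [NormedAddCommGroup W] [NormedSpace ℝ W]
variable {f₀ : DiffInf n M} {m : ℕ} {p : M} {e : OpenPartialHomeomorph M (Euc n)} {L : Euc n ≃L[ℝ] Euc 2 × W}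
variable {A : Euc 2 → W ≃L[ℝ] W} {r₂ r₃ : ℝ} {χ : W → ℝ} {lt : ℕ → ℕ → Prop} {δ : ℝ} {F : DiffInf n M}

/-- **DH65 (M).** Port of `split_fix` (Lib/H37C/G1).

Proof. `X = {z | F^m z = z}`, `O = ⋃_{i<m} f₀^i '' CoC` is open (`isOpen_CoC`), `bgC = {f₀^m z = z} \ O` is closed, and it is `X \ O` (`fix_off`). `Y = X ∩ O =
⋃_{i<m} f₀^i '' (X ∩ CoC)` (`fix_on`, `iter_fixC`: for `y ∈ X ∩ CoC`, `f₀^i y = F^i y ∈ X`) is closed by `(radDataC ..).closed`. For `z = f₀^i y ∈ Y`: `y ∈ X`, `z = F^i y`,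
`F^(m-i) z = F^m y = y`. -/
theorem split_fixC [T2Space M] [IsStrictTotalOrder ℕ lt] (hS : CSpot f₀ m p e L A r₂ r₃) (hχ : Cut χ r₂) {b t : ℕ}
    (hb : ∀ i, i ≠ b → lt b i) (ht : ∀ i, i ≠ t → lt i t) (h0 : 0 < δ) (h1 : δ ≤ 1) (hF : IsPert f₀ e L χ lt δ F) :
    IsClosed (bgC f₀ m e L r₂) ∧ ∃ Y : Set M, IsClosed Y ∧ Disjoint (bgC f₀ m e L r₂) Y ∧
      {z | (⇑F)^[m] z = z} = bgC f₀ m e L r₂ ∪ Y ∧
      ∀ z ∈ Y, ∃ j, (⇑F)^[j] z ∈ {z | (⇑F)^[m] z = z} ∩ CoC e L r₂ := by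
  have hD := radDataC hS hχ hb ht h0 h1 hF
  -- the orbit of the shell
  let O : Set M := ⋃ i ∈ Finset.range m, (⇑f₀)^[i] '' CoC e L r₂
  have hOmem : ∀ z, z ∈ O ↔ ∃ i < m, ∃ y ∈ CoC e L r₂, (⇑f₀)^[i] y = z := by
    intro z
    simp only [O, mem_iUnion, Finset.mem_range, mem_image, exists_prop]
  have hhom : ∀ i, ∃ g : M ≃ₜ M, ∀ z, g z = (⇑f₀)^[i] z := by
    intro i
    induction i with
    | zero => exact ⟨Homeomorph.refl M, fun z => rfl⟩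
    | succ i ih =>
      obtain ⟨g, hg⟩ := ih
      refine ⟨g.trans f₀.toHomeomorph, fun z => ?_⟩
      rw [Function.iterate_succ_apply', ← hg]
      rfl
  have hOo : IsOpen O := by
    refine isOpen_biUnion fun i _ => ?_
    obtain ⟨g, hg⟩ := hhom i
    have h2 : (⇑f₀)^[i] '' CoC e L r₂ = g '' CoC e L r₂ := by
      ext z; simp [hg]
    rw [h2]
    exact g.isOpenMap _ hD.isOpen
  have hcl0 : IsClosed {z | (⇑f₀)^[m] z = z} :=
    isClosed_eq (f₀.continuous.iterate m) continuous_id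
  have hbg : bgC f₀ m e L r₂ = {z | (⇑f₀)^[m] z = z} ∩ Oᶜ := by
    ext z
    constructor
    · rintro ⟨h2, h3⟩
      refine ⟨h2, fun h4 => ?_⟩
      obtain ⟨i, hi, y, hy, h5⟩ := (hOmem z).1 h4
      exact h3 i hi y hy h5
    · rintro ⟨h2, h3⟩
      exact ⟨h2, fun i hi y hy h4 => h3 ((hOmem z).2 ⟨i, hi, y, hy, h4⟩)⟩
  have hbgc : IsClosed (bgC f₀ m e L r₂) := by
    rw [hbg]; exact hcl0.inter hOo.isClosed_compl
  have hFinj : ∀ j, Function.Injective ((⇑F)^[j]) := fun j => F.injective.iterate j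
  have hXF : ∀ j z, (⇑F)^[j] z ∈ {z | (⇑F)^[m] z = z} ↔ z ∈ {z | (⇑F)^[m] z = z} := by
    intro j z
    show (⇑F)^[m] ((⇑F)^[j] z) = (⇑F)^[j] z ↔ (⇑F)^[m] z = z
    rw [← Function.iterate_add_apply, add_comm, Function.iterate_add_apply]
    exact (hFinj j).eq_iff
  have hYeq : {z | (⇑F)^[m] z = z} ∩ O =
      ⋃ i ∈ Finset.range m, (⇑f₀)^[i] '' ({z | (⇑F)^[m] z = z} ∩ CoC e L r₂) := by
    ext z
    simp only [mem_inter_iff, mem_iUnion, Finset.mem_range, mem_image, exists_prop]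
    constructor
    · rintro ⟨h2, h3⟩
      obtain ⟨i, hi, y, hy, rfl⟩ := (hOmem z).1 h3
      exact ⟨i, hi, y, ⟨fix_on hS hχ h0 h1 hF hy hi h2, hy⟩, rfl⟩
    · rintro ⟨i, hi, y, ⟨h2, hy⟩, rfl⟩
      refine ⟨?_, (hOmem _).2 ⟨i, hi, y, hy, rfl⟩⟩
      rw [iter_fixC hS hχ h0 h1 hF hy h2 hi.le]
      exact (hXF i y).2 h2
  refine ⟨hbgc, {z | (⇑F)^[m] z = z} ∩ O, ?_, ?_, ?_, ?_⟩
  · rw [hYeq]
    refine (Finset.range m).finite_toSet.isClosed_biUnion fun i _ => ?_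
    obtain ⟨g, hg⟩ := hhom i
    have h2 : (⇑f₀)^[i] '' ({z | (⇑F)^[m] z = z} ∩ CoC e L r₂) =
        g '' ({z | (⇑F)^[m] z = z} ∩ CoC e L r₂) := by
      ext z; simp [hg]
    rw [h2]
    exact g.isClosedMap _ hD.closed
  · rw [Set.disjoint_left, hbg]
    rintro z ⟨-, h2⟩ ⟨-, h3⟩
    exact h2 h3
  · ext z
    constructor
    · intro h2
      by_cases h3 : z ∈ O
      · exact Or.inr ⟨h2, h3⟩
      · left
        rw [hbg]
        refine ⟨?_, h3⟩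
        exact (fix_off hS hχ h0 h1 hF (z := z)
          (fun i hi y hy h5 => h3 ((hOmem z).2 ⟨i, hi, y, hy, h5⟩))).1 h2
    · rintro (h2 | h2)
      · exact (fix_off hS hχ h0 h1 hF (z := z) h2.2).2 h2.1
      · exact h2.1
  · rintro z ⟨h2, h3⟩
    obtain ⟨i, hi, y, hy, rfl⟩ := (hOmem z).1 h3
    have h4 := fix_on hS hχ h0 h1 hF hy hi h2
    refine ⟨m - i, (hXF (m - i) _).2 h2, ?_⟩
    rw [iter_fixC hS hχ h0 h1 hF hy h4 hi.le, ← Function.iterate_add_apply,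
      Nat.sub_add_cancel hi.le, h4]
    exact hy

end Pool.Agent.Lib.H37D
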