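import Pool.Agent.Lib.H37D.DH60
import Pool.Agent.Lib.H37D.DH65

open TopologicalSpace Set Filter Topology
open scoped Manifold ContDiff
open Pool.Agent.Lib.Helper37.ConjBorel Pool.Agent.Lib.H37C

namespace Pool.Agent.Lib.H37D

variable {n : ℕ} {M : Type*} [TopologicalSpace M] [ChartedSpace (Euc n) M]
variable {W : Type*} [NormedAddCommGroup W] [NormedSpace ℝ W]
variable {f₀ : DiffInf n M} {m : ℕ} {p : M} {e : OpenPartialHomeomorph M (Euc n)} {L : Euc n ≃L[ℝ] Euc 2 × W}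
variable {A : Euc 2 → W ≃L[ℝ] W} {r₂ r₃ : ℝ} {χ : W → ℝ}

/-- **DH66.** Port of `not_topProp` (Lib/H37C/G1). -/
theorem not_topPropC [T2Space M] {δ : ℝ} (hS : CSpot f₀ m p e L A r₂ r₃) (hχ : Cut χ r₂) {lt : ℕ → ℕ → Prop}
    [IsStrictTotalOrder ℕ lt] (h0 : 0 < δ) (h1 : δ ≤ 1) {F : DiffInf n M}
    (hF : IsPert f₀ e L χ lt δ F) {B₀ : Type} {r₀ : B₀ → B₀ → Prop}
    (hB : ∀ R : B₀ → Set M, GoodFam (bgC f₀ m e L r₂) r₀ R → ∀ x ∈ bgC f₀ m e L r₂,
      (∀ b, AccX (bgC f₀ m e L r₂) (R b) x) → ∃ D, SelfAcc (bgC f₀ m e L r₂) D ∧ x ∈ D)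
    {r : B₀ ⊕ ℕ → B₀ ⊕ ℕ → Prop} [IsStrictTotalOrder (B₀ ⊕ ℕ) r] (hwf : WellFounded r)
    (hr : ∀ b b', r₀ b b' → r (Sum.inl b) (Sum.inl b')) (hlt : IsB lt r) :
    ¬ TopProp r {z | (⇑F)^[m] z = z} := by
  rintro ⟨R, hR, x, hx, hacc, hno⟩
  obtain ⟨b, t, hb, ht⟩ : ∃ b t : ℕ, (∀ i, i ≠ b → lt b i) ∧ ∀ i, i ≠ t → lt i t := by
    obtain ⟨b, t, ι, -, -, hb, ht, hall⟩ := hlt
    have hbt : lt b t := _root_.trans (hb 0 0) (ht 0 0)
    refine ⟨b, t, fun i hi => ?_, fun i hi => ?_⟩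
    · rcases hall i with h | h | ⟨q, f, h⟩
      · exact absurd h hi
      · rw [h]; exact hbt
      · rw [← h]; exact hb q f
    · rcases hall i with h | h | ⟨q, f, h⟩
      · rw [h]; exact hbt
      · exact absurd h hi
      · rw [← h]; exact ht q f
  obtain ⟨hbg, Y, hY, hdis, hXY, hYj⟩ := split_fixC hS hχ hb ht h0 h1 hF
  have hx' : x ∈ bgC f₀ m e L r₂ ∪ Y := by rw [← hXY]; exact hx
  rcases hx' with hx' | hx'
  · obtain ⟨h2, h3⟩ := background hXY hbg hY hdis hR hx' hacc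
    obtain ⟨D, hD1, hD2⟩ := hB (fun b => R (Sum.inl b) ∩ bgC f₀ m e L r₂)
      (fun b y hy => ⟨(h2 (Sum.inl b) y hy).1, fun b' hb' =>
        (h2 (Sum.inl b) y hy).2 (Sum.inl b') (hr b' b hb')⟩) x hx' (fun b => h3 (Sum.inl b))
    exact hno D (selfAcc_background hXY hbg hY hdis hD1) hD2
  · obtain ⟨j, hj⟩ := hYj x hx'
    -- the homeomorphism `F^j`
    obtain ⟨g, hg⟩ : ∃ g : M ≃ₜ M, ∀ z, g z = (⇑F)^[j] z := by
      clear hj
      induction j with
      | zero => exact ⟨Homeomorph.refl M, fun z => rfl⟩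
      | succ i ih =>
        obtain ⟨g, hg⟩ := ih
        refine ⟨g.trans F.toHomeomorph, fun z => ?_⟩
        rw [Function.iterate_succ_apply', ← hg]
        rfl
    have hFinj : Function.Injective ((⇑F)^[j]) := F.injective.iterate j
    have hXF : ∀ z, g z ∈ {z | (⇑F)^[m] z = z} ↔ z ∈ {z | (⇑F)^[m] z = z} := by
      intro z
      show (⇑F)^[m] (g z) = g z ↔ (⇑F)^[m] z = z
      rw [hg, ← Function.iterate_add_apply, add_comm, Function.iterate_add_apply]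
      exact hFinj.eq_iff
    have hgX : g '' {z | (⇑F)^[m] z = z} = {z | (⇑F)^[m] z = z} := by
      ext z
      constructor
      · rintro ⟨w, hw, rfl⟩
        exact (hXF w).2 hw
      · intro hz
        refine ⟨g.symm z, (hXF _).1 ?_, g.apply_symm_apply z⟩
        rw [g.apply_symm_apply]
        exact hz
    have hR' := hR.image g
    rw [hgX] at hR'
    have hacc' : ∀ l, AccX {z | (⇑F)^[m] z = z} (g '' R l) (g x) := by
      intro l
      have h2 := AccX.image g hx (hacc l)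
      rwa [hgX] at h2
    have hgx : g x ∈ {z | (⇑F)^[m] z = z} ∩ CoC e L r₂ := by rw [hg]; exact hj
    obtain ⟨D, hD1, hD2⟩ := self_of_radC (radDataC hS hχ hb ht h0 h1 hF)
      (fun R hR k hk hacc => selfR_of_isB hwf hlt R hR k hk hacc) hR' hgx hacc'
    have hD3 := hD1.image g.symm
    have hgX' : g.symm '' {z | (⇑F)^[m] z = z} = {z | (⇑F)^[m] z = z} := by
      conv_lhs => rw [← hgX]
      rw [← image_comp]
      simp
    rw [hgX'] at hD3
    exact hno _ hD3 ⟨g x, hD2, g.symm_apply_apply x⟩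

end Pool.Agent.Lib.H37D
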