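import Pool.Agent.Lib.H37D.DH30
import Pool.Agent.Lib.H37D.DH36
import Pool.Agent.Lib.H37D.DH51
import Pool.Agent.Lib.H37D.DH66

open TopologicalSpace Set Filter Topology MeasureTheory
open scoped Manifold ContDiff
open Pool.Agent.Lib.Helper37.ConjBorel Pool.Agent.Lib.H37C

namespace Pool.Agent.Lib.H37D

variable {n : ℕ} {M : Type*} [TopologicalSpace M] [ChartedSpace (Euc n) M]
variable {W : Type*} [NormedAddCommGroup W] [NormedSpace ℝ W]
variable {f₀ : DiffInf n M} {m : ℕ} {p : M} {e : OpenPartialHomeomorph M (Euc n)} {L : Euc n ≃L[ℝ] Euc 2 × W}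
variable {A : Euc 2 → W ≃L[ℝ] W} {r₂ r₃ : ℝ}

/-- **DH72.** Every analytic set is reducible to topological conjugacy on `U`. -/
theorem reductionC [T2Space M] [CompactSpace M] [IsManifold (𝓡 n) ∞ M] [FiniteDimensional ℝ W]
    {U : Set (DiffInf n M)} (hU : IsOpen U) (h₀ : f₀ ∈ U) (hS : CSpot f₀ m p e L A r₂ r₃)
    (B : Set (ℕ → Bool)) (hB : AnalyticSet B) :
    ∃ F : (ℕ → Bool) → U × U, Continuous F ∧
      ∀ x, x ∈ B ↔ TopConj ((F x).1 : DiffInf n M) ((F x).2 : DiffInf n M) := by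
  have hMsc : SecondCountableTopology M := by
    obtain ⟨ι, hι, ⟨C⟩⟩ := exists_goodCover (n := n) (M := M)
    exact C.emb.isEmbedding.secondCountableTopology
  obtain ⟨χ, hχ⟩ := exists_cut (W := W) hS.r_pos
  obtain ⟨B₀, r₀, hB1, hB2, hB3, hB4⟩ := exists_prefix (bgC f₀ m e L r₂)
  obtain ⟨ltA, ltB, hA1, hB1', hA2, hB2', hiso, hno⟩ := exists_orders r₀ hB3 B hB
  obtain ⟨δ, hδ0, hδ1, G, hGc, hGU, hG⟩ := exists_familyC (T := (ℕ → Bool) × Bool) f₀ hU h₀ hS.mem
    L hχ (fun v hv => hS.big v ⟨hv.1, hv.2.trans hS.r_lt.le⟩) (fun p => if p.2 then ltB p.1 else ltA p.1)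
    (by
      rintro ⟨x, _ | _⟩
      · simpa using hA1 x
      · simpa using hB1' x)
    (by
      intro i j
      have h1 : {p : (ℕ → Bool) × Bool | (if p.2 then ltB p.1 else ltA p.1) i j} =
          (Prod.snd ⁻¹' {true} ∩ Prod.fst ⁻¹' {x | ltB x i j}) ∪
            (Prod.snd ⁻¹' {false} ∩ Prod.fst ⁻¹' {x | ltA x i j}) := by
        ext ⟨x, _ | _⟩ <;> simp
      rw [h1]
      exact (((isClopen_discrete _).preimage continuous_snd).inter
        ((hB2' i j).preimage continuous_fst)).union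
          (((isClopen_discrete _).preimage continuous_snd).inter
        ((hA2 i j).preimage continuous_fst)))
  refine ⟨fun x => (⟨G (x, false), hGU _⟩, ⟨G (x, true), hGU _⟩), ?_, fun x => ?_⟩
  · exact ((hGc.comp (continuous_id.prodMk continuous_const)).subtype_mk _).prodMk
      ((hGc.comp (continuous_id.prodMk continuous_const)).subtype_mk _)
  have hFA : IsPert f₀ e L χ (ltA x) δ (G (x, false)) := by
    intro z; simpa using hG (x, false) z
  have hFB : IsPert f₀ e L χ (ltB x) δ (G (x, true)) := by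
    intro z; simpa using hG (x, true) z
  have hsA := hA1 x
  have hsB := hB1' x
  constructor
  · intro hx
    obtain ⟨π⟩ := hiso x hx
    exact topConj_of_isoC hS hχ π hδ0 hδ1 hFA hFB
  · rintro ⟨h, hh⟩
    by_contra hx
    obtain ⟨r, hr1, hr2, hr3, hr4, hr5⟩ := hno x hx
    obtain ⟨b, t, hb, ht⟩ := g2_endsA hr4
    have hT : TopProp r {z | (⇑(G (x, false)))^[m] z = z} :=
      topProp_of_radC (radDataC hS hχ hb ht hδ0 hδ1 hFA) (topR_of_isA hr2 hr4)
    have hT' := hT.image h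
    rw [g2_image h hh m] at hT'
    exact not_topPropC hS hχ hδ0 hδ1 hFB hB4 hr2 hr3 hr5 hT'

/-- **DH72, main theorem of section HC.** An open set which contains a diffeomorphism with a centre spot. -/
theorem mainC [T2Space M] [CompactSpace M] [IsManifold (𝓡 n) ∞ M] [FiniteDimensional ℝ W]
    {U : Set (DiffInf n M)} (hU : IsOpen U) (h₀ : f₀ ∈ U) (hS : CSpot f₀ m p e L A r₂ r₃) :
    AnalyticSet {p : U × U | TopConj (p.1 : DiffInf n M) (p.2 : DiffInf n M)} ∧
    (∀ A : Set (ℕ → Bool), AnalyticSet A → ∃ F : (ℕ → Bool) → U × U, Continuous F ∧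
      ∀ x, x ∈ A ↔ TopConj ((F x).1 : DiffInf n M) ((F x).2 : DiffInf n M)) ∧
    ¬ MeasurableSet[borel (U × U)]
      {p : U × U | TopConj (p.1 : DiffInf n M) (p.2 : DiffInf n M)} := by
  have hred := fun (B : Set (ℕ → Bool)) (hB : AnalyticSet B) => reductionC hU h₀ hS B hB
  refine ⟨analyticSet_topConj U hU, hred, fun hB => ?_⟩
  obtain ⟨A, hA, hAB⟩ := exists_analytic_nonborel
  obtain ⟨F, hF, hFA⟩ := hred A hA
  apply hAB
  let _ : MeasurableSpace (U × U) := borel (U × U)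
  have _ : BorelSpace (U × U) := ⟨rfl⟩
  have h := hF.measurable hB
  have e : A = F ⁻¹' {p : U × U | TopConj (p.1 : DiffInf n M) (p.2 : DiffInf n M)} := by
    ext x; exact hFA x
  rw [e]
  exact h

end Pool.Agent.Lib.H37D
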