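import Mathlib

open TopologicalSpace Set Filter Topology

namespace Pool.Agent.Lib.H37D

/-- **DH80 (S/M).** Pointwise convergence to a locally uniform attractor is uniform on compact sets.

Proof. Let `U` be from `att`, `O` the interior of `U`, `p ∈ O`. For `z ∈ C` there is `j` with `g^j z ∈ O`; the open sets `{z | g^j z ∈ O}`, `j ∈ ℕ`, cover `C`, so finitely many
do (`IsCompact.elim_finite_subcover`), let `J` be a bound for their indices. Given `W`, let `N` be the number of `att` for `W`; for `k ≥ N + J` and `z ∈ C`, `g^j z ∈ U` for some `j ≤ J` and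
`g^k z = g^(k-j) (g^j z) ∈ W`, as `k - j ≥ N`. -/
theorem unif_of_pointwise {X : Type*} [TopologicalSpace X] {g : X → X} (hg : Continuous g) {p : X}
    (att : ∃ U ∈ 𝓝 p, ∀ W ∈ 𝓝 p, ∃ N : ℕ, ∀ k ≥ N, ∀ z ∈ U, g^[k] z ∈ W) {C : Set X} (hC : IsCompact C)
    (h : ∀ z ∈ C, Tendsto (fun k => g^[k] z) atTop (𝓝 p)) :
    ∀ W ∈ 𝓝 p, ∃ N : ℕ, ∀ k ≥ N, ∀ z ∈ C, g^[k] z ∈ W := by
  obtain ⟨U, hU, hatt⟩ := att
  intro W hW
  obtain ⟨N, hN⟩ := hatt W hW
  have hcov : C ⊆ ⋃ j : ℕ, (fun z => g^[j] z) ⁻¹' interior U := by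
    intro z hz
    have h1 : ∀ᶠ k in atTop, g^[k] z ∈ interior U :=
      (h z hz).eventually_mem (interior_mem_nhds.2 hU)
    obtain ⟨j, hj⟩ := h1.exists
    exact mem_iUnion.2 ⟨j, hj⟩
  obtain ⟨t, ht⟩ := hC.elim_finite_subcover (fun j : ℕ => (fun z => g^[j] z) ⁻¹' interior U)
    (fun j => isOpen_interior.preimage (hg.iterate j)) hcov
  refine ⟨N + t.sup id, fun k hk z hz => ?_⟩
  obtain ⟨j, hj⟩ := mem_iUnion.1 (ht hz)
  obtain ⟨hjt, hj⟩ := mem_iUnion.1 hj
  have hjl : j ≤ t.sup id := Finset.le_sup (f := id) hjt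
  have e : k = (k - j) + j := by omega
  rw [e, Function.iterate_add_apply]
  exact hN (k - j) (by omega) _ (interior_subset hj)

end Pool.Agent.Lib.H37D
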