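import Pool.Agent.Lib.H37D.D0
import Pool.Agent.Lib.H37C.E1

/-!
# H37D, section K: definitions (small perturbations of `En d`, charts, local representations of diffeomorphisms)
-/

open Set Filter Topology
open scoped ContDiff Manifold
open Pool.Agent.Lib.Helper37.ConjBorel Pool.Agent.Lib.H37C

namespace Pool.Agent.Lib.H37D

open Pool.Agent.Lib.H37N

noncomputable section

variable {d : ℕ}

theorem finrank_En (d : ℕ) : Module.finrank ℝ (Euc (d + 2)) = Module.finrank ℝ (En d) := by
  simp [Module.finrank_prod]
  ring

/-- an identification of the two models of the space -/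
def LLd (d : ℕ) : Euc (d + 2) ≃L[ℝ] En d := ContinuousLinearEquiv.ofFinrankEq (finrank_En d)

/-- a self-map of `En d`, seen on `Euc (d + 2)` -/
def cjd (ψ : En d → En d) (x : Euc (d + 2)) : Euc (d + 2) := (LLd d).symm (ψ (LLd d x))

variable {M : Type*} [TopologicalSpace M] [ChartedSpace (Euc (d + 2)) M]

/-- a smooth chart whose image contains the closed ball of radius `r` of `En d` -/
structure BigCD (e : OpenPartialHomeomorph M (Euc (d + 2))) (r : ℝ) : Prop where
  mem : e ∈ IsManifold.maximalAtlas (𝓡 (d + 2)) ∞ M
  big : ∀ z : En d, ‖z‖ ≤ r → (LLd d).symm z ∈ e.target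

/-- the points at which the local representation is meaningful -/
def domD (e : OpenPartialHomeomorph M (Euc (d + 2))) (f : M → M) : Set (En d) :=
  {z | (LLd d).symm z ∈ e.target ∧ f (e.symm ((LLd d).symm z)) ∈ e.source}

open Classical in
/-- the local representation of `f` in the chart `e` (a point outside `K0D` where it is not defined) -/
def locD (e : OpenPartialHomeomorph M (Euc (d + 2))) (f : M → M) (z : En d) : En d :=
  if z ∈ domD e f then LLd d (e (f (e.symm ((LLd d).symm z)))) else ((10, 10), 0)

end

end Pool.Agent.Lib.H37D
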