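import Pool.Agent.Lib.H37D.DN06
import Pool.Agent.Lib.H37D.NDefs
import Pool.Agent.Lib.H37D.KDefs

open TopologicalSpace Set Filter Topology
open scoped Manifold ContDiff
open Pool.Agent.Lib.Helper37.ConjBorel Pool.Agent.Lib.H37C Pool.Agent.Lib.H37N

namespace Pool.Agent.Lib.H37D

variable {d : ℕ} {M : Type*} [TopologicalSpace M] [ChartedSpace (Euc (d + 2)) M]

/-- `Omd d ⊆ K0D d ⊆ closedBall 0 4` (`omd_sub_K0D`; `K0 = Icc (-3) 4 ×ˢ Icc (-3) 4`, sup norms), `BigCD`. -/
theorem omd_target {e : OpenPartialHomeomorph M (Euc (d + 2))} {r : ℝ} (he : BigCD e r) (hr : 4 ≤ r) {z : En d}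
    (hz : z ∈ Omd d) : (LLd d).symm z ∈ e.target := by
  refine he.big z (le_trans ?_ hr)
  have h1 : z ∈ K0D d := interior_subset (omd_sub_K0D hz)
  obtain ⟨h2, h3⟩ := h1
  simp only [K0, mem_prod, mem_Icc] at h2
  have h4 : ‖z.2‖ ≤ 4 := mem_closedBall_zero_iff.1 h3
  refine (Prod.norm_def z).le.trans (max_le ?_ h4)
  refine (Prod.norm_def z.1).le.trans (max_le ?_ ?_)
  · rw [Real.norm_eq_abs]
    exact abs_le.2 ⟨by linarith [h2.1.1], by linarith [h2.1.2]⟩
  · rw [Real.norm_eq_abs]
    exact abs_le.2 ⟨by linarith [h2.2.1], by linarith [h2.2.2]⟩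

/-- **DH81 (M).** The chart of the tube.

Proof. Let `ω` be the open partial homeomorphism of `Euc (d + 2)` with source `(LLd d).symm '' (Θ '' Bt d)` (open, `hC.isOpen`), target `(LLd d).symm '' Bt d` (open), `toFun = cjd c`,
`invFun = cjd Θ` (`hC.left`, `hC.smooth`, `hC.smooth_c`). It is in `contDiffGroupoid ∞ (𝓡 (d + 2))` (`contDiffGroupoid, mem_groupoid_of_pregroupoid`, see `exists_chart` in Lib/H37C/D1.lean),
so `κ = e.trans ω` is in the maximal atlas (same place). For `z ∈ Bt d`: `Θ z ∈ Omd d` (`hC.path z hz 0`), so `(LLd d).symm (Θ z) ∈ e.target` (`omd_target`), hence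
`(LLd d).symm z ∈ κ.target` (`OpenPartialHomeomorph.trans_target`) and `κ.symm ((LLd d).symm z) = e.symm ((LLd d).symm (Θ z))`. -/
theorem exists_kappa [IsManifold (𝓡 (d + 2)) ∞ M] {e : OpenPartialHomeomorph M (Euc (d + 2))} {r : ℝ} (he : BigCD e r)
    (hr : 4 ≤ r) {g : En d → En d} {m : ℕ} {Θ c : En d → En d} {A : Pt → Wd d →L[ℝ] Wd d} (hC : CSpotD g m Θ c A) :
    ∃ κ : OpenPartialHomeomorph M (Euc (d + 2)), κ ∈ IsManifold.maximalAtlas (𝓡 (d + 2)) ∞ M ∧
      (∀ z ∈ Bt d, (LLd d).symm z ∈ κ.target) ∧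
      ∀ z ∈ Bt d, κ.symm ((LLd d).symm z) = e.symm ((LLd d).symm (Θ z)) := by
  have hBt : IsOpen (Bt d) := Metric.isOpen_ball
  have hsm : ContDiff ℝ ∞ (cjd Θ) :=
    (LLd d).symm.contDiff.comp (hC.smooth.comp (LLd d).contDiff)
  have hsmc : ContDiff ℝ ∞ (cjd c) :=
    (LLd d).symm.contDiff.comp (hC.smooth_c.comp (LLd d).contDiff)
  let om : OpenPartialHomeomorph (Euc (d + 2)) (Euc (d + 2)) :=
    { toFun := cjd c
      invFun := cjd Θ
      source := LLd d ⁻¹' (Θ '' Bt d)
      target := LLd d ⁻¹' Bt d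
      map_source' := by
        rintro x ⟨p, hp, hpx⟩
        change LLd d ((LLd d).symm (c (LLd d x))) ∈ Bt d
        rw [ContinuousLinearEquiv.apply_symm_apply, ← hpx, hC.left p hp]
        exact hp
      map_target' := by
        intro x hx
        change LLd d ((LLd d).symm (Θ (LLd d x))) ∈ Θ '' Bt d
        rw [ContinuousLinearEquiv.apply_symm_apply]
        exact ⟨_, hx, rfl⟩
      left_inv' := by
        rintro x ⟨p, hp, hpx⟩
        change (LLd d).symm (Θ (LLd d ((LLd d).symm (c (LLd d x))))) = x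
        rw [ContinuousLinearEquiv.apply_symm_apply, ← hpx, hC.left p hp, hpx,
          ContinuousLinearEquiv.symm_apply_apply]
      right_inv' := by
        intro x hx
        change (LLd d).symm (c (LLd d ((LLd d).symm (Θ (LLd d x))))) = x
        rw [ContinuousLinearEquiv.apply_symm_apply, hC.left _ hx,
          ContinuousLinearEquiv.symm_apply_apply]
      open_source := hC.isOpen.preimage (LLd d).continuous
      open_target := hBt.preimage (LLd d).continuous
      continuousOn_toFun := hsmc.continuous.continuousOn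
      continuousOn_invFun := hsm.continuous.continuousOn }
  have hom : om ∈ contDiffGroupoid ∞ (𝓡 (d + 2)) := by
    rw [contDiffGroupoid, mem_groupoid_of_pregroupoid]
    constructor
    · show ContDiffOn ℝ ∞ _ _
      have : ContDiff ℝ ∞ (cjd c) := hsmc
      exact this.contDiffOn
    · show ContDiffOn ℝ ∞ _ _
      have : ContDiff ℝ ∞ (cjd Θ) := hsm
      exact this.contDiffOn
  have hom' : om.symm ∈ contDiffGroupoid ∞ (𝓡 (d + 2)) := StructureGroupoid.symm _ hom
  have h₀ : e ∈ (contDiffGroupoid ∞ (𝓡 (d + 2))).maximalAtlas M := he.mem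
  refine ⟨e.trans om, ?_, ?_, ?_⟩
  · show _ ∈ (contDiffGroupoid ∞ (𝓡 (d + 2))).maximalAtlas M
    rw [mem_maximalAtlas_iff] at h₀ ⊢
    intro e' he'
    obtain ⟨h1, h2⟩ := h₀ e' he'
    constructor
    · rw [OpenPartialHomeomorph.trans_symm_eq_symm_trans_symm, OpenPartialHomeomorph.trans_assoc]
      exact StructureGroupoid.trans _ hom' h1
    · rw [← OpenPartialHomeomorph.trans_assoc]
      exact StructureGroupoid.trans _ h2 hom
  · intro z hz
    rw [OpenPartialHomeomorph.trans_target]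
    refine ⟨?_, ?_⟩
    · change LLd d ((LLd d).symm z) ∈ Bt d
      rw [ContinuousLinearEquiv.apply_symm_apply]
      exact hz
    · change (LLd d).symm (Θ (LLd d ((LLd d).symm z))) ∈ e.target
      rw [ContinuousLinearEquiv.apply_symm_apply]
      exact omd_target he hr (hC.path z hz 0 (Nat.zero_le _))
  · intro z hz
    change e.symm ((LLd d).symm (Θ (LLd d ((LLd d).symm z)))) = _
    rw [ContinuousLinearEquiv.apply_symm_apply]

end Pool.Agent.Lib.H37D
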