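import Pool.Agent.Lib.H37D.DH21
import Pool.Agent.Lib.H37D.NDefs

open TopologicalSpace Set Filter Topology
open scoped Manifold ContDiff
open Pool.Agent.Lib.H37N

namespace Pool.Agent.Lib.H37D

/-- the identification of `Euc 2` with `Pt` -/
noncomputable def P2 : EuclideanSpace ℝ (Fin 2) ≃L[ℝ] Pt :=
  LinearEquiv.toContinuousLinearEquiv
    { toFun := fun ζ => (ζ 0, ζ 1)
      invFun := fun z => !₂[z.1, z.2]
      left_inv := fun ζ => by ext i; fin_cases i <;> rfl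
      right_inv := fun z => rfl
      map_add' := fun _ _ => rfl
      map_smul' := fun _ _ => rfl }

/-- **DH82 (S).** `max |ζ 0| |ζ 1| ≤ ‖ζ‖` (`PiLp.norm_apply_le`-like: `EuclideanSpace.norm_eq`). -/
theorem norm_P2_le (ζ : EuclideanSpace ℝ (Fin 2)) : ‖P2 ζ‖ ≤ ‖ζ‖ := by
  have h0 : |ζ 0| ≤ ‖ζ‖ := by simpa using PiLp.norm_apply_le ζ 0
  have h1 : |ζ 1| ≤ ‖ζ‖ := by simpa using PiLp.norm_apply_le ζ 1
  show ‖((ζ 0, ζ 1) : Pt)‖ ≤ ‖ζ‖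
  rw [Prod.norm_def]
  exact max_le h0 h1

variable {d : ℕ}

/-- **DH82 (M).** The family `A` on all of `Euc 2`.

Proof. Let `ρ ζ = (3 / max 3 ‖ζ‖) • ζ`, continuous, `‖ρ ζ‖ ≤ 3`, `ρ ζ = ζ` if `‖ζ‖ ≤ 3`. `v ζ = P2 (ρ ζ)`, `‖v ζ‖ ≤ 3 < 4`. `A' ζ` is the continuous linear equivalence given by the bijective map
`A (v ζ)` (`ContinuousLinearEquiv.ofBijective`, `LinearMap.ker_eq_bot`, `LinearMap.range_eq_top`; or `LinearEquiv.ofBijective` and `toContinuousLinearEquiv`). The first five properties are clear.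
`ζ ↦ ((A' ζ).symm : Wd d →L[ℝ] Wd d)` is continuous (`continuous_symm`, DH21), so its norm is bounded by some `C ≥ 0` on the compact ball `‖ζ‖ ≤ 3`, hence everywhere (`A' ζ = A' (ρ ζ)`).
`r₂ = min 1 (3 / (C + 1))`: if `‖A' ζ w‖ ≤ r₂` then `‖w‖ = ‖(A' ζ).symm (A' ζ w)‖ ≤ C r₂ ≤ 3`. -/
theorem exists_AE {A : Pt → Wd d →L[ℝ] Wd d} (hA : Continuous A) (hb : ∀ v, ‖v‖ < 4 → Function.Bijective (A v))
    (hle : ∀ v, ‖v‖ < 4 → ∀ w, ‖A v w‖ ≤ 1 / 8 * ‖w‖)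
    (hcl : ∀ v, ‖v‖ < 4 → ∀ v', ‖v'‖ < 4 → ∀ w, ‖A v w - A v' w‖ ≤ 1 / 100 * ‖A v' w‖) :
    ∃ (A' : EuclideanSpace ℝ (Fin 2) → Wd d ≃L[ℝ] Wd d) (r₂ : ℝ), 0 < r₂ ∧ r₂ < 3 ∧
      (Continuous fun ζ => (A' ζ : Wd d →L[ℝ] Wd d)) ∧ (∀ ζ w, ‖A' ζ w‖ ≤ 1 / 8 * ‖w‖) ∧
      (∀ ζ ζ' w, ‖A' ζ w - A' ζ' w‖ ≤ 1 / 100 * ‖A' ζ' w‖) ∧ (∀ ζ w, ‖A' ζ w‖ ≤ r₂ → ‖w‖ ≤ 3) ∧
      ∀ ζ, ‖ζ‖ ≤ 3 → ∀ w, A' ζ w = A (P2 ζ) w := by
  obtain ⟨ρ, hρ⟩ : ∃ ρ : EuclideanSpace ℝ (Fin 2) → EuclideanSpace ℝ (Fin 2),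
      ρ = fun ζ => (3 / max 3 ‖ζ‖) • ζ := ⟨_, rfl⟩
  have hpos : ∀ ζ : EuclideanSpace ℝ (Fin 2), 0 < max 3 ‖ζ‖ := fun ζ =>
    lt_of_lt_of_le (by norm_num) (le_max_left _ _)
  have hρc : Continuous ρ := by
    rw [hρ]
    have h1 : Continuous fun ζ : EuclideanSpace ℝ (Fin 2) => max 3 ‖ζ‖ :=
      Continuous.max continuous_const continuous_norm
    have h2 : Continuous fun ζ : EuclideanSpace ℝ (Fin 2) => 3 / max 3 ‖ζ‖ :=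
      Continuous.div continuous_const h1 fun ζ => (hpos ζ).ne'
    exact h2.smul continuous_id
  have hρn : ∀ ζ, ‖ρ ζ‖ ≤ 3 := by
    intro ζ
    have h3 := hpos ζ
    rw [hρ]
    show ‖(3 / max 3 ‖ζ‖) • ζ‖ ≤ 3
    rw [norm_smul, Real.norm_of_nonneg (by positivity), div_mul_eq_mul_div, div_le_iff₀ h3]
    exact mul_le_mul_of_nonneg_left (le_max_right _ _) (by norm_num)
  have hρi : ∀ ζ, ‖ζ‖ ≤ 3 → ρ ζ = ζ := by
    intro ζ h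
    rw [hρ]
    show (3 / max 3 ‖ζ‖) • ζ = ζ
    rw [max_eq_left h, div_self (by norm_num), one_smul]
  have hv : ∀ ζ, ‖P2 (ρ ζ)‖ < 4 := fun ζ =>
    lt_of_le_of_lt ((norm_P2_le _).trans (hρn ζ)) (by norm_num)
  obtain ⟨A', hA'⟩ : ∃ A' : EuclideanSpace ℝ (Fin 2) → Wd d ≃L[ℝ] Wd d,
      ∀ ζ, (A' ζ : Wd d →L[ℝ] Wd d) = A (P2 (ρ ζ)) :=
    ⟨fun ζ => ContinuousLinearEquiv.ofBijective (A (P2 (ρ ζ)))
      (LinearMap.ker_eq_bot.2 (hb _ (hv ζ)).1) (LinearMap.range_eq_top.2 (hb _ (hv ζ)).2),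
      fun ζ => ContinuousLinearEquiv.coe_ofBijective _ _ _⟩
  have hA'' : ∀ ζ w, A' ζ w = A (P2 (ρ ζ)) w := fun ζ w => by rw [← hA' ζ]; rfl
  have hAc : Continuous fun ζ => (A' ζ : Wd d →L[ℝ] Wd d) := by
    simp only [hA']
    exact hA.comp (P2.continuous.comp hρc)
  have hsc := continuous_symm hAc
  obtain ⟨C, hC⟩ := (isCompact_closedBall (0 : EuclideanSpace ℝ (Fin 2)) 3).exists_bound_of_continuousOn
    hsc.continuousOn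
  have hAρ : ∀ ζ, A' (ρ ζ) = A' ζ := by
    intro ζ
    refine ContinuousLinearEquiv.ext (funext fun w => ?_)
    rw [hA'', hA'', hρi _ (hρn ζ)]
  have hC' : ∀ ζ, ‖((A' ζ).symm : Wd d →L[ℝ] Wd d)‖ ≤ max C 0 := by
    intro ζ
    rw [← hAρ]
    exact (hC _ (mem_closedBall_zero_iff.2 (hρn ζ))).trans (le_max_left _ _)
  have hC0 : 0 ≤ max C 0 := le_max_right _ _
  refine ⟨A', 3 / (max C 0 + 2), by positivity, ?_, hAc, ?_, ?_, ?_, ?_⟩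
  · rw [div_lt_iff₀ (by positivity)]
    linarith
  · intro ζ w
    rw [hA'']
    exact hle _ (hv ζ) w
  · intro ζ ζ' w
    rw [hA'', hA'']
    exact hcl _ (hv ζ) _ (hv ζ') w
  · intro ζ w hw
    have h1 : w = ((A' ζ).symm : Wd d →L[ℝ] Wd d) (A' ζ w) := by simp
    have h2 : ‖w‖ ≤ max C 0 * ‖A' ζ w‖ := by
      conv_lhs => rw [h1]
      exact ContinuousLinearMap.le_of_opNorm_le _ (hC' ζ) _
    have h3 : max C 0 * ‖A' ζ w‖ ≤ max C 0 * (3 / (max C 0 + 2)) :=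
      mul_le_mul_of_nonneg_left hw hC0
    have h4 : max C 0 * (3 / (max C 0 + 2)) ≤ 3 := by
      rw [mul_div_assoc', div_le_iff₀ (by positivity)]
      linarith
    linarith
  · intro ζ hζ w
    rw [hA'', hρi ζ hζ]

end Pool.Agent.Lib.H37D
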