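import Pool.Agent.Lib.H37D.DH81

open TopologicalSpace Set Filter Topology
open scoped Manifold ContDiff
open Pool.Agent.Lib.Helper37.ConjBorel Pool.Agent.Lib.H37C Pool.Agent.Lib.H37N

namespace Pool.Agent.Lib.H37D

variable {d : ℕ} {M : Type*} [TopologicalSpace M] [ChartedSpace (Euc (d + 2)) M]

/-- **DH83 (S/M).** One step in the chart: if `z` and its image are in `Omd d`, then `f` acts on the point with the coordinates `z` as `locD e f`.

Proof. `z ∈ domD e f`: otherwise `locD e f z = ((10, 10), 0)`, which is not in `Omd d` (`omd_sub_K0D`: `10 > 4`). So `locD e f z = LLd d (e (f (e.symm ..)))` and `e.left_inv`. -/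
theorem step_loc {e : OpenPartialHomeomorph M (Euc (d + 2))} {f : DiffInf (d + 2) M} {z : En d}
    (hz : locD e f z ∈ Omd d) : f (e.symm ((LLd d).symm z)) = e.symm ((LLd d).symm (locD e f z)) := by
  by_cases h : z ∈ domD e f
  · have h1 : locD e f z = LLd d (e (f (e.symm ((LLd d).symm z)))) := by
      unfold locD
      rw [if_pos h]
    rw [h1, (LLd d).symm_apply_apply, e.left_inv h.2]
  · exfalso
    have h1 : locD e f z = ((10, 10), 0) := by
      unfold locD
      rw [if_neg h]
    rw [h1] at hz
    have h2 := interior_subset (omd_sub_K0D hz)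
    have h3 : (((10 : ℝ), (10 : ℝ)) : Pt) ∈ K0 := h2.1
    simp only [K0, mem_prod, mem_Icc] at h3
    linarith [h3.1.2]

/-- **DH83, second part (S).** `step_loc`, induction on `i` (`hC.path`). -/
theorem iter_loc {e : OpenPartialHomeomorph M (Euc (d + 2))} {f : DiffInf (d + 2) M} {m : ℕ} {Θ c : En d → En d}
    {A : Pt → Wd d →L[ℝ] Wd d} (hC : CSpotD (locD e f) m Θ c A) {z : En d} (hz : z ∈ Bt d) {i : ℕ} (hi : i ≤ m) :
    (⇑f)^[i] (e.symm ((LLd d).symm (Θ z))) = e.symm ((LLd d).symm ((locD e f)^[i] (Θ z))) := by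
  induction i with
  | zero => rfl
  | succ i ih =>
    rw [Function.iterate_succ_apply', ih (by omega), Function.iterate_succ_apply']
    apply step_loc
    have h1 := hC.path z hz (i + 1) hi
    rw [Function.iterate_succ_apply'] at h1
    exact h1

/-- `e.symm` is injective on the target, `omd_target` -/
theorem symm_inj {e : OpenPartialHomeomorph M (Euc (d + 2))} {r : ℝ} (he : BigCD e r) (hr : 4 ≤ r) {z z' : En d}
    (hz : z ∈ Omd d) (hz' : z' ∈ Omd d) (h : e.symm ((LLd d).symm z) = e.symm ((LLd d).symm z')) : z = z' := by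
  have h1 := congrArg e h
  rw [e.right_inv (omd_target he hr hz), e.right_inv (omd_target he hr hz')] at h1
  exact (LLd d).symm.injective h1

end Pool.Agent.Lib.H37D
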