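import Pool.Agent.Lib.H37D.DK8
import Pool.Agent.Lib.H37D.NDefs

/-!
# H37D, section M: the interface of the model diffeomorphism of `En d`
-/

open Set Filter Topology
open scoped ContDiff Manifold
open Pool.Agent.Lib.Helper37.ConjBorel

namespace Pool.Agent.Lib.H37D

open Pool.Agent.Lib.H37N

noncomputable section

/-- the vertical strips, widened by `10^-6` -/
def VVm (i : Sy) : Set Pt :=
  Icc (al i - del - 1 / 10 ^ 6) (al i + pw i + del + 1 / 10 ^ 6) ×ˢ Icc (-del - 1 / 10 ^ 6) (1 + del + 1 / 10 ^ 6)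

/-- the fold region, widened by `10^-6` -/
def FFm : Set Pt :=
  Icc (xc - u0 - 1 / 10 ^ 6) (xc + u0 + 1 / 10 ^ 6) ×ˢ Icc (-del - 1 / 10 ^ 6) (1 + del + 1 / 10 ^ 6)

/-- the model diffeomorphism `F` of `En d` with inverse `B`: the model maps near the strips and the fold, identity far away,
and a source `p` (`B` is the contraction with the factor `1/2` on a ball around `p`), which captures, under `B`,
the points that leave the thin neighbourhood of the plane -/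
structure ModelD {d : ℕ} (F B : En d → En d) (p : En d) (rho r : ℝ) : Prop where
  smooth : ContDiff ℝ ∞ F
  smooth_B : ContDiff ℝ ∞ B
  left : ∀ z, B (F z) = z
  right : ∀ z, F (B z) = z
  supp : ∀ z, r ≤ ‖z‖ → F z = z
  hV : ∀ i, ∀ z : En d, z.1 ∈ VVm i → ‖z.2‖ ≤ 21 / 20 → F z = AffD d i z
  hF : ∀ z : En d, z.1 ∈ FFm → ‖z.2‖ ≤ 21 / 20 → F z = FoldD d z
  rho_pos : 0 < rho
  sub : Metric.closedBall p rho ⊆ Metric.ball 0 r
  lin : ∀ z ∈ Metric.closedBall p rho, B z = p + (1 / 2 : ℝ) • (z - p)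
  far : Disjoint (Metric.closedBall p rho) (Omd d)
  exit : ∀ z : En d, z.1.1 ∈ Icc (-del - 1 / 10 ^ 6) (1 + del + 1 / 10 ^ 6) →
    z.1.2 ∈ Icc (-del - 1 / 10 ^ 6) (1 + del + 1 / 10 ^ 6) → 5 / 10 ^ 8 ≤ ‖z.2‖ → ‖z.2‖ ≤ 1 →
    B^[3] z ∈ Metric.ball p rho

variable {d : ℕ} {M : Type*} [TopologicalSpace M] [ChartedSpace (Euc (d + 2)) M]

/-- `p` is a source of `f`, it attracts the backward orbits of all points of the centre spots off the centre -/
structure SrcAt (e : OpenPartialHomeomorph M (Euc (d + 2))) (f : DiffInf (d + 2) M) (p : M) : Prop where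
  fix : f p = p
  mem : p ∈ e.source
  out : LLd d (e p) ∉ Omd d
  att : ∃ U ∈ 𝓝 p, ∀ W ∈ 𝓝 p, ∃ N : ℕ, ∀ k ≥ N, ∀ z ∈ U, (⇑f.symm)^[k] z ∈ W
  src : ∀ (m : ℕ) (Θ c : En d → En d) (A : Pt → Wd d →L[ℝ] Wd d), CSpotD (locD e f) m Θ c A →
    ∀ v w, ‖v‖ < 4 → ‖w‖ < 4 → w ≠ 0 →
      Tendsto (fun k => (⇑f.symm)^[k] (e.symm ((LLd d).symm (Θ (v, w))))) atTop (𝓝 p)

end

end Pool.Agent.Lib.H37D
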