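import Pool.Agent.Lib.H37D.DHDefs
import Pool.Agent.Lib.H37D.DH44
import Pool.Agent.Lib.H37D.DH80
import Pool.Agent.Lib.H37D.DH82
import Pool.Agent.Lib.H37D.DH83
import Pool.Agent.Lib.H37D.MDefsD

open TopologicalSpace Set Filter Topology
open scoped Manifold ContDiff
open Pool.Agent.Lib.Helper37.ConjBorel Pool.Agent.Lib.H37C Pool.Agent.Lib.H37N

namespace Pool.Agent.Lib.H37D

variable {d : ℕ} {M : Type*} [TopologicalSpace M] [ChartedSpace (Euc (d + 2)) M]

/-- the coordinates `(ζ, w)` -/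
noncomputable def LE (d : ℕ) : Euc (d + 2) ≃L[ℝ] Euc 2 × Wd d :=
  (LLd d).trans (P2.symm.prodCongr (ContinuousLinearEquiv.refl ℝ (Wd d)))

/-- **DH84 (M).** The bridge: from a centre spot of the local representation and a source to `CSpot`.

Proof. `κ` from `exists_kappa`, `L = LE d` (`L.symm v = (LLd d).symm (P2 v.1, v.2)`), `A', r₂` from `exists_AE`, `r₃ = 3`. For `v ∈ Bx 3`: `z = (P2 v.1, v.2) ∈ Bt d` (`norm_P2_le`; `‖z‖ ≤ 3 < 4`), so
`L.symm v ∈ κ.target` and `ptM κ L v = e.symm ((LLd d).symm (Θ z))`. `per`: `iter_loc` with `i = m`, `hC.lin`, `A' v.1 v.2 = A (P2 v.1) v.2`, and `(v.1, A' v.1 v.2) ∈ Bx 3`. `disj`: `iter_loc`, `symm_inj` (`hC.path`), `hC.disj`.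
`notin`: if `p = ptM κ L v`, then `LLd d (e p) = Θ z ∈ Omd d` (`omd_target`, `e.right_inv`), but `hp.out`. `src`: the set `C = ptM κ L '' {v ∈ Bx 3 | r₂ ≤ ‖v.2‖}` is compact (the image of a compact set under a map
which is continuous on it: `κ.symm` is continuous on its target); for its points `hp.src` with `w = v.2 ≠ 0`; `unif_of_pointwise` with `g = f.symm`, `hp.att`. -/
theorem cspot_of_local [T2Space M] [IsManifold (𝓡 (d + 2)) ∞ M] {e : OpenPartialHomeomorph M (Euc (d + 2))} {r : ℝ}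
    (he : BigCD e r) (hr : 4 ≤ r) {f : DiffInf (d + 2) M} (hL : LocalSpotD (locD e f)) {p : M} (hp : SrcAt e f p) :
    ∃ (m : ℕ) (κ : OpenPartialHomeomorph M (Euc (d + 2))) (L : Euc (d + 2) ≃L[ℝ] Euc 2 × Wd d)
      (A : Euc 2 → Wd d ≃L[ℝ] Wd d) (r₂ r₃ : ℝ), CSpot f m p κ L A r₂ r₃ := by
  obtain ⟨m, Θ, c, A, hC⟩ := hL
  obtain ⟨κ, hκ, hκt, hκs⟩ := exists_kappa he hr hC
  obtain ⟨A', r₂, h2, h23, hA1, hA2, hA3, hA4, hA5⟩ :=
    exists_AE hC.smooth_A.continuous hC.A_bij hC.A_le hC.A_close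
  have hsym : ∀ v : Euc 2 × Wd d, (LE d).symm v = (LLd d).symm (P2 v.1, v.2) := fun v => rfl
  have hn1 : ∀ v ∈ Bx (W := Wd d) 3, ‖P2 v.1‖ < 4 := fun v hv =>
    (norm_P2_le v.1).trans_lt (lt_of_le_of_lt hv.1 (by norm_num))
  have hn2 : ∀ v ∈ Bx (W := Wd d) 3, ‖v.2‖ < 4 := fun v hv => lt_of_le_of_lt hv.2 (by norm_num)
  have hB : ∀ v ∈ Bx (W := Wd d) 3, ((P2 v.1, v.2) : En d) ∈ Bt d := by
    intro v hv
    show _ ∈ Metric.ball _ _
    rw [mem_ball_zero_iff, Prod.norm_def]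
    exact max_lt (hn1 v hv) (hn2 v hv)
  have hpt : ∀ v ∈ Bx (W := Wd d) 3, ptM κ (LE d) v = e.symm ((LLd d).symm (Θ (P2 v.1, v.2))) := by
    intro v hv
    show κ.symm ((LE d).symm v) = _
    rw [hsym, hκs _ (hB v hv)]
  have hbig : ∀ v ∈ Bx (W := Wd d) 3, (LE d).symm v ∈ κ.target := by
    intro v hv
    rw [hsym]
    exact hκt _ (hB v hv)
  have hAv : ∀ v ∈ Bx (W := Wd d) 3, ((v.1, A' v.1 v.2) : Euc 2 × Wd d) ∈ Bx (W := Wd d) 3 := by
    intro v hv
    refine ⟨hv.1, (hA2 v.1 v.2).trans ?_⟩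
    have := hv.2
    have h0 := norm_nonneg v.2
    show 1 / 8 * ‖v.2‖ ≤ 3
    linarith
  refine ⟨m, κ, LE d, A', r₂, 3, ?_⟩
  exact
    { pos := hC.pos
      mem := hκ
      big := hbig
      r_pos := h2
      r_lt := h23
      cont_A := hA1
      A_le := hA2
      A_close := hA3
      per := by
        intro v hv
        rw [hpt v hv, hpt _ (hAv v hv), iter_loc hC (hB v hv) le_rfl, hC.lin _ _ (hn1 v hv) (hn2 v hv),
          hA5 _ hv.1]
      disj := by
        intro i hi0 hi v hv v' hv' h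
        rw [hpt v hv, hpt v' hv', iter_loc hC (hB v hv) hi.le] at h
        exact hC.disj i hi0 hi _ (hB v hv) _ (hB v' hv')
          (symm_inj he hr (hC.path _ (hB v hv) i hi.le) (hC.path _ (hB v' hv') 0 (Nat.zero_le _)) h)
      fund := hA4
      fix := hp.fix
      notin := by
        intro v hv h
        apply hp.out
        have h0 : Θ (P2 v.1, v.2) ∈ Omd d := hC.path _ (hB v hv) 0 (Nat.zero_le _)
        rw [← h, hpt v hv, e.right_inv (omd_target he hr h0), (LLd d).apply_symm_apply]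
        exact h0
      src := by
        have hcpt : IsCompact {v : Euc 2 × Wd d | v ∈ Bx (W := Wd d) 3 ∧ r₂ ≤ ‖v.2‖} := by
          have h1 : IsCompact (Metric.closedBall (0 : Euc 2) 3 ×ˢ Metric.closedBall (0 : Wd d) 3) :=
            (isCompact_closedBall _ _).prod (isCompact_closedBall _ _)
          have h2 : IsClosed {v : Euc 2 × Wd d | r₂ ≤ ‖v.2‖} :=
            isClosed_le continuous_const continuous_snd.norm
          refine (h1.inter_right h2).of_isClosed_subset ?_ ?_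
          · have h3 : {v : Euc 2 × Wd d | v ∈ Bx (W := Wd d) 3 ∧ r₂ ≤ ‖v.2‖} =
                {v | ‖v.1‖ ≤ 3} ∩ {v | ‖v.2‖ ≤ 3} ∩ {v | r₂ ≤ ‖v.2‖} := by
              ext v
              exact ⟨fun h => ⟨⟨h.1.1, h.1.2⟩, h.2⟩, fun h => ⟨⟨h.1.1, h.1.2⟩, h.2⟩⟩
            rw [h3]
            exact ((isClosed_le continuous_fst.norm continuous_const).inter
              (isClosed_le continuous_snd.norm continuous_const)).inter h2
          · intro v hv
            refine ⟨⟨?_, ?_⟩, hv.2⟩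
            · rw [mem_closedBall_zero_iff]; exact hv.1.1
            · rw [mem_closedBall_zero_iff]; exact hv.1.2
        have hcont : ContinuousOn (ptM κ (LE d)) {v : Euc 2 × Wd d | v ∈ Bx (W := Wd d) 3 ∧ r₂ ≤ ‖v.2‖} := by
          have h1 : ContinuousOn (fun v : Euc 2 × Wd d => (LE d).symm v)
              {v : Euc 2 × Wd d | v ∈ Bx (W := Wd d) 3 ∧ r₂ ≤ ‖v.2‖} := (LE d).symm.continuous.continuousOn
          exact κ.continuousOn_symm.comp h1 fun v hv => hbig v hv.1
        have hK := hcpt.image_of_continuousOn hcont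
        have hu := unif_of_pointwise (g := ⇑f.symm) f.symm.continuous hp.att hK (by
          rintro _ ⟨v, hv, rfl⟩
          rw [hpt v hv.1]
          refine hp.src m Θ c A hC _ _ (hn1 v hv.1) (hn2 v hv.1) ?_
          intro h0
          have := hv.2
          rw [h0, norm_zero] at this
          linarith)
        intro V hV
        obtain ⟨N, hN⟩ := hu V hV
        exact ⟨N, fun k hk v hv hr => hN k hk _ ⟨v, ⟨hv, hr⟩, rfl⟩⟩ }

end Pool.Agent.Lib.H37D
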