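import Pool.Agent.Lib.H37D.DH72
import Pool.Agent.Lib.H37D.DH84

open TopologicalSpace Set Filter Topology MeasureTheory
open scoped Manifold ContDiff
open Pool.Agent.Lib.Helper37.ConjBorel Pool.Agent.Lib.H37C Pool.Agent.Lib.H37N

namespace Pool.Agent.Lib.H37D

variable {d : ℕ} {M : Type*} [TopologicalSpace M] [ChartedSpace (Euc (d + 2)) M]

/-- **DH85.** Section HC in the form used in the final theorem: an open set which contains a diffeomorphism with a centre spot
in a good surrounding. -/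
theorem main_of_local [T2Space M] [CompactSpace M] [IsManifold (𝓡 (d + 2)) ∞ M]
    {e : OpenPartialHomeomorph M (Euc (d + 2))} {r : ℝ} (he : BigCD e r) (hr : 4 ≤ r)
    {U : Set (DiffInf (d + 2) M)} (hU : IsOpen U) {f : DiffInf (d + 2) M} (hf : f ∈ U)
    (hL : LocalSpotD (locD e f)) {p : M} (hp : SrcAt e f p) :
    AnalyticSet {q : U × U | TopConj (q.1 : DiffInf (d + 2) M) (q.2 : DiffInf (d + 2) M)} ∧
    (∀ A : Set (ℕ → Bool), AnalyticSet A → ∃ F : (ℕ → Bool) → U × U, Continuous F ∧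
      ∀ x, x ∈ A ↔ TopConj ((F x).1 : DiffInf (d + 2) M) ((F x).2 : DiffInf (d + 2) M)) ∧
    ¬ MeasurableSet[borel (U × U)]
      {q : U × U | TopConj (q.1 : DiffInf (d + 2) M) (q.2 : DiffInf (d + 2) M)} := by
  obtain ⟨m, κ, L, A, r₂, r₃, hS⟩ := cspot_of_local he hr hL hp
  exact mainC hU hf hS

end Pool.Agent.Lib.H37D
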