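import Mathlib

/-!
# H37D, section HC: abstract definitions (gluing lemma, cocycle lemma)
-/

open TopologicalSpace Set Filter Topology

namespace Pool.Agent.Lib.H37D

/-! ## The gluing lemma -/

section Glue

variable {X : Type*} [TopologicalSpace X]

/-- Gluing data: `T` is an open set which is mapped to itself by `F^m` and `η` is a semiconjugacy from `F^m` to `F'^m`
on `T`; all backward orbits of `T` tend to `p`, uniformly. -/
structure Glue (F F' : X ≃ₜ X) (T : Set X) (m : ℕ) (η : X → X) (p : X) : Prop where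
  pos : 0 < m
  op : IsOpen T
  into : ∀ x ∈ T, (⇑F)^[m] x ∈ T
  ret : ∀ i, 0 < i → i < m → ∀ x ∈ T, (⇑F)^[i] x ∉ T
  maps : ∀ x ∈ T, η x ∈ T
  cont : ContinuousOn η T
  conj : ∀ x ∈ T, η ((⇑F)^[m] x) = (⇑F')^[m] (η x)
  off : ∀ x, (∀ k, (⇑F)^[k] x ∉ T) → F x = F' x
  np : ∀ k, (⇑F)^[k] p ∉ T
  unif : ∀ V ∈ 𝓝 p, ∃ N : ℕ, ∀ k ≥ N, ∀ x, (⇑F)^[k] x ∈ T → (∀ y ∈ T, (⇑F)^[m] y ≠ (⇑F)^[k] x) → x ∈ V
  bdry : ∀ y ∈ closure T, (∀ k, (⇑F)^[k] y ∉ T) →
    ∀ᶠ u in 𝓝 y, u ∈ T → η u = u ∧ ∀ k x, (⇑F)^[k] x = u → (⇑F')^[k] x = u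

open Classical in
/-- the glued map -/
noncomputable def gl (F F' : X ≃ₜ X) (T : Set X) (η : X → X) (x : X) : X :=
  if h : ∃ k, (⇑F)^[k] x ∈ T then (⇑F'.symm)^[Nat.find h] (η ((⇑F)^[Nat.find h] x)) else x

end Glue

/-! ## The cocycle lemma -/

section Coc

variable {Y : Type*} [TopologicalSpace Y] {W : Type*} [NormedAddCommGroup W] [NormedSpace ℝ W]

/-- two continuous families of strong contractions which are close to each other -/
structure Coc (A B : Y → W ≃L[ℝ] W) : Prop where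
  contA : Continuous fun y => (A y : W →L[ℝ] W)
  contB : Continuous fun y => (B y : W →L[ℝ] W)
  leA : ∀ y w, ‖A y w‖ ≤ 1 / 8 * ‖w‖
  leB : ∀ y w, ‖B y w‖ ≤ 1 / 8 * ‖w‖
  close : ∀ y w, ‖B y w - A y w‖ ≤ 1 / 100 * ‖A y w‖

/-- cut-off function: `1` on `[0, r/4]`, `0` on `[r/2, ∞)`, Lipschitz with constant `4/r` -/
noncomputable def th (r t : ℝ) : ℝ := max 0 (min 1 (2 - 4 * t / r))

/-- the interpolation between the identity and `B_y A_y⁻¹` -/
noncomputable def sC (A B : Y → W ≃L[ℝ] W) (r : ℝ) (y : Y) (w : W) : W :=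
  w + th r ‖w‖ • (B y ((A y).symm w) - w)

end Coc

end Pool.Agent.Lib.H37D
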