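import Pool.Agent.Lib.H37C.G2
import Pool.Agent.Lib.H37D.DHA

/-!
# H37D, section HC: definitions

Chunks DH..: if an open set `U` of `Diff^∞(M)` contains a diffeomorphism with a centre spot (`CSpot`), then
topological conjugacy on `U` is complete analytic (`mainC`, DH72).

Notation: `v = (ζ, w) ∈ Euc 2 × W` are the coordinates near the spot, `ptM e L v` the point of `M`.
-/

open TopologicalSpace Set Filter Topology
open scoped Manifold ContDiff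
open Pool.Agent.Lib.Helper37.ConjBorel Pool.Agent.Lib.H37C

namespace Pool.Agent.Lib.H37D

/-! ## The perturbation -/

section Pert

variable {n : ℕ} {M : Type*} [TopologicalSpace M] [ChartedSpace (Euc n) M]
variable {W : Type*} [NormedAddCommGroup W] [NormedSpace ℝ W]

/-- the point of `M` with the coordinates `v` -/
def ptM (e : OpenPartialHomeomorph M (Euc n)) (L : Euc n ≃L[ℝ] Euc 2 × W) (v : Euc 2 × W) : M :=
  e.symm (L.symm v)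

/-- the closed box -/
def Bx (r : ℝ) : Set (Euc 2 × W) := {v | ‖v.1‖ ≤ 3 ∧ ‖v.2‖ ≤ r}

/-- A centre spot: the points `(ζ, 0)` have period `m`, `f₀^m (ζ, w) = (ζ, A_ζ w)`, and the backward orbits of the points
with `w ≠ 0` tend to the source `p`. -/
structure CSpot (f₀ : DiffInf n M) (m : ℕ) (p : M) (e : OpenPartialHomeomorph M (Euc n))
    (L : Euc n ≃L[ℝ] Euc 2 × W) (A : Euc 2 → W ≃L[ℝ] W) (r₂ r₃ : ℝ) : Prop where
  pos : 0 < m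
  mem : e ∈ IsManifold.maximalAtlas (𝓡 n) ∞ M
  big : ∀ v ∈ Bx r₃, L.symm v ∈ e.target
  r_pos : 0 < r₂
  r_lt : r₂ < r₃
  cont_A : Continuous fun ζ => (A ζ : W →L[ℝ] W)
  A_le : ∀ ζ w, ‖A ζ w‖ ≤ 1 / 8 * ‖w‖
  A_close : ∀ ζ ζ' w, ‖A ζ w - A ζ' w‖ ≤ 1 / 100 * ‖A ζ' w‖
  per : ∀ v ∈ Bx r₃, (⇑f₀)^[m] (ptM e L v) = ptM e L (v.1, A v.1 v.2)
  disj : ∀ i, 0 < i → i < m → ∀ v ∈ Bx r₃, ∀ v' ∈ Bx r₃, (⇑f₀)^[i] (ptM e L v) ≠ ptM e L v'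
  fund : ∀ ζ w, ‖A ζ w‖ ≤ r₂ → ‖w‖ ≤ r₃
  fix : f₀ p = p
  notin : ∀ v ∈ Bx r₃, ptM e L v ≠ p
  src : ∀ V ∈ 𝓝 p, ∃ N : ℕ, ∀ k ≥ N, ∀ v ∈ Bx r₃, r₂ ≤ ‖v.2‖ → (⇑f₀.symm)^[k] (ptM e L v) ∈ V

/-- a cut-off function on `W` -/
structure Cut (χ : W → ℝ) (r : ℝ) : Prop where
  smooth : ContDiff ℝ ∞ χ
  nonneg : ∀ w, 0 ≤ χ w
  le_one : ∀ w, χ w ≤ 1
  one : ∀ w, ‖w‖ ≤ r / 2 → χ w = 1
  zero : ∀ w, r ≤ ‖w‖ → χ w = 0

/-- the perturbation in the coordinates `(ζ, w)` -/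
noncomputable def PP (χ : W → ℝ) (lt : ℕ → ℕ → Prop) (δ : ℝ) (v : Euc 2 × W) : Euc 2 × W :=
  (psi lt (δ * χ v.2) v.1, v.2)

/-- the perturbation on the model space of `M` -/
noncomputable def PE (L : Euc n ≃L[ℝ] Euc 2 × W) (χ : W → ℝ) (lt : ℕ → ℕ → Prop) (δ : ℝ) (x : Euc n) : Euc n :=
  L.symm (PP χ lt δ (L x))

/-- `F` is the perturbation of `f₀` given by the order `lt` -/
def IsPert (f₀ : DiffInf n M) (e : OpenPartialHomeomorph M (Euc n)) (L : Euc n ≃L[ℝ] Euc 2 × W) (χ : W → ℝ)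
    (lt : ℕ → ℕ → Prop) (δ : ℝ) (F : DiffInf n M) : Prop :=
  ∀ z, F z = f₀ (ext e (PE L χ lt δ) z)

/-- the open tube -/
def Tb (e : OpenPartialHomeomorph M (Euc n)) (L : Euc n ≃L[ℝ] Euc 2 × W) (r : ℝ) : Set M :=
  ptM e L '' {v | ‖v.1‖ < 5 / 2 ∧ ‖v.2‖ < r / 2}

/-- the shell (a neighbourhood of the set of fixed points of `F^m` in the tube which depend on the order) -/
def CoC (e : OpenPartialHomeomorph M (Euc n)) (L : Euc n ≃L[ℝ] Euc 2 × W) (r : ℝ) : Set M :=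
  ptM e L '' {v | 1 < ‖v.1‖ ∧ ‖v.1‖ < 2 ∧ ‖v.2‖ < r}

/-- the disc in the shell -/
def DiC (e : OpenPartialHomeomorph M (Euc n)) (L : Euc n ≃L[ℝ] Euc 2 × W) : Set M :=
  ptM e L '' {v | 1 < ‖v.1‖ ∧ ‖v.1‖ < 2 ∧ v.2 = 0}

/-- the radial coordinate -/
noncomputable def radC (e : OpenPartialHomeomorph M (Euc n)) (L : Euc n ≃L[ℝ] Euc 2 × W) (z : M) : ℝ :=
  ‖(L (e z)).1‖ - 1

/-- the background: the fixed points of `f₀^m` outside the orbit of the shell -/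
def bgC (f₀ : DiffInf n M) (m : ℕ) (e : OpenPartialHomeomorph M (Euc n)) (L : Euc n ≃L[ℝ] Euc 2 × W) (r : ℝ) : Set M :=
  {z | (⇑f₀)^[m] z = z ∧ ∀ i < m, ∀ y ∈ CoC e L r, (⇑f₀)^[i] y ≠ z}

end Pert

/-! ## Fixed points: the set `X` looks, in the open set `Co`, like the product of `K` and a sphere, in the disc `Di` -/

/-- `RadData` with a disc `Di` -/
structure RadC {Z : Type*} [TopologicalSpace Z] (X Co Di : Set Z) (rad : Z → ℝ) (K : Set ℝ) : Prop where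
  isOpen : IsOpen Co
  sub : Di ⊆ Co
  closed : IsClosed (X ∩ Co)
  mem : ∀ z ∈ Co, z ∈ X ↔ z ∈ Di ∧ rad z ∈ K
  comp : ∀ z ∈ X ∩ Co, ∀ z' ∈ connectedComponentIn X z, z' ∈ Co ∧ rad z' = rad z
  loc : ∀ z ∈ X ∩ Co, ∀ᶠ z' in 𝓝 z, z' ∈ X → rad z' = rad z → z' ∈ connectedComponentIn X z
  cont : ContinuousOn rad Co
  lift : ∀ z ∈ Di, ∃ σ : ℝ → Z, ContinuousAt σ (rad z) ∧ σ (rad z) = z ∧
    ∀ᶠ k in 𝓝 (rad z), σ k ∈ Di ∧ rad (σ k) = k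
  surj : ∀ k ∈ K, ∃ z ∈ Di, rad z = k

end Pool.Agent.Lib.H37D
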