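import Pool.Agent.Lib.H37D.PDefs
import Pool.Agent.Lib.H37D.DB20
import Pool.Agent.Lib.H37P.P10

/-!
# H37D DP10 (M): density and the parameters tend to their limits (port of H37P/P10.lean)

`Rates` for the four numbers from `IsFrD.rates`, `IsFrD.R1`, `IsFrD.irr` (DB20), `density_seq` (H37N/I1b). The scalar parameters as in P10. The vector parameters, coordinate by coordinate
(`tendsto_pi_nhds`, finitely many coordinates), with `0 < al k < 101/10^9`:
* `al_P^n → 0`; `w⁰ = al_Q^m wS → 0`;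
* `E lam_Q^m al_P^n = B (al_P/lam_P)^n`, `B → B0`, `al_P/lam_P < 1`;
* `E lam_P^n al_Q^m = B (al_Q/lam_Q)^m → 0`;
* `mu_P^n al_Q^m = (mu_P^n lam_Q^m) (al_Q/lam_Q)^m → 0`;
* `mu_Q^m al_Q^m = (mu_Q al_Q)^m → 0`; `mu_P^n al_P^n = (mu_P al_P)^n → 0`.
-/

open Set Filter Topology Asymptotics
open scoped ContDiff

namespace Pool.Agent.Lib.H37D

open Pool.Agent.Lib.H37N

variable {d : ℕ}

theorem IsFrD.toRates {g : En d → En d} {s : FrD d} (hs : IsFrD g s) :
    Rates (s.lam Sy.P) (s.mu Sy.P) (s.lam Sy.Q) (s.mu Sy.Q) := by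
  obtain ⟨h1, h2, h3, h4, h5, h6, h7, h8⟩ := hs.rates
  exact ⟨h1, h2, h5, h3, h4, h6, h7, h8, hs.R1, hs.irr⟩

theorem dp10_pow {c : ℝ} (h0 : 0 ≤ c) (h1 : c < 1) {n : ℕ → ℕ} (hn : Tendsto n atTop atTop) :
    Tendsto (fun j => c ^ (n j)) atTop (𝓝 0) :=
  (tendsto_pow_atTop_nhds_zero_of_lt_one h0 h1).comp hn

theorem exists_nmD {g : En d → En d} {s : FrD d} (hs : IsFrD g s) {B0 : ℝ} (hB : 0 < B0) :
    ∃ n m : ℕ → ℕ, Tendsto n atTop atTop ∧ Tendsto m atTop atTop ∧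
      Tendsto (fun j => BBD g s (n j) (m j)) atTop (𝓝 B0) ∧
      Tendsto (fun j => e1D s (n j)) atTop (𝓝 0) ∧
      Tendsto (fun j => e2D g s (m j)) atTop (𝓝 0) ∧
      Tendsto (fun j => e4D s (n j) (m j)) atTop (𝓝 0) ∧
      Tendsto (fun j => xi0D s (m j)) atTop (𝓝 0) ∧
      Tendsto (fun j => EED g s (n j) (m j)) atTop atTop ∧
      Tendsto (fun j => s.mu Sy.P ^ (n j)) atTop atTop ∧
      Tendsto (fun j => epsW g s (n j) (m j)) atTop (𝓝 0) := by
  have hr := hs.toRates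
  have hd : 0 < dSD g s := hs.sdata.d_pos
  obtain ⟨n, m, hn, hm, h1, h2⟩ := density_seq hr hd hB
  have hP : Tendsto (fun j => s.mu Sy.P ^ (n j)) atTop atTop :=
    (tendsto_pow_atTop_atTop_of_one_lt hr.mP_gt).comp hn
  have hQ : Tendsto (fun j => s.mu Sy.Q ^ (m j)) atTop atTop :=
    (tendsto_pow_atTop_atTop_of_one_lt hr.mQ_gt).comp hm
  have hB1 : Tendsto (fun j => BBD g s (n j) (m j)) atTop (𝓝 B0) := h1
  have h4 : Tendsto (fun j => e4D s (n j) (m j)) atTop (𝓝 0) := h2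
  have lP := hr.lP_pos
  have lQ := hr.lQ_pos
  have mP := hr.mP_gt
  have mQ := hr.mQ_gt
  have lP1 := hr.lP_lt
  have lQ1 := hr.lQ_lt
  refine ⟨n, m, hn, hm, h1, dp10_pow lP.le lP1 hn, ?_, h2, ?_, ?_, hP, ?_⟩
  · have h3 : Tendsto (fun j => dSD g s * s.mu Sy.Q ^ (m j)) atTop atTop :=
      hQ.const_mul_atTop hd
    have h4 := h3.inv_tendsto_atTop
    refine h4.congr fun j => ?_
    simp only [Pi.inv_apply, e2D, one_div]
  · have h3 := (dp10_pow lQ.le lQ1 hm).mul_const s.sS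
    rw [zero_mul] at h3
    exact h3
  · exact (hP.const_mul_atTop hd).atTop_mul_atTop₀ hQ
  · have key : ∀ k : Fin d, ∀ (i j : Sy), 0 ≤ s.al i k ∧ s.al i k < 1 ∧ 0 ≤ s.al i k / s.lam j ∧
        s.al i k / s.lam j < 1 ∧ 0 ≤ s.mu j * s.al i k ∧ s.mu j * s.al i k < 1 := by
      intro k i j
      obtain ⟨a1, a2, a3, a4⟩ := hs.strong i j k
      have l0 : 0 < s.lam j := by cases j <;> assumption
      have m0 : 1 < s.mu j := by cases j <;> assumption
      refine ⟨a1.le, by linarith, by positivity, ?_, by positivity, ?_⟩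
      · rw [div_lt_one l0]
        linarith
      · rw [mul_comm]
        linarith
    rw [tendsto_pi_nhds]
    intro i
    rw [tendsto_pi_nhds]
    intro k
    have kPP := key k Sy.P Sy.P
    have kQQ := key k Sy.Q Sy.Q
    have kQP := key k Sy.Q Sy.P
    have t1 := dp10_pow kPP.1 kPP.2.1 hn
    have t2 := dp10_pow kPP.2.2.1 kPP.2.2.2.1 hn
    have t3 := dp10_pow kPP.2.2.2.2.1 kPP.2.2.2.2.2 hn
    have u1 := dp10_pow kQQ.1 kQQ.2.1 hm
    have u2 := dp10_pow kQQ.2.2.1 kQQ.2.2.2.1 hm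
    have u3 := dp10_pow kQQ.2.2.2.2.1 kQQ.2.2.2.2.2 hm
    fin_cases i
    · exact t1
    · have h3 := hB1.mul t2
      rw [mul_zero] at h3
      refine h3.congr fun j => ?_
      show dSD g s * (s.lam Sy.P * s.mu Sy.P) ^ n j * (s.lam Sy.Q * s.mu Sy.Q) ^ m j *
        (s.al Sy.P k / s.lam Sy.P) ^ n j = dSD g s * s.mu Sy.P ^ n j * s.mu Sy.Q ^ m j *
          s.lam Sy.Q ^ m j * s.al Sy.P k ^ n j
      rw [div_pow, mul_pow, mul_pow]
      field_simp
    · have h3 := u1.mul_const (s.wS k)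
      rw [zero_mul] at h3
      exact h3
    · have h3 := hB1.mul u2
      rw [mul_zero] at h3
      refine h3.congr fun j => ?_
      show dSD g s * (s.lam Sy.P * s.mu Sy.P) ^ n j * (s.lam Sy.Q * s.mu Sy.Q) ^ m j *
        (s.al Sy.Q k / s.lam Sy.Q) ^ m j = dSD g s * s.mu Sy.P ^ n j * s.mu Sy.Q ^ m j *
          s.lam Sy.P ^ n j * s.al Sy.Q k ^ m j
      rw [div_pow, mul_pow, mul_pow]
      field_simp
    · have h3 := h4.mul u2
      rw [mul_zero] at h3
      refine h3.congr fun j => ?_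
      show s.mu Sy.P ^ n j * s.lam Sy.Q ^ m j * (s.al Sy.Q k / s.lam Sy.Q) ^ m j =
        s.mu Sy.P ^ n j * s.al Sy.Q k ^ m j
      rw [div_pow]
      field_simp
    · refine u3.congr fun j => ?_
      show (s.mu Sy.Q * s.al Sy.Q k) ^ m j = s.mu Sy.Q ^ m j * s.al Sy.Q k ^ m j
      rw [mul_pow]
    · refine t3.congr fun j => ?_
      show (s.mu Sy.P * s.al Sy.P k) ^ n j = s.mu Sy.P ^ n j * s.al Sy.P k ^ n j
      rw [mul_pow]

/-- all the parameters of the pass tend to `0` (from `exists_nmD`, coordinate by coordinate) -/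
theorem epsD_tendsto {g : En d → En d} {s : FrD d} {B0 : ℝ} {n m : ℕ → ℕ}
    (h1 : Tendsto (fun j => BBD g s (n j) (m j)) atTop (𝓝 B0))
    (h2 : Tendsto (fun j => e1D s (n j)) atTop (𝓝 0))
    (h3 : Tendsto (fun j => e2D g s (m j)) atTop (𝓝 0))
    (h4 : Tendsto (fun j => e4D s (n j) (m j)) atTop (𝓝 0))
    (h5 : Tendsto (fun j => xi0D s (m j)) atTop (𝓝 0))
    (h6 : Tendsto (fun j => EED g s (n j) (m j)) atTop atTop)
    (h7 : Tendsto (fun j => epsW g s (n j) (m j)) atTop (𝓝 0)) :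
    Tendsto (fun j => epsD g s B0 (n j) (m j)) atTop (𝓝 0) := by
  have h8 : Tendsto (fun j => (![e1D s (n j), e2D g s (m j), e4D s (n j) (m j),
      (EED g s (n j) (m j))⁻¹, xi0D s (m j), BBD g s (n j) (m j) - B0] : E6)) atTop (𝓝 0) := by
    rw [tendsto_pi_nhds]
    intro i
    fin_cases i
    · exact h2
    · exact h3
    · exact h4
    · exact h6.inv_tendsto_atTop
    · exact h5
    · have h9 := h1.sub_const B0
      rw [sub_self] at h9
      exact h9
  exact h8.prodMk_nhds h7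

end Pool.Agent.Lib.H37D
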