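import Pool.Agent.Lib.H37D.IDefs
import Pool.Agent.Lib.H37D.DP10

/-! # H37D, DI1c: the parameters of the passes (with sigma = E^(-1/m)) tend to 0 -/

open Set Filter Topology
open scoped ContDiff

namespace Pool.Agent.Lib.H37D

open Pool.Agent.Lib.H37N

variable {d : ℕ}

/-- the space of parameters `(σ, ε)` -/
abbrev ParD (d : ℕ) : Type := ℝ × EP d

noncomputable section

/-- the parameter of the pass with `n, ν` turns -/
def parD (m : ℕ) (g : En d → En d) (s : FrD d) (B0 : ℝ) (n ν : ℕ) : ParD d :=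
  ((EED g s n ν)⁻¹ ^ (1 / (m : ℝ)), epsD g s B0 n ν)

end

theorem EED_pos {g : En d → En d} {s : FrD d} (hs : IsFrD g s) (n ν : ℕ) : 0 < EED g s n ν := by
  have hr := hs.toRates
  have h1 : 0 < dSD g s := hs.sdata.d_pos
  have h2 : 0 < s.mu Sy.P := one_pos.trans hr.mP_gt
  have h3 : 0 < s.mu Sy.Q := one_pos.trans hr.mQ_gt
  unfold EED
  positivity

theorem parD_pos (m : ℕ) {g : En d → En d} {s : FrD d} (hs : IsFrD g s) (B0 : ℝ) (n ν : ℕ) :
    0 < (parD m g s B0 n ν).1 := by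
  show 0 < (EED g s n ν)⁻¹ ^ (1 / (m : ℝ))
  exact Real.rpow_pos_of_pos (inv_pos.2 (EED_pos hs n ν)) _

theorem parD_pow {m : ℕ} (hm : 1 ≤ m) {g : En d → En d} {s : FrD d} (hs : IsFrD g s) (B0 : ℝ) (n ν : ℕ) :
    (parD m g s B0 n ν).1 ^ m = (EED g s n ν)⁻¹ := by
  show ((EED g s n ν)⁻¹ ^ (1 / (m : ℝ))) ^ m = (EED g s n ν)⁻¹
  rw [one_div]
  exact Real.rpow_inv_natCast_pow (inv_pos.2 (EED_pos hs n ν)).le (by omega)

theorem parD_tendsto {m : ℕ} (hm : 1 ≤ m) {g : En d → En d} {s : FrD d} (hs : IsFrD g s) {B0 : ℝ}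
    (hB : 0 < B0) :
    ∃ n ν : ℕ → ℕ, Tendsto n atTop atTop ∧ Tendsto ν atTop atTop ∧
      Tendsto (fun j => parD m g s B0 (n j) (ν j)) atTop (𝓝 0) ∧
      Tendsto (fun j => (s.mu Sy.P ^ n j)⁻¹) atTop (𝓝 0) := by
  obtain ⟨n, ν, hn, hν, h1, h2, h3, h4, h5, h6, h7, h8⟩ := exists_nmD hs hB
  have hEi : Tendsto (fun j => (EED g s (n j) (ν j))⁻¹) atTop (𝓝 0) := tendsto_inv_atTop_zero.comp h6
  have hm0 : 0 < 1 / (m : ℝ) := by
    have : (0 : ℝ) < m := by exact_mod_cast hm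
    positivity
  have hr : Tendsto (fun x : ℝ => x ^ (1 / (m : ℝ))) (𝓝 0) (𝓝 0) := by
    have h5 : ContinuousAt (fun x : ℝ => x ^ (1 / (m : ℝ))) 0 :=
      Real.continuousAt_rpow_const 0 _ (Or.inr hm0.le)
    have h6 := h5.tendsto
    simp only [Real.zero_rpow hm0.ne'] at h6
    exact h6
  refine ⟨n, ν, hn, hν, ?_, tendsto_inv_atTop_zero.comp h7⟩
  exact (hr.comp hEi).prodMk_nhds (epsD_tendsto h1 h2 h3 h4 h5 h6 h8)

end Pool.Agent.Lib.H37D
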