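import Pool.Agent.Lib.H37D.DZ20
import Pool.Agent.Lib.H37N.T10b

/-! # H37D, chunk DI2b (S): the function `U₀` (port of H37N/I2b.lean) -/

open Set Filter Topology
open scoped ContDiff

namespace Pool.Agent.Lib.H37D

open Pool.Agent.Lib.H37N

variable {d : ℕ}

/-- PROOF. `inverse_param` (P = EP d, p₀ = 0, t₀ = 0) for `F(ε,U) = etaFD f b ε ((a,U),w1)`, smooth, `F(0,U) = U`. -/
theorem exists_U0D {f : PFD d} (hf : SmPFD f) (a b : ℝ) (w1 : Wd d) :
    ∃ U0 : EP d → ℝ, ContDiff ℝ ∞ U0 ∧ U0 0 = 0 ∧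
      ∀ᶠ ε : EP d in 𝓝 0, etaFD f b ε ((a, U0 ε), w1) = 0 := by
  set F : EP d × ℝ → ℝ := fun q => etaFD f b q.1 ((a, q.2), w1) with hF
  have hFs : ContDiff ℝ ∞ F :=
    (contDiff_etaFD hf b).comp (contDiff_fst.prodMk ((contDiff_const.prodMk contDiff_snd).prodMk contDiff_const))
  have hF0 : ∀ t : ℝ, F (0, t) = t := fun t => etaFD_zero hf b _
  have hd : deriv (fun t => F (0, t)) 0 ≠ 0 := by
    have h2 : (fun t : ℝ => F (0, t)) = fun t => t := funext hF0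
    rw [h2]
    simp
  obtain ⟨θ, hθ, hθ0, -, hθ2⟩ := inverse_param (P := EP d) (F := F) (p₀ := 0) (t₀ := 0)
    (Eventually.of_forall fun q => hFs.contDiffAt) hd
  rw [hF0] at hθ0 hθ2
  refine ⟨fun e => θ (e, 0), hθ.comp (contDiff_id.prodMk contDiff_const), hθ0, ?_⟩
  have h4 : Tendsto (fun e : EP d => (e, (0 : ℝ))) (𝓝 0) (𝓝 ((0 : EP d), 0)) := by
    have h5 : ContinuousAt (fun e : EP d => (e, (0 : ℝ))) 0 := by fun_prop
    exact h5.tendsto
  exact h4.eventually hθ2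

end Pool.Agent.Lib.H37D
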