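import Pool.Agent.Lib.H37D.Defs
import Pool.Agent.Lib.H37N.T10b
import Pool.Agent.Lib.H37N.I2a

/-! # H37D, chunk DI2c (M): the functions N and Mh (port of H37N/I2c.lean) -/

open Set Filter Topology
open scoped ContDiff

namespace Pool.Agent.Lib.H37D

open Pool.Agent.Lib.H37N

variable {d : ℕ}

/-- PROOF. `inverse_param` for `F((x0,w0),t) = XX((x0,t),w0)` at `(0,0)`: `θ` smooth, `θ((x0,w0), XX((x0,t),w0)) = t`
near `(0,0)`. `N((x0,w0),X) = YY((x0,θ),w0) - YY((0,θ),0)` with `θ = θ((x0,w0),X)`; `N(0,X) = 0`.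
`divdiff` for `R(p,y) = YY((y.1,p.2),y.2) - N(p.1, XX((y.1,p.2),y.2))` (`p = ((x0,w0),t)`, `y = (x,w)`), `β p = p.1`. -/
theorem exists_NMD {XX YY : En d → ℝ} (hX : ContDiff ℝ ∞ XX) (hY : ContDiff ℝ ∞ YY) {al gm : ℝ}
    (hXt : HasDerivAt (fun t : ℝ => XX ((0, t), 0)) al 0) (hal : al ≠ 0)
    (hYx : HasDerivAt (fun x : ℝ => YY ((x, 0), 0)) gm 0) :
    ∃ (N : (ℝ × Wd d) × ℝ → ℝ) (Mh : ((ℝ × Wd d) × ℝ) × (ℝ × Wd d) × ℝ → ℝ), ContDiff ℝ ∞ N ∧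
      (∀ X, N (0, X) = 0) ∧ ContDiff ℝ ∞ Mh ∧ (∀ z : ℝ, Mh (0, (z, 0), 0) = gm * z) ∧
      ∀ᶠ p : (ℝ × Wd d) × ℝ in 𝓝 0, ∀ (v : ℝ × Wd d) (s : ℝ),
        YY ((p.1.1 + s * v.1, p.2), p.1.2 + s • v.2) -
            N (p.1, XX ((p.1.1 + s * v.1, p.2), p.1.2 + s • v.2)) =
          YY ((0, p.2), 0) + s * Mh (p, v, s) := by
  have hF : ContDiff ℝ ∞ (fun q : (ℝ × Wd d) × ℝ => XX ((q.1.1, q.2), q.1.2)) :=
    hX.comp (((contDiff_fst.comp contDiff_fst).prodMk contDiff_snd).prodMk (contDiff_snd.comp contDiff_fst))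
  obtain ⟨θ, hθ, -, h1, -⟩ := inverse_param (P := ℝ × Wd d) (F := fun q : (ℝ × Wd d) × ℝ => XX ((q.1.1, q.2), q.1.2))
    (p₀ := (0 : ℝ × Wd d)) (t₀ := (0 : ℝ))
    (Eventually.of_forall fun q => hF.contDiffAt) (by
      have : deriv (fun t : ℝ => XX (((0 : ℝ × Wd d).1, t), (0 : ℝ × Wd d).2)) 0 = al := hXt.deriv
      rw [this]; exact hal)
  have hN : ContDiff ℝ ∞ (fun r : (ℝ × Wd d) × ℝ => YY ((r.1.1, θ r), r.1.2) - YY ((0, θ r), 0)) :=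
    (hY.comp (((contDiff_fst.comp contDiff_fst).prodMk hθ).prodMk (contDiff_snd.comp contDiff_fst))).sub
      (hY.comp ((contDiff_const.prodMk hθ).prodMk contDiff_const))
  have hR : ContDiff ℝ ∞ (fun q : ((ℝ × Wd d) × ℝ) × (ℝ × Wd d) => YY ((q.2.1, q.1.2), q.2.2) -
      (fun r : (ℝ × Wd d) × ℝ => YY ((r.1.1, θ r), r.1.2) - YY ((0, θ r), 0)) (q.1.1, XX ((q.2.1, q.1.2), q.2.2))) := by
    have e1 : ContDiff ℝ ∞ (fun q : ((ℝ × Wd d) × ℝ) × (ℝ × Wd d) => (((q.2.1, q.1.2), q.2.2) : En d)) :=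
      ((contDiff_fst.comp contDiff_snd).prodMk (contDiff_snd.comp contDiff_fst)).prodMk
        (contDiff_snd.comp contDiff_snd)
    exact (hY.comp e1).sub (hN.comp ((contDiff_fst.comp contDiff_fst).prodMk (hX.comp e1)))
  obtain ⟨D, hD, hD1, hD2⟩ := divdiff (P := (ℝ × Wd d) × ℝ) (E := ℝ × Wd d) hR
    (β := fun p : (ℝ × Wd d) × ℝ => p.1) contDiff_fst
  refine ⟨fun r : (ℝ × Wd d) × ℝ => YY ((r.1.1, θ r), r.1.2) - YY ((0, θ r), 0), D, hN, ?_, hD, ?_, ?_⟩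
  · intro X
    simp
  · intro z
    rw [hD2]
    have h2 : ContDiff ℝ ∞ (fun y : ℝ × Wd d => YY ((y.1, 0), y.2)) :=
      hY.comp ((contDiff_fst.prodMk contDiff_const).prodMk contDiff_snd)
    have h3 : (fun y : ℝ × Wd d => YY ((y.1, (0 : (ℝ × Wd d) × ℝ).2), y.2) -
        (fun r : (ℝ × Wd d) × ℝ => YY ((r.1.1, θ r), r.1.2) - YY ((0, θ r), 0))
          ((0 : (ℝ × Wd d) × ℝ).1, XX ((y.1, (0 : (ℝ × Wd d) × ℝ).2), y.2))) =
        fun y : ℝ × Wd d => YY ((y.1, 0), y.2) := by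
      funext y
      simp
    have h4 := (h2.differentiable (by simp) (0 : ℝ × Wd d)).hasFDerivAt
    have h5 : HasDerivAt (fun t : ℝ => ((t * z, 0) : ℝ × Wd d)) (z, 0) 0 := by
      have := (hasDerivAt_id (0 : ℝ)).mul_const z
      rw [one_mul] at this
      exact this.prodMk (hasDerivAt_const _ _)
    have h4' : HasFDerivAt (fun y : ℝ × Wd d => YY ((y.1, 0), y.2))
        (fderiv ℝ (fun y : ℝ × Wd d => YY ((y.1, 0), y.2)) 0) ((0 : ℝ) * z, 0) := by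
      rw [zero_mul]; exact h4
    have h6 := HasFDerivAt.comp_hasDerivAt (0 : ℝ) (f := fun t : ℝ => ((t * z, 0) : ℝ × Wd d))
      (l := fun y : ℝ × Wd d => YY ((y.1, 0), y.2)) h4' h5
    have h7 : HasDerivAt (fun t : ℝ => YY ((t * z, 0), 0)) (gm * z) 0 := by
      have h8 : HasDerivAt (fun x : ℝ => YY ((x, 0), 0)) gm ((0 : ℝ) * z) := by rw [zero_mul]; exact hYx
      have h9 := (hasDerivAt_id (0 : ℝ)).mul_const z
      rw [one_mul] at h9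
      exact h8.comp (0 : ℝ) h9
    exact (congrArg (fun F => fderiv ℝ F (0 : ℝ × Wd d) (z, 0)) h3).trans (h6.unique h7)
  · filter_upwards [h1] with p hp v s
    have h3 := hD1 p v s
    simp only [smul_eq_mul, Prod.fst_add, Prod.snd_add, Prod.smul_fst, Prod.smul_snd] at h3 hp ⊢
    rw [h3]
    have hp' : θ (p.1, XX ((p.1.1, p.2), p.1.2)) = p.2 := hp
    rw [hp']
    ring

end Pool.Agent.Lib.H37D
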