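import Pool.Agent.Lib.H37D.Defs
import Pool.Agent.Lib.H37N.I2d

/-! # H37D, chunk DI2d (M): normal forms of the maps T along the curve (port of H37N/I2d.lean) -/

open Set Filter Topology Asymptotics
open scoped ContDiff

namespace Pool.Agent.Lib.H37D

open Pool.Agent.Lib.H37N

variable {d : ℕ}

theorem di2d_lim : Tendsto (fun t : ℝ => (((0, t), 0) : En d)) (𝓝 0) (𝓝 0) := by
  have : Continuous (fun t : ℝ => (((0, t), 0) : En d)) := by fun_prop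
  exact this.tendsto' 0 0 rfl

theorem di2d_t {g : En d → En d} {L : En d →L[ℝ] En d} (hd : HasFDerivAt g L 0) :
    HasDerivAt (fun t : ℝ => g ((0, t), 0)) (L ((0, 1), 0)) 0 := by
  have hd2 : HasDerivAt (fun t : ℝ => (((0, t), 0) : En d)) ((0, 1), 0) 0 :=
    ((hasDerivAt_const _ _).prodMk (hasDerivAt_id _)).prodMk (hasDerivAt_const _ _)
  exact HasFDerivAt.comp_hasDerivAt (0 : ℝ) (f := fun t : ℝ => (((0, t), 0) : En d)) (l := g) hd hd2

theorem di2d_x {g : En d → En d} {L : En d →L[ℝ] En d} (hd : HasFDerivAt g L 0) :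
    HasDerivAt (fun t : ℝ => g ((t, 0), 0)) (L ((1, 0), 0)) 0 := by
  have hd2 : HasDerivAt (fun t : ℝ => (((t, 0), 0) : En d)) ((1, 0), 0) 0 :=
    ((hasDerivAt_id _).prodMk (hasDerivAt_const _ _)).prodMk (hasDerivAt_const _ _)
  exact HasFDerivAt.comp_hasDerivAt (0 : ℝ) (f := fun t : ℝ => (((t, 0), 0) : En d)) (l := g) hd hd2

/-- first place -/
theorem exists_normal1D {T : En d → En d} (hT : ∀ᶠ v in 𝓝 (0 : En d), ContDiffAt ℝ ∞ T v) {a al ka : ℝ}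
    {w : Wd d} {m : ℕ} (h0 : T 0 = ((a, 0), w)) (hal : (fderiv ℝ T 0 ((0, 1), 0)).1.1 = al)
    (hka : (fun t : ℝ => (T ((0, t), 0)).1.2 - ka * t ^ (m + 1)) =O[𝓝 0] fun t : ℝ => t ^ (m + 2)) :
    ∃ (Ah Yh : ℝ → ℝ) (wh : ℝ → Wd d), ContDiff ℝ ∞ Ah ∧ ContDiff ℝ ∞ Yh ∧ ContDiff ℝ ∞ wh ∧ Ah 0 = al ∧ Yh 0 = ka ∧
      ∀ᶠ t : ℝ in 𝓝 0, T ((0, t), 0) = ((a + t * Ah t, t ^ (m + 1) * Yh t), w + t • wh t) := by
  obtain ⟨g, hg, hgT⟩ := localise_at hT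
  have hev := (di2d_lim (d := d)).eventually hgT
  have hc : ContDiff ℝ ∞ (fun t : ℝ => g ((0, t), 0)) :=
    hg.comp ((contDiff_const.prodMk contDiff_id).prodMk contDiff_const)
  have hc2 : ContDiff ℝ ∞ (fun q : ℝ × ℝ => g ((0, q.2), 0)) :=
    hg.comp ((contDiff_const.prodMk contDiff_snd).prodMk contDiff_const)
  obtain ⟨A, hA, hA1, hA2⟩ := hadamard1 (P := ℝ) (W := ℝ) (F := fun q => (g ((0, q.2), 0)).1.1)
    (contDiff_fst.comp (contDiff_fst.comp hc2))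
  obtain ⟨B, hB, hB1, -⟩ := hadamard1 (P := ℝ) (W := Wd d) (F := fun q => (g ((0, q.2), 0)).2)
    (contDiff_snd.comp hc2)
  obtain ⟨Yh, hY, hY0, hY1⟩ := exists_hat (f := fun t => (g ((0, t), 0)).1.2) (ka := ka) (m := m)
    (contDiff_snd.comp (contDiff_fst.comp hc)) (by
      refine (hka.congr' ?_ EventuallyEq.rfl)
      filter_upwards [hev] with t ht
      rw [ht])
  have hg0 : g 0 = ((a, 0), w) := by rw [hgT.self_of_nhds, h0]
  have hg00 : g ((0, 0), 0) = ((a, 0), w) := hg0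
  refine ⟨fun t => A (0, t), Yh, fun t => B (0, t), hA.comp (contDiff_const.prodMk contDiff_id), hY,
    hB.comp (contDiff_const.prodMk contDiff_id), ?_, hY0, ?_⟩
  · show A (0, 0) = al
    rw [hA2]
    have hd : HasFDerivAt g (fderiv ℝ T 0) 0 := by
      have h1 := (hg.differentiable (by simp) 0).hasFDerivAt
      rwa [hgT.fderiv_eq] at h1
    have hd4 : HasDerivAt (fun t : ℝ => (g ((0, t), 0)).1.1) (fderiv ℝ T 0 ((0, 1), 0)).1.1 0 := (di2d_t hd).fst.fst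
    rw [hd4.deriv, hal]
  · filter_upwards [hev] with t ht
    have h1 := hA1 0 t
    have h2 := hY1 t
    have h3 := hB1 0 t
    simp only [smul_eq_mul] at h1
    rw [hg00] at h1 h3
    rw [← ht]
    exact Prod.ext (Prod.ext h1 h2) h3

/-- second place -/
theorem exists_normal2D {T : En d → En d} (hT : ∀ᶠ v in 𝓝 (0 : En d), ContDiffAt ℝ ∞ T v) {a al gm ka : ℝ}
    {w : Wd d} {m : ℕ} (h0 : T 0 = ((a, 0), w)) (hal : (fderiv ℝ T 0 ((0, 1), 0)).1.1 = al)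
    (hgm : (fderiv ℝ T 0 ((1, 0), 0)).1.2 = gm)
    (hka : (fun t : ℝ => (T ((0, t), 0)).1.2 - ka * t ^ (m + 1)) =O[𝓝 0] fun t : ℝ => t ^ (m + 2)) :
    ∃ (XX YY : En d → ℝ) (WW : En d → Wd d) (Yk : ℝ → ℝ), ContDiff ℝ ∞ XX ∧ ContDiff ℝ ∞ YY ∧ ContDiff ℝ ∞ WW ∧
      ContDiff ℝ ∞ Yk ∧ XX 0 = a ∧ WW 0 = w ∧
      HasDerivAt (fun t : ℝ => XX ((0, t), 0)) al 0 ∧ HasDerivAt (fun x : ℝ => YY ((x, 0), 0)) gm 0 ∧ Yk 0 = ka ∧
      (∀ t, YY ((0, t), 0) = t ^ (m + 1) * Yk t) ∧ ∀ᶠ v : En d in 𝓝 0, T v = ((XX v, YY v), WW v) := by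
  obtain ⟨g, hg, hgT⟩ := localise_at hT
  have hev := (di2d_lim (d := d)).eventually hgT
  have hc : ContDiff ℝ ∞ (fun t : ℝ => g ((0, t), 0)) :=
    hg.comp ((contDiff_const.prodMk contDiff_id).prodMk contDiff_const)
  obtain ⟨Yk, hY, hY0, hY1⟩ := exists_hat (f := fun t => (g ((0, t), 0)).1.2) (ka := ka) (m := m)
    (contDiff_snd.comp (contDiff_fst.comp hc)) (by
      refine (hka.congr' ?_ EventuallyEq.rfl)
      filter_upwards [hev] with t ht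
      rw [ht])
  have hg0 : g 0 = ((a, 0), w) := by rw [hgT.self_of_nhds, h0]
  have hd : HasFDerivAt g (fderiv ℝ T 0) 0 := by
    have h1 := (hg.differentiable (by simp) 0).hasFDerivAt
    rwa [hgT.fderiv_eq] at h1
  refine ⟨fun v => (g v).1.1, fun v => (g v).1.2, fun v => (g v).2, Yk, contDiff_fst.comp (contDiff_fst.comp hg),
    contDiff_snd.comp (contDiff_fst.comp hg), contDiff_snd.comp hg, hY, ?_, ?_, ?_, ?_, hY0, hY1, ?_⟩
  · show (g 0).1.1 = a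
    rw [hg0]
  · show (g 0).2 = w
    rw [hg0]
  · rw [← hal]
    exact (di2d_t hd).fst.fst
  · rw [← hgm]
    exact (di2d_x hd).fst.snd
  · filter_upwards [hgT] with v hv
    rw [hv]

end Pool.Agent.Lib.H37D
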