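import Pool.Agent.Lib.H37D.PDefs
import Pool.Agent.Lib.H37N.T2
import Pool.Agent.Lib.H37N.T3
import Pool.Agent.Lib.H37N.T10b
import Pool.Agent.Lib.H37P.P08

/-!
# H37D DP08 (M): the functions of the pass (port of H37N/I0a.lean and H37P/P08.lean, with the parameter `w`)

`exists_passFnD`. `localise_at`: `T : En d → En d` smooth, `T = S` near `0`. `F((σ,w), τ) = (T ((σ,τ),w)).1.2`, `inverse_param` (T10b) at `((0,0),0)`
(`deriv = dS ≠ 0`): `θ`, `Th (σ,w) = θ((σ,w),0)` (value `0`): `(T ((σ, Th(σ,w)), w)).1.2 = 0` near `0`, `Th (0,0) = 0`.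
`hadamard1` with the parameter `p = (σ,w) : ℝ × Wd d` for `(p,t) ↦ (T ((σ, Th p + t), w)).1.2 = 0 + t G(p,t)`, `G(0,0) = dS`, `W ((σ,t),w) = G((σ,w),t)/dS`.
`hadamard1` for `(T ((σ, Th p + t), w)).1.1 = H(σ,w) + t Y2`; `H(σ,w) = (T ((σ, Th (σ,w)), w)).1.1`: `hadamard1` in `σ` (parameter `w`): `H(σ,w) = H(0,w) + σ Y1(σ,w)`,
`Y1(0,0) = ∂_σ H(0,0) = ∂_σ T_1 + ∂_t T_1 ∂_σ Th`, and `∂_σ Th (0,0) = - ∂_σ T_2/dS` (differentiate `T_2((σ,Th(σ,0)),0) = 0`), so `Y1(0,0) = pjac S 0 / dS`;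
`hadamard` (T2, with a trivial parameter space, e.g. `P = ℝ` not used) for `w ↦ H(0,w) = sS + Y3(w) w`.
`K(v) = (T ((σ, Th(σ,w) + t), w)).2`, `v = ((σ,t),w)`: `hadamard` : `K(v) = wS + G(v) v`, `Z1(v) = G(v) ((1,0),0)`, `Z2(v) = G(v) ((0,1),0)`, `Z3(v) = (G(v)).comp (inr)`.
All identities hold near `0`; `r` = radius of a ball.
-/

open Set Filter Topology Asymptotics
open scoped ContDiff

namespace Pool.Agent.Lib.H37D

open Pool.Agent.Lib.H37N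

variable {d : ℕ}

theorem exists_passFnD {S : En d → En d} {sS dS : ℝ} {wS : Wd d}
    (hS : ∀ᶠ v in 𝓝 (0 : En d), ContDiffAt ℝ ∞ S v) (h0 : S 0 = ((sS, 0), wS))
    (hd : (fderiv ℝ S 0 ((0, 1), 0)).1.2 = dS) (hd0 : dS ≠ 0) :
    ∃ f : PFD d, SmPFD f ∧ f.Y1 (0, 0) = pjac S 0 / dS ∧
      (∀ᶠ v in 𝓝 (0 : En d), (S ((v.1.1, f.Th (v.1.1, v.2) + v.1.2), v.2)).1.2 = dS * v.1.2 * f.W v) ∧
      (∀ᶠ v in 𝓝 (0 : En d), (S ((v.1.1, f.Th (v.1.1, v.2) + v.1.2), v.2)).1.1 =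
        sS + v.1.1 * f.Y1 (v.1.1, v.2) + v.1.2 * f.Y2 v + f.Y3 v.2 v.2) ∧
      (∀ᶠ v in 𝓝 (0 : En d), (S ((v.1.1, f.Th (v.1.1, v.2) + v.1.2), v.2)).2 =
        wS + v.1.1 • f.Z1 v + v.1.2 • f.Z2 v + f.Z3 v v.2) := by
  obtain ⟨T, hT, hTS⟩ := localise_at hS
  have hT0 : T 0 = ((sS, 0), wS) := by rw [hTS.eq_of_nhds, h0]
  have hTf : fderiv ℝ T 0 = fderiv ℝ S 0 := hTS.fderiv_eq
  have hs1 : ContDiff ℝ ∞ fun v : En d => (T v).1.1 := contDiff_fst.comp (contDiff_fst.comp hT)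
  have hs2 : ContDiff ℝ ∞ fun v : En d => (T v).1.2 := contDiff_snd.comp (contDiff_fst.comp hT)
  have hs3 : ContDiff ℝ ∞ fun v : En d => (T v).2 := contDiff_snd.comp hT
  have hTL : HasFDerivAt T (fderiv ℝ S 0) (0 : En d) := by
    rw [← hTf]
    exact (hT.differentiable (by simp)).differentiableAt.hasFDerivAt
  have hder : HasDerivAt (fun t : ℝ => T ((0, t), 0)) (fderiv ℝ S 0 ((0, 1), 0)) 0 := by
    have h1 : HasDerivAt (fun t : ℝ => (((0 : ℝ), t), (0 : Wd d))) (((0 : ℝ), (1 : ℝ)), (0 : Wd d)) 0 :=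
      ((hasDerivAt_const (0 : ℝ) (0 : ℝ)).prodMk (hasDerivAt_id (0 : ℝ))).prodMk
        (hasDerivAt_const (0 : ℝ) (0 : Wd d))
    have h2 : HasFDerivAt T (fderiv ℝ S 0) ((fun t : ℝ => (((0 : ℝ), t), (0 : Wd d))) 0) := hTL
    exact h2.comp_hasDerivAt (0 : ℝ) h1
  have hder2 : HasDerivAt (fun t : ℝ => (T ((0, t), 0)).1.2) dS 0 := by
    rw [← hd]
    exact ((ContinuousLinearMap.snd ℝ ℝ ℝ).comp
      (ContinuousLinearMap.fst ℝ Pt (Wd d))).hasFDerivAt.comp_hasDerivAt (0 : ℝ) hder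
  have hre : ContDiff ℝ ∞ fun q : (ℝ × Wd d) × ℝ => (((q.1.1, q.2), q.1.2) : En d) :=
    ((contDiff_fst.comp contDiff_fst).prodMk contDiff_snd).prodMk (contDiff_snd.comp contDiff_fst)
  obtain ⟨θ, hθ, hθ0, -, hθ1⟩ := inverse_param (P := ℝ × Wd d)
    (F := fun q : (ℝ × Wd d) × ℝ => (T ((q.1.1, q.2), q.1.2)).1.2) (p₀ := (0, 0))
    (t₀ := 0) (Eventually.of_forall fun q => (hs2.comp hre).contDiffAt) (by
      show deriv (fun t : ℝ => (T ((0, t), 0)).1.2) 0 ≠ 0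
      rw [hder2.deriv]
      exact hd0)
  have hT0' : T (((0 : ℝ), (0 : ℝ)), (0 : Wd d)) = ((sS, 0), wS) := hT0
  have hF0 : (T (((0 : ℝ), (0 : ℝ)), (0 : Wd d))).1.2 = 0 := by
    rw [hT0']
  simp only [hF0] at hθ0 hθ1
  -- the function Th
  set Th : ℝ × Wd d → ℝ := fun p => θ (p, 0) with hTh
  have hThs : ContDiff ℝ ∞ Th := hθ.comp (contDiff_id.prodMk contDiff_const)
  have hTh0 : Th (0, 0) = 0 := hθ0
  have hTh1 : ∀ᶠ p : ℝ × Wd d in 𝓝 (0, 0), (T ((p.1, Th p), p.2)).1.2 = 0 := by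
    have h1 : Tendsto (fun p : ℝ × Wd d => (p, (0 : ℝ))) (𝓝 (0, 0)) (𝓝 ((0, 0), (0 : ℝ))) :=
      (Continuous.prodMk continuous_id continuous_const).tendsto' _ _ rfl
    exact h1.eventually hθ1
  -- the functions W and Y2
  have hcur : ContDiff ℝ ∞ fun q : (ℝ × Wd d) × ℝ => (((q.1.1, Th q.1 + q.2), q.1.2) : En d) :=
    ((contDiff_fst.comp contDiff_fst).prodMk ((hThs.comp contDiff_fst).add contDiff_snd)).prodMk
      (contDiff_snd.comp contDiff_fst)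
  obtain ⟨G2, hG2, hG2e, hG20⟩ := hadamard1 (P := ℝ × Wd d)
    (F := fun q : (ℝ × Wd d) × ℝ => (T ((q.1.1, Th q.1 + q.2), q.1.2)).1.2) (hs2.comp hcur)
  obtain ⟨Y2, hY2, hY2e, -⟩ := hadamard1 (P := ℝ × Wd d)
    (F := fun q : (ℝ × Wd d) × ℝ => (T ((q.1.1, Th q.1 + q.2), q.1.2)).1.1) (hs1.comp hcur)
  -- the function Y1
  have hsw : ContDiff ℝ ∞ fun q : Wd d × ℝ => (q.2, q.1) := contDiff_snd.prodMk contDiff_fst
  have hcur' : ContDiff ℝ ∞ fun q : Wd d × ℝ => (((q.2, Th (q.2, q.1)), q.1) : En d) :=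
    (contDiff_snd.prodMk (hThs.comp hsw)).prodMk contDiff_fst
  obtain ⟨G0, hG0, hG0e, hG00⟩ := hadamard1 (P := Wd d)
    (F := fun q : Wd d × ℝ => (T ((q.2, Th (q.2, q.1)), q.1)).1.1) (hs1.comp hcur')
  -- the function Y3
  have hcur3 : ContDiff ℝ ∞ fun q : ℝ × Wd d => ((((0 : ℝ), Th ((0 : ℝ), q.2)), q.2) : En d) :=
    (contDiff_const.prodMk (hThs.comp (contDiff_const.prodMk contDiff_snd))).prodMk contDiff_snd
  obtain ⟨G3, hG3, hG3e, -⟩ := hadamard (P := ℝ)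
    (F := fun q : ℝ × Wd d => (T (((0 : ℝ), Th ((0 : ℝ), q.2)), q.2)).1.1) (hs1.comp hcur3)
  -- the functions Z
  have hpi : ContDiff ℝ ∞ fun v : En d => (v.1.1, v.2) :=
    (contDiff_fst.comp contDiff_fst).prodMk contDiff_snd
  have hcur4 : ContDiff ℝ ∞ fun v : En d => (((v.1.1, Th (v.1.1, v.2) + v.1.2), v.2) : En d) :=
    ((contDiff_fst.comp contDiff_fst).prodMk
      ((hThs.comp hpi).add (contDiff_snd.comp contDiff_fst))).prodMk contDiff_snd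
  obtain ⟨G4, hG4, hG4e, -⟩ := hadamard (P := ℝ)
    (F := fun q : ℝ × En d => (T ((q.2.1.1, Th (q.2.1.1, q.2.2) + q.2.1.2), q.2.2)).2)
    ((hs3.comp hcur4).comp contDiff_snd)
  -- derivative of Th
  have hTh' : ContDiff ℝ ∞ fun σ : ℝ => Th (σ, 0) := hThs.comp (contDiff_id.prodMk contDiff_const)
  set θ' : ℝ := deriv (fun σ : ℝ => Th (σ, 0)) 0 with hθ'
  have hThd : HasDerivAt (fun σ : ℝ => Th (σ, 0)) θ' 0 :=
    ((hTh'.differentiable (by simp)).differentiableAt).hasDerivAt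
  have hcd : HasDerivAt (fun σ : ℝ => T ((σ, Th (σ, 0)), 0)) (fderiv ℝ S 0 ((1, θ'), 0)) 0 := by
    have h1 : HasDerivAt (fun σ : ℝ => ((σ, Th (σ, 0)), (0 : Wd d))) (((1 : ℝ), θ'), (0 : Wd d)) 0 :=
      ((hasDerivAt_id (0 : ℝ)).prodMk hThd).prodMk (hasDerivAt_const (0 : ℝ) (0 : Wd d))
    have h2 : HasFDerivAt T (fderiv ℝ S 0) ((fun σ : ℝ => ((σ, Th (σ, 0)), (0 : Wd d))) 0) := by
      show HasFDerivAt T (fderiv ℝ S 0) (((0 : ℝ), Th (0, 0)), (0 : Wd d))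
      rw [hTh0]
      exact hTL
    exact h2.comp_hasDerivAt (0 : ℝ) h1
  have hlin : fderiv ℝ S 0 ((1, θ'), 0) =
      fderiv ℝ S 0 ((1, 0), 0) + θ' • fderiv ℝ S 0 ((0, 1), 0) := by
    rw [← map_smul, ← map_add]
    congr 1
    simp
  have hd1 : HasDerivAt (fun σ : ℝ => (T ((σ, Th (σ, 0)), 0)).1.1)
      (fderiv ℝ S 0 ((1, θ'), 0)).1.1 0 :=
    ((ContinuousLinearMap.fst ℝ ℝ ℝ).comp
      (ContinuousLinearMap.fst ℝ Pt (Wd d))).hasFDerivAt.comp_hasDerivAt (0 : ℝ) hcd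
  have hd2 : HasDerivAt (fun σ : ℝ => (T ((σ, Th (σ, 0)), 0)).1.2)
      (fderiv ℝ S 0 ((1, θ'), 0)).1.2 0 :=
    ((ContinuousLinearMap.snd ℝ ℝ ℝ).comp
      (ContinuousLinearMap.fst ℝ Pt (Wd d))).hasFDerivAt.comp_hasDerivAt (0 : ℝ) hcd
  have hzero : (fderiv ℝ S 0 ((1, θ'), 0)).1.2 = 0 := by
    have h0' : Tendsto (fun σ : ℝ => (σ, (0 : Wd d))) (𝓝 0) (𝓝 (0, 0)) :=
      (Continuous.prodMk continuous_id continuous_const).tendsto' _ _ rfl
    have h1 : (fun σ : ℝ => (T ((σ, Th (σ, 0)), 0)).1.2) =ᶠ[𝓝 0] fun _ => (0 : ℝ) :=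
      h0'.eventually hTh1
    have h2 := h1.deriv_eq
    rw [hd2.deriv, deriv_const] at h2
    exact h2
  have hSev : ∀ᶠ v : En d in 𝓝 0, T ((v.1.1, Th (v.1.1, v.2) + v.1.2), v.2) =
      S ((v.1.1, Th (v.1.1, v.2) + v.1.2), v.2) := by
    have h1 : Tendsto (fun v : En d => (((v.1.1, Th (v.1.1, v.2) + v.1.2), v.2) : En d)) (𝓝 0)
        (𝓝 0) := by
      refine hcur4.continuous.tendsto' _ _ ?_
      show ((((0 : ℝ), Th (0, 0) + 0), (0 : Wd d)) : En d) = 0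
      rw [hTh0, add_zero]
      rfl
    exact h1.eventually hTS
  have hap : ContDiff ℝ ∞ fun v : En d => (((v.1.1, v.2), v.1.2) : (ℝ × Wd d) × ℝ) :=
    hpi.prodMk (contDiff_snd.comp contDiff_fst)
  have hG4' : ContDiff ℝ ∞ fun v : En d => G4 (0, v) := hG4.comp (contDiff_const.prodMk contDiff_id)
  refine ⟨{ Th := Th
            W := fun v => G2 ((v.1.1, v.2), v.1.2) / dS
            Y1 := fun p => G0 (p.2, p.1)
            Y2 := fun v => Y2 ((v.1.1, v.2), v.1.2)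
            Y3 := fun w => G3 (0, w)
            Z1 := fun v => G4 (0, v) ((1, 0), 0)
            Z2 := fun v => G4 (0, v) ((0, 1), 0)
            Z3 := fun v => (G4 (0, v)).comp (ContinuousLinearMap.inr ℝ Pt (Wd d)) }, ?_, ?_, ?_, ?_, ?_⟩
  · refine { smTh := hThs, smW := ?_, smY1 := ?_, smY2 := ?_, smY3 := ?_, smZ1 := ?_, smZ2 := ?_,
             smZ3 := ?_, Th0 := hTh0, W0 := ?_ }
    · exact (hG2.comp hap).div_const _
    · exact hG0.comp (contDiff_snd.prodMk contDiff_fst)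
    · exact hY2.comp hap
    · exact hG3.comp (contDiff_const.prodMk contDiff_id)
    · exact hG4'.clm_apply contDiff_const
    · exact hG4'.clm_apply contDiff_const
    · exact hG4'.clm_comp contDiff_const
    · have h1 := hG20 ((0 : ℝ), (0 : Wd d))
      simp only [hTh0, zero_add] at h1
      rw [hder2.deriv] at h1
      show G2 (((0 : ℝ), (0 : Wd d)), (0 : ℝ)) / dS = 1
      rw [h1, div_self hd0]
  · have h1 := hG00 (0 : Wd d)
    simp only at h1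
    rw [hd1.deriv] at h1
    show G0 ((0 : Wd d), (0 : ℝ)) = _
    rw [h1, eq_div_iff hd0, hlin]
    rw [hlin] at hzero
    simp only [Prod.fst_add, Prod.snd_add, Prod.smul_fst, Prod.smul_snd, smul_eq_mul, hd] at hzero ⊢
    have hpj : pjac S 0 = (fderiv ℝ S 0 ((1, 0), 0)).1.1 * (fderiv ℝ S 0 ((0, 1), 0)).1.2 -
        (fderiv ℝ S 0 ((1, 0), 0)).1.2 * (fderiv ℝ S 0 ((0, 1), 0)).1.1 := by
      first
        | rfl
        | (unfold pjac det2; rfl)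
        | (unfold pjac det2; simp)
    rw [hpj, hd]
    linear_combination (fderiv ℝ S 0 ((0, 1), 0)).1.1 * hzero
  · have h4 : Tendsto (fun v : En d => (v.1.1, v.2)) (𝓝 0) (𝓝 (0, 0)) :=
      hpi.continuous.tendsto' _ _ rfl
    filter_upwards [hSev, h4.eventually hTh1] with v hv hv2
    rw [← hv]
    have h1 := hG2e (v.1.1, v.2) v.1.2
    simp only [add_zero, smul_eq_mul] at h1 hv2
    rw [h1, hv2]
    field_simp
    ring
  · filter_upwards [hSev] with v hv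
    rw [← hv]
    have h1 := hY2e (v.1.1, v.2) v.1.2
    have h2 := hG0e v.2 v.1.1
    have h3 := hG3e 0 v.2
    simp only [hTh0, add_zero, smul_eq_mul] at h1 h2 h3
    rw [hT0'] at h3
    rw [h1, h2, h3]
    ring
  · filter_upwards [hSev] with v hv
    rw [← hv]
    have h1 := hG4e 0 v
    have h2 : T (((0 : En d).1.1, Th ((0 : En d).1.1, (0 : En d).2) + (0 : En d).1.2), (0 : En d).2) =
        ((sS, 0), wS) := by
      show T ((((0 : ℝ), Th (0, 0) + 0), (0 : Wd d)) : En d) = _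
      rw [hTh0, add_zero]
      exact hT0
    simp only at h1
    rw [h2] at h1
    rw [h1]
    have h3 : v = v.1.1 • (((1, 0), 0) : En d) + v.1.2 • (((0, 1), 0) : En d) + (((0, 0), v.2) : En d) := by
      ext <;> simp
    have h4 : G4 (0, v) v = v.1.1 • G4 (0, v) ((1, 0), 0) + v.1.2 • G4 (0, v) ((0, 1), 0) +
        G4 (0, v) ((0, 0), v.2) := by
      conv_lhs => rw [h3]
      rw [map_add, map_add, map_smul, map_smul, ← h3]
    rw [h4]
    show _ = wS + v.1.1 • G4 (0, v) ((1, 0), 0) + v.1.2 • G4 (0, v) ((0, 1), 0) +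
      G4 (0, v) ((0, 0), v.2)
    abel

theorem exists_PFD {g : En d → En d} {s : FrD d} (hs : IsFrD g s) :
    ∃ (f : PFD d) (r : ℝ), IsPFD g s f r := by
  obtain ⟨f, hf, hY, h1, h2, h3⟩ := exists_passFnD (S := SSD g s) (sS := s.sS) (wS := s.wS)
    (dS := dSD g s) hs.sdata.smooth hs.sdata.S0 rfl hs.sdata.d_pos.ne'
  obtain ⟨r, hr, hb⟩ := Metric.eventually_nhds_iff_ball.1 (h1.and (h2.and h3))
  have hmem : ∀ (σ t : ℝ) (w : Wd d), |σ| < r → |t| < r → ‖w‖ < r →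
      (((σ, t), w) : En d) ∈ Metric.ball (0 : En d) r := by
    intro σ t w h1 h2 h3
    rw [mem_ball_zero_iff, Prod.norm_def, Prod.norm_def, max_lt_iff, max_lt_iff,
      Real.norm_eq_abs, Real.norm_eq_abs]
    exact ⟨⟨h1, h2⟩, h3⟩
  refine ⟨f, r, { toSmPFD := hf, r_pos := hr, Y10 := hY, snd := ?_, fst := ?_, thd := ?_ }⟩
  · intro σ t w h1 h2 h3
    exact (hb _ (hmem σ t w h1 h2 h3)).1
  · intro σ t w h1 h2 h3
    exact (hb _ (hmem σ t w h1 h2 h3)).2.1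
  · intro σ t w h1 h2 h3
    exact (hb _ (hmem σ t w h1 h2 h3)).2.2

end Pool.Agent.Lib.H37D
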