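import Pool.Agent.Lib.H37D.IParD
import Pool.Agent.Lib.H37D.DI2b
import Pool.Agent.Lib.H37D.DI2c
import Pool.Agent.Lib.H37D.DI2d
import Pool.Agent.Lib.H37D.DP08

/-! # H37D, chunk DI2e (M): existence of the ingredients (port of H37N/I2e.lean) -/

open Set Filter Topology Asymptotics
open scoped ContDiff

namespace Pool.Agent.Lib.H37D

open Pool.Agent.Lib.H37N

variable {d : ℕ}

/-- smoothness of the functions `XiB`, `OmB`, `HB`, `RB`, `ZB`, `base` -/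
theorem ingD_smooth {m : ℕ} (I : IngD m d) (hf : SmPFD I.f) (hU0 : ContDiff ℝ ∞ I.U0) (hXX : ContDiff ℝ ∞ I.XX)
    (hMh : ContDiff ℝ ∞ I.Mh) :
    ContDiff ℝ ∞ I.XiB ∧ ContDiff ℝ ∞ I.OmB ∧ ContDiff ℝ ∞ I.HB ∧ ContDiff ℝ ∞ I.RB ∧ ContDiff ℝ ∞ I.ZB ∧
      ContDiff ℝ ∞ I.base := by
  have hz : ContDiff ℝ ∞ (fun q : ParD d × (En d × ℝ) => (q.1.2, q.2.1)) :=
    (contDiff_snd.comp contDiff_fst).prodMk (contDiff_fst.comp contDiff_snd)
  have hXi : ContDiff ℝ ∞ I.XiB := (contDiff_XiFD hf I.b I.B0).comp hz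
  have hOm : ContDiff ℝ ∞ I.OmB := (contDiff_OmFD hf I.b I.dS).comp hz
  have hH : ContDiff ℝ ∞ I.HB := (contDiff_etaFD hf I.b).comp hz
  have hε := dz20_eps (X := ParD d × (En d × ℝ)) (f := fun q => q.1.2) (contDiff_snd.comp contDiff_fst) 4 2
  have hs : ContDiff ℝ ∞ (fun q : ParD d × (En d × ℝ) => q.1.1 ^ m) :=
    (contDiff_fst.comp contDiff_fst).pow m
  have hη : ContDiff ℝ ∞ (fun q : ParD d × (En d × ℝ) => q.2.2) := contDiff_snd.comp contDiff_snd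
  refine ⟨hXi, hOm, hH, ?_, ?_, ?_⟩
  · exact hMh.comp (((hε.1.prodMk hε.2).prodMk hη).prodMk ((hXi.prodMk hOm).prodMk hs))
  · exact hXX.comp (((hε.1.add (hs.mul hXi)).prodMk hη).prodMk (hε.2.add (hs.smul hOm)))
  · exact ((contDiff_const.prodMk (hU0.comp contDiff_snd)).prodMk contDiff_const).prodMk contDiff_const

theorem exists_ingD {m : ℕ} (hm : 1 ≤ m) {g : En d → En d} {s : FrD d} (hs : IsFrD g s)
    {T1 T2 : En d → En d} (hT1 : ∀ᶠ v in 𝓝 (0 : En d), ContDiffAt ℝ ∞ T1 v) {a1 al1 ka1 : ℝ}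
    {w1 : Wd d} (hT10 : T1 0 = ((a1, 0), w1)) (hal1 : (fderiv ℝ T1 0 ((0, 1), 0)).1.1 = al1)
    (hka1 : (fun t : ℝ => (T1 ((0, t), 0)).1.2 - ka1 * t ^ (m + 1)) =O[𝓝 0] fun t : ℝ => t ^ (m + 2))
    (hT2 : ∀ᶠ v in 𝓝 (0 : En d), ContDiffAt ℝ ∞ T2 v) {a2 al2 gm2 ka2 : ℝ}
    {w2 : Wd d} (hT20 : T2 0 = ((a2, 0), w2)) (hal2 : (fderiv ℝ T2 0 ((0, 1), 0)).1.1 = al2)
    (hal20 : al2 ≠ 0) (hgm2 : (fderiv ℝ T2 0 ((1, 0), 0)).1.2 = gm2)
    (hka2 : (fun t : ℝ => (T2 ((0, t), 0)).1.2 - ka2 * t ^ (m + 1)) =O[𝓝 0] fun t : ℝ => t ^ (m + 2))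
    (b B0 : ℝ) {G : Fin m → ℝ → ℝ} (hG : ∀ j, ContDiff ℝ ∞ (G j)) :
    ∃ (I : IngD m d) (el : ℝ), I.a = a1 ∧ I.b = b ∧ I.a2 = a2 ∧ I.B0 = B0 ∧ I.uS = s.uS ∧ I.dS = dSD g s ∧
      I.w1 = w1 ∧ I.w2 = w2 ∧ I.G = G ∧ I.f.Y1 (0, 0) = pjac (SSD g s) 0 / dSD g s ∧
      I.OK (SSD g s) T1 T2 s.sS s.wS al1 al2 ka1 ka2 gm2 el := by
  have hm0 : m ≠ 0 := by omega
  obtain ⟨f, hf, hY, hf1, hf2, hf3⟩ := exists_passFnD (S := SSD g s) (sS := s.sS) (wS := s.wS)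
    (dS := dSD g s) hs.sdata.smooth hs.sdata.S0 rfl hs.sdata.d_pos.ne'
  obtain ⟨Ah, Yh, wh, hAh, hYh, hwh, hAh0, hYh0, heqT1⟩ := exists_normal1D hT1 hT10 hal1 hka1
  obtain ⟨XX, YY, WW, Yk, hXX, hYY, hWW, hYk, hXX0, hWW0, hXXt, hYYx, hYk0, hYYt, heqT2⟩ :=
    exists_normal2D hT2 hT20 hal2 hgm2 hka2
  obtain ⟨N, Mh, hN, hN0, hMh, hMh0, heqM⟩ := exists_NMD hXX hYY hXXt hal20 hYYx
  obtain ⟨U0, hU0, hU00, heqU0⟩ := exists_U0D hf a1 b w1
  let I' : IngD m d :=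
    { a := a1, b := b, a2 := a2, B0 := B0, uS := s.uS, dS := dSD g s, w1 := w1, w2 := w2, f := f, U0 := U0,
      Ah := Ah, Yh := Yh, wh := wh, XX := XX, YY := YY, WW := WW, Yk := Yk, N := N, Mh := Mh, G := G,
      DH := fun _ => 0, DR := fun _ => 0, DZ := fun _ => 0 }
  obtain ⟨-, -, sH, sR, sZ, sb⟩ := ingD_smooth I' hf hU0 hXX hMh
  obtain ⟨DH, hDH, eDH, dDH⟩ := divdiff sH sb
  obtain ⟨DR, hDR, eDR, dDR⟩ := divdiff sR sb
  obtain ⟨DZ, hDZ, eDZ, dDZ⟩ := divdiff sZ sb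
  have hb0 : I'.base 0 = (((a1, 0), w1), 0) := by
    show ((((a1, U0 0), w1), 0) : En d × ℝ) = _
    rw [hU00]
  have he1 : ∀ i : Fin 6, (0 : ParD d).2.1 i = 0 := fun _ => rfl
  have he2 : ∀ i : Fin 7, (0 : ParD d).2.2 i = 0 := fun _ => rfl
  have hs0 : ((0 : ParD d).1) ^ m = 0 := zero_pow hm0
  have hXi0 : ∀ z : En d, XiFD f b B0 (0 : ParD d).2 z = B0 * z.1.1 * f.Y1 (0, 0) := fun z =>
    XiFD_zero f b B0 z
  have hOm0 : ∀ z : En d, OmFD f b (dSD g s) (0 : ParD d).2 z = 0 := fun z => OmFD_zero f b _ z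
  -- the function m(η, ξ)
  set c : ℝ := B0 * f.Y1 (0, 0) with hc
  set M : ℝ × ℝ → ℝ := fun r => Mh (((0, 0), r.1), (r.2, 0), 0) with hM
  have hMs : ContDiff ℝ ∞ M := hMh.comp (by fun_prop)
  have hMd := (hMs.differentiable (by simp) ((0, c * a1) : ℝ × ℝ)).hasFDerivAt
  have hMx : ∀ x : ℝ, (fderiv ℝ M (0, c * a1)) (0, x) = gm2 * x := by
    intro x
    have h1 : HasDerivAt (fun t : ℝ => ((0, c * a1 + t * x) : ℝ × ℝ)) (0, x) 0 := by
      have h2 := ((hasDerivAt_id (0 : ℝ)).mul_const x).const_add (c * a1)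
      rw [one_mul] at h2
      exact (hasDerivAt_const _ _).prodMk h2
    have h3 : HasFDerivAt M (fderiv ℝ M (0, c * a1)) (0, c * a1 + (0 : ℝ) * x) := by
      rw [zero_mul, add_zero]; exact hMd
    have h4 := HasFDerivAt.comp_hasDerivAt (0 : ℝ) (f := fun t : ℝ => ((0, c * a1 + t * x) : ℝ × ℝ)) (l := M) h3 h1
    have h5 : HasDerivAt (fun t : ℝ => gm2 * (c * a1 + t * x)) (gm2 * x) 0 := by
      have h2 := (((hasDerivAt_id (0 : ℝ)).mul_const x).const_add (c * a1)).const_mul gm2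
      rw [one_mul] at h2
      exact h2
    have h6 : (M ∘ fun t : ℝ => ((0, c * a1 + t * x) : ℝ × ℝ)) = fun t : ℝ => gm2 * (c * a1 + t * x) := by
      funext t
      exact hMh0 _
    rw [h6] at h4
    exact h4.unique h5
  refine ⟨{ I' with DH := DH, DR := DR, DZ := DZ }, (fderiv ℝ M (0, c * a1)) (1, 0), rfl, rfl, rfl, rfl, rfl, rfl,
    rfl, rfl, rfl, hY, ?_⟩
  refine
    { hm := hm
      smf := hf
      eqS := ?_
      smooth_U0 := hU0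
      U00 := hU00
      eqU0 := heqU0
      smooth_Ah := hAh
      smooth_Yh := hYh
      smooth_wh := hwh
      Ah0 := hAh0
      Yh0 := hYh0
      eqT1 := heqT1
      smooth_XX := hXX
      smooth_YY := hYY
      smooth_WW := hWW
      smooth_Yk := hYk
      XX0 := hXX0
      WW0 := hWW0
      XXt := hXXt
      Yk0 := hYk0
      eqYk := Eventually.of_forall hYYt
      eqT2 := heqT2
      smooth_N := hN
      N0 := hN0
      smooth_Mh := hMh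
      Mh0 := hMh0
      eqM := heqM
      smooth_G := hG
      smooth_DH := hDH
      smooth_DR := hDR
      smooth_DZ := hDZ
      eqDH := fun p v s => eDH p v s
      eqDR := fun p v s => eDR p v s
      eqDZ := fun p v s => eDZ p v s
      DH0 := ?_
      DR0 := ?_
      DZ0 := ?_ }
  · filter_upwards [hf1, hf2, hf3] with u h1 h2 h3
    exact Prod.ext (Prod.ext h2 h1) h3
  · intro v
    show DH (0, v, 0) = v.1.1.2
    rw [dDH, hb0]
    have e : (fun y : En d × ℝ => I'.HB (0, y)) = fun y : En d × ℝ => y.1.1.2 := by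
      funext y
      exact etaFD_zero hf b y.1
    rw [e]
    have h2 : HasFDerivAt (fun y : En d × ℝ => y.1.1.2)
        ((ContinuousLinearMap.snd ℝ ℝ ℝ).comp ((ContinuousLinearMap.fst ℝ (ℝ × ℝ) (Wd d)).comp
          (ContinuousLinearMap.fst ℝ (En d) ℝ))) (((a1, 0), w1), 0) :=
      ((ContinuousLinearMap.snd ℝ ℝ ℝ).comp ((ContinuousLinearMap.fst ℝ (ℝ × ℝ) (Wd d)).comp
          (ContinuousLinearMap.fst ℝ (En d) ℝ))).hasFDerivAt
    rw [h2.fderiv]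
    rfl
  · intro v
    show DR (0, v, 0) = B0 * f.Y1 (0, 0) * gm2 * v.1.1.1 + (fderiv ℝ M (0, c * a1)) (1, 0) * v.2
    rw [dDR, hb0]
    have e : (fun y : En d × ℝ => I'.RB (0, y)) = fun y : En d × ℝ => M (y.2, c * y.1.1.1) := by
      funext y
      show Mh ((((0 : ParD d).2.1 4, (0 : ParD d).2.2 2), y.2), (XiFD f b B0 (0 : ParD d).2 y.1,
        OmFD f b (dSD g s) (0 : ParD d).2 y.1), ((0 : ParD d).1) ^ m) = Mh (((0, 0), y.2), (c * y.1.1.1, 0), 0)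
      rw [he1, he2, hXi0, hOm0, hs0]
      have : B0 * y.1.1.1 * f.Y1 (0, 0) = c * y.1.1.1 := by rw [hc]; ring
      rw [this]
    rw [e]
    have h1 : HasFDerivAt (fun y : En d × ℝ => ((y.2, c * y.1.1.1) : ℝ × ℝ))
        ((ContinuousLinearMap.snd ℝ (En d) ℝ).prod (c • ((ContinuousLinearMap.fst ℝ ℝ ℝ).comp
          ((ContinuousLinearMap.fst ℝ (ℝ × ℝ) (Wd d)).comp (ContinuousLinearMap.fst ℝ (En d) ℝ)))))
        (((a1, 0), w1), 0) :=
      ((ContinuousLinearMap.snd ℝ (En d) ℝ).prod (c • ((ContinuousLinearMap.fst ℝ ℝ ℝ).comp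
          ((ContinuousLinearMap.fst ℝ (ℝ × ℝ) (Wd d)).comp (ContinuousLinearMap.fst ℝ (En d) ℝ))))).hasFDerivAt
    have h2 := HasFDerivAt.comp (g := M) ((((a1, 0), w1), 0) : En d × ℝ) hMd h1
    have h3 : fderiv ℝ (fun y : En d × ℝ => M (y.2, c * y.1.1.1)) (((a1, 0), w1), 0) = _ := h2.fderiv
    rw [h3]
    show (fderiv ℝ M (0, c * a1)) (v.2, c * v.1.1.1) = _
    have h4 : ((v.2, c * v.1.1.1) : ℝ × ℝ) = v.2 • ((1, 0) : ℝ × ℝ) + (0, c * v.1.1.1) := by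
      ext <;> simp
    rw [h4, map_add, map_smul, hMx, smul_eq_mul]
    rw [hc]
    ring
  · intro v
    show DZ (0, v, 0) = al2 * v.2
    rw [dDZ, hb0]
    have e : (fun y : En d × ℝ => I'.ZB (0, y)) = fun y : En d × ℝ => XX ((0, y.2), 0) := by
      funext y
      show XX (((0 : ParD d).2.1 4 + ((0 : ParD d).1) ^ m * XiFD f b B0 (0 : ParD d).2 y.1, y.2),
        (0 : ParD d).2.2 2 + ((0 : ParD d).1) ^ m • OmFD f b (dSD g s) (0 : ParD d).2 y.1) = XX ((0, y.2), 0)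
      rw [he1, he2, hs0, zero_mul, zero_smul, add_zero, add_zero]
    rw [e]
    have h1 : HasFDerivAt (fun y : En d × ℝ => y.2) (ContinuousLinearMap.snd ℝ (En d) ℝ) (((a1, 0), w1), 0) :=
      (ContinuousLinearMap.snd ℝ (En d) ℝ).hasFDerivAt
    have h2 : HasFDerivAt (fun y : En d × ℝ => XX ((0, y.2), 0)) (al2 • (ContinuousLinearMap.snd ℝ (En d) ℝ))
        (((a1, 0), w1), 0) :=
      HasDerivAt.comp_hasFDerivAt (h₂ := fun t : ℝ => XX ((0, t), 0)) ((((a1, 0), w1), 0) : En d × ℝ)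
        (by exact hXXt) h1
    rw [h2.fderiv]
    rfl

end Pool.Agent.Lib.H37D
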