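import Pool.Agent.Lib.H37D.DI2e

/-! # H37D, chunk DI2f (S/M): the rescaled functions (port of H37N/I2f.lean) -/

open Set Filter Topology Asymptotics
open scoped ContDiff

namespace Pool.Agent.Lib.H37D

open Pool.Agent.Lib.H37N

namespace IngD

variable {m d : ℕ} {I : IngD m d} {S T1 T2 : En d → En d} {sS : ℝ} {wS : Wd d} {al1 al2 ka1 ka2 gm2 el : ℝ}

/-- all rescaled functions and the families of perturbations are smooth -/
theorem OK.smooth (h : I.OK S T1 T2 sS wS al1 al2 ka1 ka2 gm2 el) :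
    ContDiff ℝ ∞ I.chi ∧ ContDiff ℝ ∞ I.omg ∧ ContDiff ℝ ∞ I.V ∧ ContDiff ℝ ∞ I.V2 ∧ ContDiff ℝ ∞ I.vv ∧
      ContDiff ℝ ∞ I.zt ∧ ContDiff ℝ ∞ I.K ∧ ContDiff ℝ ∞ I.Ph1 ∧ ContDiff ℝ ∞ I.Ph2 ∧ ContDiff ℝ ∞ I.XiB ∧
      ContDiff ℝ ∞ I.OmB ∧ ContDiff ℝ ∞ I.HB ∧ ContDiff ℝ ∞ I.RB ∧ ContDiff ℝ ∞ I.ZB ∧ ContDiff ℝ ∞ I.base := by
  obtain ⟨sX, sO, sH, sR, sZ, sB⟩ := ingD_smooth I h.smf h.smooth_U0 h.smooth_XX h.smooth_Mh
  have hAh := h.smooth_Ah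
  have hYh := h.smooth_Yh
  have hwh := h.smooth_wh
  have hYk := h.smooth_Yk
  have hN := h.smooth_N
  have hG := h.smooth_G
  have hDH := h.smooth_DH
  have hDR := h.smooth_DR
  have hDZ := h.smooth_DZ
  have hTh := h.smf.smTh
  have p0 : ContDiff ℝ ∞ (fun q : ParD d × ℝ × ℝ => q.1) := contDiff_fst
  have p1 : ContDiff ℝ ∞ (fun q : ParD d × ℝ × ℝ => q.1.1) := contDiff_fst.comp contDiff_fst
  have p2 : ContDiff ℝ ∞ (fun q : ParD d × ℝ × ℝ => q.2.2) := contDiff_snd.comp contDiff_snd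
  have p3 : ContDiff ℝ ∞ (fun q : ParD d × ℝ × ℝ => q.2.1) := contDiff_fst.comp contDiff_snd
  have c1 : ContDiff ℝ ∞ I.chi := p2.mul (hAh.comp (p1.mul p2))
  have c0 : ContDiff ℝ ∞ I.omg := p2.smul (hwh.comp (p1.mul p2))
  have c2 : ContDiff ℝ ∞ I.V :=
    ((p2.pow (m + 1)).mul (hYh.comp (p1.mul p2))).add (ContDiff.sum fun j _ =>
      ((hG j).comp p3).mul (c1.pow ((j : ℕ) + 1)))
  have c3 : ContDiff ℝ ∞ I.V2 :=
    hDH.comp (p0.prodMk ((((c1.prodMk c2).prodMk c0).prodMk contDiff_const).prodMk p1))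
  have c4 : ContDiff ℝ ∞ I.vv := ((c1.prodMk c2).prodMk c0).prodMk c3
  have c5 : ContDiff ℝ ∞ I.zt := hDZ.comp (p0.prodMk (c4.prodMk p1))
  have c6 : ContDiff ℝ ∞ I.K :=
    ((c3.pow (m + 1)).mul (hYk.comp (p1.mul c3))).add (hDR.comp (p0.prodMk (c4.prodMk p1)))
  have c7 : ContDiff ℝ ∞ I.Ph1 := by
    have t1 : ContDiff ℝ ∞ (fun q : PEW m d × ℝ × Wd d => q.1.1.1) := by fun_prop
    have t2 : ContDiff ℝ ∞ (fun q : PEW m d × ℝ × Wd d => q.1.1.2.1 * q.2.1) := by fun_prop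
    have t3 : ContDiff ℝ ∞ (fun q : PEW m d × ℝ × Wd d => mulw q.1.2 q.2.2) :=
      contDiff_mulw (by fun_prop) (by fun_prop)
    have t4 : ContDiff ℝ ∞ (fun q : PEW m d × ℝ × Wd d => q.1.1.2.2.1) := by fun_prop
    have t5 : ContDiff ℝ ∞ (fun q : PEW m d × ℝ × Wd d => ∑ j : Fin m, q.1.1.2.2.2 j * (q.2.1 - I.a) ^ ((j : ℕ) + 1)) := by
      refine ContDiff.sum fun j _ => ?_
      fun_prop
    exact ((t1.mul (contDiff_const.add (hTh.comp (t2.prodMk t3)))).add t4).add t5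
  have c8 : ContDiff ℝ ∞ I.Ph2 := by
    have t1 : ContDiff ℝ ∞ (fun q : PEW m d × ℝ × Wd d => (((q.1.1.1, q.1.2), q.2.1) : (ℝ × Wd d) × ℝ)) := by fun_prop
    have t4 : ContDiff ℝ ∞ (fun q : PEW m d × ℝ × Wd d => q.1.1.2.1) := by fun_prop
    have t5 : ContDiff ℝ ∞ (fun q : PEW m d × ℝ × Wd d =>
        ∑ j : Fin m, q.1.1.2.2.2 j * (q.2.1 - I.a2 - q.1.1.2.2.1) ^ ((j : ℕ) + 1)) := by
      refine ContDiff.sum fun j _ => ?_
      fun_prop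
    exact ((hN.comp t1).neg.sub t4).sub t5
  exact ⟨c1, c0, c2, c3, c4, c5, c6, c7, c8, sX, sO, sH, sR, sZ, sB⟩

/-- the families vanish at the parameter 0 -/
theorem OK.Ph_zero (h : I.OK S T1 T2 sS wS al1 al2 ka1 ka2 gm2 el) (X : ℝ × Wd d) :
    I.Ph1 (0, X) = 0 ∧ I.Ph2 (0, X) = 0 := by
  constructor
  · simp [Ph1]
  · have h1 : I.N ((0, 0), X.1) = 0 := h.N0 X.1
    simp [Ph2, h1]

/-- values at p = 0 -/
theorem OK.at_zero (h : I.OK S T1 T2 sS wS al1 al2 ka1 ka2 gm2 el) (z x : ℝ) :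
    I.zt (0, z, x) = al2 * (ka1 * x ^ (m + 1) + ∑ j : Fin m, I.G j z * (al1 * x) ^ ((j : ℕ) + 1)) ∧
    I.K (0, z, x) = ka2 * (ka1 * x ^ (m + 1) + ∑ j : Fin m, I.G j z * (al1 * x) ^ ((j : ℕ) + 1)) ^ (m + 1) +
      I.B0 * I.f.Y1 (0, 0) * gm2 * al1 * x +
      el * (ka1 * x ^ (m + 1) + ∑ j : Fin m, I.G j z * (al1 * x) ^ ((j : ℕ) + 1)) := by
  have hchi : I.chi (0, z, x) = al1 * x := by
    simp only [chi, Prod.fst_zero, zero_mul, h.Ah0]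
    ring
  have hV : I.V (0, z, x) = ka1 * x ^ (m + 1) + ∑ j : Fin m, I.G j z * (al1 * x) ^ ((j : ℕ) + 1) := by
    simp only [V, hchi, Prod.fst_zero, zero_mul, h.Yh0]
    ring
  have hV2 : I.V2 (0, z, x) = ka1 * x ^ (m + 1) + ∑ j : Fin m, I.G j z * (al1 * x) ^ ((j : ℕ) + 1) := by
    rw [← hV]
    exact h.DH0 (((I.chi (0, z, x), I.V (0, z, x)), I.omg (0, z, x)), 0)
  constructor
  · have h1 : I.zt (0, z, x) = al2 * I.V2 (0, z, x) := h.DZ0 (I.vv (0, z, x))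
    rw [h1, hV2]
  · have h1 : I.DR (0, I.vv (0, z, x), 0) = I.B0 * I.f.Y1 (0, 0) * gm2 * I.chi (0, z, x) + el * I.V2 (0, z, x) :=
      h.DR0 (I.vv (0, z, x))
    have h2 : I.K (0, z, x) = I.V2 (0, z, x) ^ (m + 1) * I.Yk (0 * I.V2 (0, z, x)) + I.DR (0, I.vv (0, z, x), 0) := rfl
    rw [h2, h1, hV2, hchi, zero_mul, h.Yk0]
    ring

/-- values at x = 0 for s ≠ 0 -/
theorem OK.at_x0 (h : I.OK S T1 T2 sS wS al1 al2 ka1 ka2 gm2 el) (p : ParD d) (z : ℝ) (hs : p.1 ≠ 0) :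
    I.chi (p, z, 0) = 0 ∧ I.omg (p, z, 0) = 0 ∧ I.V (p, z, 0) = 0 ∧ I.V2 (p, z, 0) = 0 ∧ I.zt (p, z, 0) = 0 ∧
      I.K (p, z, 0) = 0 := by
  have hchi : I.chi (p, z, 0) = 0 := by simp [chi]
  have homg : I.omg (p, z, 0) = 0 := by simp [omg]
  have hV : I.V (p, z, 0) = 0 := by simp [V, hchi]
  have e1 : I.DH (p, 0, p.1) = 0 := by
    have := h.eqDH p 0 p.1
    rw [smul_zero, add_zero] at this
    have h2 : p.1 * I.DH (p, 0, p.1) = 0 := by linarith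
    exact (mul_eq_zero.1 h2).resolve_left hs
  have e2 : I.DR (p, 0, p.1) = 0 := by
    have := h.eqDR p 0 p.1
    rw [smul_zero, add_zero] at this
    have h2 : p.1 * I.DR (p, 0, p.1) = 0 := by linarith
    exact (mul_eq_zero.1 h2).resolve_left hs
  have e3 : I.DZ (p, 0, p.1) = 0 := by
    have := h.eqDZ p 0 p.1
    rw [smul_zero, add_zero] at this
    have h2 : p.1 * I.DZ (p, 0, p.1) = 0 := by linarith
    exact (mul_eq_zero.1 h2).resolve_left hs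
  have hV2 : I.V2 (p, z, 0) = 0 := by
    simp only [V2, hchi, hV, homg]
    exact e1
  have hvv : I.vv (p, z, 0) = 0 := by
    simp only [vv, hchi, hV, hV2, homg]
    rfl
  refine ⟨hchi, homg, hV, hV2, ?_, ?_⟩
  · simp only [zt, hvv, e3]
  · simp only [K, hvv, hV2, e2]
    simp

end IngD

end Pool.Agent.Lib.H37D
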