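import Pool.Agent.Lib.H37D.DP07
import Pool.Agent.Lib.H37D.DP08
import Pool.Agent.Lib.H37P.P09

/-!
# H37D DP09 (M): the pass in the coordinates `((X,U),w)` (port of H37P/P09.lean)

`pass_rawD` with `y = yFD ..`: `mu_P^n y - uS = Th(σ, ω) + t`, `σ = ε1 X`, `ω = mulw (al_P^n) w`, `t = ε2 (U + b)`; `IsPFD.snd`, `.fst`, `.thd`.
`mu_Q^m dS t W = (U + b) W` (as in the plane). `lam_Q^m S_1 = ξ⁰ + E⁻¹ XiFD`: the new term `lam_Q^m Y3(ω) ω = E⁻¹ Y3(ω) (mulw (E lam_Q^m al_P^n) w)` (linearity).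
`al_Q^m S_w = w⁰ + E⁻¹ OmFD`: `mulw (al_Q^m) (σ Z1) = E⁻¹ (X mulw (E lam_P^n al_Q^m) Z1)`; `mulw (al_Q^m) (t Z2) = E⁻¹ ((U+b) mulw (mu_P^n al_Q^m) Z2)` because `E ε2 = mu_P^n`;
`mulw (al_Q^m) (Z3 ω) = E⁻¹ (dS mulw (mu_Q^m al_Q^m) (Z3 (mulw (mu_P^n al_P^n) w)))` because `ω = mulw (al_P^n) w = mu_P^(-n) mulw (mu_P^n al_P^n) w` and `E = dS mu_P^n mu_Q^m`.
The hypotheses `|ε1|, |ε2|, ‖al_P^n‖ < δ` give `|σ|, |t|, ‖ω‖` small (`‖mulw α w‖ ≤ ‖α‖ ‖w‖`).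
-/

open Set Filter Topology Asymptotics
open scoped ContDiff

namespace Pool.Agent.Lib.H37D

open Pool.Agent.Lib.H37N

variable {d : ℕ}

theorem dp09_norm_mulw (α w : Wd d) : ‖mulw α w‖ ≤ ‖α‖ * ‖w‖ := by
  refine (pi_norm_le_iff_of_nonneg (mul_nonneg (norm_nonneg _) (norm_nonneg _))).2 fun k => ?_
  show ‖α k * w k‖ ≤ _
  rw [norm_mul]
  exact mul_le_mul (norm_le_pi_norm α k) (norm_le_pi_norm w k) (norm_nonneg _) (norm_nonneg _)

theorem dp09_smul_mulw (c : ℝ) (α w : Wd d) : mulw (c • α) w = c • mulw α w := by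
  funext k
  show c * α k * w k = c * (α k * w k)
  ring

theorem dp09_fst {E B lP mP lQ mQ D X b U sS y1 y2 y3 : ℝ} (hD : D ≠ 0) (hP : mP ≠ 0)
    (hQ : mQ ≠ 0) (hE : E = D * mP * mQ) (hB : B = D * (lP * mP) * (lQ * mQ)) :
    lQ * (sS + lP * X * y1 + 1 / (D * mQ) * (U + b) * y2 + y3) =
      lQ * sS + E⁻¹ * (B * X * y1 + mP * lQ * (U + b) * y2 + E * lQ * y3) := by
  subst hE hB
  field_simp
  ring

theorem dp09_thd {E D mP mQ lP X U b a ws z1 z2 z3 : ℝ} (hD : D ≠ 0) (hP : mP ≠ 0)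
    (hQ : mQ ≠ 0) (hE : E = D * mP * mQ) :
    a * (ws + lP * X * z1 + 1 / (D * mQ) * (U + b) * z2 + z3) =
      a * ws + E⁻¹ * (X * (E * lP * a * z1) + (U + b) * (mP * a * z2) +
        D * (mQ * a * (mP * z3))) := by
  subst hE
  field_simp
  ring

theorem pass_XUD {g : En d → En d} {s : FrD d} (hs : IsFrD g s) {f : PFD d} {r : ℝ}
    (hf : IsPFD g s f r) :
    ∃ δ > 0, ∀ (B0 : ℝ) (n m : ℕ) (b : ℝ) (z : En d), |e1D s n| < δ → |e2D g s m| < δ →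
      ‖s.al Sy.P ^ n‖ < δ → |z.1.1| ≤ 1 → |z.1.2 + b| ≤ 1 → ‖z.2‖ ≤ 1 →
      g^[n + s.kS + m] (s.κ Sy.P (YcD g s f b n m z)) =
        s.κ Sy.Q (((xi0D s m + (EED g s n m)⁻¹ * XiFD f b B0 (epsD g s B0 n m) z,
          b + etaFD f b (epsD g s B0 n m) z),
          w0D s m + (EED g s n m)⁻¹ • OmFD f b (dSD g s) (epsD g s B0 n m) z)) ∧
      ∀ i ≤ n + s.kS + m, g^[i] (s.κ Sy.P (YcD g s f b n m z)) ∈ VOD d := by
  obtain ⟨r', hr', -, -, hraw⟩ := pass_rawD hs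
  have hP : 0 < s.mu Sy.P := lt_trans one_pos (hs.chart Sy.P).one_lt
  have hQ : 0 < s.mu Sy.Q := lt_trans one_pos (hs.chart Sy.Q).one_lt
  have hd : 0 < dSD g s := hs.sdata.d_pos
  -- continuity
  have hcTh : ∀ᶠ v : ℝ × Wd d in 𝓝 0, |f.Th v| < r' / 2 := by
    have h1 : Tendsto f.Th (𝓝 0) (𝓝 0) := by
      have h0 := hf.smTh.continuous.tendsto (0 : ℝ × Wd d)
      have h2 : f.Th (0 : ℝ × Wd d) = 0 := hf.Th0
      rwa [h2] at h0
    have h2 := h1.eventually (Metric.ball_mem_nhds (0 : ℝ) (half_pos hr'))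
    filter_upwards [h2] with σ hσ
    rwa [dist_zero_right, Real.norm_eq_abs] at hσ
  have hcW : ∀ᶠ v : En d in 𝓝 0, |f.W v| < 2 := by
    have h1 : Tendsto f.W (𝓝 0) (𝓝 1) := by
      have h0 := hf.smW.continuous.tendsto (0 : En d)
      have h2 : f.W (0 : En d) = 1 := hf.W0
      rwa [h2] at h0
    have h2 := h1.eventually (Metric.ball_mem_nhds (1 : ℝ) one_pos)
    filter_upwards [h2] with v hv
    rw [Real.dist_eq] at hv
    have h3 := abs_lt.1 hv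
    rw [abs_lt]
    constructor <;> linarith [h3.1, h3.2]
  obtain ⟨δ1, hδ1, h1⟩ := Metric.eventually_nhds_iff_ball.1 hcTh
  obtain ⟨δ2, hδ2, h2⟩ := Metric.eventually_nhds_iff_ball.1 hcW
  have hpos : 0 < min (min r (r' / 2)) (min δ1 δ2) :=
    lt_min (lt_min hf.r_pos (half_pos hr')) (lt_min hδ1 hδ2)
  refine ⟨min (min r (r' / 2)) (min δ1 δ2), hpos, ?_⟩
  intro B0 n m b z he1 he2 he3 hX hU hw
  obtain ⟨⟨X, U⟩, w⟩ := z
  simp only at hX hU hw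
  set δ := min (min r (r' / 2)) (min δ1 δ2) with hδ
  set σ := e1D s n * X with hσ
  set t := e2D g s m * (U + b) with ht
  set q := mulw (s.al Sy.P ^ n) w with hq
  have hσ' : |σ| < δ := by
    rw [hσ, abs_mul]
    calc |e1D s n| * |X| ≤ |e1D s n| * 1 := mul_le_mul_of_nonneg_left hX (abs_nonneg _)
      _ < _ := by rw [mul_one]; exact he1
  have ht' : |t| < δ := by
    rw [ht, abs_mul]
    calc |e2D g s m| * |U + b| ≤ |e2D g s m| * 1 := mul_le_mul_of_nonneg_left hU (abs_nonneg _)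
      _ < _ := by rw [mul_one]; exact he2
  have hq' : ‖q‖ < δ := by
    refine lt_of_le_of_lt (dp09_norm_mulw _ _) ?_
    calc ‖s.al Sy.P ^ n‖ * ‖w‖ ≤ ‖s.al Sy.P ^ n‖ * 1 :=
          mul_le_mul_of_nonneg_left hw (norm_nonneg _)
      _ < _ := by rw [mul_one]; exact he3
  have l1 : δ ≤ r := (min_le_left _ _).trans (min_le_left _ _)
  have l2 : δ ≤ r' / 2 := (min_le_left _ _).trans (min_le_right _ _)
  have l3 : δ ≤ δ1 := (min_le_right _ _).trans (min_le_left _ _)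
  have l4 : δ ≤ δ2 := (min_le_right _ _).trans (min_le_right _ _)
  have hTh : |f.Th (σ, q)| < r' / 2 := by
    apply h1
    rw [mem_ball_zero_iff, Prod.norm_def, max_lt_iff, Real.norm_eq_abs]
    exact ⟨lt_of_lt_of_le hσ' l3, lt_of_lt_of_le hq' l3⟩
  have hW : |f.W ((σ, t), q)| < 2 := by
    apply h2
    rw [mem_ball_zero_iff, Prod.norm_def, Prod.norm_def, max_lt_iff, max_lt_iff,
      Real.norm_eq_abs, Real.norm_eq_abs]
    exact ⟨⟨lt_of_lt_of_le hσ' l4, lt_of_lt_of_le ht' l4⟩, lt_of_lt_of_le hq' l4⟩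
  have hmuP : s.mu Sy.P ^ n ≠ 0 := (pow_pos hP n).ne'
  have hmuQ : s.mu Sy.Q ^ m ≠ 0 := (pow_pos hQ m).ne'
  have hYc : YcD g s f b n m ((X, U), w) = ((X, yFD s f b (EED g s n m) (s.mu Sy.P ^ n)
      (e1D s n) (s.al Sy.P ^ n) ((X, U), w)), w) := rfl
  have hy : s.mu Sy.P ^ n * yFD s f b (EED g s n m) (s.mu Sy.P ^ n) (e1D s n) (s.al Sy.P ^ n)
      ((X, U), w) - s.uS = f.Th (σ, q) + t := by
    have e1 : yFD s f b (EED g s n m) (s.mu Sy.P ^ n) (e1D s n) (s.al Sy.P ^ n)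
      ((X, U), w) = (U + b) / EED g s n m + (s.uS + f.Th (σ, q)) / (s.mu Sy.P ^ n) := rfl
    rw [e1, EED, ht, e2D]
    field_simp
    ring
  have hlam : s.lam Sy.P ^ n * X = σ := rfl
  have hsnd := hf.snd σ t q (lt_of_lt_of_le hσ' l1) (lt_of_lt_of_le ht' l1)
    (lt_of_lt_of_le hq' l1)
  have hfst := hf.fst σ t q (lt_of_lt_of_le hσ' l1) (lt_of_lt_of_le ht' l1)
    (lt_of_lt_of_le hq' l1)
  have hthd := hf.thd σ t q (lt_of_lt_of_le hσ' l1) (lt_of_lt_of_le ht' l1)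
    (lt_of_lt_of_le hq' l1)
  have hS2 : s.mu Sy.Q ^ m * (SSD g s ((σ, f.Th (σ, q) + t), q)).1.2 =
      (U + b) * f.W ((σ, t), q) := by
    rw [hsnd]
    have h3 : s.mu Sy.Q ^ m * (dSD g s * t) = U + b := by
      rw [ht, e2D]
      field_simp
    calc s.mu Sy.Q ^ m * (dSD g s * t * f.W ((σ, t), q)) =
        (s.mu Sy.Q ^ m * (dSD g s * t)) * f.W ((σ, t), q) := by ring
      _ = _ := by rw [h3]
  have hraw' := hraw n m X (yFD s f b (EED g s n m) (s.mu Sy.P ^ n) (e1D s n) (s.al Sy.P ^ n)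
      ((X, U), w)) w hX hw
    (by
      rw [hlam]
      have := lt_of_lt_of_le hσ' l2
      linarith)
    (by
      rw [hy]
      have h3 := lt_of_lt_of_le ht' l2
      have h4 := abs_add_le (f.Th (σ, q)) t
      linarith)
    (by
      rw [← hq]
      have := lt_of_lt_of_le hq' l2
      linarith)
    (by
      rw [hy, hlam, ← hq, hS2, abs_mul]
      have h3 : |U + b| * |f.W ((σ, t), q)| ≤ 1 * |f.W ((σ, t), q)| :=
        mul_le_mul_of_nonneg_right hU (abs_nonneg _)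
      linarith)
  rw [hy, hlam, ← hq, hS2] at hraw'
  rw [hYc]
  refine ⟨?_, hraw'.2⟩
  rw [hraw'.1, hfst, hthd]
  congr 1
  have eX : XiFD f b B0 (epsD g s B0 n m) ((X, U), w) =
      BBD g s n m * X * f.Y1 (σ, q) + s.mu Sy.P ^ n * s.lam Sy.Q ^ m * (U + b) *
        f.Y2 ((σ, t), q) + EED g s n m * s.lam Sy.Q ^ m * f.Y3 q q := by
    have e1 : XiFD f b B0 (epsD g s B0 n m) ((X, U), w) =
        (B0 + (BBD g s n m - B0)) * X * f.Y1 (σ, q) + e4D s n m * (U + b) *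
          f.Y2 ((σ, t), q) + f.Y3 q (mulw ((EED g s n m * s.lam Sy.Q ^ m) • s.al Sy.P ^ n) w) :=
      rfl
    rw [e1, dp09_smul_mulw, ← hq, map_smul, smul_eq_mul, e4D]
    ring
  have eE : etaFD f b (epsD g s B0 n m) ((X, U), w) = (U + b) * f.W ((σ, t), q) - b := rfl
  have eO : OmFD f b (dSD g s) (epsD g s B0 n m) ((X, U), w) =
      X • mulw ((EED g s n m * s.lam Sy.P ^ n) • s.al Sy.Q ^ m) (f.Z1 ((σ, t), q)) +
      (U + b) • mulw (s.mu Sy.P ^ n • s.al Sy.Q ^ m) (f.Z2 ((σ, t), q)) +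
      dSD g s • mulw (s.mu Sy.Q ^ m • s.al Sy.Q ^ m)
        (f.Z3 ((σ, t), q) (s.mu Sy.P ^ n • q)) := by
    have e1 : OmFD f b (dSD g s) (epsD g s B0 n m) ((X, U), w) =
      X • mulw ((EED g s n m * s.lam Sy.P ^ n) • s.al Sy.Q ^ m) (f.Z1 ((σ, t), q)) +
      (U + b) • mulw (s.mu Sy.P ^ n • s.al Sy.Q ^ m) (f.Z2 ((σ, t), q)) +
      dSD g s • mulw (s.mu Sy.Q ^ m • s.al Sy.Q ^ m)
        (f.Z3 ((σ, t), q) (mulw (s.mu Sy.P ^ n • s.al Sy.P ^ n) w)) := rfl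
    rw [e1, dp09_smul_mulw (s.mu Sy.P ^ n) (s.al Sy.P ^ n) w]
  have key1 : s.lam Sy.Q ^ m * (s.sS + σ * f.Y1 (σ, q) + t * f.Y2 ((σ, t), q) + f.Y3 q q) =
      xi0D s m + (EED g s n m)⁻¹ * XiFD f b B0 (epsD g s B0 n m) ((X, U), w) := by
    rw [eX]
    have h5 := dp09_fst (E := EED g s n m) (B := BBD g s n m) (lP := s.lam Sy.P ^ n)
      (mP := s.mu Sy.P ^ n) (lQ := s.lam Sy.Q ^ m) (mQ := s.mu Sy.Q ^ m) (D := dSD g s) (X := X)
      (b := b) (U := U) (sS := s.sS) (y1 := f.Y1 (σ, q)) (y2 := f.Y2 ((σ, t), q))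
      (y3 := f.Y3 q q) hd.ne' hmuP hmuQ rfl (by rw [BBD, mul_pow, mul_pow])
    exact h5
  have key2 : (U + b) * f.W ((σ, t), q) = b + etaFD f b (epsD g s B0 n m) ((X, U), w) := by
    rw [eE]
    ring
  have key3 : mulw (s.al Sy.Q ^ m) (s.wS + σ • f.Z1 ((σ, t), q) + t • f.Z2 ((σ, t), q) +
        f.Z3 ((σ, t), q) q) =
      w0D s m + (EED g s n m)⁻¹ • OmFD f b (dSD g s) (epsD g s B0 n m) ((X, U), w) := by
    rw [eO, map_smul]
    funext k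
    exact dp09_thd (E := EED g s n m) (D := dSD g s) (mP := s.mu Sy.P ^ n)
      (mQ := s.mu Sy.Q ^ m) (lP := s.lam Sy.P ^ n) (X := X) (U := U) (b := b)
      (a := (s.al Sy.Q ^ m) k) (ws := s.wS k) (z1 := f.Z1 ((σ, t), q) k)
      (z2 := f.Z2 ((σ, t), q) k) (z3 := f.Z3 ((σ, t), q) q k) hd.ne' hmuP hmuQ rfl
  rw [key1, key2, key3]

end Pool.Agent.Lib.H37D
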