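import Pool.Agent.Lib.H37D.IDefs
import Pool.Agent.Lib.H37D.DP09

/-!
# H37D DI2g0: the pass `midD` in the coordinates `((X,U),w)` (second leg of the curve)
-/

open Set Filter Topology Asymptotics
open scoped ContDiff

namespace Pool.Agent.Lib.H37D

open Pool.Agent.Lib.H37N

variable {d : ℕ}

/-- the second leg: `y` is the unstable coordinate at `P`; the formula for the connection is a hypothesis -/
theorem pass_midD_at {g : En d → En d} {s : FrD d} (hs : IsFrD g s) {f : PFD d} (B0 b : ℝ) (n ν : ℕ)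
    (z : En d) {y : ℝ}
    (hy : y = (EED g s n ν)⁻¹ * (z.1.2 + b) +
      (s.mu Sy.P ^ n)⁻¹ * (s.uS + f.Th (e1D s n * z.1.1, mulw (s.al Sy.P ^ n) z.2))) {u : En d}
    (hu : u = ((e1D s n * z.1.1, e2D g s ν * (z.1.2 + b)), mulw (s.al Sy.P ^ n) z.2))
    (hS : SSD g s ((u.1.1, f.Th (u.1.1, u.2) + u.1.2), u.2) =
      ((s.sS + u.1.1 * f.Y1 (u.1.1, u.2) + u.1.2 * f.Y2 u + f.Y3 u.2 u.2, dSD g s * u.1.2 * f.W u),
        s.wS + u.1.1 • f.Z1 u + u.1.2 • f.Z2 u + f.Z3 u u.2)) :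
    linD (s.lam Sy.P) (s.mu Sy.P) (s.al Sy.P) n ((z.1.1, y), z.2) - ((0, s.uS), 0) =
      ((e1D s n * z.1.1, f.Th (e1D s n * z.1.1, mulw (s.al Sy.P ^ n) z.2) + e2D g s ν * (z.1.2 + b)),
        mulw (s.al Sy.P ^ n) z.2) ∧
    midD g s n ν ((z.1.1, y), z.2) - ((0, b), 0) =
      exD f b B0 (dSD g s) (EED g s n ν)⁻¹ (epsD g s B0 n ν) z := by
  subst hu
  obtain ⟨⟨X, U⟩, w⟩ := z
  simp only at hy hS
  have hP : 0 < s.mu Sy.P := lt_trans one_pos (hs.chart Sy.P).one_lt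
  have hQ : 0 < s.mu Sy.Q := lt_trans one_pos (hs.chart Sy.Q).one_lt
  have hd : 0 < dSD g s := hs.sdata.d_pos
  have hmuP : s.mu Sy.P ^ n ≠ 0 := (pow_pos hP n).ne'
  have hmuQ : s.mu Sy.Q ^ ν ≠ 0 := (pow_pos hQ ν).ne'
  set σ := e1D s n * X with hσ
  set t := e2D g s ν * (U + b) with ht
  set q := mulw (s.al Sy.P ^ n) w with hq
  have hy2 : s.mu Sy.P ^ n * y - s.uS = f.Th (σ, q) + t := by
    rw [hy, EED, ht, e2D]
    field_simp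
    ring
  have hlin : linD (s.lam Sy.P) (s.mu Sy.P) (s.al Sy.P) n ((X, y), w) - ((0, s.uS), 0) =
      ((σ, f.Th (σ, q) + t), q) := by
    refine Prod.ext (Prod.ext ?_ ?_) ?_
    · show s.lam Sy.P ^ n * X - 0 = _
      rw [sub_zero]
      rfl
    · show s.mu Sy.P ^ n * y - s.uS = _
      exact hy2
    · show mulw (s.al Sy.P ^ n) w - 0 = _
      rw [sub_zero]
  refine ⟨hlin, ?_⟩
  have hsnd : (SSD g s ((σ, f.Th (σ, q) + t), q)).1.2 = dSD g s * t * f.W ((σ, t), q) := by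
    rw [hS]
  have hfst : (SSD g s ((σ, f.Th (σ, q) + t), q)).1.1 =
      s.sS + σ * f.Y1 (σ, q) + t * f.Y2 ((σ, t), q) + f.Y3 q q := by
    rw [hS]
  have hthd : (SSD g s ((σ, f.Th (σ, q) + t), q)).2 =
      s.wS + σ • f.Z1 ((σ, t), q) + t • f.Z2 ((σ, t), q) + f.Z3 ((σ, t), q) q := by
    rw [hS]
  have eX : XiFD f b B0 (epsD g s B0 n ν) ((X, U), w) =
      BBD g s n ν * X * f.Y1 (σ, q) + s.mu Sy.P ^ n * s.lam Sy.Q ^ ν * (U + b) *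
        f.Y2 ((σ, t), q) + EED g s n ν * s.lam Sy.Q ^ ν * f.Y3 q q := by
    have e1 : XiFD f b B0 (epsD g s B0 n ν) ((X, U), w) =
        (B0 + (BBD g s n ν - B0)) * X * f.Y1 (σ, q) + e4D s n ν * (U + b) *
          f.Y2 ((σ, t), q) + f.Y3 q (mulw ((EED g s n ν * s.lam Sy.Q ^ ν) • s.al Sy.P ^ n) w) :=
      rfl
    rw [e1, dp09_smul_mulw, ← hq, map_smul, smul_eq_mul, e4D]
    ring
  have eE : etaFD f b (epsD g s B0 n ν) ((X, U), w) = (U + b) * f.W ((σ, t), q) - b := rfl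
  have eO : OmFD f b (dSD g s) (epsD g s B0 n ν) ((X, U), w) =
      X • mulw ((EED g s n ν * s.lam Sy.P ^ n) • s.al Sy.Q ^ ν) (f.Z1 ((σ, t), q)) +
      (U + b) • mulw (s.mu Sy.P ^ n • s.al Sy.Q ^ ν) (f.Z2 ((σ, t), q)) +
      dSD g s • mulw (s.mu Sy.Q ^ ν • s.al Sy.Q ^ ν)
        (f.Z3 ((σ, t), q) (s.mu Sy.P ^ n • q)) := by
    have e1 : OmFD f b (dSD g s) (epsD g s B0 n ν) ((X, U), w) =
      X • mulw ((EED g s n ν * s.lam Sy.P ^ n) • s.al Sy.Q ^ ν) (f.Z1 ((σ, t), q)) +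
      (U + b) • mulw (s.mu Sy.P ^ n • s.al Sy.Q ^ ν) (f.Z2 ((σ, t), q)) +
      dSD g s • mulw (s.mu Sy.Q ^ ν • s.al Sy.Q ^ ν)
        (f.Z3 ((σ, t), q) (mulw (s.mu Sy.P ^ n • s.al Sy.P ^ n) w)) := rfl
    rw [e1, dp09_smul_mulw (s.mu Sy.P ^ n) (s.al Sy.P ^ n) w]
  have key1 : s.lam Sy.Q ^ ν * (s.sS + σ * f.Y1 (σ, q) + t * f.Y2 ((σ, t), q) + f.Y3 q q) =
      xi0D s ν + (EED g s n ν)⁻¹ * XiFD f b B0 (epsD g s B0 n ν) ((X, U), w) := by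
    rw [eX]
    have h5 := dp09_fst (E := EED g s n ν) (B := BBD g s n ν) (lP := s.lam Sy.P ^ n)
      (mP := s.mu Sy.P ^ n) (lQ := s.lam Sy.Q ^ ν) (mQ := s.mu Sy.Q ^ ν) (D := dSD g s) (X := X)
      (b := b) (U := U) (sS := s.sS) (y1 := f.Y1 (σ, q)) (y2 := f.Y2 ((σ, t), q))
      (y3 := f.Y3 q q) hd.ne' hmuP hmuQ rfl (by rw [BBD, mul_pow, mul_pow])
    exact h5
  have key2 : s.mu Sy.Q ^ ν * (dSD g s * t * f.W ((σ, t), q)) - b =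
      etaFD f b (epsD g s B0 n ν) ((X, U), w) := by
    rw [eE, ht, e2D]
    field_simp
  have key3 : mulw (s.al Sy.Q ^ ν) (s.wS + σ • f.Z1 ((σ, t), q) + t • f.Z2 ((σ, t), q) +
        f.Z3 ((σ, t), q) q) =
      w0D s ν + (EED g s n ν)⁻¹ • OmFD f b (dSD g s) (epsD g s B0 n ν) ((X, U), w) := by
    rw [eO, map_smul]
    funext k
    exact dp09_thd (E := EED g s n ν) (D := dSD g s) (mP := s.mu Sy.P ^ n)
      (mQ := s.mu Sy.Q ^ ν) (lP := s.lam Sy.P ^ n) (X := X) (U := U) (b := b)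
      (a := (s.al Sy.Q ^ ν) k) (ws := s.wS k) (z1 := f.Z1 ((σ, t), q) k)
      (z2 := f.Z2 ((σ, t), q) k) (z3 := f.Z3 ((σ, t), q) q k) hd.ne' hmuP hmuQ rfl
  unfold midD
  rw [hlin]
  refine Prod.ext (Prod.ext ?_ ?_) ?_
  · show s.lam Sy.Q ^ ν * (SSD g s ((σ, f.Th (σ, q) + t), q)).1.1 - 0 = _
    rw [hfst, key1, sub_zero]
    rfl
  · show s.mu Sy.Q ^ ν * (SSD g s ((σ, f.Th (σ, q) + t), q)).1.2 - b = _
    rw [hsnd, key2]
    rfl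
  · show mulw (s.al Sy.Q ^ ν) (SSD g s ((σ, f.Th (σ, q) + t), q)).2 - 0 = _
    rw [hthd, key3, sub_zero]
    rfl

end Pool.Agent.Lib.H37D
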