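import Pool.Agent.Lib.H37D.IParD
import Pool.Agent.Lib.H37D.DI2g0

/-! # H37D, DI2g: formulas for the three legs of the curve (port of H37N/I2g.lean) -/

open Set Filter Topology Asymptotics
open scoped ContDiff

namespace Pool.Agent.Lib.H37D

open Pool.Agent.Lib.H37N

namespace IngD

variable {m d : ℕ} {I : IngD m d} {S T1 T2 : En d → En d} {sS : ℝ} {wS : Wd d} {al1 al2 ka1 ka2 gm2 el : ℝ}

/-- first leg (`X1`, `wq` by definition of `chi`, `omg`; the sum as in the plane) -/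
theorem first_legD (mi : ℝ) {N : Set (En d)} {q : ParD d × ℝ × ℝ} (h : I.Good S T1 T2 sS wS N q) :
    vertD T1 (fun X => I.Ph1 (I.par1 mi q.1 q.2.1, X)) ((0, q.1.1 * q.2.2), 0) =
      ((I.X1 q, q.1.1 ^ m * (I.U q + I.b) + mi * (I.uS + I.f.Th ((I.uQ q).1.1, (I.uQ q).2))), I.wq q) := by
  have hX : I.a + (q.1.1 * q.2.2) * I.Ah (q.1.1 * q.2.2) = I.X1 q := by
    simp only [X1, chi]; ring
  have hw : I.w1 + (q.1.1 * q.2.2) • I.wh (q.1.1 * q.2.2) = I.wq q := by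
    simp only [wq, omg, smul_smul]
  have hXa : I.X1 q - I.a = q.1.1 * I.chi q := by
    simp only [X1]; ring
  simp only [vertD, h.gT1, hX, hw]
  refine Prod.ext (Prod.ext rfl ?_) rfl
  simp only [Ph1, par1, hXa]
  have hsum : (∑ j : Fin m, q.1.1 ^ (m - (j : ℕ)) * I.G j q.2.1 * (q.1.1 * I.chi q) ^ ((j : ℕ) + 1)) =
      q.1.1 ^ (m + 1) * ∑ j : Fin m, I.G j q.2.1 * I.chi q ^ ((j : ℕ) + 1) := by
    rw [Finset.mul_sum]
    refine Finset.sum_congr rfl fun j _ => ?_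
    have hj : (j : ℕ) < m := j.2
    have hp : q.1.1 ^ (m + 1) = q.1.1 ^ (m - (j : ℕ)) * q.1.1 ^ ((j : ℕ) + 1) := by
      rw [← pow_add]; congr 1; omega
    rw [hp, mul_pow]; ring
  rw [hsum]
  have hTh : I.f.Th ((I.uQ q).1.1, (I.uQ q).2) = I.f.Th (q.1.2.1 0 * I.X1 q, mulw (q.1.2.2 0) (I.wq q)) := rfl
  rw [hTh]
  simp only [U, V]
  ring

/-- second leg: the pass -/
theorem pass_legD {g : En d → En d} {s : FrD d} (hs : IsFrD g s) (hm : 1 ≤ m) {n ν : ℕ} {N : Set (En d)}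
    {q : ParD d × ℝ × ℝ} (h : I.Good (SSD g s) T1 T2 s.sS s.wS N q) (hdS : I.dS = dSD g s) (huS : I.uS = s.uS)
    (hq : q.1 = parD m g s I.B0 n ν) :
    linD (s.lam Sy.P) (s.mu Sy.P) (s.al Sy.P) n
        ((I.X1 q, q.1.1 ^ m * (I.U q + I.b) + (s.mu Sy.P ^ n)⁻¹ * (I.uS + I.f.Th ((I.uQ q).1.1, (I.uQ q).2))), I.wq q) -
        ((0, I.uS), 0) =
      (((I.uQ q).1.1, I.f.Th ((I.uQ q).1.1, (I.uQ q).2) + (I.uQ q).1.2), (I.uQ q).2) ∧
    midD g s n ν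
        ((I.X1 q, q.1.1 ^ m * (I.U q + I.b) + (s.mu Sy.P ^ n)⁻¹ * (I.uS + I.f.Th ((I.uQ q).1.1, (I.uQ q).2))), I.wq q) -
        ((0, I.b), 0) =
      ((q.1.2.1 4 + q.1.1 ^ m * I.XiQ q, etaFD I.f I.b q.1.2 (I.zQ q)), q.1.2.2 2 + q.1.1 ^ m • I.OmQ q) := by
  have hq1 : q.1.1 ^ m = (EED g s n ν)⁻¹ := by
    rw [hq]
    exact parD_pow hm hs I.B0 n ν
  have hq2 : q.1.2 = epsD g s I.B0 n ν := by
    rw [hq]
    rfl
  have hu : I.uQ q = ((e1D s n * (I.zQ q).1.1, e2D g s ν * ((I.zQ q).1.2 + I.b)),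
      mulw (s.al Sy.P ^ n) (I.zQ q).2) := by
    unfold uQ
    rw [hq2]
    rfl
  have hS := h.gS
  rw [hdS] at hS
  have key := pass_midD_at hs (f := I.f) I.B0 I.b n ν (I.zQ q)
    (y := q.1.1 ^ m * (I.U q + I.b) + (s.mu Sy.P ^ n)⁻¹ * (I.uS + I.f.Th ((I.uQ q).1.1, (I.uQ q).2)))
    (by
      rw [hq1, huS, hu]
      rfl) hu hS
  obtain ⟨k1, k2⟩ := key
  constructor
  · rw [huS] at k1 ⊢
    refine k1.trans ?_
    rw [hu]
  · refine k2.trans ?_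
    have e1 : XiFD I.f I.b I.B0 (epsD g s I.B0 n ν) (I.zQ q) = I.XiQ q := by
      unfold XiQ
      rw [hq2]
    have e2 : OmFD I.f I.b (dSD g s) (epsD g s I.B0 n ν) (I.zQ q) = I.OmQ q := by
      unfold OmQ
      rw [hq2, hdS]
    unfold exD
    rw [e1, e2, ← hq1, ← hq2]

/-- `η = s V₂` -/
theorem eta_eqD (hI : I.OK S T1 T2 sS wS al1 al2 ka1 ka2 gm2 el) {N : Set (En d)} {q : ParD d × ℝ × ℝ}
    (h : I.Good S T1 T2 sS wS N q) : etaFD I.f I.b q.1.2 (I.zQ q) = q.1.1 * I.V2 q := by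
  have e := hI.eqDH q.1 (((I.chi q, I.V q), I.omg q), 0) q.1.1
  have h0 : I.HB (q.1, I.base q.1) = 0 := h.gU0
  have h1 : I.HB (q.1, I.base q.1 + q.1.1 • (((I.chi q, I.V q), I.omg q), (0 : ℝ))) =
      etaFD I.f I.b q.1.2 (I.zQ q) := by
    simp only [HB, base, X1, U, zQ, wq, Prod.smul_mk, Prod.mk_add_mk, smul_eq_mul]
  rw [h0, h1, zero_add] at e
  rw [e]; rfl

/-- third leg -/
theorem third_legD (hI : I.OK S T1 T2 sS wS al1 al2 ka1 ka2 gm2 el) (k : Fin m → ℝ) {N : Set (En d)}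
    {q : ParD d × ℝ × ℝ} (h : I.Good S T1 T2 sS wS N q) :
    vertD T2 (fun X => I.Ph2 (I.par2 q.1 k, X)) (I.exQ q) =
      ((I.ZB (q.1, I.base q.1) + q.1.1 * I.zt q,
        q.1.1 ^ (m + 1) * (I.K q - ∑ j : Fin m, k j * I.zt q ^ ((j : ℕ) + 1))), I.WW (I.exQ q)) := by
  have hz : (I.base q.1 + q.1.1 • I.vv q).1 = I.zQ q := by
    simp only [base, vv, zQ, X1, U, wq, Prod.smul_mk, Prod.mk_add_mk, smul_eq_mul]
  have h3 : (I.base q.1 + q.1.1 • I.vv q).2 = q.1.1 * I.V2 q := by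
    simp only [base, vv, Prod.smul_mk, Prod.mk_add_mk, smul_eq_mul, zero_add]
  have hXiv : I.XiB (q.1, I.base q.1 + q.1.1 • I.vv q) = I.XiQ q := by
    simp only [XiB, XiQ, hz]
  have hOmv : I.OmB (q.1, I.base q.1 + q.1.1 • I.vv q) = I.OmQ q := by
    simp only [OmB, OmQ, hz]
  have eZ := hI.eqDZ q.1 (I.vv q) q.1.1
  have eR := hI.eqDR q.1 (I.vv q) q.1.1
  have hZ : I.ZB (q.1, I.base q.1 + q.1.1 • I.vv q) = I.XX (I.exQ q) := by
    simp only [ZB, hXiv, hOmv, h3, exQ]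
  have hR : I.RB (q.1, I.base q.1 + q.1.1 • I.vv q) =
      I.Mh (((q.1.2.1 4, q.1.2.2 2), q.1.1 * I.V2 q), (I.XiQ q, I.OmQ q), q.1.1 ^ m) := by
    simp only [RB, hXiv, hOmv, h3]
  rw [hZ] at eZ
  rw [hR] at eR
  change _ = I.ZB (q.1, I.base q.1) + q.1.1 * I.zt q at eZ
  simp only [vertD, h.gT2]
  refine Prod.ext (Prod.ext eZ ?_) rfl
  have hM := h.gM
  rw [h.gYk] at hM
  simp only [Ph2, par2]
  have hsum : (∑ j : Fin m, q.1.1 ^ (m - (j : ℕ)) * k j *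
      (I.XX (I.exQ q) - I.a2 - (I.ZB (q.1, I.base q.1) - I.a2)) ^ ((j : ℕ) + 1)) =
      q.1.1 ^ (m + 1) * ∑ j : Fin m, k j * I.zt q ^ ((j : ℕ) + 1) := by
    rw [Finset.mul_sum]
    refine Finset.sum_congr rfl fun j _ => ?_
    have hj : (j : ℕ) < m := j.2
    have hp : q.1.1 ^ (m + 1) = q.1.1 ^ (m - (j : ℕ)) * q.1.1 ^ ((j : ℕ) + 1) := by
      rw [← pow_add]; congr 1; omega
    have hd : I.XX (I.exQ q) - I.a2 - (I.ZB (q.1, I.base q.1) - I.a2) = q.1.1 * I.zt q := by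
      rw [eZ]; ring
    rw [hd, hp, mul_pow]; ring
  rw [hsum]
  have hK : I.K q = I.V2 q ^ (m + 1) * I.Yk (q.1.1 * I.V2 q) + I.DR (q.1, I.vv q, q.1.1) := rfl
  rw [hK]
  rw [eR] at hM
  rw [mul_pow] at hM
  linear_combination hM

end IngD

end Pool.Agent.Lib.H37D
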