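import Pool.Agent.Lib.H37D.IParD
import Pool.Agent.Lib.H37D.DI2f

/-! # H37D, DI2h: the conditions hold for small parameters (port of H37N/I2h.lean) -/

open Set Filter Topology Asymptotics
open scoped ContDiff

namespace Pool.Agent.Lib.H37D

open Pool.Agent.Lib.H37N

theorem tubeD {A : Type} [TopologicalSpace A] [Zero A] {P : A × ℝ × ℝ → Prop}
    (h : ∀ z ∈ Icc (0 : ℝ) 1, ∀ᶠ q in 𝓝 ((0, z, 0) : A × ℝ × ℝ), P q) :
    ∀ᶠ p in 𝓝 (0 : A), ∀ z ∈ Icc (0 : ℝ) 1, ∀ᶠ x in 𝓝 (0 : ℝ), P (p, z, x) := by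
  have h1 : ∀ᶠ r in 𝓝 ((0, 0) : A × ℝ), ∀ z ∈ Icc (0 : ℝ) 1, P (r.1, z, r.2) := by
    refine isCompact_Icc.eventually_forall_of_forall_eventually ?_
    intro z hz
    have hc : Continuous fun w : (A × ℝ) × ℝ => ((w.1.1, w.2, w.1.2) : A × ℝ × ℝ) := by fun_prop
    have ht := hc.tendsto (((0, 0), z) : (A × ℝ) × ℝ)
    exact ht.eventually (h z hz)
  rw [nhds_prod_eq] at h1
  filter_upwards [h1.curry] with p hp z hz
  filter_upwards [hp] with x hx
  exact hx z hz

namespace IngD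

variable {m d : ℕ} {I : IngD m d} {S T1 T2 : En d → En d} {sS : ℝ} {wS : Wd d} {al1 al2 ka1 ka2 gm2 el : ℝ}

theorem di2h_ZB0 (h : I.OK S T1 T2 sS wS al1 al2 ka1 ka2 gm2 el) : I.ZB (0, I.base 0) = I.a2 := by
  have hm : m ≠ 0 := by have := h.hm; omega
  have h0 : I.XX ((0, 0), 0) = I.a2 := h.XX0
  have e : I.ZB (0, I.base 0) = I.XX ((0 + (0 : ℝ) ^ m * I.XiB (0, I.base 0), 0), 0 + (0 : ℝ) ^ m • I.OmB (0, I.base 0)) :=
    rfl
  rw [e, zero_pow hm, zero_mul, zero_smul, add_zero, add_zero]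
  exact h0

theorem di2h_arg0 (b : ℝ) (z : En d) : argF b 0 z = 0 := by
  have e : argF b (0 : EP d) z = (((0 : ℝ) * z.1.1, (0 : ℝ) * (z.1.2 + b)), mulw 0 z.2) := rfl
  rw [e, zero_mul, zero_mul, mulw_zero_left]
  rfl

theorem OK.good (h : I.OK S T1 T2 sS wS al1 al2 ka1 ka2 gm2 el) {N : Set (En d)} (hN : N ∈ 𝓝 (0 : En d)) :
    ∀ᶠ p in 𝓝 (0 : ParD d), ∀ z ∈ Icc (0 : ℝ) 1, ∀ᶠ x in 𝓝 (0 : ℝ), I.Good S T1 T2 sS wS N (p, z, x) := by
  refine tubeD fun z _ => ?_
  have hm : m ≠ 0 := by have := h.hm; omega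
  obtain ⟨s1, s2, s3, s4, -, s5, -, -, -, -, -, -, -, s12, s13⟩ := h.smooth
  have c1 : Continuous I.chi := s1.continuous
  have c1' : Continuous I.omg := s2.continuous
  have c2 : Continuous I.V := s3.continuous
  have c3 : Continuous I.V2 := s4.continuous
  have c5 : Continuous I.zt := s5.continuous
  have c12 : Continuous I.ZB := s12.continuous
  have c13 : Continuous I.base := s13.continuous
  have cU0 : Continuous I.U0 := h.smooth_U0.continuous
  have cTh : Continuous I.f.Th := h.smf.smTh.continuous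
  have cWW : Continuous I.WW := h.smooth_WW.continuous
  have cX1 : Continuous I.X1 := by
    unfold X1
    fun_prop
  have cU : Continuous I.U := by
    unfold U
    have : Continuous fun q : ParD d × ℝ × ℝ => I.U0 q.1.2 := cU0.comp (by fun_prop)
    fun_prop
  have cw : Continuous I.wq := by
    unfold wq
    fun_prop
  have cz : Continuous I.zQ := by
    unfold zQ
    fun_prop
  have cXi : Continuous I.XiQ := by
    unfold XiQ
    exact (contDiff_XiFD h.smf I.b I.B0).continuous.comp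
      (f := fun q : ParD d × ℝ × ℝ => (q.1.2, I.zQ q)) (by fun_prop)
  have cOm : Continuous I.OmQ := by
    unfold OmQ
    exact (contDiff_OmFD h.smf I.b I.dS).continuous.comp
      (f := fun q : ParD d × ℝ × ℝ => (q.1.2, I.zQ q)) (by fun_prop)
  have cu : Continuous I.uQ := by
    unfold uQ
    exact (contDiff_argF I.b).continuous.comp
      (f := fun q : ParD d × ℝ × ℝ => (q.1.2, I.zQ q)) (by fun_prop)
  have cx0 : Continuous fun q : ParD d × ℝ × ℝ => q.1.2.1 4 := by fun_prop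
  have cw0 : Continuous fun q : ParD d × ℝ × ℝ => q.1.2.2 2 := by fun_prop
  have cex : Continuous I.exQ := by
    unfold exQ
    fun_prop
  have key : ∀ {Y : Type} [TopologicalSpace Y] {f : ParD d × ℝ × ℝ → Y} {y₀ : Y} {Q : Y → Prop},
      Continuous f → f (0, z, 0) = y₀ → (∀ᶠ y in 𝓝 y₀, Q y) →
      ∀ᶠ q in 𝓝 ((0, z, 0) : ParD d × ℝ × ℝ), Q (f q) := by
    intro Y _ f y₀ Q hf hfy hQ
    have ht := hf.tendsto ((0, z, 0) : ParD d × ℝ × ℝ)
    rw [hfy] at ht
    exact ht.eventually hQ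
  have hu0 : I.uQ (0, z, 0) = 0 := di2h_arg0 I.b _
  have he0 : I.exQ (0, z, 0) = 0 := by
    have e : I.exQ (0, z, 0) = ((0 + (0 : ℝ) ^ m * I.XiQ (0, z, 0), (0 : ℝ) * I.V2 (0, z, 0)),
      0 + (0 : ℝ) ^ m • I.OmQ (0, z, 0)) := rfl
    rw [e, zero_pow hm, zero_mul, zero_mul, zero_smul, add_zero, add_zero]
    rfl
  have k1 := key (f := fun q : ParD d × ℝ × ℝ => q.1.1 * q.2.2) (y₀ := 0) (by fun_prop) (by simp) h.eqT1
  have k2 := key (f := fun q : ParD d × ℝ × ℝ => q.1.2) (y₀ := 0) (by fun_prop) rfl h.eqU0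
  have k3 := key (y₀ := 0) cu hu0 h.eqS
  have k5 := key (f := fun q : ParD d × ℝ × ℝ =>
      (((q.1.2.1 4, q.1.2.2 2), q.1.1 * I.V2 q) : (ℝ × Wd d) × ℝ)) (y₀ := 0) (by fun_prop) (by
        refine Prod.ext rfl ?_
        show (0 : ℝ) * I.V2 (0, z, 0) = 0
        rw [zero_mul]) h.eqM
  have k6 := key (f := fun q : ParD d × ℝ × ℝ => q.1.1 * I.V2 q) (y₀ := 0) (by fun_prop) (by
        show (0 : ℝ) * I.V2 (0, z, 0) = 0
        rw [zero_mul]) h.eqYk
  have k7 := key (y₀ := 0) cex he0 h.eqT2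
  have k8 := key (y₀ := 0) cex he0 hN
  have kh : Continuous fun q : ParD d × ℝ × ℝ =>
      ((((I.uQ q).1.1, I.f.Th ((I.uQ q).1.1, (I.uQ q).2) + (I.uQ q).1.2), (I.uQ q).2) : En d) := by
    have e1 : Continuous fun q : ParD d × ℝ × ℝ => (I.uQ q).1.1 := (continuous_fst.comp continuous_fst).comp cu
    have e2 : Continuous fun q : ParD d × ℝ × ℝ => (I.uQ q).1.2 := (continuous_snd.comp continuous_fst).comp cu
    have e3 : Continuous fun q : ParD d × ℝ × ℝ => (I.uQ q).2 := continuous_snd.comp cu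
    exact (e1.prodMk ((cTh.comp (e1.prodMk e3)).add e2)).prodMk e3
  have k9 := key (y₀ := 0) kh (by
    show ((((I.uQ (0, z, 0)).1.1, I.f.Th ((I.uQ (0, z, 0)).1.1, (I.uQ (0, z, 0)).2) + (I.uQ (0, z, 0)).1.2),
      (I.uQ (0, z, 0)).2) : En d) = 0
    rw [hu0]
    have hT : I.f.Th (((0 : En d)).1.1, ((0 : En d)).2) = 0 := h.smf.Th0
    rw [hT]
    refine Prod.ext (Prod.ext rfl ?_) rfl
    exact zero_add _) hN
  have ki : Continuous fun q : ParD d × ℝ × ℝ =>
      (((I.ZB (q.1, I.base q.1) + q.1.1 * I.zt q - I.a2, 0), I.WW (I.exQ q) - I.w2) : En d) := by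
    have : Continuous fun q : ParD d × ℝ × ℝ => I.ZB (q.1, I.base q.1) := c12.comp (by fun_prop)
    have : Continuous fun q : ParD d × ℝ × ℝ => I.WW (I.exQ q) := cWW.comp cex
    fun_prop
  have k10 := key (y₀ := 0) ki (by
    show (((I.ZB (0, I.base 0) + (0 : ℝ) * I.zt (0, z, 0) - I.a2, 0), I.WW (I.exQ (0, z, 0)) - I.w2) : En d) = 0
    rw [di2h_ZB0 h, he0, h.WW0, zero_mul, add_zero, sub_self, sub_self]
    rfl) hN
  filter_upwards [k1, k2, k3, k5, k6, k7, k8, k9, k10] with q g1 g2 g3 g5 g6 g7 g8 g9 g10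
  exact ⟨g1, g2, g3, g5 (I.XiQ q, I.OmQ q) (q.1.1 ^ m), g6, g7, g9, g8, g10⟩

theorem OK.par1_small (h : I.OK S T1 T2 sS wS al1 al2 ka1 ka2 gm2 el) {N1 : Set (PEW m d)}
    (hN : N1 ∈ 𝓝 (0 : PEW m d)) :
    ∀ᶠ r : ℝ × ParD d in 𝓝 0, ∀ z ∈ Icc (0 : ℝ) 1, I.par1 r.1 r.2 z ∈ N1 := by
  have hm : m ≠ 0 := by have := h.hm; omega
  refine isCompact_Icc.eventually_forall_of_forall_eventually ?_
  intro z _
  have cU0 : Continuous I.U0 := h.smooth_U0.continuous
  have hc : Continuous fun w : (ℝ × ParD d) × ℝ => I.par1 w.1.1 w.1.2 w.2 := by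
    unfold par1
    have k1 : Continuous fun w : (ℝ × ParD d) × ℝ => I.U0 w.1.2.2 := cU0.comp (by fun_prop)
    have k2 : Continuous fun w : (ℝ × ParD d) × ℝ => fun j : Fin m => w.1.2.1 ^ (m - (j : ℕ)) * I.G j w.2 := by
      refine continuous_pi fun j => ?_
      have : Continuous fun w : (ℝ × ParD d) × ℝ => I.G j w.2 := (h.smooth_G j).continuous.comp (by fun_prop)
      fun_prop
    exact Continuous.prodMk (Continuous.prodMk (by fun_prop) (Continuous.prodMk (by fun_prop)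
      (Continuous.prodMk (by fun_prop) k2))) (by fun_prop)
  have h0 : I.par1 0 0 z = 0 := by
    have hj : ∀ j : Fin m, m - (j : ℕ) ≠ 0 := fun j => by have := j.2; omega
    unfold par1
    simp only [Prod.fst_zero, Prod.snd_zero, zero_pow hm, zero_mul]
    refine Prod.ext (Prod.ext rfl (Prod.ext rfl (Prod.ext rfl ?_))) rfl
    funext j
    simp [zero_pow (hj j)]
  have ht := hc.tendsto ((0, z) : (ℝ × ParD d) × ℝ)
  have e : I.par1 ((0, z) : (ℝ × ParD d) × ℝ).1.1 ((0, z) : (ℝ × ParD d) × ℝ).1.2 ((0, z) : (ℝ × ParD d) × ℝ).2 = 0 := h0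
  simp only [e] at ht
  exact ht.eventually hN

theorem OK.par2_small (h : I.OK S T1 T2 sS wS al1 al2 ka1 ka2 gm2 el) (C : ℝ) {N2 : Set (PEW m d)}
    (hN : N2 ∈ 𝓝 (0 : PEW m d)) :
    ∀ᶠ p in 𝓝 (0 : ParD d), ∀ k : Fin m → ℝ, (∀ j, |k j| ≤ C) → I.par2 p k ∈ N2 := by
  have hm : m ≠ 0 := by have := h.hm; omega
  obtain ⟨-, -, -, -, -, -, -, -, -, -, -, -, s11, s12, s13⟩ := h.smooth
  have c11 : Continuous I.RB := s11.continuous
  have c12 : Continuous I.ZB := s12.continuous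
  have c13 : Continuous I.base := s13.continuous
  have hK : IsCompact {k : Fin m → ℝ | ∀ j, |k j| ≤ C} := by
    have e : {k : Fin m → ℝ | ∀ j, |k j| ≤ C} = Set.pi univ fun _ => Icc (-C) C := by
      ext k
      simp only [Set.mem_ofPred_eq, Set.mem_pi, mem_univ, true_implies, mem_Icc, abs_le]
    rw [e]
    exact isCompact_univ_pi fun _ => isCompact_Icc
  have hc : Continuous fun w : ParD d × (Fin m → ℝ) => I.par2 w.1 w.2 := by
    unfold par2
    have k1 : Continuous fun w : ParD d × (Fin m → ℝ) => I.RB (w.1, I.base w.1) := c11.comp (by fun_prop)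
    have k2 : Continuous fun w : ParD d × (Fin m → ℝ) => I.ZB (w.1, I.base w.1) := c12.comp (by fun_prop)
    have k3 : Continuous fun w : ParD d × (Fin m → ℝ) => fun j : Fin m => w.1.1 ^ (m - (j : ℕ)) * w.2 j := by
      refine continuous_pi fun j => ?_
      fun_prop
    fun_prop
  have h0 : ∀ k : Fin m → ℝ, I.par2 0 k = 0 := by
    intro k
    have hj : ∀ j : Fin m, m - (j : ℕ) ≠ 0 := fun j => by have := j.2; omega
    unfold par2
    rw [di2h_ZB0 h]
    simp only [Prod.fst_zero, Prod.snd_zero, zero_pow hm, zero_mul, sub_self]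
    refine Prod.ext (Prod.ext rfl (Prod.ext rfl (Prod.ext rfl ?_))) rfl
    funext j
    simp [zero_pow (hj j)]
  have := hK.eventually_forall_of_forall_eventually (x₀ := (0 : ParD d))
    (P := fun p k => I.par2 p k ∈ N2) (fun k _ => by
      have ht := hc.tendsto ((0, k) : ParD d × (Fin m → ℝ))
      simp only [h0 k] at ht
      exact ht.eventually hN)
  filter_upwards [this] with p hp k hk
  exact hp k hk

end IngD

end Pool.Agent.Lib.H37D
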