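import Pool.Agent.Lib.H37N.I3e

/-! # H37D, DI3e: Lemma AS1 for a general finite-dimensional space of parameters (port of H37N/I3e.lean) -/

open Set Filter Topology Asymptotics
open scoped ContDiff

namespace Pool.Agent.Lib.H37D

open Pool.Agent.Lib.H37N

/-- Lemma AS1.

PROOF. `sign_path` gives t0, t1, g1; G = pathG m al1 t0 t1 g1, smooth (polynomial).  Q = P × ℝ (p,z), w(q,x) = zt(p,z,x), K(q,x) = K(p,z,x) (reassociate), C = {0} ×ˢ Icc 0 1 compact;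
∂_x zt(0,z,0) = al2 t(z) ≠ 0 (G_j(z) (al1 x)^(j+1) = t g^j x^(j+1); only j = 0 contributes; m ≥ 1).  `exp_powers` gives smooth d j.  For (p,z) near C the expansion with M = m+1 holds;
for p near 0 it holds for all z ∈ [0,1] (tube).  `coeff_zero`: d m (0,z) = c(z)/al2^(m+1) for z ∈ [0,1], so d m (0,0) d m (0,1) < 0 (`sign_path`); by continuity
d m (p,0) d m (p,1) < 0 for p near 0, so by the intermediate value theorem (z ↦ d m (p,z) continuous on [0,1]) there is z with d m (p,z) = 0.  k j = d j (p,z) for j < m; the sum over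
range (m+1) is the sum over Fin m plus the zero term.  C: the functions (p,z) ↦ |d j (p,z)|, j < m, are continuous, bounded by some C on {0} ×ˢ [0,1] strictly, so (tube) for p near 0. -/
theorem AS1D {P : Type} [NormedAddCommGroup P] [NormedSpace ℝ P] [FiniteDimensional ℝ P] {m : ℕ} (hm : 1 ≤ m) {ka1 ka2 bt al1 al2 : ℝ} (h1 : ka1 ≠ 0) (h2 : ka2 ≠ 0) (hb : bt ≠ 0) (ha1 : al1 ≠ 0)
    (ha2 : al2 ≠ 0) :
    ∃ G : Fin m → ℝ → ℝ, (∀ j, ContDiff ℝ ∞ (G j)) ∧ ∀ (el : ℝ) (zt K : P × ℝ × ℝ → ℝ), ContDiff ℝ ∞ zt → ContDiff ℝ ∞ K →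
      (∀ z x, zt (0, z, x) = al2 * (ka1 * x ^ (m + 1) + ∑ j : Fin m, G j z * (al1 * x) ^ ((j : ℕ) + 1))) →
      (∀ z x, K (0, z, x) = ka2 * (ka1 * x ^ (m + 1) + ∑ j : Fin m, G j z * (al1 * x) ^ ((j : ℕ) + 1)) ^ (m + 1) + bt * x +
        el * (ka1 * x ^ (m + 1) + ∑ j : Fin m, G j z * (al1 * x) ^ ((j : ℕ) + 1))) →
      ∃ C : ℝ, ∀ᶠ p in 𝓝 (0 : P), ∃ z ∈ Icc (0 : ℝ) 1, ∃ k : Fin m → ℝ, (∀ j, |k j| ≤ C) ∧
        (fun x => K (p, z, x) - K (p, z, 0) - ∑ j : Fin m, k j * (zt (p, z, x) - zt (p, z, 0)) ^ ((j : ℕ) + 1)) =O[𝓝 0]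
          fun x : ℝ => x ^ (m + 2) := by
  obtain ⟨t0, t1, g1, hpath, hsign⟩ := sign_path hm h1 h2 hb
  refine ⟨pathG m al1 t0 t1 g1, ?_, ?_⟩
  · intro j
    unfold pathG
    fun_prop
  intro el zt K hzt hK hzt0 hK0
  have hG : ∀ z x : ℝ, ∑ j : Fin m, pathG m al1 t0 t1 g1 j z * (al1 * x) ^ ((j : ℕ) + 1) =
      ∑ j : Fin m, (t0 + z * (t1 - t0)) * (z * g1) ^ (j : ℕ) * x ^ ((j : ℕ) + 1) := by
    intro z x
    refine Finset.sum_congr rfl fun j _ => ?_
    have hne : al1 ^ ((j : ℕ) + 1) ≠ 0 := pow_ne_zero _ ha1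
    unfold pathG
    rw [mul_pow al1 x, div_mul_eq_mul_div, ← mul_assoc, mul_right_comm, mul_div_assoc, div_self hne, mul_one]
  set V0 : ℝ → ℝ → ℝ := fun z x => ka1 * x ^ (m + 1) +
    ∑ j : Fin m, (t0 + z * (t1 - t0)) * (z * g1) ^ (j : ℕ) * x ^ ((j : ℕ) + 1) with hV0
  have hzt0' : ∀ z x, zt (0, z, x) = al2 * V0 z x := fun z x => by rw [hzt0, hG]
  have hK0' : ∀ z x, K (0, z, x) = ka2 * V0 z x ^ (m + 1) + bt * x + el * V0 z x :=
    fun z x => by rw [hK0, hG]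
  set w : (P × ℝ) × ℝ → ℝ := fun r => zt (r.1.1, r.1.2, r.2) with hw
  set K' : (P × ℝ) × ℝ → ℝ := fun r => K (r.1.1, r.1.2, r.2) with hK'
  have hws : ContDiff ℝ ∞ w := hzt.comp
    ((contDiff_fst.fst).prodMk ((contDiff_fst.snd).prodMk contDiff_snd))
  have hKs : ContDiff ℝ ∞ K' := hK.comp
    ((contDiff_fst.fst).prodMk ((contDiff_fst.snd).prodMk contDiff_snd))
  set C : Set (P × ℝ) := {0} ×ˢ Icc (0 : ℝ) 1 with hC
  have hCc : IsCompact C := isCompact_singleton.prod isCompact_Icc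
  have hCmem : ∀ z ∈ Icc (0 : ℝ) 1, ((0 : P), z) ∈ C := fun z hz => ⟨rfl, hz⟩
  obtain ⟨d, hd, hexp⟩ := exp_powers hws hKs hCc (by
    rintro ⟨p, z⟩ ⟨hp, hz⟩
    have hp' : p = 0 := hp
    subst hp'
    have h3 : (fun x => w (((0 : P), z), x)) = fun x => al2 * V0 z x := funext fun x => hzt0' z x
    rw [h3, ((i3e_deriv hm (V0 := V0 z) fun x => rfl).1.const_mul al2).deriv]
    exact mul_ne_zero ha2 (hpath z hz))
  rw [eventually_nhdsSet_iff_forall] at hexp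
  -- the value at p = 0
  have hval : ∀ z ∈ Icc (0 : ℝ) 1, d m ((0 : P), z) =
      (ka2 + bt * (((t0 + z * (t1 - t0)) * (z * g1) ^ m * (1 + (-1) ^ m) - ka1) /
        (t0 + z * (t1 - t0)) ^ (m + 2))) / al2 ^ (m + 1) := by
    intro z hz
    exact coeff_zero hm (hpath z hz) ha2 (w := fun x => w (((0 : P), z), x))
      (K := fun x => K' (((0 : P), z), x)) (V0 := V0 z) (fun x => rfl) (fun x => hzt0' z x)
      (fun x => hK0' z x) (fun j => d j ((0 : P), z))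
      ((hexp _ (hCmem z hz)).self_of_nhds (m + 1))
  have hneg : d m ((0 : P), 0) * d m ((0 : P), 1) < 0 := by
    rw [hval 0 ⟨le_rfl, zero_le_one⟩, hval 1 ⟨zero_le_one, le_rfl⟩]
    have e0 : t0 + 0 * (t1 - t0) = t0 := by ring
    have e1 : t0 + 1 * (t1 - t0) = t1 := by ring
    rw [e0, e1, div_mul_div_comm]
    exact div_neg_of_neg_of_pos hsign (mul_self_pos.2 (pow_ne_zero _ ha2))
  have hdc : ∀ j, Continuous (d j) := fun j => (hd j).continuous
  have hev1 : ∀ᶠ p in 𝓝 (0 : P), d m (p, 0) * d m (p, 1) < 0 := by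
    have hc : Continuous fun p : P => d m (p, 0) * d m (p, 1) :=
      ((hdc m).comp (by fun_prop)).mul ((hdc m).comp (by fun_prop))
    exact hc.continuousAt.eventually_lt_const hneg
  -- the bound
  set B : P × ℝ → ℝ := fun q => ∑ j : Fin m, |d j q| with hB
  have hBc : Continuous B := by
    rw [hB]
    exact continuous_finsetSum _ fun j _ => (hdc j).abs
  obtain ⟨C0, hC0⟩ := hCc.exists_bound_of_continuousOn hBc.continuousOn
  have hev2 : ∀ᶠ p in 𝓝 (0 : P), ∀ z ∈ Icc (0 : ℝ) 1, B (p, z) < C0 + 1 := by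
    refine isCompact_Icc.eventually_forall_of_forall_eventually fun z hz => ?_
    have h3 : B ((0 : P), z) < C0 + 1 := by
      have := hC0 _ (hCmem z hz)
      rw [Real.norm_eq_abs] at this
      linarith [le_abs_self (B ((0 : P), z))]
    exact hBc.continuousAt.eventually_lt_const h3
  have hev3 : ∀ᶠ p in 𝓝 (0 : P), ∀ z ∈ Icc (0 : ℝ) 1, ∀ M : ℕ,
      (fun x => K' ((p, z), x) - K' ((p, z), 0) - ∑ j ∈ Finset.range M, d j (p, z) *
        (w ((p, z), x) - w ((p, z), 0)) ^ (j + 1)) =O[𝓝 0] fun x : ℝ => x ^ (M + 1) :=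
    isCompact_Icc.eventually_forall_of_forall_eventually fun z hz => hexp _ (hCmem z hz)
  refine ⟨C0 + 1, ?_⟩
  filter_upwards [hev1, hev2, hev3] with p hp1 hp2 hp3
  have hcz : Continuous fun z : ℝ => d m (p, z) := (hdc m).comp (by fun_prop)
  obtain ⟨z, hz, hz0⟩ : ∃ z ∈ Icc (0 : ℝ) 1, d m (p, z) = 0 := by
    rcases mul_neg_iff.1 hp1 with ⟨h3, h4⟩ | ⟨h3, h4⟩
    · obtain ⟨z, hz, hz'⟩ := intermediate_value_Icc' zero_le_one hcz.continuousOn
        (show (0 : ℝ) ∈ Icc (d m (p, 1)) (d m (p, 0)) from ⟨h4.le, h3.le⟩)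
      exact ⟨z, hz, hz'⟩
    · obtain ⟨z, hz, hz'⟩ := intermediate_value_Icc zero_le_one hcz.continuousOn
        (show (0 : ℝ) ∈ Icc (d m (p, 0)) (d m (p, 1)) from ⟨h3.le, h4.le⟩)
      exact ⟨z, hz, hz'⟩
  refine ⟨z, hz, fun j => d j (p, z), fun j => ?_, ?_⟩
  · have h3 : |d j (p, z)| ≤ B (p, z) :=
      Finset.single_le_sum (f := fun j : Fin m => |d j (p, z)|) (fun i _ => abs_nonneg _)
        (Finset.mem_univ j)
    exact h3.trans (hp2 z hz).le
  · have h3 := hp3 z hz (m + 1)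
    refine h3.congr' (Eventually.of_forall fun x => ?_) (Eventually.of_forall fun x => rfl)
    simp only []
    rw [Finset.sum_range_succ, hz0, zero_mul, add_zero, Finset.sum_range]

end Pool.Agent.Lib.H37D
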