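import Pool.Agent.Lib.H37D.DI1c
import Pool.Agent.Lib.H37D.DI2e
import Pool.Agent.Lib.H37D.DI2f
import Pool.Agent.Lib.H37D.DI2g
import Pool.Agent.Lib.H37D.DI2h
import Pool.Agent.Lib.H37D.DI3e

/-!
# H37D DI99: the analytic core of Stage I in dimension `2 + d` (port of H37N/I4a.lean)
-/

open Set Filter Topology Asymptotics
open scoped ContDiff

namespace Pool.Agent.Lib.H37D

open Pool.Agent.Lib.H37N

variable {d : ℕ}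

/-- the whole curve, from the three legs -/
theorem cmp_eqD {m : ℕ} {g : En d → En d} {s : FrD d} (hs : IsFrD g s) {I : IngD m d}
    {T1 T2 : En d → En d} {al1 al2 ka1 ka2 gm2 el : ℝ}
    (hI : I.OK (SSD g s) T1 T2 s.sS s.wS al1 al2 ka1 ka2 gm2 el) (hdS : I.dS = dSD g s)
    (huS : I.uS = s.uS) {n ν : ℕ} {p : ParD d} (hp : p = parD m g s I.B0 n ν) (z : ℝ)
    (k : Fin m → ℝ) {N : Set (En d)} {x : ℝ}
    (h : I.Good (SSD g s) T1 T2 s.sS s.wS N (p, z, x)) :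
    linD (s.lam Sy.P) (s.mu Sy.P) (s.al Sy.P) n
        (vertD T1 (fun X => I.Ph1 (I.par1 (s.mu Sy.P ^ n)⁻¹ p z, X)) ((0, p.1 * x), 0)) -
          ((0, I.uS), 0) ∈ N ∧
      midD g s n ν
        (vertD T1 (fun X => I.Ph1 (I.par1 (s.mu Sy.P ^ n)⁻¹ p z, X)) ((0, p.1 * x), 0)) -
          ((0, I.b), 0) ∈ N ∧
      cmpD g s T1 T2 I.b n ν (fun X => I.Ph1 (I.par1 (s.mu Sy.P ^ n)⁻¹ p z, X))
          (fun X => I.Ph2 (I.par2 p k, X)) (p.1 * x) =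
        ((I.ZB (p, I.base p) + p.1 * I.zt (p, z, x),
          p.1 ^ (m + 1) * (I.K (p, z, x) - ∑ j : Fin m, k j * I.zt (p, z, x) ^ ((j : ℕ) + 1))),
            I.WW (I.exQ (p, z, x))) := by
  have h1 := IngD.first_legD (s.mu Sy.P ^ n)⁻¹ h
  have hpl := IngD.pass_legD hs hI.hm h hdS huS (n := n) (ν := ν) hp
  have he := IngD.eta_eqD hI h
  have ht := IngD.third_legD hI k h
  obtain ⟨hp2, hp1⟩ := hpl
  have hmid : midD g s n ν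
      (vertD T1 (fun X => I.Ph1 (I.par1 (s.mu Sy.P ^ n)⁻¹ p z, X)) ((0, p.1 * x), 0)) -
        ((0, I.b), 0) = I.exQ (p, z, x) := by
    rw [h1, hp1, he]
    rfl
  refine ⟨?_, ?_, ?_⟩
  · rw [h1, hp2]
    exact h.gN1
  · rw [hmid]
    exact h.gN2
  · unfold cmpD
    rw [hmid, ht]

theorem coreD {m : ℕ} (hm : 1 ≤ m) {g : En d → En d} {s : FrD d} (hs : IsFrD g s)
    {T1 T2 : En d → En d} (hT1 : ∀ᶠ v in 𝓝 (0 : En d), ContDiffAt ℝ ∞ T1 v) {a1 al1 ka1 : ℝ}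
    {w1 : Wd d} (hT10 : T1 0 = ((a1, 0), w1)) (hal1 : (fderiv ℝ T1 0 ((0, 1), 0)).1.1 = al1)
    (hal10 : al1 ≠ 0)
    (hka1 : (fun t : ℝ => (T1 ((0, t), 0)).1.2 - ka1 * t ^ (m + 1)) =O[𝓝 0] fun t : ℝ => t ^ (m + 2))
    (hka10 : ka1 ≠ 0) (hT2 : ∀ᶠ v in 𝓝 (0 : En d), ContDiffAt ℝ ∞ T2 v) {a2 al2 gm2 ka2 : ℝ}
    {w2 : Wd d} (hT20 : T2 0 = ((a2, 0), w2)) (hal2 : (fderiv ℝ T2 0 ((0, 1), 0)).1.1 = al2)
    (hal20 : al2 ≠ 0) (hgm2 : (fderiv ℝ T2 0 ((1, 0), 0)).1.2 = gm2) (hgm20 : gm2 ≠ 0)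
    (hka2 : (fun t : ℝ => (T2 ((0, t), 0)).1.2 - ka2 * t ^ (m + 1)) =O[𝓝 0] fun t : ℝ => t ^ (m + 2))
    (hka20 : ka2 ≠ 0) (b : ℝ) :
    ∃ Φ1 Φ2 : PEW m d × ℝ × Wd d → ℝ, ContDiff ℝ ∞ Φ1 ∧ ContDiff ℝ ∞ Φ2 ∧ (∀ X, Φ1 (0, X) = 0) ∧
      (∀ X, Φ2 (0, X) = 0) ∧
      ∀ N1 ∈ 𝓝 (0 : PEW m d), ∀ N2 ∈ 𝓝 (0 : PEW m d), ∀ N ∈ 𝓝 (0 : En d),
        ∃ n ν : ℕ, ∃ p1 ∈ N1, ∃ p2 ∈ N2,
          linD (s.lam Sy.P) (s.mu Sy.P) (s.al Sy.P) n (vertD T1 (fun X => Φ1 (p1, X)) 0) -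
            ((0, s.uS), 0) ∈ N ∧
          midD g s n ν (vertD T1 (fun X => Φ1 (p1, X)) 0) - ((0, b), 0) ∈ N ∧
          cmpD g s T1 T2 b n ν (fun X => Φ1 (p1, X)) (fun X => Φ2 (p2, X)) 0 - ((a2, 0), w2) ∈ N ∧
          (cmpD g s T1 T2 b n ν (fun X => Φ1 (p1, X)) (fun X => Φ2 (p2, X)) 0).1.2 = 0 ∧
          (fun t => (cmpD g s T1 T2 b n ν (fun X => Φ1 (p1, X)) (fun X => Φ2 (p2, X)) t).1.2)
            =O[𝓝 0] fun t : ℝ => t ^ (m + 2) := by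
  have hdS0 : 0 < dSD g s := hs.sdata.d_pos
  have hjS : 0 < pjac (SSD g s) 0 := hs.sdata.pj_pos
  obtain ⟨bt, hbt⟩ : ∃ bt : ℝ, bt = 1 * (pjac (SSD g s) 0 / dSD g s) * gm2 * al1 := ⟨_, rfl⟩
  have hbt0 : bt ≠ 0 := by
    have : pjac (SSD g s) 0 / dSD g s ≠ 0 := (div_pos hjS hdS0).ne'
    rw [hbt]
    positivity
  obtain ⟨G, hG, hAS⟩ := AS1D (P := ParD d) hm hka10 hka20 hbt0 hal10 hal20
  obtain ⟨I, el, hIa, hIb, hIa2, hIB0, hIuS, hIdS, hIw1, hIw2, hIG, hIY, hI⟩ :=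
    exists_ingD hm hs hT1 hT10 hal1 hka1 hT2 hT20 hal2 hal20 hgm2 hka2 b 1 hG
  obtain ⟨-, -, -, -, -, hszt, hsK, hsP1, hsP2, -⟩ := hI.smooth
  obtain ⟨C, hC⟩ := hAS el I.zt I.K hszt hsK (fun z x => by rw [(hI.at_zero z x).1, hIG])
    (fun z x => by rw [(hI.at_zero z x).2, hIG, hIY, hIB0, hbt])
  refine ⟨I.Ph1, I.Ph2, hsP1, hsP2, fun X => (hI.Ph_zero X).1, fun X => (hI.Ph_zero X).2, ?_⟩
  intro N1 hN1 N2 hN2 N hN
  obtain ⟨n, ν, hn, hν, hpar, hmi⟩ := parD_tendsto hm hs (B0 := I.B0) (by rw [hIB0]; exact one_pos)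
  have hev1 := hpar.eventually hC
  have hev2 := hpar.eventually (hI.good hN)
  have hev3 := (hmi.prodMk_nhds hpar).eventually (hI.par1_small hN1)
  have hev4 := hpar.eventually (hI.par2_small C hN2)
  obtain ⟨j, ⟨⟨z, hz, k, hk, hO⟩, hgood, hp1, hp2⟩⟩ := (hev1.and (hev2.and (hev3.and hev4))).exists
  obtain ⟨p, hp⟩ : ∃ p : ParD d, p = parD m g s I.B0 (n j) (ν j) := ⟨_, rfl⟩
  rw [← hp] at hgood hp1 hp2 hO
  have hs0 : 0 < p.1 := by rw [hp]; exact parD_pos m hs I.B0 (n j) (ν j)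
  obtain ⟨-, -, -, -, hx4, hx5⟩ := hI.at_x0 p z hs0.ne'
  have hg := hgood z hz
  have hc0 := cmp_eqD hs hI hIdS hIuS hp z k hg.self_of_nhds
  rw [mul_zero, hx4, hx5] at hc0
  obtain ⟨hc2, hc3, hc4⟩ := hc0
  have hzero : (0 : ℝ) - ∑ j : Fin m, k j * (0 : ℝ) ^ ((j : ℕ) + 1) = 0 := by simp
  rw [hzero, mul_zero, mul_zero, add_zero] at hc4
  refine ⟨n j, ν j, I.par1 (s.mu Sy.P ^ n j)⁻¹ p z, hp1 z hz, I.par2 p k, hp2 k hk, ?_, ?_, ?_, ?_, ?_⟩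
  · rw [hIuS] at hc2
    exact hc2
  · rw [hIb] at hc3
    exact hc3
  · rw [hIb] at hc4
    rw [hc4]
    have h3 := hg.self_of_nhds.gN3
    rw [hx4, mul_zero, add_zero, hIa2, hIw2] at h3
    have h4 : ((I.ZB (p, I.base p), (0 : ℝ)), I.WW (I.exQ (p, z, 0))) - ((a2, 0), w2) =
        (((I.ZB (p, I.base p) - a2, 0), I.WW (I.exQ (p, z, 0)) - w2) : En d) := by
      simp
    rw [h4]
    exact h3
  · rw [hIb] at hc4
    rw [hc4]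
  · -- the order
    have ht : Tendsto (fun t : ℝ => t / p.1) (𝓝 0) (𝓝 0) := by
      have : Continuous (fun t : ℝ => t / p.1) := by fun_prop
      simpa using this.tendsto 0
    have hev : ∀ᶠ t : ℝ in 𝓝 0, (cmpD g s T1 T2 b (n j) (ν j)
        (fun X => I.Ph1 (I.par1 (s.mu Sy.P ^ n j)⁻¹ p z, X)) (fun X => I.Ph2 (I.par2 p k, X)) t).1.2 =
        p.1 ^ (m + 1) * (I.K (p, z, t / p.1) - I.K (p, z, 0) -
          ∑ j : Fin m, k j * (I.zt (p, z, t / p.1) - I.zt (p, z, 0)) ^ ((j : ℕ) + 1)) := by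
      filter_upwards [ht.eventually hg] with t htg
      have hc := cmp_eqD hs hI hIdS hIuS hp z k htg
      have hc' := hc.2.2
      rw [mul_div_cancel₀ t hs0.ne', hIb] at hc'
      rw [hc', hx4, hx5, sub_zero]
      simp only [sub_zero]
    have hO' := hO.comp_tendsto ht
    have hO2 : (fun t : ℝ => I.K (p, z, t / p.1) - I.K (p, z, 0) -
          ∑ j : Fin m, k j * (I.zt (p, z, t / p.1) - I.zt (p, z, 0)) ^ ((j : ℕ) + 1)) =O[𝓝 0]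
          fun t : ℝ => (t / p.1) ^ (m + 2) := hO'
    refine (IsBigO.congr' (hO2.const_mul_left (p.1 ^ (m + 1))) (hev.mono fun t ht => ht.symm)
      EventuallyEq.rfl).trans ?_
    simp only [div_eq_mul_inv, mul_pow, inv_pow]
    have : (fun t : ℝ => t ^ (m + 2) * (p.1 ^ (m + 2))⁻¹) =O[𝓝 0] fun t : ℝ => t ^ (m + 2) := by
      simp_rw [mul_comm _ ((p.1 ^ (m + 2))⁻¹)]
      exact (isBigO_refl _ _).const_mul_left _
    exact this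

end Pool.Agent.Lib.H37D
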