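import Pool.Agent.Lib.H37D.DP03
import Pool.Agent.Lib.H37P.P04

/-!
# H37D DP04 (S/M): the orbits after an admissible perturbation (port of H37P/P04.lean)

Word for word as H37P/P04 (`dp03_injOn`, `VVd_FFd_disjoint`, `VOD_sub`, `iterate_eq_of_VOD`).
-/

open Set Filter Topology Asymptotics
open scoped ContDiff

namespace Pool.Agent.Lib.H37D

open Pool.Agent.Lib.H37N

variable {d : ℕ} {g : En d → En d} {s : FrD d} {Z : Set (En d)} {b a : ℝ} {wT : Wd d} {k l : ℕ}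
  {r : ℝ} {D B : Set (En d)} {Li : En d → En d}

theorem dp04_iterate {g g' : En d → En d} (h : ∀ z ∈ VOD d, g' z = g z) {n : ℕ} {z : En d}
    (hz : ∀ j < n, g^[j] z ∈ VOD d) : ∀ j ≤ n, g'^[j] z = g^[j] z := by
  intro j
  induction j with
  | zero => intro _; rfl
  | succ j ih =>
    intro hj
    rw [Function.iterate_succ_apply', Function.iterate_succ_apply', ih (by omega)]
    exact h _ (hz j (by omega))

theorem PlaceD.eqOff (hN : NearS g) (hZ : Z ⊆ interior (FFd d))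
    (hp : PlaceD g s Z b a wT k l r D B Li) {ψ : En d → En d} (hψ : AdmD D ψ) :
    EqOffD Z g (ψ ∘ g) := by
  intro z hz hzZ
  show ψ (g z) = g z
  by_cases h : g z ∈ D
  · exfalso
    obtain ⟨z', hz', h1⟩ := hp.subD h
    have hz'F : z' ∈ Dd d := Or.inr (interior_subset (hZ hz'))
    have h2 : z' = z := dp03_injOn hN hz'F hz h1
    exact hzZ (h2 ▸ hz')
  · exact hψ.1 _ h

theorem PlaceD.eqV (hN : NearS g) (hZ : Z ⊆ interior (FFd d))
    (hp : PlaceD g s Z b a wT k l r D B Li) {ψ : En d → En d} (hψ : AdmD D ψ) :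
    ∀ z ∈ VVd d Sy.P ∪ VVd d Sy.Q, (ψ ∘ g) z = g z := by
  intro z hz
  refine hp.eqOff hN hZ hψ z (Or.inl hz) fun h => ?_
  exact Set.disjoint_left.1 VVd_FFd_disjoint hz (interior_subset (hZ h))

theorem PlaceD.iter_in (hN : NearS g) (hp : PlaceD g s Z b a wT k l r D B Li) {ψ : En d → En d}
    (hψ : AdmD D ψ) {v : En d} (hv : v ∈ B) : ∀ i ≤ k, InD (ψ ∘ g) s b i v = InD g s b i v := by
  intro i
  induction i with
  | zero => intro _; rfl
  | succ i ih =>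
    intro hi
    have h1 : InD (ψ ∘ g) s b (i + 1) v = (ψ ∘ g) (InD (ψ ∘ g) s b i v) :=
      Function.iterate_succ_apply' _ _ _
    have h2 : InD g s b (i + 1) v = g (InD g s b i v) := Function.iterate_succ_apply' _ _ _
    rw [h1, h2, ih (by omega)]
    exact hψ.1 _ (hp.notD v hv i (by omega))

theorem PlaceD.iter_D (hN : NearS g) (hZ : Z ⊆ interior (FFd d))
    (hp : PlaceD g s Z b a wT k l r D B Li) {ψ : En d → En d} (hψ : AdmD D ψ) {w : En d}
    (hw : w ∈ D) : ∀ i ≤ l, (ψ ∘ g)^[i] w = g^[i] w := by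
  have h1 : ∀ z ∈ VOD d, (ψ ∘ g) z = g z := fun z hz =>
    hp.eqV hN hZ hψ z (VOD_sub hz)
  exact dp04_iterate h1 (fun j hj => hp.path w hw j hj.le)

/-- the transition after the perturbation, and where it passes -/
theorem PlaceD.transition (hN : NearS g) (hZ : Z ⊆ interior (FFd d))
    (hp : PlaceD g s Z b a wT k l r D B Li) {ψ : En d → En d} (hψ : AdmD D ψ) {v : En d}
    (hv : v ∈ B) :
    TTD (ψ ∘ g) s b k l v = PlD g s l (ψ (Li (TTD g s b k l v))) ∧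
    (ψ ∘ g)^[k + 1 + l] (s.κ Sy.Q ((v.1.1, b + v.1.2), v.2)) = s.κ Sy.P (TTD (ψ ∘ g) s b k l v) ∧
    TTD (ψ ∘ g) s b k l v ∈ Metric.ball (((a, 0), wT) : En d) r ∧
    ∀ i ≤ k + 1 + l, (ψ ∘ g)^[i] (s.κ Sy.Q ((v.1.1, b + v.1.2), v.2)) ∈ VOD d ∪ Z := by
  have hw : g (InD g s b k v) ∈ D := hp.inD v hv
  set w := g (InD g s b k v) with hwd
  have hψw : ψ w ∈ D := hψ.2 w hw
  have hk : (ψ ∘ g) (InD (ψ ∘ g) s b k v) = ψ w := by
    rw [hp.iter_in hN hψ hv k le_rfl]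
    rfl
  have hl : ∀ i ≤ l, (ψ ∘ g)^[i] (ψ w) = g^[i] (ψ w) := hp.iter_D hN hZ hψ hψw
  have hTT : TTD (ψ ∘ g) s b k l v = PlD g s l (ψ w) := by
    unfold TTD PlD
    rw [hk, hl l le_rfl]
  have hTT0 : TTD g s b k l v = PlD g s l w := rfl
  have hk1 : (ψ ∘ g)^[k + 1] (s.κ Sy.Q ((v.1.1, b + v.1.2), v.2)) = ψ w := by
    rw [Function.iterate_succ_apply']
    exact hk
  refine ⟨?_, ?_, ?_, ?_⟩
  · rw [hTT, hTT0, hp.Li_Pl w hw]
  · rw [hTT, Nat.add_comm (k + 1) l, Function.iterate_add_apply, hk1, hl l le_rfl]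
    exact hp.land _ hψw
  · rw [hTT]
    exact hp.Pl_mem _ hψw
  · intro i hi
    rcases Nat.lt_or_ge k i with h | h
    · obtain ⟨j, rfl⟩ : ∃ j, i = j + (k + 1) := ⟨i - (k + 1), by omega⟩
      rw [Function.iterate_add_apply, hk1, hl j (by omega)]
      exact Or.inl (hp.path _ hψw j (by omega))
    · have h1 : (ψ ∘ g)^[i] (s.κ Sy.Q ((v.1.1, b + v.1.2), v.2)) = InD g s b i v :=
        hp.iter_in hN hψ hv i h
      rw [h1]
      exact hp.pathB v hv i h

end Pool.Agent.Lib.H37D
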