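import Pool.Agent.Lib.H37D.DP02
import Pool.Agent.Lib.H37D.DP03
import Pool.Agent.Lib.H37D.DP04
import Pool.Agent.Lib.H37D.DP05
import Pool.Agent.Lib.H37P.J01

/-!
# H37D DJ01 (M): the leading coefficient can be made nonzero (port of H37P/J01.lean)

`j01_had`, `j01_lead` (H37P/J01) are one-dimensional and are used as they are.
* `j01_lineD`, `j01_alphaD`: as `j01_line`, `j01_alpha` (`tt_regularD`, `tt_derivD`; the line `t ↦ ((0,t),0)`).
* `j01_tdD`, `j01_fixD`: word for word as `j01_td`, `j01_fix` (`PlaceD.iter_in`, `PlaceD.iter_D`, `tt_regularD`).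
* `nondegD`: as `nondeg`: `f t = (TTD ((0,t),0)).1.2 = t^(m+1) G t`; if `G 0 ≠ 0` take `g' = g`; otherwise
  `Ψ(p,v) = ((v.1.1, v.1.2 + p (v.1.1 - a)^(m+1) χ v), v.2)`, `χ` a bump at `((a,0),wT)` with support in the ball of radius `r/2`, `PlaceD.family`, small
  `p ≠ 0`; `(TTD (ψ ∘ g) ((0,t),0)).1.2 = (TTD g ((0,t),0)).1.2 + p ((TTD g ((0,t),0)).1.1 - a)^(m+1)` near `t = 0` (`PlaceD.transition`), and
  `(TTD g ((0,t),0)).1.1 - a = t G1 t`, `G1 0 = α ≠ 0`; the new leading coefficient is `p α^(m+1)`.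
-/

open Set Filter Topology Asymptotics
open scoped ContDiff

namespace Pool.Agent.Lib.H37D

open Pool.Agent.Lib.H37N

variable {d : ℕ}

theorem j01_lineD {g : En d → En d} {s : FrD d} {Z : Set (En d)} {m : ℕ} {b a : ℝ} {wT : Wd d}
    {k l : ℕ} (hN : NearS g) (hs : IsFrD g s) (ht : TDD g s Z m b a wT k l) :
    ∀ᶠ t : ℝ in 𝓝 0, ContDiffAt ℝ ∞ (fun t : ℝ => TTD g s b k l ((0, t), 0)) t := by
  obtain ⟨⟨O, hO, h0, hc, -⟩, -⟩ := tt_regularD hN hs ht
  have hl : ContDiff ℝ ∞ (fun t : ℝ => ((((0 : ℝ), t), 0) : En d)) :=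
    (contDiff_const.prodMk contDiff_id).prodMk contDiff_const
  have h1 : ∀ᶠ t : ℝ in 𝓝 0, ((((0 : ℝ), t), 0) : En d) ∈ O :=
    hl.continuous.continuousAt.eventually_mem (hO.mem_nhds h0)
  filter_upwards [h1] with t ht
  have h2 := hc.contDiffAt (hO.mem_nhds ht)
  generalize TTD g s b k l = T at h2
  exact ContDiffAt.comp (g := T) (f := fun t : ℝ => ((((0 : ℝ), t), 0) : En d)) t h2 hl.contDiffAt

/-- the derivative of the first coordinate along the arc -/
theorem j01_alphaD {g : En d → En d} {s : FrD d} {Z : Set (En d)} {m : ℕ} {b a : ℝ} {wT : Wd d}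
    {k l : ℕ} (hN : NearS g) (hs : IsFrD g s) (hm : 1 ≤ m) (ht : TDD g s Z m b a wT k l) :
    ∃ α : ℝ, α ≠ 0 ∧ HasDerivAt (fun t : ℝ => (TTD g s b k l ((0, t), 0)).1.1) α 0 := by
  obtain ⟨⟨O, hO, h0, hc, -⟩, -⟩ := tt_regularD hN hs ht
  obtain ⟨-, h2, h3⟩ := tt_derivD hN hs hm ht
  have hd : DifferentiableAt ℝ (TTD g s b k l) 0 :=
    (hc.contDiffAt (hO.mem_nhds h0)).differentiableAt (by simp)
  have hline : HasDerivAt (fun t : ℝ => (((0 : ℝ), t), (0 : Wd d))) (((0 : ℝ), (1 : ℝ)), 0) 0 :=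
    ((hasDerivAt_const (0 : ℝ) (0 : ℝ)).prodMk (hasDerivAt_id (0 : ℝ))).prodMk
      (hasDerivAt_const (0 : ℝ) (0 : Wd d))
  have h1 : HasDerivAt (fun t : ℝ => TTD g s b k l ((0, t), 0))
      (fderiv ℝ (TTD g s b k l) 0 ((0, 1), 0)) 0 := by
    have h : HasFDerivAt (TTD g s b k l) (fderiv ℝ (TTD g s b k l) 0)
      (((0 : ℝ), (0 : ℝ)), (0 : Wd d)) := hd.hasFDerivAt
    generalize TTD g s b k l = T at h
    exact HasFDerivAt.comp_hasDerivAt (l := T)
      (f := fun t : ℝ => (((0 : ℝ), t), (0 : Wd d))) (0 : ℝ) h hline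
  refine ⟨_, ?_, h1.fst.fst⟩
  intro h4
  rw [h4, zero_mul] at h2
  linarith

theorem j01_tdD {g : En d → En d} {s : FrD d} {Z : Set (En d)} {m : ℕ} {b a : ℝ} {wT : Wd d}
    {k l : ℕ} (hN : NearS g) (ht : TDD g s Z m b a wT k l) {r : ℝ} {D B : Set (En d)}
    {Li : En d → En d} (hp : PlaceD g s Z b a wT k l r D B Li) {ψ : En d → En d} (hψ : AdmD D ψ)
    (hfix : ψ (g (InD g s b k 0)) = g (InD g s b k 0))
    (hord : (fun t : ℝ => (TTD (ψ ∘ g) s b k l ((0, t), 0)).1.2) =O[𝓝 0] fun t => |t| ^ (m + 1)) :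
    TDD (ψ ∘ g) s Z m b a wT k l := by
  have h0 : (0 : En d) ∈ B := mem_of_mem_nhds hp.nhB
  have hin := PlaceD.iter_in hN hp hψ h0
  have hk : (ψ ∘ g) (InD (ψ ∘ g) s b k 0) = g (InD g s b k 0) := by
    rw [hin k le_rfl]
    exact hfix
  have hD := PlaceD.iter_D hN ht.subZ hp hψ (hp.inD 0 h0)
  exact
    { openZ := ht.openZ
      subZ := ht.subZ
      b_pos := ht.b_pos
      b_lt := ht.b_lt
      a_lt := ht.a_lt
      w_lt := ht.w_lt
      path1 := fun i hi => by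
        rw [hin i hi]
        exact ht.path1 i hi
      memZ := by
        rw [hin k le_rfl]
        exact ht.memZ
      dist := fun i hi => by
        rw [hin i hi.le, hin k le_rfl]
        exact ht.dist i hi
      path2 := fun i hi => by
        rw [hk, hD i hi]
        exact ht.path2 i hi
      fin := by
        rw [hk, hD l le_rfl]
        exact ht.fin
      ord := hord }

/-- the fixed point of a perturbation at a place -/
theorem j01_fixD {g : En d → En d} {s : FrD d} {Z : Set (En d)} {m : ℕ} {b a : ℝ} {wT : Wd d}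
    {k l : ℕ} (hN : NearS g) (hs : IsFrD g s) (ht : TDD g s Z m b a wT k l) {r : ℝ}
    {D B : Set (En d)} {Li : En d → En d} (hp : PlaceD g s Z b a wT k l r D B Li)
    {ψ : En d → En d} (hψ : AdmD D ψ) (h : PlD g s l (ψ (Li ((a, 0), wT))) = ((a, 0), wT)) :
    ψ (g (InD g s b k 0)) = g (InD g s b k 0) := by
  have h0 : (0 : En d) ∈ B := mem_of_mem_nhds hp.nhB
  have hw := hp.inD 0 h0
  have hT : PlD g s l (g (InD g s b k 0)) = ((a, 0), wT) := (tt_regularD hN hs ht).2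
  have e1 : Li ((a, 0), wT) = g (InD g s b k 0) := by
    rw [← hT]
    exact hp.Li_Pl _ hw
  rw [e1] at h
  have e2 := hp.Li_Pl _ (hψ.2 _ hw)
  rw [h, e1] at e2
  exact e2.symm

theorem nondegD {R m : ℕ} (hm : 1 ≤ m) {U : Set (En d → En d)} (hU : PertOpenD R U)
    (hUN : ∀ g ∈ U, NearS g) {g : En d → En d} (hg : g ∈ U) {s : FrD d} (hs : IsFrD g s)
    {Z : Set (En d)} {b a : ℝ} {wT : Wd d} {k l : ℕ} (ht : TDD g s Z m b a wT k l) :
    ∃ g' ∈ U, EqOffD Z g g' ∧ TDD g' s Z m b a wT k l ∧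
      ∃ κ : ℝ, κ ≠ 0 ∧ (fun t : ℝ => (TTD g' s b k l ((0, t), 0)).1.2 - κ * t ^ (m + 1)) =O[𝓝 0]
        fun t => |t| ^ (m + 2) := by
  have hN := hUN g hg
  have hline := j01_lineD hN hs ht
  obtain ⟨G, hG, hG1⟩ := j01_had (f := fun t : ℝ => (TTD g s b k l ((0, t), 0)).1.2)
    (hline.mono fun t h => h.fst.snd) (m + 1) ht.ord
  have hl0 := j01_lead (m + 1) (hG.contDiffAt.differentiableAt (by simp)) hG1
  by_cases hκ : G 0 = 0
  swap
  · exact ⟨g, hg, fun _ _ _ => rfl, ht, G 0, hκ, hl0⟩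
  have hy : (fun t : ℝ => (TTD g s b k l ((0, t), 0)).1.2) =O[𝓝 0] fun t => |t| ^ (m + 2) := by
    refine hl0.congr_left fun t => ?_
    rw [hκ]
    ring
  have hTT0 := (tt_regularD hN hs ht).2
  obtain ⟨α, hα, hX⟩ := j01_alphaD hN hs hm ht
  have hX1 : (fun t : ℝ => (TTD g s b k l ((0, t), 0)).1.1 - a) =O[𝓝 0] fun t => |t| ^ 1 := by
    have h := hX.isBigO_sub
    have e : (TTD g s b k l ((0, (0 : ℝ)), 0)).1.1 = a := by
      have : TTD g s b k l ((0, (0 : ℝ)), 0) = TTD g s b k l 0 := rfl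
      rw [this, hTT0]
    rw [e] at h
    refine h.trans (IsBigO.of_bound 1 (Eventually.of_forall fun t => ?_))
    simp
  obtain ⟨G1, hG1s, hG1e⟩ := j01_had (f := fun t : ℝ => (TTD g s b k l ((0, t), 0)).1.1 - a)
    (hline.mono fun t h => h.fst.fst.sub contDiffAt_const) 1 hX1
  have hG10 : G1 0 = α := by
    have h1 : HasDerivAt (fun t : ℝ => t ^ 1 * G1 t) (G1 0) 0 := by
      have h := (hasDerivAt_id (0 : ℝ)).mul
        ((hG1s.contDiffAt.differentiableAt (by simp) : DifferentiableAt ℝ G1 0).hasDerivAt)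
      simp only [id, one_mul, zero_mul, add_zero] at h
      refine h.congr_of_eventuallyEq (Eventually.of_forall fun t => ?_)
      simp
    have h2 : HasDerivAt (fun t : ℝ => (TTD g s b k l ((0, t), 0)).1.1 - a) (G1 0) 0 :=
      h1.congr_of_eventuallyEq hG1e
    exact h2.unique (hX.sub_const a)
  obtain ⟨r, D, B, Li, hp⟩ := exists_placeD hN hs ht
  have hr := hp.r_pos
  obtain ⟨χ, hχ, -, hχs, -, hχ1⟩ := exists_cutoff (E := En d) (C := {(((a, 0), wT) : En d)})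
    (O := Metric.ball (((a, 0), wT) : En d) (r / 2)) isCompact_singleton Metric.isOpen_ball
    (singleton_subset_iff.2 (Metric.mem_ball_self (by linarith)))
  rw [nhdsSet_singleton] at hχ1
  obtain ⟨ε, hε, hUε⟩ := hU g hg
  have hfam := PlaceD.family hp (P := ℝ)
    (fun q : ℝ × En d => (((q.2.1.1, q.2.1.2 + q.1 * (q.2.1.1 - a) ^ (m + 1) * χ q.2), q.2.2) : En d))
    (by
      have e1 : ContDiff ℝ ∞ (fun q : ℝ × En d => χ q.2) := hχ.comp contDiff_snd
      fun_prop)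
    (fun v => by ext <;> simp)
    (fun p v hv => by
      have : χ v = 0 := by
        by_contra hc
        exact hv (Metric.ball_subset_closedBall (hχs (subset_tsupport χ hc)))
      ext <;> simp [this]) R hε
  obtain ⟨p, ⟨ψ, hSm, hAdm, hform⟩, hp0⟩ :=
    ((hfam.filter_mono (nhdsWithin_le_nhds (s := {(0 : ℝ)}ᶜ))).and self_mem_nhdsWithin).exists
  have hp0' : p ≠ 0 := hp0
  have hball : Metric.ball (((a, 0), wT) : En d) (r / 2) ⊆ Metric.ball (((a, 0), wT) : En d) r :=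
    Metric.ball_subset_ball (by linarith)
  have hTTc : ContinuousAt (fun t : ℝ => TTD g s b k l ((0, t), 0)) 0 :=
    hline.self_of_nhds.continuousAt
  have hline0 : Tendsto (fun t : ℝ => ((((0 : ℝ), t), 0) : En d)) (𝓝 0) (𝓝 0) := by
    have : Continuous (fun t : ℝ => ((((0 : ℝ), t), 0) : En d)) := by fun_prop
    exact this.continuousAt
  have hB : ∀ᶠ t : ℝ in 𝓝 0, ((((0 : ℝ), t), 0) : En d) ∈ B := hline0.eventually hp.nhB
  have hχt : ∀ᶠ t : ℝ in 𝓝 0, χ (TTD g s b k l ((0, t), 0)) = 1 := by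
    have e : TTD g s b k l ((0, (0 : ℝ)), 0) = ((a, 0), wT) := hTT0
    have hc : Tendsto (fun t : ℝ => TTD g s b k l ((0, t), 0)) (𝓝 0) (𝓝 ((a, 0), wT)) := by
      have h := hTTc.tendsto
      rwa [e] at h
    exact hc.eventually hχ1
  have hTT' : ∀ᶠ t : ℝ in 𝓝 0, (TTD (ψ ∘ g) s b k l ((0, t), 0)).1.2 =
      (TTD g s b k l ((0, t), 0)).1.2 + p * ((TTD g s b k l ((0, t), 0)).1.1 - a) ^ (m + 1) := by
    filter_upwards [hB, hχt] with t h1 h2
    rw [(PlaceD.transition hN ht.subZ hp hAdm h1).1, hform _ (hball (hp.TB _ h1)), h2, mul_one]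
  have hpow : ∀ᶠ t : ℝ in 𝓝 0, p * ((TTD g s b k l ((0, t), 0)).1.1 - a) ^ (m + 1) =
      t ^ (m + 1) * (p * G1 t ^ (m + 1)) := by
    filter_upwards [hG1e] with t h
    rw [h]
    ring
  have hlead := j01_lead (f := fun t : ℝ => p * ((TTD g s b k l ((0, t), 0)).1.1 - a) ^ (m + 1))
    (G := fun t => p * G1 t ^ (m + 1)) (m + 1)
    (((hG1s.contDiffAt.differentiableAt (by simp)).pow _).const_mul _) hpow
  rw [hG10] at hlead
  have hfinal : (fun t : ℝ => (TTD (ψ ∘ g) s b k l ((0, t), 0)).1.2 - p * α ^ (m + 1) * t ^ (m + 1)) =O[𝓝 0]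
      fun t => |t| ^ (m + 2) := by
    refine IsBigO.congr' (hy.add hlead) ?_ EventuallyEq.rfl
    filter_upwards [hTT'] with t h
    rw [h]
    ring
  refine ⟨ψ ∘ g, hUε ψ hSm, PlaceD.eqOff hN ht.subZ hp hAdm, ?_, p * α ^ (m + 1),
    mul_ne_zero hp0' (pow_ne_zero _ hα), hfinal⟩
  refine j01_tdD hN ht hp hAdm (j01_fixD hN hs ht hp hAdm ?_) ?_
  · rw [hform _ (Metric.mem_ball_self hr)]
    ext <;> simp
  · have h1 : (fun t : ℝ => p * α ^ (m + 1) * t ^ (m + 1)) =O[𝓝 0] fun t => |t| ^ (m + 1) := by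
      refine IsBigO.of_bound |p * α ^ (m + 1)| (Eventually.of_forall fun t => ?_)
      simp [abs_mul, abs_pow]
    have h2 : (fun t : ℝ => |t| ^ (m + 2)) =O[𝓝 0] fun t => |t| ^ (m + 1) := by
      have h3 : (fun t : ℝ => t ^ (m + 2)) =O[𝓝 0] fun t : ℝ => t ^ (m + 1) :=
        (isLittleO_pow_pow (by omega)).isBigO
      refine IsBigO.congr (h3.norm_norm) (fun t => ?_) (fun t => ?_)
      · simp [abs_pow]
      · simp [abs_pow]
    refine IsBigO.congr_left ((hfinal.trans h2).add h1) fun t => ?_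
    ring

end Pool.Agent.Lib.H37D
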