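import Pool.Agent.Lib.H37D.DP05

/-!
# H37D DJ03 (S/M): vertical perturbations at a place (port of H37P/J09v.lean)

Word for word as `place_vert` (H37P/J09v.lean, proved) with
`Ψ(p,v) = ((v.1.1, v.1.2 + χ v * Φ (p, (v.1.1, v.2))), v.2)`, `χ` a cut-off function (`exists_cutoff`, `E := En d`) at `((a,0),wT)` with support in the ball of
radius `r/2`, `PlaceD.family`. The function `Φ` may depend on `(X, w)`.
-/

open Set Filter Topology Asymptotics
open scoped ContDiff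

namespace Pool.Agent.Lib.H37D

open Pool.Agent.Lib.H37N

variable {d : ℕ}

theorem place_vertD {g : En d → En d} {s : FrD d} {Z : Set (En d)} {b a : ℝ} {wT : Wd d}
    {k l : ℕ} {r : ℝ} {D B : Set (En d)} {Li : En d → En d}
    (hp : PlaceD g s Z b a wT k l r D B Li) {P : Type} [NormedAddCommGroup P] [NormedSpace ℝ P]
    [FiniteDimensional ℝ P] (Φ : P × ℝ × Wd d → ℝ) (hΦ : ContDiff ℝ ∞ Φ) (h0 : ∀ X, Φ (0, X) = 0) :
    ∃ ρ > (0 : ℝ), ρ ≤ r ∧ ∀ (R : ℕ) {ε : ℝ}, 0 < ε → ∀ᶠ p in 𝓝 (0 : P), ∃ ψ : En d → En d,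
      SmallD R ε ψ ∧ AdmD D ψ ∧ ∀ v ∈ Metric.ball (((a, 0), wT) : En d) ρ,
        PlD g s l (ψ (Li v)) = ((v.1.1, v.1.2 + Φ (p, (v.1.1, v.2))), v.2) := by
  have hr := hp.r_pos
  obtain ⟨χ, hχ, -, hts, -, h1⟩ := exists_cutoff (E := En d) (C := {(((a, 0), wT) : En d)})
    (O := Metric.ball (((a, 0), wT) : En d) (r / 2)) isCompact_singleton Metric.isOpen_ball
    (by simp [hr])
  rw [nhdsSet_singleton] at h1
  obtain ⟨ρ, hρ, hball⟩ := Metric.eventually_nhds_iff_ball.1 h1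
  refine ⟨min ρ r, lt_min hρ hr, min_le_right _ _, fun R ε hε => ?_⟩
  have hΨ : ContDiff ℝ ∞ (fun q : P × En d => ((q.2.1.1, q.2.1.2 + χ q.2 * Φ (q.1, (q.2.1.1, q.2.2))), q.2.2)) := by
    have e1 : ContDiff ℝ ∞ (fun q : P × En d => χ q.2) := hχ.comp contDiff_snd
    have e2 : ContDiff ℝ ∞ (fun q : P × En d => Φ (q.1, (q.2.1.1, q.2.2))) := hΦ.comp (by fun_prop)
    fun_prop
  have hfam := hp.family (fun q : P × En d => ((q.2.1.1, q.2.1.2 + χ q.2 * Φ (q.1, (q.2.1.1, q.2.2))), q.2.2)) hΨ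
    (fun v => by simp [h0]) (fun p v hv => by
      have hz : χ v = 0 := by
        by_contra hne
        exact hv (Metric.ball_subset_closedBall (hts (subset_tsupport χ hne)))
      simp [hz]) R hε
  filter_upwards [hfam] with p hp'
  obtain ⟨ψ, hs1, hs2, hs3⟩ := hp'
  refine ⟨ψ, hs1, hs2, fun v hv => ?_⟩
  rw [hs3 v (Metric.ball_subset_ball (min_le_right _ _) hv)]
  simp [hball v (Metric.ball_subset_ball (min_le_left _ _) hv)]

end Pool.Agent.Lib.H37D
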