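import Pool.Agent.Lib.H37D.DC01
import Pool.Agent.Lib.H37P.P01

/-!
# H37D DP01 (S/M): persistence of tangency data (port of H37P/P01.lean)

As in H37P/P01: `NearD.iter_Omd`, `NearD.iter_VOD`, `iterate_eq_of_VOD`, `isOpen_VOD`, `isOpen_Omd` (DC01) replace the planar lemmas;
`InD g s b i 0 = g^[i] (κQ ((0, b), 0))`; `v ↦ κQ ((v.1.1, b + v.1.2), v.2)` is continuous.
`tdd_congr`: `g' = g` on `VOD ∪ Z1`; the paths are the same, `TTD g' = TTD g` near `0` (`ttd_congr`), the order condition along `t ↦ ((0,t),0)`.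
-/

open Set Filter Topology Asymptotics
open scoped ContDiff

namespace Pool.Agent.Lib.H37D

open Pool.Agent.Lib.H37N

variable {d : ℕ}

theorem dp01_eq {g g' : En d → En d} {Z1 Z2 : Set (En d)} (h : EqOffD Z2 g g')
    (hZ1 : Z1 ⊆ interior (FFd d)) (hZ2 : Z2 ⊆ FFd d) (hd : Disjoint Z1 Z2) :
    ∀ z ∈ VOD d ∪ Z1, g' z = g z := by
  rintro z (hz | hz)
  · have hzV := VOD_sub hz
    refine h z (Or.inl hzV) fun h2 => ?_
    exact Set.disjoint_left.1 VVd_FFd_disjoint hzV (hZ2 h2)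
  · exact h z (Or.inr (interior_subset (hZ1 hz))) fun h2 => Set.disjoint_left.1 hd hz h2

theorem dp01_path {g g' : En d → En d} {F : FrD d} {b : ℝ} {Z : Set (En d)}
    (he : ∀ z ∈ VOD d ∪ Z, g' z = g z) {v : En d} {k : ℕ}
    (hv : ∀ i < k, InD g F b i v ∈ VOD d ∪ Z) : ∀ i ≤ k, InD g' F b i v = InD g F b i v := by
  intro i
  induction i with
  | zero => intro _; rfl
  | succ i ih =>
    intro hi
    have h1 := ih (by omega)
    have h2 := hv i (by omega)
    unfold InD at h1 h2 ⊢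
    rw [Function.iterate_succ_apply', Function.iterate_succ_apply', h1, he _ h2]

/-- near `0` the paths stay in the open region and are the same for the two maps -/
theorem dp01_near {g g' : En d → En d} {s : FrD d} {Z1 : Set (En d)} {m : ℕ} {b a : ℝ}
    {wT : Wd d} {k l : ℕ} (hN : NearS g) (hs : IsFrD g s) (ht : TDD g s Z1 m b a wT k l)
    (he : ∀ z ∈ VOD d ∪ Z1, g' z = g z) :
    (∀ᶠ v in 𝓝 (0 : En d), ∀ i ≤ k, InD g' s b i v = InD g s b i v) ∧
      ∀ᶠ v in 𝓝 (0 : En d), TTD g' s b k l v = TTD g s b k l v := by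
  have hOm : VOD d ∪ Z1 ⊆ Omd d :=
    union_subset VOD_sub_Omd (fun z hz => interior_FFd_sub_Omd (ht.subZ hz))
  have hopen : IsOpen (VOD d ∪ Z1) := isOpen_VOD.union ht.openZ
  have hIn0 : ∀ i, InD g s b i 0 = g^[i] (s.κ Sy.Q ((0, b), 0)) := by
    intro i
    simp [InD]
  have hκ : Tendsto (fun v : En d => s.κ Sy.Q ((v.1.1, b + v.1.2), v.2)) (𝓝 0)
      (𝓝 (s.κ Sy.Q ((0, b), 0))) := by
    have h1 : Continuous (fun v : En d => s.κ Sy.Q ((v.1.1, b + v.1.2), v.2)) :=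
      (hs.chart Sy.Q).smooth.continuous.comp (by fun_prop)
    have h2 := h1.tendsto 0
    simpa using h2
  have hcont : ∀ i ≤ k, Tendsto (fun v : En d => InD g s b i v) (𝓝 0) (𝓝 (InD g s b i 0)) := by
    intro i hi
    have h1 := (hN.toNearD.iter_Omd i (z := s.κ Sy.Q ((0, b), 0)) (fun j hj => by
      have := ht.path1 j (by omega)
      rw [hIn0] at this
      exact hOm this)).self_of_nhds.1.continuousAt.tendsto
    rw [hIn0]
    exact h1.comp hκ
  have hpath : ∀ᶠ v in 𝓝 (0 : En d), ∀ i ≤ k, InD g s b i v ∈ VOD d ∪ Z1 := by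
    have h1 : ∀ i ∈ Finset.range (k + 1), ∀ᶠ v in 𝓝 (0 : En d), InD g s b i v ∈ VOD d ∪ Z1 := by
      intro i hi
      have hi' : i ≤ k := by simpa [Nat.lt_succ_iff] using hi
      exact (hcont i hi').eventually (hopen.mem_nhds (ht.path1 i hi'))
    have h2 := (Finset.eventually_all (Finset.range (k + 1))).2 h1
    filter_upwards [h2] with v hv i hi
    exact hv i (by simpa [Nat.lt_succ_iff] using hi)
  have hIn : ∀ᶠ v in 𝓝 (0 : En d), ∀ i ≤ k, InD g' s b i v = InD g s b i v := by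
    filter_upwards [hpath] with v hv
    exact dp01_path he (fun i hi => hv i hi.le)
  have hVO : ∀ z ∈ VOD d, g' z = g z := fun z hz => he z (Or.inl hz)
  have hgc : Tendsto (fun v : En d => g (InD g s b k v)) (𝓝 0) (𝓝 (g (InD g s b k 0))) := by
    have h1 := (hN.toNearD.contDiffAt_Omd (hOm (Or.inr ht.memZ))).self_of_nhds.continuousAt.tendsto
    exact h1.comp (hcont k le_rfl)
  have hl := hN.toNearD.iter_VOD l (z := g (InD g s b k 0)) (fun j hj => ht.path2 j hj.le)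
  refine ⟨hIn, ?_⟩
  filter_upwards [hIn, hpath, hgc.eventually hl] with v h1 h2 h3
  unfold TTD PlD
  rw [h1 k le_rfl, he _ (h2 k le_rfl), dc01_iter_eq (n := l) hVO h3.2 l le_rfl]

/-- the transition map is the same near `0` -/
theorem ttd_congr {g g' : En d → En d} {s : FrD d} {Z1 Z2 : Set (En d)} {m : ℕ} {b a : ℝ}
    {wT : Wd d} {k l : ℕ} (hN : NearS g) (hs : IsFrD g s) (ht : TDD g s Z1 m b a wT k l)
    (h : EqOffD Z2 g g') (hZ2 : Z2 ⊆ FFd d) (hd : Disjoint Z1 Z2) :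
    ∀ᶠ v in 𝓝 (0 : En d), TTD g' s b k l v = TTD g s b k l v :=
  (dp01_near hN hs ht (dp01_eq h ht.subZ hZ2 hd)).2

theorem tdd_congr {g g' : En d → En d} {s : FrD d} {Z1 Z2 : Set (En d)} {m : ℕ} {b a : ℝ}
    {wT : Wd d} {k l : ℕ} (hN : NearS g) (hs : IsFrD g s) (ht : TDD g s Z1 m b a wT k l)
    (h : EqOffD Z2 g g') (hZ2 : Z2 ⊆ FFd d) (hd : Disjoint Z1 Z2) :
    TDD g' s Z1 m b a wT k l := by
  have he := dp01_eq h ht.subZ hZ2 hd
  obtain ⟨hIn, hev⟩ := dp01_near hN hs ht he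
  have hIn' := hIn.self_of_nhds
  have hgz : g' (InD g s b k 0) = g (InD g s b k 0) := he _ (Or.inr ht.memZ)
  have hVO : ∀ z ∈ VOD d, g' z = g z := fun z hz => he z (Or.inl hz)
  have hit := dc01_iter_eq (n := l) hVO (z := g (InD g s b k 0)) (fun j hj => ht.path2 j hj.le)
  refine ⟨ht.openZ, ht.subZ, ht.b_pos, ht.b_lt, ht.a_lt, ht.w_lt, ?_, ?_, ?_, ?_, ?_, ?_⟩
  · intro i hi
    rw [hIn' i hi]; exact ht.path1 i hi
  · rw [hIn' k le_rfl]; exact ht.memZ
  · intro i hi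
    rw [hIn' i hi.le, hIn' k le_rfl]; exact ht.dist i hi
  · intro i hi
    rw [hIn' k le_rfl, hgz, hit i hi]; exact ht.path2 i hi
  · rw [hIn' k le_rfl, hgz, hit l le_rfl]; exact ht.fin
  · have hline : Tendsto (fun t : ℝ => (((0, t), 0) : En d)) (𝓝 0) (𝓝 0) := by
      have : Continuous (fun t : ℝ => (((0, t), 0) : En d)) := by fun_prop
      exact this.tendsto 0
    refine ht.ord.congr' ?_ EventuallyEq.rfl
    filter_upwards [hline.eventually hev] with t ht'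
    rw [ht']

theorem tdd_mono {g : En d → En d} {s : FrD d} {Z1 Z2 : Set (En d)} {m m' : ℕ} {b a : ℝ}
    {wT : Wd d} {k l : ℕ} (ht : TDD g s Z1 m b a wT k l) (hZ : Z1 ⊆ Z2) (ho : IsOpen Z2)
    (hF : Z2 ⊆ interior (FFd d)) (hm : m' ≤ m) : TDD g s Z2 m' b a wT k l := by
  refine ⟨ho, hF, ht.b_pos, ht.b_lt, ht.a_lt, ht.w_lt,
    fun i hi => (ht.path1 i hi).imp id fun h => hZ h, hZ ht.memZ, ht.dist, ht.path2, ht.fin, ?_⟩
  refine ht.ord.trans (IsBigO.of_bound 1 ?_)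
  have h1 : ∀ᶠ t : ℝ in 𝓝 0, |t| < 1 := by
    have := (continuous_abs (G := ℝ)).tendsto 0
    rw [abs_zero] at this
    exact this.eventually (gt_mem_nhds one_pos)
  filter_upwards [h1] with t ht1
  rw [one_mul, norm_pow, norm_pow, Real.norm_eq_abs, abs_abs]
  exact pow_le_pow_of_le_one (abs_nonneg t) ht1.le (by omega)

end Pool.Agent.Lib.H37D
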