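import Pool.Agent.Lib.H37D.CDefsD
import Pool.Agent.Lib.H37P.KDefs

/-!
# H37D: the pass from the chart at `P` to the chart at `Q` (definitions)

Coordinates of a point at `P`: `z = ((X, U), w)`, the chart coordinates are `((X, y), w)`, `y = yFD ..`.
Parameters `ε : EP d = (Fin 6 → ℝ) × (Fin 7 → Wd d)`:
`ε.1 0 = ε1 = λ_P^n`, `ε.1 1 = ε2 = μ_Q^(-m)/d_S`, `ε.1 2 = ε4 = μ_P^n λ_Q^m`, `ε.1 3 = 1/E`, `ε.1 4 = ξ⁰`, `ε.1 5 = B - B0`;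
`ε.2 0 = α_P^n`, `ε.2 1 = E λ_Q^m α_P^n`, `ε.2 2 = w⁰ = α_Q^m w_S`, `ε.2 3 = E λ_P^n α_Q^m`, `ε.2 4 = μ_P^n α_Q^m`,
`ε.2 5 = μ_Q^m α_Q^m`, `ε.2 6 = μ_P^n α_P^n`. All tend to `0` along the sequences of the density lemma.
-/

open Set Filter Topology Asymptotics
open scoped ContDiff

namespace Pool.Agent.Lib.H37D

open Pool.Agent.Lib.H37N

noncomputable section

variable {d : ℕ}

/-- `d_S`, the derivative of the second coordinate of the connection along the unstable axis -/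
def dSD (g : En d → En d) (s : FrD d) : ℝ := (fderiv ℝ (SSD g s) 0 ((0, 1), 0)).1.2

/-- the functions of the pass, arguments `((σ, t), w)` -/
structure PFD (d : ℕ) where
  Th : ℝ × Wd d → ℝ
  W : En d → ℝ
  Y1 : ℝ × Wd d → ℝ
  Y2 : En d → ℝ
  Y3 : Wd d → (Wd d →L[ℝ] ℝ)
  Z1 : En d → Wd d
  Z2 : En d → Wd d
  Z3 : En d → (Wd d →L[ℝ] Wd d)

/-- smoothness and normalisation of the functions of the pass -/
structure SmPFD (f : PFD d) : Prop where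
  smTh : ContDiff ℝ ∞ f.Th
  smW : ContDiff ℝ ∞ f.W
  smY1 : ContDiff ℝ ∞ f.Y1
  smY2 : ContDiff ℝ ∞ f.Y2
  smY3 : ContDiff ℝ ∞ f.Y3
  smZ1 : ContDiff ℝ ∞ f.Z1
  smZ2 : ContDiff ℝ ∞ f.Z2
  smZ3 : ContDiff ℝ ∞ f.Z3
  Th0 : f.Th (0, 0) = 0
  W0 : f.W ((0, 0), 0) = 1

/-- the functions of `f` belong to `g, s` -/
structure IsPFD (g : En d → En d) (s : FrD d) (f : PFD d) (r : ℝ) : Prop extends SmPFD f where
  r_pos : 0 < r
  Y10 : f.Y1 (0, 0) = pjac (SSD g s) 0 / dSD g s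
  snd : ∀ (σ t : ℝ) (w : Wd d), |σ| < r → |t| < r → ‖w‖ < r →
    (SSD g s ((σ, f.Th (σ, w) + t), w)).1.2 = dSD g s * t * f.W ((σ, t), w)
  fst : ∀ (σ t : ℝ) (w : Wd d), |σ| < r → |t| < r → ‖w‖ < r →
    (SSD g s ((σ, f.Th (σ, w) + t), w)).1.1 =
      s.sS + σ * f.Y1 (σ, w) + t * f.Y2 ((σ, t), w) + f.Y3 w w
  thd : ∀ (σ t : ℝ) (w : Wd d), |σ| < r → |t| < r → ‖w‖ < r →
    (SSD g s ((σ, f.Th (σ, w) + t), w)).2 =
      s.wS + σ • f.Z1 ((σ, t), w) + t • f.Z2 ((σ, t), w) + f.Z3 ((σ, t), w) w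

/-- the large factor `E = d_S μ_P^n μ_Q^m` -/
def EED (g : En d → En d) (s : FrD d) (n m : ℕ) : ℝ := dSD g s * s.mu Sy.P ^ n * s.mu Sy.Q ^ m
/-- `ε1 = λ_P^n` -/
def e1D (s : FrD d) (n : ℕ) : ℝ := s.lam Sy.P ^ n
/-- `ε2 = μ_Q^(-m) / d_S` -/
def e2D (g : En d → En d) (s : FrD d) (m : ℕ) : ℝ := 1 / (dSD g s * s.mu Sy.Q ^ m)
/-- `ε4 = μ_P^n λ_Q^m` -/
def e4D (s : FrD d) (n m : ℕ) : ℝ := s.mu Sy.P ^ n * s.lam Sy.Q ^ m
/-- `ξ⁰ = λ_Q^m s_S` -/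
def xi0D (s : FrD d) (m : ℕ) : ℝ := s.lam Sy.Q ^ m * s.sS
/-- `B = d_S (λ_P μ_P)^n (λ_Q μ_Q)^m` -/
def BBD (g : En d → En d) (s : FrD d) (n m : ℕ) : ℝ :=
  dSD g s * (s.lam Sy.P * s.mu Sy.P) ^ n * (s.lam Sy.Q * s.mu Sy.Q) ^ m
/-- `w⁰ = α_Q^m w_S` -/
def w0D (s : FrD d) (m : ℕ) : Wd d := mulw (s.al Sy.Q ^ m) s.wS

/-- the parameters of a pass -/
abbrev EP (d : ℕ) : Type := E6 × (Fin 7 → Wd d)

/-- the vector parameters of the pass with `n, m` turns -/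
def epsW (g : En d → En d) (s : FrD d) (n m : ℕ) : Fin 7 → Wd d :=
  ![s.al Sy.P ^ n, (EED g s n m * s.lam Sy.Q ^ m) • s.al Sy.P ^ n, w0D s m,
    (EED g s n m * s.lam Sy.P ^ n) • s.al Sy.Q ^ m, s.mu Sy.P ^ n • s.al Sy.Q ^ m,
    s.mu Sy.Q ^ m • s.al Sy.Q ^ m, s.mu Sy.P ^ n • s.al Sy.P ^ n]

/-- the parameters of the pass with `n, m` turns -/
def epsD (g : En d → En d) (s : FrD d) (B0 : ℝ) (n m : ℕ) : EP d :=
  (![e1D s n, e2D g s m, e4D s n m, (EED g s n m)⁻¹, xi0D s m, BBD g s n m - B0], epsW g s n m)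

/-- the argument of the functions of the pass -/
def argF (b : ℝ) (ε : EP d) (z : En d) : En d :=
  ((ε.1 0 * z.1.1, ε.1 1 * (z.1.2 + b)), mulw (ε.2 0) z.2)

/-- the unstable coordinate at the entrance of `P` -/
def yFD (s : FrD d) (f : PFD d) (b E mn ε1 : ℝ) (eV : Wd d) (z : En d) : ℝ :=
  (z.1.2 + b) / E + (s.uS + f.Th (ε1 * z.1.1, mulw eV z.2)) / mn

/-- the unstable coordinate at the exit of `Q`, minus `b` -/
def etaFD (f : PFD d) (b : ℝ) (ε : EP d) (z : En d) : ℝ := (z.1.2 + b) * f.W (argF b ε z) - b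

/-- the rescaled stable coordinate at the exit of `Q` -/
def XiFD (f : PFD d) (b B0 : ℝ) (ε : EP d) (z : En d) : ℝ :=
  (B0 + ε.1 5) * z.1.1 * f.Y1 (ε.1 0 * z.1.1, mulw (ε.2 0) z.2) +
    ε.1 2 * (z.1.2 + b) * f.Y2 (argF b ε z) + f.Y3 (mulw (ε.2 0) z.2) (mulw (ε.2 1) z.2)

/-- the rescaled strongly stable coordinates at the exit of `Q` -/
def OmFD (f : PFD d) (b dS : ℝ) (ε : EP d) (z : En d) : Wd d :=
  z.1.1 • mulw (ε.2 3) (f.Z1 (argF b ε z)) + (z.1.2 + b) • mulw (ε.2 4) (f.Z2 (argF b ε z)) +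
    dS • mulw (ε.2 5) (f.Z3 (argF b ε z) (mulw (ε.2 6) z.2))

/-- the chart coordinates (relative to `(0,b)`) at the exit of `Q`; `i3 = 1/E` -/
def exD (f : PFD d) (b B0 dS i3 : ℝ) (ε : EP d) (z : En d) : En d :=
  ((ε.1 4 + i3 * XiFD f b B0 ε z, etaFD f b ε z), ε.2 2 + i3 • OmFD f b dS ε z)

/-- chart coordinates at `P` of the point with the coordinates `z = ((X,U),w)` -/
def YcD (g : En d → En d) (s : FrD d) (f : PFD d) (b : ℝ) (n m : ℕ) (z : En d) : En d :=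
  ((z.1.1, yFD s f b (EED g s n m) (s.mu Sy.P ^ n) (e1D s n) (s.al Sy.P ^ n) z), z.2)

end

end Pool.Agent.Lib.H37D
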