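import Pool.Agent.Lib.H37D.DC01
import Pool.Agent.Lib.H37D.DB10
import Pool.Agent.Lib.H37D.PDefs
import Pool.Agent.Lib.H37N.I0b

/-!
# H37D DP07 (M): the path of the pass (port of H37N/I0b.lean and H37P/P07.lean)

`dp07_lin_iter`: `LinChartD.iter`, `LinChartD.iter_mem` (DB10) and `mem_BxD`: `|lam^j x| ≤ |x|`, `|mu^j y| ≤ |mu^n y|`, `‖mulw (al^j) w‖ ≤ ‖w‖` (`0 < al k < 1`).
`pass_rawD`: as `pass_path`: `r ≤ 1` such that `SDataD.path`, `SDataD.back`, `SDataD.smooth` hold on the ball of radius `r` of `En d`; the point after `n` steps is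
`κP ((σ, uS + t), mulw (al_P^n) w)` with `σ = lam_P^n X`, `t = mu_P^n y - uS`; then `path`, `back`: after `kS` more steps it is `κQ (SSD ..)`, `SSD .. ∈ BxD d`; then `m` steps
in the chart at `Q` (`|mu_Q^m (SSD ..).1.2| < 2`).
-/

open Set Filter Topology Asymptotics
open scoped ContDiff

namespace Pool.Agent.Lib.H37D

open Pool.Agent.Lib.H37N

variable {d : ℕ}

theorem dp07_norm_le {α w : Wd d} (h : ∀ k, |α k| ≤ 1) : ‖mulw α w‖ ≤ ‖w‖ := by
  rw [pi_norm_le_iff_of_nonneg (norm_nonneg _)]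
  intro k
  have h1 := norm_le_pi_norm w k
  unfold mulw
  rw [norm_mul, Real.norm_eq_abs (α k)]
  calc |α k| * ‖w k‖ ≤ 1 * ‖w k‖ := mul_le_mul_of_nonneg_right (h k) (norm_nonneg _)
    _ = ‖w k‖ := one_mul _
    _ ≤ ‖w‖ := h1

theorem dp07_lin_iter {g : En d → En d} {i : Sy} {κ c : En d → En d} {lam mu : ℝ} {al : Wd d}
    (h : LinChartD g i κ c lam mu al) {x y : ℝ} {w : Wd d} (n : ℕ) (hx : |x| < 2)
    (hy : |mu ^ n * y| < 2) (hw : ‖w‖ < 2) :
    ∀ j ≤ n, g^[j] (κ ((x, y), w)) = κ ((lam ^ j * x, mu ^ j * y), mulw (al ^ j) w) ∧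
      ((lam ^ j * x, mu ^ j * y), mulw (al ^ j) w) ∈ BxD d ∧ g^[j] (κ ((x, y), w)) ∈ VOD d := by
  have hmu : 1 < mu := h.one_lt
  have hmu0 : 0 < mu := by linarith
  have hl2 := h.lam_mem.2
  have hl0 : 0 < lam := h.lam_pos
  have hX : ∀ j : ℕ, |lam ^ j * x| < 2 := by
    intro j
    rw [abs_mul, abs_of_pos (pow_pos hl0 j)]
    have : lam ^ j ≤ 1 := pow_le_one₀ hl0.le (by linarith)
    nlinarith [abs_nonneg x]
  have hY : ∀ j : ℕ, j ≤ n → |mu ^ j * y| < 2 := by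
    intro j hj
    rw [abs_mul, abs_of_pos (pow_pos hmu0 j)]
    rw [abs_mul, abs_of_pos (pow_pos hmu0 n)] at hy
    have : mu ^ j ≤ mu ^ n := pow_le_pow_right₀ hmu.le hj
    nlinarith [abs_nonneg y]
  have hW : ∀ j : ℕ, ‖mulw (al ^ j) w‖ < 2 := by
    intro j
    refine lt_of_le_of_lt (dp07_norm_le fun k => ?_) hw
    obtain ⟨h1, h2⟩ := h.al_mem k
    have h3 : 0 < al k := lt_trans (by norm_num) h1
    have h4 : al k ≤ 1 := h2.le.trans (by norm_num)
    rw [Pi.pow_apply, abs_of_pos (pow_pos h3 j)]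
    exact pow_le_one₀ h3.le h4
  have hB : ∀ j : ℕ, j ≤ n → ((lam ^ j * x, mu ^ j * y), mulw (al ^ j) w) ∈ BxD d := by
    intro j hj
    exact mem_BxD.2 ⟨⟨hX j, hY j hj⟩, hW j⟩
  have hI : ∀ j : ℕ, j ≤ n →
      g^[j] (κ ((x, y), w)) = κ ((lam ^ j * x, mu ^ j * y), mulw (al ^ j) w) := by
    intro j
    induction j with
    | zero =>
      intro _
      have e : mulw (al ^ 0) w = w := by
        funext k
        simp [mulw]
      rw [e]
      simp
    | succ j ih =>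
      intro hj
      rw [Function.iterate_succ_apply', ih (by omega)]
      have h3 : |mu * (mu ^ j * y)| < 2 := by
        have := hY (j + 1) hj
        rw [pow_succ'] at this
        rwa [← mul_assoc]
      rw [h.lin _ _ _ (hX j) h3 (hW j)]
      have e1 : lam * (lam ^ j * x) = lam ^ (j + 1) * x := by ring
      have e2 : mu * (mu ^ j * y) = mu ^ (j + 1) * y := by ring
      have e3 : mulw al (mulw (al ^ j) w) = mulw (al ^ (j + 1)) w := by
        funext k
        simp only [mulw, Pi.pow_apply]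
        ring
      rw [e1, e2, e3]
  intro j hj
  refine ⟨hI j hj, hB j hj, ?_⟩
  rw [hI j hj]
  have := h.sub (mem_image_of_mem κ (hB j hj))
  unfold VOD VO
  cases i
  · exact ⟨Or.inl this.1, this.2⟩
  · exact ⟨Or.inr this.1, this.2⟩

theorem pass_rawD {g : En d → En d} {s : FrD d} (hs : IsFrD g s) :
    ∃ r > 0, ContDiffOn ℝ ∞ (SSD g s) (Metric.ball 0 r) ∧ SSD g s 0 = ((s.sS, 0), s.wS) ∧
      ∀ (n m : ℕ) (X y : ℝ) (w : Wd d), |X| ≤ 1 → ‖w‖ ≤ 1 → |s.lam Sy.P ^ n * X| < r →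
        |s.mu Sy.P ^ n * y - s.uS| < r → ‖mulw (s.al Sy.P ^ n) w‖ < r →
        |s.mu Sy.Q ^ m * (SSD g s ((s.lam Sy.P ^ n * X, s.mu Sy.P ^ n * y - s.uS),
          mulw (s.al Sy.P ^ n) w)).1.2| < 2 →
        g^[n + s.kS + m] (s.κ Sy.P ((X, y), w)) =
          s.κ Sy.Q ((s.lam Sy.Q ^ m * (SSD g s ((s.lam Sy.P ^ n * X, s.mu Sy.P ^ n * y - s.uS),
              mulw (s.al Sy.P ^ n) w)).1.1,
            s.mu Sy.Q ^ m * (SSD g s ((s.lam Sy.P ^ n * X, s.mu Sy.P ^ n * y - s.uS),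
              mulw (s.al Sy.P ^ n) w)).1.2),
            mulw (s.al Sy.Q ^ m) (SSD g s ((s.lam Sy.P ^ n * X, s.mu Sy.P ^ n * y - s.uS),
              mulw (s.al Sy.P ^ n) w)).2) ∧
        ∀ i ≤ n + s.kS + m, g^[i] (s.κ Sy.P ((X, y), w)) ∈ VOD d := by
  have hev := (hs.sdata.path.and hs.sdata.back).and hs.sdata.smooth
  obtain ⟨r0, hr0, hball⟩ := Metric.eventually_nhds_iff_ball.1 hev
  refine ⟨min r0 1, lt_min hr0 one_pos, ?_, hs.sdata.S0, ?_⟩
  · intro v hv
    exact (hball v (Metric.ball_subset_ball (min_le_left _ _) hv)).2.contDiffWithinAt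
  · intro n m X y w hX1 hw1 hX hY hW hM
    have hX0 := lt_of_lt_of_le hX (min_le_left _ _)
    have hY0 := lt_of_lt_of_le hY (min_le_left _ _)
    have hY1 := lt_of_lt_of_le hY (min_le_right _ _)
    have hW0 := lt_of_lt_of_le hW (min_le_left _ _)
    set v : En d := ((s.lam Sy.P ^ n * X, s.mu Sy.P ^ n * y - s.uS), mulw (s.al Sy.P ^ n) w) with hv
    have hvb : v ∈ Metric.ball (0 : En d) r0 := by
      rw [mem_ball_zero_iff, Prod.norm_def, Prod.norm_def, max_lt_iff, max_lt_iff,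
        Real.norm_eq_abs, Real.norm_eq_abs]
      exact ⟨⟨hX0, hY0⟩, hW0⟩
    obtain ⟨⟨hpath, hback1, hback2⟩, -⟩ := hball v hvb
    have hmuy : |s.mu Sy.P ^ n * y| < 2 := by
      have h1 := hs.sdata.u_lt
      have h2 : |s.mu Sy.P ^ n * y| ≤ |s.mu Sy.P ^ n * y - s.uS| + |s.uS| := by
        have := abs_add_le (s.mu Sy.P ^ n * y - s.uS) s.uS
        rwa [sub_add_cancel] at this
      linarith
    have hP := dp07_lin_iter (hs.chart Sy.P) (x := X) (y := y) (w := w) n (by linarith) hmuy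
      (by linarith)
    set q : En d := SSD g s v with hq
    have hqB : q ∈ BxD d := hback1
    have hq2 : s.κ Sy.Q q = g^[s.kS] (s.κ Sy.P ((v.1.1, s.uS + v.1.2), v.2)) := hback2
    have hqm : ((q.1.1, q.1.2), q.2) ∈ BxD d := hqB
    rw [mem_BxD] at hqm
    have hQ := dp07_lin_iter (hs.chart Sy.Q) (x := q.1.1) (y := q.1.2) (w := q.2) m hqm.1.1 hM hqm.2
    have hn : g^[n] (s.κ Sy.P ((X, y), w)) = s.κ Sy.P ((v.1.1, s.uS + v.1.2), v.2) := by
      rw [(hP n le_rfl).1]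
      have e : s.mu Sy.P ^ n * y = s.uS + (s.mu Sy.P ^ n * y - s.uS) := by ring
      rw [hv]
      simp only
      rw [← e]
    have hk : g^[n + s.kS] (s.κ Sy.P ((X, y), w)) = s.κ Sy.Q ((q.1.1, q.1.2), q.2) := by
      rw [Nat.add_comm n s.kS, Function.iterate_add_apply, hn, ← hq2]
    refine ⟨?_, ?_⟩
    · have e1 : n + s.kS + m = m + (n + s.kS) := by omega
      rw [e1, Function.iterate_add_apply, hk]
      exact (hQ m le_rfl).1
    · intro i hi
      rcases Nat.lt_or_ge n i with h1 | h1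
      · rcases Nat.lt_or_ge (n + s.kS) i with h2 | h2
        · obtain ⟨j, rfl⟩ : ∃ j, i = j + (n + s.kS) := ⟨i - (n + s.kS), by omega⟩
          rw [Function.iterate_add_apply, hk]
          exact (hQ j (by omega)).2.2
        · obtain ⟨j, rfl⟩ : ∃ j, i = j + n := ⟨i - n, by omega⟩
          rw [Function.iterate_add_apply, hn]
          exact hpath j (by omega)
      · exact (hP i h1).2.2

end Pool.Agent.Lib.H37D
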