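import Pool.Agent.Lib.H37D.DP04
import Pool.Agent.Lib.H37P.P11

/-!
# H37D DP11 (S/M): places persist, disjoint perturbations (port of H37P/P11.lean)

Word for word as H37P/P11 (`dp01_eq` gives `g' = g` on `VOD d ∪ Z1`).
-/

open Set Filter Topology Asymptotics
open scoped ContDiff

namespace Pool.Agent.Lib.H37D

open Pool.Agent.Lib.H37N

variable {d : ℕ}

theorem dp11_iter {g g' : En d → En d} {A : Set (En d)} (h : ∀ z ∈ A, g' z = g z) {n : ℕ} {z : En d}
    (hz : ∀ i < n, g^[i] z ∈ A) : ∀ i ≤ n, g'^[i] z = g^[i] z := by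
  intro i
  induction i with
  | zero => intro _; rfl
  | succ i ih =>
    intro hi
    rw [Function.iterate_succ_apply', Function.iterate_succ_apply', ih (by omega),
      h _ (hz i (by omega))]

theorem placeD_congr {g g' : En d → En d} {s : FrD d} {Z1 Z2 : Set (En d)} {b a : ℝ} {wT : Wd d}
    {k l : ℕ} {r : ℝ} {D B : Set (En d)} {Li : En d → En d}
    (hp : PlaceD g s Z1 b a wT k l r D B Li) (hZ1 : Z1 ⊆ interior (FFd d)) (h : EqOffD Z2 g g')
    (hZ2 : Z2 ⊆ FFd d) (hd : Disjoint Z1 Z2) : PlaceD g' s Z1 b a wT k l r D B Li := by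
  have hE : ∀ z ∈ VOD d ∪ Z1, g' z = g z := fun z hz => dp01_eq h hZ1 hZ2 hd z hz
  have hIm : g' '' Z1 = g '' Z1 := Set.image_congr fun z hz => hE z (Or.inr hz)
  have hD : ∀ w ∈ D, ∀ i ≤ l, g'^[i] w = g^[i] w := fun w hw =>
    dp11_iter hE fun i hi => Or.inl (hp.path w hw i hi.le)
  have hPl : ∀ w ∈ D, PlD g' s l w = PlD g s l w := by
    intro w hw
    unfold PlD
    rw [hD w hw l le_rfl]
  have hB : ∀ v ∈ B, ∀ i ≤ k, InD g' s b i v = InD g s b i v := fun v hv =>
    dp11_iter hE fun i hi => hp.pathB v hv i hi.le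
  have hgB : ∀ v ∈ B, ∀ i ≤ k, g' (InD g' s b i v) = g (InD g s b i v) := by
    intro v hv i hi
    rw [hB v hv i hi, hE _ (hp.pathB v hv i hi)]
  exact
    { r_pos := hp.r_pos
      r_lt := hp.r_lt
      r_ltw := hp.r_ltw
      openD := hp.openD
      subD := by rw [hIm]; exact hp.subD
      compD := by rw [hIm]; exact hp.compD
      Pl_mem := fun w hw => by rw [hPl w hw]; exact hp.Pl_mem w hw
      Li_Pl := fun w hw => by rw [hPl w hw]; exact hp.Li_Pl w hw
      Li_mem := hp.Li_mem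
      Pl_Li := fun v hv => by rw [hPl _ (hp.Li_mem v hv)]; exact hp.Pl_Li v hv
      smLi := hp.smLi
      smPl := hp.smPl.congr hPl
      path := fun w hw i hi => by rw [hD w hw i hi]; exact hp.path w hw i hi
      land := fun w hw => by rw [hD w hw l le_rfl, hPl w hw]; exact hp.land w hw
      nhB := hp.nhB
      boxB := hp.boxB
      pathB := fun v hv i hi => by rw [hB v hv i hi]; exact hp.pathB v hv i hi
      notD := fun v hv i hi => by rw [hgB v hv i hi.le]; exact hp.notD v hv i hi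
      inD := fun v hv => by rw [hgB v hv k le_rfl]; exact hp.inD v hv
      TB := fun v hv => by
        have h1 : TTD g' s b k l v = TTD g s b k l v := by
          unfold TTD
          rw [hgB v hv k le_rfl, hPl _ (hp.inD v hv)]
        rw [h1]
        exact hp.TB v hv }

theorem small_compD {R : ℕ} {ε1 ε2 : ℝ} {ψ1 ψ2 : En d → En d} (h1 : SmallD R ε1 ψ1)
    (h2 : SmallD R ε2 ψ2) {D1 D2 : Set (En d)} (a1 : AdmD D1 ψ1) (a2 : AdmD D2 ψ2)
    (hd : Disjoint D1 D2) : SmallD R (ε1 + ε2) (ψ1 ∘ ψ2) := by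
  refine ⟨h1.smooth.comp h2.smooth, fun z hz => ?_, fun j hj z => ?_⟩
  · show ψ1 (ψ2 z) = z
    rw [h2.supp z hz, h1.supp z hz]
  · have h3 : (fun z => (ψ1 ∘ ψ2) z - z) = (fun z => ψ1 z - z) + fun z => ψ2 z - z := by
      funext z
      show ψ1 (ψ2 z) - z = (ψ1 z - z) + (ψ2 z - z)
      by_cases hz1 : z ∈ D1
      · have hz2 : z ∉ D2 := Set.disjoint_left.1 hd hz1
        rw [a2.1 z hz2]
        abel
      · rw [a1.1 z hz1]
        by_cases hz2 : z ∈ D2
        · have hz3 : ψ2 z ∉ D1 := Set.disjoint_right.1 hd (a2.2 z hz2)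
          rw [a1.1 _ hz3]
          abel
        · rw [a2.1 z hz2, a1.1 z hz1]
          abel
    have c1 : ContDiff ℝ ∞ fun z => ψ1 z - z := h1.smooth.sub contDiff_id
    have c2 : ContDiff ℝ ∞ fun z => ψ2 z - z := h2.smooth.sub contDiff_id
    rw [h3, iteratedFDeriv_add_apply (c1.contDiffAt.of_le (by exact_mod_cast le_top))
      (c2.contDiffAt.of_le (by exact_mod_cast le_top))]
    exact (norm_add_le _ _).trans (add_le_add (h1.bound j hj z) (h2.bound j hj z))

end Pool.Agent.Lib.H37D
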