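import Pool.Agent.Lib.H37D.DI99
import Pool.Agent.Lib.H37D.DJ02
import Pool.Agent.Lib.H37D.DJ03
import Pool.Agent.Lib.H37D.DP01
import Pool.Agent.Lib.H37D.DP07
import Pool.Agent.Lib.H37D.DP11

/-!
# H37D DJ10 (L): Stage I for nondegenerate data (port of H37P/J10.lean)

Places for both data (`exists_placeD`), the analytic core (`coreD`), vertical perturbations at the two places (`place_vertD`),
the composed orbit (`composed_midD`), the pass (`pass_rawD`).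
-/

open Set Filter Topology Asymptotics
open scoped ContDiff

namespace Pool.Agent.Lib.H37D

open Pool.Agent.Lib.H37N

variable {d : ℕ}

theorem dj10_lin_sub (lam mu : ℝ) (al : Wd d) (n : ℕ) (u : En d) (c : ℝ) :
    linD lam mu al n u - (((0, c), 0) : En d) =
      ((lam ^ n * u.1.1, mu ^ n * u.1.2 - c), mulw (al ^ n) u.2) := by
  unfold linD
  refine Prod.ext (Prod.ext ?_ ?_) ?_
  · simp
  · simp
  · simp

theorem dj10_pass {g : En d → En d} {s : FrD d} (hs : IsFrD g s) :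
    ∃ r > 0, ∀ (n ν : ℕ) (u : En d), |u.1.1| ≤ 1 → ‖u.2‖ ≤ 1 →
      |(linD (s.lam Sy.P) (s.mu Sy.P) (s.al Sy.P) n u - (((0, s.uS), 0) : En d)).1.1| < r →
      |(linD (s.lam Sy.P) (s.mu Sy.P) (s.al Sy.P) n u - (((0, s.uS), 0) : En d)).1.2| < r →
      ‖(linD (s.lam Sy.P) (s.mu Sy.P) (s.al Sy.P) n u - (((0, s.uS), 0) : En d)).2‖ < r →
      |(midD g s n ν u).1.2| < 2 →
      g^[n + s.kS + ν] (s.κ Sy.P u) = s.κ Sy.Q (midD g s n ν u) ∧
        ∀ i ≤ n + s.kS + ν, g^[i] (s.κ Sy.P u) ∈ VOD d := by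
  obtain ⟨r, hr, -, -, hpass⟩ := pass_rawD hs
  refine ⟨r, hr, fun n ν u h1 h2 h3 h4 h5 h6 => ?_⟩
  rw [dj10_lin_sub] at h3 h4 h5
  have hm : midD g s n ν u = ((s.lam Sy.Q ^ ν * (SSD g s ((s.lam Sy.P ^ n * u.1.1,
      s.mu Sy.P ^ n * u.1.2 - s.uS), mulw (s.al Sy.P ^ n) u.2)).1.1,
      s.mu Sy.Q ^ ν * (SSD g s ((s.lam Sy.P ^ n * u.1.1,
      s.mu Sy.P ^ n * u.1.2 - s.uS), mulw (s.al Sy.P ^ n) u.2)).1.2),
      mulw (s.al Sy.Q ^ ν) (SSD g s ((s.lam Sy.P ^ n * u.1.1,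
      s.mu Sy.P ^ n * u.1.2 - s.uS), mulw (s.al Sy.P ^ n) u.2)).2) := by
    unfold midD
    rw [dj10_lin_sub]
    rfl
  rw [hm] at h6 ⊢
  exact hpass n ν u.1.1 u.1.2 u.2 h1 h2 h3 h4 h5 h6

theorem dj10_tt {g : En d → En d} {s : FrD d} {Z : Set (En d)} {m : ℕ} {b a : ℝ} {wT : Wd d}
    {k l : ℕ} (hN : NearS g) (hs : IsFrD g s) (hm : 1 ≤ m) (ht : TDD g s Z m b a wT k l) :
    (∀ᶠ v in 𝓝 (0 : En d), ContDiffAt ℝ ∞ (TTD g s b k l) v) ∧ TTD g s b k l 0 = ((a, 0), wT) ∧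
      (fderiv ℝ (TTD g s b k l) 0 ((0, 1), 0)).1.1 ≠ 0 ∧
      (fderiv ℝ (TTD g s b k l) 0 ((1, 0), 0)).1.2 ≠ 0 := by
  obtain ⟨⟨O, hO, h0, hsm, -⟩, h1⟩ := tt_regularD hN hs ht
  obtain ⟨-, h2, h3⟩ := tt_derivD hN hs hm ht
  refine ⟨?_, h1, ?_, ?_⟩
  · filter_upwards [hO.mem_nhds h0] with v hv
    exact hsm.contDiffAt (hO.mem_nhds hv)
  · intro h
    rw [h, zero_mul] at h2
    linarith
  · intro h
    rw [h, mul_zero] at h2
    linarith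

theorem dj10_lin_cont (lam mu : ℝ) (al : Wd d) (n : ℕ) : Continuous (linD (d := d) lam mu al n) := by
  unfold linD mulw
  fun_prop

theorem stageI_nondegD {R m : ℕ} (hm : 1 ≤ m) {U : Set (En d → En d)} (hU : PertOpenD R U)
    (hUN : ∀ g ∈ U, NearS g) {g : En d → En d} (hg : g ∈ U) {s : FrD d} (hs : IsFrD g s)
    {Z1 Z2 : Set (En d)} (hd : Disjoint Z1 Z2) {b1 a1 b2 a2 : ℝ} {w1 w2 : Wd d} {k1 l1 k2 l2 : ℕ}
    (ht1 : TDD g s Z1 m b1 a1 w1 k1 l1) (ht2 : TDD g s Z2 m b2 a2 w2 k2 l2) {κ1 κ2 : ℝ}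
    (hκ1 : κ1 ≠ 0) (hκ2 : κ2 ≠ 0)
    (h1 : (fun t : ℝ => (TTD g s b1 k1 l1 ((0, t), 0)).1.2 - κ1 * t ^ (m + 1)) =O[𝓝 0]
      fun t => |t| ^ (m + 2))
    (h2 : (fun t : ℝ => (TTD g s b2 k2 l2 ((0, t), 0)).1.2 - κ2 * t ^ (m + 1)) =O[𝓝 0]
      fun t => |t| ^ (m + 2)) :
    ∃ g' ∈ U, EqOffD (Z1 ∪ Z2) g g' ∧ ∃ (b a : ℝ) (w : Wd d) (k l : ℕ),
      TDD g' s (Z1 ∪ Z2) (m + 1) b a w k l := by
  have hN : NearS g := hUN g hg
  have hZ1 := ht1.subZ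
  have hZ2 := ht2.subZ
  obtain ⟨r1, D1, B1, L1, p1⟩ := exists_placeD hN hs ht1
  obtain ⟨r2, D2, B2, L2, p2⟩ := exists_placeD hN hs ht2
  obtain ⟨hT1s, hT10, hal1, -⟩ := dj10_tt hN hs hm ht1
  obtain ⟨hT2s, hT20, hal2, hgm2⟩ := dj10_tt hN hs hm ht2
  have habs : (fun t : ℝ => |t| ^ (m + 2)) =O[𝓝 0] fun t : ℝ => t ^ (m + 2) := by
    refine IsBigO.of_bound 1 (Eventually.of_forall fun t => ?_)
    rw [one_mul, norm_pow, norm_pow, Real.norm_eq_abs, Real.norm_eq_abs, abs_abs]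
  obtain ⟨Φ1, Φ2, hΦ1, hΦ2, hz1, hz2, hcore⟩ := coreD hm hs (T1 := TTD g s b1 k1 l1)
    (T2 := TTD g s b2 k2 l2) hT1s hT10 rfl hal1 (h1.trans habs) hκ1 hT2s hT20 rfl hal2 rfl hgm2
    (h2.trans habs) hκ2 b2
  obtain ⟨ρ1, hρ1, hρ1r, hv1⟩ := place_vertD p1 Φ1 hΦ1 hz1
  obtain ⟨ρ2, hρ2, hρ2r, hv2⟩ := place_vertD p2 Φ2 hΦ2 hz2
  obtain ⟨ε, hε, hUε⟩ := hU g hg
  obtain ⟨r, hr, hpass⟩ := dj10_pass hs
  -- the neighbourhood N
  have hc2 : ContinuousAt (TTD g s b2 k2 l2) 0 := hT2s.self_of_nhds.continuousAt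
  have hN0 : {v : En d | (|v.1.1| < r ∧ |v.1.2| < r ∧ ‖v.2‖ < r ∧ |v.1.1| < 1 - |a2| ∧
      ‖v.2‖ < 1 - ‖w2‖ ∧ |b2 + v.1.2| < 2) ∧ ContDiffAt ℝ ∞ (SSD g s) v ∧
      TTD g s b2 k2 l2 v ∈ Metric.ball (((a2, 0), w2) : En d) ρ2} ∩ B2 ∈ 𝓝 (0 : En d) := by
    refine inter_mem ?_ p2.nhB
    have c1 : ∀ᶠ v : En d in 𝓝 0, |v.1.1| < r := by
      have : Continuous fun v : En d => |v.1.1| := by fun_prop
      exact this.continuousAt.eventually_lt continuousAt_const (by simpa using hr)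
    have c2 : ∀ᶠ v : En d in 𝓝 0, |v.1.2| < r := by
      have : Continuous fun v : En d => |v.1.2| := by fun_prop
      exact this.continuousAt.eventually_lt continuousAt_const (by simpa using hr)
    have c3 : ∀ᶠ v : En d in 𝓝 0, ‖v.2‖ < r := by
      have : Continuous fun v : En d => ‖v.2‖ := by fun_prop
      exact this.continuousAt.eventually_lt continuousAt_const (by simpa using hr)
    have c4 : ∀ᶠ v : En d in 𝓝 0, |v.1.1| < 1 - |a2| := by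
      have : Continuous fun v : En d => |v.1.1| := by fun_prop
      exact this.continuousAt.eventually_lt continuousAt_const (by have := ht2.a_lt; simp; linarith)
    have c5 : ∀ᶠ v : En d in 𝓝 0, |b2 + v.1.2| < 2 := by
      have : Continuous fun v : En d => |b2 + v.1.2| := by fun_prop
      exact this.continuousAt.eventually_lt continuousAt_const (by have := ht2.b_lt; simp; linarith)
    have c6 : ∀ᶠ v : En d in 𝓝 0, TTD g s b2 k2 l2 v ∈ Metric.ball (((a2, 0), w2) : En d) ρ2 := by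
      refine hc2.eventually_mem ?_
      rw [hT20]
      exact Metric.ball_mem_nhds _ hρ2
    have c7 : ∀ᶠ v : En d in 𝓝 0, ‖v.2‖ < 1 - ‖w2‖ := by
      have : Continuous fun v : En d => ‖v.2‖ := by fun_prop
      exact this.continuousAt.eventually_lt continuousAt_const (by have := ht2.w_lt; simp; linarith)
    filter_upwards [c1, c2, c3, c4, c5, c6, c7, hs.sdata.smooth] with v d1 d2 d3 d4 d5 d6 d7 d8
    exact ⟨⟨d1, d2, d3, d4, d7, d5⟩, d8, d6⟩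
  obtain ⟨N, hNsub, hNo, hN0'⟩ := mem_nhds_iff.1 hN0
  obtain ⟨n, ν, q1, ⟨ψ1, hS1, hA1, hψ1⟩, q2, ⟨ψ2, hS2, hA2, hψ2⟩, k02, k03, k04, k05, k06⟩ :=
    hcore _ (hv1 R (half_pos hε)) _ (hv2 R (half_pos hε)) N (hNo.mem_nhds hN0')
  set φ1 : ℝ × Wd d → ℝ := fun X => Φ1 (q1, X) with hφ1
  set φ2 : ℝ × Wd d → ℝ := fun X => Φ2 (q2, X) with hφ2
  -- disjoint supports
  have hDD : Disjoint D1 D2 := by
    rw [Set.disjoint_left]
    intro y hy1 hy2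
    obtain ⟨z1, hz1, e1⟩ := p1.subD hy1
    obtain ⟨z2, hz2, e2⟩ := p2.subD hy2
    have : z1 = z2 := dp03_injOn hN (dj02_Z_dom hZ1 hz1) (dj02_Z_dom hZ2 hz2) (e1.trans e2.symm)
    exact (Set.disjoint_left.1 hd) hz1 (this ▸ hz2)
  set g' : En d → En d := ψ1 ∘ ψ2 ∘ g with hg'
  have hgU : g' ∈ U := by
    have h12 : SmallD R (ε / 2 + ε / 2) (ψ1 ∘ ψ2) := small_compD hS1 hS2 hA1 hA2 hDD
    rw [add_halves] at h12
    exact hUε _ h12
  have hoff : EqOffD (Z1 ∪ Z2) g g' := by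
    intro z hz hzn
    have n1 : g z ∉ D1 := fun h => hzn (Or.inl (dj02_mem hN hZ1 hz (p1.subD h)))
    have n2 : g z ∉ D2 := fun h => hzn (Or.inr (dj02_mem hN hZ2 hz (p2.subD h)))
    simp only [hg', Function.comp_apply]
    rw [hA2.1 _ n2, hA1.1 _ n1]
  -- the curve
  have hcv : Tendsto (fun t : ℝ => (((0, t), 0) : En d)) (𝓝 0) (𝓝 0) := by
    have h : Continuous fun t : ℝ => (((0, t), 0) : En d) := by fun_prop
    exact h.tendsto' 0 0 rfl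
  have hT1c : ContinuousAt (fun t : ℝ => TTD g s b1 k1 l1 ((0, t), 0)) 0 := by
    have h3 : ContinuousAt (TTD g s b1 k1 l1) (((0 : ℝ), (0 : ℝ)), (0 : Wd d)) :=
      hT1s.self_of_nhds.continuousAt
    have h4 : ContinuousAt (fun t : ℝ => (((0, t), 0) : En d)) 0 := by fun_prop
    exact ContinuousAt.comp (f := fun t : ℝ => (((0, t), 0) : En d)) (g := TTD g s b1 k1 l1) h3 h4
  have hT1v : TTD g s b1 k1 l1 ((0, (0 : ℝ)), 0) = ((a1, 0), w1) := hT10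
  have hφ1c : Continuous φ1 := hΦ1.continuous.comp (by fun_prop)
  set u : ℝ → En d := fun t => vertD (TTD g s b1 k1 l1) φ1 ((0, t), 0) with hu
  have huc : ContinuousAt u 0 := by
    simp only [hu, vertD]
    have e1 : ContinuousAt (fun t : ℝ => (TTD g s b1 k1 l1 ((0, t), 0)).1.1) 0 := hT1c.fst.fst
    have e2 : ContinuousAt (fun t : ℝ => (TTD g s b1 k1 l1 ((0, t), 0)).1.2) 0 := hT1c.fst.snd
    have e3 : ContinuousAt (fun t : ℝ => (TTD g s b1 k1 l1 ((0, t), 0)).2) 0 := hT1c.snd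
    exact (e1.prodMk (e2.add (hφ1c.continuousAt.comp (e1.prodMk e3)))).prodMk e3
  set st : ℝ → En d := fun t =>
    linD (s.lam Sy.P) (s.mu Sy.P) (s.al Sy.P) n (u t) - (((0, s.uS), 0) : En d) with hst
  have hstc : ContinuousAt st 0 :=
    ((dj10_lin_cont _ _ _ n).continuousAt.comp huc).sub continuousAt_const
  have hst0 : st 0 ∈ N := k02
  set w : ℝ → En d := fun t => midD g s n ν (u t) - (((0, b2), 0) : En d) with hw
  have hwc : ContinuousAt w 0 := by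
    have e1 : ContinuousAt (fun t => SSD g s (st t)) 0 :=
      ContinuousAt.comp (f := st) (g := SSD g s) (hNsub hst0).1.2.1.continuousAt hstc
    exact ((dj10_lin_cont _ _ _ ν).continuousAt.comp e1).sub continuousAt_const
  have hw0 : w 0 ∈ N := k03
  -- conditions near t = 0
  have hev : ∀ᶠ t : ℝ in 𝓝 0, (((0, t), 0) : En d) ∈ B1 ∧
      TTD g s b1 k1 l1 ((0, t), 0) ∈ Metric.ball (((a1, 0), w1) : En d) ρ1 ∧
      (|(u t).1.1| ≤ 1 ∧ ‖(u t).2‖ ≤ 1) ∧ st t ∈ N ∧ w t ∈ N := by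
    have d1 : ∀ᶠ t : ℝ in 𝓝 0, (((0, t), 0) : En d) ∈ B1 := hcv.eventually p1.nhB
    have d2 : ∀ᶠ t : ℝ in 𝓝 0, TTD g s b1 k1 l1 ((0, t), 0) ∈
        Metric.ball (((a1, 0), w1) : En d) ρ1 := by
      refine hT1c.eventually_mem ?_
      rw [hT1v]
      exact Metric.ball_mem_nhds _ hρ1
    have hu0 : (u 0).1.1 = a1 := by
      have : (u 0).1.1 = (TTD g s b1 k1 l1 ((0, (0 : ℝ)), 0)).1.1 := rfl
      rw [this, hT1v]
    have hu0' : (u 0).2 = w1 := by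
      have : (u 0).2 = (TTD g s b1 k1 l1 ((0, (0 : ℝ)), 0)).2 := rfl
      rw [this, hT1v]
    have d3 : ∀ᶠ t : ℝ in 𝓝 0, |(u t).1.1| < 1 := by
      have : ContinuousAt (fun t => |(u t).1.1|) 0 := huc.fst.fst.abs
      refine this.eventually_lt continuousAt_const ?_
      rw [hu0]
      exact ht1.a_lt
    have d3' : ∀ᶠ t : ℝ in 𝓝 0, ‖(u t).2‖ < 1 := by
      have : ContinuousAt (fun t => ‖(u t).2‖) 0 := huc.snd.norm
      refine this.eventually_lt continuousAt_const ?_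
      rw [hu0']
      exact ht1.w_lt
    have d4 : ∀ᶠ t : ℝ in 𝓝 0, st t ∈ N := hstc.eventually_mem (hNo.mem_nhds hst0)
    have d5 : ∀ᶠ t : ℝ in 𝓝 0, w t ∈ N := hwc.eventually_mem (hNo.mem_nhds hw0)
    filter_upwards [d1, d2, d3, d3', d4, d5] with t e1 e2 e3 e3' e4 e5
    exact ⟨e1, e2, ⟨e3.le, e3'.le⟩, e4, e5⟩
  -- the composed orbit for such t
  set M : ℕ := n + s.kS + ν with hM
  have hcomp : ∀ t : ℝ, (((0, t), 0) : En d) ∈ B1 →
      TTD g s b1 k1 l1 ((0, t), 0) ∈ Metric.ball (((a1, 0), w1) : En d) ρ1 →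
      (|(u t).1.1| ≤ 1 ∧ ‖(u t).2‖ ≤ 1) → st t ∈ N → w t ∈ N →
      (∀ i ≤ k1 + 1 + l1 + M, InD g' s b1 i ((0, t), 0) ∈ VOD d ∪ Z1) ∧
      (∀ i ≤ k2, InD g' s b1 (k1 + 1 + l1 + M + i) ((0, t), 0) = InD g s b2 i (w t)) ∧
      TTD g' s b1 (k1 + 1 + l1 + M + k2) l2 ((0, t), 0) =
        cmpD g s (TTD g s b1 k1 l1) (TTD g s b2 k2 l2) b2 n ν φ1 φ2 t ∧
      (∀ i ≤ l2, g'^[i] (g' (InD g' s b1 (k1 + 1 + l1 + M + k2) ((0, t), 0))) ∈ VOD d) ∧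
      g'^[l2] (g' (InD g' s b1 (k1 + 1 + l1 + M + k2) ((0, t), 0))) =
        s.κ Sy.P (cmpD g s (TTD g s b1 k1 l1) (TTD g s b2 k2 l2) b2 n ν φ1 φ2 t) := by
    intro t c1 c2 c3 c4 c5
    obtain ⟨⟨⟨m1, m2, m3, m4, m5, m6⟩, m7, m8⟩, m9⟩ := hNsub c5
    obtain ⟨⟨⟨m1', m2', m3', -⟩, -⟩, -⟩ := hNsub c4
    have e1 : u t = PlD g s l1 (ψ1 (L1 (TTD g s b1 k1 l1 ((0, t), 0)))) := (hψ1 _ c2).symm
    have ew : midD g s n ν (u t) = (((w t).1.1, b2 + (w t).1.2), (w t).2) := by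
      simp only [hw]
      refine Prod.ext (Prod.ext ?_ ?_) ?_ <;> simp
    obtain ⟨f2, f1⟩ := hpass n ν (u t) c3.1 c3.2 m1' m2' m3' (by
      rw [ew]
      exact m6)
    have f2' : g^[M] (s.κ Sy.P (u t)) = s.κ Sy.Q (((w t).1.1, b2 + (w t).1.2), (w t).2) := by
      rw [← ew]
      exact f2
    have e2 : PlD g s l2 (ψ2 (L2 (TTD g s b2 k2 l2 (w t)))) =
        cmpD g s (TTD g s b1 k1 l1) (TTD g s b2 k2 l2) b2 n ν φ1 φ2 t := by
      rw [hψ2 _ m8]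
      rfl
    have := composed_midD hN hZ1 hZ2 hd p1 p2 hA1 hA2 c1 e1 f1 f2' m9
    rw [e2] at this
    exact this
  refine ⟨g', hgU, hoff, b1,
    (cmpD g s (TTD g s b1 k1 l1) (TTD g s b2 k2 l2) b2 n ν φ1 φ2 0).1.1,
    (cmpD g s (TTD g s b1 k1 l1) (TTD g s b2 k2 l2) b2 n ν φ1 φ2 0).2,
    k1 + 1 + l1 + M + k2, l2, ?_⟩
  obtain ⟨z1, z2, z3, z4, z5⟩ := hev.self_of_nhds
  obtain ⟨y1, y2, y3, y4, y5⟩ := hcomp 0 z1 z2 z3 z4 z5
  have hw0B : w 0 ∈ B2 := (hNsub z5).2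
  have hInZ2 : InD g s b2 k2 (w 0) ∈ Z2 := by
    have hm := p2.pathB _ hw0B k2 le_rfl
    exact dj02_mem hN hZ2 (hm.elim (fun h => dj02_VOD_dom h) fun h => dj02_Z_dom hZ2 h)
      (p2.subD (p2.inD _ hw0B))
  have hk2 : InD g' s b1 (k1 + 1 + l1 + M + k2) 0 = InD g s b2 k2 (w 0) := y2 k2 le_rfl
  refine
    { openZ := ht1.openZ.union ht2.openZ
      subZ := union_subset hZ1 hZ2
      b_pos := ht1.b_pos
      b_lt := ht1.b_lt
      a_lt := ?_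
      w_lt := ?_
      path1 := ?_
      memZ := ?_
      dist := ?_
      path2 := y4
      fin := ?_
      ord := ?_ }
  · have h := (hNsub k04).1.1.2.2.2.1
    have e : (cmpD g s (TTD g s b1 k1 l1) (TTD g s b2 k2 l2) b2 n ν φ1 φ2 0 -
        (((a2, 0), w2) : En d)).1.1 =
      (cmpD g s (TTD g s b1 k1 l1) (TTD g s b2 k2 l2) b2 n ν φ1 φ2 0).1.1 - a2 := rfl
    rw [e] at h
    have h3 := abs_sub_abs_le_abs_sub
      (cmpD g s (TTD g s b1 k1 l1) (TTD g s b2 k2 l2) b2 n ν φ1 φ2 0).1.1 a2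
    linarith
  · have h := (hNsub k04).1.1.2.2.2.2.1
    have e : (cmpD g s (TTD g s b1 k1 l1) (TTD g s b2 k2 l2) b2 n ν φ1 φ2 0 -
        (((a2, 0), w2) : En d)).2 =
      (cmpD g s (TTD g s b1 k1 l1) (TTD g s b2 k2 l2) b2 n ν φ1 φ2 0).2 - w2 := rfl
    rw [e] at h
    have h3 := norm_sub_norm_le
      (cmpD g s (TTD g s b1 k1 l1) (TTD g s b2 k2 l2) b2 n ν φ1 φ2 0).2 w2
    linarith
  · intro i hi
    rcases le_or_gt i (k1 + 1 + l1 + M) with h | h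
    · exact (y1 i h).elim (fun h => Or.inl h) fun h => Or.inr (Or.inl h)
    · obtain ⟨j, rfl⟩ := Nat.exists_eq_add_of_lt h
      have e : InD g' s b1 (k1 + 1 + l1 + M + j + 1) 0 = InD g s b2 (j + 1) (w 0) :=
        y2 (j + 1) (by omega)
      rw [e]
      exact (p2.pathB _ hw0B (j + 1) (by omega)).elim (fun h => Or.inl h) fun h => Or.inr (Or.inr h)
  · rw [hk2]
    exact Or.inr hInZ2
  · intro i hi
    rw [hk2]
    rcases le_or_gt i (k1 + 1 + l1 + M) with h | h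
    · intro he
      have hm : InD g' s b1 i ((0, 0), 0) ∈ VOD d ∪ Z1 := y1 i h
      have he' : InD g' s b1 i ((0, 0), 0) = InD g s b2 k2 (w 0) := he
      rw [he'] at hm
      exact hm.elim (fun h => dj02_VOD_Z hZ2 h hInZ2) fun h => (Set.disjoint_left.1 hd) h hInZ2
    · obtain ⟨j, rfl⟩ := Nat.exists_eq_add_of_lt h
      have e : InD g' s b1 (k1 + 1 + l1 + M + j + 1) 0 = InD g s b2 (j + 1) (w 0) :=
        y2 (j + 1) (by omega)
      rw [e]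
      intro he
      refine p2.notD _ hw0B (j + 1) (by omega) ?_
      rw [he]
      exact p2.inD _ hw0B
  · have e : cmpD g s (TTD g s b1 k1 l1) (TTD g s b2 k2 l2) b2 n ν φ1 φ2 0 =
        (((cmpD g s (TTD g s b1 k1 l1) (TTD g s b2 k2 l2) b2 n ν φ1 φ2 0).1.1, 0),
          (cmpD g s (TTD g s b1 k1 l1) (TTD g s b2 k2 l2) b2 n ν φ1 φ2 0).2) :=
      Prod.ext (Prod.ext rfl k05) rfl
    rw [← e]
    exact y5
  · have habs2 : (fun t : ℝ => t ^ (m + 2)) =O[𝓝 0] fun t : ℝ => |t| ^ (m + 2) := by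
      refine IsBigO.of_bound 1 (Eventually.of_forall fun t => ?_)
      rw [one_mul, norm_pow, norm_pow, Real.norm_eq_abs, Real.norm_eq_abs, abs_abs]
    refine (k06.trans habs2).congr' ?_ EventuallyEq.rfl
    filter_upwards [hev] with t ht
    rw [(hcomp t ht.1 ht.2.1 ht.2.2.1 ht.2.2.2.1 ht.2.2.2.2).2.2.1]

end Pool.Agent.Lib.H37D
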