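import Pool.Agent.Lib.H37D.DB19
import Pool.Agent.Lib.H37D.DC50
import Pool.Agent.Lib.H37D.DJ01
import Pool.Agent.Lib.H37D.DJ10

/-!
# H37D DJ11: Stage I in dimension `2 + d` (port of H37P/J11.lean)
-/

open Set Filter Topology Asymptotics
open scoped ContDiff

namespace Pool.Agent.Lib.H37D

open Pool.Agent.Lib.H37N

variable {d : ℕ}

theorem EqOffD.trans_union {Z1 Z2 : Set (En d)} {g g1 g2 : En d → En d} (h1 : EqOffD Z1 g g1)
    (h2 : EqOffD Z2 g1 g2) : EqOffD (Z1 ∪ Z2) g g2 := fun z hz hn => by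
  rw [h2 z hz fun h => hn (Or.inr h), h1 z hz fun h => hn (Or.inl h)]

theorem EqOffD.eqVO {Z : Set (En d)} {g g' : En d → En d} (h : EqOffD Z g g')
    (hZ : Z ⊆ interior (FFd d)) : ∀ z ∈ VOD d, g' z = g z := by
  intro z hz
  have hzV := VOD_sub hz
  exact h z (Or.inl hzV) fun h2 =>
    Set.disjoint_left.1 VVd_FFd_disjoint hzV (interior_subset (hZ h2))

theorem stageID {R m : ℕ} (hm : 1 ≤ m) {U : Set (En d → En d)} (hU : PertOpenD R U)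
    (hUN : ∀ g ∈ U, NearS g) {g : En d → En d} (hg : g ∈ U) {s : FrD d} (hs : IsFrD g s)
    {Z1 Z2 : Set (En d)} (hd : Disjoint Z1 Z2) {b1 a1 b2 a2 : ℝ} {w1 w2 : Wd d} {k1 l1 k2 l2 : ℕ}
    (ht1 : TDD g s Z1 m b1 a1 w1 k1 l1) (ht2 : TDD g s Z2 m b2 a2 w2 k2 l2) :
    ∃ g' ∈ U, EqOffD (Z1 ∪ Z2) g g' ∧ ∃ (b a : ℝ) (w : Wd d) (k l : ℕ),
      TDD g' s (Z1 ∪ Z2) (m + 1) b a w k l := by
  have hF1 : Z1 ⊆ FFd d := ht1.subZ.trans interior_subset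
  have hF2 : Z2 ⊆ FFd d := ht2.subZ.trans interior_subset
  -- make the first datum nondegenerate
  obtain ⟨g1, hg1, he1, ht11, κ1, hκ1, hk1⟩ := nondegD hm hU hUN hg hs ht1
  have hs1 : IsFrD g1 s := hs.congr (he1.eqVO ht1.subZ)
  have ht21 : TDD g1 s Z2 m b2 a2 w2 k2 l2 := tdd_congr (hUN g hg) hs ht2 he1 hF1 hd.symm
  -- make the second datum nondegenerate
  obtain ⟨g2, hg2, he2, ht22, κ2, hκ2, hk2⟩ := nondegD hm hU hUN hg1 hs1 ht21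
  have hs2 : IsFrD g2 s := hs1.congr (he2.eqVO ht2.subZ)
  have ht12 : TDD g2 s Z1 m b1 a1 w1 k1 l1 := tdd_congr (hUN g1 hg1) hs1 ht11 he2 hF2 hd
  have hT := ttd_congr (hUN g1 hg1) hs1 ht11 he2 hF2 hd
  have hcont : Tendsto (fun t : ℝ => (((0, t), 0) : En d)) (𝓝 0) (𝓝 0) := by
    have h : Continuous fun t : ℝ => (((0, t), 0) : En d) := by fun_prop
    exact h.tendsto' 0 0 rfl
  have hk12 : (fun t : ℝ => (TTD g2 s b1 k1 l1 ((0, t), 0)).1.2 - κ1 * t ^ (m + 1)) =O[𝓝 0]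
      fun t => |t| ^ (m + 2) := by
    refine hk1.congr' ?_ EventuallyEq.rfl
    filter_upwards [hcont.eventually hT] with t ht
    rw [ht]
  obtain ⟨g3, hg3, he3, hTD⟩ := stageI_nondegD hm hU hUN hg2 hs2 hd ht12 ht22 hκ1 hκ2 hk12 hk2
  refine ⟨g3, hg3, ?_, hTD⟩
  have h12 : EqOffD (Z1 ∪ Z2) g g2 := he1.trans_union he2
  intro z hz hn
  rw [he3 z hz hn, h12 z hz hn]

/-- the output of Stage I in the form of `X_mD`, `exists_TDD` (DC50) -/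
theorem stepI_of {R : ℕ} {U : Set (En d → En d)} (hU : PertOpenD R U) (hUN : ∀ g ∈ U, NearS g)
    (F : FrD d) : StepI U F := by
  intro g hg hF Z1 Z2 hd m hm h1 h2
  obtain ⟨b1, a1, w1, k1, l1, ht1⟩ := h1
  obtain ⟨b2, a2, w2, k2, l2, ht2⟩ := h2
  exact stageID hm hU hUN hg hF hd ht1 ht2

end Pool.Agent.Lib.H37D
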