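import Pool.Agent.Lib.H37D.KDefs
import Pool.Agent.Lib.H37N.MK1

/-!
# H37D DK1 (port of H37N MK1): big charts; the extension of compactly supported diffeomorphisms (`exists_diffK`) is general already
-/

open Set Filter Topology
open scoped ContDiff Manifold
open Pool.Agent.Lib.Helper37.ConjBorel Pool.Agent.Lib.H37C

namespace Pool.Agent.Lib.H37D

open Pool.Agent.Lib.H37N

variable {d : ℕ} {M : Type*} [TopologicalSpace M] [ChartedSpace (Euc (d + 2)) M]

theorem exists_bigCD [IsManifold (𝓡 (d + 2)) ∞ M] [Nonempty M] (r : ℝ) :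
    ∃ e : OpenPartialHomeomorph M (Euc (d + 2)), BigCD e r := by
  obtain ⟨p⟩ := (inferInstance : Nonempty M)
  set e₀ := chartAt (Euc (d + 2)) p with he₀
  have h₀ : e₀ ∈ (contDiffGroupoid ∞ (𝓡 (d + 2))).maximalAtlas M := IsManifold.chart_mem_maximalAtlas p
  have hp₀ : p ∈ e₀.source := mem_chart_source _ _
  obtain ⟨ρ, hρ, hball⟩ := Metric.nhds_basis_closedBall.mem_iff.1
    (e₀.open_target.mem_nhds (e₀.map_source hp₀))
  set R : ℝ := ‖((LLd d).symm : En d →L[ℝ] Euc (d + 2))‖ * |r| + 1 with hR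
  have hRpos : 0 < R := by positivity
  let a : Euc (d + 2) ≃ₜ Euc (d + 2) :=
    { toFun := fun y => (R / ρ) • (y - e₀ p)
      invFun := fun y => (ρ / R) • y + e₀ p
      left_inv := fun y => by
        simp only [smul_smul]
        rw [show ρ / R * (R / ρ) = 1 by field_simp, one_smul, sub_add_cancel]
      right_inv := fun y => by
        simp only [add_sub_cancel_right, smul_smul]
        rw [show R / ρ * (ρ / R) = 1 by field_simp, one_smul]
      continuous_toFun := by fun_prop
      continuous_invFun := by fun_prop }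
  have ha : a.toOpenPartialHomeomorph ∈ contDiffGroupoid ∞ (𝓡 (d + 2)) := by
    rw [contDiffGroupoid, mem_groupoid_of_pregroupoid]
    constructor
    · show ContDiffOn ℝ ∞ _ _
      have : ContDiff ℝ ∞ (fun y : Euc (d + 2) => (R / ρ) • (y - e₀ p)) := by fun_prop
      exact this.contDiffOn
    · show ContDiffOn ℝ ∞ _ _
      have : ContDiff ℝ ∞ (fun y : Euc (d + 2) => (ρ / R) • y + e₀ p) := by fun_prop
      exact this.contDiffOn
  have ha' : a.toOpenPartialHomeomorph.symm ∈ contDiffGroupoid ∞ (𝓡 (d + 2)) :=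
    StructureGroupoid.symm _ ha
  refine ⟨e₀.trans a.toOpenPartialHomeomorph, ?_, ?_⟩
  · show _ ∈ (contDiffGroupoid ∞ (𝓡 (d + 2))).maximalAtlas M
    rw [mem_maximalAtlas_iff] at h₀ ⊢
    intro e' he'
    obtain ⟨h1, h2⟩ := h₀ e' he'
    constructor
    · rw [OpenPartialHomeomorph.trans_symm_eq_symm_trans_symm, OpenPartialHomeomorph.trans_assoc]
      exact StructureGroupoid.trans _ ha' h1
    · rw [← OpenPartialHomeomorph.trans_assoc]
      exact StructureGroupoid.trans _ h2 ha
  · intro z hz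
    rw [OpenPartialHomeomorph.trans_target]
    refine ⟨mem_univ _, ?_⟩
    show (ρ / R) • (LLd d).symm z + e₀ p ∈ e₀.target
    apply hball
    rw [Metric.mem_closedBall, dist_eq_norm, add_sub_cancel_right, norm_smul, Real.norm_eq_abs,
      abs_of_pos (by positivity)]
    have h1 : ‖(LLd d).symm z‖ ≤ R := by
      have h2 := ((LLd d).symm : En d →L[ℝ] Euc (d + 2)).le_opNorm z
      have h3 : ‖((LLd d).symm : En d →L[ℝ] Euc (d + 2))‖ * ‖z‖ ≤
          ‖((LLd d).symm : En d →L[ℝ] Euc (d + 2))‖ * |r| := by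
        gcongr
        exact hz.trans (le_abs_self r)
      have h4 : ‖(LLd d).symm z‖ ≤ ‖((LLd d).symm : En d →L[ℝ] Euc (d + 2))‖ * ‖z‖ := h2
      linarith
    calc ρ / R * ‖(LLd d).symm z‖ ≤ ρ / R * R := by gcongr
      _ = ρ := by field_simp

end Pool.Agent.Lib.H37D
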