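import Pool.Agent.Lib.H37D.DK3

/-!
# H37D DK4 (port of MK4) (size M): the basic sets of order at most `R` are stable under small perturbations
-/

open Set Filter Topology
open scoped ContDiff Manifold
open Pool.Agent.Lib.Helper37.ConjBorel Pool.Agent.Lib.H37C

namespace Pool.Agent.Lib.H37D

open Pool.Agent.Lib.H37N

variable {d : ℕ}

variable {M : Type*} [TopologicalSpace M] [ChartedSpace (Euc (d + 2)) M]

/-- Proof. Otherwise for every `j : ℕ` there is `ψ j` with `SmallD R (1/(j+1)) (ψ j)` and `f2 j` of the given form, not in the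
basic set. Define `g s = ψ j` if `s = 1/(j+1)` (the `j` is unique), `g s = id` otherwise: the hypotheses of `family_reg` hold
(`SmallD.smooth`, `SmallD.bound`, `SmallD.supp`). As in `continuous_of_jc` (`Lib/Helper37/ConjBorel/Proof.lean`), with
`IsCompact.eventually_forall_of_forall_eventually` on `C`: for `s` near `0`, all `x ∈ C`:
`ext e (cjd (g s)) (f1 (φ.symm x)) ∈ χ.source` (continuity; at `s = 0` it is `f1 (φ.symm x) ∈ χ.source`), and the norm of the difference of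
the `k`-th derivatives is `< ε0` (`RegN` part with `k ≤ R`, minus the fixed function `χ ∘ f0 ∘ φ.symm`; at `s = 0`, `cjd (g 0) = id` and the
function is `χ ∘ f1 ∘ φ.symm` near `x`). For `s = 1/(j+1)`, `j` large, `f2 j` is in the basic set: contradiction. -/
theorem basic_stable [T2Space M] [IsManifold (𝓡 (d + 2)) ∞ M] {e : OpenPartialHomeomorph M (Euc (d + 2))} {r : ℝ}
    (he : BigCD e r) (hr : 4 ≤ r) {f0 f1 : DiffInf (d + 2) M} {φ χ : OpenPartialHomeomorph M (Euc (d + 2))}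
    (hφ : φ ∈ IsManifold.maximalAtlas (𝓡 (d + 2)) ∞ M) (hχ : χ ∈ IsManifold.maximalAtlas (𝓡 (d + 2)) ∞ M)
    {C : Set (Euc (d + 2))} (hC : IsCompact C) (hCφ : C ⊆ φ.target)
    (hCχ : ∀ x ∈ C, f0 (φ.symm x) ∈ χ.source) {k R : ℕ} (hk : k ≤ R) {ε0 : ℝ}
    (hf1 : f1 ∈ basicSet f0 φ χ C k ε0) : ∃ ε > (0 : ℝ), ∀ ψ, SmallD R ε ψ → ∀ f2 : DiffInf (d + 2) M,
      (∀ z, f2 z = ext e (cjd ψ) (f1 z)) → f2 ∈ basicSet f0 φ χ C k ε0 := by
  classical
  by_contra hcon
  have hcon' : ∀ j : ℕ, ∃ ψ, SmallD R (1 / ((j : ℝ) + 1)) ψ ∧ ∃ f2 : DiffInf (d + 2) M,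
      (∀ z, f2 z = ext e (cjd ψ) (f1 z)) ∧ f2 ∉ basicSet f0 φ χ C k ε0 := by
    intro j
    by_contra h1
    refine hcon ⟨1 / ((j : ℝ) + 1), Nat.one_div_pos_of_nat, fun ψ hψ f2 hf2 => ?_⟩
    by_contra h2
    exact h1 ⟨ψ, hψ, f2, hf2, h2⟩
  choose ψ hψ f2 hf2 hnot using hcon'
  -- the family
  let g : ℝ → En d → En d := fun s =>
    if h : ∃ j : ℕ, s = 1 / ((j : ℝ) + 1) then ψ h.choose else fun z => z
  have hgj : ∀ j : ℕ, g (1 / ((j : ℝ) + 1)) = ψ j := by
    intro j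
    have h : ∃ i : ℕ, 1 / ((j : ℝ) + 1) = 1 / ((i : ℝ) + 1) := ⟨j, rfl⟩
    have h1 : g (1 / ((j : ℝ) + 1)) = ψ h.choose := dif_pos h
    have h2 : h.choose = j := by
      have h3 := h.choose_spec
      have key : ∀ a b : ℝ, 1 / a = 1 / b → a = b := fun a b hab => by
        rw [one_div, one_div] at hab
        exact inv_injective hab
      have h4 : ((j : ℝ) + 1) = (h.choose : ℝ) + 1 := key _ _ h3
      exact_mod_cast (add_right_cancel h4).symm
    rw [h1, h2]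
  have hcase : ∀ s, (∃ j : ℕ, s = 1 / ((j : ℝ) + 1) ∧ g s = ψ j) ∨ g s = fun z => z := by
    intro s
    by_cases h : ∃ j : ℕ, s = 1 / ((j : ℝ) + 1)
    · obtain ⟨j, rfl⟩ := h
      exact Or.inl ⟨j, rfl, hgj j⟩
    · exact Or.inr (dif_neg h)
  have hg0 : g 0 = fun z => z := by
    refine dif_neg ?_
    rintro ⟨j, hj⟩
    have h1 : (0 : ℝ) < 1 / ((j : ℝ) + 1) := Nat.one_div_pos_of_nat
    exact h1.ne hj
  have hs : ∀ s, ContDiff ℝ ∞ (g s) := by
    intro s
    rcases hcase s with ⟨j, -, h⟩ | h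
    · rw [h]
      exact (hψ j).smooth
    · rw [h]
      exact contDiff_id
  have hb : ∀ s, ∀ j ≤ R, ∀ z, ‖iteratedFDeriv ℝ j (fun z => g s z - z) z‖ ≤ |s| := by
    intro s i hi z
    rcases hcase s with ⟨j, hj, h⟩ | h
    · rw [h]
      have h1 : (0 : ℝ) < 1 / ((j : ℝ) + 1) := Nat.one_div_pos_of_nat
      rw [hj, abs_of_pos h1]
      exact (hψ j).bound i hi z
    · rw [h]
      have h1 : (fun z : En d => z - z) = fun _ => (0 : En d) := by
        funext z
        exact sub_self z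
      rw [h1]
      have h2 : iteratedFDeriv ℝ i (fun _ : En d => (0 : En d)) z = 0 := by
        rw [iteratedFDeriv_fun_zero]
        rfl
      rw [h2, norm_zero]
      exact abs_nonneg s
  have hK : ∀ s z, z ∉ K0D d → g s z = z := by
    intro s z hz
    rcases hcase s with ⟨j, -, h⟩ | h
    · rw [h]
      exact (hψ j).supp z hz
    · rw [h]
  have hext0 : ∀ m, ext e (cjd (g 0)) m = m := by
    intro m
    by_cases hm : m ∈ e.source
    · rw [ext_of_mem hm, hg0]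
      have h1 : cjd (fun z => z) (e m) = e m := (LLd d).symm_apply_apply _
      rw [h1, e.left_inv hm]
    · exact ext_of_notMem hm
  have hfam := fun {x : Euc (d + 2)} (hx : x ∈ C) =>
    family_reg he hr hs hb hK f1 hφ hχ (hCφ hx) (hf1.1 x hx)
  have h1 : ∀ᶠ s in 𝓝 (0 : ℝ), ∀ x ∈ C, ext e (cjd (g s)) (f1 (φ.symm x)) ∈ χ.source := by
    refine hC.eventually_forall_of_forall_eventually fun x hx => ?_
    refine (hfam hx).1.eventually (χ.open_source.mem_nhds ?_)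
    simp only [hext0]
    exact hf1.1 x hx
  have h2 : ∀ᶠ s in 𝓝 (0 : ℝ), ∀ x ∈ C,
      ‖iteratedFDeriv ℝ k (χ ∘ (fun m => ext e (cjd (g s)) (f1 m)) ∘ φ.symm) x -
        iteratedFDeriv ℝ k (χ ∘ f0 ∘ φ.symm) x‖ < ε0 := by
    refine hC.eventually_forall_of_forall_eventually fun x hx => ?_
    have h3 := (hfam hx).2.2 k (by exact_mod_cast hk)
    have h4 : RegN ⊤ (fun _ : ℝ => χ ∘ f0 ∘ φ.symm) 0 x :=
      regN_of_contDiffOn (isOpen_expr f0.continuous φ χ) (contDiffOn_expr f0.contMDiff hφ hχ) 0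
        ⟨hCφ hx, hCχ x hx⟩
    have h5 := (h3.sub (h4.2 k le_top)).norm
    refine h5.eventually_lt_const ?_
    have h6 : (χ ∘ (fun m => ext e (cjd (g 0)) (f1 m)) ∘ φ.symm) = χ ∘ f1 ∘ φ.symm := by
      funext y
      simp only [Function.comp_apply, hext0]
    show ‖iteratedFDeriv ℝ k (χ ∘ (fun m => ext e (cjd (g 0)) (f1 m)) ∘ φ.symm) x -
        iteratedFDeriv ℝ k (χ ∘ f0 ∘ φ.symm) x‖ < ε0
    rw [h6]
    exact hf1.2 x hx
  have h7 : Tendsto (fun j : ℕ => (1 : ℝ) / ((j : ℝ) + 1)) atTop (𝓝 0) :=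
    tendsto_one_div_add_atTop_nhds_zero_nat
  obtain ⟨j, h8, h9⟩ := (h7.eventually (h1.and h2)).exists
  refine hnot j ⟨fun x hx => ?_, fun x hx => ?_⟩
  · have h10 := h8 x hx
    rw [hgj] at h10
    rw [hf2]
    exact h10
  · have h10 := h9 x hx
    rw [hgj] at h10
    have h11 : (χ ∘ f2 j ∘ φ.symm) = χ ∘ (fun m => ext e (cjd (ψ j)) (f1 m)) ∘ φ.symm := by
      funext y
      simp only [Function.comp_apply, hf2]
    rw [h11]
    exact h10

end Pool.Agent.Lib.H37D
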