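import Pool.Agent.Lib.H37D.DK5
import Pool.Agent.Lib.H37D.KT8
import Pool.Agent.Lib.H37N.MK1

/-!
# H37D DK6 (port of MK6): local representations of perturbed diffeomorphisms
-/

open Set Filter Topology
open scoped ContDiff Manifold
open Pool.Agent.Lib.Helper37.ConjBorel Pool.Agent.Lib.H37C

namespace Pool.Agent.Lib.H37D

open Pool.Agent.Lib.H37N

variable {d : ℕ}

variable {M : Type*} [TopologicalSpace M] [ChartedSpace (Euc (d + 2)) M]

theorem dk6_cj {e : OpenPartialHomeomorph M (Euc (d + 2))} {r : ℝ} (he : BigCD e r) (hr : 4 ≤ r)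
    {ψ : En d → En d} (hψ : SmallD 1 (1 / 2) ψ) {x : Euc (d + 2)} (hx : x ∈ e.target) :
    cjd ψ x ∈ e.target := by
  by_cases h : (LLd d) x ∈ K0D d
  · exact he.big _ ((k0D_norm (hψ.mem_K0D h)).trans hr)
  · have h1 : cjd ψ x = x := by
      rw [cjd, hψ.supp _ h, (LLd d).symm_apply_apply]
    rw [h1]
    exact hx

/-- Proof. `ψ` is a bijection which is the identity off `K0D d` and maps `K0D d` to `K0D d` (`SmallD.mem_K0`), and `(LLd d).symm '' K0D d ⊆ e.target` (`K0D d` is in the ball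
of radius `4`). For `m ∈ e.source`: `cjd ψ (e m) ∈ e.target`, so `ext e (cjd ψ) m = e.symm (cjd ψ (e m)) ∈ e.source` and
`e (ext e (cjd ψ) m) = cjd ψ (e m)`; for `m ∉ e.source`: `ext e (cjd ψ) m = m ∉ e.source`. So the two sets `domD` agree, on `domD`:
`(LLd d) (cjd ψ (e (f z'))) = ψ ((LLd d) (e (f z')))`, off `domD`: `ψ (10,10) = (10,10)`. -/
theorem loc_ext {e : OpenPartialHomeomorph M (Euc (d + 2))} {r : ℝ} (he : BigCD e r) (hr : 4 ≤ r)
    {ψ : En d → En d} (hψ : SmallD 1 (1 / 2) ψ) (f : M → M) :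
    locD e (fun m => ext e (cjd ψ) (f m)) = ψ ∘ locD e f := by
  funext z
  show locD e (fun m => ext e (cjd ψ) (f m)) z = ψ (locD e f z)
  by_cases h : z ∈ domD e f
  · have h2 := dk6_cj he hr hψ (e.map_source h.2)
    have h' : z ∈ domD e (fun m => ext e (cjd ψ) (f m)) := by
      refine ⟨h.1, ?_⟩
      show ext e (cjd ψ) (f (e.symm ((LLd d).symm z))) ∈ e.source
      rw [ext_of_mem h.2]
      exact e.map_target h2
    rw [locD, locD, if_pos h', if_pos h, ext_of_mem h.2, e.right_inv h2, cjd,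
      (LLd d).apply_symm_apply]
  · have h' : z ∉ domD e (fun m => ext e (cjd ψ) (f m)) := by
      intro hh
      apply h
      refine ⟨hh.1, ?_⟩
      by_contra hn
      have h3 : ext e (cjd ψ) (f (e.symm ((LLd d).symm z))) ∈ e.source := hh.2
      rw [ext_of_notMem hn] at h3
      exact hn h3
    rw [locD, locD, if_neg h', if_neg h, hψ.supp]
    rintro ⟨⟨⟨_, h4⟩, _⟩, _⟩
    have h5 : (10 : ℝ) ≤ 4 := h4
    norm_num at h5

/-- Proof. Let `g = locD e f1`, `f1 ∈ U'`, `ε` from the hypothesis, `ε' = min ε (1/2)`. `ψ` with `SmallD (max R 1) ε' ψ` is also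
`SmallD R ε` and `SmallD 1 (1/2)` (`SmallD.mono`, T8). `SmallD.exists_inverse` gives a `C^∞` inverse, so `exists_diffK` for `cjd ψ` (support in
the compact set `(LLd d).symm '' K0D d ⊆ e.target`) gives `G : DiffInf (d + 2) M` with `G z = ext e (cjd ψ) z`; `f2 = f1.trans G ∈ U'`, and
`locD e f2 = ψ ∘ locD e f1` (`loc_ext`). -/
theorem pertOpen_loc [T2Space M] [IsManifold (𝓡 (d + 2)) ∞ M] {e : OpenPartialHomeomorph M (Euc (d + 2))} {r : ℝ}
    (he : BigCD e r) (hr : 4 ≤ r) {R : ℕ} {U' : Set (DiffInf (d + 2) M)}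
    (h : ∀ f1 ∈ U', ∃ ε > (0 : ℝ), ∀ ψ, SmallD R ε ψ → ∀ f2 : DiffInf (d + 2) M,
      (∀ z, f2 z = ext e (cjd ψ) (f1 z)) → f2 ∈ U') :
    PertOpenD (max R 1) ((fun f : DiffInf (d + 2) M => locD e f) '' U') := by
  rintro _ ⟨f1, hf1, rfl⟩
  obtain ⟨ε, hε, h1⟩ := h f1 hf1
  refine ⟨min ε (1 / 2), lt_min hε (by norm_num), fun ψ hψ => ?_⟩
  have hψ1 : SmallD 1 (1 / 2) ψ := hψ.mono (le_max_right _ _) (min_le_right _ _)
  have hψR : SmallD R ε ψ := hψ.mono (le_max_left _ _) (min_le_left _ _)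
  obtain ⟨φ, hφ, i1, i2, i3⟩ := hψ1.exists_inverse
  have hK : IsCompact ((LLd d).symm '' K0D d) :=
    (k0D_compact d).image (LLd d).symm.continuous
  have hKe : (LLd d).symm '' K0D d ⊆ e.target := by
    rintro _ ⟨z, hz, rfl⟩
    exact he.big z ((k0D_norm hz).trans hr)
  have hcd : ∀ {θ : En d → En d}, ContDiff ℝ ∞ θ → ContDiff ℝ ∞ (cjd θ) := fun hθ =>
    (LLd d).symm.contDiff.comp (hθ.comp (LLd d).contDiff)
  obtain ⟨G, hG⟩ := exists_diffK he.mem hK hKe (hcd hψ.smooth) (hcd hφ)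
    (fun x => by
      show (LLd d).symm (φ ((LLd d) ((LLd d).symm (ψ ((LLd d) x))))) = x
      rw [(LLd d).apply_symm_apply, i1, (LLd d).symm_apply_apply])
    (fun x => by
      show (LLd d).symm (ψ ((LLd d) ((LLd d).symm (φ ((LLd d) x))))) = x
      rw [(LLd d).apply_symm_apply, i2, (LLd d).symm_apply_apply])
    (fun x hx => by
      have h2 : (LLd d) x ∉ K0D d := fun h3 => hx ⟨(LLd d) x, h3, (LLd d).symm_apply_apply x⟩
      show (LLd d).symm (ψ ((LLd d) x)) = x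
      rw [hψ.supp _ h2, (LLd d).symm_apply_apply])
  have hf2 : ∀ z, (f1.trans G) z = ext e (cjd ψ) (f1 z) := fun z => hG (f1 z)
  refine ⟨f1.trans G, h1 ψ hψR (f1.trans G) hf2, ?_⟩
  show locD e (f1.trans G) = ψ ∘ locD e f1
  rw [← loc_ext he hr hψ1 f1]
  congr 1
  funext z
  exact hf2 z


end Pool.Agent.Lib.H37D
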