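import Pool.Agent.Lib.H37D.D0
import Pool.Agent.Lib.H37N.MK7

/-!
# H37D DK7 (port of H37N MK7): maps close to the model are near
-/

open Set Filter Topology
open scoped ContDiff

namespace Pool.Agent.Lib.H37D

open Pool.Agent.Lib.H37N

variable {d : ℕ}

/-- the model on the strips -/
noncomputable def AffD (d : ℕ) (i : Sy) (z : En d) : En d := (Aff i z.1, mulw (awk d) z.2)

/-- the model on the fold -/
noncomputable def FoldD (d : ℕ) (z : En d) : En d := (Fold z.1, mulw (awk d) z.2)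

theorem dk7_mul (a w : Wd d) : HasFDerivAt (mulw a) (mulL a) w := by
  have h : (mulw a : Wd d → Wd d) = mulL a := by
    funext v
    rw [mulL_apply]
  rw [h]
  exact (mulL a).hasFDerivAt

theorem dk7_aff (i : Sy) (z : En d) : HasFDerivAt (AffD d i) (MdL d i) z :=
  (mk7_aff i z.1).prodMap z (dk7_mul (awk d) z.2)

theorem dk7_fold (z : En d) : HasFDerivAt (FoldD d) (FoldL d z) z := by
  have h := (mk7_fold z.1).prodMap z (dk7_mul (awk d) z.2)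
  have e : FoldL d z = (((cc • ContinuousLinearMap.snd ℝ ℝ ℝ - (2 * dd * (z.1.1 - xc)) •
      ContinuousLinearMap.fst ℝ ℝ ℝ).prod (-ContinuousLinearMap.fst ℝ ℝ ℝ)).prodMap
      (mulL (awk d))) := by
    have e1 : (-(2 * dd * (z.1.1 - xc))) • ContinuousLinearMap.fst ℝ ℝ ℝ + cc • ContinuousLinearMap.snd ℝ ℝ ℝ =
        cc • ContinuousLinearMap.snd ℝ ℝ ℝ - (2 * dd * (z.1.1 - xc)) • ContinuousLinearMap.fst ℝ ℝ ℝ := by
      refine ContinuousLinearMap.ext fun v => ?_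
      show (-(2 * dd * (z.1.1 - xc))) * v.1 + cc * v.2 = cc * v.2 - (2 * dd * (z.1.1 - xc)) * v.1
      ring
    unfold FoldL
    rw [e1]
  rw [e]
  exact h

theorem dk7_awk (k : Fin d) : 0 ≤ awk d k ∧ awk d k ≤ aw - 1 / (10 ^ 12 * ((d : ℝ) + 1)) := by
  have hk0 : (0 : ℝ) ≤ (k : ℝ) := Nat.cast_nonneg _
  have hk1 : (k : ℝ) + 1 ≤ d := by
    have := k.2
    exact_mod_cast this
  have hd : (0 : ℝ) < (d : ℝ) + 1 := by positivity
  unfold awk aw
  constructor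
  · have h1 : ((k : ℝ) + 1) / (10 * ((d : ℝ) + 1)) ≤ 1 := by
      rw [div_le_one (by positivity)]
      linarith
    have : 0 ≤ 1 - ((k : ℝ) + 1) / (10 * ((d : ℝ) + 1)) := by linarith
    positivity
  · have h1 : 1 / (10 * ((d : ℝ) + 1)) ≤ ((k : ℝ) + 1) / (10 * ((d : ℝ) + 1)) := by
      gcongr
      linarith
    have h2 : 1 / (10 ^ 12 * ((d : ℝ) + 1)) ≤ 1 / 10 ^ 7 * (1 / (10 * ((d : ℝ) + 1))) := by
      rw [one_div_mul_one_div]
      apply one_div_le_one_div_of_le (by positivity)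
      nlinarith
    nlinarith

theorem dk7_mulw_le (w : Wd d) :
    ‖mulw (awk d) w‖ ≤ (aw - 1 / (10 ^ 12 * ((d : ℝ) + 1))) * ‖w‖ := by
  have hd : (0 : ℝ) < (d : ℝ) + 1 := by positivity
  have h0 : (0 : ℝ) ≤ aw - 1 / (10 ^ 12 * ((d : ℝ) + 1)) := by
    have h2 : 1 / (10 ^ 12 * ((d : ℝ) + 1)) ≤ 1 / 10 ^ 12 := by
      apply one_div_le_one_div_of_le (by positivity)
      have : (0 : ℝ) ≤ d := Nat.cast_nonneg _
      nlinarith
    unfold aw
    norm_num at h2 ⊢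
    linarith
  rw [pi_norm_le_iff_of_nonneg (mul_nonneg h0 (norm_nonneg _))]
  intro k
  obtain ⟨h1, h2⟩ := dk7_awk k
  show ‖awk d k * w k‖ ≤ _
  rw [norm_mul, Real.norm_eq_abs, abs_of_nonneg h1]
  exact mul_le_mul h2 (norm_le_pi_norm w k) (norm_nonneg _) h0

theorem dk7_ent {v : En d} {e : ℝ} (h : ‖v‖ ≤ e) : |v.1.1| ≤ e ∧ |v.1.2| ≤ e ∧ ‖v.2‖ ≤ e :=
  ⟨((norm_fst_le v.1).trans (norm_fst_le v)).trans h, ((norm_snd_le v.1).trans (norm_fst_le v)).trans h,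
    (norm_snd_le v).trans h⟩

theorem dk7_entry (A B : En d →L[ℝ] En d) {e : ℝ} (he : 0 ≤ e) (h : ‖A - B‖ ≤ e) (v : En d) (hv : ‖v‖ ≤ 1) :
    |(A v).1.1 - (B v).1.1| ≤ e ∧ |(A v).1.2 - (B v).1.2| ≤ e ∧ ‖(A v).2 - (B v).2‖ ≤ e := by
  have h1 : ‖(A - B) v‖ ≤ e := ((A - B).le_opNorm v).trans (by
    calc ‖A - B‖ * ‖v‖ ≤ e * 1 := mul_le_mul h hv (norm_nonneg _) he
      _ = e := mul_one e)
  exact dk7_ent h1

theorem dk7_eX : ‖eX d‖ ≤ 1 := by
  simp [eX, Prod.norm_def]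

theorem dk7_eY : ‖eY d‖ ≤ 1 := by
  simp [eY, Prod.norm_def]

theorem dk7_mulw0 (a : Wd d) : mulw a 0 = 0 := by
  funext k
  simp [mulw]

theorem dk7_MX (i : Sy) : MdL d i (eX d) = ((1 / pw i, 0), 0) := by
  unfold MdL
  rw [dgD_apply]
  simp [eX, dk7_mulw0]

theorem dk7_MY (i : Sy) : MdL d i (eY d) = ((0, qw i), 0) := by
  unfold MdL
  rw [dgD_apply]
  simp [eY, dk7_mulw0]

theorem dk7_M0 (i : Sy) (w : Wd d) : MdL d i (0, w) = (0, mulw (awk d) w) := by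
  unfold MdL
  rw [dgD_apply]
  simp

theorem dk7_FX (z : En d) : FoldL d z (eX d) = ((-(2 * dd * (z.1.1 - xc)), -1), 0) := by
  simp [FoldL, eX, dk7_mulw0]

theorem dk7_FY (z : En d) : FoldL d z (eY d) = ((cc, 0), 0) := by
  simp [FoldL, eY, dk7_mulw0]

theorem dk7_F0 (z : En d) (w : Wd d) : FoldL d z (0, w) = (0, mulw (awk d) w) := by
  simp [FoldL]

theorem dk7_VD (i : Sy) : VVd d i ⊆ Dd d := by
  intro z hz
  cases i with
  | P => exact Or.inl (Or.inl hz)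
  | Q => exact Or.inl (Or.inr hz)

theorem dk7_FD : FFd d ⊆ Dd d := fun z hz => Or.inr hz

/-- a map which is `C²`-close to the model on the domain `Dd d` is `NearS` -/
theorem nearS_of_close {g Fs : En d → En d} (hV : ∀ i, ∀ᶠ z in 𝓝ˢ (VVd d i), Fs z = AffD d i z)
    (hF : ∀ᶠ z in 𝓝ˢ (FFd d), Fs z = FoldD d z) {O : Set (En d)} (hO : IsOpen O)
    (hsub : Dd d ⊆ O) (hg : ContDiffOn ℝ ∞ g O) (hinj : InjOn g O)
    (hbij : ∀ z ∈ O, Function.Bijective (fderiv ℝ g z))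
    (h0 : ∀ z ∈ Dd d, ‖g z - Fs z‖ ≤ en d)
    (h1 : ∀ z ∈ Dd d, ‖fderiv ℝ g z - fderiv ℝ Fs z‖ ≤ en d)
    (h2 : ∀ i, ∀ z ∈ VVd d i, ‖iteratedFDeriv ℝ 2 g z - iteratedFDeriv ℝ 2 Fs z‖ ≤ en d) : NearS g := by
  have hVz : ∀ i, ∀ z ∈ VVd d i, ∀ᶠ y in 𝓝 z, Fs y = AffD d i y := fun i z hz =>
    eventually_nhdsSet_iff_forall.1 (hV i) z hz
  have hFz : ∀ z ∈ FFd d, ∀ᶠ y in 𝓝 z, Fs y = FoldD d y := fun z hz =>
    eventually_nhdsSet_iff_forall.1 hF z hz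
  have hVd : ∀ i, ∀ z ∈ VVd d i, fderiv ℝ Fs z = MdL d i := fun i z hz => by
    have h : Fs =ᶠ[𝓝 z] AffD d i := hVz i z hz
    rw [h.fderiv_eq, (dk7_aff i z).fderiv]
  have hFd : ∀ z ∈ FFd d, fderiv ℝ Fs z = FoldL d z := fun z hz => by
    have h : Fs =ᶠ[𝓝 z] FoldD d := hFz z hz
    rw [h.fderiv_eq, (dk7_fold z).fderiv]
  have hen : en d ≤ e0 := en_le d
  have hen0 : 0 ≤ en d := (en_pos d).le
  have hen1 : en d ≤ 1 / (10 ^ 12 * ((d : ℝ) + 1)) := min_le_right _ _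
  have haw : (0 : ℝ) ≤ aw := by unfold aw; norm_num
  have hval : ∀ z ∈ Dd d, (Fs z).2 = mulw (awk d) z.2 := by
    rintro z ((hz | hz) | hz)
    · rw [(hVz _ z hz).self_of_nhds]; rfl
    · rw [(hVz _ z hz).self_of_nhds]; rfl
    · rw [(hFz z hz).self_of_nhds]; rfl
  have hder2 : ∀ z ∈ Dd d, (fderiv ℝ Fs z (eX d)).2 = 0 ∧ (fderiv ℝ Fs z (eY d)).2 = 0 ∧
      ∀ w, fderiv ℝ Fs z (0, w) = (0, mulw (awk d) w) := by
    rintro z ((hz | hz) | hz)
    · rw [hVd _ z hz, dk7_MX, dk7_MY]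
      exact ⟨rfl, rfl, dk7_M0 _⟩
    · rw [hVd _ z hz, dk7_MX, dk7_MY]
      exact ⟨rfl, rfl, dk7_M0 _⟩
    · rw [hFd z hz, dk7_FX, dk7_FY]
      exact ⟨rfl, rfl, dk7_F0 z⟩
  refine
    { smooth := ⟨O, hO, hsub, hg, hinj, hbij⟩
      close0 := ?_
      fold0 := ?_
      wval := ?_
      close1 := ?_
      lip := ?_
      fold1 := ?_
      foldX := ?_
      wx := ?_
      ww := ?_
      closeS := fun i z hz => by
        rw [← hVd i z hz]
        exact h1 z (dk7_VD i hz)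
      foldS := fun z hz => by
        rw [← hFd z hz]
        exact h1 z (dk7_FD hz)
      wvalS := fun z hz => by
        have h3 := (dk7_ent (h0 z hz)).2.2
        rw [← hval z hz]
        exact h3 }
  · intro i z hz
    have h3 := dk7_ent (h0 z (dk7_VD i hz))
    rw [(hVz i z hz).self_of_nhds] at h3
    exact ⟨h3.1.trans hen, h3.2.1.trans hen⟩
  · intro z hz
    have h3 := dk7_ent (h0 z (dk7_FD hz))
    rw [(hFz z hz).self_of_nhds] at h3
    exact ⟨h3.1.trans hen, h3.2.1.trans hen⟩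
  · intro z hz
    have h3 : ‖(g z).2 - (Fs z).2‖ ≤ en d := (dk7_ent (h0 z hz)).2.2
    rw [hval z hz] at h3
    have h4 := dk7_mulw_le (d := d) z.2
    have h5 : (aw - 1 / (10 ^ 12 * ((d : ℝ) + 1))) * ‖z.2‖ ≤ aw * ‖z.2‖ := by
      gcongr
      have : (0 : ℝ) ≤ 1 / (10 ^ 12 * ((d : ℝ) + 1)) := by positivity
      linarith
    have h6 : ‖(g z).2‖ ≤ ‖(g z).2 - mulw (awk d) z.2‖ + ‖mulw (awk d) z.2‖ := norm_le_norm_sub_add _ _
    linarith
  · intro i z hz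
    have ha := dk7_entry _ _ hen0 (h1 z (dk7_VD i hz)) (eX d) dk7_eX
    have hb := dk7_entry _ _ hen0 (h1 z (dk7_VD i hz)) (eY d) dk7_eY
    rw [hVd i z hz, dk7_MX] at ha
    rw [hVd i z hz, dk7_MY] at hb
    simp only [sub_zero] at ha hb
    exact ⟨ha.1.trans hen, ha.2.1.trans hen, hb.1.trans hen, hb.2.1.trans hen⟩
  · intro i z hz z' hz'
    have hconv : Convex ℝ (VVd d i) :=
      ((convex_Icc _ _).prod (convex_Icc _ _)).prod (convex_closedBall _ _)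
    have hz2 : ∀ y ∈ VVd d i, ‖fderiv ℝ (fderiv ℝ g) y‖ ≤ e0 := by
      intro y hy
      have h3 := h2 i y hy
      have h4 : iteratedFDeriv ℝ 2 Fs y = 0 := by
        rw [← norm_eq_zero, ← norm_iteratedFDeriv_fderiv, norm_iteratedFDeriv_one, norm_eq_zero]
        have h5 : fderiv ℝ Fs =ᶠ[𝓝 y] fun _ => MdL d i := by
          filter_upwards [(hVz i y hy).eventually_nhds] with x hx
          have h6 : Fs =ᶠ[𝓝 x] AffD d i := hx
          rw [h6.fderiv_eq, (dk7_aff i x).fderiv]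
        rw [h5.fderiv_eq]
        simp
      rw [h4, sub_zero, ← norm_iteratedFDeriv_fderiv, norm_iteratedFDeriv_one] at h3
      exact h3.trans hen
    have hdiff : ∀ y ∈ VVd d i, DifferentiableAt ℝ (fderiv ℝ g) y := by
      intro y hy
      have h3 : ContDiffAt ℝ 1 (fderiv ℝ g) y :=
        (hg.contDiffAt (hO.mem_nhds (hsub (dk7_VD i hy)))).fderiv_right (by norm_cast)
      exact h3.differentiableAt (by simp)
    exact hconv.norm_image_sub_le_of_norm_fderiv_le hdiff hz2 hz' hz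
  · intro z hz
    have hb := dk7_entry _ _ hen0 (h1 z (dk7_FD hz)) (eY d) dk7_eY
    rw [hFd z hz, dk7_FY] at hb
    simp only [sub_zero] at hb
    exact ⟨hb.1.trans hen, hb.2.1.trans hen⟩
  · intro z hz
    have ha := dk7_entry _ _ hen0 (h1 z (dk7_FD hz)) (eX d) dk7_eX
    rw [hFd z hz, dk7_FX] at ha
    simp only [sub_neg_eq_add] at ha
    exact ⟨ha.1.trans hen, ha.2.1.trans hen⟩
  · intro z hz
    have ha := dk7_entry _ _ hen0 (h1 z hz) (eX d) dk7_eX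
    have hb := dk7_entry _ _ hen0 (h1 z hz) (eY d) dk7_eY
    rw [(hder2 z hz).1, sub_zero] at ha
    rw [(hder2 z hz).2.1, sub_zero] at hb
    exact ⟨ha.2.2.trans hen, hb.2.2.trans hen⟩
  · intro z hz w
    have h3 : ‖(fderiv ℝ g z - fderiv ℝ Fs z) (0, w)‖ ≤ en d * ‖w‖ := by
      have h4 := (fderiv ℝ g z - fderiv ℝ Fs z).le_opNorm (0, w)
      have h5 : ‖((0 : Pt), w)‖ = ‖w‖ := by
        rw [Prod.norm_def]
        simp
      rw [h5] at h4
      exact h4.trans (by gcongr; exact h1 z hz)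
    have h6 : (fderiv ℝ g z - fderiv ℝ Fs z) (0, w) =
        ((fderiv ℝ g z (0, w)).1, (fderiv ℝ g z (0, w)).2 - mulw (awk d) w) := by
      rw [sub_apply, (hder2 z hz).2.2 w]
      refine Prod.ext ?_ rfl
      simp
    rw [h6] at h3
    have h7 : ‖(fderiv ℝ g z (0, w)).1‖ ≤ en d * ‖w‖ :=
      (norm_fst_le (((fderiv ℝ g z (0, w)).1, (fderiv ℝ g z (0, w)).2 - mulw (awk d) w) : En d)).trans h3
    have h8 : ‖(fderiv ℝ g z (0, w)).2 - mulw (awk d) w‖ ≤ en d * ‖w‖ :=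
      (norm_snd_le (((fderiv ℝ g z (0, w)).1, (fderiv ℝ g z (0, w)).2 - mulw (awk d) w) : En d)).trans h3
    refine ⟨h7.trans (by gcongr), ?_⟩
    have h9 := dk7_mulw_le (d := d) w
    have h10 : ‖(fderiv ℝ g z (0, w)).2‖ ≤ ‖(fderiv ℝ g z (0, w)).2 - mulw (awk d) w‖ +
      ‖mulw (awk d) w‖ := norm_le_norm_sub_add _ _
    have h11 : en d * ‖w‖ ≤ 1 / (10 ^ 12 * ((d : ℝ) + 1)) * ‖w‖ := by gcongr
    nlinarith

end Pool.Agent.Lib.H37D
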