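import Pool.Agent.Lib.H37D.DK1
import Pool.Agent.Lib.H37D.DK7
import Pool.Agent.Lib.H37N.MK8

/-!
# H37D DK8 (port of H37N MK8): the open set of diffeomorphisms with near local representations
-/

open Set Filter Topology
open scoped ContDiff Manifold
open Pool.Agent.Lib.Helper37.ConjBorel Pool.Agent.Lib.H37C

namespace Pool.Agent.Lib.H37D

open Pool.Agent.Lib.H37N

variable {d : ℕ}

theorem dk8_iter (F : Euc (d + 2) → Euc (d + 2)) (z : En d) (k : ℕ) (m : Fin k → En d) :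
    iteratedFDeriv ℝ k (fun z => LLd d (F ((LLd d).symm z))) z m =
      LLd d (iteratedFDeriv ℝ k F ((LLd d).symm z) (fun i => (LLd d).symm (m i))) := by
  have h1 := ContinuousLinearEquiv.iteratedFDeriv_comp_left (𝕜 := ℝ) (f := F ∘ ((LLd d).symm : En d → Euc (d + 2)))
    (x := z) (LLd d) (i := k)
  have h2 := ContinuousLinearEquiv.iteratedFDerivWithin_comp_right (𝕜 := ℝ) (LLd d).symm F
    (s := univ) uniqueDiffOn_univ (x := z) (mem_univ _) k
  rw [preimage_univ, iteratedFDerivWithin_univ, iteratedFDerivWithin_univ] at h2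
  have h3 : (fun z => LLd d (F ((LLd d).symm z))) = ((LLd d) : Euc (d + 2) → En d) ∘ (F ∘ ((LLd d).symm : En d → Euc (d + 2))) := rfl
  rw [h3, h1, h2]
  rfl

variable {M : Type*} [TopologicalSpace M] [ChartedSpace (Euc (d + 2)) M]

/-- Proof: `domD e f` is open: `isOpen_expr` (ConjBorel/Proof) and the homeomorphism `LLd d`. -/
theorem domD_open {e : OpenPartialHomeomorph M (Euc (d + 2))} {f : M → M} (hf : Continuous f) :
    IsOpen (domD e f) := by
  exact (isOpen_expr hf e e).preimage (LLd d).symm.continuous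

/-- Proof. On `domD e f`, `locD e f = LLd d ∘ (e ∘ f ∘ e.symm) ∘ (LLd d).symm`; `contDiffOn_expr`. -/
theorem locD_smooth [IsManifold (𝓡 (d + 2)) ∞ M] {e : OpenPartialHomeomorph M (Euc (d + 2))}
    (he : e ∈ IsManifold.maximalAtlas (𝓡 (d + 2)) ∞ M) (f : DiffInf (d + 2) M) :
    ContDiffOn ℝ ∞ (locD e f) (domD e f) := by
  have h1 := contDiffOn_expr f.contMDiff he he
  have h2 : ContDiffOn ℝ ∞ (fun z : En d => LLd d ((e ∘ f ∘ e.symm) ((LLd d).symm z))) (domD e f) :=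
    (LLd d).contDiff.comp_contDiffOn (h1.comp (LLd d).symm.contDiff.contDiffOn fun z hz => hz)
  refine h2.congr fun z hz => ?_
  unfold locD
  rw [if_pos hz]
  rfl

/-- Proof. `e`, `e.symm`, `f`, `LLd d` are injective on the respective sets. -/
theorem locD_injOn {e : OpenPartialHomeomorph M (Euc (d + 2))} (f : DiffInf (d + 2) M) :
    InjOn (locD e f) (domD e f) := by
  intro z hz z' hz' h
  unfold locD at h
  rw [if_pos hz, if_pos hz'] at h
  have h1 := e.injOn hz.2 hz'.2 ((LLd d).injective h)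
  have h2 := e.symm.injOn hz.1 hz'.1 (f.injective h1)
  exact (LLd d).symm.injective h2

/-- Norms of derivatives of the local representations. Near `z ∈ domD e f ∩ domD e f'` the difference is
`LLd d ∘ (e ∘ f ∘ e.symm - e ∘ f' ∘ e.symm) ∘ (LLd d).symm`: `ContinuousLinearMap.iteratedFDeriv_comp_left`,
`ContinuousLinearMap.iteratedFDeriv_comp_right` (or the `ContinuousLinearEquiv` versions), norms of compositions with linear maps;
`iteratedFDeriv_sub` for functions smooth near the point. `A = ‖LLd d‖ * (‖(LLd d).symm‖ + 1)^2`. -/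
theorem locD_diff_le [IsManifold (𝓡 (d + 2)) ∞ M] {e : OpenPartialHomeomorph M (Euc (d + 2))}
    (he : e ∈ IsManifold.maximalAtlas (𝓡 (d + 2)) ∞ M) (f f' : DiffInf (d + 2) M) {z : En d} (hz : z ∈ domD e f)
    (hz' : z ∈ domD e f') {k R0 : ℕ} (hk : k ≤ R0) {η : ℝ}
    (h : ‖iteratedFDeriv ℝ k (e ∘ f ∘ e.symm) ((LLd d).symm z) -
      iteratedFDeriv ℝ k (e ∘ f' ∘ e.symm) ((LLd d).symm z)‖ ≤ η) :
    ‖iteratedFDeriv ℝ k (locD e f) z - iteratedFDeriv ℝ k (locD e f') z‖ ≤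
      ‖((LLd d) : Euc (d + 2) →L[ℝ] En d)‖ * (‖((LLd d).symm : En d →L[ℝ] Euc (d + 2))‖ + 1) ^ R0 * η := by
  have hη : 0 ≤ η := (norm_nonneg _).trans h
  have hev : ∀ (f : DiffInf (d + 2) M), z ∈ domD e f →
      (locD e f) =ᶠ[𝓝 z] fun z => LLd d ((e ∘ f ∘ e.symm) ((LLd d).symm z)) := by
    intro f hz
    filter_upwards [(domD_open f.continuous).mem_nhds hz] with y hy
    unfold locD
    rw [if_pos hy]
    rfl
  have e1 := ((hev f hz).iteratedFDeriv ℝ k).eq_of_nhds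
  have e2 := ((hev f' hz').iteratedFDeriv ℝ k).eq_of_nhds
  rw [e1, e2]
  refine ContinuousMultilinearMap.opNorm_le_bound (by positivity) fun m => ?_
  rw [sub_apply, dk8_iter, dk8_iter, ← map_sub,
    ← sub_apply]
  have h3 : ∀ x : Euc (d + 2), ‖LLd d x‖ ≤ ‖((LLd d) : Euc (d + 2) →L[ℝ] En d)‖ * ‖x‖ := fun x =>
    ((LLd d) : Euc (d + 2) →L[ℝ] En d).le_opNorm x
  have h4 : ∀ x : En d, ‖(LLd d).symm x‖ ≤ ‖((LLd d).symm : En d →L[ℝ] Euc (d + 2))‖ * ‖x‖ := fun x =>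
    ((LLd d).symm : En d →L[ℝ] Euc (d + 2)).le_opNorm x
  have h5 : ∏ i, ‖(LLd d).symm (m i)‖ ≤ (‖((LLd d).symm : En d →L[ℝ] Euc (d + 2))‖ + 1) ^ R0 * ∏ i, ‖m i‖ := by
    have h6 : ∏ i, ‖(LLd d).symm (m i)‖ ≤ ∏ i, ((‖((LLd d).symm : En d →L[ℝ] Euc (d + 2))‖ + 1) * ‖m i‖) := by
      refine Finset.prod_le_prod (fun i _ => norm_nonneg _) fun i _ => ?_
      refine (h4 (m i)).trans ?_
      have := norm_nonneg (m i)
      nlinarith
    rw [Finset.prod_mul_distrib, Finset.prod_const, Finset.card_univ, Fintype.card_fin] at h6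
    refine h6.trans ?_
    have h7 : (‖((LLd d).symm : En d →L[ℝ] Euc (d + 2))‖ + 1) ^ k ≤ (‖((LLd d).symm : En d →L[ℝ] Euc (d + 2))‖ + 1) ^ R0 :=
      pow_le_pow_right₀ (by linarith [norm_nonneg ((LLd d).symm : En d →L[ℝ] Euc (d + 2))]) hk
    exact mul_le_mul_of_nonneg_right h7 (Finset.prod_nonneg fun i _ => norm_nonneg _)
  refine (h3 _).trans ?_
  have h8 := ContinuousMultilinearMap.le_opNorm (iteratedFDeriv ℝ k (e ∘ f ∘ e.symm) ((LLd d).symm z) -
      iteratedFDeriv ℝ k (e ∘ f' ∘ e.symm) ((LLd d).symm z)) (fun i => (LLd d).symm (m i))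
  calc _ ≤ ‖((LLd d) : Euc (d + 2) →L[ℝ] En d)‖ * (η * ((‖((LLd d).symm : En d →L[ℝ] Euc (d + 2))‖ + 1) ^ R0 * ∏ i, ‖m i‖)) := by
        refine mul_le_mul_of_nonneg_left (h8.trans ?_) (norm_nonneg _)
        refine mul_le_mul h h5 (Finset.prod_nonneg fun i _ => norm_nonneg _) hη
    _ = _ := by ring


theorem locD_symm {e : OpenPartialHomeomorph M (Euc (d + 2))} (f f' : DiffInf (d + 2) M)
    (hff : ∀ x, f' (f x) = x) {z : En d} (hz : z ∈ domD e f) :
    locD e f z ∈ domD e f' ∧ locD e f' (locD e f z) = z := by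
  have h1 : locD e f z = LLd d (e (f (e.symm ((LLd d).symm z)))) := if_pos hz
  have h2 : e.symm ((LLd d).symm (locD e f z)) = f (e.symm ((LLd d).symm z)) := by
    rw [h1, ContinuousLinearEquiv.symm_apply_apply, e.left_inv hz.2]
  have h3 : locD e f z ∈ domD e f' := by
    refine ⟨?_, ?_⟩
    · rw [h1, ContinuousLinearEquiv.symm_apply_apply]
      exact e.map_source hz.2
    · rw [h2, hff]
      exact e.map_target hz.1
  refine ⟨h3, ?_⟩
  have h4 : locD e f' (locD e f z) = LLd d (e (f' (e.symm ((LLd d).symm (locD e f z))))) := if_pos h3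
  rw [h4, h2, hff, e.right_inv hz.1, ContinuousLinearEquiv.apply_symm_apply]

theorem locD_bij [IsManifold (𝓡 (d + 2)) ∞ M] {e : OpenPartialHomeomorph M (Euc (d + 2))}
    (he : e ∈ IsManifold.maximalAtlas (𝓡 (d + 2)) ∞ M) (f : DiffInf (d + 2) M) {z : En d}
    (hz : z ∈ domD e f) : Function.Bijective (fderiv ℝ (locD e f) z) := by
  have hcd : ∀ (f : DiffInf (d + 2) M) (z : En d), z ∈ domD e f → DifferentiableAt ℝ (locD e f) z :=
    fun f z hz => ((locD_smooth he f).contDiffAt ((domD_open f.continuous).mem_nhds hz)).differentiableAt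
      (by simp)
  obtain ⟨hy, hyz⟩ := locD_symm f f.symm (fun x => f.symm_apply_apply x) hz
  have key : ∀ (f f' : DiffInf (d + 2) M), (∀ x, f' (f x) = x) → ∀ z ∈ domD e f,
      (fderiv ℝ (locD e f') (locD e f z)).comp (fderiv ℝ (locD e f) z) =
        ContinuousLinearMap.id ℝ (En d) := by
    intro f f' hff z hz
    obtain ⟨h1, -⟩ := locD_symm f f' hff hz
    rw [← fderiv_comp z (hcd f' _ h1) (hcd f z hz)]
    have h2 : locD e f' ∘ locD e f =ᶠ[𝓝 z] id := by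
      filter_upwards [(domD_open f.continuous).mem_nhds hz] with y hy
      exact (locD_symm f f' hff hy).2
    rw [h2.fderiv_eq, fderiv_id]
  have h1 := key f f.symm (fun x => f.symm_apply_apply x) z hz
  have h2 := key f.symm f (fun x => f.apply_symm_apply x) _ hy
  rw [hyz] at h2
  refine Function.bijective_iff_has_inverse.2 ⟨fderiv ℝ (locD e f.symm) (locD e f z), fun v => ?_, fun v => ?_⟩
  · exact DFunLike.congr_fun h1 v
  · exact DFunLike.congr_fun h2 v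

/-- closeness of the local representations to a compactly supported diffeomorphism on a compact set -/
theorem exists_V_closeD [IsManifold (𝓡 (d + 2)) ∞ M] {e : OpenPartialHomeomorph M (Euc (d + 2))} {r : ℝ}
    (he : BigCD e r) {Fs : En d → En d} (hinj : Function.Injective Fs)
    (hsupp : ∀ z, r ≤ ‖z‖ → Fs z = z) {fs : DiffInf (d + 2) M} (hfs : ∀ m, fs m = ext e (cjd Fs) m)
    {K : Set (En d)} (hK : IsCompact K) (hKr : ∀ z ∈ K, ‖z‖ < r) (R0 : ℕ) {ε : ℝ} (hε : 0 < ε) :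
    ∃ V : Set (DiffInf (d + 2) M), IsOpen V ∧ fs ∈ V ∧
      ∀ f ∈ V, K ⊆ domD e f ∧ ∀ k ≤ R0, ∀ z ∈ K,
        ‖iteratedFDeriv ℝ k (locD e f) z - iteratedFDeriv ℝ k Fs z‖ ≤ ε := by
  have hle : ∀ z, ‖z‖ ≤ r → ‖Fs z‖ ≤ r := by
    intro z hz
    by_contra hcon
    have h1 := hinj (hsupp (Fs z) (not_le.1 hcon).le)
    rw [h1] at hcon
    exact hcon hz
  have hdom : ∀ z, ‖z‖ ≤ r → z ∈ domD e fs ∧ locD e fs z = Fs z := by
    intro z hz
    have h1 : (LLd d).symm z ∈ e.target := he.big z hz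
    have h2 : (LLd d).symm (Fs z) ∈ e.target := he.big _ (hle z hz)
    have h3 : fs (e.symm ((LLd d).symm z)) = e.symm ((LLd d).symm (Fs z)) := by
      rw [hfs, ext_of_mem (e.map_target h1), e.right_inv h1]
      unfold cjd
      rw [ContinuousLinearEquiv.apply_symm_apply]
    have h4 : z ∈ domD e fs := ⟨h1, by rw [h3]; exact e.map_target h2⟩
    refine ⟨h4, ?_⟩
    unfold locD
    rw [if_pos h4, h3, e.right_inv h2, ContinuousLinearEquiv.apply_symm_apply]
  have hevF : ∀ z ∈ K, locD e fs =ᶠ[𝓝 z] Fs := by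
    intro z hz
    have h1 : z ∈ Metric.ball (0 : En d) r := by
      rw [mem_ball_zero_iff]
      exact hKr z hz
    filter_upwards [Metric.isOpen_ball.mem_nhds h1] with y hy
    rw [mem_ball_zero_iff] at hy
    exact (hdom y hy.le).2
  set A : ℝ := ‖((LLd d) : Euc (d + 2) →L[ℝ] En d)‖ *
    (‖((LLd d).symm : En d →L[ℝ] Euc (d + 2))‖ + 1) ^ R0 with hA
  have hA0 : 0 ≤ A := by positivity
  set ε' : ℝ := ε / (A + 1) with hε'
  have hε0 : 0 < ε' := by positivity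
  have hAε : A * ε' ≤ ε := by
    rw [hε', mul_div_assoc', div_le_iff₀ (by positivity)]
    nlinarith
  set C : Set (Euc (d + 2)) := (LLd d).symm '' K with hC
  have hCc : IsCompact C := hK.image (LLd d).symm.continuous
  have hCt : C ⊆ e.target := by
    rintro _ ⟨z, hz, rfl⟩
    exact he.big z (hKr z hz).le
  have hCs : ∀ x ∈ C, fs (e.symm x) ∈ e.source := by
    rintro _ ⟨z, hz, rfl⟩
    exact (hdom z (hKr z hz).le).1.2
  have hopen : ∀ k : ℕ, IsOpen (basicSet fs e e C k ε') := fun k =>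
    TopologicalSpace.isOpen_generateFrom_of_mem
      ⟨fs, e, e, C, k, ε', he.mem, he.mem, hCc, hCt, hCs, hε0, rfl⟩
  have hmem : ∀ k : ℕ, fs ∈ basicSet fs e e C k ε' := fun k => mem_basicSet_self hε0 hCs
  refine ⟨⋂ k ∈ Finset.range (R0 + 1), basicSet fs e e C k ε',
    isOpen_biInter_finset fun k _ => hopen k, mem_iInter₂.2 fun k _ => hmem k, ?_⟩
  intro f hf
  rw [mem_iInter₂] at hf
  have hsub : K ⊆ domD e f := by
    intro z hz
    exact ⟨hCt ⟨z, hz, rfl⟩, (hf 0 (by simp)).1 _ ⟨z, hz, rfl⟩⟩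
  refine ⟨hsub, fun k hk z hz => ?_⟩
  have h1 := ((hf k (Finset.mem_range.2 (Nat.lt_succ_of_le hk))).2 _ ⟨z, hz, rfl⟩).le
  have h2 := locD_diff_le he.mem f fs (hsub hz) (hdom z (hKr z hz).le).1 hk h1
  rw [((hevF z hz).iteratedFDeriv ℝ k).eq_of_nhds] at h2
  exact h2.trans hAε

theorem dk8_S {z : En d} (hz : z ∈ Dd d) : ‖z‖ ≤ 2 := by
  have h1 : ‖z.1‖ ≤ 2 ∧ ‖z.2‖ ≤ 1 := by
    rcases hz with (hz | hz) | hz
    · exact ⟨mk8_S (Or.inl (Or.inl hz.1)), mem_closedBall_zero_iff.1 hz.2⟩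
    · exact ⟨mk8_S (Or.inl (Or.inr hz.1)), mem_closedBall_zero_iff.1 hz.2⟩
    · exact ⟨mk8_S (Or.inr hz.1), mem_closedBall_zero_iff.1 hz.2⟩
  rw [Prod.norm_def]
  exact max_le h1.1 (h1.2.trans (by norm_num))

theorem dk8_compact : IsCompact (Dd d) := by
  have hB : IsCompact (BW d) := isCompact_closedBall _ _
  exact (((isCompact_Icc.prod isCompact_Icc).prod hB).union
    ((isCompact_Icc.prod isCompact_Icc).prod hB)).union ((isCompact_Icc.prod isCompact_Icc).prod hB)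

theorem dk8_fderiv {f g : En d → En d} {z : En d} {ε : ℝ} (hε : 0 ≤ ε)
    (h : ‖iteratedFDeriv ℝ 1 f z - iteratedFDeriv ℝ 1 g z‖ ≤ ε) : ‖fderiv ℝ f z - fderiv ℝ g z‖ ≤ ε := by
  refine ContinuousLinearMap.opNorm_le_bound _ hε fun v => ?_
  have h2 := ContinuousMultilinearMap.le_opNorm (iteratedFDeriv ℝ 1 f z - iteratedFDeriv ℝ 1 g z)
    (fun _ => v)
  rw [sub_apply, iteratedFDeriv_one_apply, iteratedFDeriv_one_apply] at h2
  simp only [Finset.univ_unique, Finset.prod_singleton] at h2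
  rw [sub_apply]
  exact h2.trans (mul_le_mul_of_nonneg_right h (norm_nonneg _))

theorem dk8_zero {f g : En d → En d} {z : En d} {ε : ℝ}
    (h : ‖iteratedFDeriv ℝ 0 f z - iteratedFDeriv ℝ 0 g z‖ ≤ ε) : ‖f z - g z‖ ≤ ε := by
  have h2 := ContinuousMultilinearMap.le_opNorm (iteratedFDeriv ℝ 0 f z - iteratedFDeriv ℝ 0 g z)
    (fun i => Fin.elim0 i)
  rw [sub_apply, iteratedFDeriv_zero_apply, iteratedFDeriv_zero_apply] at h2
  simp only [Finset.univ_eq_empty, Finset.prod_empty, mul_one] at h2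
  exact h2.trans h

/-- a `C²`-close local representation is `NearS` -/
theorem nearS_loc [IsManifold (𝓡 (d + 2)) ∞ M] {e : OpenPartialHomeomorph M (Euc (d + 2))} {r : ℝ}
    (he : BigCD e r) {Fs : En d → En d} (hV : ∀ i, ∀ᶠ z in 𝓝ˢ (VVd d i), Fs z = AffD d i z)
    (hF : ∀ᶠ z in 𝓝ˢ (FFd d), Fs z = FoldD d z) {f : DiffInf (d + 2) M} (hsub : Dd d ⊆ domD e f)
    (h : ∀ k ≤ 2, ∀ z ∈ Dd d, ‖iteratedFDeriv ℝ k (locD e f) z - iteratedFDeriv ℝ k Fs z‖ ≤ en d) :
    NearS (locD e f) := by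
  refine nearS_of_close hV hF (O := domD e f) (domD_open f.continuous) hsub (locD_smooth he.mem f)
    (locD_injOn f) (fun z hz => locD_bij he.mem f hz) ?_ ?_ ?_
  · intro z hz
    exact dk8_zero (h 0 (by norm_num) z hz)
  · intro z hz
    exact dk8_fderiv (en_pos d).le (h 1 (by norm_num) z hz)
  · intro i z hz
    exact h 2 le_rfl z (dk7_VD i hz)

/-- Port of `exists_V` (MK8), with a further compact set `K` on which the closeness (any order `R0`, any `ε`) holds for all `f ∈ V`. -/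
theorem exists_VD [IsManifold (𝓡 (d + 2)) ∞ M] {e : OpenPartialHomeomorph M (Euc (d + 2))} {r : ℝ}
    (he : BigCD e r) (hr : 4 ≤ r) {Fs : En d → En d} (hinj : Function.Injective Fs)
    (hsupp : ∀ z, r ≤ ‖z‖ → Fs z = z) (hV : ∀ i, ∀ᶠ z in 𝓝ˢ (VVd d i), Fs z = AffD d i z)
    (hF : ∀ᶠ z in 𝓝ˢ (FFd d), Fs z = FoldD d z)
    {fs : DiffInf (d + 2) M} (hfs : ∀ m, fs m = ext e (cjd Fs) m)
    {K : Set (En d)} (hK : IsCompact K) (hKr : ∀ z ∈ K, ‖z‖ < r) (R0 : ℕ) {ε : ℝ} (hε : 0 < ε) :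
    ∃ V : Set (DiffInf (d + 2) M), IsOpen V ∧ fs ∈ V ∧
      ∀ f ∈ V, NearS (locD e f) ∧ Dd d ∪ K ⊆ domD e f ∧ ∀ k ≤ R0, ∀ z ∈ K,
        ‖iteratedFDeriv ℝ k (locD e f) z - iteratedFDeriv ℝ k Fs z‖ ≤ ε := by
  obtain ⟨V1, ho1, hm1, h1⟩ := exists_V_closeD he hinj hsupp hfs dk8_compact
    (fun z hz => lt_of_le_of_lt (dk8_S hz) (by linarith)) 2 (en_pos d)
  obtain ⟨V2, ho2, hm2, h2⟩ := exists_V_closeD he hinj hsupp hfs hK hKr R0 hε
  refine ⟨V1 ∩ V2, ho1.inter ho2, ⟨hm1, hm2⟩, fun f hf => ⟨?_, union_subset (h1 f hf.1).1 (h2 f hf.2).1,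
    (h2 f hf.2).2⟩⟩
  exact nearS_loc he hV hF (h1 f hf.1).1 (h1 f hf.1).2

end Pool.Agent.Lib.H37D
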