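import Pool.Agent.Lib.H37D.DK6
import Pool.Agent.Lib.H37D.DK8
import Pool.Agent.Lib.H37D.NDefs

/-!
# H37D DK9: density of centre spots (in normal form) in an open set of diffeomorphisms, from the local theorem
-/

open Set Filter Topology
open scoped ContDiff Manifold
open Pool.Agent.Lib.Helper37.ConjBorel Pool.Agent.Lib.H37C

namespace Pool.Agent.Lib.H37D

open Pool.Agent.Lib.H37N

variable {d : ℕ}

/-- Proof. Let `f ∈ S ∩ V`. `stable_nhd`: `R`, `U'` with `f ∈ U' ⊆ S ∩ V`; `pertOpen_loc`: the set `{locD e f1 | f1 ∈ U'}` is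
`PertOpenD (max R 1)`, nonempty, all its elements are `NearS`. The local theorem `hL` gives `f1 ∈ U'` with `LocalSpotD (locD e f1)`. -/
theorem dense_localSpot {M : Type*} [TopologicalSpace M] [ChartedSpace (Euc (d + 2)) M] [T2Space M]
    [IsManifold (𝓡 (d + 2)) ∞ M]
    (hL : ∀ (R : ℕ) (U : Set (En d → En d)), PertOpenD R U → (∀ g ∈ U, NearS g) → U.Nonempty →
      ∃ g ∈ U, LocalSpotD g)
    {e : OpenPartialHomeomorph M (Euc (d + 2))} {r : ℝ} (he : BigCD e r) (hr : 4 ≤ r)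
    {V : Set (DiffInf (d + 2) M)} (hV : IsOpen V) (hN : ∀ f ∈ V, NearS (locD e f))
    {S : Set (DiffInf (d + 2) M)} (hS : IsOpen S) (hne : (S ∩ V).Nonempty) :
    ∃ f ∈ S ∩ V, LocalSpotD (locD e f) := by
  obtain ⟨f, hf⟩ := hne
  obtain ⟨R, U', hU'o, hfU', hU'U, hst⟩ := stable_nhd he hr (hS.inter hV) hf
  have hP := pertOpen_loc he hr hst
  obtain ⟨g, ⟨f1, hf1, rfl⟩, hspot⟩ := hL (max R 1) _ hP
    (by
      rintro _ ⟨f1, hf1, rfl⟩
      exact hN f1 (hU'U hf1).2)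
    ⟨_, f, hfU', rfl⟩
  exact ⟨f1, hU'U hf1, hspot⟩

/-- a compactly supported diffeomorphism of `En d` as a diffeomorphism of the manifold, in a big chart -/
theorem exists_model_diffeo (M : Type*) [TopologicalSpace M] [ChartedSpace (Euc (d + 2)) M] [T2Space M]
    [IsManifold (𝓡 (d + 2)) ∞ M] [Nonempty M] {Fs Fi : En d → En d} (hs : ContDiff ℝ ∞ Fs)
    (hi : ContDiff ℝ ∞ Fi) (hi1 : ∀ z, Fi (Fs z) = z) (hi2 : ∀ z, Fs (Fi z) = z) {r : ℝ}
    (hsupp : ∀ z, r ≤ ‖z‖ → Fs z = z) :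
    ∃ e : OpenPartialHomeomorph M (Euc (d + 2)), BigCD e r ∧
      ∃ fs : DiffInf (d + 2) M, ∀ m, fs m = ext e (cjd Fs) m := by
  obtain ⟨e, he⟩ := exists_bigCD (d := d) (M := M) r
  have hK : IsCompact ((LLd d).symm '' Metric.closedBall (0 : En d) r) :=
    (isCompact_closedBall _ _).image (LLd d).symm.continuous
  have hKe : (LLd d).symm '' Metric.closedBall (0 : En d) r ⊆ e.target := by
    rintro _ ⟨z, hz, rfl⟩
    exact he.big z (by simpa using hz)
  obtain ⟨fs, hfs⟩ := exists_diffK (n := d + 2) (M := M) he.mem hK hKe (ψ := cjd Fs) (g := cjd Fi)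
    ((LLd d).symm.contDiff.comp (hs.comp (LLd d).contDiff))
    ((LLd d).symm.contDiff.comp (hi.comp (LLd d).contDiff))
    (fun x => by simp [cjd, hi1]) (fun x => by simp [cjd, hi2]) (fun x hx => by
      have h1 : r ≤ ‖LLd d x‖ := by
        by_contra hcon
        refine hx ⟨LLd d x, ?_, by simp⟩
        simpa using (not_le.mp hcon).le
      simp [cjd, hsupp _ h1])
  exact ⟨e, he, fs, hfs⟩

end Pool.Agent.Lib.H37D
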