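import Pool.Agent.Lib.H37D.DK7
import Pool.Agent.Lib.H37N.T10a

/-!
# H37D DM01: compactly supported diffeomorphisms; shears
-/

open Set Filter Topology
open scoped ContDiff

namespace Pool.Agent.Lib.H37D

open Pool.Agent.Lib.H37N

/-- `Φ` is a compactly supported `C^∞` diffeomorphism with the inverse `Φi` -/
structure IsCD {E : Type} [NormedAddCommGroup E] [NormedSpace ℝ E] (Φ Φi : E → E) : Prop where
  smooth : ContDiff ℝ ∞ Φ
  smoothi : ContDiff ℝ ∞ Φi
  left : ∀ z, Φi (Φ z) = z
  right : ∀ z, Φ (Φi z) = z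
  supp : ∃ r : ℝ, ∀ z, r ≤ ‖z‖ → Φ z = z

variable {E : Type} [NormedAddCommGroup E] [NormedSpace ℝ E]

theorem IsCD.id : IsCD (fun z : E => z) (fun z : E => z) :=
  ⟨contDiff_id, contDiff_id, fun _ => rfl, fun _ => rfl, 0, fun _ _ => rfl⟩

theorem IsCD.symm {Φ Φi : E → E} (h : IsCD Φ Φi) : IsCD Φi Φ := by
  obtain ⟨r, hr⟩ := h.supp
  refine ⟨h.smoothi, h.smooth, h.right, h.left, r, fun z hz => ?_⟩
  have h1 := h.left z
  rw [hr z hz] at h1
  exact h1

theorem IsCD.comp {Φ Φi Ψ Ψi : E → E} (h : IsCD Φ Φi) (h' : IsCD Ψ Ψi) :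
    IsCD (fun z => Φ (Ψ z)) (fun z => Ψi (Φi z)) := by
  obtain ⟨r, hr⟩ := h.supp
  obtain ⟨r', hr'⟩ := h'.supp
  refine ⟨h.smooth.comp h'.smooth, h'.smoothi.comp h.smoothi, fun z => ?_, fun z => ?_,
    max r r', fun z hz => ?_⟩
  · show Ψi (Φi (Φ (Ψ z))) = z
    rw [h.left, h'.left]
  · show Φ (Ψ (Ψi (Φi z))) = z
    rw [h'.right, h.right]
  · show Φ (Ψ z) = z
    rw [hr' z ((le_max_right _ _).trans hz), hr z ((le_max_left _ _).trans hz)]

theorem dm01_line (f : E → ℝ) (hf : ContDiff ℝ ∞ f) (u y : E) (t : ℝ) :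
    HasDerivAt (fun t : ℝ => t + f (y + t • u)) (1 + fderiv ℝ f (y + t • u) u) t := by
  have h1 : HasDerivAt (fun t : ℝ => y + t • u) u t := by
    have := ((hasDerivAt_id t).smul_const u).const_add y
    simpa using this
  have h2 : HasFDerivAt f (fderiv ℝ f (y + t • u)) (y + t • u) :=
    (hf.differentiable (by simp) _).hasFDerivAt
  exact (hasDerivAt_id t).add (h2.comp_hasDerivAt t h1)

/-- A shear in the direction `u`. -/
theorem shear [FiniteDimensional ℝ E] {f : E → ℝ} (u : E) (hf : ContDiff ℝ ∞ f)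
    (hu : ∀ z, -1 < fderiv ℝ f z u) (hr : ∃ r : ℝ, ∀ z, r ≤ ‖z‖ → f z = 0) :
    ∃ Φi : E → E, IsCD (fun z => z + f z • u) Φi := by
  obtain ⟨r, hr⟩ := hr
  have hprop : ProperSpace E := FiniteDimensional.proper ℝ E
  obtain ⟨C, hC⟩ : ∃ C : ℝ, ∀ z, |f z| ≤ C := by
    obtain ⟨C, hC⟩ := (isCompact_closedBall (0 : E) |r|).exists_bound_of_continuousOn hf.continuous.continuousOn
    refine ⟨max C 0, fun z => ?_⟩
    by_cases hz : z ∈ Metric.closedBall (0 : E) |r|
    · exact (hC z hz).trans (le_max_left _ _)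
    · rw [mem_closedBall_zero_iff, not_le] at hz
      rw [hr z ((le_abs_self r).trans hz.le), abs_zero]
      exact le_max_right _ _
  set h : E → ℝ → ℝ := fun y t => t + f (y + t • u) with hh
  have hd := dm01_line f hf u
  have hmono : ∀ y, StrictMono (h y) := fun y =>
    strictMono_of_deriv_pos fun t => by
      rw [(hd y t).deriv]
      have := hu (y + t • u)
      linarith
  have hcont : ∀ y, Continuous (h y) := fun y => by
    rw [continuous_iff_continuousAt]
    exact fun t => (hd y t).continuousAt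
  set Φ : E → E := fun z => z + f z • u with hΦ
  have hΦs : ContDiff ℝ ∞ Φ := contDiff_id.add (hf.smul contDiff_const)
  have hinj : Function.Injective Φ := by
    intro z z' hzz
    have h1 : z + f z • u = z' + f z' • u := hzz
    have h2 : z' = z + (f z - f z') • u := by
      rw [sub_smul, ← add_sub_assoc, h1, add_sub_cancel_right]
    have h3 : h z 0 = h z (f z - f z') := by
      simp only [hh]
      rw [zero_smul, add_zero, ← h2]
      ring
    have h4 := (hmono z).injective h3
    rw [← h4, zero_smul, add_zero] at h2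
    exact h2.symm
  have hsurj : Function.Surjective Φ := by
    intro y
    have h1 : (0 : ℝ) ∈ Icc (h y (-(C + 1))) (h y (C + 1)) := by
      constructor
      · have := (abs_le.1 (hC (y + (-(C + 1)) • u))).2
        simp only [hh]
        linarith
      · have := (abs_le.1 (hC (y + (C + 1) • u))).1
        simp only [hh]
        linarith
    have hC0 : 0 ≤ C := (abs_nonneg _).trans (hC 0)
    obtain ⟨t, -, ht⟩ := intermediate_value_Icc (by linarith : -(C + 1) ≤ C + 1)
      (hcont y).continuousOn h1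
    refine ⟨y + t • u, ?_⟩
    show y + t • u + f (y + t • u) • u = y
    simp only [hh] at ht
    rw [add_assoc, ← add_smul, ht, zero_smul, add_zero]
  have hbij : ∀ z, Function.Bijective (fderiv ℝ Φ z) := by
    intro z
    have h1 : HasFDerivAt Φ (ContinuousLinearMap.id ℝ E + (fderiv ℝ f z).smulRight u) z :=
      (hasFDerivAt_id z).add ((hf.differentiable (by simp) z).hasFDerivAt.smul_const u)
    have h2 : Function.Injective (fderiv ℝ Φ z) := by
      rw [injective_iff_map_eq_zero]
      intro v hv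
      rw [h1.fderiv] at hv
      have h3 : v + (fderiv ℝ f z v) • u = 0 := hv
      have h4 := congrArg (fderiv ℝ f z) h3
      rw [map_add, map_smul, map_zero, smul_eq_mul] at h4
      have h5 : fderiv ℝ f z v * (1 + fderiv ℝ f z u) = 0 := by linarith
      have h6 : fderiv ℝ f z v = 0 := by
        rcases mul_eq_zero.1 h5 with h7 | h7
        · exact h7
        · have := hu z
          linarith
      rw [h6, zero_smul, add_zero] at h3
      exact h3
    exact ⟨h2, LinearMap.surjective_of_injective (f := (fderiv ℝ Φ z : E →ₗ[ℝ] E)) h2⟩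
  set Φi := Function.surjInv hsurj with hΦi
  have h1 : ∀ z, Φ (Φi z) = z := Function.surjInv_eq hsurj
  have h2 : ∀ z, Φi (Φ z) = z := fun z => hinj (h1 (Φ z))
  refine ⟨Φi, hΦs, ?_, h2, h1, r, fun z hz => ?_⟩
  · rw [contDiff_iff_contDiffAt]
    intro w
    obtain ⟨g, hg, -, -, hg3⟩ := inverse_fun (f := Φ) (x₀ := Φi w)
      (Eventually.of_forall fun x => hΦs.contDiffAt) (hbij (Φi w))
    rw [h1] at hg3
    refine hg.contDiffAt.congr_of_eventuallyEq ?_
    filter_upwards [hg3] with y hy
    rw [← hy, h2, hy]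
  · show z + f z • u = z
    rw [hr z hz, zero_smul, add_zero]

end Pool.Agent.Lib.H37D
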