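import Pool.Agent.Lib.H37D.DM01
import Pool.Agent.Lib.H37N.MM2

/-!
# H37D DM02: slow cut-off functions on `En d`; shears with a cut-off
-/

open Set Filter Topology
open scoped ContDiff

namespace Pool.Agent.Lib.H37D

open Pool.Agent.Lib.H37N

variable {d : ℕ}

/-- the direction of the coordinate `w_k` -/
def eW (d : ℕ) (k : Fin d) : En d := (0, Pi.single k 1)

theorem dm02_dir {χ : ℝ → ℝ} (hχ : ContDiff ℝ ∞ χ) {X : En d → ℝ} (hX : ContDiff ℝ ∞ X) {z u : En d}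
    {c q : ℝ} (h : ∀ t : ℝ, X (z + t • u) = χ (c + t) * q) : fderiv ℝ X z u = deriv χ c * q := by
  have h1 : HasDerivAt (fun t : ℝ => z + t • u) u 0 := by
    have := ((hasDerivAt_id (0 : ℝ)).smul_const u).const_add z
    simpa using this
  have h2 : HasFDerivAt X (fderiv ℝ X z) (z + (0 : ℝ) • u) := by
    rw [zero_smul, add_zero]
    exact (hX.differentiable (by simp) _).hasFDerivAt
  have h3 : HasDerivAt (fun t : ℝ => X (z + t • u)) (fderiv ℝ X z u) 0 := h2.comp_hasDerivAt 0 h1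
  have h4 : HasDerivAt (fun t : ℝ => χ (c + t) * q) (deriv χ c * q) 0 := by
    have h5 : HasDerivAt χ (deriv χ c) (c + 0) := by
      rw [add_zero]
      exact (hχ.differentiable (by simp) _).hasDerivAt
    have h6 : HasDerivAt (fun t : ℝ => c + t) 1 0 := by
      simpa using (hasDerivAt_id (0 : ℝ)).const_add c
    have h7 : HasDerivAt (fun t : ℝ => χ (c + t)) (deriv χ c * 1) 0 := h5.comp 0 h6
    rw [mul_one] at h7
    exact h7.mul_const q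
  have h8 : (fun t : ℝ => X (z + t • u)) = fun t : ℝ => χ (c + t) * q := funext h
  rw [h8] at h3
  exact h3.unique h4

theorem dm02_prod (χ : ℝ → ℝ) (w : Wd d) (k : Fin d) (t : ℝ) :
    ∏ j, χ ((w + t • (Pi.single k 1 : Wd d)) j) = χ (w k + t) * ∏ j ∈ Finset.univ.erase k, χ (w j) := by
  rw [← Finset.mul_prod_erase Finset.univ _ (Finset.mem_univ k)]
  congr 1
  · simp
  · refine Finset.prod_congr rfl fun j hj => ?_
    have hjk : j ≠ k := (Finset.mem_erase.1 hj).1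
    simp [hjk]

theorem cutX (d : ℕ) (C : ℝ) {η : ℝ} (hη : 0 < η) : ∃ X : En d → ℝ, ContDiff ℝ ∞ X ∧
    (∀ z, 0 ≤ X z ∧ X z ≤ 1) ∧ (∀ z, ‖z‖ ≤ C → X z = 1) ∧ (∃ r : ℝ, ∀ z, r ≤ ‖z‖ → X z = 0) ∧
    (∀ z, |fderiv ℝ X z (eX d)| * (1 + |z.1.1|) ≤ η) ∧
    (∀ z, |fderiv ℝ X z (eY d)| * (1 + |z.1.2|) ≤ η) ∧
    ∀ k z, |fderiv ℝ X z (eW d k)| * (1 + |z.2 k|) ≤ η := by
  obtain ⟨χ, hχ, hχ01, hχ1, ⟨R, hR⟩, hχd⟩ := slow_cutoff C hη
  have hXs : ContDiff ℝ ∞ (fun z : En d => χ z.1.1 * χ z.1.2 * ∏ k, χ (z.2 k)) := by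
    refine (ContDiff.mul ?_ ?_).mul (contDiff_prod fun k _ => ?_)
    · exact hχ.comp (contDiff_fst.comp contDiff_fst)
    · exact hχ.comp (contDiff_snd.comp contDiff_fst)
    · exact hχ.comp ((contDiff_apply ℝ ℝ k).comp contDiff_snd)
  have hp : ∀ (s : Finset (Fin d)) (w : Wd d), 0 ≤ ∏ j ∈ s, χ (w j) ∧ ∏ j ∈ s, χ (w j) ≤ 1 := fun s w =>
    ⟨Finset.prod_nonneg fun j _ => (hχ01 _).1, Finset.prod_le_one (fun j _ => (hχ01 _).1) fun j _ => (hχ01 _).2⟩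
  have hbd : ∀ c q : ℝ, 0 ≤ q → q ≤ 1 → |deriv χ c * q| * (1 + |c|) ≤ η := by
    intro c q h0 h1
    rw [abs_mul, abs_of_nonneg h0]
    have h2 := hχd c
    have h3 : |deriv χ c| * q ≤ |deriv χ c| := mul_le_of_le_one_right (abs_nonneg _) h1
    have h4 : 0 ≤ 1 + |c| := by positivity
    exact (mul_le_mul_of_nonneg_right h3 h4).trans h2
  refine ⟨fun z => χ z.1.1 * χ z.1.2 * ∏ k, χ (z.2 k), hXs, fun z => ?_, fun z hz => ?_,
    ⟨max R 1, fun z hz => ?_⟩, fun z => ?_, fun z => ?_, fun k z => ?_⟩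
  · obtain ⟨h1, h2⟩ := hχ01 z.1.1
    obtain ⟨h3, h4⟩ := hχ01 z.1.2
    obtain ⟨h5, h6⟩ := hp Finset.univ z.2
    exact ⟨mul_nonneg (mul_nonneg h1 h3) h5, mul_le_one₀ (mul_le_one₀ h2 h3 h4) h5 h6⟩
  · have h1 : ‖z.1‖ ≤ C := (norm_fst_le z).trans hz
    have h2 : ‖z.2‖ ≤ C := (norm_snd_le z).trans hz
    show χ z.1.1 * χ z.1.2 * ∏ k, χ (z.2 k) = 1
    rw [hχ1 _ ((norm_fst_le z.1).trans h1), hχ1 _ ((norm_snd_le z.1).trans h1),
      Finset.prod_eq_one fun k _ => hχ1 _ ((norm_le_pi_norm z.2 k).trans h2)]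
    norm_num
  · show χ z.1.1 * χ z.1.2 * ∏ k, χ (z.2 k) = 0
    have hR1 : (0 : ℝ) < max R 1 := lt_of_lt_of_le one_pos (le_max_right _ _)
    rw [Prod.norm_def] at hz
    rcases le_max_iff.1 hz with h | h
    · rw [Prod.norm_def] at h
      rcases le_max_iff.1 h with h' | h'
      · rw [hR _ ((le_max_left _ _).trans h'), zero_mul, zero_mul]
      · rw [hR _ ((le_max_left _ _).trans h'), mul_zero, zero_mul]
    · have h1 : ∃ k, max R 1 ≤ ‖z.2 k‖ := by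
        by_contra hcon
        push Not at hcon
        exact absurd ((pi_norm_lt_iff hR1).2 hcon) (not_lt.2 h)
      obtain ⟨k, hk⟩ := h1
      rw [Finset.prod_eq_zero (Finset.mem_univ k) (hR _ ((le_max_left _ _).trans hk)), mul_zero]
  · rw [dm02_dir hχ hXs (z := z) (u := eX d) (c := z.1.1) (q := χ z.1.2 * ∏ k, χ (z.2 k)) ?_]
    · obtain ⟨h3, h4⟩ := hχ01 z.1.2
      obtain ⟨h5, h6⟩ := hp Finset.univ z.2
      exact hbd _ _ (mul_nonneg h3 h5) (mul_le_one₀ h4 h5 h6)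
    · intro t
      simp [eX, mul_assoc]
  · rw [dm02_dir hχ hXs (z := z) (u := eY d) (c := z.1.2) (q := χ z.1.1 * ∏ k, χ (z.2 k)) ?_]
    · obtain ⟨h3, h4⟩ := hχ01 z.1.1
      obtain ⟨h5, h6⟩ := hp Finset.univ z.2
      exact hbd _ _ (mul_nonneg h3 h5) (mul_le_one₀ h4 h5 h6)
    · intro t
      simp only [eY, Prod.smul_mk, smul_eq_mul, mul_zero, mul_one, smul_zero, Prod.fst_add,
        Prod.snd_add, add_zero]
      ring
  · rw [dm02_dir hχ hXs (z := z) (u := eW d k) (c := z.2 k)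
      (q := χ z.1.1 * χ z.1.2 * ∏ j ∈ Finset.univ.erase k, χ (z.2 j)) ?_]
    · obtain ⟨h1, h2⟩ := hχ01 z.1.1
      obtain ⟨h3, h4⟩ := hχ01 z.1.2
      obtain ⟨h5, h6⟩ := hp (Finset.univ.erase k) z.2
      exact hbd _ _ (mul_nonneg (mul_nonneg h1 h3) h5) (mul_le_one₀ (mul_le_one₀ h2 h3 h4) h5 h6)
    · intro t
      have h1 := dm02_prod χ z.2 k t
      have h2 : z + t • eW d k = (z.1, z.2 + t • (Pi.single k 1 : Wd d)) := by
        ext <;> simp [eW]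
      rw [h2]
      show χ z.1.1 * χ z.1.2 * ∏ j, χ ((z.2 + t • (Pi.single k 1 : Wd d)) j) = _
      rw [h1]
      ring

/-- A shear with a slow cut-off. -/
theorem shear_cut {X g c : En d → ℝ} {u : En d} {K η : ℝ} (hX : ContDiff ℝ ∞ X)
    (hX1 : ∀ z, 0 ≤ X z ∧ X z ≤ 1) (hXr : ∃ r : ℝ, ∀ z, r ≤ ‖z‖ → X z = 0)
    (hXu : ∀ z, |fderiv ℝ X z u| * (1 + |c z|) ≤ η) (hg : ContDiff ℝ ∞ g)
    (hg1 : ∀ z, -1 / 2 ≤ fderiv ℝ g z u) (hg2 : ∀ z, |g z| ≤ K * (1 + |c z|)) (hK : 0 ≤ K)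
    (hKη : K * η ≤ 1 / 4) : ∃ Φi : En d → En d, IsCD (fun z => z + (X z * g z) • u) Φi := by
  obtain ⟨r, hr⟩ := hXr
  refine shear u (hX.mul hg) (fun z => ?_) ⟨r, fun z hz => by rw [hr z hz, zero_mul]⟩
  have h1 : fderiv ℝ (fun z => X z * g z) z u = X z * fderiv ℝ g z u + g z * fderiv ℝ X z u := by
    have h2 := (hX.differentiable (by simp) z).hasFDerivAt.mul (hg.differentiable (by simp) z).hasFDerivAt
    have h3 : fderiv ℝ (fun z => X z * g z) z = X z • fderiv ℝ g z + g z • fderiv ℝ X z := h2.fderiv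
    rw [h3]
    rfl
  rw [h1]
  have h4 : |g z * fderiv ℝ X z u| ≤ 1 / 4 := by
    rw [abs_mul]
    calc |g z| * |fderiv ℝ X z u| ≤ K * (1 + |c z|) * |fderiv ℝ X z u| :=
          mul_le_mul_of_nonneg_right (hg2 z) (abs_nonneg _)
      _ = K * (|fderiv ℝ X z u| * (1 + |c z|)) := by ring
      _ ≤ K * η := mul_le_mul_of_nonneg_left (hXu z) hK
      _ ≤ 1 / 4 := hKη
  have h5 := (abs_le.1 h4).1
  have h6 := hg1 z
  obtain ⟨h7, h8⟩ := hX1 z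
  nlinarith

/-- The function of the slot. -/
theorem slotW (d : ℕ) {a b : ℝ} (ha : 0 < a) (hab : a < b) : ∃ τ : Wd d → ℝ, ContDiff ℝ ∞ τ ∧
    (∀ w, 0 ≤ τ w ∧ τ w ≤ 1) ∧ (∀ w, ‖w‖ ≤ a → τ w = 1) ∧ ∀ w, b ≤ ‖w‖ → τ w = 0 := by
  let f : ContDiffBump (0 : Wd d) := ⟨a, b, ha, hab⟩
  refine ⟨f, f.contDiff, fun w => ⟨f.nonneg, f.le_one⟩, fun w hw => ?_, fun w hw => ?_⟩
  · exact f.one_of_mem_closedBall (by simpa using hw)
  · exact f.zero_of_le_dist (by simpa using hw)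

end Pool.Agent.Lib.H37D
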