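import Pool.Agent.Lib.H37D.DM02

/-!
# H37D DM03: fibre affine diffeomorphisms of the plane, cut off in `w`
-/

open Set Filter Topology
open scoped ContDiff

namespace Pool.Agent.Lib.H37D

open Pool.Agent.Lib.H37N

variable {d : ℕ}

theorem dm03_disp {lam c : ℝ → ℝ} (hl : ContDiff ℝ ∞ lam) (hc : ContDiff ℝ ∞ c)
    (hpos : ∀ x, 0 < lam x) {K : ℝ} (hK : ∀ x, K ≤ |x| → lam x = 1 ∧ c x = 0) (C : ℝ) :
    ∃ f : Pt → ℝ, ContDiff ℝ ∞ f ∧ (∀ z, -1 < fderiv ℝ f z (0, 1)) ∧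
      (∃ r : ℝ, ∀ z, r ≤ ‖z‖ → f z = 0) ∧ ∀ x y : ℝ, |y| ≤ C → f (x, y) = (lam x - 1) * y + c x := by
  obtain ⟨m0, K', hm0, hm1, hK0, hb⟩ := mm2_bounds hl.continuous hc.continuous hpos hK
  obtain ⟨χ, hχ, hχ01, hχ1, ⟨R, hR⟩, hχd⟩ := slow_cutoff C (η := m0 / (2 * K' + 2)) (by positivity)
  have hfs : ContDiff ℝ ∞ (fun z : Pt => χ z.2 * ((lam z.1 - 1) * z.2 + c z.1)) := by
    have l1 : ContDiff ℝ ∞ (fun z : Pt => lam z.1) := hl.comp contDiff_fst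
    have l2 : ContDiff ℝ ∞ (fun z : Pt => c z.1) := hc.comp contDiff_fst
    have l3 : ContDiff ℝ ∞ (fun z : Pt => χ z.2) := hχ.comp contDiff_snd
    exact l3.mul (((l1.sub contDiff_const).mul contDiff_snd).add l2)
  refine ⟨fun z : Pt => χ z.2 * ((lam z.1 - 1) * z.2 + c z.1), hfs, fun z => ?_,
    ⟨max K R, fun z hz => ?_⟩, fun x y hy => ?_⟩
  · obtain ⟨x, y⟩ := z
    have hder : HasDerivAt (fun y : ℝ => χ y * ((lam x - 1) * y + c x))
        (deriv χ y * ((lam x - 1) * y + c x) + χ y * (lam x - 1)) y := by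
      have h1 : HasDerivAt χ (deriv χ y) y := (hχ.differentiable (by simp) y).hasDerivAt
      have h2 : HasDerivAt (fun y : ℝ => (lam x - 1) * y + c x) (lam x - 1) y := by
        have := ((hasDerivAt_id y).const_mul (lam x - 1)).add_const (c x)
        simpa using this
      exact h1.mul h2
    have h1 : HasDerivAt (fun t : ℝ => ((x, t) : Pt)) ((0, 1) : Pt) y :=
      (hasDerivAt_const y x).prodMk (hasDerivAt_id y)
    have h2 : HasFDerivAt (fun z : Pt => χ z.2 * ((lam z.1 - 1) * z.2 + c z.1))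
        (fderiv ℝ (fun z : Pt => χ z.2 * ((lam z.1 - 1) * z.2 + c z.1)) (x, y))
        ((fun t : ℝ => ((x, t) : Pt)) y) :=
      (hfs.differentiable (by simp) _).hasFDerivAt
    have h3 := h2.comp_hasDerivAt y h1
    have h4 : fderiv ℝ (fun z : Pt => χ z.2 * ((lam z.1 - 1) * z.2 + c z.1)) (x, y) (0, 1) =
        deriv χ y * ((lam x - 1) * y + c x) + χ y * (lam x - 1) := h3.unique hder
    rw [h4]
    obtain ⟨b1, b2, b3⟩ := hb x
    have h1 : |deriv χ y * ((lam x - 1) * y + c x)| ≤ m0 / 2 := by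
      rw [abs_mul]
      have h2 : |(lam x - 1) * y + c x| ≤ K' * (1 + |y|) := by
        calc |(lam x - 1) * y + c x| ≤ |(lam x - 1) * y| + |c x| := abs_add_le _ _
          _ = |lam x - 1| * |y| + |c x| := by rw [abs_mul]
          _ ≤ K' * |y| + K' := by
              have := mul_le_mul_of_nonneg_right b2 (abs_nonneg y)
              linarith
          _ = K' * (1 + |y|) := by ring
      calc |deriv χ y| * |(lam x - 1) * y + c x| ≤ |deriv χ y| * (K' * (1 + |y|)) :=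
            mul_le_mul_of_nonneg_left h2 (abs_nonneg _)
        _ = K' * (|deriv χ y| * (1 + |y|)) := by ring
        _ ≤ K' * (m0 / (2 * K' + 2)) := mul_le_mul_of_nonneg_left (hχd y) hK0
        _ ≤ m0 / 2 := by
            rw [mul_div_assoc', div_le_div_iff₀ (by positivity) (by norm_num)]
            nlinarith
    have h3 := neg_abs_le (deriv χ y * ((lam x - 1) * y + c x))
    obtain ⟨c1, c2⟩ := hχ01 y
    have h4 : m0 ≤ 1 + χ y * (lam x - 1) := by nlinarith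
    linarith
  · show χ z.2 * ((lam z.1 - 1) * z.2 + c z.1) = 0
    rw [Prod.norm_def, Real.norm_eq_abs, Real.norm_eq_abs] at hz
    rcases le_max_iff.1 hz with h | h
    · obtain ⟨h1, h2⟩ := hK z.1 (le_trans (le_max_left _ _) h)
      rw [h1, h2]
      ring
    · rw [hR z.2 (le_trans (le_max_right _ _) h), zero_mul]
  · show χ y * ((lam x - 1) * y + c x) = _
    rw [hχ1 y hy, one_mul]

/-- a planar shear, cut off in `w`; `P` is a linear map (the identity or the swap) -/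
theorem dm03_cut {f : Pt → ℝ} (hf : ContDiff ℝ ∞ f) (P : Pt →L[ℝ] Pt) (hP : ∀ z, ‖P z‖ = ‖z‖) (u : Pt)
    (hu : ∀ z, -1 < fderiv ℝ f z (P u)) (hr : ∃ r : ℝ, ∀ z, r ≤ ‖z‖ → f z = 0) :
    ∃ Φ Φi : En d → En d, IsCD Φ Φi ∧ (∀ z, (Φ z).2 = z.2) ∧ (∃ r : ℝ, ∀ z, r ≤ ‖z.1‖ → Φ z = z) ∧
      ∀ z w, ‖w‖ ≤ 2 → Φ (z, w) = (z + f (P z) • u, w) := by
  obtain ⟨τ, hτ, hτ01, hτ1, hτ0⟩ := slotW d (a := 2) (b := 3) (by norm_num) (by norm_num)
  obtain ⟨r, hr⟩ := hr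
  have h1 : ContDiff ℝ ∞ (fun z : En d => τ z.2) := hτ.comp contDiff_snd
  have h2 : ContDiff ℝ ∞ (fun z : En d => f (P z.1)) := hf.comp (P.contDiff.comp contDiff_fst)
  obtain ⟨Φi, hΦ⟩ := shear (E := En d) (f := fun z => τ z.2 * f (P z.1)) (u, 0) (h1.mul h2)
    (fun z => by
      have e1 : HasFDerivAt (fun z : En d => τ z.2) ((fderiv ℝ τ z.2).comp
          (ContinuousLinearMap.snd ℝ Pt (Wd d))) z :=
        (hτ.differentiable (by simp) z.2).hasFDerivAt.comp z hasFDerivAt_snd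
      have e2 : HasFDerivAt (fun z : En d => f (P z.1)) ((fderiv ℝ f (P z.1)).comp
          (P.comp (ContinuousLinearMap.fst ℝ Pt (Wd d)))) z :=
        (hf.differentiable (by simp) (P z.1)).hasFDerivAt.comp z (P.hasFDerivAt.comp z hasFDerivAt_fst)
      have e3 : fderiv ℝ (fun z : En d => τ z.2 * f (P z.1)) z = _ := (e1.mul e2).fderiv
      have e4 : fderiv ℝ (fun z : En d => τ z.2 * f (P z.1)) z (u, 0) =
          τ z.2 * fderiv ℝ f (P z.1) (P u) := by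
        rw [e3]
        simp
      rw [e4]
      obtain ⟨c1, c2⟩ := hτ01 z.2
      have c3 := hu (P z.1)
      rcases c2.eq_or_lt with c4 | c4
      · rw [c4, one_mul]
        exact c3
      · have c5 : 0 ≤ τ z.2 * (1 + fderiv ℝ f (P z.1) (P u)) := mul_nonneg c1 (by linarith)
        nlinarith)
    ⟨max r 3, fun z hz => by
      show τ z.2 * f (P z.1) = 0
      rw [Prod.norm_def] at hz
      rcases le_max_iff.1 hz with h | h
      · rw [hr (P z.1) (by rw [hP]; exact (le_max_left _ _).trans h), mul_zero]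
      · rw [hτ0 z.2 ((le_max_right _ _).trans h), zero_mul]⟩
  refine ⟨_, Φi, hΦ, fun z => ?_, ⟨r, fun z hz => ?_⟩, fun z w hw => ?_⟩
  · show (z + (τ z.2 * f (P z.1)) • ((u, 0) : En d)).2 = z.2
    simp
  · show z + (τ z.2 * f (P z.1)) • ((u, 0) : En d) = z
    rw [hr (P z.1) (by rw [hP]; exact hz), mul_zero, zero_smul, add_zero]
  · show (z, w) + (τ w * f (P z)) • ((u, 0) : En d) = _
    rw [hτ1 w hw, one_mul]
    simp

theorem dm_A1 (d : ℕ) {lam c : ℝ → ℝ} (hl : ContDiff ℝ ∞ lam) (hc : ContDiff ℝ ∞ c)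
    (hpos : ∀ x, 0 < lam x) {K : ℝ} (hK : ∀ x, K ≤ |x| → lam x = 1 ∧ c x = 0) (C : ℝ) :
    ∃ Φ Φi : En d → En d, IsCD Φ Φi ∧ (∀ z, (Φ z).2 = z.2) ∧ (∃ r : ℝ, ∀ z, r ≤ ‖z.1‖ → Φ z = z) ∧
      ∀ x y w, |y| ≤ C → ‖w‖ ≤ 2 → Φ ((x, y), w) = ((x, lam x * y + c x), w) := by
  obtain ⟨f, hf, hf1, hf2, hf3⟩ := dm03_disp hl hc hpos hK C
  obtain ⟨Φ, Φi, h1, h2, h3, h4⟩ := dm03_cut (d := d) hf (ContinuousLinearMap.id ℝ Pt) (fun _ => rfl)
    (0, 1) hf1 hf2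
  refine ⟨Φ, Φi, h1, h2, h3, fun x y w hy hw => ?_⟩
  rw [h4 _ _ hw]
  show ((x, y) + f (x, y) • ((0, 1) : Pt), w) = _
  rw [hf3 x y hy]
  simp only [Prod.smul_mk, smul_eq_mul, mul_zero, mul_one, Prod.mk_add_mk, add_zero]
  congr 2
  ring

theorem dm_A2 (d : ℕ) {lam c : ℝ → ℝ} (hl : ContDiff ℝ ∞ lam) (hc : ContDiff ℝ ∞ c)
    (hpos : ∀ x, 0 < lam x) {K : ℝ} (hK : ∀ x, K ≤ |x| → lam x = 1 ∧ c x = 0) (C : ℝ) :
    ∃ Φ Φi : En d → En d, IsCD Φ Φi ∧ (∀ z, (Φ z).2 = z.2) ∧ (∃ r : ℝ, ∀ z, r ≤ ‖z.1‖ → Φ z = z) ∧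
      ∀ x y w, |x| ≤ C → ‖w‖ ≤ 2 → Φ ((x, y), w) = ((lam y * x + c y, y), w) := by
  obtain ⟨f, hf, hf1, hf2, hf3⟩ := dm03_disp hl hc hpos hK C
  obtain ⟨Φ, Φi, h1, h2, h3, h4⟩ := dm03_cut (d := d) hf
    ((ContinuousLinearMap.snd ℝ ℝ ℝ).prod (ContinuousLinearMap.fst ℝ ℝ ℝ))
    (fun z => by
      show ‖((z.2, z.1) : Pt)‖ = ‖z‖
      rw [Prod.norm_def, Prod.norm_def, max_comm]) (1, 0) hf1 hf2
  refine ⟨Φ, Φi, h1, h2, h3, fun x y w hy hw => ?_⟩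
  rw [h4 _ _ hw]
  show ((x, y) + f (y, x) • ((1, 0) : Pt), w) = _
  rw [hf3 y x hy]
  simp only [Prod.smul_mk, smul_eq_mul, mul_zero, mul_one, Prod.mk_add_mk, add_zero]
  congr 2
  ring

end Pool.Agent.Lib.H37D
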