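import Pool.Agent.Lib.H37D.DM03
import Pool.Agent.Lib.H37N.MM4

/-!
# H37D DM04: the twist, cut off in `w`
-/

open Set Filter Topology
open scoped ContDiff

namespace Pool.Agent.Lib.H37D

open Pool.Agent.Lib.H37N

variable {d : ℕ}

theorem dm04_smooth (v0 : Pt) {τ : Wd d → ℝ} (hτ : ContDiff ℝ ∞ τ) {θ : ℝ → ℝ} (hθ : ContDiff ℝ ∞ θ) :
    ContDiff ℝ ∞ (fun z : En d => ((mm4_tw v0 (fun t => τ z.2 * θ t) z.1, z.2) : En d)) := by
  have h1 : ContDiff ℝ ∞ fun z : En d => z.1.1 - v0.1 :=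
    (contDiff_fst.comp contDiff_fst).sub contDiff_const
  have h2 : ContDiff ℝ ∞ fun z : En d => z.1.2 - v0.2 :=
    (contDiff_snd.comp contDiff_fst).sub contDiff_const
  have h0 : ContDiff ℝ ∞ fun z : En d => τ z.2 := hτ.comp contDiff_snd
  have h3 : ContDiff ℝ ∞ fun z : En d => τ z.2 * θ ((z.1.1 - v0.1) ^ 2 + (z.1.2 - v0.2) ^ 2) :=
    h0.mul (hθ.comp ((h1.pow 2).add (h2.pow 2)))
  have h4 : ContDiff ℝ ∞ fun z : En d =>
      Real.cos (τ z.2 * θ ((z.1.1 - v0.1) ^ 2 + (z.1.2 - v0.2) ^ 2)) := Real.contDiff_cos.comp h3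
  have h5 : ContDiff ℝ ∞ fun z : En d =>
      Real.sin (τ z.2 * θ ((z.1.1 - v0.1) ^ 2 + (z.1.2 - v0.2) ^ 2)) := Real.contDiff_sin.comp h3
  exact ((contDiff_const.add ((h4.mul h1).sub (h5.mul h2))).prodMk
    (contDiff_const.add ((h5.mul h1).add (h4.mul h2)))).prodMk contDiff_snd

theorem dm_twist (d : ℕ) (v0 : Pt) {r0 r1 : ℝ} (h0 : 0 < r0) (h1 : r0 < r1) :
    ∃ Φ Φi : En d → En d, IsCD Φ Φi ∧ (∀ z, (Φ z).2 = z.2) ∧ (∃ r : ℝ, ∀ z, r ≤ ‖z.1‖ → Φ z = z) ∧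
      (∀ (v : Pt) (w : Wd d), ‖w‖ ≤ 2 → (v.1 - v0.1) ^ 2 + (v.2 - v0.2) ^ 2 ≤ r0 ^ 2 →
        Φ (v, w) = ((v0.1 + (v.2 - v0.2), v0.2 - (v.1 - v0.1)), w)) ∧
      ∀ (v : Pt) (w : Wd d), r1 ^ 2 ≤ (v.1 - v0.1) ^ 2 + (v.2 - v0.2) ^ 2 → Φ (v, w) = (v, w) := by
  obtain ⟨τ, hτ, hτ01, hτ1, hτ0⟩ := slotW d (a := 2) (b := 3) (by norm_num) (by norm_num)
  have hr : 0 < r1 ^ 2 - r0 ^ 2 := by nlinarith
  let θ : ℝ → ℝ := fun t => -(Real.pi / 2) * Real.smoothTransition ((r1 ^ 2 - t) / (r1 ^ 2 - r0 ^ 2))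
  have hθ : ContDiff ℝ ∞ θ :=
    contDiff_const.mul (Real.smoothTransition.contDiff.comp (by fun_prop))
  have hθ0 : ∀ t, t ≤ r0 ^ 2 → θ t = -(Real.pi / 2) := by
    intro t ht
    show -(Real.pi / 2) * Real.smoothTransition ((r1 ^ 2 - t) / (r1 ^ 2 - r0 ^ 2)) = _
    rw [Real.smoothTransition.one_of_one_le, mul_one]
    rw [le_div_iff₀ hr]
    linarith
  have hθ1 : ∀ t, r1 ^ 2 ≤ t → θ t = 0 := by
    intro t ht
    show -(Real.pi / 2) * Real.smoothTransition ((r1 ^ 2 - t) / (r1 ^ 2 - r0 ^ 2)) = _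
    rw [Real.smoothTransition.zero_of_nonpos, mul_zero]
    exact div_nonpos_of_nonpos_of_nonneg (by linarith) hr.le
  have htw : ∀ (φ : ℝ → ℝ) (v : Pt), φ ((v.1 - v0.1) ^ 2 + (v.2 - v0.2) ^ 2) = 0 →
      mm4_tw v0 φ v = v := by
    intro φ v hv
    rw [mm4_tw, hv, Real.cos_zero, Real.sin_zero]
    refine Prod.ext ?_ ?_
    · show v0.1 + (1 * (v.1 - v0.1) - 0 * (v.2 - v0.2)) = v.1
      ring
    · show v0.2 + (0 * (v.1 - v0.1) + 1 * (v.2 - v0.2)) = v.2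
      ring
  have hfar : ∀ v : Pt, ‖v0‖ + r1 ≤ ‖v‖ → r1 ^ 2 ≤ (v.1 - v0.1) ^ 2 + (v.2 - v0.2) ^ 2 := by
    intro z hz
    have h2 : r1 ≤ ‖z - v0‖ := by
      have := norm_sub_norm_le z v0
      linarith
    have h3 : ‖z - v0‖ = max |z.1 - v0.1| |z.2 - v0.2| := rfl
    rw [h3] at h2
    have hr1 : 0 < r1 := h0.trans h1
    rcases le_max_iff.1 h2 with h4 | h4
    · have h5 : r1 ^ 2 ≤ (z.1 - v0.1) ^ 2 := by
        rw [← sq_abs (z.1 - v0.1)]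
        exact pow_le_pow_left₀ hr1.le h4 2
      nlinarith [sq_nonneg (z.2 - v0.2)]
    · have h5 : r1 ^ 2 ≤ (z.2 - v0.2) ^ 2 := by
        rw [← sq_abs (z.2 - v0.2)]
        exact pow_le_pow_left₀ hr1.le h4 2
      nlinarith [sq_nonneg (z.1 - v0.1)]
  set Φ : En d → En d := fun z => (mm4_tw v0 (fun t => τ z.2 * θ t) z.1, z.2) with hΦ
  set Φi : En d → En d := fun z => (mm4_tw v0 (fun t => τ z.2 * (-θ t)) z.1, z.2) with hΦi
  have hz1 : ∀ z : En d, r1 ^ 2 ≤ (z.1.1 - v0.1) ^ 2 + (z.1.2 - v0.2) ^ 2 → Φ z = z := by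
    intro z hz
    show (mm4_tw v0 (fun t => τ z.2 * θ t) z.1, z.2) = z
    rw [htw (fun t => τ z.2 * θ t) z.1 (by rw [hθ1 _ hz, mul_zero])]
  refine ⟨Φ, Φi, ⟨dm04_smooth v0 hτ hθ, dm04_smooth v0 hτ hθ.neg, fun z => ?_, fun z => ?_,
    max (‖v0‖ + r1) 3, fun z hz => ?_⟩, fun z => rfl, ⟨‖v0‖ + r1, fun z hz => hz1 z (hfar z.1 hz)⟩,
    fun v w hw hv => ?_, fun v w hv => hz1 (v, w) hv⟩
  · show (mm4_tw v0 (fun t => τ z.2 * (-θ t)) (mm4_tw v0 (fun t => τ z.2 * θ t) z.1), z.2) = z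
    have h2 := mm4_inv v0 (fun t => τ z.2 * θ t) z.1
    have h3 : (fun t => -(τ z.2 * θ t)) = fun t => τ z.2 * (-θ t) := by
      funext t
      ring
    rw [h3] at h2
    rw [h2]
  · show (mm4_tw v0 (fun t => τ z.2 * θ t) (mm4_tw v0 (fun t => τ z.2 * (-θ t)) z.1), z.2) = z
    have h2 := mm4_inv v0 (fun t => τ z.2 * (-θ t)) z.1
    have h3 : (fun t => -(τ z.2 * (-θ t))) = fun t => τ z.2 * θ t := by
      funext t
      ring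
    rw [h3] at h2
    rw [h2]
  · rw [Prod.norm_def] at hz
    rcases le_max_iff.1 hz with h | h
    · exact hz1 z (hfar z.1 ((le_max_left _ _).trans h))
    · show (mm4_tw v0 (fun t => τ z.2 * θ t) z.1, z.2) = z
      rw [htw (fun t => τ z.2 * θ t) z.1 (by rw [hτ0 _ ((le_max_right _ _).trans h), zero_mul])]
  · show (mm4_tw v0 (fun t => τ w * θ t) v, w) = _
    rw [hτ1 w hw, mm4_tw]
    simp only [one_mul]
    rw [hθ0 _ hv, Real.cos_neg, Real.sin_neg, Real.cos_pi_div_two, Real.sin_pi_div_two]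
    refine Prod.ext (Prod.ext ?_ ?_) rfl
    · show v0.1 + (0 * (v.1 - v0.1) - -1 * (v.2 - v0.2)) = v0.1 + (v.2 - v0.2)
      ring
    · show v0.2 + (-1 * (v.1 - v0.1) + 0 * (v.2 - v0.2)) = v0.2 - (v.1 - v0.1)
      ring

end Pool.Agent.Lib.H37D
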