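import Pool.Agent.Lib.H37D.DM04

/-!
# H37D DM05: the planar model, cut off in `w`
-/

open Set Filter Topology
open scoped ContDiff

namespace Pool.Agent.Lib.H37D

open Pool.Agent.Lib.H37N

variable {d : ℕ}

/-- open neighbourhoods of `VV i` and `FF` on which the model is explicit -/
def VVo (i : Sy) : Set Pt := Ioo (al i - 2 * del) (al i + pw i + 2 * del) ×ˢ Ioo (-2 * del) (1 + 2 * del)

def FFo : Set Pt := Ioo (xc - u0 - del) (xc + u0 + del) ×ˢ Ioo (-2 * del) (1 + 2 * del)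

theorem dm_planar (d : ℕ) : ∃ (Φ Φi : En d → En d) (R0 : ℝ), IsCD Φ Φi ∧ (∀ z, (Φ z).2 = z.2) ∧
    (∀ z, R0 ≤ ‖z.1‖ → Φ z = z) ∧
    (∀ (i : Sy) (z : Pt) (w : Wd d), z ∈ VVo i → ‖w‖ ≤ 2 → Φ (z, w) = (Aff i z, w)) ∧
    ∀ (z : Pt) (w : Wd d), z ∈ FFo → ‖w‖ ≤ 2 → Φ (z, w) = (Fold z, w) := by
  obtain ⟨lam, c, hls, hcs, hlp, ⟨K, hK⟩, hval⟩ := profile
    (a := ![-2 * del, xc - u0 - del, 801 / 1000 - 2 * del])
    (b := ![4 / 5 + 2 * del, xc + u0 + del, 1 + 2 * del])
    (l := ![1 / 2, gam / 100, 499 / 1000])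
    (c := ![fun _ => 0, fun x => yc - gam / 200 - (x - xc) ^ 2 / (20 * gam),
      fun _ => 501 / 1000])
    (by intro i; fin_cases i <;> norm_num [del, xc, u0])
    (by norm_num [del, xc, u0])
    (by show xc + u0 + del < 801 / 1000 - 2 * del; norm_num [del, xc, u0])
    (by intro i; fin_cases i <;> norm_num [gam])
    (by
      intro i
      fin_cases i
      · exact contDiff_const
      · show ContDiff ℝ ∞ fun x : ℝ => yc - gam / 200 - (x - xc) ^ 2 / (20 * gam)
        fun_prop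
      · exact contDiff_const)
  obtain ⟨lam', c', hls', hcs', hlp', ⟨K', hK'⟩, hval'⟩ := profile
    (a := ![-2 * del, yc - 27 / 100 * gam, 501 / 1000 - 2 * del])
    (b := ![1 / 2 + 2 * del, yc + 27 / 100 * gam, 1 + 2 * del])
    (l := ![5 / 4, 50 / gam, 1000 / 199])
    (c := ![fun _ => 0, fun _ => 1 / 2 - 50 / gam * xc, fun _ => - 801 / 199])
    (by intro i; fin_cases i <;> norm_num [del, yc, gam])
    (by norm_num [del, yc, gam])
    (by show yc + 27 / 100 * gam < 501 / 1000 - 2 * del; norm_num [del, yc, gam])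
    (by intro i; fin_cases i <;> norm_num [gam])
    (by
      intro i
      fin_cases i <;> exact contDiff_const)
  have v0 := hval 0
  have v1 := hval 1
  have v2 := hval 2
  have w0 := hval' 0
  have w1 := hval' 1
  have w2 := hval' 2
  simp only [Matrix.cons_val_zero, Matrix.cons_val_one, Matrix.cons_val, mem_Icc] at v0 v1 v2 w0 w1 w2
  obtain ⟨A1, A1i, hA1, hA12, ⟨ra, hra⟩, hA1v⟩ := dm_A1 d hls hcs hlp hK 2
  obtain ⟨A2, A2i, hA2, hA22, ⟨rb, hrb⟩, hA2w⟩ := dm_A2 d hls' hcs' hlp' hK' 2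
  obtain ⟨R, Ri, hR, hR2, ⟨rc, hrc⟩, hRin, hRout⟩ := dm_twist d (xc, yc) (r0 := 3 / 10 * gam)
    (r1 := 45 / 100 * gam) (by norm_num [gam]) (by norm_num [gam])
  refine ⟨fun z => A2 (R (A1 z)), _, max ra (max rb rc), hA2.comp (hR.comp hA1), ?_, ?_, ?_, ?_⟩
  · intro z
    show (A2 (R (A1 z))).2 = z.2
    rw [hA22, hR2, hA12]
  · intro z hz
    show A2 (R (A1 z)) = z
    rw [hra z ((le_max_left _ _).trans hz),
      hrc z (((le_max_right _ _).trans (le_max_right _ _)).trans hz),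
      hrb z (((le_max_left _ _).trans (le_max_right _ _)).trans hz)]
  · rintro i ⟨x, y⟩ w ⟨⟨h1, h2⟩, h3, h4⟩ hw
    show A2 (R (A1 ((x, y), w))) = _
    cases i
    · simp only [al, pw, del] at h1 h2 h3 h4
      obtain ⟨e1, e2⟩ := v0 x ⟨by simp only [del]; linarith, by simp only [del]; linarith⟩
      have hy : |y| ≤ 2 := by rw [abs_le]; constructor <;> linarith
      have hx : |x| ≤ 2 := by rw [abs_le]; constructor <;> linarith
      have s1 : A1 ((x, y), w) = ((x, 1 / 2 * y + 0), w) := by rw [hA1v x y w hy hw, e1, e2]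
      have s2 : R ((x, 1 / 2 * y + 0), w) = ((x, 1 / 2 * y + 0), w) := by
        refine hRout _ _ ?_
        simp only [gam, xc, yc]
        nlinarith [sq_nonneg (1 / 2 * y + 0 - 5005 / 10000 : ℝ)]
      obtain ⟨f1, f2⟩ := w0 (1 / 2 * y + 0) ⟨by simp only [del]; linarith, by simp only [del]; linarith⟩
      rw [s1, s2, hA2w _ _ _ hx hw, f1, f2]
      simp only [Aff, al, pw, be, qw]
      refine Prod.ext (Prod.ext ?_ ?_) rfl
      · show (5 / 4 * x + 0 : ℝ) = (x - 0) / (4 / 5)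
        ring
      · show (1 / 2 * y + 0 : ℝ) = 0 + 1 / 2 * y
        ring
    · simp only [al, pw, del] at h1 h2 h3 h4
      obtain ⟨e1, e2⟩ := v2 x ⟨by simp only [del]; linarith, by simp only [del]; linarith⟩
      have hy : |y| ≤ 2 := by rw [abs_le]; constructor <;> linarith
      have hx : |x| ≤ 2 := by rw [abs_le]; constructor <;> linarith
      have s1 : A1 ((x, y), w) = ((x, 499 / 1000 * y + 501 / 1000), w) := by rw [hA1v x y w hy hw, e1, e2]
      have s2 : R ((x, 499 / 1000 * y + 501 / 1000), w) = ((x, 499 / 1000 * y + 501 / 1000), w) := by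
        refine hRout _ _ ?_
        simp only [gam, xc, yc]
        nlinarith [sq_nonneg (499 / 1000 * y + 501 / 1000 - 5005 / 10000 : ℝ)]
      obtain ⟨f1, f2⟩ := w2 (499 / 1000 * y + 501 / 1000)
        ⟨by simp only [del]; linarith, by simp only [del]; linarith⟩
      rw [s1, s2, hA2w _ _ _ hx hw, f1, f2]
      simp only [Aff, al, pw, be, qw]
      refine Prod.ext (Prod.ext ?_ ?_) rfl
      · show (1000 / 199 * x + - 801 / 199 : ℝ) = (x - 801 / 1000) / (199 / 1000)
        ring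
      · show (499 / 1000 * y + 501 / 1000 : ℝ) = 501 / 1000 + 499 / 1000 * y
        ring
  · rintro ⟨x, y⟩ wv ⟨⟨h1, h2⟩, h3, h4⟩ hwv
    obtain ⟨e1, e2⟩ := v1 x ⟨h1.le, h2.le⟩
    simp only [xc, u0, del] at h1 h2 h3 h4
    have hy : |y| ≤ 2 := by rw [abs_le]; constructor <;> linarith
    obtain ⟨u, rfl⟩ : ∃ u, x = 8005 / 10000 + u := ⟨x - 8005 / 10000, by ring⟩
    have hu1 : -(26 / 100000) ≤ u := by linarith
    have hu2 : u ≤ 26 / 100000 := by linarith
    have husq : u ^ 2 ≤ (26 / 100000) ^ 2 := by nlinarith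
    have hu0 : 0 ≤ u ^ 2 := sq_nonneg u
    set w : ℝ := 1 / 100000 * (y - 1 / 2) - 50 * u ^ 2 with hw
    have hw1 : -(1 / 100000) ≤ w := by rw [hw]; linarith
    have hw2 : w ≤ 1 / 100000 := by rw [hw]; linarith
    have hwsq : w ^ 2 ≤ (1 / 100000) ^ 2 := by nlinarith
    have s1 : A1 ((8005 / 10000 + u, y), wv) = ((8005 / 10000 + u, 5005 / 10000 + w), wv) := by
      rw [hA1v _ y wv hy hwv, e1, e2]
      refine Prod.ext (Prod.ext rfl ?_) rfl
      simp only [hw, gam, xc, yc]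
      ring
    have s2 : R ((8005 / 10000 + u, 5005 / 10000 + w), wv) =
        ((8005 / 10000 + w, 5005 / 10000 - u), wv) := by
      rw [hRin _ _ hwv]
      · refine Prod.ext (Prod.ext ?_ ?_) rfl
        · simp only [xc, yc]; ring
        · simp only [xc, yc]; ring
      · simp only [xc, yc, gam]
        nlinarith
    obtain ⟨f1, f2⟩ := w1 (5005 / 10000 - u)
        ⟨by simp only [yc, gam]; linarith, by simp only [yc, gam]; linarith⟩
    have hx : |8005 / 10000 + w| ≤ 2 := by rw [abs_le]; constructor <;> linarith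
    show A2 (R (A1 ((8005 / 10000 + u, y), wv))) = _
    rw [s1, s2, hA2w _ _ _ hx hwv, f1, f2]
    simp only [Fold, gam, xc, yc, cc, dd, hw]
    refine Prod.ext (Prod.ext ?_ ?_) rfl
    · show (50 / (1 / 1000) * (8005 / 10000 + (1 / 100000 * (y - 1 / 2) - 50 * u ^ 2)) +
        (1 / 2 - 50 / (1 / 1000) * (8005 / 10000)) : ℝ) =
        1 / 2 + 1 / 2 * (y - 1 / 2) - 2500000 * (8005 / 10000 + u - 8005 / 10000) ^ 2
      ring
    · show (5005 / 10000 - u : ℝ) = 5005 / 10000 - (8005 / 10000 + u - 8005 / 10000)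
      ring

end Pool.Agent.Lib.H37D
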