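import Pool.Agent.Lib.H37D.DM05

/-!
# H37D DM06: the shears in the direction of `x`
-/

open Set Filter Topology
open scoped ContDiff

namespace Pool.Agent.Lib.H37D

open Pool.Agent.Lib.H37N

variable {d : ℕ}

theorem dm06_mono {c : ℝ} : Monotone fun x : ℝ => Real.smoothTransition (x + c) :=
  fun _ _ h => Real.smoothTransition.monotone (by linarith)

theorem dm06_smooth (c : ℝ) : ContDiff ℝ ∞ fun x : ℝ => Real.smoothTransition (x + c) :=
  Real.smoothTransition.contDiff.comp (contDiff_id.add contDiff_const)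

/-- the translation of the slot -/
theorem dm_T (d : ℕ) (R0 C : ℝ) (hR0 : 4 ≤ R0) : ∃ T Ti : En d → En d, IsCD T Ti ∧
    (∀ z, ∃ t : ℝ, 0 ≤ t ∧ t ≤ R0 + 3 ∧ T z = z + t • eX d) ∧ (∀ z : En d, z.1.1 ≤ -R0 → T z = z) ∧
    (∀ z : En d, 2 / 10 ^ 7 ≤ ‖z.2‖ → T z = z) ∧
    ∀ z : En d, ‖z‖ ≤ C → -R0 + 1 ≤ z.1.1 → ‖z.2‖ ≤ 11 / 10 ^ 8 → T z = z + (R0 + 3) • eX d := by
  obtain ⟨X, hX, hX01, hX1, hXr, hXx, -, -⟩ := cutX d C (η := 1 / (4 * (R0 + 3))) (by positivity)
  obtain ⟨τ, hτ, hτ01, hτ1, hτ0⟩ := slotW d (a := 11 / 10 ^ 8) (b := 2 / 10 ^ 7) (by norm_num)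
    (by norm_num)
  have hs : ContDiff ℝ ∞ (fun z : En d => Real.smoothTransition (z.1.1 + R0)) :=
    (dm06_smooth R0).comp (contDiff_fst.comp contDiff_fst)
  have ht : ContDiff ℝ ∞ (fun z : En d => τ z.2) := hτ.comp contDiff_snd
  have hg : ContDiff ℝ ∞ (fun z : En d => Real.smoothTransition (z.1.1 + R0) * ((R0 + 3) * τ z.2)) :=
    hs.mul (contDiff_const.mul ht)
  have h3 : 0 ≤ R0 + 3 := by linarith
  obtain ⟨Φi, hΦ⟩ := shear_cut (X := X) (g := fun z : En d => Real.smoothTransition (z.1.1 + R0) *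
    ((R0 + 3) * τ z.2)) (c := fun z => z.1.1) (u := eX d) (K := R0 + 3) hX hX01 hXr hXx hg
    (fun z => by
      have h1 := dm02_dir (dm06_smooth R0) hg (z := z) (u := eX d) (c := z.1.1)
        (q := (R0 + 3) * τ z.2) (fun t => by simp [eX])
      rw [h1]
      have h2 : 0 ≤ deriv (fun x : ℝ => Real.smoothTransition (x + R0)) z.1.1 :=
        dm06_mono.deriv_nonneg
      have h4 : 0 ≤ (R0 + 3) * τ z.2 := mul_nonneg h3 (hτ01 _).1
      have := mul_nonneg h2 h4
      linarith)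
    (fun z => by
      have h1 : |Real.smoothTransition (z.1.1 + R0) * ((R0 + 3) * τ z.2)| ≤ R0 + 3 := by
        rw [abs_of_nonneg (mul_nonneg (Real.smoothTransition.nonneg _) (mul_nonneg h3 (hτ01 _).1))]
        have h5 := Real.smoothTransition.le_one (z.1.1 + R0)
        have h6 := (hτ01 z.2).2
        calc Real.smoothTransition (z.1.1 + R0) * ((R0 + 3) * τ z.2) ≤ 1 * ((R0 + 3) * 1) :=
              mul_le_mul h5 (mul_le_mul_of_nonneg_left h6 h3) (mul_nonneg h3 (hτ01 _).1) zero_le_one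
          _ = R0 + 3 := by ring
      have h2 : 0 ≤ |z.1.1| := abs_nonneg _
      nlinarith)
    h3 (by
      rw [mul_one_div, div_le_div_iff₀ (by positivity) (by norm_num)]
      linarith)
  refine ⟨_, Φi, hΦ, fun z => ⟨X z * (Real.smoothTransition (z.1.1 + R0) * ((R0 + 3) * τ z.2)), ?_, ?_, rfl⟩,
    fun z hz => ?_, fun z hz => ?_, fun z hz hx hw => ?_⟩
  · exact mul_nonneg (hX01 z).1 (mul_nonneg (Real.smoothTransition.nonneg _) (mul_nonneg h3 (hτ01 _).1))
  · have h5 := Real.smoothTransition.le_one (z.1.1 + R0)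
    have h6 := (hτ01 z.2).2
    calc X z * (Real.smoothTransition (z.1.1 + R0) * ((R0 + 3) * τ z.2)) ≤ 1 * (1 * ((R0 + 3) * 1)) :=
          mul_le_mul (hX01 z).2 (mul_le_mul h5 (mul_le_mul_of_nonneg_left h6 h3)
            (mul_nonneg h3 (hτ01 _).1) zero_le_one)
            (mul_nonneg (Real.smoothTransition.nonneg _) (mul_nonneg h3 (hτ01 _).1)) zero_le_one
      _ = R0 + 3 := by ring
  · show z + (X z * (Real.smoothTransition (z.1.1 + R0) * ((R0 + 3) * τ z.2))) • eX d = z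
    rw [Real.smoothTransition.zero_of_nonpos (by linarith), zero_mul, mul_zero, zero_smul, add_zero]
  · show z + (X z * (Real.smoothTransition (z.1.1 + R0) * ((R0 + 3) * τ z.2))) • eX d = z
    rw [hτ0 _ hz, mul_zero, mul_zero, mul_zero, zero_smul, add_zero]
  · show z + (X z * (Real.smoothTransition (z.1.1 + R0) * ((R0 + 3) * τ z.2))) • eX d = _
    rw [hX1 z hz, hτ1 _ hw, Real.smoothTransition.one_of_one_le (by linarith), one_mul, one_mul, mul_one]

/-- the contraction towards the source on the left, the translation on the right -/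
theorem dm_Sx (d : ℕ) (R0 C : ℝ) (hR0 : 4 ≤ R0) : ∃ (S Si : En d → En d) (β : ℝ → ℝ), IsCD S Si ∧
    Monotone β ∧ (∀ x, x ≤ R0 + 1 → β x = (x - (3 * R0 + 7)) / 2) ∧
    (∀ x, R0 + 2 ≤ x → β x = x - (R0 + 3)) ∧ ∀ z : En d, ‖z‖ ≤ C → S z = ((β z.1.1, z.1.2), z.2) := by
  obtain ⟨X, hX, hX01, hX1, hXr, hXx, -, -⟩ := cutX d C (η := 1 / (4 * (4 * R0 + 10))) (by positivity)
  set s : ℝ → ℝ := fun x => Real.smoothTransition (x + (-R0 - 1)) with hs
  have hss : ContDiff ℝ ∞ s := dm06_smooth _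
  have hs01 : ∀ x, 0 ≤ s x ∧ s x ≤ 1 := fun x =>
    ⟨Real.smoothTransition.nonneg _, Real.smoothTransition.le_one _⟩
  set D : ℝ → ℝ := fun x => (1 - s x) * (-(x + (3 * R0 + 7)) / 2) + s x * (-(R0 + 3)) with hD
  have hDs : ContDiff ℝ ∞ D := by
    refine ((contDiff_const.sub hss).mul ?_).add (hss.mul contDiff_const)
    fun_prop
  have hder : ∀ x, HasDerivAt D (-(1 - s x) / 2 + deriv s x * ((x + (3 * R0 + 7)) / 2 - (R0 + 3))) x := by
    intro x
    have h1 : HasDerivAt s (deriv s x) x := (hss.differentiable (by simp) x).hasDerivAt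
    have h2 : HasDerivAt (fun x : ℝ => -(x + (3 * R0 + 7)) / 2) (-1 / 2) x := by
      have := (((hasDerivAt_id x).add_const (3 * R0 + 7)).neg).div_const 2
      simpa using this
    have h3 := ((h1.const_sub 1).mul h2).add (h1.mul_const (-(R0 + 3)))
    refine h3.congr_deriv ?_
    ring
  have hdn : ∀ x, -1 / 2 ≤ deriv D x := by
    intro x
    rw [(hder x).deriv]
    have h1 : 0 ≤ deriv s x * ((x + (3 * R0 + 7)) / 2 - (R0 + 3)) := by
      rcases lt_or_ge x (R0 + 1) with hx | hx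
      · have h2 : s =ᶠ[𝓝 x] fun _ => 0 := by
          filter_upwards [Iio_mem_nhds hx] with y hy
          exact Real.smoothTransition.zero_of_nonpos (by have := mem_Iio.1 hy; linarith)
        rw [h2.deriv_eq, deriv_const, zero_mul]
      · exact mul_nonneg dm06_mono.deriv_nonneg (by linarith)
    have h3 := (hs01 x).1
    linarith
  have hgs : ContDiff ℝ ∞ (fun z : En d => D z.1.1) := hDs.comp (contDiff_fst.comp contDiff_fst)
  have h3 : 0 ≤ 4 * R0 + 10 := by linarith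
  obtain ⟨Φi, hΦ⟩ := shear_cut (X := X) (g := fun z : En d => D z.1.1) (c := fun z => z.1.1)
    (u := eX d) (K := 4 * R0 + 10) hX hX01 hXr hXx hgs
    (fun z => by
      have h1 := dm02_dir hDs hgs (z := z) (u := eX d) (c := z.1.1) (q := 1)
        (fun t => by simp [eX])
      rw [h1, mul_one]
      exact hdn _)
    (fun z => by
      obtain ⟨h5, h6⟩ := hs01 z.1.1
      have h7 := abs_nonneg z.1.1
      have e1 : |(1 - s z.1.1) * (-(z.1.1 + (3 * R0 + 7)) / 2)| ≤ (|z.1.1| + (3 * R0 + 7)) / 2 := by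
        rw [abs_mul, abs_of_nonneg (by linarith : 0 ≤ 1 - s z.1.1), abs_div, abs_neg]
        have e2 : |z.1.1 + (3 * R0 + 7)| ≤ |z.1.1| + (3 * R0 + 7) :=
          (abs_add_le _ _).trans (by rw [abs_of_nonneg (by linarith : (0 : ℝ) ≤ 3 * R0 + 7)])
        rw [abs_of_pos (by norm_num : (0 : ℝ) < 2)]
        have e3 : |z.1.1 + (3 * R0 + 7)| / 2 ≤ (|z.1.1| + (3 * R0 + 7)) / 2 := by linarith
        have e4 : 0 ≤ |z.1.1 + (3 * R0 + 7)| / 2 := by positivity
        nlinarith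
      have e5 : |s z.1.1 * (-(R0 + 3))| ≤ R0 + 3 := by
        rw [abs_mul, abs_neg, abs_of_nonneg h5, abs_of_nonneg (by linarith : 0 ≤ R0 + 3)]
        nlinarith
      have e6 := abs_add_le ((1 - s z.1.1) * (-(z.1.1 + (3 * R0 + 7)) / 2)) (s z.1.1 * (-(R0 + 3)))
      show |(1 - s z.1.1) * (-(z.1.1 + (3 * R0 + 7)) / 2) + s z.1.1 * (-(R0 + 3))| ≤ _
      nlinarith)
    h3 (by
      rw [mul_one_div, div_le_div_iff₀ (by positivity) (by norm_num)]
      linarith)
  refine ⟨_, Φi, fun x => x + D x, hΦ, ?_, fun x hx => ?_, fun x hx => ?_, fun z hz => ?_⟩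
  · refine monotone_of_deriv_nonneg ((differentiable_id).add (hDs.differentiable (by simp))) fun x => ?_
    have h1 : HasDerivAt (fun x : ℝ => x + D x) (1 + deriv D x) x :=
      (hasDerivAt_id x).add (hDs.differentiable (by simp) x).hasDerivAt
    rw [h1.deriv]
    have := hdn x
    linarith
  · have h1 : s x = 0 := Real.smoothTransition.zero_of_nonpos (by linarith)
    show x + ((1 - s x) * (-(x + (3 * R0 + 7)) / 2) + s x * (-(R0 + 3))) = _
    rw [h1]
    ring
  · have h1 : s x = 1 := Real.smoothTransition.one_of_one_le (by linarith)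
    show x + ((1 - s x) * (-(x + (3 * R0 + 7)) / 2) + s x * (-(R0 + 3))) = _
    rw [h1]
    ring
  · show z + (X z * D z.1.1) • eX d = _
    rw [hX1 z hz, one_mul]
    ext <;> simp [eX]

end Pool.Agent.Lib.H37D
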