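import Pool.Agent.Lib.H37D.DM06

/-!
# H37D DM07: the shears in the directions of `y` and `w`
-/

open Set Filter Topology
open scoped ContDiff

namespace Pool.Agent.Lib.H37D

open Pool.Agent.Lib.H37N

variable {d : ℕ}

/-- the transition function of the scalings: `1` for `x ≤ -R0 - 2`, `0` for `x ≥ -R0 - 1` -/
noncomputable def rhoS (R0 x : ℝ) : ℝ := Real.smoothTransition (-R0 - 1 - x)

/-- the scaling factor of `w_k` -/
noncomputable def nuS (d : ℕ) (R0 : ℝ) (k : Fin d) (x : ℝ) : ℝ :=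
  (1 - rhoS R0 x) * (1 / awk d k) + rhoS R0 x * (1 / 2)

theorem rhoS_smooth (R0 : ℝ) : ContDiff ℝ ∞ (rhoS R0) :=
  Real.smoothTransition.contDiff.comp (contDiff_const.sub contDiff_id)

theorem rhoS_mem (R0 x : ℝ) : 0 ≤ rhoS R0 x ∧ rhoS R0 x ≤ 1 :=
  ⟨Real.smoothTransition.nonneg _, Real.smoothTransition.le_one _⟩

theorem rhoS_one {R0 x : ℝ} (h : x ≤ -R0 - 2) : rhoS R0 x = 1 :=
  Real.smoothTransition.one_of_one_le (by linarith)

theorem rhoS_zero {R0 x : ℝ} (h : -R0 - 1 ≤ x) : rhoS R0 x = 0 :=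
  Real.smoothTransition.zero_of_nonpos (by linarith)

theorem awk_bounds (k : Fin d) : 9 / 10 ^ 8 ≤ awk d k ∧ awk d k ≤ 1 / 10 ^ 7 := by
  have hd : (0 : ℝ) < (d : ℝ) + 1 := by positivity
  have hk1 : (k : ℝ) + 1 ≤ d := by
    have := k.2
    exact_mod_cast this
  have hk0 : (0 : ℝ) ≤ (k : ℝ) := Nat.cast_nonneg _
  unfold awk aw
  have h1 : ((k : ℝ) + 1) / (10 * ((d : ℝ) + 1)) ≤ 1 / 10 := by
    rw [div_le_div_iff₀ (by positivity) (by norm_num)]
    linarith
  have h2 : 0 ≤ ((k : ℝ) + 1) / (10 * ((d : ℝ) + 1)) := by positivity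
  constructor
  · norm_num
    linarith
  · norm_num
    linarith

theorem awk_inv (k : Fin d) : 10 ^ 7 ≤ 1 / awk d k ∧ 1 / awk d k ≤ 12 / 10 * 10 ^ 7 := by
  obtain ⟨h1, h2⟩ := awk_bounds k
  have h0 : 0 < awk d k := lt_of_lt_of_le (by norm_num) h1
  constructor
  · rw [le_div_iff₀ h0]
    norm_num at h2 ⊢
    linarith
  · rw [div_le_iff₀ h0]
    norm_num at h1 ⊢
    linarith

theorem nuS_mem (R0 : ℝ) (k : Fin d) (x : ℝ) : 1 / 2 ≤ nuS d R0 k x ∧ nuS d R0 k x ≤ 12 / 10 * 10 ^ 7 := by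
  obtain ⟨h1, h2⟩ := awk_inv k
  obtain ⟨h3, h4⟩ := rhoS_mem R0 x
  unfold nuS
  constructor <;> nlinarith

theorem dm_Sy (d : ℕ) (R0 C : ℝ) : ∃ S Si : En d → En d, IsCD S Si ∧
    ∀ z : En d, ‖z‖ ≤ C → S z = ((z.1.1, (1 - rhoS R0 z.1.1 / 2) * z.1.2), z.2) := by
  obtain ⟨X, hX, hX01, hX1, hXr, -, hXy, -⟩ := cutX d C (η := 1 / 4) (by positivity)
  have hg : ContDiff ℝ ∞ (fun z : En d => z.1.2 * (-(rhoS R0 z.1.1 / 2))) :=
    (contDiff_snd.comp contDiff_fst).mul
      (((rhoS_smooth R0).comp (contDiff_fst.comp contDiff_fst)).div_const 2).neg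
  obtain ⟨Φi, hΦ⟩ := shear_cut (X := X) (g := fun z : En d => z.1.2 * (-(rhoS R0 z.1.1 / 2)))
    (c := fun z => z.1.2) (u := eY d) (K := 1) hX hX01 hXr hXy hg
    (fun z => by
      have h1 := dm02_dir (χ := fun t => t) contDiff_id hg (z := z) (u := eY d) (c := z.1.2)
        (q := -(rhoS R0 z.1.1 / 2)) (fun t => by simp [eY])
      rw [h1]
      have h2 : deriv (fun t : ℝ => t) z.1.2 = 1 := (hasDerivAt_id _).deriv
      rw [h2]
      have := (rhoS_mem R0 z.1.1).2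
      linarith)
    (fun z => by
      obtain ⟨h3, h4⟩ := rhoS_mem R0 z.1.1
      rw [abs_mul, abs_neg, abs_of_nonneg (by linarith : 0 ≤ rhoS R0 z.1.1 / 2)]
      have := abs_nonneg z.1.2
      nlinarith)
    zero_le_one (by norm_num)
  refine ⟨_, Φi, hΦ, fun z hz => ?_⟩
  show z + (X z * (z.1.2 * (-(rhoS R0 z.1.1 / 2)))) • eY d = _
  rw [hX1 z hz, one_mul]
  ext
  · simp [eY]
  · simp [eY]
    ring
  · simp [eY]

theorem dm_Swk (d : ℕ) (R0 C : ℝ) (k : Fin d) : ∃ S Si : En d → En d, IsCD S Si ∧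
    ∀ z : En d, ‖z‖ ≤ C → S z = (z.1, Function.update z.2 k (nuS d R0 k z.1.1 * z.2 k)) := by
  obtain ⟨X, hX, hX01, hX1, hXr, -, -, hXw⟩ := cutX d C (η := 1 / (4 * (12 / 10 * 10 ^ 7)))
    (by positivity)
  have hnu : ContDiff ℝ ∞ (nuS d R0 k) :=
    ((contDiff_const.sub (rhoS_smooth R0)).mul contDiff_const).add
      ((rhoS_smooth R0).mul contDiff_const)
  have hg : ContDiff ℝ ∞ (fun z : En d => z.2 k * (nuS d R0 k z.1.1 - 1)) :=
    ((contDiff_apply ℝ ℝ k).comp contDiff_snd).mul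
      ((hnu.comp (contDiff_fst.comp contDiff_fst)).sub contDiff_const)
  obtain ⟨Φi, hΦ⟩ := shear_cut (X := X) (g := fun z : En d => z.2 k * (nuS d R0 k z.1.1 - 1))
    (c := fun z => z.2 k) (u := eW d k) (K := 12 / 10 * 10 ^ 7) hX hX01 hXr (hXw k) hg
    (fun z => by
      have h1 := dm02_dir (χ := fun t => t) contDiff_id hg (z := z) (u := eW d k) (c := z.2 k)
        (q := nuS d R0 k z.1.1 - 1) (fun t => by simp [eW])
      rw [h1]
      have h2 : deriv (fun t : ℝ => t) (z.2 k) = 1 := (hasDerivAt_id _).deriv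
      rw [h2]
      have := (nuS_mem R0 k z.1.1).1
      linarith)
    (fun z => by
      obtain ⟨h3, h4⟩ := nuS_mem R0 k z.1.1
      have h5 : |nuS d R0 k z.1.1 - 1| ≤ 12 / 10 * 10 ^ 7 := by
        rw [abs_le]
        constructor <;> linarith
      rw [abs_mul]
      have h6 := abs_nonneg (z.2 k)
      nlinarith)
    (by norm_num) (by norm_num)
  refine ⟨_, Φi, hΦ, fun z hz => ?_⟩
  show z + (X z * (z.2 k * (nuS d R0 k z.1.1 - 1))) • eW d k = _
  rw [hX1 z hz, one_mul]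
  refine Prod.ext ?_ (funext fun j => ?_)
  · simp [eW]
  · by_cases hj : j = k
    · subst hj
      simp [eW]
      ring
    · simp [eW, hj]

theorem dm_Sw (d : ℕ) (R0 C : ℝ) (hC : 0 ≤ C) : ∃ S Si : En d → En d, IsCD S Si ∧
    ∀ z : En d, ‖z‖ ≤ C → S z = (z.1, fun k => nuS d R0 k z.1.1 * z.2 k) := by
  have key : ∀ n : ℕ, ∃ S Si : En d → En d, IsCD S Si ∧ ∀ z : En d, ‖z‖ ≤ C →
      S z = (z.1, fun k : Fin d => if (k : ℕ) < n then nuS d R0 k z.1.1 * z.2 k else z.2 k) := by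
    intro n
    induction n with
    | zero => exact ⟨_, _, IsCD.id, fun z _ => by simp⟩
    | succ n ih =>
      obtain ⟨S, Si, hS, hSz⟩ := ih
      by_cases hn : n < d
      · obtain ⟨S', Si', hS', hSz'⟩ := dm_Swk d R0 (12 / 10 * 10 ^ 7 * C) ⟨n, hn⟩
        refine ⟨_, _, hS'.comp hS, fun z hz => ?_⟩
        show S' (S z) = _
        rw [hSz z hz, hSz']
        · refine Prod.ext rfl (funext fun j => ?_)
          by_cases hj : j = ⟨n, hn⟩
          · subst hj
            simp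
          · have hj' : (j : ℕ) ≠ n := fun h => hj (Fin.ext h)
            have h1 : ((j : ℕ) < n + 1) ↔ ((j : ℕ) < n) := by omega
            simp [hj, h1]
        · rw [Prod.norm_def]
          have hz1 : ‖z.1‖ ≤ C := (norm_fst_le z).trans hz
          have hz2 : ‖z.2‖ ≤ C := (norm_snd_le z).trans hz
          refine max_le (hz1.trans (by nlinarith)) ?_
          rw [pi_norm_le_iff_of_nonneg (by positivity)]
          intro j
          have h1 : ‖z.2 j‖ ≤ C := (norm_le_pi_norm z.2 j).trans hz2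
          show ‖if (j : ℕ) < n then nuS d R0 j z.1.1 * z.2 j else z.2 j‖ ≤ _
          split_ifs
          · obtain ⟨h3, h4⟩ := nuS_mem R0 j z.1.1
            rw [norm_mul, Real.norm_eq_abs, abs_of_nonneg (by linarith)]
            exact mul_le_mul h4 h1 (norm_nonneg _) (by norm_num)
          · refine h1.trans ?_
            nlinarith
      · refine ⟨S, Si, hS, fun z hz => ?_⟩
        rw [hSz z hz]
        refine Prod.ext rfl (funext fun j => ?_)
        have h1 : (j : ℕ) < n := lt_of_lt_of_le j.2 (not_lt.1 hn)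
        have h2 : (j : ℕ) < n + 1 := by omega
        simp [h1, h2]
  obtain ⟨S, Si, hS, hSz⟩ := key d
  refine ⟨S, Si, hS, fun z hz => ?_⟩
  rw [hSz z hz]
  refine Prod.ext rfl (funext fun j => ?_)
  simp [j.2]

end Pool.Agent.Lib.H37D
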