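import Pool.Agent.Lib.H37D.DM07

/-!
# H37D DM08: the model with a source and an exit
-/

open Set Filter Topology
open scoped ContDiff

namespace Pool.Agent.Lib.H37D

open Pool.Agent.Lib.H37N

variable {d : ℕ}

/-- the source -/
def pS (d : ℕ) (R0 : ℝ) : En d := ((-(3 * R0 + 7), 0), 0)

/-- a region on which the inverse of the model is a contraction to the source -/
def CxS (d : ℕ) (R0 : ℝ) : Set (En d) :=
  {z | -(5 * R0 + 13) ≤ z.1.1 ∧ z.1.1 ≤ R0 + 1 ∧ |z.1.2| ≤ 2 * R0 + 6 ∧ ‖z.2‖ ≤ 2 * R0 + 6 ∧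
    (1 / 4 ≤ ‖z.2‖ ∨ z.1.1 ≤ -R0 - 1 / 2)}

/-- a smaller region -/
def CxS' (d : ℕ) (R0 : ℝ) : Set (En d) :=
  {z | -(5 * R0 + 12) ≤ z.1.1 ∧ z.1.1 ≤ R0 + 1 / 2 ∧ |z.1.2| ≤ 2 * R0 + 5 ∧ ‖z.2‖ ≤ 2 * R0 + 5 ∧
    (1 / 2 ≤ ‖z.2‖ ∨ z.1.1 ≤ -R0 - 1)}

/-- the exit set -/
def C1S (d : ℕ) : Set (En d) :=
  {z | -1 ≤ z.1.1 ∧ z.1.1 ≤ 2 ∧ |z.1.2| ≤ 2 ∧ 5 / 10 ^ 8 ≤ ‖z.2‖ ∧ ‖z.2‖ ≤ 1}

theorem dm08_mulw {w : Wd d} {r : ℝ} (hw : ‖w‖ ≤ r) : ‖mulw (awk d) w‖ ≤ 1 / 10 ^ 7 * r := by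
  have hr : 0 ≤ r := (norm_nonneg _).trans hw
  rw [pi_norm_le_iff_of_nonneg (by positivity)]
  intro k
  obtain ⟨h1, h2⟩ := awk_bounds k
  show ‖awk d k * w k‖ ≤ _
  rw [norm_mul, Real.norm_eq_abs, abs_of_nonneg (le_trans (by norm_num) h1)]
  exact mul_le_mul h2 ((norm_le_pi_norm w k).trans hw) (norm_nonneg _) (by norm_num)

theorem dm08_aff {i : Sy} {z : Pt} (hz : z ∈ VVo i) : -1 ≤ (Aff i z).1 ∧ (Aff i z).1 ≤ 2 ∧
    -1 ≤ (Aff i z).2 ∧ (Aff i z).2 ≤ 2 := by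
  obtain ⟨⟨h1, h2⟩, h3, h4⟩ := hz
  cases i
  · simp only [al, pw, del] at h1 h2 h3 h4
    simp only [Aff, al, pw, be, qw]
    refine ⟨?_, ?_, ?_, ?_⟩
    · rw [le_div_iff₀ (by norm_num)]; linarith
    · rw [div_le_iff₀ (by norm_num)]; linarith
    · linarith
    · linarith
  · simp only [al, pw, del] at h1 h2 h3 h4
    simp only [Aff, al, pw, be, qw]
    refine ⟨?_, ?_, ?_, ?_⟩
    · rw [le_div_iff₀ (by norm_num)]; linarith
    · rw [div_le_iff₀ (by norm_num)]; linarith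
    · linarith
    · linarith

theorem dm08_fold {z : Pt} (hz : z ∈ FFo) : -1 ≤ (Fold z).1 ∧ (Fold z).1 ≤ 2 ∧
    -1 ≤ (Fold z).2 ∧ (Fold z).2 ≤ 2 := by
  obtain ⟨⟨h1, h2⟩, h3, h4⟩ := hz
  simp only [xc, u0, del] at h1 h2 h3 h4
  simp only [Fold, xc, yc, cc, dd]
  obtain ⟨x, y⟩ := z
  simp only at h1 h2 h3 h4 ⊢
  have h5 : (x - 8005 / 10000) ^ 2 ≤ (26 / 100000) ^ 2 := by nlinarith
  have h6 : 0 ≤ (x - 8005 / 10000) ^ 2 := sq_nonneg _
  refine ⟨?_, ?_, ?_, ?_⟩ <;> linarith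

theorem modelD (d : ℕ) : ∃ (F B : En d → En d) (R0 : ℝ), (10 : ℝ) ^ 7 ≤ R0 ∧ IsCD F B ∧
    (∀ (i : Sy) (z : Pt) (w : Wd d), z ∈ VVo i → ‖w‖ ≤ 11 / 10 → F (z, w) = AffD d i (z, w)) ∧
    (∀ (z : Pt) (w : Wd d), z ∈ FFo → ‖w‖ ≤ 11 / 10 → F (z, w) = FoldD d (z, w)) ∧
    (∀ z ∈ CxS d R0, B z = pS d R0 + (1 / 2 : ℝ) • (z - pS d R0)) ∧
    ∀ z ∈ C1S d, B z ∈ CxS' d R0 := by
  obtain ⟨Φ, Φi, R1, hΦ, hΦ2, hΦs, hΦV, hΦF⟩ := dm_planar d
  set R0 : ℝ := max R1 (10 ^ 7) with hR0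
  have hR7 : (10 : ℝ) ^ 7 ≤ R0 := le_max_right _ _
  have hR4 : (4 : ℝ) ≤ R0 := le_trans (by norm_num) hR7
  have hΦs' : ∀ z : En d, R0 ≤ ‖z.1‖ → Φ z = z := fun z hz => hΦs z ((le_max_left _ _).trans hz)
  set C : ℝ := 6 * R0 + 16 with hC
  have hC0 : 0 ≤ C := by linarith
  obtain ⟨T, Ti, hT, hT1, hT2, hT3, hT4⟩ := dm_T d R0 C hR4
  obtain ⟨Sx, Sxi, β, hSx, hβ, hβ1, hβ2, hSx1⟩ := dm_Sx d R0 C hR4
  obtain ⟨Sy', Syi, hSy, hSy1⟩ := dm_Sy d R0 C
  obtain ⟨Sw, Swi, hSw, hSw1⟩ := dm_Sw d R0 C hC0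
  have hB := hΦ.symm.comp (hSw.comp (hSy.comp (hSx.comp hT)))
  -- the explicit part of B
  have hBx : ∀ z : En d, ‖T z‖ ≤ C → |β (T z).1.1| ≤ C →
      Φi (Sw (Sy' (Sx (T z)))) = Φi ((β (T z).1.1, (1 - rhoS R0 (β (T z).1.1) / 2) * (T z).1.2),
        fun k => nuS d R0 k (β (T z).1.1) * (T z).2 k) := by
    intro z h1 h2
    have h3 : ‖(T z).1‖ ≤ C := (norm_fst_le _).trans h1
    have h4 : ‖(T z).2‖ ≤ C := (norm_snd_le _).trans h1
    have h5 : |(T z).1.2| ≤ C := (norm_snd_le (T z).1).trans h3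
    rw [hSx1 _ h1]
    have h6 : ‖(((β (T z).1.1, (T z).1.2), (T z).2) : En d)‖ ≤ C := by
      rw [Prod.norm_def, Prod.norm_def]
      exact max_le (max_le h2 h5) h4
    rw [hSy1 _ h6]
    have h7 : ‖(((β (T z).1.1, (1 - rhoS R0 (β (T z).1.1) / 2) * (T z).1.2), (T z).2) : En d)‖ ≤ C := by
      rw [Prod.norm_def, Prod.norm_def]
      refine max_le (max_le h2 ?_) h4
      obtain ⟨h8, h9⟩ := rhoS_mem R0 (β (T z).1.1)
      show |(1 - rhoS R0 (β (T z).1.1) / 2) * (T z).1.2| ≤ C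
      rw [abs_mul, abs_of_nonneg (by linarith)]
      have h10 := abs_nonneg (T z).1.2
      nlinarith
    rw [hSw1 _ h7]
  -- the images of the strips
  have hFB : ∀ (q : Pt) (z : Pt) (w : Wd d), ‖w‖ ≤ 11 / 10 → Φ (z, w) = (q, w) → -1 ≤ q.1 → q.1 ≤ 2 →
      -1 ≤ q.2 → q.2 ≤ 2 → Φi (Sw (Sy' (Sx (T (q, mulw (awk d) w))))) = (z, w) := by
    intro q z w hw hq h1 h2 h3 h4
    have hm : ‖mulw (awk d) w‖ ≤ 11 / 10 ^ 8 := by
      have := dm08_mulw hw
      norm_num at this ⊢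
      linarith
    have hqn : ‖((q, mulw (awk d) w) : En d)‖ ≤ C := by
      rw [Prod.norm_def, Prod.norm_def]
      refine max_le (max_le ?_ ?_) (hm.trans (by norm_num; linarith))
      · rw [Real.norm_eq_abs, abs_le]; constructor <;> linarith
      · rw [Real.norm_eq_abs, abs_le]; constructor <;> linarith
    have hTq : T (q, mulw (awk d) w) = ((q.1 + (R0 + 3), q.2), mulw (awk d) w) := by
      rw [hT4 _ hqn (by show -R0 + 1 ≤ q.1; linarith) hm]
      ext <;> simp [eX]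
    have hb : β (q.1 + (R0 + 3)) = q.1 := by
      rw [hβ2 _ (by linarith)]
      ring
    rw [hBx]
    · rw [hTq]
      simp only [hb]
      have hr : rhoS R0 q.1 = 0 := rhoS_zero (by linarith)
      have hn : (fun k => nuS d R0 k q.1 * mulw (awk d) w k) = w := by
        funext k
        obtain ⟨h5, h6⟩ := awk_bounds k
        have h7 : awk d k ≠ 0 := (lt_of_lt_of_le (by norm_num) h5).ne'
        show nuS d R0 k q.1 * (awk d k * w k) = w k
        rw [nuS, hr]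
        field_simp
        ring
      rw [hn, hr]
      have : ((q.1, (1 - 0 / 2) * q.2) : Pt) = q := by
        ext <;> simp
      rw [this, ← hq, hΦ.left]
    · rw [hTq, Prod.norm_def, Prod.norm_def]
      refine max_le (max_le ?_ ?_) (hm.trans (by norm_num; linarith))
      · show |q.1 + (R0 + 3)| ≤ C
        rw [abs_le]; constructor <;> linarith
      · show |q.2| ≤ C
        rw [abs_le]; constructor <;> linarith
    · rw [hTq]
      show |β (q.1 + (R0 + 3))| ≤ C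
      rw [hb, abs_le]; constructor <;> linarith
  refine ⟨_, _, R0, hR7, hB.symm, ?_, ?_, ?_, ?_⟩
  · intro i z w hz hw
    obtain ⟨h1, h2, h3, h4⟩ := dm08_aff hz
    have h5 := hFB (Aff i z) z w hw (hΦV i z w hz (hw.trans (by norm_num))) h1 h2 h3 h4
    have h6 := hB.left (Aff i z, mulw (awk d) w)
    rw [h5] at h6
    exact h6
  · intro z w hz hw
    obtain ⟨h1, h2, h3, h4⟩ := dm08_fold hz
    have h5 := hFB (Fold z) z w hw (hΦF z w hz (hw.trans (by norm_num))) h1 h2 h3 h4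
    have h6 := hB.left (Fold z, mulw (awk d) w)
    rw [h5] at h6
    exact h6
  · rintro z ⟨h1, h2, h3, h4, h5⟩
    have hTz : T z = z := by
      rcases h5 with h5 | h5
      · exact hT3 z (le_trans (by norm_num) h5)
      · exact hT2 z (by linarith)
    have hβz : β z.1.1 = (z.1.1 - (3 * R0 + 7)) / 2 := hβ1 _ h2
    have hzn : ‖z‖ ≤ C := by
      rw [Prod.norm_def, Prod.norm_def]
      refine max_le (max_le ?_ ?_) (by linarith)
      · rw [Real.norm_eq_abs, abs_le]; constructor <;> linarith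
      · rw [Real.norm_eq_abs]; linarith
    show Φi (Sw (Sy' (Sx (T z)))) = _
    rw [hBx z (by rw [hTz]; exact hzn) (by
      rw [hTz, hβz, abs_le]; constructor <;> linarith)]
    rw [hTz, hβz]
    have hr : rhoS R0 ((z.1.1 - (3 * R0 + 7)) / 2) = 1 := rhoS_one (by linarith)
    have hfix : ∀ q : En d, R0 ≤ ‖q.1‖ → Φi q = q := fun q hq => by
      have := hΦ.left q
      rw [hΦs' q hq] at this
      exact this
    rw [hfix]
    · refine Prod.ext (Prod.ext ?_ ?_) (funext fun k => ?_)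
      · show (z.1.1 - (3 * R0 + 7)) / 2 = -(3 * R0 + 7) + 1 / 2 * (z.1.1 - -(3 * R0 + 7))
        ring
      · show (1 - rhoS R0 ((z.1.1 - (3 * R0 + 7)) / 2) / 2) * z.1.2 = 0 + 1 / 2 * (z.1.2 - 0)
        rw [hr]
        ring
      · show nuS d R0 k ((z.1.1 - (3 * R0 + 7)) / 2) * z.2 k = 0 + 1 / 2 * (z.2 k - 0)
        rw [nuS, hr]
        ring
    · refine le_trans ?_ (norm_fst_le _)
      show R0 ≤ |(z.1.1 - (3 * R0 + 7)) / 2|
      rw [le_abs]
      right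
      linarith
  · rintro z ⟨h1, h2, h3, h4, h5⟩
    obtain ⟨t, ht0, ht1, hTz⟩ := hT1 z
    have hTz' : T z = ((z.1.1 + t, z.1.2), z.2) := by
      rw [hTz]
      ext <;> simp [eX]
    have hb1 : β (z.1.1 + t) ≤ z.1.1 := by
      have h6 : β (z.1.1 + t) ≤ β (z.1.1 + (R0 + 3)) := hβ (by linarith)
      rw [hβ2 (z.1.1 + (R0 + 3)) (by linarith)] at h6
      linarith
    have hb2 : -(3 * R0 + 8) / 2 ≤ β (z.1.1 + t) := by
      have h6 : β z.1.1 ≤ β (z.1.1 + t) := hβ (by linarith)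
      rw [hβ1 z.1.1 (by linarith)] at h6
      linarith
    obtain ⟨h3a, h3b⟩ := abs_le.1 h3
    show Φi (Sw (Sy' (Sx (T z)))) ∈ _
    rw [hBx z (by
      rw [hTz', Prod.norm_def, Prod.norm_def]
      refine max_le (max_le ?_ ?_) (by show ‖z.2‖ ≤ C; linarith)
      · show |z.1.1 + t| ≤ C
        rw [abs_le]; constructor <;> linarith
      · show |z.1.2| ≤ C
        linarith) (by
      rw [hTz']
      show |β (z.1.1 + t)| ≤ C
      rw [abs_le]; constructor <;> linarith)]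
    rw [hTz']
    simp only
    set x := β (z.1.1 + t) with hx
    set y := (1 - rhoS R0 x / 2) * z.1.2 with hy
    set w : Wd d := fun k => nuS d R0 k x * z.2 k with hw
    obtain ⟨hr0, hr1⟩ := rhoS_mem R0 x
    have hyn : |y| ≤ 2 := by
      rw [hy, abs_mul, abs_of_nonneg (by linarith)]
      have := abs_nonneg z.1.2
      nlinarith
    have hwn : ‖w‖ ≤ 12 / 10 * 10 ^ 7 := by
      rw [pi_norm_le_iff_of_nonneg (by norm_num)]
      intro k
      obtain ⟨h6, h7⟩ := nuS_mem R0 k x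
      show ‖nuS d R0 k x * z.2 k‖ ≤ _
      rw [norm_mul, Real.norm_eq_abs, abs_of_nonneg (by linarith)]
      have h8 : ‖z.2 k‖ ≤ 1 := (norm_le_pi_norm z.2 k).trans h5
      have h9 := norm_nonneg (z.2 k)
      nlinarith
    have hwl : -R0 - 1 ≤ x → 1 / 2 ≤ ‖w‖ := by
      intro hxr
      have h6 : ∃ k, 5 / 10 ^ 8 ≤ ‖z.2 k‖ := by
        by_contra hcon
        push Not at hcon
        exact absurd ((pi_norm_lt_iff (by norm_num)).2 hcon) (not_lt.2 h4)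
      obtain ⟨k, hk⟩ := h6
      obtain ⟨h7, h8⟩ := awk_inv k
      have h9 : nuS d R0 k x = 1 / awk d k := by
        rw [nuS, rhoS_zero hxr]
        ring
      have h10 : ‖w k‖ ≤ ‖w‖ := norm_le_pi_norm w k
      have h11 : ‖w k‖ = 1 / awk d k * ‖z.2 k‖ := by
        show ‖nuS d R0 k x * z.2 k‖ = _
        rw [norm_mul, h9, Real.norm_eq_abs, abs_of_nonneg (le_trans (by norm_num) h7)]
      rw [h11] at h10
      have h12 : 10 ^ 7 * (5 / 10 ^ 8) ≤ 1 / awk d k * ‖z.2 k‖ :=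
        mul_le_mul h7 hk (by norm_num) (le_trans (by norm_num) h7)
      have h13 : (10 : ℝ) ^ 7 * (5 / 10 ^ 8) = 1 / 2 := by norm_num
      rw [h13] at h12
      linarith
    -- the planar part
    have hΦi2 : ∀ q : En d, (Φi q).2 = q.2 := fun q => by
      have := hΦ2 (Φi q)
      rw [hΦ.right] at this
      exact this.symm
    have hfix : ∀ q : En d, R0 ≤ ‖q.1‖ → Φi q = q := fun q hq => by
      have := hΦ.left q
      rw [hΦs' q hq] at this
      exact this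
    have hin : ∀ q : En d, ‖q.1‖ < R0 → ‖(Φi q).1‖ ≤ R0 := fun q hq => by
      by_contra hcon
      push Not at hcon
      have h6 := hΦs' (Φi q) hcon.le
      rw [hΦ.right] at h6
      rw [h6] at hq
      exact absurd hq (not_lt.2 hcon.le)
    have h2R : (12 / 10 * 10 ^ 7 : ℝ) ≤ 2 * R0 + 5 := by linarith
    rcases lt_or_ge ‖((x, y) : Pt)‖ R0 with hxy | hxy
    · have h6 := hin ((x, y), w) hxy
      have h7 := hΦi2 ((x, y), w)
      have h8 : |x| < R0 := lt_of_le_of_lt (norm_fst_le ((x, y) : Pt)) hxy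
      have h9 : |(Φi ((x, y), w)).1.1| ≤ R0 := (norm_fst_le _).trans h6
      have h10 : |(Φi ((x, y), w)).1.2| ≤ R0 := (norm_snd_le _).trans h6
      rw [abs_le] at h9
      have h11 := (abs_lt.1 h8).1
      refine ⟨by linarith, by linarith, by linarith, ?_, Or.inl ?_⟩
      · rw [h7]
        exact hwn.trans h2R
      · rw [h7]
        exact hwl (by linarith)
    · rw [hfix _ hxy]
      refine ⟨by show -(5 * R0 + 12) ≤ x; linarith, by show x ≤ R0 + 1 / 2; linarith,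
        by show |y| ≤ _; linarith, hwn.trans h2R, ?_⟩
      rcases le_total (-R0 - 1) x with h6 | h6
      · exact Or.inl (hwl h6)
      · exact Or.inr h6

end Pool.Agent.Lib.H37D
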