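import Pool.Agent.Lib.H37D.DM08
import Pool.Agent.Lib.H37D.MDefsD

/-!
# H37D DM09: the model in the form `ModelD`
-/

open Set Filter Topology
open scoped ContDiff

namespace Pool.Agent.Lib.H37D

open Pool.Agent.Lib.H37N

variable {d : ℕ}

theorem dm09_VVm {i : Sy} {z : Pt} (h : z ∈ VVm i) : z ∈ VVo i := by
  obtain ⟨⟨h1, h2⟩, h3, h4⟩ := h
  simp only [del] at h1 h2 h3 h4
  refine ⟨⟨?_, ?_⟩, ?_, ?_⟩ <;> simp only [del] <;> norm_num at h1 h2 h3 h4 ⊢ <;> linarith

theorem dm09_FFm {z : Pt} (h : z ∈ FFm) : z ∈ FFo := by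
  obtain ⟨⟨h1, h2⟩, h3, h4⟩ := h
  simp only [del] at h1 h2 h3 h4
  refine ⟨⟨?_, ?_⟩, ?_, ?_⟩ <;> simp only [del] <;> norm_num at h1 h2 h3 h4 ⊢ <;> linarith

theorem dm09_norm {z : En d} {R : ℝ} (h1 : |z.1.1| ≤ R) (h2 : |z.1.2| ≤ R) (h3 : ‖z.2‖ ≤ R) : ‖z‖ ≤ R := by
  rw [Prod.norm_def, Prod.norm_def]
  exact max_le (max_le h1 h2) h3

theorem dm09_ent {z : En d} {R : ℝ} (h : ‖z‖ ≤ R) : |z.1.1| ≤ R ∧ |z.1.2| ≤ R ∧ ‖z.2‖ ≤ R :=
  ⟨((norm_fst_le z.1).trans (norm_fst_le z)).trans h, ((norm_snd_le z.1).trans (norm_fst_le z)).trans h,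
    (norm_snd_le z).trans h⟩

theorem dm09_ball {R0 : ℝ} (hR : (10 : ℝ) ^ 7 ≤ R0) {z : En d} (hz : ‖z - pS d R0‖ ≤ 2 * R0 + 5) :
    z ∈ CxS d R0 := by
  norm_num at hR
  obtain ⟨h1, h2, h3⟩ := dm09_ent hz
  have e1 : (z - pS d R0).1.1 = z.1.1 + (3 * R0 + 7) := by
    show z.1.1 - -(3 * R0 + 7) = _
    ring
  have e2 : (z - pS d R0).1.2 = z.1.2 := by simp [pS]
  have e3 : (z - pS d R0).2 = z.2 := by simp [pS]
  rw [e1, abs_le] at h1
  rw [e2] at h2
  rw [e3] at h3
  exact ⟨by linarith, by linarith, by linarith, by linarith, Or.inr (by linarith)⟩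

theorem dm09_half {R0 : ℝ} {B : En d → En d}
    (hB : ∀ z ∈ CxS d R0, B z = pS d R0 + (1 / 2 : ℝ) • (z - pS d R0)) {z : En d} (hz : z ∈ CxS d R0)
    {ρ : ℝ} (h : ‖z - pS d R0‖ ≤ 2 * ρ) : ‖B z - pS d R0‖ ≤ ρ := by
  rw [hB z hz, add_sub_cancel_left, norm_smul, Real.norm_eq_abs, abs_of_pos (by norm_num : (0 : ℝ) < 1 / 2)]
  linarith

theorem exists_modelD (d : ℕ) : ∃ (F B : En d → En d) (p : En d) (rho r : ℝ), 4 ≤ r ∧ ModelD F B p rho r := by
  obtain ⟨F, B, R0, hR, hFB, hV, hF, hC, hE⟩ := modelD d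
  obtain ⟨r, hr⟩ := hFB.supp
  have hR7 := hR
  norm_num at hR7
  refine ⟨F, B, pS d R0, 2 * R0 + 5, max r (6 * R0), le_trans (by linarith) (le_max_right _ _), ?_⟩
  refine
    { smooth := hFB.smooth
      smooth_B := hFB.smoothi
      left := hFB.left
      right := hFB.right
      supp := fun z hz => hr z ((le_max_left _ _).trans hz)
      hV := fun i z hz hw => hV i z.1 z.2 (dm09_VVm hz) (hw.trans (by norm_num))
      hF := fun z hz hw => hF z.1 z.2 (dm09_FFm hz) (hw.trans (by norm_num))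
      rho_pos := by linarith
      sub := fun z hz => ?_
      lin := fun z hz => hC z (dm09_ball hR (mem_closedBall_iff_norm.1 hz))
      far := ?_
      exit := fun z h1 h2 h3 h4 => ?_ }
  · rw [mem_ball_zero_iff]
    obtain ⟨h1, h2, h3, h4, -⟩ := dm09_ball hR (mem_closedBall_iff_norm.1 hz)
    have h5 : ‖z‖ ≤ 5 * R0 + 13 :=
      dm09_norm (abs_le.2 ⟨by linarith, by linarith⟩) (by linarith) (by linarith)
    refine lt_of_le_of_lt h5 (lt_of_lt_of_le ?_ (le_max_right _ _))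
    linarith
  · rw [Set.disjoint_left]
    intro z hz hzO
    have h1 := (dm09_ent (mem_closedBall_iff_norm.1 hz)).1
    have e1 : (z - pS d R0).1.1 = z.1.1 + (3 * R0 + 7) := by
      show z.1.1 - -(3 * R0 + 7) = _
      ring
    rw [e1, abs_le] at h1
    have h2 : -1 ≤ z.1.1 := by
      obtain ⟨(h | h) | h, -⟩ := hzO
      · have h3 := (interior_subset h).1.1
        simp only [al, del] at h3
        linarith
      · have h3 := (interior_subset h).1.1
        simp only [al, del] at h3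
        linarith
      · have h3 := (interior_subset h).1.1
        simp only [xc, u0] at h3
        linarith
    linarith
  · simp only [del, mem_Icc] at h1 h2
    norm_num at h1 h2
    have hz : z ∈ C1S d := ⟨by linarith, by linarith, abs_le.2 ⟨by linarith, by linarith⟩, h3, h4⟩
    obtain ⟨k1, k2, k3, k4, k5⟩ := hE z hz
    have hz1 : B z ∈ CxS d R0 := by
      refine ⟨by linarith, by linarith, by linarith, by linarith, ?_⟩
      rcases k5 with k5 | k5
      · exact Or.inl (by linarith)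
      · exact Or.inr (by linarith)
    have e1 : (B z - pS d R0).1.1 = (B z).1.1 + (3 * R0 + 7) := by
      show (B z).1.1 - -(3 * R0 + 7) = _
      ring
    have e2 : (B z - pS d R0).1.2 = (B z).1.2 := by simp [pS]
    have e3 : (B z - pS d R0).2 = (B z).2 := by simp [pS]
    have hn1 : ‖B z - pS d R0‖ ≤ 2 * (2 * R0 + 4) := by
      refine dm09_norm ?_ ?_ ?_
      · rw [e1, abs_le]
        constructor <;> linarith
      · rw [e2]
        linarith
      · rw [e3]
        linarith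
    have hn2 := dm09_half hC hz1 hn1
    have hz2 : B (B z) ∈ CxS d R0 := dm09_ball hR (by linarith)
    have hn3 := dm09_half hC hz2 (ρ := R0 + 2) (by linarith)
    show B (B (B z)) ∈ _
    rw [mem_ball_iff_norm]
    linarith

end Pool.Agent.Lib.H37D
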