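import Pool.Agent.Lib.H37D.MDefsD

/-!
# H37D DM4: the backward step near an orbit in the region `Omd`
-/

open Set Filter Topology
open scoped ContDiff Manifold

namespace Pool.Agent.Lib.H37D

open Pool.Agent.Lib.H37N

variable {d : ℕ}

theorem dm4_Om {z : Pt} (hz : z ∈ Om) : z.1 ∈ Icc (-del) (1 + del) ∧ z.2 ∈ Icc (-del) (1 + del) := by
  rcases hz with (hz | hz) | hz
  · have := interior_subset hz
    obtain ⟨⟨h1, h2⟩, h3, h4⟩ := this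
    simp only [al, pw, del] at h1 h2 h3 h4 ⊢
    exact ⟨⟨by linarith, by linarith⟩, ⟨by linarith, by linarith⟩⟩
  · have := interior_subset hz
    obtain ⟨⟨h1, h2⟩, h3, h4⟩ := this
    simp only [al, pw, del] at h1 h2 h3 h4 ⊢
    exact ⟨⟨by linarith, by linarith⟩, ⟨by linarith, by linarith⟩⟩
  · have := interior_subset hz
    obtain ⟨⟨h1, h2⟩, h3, h4⟩ := this
    simp only [xc, u0, del] at h1 h2 h3 h4 ⊢
    exact ⟨⟨by linarith, by linarith⟩, ⟨by linarith, by linarith⟩⟩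

/-- the inverse of `Aff i` -/
noncomputable def iA (i : Sy) (x : Pt) : Pt := (al i + pw i * x.1, (x.2 - be i) / qw i)

/-- the inverse of `Fold` -/
noncomputable def iF (x : Pt) : Pt := (xc + yc - x.2, 1 / 2 + 2 * (x.1 - 1 / 2) + 2 * dd * (x.2 - yc) ^ 2)

/-- the inverse of `mulw (awk d)` -/
noncomputable def iW (d : ℕ) (w : Wd d) : Wd d := fun k => w k / awk d k

theorem dm4_awk (k : Fin d) : 9 / 10 ^ 8 ≤ awk d k ∧ awk d k ≤ 1 / 10 ^ 7 := by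
  have hk : ((k : ℕ) : ℝ) + 1 ≤ d := by
    have := k.2
    exact_mod_cast this
  have hk0 : (0 : ℝ) ≤ ((k : ℕ) : ℝ) := Nat.cast_nonneg _
  have hd : (0 : ℝ) ≤ d := Nat.cast_nonneg _
  have h1 : (((k : ℕ) : ℝ) + 1) / (10 * ((d : ℝ) + 1)) ≤ 1 / 10 := by
    rw [div_le_div_iff₀ (by positivity) (by norm_num)]
    linarith
  have h2 : 0 ≤ (((k : ℕ) : ℝ) + 1) / (10 * ((d : ℝ) + 1)) := by positivity
  unfold awk aw
  constructor
  · nlinarith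
  · nlinarith

theorem dm4_mulW (w : Wd d) : mulw (awk d) (iW d w) = w := by
  funext k
  show awk d k * (w k / awk d k) = w k
  have h := (dm4_awk k).1
  rw [mul_div_cancel₀]
  have : (0 : ℝ) < 9 / 10 ^ 8 := by norm_num
  linarith

theorem dm4_iW_sub (w w' : Wd d) : iW d w - iW d w' = iW d (w - w') := by
  funext k
  show w k / awk d k - w' k / awk d k = (w k - w' k) / awk d k
  rw [sub_div]

theorem dm4_iW_le (w : Wd d) : ‖iW d w‖ ≤ 112 * 10 ^ 5 * ‖w‖ := by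
  rw [pi_norm_le_iff_of_nonneg (by positivity)]
  intro k
  show ‖w k / awk d k‖ ≤ _
  obtain ⟨h1, h2⟩ := dm4_awk k
  have h0 : 0 < awk d k := lt_of_lt_of_le (by norm_num) h1
  rw [norm_div, Real.norm_eq_abs (awk d k), abs_of_pos h0, div_le_iff₀ h0]
  have h3 := norm_le_pi_norm w k
  have h4 := norm_nonneg w
  nlinarith

theorem dm4_iW_ge (w : Wd d) : 10 ^ 7 * ‖w‖ ≤ ‖iW d w‖ := by
  have h : ‖w‖ ≤ 1 / 10 ^ 7 * ‖iW d w‖ := by
    rw [pi_norm_le_iff_of_nonneg (by positivity)]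
    intro k
    have h1 := norm_le_pi_norm (iW d w) k
    obtain ⟨h2, h3⟩ := dm4_awk k
    have h0 : 0 < awk d k := lt_of_lt_of_le (by norm_num) h2
    have h4 : ‖w k‖ = awk d k * ‖iW d w k‖ := by
      have h5 : w k = awk d k * iW d w k := (congrFun (dm4_mulW w) k).symm
      rw [h5, norm_mul, Real.norm_eq_abs (awk d k), abs_of_pos h0]
    rw [h4]
    have h6 := norm_nonneg (iW d w k)
    nlinarith
  linarith

theorem dm4_AffA (i : Sy) (x : Pt) : Aff i (iA i x) = x := by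
  cases i <;> (refine Prod.ext ?_ ?_ <;> simp only [Aff, iA, al, pw, be, qw] <;> ring)

theorem dm4_AAff (i : Sy) (x : Pt) : iA i (Aff i x) = x := by
  cases i <;> (refine Prod.ext ?_ ?_ <;> simp only [Aff, iA, al, pw, be, qw] <;> ring)

theorem dm4_FoldF (x : Pt) : Fold (iF x) = x := by
  refine Prod.ext ?_ ?_ <;> simp only [Fold, iF, xc, yc, cc, dd] <;> ring

theorem dm4_FFold (x : Pt) : iF (Fold x) = x := by
  refine Prod.ext ?_ ?_ <;> simp only [Fold, iF, xc, yc, cc, dd] <;> ring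

theorem dm4_iA_lip (i : Sy) (x x' : Pt) : ‖iA i x - iA i x'‖ ≤ 3 * ‖x - x'‖ := by
  have h1 : |x.1 - x'.1| ≤ ‖x - x'‖ := norm_fst_le (x - x')
  have h2 : |x.2 - x'.2| ≤ ‖x - x'‖ := norm_snd_le (x - x')
  have h0 := norm_nonneg (x - x')
  rw [abs_le] at h1 h2
  rw [Prod.norm_def]
  cases i
  · refine max_le ?_ ?_
    · show |(al Sy.P + pw Sy.P * x.1) - (al Sy.P + pw Sy.P * x'.1)| ≤ _
      simp only [al, pw]
      rw [abs_le]
      constructor <;> nlinarith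
    · show |((x.2 - be Sy.P) / qw Sy.P) - ((x'.2 - be Sy.P) / qw Sy.P)| ≤ _
      simp only [be, qw]
      rw [abs_le]
      constructor <;> nlinarith
  · refine max_le ?_ ?_
    · show |(al Sy.Q + pw Sy.Q * x.1) - (al Sy.Q + pw Sy.Q * x'.1)| ≤ _
      simp only [al, pw]
      rw [abs_le]
      constructor <;> nlinarith
    · show |((x.2 - be Sy.Q) / qw Sy.Q) - ((x'.2 - be Sy.Q) / qw Sy.Q)| ≤ _
      simp only [be, qw]
      rw [abs_le]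
      constructor <;> nlinarith

theorem dm4_iF_lip {x x' : Pt} (hx : |x.2 - yc| ≤ 255 / 10 ^ 6) (hx' : |x'.2 - yc| ≤ 255 / 10 ^ 6) :
    ‖iF x - iF x'‖ ≤ 2600 * ‖x - x'‖ := by
  have h1 : |x.1 - x'.1| ≤ ‖x - x'‖ := norm_fst_le (x - x')
  have h2 : |x.2 - x'.2| ≤ ‖x - x'‖ := norm_snd_le (x - x')
  have h0 := norm_nonneg (x - x')
  rw [Prod.norm_def]
  refine max_le ?_ ?_
  · show |(xc + yc - x.2) - (xc + yc - x'.2)| ≤ _
    rw [abs_le] at h2 ⊢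
    constructor <;> nlinarith
  · show |(1 / 2 + 2 * (x.1 - 1 / 2) + 2 * dd * (x.2 - yc) ^ 2) -
      (1 / 2 + 2 * (x'.1 - 1 / 2) + 2 * dd * (x'.2 - yc) ^ 2)| ≤ _
    have e : (1 / 2 + 2 * (x.1 - 1 / 2) + 2 * dd * (x.2 - yc) ^ 2) -
      (1 / 2 + 2 * (x'.1 - 1 / 2) + 2 * dd * (x'.2 - yc) ^ 2) =
        2 * (x.1 - x'.1) + 2 * dd * (((x.2 - yc) + (x'.2 - yc)) * (x.2 - x'.2)) := by ring
    rw [e]
    have h3 : |((x.2 - yc) + (x'.2 - yc)) * (x.2 - x'.2)| ≤ (510 / 10 ^ 6) * ‖x - x'‖ := by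
      rw [abs_mul]
      refine mul_le_mul ?_ h2 (abs_nonneg _) (by norm_num)
      refine (abs_add_le _ _).trans ?_
      linarith
    rw [abs_le] at h1 h3 ⊢
    simp only [dd]
    constructor <;> nlinarith

theorem dm4_VVm {i : Sy} {z z' : Pt} (hz : z ∈ VV i) (h : ‖z' - z‖ ≤ 1 / 10 ^ 6) : z' ∈ VVm i := by
  have h1 : |z'.1 - z.1| ≤ 1 / 10 ^ 6 := (norm_fst_le (z' - z)).trans h
  have h2 : |z'.2 - z.2| ≤ 1 / 10 ^ 6 := (norm_snd_le (z' - z)).trans h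
  obtain ⟨⟨h3, h4⟩, h5, h6⟩ := hz
  rw [abs_le] at h1 h2
  exact ⟨⟨by linarith, by linarith⟩, by linarith, by linarith⟩

theorem dm4_FFm {z z' : Pt} (hz : z ∈ FF) (h : ‖z' - z‖ ≤ 1 / 10 ^ 6) : z' ∈ FFm := by
  have h1 : |z'.1 - z.1| ≤ 1 / 10 ^ 6 := (norm_fst_le (z' - z)).trans h
  have h2 : |z'.2 - z.2| ≤ 1 / 10 ^ 6 := (norm_snd_le (z' - z)).trans h
  obtain ⟨⟨h3, h4⟩, h5, h6⟩ := hz
  rw [abs_le] at h1 h2
  exact ⟨⟨by linarith, by linarith⟩, by linarith, by linarith⟩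

/-- the inverse of the model near the orbit -/
theorem dm4_B {F B : En d → En d} {p : En d} {rho r : ℝ} (h : ModelD F B p rho r) {g : En d → En d}
    (hg : NearD g) {y' y x : En d} (hy' : y' ∈ Omd d) (hyy : g y' = y) (hw : ‖y.2‖ ≤ 2 / 10 ^ 12)
    (hD1 : ‖(x - y).1‖ ≤ 1 / 10 ^ 7 * ‖(x - y).2‖) (hD2 : ‖(x - y).2‖ ≤ 6 / 10 ^ 8) :
    (B x - B y).2 = iW d (x - y).2 ∧ ‖(B x - B y).1‖ ≤ 2600 * ‖(x - y).1‖ := by
  have hD3 : ‖(x - y).1‖ ≤ 6 / 10 ^ 15 := by linarith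
  have hxw : ‖x.2‖ ≤ 61 / 10 ^ 9 := by
    have h1 : x.2 = (x - y).2 + y.2 := by simp
    rw [h1]
    refine (norm_add_le _ _).trans ?_
    norm_num at hD2 hw ⊢
    linarith
  have hyw : ‖y.2‖ ≤ 61 / 10 ^ 9 := hw.trans (by norm_num)
  have hiW : ∀ w : Wd d, ‖w‖ ≤ 61 / 10 ^ 9 → ‖iW d w‖ ≤ 21 / 20 := by
    intro w hw
    have := dm4_iW_le w
    norm_num at hw this ⊢
    linarith
  have key : ∀ u : Pt → Pt, B x = (u x.1, iW d x.2) → B y = (u y.1, iW d y.2) →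
      ‖u x.1 - u y.1‖ ≤ 2600 * ‖x.1 - y.1‖ →
      (B x - B y).2 = iW d (x - y).2 ∧ ‖(B x - B y).1‖ ≤ 2600 * ‖(x - y).1‖ := by
    intro u hx hy hu
    rw [hx, hy]
    exact ⟨dm4_iW_sub x.2 y.2, hu⟩
  have hcase : (∃ i, y' ∈ VVd d i) ∨ y' ∈ FFd d := by
    obtain ⟨h1, h2⟩ := hy'
    have h3 : y'.2 ∈ BW d := Metric.ball_subset_closedBall h2
    rcases h1 with (h1 | h1) | h1
    · exact Or.inl ⟨Sy.P, interior_subset h1, h3⟩
    · exact Or.inl ⟨Sy.Q, interior_subset h1, h3⟩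
    · exact Or.inr ⟨interior_subset h1, h3⟩
  rcases hcase with ⟨i, hi⟩ | hi
  · obtain ⟨h1, h2⟩ := hg.close0 i y' hi
    rw [hyy] at h1 h2
    have h3 : ‖y.1 - Aff i y'.1‖ ≤ e0 := max_le h1 h2
    have h4 : ‖iA i y.1 - y'.1‖ ≤ 3 * e0 := by
      have h5 := dm4_iA_lip i y.1 (Aff i y'.1)
      rw [dm4_AAff] at h5
      linarith
    have h6 : ‖iA i x.1 - y'.1‖ ≤ 1 / 10 ^ 6 := by
      have h7 := dm4_iA_lip i x.1 y.1
      have h8 : ‖x.1 - y.1‖ ≤ 6 / 10 ^ 15 := hD3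
      have h9 : ‖iA i x.1 - y'.1‖ ≤ ‖iA i x.1 - iA i y.1‖ + ‖iA i y.1 - y'.1‖ := norm_sub_le_norm_sub_add_norm_sub _ _ _
      simp only [e0] at h4
      norm_num at h4 h8 ⊢
      linarith
    have hB : ∀ z : En d, ‖iA i z.1 - y'.1‖ ≤ 1 / 10 ^ 6 → ‖z.2‖ ≤ 61 / 10 ^ 9 → B z = (iA i z.1, iW d z.2) := by
      intro z hz1 hz2
      have h10 : F (iA i z.1, iW d z.2) = z := by
        rw [h.hV i _ (dm4_VVm hi.1 hz1) (hiW _ hz2)]
        show (Aff i (iA i z.1), mulw (awk d) (iW d z.2)) = z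
        rw [dm4_AffA, dm4_mulW]
      rw [← h10, h.left, h10]
    refine key (iA i) (hB x h6 hxw) (hB y (h4.trans (by norm_num [e0])) hyw) ?_
    have h7 := dm4_iA_lip i x.1 y.1
    have h8 := norm_nonneg (x.1 - y.1)
    linarith
  · obtain ⟨h1, h2⟩ := hg.fold0 y' hi
    rw [hyy] at h1 h2
    have h3 : ‖y.1 - Fold y'.1‖ ≤ e0 := max_le h1 h2
    have hFy : |(Fold y'.1).2 - yc| ≤ 250 / 10 ^ 6 := by
      obtain ⟨⟨h4, h5⟩, -⟩ := hi.1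
      show |(yc - (y'.1.1 - xc)) - yc| ≤ _
      simp only [u0] at h4 h5
      rw [abs_le]
      constructor <;> norm_num at h4 h5 ⊢ <;> linarith
    have hyy2 : |y.1.2 - yc| ≤ 251 / 10 ^ 6 := by
      have h4 : |y.1.2 - (Fold y'.1).2| ≤ e0 := h2
      simp only [e0] at h4
      rw [abs_le] at h4 hFy ⊢
      constructor <;> norm_num at h4 hFy ⊢ <;> linarith
    have hxx2 : |x.1.2 - yc| ≤ 255 / 10 ^ 6 := by
      have h4 : |x.1.2 - y.1.2| ≤ 6 / 10 ^ 15 := (norm_snd_le (x - y).1).trans hD3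
      rw [abs_le] at h4 hyy2 ⊢
      constructor <;> norm_num at h4 hyy2 ⊢ <;> linarith
    have h4 : ‖iF y.1 - y'.1‖ ≤ 2600 * e0 := by
      have h5 := dm4_iF_lip (x := y.1) (x' := Fold y'.1) (hyy2.trans (by norm_num)) (hFy.trans (by norm_num))
      rw [dm4_FFold] at h5
      linarith
    have h5 := dm4_iF_lip (x := x.1) (x' := y.1) hxx2 (hyy2.trans (by norm_num))
    have h6 : ‖iF x.1 - y'.1‖ ≤ 1 / 10 ^ 6 := by
      have h8 : ‖x.1 - y.1‖ ≤ 6 / 10 ^ 15 := hD3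
      have h9 : ‖iF x.1 - y'.1‖ ≤ ‖iF x.1 - iF y.1‖ + ‖iF y.1 - y'.1‖ := norm_sub_le_norm_sub_add_norm_sub _ _ _
      simp only [e0] at h4
      norm_num at h4 h8 ⊢
      linarith
    have hB : ∀ z : En d, ‖iF z.1 - y'.1‖ ≤ 1 / 10 ^ 6 → ‖z.2‖ ≤ 61 / 10 ^ 9 → B z = (iF z.1, iW d z.2) := by
      intro z hz1 hz2
      have h10 : F (iF z.1, iW d z.2) = z := by
        rw [h.hF _ (dm4_FFm hi.1 hz1) (hiW _ hz2)]
        show (Fold (iF z.1), mulw (awk d) (iW d z.2)) = z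
        rw [dm4_FoldF, dm4_mulW]
      rw [← h10, h.left, h10]
    exact key iF (hB x h6 hxw) (hB y (h4.trans (by norm_num [e0])) hyw) h5

/-- the backward step near the orbit -/
theorem dm4_step {F B : En d → En d} {p : En d} {rho r : ℝ} (h : ModelD F B p rho r) {g b : En d → En d}
    (hg : NearD g) {K : Set (En d)} (hKc : Convex ℝ K) (hK2 : Metric.closedBall 0 2 ⊆ K) {ε : ℝ}
    (hε : ε ≤ 1 / 10 ^ 4) (hbd : ∀ z ∈ K, DifferentiableAt ℝ b z)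
    (hb1 : ∀ z ∈ K, ‖fderiv ℝ b z - fderiv ℝ B z‖ ≤ ε)
    {y' y x : En d} (hy' : y' ∈ Omd d) (hy : y ∈ Omd d) (hyy : g y' = y) (hby : b y = y')
    (hw : ‖y.2‖ ≤ 2 / 10 ^ 12)
    (hD1 : ‖(x - y).1‖ ≤ 1 / 10 ^ 7 * ‖(x - y).2‖) (hD2 : ‖(x - y).2‖ ≤ 6 / 10 ^ 8) :
    ‖(b x - y').1‖ ≤ 1 / 10 ^ 7 * ‖(b x - y').2‖ ∧ 8 * 10 ^ 6 * ‖(x - y).2‖ ≤ ‖(b x - y').2‖ ∧
      ‖(b x - y').2‖ ≤ 12 * 10 ^ 6 * ‖(x - y).2‖ := by
  obtain ⟨hB2, hB1⟩ := dm4_B h hg hy' hyy hw hD1 hD2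
  have hD0 := norm_nonneg (x - y).2
  have hDn : ‖x - y‖ = ‖(x - y).2‖ := by
    rw [Prod.norm_def]
    exact max_eq_right (by linarith)
  have hy2 : ‖y‖ ≤ 3 / 2 := by
    obtain ⟨⟨h1, h2⟩, h3, h4⟩ := dm4_Om hy.1
    simp only [del] at h1 h2 h3 h4
    rw [Prod.norm_def, Prod.norm_def, Real.norm_eq_abs, Real.norm_eq_abs]
    refine max_le (max_le ?_ ?_) (hw.trans (by norm_num))
    · rw [abs_le]; constructor <;> linarith
    · rw [abs_le]; constructor <;> linarith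
  have hyK : y ∈ K := hK2 (by rw [mem_closedBall_zero_iff]; linarith)
  have hxK : x ∈ K := hK2 (by
    rw [mem_closedBall_zero_iff]
    have h1 : ‖x‖ ≤ ‖x - y‖ + ‖y‖ := norm_le_norm_sub_add _ _
    rw [hDn] at h1
    have h2 : (6 : ℝ) / 10 ^ 8 ≤ 1 / 2 := by norm_num
    linarith)
  have hmv : ‖(b x - B x) - (b y - B y)‖ ≤ ε * ‖x - y‖ := by
    have hBd : Differentiable ℝ B := h.smooth_B.differentiable (by simp)
    have h1 : ∀ z ∈ K, HasFDerivWithinAt (fun z => b z - B z) (fderiv ℝ b z - fderiv ℝ B z) K z :=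
      fun z hz => ((hbd z hz).hasFDerivAt.sub (hBd z).hasFDerivAt).hasFDerivWithinAt
    exact hKc.norm_image_sub_le_of_norm_hasFDerivWithin_le h1 hb1 hyK hxK
  rw [hDn, hby] at hmv
  set E : En d := (b x - B x) - (y' - B y) with hE
  have hbx : b x - y' = (B x - B y) + E := by rw [hE]; abel
  have hE1 : ‖E.1‖ ≤ ε * ‖(x - y).2‖ := (norm_fst_le E).trans hmv
  have hE2 : ‖E.2‖ ≤ ε * ‖(x - y).2‖ := (norm_snd_le E).trans hmv
  have e1 : (b x - y').1 = (B x - B y).1 + E.1 := by rw [hbx]; rfl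
  have e2 : (b x - y').2 = iW d (x - y).2 + E.2 := by rw [hbx, ← hB2]; rfl
  have l1 : ‖(b x - y').1‖ ≤ 2600 * ‖(x - y).1‖ + ε * ‖(x - y).2‖ := by
    rw [e1]
    exact (norm_add_le _ _).trans (add_le_add hB1 hE1)
  have l2 : ‖(b x - y').2‖ ≤ 112 * 10 ^ 5 * ‖(x - y).2‖ + ε * ‖(x - y).2‖ := by
    rw [e2]
    exact (norm_add_le _ _).trans (add_le_add (dm4_iW_le _) hE2)
  have l3 : 10 ^ 7 * ‖(x - y).2‖ - ε * ‖(x - y).2‖ ≤ ‖(b x - y').2‖ := by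
    rw [e2]
    have h1 := dm4_iW_ge (d := d) (x - y).2
    have h2 : ‖iW d (x - y).2‖ ≤ ‖iW d (x - y).2 + E.2‖ + ‖E.2‖ := by
      have := norm_sub_le (iW d (x - y).2 + E.2) E.2
      rwa [add_sub_cancel_right] at this
    linarith
  have l4 : ε * ‖(x - y).2‖ ≤ 1 / 10 ^ 4 * ‖(x - y).2‖ := mul_le_mul_of_nonneg_right hε hD0
  have fin : ∀ X1 X2 D1 D2 P : ℝ, 0 ≤ D2 → X1 ≤ 2600 * D1 + P → X2 ≤ 112 * 10 ^ 5 * D2 + P → 10 ^ 7 * D2 - P ≤ X2 →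
      P ≤ 1 / 10 ^ 4 * D2 → D1 ≤ 1 / 10 ^ 7 * D2 →
      X1 ≤ 1 / 10 ^ 7 * X2 ∧ 8 * 10 ^ 6 * D2 ≤ X2 ∧ X2 ≤ 12 * 10 ^ 6 * D2 := by
    intro X1 X2 D1 D2 P g0 g1 g2 g3 g4 g5
    norm_num at g1 g2 g3 g4 g5 ⊢
    refine ⟨?_, ?_, ?_⟩ <;> linarith
  exact fin _ _ _ _ _ hD0 l1 l2 l3 l4 hD1

end Pool.Agent.Lib.H37D
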