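import Pool.Agent.Lib.H37D.DM3
import Pool.Agent.Lib.H37D.DM4

/-!
# H37D DM5: the fixed point of a map close to a contraction; exit from the neighbourhood of an orbit
-/

open Set Filter Topology
open scoped ContDiff Manifold

namespace Pool.Agent.Lib.H37D

open Pool.Agent.Lib.H37N

variable {d : ℕ}

theorem dm5_fix {B b : En d → En d} {p : En d} {rho : ℝ} (hρ : 0 < rho)
    (hlin : ∀ z ∈ Metric.closedBall p rho, B z = p + (1 / 2 : ℝ) • (z - p)) {ε : ℝ}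
    (hε : ε ≤ rho / 8) (hε4 : ε ≤ 1 / 10 ^ 4)
    (hbd : ∀ z ∈ Metric.closedBall p rho, DifferentiableAt ℝ b z)
    (hb0 : ∀ z ∈ Metric.closedBall p rho, ‖b z - B z‖ ≤ ε)
    (hb1 : ∀ z ∈ Metric.closedBall p rho, ‖fderiv ℝ b z - fderiv ℝ B z‖ ≤ ε) :
    ∃ q ∈ Metric.ball p rho, b q = q ∧
      ∀ z ∈ Metric.ball p rho, b z ∈ Metric.ball p rho ∧ ‖b z - q‖ ≤ 3 / 4 * ‖z - q‖ := by
  have hsub : Metric.ball p rho ⊆ Metric.closedBall p rho := Metric.ball_subset_closedBall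
  have hmap : ∀ z ∈ Metric.closedBall p rho, ‖b z - p‖ ≤ 5 / 8 * rho := by
    intro z hz
    have h1 := hb0 z hz
    have h2 : ‖B z - p‖ ≤ 1 / 2 * rho := by
      rw [hlin z hz, add_sub_cancel_left, norm_smul, Real.norm_eq_abs, abs_of_pos (by norm_num : (0 : ℝ) < 1 / 2)]
      have h3 : ‖z - p‖ ≤ rho := by rwa [← dist_eq_norm, ← Metric.mem_closedBall]
      linarith
    have h4 : ‖b z - p‖ ≤ ‖b z - B z‖ + ‖B z - p‖ := norm_sub_le_norm_sub_add_norm_sub _ _ _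
    linarith
  have hder : ∀ z ∈ Metric.ball p rho, ‖fderiv ℝ b z‖ ≤ 3 / 4 := by
    intro z hz
    have h1 : B =ᶠ[𝓝 z] fun z => p + (1 / 2 : ℝ) • (z - p) := by
      filter_upwards [Metric.isOpen_ball.mem_nhds hz] with y hy
      exact hlin y (hsub hy)
    have h2 : HasFDerivAt (fun z : En d => p + (1 / 2 : ℝ) • (z - p)) ((1 / 2 : ℝ) • ContinuousLinearMap.id ℝ (En d)) z :=
      (((hasFDerivAt_id z).sub_const p).const_smul (1 / 2 : ℝ)).const_add p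
    have h3 : fderiv ℝ B z = (1 / 2 : ℝ) • ContinuousLinearMap.id ℝ (En d) := by
      rw [h1.fderiv_eq, h2.fderiv]
    have h4 : ‖fderiv ℝ B z‖ ≤ 1 / 2 := by
      rw [h3]
      refine ContinuousLinearMap.opNorm_le_bound _ (by norm_num) fun v => ?_
      show ‖(1 / 2 : ℝ) • v‖ ≤ _
      rw [norm_smul, Real.norm_eq_abs, abs_of_pos (by norm_num : (0 : ℝ) < 1 / 2)]
    have h5 := hb1 z (hsub hz)
    have h6 : ‖fderiv ℝ b z‖ ≤ ‖fderiv ℝ b z - fderiv ℝ B z‖ + ‖fderiv ℝ B z‖ := norm_le_norm_sub_add _ _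
    norm_num at hε4
    linarith
  have hlip : ∀ z ∈ Metric.ball p rho, ∀ z' ∈ Metric.ball p rho, ‖b z - b z'‖ ≤ 3 / 4 * ‖z - z'‖ := by
    intro z hz z' hz'
    exact Convex.norm_image_sub_le_of_norm_fderiv_le (𝕜 := ℝ) (s := Metric.ball p rho)
      (fun y hy => hbd y (hsub hy)) hder (convex_ball p rho) hz' hz
  have hS : ∀ z ∈ Metric.closedBall p (3 / 4 * rho), z ∈ Metric.ball p rho := by
    intro z hz
    rw [Metric.mem_closedBall] at hz
    rw [Metric.mem_ball]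
    linarith
  have hmS : MapsTo b (Metric.closedBall p (3 / 4 * rho)) (Metric.closedBall p (3 / 4 * rho)) := by
    intro z hz
    rw [Metric.mem_closedBall, dist_eq_norm]
    have := hmap z (hsub (hS z hz))
    linarith
  have hctr : ContractingWith (3 / 4 : NNReal) (hmS.restrict b _ _) := by
    refine ⟨?_, ?_⟩
    · rw [← NNReal.coe_lt_coe]
      push_cast
      norm_num
    · refine LipschitzWith.of_dist_le_mul fun x y => ?_
      have h1 := hlip x.1 (hS _ x.2) y.1 (hS _ y.2)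
      rw [← dist_eq_norm, ← dist_eq_norm] at h1
      push_cast
      exact h1
  have hpS : p ∈ Metric.closedBall p (3 / 4 * rho) := Metric.mem_closedBall_self (by positivity)
  obtain ⟨q, hqS, hq, -, -⟩ := ContractingWith.exists_fixedPoint' (Metric.isClosed_closedBall.isComplete) hmS hctr hpS
    (edist_ne_top _ _)
  refine ⟨q, hS q hqS, hq, fun z hz => ⟨?_, ?_⟩⟩
  · rw [Metric.mem_ball, dist_eq_norm]
    have := hmap z (hsub hz)
    linarith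
  · have h1 := hlip z hz q (hS q hqS)
    rwa [hq] at h1

/-- exit -/
theorem dm5_exit {y x : ℕ → En d} (hy : ∀ k, y k ∈ Omd d) (hw : ∀ k, ‖(y k).2‖ ≤ 2 / 10 ^ 12) (hx0 : x 0 ∈ Omd d)
    (hne : (x 0 - y 0).2 ≠ 0) (hc : ‖(x 0 - y 0).1‖ ≤ 1 / 10 ^ 7 * ‖(x 0 - y 0).2‖)
    (hstep : ∀ k, ‖(x k - y k).1‖ ≤ 1 / 10 ^ 7 * ‖(x k - y k).2‖ → ‖(x k - y k).2‖ ≤ 6 / 10 ^ 8 →
      ‖(x (k + 1) - y (k + 1)).1‖ ≤ 1 / 10 ^ 7 * ‖(x (k + 1) - y (k + 1)).2‖ ∧
        8 * 10 ^ 6 * ‖(x k - y k).2‖ ≤ ‖(x (k + 1) - y (k + 1)).2‖ ∧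
        ‖(x (k + 1) - y (k + 1)).2‖ ≤ 12 * 10 ^ 6 * ‖(x k - y k).2‖) :
    ∃ k, x k ∈ EXd d ∧ ∀ j < k, x j ∈ Metric.closedBall 0 2 := by
  have hpos : 0 < ‖(x 0 - y 0).2‖ := norm_pos_iff.2 hne
  have hex : ∃ k, 6 / 10 ^ 8 < ‖(x k - y k).2‖ := by
    by_contra hcon
    push Not at hcon
    have h1 : ∀ k, ‖(x k - y k).1‖ ≤ 1 / 10 ^ 7 * ‖(x k - y k).2‖ ∧
        (2 : ℝ) ^ k * ‖(x 0 - y 0).2‖ ≤ ‖(x k - y k).2‖ := by
      intro k
      induction k with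
      | zero => exact ⟨hc, by rw [pow_zero, one_mul]⟩
      | succ k ih =>
        obtain ⟨h2, h3, -⟩ := hstep k ih.1 (hcon k)
        refine ⟨h2, ?_⟩
        rw [pow_succ]
        have h4 := norm_nonneg (x k - y k).2
        nlinarith [ih.2]
    obtain ⟨n, hn⟩ := pow_unbounded_of_one_lt (6 / 10 ^ 8 / ‖(x 0 - y 0).2‖) (by norm_num : (1 : ℝ) < 2)
    rw [div_lt_iff₀ hpos] at hn
    linarith [(h1 n).2, hcon n]
  classical
  obtain ⟨k, hk, hmin⟩ : ∃ k, 6 / 10 ^ 8 < ‖(x k - y k).2‖ ∧ ∀ j < k, ‖(x j - y j).2‖ ≤ 6 / 10 ^ 8 :=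
    ⟨Nat.find hex, Nat.find_spec hex, fun j hj => not_lt.1 (Nat.find_min hex hj)⟩
  have hcone : ∀ j ≤ k, ‖(x j - y j).1‖ ≤ 1 / 10 ^ 7 * ‖(x j - y j).2‖ := by
    intro j
    induction j with
    | zero => exact fun _ => hc
    | succ j ih =>
      intro hj
      exact (hstep j (ih (by omega)) (hmin j (by omega))).1
  have hyb : ∀ k, (y k).1.1 ∈ Icc (-del) (1 + del) ∧ (y k).1.2 ∈ Icc (-del) (1 + del) := fun k => dm4_Om (hy k).1
  refine ⟨k, ?_, ?_⟩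
  · have hc1 := hcone k le_rfl
    have hw1 := hw k
    have hge : 5 / 10 ^ 8 ≤ ‖(x k).2‖ := by
      have h1 : ‖(x k).2 - (y k).2‖ ≤ ‖(x k).2‖ + ‖(y k).2‖ := norm_sub_le _ _
      have h2 : 6 / 10 ^ 8 < ‖(x k).2 - (y k).2‖ := hk
      norm_num at h2 hw1 ⊢
      linarith
    rcases Nat.eq_zero_or_pos k with rfl | hkp
    · obtain ⟨⟨h1, h2⟩, h3, h4⟩ := dm4_Om hx0.1
      have h5 : ‖(x 0).2‖ < 1 := by
        have := hx0.2
        rwa [mem_ball_zero_iff] at this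
      refine ⟨⟨⟨?_, ?_⟩, ?_, ?_⟩, hge, h5.le⟩
      · norm_num at h1 ⊢; linarith
      · norm_num at h2 ⊢; linarith
      · norm_num at h3 ⊢; linarith
      · norm_num at h4 ⊢; linarith
    · obtain ⟨j, rfl⟩ : ∃ j, k = j + 1 := ⟨k - 1, by omega⟩
      obtain ⟨-, -, h3⟩ := hstep j (hcone j (by omega)) (hmin j (by omega))
      have h4 := hmin j (by omega)
      have h5 : ‖(x (j + 1) - y (j + 1)).2‖ ≤ 72 / 100 := by
        have : 12 * 10 ^ 6 * ‖(x j - y j).2‖ ≤ 12 * 10 ^ 6 * (6 / 10 ^ 8) := by gcongr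
        refine h3.trans (this.trans (by norm_num))
      have h6 : ‖(x (j + 1)).2‖ ≤ 1 := by
        have e1 : (x (j + 1)).2 = (x (j + 1) - y (j + 1)).2 + (y (j + 1)).2 := by simp
        rw [e1]
        refine (norm_add_le _ _).trans ?_
        have : (2 : ℝ) / 10 ^ 12 ≤ 1 / 100 := by norm_num
        linarith
      have h7 : ‖(x (j + 1)).1 - (y (j + 1)).1‖ ≤ 1 / 10 ^ 7 := by
        have : ‖(x (j + 1) - y (j + 1)).1‖ ≤ 1 / 10 ^ 7 * 1 := hc1.trans (by gcongr; linarith)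
        rw [mul_one] at this
        exact this
      have h8 : |(x (j + 1)).1.1 - (y (j + 1)).1.1| ≤ 1 / 10 ^ 7 := (norm_fst_le _).trans h7
      have h9 : |(x (j + 1)).1.2 - (y (j + 1)).1.2| ≤ 1 / 10 ^ 7 := (norm_snd_le _).trans h7
      obtain ⟨⟨g1, g2⟩, g3, g4⟩ := hyb (j + 1)
      rw [abs_le] at h8 h9
      have g5 : (1 : ℝ) / 10 ^ 7 ≤ 1 / 10 ^ 6 := by norm_num
      exact ⟨⟨⟨by linarith, by linarith⟩, by linarith, by linarith⟩, hge, h6⟩
  · intro j hj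
    have hc1 := hcone j hj.le
    have h1 := hmin j hj
    obtain ⟨⟨g1, g2⟩, g3, g4⟩ := hyb j
    have hyn : ‖y j‖ ≤ 3 / 2 := by
      simp only [del] at g1 g2 g3 g4
      rw [Prod.norm_def, Prod.norm_def, Real.norm_eq_abs, Real.norm_eq_abs]
      refine max_le (max_le ?_ ?_) ((hw j).trans (by norm_num))
      · rw [abs_le]; constructor <;> linarith
      · rw [abs_le]; constructor <;> linarith
    have h2 : ‖x j - y j‖ ≤ 1 / 2 := by
      have h3 : (6 : ℝ) / 10 ^ 8 ≤ 1 / 2 := by norm_num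
      rw [Prod.norm_def]
      refine max_le ?_ (h1.trans h3)
      linarith
    rw [mem_closedBall_zero_iff]
    have h3 : ‖x j‖ ≤ ‖x j - y j‖ + ‖y j‖ := norm_le_norm_sub_add _ _
    linarith

end Pool.Agent.Lib.H37D
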