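import Pool.Agent.Lib.H37D.DM2
import Pool.Agent.Lib.H37D.DM5

/-!
# H37D DM10 (SRC): the source captures the backward orbits of the centre spots off the centre
-/

open Set Filter Topology
open scoped ContDiff Manifold
open Pool.Agent.Lib.Helper37.ConjBorel Pool.Agent.Lib.H37C

namespace Pool.Agent.Lib.H37D

open Pool.Agent.Lib.H37N

variable {d : ℕ} {M : Type*} [TopologicalSpace M] [ChartedSpace (Euc (d + 2)) M]

/-- the orbit of a point of `M` in the chart -/
theorem dm10_iter {e : OpenPartialHomeomorph M (Euc (d + 2))} (f : DiffInf (d + 2) M) {z : M} (hz : z ∈ e.source)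
    (n : ℕ) (h : ∀ j < n, (locD e f)^[j] (LLd d (e z)) ∈ domD e f) :
    f^[n] z ∈ e.source ∧ LLd d (e (f^[n] z)) = (locD e f)^[n] (LLd d (e z)) := by
  induction n with
  | zero => exact ⟨hz, rfl⟩
  | succ n ih =>
    obtain ⟨h1, h2⟩ := ih fun j hj => h j (by omega)
    rw [Function.iterate_succ_apply', Function.iterate_succ_apply']
    exact dm2_step f (h n (by omega)) h1 h2

/-- the backward orbits of the centre -/
theorem dm10_orbit {g b : En d → En d} (hg : NearD g) (hb : ∀ z ∈ Dd d, b (g z) = z)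
    {m : ℕ} {Θ c : En d → En d} {A : Pt → Wd d →L[ℝ] Wd d} (hs : CSpotD g m Θ c A) {v : Pt} (hv : ‖v‖ < 4) :
    ∃ y : ℕ → En d, y 0 = Θ (v, 0) ∧ (∀ k, y k ∈ Omd d) ∧ (∀ k, g (y (k + 1)) = y k) ∧ (∀ k, b (y k) = y (k + 1)) ∧
      ∀ k, ‖(y k).2‖ ≤ 2 / 10 ^ 12 := by
  have hvB : ((v, 0) : En d) ∈ Bt d := by
    rw [Bt, mem_ball_zero_iff, Prod.norm_def]
    exact max_lt hv (by simp)
  have hper : g^[m] (Θ (v, 0)) = Θ (v, 0) := by
    have := hs.lin v 0 hv (by simp)
    rwa [map_zero] at this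
  have hOm : ∀ j, g^[j] (Θ (v, 0)) ∈ Omd d := by
    intro j
    have h1 : Function.IsPeriodicPt g m (Θ (v, 0)) := hper
    rw [← h1.iterate_mod_apply j]
    exact hs.path _ hvB _ (Nat.mod_lt _ hs.pos).le
  have hgy : ∀ k, g (g^[(m - 1) * (k + 1)] (Θ (v, 0))) = g^[(m - 1) * k] (Θ (v, 0)) := by
    intro k
    have e : (m - 1) * (k + 1) + 1 = (m - 1) * k + m := by
      have h1 : m - 1 + 1 = m := Nat.sub_add_cancel hs.pos
      calc (m - 1) * (k + 1) + 1 = (m - 1) * k + ((m - 1) + 1) := by ring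
        _ = (m - 1) * k + m := by rw [h1]
    rw [← Function.iterate_succ_apply' g, Nat.succ_eq_add_one, e, Function.iterate_add_apply, hper]
  have hD : ∀ k, g^[(m - 1) * k] (Θ (v, 0)) ∈ Dd d := by
    intro k
    obtain ⟨h1, h2⟩ := hOm ((m - 1) * k)
    have h3 : (g^[(m - 1) * k] (Θ (v, 0))).2 ∈ BW d := Metric.ball_subset_closedBall h2
    rcases h1 with (h1 | h1) | h1
    · exact Or.inl (Or.inl ⟨interior_subset h1, h3⟩)
    · exact Or.inl (Or.inr ⟨interior_subset h1, h3⟩)
    · exact Or.inr ⟨interior_subset h1, h3⟩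
  have hw1 : ∀ k, ‖(g^[(m - 1) * k] (Θ (v, 0))).2‖ ≤ 1 / 10 ^ 6 := by
    intro k
    have h1 := hg.wval _ (hD (k + 1))
    rw [hgy] at h1
    have h2 : ‖(g^[(m - 1) * (k + 1)] (Θ (v, 0))).2‖ ≤ 1 := by
      have := (hOm ((m - 1) * (k + 1))).2
      rw [mem_ball_zero_iff] at this
      exact this.le
    simp only [aw, e0] at h1
    norm_num at h1 ⊢
    linarith
  refine ⟨fun k => g^[(m - 1) * k] (Θ (v, 0)), rfl, fun k => hOm _, hgy, fun k => ?_, fun k => ?_⟩
  · show b (g^[(m - 1) * k] (Θ (v, 0))) = _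
    rw [← hgy k]
    exact hb _ (hD (k + 1))
  · have h1 := hg.wval _ (hD (k + 1))
    rw [hgy] at h1
    have h2 := hw1 (k + 1)
    show ‖(g^[(m - 1) * k] (Θ (v, 0))).2‖ ≤ _
    simp only [aw, e0] at h1
    norm_num at h1 h2 ⊢
    linarith

/-- SRC -/
theorem srcAt_of_close [T2Space M] [IsManifold (𝓡 (d + 2)) ∞ M] {e : OpenPartialHomeomorph M (Euc (d + 2))}
    {F B : En d → En d} {p : En d} {rho r : ℝ} (he : BigCD e r) (h : ModelD F B p rho r)
    {K : Set (En d)} (hKc : Convex ℝ K) {ε : ℝ} (hε4 : ε ≤ 1 / 10 ^ 4) (hερ : ε ≤ rho / 8)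
    (hKp : Metric.closedBall p rho ⊆ K) (hK2 : Metric.closedBall 0 2 ⊆ K)
    (hcap : ∀ b : En d → En d, (∀ z ∈ K, ‖b z - B z‖ ≤ ε) → ∀ z ∈ EXd d,
        b z ∈ K ∧ b (b z) ∈ K ∧ b (b (b z)) ∈ Metric.ball p rho)
    {f : DiffInf (d + 2) M} (hn : NearS (locD e f)) (hdom : Dd d ⊆ domD e f) (hKd : K ⊆ domD e f.symm)
    (hcl : ∀ z ∈ K, ‖locD e f.symm z - B z‖ ≤ ε ∧ ‖fderiv ℝ (locD e f.symm) z - fderiv ℝ B z‖ ≤ ε) :
    ∃ q : M, SrcAt e f q := by
  set b : En d → En d := locD e f.symm with hbdef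
  have hbd : ∀ z ∈ K, DifferentiableAt ℝ b z := fun z hz =>
    ((locD_smooth he.mem f.symm).contDiffAt ((domD_open f.symm.continuous).mem_nhds (hKd hz))).differentiableAt (by simp)
  obtain ⟨q, hqb, hq, hatt⟩ := dm5_fix h.rho_pos h.lin hερ hε4 (fun z hz => hbd z (hKp hz))
    (fun z hz => (hcl z (hKp hz)).1) (fun z hz => (hcl z (hKp hz)).2)
  have hballK : Metric.ball p rho ⊆ K := Metric.ball_subset_closedBall.trans hKp
  -- iterates in the ball
  have hit : ∀ k, ∀ z ∈ Metric.ball p rho, b^[k] z ∈ Metric.ball p rho ∧ ‖b^[k] z - q‖ ≤ (3 / 4) ^ k * ‖z - q‖ := by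
    intro k z hz
    induction k with
    | zero => exact ⟨hz, by rw [pow_zero, one_mul]; rfl⟩
    | succ k ih =>
      rw [Function.iterate_succ_apply']
      obtain ⟨h1, h2⟩ := hatt _ ih.1
      refine ⟨h1, h2.trans ?_⟩
      rw [pow_succ]
      nlinarith [ih.2]
  have hqd : q ∈ domD e f.symm := hKd (hballK hqb)
  set P : M := e.symm ((LLd d).symm q) with hP
  have hPs : P ∈ e.source := e.map_target hqd.1
  have hPc : LLd d (e P) = q := by
    rw [hP, e.right_inv hqd.1, ContinuousLinearEquiv.apply_symm_apply]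
  have hfix' : f.symm P = P := by
    obtain ⟨h1, h2⟩ := dm2_step f.symm hqd hPs hPc
    have h3 : locD e f.symm q = q := hq
    rw [h3, ← hPc] at h2
    exact e.injOn h1 hPs ((LLd d).injective h2)
  have hfix : f P = P := by
    have := congrArg f hfix'
    rw [f.apply_symm_apply] at this
    exact this.symm
  -- the neighbourhood
  set U : Set M := e.source ∩ {z | LLd d (e z) ∈ Metric.ball p rho} with hU
  have hUn : U ∈ 𝓝 P := by
    have h1 : ContinuousAt (fun z => LLd d (e z)) P := (LLd d).continuous.continuousAt.comp (e.continuousAt hPs)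
    refine inter_mem (e.open_source.mem_nhds hPs) (h1 (Metric.isOpen_ball.mem_nhds ?_))
    show LLd d (e P) ∈ _
    rw [hPc]
    exact hqb
  have hattU : ∀ W ∈ 𝓝 P, ∃ N : ℕ, ∀ k ≥ N, ∀ z ∈ U, (⇑f.symm)^[k] z ∈ W := by
    intro W hW
    have hc : ContinuousAt (fun x : En d => e.symm ((LLd d).symm x)) q :=
      ContinuousAt.comp (f := fun x : En d => (LLd d).symm x) (g := e.symm) (x := q)
        (e.continuousAt_symm hqd.1) (LLd d).symm.continuous.continuousAt
    obtain ⟨δ, hδ, hball⟩ := Metric.mem_nhds_iff.1 (hc hW)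
    have hlim : Tendsto (fun k : ℕ => (3 / 4 : ℝ) ^ k * (2 * rho)) atTop (𝓝 0) := by
      have := (tendsto_pow_atTop_nhds_zero_of_lt_one (by norm_num : (0 : ℝ) ≤ 3 / 4) (by norm_num)).mul_const (2 * rho)
      rwa [zero_mul] at this
    obtain ⟨N, hN⟩ := (hlim.eventually (gt_mem_nhds hδ)).exists_forall_of_atTop
    refine ⟨N, fun k hk z hz => ?_⟩
    obtain ⟨h1, h2⟩ := dm10_iter f.symm hz.1 k fun j _ => hKd (hballK (hit j _ hz.2).1)
    have h3 : ‖b^[k] (LLd d (e z)) - q‖ < δ := by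
      have h4 : ‖LLd d (e z) - q‖ ≤ 2 * rho := by
        have h5 : dist (LLd d (e z)) p < rho := hz.2
        have h6 : dist q p < rho := hqb
        have h7 := dist_triangle_right (LLd d (e z)) q p
        rw [dist_eq_norm] at h7
        linarith
      refine ((hit k _ hz.2).2.trans ?_).trans_lt (hN k hk)
      gcongr
    have h4 : (⇑f.symm)^[k] z = e.symm ((LLd d).symm (b^[k] (LLd d (e z)))) := by
      rw [← h2, ContinuousLinearEquiv.symm_apply_apply, e.left_inv h1]
    rw [h4]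
    exact hball (by rw [Metric.mem_ball, dist_eq_norm]; exact h3)
  refine ⟨P, hfix, hPs, ?_, ⟨U, hUn, hattU⟩, ?_⟩
  · rw [hPc]
    exact fun hcon => disjoint_left.1 h.far (Metric.ball_subset_closedBall hqb) hcon
  · intro m Θ c A hs v w hv hw hw0
    -- enough: the orbit enters U
    have key : ∃ n, (⇑f.symm)^[n] (e.symm ((LLd d).symm (Θ (v, w)))) ∈ U := by
      have hbg : ∀ z ∈ Dd d, b (locD e f z) = z := fun z hz =>
        (locD_symm f f.symm (fun x => f.symm_apply_apply x) (hdom hz)).2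
      obtain ⟨y, hy0, hyO, hgy, hby, hyw⟩ := dm10_orbit hn.toNearD hbg hs hv
      have hvB : ((v, 0) : En d) ∈ Bt d := by
        rw [Bt, mem_ball_zero_iff, Prod.norm_def]
        exact max_lt hv (by simp)
      have hvwB : ((v, w) : En d) ∈ Bt d := by
        rw [Bt, mem_ball_zero_iff, Prod.norm_def]
        exact max_lt hv hw
      have hx0 : Θ (v, w) ∈ Omd d := hs.path _ hvwB 0 (Nat.zero_le _)
      have hcone := hs.cone v w hv hw
      have hne : (Θ (v, w) - y 0).2 ≠ 0 := by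
        intro hcon
        rw [hy0] at hcon
        have h1 : ‖(Θ (v, w)).1 - (Θ (v, 0)).1‖ ≤ 0 := by
          refine hcone.trans (le_of_eq ?_)
          have h2 : (Θ (v, w)).2 - (Θ (v, 0)).2 = 0 := hcon
          rw [h2, norm_zero, mul_zero]
        have h3 : Θ (v, w) = Θ (v, 0) := by
          refine Prod.ext (sub_eq_zero.1 (norm_le_zero_iff.1 h1)) ?_
          exact sub_eq_zero.1 hcon
        have h4 := congrArg c h3
        rw [hs.left _ hvwB, hs.left _ hvB] at h4
        exact hw0 (congrArg Prod.snd h4)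
      obtain ⟨k, hkEX, hkj⟩ := dm5_exit (x := fun k => b^[k] (Θ (v, w))) hyO hyw hx0 hne
        (by
          show ‖(Θ (v, w) - y 0).1‖ ≤ _
          rw [hy0]
          exact hcone)
        (by
          intro j h1 h2
          have h3 := dm4_step h hn.toNearD hKc hK2 hε4 hbd (fun z hz => (hcl z hz).2) (hyO (j + 1)) (hyO j)
            (hgy j) (hby j) (hyw j) h1 h2
          have h4 : b^[j + 1] (Θ (v, w)) = b (b^[j] (Θ (v, w))) := Function.iterate_succ_apply' b j _
          simp only [h4]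
          exact h3)
      have hcap' := hcap b (fun z hz => (hcl z hz).1) _ hkEX
      have hX0 : e.symm ((LLd d).symm (Θ (v, w))) ∈ e.source := by
        have h1 : Θ (v, w) ∈ Dd d := by
          obtain ⟨h1, h2⟩ := hx0
          have h3 : (Θ (v, w)).2 ∈ BW d := Metric.ball_subset_closedBall h2
          rcases h1 with (h1 | h1) | h1
          · exact Or.inl (Or.inl ⟨interior_subset h1, h3⟩)
          · exact Or.inl (Or.inr ⟨interior_subset h1, h3⟩)
          · exact Or.inr ⟨interior_subset h1, h3⟩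
        exact e.map_target (hdom h1).1
      have hX1 : LLd d (e (e.symm ((LLd d).symm (Θ (v, w))))) = Θ (v, w) := by
        have h1 : Θ (v, w) ∈ Dd d := by
          obtain ⟨h1, h2⟩ := hx0
          have h3 : (Θ (v, w)).2 ∈ BW d := Metric.ball_subset_closedBall h2
          rcases h1 with (h1 | h1) | h1
          · exact Or.inl (Or.inl ⟨interior_subset h1, h3⟩)
          · exact Or.inl (Or.inr ⟨interior_subset h1, h3⟩)
          · exact Or.inr ⟨interior_subset h1, h3⟩
        rw [e.right_inv (hdom h1).1, ContinuousLinearEquiv.apply_symm_apply]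
      have e1 : b^[k + 1] (Θ (v, w)) = b (b^[k] (Θ (v, w))) := Function.iterate_succ_apply' b k _
      have e2 : b^[k + 2] (Θ (v, w)) = b (b (b^[k] (Θ (v, w)))) := by
        rw [← e1]; exact Function.iterate_succ_apply' b (k + 1) _
      have e3 : b^[k + 3] (Θ (v, w)) = b (b (b (b^[k] (Θ (v, w))))) := by
        rw [← e2]; exact Function.iterate_succ_apply' b (k + 2) _
      obtain ⟨h1, h2⟩ := dm10_iter f.symm hX0 (k + 3) (by
        intro j hj
        rw [hX1]
        refine hKd ?_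
        rcases lt_or_ge j k with hjk | hjk
        · exact hK2 (hkj j hjk)
        · obtain rfl | rfl | rfl : j = k ∨ j = k + 1 ∨ j = k + 2 := by omega
          · exact hK2 (dm3_EX_sub hkEX)
          · exact e1 ▸ hcap'.1
          · exact e2 ▸ hcap'.2.1)
      refine ⟨k + 3, h1, ?_⟩
      show LLd d (e _) ∈ Metric.ball p rho
      rw [h2, hX1]
      exact e3 ▸ hcap'.2.2
    obtain ⟨n, hn'⟩ := key
    rw [tendsto_atTop']
    intro W hW
    obtain ⟨N, hN⟩ := hattU W hW
    refine ⟨N + n, fun k hk => ?_⟩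
    obtain ⟨j, rfl⟩ : ∃ j, k = j + n := ⟨k - n, by omega⟩
    rw [Function.iterate_add_apply]
    exact hN j (by omega) _ hn'

/-- The open set of diffeomorphisms with near local representations and a source. -/
theorem exists_VS_of_model [T2Space M] [CompactSpace M] [IsManifold (𝓡 (d + 2)) ∞ M]
    {e : OpenPartialHomeomorph M (Euc (d + 2))} {F B : En d → En d} {p : En d} {rho r : ℝ}
    (he : BigCD e r) (hr : 4 ≤ r) (h : ModelD F B p rho r)
    {fs : DiffInf (d + 2) M} (hfs : ∀ m, fs m = ext e (cjd F) m) :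
    ∃ V : Set (DiffInf (d + 2) M), IsOpen V ∧ fs ∈ V ∧
      ∀ f ∈ V, NearS (locD e f) ∧ Dd d ⊆ domD e f ∧ ∃ q : M, SrcAt e f q := by
  obtain ⟨K, ε, hK, hKc, hKr, hε, hε4, hερ, hKp, hK2, hcap⟩ := dm3_exit h hr
  obtain ⟨V, hV, hfV, hV2⟩ := exists_VB he hr h hfs hK hKr hε
  refine ⟨V, hV, hfV, fun f hf => ?_⟩
  obtain ⟨h1, h2, h3, h4⟩ := hV2 f hf
  exact ⟨h1, h2, srcAt_of_close he h hKc hε4 hερ hKp hK2 hcap h1 h2 h3 h4⟩

end Pool.Agent.Lib.H37D
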