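import Pool.Agent.Lib.H37D.DM10
import Pool.Agent.Lib.H37D.DK9

/-!
# H37D DM11a: the manifold-level statement from a model
-/

open Set Filter Topology
open scoped ContDiff Manifold
open Pool.Agent.Lib.Helper37.ConjBorel Pool.Agent.Lib.H37C

namespace Pool.Agent.Lib.H37D

open Pool.Agent.Lib.H37N

variable {d : ℕ}

theorem ModelD.mono {F B : En d → En d} {p : En d} {rho r r' : ℝ} (h : ModelD F B p rho r) (hr : r ≤ r') :
    ModelD F B p rho r' :=
  { h with
    supp := fun z hz => h.supp z (hr.trans hz)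
    sub := h.sub.trans (Metric.ball_subset_ball hr) }

/-- `exists_VS`, from the model -/
theorem exists_VS_of_modelD (M : Type*) [TopologicalSpace M] [ChartedSpace (Euc (d + 2)) M] [T2Space M] [CompactSpace M]
    [IsManifold (𝓡 (d + 2)) ∞ M] [Nonempty M] {F B : En d → En d} {p : En d} {rho r₀ : ℝ} (h₀ : ModelD F B p rho r₀) :
    ∃ (e : OpenPartialHomeomorph M (Euc (d + 2))) (r : ℝ) (V : Set (DiffInf (d + 2) M)),
      BigCD e r ∧ 4 ≤ r ∧ IsOpen V ∧ V.Nonempty ∧
        ∀ f ∈ V, NearS (locD e f) ∧ Dd d ⊆ domD e f ∧ ∃ p : M, SrcAt e f p := by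
  have h : ModelD F B p rho (max r₀ 4) := h₀.mono (le_max_left _ _)
  obtain ⟨e, he, fs, hfs⟩ := exists_model_diffeo M h.smooth h.smooth_B h.left h.right h.supp
  obtain ⟨V, hV, hfV, hV2⟩ := exists_VS_of_model he (le_max_right _ _) h hfs
  exact ⟨e, _, V, he, le_max_right _ _, hV, ⟨fs, hfV⟩, hV2⟩

end Pool.Agent.Lib.H37D
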