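import Pool.Agent.Lib.H37D.DM09
import Pool.Agent.Lib.H37D.DM10
import Pool.Agent.Lib.H37D.DK9

/-!
# H37D DM12: the open set of diffeomorphisms of a closed manifold with near local representations and a source
-/

open Set Filter Topology
open scoped ContDiff Manifold
open Pool.Agent.Lib.Helper37.ConjBorel Pool.Agent.Lib.H37C

namespace Pool.Agent.Lib.H37D

open Pool.Agent.Lib.H37N

variable {d : ℕ}

theorem exists_VS (d : ℕ) (M : Type*) [TopologicalSpace M] [ChartedSpace (Euc (d + 2)) M] [T2Space M]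
    [CompactSpace M] [IsManifold (𝓡 (d + 2)) ∞ M] [Nonempty M] :
    ∃ (e : OpenPartialHomeomorph M (Euc (d + 2))) (r : ℝ) (V : Set (DiffInf (d + 2) M)), BigCD e r ∧ 4 ≤ r ∧
      IsOpen V ∧ V.Nonempty ∧ ∀ f ∈ V, NearS (locD e f) ∧ Dd d ⊆ domD e f ∧ ∃ p : M, SrcAt e f p := by
  obtain ⟨F, B, p, rho, r, hr, h⟩ := exists_modelD d
  obtain ⟨e, he, fs, hfs⟩ := exists_model_diffeo M h.smooth h.smooth_B h.left h.right h.supp
  obtain ⟨V, hV, hfV, hV2⟩ := exists_VS_of_model he hr h hfs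
  exact ⟨e, r, V, he, hr, hV, ⟨fs, hfV⟩, hV2⟩

end Pool.Agent.Lib.H37D
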