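import Pool.Agent.Lib.H37D.MDefsD

/-!
# H37D DM2: open conditions: the diffeomorphisms whose inverse is close to the inverse of the model
-/

open Set Filter Topology
open scoped ContDiff Manifold
open Pool.Agent.Lib.Helper37.ConjBorel Pool.Agent.Lib.H37C

namespace Pool.Agent.Lib.H37D

open Pool.Agent.Lib.H37N

variable {d : ℕ}

theorem dm2_symm {n : ℕ} {M : Type*} [TopologicalSpace M] [ChartedSpace (Euc n) M] [T2Space M] [CompactSpace M]
    [IsManifold (𝓡 n) ∞ M] : Continuous fun f : DiffInf n M => (f.symm : DiffInf n M) :=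
  continuous_of_jc (JC.inv jc_id)

theorem dm2_suppB {F B : En d → En d} {p : En d} {rho r : ℝ} (h : ModelD F B p rho r) :
    ∀ z, r ≤ ‖z‖ → B z = z := by
  intro z hz
  have h1 := h.left z
  rwa [h.supp z hz] at h1

theorem dm2_ball {F B : En d → En d} {p : En d} {rho r : ℝ} (h : ModelD F B p rho r) :
    ∀ z, ‖z‖ < r → ‖B z‖ < r := by
  intro z hz
  by_contra hcon
  have h1 := h.supp (B z) (not_lt.1 hcon)
  rw [h.right] at h1
  rw [← h1] at hcon
  exact hcon hz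

variable {M : Type*} [TopologicalSpace M] [ChartedSpace (Euc (d + 2)) M]

theorem dm2_ext {e : OpenPartialHomeomorph M (Euc (d + 2))} {F B : En d → En d} {p : En d} {rho r : ℝ}
    (he : BigCD e r) (h : ModelD F B p rho r) {fs : DiffInf (d + 2) M} (hfs : ∀ m, fs m = ext e (cjd F) m) :
    ∀ m, fs.symm m = ext e (cjd B) m := by
  intro m
  have key : fs (H37C.ext e (cjd B) m) = m → fs.symm m = H37C.ext e (cjd B) m := by
    intro h1
    have h2 := congrArg fs.symm h1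
    rw [fs.symm_apply_apply] at h2
    exact h2.symm
  refine key ?_
  rw [hfs]
  by_cases hm : m ∈ e.source
  · rw [ext_of_mem hm]
    have h1 : cjd B (e m) ∈ e.target := by
      unfold cjd
      by_cases h2 : r ≤ ‖LLd d (e m)‖
      · rw [dm2_suppB h _ h2, ContinuousLinearEquiv.symm_apply_apply]
        exact e.map_source hm
      · exact he.big _ (dm2_ball h _ (not_le.1 h2)).le
    rw [ext_of_mem (e.map_target h1), e.right_inv h1]
    unfold cjd
    rw [ContinuousLinearEquiv.apply_symm_apply, h.right, ContinuousLinearEquiv.symm_apply_apply, e.left_inv hm]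
  · rw [ext_of_notMem hm, ext_of_notMem hm]

/-- `C^2`-near local representations, and inverses `C^1`-close to the inverse of the model on a compact set -/
theorem exists_VB [T2Space M] [CompactSpace M] [IsManifold (𝓡 (d + 2)) ∞ M]
    {e : OpenPartialHomeomorph M (Euc (d + 2))} {F B : En d → En d} {p : En d} {rho r : ℝ}
    (he : BigCD e r) (hr : 4 ≤ r) (h : ModelD F B p rho r)
    {fs : DiffInf (d + 2) M} (hfs : ∀ m, fs m = ext e (cjd F) m)
    {K : Set (En d)} (hK : IsCompact K) (hKr : ∀ z ∈ K, ‖z‖ < r) {ε : ℝ} (hε : 0 < ε) :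
    ∃ V : Set (DiffInf (d + 2) M), IsOpen V ∧ fs ∈ V ∧
      ∀ f ∈ V, NearS (locD e f) ∧ Dd d ⊆ domD e f ∧ K ⊆ domD e f.symm ∧
        ∀ z ∈ K, ‖locD e f.symm z - B z‖ ≤ ε ∧ ‖fderiv ℝ (locD e f.symm) z - fderiv ℝ B z‖ ≤ ε := by
  have hV : ∀ i, ∀ᶠ z in 𝓝ˢ (VVd d i), F z = AffD d i z := by
    intro i
    have hO : IsOpen ((Ioo (al i - del - 1 / 10 ^ 6) (al i + pw i + del + 1 / 10 ^ 6) ×ˢ
        Ioo (-del - 1 / 10 ^ 6) (1 + del + 1 / 10 ^ 6)) ×ˢ Metric.ball (0 : Wd d) (21 / 20)) :=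
      (isOpen_Ioo.prod isOpen_Ioo).prod Metric.isOpen_ball
    have h1 : ((Ioo (al i - del - 1 / 10 ^ 6) (al i + pw i + del + 1 / 10 ^ 6) ×ˢ
        Ioo (-del - 1 / 10 ^ 6) (1 + del + 1 / 10 ^ 6)) ×ˢ Metric.ball (0 : Wd d) (21 / 20)) ∈ 𝓝ˢ (VVd d i) := by
      refine hO.mem_nhdsSet.2 ?_
      rintro z ⟨⟨⟨h1, h2⟩, h3, h4⟩, h5⟩
      rw [BW, mem_closedBall_zero_iff] at h5
      refine ⟨⟨⟨?_, ?_⟩, ?_, ?_⟩, ?_⟩
      · norm_num; linarith
      · norm_num; linarith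
      · norm_num; linarith
      · norm_num; linarith
      · rw [mem_ball_zero_iff]; linarith
    filter_upwards [h1] with z hz
    refine h.hV i z ⟨⟨hz.1.1.1.le, hz.1.1.2.le⟩, hz.1.2.1.le, hz.1.2.2.le⟩ ?_
    have := hz.2
    rw [mem_ball_zero_iff] at this
    exact this.le
  have hF : ∀ᶠ z in 𝓝ˢ (FFd d), F z = FoldD d z := by
    have hO : IsOpen ((Ioo (xc - u0 - 1 / 10 ^ 6) (xc + u0 + 1 / 10 ^ 6) ×ˢ
        Ioo (-del - 1 / 10 ^ 6) (1 + del + 1 / 10 ^ 6)) ×ˢ Metric.ball (0 : Wd d) (21 / 20)) :=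
      (isOpen_Ioo.prod isOpen_Ioo).prod Metric.isOpen_ball
    have h1 : ((Ioo (xc - u0 - 1 / 10 ^ 6) (xc + u0 + 1 / 10 ^ 6) ×ˢ
        Ioo (-del - 1 / 10 ^ 6) (1 + del + 1 / 10 ^ 6)) ×ˢ Metric.ball (0 : Wd d) (21 / 20)) ∈ 𝓝ˢ (FFd d) := by
      refine hO.mem_nhdsSet.2 ?_
      rintro z ⟨⟨⟨h1, h2⟩, h3, h4⟩, h5⟩
      rw [BW, mem_closedBall_zero_iff] at h5
      refine ⟨⟨⟨?_, ?_⟩, ?_, ?_⟩, ?_⟩
      · norm_num; linarith
      · norm_num; linarith
      · norm_num; linarith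
      · norm_num; linarith
      · rw [mem_ball_zero_iff]; linarith
    filter_upwards [h1] with z hz
    refine h.hF z ⟨⟨hz.1.1.1.le, hz.1.1.2.le⟩, hz.1.2.1.le, hz.1.2.2.le⟩ ?_
    have := hz.2
    rw [mem_ball_zero_iff] at this
    exact this.le
  have hinjF : Function.Injective F := fun x y hxy => by
    have := congrArg B hxy
    rwa [h.left, h.left] at this
  have hinjB : Function.Injective B := fun x y hxy => by
    have := congrArg F hxy
    rwa [h.right, h.right] at this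
  obtain ⟨V1, ho1, hm1, h1⟩ := exists_VD he hr hinjF h.supp hV hF hfs (K := ∅) isCompact_empty
    (fun z hz => absurd hz (notMem_empty z)) 0 one_pos
  obtain ⟨V2, ho2, hm2, h2⟩ := exists_V_closeD he hinjB (dm2_suppB h) (fs := fs.symm) (dm2_ext he h hfs) hK hKr 1 hε
  refine ⟨V1 ∩ (fun f : DiffInf (d + 2) M => (f.symm : DiffInf (d + 2) M)) ⁻¹' V2,
    ho1.inter (ho2.preimage dm2_symm), ⟨hm1, hm2⟩, fun f hf => ?_⟩
  obtain ⟨ha, hb, -⟩ := h1 f hf.1
  obtain ⟨hc, hd⟩ := h2 f.symm hf.2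
  exact ⟨ha, subset_union_left.trans hb, hc, fun z hz =>
    ⟨dk8_zero (hd 0 (by norm_num) z hz), dk8_fderiv hε.le (hd 1 le_rfl z hz)⟩⟩

/-- a step of the backward orbit in the chart -/
theorem dm2_step {e : OpenPartialHomeomorph M (Euc (d + 2))} (f : DiffInf (d + 2) M) {z : En d}
    (hz : z ∈ domD e f) {m : M} (hm : m ∈ e.source) (hmz : LLd d (e m) = z) :
    f m ∈ e.source ∧ LLd d (e (f m)) = locD e f z := by
  have h1 : m = e.symm ((LLd d).symm z) := by
    rw [← hmz, ContinuousLinearEquiv.symm_apply_apply, e.left_inv hm]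
  refine ⟨by rw [h1]; exact hz.2, ?_⟩
  rw [h1]
  exact (if_pos hz).symm

end Pool.Agent.Lib.H37D
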