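import Pool.Agent.Lib.H37D.MDefsD

/-!
# H37D DM3: the inverse of the model: Lipschitz constant, maps close to it capture the exit set
-/

open Set Filter Topology
open scoped ContDiff Manifold

namespace Pool.Agent.Lib.H37D

open Pool.Agent.Lib.H37N

variable {d : ℕ}

theorem dm3_lip {F B : En d → En d} {p : En d} {rho r : ℝ} (h : ModelD F B p rho r) :
    ∃ L : ℝ, 1 ≤ L ∧ ∀ x y, ‖B x - B y‖ ≤ L * ‖x - y‖ := by
  have hBr : ∀ z, r ≤ ‖z‖ → B z = z := by
    intro z hz
    have h1 := h.left z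
    rwa [h.supp z hz] at h1
  have hc : Continuous (fderiv ℝ B) := h.smooth_B.continuous_fderiv (by simp)
  obtain ⟨L0, hL0⟩ := (isCompact_closedBall (0 : En d) r).exists_bound_of_continuousOn hc.continuousOn
  refine ⟨max L0 1, le_max_right _ _, fun x y => ?_⟩
  refine Convex.norm_image_sub_le_of_norm_fderiv_le (𝕜 := ℝ) (s := univ) (f := B)
    (fun z _ => h.smooth_B.differentiable (by simp) z) (fun z _ => ?_) convex_univ (mem_univ _) (mem_univ _)
  by_cases hz : ‖z‖ ≤ r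
  · exact (hL0 z (by simpa using hz)).trans (le_max_left _ _)
  · have h1 : B =ᶠ[𝓝 z] id := by
      have h2 : ∀ᶠ y in 𝓝 z, r < ‖y‖ := continuous_norm.continuousAt.eventually (lt_mem_nhds (not_le.1 hz))
      filter_upwards [h2] with y hy
      exact hBr y hy.le
    rw [h1.fderiv_eq, fderiv_id]
    exact (ContinuousLinearMap.norm_id_le).trans (le_max_right _ _)

/-- the exit set -/
def EXd (d : ℕ) : Set (En d) :=
  {z | (z.1.1 ∈ Icc (-del - 1 / 10 ^ 6) (1 + del + 1 / 10 ^ 6) ∧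
    z.1.2 ∈ Icc (-del - 1 / 10 ^ 6) (1 + del + 1 / 10 ^ 6)) ∧ 5 / 10 ^ 8 ≤ ‖z.2‖ ∧ ‖z.2‖ ≤ 1}

theorem dm3_EX_sub : EXd d ⊆ Metric.closedBall 0 2 := by
  rintro z ⟨⟨⟨h1, h2⟩, h3, h4⟩, -, h5⟩
  rw [mem_closedBall_zero_iff, Prod.norm_def, Prod.norm_def, Real.norm_eq_abs, Real.norm_eq_abs]
  simp only [del] at h1 h2 h3 h4
  refine max_le (max_le ?_ ?_) (by linarith)
  · rw [abs_le]; constructor <;> linarith
  · rw [abs_le]; constructor <;> linarith

theorem dm3_EX_compact : IsCompact (EXd d) := by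
  refine (isCompact_closedBall (0 : En d) 2).of_isClosed_subset ?_ dm3_EX_sub
  refine IsClosed.inter (IsClosed.inter ?_ ?_) (IsClosed.inter ?_ ?_)
  · exact isClosed_Icc.preimage (continuous_fst.comp continuous_fst)
  · exact isClosed_Icc.preimage (continuous_snd.comp continuous_fst)
  · exact isClosed_le continuous_const (continuous_norm.comp continuous_snd)
  · exact isClosed_le (continuous_norm.comp continuous_snd) continuous_const

/-- maps close to `B` on a suitable ball capture the exit set -/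
theorem dm3_exit {F B : En d → En d} {p : En d} {rho r : ℝ} (h : ModelD F B p rho r) (hr : 4 ≤ r) :
    ∃ (K : Set (En d)) (ε : ℝ), IsCompact K ∧ Convex ℝ K ∧ (∀ z ∈ K, ‖z‖ < r) ∧ 0 < ε ∧ ε ≤ 1 / 10 ^ 4 ∧
      ε ≤ rho / 8 ∧ Metric.closedBall p rho ⊆ K ∧ Metric.closedBall 0 2 ⊆ K ∧
      ∀ b : En d → En d, (∀ z ∈ K, ‖b z - B z‖ ≤ ε) → ∀ z ∈ EXd d,
        b z ∈ K ∧ b (b z) ∈ K ∧ b (b (b z)) ∈ Metric.ball p rho := by
  obtain ⟨L, hL1, hL⟩ := dm3_lip h
  have hBc : Continuous B := h.smooth_B.continuous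
  have hball : ∀ z, ‖z‖ < r → ‖B z‖ < r := by
    intro z hz
    by_contra hcon
    have h1 := h.supp (B z) (not_lt.1 hcon)
    rw [h.right] at h1
    rw [← h1] at hcon
    exact hcon hz
  set C : Set (En d) := Metric.closedBall 0 2 with hC
  have hCc : IsCompact C := isCompact_closedBall _ _
  set K1 : Set (En d) := (Metric.closedBall p rho ∪ C) ∪ (B '' C ∪ B '' (B '' C)) with hK1
  have hK1c : IsCompact K1 :=
    ((isCompact_closedBall _ _).union hCc).union ((hCc.image hBc).union ((hCc.image hBc).image hBc))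
  have hK1r : ∀ z ∈ K1, ‖z‖ < r := by
    have hCr : ∀ z ∈ C, ‖z‖ < r := fun z hz => by
      rw [hC, mem_closedBall_zero_iff] at hz
      linarith
    rintro z ((hz | hz) | (⟨y, hy, rfl⟩ | ⟨_, ⟨y, hy, rfl⟩, rfl⟩))
    · have := h.sub hz
      rwa [mem_ball_zero_iff] at this
    · exact hCr z hz
    · exact hball _ (hCr y hy)
    · exact hball _ (hball _ (hCr y hy))
  obtain ⟨z1, hz1, hmax⟩ := hK1c.exists_isMaxOn
    ⟨0, Or.inl (Or.inr (by rw [hC]; simp))⟩ (continuous_norm.continuousOn (s := K1))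
  have hr1 : ‖z1‖ < r := hK1r z1 hz1
  have hle : ∀ z ∈ K1, ‖z‖ ≤ ‖z1‖ := fun z hz => hmax hz
  obtain ⟨δ, hδ, hthick⟩ := (dm3_EX_compact (d := d)).image (hBc.iterate 3)
    |>.exists_thickening_subset_open Metric.isOpen_ball (t := Metric.ball p rho) (by
      rintro _ ⟨z, ⟨⟨h1, h2⟩, h3, h4⟩, rfl⟩
      exact h.exit z h1 h2 h3 h4)
  have hL0 : 0 < L := by linarith
  refine ⟨Metric.closedBall 0 ((‖z1‖ + r) / 2),
    min (min (1 / 10 ^ 4) (rho / 8)) (min ((r - ‖z1‖) / (2 * (1 + L))) (δ / (2 * (1 + L + L ^ 2)))),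
    isCompact_closedBall _ _, convex_closedBall _ _, ?_, ?_, ?_, ?_, ?_, ?_, ?_⟩
  · intro z hz
    rw [mem_closedBall_zero_iff] at hz
    linarith
  · have := h.rho_pos
    have h2 : 0 < r - ‖z1‖ := by linarith
    positivity
  · exact (min_le_left _ _).trans (min_le_left _ _)
  · exact (min_le_left _ _).trans (min_le_right _ _)
  · intro z hz
    rw [mem_closedBall_zero_iff]
    linarith [hle z (Or.inl (Or.inl hz))]
  · intro z hz
    rw [mem_closedBall_zero_iff]
    linarith [hle z (Or.inl (Or.inr hz))]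
  · set ε : ℝ := min (min (1 / 10 ^ 4) (rho / 8)) (min ((r - ‖z1‖) / (2 * (1 + L))) (δ / (2 * (1 + L + L ^ 2))))
      with hεdef
    have hε0 : 0 < ε := by
      have := h.rho_pos
      have h2 : 0 < r - ‖z1‖ := by linarith
      positivity
    have hε1 : (1 + L) * ε ≤ (r - ‖z1‖) / 2 := by
      have h1 : ε ≤ (r - ‖z1‖) / (2 * (1 + L)) := (min_le_right _ _).trans (min_le_left _ _)
      rw [le_div_iff₀ (by positivity)] at h1
      linarith
    have hε2 : (1 + L + L ^ 2) * ε ≤ δ / 2 := by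
      have h1 : ε ≤ δ / (2 * (1 + L + L ^ 2)) := (min_le_right _ _).trans (min_le_right _ _)
      rw [le_div_iff₀ (by positivity)] at h1
      linarith
    intro b hb z hz
    have hzC : z ∈ C := dm3_EX_sub hz
    have hzK : z ∈ Metric.closedBall (0 : En d) ((‖z1‖ + r) / 2) := by
      rw [mem_closedBall_zero_iff]
      linarith [hle z (Or.inl (Or.inr hzC))]
    have e1 : ‖b z - B z‖ ≤ ε := hb z hzK
    have hb1 : b z ∈ Metric.closedBall (0 : En d) ((‖z1‖ + r) / 2) := by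
      rw [mem_closedBall_zero_iff]
      have h1 := hle (B z) (Or.inr (Or.inl ⟨z, hzC, rfl⟩))
      have h2 : ‖b z‖ ≤ ‖b z - B z‖ + ‖B z‖ := norm_le_norm_sub_add _ _
      nlinarith
    have e2 : ‖b (b z) - B (B z)‖ ≤ (1 + L) * ε := by
      have h1 := hb _ hb1
      have h2 := hL (b z) (B z)
      have h3 : ‖b (b z) - B (B z)‖ ≤ ‖b (b z) - B (b z)‖ + ‖B (b z) - B (B z)‖ := by
        have := norm_add_le (b (b z) - B (b z)) (B (b z) - B (B z))
        rwa [sub_add_sub_cancel] at this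
      nlinarith
    have hb2 : b (b z) ∈ Metric.closedBall (0 : En d) ((‖z1‖ + r) / 2) := by
      rw [mem_closedBall_zero_iff]
      have h1 := hle (B (B z)) (Or.inr (Or.inr ⟨_, ⟨z, hzC, rfl⟩, rfl⟩))
      have h2 : ‖b (b z)‖ ≤ ‖b (b z) - B (B z)‖ + ‖B (B z)‖ := norm_le_norm_sub_add _ _
      linarith
    have e3 : ‖b (b (b z)) - B (B (B z))‖ ≤ (1 + L + L ^ 2) * ε := by
      have h1 := hb _ hb2
      have h2 := hL (b (b z)) (B (B z))
      have h3 : ‖b (b (b z)) - B (B (B z))‖ ≤ ‖b (b (b z)) - B (b (b z))‖ + ‖B (b (b z)) - B (B (B z))‖ := by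
        have := norm_add_le (b (b (b z)) - B (b (b z))) (B (b (b z)) - B (B (B z)))
        rwa [sub_add_sub_cancel] at this
      nlinarith
    refine ⟨hb1, hb2, hthick ?_⟩
    rw [Metric.mem_thickening_iff]
    refine ⟨B^[3] z, ⟨z, hz, rfl⟩, ?_⟩
    rw [dist_eq_norm]
    show ‖b (b (b z)) - B (B (B z))‖ < δ
    linarith

end Pool.Agent.Lib.H37D
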