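import Pool.Agent.Lib.H37D.Defs

/-! # H37D, chunk DN01 (S/M): slopes of the strong stable directions, one step (section NF of PROOFN.md) -/

open Set Filter Topology Asymptotics
open scoped ContDiff

namespace Pool.Agent.Lib.H37D

open Pool.Agent.Lib.H37N

variable {d : ℕ}

/-- the properties of the derivatives of near maps which are used for the strong stable directions; `slp A s z = (A (z,0)).1 - s ((A (z,0)).2)` -/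
structure NLin (A : En d →L[ℝ] En d) : Prop where
  low : ∀ s : Wd d →L[ℝ] Pt, ‖s‖ ≤ 1 / 10 ^ 8 → ∀ z : Pt, ‖z‖ ≤ 4000 * ‖slp A s z‖
  zw : ∀ w, ‖(A (0, w)).1‖ ≤ 1 / 10 ^ 12 * ‖w‖
  wz : ∀ z, ‖(A (z, 0)).2‖ ≤ 1 / 10 ^ 12 * ‖z‖
  ww_le : ∀ w, ‖(A (0, w)).2‖ ≤ 101 / 10 ^ 9 * ‖w‖
  ww_ge : ∀ w, 89 / 10 ^ 9 * ‖w‖ ≤ ‖(A (0, w)).2‖

/-- Pull-back of a slope.

PROOF. B := slp A s : Pt →L[ℝ] Pt is injective by `low`, so bijective (finite dimension); B⁻¹ has norm ≤ 4000.  s' w := B⁻¹ (s ((A (0,w)).2) - (A (0,w)).1): a linear map of w, norm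
≤ 4000 (10^-8 * 101/10^9 + 10^-12) ≤ 10^-8.  A (s' w, w) = A (s' w, 0) + A (0,w) (`map_add`), so (A (s'w,w)).1 - s ((A (s'w,w)).2) = B (s' w) + (A (0,w)).1 - s ((A (0,w)).2) = 0.
(A (s'w,w)).2 = (A (0,w)).2 + (A (s'w,0)).2, the last term has norm ≤ 10^-12 * 10^-8 ‖w‖. -/
theorem slope_step {A : En d →L[ℝ] En d} (hA : NLin A) {s : Wd d →L[ℝ] Pt} (hs : ‖s‖ ≤ 1 / 10 ^ 8) :
    ∃ s' : Wd d →L[ℝ] Pt, ‖s'‖ ≤ 1 / 10 ^ 8 ∧ ∀ w, (A (s' w, w)).1 = s ((A (s' w, w)).2) ∧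
      ‖(A (s' w, w)).2‖ ≤ 102 / 10 ^ 9 * ‖w‖ ∧ 88 / 10 ^ 9 * ‖w‖ ≤ ‖(A (s' w, w)).2‖ := by
  have hBinj : Function.Injective (slp A s : Pt →ₗ[ℝ] Pt) := by
    rw [injective_iff_map_eq_zero]
    intro z hz
    have h1 := hA.low s hs z
    have h2 : slp A s z = 0 := hz
    rw [h2, norm_zero, mul_zero] at h1
    exact norm_le_zero_iff.mp h1
  let e : Pt ≃ₗ[ℝ] Pt := LinearEquiv.ofInjectiveEndo (slp A s : Pt →ₗ[ℝ] Pt) hBinj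
  have he : ∀ z : Pt, e z = slp A s z := fun z => rfl
  let Bi : Pt →L[ℝ] Pt := LinearMap.toContinuousLinearMap (e.symm : Pt →ₗ[ℝ] Pt)
  have hBi : ∀ z : Pt, slp A s (Bi z) = z := by
    intro z
    have h1 : Bi z = e.symm z := rfl
    rw [h1, ← he, LinearEquiv.apply_symm_apply]
  have hBn : ∀ z : Pt, ‖Bi z‖ ≤ 4000 * ‖z‖ := by
    intro z
    have h1 := hA.low s hs (Bi z)
    rwa [hBi] at h1
  let T : Wd d →L[ℝ] Pt :=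
    s.comp (((ContinuousLinearMap.snd ℝ Pt (Wd d)).comp A).comp (ContinuousLinearMap.inr ℝ Pt (Wd d))) -
      ((ContinuousLinearMap.fst ℝ Pt (Wd d)).comp A).comp (ContinuousLinearMap.inr ℝ Pt (Wd d))
  have hT : ∀ w, T w = s ((A (0, w)).2) - (A (0, w)).1 := fun w => rfl
  have hTn : ∀ w, ‖T w‖ ≤ (1 / 10 ^ 8 * (101 / 10 ^ 9) + 1 / 10 ^ 12) * ‖w‖ := by
    intro w
    rw [hT]
    have h1 := norm_sub_le (s ((A (0, w)).2)) ((A (0, w)).1)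
    have h2 : ‖s ((A (0, w)).2)‖ ≤ 1 / 10 ^ 8 * (101 / 10 ^ 9 * ‖w‖) :=
      (s.le_opNorm _).trans (mul_le_mul hs (hA.ww_le w) (norm_nonneg _) (by norm_num))
    have h3 := hA.zw w
    nlinarith [norm_nonneg w]
  have hs'n : ∀ w, ‖(Bi.comp T) w‖ ≤ 1 / 10 ^ 8 * ‖w‖ := by
    intro w
    have h1 : (Bi.comp T) w = Bi (T w) := rfl
    rw [h1]
    have h2 := hBn (T w)
    have h3 := hTn w
    have h4 := norm_nonneg w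
    norm_num at h3 ⊢
    linarith
  refine ⟨Bi.comp T, ContinuousLinearMap.opNorm_le_bound _ (by norm_num) hs'n, ?_⟩
  intro w
  have h1 : (Bi.comp T) w = Bi (T w) := rfl
  have h5 := hs'n w
  rw [h1] at h5 ⊢
  have hdec : ((Bi (T w), w) : En d) = (Bi (T w), 0) + (0, w) := by simp
  have h2 : A (Bi (T w), w) = A (Bi (T w), 0) + A (0, w) := by
    rw [hdec, map_add]
  have h3 : (A (Bi (T w), 0)).1 - s ((A (Bi (T w), 0)).2) = T w := hBi (T w)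
  have h4 := hA.wz (Bi (T w))
  have h6 := hA.ww_le w
  have h7 := hA.ww_ge w
  have h8 := norm_nonneg w
  have h9 : (A (Bi (T w), w)).2 = (A (0, w)).2 + (A (Bi (T w), 0)).2 := by
    rw [h2, Prod.snd_add, add_comm]
  refine ⟨?_, ?_, ?_⟩
  · rw [h2, Prod.fst_add, Prod.snd_add, map_add]
    have h10 := h3.trans (hT w)
    rw [sub_eq_sub_iff_add_eq_add] at h10
    rw [h10, add_comm]
  · rw [h9]
    have h10 := norm_add_le ((A (0, w)).2) ((A (Bi (T w), 0)).2)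
    norm_num at h4 h5 h6 h7 ⊢
    linarith
  · rw [h9]
    have h10 : ‖(A (0, w)).2‖ ≤ ‖(A (0, w)).2 + (A (Bi (T w), 0)).2‖ + ‖(A (Bi (T w), 0)).2‖ := by
      have := norm_sub_le ((A (0, w)).2 + (A (Bi (T w), 0)).2) ((A (Bi (T w), 0)).2)
      simpa using this
    norm_num at h4 h5 h6 h7 ⊢
    linarith

/-- The pull-back is a contraction.

PROOF. Let u = (A (s₂' w, w)).2, ‖u‖ ≤ 102/10^9 ‖w‖ (as in `slope_step`: ‖(A (0,w)).2‖ + 10^-12 ‖s₂' w‖).  z := (s₁' - s₂') w.  (A (z,0)).1 = (A (s₁'w,w)).1 - (A (s₂'w,w)).1 =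
s₁ (A (s₁'w,w)).2 - s₂ u and (A (z,0)).2 = (A (s₁'w,w)).2 - u, so slp A s₁ z = s₁ u - s₂ u = (s₁ - s₂) u, and ‖z‖ ≤ 4000 ‖s₁ - s₂‖ 102/10^9 ‖w‖ ≤ (1/2) ‖s₁ - s₂‖ ‖w‖.
`ContinuousLinearMap.opNorm_le_bound`. -/
theorem slope_contr {A : En d →L[ℝ] En d} (hA : NLin A) {s₁ s₂ s₁' s₂' : Wd d →L[ℝ] Pt}
    (hs₁ : ‖s₁‖ ≤ 1 / 10 ^ 8) (hs₂' : ‖s₂'‖ ≤ 1 / 10 ^ 8)
    (h₁ : ∀ w, (A (s₁' w, w)).1 = s₁ ((A (s₁' w, w)).2))
    (h₂ : ∀ w, (A (s₂' w, w)).1 = s₂ ((A (s₂' w, w)).2)) : ‖s₁' - s₂'‖ ≤ 1 / 2 * ‖s₁ - s₂‖ := by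
  refine ContinuousLinearMap.opNorm_le_bound _ (by positivity) ?_
  intro w
  have hz0 : (s₁' - s₂') w = s₁' w - s₂' w := rfl
  have hdec : ((s₁' w, w) : En d) - (s₂' w, w) = ((s₁' - s₂') w, 0) := by
    rw [hz0]; ext <;> simp
  have h3 : A ((s₁' - s₂') w, 0) = A (s₁' w, w) - A (s₂' w, w) := by
    rw [← hdec, map_sub]
  have hdec2 : ((s₂' w, w) : En d) = (s₂' w, 0) + (0, w) := by simp
  have h4 : (A (s₂' w, w)).2 = (A (0, w)).2 + (A (s₂' w, 0)).2 := by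
    rw [hdec2, map_add, Prod.snd_add, add_comm]
  have h5 : ‖(A (s₂' w, w)).2‖ ≤ 102 / 10 ^ 9 * ‖w‖ := by
    rw [h4]
    have h10 := norm_add_le ((A (0, w)).2) ((A (s₂' w, 0)).2)
    have h11 := hA.wz (s₂' w)
    have h12 := hA.ww_le w
    have h13 : ‖s₂' w‖ ≤ 1 / 10 ^ 8 * ‖w‖ := s₂'.le_of_opNorm_le hs₂' w
    have h14 := norm_nonneg w
    norm_num at h11 h12 h13 ⊢
    linarith
  have h6 : slp A s₁ ((s₁' - s₂') w) = (s₁ - s₂) ((A (s₂' w, w)).2) := by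
    have h7 : slp A s₁ ((s₁' - s₂') w) =
      (A ((s₁' - s₂') w, 0)).1 - s₁ ((A ((s₁' - s₂') w, 0)).2) := rfl
    rw [h7, h3, Prod.fst_sub, Prod.snd_sub, h₁ w, h₂ w, map_sub]
    have h8 : (s₁ - s₂) ((A (s₂' w, w)).2) = s₁ ((A (s₂' w, w)).2) - s₂ ((A (s₂' w, w)).2) := rfl
    rw [h8]; abel
  have h9 := hA.low s₁ hs₁ ((s₁' - s₂') w)
  rw [h6] at h9
  have h10 : ‖(s₁ - s₂) ((A (s₂' w, w)).2)‖ ≤ ‖s₁ - s₂‖ * (102 / 10 ^ 9 * ‖w‖) :=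
    ((s₁ - s₂).le_opNorm _).trans (mul_le_mul_of_nonneg_left h5 (norm_nonneg _))
  have h11 : 0 ≤ ‖s₁ - s₂‖ * ‖w‖ := by positivity
  calc ‖(s₁' - s₂') w‖ ≤ 4000 * (‖s₁ - s₂‖ * (102 / 10 ^ 9 * ‖w‖)) := h9.trans (by linarith)
    _ ≤ 1 / 2 * ‖s₁ - s₂‖ * ‖w‖ := by
      norm_num at *
      nlinarith

end Pool.Agent.Lib.H37D
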