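import Pool.Agent.Lib.H37D.DN01

/-! # H37D, chunk DN02 (M): the strong stable space of a product of near linear maps (section NF of PROOFN.md) -/

open Set Filter Topology Asymptotics
open scoped ContDiff

namespace Pool.Agent.Lib.H37D

open Pool.Agent.Lib.H37N

variable {d : ℕ}

/-- the product `A (k-1) ∘ .. ∘ A 0` -/
noncomputable def prodL (A : ℕ → En d →L[ℝ] En d) : ℕ → En d →L[ℝ] En d
  | 0 => ContinuousLinearMap.id ℝ _
  | k + 1 => (A k).comp (prodL A k)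

/-- The strong stable space.

PROOF. X := `Metric.closedBall (0 : Wd d →L[ℝ] Pt) (1/10^8)`, a nonempty complete metric space (subtype).  For i < m `slope_step` gives (choice) T_i : X → X, a (1/2)-contraction by `slope_contr`
(`LipschitzWith (1/2)`), and for every s in X and every w: A_i (T_i s w, w) = (s u, u) with u = (A_i (T_i s w, w)).2, 88/10^9 ‖w‖ ≤ ‖u‖ ≤ 102/10^9 ‖w‖.  F_k := T_0 ∘ .. ∘ T_{k-1} (recursively
F_0 = id, F_{k+1} = F_k ∘ T_k) is (1/2)^k-Lipschitz, and by induction on k ≤ m: for all s in X and all w, prodL A k (F_k s w, w) = (s u, u) for some u with (88/10^9)^k ‖w‖ ≤ ‖u‖ ≤ (102/10^9)^k ‖w‖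
(step: prodL A k (F_k (T_k s) w, w) = (T_k s u, u), apply A_k).  m ≥ 1: F_m is a contraction, `ContractingWith.exists_fixedPoint` (or `ContractingWith.fixedPoint`): F_m s = s.  A0 := the linear map w ↦
(prodL A m (s w, w)).2 (`ContinuousLinearMap.comp` of snd, prodL A m and s.prod id). -/
theorem strong_stable {m : ℕ} (hm : 0 < m) {A : ℕ → En d →L[ℝ] En d} (hA : ∀ i < m, NLin (A i)) :
    ∃ (s : Wd d →L[ℝ] Pt) (A0 : Wd d →L[ℝ] Wd d), ‖s‖ ≤ 1 / 10 ^ 8 ∧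
      (∀ w, prodL A m (s w, w) = (s (A0 w), A0 w)) ∧
      ∀ w, ‖A0 w‖ ≤ (102 / 10 ^ 9) ^ m * ‖w‖ ∧ (88 / 10 ^ 9) ^ m * ‖w‖ ≤ ‖A0 w‖ := by
  let X := Metric.closedBall (0 : Wd d →L[ℝ] Pt) (1 / 10 ^ 8)
  have hX : ∀ s : X, ‖(s : Wd d →L[ℝ] Pt)‖ ≤ 1 / 10 ^ 8 := fun s => mem_closedBall_zero_iff.mp s.2
  have : CompleteSpace X := Metric.isClosed_closedBall.completeSpace_coe
  have : Nonempty X := ⟨⟨0, Metric.mem_closedBall_self (by norm_num)⟩⟩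
  have hstep : ∀ i, ∃ T : X → X, i < m →
      (∀ s s' : X, dist (T s) (T s') ≤ 1 / 2 * dist s s') ∧
      (∀ (s : X) (w : Wd d), ∃ u : Wd d, A i ((T s : Wd d →L[ℝ] Pt) w, w) = ((s : Wd d →L[ℝ] Pt) u, u) ∧
        ‖u‖ ≤ 102 / 10 ^ 9 * ‖w‖ ∧ 88 / 10 ^ 9 * ‖w‖ ≤ ‖u‖) := by
    intro i
    by_cases hi : i < m
    · choose f hf using fun s : X => slope_step (hA i hi) (hX s)
      refine ⟨fun s => ⟨f s, mem_closedBall_zero_iff.mpr (hf s).1⟩, fun _ => ⟨?_, ?_⟩⟩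
      · intro s s'
        have h1 := slope_contr (hA i hi) (hX s) (hf s').1 (fun w => ((hf s).2 w).1) (fun w => ((hf s').2 w).1)
        rw [Subtype.dist_eq, Subtype.dist_eq, dist_eq_norm, dist_eq_norm]
        exact h1
      · intro s w
        refine ⟨(A i ((f s) w, w)).2, ?_, ((hf s).2 w).2.1, ((hf s).2 w).2.2⟩
        exact Prod.ext ((hf s).2 w).1 rfl
    · exact ⟨id, fun h => absurd h hi⟩
  choose T hT using hstep
  let F : ℕ → X → X := fun k => Nat.rec (motive := fun _ => X → X) id (fun k G => G ∘ T k) k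
  have hF0 : F 0 = id := rfl
  have hFs : ∀ k, F (k + 1) = F k ∘ T k := fun k => rfl
  have hlip : ∀ k, k ≤ m → ∀ s s' : X, dist (F k s) (F k s') ≤ (1 / 2) ^ k * dist s s' := by
    intro k
    induction k with
    | zero => intro _ s s'; rw [hF0]; simp
    | succ k ih =>
      intro hk s s'
      rw [hFs]
      have h1 := ih (by omega) (T k s) (T k s')
      have h2 := (hT k (by omega)).1 s s'
      calc dist ((F k ∘ T k) s) ((F k ∘ T k) s') ≤ (1 / 2) ^ k * dist (T k s) (T k s') := h1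
        _ ≤ (1 / 2) ^ k * (1 / 2 * dist s s') := mul_le_mul_of_nonneg_left h2 (by positivity)
        _ = (1 / 2) ^ (k + 1) * dist s s' := by ring
  have hpath : ∀ k, k ≤ m → ∀ (s : X) (w : Wd d), ∃ u : Wd d,
      prodL A k ((F k s : Wd d →L[ℝ] Pt) w, w) = ((s : Wd d →L[ℝ] Pt) u, u) ∧
        ‖u‖ ≤ (102 / 10 ^ 9) ^ k * ‖w‖ ∧ (88 / 10 ^ 9) ^ k * ‖w‖ ≤ ‖u‖ := by
    intro k
    induction k with
    | zero => intro _ s w; exact ⟨w, rfl, by simp, by simp⟩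
    | succ k ih =>
      intro hk s w
      obtain ⟨u, hu, hu1, hu2⟩ := ih (by omega) (T k s) w
      obtain ⟨u', hu', hu1', hu2'⟩ := (hT k (by omega)).2 s u
      refine ⟨u', ?_, ?_, ?_⟩
      · have h1 : prodL A (k + 1) ((F (k + 1) s : Wd d →L[ℝ] Pt) w, w) =
          A k (prodL A k ((F k (T k s) : Wd d →L[ℝ] Pt) w, w)) := rfl
        rw [h1, hu, hu']
      · calc ‖u'‖ ≤ 102 / 10 ^ 9 * ‖u‖ := hu1'
          _ ≤ 102 / 10 ^ 9 * ((102 / 10 ^ 9) ^ k * ‖w‖) := mul_le_mul_of_nonneg_left hu1 (by norm_num)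
          _ = (102 / 10 ^ 9) ^ (k + 1) * ‖w‖ := by ring
      · calc (88 / 10 ^ 9) ^ (k + 1) * ‖w‖ = 88 / 10 ^ 9 * ((88 / 10 ^ 9) ^ k * ‖w‖) := by ring
          _ ≤ 88 / 10 ^ 9 * ‖u‖ := mul_le_mul_of_nonneg_left hu2 (by norm_num)
          _ ≤ ‖u'‖ := hu2'
  have hcon : ContractingWith (1 / 2 : NNReal) (F m) := by
    refine ⟨by
      rw [← NNReal.coe_lt_coe]; norm_num, LipschitzWith.of_dist_le_mul ?_⟩
    intro s s'
    have h1 := hlip m le_rfl s s'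
    have h2 : ((1 : ℝ) / 2) ^ m ≤ 1 / 2 := by
      calc ((1 : ℝ) / 2) ^ m ≤ (1 / 2) ^ 1 := pow_le_pow_of_le_one (by norm_num) (by norm_num) hm
        _ = 1 / 2 := by norm_num
    have h3 : ((1 / 2 : NNReal) : ℝ) = 1 / 2 := by norm_num
    rw [h3]
    exact h1.trans (mul_le_mul_of_nonneg_right h2 dist_nonneg)
  obtain ⟨s, hs⟩ : ∃ s : X, F m s = s := ⟨_, hcon.fixedPoint_isFixedPt⟩
  let A0 : Wd d →L[ℝ] Wd d := ((ContinuousLinearMap.snd ℝ Pt (Wd d)).comp (prodL A m)).comp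
    ((s : Wd d →L[ℝ] Pt).prod (ContinuousLinearMap.id ℝ (Wd d)))
  have hA0 : ∀ w, A0 w = (prodL A m ((s : Wd d →L[ℝ] Pt) w, w)).2 := fun w => rfl
  have key : ∀ w, prodL A m ((s : Wd d →L[ℝ] Pt) w, w) = ((s : Wd d →L[ℝ] Pt) (A0 w), A0 w) ∧
      ‖A0 w‖ ≤ (102 / 10 ^ 9) ^ m * ‖w‖ ∧ (88 / 10 ^ 9) ^ m * ‖w‖ ≤ ‖A0 w‖ := by
    intro w
    obtain ⟨u, hu, hu1, hu2⟩ := hpath m le_rfl s w
    rw [hs] at hu
    have h1 : A0 w = u := by rw [hA0, hu]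
    rw [h1]
    exact ⟨hu, hu1, hu2⟩
  exact ⟨s, A0, hX s, fun w => (key w).1, fun w => (key w).2⟩

/-- Norms of `A0` and of its inverse.

PROOF. A0 is injective (lower bound, 88/10^9 > 0), so bijective (finite dimension, `LinearMap.injective_iff_surjective`); A0i its inverse
(`LinearEquiv.ofInjectiveEndo`, `LinearMap.toContinuousLinearMap`).  ‖A0‖ ≤ (102/10^9)^m < 1 (`opNorm_le_bound`, m ≥ 1), ‖A0i‖ ≤ (10^9/88)^m, product ‖A0i‖ ‖A0‖^2 ≤ (102^2/(88 * 10^9))^m < 1. -/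
theorem strong_norms {m : ℕ} (hm : 0 < m) {A0 : Wd d →L[ℝ] Wd d}
    (h : ∀ w, ‖A0 w‖ ≤ (102 / 10 ^ 9) ^ m * ‖w‖ ∧ (88 / 10 ^ 9) ^ m * ‖w‖ ≤ ‖A0 w‖) :
    ∃ A0i : Wd d →L[ℝ] Wd d, A0.comp A0i = ContinuousLinearMap.id ℝ _ ∧ A0i.comp A0 = ContinuousLinearMap.id ℝ _ ∧
      ‖A0‖ ≤ 1 / 100 ∧ ‖A0i‖ * ‖A0‖ ^ 2 < 1 := by
  have hpos : (0 : ℝ) < (88 / 10 ^ 9) ^ m := by positivity
  have hinj : Function.Injective (A0 : Wd d →ₗ[ℝ] Wd d) := by
    rw [injective_iff_map_eq_zero]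
    intro w hw
    have h1 := (h w).2
    have h2 : A0 w = 0 := hw
    rw [h2, norm_zero] at h1
    have h3 : ‖w‖ ≤ 0 := by
      by_contra h4
      push Not at h4
      have : 0 < (88 / 10 ^ 9) ^ m * ‖w‖ := mul_pos hpos h4
      linarith
    exact norm_le_zero_iff.mp h3
  let e : Wd d ≃ₗ[ℝ] Wd d := LinearEquiv.ofInjectiveEndo (A0 : Wd d →ₗ[ℝ] Wd d) hinj
  have he : ∀ z : Wd d, e z = A0 z := fun z => rfl
  let Bi : Wd d →L[ℝ] Wd d := LinearMap.toContinuousLinearMap (e.symm : Wd d →ₗ[ℝ] Wd d)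
  have hBi' : ∀ z : Wd d, Bi z = e.symm z := fun z => rfl
  have h1 : ∀ z, A0 (Bi z) = z := by
    intro z
    rw [hBi', ← he, LinearEquiv.apply_symm_apply]
  have h2 : ∀ z, Bi (A0 z) = z := by
    intro z
    rw [hBi', ← he, LinearEquiv.symm_apply_apply]
  have hn1 : ‖A0‖ ≤ (102 / 10 ^ 9) ^ m :=
    ContinuousLinearMap.opNorm_le_bound _ (by positivity) fun w => (h w).1
  have hn2 : ‖Bi‖ ≤ (10 ^ 9 / 88) ^ m := by
    refine ContinuousLinearMap.opNorm_le_bound _ (by positivity) fun w => ?_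
    have h3 := (h (Bi w)).2
    rw [h1] at h3
    have h4 : ((10 : ℝ) ^ 9 / 88) ^ m * (88 / 10 ^ 9) ^ m = 1 := by
      rw [← mul_pow]; norm_num
    calc ‖Bi w‖ = ((10 : ℝ) ^ 9 / 88) ^ m * ((88 / 10 ^ 9) ^ m * ‖Bi w‖) := by
          rw [← mul_assoc, h4, one_mul]
      _ ≤ (10 ^ 9 / 88) ^ m * ‖w‖ := mul_le_mul_of_nonneg_left h3 (by positivity)
  refine ⟨Bi, ContinuousLinearMap.ext h1, ContinuousLinearMap.ext h2, ?_, ?_⟩
  · calc ‖A0‖ ≤ (102 / 10 ^ 9) ^ m := hn1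
      _ ≤ (102 / 10 ^ 9) ^ 1 := pow_le_pow_of_le_one (by norm_num) (by norm_num) hm
      _ ≤ 1 / 100 := by norm_num
  · calc ‖Bi‖ * ‖A0‖ ^ 2 ≤ (10 ^ 9 / 88) ^ m * ((102 / 10 ^ 9) ^ m) ^ 2 := by
          gcongr
      _ = (10 ^ 9 / 88 * (102 / 10 ^ 9) ^ 2) ^ m := by
          rw [← pow_mul, mul_comm m 2, pow_mul, ← mul_pow]
      _ < 1 := pow_lt_one₀ (by norm_num) (by norm_num) hm.ne'

end Pool.Agent.Lib.H37D
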