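import Pool.Agent.Lib.H37D.D0
import Pool.Agent.Lib.H37D.DN02

/-! # H37D, chunk DN03 (M): derivatives of near maps are near linear; the strong stable space of a periodic point (section NF of PROOFN.md) -/

open Set Filter Topology Asymptotics
open scoped ContDiff

namespace Pool.Agent.Lib.H37D

open Pool.Agent.Lib.H37N

variable {d : ℕ}

theorem dn03_awk (d : ℕ) (k : Fin d) : 9 / 10 ^ 8 ≤ awk d k ∧ awk d k ≤ 1 / 10 ^ 7 := by
  refine ⟨?_, (d0_awk_pos d k).2⟩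
  have hk : (k : ℝ) + 1 ≤ (d : ℝ) + 1 := by
    have h1 : (k : ℝ) ≤ (d : ℝ) := by exact_mod_cast k.2.le
    linarith
  have hd : 0 < 10 * ((d : ℝ) + 1) := by positivity
  have h2 : ((k : ℝ) + 1) / (10 * ((d : ℝ) + 1)) ≤ 1 / 10 := by
    rw [div_le_iff₀ hd]
    linarith
  unfold awk aw
  linarith

theorem dn03_mulw_le (w : Wd d) : ‖mulw (awk d) w‖ ≤ 1 / 10 ^ 7 * ‖w‖ := by
  rw [pi_norm_le_iff_of_nonneg (by positivity)]
  intro k
  unfold mulw
  rw [norm_mul, Real.norm_eq_abs, abs_of_pos (d0_awk_pos d k).1]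
  exact mul_le_mul (dn03_awk d k).2 (norm_le_pi_norm w k) (norm_nonneg _) (by norm_num)

theorem dn03_mulw_ge (w : Wd d) : 9 / 10 ^ 8 * ‖w‖ ≤ ‖mulw (awk d) w‖ := by
  have h1 : ‖w‖ ≤ (10 ^ 8 / 9) * ‖mulw (awk d) w‖ := by
    rw [pi_norm_le_iff_of_nonneg (by positivity)]
    intro k
    have h2 := norm_le_pi_norm (mulw (awk d) w) k
    have h3 : ‖mulw (awk d) w k‖ = awk d k * ‖w k‖ := by
      unfold mulw
      rw [norm_mul, Real.norm_eq_abs, abs_of_pos (d0_awk_pos d k).1]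
    rw [h3] at h2
    have h4 : 9 / 10 ^ 8 * ‖w k‖ ≤ awk d k * ‖w k‖ :=
      mul_le_mul_of_nonneg_right (dn03_awk d k).1 (norm_nonneg _)
    have h5 : 9 / 10 ^ 8 * ‖w k‖ ≤ ‖mulw (awk d) w‖ := h4.trans h2
    calc ‖w k‖ = (10 ^ 8 / 9) * (9 / 10 ^ 8 * ‖w k‖) := by ring
      _ ≤ (10 ^ 8 / 9) * ‖mulw (awk d) w‖ := mul_le_mul_of_nonneg_left h5 (by norm_num)
  calc 9 / 10 ^ 8 * ‖w‖ ≤ 9 / 10 ^ 8 * ((10 ^ 8 / 9) * ‖mulw (awk d) w‖) :=
        mul_le_mul_of_nonneg_left h1 (by norm_num)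
    _ = ‖mulw (awk d) w‖ := by ring

theorem dn03_z (z : Pt) : ‖((z, 0) : En d)‖ = ‖z‖ := by
  rw [Prod.norm_def]
  simp

theorem dn03_w (w : Wd d) : ‖((0, w) : En d)‖ = ‖w‖ := by
  rw [Prod.norm_def]
  simp

/-- perturbation of a block diagonal map -/
theorem dn03_gen {D M : En d →L[ℝ] En d} (h : ‖D - M‖ ≤ e0) {m : Pt → Pt}
    (hz : ∀ z : Pt, M (z, 0) = (m z, 0)) (hm : ∀ z, ‖z‖ ≤ 3000 * ‖m z‖)
    (hw : ∀ w, M (0, w) = (0, mulw (awk d) w)) : NLin D := by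
  have he : e0 = 1 / 10 ^ 12 := rfl
  have hd : ∀ v, ‖D v - M v‖ ≤ 1 / 10 ^ 12 * ‖v‖ := fun v => by
    have h1 := (D - M).le_opNorm v
    rw [ContinuousLinearMap.sub_apply] at h1
    exact h1.trans (mul_le_mul_of_nonneg_right (h.trans he.le) (norm_nonneg _))
  have hdz : ∀ z : Pt, ‖(D (z, 0)).1 - m z‖ ≤ 1 / 10 ^ 12 * ‖z‖ ∧
      ‖(D (z, 0)).2‖ ≤ 1 / 10 ^ 12 * ‖z‖ := fun z => by
    have h1 := hd (z, 0)
    rw [hz, dn03_z, Prod.norm_def, max_le_iff] at h1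
    refine ⟨h1.1, ?_⟩
    have h2 := h1.2
    simpa using h2
  have hdw : ∀ w, ‖(D (0, w)).1‖ ≤ 1 / 10 ^ 12 * ‖w‖ ∧
      ‖(D (0, w)).2 - mulw (awk d) w‖ ≤ 1 / 10 ^ 12 * ‖w‖ := fun w => by
    have h1 := hd (0, w)
    rw [hw, dn03_w, Prod.norm_def, max_le_iff] at h1
    refine ⟨?_, h1.2⟩
    have h2 := h1.1
    simpa using h2
  refine ⟨?_, fun w => (hdw w).1, fun z => (hdz z).2, ?_, ?_⟩
  · intro s hs z
    have h1 : slp D s z = (D (z, 0)).1 - s ((D (z, 0)).2) := rfl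
    obtain ⟨h2, h3⟩ := hdz z
    have h4 : ‖s ((D (z, 0)).2)‖ ≤ 1 / 10 ^ 8 * (1 / 10 ^ 12 * ‖z‖) :=
      (s.le_opNorm _).trans (mul_le_mul hs h3 (norm_nonneg _) (by norm_num))
    have h5 : m z = slp D s z - ((D (z, 0)).1 - m z) + s ((D (z, 0)).2) := by
      rw [h1]
      abel
    have h6 : ‖m z‖ ≤ ‖slp D s z‖ + ‖(D (z, 0)).1 - m z‖ + ‖s ((D (z, 0)).2)‖ := by
      conv_lhs => rw [h5]
      refine (norm_add_le _ _).trans (add_le_add (norm_sub_le _ _) le_rfl)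
    have h7 := hm z
    have h8 : 0 ≤ ‖z‖ := norm_nonneg _
    nlinarith
  · intro w
    have h1 := (hdw w).2
    have h2 := dn03_mulw_le w
    have h3 : ‖(D (0, w)).2‖ ≤ ‖(D (0, w)).2 - mulw (awk d) w‖ + ‖mulw (awk d) w‖ := by
      have := norm_add_le ((D (0, w)).2 - mulw (awk d) w) (mulw (awk d) w)
      rwa [sub_add_cancel] at this
    have h8 : 0 ≤ ‖w‖ := norm_nonneg _
    linarith
  · intro w
    have h1 := (hdw w).2
    have h2 := dn03_mulw_ge w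
    have h3 : ‖mulw (awk d) w‖ ≤ ‖(D (0, w)).2‖ + ‖(D (0, w)).2 - mulw (awk d) w‖ := by
      have := norm_sub_le (D (0, w)).2 ((D (0, w)).2 - mulw (awk d) w)
      rwa [sub_sub_cancel] at this
    have h8 : 0 ≤ ‖w‖ := norm_nonneg _
    linarith

/-- Derivatives of near maps are near linear.

PROOF. On `VVd d i`: D = fderiv ℝ g z, ‖D - MdL d i‖ ≤ en d ≤ e0 = 10^-12 (`closeS`, `en_le`), MdL ((x,y),w) = ((x / pw i, qw i * y), awk .* w); awk in (0.9 * 10^-7, 10^-7] gives ww_le, ww_ge (sup norm: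
(89/10^9 + 10^-12) |w_k| ≤ |awk k w_k|); zw, wz: the model part is 0.  low: slp D s z = (1/pw x, qw y) + error, error ≤ (10^-12 + 10^-8 * 10^-12) ‖z‖, 1/pw ≥ 1, qw ≥ 499/1000, so
‖slp D s z‖ ≥ (0.499 - 2 * 10^-12) ‖z‖.  On `FFd d`: `foldS`, model z = (x,y) ↦ (-k x + y/2, -x) with |k| = |2 dd (z.1.1 - xc)| ≤ 1250: for u = (-k x + y/2, -x): |x| ≤ ‖u‖, |y| ≤ 2(‖u‖ + 1250 |x|) ≤ 2502 ‖u‖, so
‖z‖ ≤ 2502 ‖u‖, and ‖u - slp D s z‖ ≤ 2 * 10^-12 ‖z‖.  (d = 0: `Wd 0` is trivial, awk_k has no instances.) -/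
theorem NearS.nlin {g : En d → En d} (hg : NearS g) {z : En d} (hz : z ∈ Dd d) : NLin (fderiv ℝ g z) := by
  have hV : ∀ i, z ∈ VVd d i → NLin (fderiv ℝ g z) := by
    intro i hi
    refine dn03_gen ((hg.closeS i z hi).trans (en_le d)) (m := fun z => (1 / pw i * z.1, qw i * z.2))
      ?_ ?_ ?_
    · intro z
      rw [MdL, dgD_apply]
      refine Prod.ext rfl ?_
      funext k
      simp [mulw]
    · intro z
      have hp : 1 ≤ 1 / pw i := by cases i <;> norm_num [pw]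
      have hq : 1 / 10 ≤ qw i := by cases i <;> norm_num [qw]
      rw [Prod.norm_def, Prod.norm_def]
      have h1 : ‖z.1‖ ≤ ‖1 / pw i * z.1‖ := by
        rw [norm_mul, Real.norm_eq_abs (1 / pw i), abs_of_pos (by linarith)]
        nlinarith [norm_nonneg z.1]
      have h2 : ‖z.2‖ ≤ 10 * ‖qw i * z.2‖ := by
        rw [norm_mul, Real.norm_eq_abs (qw i), abs_of_pos (by linarith)]
        nlinarith [norm_nonneg z.2]
      have h3 := le_max_left ‖1 / pw i * z.1‖ ‖qw i * z.2‖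
      have h4 := le_max_right ‖1 / pw i * z.1‖ ‖qw i * z.2‖
      have h5 : 0 ≤ ‖z.1‖ := norm_nonneg _
      refine max_le ?_ ?_ <;> simp only <;> linarith
    · intro w
      rw [MdL, dgD_apply]
      refine Prod.ext ?_ rfl
      simp
  rcases hz with (hz | hz) | hz
  · exact hV _ hz
  · exact hV _ hz
  · set a : ℝ := -(2 * dd * (z.1.1 - xc)) with ha
    refine dn03_gen ((hg.foldS z hz).trans (en_le d)) (m := fun z => (a * z.1 + cc * z.2, -z.1))
      ?_ ?_ ?_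
    · intro v
      refine Prod.ext rfl ?_
      show mulL (awk d) (0 : Wd d) = 0
      rw [map_zero]
    · intro v
      have h0 : |z.1.1 - xc| ≤ 1 / 4000 := by
        have h1 := hz.1.1
        have hu : u0 = 1 / 4000 := rfl
        rw [hu] at h1
        rw [abs_le]
        constructor <;> linarith [h1.1, h1.2]
      have h1 : |a| ≤ 1250 := by
        rw [ha, abs_neg, abs_mul]
        have hdd : |2 * dd| = 5000000 := by norm_num [dd]
        rw [hdd]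
        linarith
      rw [Prod.norm_def, Prod.norm_def]
      have h2 := le_max_left ‖a * v.1 + cc * v.2‖ ‖-v.1‖
      have h3 := le_max_right ‖a * v.1 + cc * v.2‖ ‖-v.1‖
      set X := max ‖a * v.1 + cc * v.2‖ ‖-v.1‖
      rw [norm_neg] at h3
      have h4 : ‖cc * v.2‖ ≤ ‖a * v.1 + cc * v.2‖ + ‖a * v.1‖ := by
        have := norm_sub_le (a * v.1 + cc * v.2) (a * v.1)
        rwa [add_sub_cancel_left] at this
      have h5 : ‖a * v.1‖ ≤ 1250 * X := by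
        rw [norm_mul, Real.norm_eq_abs a]
        exact mul_le_mul h1 h3 (norm_nonneg _) (by norm_num)
      have h6 : ‖cc * v.2‖ = 1 / 2 * ‖v.2‖ := by
        rw [norm_mul]
        norm_num [cc]
      rw [h6] at h4
      have h7 : 0 ≤ ‖v.1‖ := norm_nonneg _
      have h8 : 0 ≤ ‖v.2‖ := norm_nonneg _
      refine max_le ?_ ?_ <;> linarith
    · intro w
      refine Prod.ext ?_ ?_
      · simp [FoldL]
      · show mulL (awk d) w = mulw (awk d) w
        exact mulL_apply _ _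

theorem dn03_Om (g : En d → En d) {z : En d} (hz : z ∈ Omd d) : z ∈ Dd d := by
  obtain ⟨h1, h2⟩ := hz
  have h3 : z.2 ∈ BW d := Metric.ball_subset_closedBall h2
  rcases h1 with (h1 | h1) | h1
  · exact Or.inl (Or.inl ⟨interior_subset h1, h3⟩)
  · exact Or.inl (Or.inr ⟨interior_subset h1, h3⟩)
  · exact Or.inr ⟨interior_subset h1, h3⟩

/-- The derivative of the iterate is the product of the derivatives.

PROOF. Induction on k ≤ m: `g^[k+1] = g ∘ g^[k]` (`Function.iterate_succ'`), chain rule; g is differentiable at the points of Omd d ⊆ Dd d (NearD.smooth: ContDiffOn on an open set containing Dd d;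
`interior_subset`), `fderiv_comp`. -/
theorem NearS.fderiv_iterate {g : En d → En d} (hg : NearS g) {z : En d} (m : ℕ) (hz : ∀ i < m, g^[i] z ∈ Omd d) :
    ContDiffAt ℝ ∞ g^[m] z ∧ fderiv ℝ g^[m] z = prodL (fun i => fderiv ℝ g (g^[i] z)) m ∧
      Function.Bijective (fderiv ℝ g^[m] z) := by
  obtain ⟨O, hO, hDO, hgO, -, hbij⟩ := hg.smooth
  induction m with
  | zero =>
    refine ⟨contDiffAt_id, ?_, ?_⟩
    · rw [Function.iterate_zero]
      exact fderiv_id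
    · rw [Function.iterate_zero]
      have h1 : fderiv ℝ (id : En d → En d) z = ContinuousLinearMap.id ℝ _ := fderiv_id
      rw [h1]
      exact Function.bijective_id
  | succ m ih =>
    obtain ⟨h1, h2, h3⟩ := ih fun i hi => hz i (hi.trans (Nat.lt_succ_self m))
    have hm : g^[m] z ∈ O := hDO (dn03_Om g (hz m (Nat.lt_succ_self m)))
    have h4 : ContDiffAt ℝ ∞ g (g^[m] z) := (hgO _ hm).contDiffAt (hO.mem_nhds hm)
    have h5 : g^[m + 1] = g ∘ g^[m] := Function.iterate_succ' g m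
    have h6 : fderiv ℝ g^[m + 1] z = (fderiv ℝ g (g^[m] z)).comp (fderiv ℝ g^[m] z) := by
      rw [h5]
      exact fderiv_comp z (h4.differentiableAt (by simp)) (h1.differentiableAt (by simp))
    refine ⟨?_, ?_, ?_⟩
    · rw [h5]
      exact h4.comp z h1
    · rw [h6, h2]
      rfl
    · rw [h6]
      exact (hbij _ hm).comp h3

/-- The strong stable space of a periodic point.

PROOF. `strong_stable` with A i = fderiv ℝ g (g^[i] z) (Omd d ⊆ Dd d), `strong_norms`, `NearS.fderiv_iterate`. -/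
theorem NearS.strong {g : En d → En d} (hg : NearS g) {z : En d} {m : ℕ} (hm : 0 < m) (hz : ∀ i < m, g^[i] z ∈ Omd d) :
    ∃ (s : Wd d →L[ℝ] Pt) (A0 A0i : Wd d →L[ℝ] Wd d), ‖s‖ ≤ 1 / 10 ^ 8 ∧
      (∀ w, fderiv ℝ g^[m] z (s w, w) = (s (A0 w), A0 w)) ∧ A0.comp A0i = ContinuousLinearMap.id ℝ _ ∧
      A0i.comp A0 = ContinuousLinearMap.id ℝ _ ∧ ‖A0‖ ≤ 1 / 100 ∧ ‖A0i‖ * ‖A0‖ ^ 2 < 1 := by
  obtain ⟨s, A0, h1, h2, h3⟩ := strong_stable hm (A := fun i => fderiv ℝ g (g^[i] z))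
    fun i hi => hg.nlin (dn03_Om g (hz i hi))
  obtain ⟨A0i, h4, h5, h6, h7⟩ := strong_norms hm h3
  refine ⟨s, A0, A0i, h1, ?_, h4, h5, h6, h7⟩
  intro w
  rw [(hg.fderiv_iterate m hz).2.1]
  exact h2 w

end Pool.Agent.Lib.H37D
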