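import Pool.Agent.Lib.H37D.D0
import Pool.Agent.Lib.H37N.T3

/-! # H37D, chunk DN05 (S/M): passing to the minimal period (section NF of PROOFN.md) -/

open Set Filter Topology Asymptotics
open scoped ContDiff

namespace Pool.Agent.Lib.H37D

open Pool.Agent.Lib.H37N

variable {d : ℕ}

theorem dn05_Om {z : En d} (hz : z ∈ Omd d) : z ∈ Dd d := by
  obtain ⟨h1, h2⟩ := hz
  have h3 : z.2 ∈ BW d := Metric.ball_subset_closedBall h2
  rcases h1 with (h1 | h1) | h1
  · exact Or.inl (Or.inl ⟨interior_subset h1, h3⟩)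
  · exact Or.inl (Or.inr ⟨interior_subset h1, h3⟩)
  · exact Or.inr ⟨interior_subset h1, h3⟩

theorem dn05_cont {g : En d → En d} (hg : NearS g) {z : En d} (m : ℕ)
    (hz : ∀ i < m, g^[i] z ∈ Omd d) : ContinuousAt g^[m] z := by
  obtain ⟨O, hO, hDO, hgO, -, -⟩ := hg.smooth
  induction m with
  | zero => exact continuousAt_id
  | succ m ih =>
    have h1 := ih fun i hi => hz i (hi.trans (Nat.lt_succ_self m))
    have hm : g^[m] z ∈ O := hDO (dn05_Om (hz m (Nat.lt_succ_self m)))
    have h4 : ContinuousAt g (g^[m] z) := (hgO.continuousOn _ hm).continuousAt (hO.mem_nhds hm)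
    rw [Function.iterate_succ']
    exact h4.comp h1

/-- A disc of periodic points contains a smaller disc of points of constant minimal period.

PROOF. Let O be an open neighbourhood of 0 with the properties of `CentreSpot` (K, ι), such that for v in O: ι is ContDiffAt at v, fderiv ℝ ι v is injective (open condition: fderiv ℝ ι is continuous at 0
and injective linear maps of finite-dimensional spaces form an open set, `ContinuousLinearMap.isOpen_injective` or antilipschitz), g^[i] (ι v) in Omd for i < K, g^[K] (ι v) = ι v.  For v in O let p(v) = the least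
m ≥ 1 with g^[m] (ι v) = ι v, p(v) ≤ K.  Let v₁ in O have maximal p(v₁) = m.  For v near v₁ and 0 < i < m: g^[i] (ι v) ≠ ι v (both sides continuous at v₁: g^[i] is continuous at ι v₁ because the orbit is in
Omd, an open set where g is C^inf), so p(v) ≥ m, so p(v) = m by maximality.  New disc: ι'(v) := ι(v₁ + v).  Its derivative at 0 is fderiv ℝ ι v₁ (`fderiv_comp_const_add` or chain rule).  For i < m ≤ K the
points are in Omd.  Distinctness: for 0 < i < m, g^[i] (ι v₁) ≠ ι v₁.  Finally `localise_at` (H37N.T3) makes ι' globally smooth. -/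
theorem CentreSpot.minimal {g : En d → En d} (hg : NearS g) (h : CentreSpot g) :
    ∃ m : ℕ, 0 < m ∧ ∃ ι : Pt → En d, ContDiff ℝ ∞ ι ∧ Function.Injective (fderiv ℝ ι 0) ∧
      (∀ᶠ v in 𝓝 (0 : Pt), (∀ i < m, g^[i] (ι v) ∈ Omd d) ∧ g^[m] (ι v) = ι v) ∧
      ∀ i, 0 < i → i < m → g^[i] (ι 0) ≠ ι 0 := by
  obtain ⟨K, hK, ι, hι, hinj, hper⟩ := h
  have hi : ∀ᶠ v in 𝓝 (0 : Pt), Function.Injective (fderiv ℝ ι v) := by
    have h1 : ContDiffAt ℝ ∞ ι 0 := hι.self_of_nhds
    have h2 : ContinuousAt (fderiv ℝ ι) 0 := (h1.fderiv_right (m := 0) (by simp)).continuousAt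
    have h3 : IsOpen {L : Pt →L[ℝ] En d | Function.Injective L} := ContinuousLinearMap.isOpen_injective
    exact h2.eventually (h3.mem_nhds hinj)
  obtain ⟨t, ht, hto, h0t⟩ := eventually_nhds_iff.1 (hι.and (hi.and hper))
  have hpp : ∀ v ∈ t, Function.IsPeriodicPt g K (ι v) := fun v hv => (ht v hv).2.2.2
  obtain ⟨v1, hv1, hmin⟩ := WellFounded.has_min
    (measure fun v => K - Function.minimalPeriod g (ι v)).wf t ⟨0, h0t⟩
  have hmax : ∀ v ∈ t, Function.minimalPeriod g (ι v) ≤ Function.minimalPeriod g (ι v1) := by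
    intro v hv
    have h1 := hmin v hv
    have h2 := (hpp v hv).minimalPeriod_le hK
    have h3 := (hpp v1 hv1).minimalPeriod_le hK
    have h4 : ¬ (K - Function.minimalPeriod g (ι v) < K - Function.minimalPeriod g (ι v1)) := h1
    omega
  obtain ⟨m, hm⟩ : ∃ m, m = Function.minimalPeriod g (ι v1) := ⟨_, rfl⟩
  rw [← hm] at hmax
  have hmpos : 0 < m := by
    rw [hm]
    exact (hpp v1 hv1).minimalPeriod_pos hK
  have hmK : m ≤ K := by
    rw [hm]
    exact (hpp v1 hv1).minimalPeriod_le hK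
  have hne : ∀ i, 0 < i → i < m → g^[i] (ι v1) ≠ ι v1 := by
    intro i hi0 him heq
    rw [hm] at him
    exact Function.not_isPeriodicPt_of_pos_of_lt_minimalPeriod hi0.ne' him heq
  have hιc : ContinuousAt ι v1 := (ht v1 hv1).1.continuousAt
  have hev : ∀ᶠ v in 𝓝 v1, ∀ i ∈ Finset.range m, 0 < i → g^[i] (ι v) ≠ ι v := by
    rw [Filter.eventually_all_finset]
    intro i him
    rw [Finset.mem_range] at him
    by_cases hi0 : 0 < i
    · have h1 : ContinuousAt g^[i] (ι v1) := dn05_cont hg i fun j hj =>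
        (ht v1 hv1).2.2.1 j (by omega)
      have h2 : ContinuousAt (fun v => g^[i] (ι v)) v1 := h1.comp hιc
      have h4 : IsOpen {p : En d × En d | p.1 ≠ p.2} := isOpen_ne_fun continuous_fst continuous_snd
      have h3 : ∀ᶠ v in 𝓝 v1, (g^[i] (ι v), ι v) ∈ {p : En d × En d | p.1 ≠ p.2} :=
        (h2.prodMk hιc).eventually (h4.mem_nhds (hne i hi0 him))
      filter_upwards [h3] with v hv _
      exact hv
    · exact Filter.Eventually.of_forall fun v h => absurd h hi0
  have hev2 : ∀ᶠ v in 𝓝 v1, ContDiffAt ℝ ∞ ι v ∧ (∀ i < m, g^[i] (ι v) ∈ Omd d) ∧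
      g^[m] (ι v) = ι v := by
    filter_upwards [hev, hto.mem_nhds hv1] with v hv hvt
    refine ⟨(ht v hvt).1, fun i hi => (ht v hvt).2.2.1 i (by omega), ?_⟩
    have h1 := hmax v hvt
    have h2 : Function.minimalPeriod g (ι v) = m := by
      by_contra hcon
      have h3 : Function.minimalPeriod g (ι v) < m := lt_of_le_of_ne h1 hcon
      exact hv _ (Finset.mem_range.2 h3) ((hpp v hvt).minimalPeriod_pos hK)
        (Function.isPeriodicPt_minimalPeriod g (ι v))
    rw [← h2]
    exact Function.isPeriodicPt_minimalPeriod g (ι v)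
  have htend : Tendsto (fun v : Pt => v1 + v) (𝓝 0) (𝓝 v1) := by
    have h1 : Continuous fun v : Pt => v1 + v := by fun_prop
    have h2 := h1.tendsto 0
    rwa [add_zero] at h2
  have hev3 := htend.eventually hev2
  have hsm : ∀ᶠ v in 𝓝 (0 : Pt), ContDiffAt ℝ ∞ (fun v => ι (v1 + v)) v := by
    filter_upwards [hev3] with v hv
    have h1 : ContDiffAt ℝ ∞ (fun v : Pt => v1 + v) v := by fun_prop
    exact hv.1.comp v h1
  obtain ⟨ι', hι', heq⟩ := localise_at hsm
  refine ⟨m, hmpos, ι', hι', ?_, ?_, ?_⟩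
  · rw [heq.fderiv_eq, fderiv_comp_add_left, add_zero]
    exact (ht v1 hv1).2.1
  · filter_upwards [hev3, heq] with v hv hv'
    rw [hv']
    exact hv.2
  · have h1 : ι' 0 = ι v1 := by
      rw [heq.eq_of_nhds, add_zero]
    rw [h1]
    exact hne

end Pool.Agent.Lib.H37D
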