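import Pool.Agent.Lib.H37N.T3

/-! # H37D, chunk DN10 (M): a linear equation for multilinear maps, with a parameter (section NF of PROOFN.md) -/

open Set Filter Topology Asymptotics
open scoped ContDiff

namespace Pool.Agent.Lib.H37D

open Pool.Agent.Lib.H37N

variable {Z W E : Type} [NormedAddCommGroup Z] [NormedSpace ℝ Z] [FiniteDimensional ℝ Z]
  [NormedAddCommGroup W] [NormedSpace ℝ W] [FiniteDimensional ℝ W]
  [NormedAddCommGroup E] [NormedSpace ℝ E] [FiniteDimensional ℝ E]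

omit [FiniteDimensional ℝ W] [FiniteDimensional ℝ E] in
theorem dn10_aux {X : Type} [NormedAddCommGroup X] [NormedSpace ℝ X] [CompleteSpace X]
    {T : Z → X →L[ℝ] X} (hT : ContDiff ℝ ∞ T) {U Ui K : X →L[ℝ] X}
    (h1 : U.comp Ui = ContinuousLinearMap.id ℝ X) (h2 : Ui.comp U = ContinuousLinearMap.id ℝ X)
    (hK : ‖K‖ < 1) (hT0 : T 0 = U.comp (ContinuousLinearMap.id ℝ X - K))
    {C : Z → X} (hC : ContDiff ℝ ∞ C) :
    ∃ P : Z → X, ContDiff ℝ ∞ P ∧ ∀ᶠ v in 𝓝 (0 : Z), T v (P v) = - C v := by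
  have hu1 : IsUnit U := ⟨⟨U, Ui, h1, h2⟩, rfl⟩
  have hu0 : IsUnit (T 0) := by
    rw [hT0]
    exact hu1.mul (isUnit_one_sub_of_norm_lt_one hK)
  have hev : ∀ᶠ v in 𝓝 (0 : Z), IsUnit (T v) :=
    hT.continuous.continuousAt.eventually (Units.isOpen.mem_nhds hu0)
  obtain ⟨P, hP, hPe⟩ := localise_at (x₀ := (0 : Z)) (f := fun v => -(Ring.inverse (T v)) (C v)) (by
    filter_upwards [hev] with v hv
    obtain ⟨u, hu⟩ := hv
    have h3 : ContDiffAt ℝ ∞ (fun v => Ring.inverse (T v)) v := by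
      refine ContDiffAt.comp (g := Ring.inverse) v ?_ hT.contDiffAt
      rw [← hu]
      exact contDiffAt_ringInverse ℝ u
    exact (h3.clm_apply hC.contDiffAt).neg)
  refine ⟨P, hP, ?_⟩
  filter_upwards [hev, hPe] with v hv hPv
  rw [hPv, map_neg]
  have h4 : T v (Ring.inverse (T v) (C v)) = (T v * Ring.inverse (T v)) (C v) := rfl
  rw [h4, Ring.mul_inverse_cancel _ hv]
  rfl

set_option backward.isDefEq.respectTransparency false in
/-- The equation `M(v) ∘ P(v) - P(v) ∘ A(v)^{⊗j} = - C(v)` has a solution which is smooth in `v`.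

PROOF. X := `W [×j]→L[ℝ] E` (a complete normed space).  T(v) : X →L[ℝ] X, T(v) P = M(v) ∘ P - P ∘ (A(v),..,A(v)):
first term `ContinuousLinearMap.compContinuousMultilinearMapL ℝ (fun _ : Fin j => W) E E (M v)` (a continuous linear function of `M v`),
second term `ContinuousMultilinearMap.compContinuousLinearMapContinuousMultilinear ℝ (fun _ : Fin j => W) (fun _ => W) E (fun _ => A v)` (a
continuous multilinear function of its arguments, `ContinuousMultilinearMap.contDiff`, composed with v ↦ (fun _ => A v), `contDiff_pi`); so T is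
C^inf in v.  T(0) is invertible: S₀ P := Mi ∘ P - ... more precisely T(0) P = M(0) ∘ (P - K P) with K P = Mi ∘ P ∘ A(0)^{⊗j}, ‖K‖ ≤ ‖Mi‖ ‖A 0‖^j < 1
(`ContinuousMultilinearMap.norm_compContinuousLinearMap_le`, `ContinuousLinearMap.norm_compContinuousMultilinearMap_le`,
`ContinuousLinearMap.opNorm_le_bound`), so 1 - K is a unit (`isUnit_one_sub_of_norm_lt_one` or `NormedRing.inverse_one_sub`,
in the ring X →L[ℝ] X), and P ↦ M(0) ∘ P is a unit with inverse P ↦ Mi ∘ P.  So T(0) is a unit u, `contDiffAt_ringInverse ℝ u` : `Ring.inverse` is C^inf at T(0), and T(v) is a unit for v near 0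
(`Units.nhds`).  P(v) := - (Ring.inverse (T v)) (C v) near 0: C^inf at all v near 0 (T(v) is a unit there), T(v) (P(v)) = - C(v) (`Ring.mul_inverse_cancel`).
Make it globally smooth with `localise_at`. -/
theorem solve_multi {M : Z → E →L[ℝ] E} (hM : ContDiff ℝ ∞ M) {A : Z → W →L[ℝ] W} (hA : ContDiff ℝ ∞ A)
    {Mi : E →L[ℝ] E} (hMi : Mi.comp (M 0) = ContinuousLinearMap.id ℝ E)
    (hMi' : (M 0).comp Mi = ContinuousLinearMap.id ℝ E) (j : ℕ) (hj : ‖Mi‖ * ‖A 0‖ ^ j < 1)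
    {C : Z → W [×j]→L[ℝ] E} (hC : ContDiff ℝ ∞ C) :
    ∃ P : Z → W [×j]→L[ℝ] E, ContDiff ℝ ∞ P ∧ ∀ᶠ v in 𝓝 (0 : Z), ∀ w : W,
      M v (P v (fun _ => w)) - P v (fun _ => A v w) = - C v (fun _ => w) := by
  have hcE : CompleteSpace E := FiniteDimensional.complete ℝ E
  let L1 : (E →L[ℝ] E) →L[ℝ] (W [×j]→L[ℝ] E) →L[ℝ] (W [×j]→L[ℝ] E) :=
    ContinuousLinearMap.compContinuousMultilinearMapL ℝ (fun _ : Fin j => W) E E
  let B := ContinuousMultilinearMap.compContinuousLinearMapContinuousMultilinear ℝ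
    (fun _ : Fin j => W) (fun _ : Fin j => W) E
  have hL1 : ∀ (N : E →L[ℝ] E) (P : W [×j]→L[ℝ] E) (w : Fin j → W), L1 N P w = N (P w) :=
    fun N P w => rfl
  have hB : ∀ (N : W →L[ℝ] W) (P : W [×j]→L[ℝ] E) (w : Fin j → W),
      B (fun _ => N) P w = P (fun i => N (w i)) := fun N P w => rfl
  let T : Z → ((W [×j]→L[ℝ] E) →L[ℝ] (W [×j]→L[ℝ] E)) := fun v => L1 (M v) - B (fun _ => A v)
  have hc : ContDiff ℝ ∞ (fun N : E →L[ℝ] E => L1 N) :=
    ContinuousLinearMap.contDiff (𝕜 := ℝ) (E := E →L[ℝ] E)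
      (F := (W [×j]→L[ℝ] E) →L[ℝ] (W [×j]→L[ℝ] E)) L1
  have hT1 : ContDiff ℝ ∞ (fun v => L1 (M v)) := hc.comp hM
  have hT2 : ContDiff ℝ ∞ (fun v => B (fun _ => A v)) :=
    B.contDiff.comp (contDiff_pi.2 fun _ => hA)
  have hT : ContDiff ℝ ∞ T := hT1.sub hT2
  have h1 : (L1 (M 0)).comp (L1 Mi) = ContinuousLinearMap.id ℝ (W [×j]→L[ℝ] E) := by
    ext P w
    show (M 0) (Mi (P w)) = P w
    exact congrArg (fun f : E →L[ℝ] E => f (P w)) hMi'
  have h2 : (L1 Mi).comp (L1 (M 0)) = ContinuousLinearMap.id ℝ (W [×j]→L[ℝ] E) := by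
    ext P w
    show Mi ((M 0) (P w)) = P w
    exact congrArg (fun f : E →L[ℝ] E => f (P w)) hMi
  have hK : ‖(L1 Mi).comp (B (fun _ => A 0))‖ < 1 := by
    refine lt_of_le_of_lt (ContinuousLinearMap.opNorm_le_bound _ (by positivity) fun P => ?_) hj
    have h3 : ((L1 Mi).comp (B (fun _ => A 0))) P =
        Mi.compContinuousMultilinearMap (P.compContinuousLinearMap (fun _ => A 0)) := rfl
    rw [h3]
    have h4 := ContinuousLinearMap.norm_compContinuousMultilinearMap_le Mi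
      (P.compContinuousLinearMap (fun _ => A 0))
    have h5 := ContinuousMultilinearMap.norm_compContinuousLinearMap_le P
      (fun _ : Fin j => A 0)
    rw [Finset.prod_const, Finset.card_univ, Fintype.card_fin] at h5
    have h6 := mul_le_mul_of_nonneg_left h5 (norm_nonneg Mi)
    calc ‖Mi.compContinuousMultilinearMap (P.compContinuousLinearMap (fun _ => A 0))‖
        ≤ ‖Mi‖ * ‖P.compContinuousLinearMap (fun _ => A 0)‖ := h4
      _ ≤ ‖Mi‖ * (‖P‖ * ‖A 0‖ ^ j) := h6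
      _ = ‖Mi‖ * ‖A 0‖ ^ j * ‖P‖ := by ring
  have hT0 : T 0 = (L1 (M 0)).comp
      (ContinuousLinearMap.id ℝ (W [×j]→L[ℝ] E) - (L1 Mi).comp (B (fun _ => A 0))) := by
    rw [ContinuousLinearMap.comp_sub, ContinuousLinearMap.comp_id,
      ← ContinuousLinearMap.comp_assoc, h1, ContinuousLinearMap.id_comp]
  obtain ⟨P, hP, hPe⟩ := dn10_aux hT h1 h2 hK hT0 hC
  refine ⟨P, hP, ?_⟩
  filter_upwards [hPe] with v hv w
  exact congrArg (fun Q : W [×j]→L[ℝ] E => Q (fun _ => w)) hv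

end Pool.Agent.Lib.H37D
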