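import Pool.Agent.Lib.H37N.T3
import Pool.Agent.Lib.H37N.T2

/-! # H37D, chunk DN11 (S/M): the homogeneous part of order j in w, with the parameter v (section NF of PROOFN.md) -/

open Set Filter Topology Asymptotics
open scoped ContDiff

namespace Pool.Agent.Lib.H37D

open Pool.Agent.Lib.H37N

variable {Z W E : Type} [NormedAddCommGroup Z] [NormedSpace ℝ Z] [FiniteDimensional ℝ Z]
  [NormedAddCommGroup W] [NormedSpace ℝ W] [FiniteDimensional ℝ W]
  [NormedAddCommGroup E] [NormedSpace ℝ E] [FiniteDimensional ℝ E]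

/-- If `F = O(|w|^j)` near 0 then `F(v,w) = G(v,w)(w,..,w)` near 0 with a smooth `G`.

PROOF. Induction on j (for all F).  j = 0: G p := `ContinuousMultilinearMap.constOfIsEmpty` of F p (a linear isometry in F p: `continuousMultilinearCurryFin0` or
`ContinuousMultilinearMap.constOfIsEmptyL`; smooth).  j → j+1: F = O(|w|^(j+1)) implies F = O(|w|^j), so F(v,w) = G(v,w)(w,..,w) near 0.  Claim: for v near 0, G(v,0)(w,..,w) = 0 for all w.
Indeed for |v| < r and fixed w: G(v,0)(w,..,w) = lim_{t → 0+} G(v,tw)(w,..,w) = lim t^(-j) F(v,tw) = 0 because |F(v,tw)| ≤ C t^(j+1)|w|^(j+1) (G continuous, `map_smul_univ`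
for the homogeneity: G(v,tw)(tw,..,tw) = t^j G(v,tw)(w,..,w)).  `hadamard` (T2): G(v,w) = G(v,0) + Gh(v,w) w with Gh : Z × W → (W →L[ℝ] (W [×j]→L[ℝ] E)) smooth.  So near 0
F(v,w) = (Gh(v,w) w)(w,..,w) = (`ContinuousLinearMap.uncurryLeft` (Gh(v,w))) (w,..,w) (`ContinuousLinearMap.uncurryLeft_apply`; `Fin.tail` of a constant function is
constant); uncurryLeft is the continuous linear equivalence `continuousMultilinearCurryLeftEquiv ℝ (fun _ : Fin (j+1) => W) E` (symm), so the new G is smooth. -/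
theorem multi_of_isBigO (j : ℕ) : ∀ {F : Z × W → E}, ContDiff ℝ ∞ F → (F =O[𝓝 0] fun p => ‖p.2‖ ^ j) →
    ∃ G : Z × W → W [×j]→L[ℝ] E, ContDiff ℝ ∞ G ∧ ∀ᶠ p in 𝓝 (0 : Z × W), F p = G p (fun _ => p.2) := by
  have : CompleteSpace E := FiniteDimensional.complete ℝ E
  induction j with
  | zero =>
    intro F hF _
    refine ⟨fun p => (continuousMultilinearCurryFin0 ℝ W E).symm (F p),
      (continuousMultilinearCurryFin0 ℝ W E).symm.contDiff.comp hF, Eventually.of_forall fun p => ?_⟩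
    rfl
  | succ j ih =>
    intro F hF hO
    have hO' : F =O[𝓝 0] fun p : Z × W => ‖p.2‖ ^ j := by
      refine hO.trans ?_
      refine IsBigO.of_bound 1 ?_
      filter_upwards [Metric.ball_mem_nhds (0 : Z × W) one_pos] with p hp
      have h1 : ‖p.2‖ ≤ 1 := by
        rw [mem_ball_zero_iff] at hp
        exact (norm_snd_le p).trans hp.le
      rw [one_mul, Real.norm_eq_abs, Real.norm_eq_abs, abs_of_nonneg (by positivity),
        abs_of_nonneg (by positivity)]
      exact pow_le_pow_of_le_one (norm_nonneg _) h1 (Nat.le_succ j)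
    obtain ⟨G, hG, hFG⟩ := ih hF hO'
    obtain ⟨C, hC⟩ := hO.bound
    obtain ⟨r, hr, hball⟩ := Metric.eventually_nhds_iff_ball.1 (hFG.and hC)
    have hz : ∀ v : Z, ‖v‖ < r → ∀ w : W, G (v, 0) (fun _ => w) = 0 := by
      intro v hv w
      have hcont : Tendsto (fun t : ℝ => ‖G (v, t • w) (fun _ => w)‖) (𝓝[>] 0) (𝓝 ‖G (v, 0) (fun _ => w)‖) := by
        have h1 : Continuous (fun t : ℝ => ‖G (v, t • w) (fun _ => w)‖) := by
          have h2 : Continuous (fun t : ℝ => G (v, t • w)) :=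
            hG.continuous.comp (by fun_prop)
          exact (h2.eval_const _).norm
        have h3 := h1.tendsto 0
        simp only [zero_smul] at h3
        exact h3.mono_left nhdsWithin_le_nhds
      have hlim : Tendsto (fun t : ℝ => C * ‖w‖ ^ (j + 1) * t) (𝓝[>] 0) (𝓝 0) := by
        have h1 : Continuous (fun t : ℝ => C * ‖w‖ ^ (j + 1) * t) := by fun_prop
        have h3 := h1.tendsto 0
        simp only [mul_zero] at h3
        exact h3.mono_left nhdsWithin_le_nhds
      have hev : ∀ᶠ t : ℝ in 𝓝[>] 0, ‖G (v, t • w) (fun _ => w)‖ ≤ C * ‖w‖ ^ (j + 1) * t := by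
        have h1 : ∀ᶠ t : ℝ in 𝓝 0, ‖((v, t • w) : Z × W)‖ < r := by
          have h2 : Continuous (fun t : ℝ => ‖((v, t • w) : Z × W)‖) := by fun_prop
          have h3 := h2.tendsto 0
          simp only [zero_smul] at h3
          have h4 : ‖((v, 0) : Z × W)‖ < r := by
            rw [Prod.norm_def]
            simpa using hv
          exact h3.eventually (eventually_lt_nhds h4)
        filter_upwards [nhdsWithin_le_nhds h1, self_mem_nhdsWithin] with t ht ht0
        have ht0' : (0 : ℝ) < t := ht0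
        obtain ⟨h5, h6⟩ := hball (v, t • w) (by simpa using ht)
        have h7 : G (v, t • w) (fun _ => t • w) = t ^ j • G (v, t • w) (fun _ => w) := by
          have h8 := (G (v, t • w)).map_smul_univ (fun _ => t) (fun _ => w)
          simpa using h8
        rw [h5] at h6
        have h9 : ‖G (v, t • w) (fun _ => t • w)‖ ≤ C * (t * ‖w‖) ^ (j + 1) := by
          have h10 : ‖‖((v, t • w) : Z × W).2‖ ^ (j + 1)‖ = (t * ‖w‖) ^ (j + 1) := by
            rw [Real.norm_eq_abs, abs_of_nonneg (by positivity)]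
            show ‖t • w‖ ^ (j + 1) = _
            rw [norm_smul, Real.norm_eq_abs, abs_of_pos ht0']
          rw [h10] at h6
          exact h6
        rw [h7, norm_smul, Real.norm_eq_abs, abs_of_pos (by positivity : 0 < t ^ j)] at h9
        have h11 : t ^ j * ‖G (v, t • w) (fun _ => w)‖ ≤ t ^ j * (C * ‖w‖ ^ (j + 1) * t) := by
          refine h9.trans (le_of_eq ?_)
          rw [mul_pow, pow_succ t j]
          ring
        exact le_of_mul_le_mul_left h11 (by positivity)
      have := le_of_tendsto_of_tendsto hcont hlim hev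
      exact norm_le_zero_iff.1 this
    obtain ⟨Gh, hGh, hG1, -⟩ := hadamard hG
    refine ⟨fun p => (continuousMultilinearCurryLeftEquiv ℝ (fun _ : Fin (j + 1) => W) E).symm (Gh p), ?_, ?_⟩
    · exact (continuousMultilinearCurryLeftEquiv ℝ (fun _ : Fin (j + 1) => W) E).symm.contDiff.comp hGh
    filter_upwards [hFG, Metric.ball_mem_nhds (0 : Z × W) hr] with p hp hpr
    have h1 : ‖p.1‖ < r := by
      rw [mem_ball_zero_iff] at hpr
      exact (norm_fst_le p).trans_lt hpr
    have h2 : G p = G (p.1, 0) + Gh p p.2 := hG1 p.1 p.2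
    rw [hp, h2, add_apply, hz p.1 h1, zero_add]
    rfl

/-- The homogeneous part.

PROOF. G from `multi_of_isBigO`, C v := G (v,0).  F - C(v)(w,..,w) = (G(v,w) - G(v,0))(w,..,w), and |G(v,w) - G(v,0)| = O(|w|) near 0: `hadamard` (G(v,w) - G(v,0) = Gh(v,w) w,
Gh continuous so bounded near 0), or the local Lipschitz property of a C^1 function (`ContDiffAt.exists_lipschitzOnWith`).  `ContinuousMultilinearMap.le_opNorm`. -/
theorem homog_w {F : Z × W → E} (hF : ContDiff ℝ ∞ F) (j : ℕ) (h : F =O[𝓝 0] fun p => ‖p.2‖ ^ j) :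
    ∃ C : Z → W [×j]→L[ℝ] E, ContDiff ℝ ∞ C ∧
      (fun p : Z × W => F p - C p.1 (fun _ => p.2)) =O[𝓝 0] fun p => ‖p.2‖ ^ (j + 1) := by
  have : CompleteSpace E := FiniteDimensional.complete ℝ E
  obtain ⟨G, hG, hFG⟩ := multi_of_isBigO j hF h
  obtain ⟨Gh, hGh, hG1, -⟩ := hadamard hG
  refine ⟨fun v => G (v, 0), hG.comp (by fun_prop), ?_⟩
  refine IsBigO.of_bound (‖Gh 0‖ + 1) ?_
  have hb : ∀ᶠ p in 𝓝 (0 : Z × W), ‖Gh p‖ < ‖Gh 0‖ + 1 :=
    (hGh.continuous.norm.tendsto 0).eventually (eventually_lt_nhds (by linarith))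
  filter_upwards [hFG, hb] with p hp hpb
  have h2 : G p = G (p.1, 0) + Gh p p.2 := hG1 p.1 p.2
  rw [hp, h2, add_apply, add_sub_cancel_left]
  have h3 := (Gh p p.2).le_opNorm (fun _ => p.2)
  rw [Finset.prod_const, Finset.card_univ, Fintype.card_fin] at h3
  have h4 := (Gh p).le_opNorm p.2
  rw [Real.norm_eq_abs, abs_of_nonneg (by positivity)]
  calc _ ≤ ‖Gh p p.2‖ * ‖p.2‖ ^ j := h3
    _ ≤ (‖Gh p‖ * ‖p.2‖) * ‖p.2‖ ^ j := by gcongr
    _ ≤ ((‖Gh 0‖ + 1) * ‖p.2‖) * ‖p.2‖ ^ j := by gcongr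
    _ = _ := by ring

end Pool.Agent.Lib.H37D
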