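import Pool.Agent.Lib.H37N.T3
import Pool.Agent.Lib.H37N.T2

/-! # H37D, chunk DN12 (S/M): two estimates of second order (section NF of PROOFN.md) -/

open Set Filter Topology Asymptotics
open scoped ContDiff

namespace Pool.Agent.Lib.H37D

open Pool.Agent.Lib.H37N

variable {Z W E E' : Type} [NormedAddCommGroup Z] [NormedSpace ℝ Z] [FiniteDimensional ℝ Z]
  [NormedAddCommGroup W] [NormedSpace ℝ W] [FiniteDimensional ℝ W]
  [NormedAddCommGroup E] [NormedSpace ℝ E] [FiniteDimensional ℝ E]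
  [NormedAddCommGroup E'] [NormedSpace ℝ E'] [FiniteDimensional ℝ E']

/-- `G(a + b) = G(a) + DG(c) b + O(|b| (|a - c| + |b|))`.

PROOF. fderiv ℝ G is C^1, so Lipschitz (constant K) on a ball B(e,r) (`ContDiffAt.exists_lipschitzOnWith`).  Eventually a, a + b, c are in B(e,r) (convex), so for x on the segment
[a, a+b]: |DG(x) - DG(c)| ≤ K |x - c| ≤ K (|a - c| + |b|), and `Convex.norm_image_sub_le_of_norm_hasFDerivWithin_le'` (or `norm_image_sub_le_of_norm_fderiv_le'`) on the segment gives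
|G(a+b) - G(a) - DG(c) b| ≤ K (|a-c| + |b|) |b|. -/
theorem second_order {G : E → E'} (hG : ContDiff ℝ ∞ G) {X : Type} {l : Filter X} {a b c : X → E} {e : E}
    (ha : Tendsto a l (𝓝 e)) (hb : Tendsto b l (𝓝 0)) (hc : Tendsto c l (𝓝 e)) :
    (fun p => G (a p + b p) - G (a p) - fderiv ℝ G (c p) (b p)) =O[l] fun p => ‖b p‖ * (‖a p - c p‖ + ‖b p‖) := by
  have hD : ContDiff ℝ ∞ (fderiv ℝ G) := hG.fderiv_right (by simp)
  obtain ⟨K, s, hs, hK⟩ := ((hD.of_le (m := 1) (by simp)).contDiffAt (x := e)).exists_lipschitzOnWith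
  obtain ⟨r, hr, hrs⟩ := Metric.mem_nhds_iff.1 hs
  refine IsBigO.of_bound (K : ℝ) ?_
  filter_upwards [ha.eventually (Metric.ball_mem_nhds e (half_pos hr)),
    hb.eventually (Metric.ball_mem_nhds 0 (half_pos hr)),
    hc.eventually (Metric.ball_mem_nhds e hr)] with p h1 h2 h3
  rw [dist_eq_norm] at h1 h2
  rw [sub_zero] at h2
  have hseg : ∀ x ∈ segment ℝ (a p) (a p + b p), ‖x - a p‖ ≤ ‖b p‖ := by
    intro x hx
    rw [segment_eq_image'] at hx
    obtain ⟨t, ht, rfl⟩ := hx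
    simp only [add_sub_cancel_left]
    rw [norm_smul, Real.norm_eq_abs, abs_of_nonneg ht.1]
    exact mul_le_of_le_one_left (norm_nonneg _) ht.2
  have hball : ∀ x ∈ segment ℝ (a p) (a p + b p), x ∈ Metric.ball e r := by
    intro x hx
    rw [Metric.mem_ball, dist_eq_norm]
    have h4 : x - e = (x - a p) + (a p - e) := by abel
    rw [h4]
    calc ‖(x - a p) + (a p - e)‖ ≤ ‖x - a p‖ + ‖a p - e‖ := norm_add_le _ _
      _ < r / 2 + r / 2 := add_lt_add (lt_of_le_of_lt (hseg x hx) h2) h1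
      _ = r := by ring
  have hb2 : ∀ x ∈ segment ℝ (a p) (a p + b p),
      ‖fderiv ℝ G x - fderiv ℝ G (c p)‖ ≤ K * (‖a p - c p‖ + ‖b p‖) := by
    intro x hx
    have h5 := hK.dist_le_mul x (hrs (hball x hx)) (c p) (hrs h3)
    rw [dist_eq_norm, dist_eq_norm] at h5
    refine h5.trans (mul_le_mul_of_nonneg_left ?_ K.2)
    have h6 : x - c p = (a p - c p) + (x - a p) := by abel
    rw [h6]
    exact (norm_add_le _ _).trans (by linarith [hseg x hx])
  have h7 := Convex.norm_image_sub_le_of_norm_fderiv_le' (𝕜 := ℝ) (f := G)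
    (s := segment ℝ (a p) (a p + b p)) (x := a p) (y := a p + b p) (φ := fderiv ℝ G (c p))
    (fun x _ => hG.differentiable (by simp) x) hb2 (convex_segment _ _) (left_mem_segment ℝ _ _)
    (right_mem_segment ℝ _ _)
  rw [add_sub_cancel_left] at h7
  refine h7.trans (le_of_eq ?_)
  rw [Real.norm_of_nonneg (by positivity)]
  ring

/-- If `F(v,0) = 0` and `D_w F(v,0) = 0` for v near 0 then `F = O(|w|^2)`.

PROOF. `hadamard` (T2) twice: F(v,w) = F(v,0) + G(v,w) w, G(v,0) = D_w F(v,0) = 0 near 0, G(v,w) = G(v,0) + Gh(v,w) w.  So near 0: |F(v,w)| ≤ |Gh(v,w)| |w|^2, Gh continuous. -/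
theorem isBigO_sq {F : Z × W → E} (hF : ContDiff ℝ ∞ F) (h0 : ∀ᶠ v in 𝓝 (0 : Z), F (v, 0) = 0)
    (h1 : ∀ᶠ v in 𝓝 (0 : Z), ∀ w, fderiv ℝ F (v, 0) (0, w) = 0) :
    F =O[𝓝 0] fun p => ‖p.2‖ ^ 2 := by
  have : CompleteSpace E := FiniteDimensional.complete ℝ E
  obtain ⟨G, hG, hG1, hG2⟩ := hadamard hF
  obtain ⟨H, hH, hH1, -⟩ := hadamard hG
  have hbd : ∀ᶠ p in 𝓝 (0 : Z × W), ‖H p‖ < ‖H 0‖ + 1 :=
    (hH.continuous.norm.tendsto 0).eventually (gt_mem_nhds (lt_add_one _))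
  refine IsBigO.of_bound (‖H 0‖ + 1) ?_
  have hfst : Tendsto (fun p : Z × W => p.1) (𝓝 0) (𝓝 0) := continuous_fst.tendsto (0 : Z × W)
  filter_upwards [hfst.eventually h0, hfst.eventually h1, hbd] with p hp0 hp1 hpb
  obtain ⟨v, w⟩ := p
  have h2 : G (v, 0) w = 0 := by
    rw [hG2 v]
    have h7 : HasFDerivAt (fun w => F (v, w)) ((fderiv ℝ F (v, 0)).comp (ContinuousLinearMap.inr ℝ Z W)) 0 :=
      ((hF.differentiable (by simp) (v, 0)).hasFDerivAt).comp 0 (hasFDerivAt_prodMk_right v (0 : W))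
    rw [h7.fderiv]
    simpa using hp1 w
  have h3 : F (v, w) = (H (v, w) w) w := by
    rw [hG1 v w, hH1 v w]
    simp only at hp0
    rw [hp0, add_apply, h2, zero_add, zero_add]
  rw [h3]
  calc ‖(H (v, w) w) w‖ ≤ ‖H (v, w) w‖ * ‖w‖ := ContinuousLinearMap.le_opNorm _ _
    _ ≤ (‖H (v, w)‖ * ‖w‖) * ‖w‖ :=
        mul_le_mul_of_nonneg_right (ContinuousLinearMap.le_opNorm _ _) (norm_nonneg _)
    _ ≤ ((‖H 0‖ + 1) * ‖w‖) * ‖w‖ := by
        gcongr
    _ = (‖H 0‖ + 1) * ‖‖w‖ ^ 2‖ := by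
        rw [Real.norm_of_nonneg (by positivity)]
        ring

end Pool.Agent.Lib.H37D
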