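import Pool.Agent.Lib.H37D.DN10
import Pool.Agent.Lib.H37D.DN11
import Pool.Agent.Lib.H37D.DN12

/-! # H37D, chunk DN13 (S/M): the step j → j+1 of the normal form (section NF of PROOFN.md) -/

open Set Filter Topology Asymptotics
open scoped ContDiff

namespace Pool.Agent.Lib.H37D

open Pool.Agent.Lib.H37N

variable {Z W E : Type} [NormedAddCommGroup Z] [NormedSpace ℝ Z] [FiniteDimensional ℝ Z]
  [NormedAddCommGroup W] [NormedSpace ℝ W] [FiniteDimensional ℝ W]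
  [NormedAddCommGroup E] [NormedSpace ℝ E] [FiniteDimensional ℝ E]

omit [FiniteDimensional ℝ Z] [FiniteDimensional ℝ W] [FiniteDimensional ℝ E] in
/-- Evaluation of a smooth family of multilinear maps on the diagonal. -/
theorem dn13_diag {X : Type} [NormedAddCommGroup X] [NormedSpace ℝ X] (j : ℕ) :
    ∀ {P : X → W [×j]→L[ℝ] E} {u : X → W}, ContDiff ℝ ∞ P → ContDiff ℝ ∞ u →
      ContDiff ℝ ∞ fun x => P x (fun _ => u x) := by
  induction j with
  | zero =>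
    intro P u hP hu
    have h1 : (fun x => P x (fun _ => u x)) = fun x => (continuousMultilinearCurryFin0 ℝ W E) (P x) := by
      funext x
      rw [continuousMultilinearCurryFin0_apply]
      exact congrArg (P x) (Subsingleton.elim _ _)
    rw [h1]
    exact (continuousMultilinearCurryFin0 ℝ W E).contDiff.comp hP
  | succ j ih =>
    intro P u hP hu
    let L : (W [×(j + 1)]→L[ℝ] E) →L[ℝ] (W →L[ℝ] (W [×j]→L[ℝ] E)) :=
      (continuousMultilinearCurryLeftEquiv ℝ (fun _ : Fin (j + 1) => W) E).toContinuousLinearEquiv.toContinuousLinearMap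
    have h00 : ContDiff ℝ ∞ L :=
      ContinuousLinearMap.contDiff (𝕜 := ℝ) (E := W [×(j + 1)]→L[ℝ] E) (F := W →L[ℝ] (W [×j]→L[ℝ] E)) L
    have h0 : ContDiff ℝ ∞ fun x => L (P x) := h00.comp hP
    have h1 : ContDiff ℝ ∞ fun x => (P x).curryLeft (u x) := h0.clm_apply hu
    have h2 := ih h1 hu
    have h3 : (fun x => P x (fun _ => u x)) = fun x => (P x).curryLeft (u x) (fun _ => u x) := by
      funext x
      rw [ContinuousMultilinearMap.curryLeft_apply]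
      refine congrArg (P x) ?_
      funext i
      refine Fin.cases ?_ (fun i => ?_) i
      · rw [Fin.cons_zero]
      · rw [Fin.cons_succ]
    rw [h3]
    exact h2

omit [FiniteDimensional ℝ Z] [FiniteDimensional ℝ W] [FiniteDimensional ℝ E] in
/-- The diagonal values are `O(|w|^j)`. -/
theorem dn13_isBigO (j : ℕ) {P : Z → W [×j]→L[ℝ] E} (hP : ContDiff ℝ ∞ P) :
    (fun p : Z × W => P p.1 (fun _ => p.2)) =O[𝓝 0] fun p => ‖p.2‖ ^ j := by
  have hbd : ∀ᶠ p in 𝓝 (0 : Z × W), ‖P p.1‖ < ‖P 0‖ + 1 :=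
    ((hP.continuous.comp continuous_fst).norm.tendsto (0 : Z × W)).eventually (gt_mem_nhds (lt_add_one _))
  refine IsBigO.of_bound (‖P 0‖ + 1) ?_
  filter_upwards [hbd] with p hp
  have h1 := (P p.1).le_opNorm (fun _ => p.2)
  rw [Finset.prod_const, Finset.card_univ, Fintype.card_fin] at h1
  rw [Real.norm_of_nonneg (by positivity)]
  exact h1.trans (mul_le_mul_of_nonneg_right hp.le (by positivity))

/-- The step: `Θ'(v,w) = Θ(v,w) + P(v)(w,..,w)`.

PROOF. F(v,w) := G(Θ(v,w)) - Θ(v,A(v)w) is smooth, F = O(|w|^j).  `homog_w`: F = C(v)(w,..,w) + O(|w|^(j+1)).  `solve_multi` with M(v) := DG(Θ(v,0)) (smooth: `ContDiff.fderiv_right`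
composed with v ↦ Θ(v,0)) gives P.  Then, with b := P(v)(w,..,w) = O(|w|^j):
G(Θ + b) - (Θ(v,Aw) + P(v)(Aw,..,Aw)) = [G(Θ+b) - G(Θ) - M(v) b] + F + M(v) b - P(v)(Aw,..,Aw)
 = O(|b| (|Θ(v,w) - Θ(v,0)| + |b|)) + [F - C(v)(w,..,w)] (for v near 0)
by `second_order` (a = Θ p, c = Θ(p.1,0), both tend to Θ 0) and the equation of `solve_multi`.  |Θ(v,w) - Θ(v,0)| = O(|w|) (`hadamard`), |b| = O(|w|^j), j ≥ 1, so everything is O(|w|^(j+1)). -/
theorem nf_step {G : E → E} (hG : ContDiff ℝ ∞ G) {Θ : Z × W → E} (hΘ : ContDiff ℝ ∞ Θ)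
    {A : Z → W →L[ℝ] W} (hA : ContDiff ℝ ∞ A) {Mi : E →L[ℝ] E}
    (hMi : Mi.comp (fderiv ℝ G (Θ 0)) = ContinuousLinearMap.id ℝ E)
    (hMi' : (fderiv ℝ G (Θ 0)).comp Mi = ContinuousLinearMap.id ℝ E) (j : ℕ) (hj1 : 1 ≤ j)
    (hj : ‖Mi‖ * ‖A 0‖ ^ j < 1)
    (hF : (fun p : Z × W => G (Θ p) - Θ (p.1, A p.1 p.2)) =O[𝓝 0] fun p => ‖p.2‖ ^ j) :
    ∃ P : Z → W [×j]→L[ℝ] E, ContDiff ℝ ∞ P ∧
      (fun p : Z × W => G (Θ p + P p.1 (fun _ => p.2)) -
        (Θ (p.1, A p.1 p.2) + P p.1 (fun _ => A p.1 p.2))) =O[𝓝 0] fun p => ‖p.2‖ ^ (j + 1) := by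
  have : CompleteSpace E := FiniteDimensional.complete ℝ E
  have hFs : ContDiff ℝ ∞ (fun p : Z × W => G (Θ p) - Θ (p.1, A p.1 p.2)) :=
    (hG.comp hΘ).sub (hΘ.comp (contDiff_fst.prodMk ((hA.comp contDiff_fst).clm_apply contDiff_snd)))
  obtain ⟨C, hC, hCF⟩ := homog_w hFs j hF
  have hM : ContDiff ℝ ∞ (fun v : Z => fderiv ℝ G (Θ (v, 0))) :=
    (hG.fderiv_right (by simp)).comp (hΘ.comp (contDiff_id.prodMk contDiff_const))
  obtain ⟨P, hP, hPe⟩ := solve_multi hM hA (Mi := Mi) hMi hMi' j hj hC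
  refine ⟨P, hP, ?_⟩
  have hb := dn13_isBigO j hP
  have hfst : Tendsto (fun p : Z × W => p.1) (𝓝 0) (𝓝 0) := continuous_fst.tendsto (0 : Z × W)
  have hbs : ContDiff ℝ ∞ (fun p : Z × W => P p.1 (fun _ => p.2)) :=
    dn13_diag j (hP.comp contDiff_fst) contDiff_snd
  have hb0 : Tendsto (fun p : Z × W => P p.1 (fun _ => p.2)) (𝓝 0) (𝓝 0) := by
    have h1 := hbs.continuous.tendsto (0 : Z × W)
    have h2 : P (0 : Z × W).1 (fun _ => (0 : Z × W).2) = 0 := by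
      have : NeZero j := ⟨by omega⟩
      exact (P 0).map_zero
    rw [h2] at h1
    exact h1
  have hc0 : Tendsto (fun p : Z × W => Θ (p.1, 0)) (𝓝 0) (𝓝 (Θ 0)) :=
    (hΘ.continuous.comp (continuous_fst.prodMk continuous_const)).tendsto (0 : Z × W)
  have hso := second_order hG (hΘ.continuous.tendsto (0 : Z × W)) hb0 hc0
  have hnear : ∀ᶠ p in 𝓝 (0 : Z × W), ‖p.2‖ ≤ 1 := by
    have h1 : Tendsto (fun p : Z × W => ‖p.2‖) (𝓝 0) (𝓝 ‖(0 : Z × W).2‖) :=
      (continuous_snd.norm).tendsto (0 : Z × W)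
    have h2 : ‖(0 : Z × W).2‖ < 1 := by simp
    exact (h1.eventually (gt_mem_nhds h2)).mono fun p hp => le_of_lt hp
  have hb1 : (fun p : Z × W => P p.1 (fun _ => p.2)) =O[𝓝 0] fun p => ‖p.2‖ := by
    refine hb.trans (IsBigO.of_bound 1 ?_)
    filter_upwards [hnear] with p hp
    rw [Real.norm_of_nonneg (by positivity), Real.norm_of_nonneg (norm_nonneg _), one_mul]
    calc ‖p.2‖ ^ j ≤ ‖p.2‖ ^ 1 := pow_le_pow_of_le_one (norm_nonneg _) hp hj1
      _ = ‖p.2‖ := pow_one _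
  have hΘ1 : (fun p : Z × W => Θ p - Θ (p.1, 0)) =O[𝓝 0] fun p => ‖p.2‖ := by
    obtain ⟨H, hH, hH1, -⟩ := hadamard hΘ
    have hbd : ∀ᶠ p in 𝓝 (0 : Z × W), ‖H p‖ < ‖H 0‖ + 1 :=
      (hH.continuous.norm.tendsto 0).eventually (gt_mem_nhds (lt_add_one _))
    refine IsBigO.of_bound (‖H 0‖ + 1) ?_
    filter_upwards [hbd] with p hp
    have h1 : Θ p - Θ (p.1, 0) = H p p.2 := by
      have h2 := hH1 p.1 p.2
      rw [Prod.mk.eta] at h2
      rw [h2, add_sub_cancel_left]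
    rw [h1, norm_norm]
    exact ((H p).le_opNorm _).trans (mul_le_mul_of_nonneg_right hp.le (norm_nonneg _))
  have hprod : (fun p : Z × W => ‖P p.1 (fun _ => p.2)‖ * (‖Θ p - Θ (p.1, 0)‖ + ‖P p.1 (fun _ => p.2)‖))
      =O[𝓝 0] fun p => ‖p.2‖ ^ (j + 1) := by
    have h1 := hb.norm_left.mul (hΘ1.norm_left.add hb1.norm_left)
    refine h1.trans (isBigO_of_le _ fun p => le_of_eq ?_)
    rw [pow_succ]
  refine ((hso.trans hprod).add hCF).congr' ?_ EventuallyEq.rfl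
  filter_upwards [hfst.eventually hPe] with p hp
  have h1 := hp p.2
  simp only at h1 ⊢
  have h2 : fderiv ℝ G (Θ (p.1, 0)) (P p.1 (fun _ => p.2)) =
      P p.1 (fun _ => A p.1 p.2) - C p.1 (fun _ => p.2) := by
    rw [sub_eq_iff_eq_add] at h1
    rw [h1]
    abel
  rw [h2]
  abel

end Pool.Agent.Lib.H37D
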