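import Pool.Agent.Lib.H37D.DN12

/-! # H37D, chunk DN14 (M): the first step of the normal form (section NF of PROOFN.md) -/

open Set Filter Topology Asymptotics
open scoped ContDiff

namespace Pool.Agent.Lib.H37D

open Pool.Agent.Lib.H37N

variable {Z W : Type} [NormedAddCommGroup Z] [NormedSpace ℝ Z] [FiniteDimensional ℝ Z]
  [NormedAddCommGroup W] [NormedSpace ℝ W] [FiniteDimensional ℝ W]

/-- The first step: `Θ(v,w) = (v + H(v) w, w)`.

PROOF. A(v) w := (DG(v,0)(0,w)).2, b(v) w := (DG(v,0)(0,w)).1: smooth in v (compose fderiv ℝ G (v,0) with inr and snd / fst), A(0) = A0, b(0) = 0.  For v near 0 the identity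
G(v',0) = (v',0) near v gives DG(v,0)(u,0) = (u,0).  H(v) := - b(v) ∘ (1 - A(v))^(-1) (`Ring.inverse (1 - A v)` in the ring W →L[ℝ] W; 1 - A(v) is a unit for v near 0, because ‖A 0‖ < 1:
`isUnit_one_sub_of_norm_lt_one`; smooth near 0 by `contDiffAt_ringInverse`; globally smooth by `localise_at`): H(v) A(v) - H(v) = b(v) near 0, H(0) = 0.
Θ(v,w) := (v + H(v) w, w): smooth, Θ 0 = 0, Θ(v,0) = (v,0), DΘ(0)(u,w) = (u + H(0) w, w) = (u,w).
F(v,w) := G(Θ(v,w)) - Θ(v,A(v)w): F(v,0) = G(v,0) - (v,0) = 0 near 0; D_wF(v,0) w = DG(v,0)(H(v)w, w) - (H(v)A(v)w, A(v)w) = (H(v)w + b(v)w, A(v)w) - (H(v)A(v)w, A(v)w) = 0.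
So F = O(|w|^2) by `isBigO_sq`. -/
theorem nf_first {G : Z × W → Z × W} (hG : ContDiff ℝ ∞ G) (hfix : ∀ᶠ v in 𝓝 (0 : Z), G (v, 0) = (v, 0))
    {A0 : W →L[ℝ] W} (hD : ∀ v w, fderiv ℝ G 0 (v, w) = (v, A0 w)) (hA : ‖A0‖ < 1) :
    ∃ (Θ : Z × W → Z × W) (A : Z → W →L[ℝ] W), ContDiff ℝ ∞ Θ ∧ ContDiff ℝ ∞ A ∧ A 0 = A0 ∧
      (∀ v, Θ (v, 0) = (v, 0)) ∧ fderiv ℝ Θ 0 = ContinuousLinearMap.id ℝ (Z × W) ∧
      (fun p : Z × W => G (Θ p) - Θ (p.1, A p.1 p.2)) =O[𝓝 0] fun p => ‖p.2‖ ^ 2 := by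
  have : CompleteSpace W := FiniteDimensional.complete ℝ W
  have : CompleteSpace Z := FiniteDimensional.complete ℝ Z
  have hGd : Differentiable ℝ G := hG.differentiable (by simp)
  have hDG : ContDiff ℝ ∞ (fderiv ℝ G) := hG.fderiv_right (by simp)
  let A : Z → W →L[ℝ] W := fun v =>
    ((ContinuousLinearMap.snd ℝ Z W).comp (fderiv ℝ G (v, 0))).comp (ContinuousLinearMap.inr ℝ Z W)
  let b : Z → W →L[ℝ] Z := fun v =>
    ((ContinuousLinearMap.fst ℝ Z W).comp (fderiv ℝ G (v, 0))).comp (ContinuousLinearMap.inr ℝ Z W)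
  have hAv : ∀ v w, A v w = (fderiv ℝ G (v, 0) (0, w)).2 := fun v w => rfl
  have hbv : ∀ v w, b v w = (fderiv ℝ G (v, 0) (0, w)).1 := fun v w => rfl
  have hvz : ContDiff ℝ ∞ (fun v : Z => ((v, 0) : Z × W)) := contDiff_id.prodMk contDiff_const
  have hAs : ContDiff ℝ ∞ A := (contDiff_const.clm_comp (hDG.comp hvz)).clm_comp contDiff_const
  have hbs : ContDiff ℝ ∞ b := (contDiff_const.clm_comp (hDG.comp hvz)).clm_comp contDiff_const
  have hA0 : A 0 = A0 := by
    ext w
    have h1 := hD 0 w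
    rw [hAv]
    show (fderiv ℝ G 0 (0, w)).2 = A0 w
    rw [h1]
  have hb0 : b 0 = 0 := by
    ext w
    have h1 := hD 0 w
    rw [hbv]
    show (fderiv ℝ G 0 (0, w)).1 = 0
    rw [h1]
  have hu : IsUnit (1 - A 0) := isUnit_one_sub_of_norm_lt_one (by rw [hA0]; exact hA)
  have hunit : ∀ᶠ v in 𝓝 (0 : Z), IsUnit (1 - A v) :=
    ((continuous_const.sub hAs.continuous).tendsto 0).eventually (Units.isOpen.mem_nhds hu)
  have hsm : ∀ᶠ v in 𝓝 (0 : Z), ContDiffAt ℝ ∞ (fun v => -((b v).comp (Ring.inverse (1 - A v)))) v := by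
    filter_upwards [hunit] with v hv
    obtain ⟨u, hu⟩ := hv
    have h1 : ContDiffAt ℝ ∞ (fun v => Ring.inverse (1 - A v)) v := by
      have h2 := contDiffAt_ringInverse (n := ∞) ℝ u
      rw [hu] at h2
      exact h2.comp v (contDiffAt_const.sub hAs.contDiffAt)
    exact (hbs.contDiffAt.clm_comp h1).neg
  obtain ⟨H, hH, hHe⟩ := localise_at hsm
  have hHA : ∀ᶠ v in 𝓝 (0 : Z), ∀ w, H v w + b v w - H v (A v w) = 0 := by
    filter_upwards [hHe, hunit] with v h1 h2 w
    have h4 : Ring.inverse (1 - A v) * (1 - A v) = 1 := Ring.inverse_mul_cancel _ h2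
    have h5 := congrArg (fun T : W →L[ℝ] W => T w) h4
    have h6 : Ring.inverse (1 - A v) (w - A v w) = w := h5
    have h7 : H v (w - A v w) = -(b v w) := by
      rw [h1]
      show -(b v (Ring.inverse (1 - A v) (w - A v w))) = _
      rw [h6]
    rw [map_sub] at h7
    have h8 : H v w + b v w - H v (A v w) = (H v w - H v (A v w)) + b v w := by abel
    rw [h8, h7, neg_add_cancel]
  have hH0 : H 0 = 0 := by
    rw [hHe.self_of_nhds]
    show -((b 0).comp (Ring.inverse (1 - A 0))) = 0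
    rw [hb0]
    simp
  let Θ : Z × W → Z × W := fun p => (p.1 + H p.1 p.2, p.2)
  have hΘ : ContDiff ℝ ∞ Θ :=
    (contDiff_fst.add ((hH.comp contDiff_fst).clm_apply contDiff_snd)).prodMk contDiff_snd
  refine ⟨Θ, A, hΘ, hAs, hA0, ?_, ?_, ?_⟩
  · intro v
    show (v + H v 0, (0 : W)) = (v, 0)
    rw [map_zero, add_zero]
  · have h1 : HasFDerivAt (fun p : Z × W => H p.1) ((fderiv ℝ H 0).comp (ContinuousLinearMap.fst ℝ Z W)) 0 := by
      have h2 : HasFDerivAt H (fderiv ℝ H 0) ((0 : Z × W).1) := (hH.differentiable (by simp) 0).hasFDerivAt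
      exact h2.comp (0 : Z × W) hasFDerivAt_fst
    have h3 : HasFDerivAt (fun p : Z × W => H p.1 p.2) (0 : Z × W →L[ℝ] Z) 0 := by
      refine (h1.clm_apply hasFDerivAt_snd).congr_fderiv ?_
      ext w
      · simp [hH0]
      · simp [hH0]
    have h4 : HasFDerivAt Θ (((ContinuousLinearMap.fst ℝ Z W) + 0).prod (ContinuousLinearMap.snd ℝ Z W)) 0 :=
      (hasFDerivAt_fst.add h3).prodMk hasFDerivAt_snd
    rw [h4.fderiv, add_zero]
    ext w <;> simp
  · have hAp : ContDiff ℝ ∞ (fun p : Z × W => A p.1 p.2) := (hAs.comp contDiff_fst).clm_apply contDiff_snd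
    have hF : ContDiff ℝ ∞ (fun p : Z × W => G (Θ p) - Θ (p.1, A p.1 p.2)) :=
      (hG.comp hΘ).sub (hΘ.comp (contDiff_fst.prodMk hAp))
    refine isBigO_sq hF ?_ ?_
    · filter_upwards [hfix] with v hv
      show G (v + H v 0, (0 : W)) - (v + H v (A v 0), A v 0) = 0
      rw [map_zero, map_zero, map_zero, add_zero, hv, sub_self]
    · filter_upwards [eventually_eventually_nhds.2 hfix, hHA] with v hv hv2 w
      have hu1 : ∀ u : Z, fderiv ℝ G (v, 0) (u, 0) = (u, 0) := by
        intro u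
        have h1 : HasFDerivAt (fun v : Z => ((v, 0) : Z × W)) (ContinuousLinearMap.inl ℝ Z W) v :=
          hasFDerivAt_prodMk_left v 0
        have h2 : HasFDerivAt (fun v : Z => G (v, 0)) ((fderiv ℝ G (v, 0)).comp (ContinuousLinearMap.inl ℝ Z W)) v :=
          (hGd (v, 0)).hasFDerivAt.comp v h1
        have h3 : HasFDerivAt (fun v : Z => G (v, 0)) (ContinuousLinearMap.inl ℝ Z W) v :=
          h1.congr_of_eventuallyEq hv
        have h4 := h2.unique h3
        have h5 := congrArg (fun T : Z →L[ℝ] Z × W => T u) h4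
        exact h5
      have hc1 : HasDerivAt (fun t : ℝ => ((v + t • H v w, t • w) : Z × W)) (H v w, w) 0 := by
        have h1 : HasDerivAt (fun t : ℝ => v + t • H v w) (H v w) 0 := by
          have := ((hasDerivAt_id (0 : ℝ)).smul_const (H v w)).const_add v
          simpa using this
        have h2 : HasDerivAt (fun t : ℝ => t • w) w 0 := by
          have := (hasDerivAt_id (0 : ℝ)).smul_const w
          simpa using this
        exact h1.prodMk h2
      have hc2 : HasDerivAt (fun t : ℝ => ((v + t • H v (A v w), t • A v w) : Z × W)) (H v (A v w), A v w) 0 := by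
        have h1 : HasDerivAt (fun t : ℝ => v + t • H v (A v w)) (H v (A v w)) 0 := by
          have := ((hasDerivAt_id (0 : ℝ)).smul_const (H v (A v w))).const_add v
          simpa using this
        have h2 : HasDerivAt (fun t : ℝ => t • A v w) (A v w) 0 := by
          have := (hasDerivAt_id (0 : ℝ)).smul_const (A v w)
          simpa using this
        exact h1.prodMk h2
      have hc3 : HasDerivAt (fun t : ℝ => G (v + t • H v w, t • w)) (fderiv ℝ G (v, 0) (H v w, w)) 0 := by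
        have h1 : HasFDerivAt G (fderiv ℝ G (v, 0)) (v + (0 : ℝ) • H v w, (0 : ℝ) • w) := by
          rw [zero_smul, zero_smul, add_zero]
          exact (hGd (v, 0)).hasFDerivAt
        exact h1.comp_hasDerivAt (0 : ℝ) hc1
      have hc4 := hc3.sub hc2
      have hval : fderiv ℝ G (v, 0) (H v w, w) - (H v (A v w), A v w) = 0 := by
        have h1 : ((H v w, w) : Z × W) = (H v w, 0) + (0, w) := by simp
        rw [h1, map_add, hu1]
        have h2 : fderiv ℝ G (v, 0) (0, w) = (b v w, A v w) := rfl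
        rw [h2, Prod.mk_add_mk, Prod.mk_sub_mk, hv2 w, zero_add, sub_self]
        rfl
      rw [hval] at hc4
      have hc5 : HasDerivAt (fun t : ℝ => ((v, t • w) : Z × W)) (0, w) 0 := by
        have h2 : HasDerivAt (fun t : ℝ => t • w) w 0 := by
          have := (hasDerivAt_id (0 : ℝ)).smul_const w
          simpa using this
        exact (hasDerivAt_const (0 : ℝ) v).prodMk h2
      have hc6 : HasDerivAt (fun t : ℝ => (fun p : Z × W => G (Θ p) - Θ (p.1, A p.1 p.2)) (v, t • w))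
          (fderiv ℝ (fun p : Z × W => G (Θ p) - Θ (p.1, A p.1 p.2)) (v, 0) (0, w)) 0 := by
        have h1 : HasFDerivAt (fun p : Z × W => G (Θ p) - Θ (p.1, A p.1 p.2))
            (fderiv ℝ (fun p : Z × W => G (Θ p) - Θ (p.1, A p.1 p.2)) (v, 0)) (v, (0 : ℝ) • w) := by
          rw [zero_smul]
          exact (hF.differentiable (by simp) (v, 0)).hasFDerivAt
        exact h1.comp_hasDerivAt (0 : ℝ) hc5
      have hfun : (fun t : ℝ => (fun p : Z × W => G (Θ p) - Θ (p.1, A p.1 p.2)) (v, t • w)) =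
          fun t : ℝ => G (v + t • H v w, t • w) - (v + t • H v (A v w), t • A v w) := by
        funext t
        show G (v + H v (t • w), t • w) - (v + H v (A v (t • w)), A v (t • w)) = _
        rw [map_smul, map_smul, map_smul]
      rw [hfun] at hc6
      exact hc6.unique hc4

end Pool.Agent.Lib.H37D
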