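import Pool.Agent.Lib.H37D.DN13
import Pool.Agent.Lib.H37D.DN14

/-! # H37D, chunk DN15 (S/M): the normal form (section NF of PROOFN.md) -/

open Set Filter Topology Asymptotics
open scoped ContDiff

namespace Pool.Agent.Lib.H37D

open Pool.Agent.Lib.H37N

variable {Z W : Type} [NormedAddCommGroup Z] [NormedSpace ℝ Z] [FiniteDimensional ℝ Z]
  [NormedAddCommGroup W] [NormedSpace ℝ W] [FiniteDimensional ℝ W]

/-- The normal form.

PROOF. Induction on n.  n ≤ 2: `nf_first` (‖p.2‖^2 = O(‖p.2‖^n) near 0 for n ≤ 2).  Strengthen the statement: the SAME A for all n ≥ 2 (obtain A and Θ₂ from `nf_first` first, then prove by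
`Nat.le_induction` for n ≥ 2 the existence of Θ with all the properties and Θ(v,0) = (v,0)).  Step n → n+1 (n ≥ 2): `nf_step` with E = Z × W, j = n, Mi := the map (v,w) ↦ (v, A0i w)
(`ContinuousLinearMap.prodMap`), inverse of DG(0) (hD), ‖Mi‖ ≤ max 1 ‖A0i‖; if ‖A0i‖ ≤ 1: ‖Mi‖ ‖A0‖^n ≤ ‖A0‖^n < 1; otherwise ‖A0i‖ ‖A0‖^n ≤ ‖A0i‖ ‖A0‖^2 < 1.
Θ' p := Θ p + P p.1 (fun _ => p.2): smooth (`ContinuousMultilinearMap` evaluation is smooth: `ContDiff` of (P,w) ↦ P w, for instance through `ContinuousMultilinearMap.apply` or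
`contDiff_..`), Θ'(v,0) = Θ(v,0) (n ≥ 1, `ContinuousMultilinearMap.map_zero` / `map_coord_zero`), and DΘ'(0) = DΘ(0) since P(v)(w,..,w) = O(|(v,w)|^2) (n ≥ 2) has derivative 0 at 0
(`Asymptotics.IsBigO.hasFDerivAt`). -/
theorem normal_form {G : Z × W → Z × W} (hG : ContDiff ℝ ∞ G) (hfix : ∀ᶠ v in 𝓝 (0 : Z), G (v, 0) = (v, 0))
    {A0 A0i : W →L[ℝ] W} (h1 : A0.comp A0i = ContinuousLinearMap.id ℝ W)
    (h2 : A0i.comp A0 = ContinuousLinearMap.id ℝ W) (hD : ∀ v w, fderiv ℝ G 0 (v, w) = (v, A0 w))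
    (hA : ‖A0‖ < 1) (hA2 : ‖A0i‖ * ‖A0‖ ^ 2 < 1) (n : ℕ) :
    ∃ (Θ : Z × W → Z × W) (A : Z → W →L[ℝ] W), ContDiff ℝ ∞ Θ ∧ ContDiff ℝ ∞ A ∧ A 0 = A0 ∧
      (∀ v, Θ (v, 0) = (v, 0)) ∧ fderiv ℝ Θ 0 = ContinuousLinearMap.id ℝ (Z × W) ∧
      (fun p : Z × W => G (Θ p) - Θ (p.1, A p.1 p.2)) =O[𝓝 0] fun p => ‖p.2‖ ^ n := by
  obtain ⟨Θ₂, A, hΘ₂, hA', hA0, hΘ₂0, hΘ₂D, hΘ₂O⟩ := nf_first hG hfix hD hA
  have key : ∀ n : ℕ, 2 ≤ n → ∃ Θ : Z × W → Z × W, ContDiff ℝ ∞ Θ ∧
      (∀ v, Θ (v, 0) = (v, 0)) ∧ fderiv ℝ Θ 0 = ContinuousLinearMap.id ℝ (Z × W) ∧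
      (fun p : Z × W => G (Θ p) - Θ (p.1, A p.1 p.2)) =O[𝓝 0] fun p => ‖p.2‖ ^ n := by
    intro n hn
    induction n, hn using Nat.le_induction with
    | base => exact ⟨Θ₂, hΘ₂, hΘ₂0, hΘ₂D, hΘ₂O⟩
    | succ n hn ih =>
      obtain ⟨Θ, hΘ, hΘ0, hΘD, hΘO⟩ := ih
      have hz : Θ 0 = 0 := hΘ0 0
      have hDM : fderiv ℝ G 0 = (ContinuousLinearMap.id ℝ Z).prodMap A0 := by
        ext x
        · simp [hD]
        · simp [hD]
        · simp [hD]
        · simp [hD]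
      obtain ⟨P, hP, hPO⟩ := nf_step hG hΘ hA' (Mi := (ContinuousLinearMap.id ℝ Z).prodMap A0i)
        (by
          rw [hz, hDM]
          refine ContinuousLinearMap.ext fun x => ?_
          have h3 := congrArg (fun L : W →L[ℝ] W => L x.2) h2
          simpa [Prod.ext_iff] using h3)
        (by
          rw [hz, hDM]
          refine ContinuousLinearMap.ext fun x => ?_
          have h3 := congrArg (fun L : W →L[ℝ] W => L x.2) h1
          simpa [Prod.ext_iff] using h3) n (by omega)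
        (by
          rw [hA0]
          have h3 : ‖(ContinuousLinearMap.id ℝ Z).prodMap A0i‖ ≤ max 1 ‖A0i‖ := by
            refine ContinuousLinearMap.opNorm_le_bound _ (by positivity) fun x => ?_
            rw [ContinuousLinearMap.coe_prodMap', Prod.norm_def]
            refine max_le ?_ ?_
            · exact (norm_fst_le x).trans (le_mul_of_one_le_left (norm_nonneg _) (le_max_left _ _))
            · exact (A0i.le_opNorm _).trans (mul_le_mul (le_max_right _ _) (norm_snd_le x)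
                (norm_nonneg _) (by positivity))
          have h4 : ‖A0‖ ^ n ≤ ‖A0‖ ^ 2 := pow_le_pow_of_le_one (norm_nonneg _) hA.le hn
          have h5 : ‖A0‖ ^ 2 < 1 := pow_lt_one₀ (norm_nonneg _) hA (by norm_num)
          have h6 : 0 ≤ ‖A0‖ ^ n := by positivity
          refine lt_of_le_of_lt (mul_le_mul_of_nonneg_right h3 h6) ?_
          rcases le_total ‖A0i‖ 1 with h7 | h7
          · rw [max_eq_left h7, one_mul]
            exact lt_of_le_of_lt h4 h5
          · rw [max_eq_right h7]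
            exact lt_of_le_of_lt (mul_le_mul_of_nonneg_left h4 (norm_nonneg _)) hA2) hΘO
      have hbs : ContDiff ℝ ∞ (fun p : Z × W => P p.1 (fun _ => p.2)) :=
        dn13_diag n (hP.comp contDiff_fst) contDiff_snd
      have hbO : (fun p : Z × W => P p.1 (fun _ => p.2)) =O[𝓝 0] fun p => ‖p - 0‖ ^ n := by
        refine (dn13_isBigO n hP).trans (isBigO_of_le _ fun p => ?_)
        rw [Real.norm_of_nonneg (by positivity), Real.norm_of_nonneg (by positivity), sub_zero]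
        exact pow_le_pow_left₀ (norm_nonneg _) (norm_snd_le p) n
      have hbD : HasFDerivAt (fun p : Z × W => P p.1 (fun _ => p.2)) (0 : Z × W →L[ℝ] Z × W) 0 :=
        hbO.hasFDerivAt (by omega)
      refine ⟨fun p => Θ p + P p.1 (fun _ => p.2), hΘ.add hbs, ?_, ?_, hPO⟩
      · intro v
        have : NeZero n := ⟨by omega⟩
        have h3 : P v (fun _ => (0 : W)) = 0 := (P v).map_zero
        simp only [hΘ0, h3, add_zero]
      · have h3 : HasFDerivAt Θ (ContinuousLinearMap.id ℝ (Z × W)) 0 := by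
          rw [← hΘD]
          exact (hΘ.differentiable (by simp) 0).hasFDerivAt
        have h4 := (h3.add hbD).fderiv
        rw [add_zero] at h4
        exact h4
  rcases le_total 2 n with hn | hn
  · obtain ⟨Θ, h3, h4, h5, h6⟩ := key n hn
    exact ⟨Θ, A, h3, hA', hA0, h4, h5, h6⟩
  · refine ⟨Θ₂, A, hΘ₂, hA', hA0, hΘ₂0, hΘ₂D, hΘ₂O.trans (IsBigO.of_bound 1 ?_)⟩
    have hnear : ∀ᶠ p in 𝓝 (0 : Z × W), ‖p.2‖ ≤ 1 := by
      have h1 : Tendsto (fun p : Z × W => ‖p.2‖) (𝓝 0) (𝓝 ‖(0 : Z × W).2‖) :=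
        (continuous_snd.norm).tendsto (0 : Z × W)
      have h2 : ‖(0 : Z × W).2‖ < 1 := by simp
      exact (h1.eventually (gt_mem_nhds h2)).mono fun p hp => le_of_lt hp
    filter_upwards [hnear] with p hp
    rw [Real.norm_of_nonneg (by positivity), Real.norm_of_nonneg (by positivity), one_mul]
    exact pow_le_pow_of_le_one (norm_nonneg _) hp hn

end Pool.Agent.Lib.H37D
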