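import Pool.Agent.Lib.H37D.Defs
import Pool.Agent.Lib.H37N.T10a

/-! # H37D, chunk DN16 (M): flat coordinates near a disc of fixed points (section NF of PROOFN.md) -/

open Set Filter Topology Asymptotics
open scoped ContDiff

namespace Pool.Agent.Lib.H37D

open Pool.Agent.Lib.H37N

variable {d : ℕ}

/-- Flat coordinates.

PROOF. Θ(v,w) := ι(v) + (s w, w).  DΘ(0)(v,w) = Dι(0) v + (s w, w).  Injective: f ∘ ι = ι near 0 gives L Dι(0) v = Dι(0) v, L = Df(ι 0); if Dι(0) v + (s w,w) = 0 apply L: Dι(0) v + (s A0 w, A0 w) = 0,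
subtract: (s (w - A0 w), w - A0 w) = 0, so w = A0 w, ‖w‖ ≤ ‖w‖/100, w = 0, so Dι(0) v = 0, v = 0.  So bijective (endomorphism of a finite-dimensional space, `LinearMap.injective_iff_surjective`).  c from `inverse_fun`
(T10a): c smooth, c (Θ p) = p near 0, Θ (c z) = z near ι 0.  c ∘ f ∘ Θ is C^inf near 0 (f (Θ 0) = f (ι 0) = ι 0); G := a globally smooth function equal to it near 0 (`localise_at`).  Θ(G p) = Θ(c(f(Θ p))) = f(Θ p) near 0
(f ∘ Θ is continuous at 0 with value ι 0).  G(v,0) = c(f(ι v)) = c(ι v) = c(Θ(v,0)) = (v,0) near 0.  Differentiating Θ ∘ G = f ∘ Θ at 0 (G 0 = 0): DΘ(0) (DG(0)(v,w)) = L (DΘ(0)(v,w)) = Dι(0)v + (s A0 w, A0 w) =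
DΘ(0)(v, A0 w); DΘ(0) is injective. -/
theorem flatten {f : En d → En d} {ι : Pt → En d} (hι : ContDiff ℝ ∞ ι) (hinj : Function.Injective (fderiv ℝ ι 0))
    (hf : ∀ᶠ z in 𝓝 (ι 0), ContDiffAt ℝ ∞ f z) (hfix : ∀ᶠ v in 𝓝 (0 : Pt), f (ι v) = ι v)
    {s : Wd d →L[ℝ] Pt} {A0 : Wd d →L[ℝ] Wd d} (hA : ‖A0‖ ≤ 1 / 100)
    (hs : ∀ w, fderiv ℝ f (ι 0) (s w, w) = (s (A0 w), A0 w)) :
    ∃ Θ G : En d → En d, ContDiff ℝ ∞ Θ ∧ ContDiff ℝ ∞ G ∧ Θ 0 = ι 0 ∧ Function.Bijective (fderiv ℝ Θ 0) ∧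
      (∀ w, fderiv ℝ Θ 0 (0, w) = (s w, w)) ∧ (∀ᶠ p in 𝓝 (0 : En d), Θ (G p) = f (Θ p)) ∧
      (∀ᶠ v in 𝓝 (0 : Pt), G (v, 0) = (v, 0)) ∧ ∀ v w, fderiv ℝ G 0 (v, w) = (v, A0 w) := by
  let S : Wd d →L[ℝ] En d := s.prod (ContinuousLinearMap.id ℝ _)
  have hS : ∀ w, S w = (s w, w) := fun w => rfl
  let Θ : En d → En d := fun p => ι p.1 + S p.2
  have hΘ0 : Θ 0 = ι 0 := by
    have h1 : Θ 0 = ι 0 + S 0 := rfl
    rw [h1, map_zero, add_zero]
  have hΘ : ContDiff ℝ ∞ Θ := (hι.comp contDiff_fst).add (S.contDiff.comp contDiff_snd)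
  set I := fderiv ℝ ι 0 with hI
  set L := fderiv ℝ f (ι 0) with hL
  have hIι : HasFDerivAt ι I 0 := (hι.differentiable (by simp) 0).hasFDerivAt
  let DΘ : En d →L[ℝ] En d := I.comp (ContinuousLinearMap.fst ℝ Pt (Wd d)) + S.comp (ContinuousLinearMap.snd ℝ Pt (Wd d))
  have hDΘ : ∀ p, DΘ p = I p.1 + S p.2 := fun p => rfl
  have hΘd : HasFDerivAt Θ DΘ 0 := by
    have h1 : HasFDerivAt (fun p : En d => ι p.1) (I.comp (ContinuousLinearMap.fst ℝ Pt (Wd d))) 0 :=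
      HasFDerivAt.comp (g := ι) (f := Prod.fst) (0 : En d) hIι hasFDerivAt_fst
    have h2 : HasFDerivAt (fun p : En d => S p.2) (S.comp (ContinuousLinearMap.snd ℝ Pt (Wd d))) 0 :=
      HasFDerivAt.comp (g := S) (f := Prod.snd) (0 : En d) S.hasFDerivAt hasFDerivAt_snd
    exact h1.add h2
  have hfd : HasFDerivAt f L (ι 0) := (hf.self_of_nhds.differentiableAt (by simp)).hasFDerivAt
  have hLI : ∀ v, L (I v) = I v := by
    intro v
    have h1 : HasFDerivAt (fun v => f (ι v)) (L.comp I) 0 := hfd.comp (0 : Pt) hIι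
    have h2 : HasFDerivAt (fun v => f (ι v)) I 0 := hIι.congr_of_eventuallyEq hfix
    have h3 := h1.unique h2
    exact congrArg (fun T : Pt →L[ℝ] En d => T v) h3
  have hLS : ∀ w, L (S w) = S (A0 w) := fun w => hs w
  have hLΘ : ∀ v w, L (DΘ (v, w)) = DΘ (v, A0 w) := by
    intro v w
    rw [hDΘ, hDΘ, map_add, hLI, hLS]
  have hDinj : Function.Injective DΘ := by
    rw [injective_iff_map_eq_zero]
    rintro ⟨v, w⟩ hp
    have h1 : DΘ (v, A0 w) = 0 := by rw [← hLΘ, hp, map_zero]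
    have h2 : S (w - A0 w) = 0 := by
      have h3 : DΘ (v, w) - DΘ (v, A0 w) = S (w - A0 w) := by
        rw [hDΘ, hDΘ, map_sub]
        simp only
        abel
      rw [← h3, hp, h1, sub_zero]
    have h3 : w - A0 w = 0 := congrArg Prod.snd h2
    have h4 : w = A0 w := sub_eq_zero.mp h3
    have h5 : ‖A0 w‖ ≤ 1 / 100 * ‖w‖ := A0.le_of_opNorm_le hA w
    rw [← h4] at h5
    have h6 : w = 0 := by
      have := norm_nonneg w
      exact norm_le_zero_iff.mp (by linarith)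
    have h7 : I v = I 0 := by
      have h8 := hDΘ (v, w)
      rw [hp, h6] at h8
      simp only [map_zero, add_zero] at h8
      rw [← h8, map_zero]
    exact Prod.ext (hinj h7) h6
  have hDbij : Function.Bijective DΘ :=
    ⟨hDinj, (LinearMap.injective_iff_surjective (f := (DΘ : En d →ₗ[ℝ] En d))).mp hDinj⟩
  have hΘfd : fderiv ℝ Θ 0 = DΘ := hΘd.fderiv
  have hΘbij : Function.Bijective (fderiv ℝ Θ 0) := by rw [hΘfd]; exact hDbij
  obtain ⟨c, hc, hc0, hcΘ, hΘc⟩ := inverse_fun (f := Θ) (x₀ := 0)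
    (Filter.Eventually.of_forall fun x => hΘ.contDiffAt) hΘbij
  have hΘt : Tendsto Θ (𝓝 0) (𝓝 (ι 0)) := by
    rw [← hΘ0]; exact hΘ.continuous.tendsto 0
  have hfι : f (ι 0) = ι 0 := hfix.self_of_nhds
  have hft : Tendsto f (𝓝 (ι 0)) (𝓝 (ι 0)) := by
    have h1 := hfd.continuousAt.tendsto
    rwa [hfι] at h1
  have hG0 : ∀ᶠ p in 𝓝 (0 : En d), ContDiffAt ℝ ∞ (fun p => c (f (Θ p))) p := by
    filter_upwards [hΘt.eventually hf] with p hp
    exact hc.contDiffAt.comp p (hp.comp p hΘ.contDiffAt)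
  obtain ⟨G, hG, hGe⟩ := localise_at hG0
  rw [hΘ0] at hΘc hc0
  have hconj : ∀ᶠ p in 𝓝 (0 : En d), Θ (G p) = f (Θ p) := by
    filter_upwards [hGe, hΘt.eventually (hft.eventually hΘc)] with p h1 h2
    rw [h1, h2]
  have hvt : Tendsto (fun v : Pt => ((v, 0) : En d)) (𝓝 0) (𝓝 0) := by
    have h1 : Continuous (fun v : Pt => ((v, 0) : En d)) := by fun_prop
    exact h1.tendsto 0
  have hΘv : ∀ v : Pt, Θ (v, 0) = ι v := by
    intro v
    have h1 : Θ (v, 0) = ι v + S 0 := rfl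
    rw [h1, map_zero, add_zero]
  have hGv : ∀ᶠ v in 𝓝 (0 : Pt), G (v, 0) = (v, 0) := by
    filter_upwards [hvt.eventually hGe, hfix, hvt.eventually hcΘ] with v h1 h2 h3
    rw [h1, hΘv, h2, ← hΘv, h3]
  refine ⟨Θ, G, hΘ, hG, hΘ0, hΘbij, ?_, hconj, hGv, ?_⟩
  · intro w
    rw [hΘfd, hDΘ]
    simp only [map_zero, zero_add]
    exact hS w
  · have hG00 : G 0 = 0 := hGv.self_of_nhds
    have hGd : HasFDerivAt G (fderiv ℝ G 0) 0 := (hG.differentiable (by simp) 0).hasFDerivAt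
    intro v w
    have h1 : HasFDerivAt (fun p => Θ (G p)) (DΘ.comp (fderiv ℝ G 0)) 0 := by
      refine HasFDerivAt.comp (g := Θ) (0 : En d) ?_ hGd
      rw [hG00]; exact hΘd
    have h2 : HasFDerivAt (fun p => f (Θ p)) (L.comp DΘ) 0 := by
      refine HasFDerivAt.comp (g := f) (0 : En d) ?_ hΘd
      rw [hΘ0]; exact hfd
    have h3 : HasFDerivAt (fun p => Θ (G p)) (L.comp DΘ) 0 := h2.congr_of_eventuallyEq hconj
    have h4 := h1.unique h3
    have h5 : DΘ (fderiv ℝ G 0 (v, w)) = L (DΘ (v, w)) :=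
      congrArg (fun T : En d →L[ℝ] En d => T (v, w)) h4
    rw [hLΘ] at h5
    exact hDinj h5

end Pool.Agent.Lib.H37D
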