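import Pool.Agent.Lib.H37D.Defs
import Pool.Agent.Lib.H37N.T10a

/-! # H37D, chunk DN17 (S/M): the germ of the flat correction (section NF of PROOFN.md) -/

open Set Filter Topology Asymptotics
open scoped ContDiff

namespace Pool.Agent.Lib.H37D

open Pool.Agent.Lib.H37N

variable {d : ℕ}

/-- The germ of the correction.

PROOF. h := f ∘ Θ is C^inf near 0, h 0 = z₀, Dh(0) = Df(z₀) DΘ(0) bijective; `inverse_fun` (T10a) gives k : En d → En d smooth, k z₀ = 0, k (h p) = p near 0, h (k z) = z near z₀.  ψ z := Θ ((k z).1, A (k z).1 (k z).2): smooth.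
ψ (f (Θ p)) = ψ (h p) = Θ (p.1, A p.1 p.2) near 0.  For z near z₀: ψ z - z = Θ(N(k z)) - f(Θ(k z)) with N p = (p.1, A p.1 p.2): composing the hypothesis with k (k z → 0 as z → z₀, `IsBigO.comp_tendsto`) it is
O(‖(k z).2‖^n), and ‖(k z).2‖ ≤ ‖k z‖ = ‖k z - k z₀‖ = O(‖z - z₀‖) (k differentiable at z₀: `DifferentiableAt.isBigO_sub`). -/
theorem nf_germ {f : En d → En d} {z₀ : En d} (hf : ∀ᶠ z in 𝓝 z₀, ContDiffAt ℝ ∞ f z) (hfz : f z₀ = z₀)
    (hb : Function.Bijective (fderiv ℝ f z₀)) {Θ : En d → En d} (hΘ : ContDiff ℝ ∞ Θ) (hΘ0 : Θ 0 = z₀)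
    (hΘb : Function.Bijective (fderiv ℝ Θ 0)) {A : Pt → Wd d →L[ℝ] Wd d} (hA : ContDiff ℝ ∞ A) {n : ℕ}
    (h : (fun p : En d => f (Θ p) - Θ (p.1, A p.1 p.2)) =O[𝓝 0] fun p => ‖p.2‖ ^ n) :
    ∃ ψ : En d → En d, ContDiff ℝ ∞ ψ ∧ ((fun z => ψ z - z) =O[𝓝 z₀] fun z => ‖z - z₀‖ ^ n) ∧
      ∀ᶠ p in 𝓝 (0 : En d), ψ (f (Θ p)) = Θ (p.1, A p.1 p.2) := by
  have hcΘ : Tendsto Θ (𝓝 0) (𝓝 z₀) := by
    have h1 := hΘ.continuous.tendsto 0
    rwa [hΘ0] at h1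
  have hsm : ∀ᶠ p in 𝓝 (0 : En d), ContDiffAt ℝ ∞ (fun p => f (Θ p)) p := by
    filter_upwards [hcΘ.eventually hf] with p hp
    exact hp.comp p hΘ.contDiffAt
  have hf0 : HasFDerivAt f (fderiv ℝ f z₀) (Θ 0) := by
    rw [hΘ0]
    exact (hf.self_of_nhds.differentiableAt (by simp)).hasFDerivAt
  have hD : fderiv ℝ (fun p => f (Θ p)) 0 = (fderiv ℝ f z₀).comp (fderiv ℝ Θ 0) :=
    (hf0.comp 0 (hΘ.differentiable (by simp) 0).hasFDerivAt).fderiv
  have hbij : Function.Bijective (fderiv ℝ (fun p => f (Θ p)) 0) := by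
    rw [hD]
    exact hb.comp hΘb
  obtain ⟨k, hk, hk0, hk1, hk2⟩ := inverse_fun hsm hbij
  rw [hΘ0, hfz] at hk0 hk2
  set N : En d → En d := fun p => (p.1, A p.1 p.2) with hN
  have hNs : ContDiff ℝ ∞ N := contDiff_fst.prodMk ((hA.comp contDiff_fst).clm_apply contDiff_snd)
  refine ⟨fun z => Θ (N (k z)), hΘ.comp (hNs.comp hk), ?_, ?_⟩
  · have hkt : Tendsto k (𝓝 z₀) (𝓝 0) := by
      have h1 := hk.continuous.tendsto z₀
      rwa [hk0] at h1
    have h1 := h.comp_tendsto hkt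
    have h2 : (fun z => Θ (N (k z)) - z) =O[𝓝 z₀] fun z => ‖(k z).2‖ ^ n := by
      refine IsBigO.congr' h1.neg_left ?_ (EventuallyEq.refl _ _)
      filter_upwards [hk2] with z hz
      have hz' : f (Θ (k z)) = z := hz
      show -(f (Θ (k z)) - Θ (N (k z))) = Θ (N (k z)) - z
      rw [hz']
      abel
    have h3 : (fun z => ‖(k z).2‖) =O[𝓝 z₀] fun z => ‖z - z₀‖ := by
      have h4 : (fun z => k z - k z₀) =O[𝓝 z₀] fun z => z - z₀ :=
        (hk.differentiable (by simp) z₀).isBigO_sub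
      refine IsBigO.trans (IsBigO.of_bound 1 ?_) h4.norm_right
      filter_upwards with z
      rw [hk0, sub_zero, one_mul, Real.norm_of_nonneg (norm_nonneg _)]
      exact norm_snd_le (k z)
    exact h2.trans (h3.pow n)
  · filter_upwards [hk1] with p hp
    show Θ (N (k (f (Θ p)))) = Θ (N p)
    have hp' : k (f (Θ p)) = p := hp
    rw [hp']

end Pool.Agent.Lib.H37D
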