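import Pool.Agent.Lib.H37D.DN06

/-! # H37D, chunk DN18 (S/M): correction of the return map by a perturbation near one point of the orbit (section NF of PROOFN.md) -/

open Set Filter Topology Asymptotics
open scoped ContDiff

namespace Pool.Agent.Lib.H37D

open Pool.Agent.Lib.H37N

variable {d : ℕ}

theorem dn18_cont {g : En d → En d} (hg : NearS g) {z : En d} (hz : z ∈ Omd d) : ContinuousAt g z := by
  obtain ⟨O, hO, hDO, hs, -, -⟩ := hg.toNearD.smooth
  have h1 : z ∈ Dd d := by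
    have h2 : z.2 ∈ BW d := Metric.ball_subset_closedBall hz.2
    rcases hz.1 with (h | h) | h
    · exact Or.inl (Or.inl ⟨interior_subset h, h2⟩)
    · exact Or.inl (Or.inr ⟨interior_subset h, h2⟩)
    · exact Or.inr ⟨interior_subset h, h2⟩
  exact (hs.contDiffAt (hO.mem_nhds (hDO h1))).continuousAt

/-- Correction of the return map.

PROOF. ε from hU g hg.  All g^[i], i ≤ m, are continuous at z₀ (g is continuous at the points of Omd d ⊆ Dd d: NearS.toNearD.smooth; composition).  Choose r > 0 with 2r ≤ dist (g^[i] z₀) z₀ for all 0 < i < m (finite minimum), B := ball z₀ r.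
z₀ ∈ Omd d ⊆ interior (K0D d) (`omd_sub_K0D`, hz 0).  `flat_corrD` R gives φ : SmallD R ε, φ = id off B, φ = ψ near z₀.  g' := φ ∘ g ∈ U.  For z near z₀: g^[i] z ∈ ball (g^[i] z₀) r for i < m, so g^[i] z ∉ B for 0 < i < m, and g^[m] z is in the neighbourhood of z₀
where φ = ψ.  By induction on i < m: g'^[i] z = g^[i] z (`Function.iterate_succ_apply'`: g'^[i+1] z = φ (g (g^[i] z)) = φ (g^[i+1] z) = g^[i+1] z if i + 1 < m), and g'^[m] z = φ (g^[m] z) = ψ (g^[m] z) (m = (m-1) + 1). -/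
theorem perturb_germ {R : ℕ} {U : Set (En d → En d)} (hU : PertOpenD R U) (hN : ∀ g ∈ U, NearS g) {g : En d → En d}
    (hg : g ∈ U) {z₀ : En d} {m : ℕ} (hm : 0 < m) (hz : ∀ i < m, g^[i] z₀ ∈ Omd d) (hper : g^[m] z₀ = z₀)
    (hdist : ∀ i, 0 < i → i < m → g^[i] z₀ ≠ z₀) {ψ : En d → En d} (hψ : ContDiff ℝ ∞ ψ)
    (hO : (fun z => ψ z - z) =O[𝓝 z₀] fun z => ‖z - z₀‖ ^ (R + 1)) :
    ∃ g' ∈ U, ∀ᶠ z in 𝓝 z₀, (∀ i < m, g'^[i] z = g^[i] z) ∧ g'^[m] z = ψ (g^[m] z) := by
  obtain ⟨ε, hε, hεU⟩ := hU g hg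
  have hgN := hN g hg
  have hcont : ∀ i ≤ m, ContinuousAt g^[i] z₀ := by
    intro i
    induction i with
    | zero => intro _; exact continuousAt_id
    | succ i ih =>
      intro hi
      have hi' : i < m := Nat.lt_of_succ_le hi
      have h1 := ih hi'.le
      have h2 : ContinuousAt g (g^[i] z₀) := dn18_cont hgN (hz i hi')
      rw [Function.iterate_succ']
      exact ContinuousAt.comp h2 h1
  have hr : ∃ r > (0 : ℝ), ∀ i, 0 < i → i < m → r ≤ dist (g^[i] z₀) z₀ / 2 := by
    have h1 : ∀ M : ℕ, M ≤ m → ∃ r > (0 : ℝ), ∀ i, 0 < i → i < M → r ≤ dist (g^[i] z₀) z₀ / 2 := by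
      intro M
      induction M with
      | zero => intro _; exact ⟨1, one_pos, fun i _ h => absurd h (Nat.not_lt_zero _)⟩
      | succ M ih =>
        intro hM
        obtain ⟨r, hr, h⟩ := ih (Nat.le_of_succ_le hM)
        rcases Nat.eq_zero_or_pos M with h0 | h0
        · subst h0
          exact ⟨1, one_pos, fun i h1 h2 => absurd h2 (by omega)⟩
        · have hd : 0 < dist (g^[M] z₀) z₀ := dist_pos.2 (hdist M h0 (Nat.lt_of_succ_le hM))
          refine ⟨min r (dist (g^[M] z₀) z₀ / 2), lt_min hr (by linarith), ?_⟩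
          intro i h1 h2
          rcases Nat.lt_succ_iff_lt_or_eq.1 h2 with h3 | h3
          · exact (min_le_left _ _).trans (h i h1 h3)
          · rw [h3]
            exact min_le_right _ _
    exact h1 m le_rfl
  obtain ⟨r, hr, hrd⟩ := hr
  obtain ⟨φ, hφ, hφ1, hφ2⟩ := flat_corrD R hε (omd_sub_K0D (hz 0 hm)) (Eventually.of_forall fun z => hψ.contDiffAt)
    hO (Metric.ball_mem_nhds z₀ hr)
  have hout : ∀ᶠ z in 𝓝 z₀, ∀ i ∈ Finset.range m, 0 < i → g^[i] z ∉ Metric.ball z₀ r := by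
    refine (Finset.eventually_all (Finset.range m)).2 ?_
    intro i hi
    have hi' : i < m := Finset.mem_range.1 hi
    rcases Nat.eq_zero_or_pos i with h0 | h0
    · subst h0
      exact Eventually.of_forall fun z h => absurd h (lt_irrefl 0)
    · filter_upwards [(hcont i hi'.le).eventually (Metric.ball_mem_nhds _ hr)] with z hz1 _ hz2
      have h3 := hrd i h0 hi'
      have h4 := Metric.mem_ball.1 hz1
      have h5 := Metric.mem_ball.1 hz2
      have h6 := dist_triangle (g^[i] z₀) (g^[i] z) z₀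
      rw [dist_comm (g^[i] z₀) (g^[i] z)] at h6
      linarith
  have hlast : ∀ᶠ z in 𝓝 z₀, φ (g^[m] z) = ψ (g^[m] z) := by
    have h1 := hcont m le_rfl
    have h2 : Tendsto g^[m] (𝓝 z₀) (𝓝 z₀) := by
      have h3 := h1.tendsto
      rwa [hper] at h3
    exact h2.eventually hφ2
  refine ⟨φ ∘ g, hεU φ hφ, ?_⟩
  filter_upwards [hout, hlast] with z h1 h2
  have h3 : ∀ i < m, (φ ∘ g)^[i] z = g^[i] z := by
    intro i
    induction i with
    | zero => intro _; rfl
    | succ i ih =>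
      intro hi
      rw [Function.iterate_succ_apply', ih (Nat.lt_of_succ_lt hi)]
      show φ (g (g^[i] z)) = _
      rw [← Function.iterate_succ_apply' g i z]
      exact hφ1 _ (h1 (i + 1) (Finset.mem_range.2 hi) (Nat.succ_pos i))
  refine ⟨h3, ?_⟩
  obtain ⟨n, rfl⟩ : ∃ n, m = n + 1 := ⟨m - 1, by omega⟩
  rw [Function.iterate_succ_apply', h3 n (Nat.lt_succ_self n)]
  show φ (g (g^[n] z)) = _
  rw [← Function.iterate_succ_apply' g n z]
  exact h2

end Pool.Agent.Lib.H37D
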