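import Pool.Agent.Lib.H37D.D0
import Pool.Agent.Lib.H37D.NDefs
import Pool.Agent.Lib.H37N.T10a

/-! # H37D, chunk DN19 (M): a centre spot in a small box, rescaled (section NF of PROOFN.md) -/

open Set Filter Topology Asymptotics
open scoped ContDiff

namespace Pool.Agent.Lib.H37D

open Pool.Agent.Lib.H37N

variable {d : ℕ}

/-- A smooth family of linear maps near an invertible small one.

PROOF. A is continuous at 0.  ‖A v w‖ ≤ ‖A 0‖ ‖w‖ + ‖A v - A 0‖ ‖w‖ ≤ (1/8)‖w‖ for v near 0.  ‖w‖ = ‖A0i (A 0 w)‖ ≤ ‖A0i‖ ‖A 0 w‖, so with η := 1 / (1000 (‖A0i‖ + 1)) and ‖A v - A 0‖ ≤ η, ‖A v' - A 0‖ ≤ η: ‖A v w - A v' w‖ ≤ 2 η ‖w‖ ≤ (1/500) ‖A 0 w‖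
and ‖A 0 w‖ ≤ ‖A v' w‖ + η ‖w‖ ≤ ‖A v' w‖ + (1/1000) ‖A 0 w‖, so ‖A v w - A v' w‖ ≤ (1/100) ‖A v' w‖.  A v' is injective (same estimate: ‖A v' w‖ ≥ .999 ‖A 0 w‖, A 0 injective), so bijective (finite dimension). -/
theorem A_small {A : Pt → Wd d →L[ℝ] Wd d} (hA : ContDiff ℝ ∞ A) (hA0 : ‖A 0‖ ≤ 1 / 100) {A0i : Wd d →L[ℝ] Wd d}
    (hA0i : A0i.comp (A 0) = ContinuousLinearMap.id ℝ _) :
    ∃ r > (0 : ℝ), ∀ v, ‖v‖ < r → Function.Bijective (A v) ∧ (∀ w, ‖A v w‖ ≤ 1 / 8 * ‖w‖) ∧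
      ∀ v', ‖v'‖ < r → ∀ w, ‖A v w - A v' w‖ ≤ 1 / 100 * ‖A v' w‖ := by
  set η : ℝ := 1 / (1000 * (‖A0i‖ + 1)) with hη
  have hN : 0 ≤ ‖A0i‖ := norm_nonneg _
  have hη0 : 0 < η := by positivity
  have hη1 : η ≤ 1 / 1000 := by
    rw [hη]
    apply one_div_le_one_div_of_le (by norm_num)
    nlinarith
  have hη2 : η * ‖A0i‖ ≤ 1 / 1000 := by
    rw [hη, div_mul_eq_mul_div, div_le_iff₀ (by positivity)]
    nlinarith
  obtain ⟨r, hr, hcl⟩ := Metric.continuousAt_iff.mp (hA.continuous.continuousAt (x := 0)) η hη0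
  have hclose : ∀ v, ‖v‖ < r → ‖A v - A 0‖ ≤ η := by
    intro v hv
    have := hcl (x := v) (by rwa [dist_zero_right])
    rw [dist_eq_norm] at this
    exact this.le
  have hdiff : ∀ v, ‖v‖ < r → ∀ w, ‖A v w - A 0 w‖ ≤ η * ‖w‖ := by
    intro v hv w
    have h : ‖A v w - A 0 w‖ ≤ ‖A v - A 0‖ * ‖w‖ := (A v - A 0).le_opNorm w
    exact h.trans (mul_le_mul_of_nonneg_right (hclose v hv) (norm_nonneg w))
  have hw0 : ∀ w, ‖w‖ ≤ ‖A0i‖ * ‖A 0 w‖ := by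
    intro w
    have h1 : A0i (A 0 w) = w := by
      have := DFunLike.congr_fun hA0i w
      simpa using this
    calc ‖w‖ = ‖A0i (A 0 w)‖ := by rw [h1]
      _ ≤ _ := A0i.le_opNorm _
  have hsmall : ∀ w, η * ‖w‖ ≤ 1 / 1000 * ‖A 0 w‖ := by
    intro w
    calc η * ‖w‖ ≤ η * (‖A0i‖ * ‖A 0 w‖) := mul_le_mul_of_nonneg_left (hw0 w) hη0.le
      _ = (η * ‖A0i‖) * ‖A 0 w‖ := by ring
      _ ≤ _ := mul_le_mul_of_nonneg_right hη2 (norm_nonneg _)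
  have hbelow : ∀ v, ‖v‖ < r → ∀ w, 999 / 1000 * ‖A 0 w‖ ≤ ‖A v w‖ := by
    intro v hv w
    have h1 := hdiff v hv w
    have h2 := hsmall w
    have h3 : ‖A 0 w‖ ≤ ‖A v w‖ + ‖A v w - A 0 w‖ := by
      have : A 0 w = A v w - (A v w - A 0 w) := by abel
      calc ‖A 0 w‖ = ‖A v w - (A v w - A 0 w)‖ := by rw [← this]
        _ ≤ _ := norm_sub_le _ _
    linarith
  refine ⟨r, hr, fun v hv => ⟨?_, ?_, ?_⟩⟩
  · have hinj : Function.Injective (A v) := by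
      rw [injective_iff_map_eq_zero]
      intro w hw
      have h1 := hbelow v hv w
      rw [hw, norm_zero] at h1
      have h2 : ‖A 0 w‖ ≤ 0 := by linarith
      have h3 := hw0 w
      have h4 : ‖w‖ ≤ 0 := by nlinarith [norm_nonneg (A 0 w)]
      exact norm_le_zero_iff.mp h4
    refine ⟨hinj, ?_⟩
    exact (LinearMap.injective_iff_surjective (f := (A v : Wd d →ₗ[ℝ] Wd d))).mp hinj
  · intro w
    have h1 := hdiff v hv w
    have h2 : ‖A 0 w‖ ≤ 1 / 100 * ‖w‖ :=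
      ((A 0).le_opNorm w).trans (mul_le_mul_of_nonneg_right hA0 (norm_nonneg w))
    have h3 : ‖A v w‖ ≤ ‖A 0 w‖ + ‖A v w - A 0 w‖ := by
      have : A v w = A 0 w + (A v w - A 0 w) := by abel
      calc ‖A v w‖ = ‖A 0 w + (A v w - A 0 w)‖ := by rw [← this]
        _ ≤ _ := norm_add_le _ _
    have h4 : η * ‖w‖ ≤ 1 / 1000 * ‖w‖ := mul_le_mul_of_nonneg_right hη1 (norm_nonneg w)
    linarith [norm_nonneg w]
  · intro v' hv' w
    have h1 := hdiff v hv w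
    have h2 := hdiff v' hv' w
    have h3 : ‖A v w - A v' w‖ ≤ ‖A v w - A 0 w‖ + ‖A v' w - A 0 w‖ := by
      have : A v w - A v' w = (A v w - A 0 w) - (A v' w - A 0 w) := by abel
      rw [this]
      exact norm_sub_le _ _
    have h4 := hsmall w
    have h5 := hbelow v' hv' w
    linarith [norm_nonneg (A 0 w)]

/-- The cone condition.

PROOF. Let T w := (s w, w).  DΘ is continuous: for p in a ball around 0 of radius r, ‖DΘ(p)(0,w) - T w‖ ≤ 10^-9 ‖w‖ (for all w; ‖DΘ(p) - DΘ(0)‖ ≤ 10^-9 and ‖(0,w)‖ = ‖w‖).  Mean value inequality on the segment from (v,0) to (v,w) for the map p ↦ Θ p - (linear part):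
‖Θ(v,w) - Θ(v,0) - (s w, w)‖ ≤ 10^-9 ‖w‖ (`Convex.norm_image_sub_le_of_norm_fderiv_le'` with φ = DΘ(0) on the ball, convex).  So ‖(..).1‖ ≤ (10^-8 + 10^-9) ‖w‖ and ‖(..).2‖ ≥ (1 - 10^-9) ‖w‖. -/
theorem cone_small {Θ : En d → En d} (hΘ : ContDiff ℝ ∞ Θ) {s : Wd d →L[ℝ] Pt} (hs : ‖s‖ ≤ 1 / 10 ^ 8)
    (hc : ∀ w, fderiv ℝ Θ 0 (0, w) = (s w, w)) :
    ∃ r > (0 : ℝ), ∀ v w, ‖v‖ < r → ‖w‖ < r →
      ‖(Θ (v, w)).1 - (Θ (v, 0)).1‖ ≤ 1 / 10 ^ 7 * ‖(Θ (v, w)).2 - (Θ (v, 0)).2‖ := by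
  have hcont : ContinuousAt (fderiv ℝ Θ) 0 := (hΘ.continuous_fderiv (by simp)).continuousAt
  obtain ⟨r, hr, hcl⟩ := Metric.continuousAt_iff.mp hcont (1 / 10 ^ 9) (by norm_num)
  refine ⟨r, hr, fun v w hv hw => ?_⟩
  have hx : ((v, 0) : En d) ∈ Metric.ball (0 : En d) r := by
    rw [mem_ball_zero_iff, Prod.norm_mk, norm_zero]
    exact max_lt hv hr
  have hy : ((v, w) : En d) ∈ Metric.ball (0 : En d) r := by
    rw [mem_ball_zero_iff, Prod.norm_mk]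
    exact max_lt hv hw
  have hm := Convex.norm_image_sub_le_of_norm_fderiv_le' (𝕜 := ℝ) (f := Θ) (φ := fderiv ℝ Θ 0)
    (C := 1 / 10 ^ 9) (s := Metric.ball (0 : En d) r)
    (fun x _ => (hΘ.differentiable (by simp)).differentiableAt)
    (fun x hx => by
      have := hcl (x := x) (by rw [dist_zero_right]; exact mem_ball_zero_iff.mp hx)
      rw [dist_eq_norm] at this
      exact this.le) (convex_ball _ _) hx hy
  have e1 : ((v, w) : En d) - (v, 0) = (0, w) := by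
    rw [Prod.mk_sub_mk, sub_self, sub_zero]
  have e2 : ‖((0, w) : En d)‖ = ‖w‖ := by
    rw [Prod.norm_mk, norm_zero]
    exact max_eq_right (norm_nonneg w)
  rw [e1, hc, e2] at hm
  have h1 : ‖(Θ (v, w)).1 - (Θ (v, 0)).1 - s w‖ ≤ 1 / 10 ^ 9 * ‖w‖ :=
    (norm_fst_le (Θ (v, w) - Θ (v, 0) - (s w, w))).trans hm
  have h2 : ‖(Θ (v, w)).2 - (Θ (v, 0)).2 - w‖ ≤ 1 / 10 ^ 9 * ‖w‖ :=
    (norm_snd_le (Θ (v, w) - Θ (v, 0) - (s w, w))).trans hm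
  have h3 : ‖s w‖ ≤ 1 / 10 ^ 8 * ‖w‖ :=
    (s.le_opNorm w).trans (mul_le_mul_of_nonneg_right hs (norm_nonneg w))
  have h4 : ‖(Θ (v, w)).1 - (Θ (v, 0)).1‖ ≤ ‖(Θ (v, w)).1 - (Θ (v, 0)).1 - s w‖ + ‖s w‖ := by
    have : (Θ (v, w)).1 - (Θ (v, 0)).1 = ((Θ (v, w)).1 - (Θ (v, 0)).1 - s w) + s w := by abel
    calc ‖(Θ (v, w)).1 - (Θ (v, 0)).1‖ = ‖((Θ (v, w)).1 - (Θ (v, 0)).1 - s w) + s w‖ := by
          rw [← this]
      _ ≤ _ := norm_add_le _ _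
  have h5 : ‖w‖ ≤ ‖(Θ (v, w)).2 - (Θ (v, 0)).2‖ + ‖(Θ (v, w)).2 - (Θ (v, 0)).2 - w‖ := by
    have : w = ((Θ (v, w)).2 - (Θ (v, 0)).2) - ((Θ (v, w)).2 - (Θ (v, 0)).2 - w) := by abel
    calc ‖w‖ = ‖((Θ (v, w)).2 - (Θ (v, 0)).2) - ((Θ (v, w)).2 - (Θ (v, 0)).2 - w)‖ := by
          rw [← this]
      _ ≤ _ := norm_sub_le _ _
  nlinarith [norm_nonneg w]

theorem dn19_Om_open : IsOpen (Omd d) := by
  unfold Omd Om
  exact ((isOpen_interior.union isOpen_interior).union isOpen_interior).prod Metric.isOpen_ball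

theorem dn19_Om_sub : Omd d ⊆ Dd d := by
  rintro z ⟨h1, h2⟩
  have hb : z.2 ∈ BW d := Metric.ball_subset_closedBall h2
  rcases h1 with (h1 | h1) | h1
  · exact Or.inl (Or.inl ⟨interior_subset h1, hb⟩)
  · exact Or.inl (Or.inr ⟨interior_subset h1, hb⟩)
  · exact Or.inr ⟨interior_subset h1, hb⟩

theorem dn19_cont {g : En d → En d} (hg : NearS g) {z : En d} (hz : z ∈ Omd d) :
    ContinuousAt g z := by
  obtain ⟨O, hO, hsub, hsm, -, -⟩ := hg.toNearD.smooth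
  exact hsm.continuousOn.continuousAt (hO.mem_nhds (hsub (dn19_Om_sub hz)))

theorem dn19_iter {g : En d → En d} (hg : NearS g) {z₀ : En d} {m : ℕ}
    (hz : ∀ i < m, g^[i] z₀ ∈ Omd d) : ∀ i ≤ m, ContinuousAt (g^[i]) z₀ := by
  intro i
  induction i with
  | zero => intro _; exact continuousAt_id
  | succ i ih =>
    intro hi
    rw [Function.iterate_succ']
    exact (dn19_cont hg (hz i (by omega))).comp (ih (by omega))

theorem dn19_ball {P : En d → Prop} (h : ∀ᶠ p in 𝓝 (0 : En d), P p) :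
    ∃ r > (0 : ℝ), ∀ p, ‖p‖ < r → P p := by
  obtain ⟨r, hr, h'⟩ := Metric.eventually_nhds_iff.mp h
  exact ⟨r, hr, fun p hp => h' (by rwa [dist_zero_right])⟩

/-- The rescaled centre spot.

PROOF. c₁ from `inverse_fun` (c₁ smooth, c₁ (Θ p) = p near 0, Θ (c₁ z) = z near z₀).  Choose ρ > 0 such that for all p with ‖p‖ < 4ρ: `A_small`, `cone_small` hold with r = 4ρ, c₁ (Θ p) = p, g^[m] (Θ p) = Θ (p.1, A p.1 p.2), g^[i] (Θ p) ∈ Omd d for i ≤ m (Omd d open, g^[i] continuous at z₀ for i ≤ m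
because g is continuous at the points of Omd d; g^[m] z₀ = z₀ ∈ Omd d), and g^[i] (Θ p) ∈ ball (g^[i] z₀) δ, Θ p ∈ ball z₀ δ with 2δ ≤ dist (g^[i] z₀) z₀ for 0 < i < m (so g^[i] (Θ p) ≠ Θ q).  Then
Θr p := Θ (ρ • p), c z := ρ⁻¹ • c₁ z, A v := A (ρ • v).  `lin`: Θr (v, A(ρ v) w) = Θ (ρ v, A(ρ v)(ρ w)).  isOpen: Θr '' Bt d = Θ '' ball 0 (4ρ) is open: every point has a neighbourhood in the image.  Take ρ so small that DΘ(p) is bijective for ‖p‖ < 4ρ (openness of the invertible maps)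
and use `ContDiffAt.toOpenPartialHomeomorph` / `HasStrictFDerivAt.map_nhds_eq_of_equiv`, or: Θ '' ball 0 (4ρ) = {z ∈ O | ‖c₁ z‖ < 4ρ} for an open neighbourhood O of z₀ on which Θ (c₁ z) = z, if ρ is so small that Θ '' ball 0 (4ρ) ⊆ O. -/
theorem spot_of_germ {g : En d → En d} (hg : NearS g) {z₀ : En d} {m : ℕ} (hm : 0 < m)
    (hz : ∀ i < m, g^[i] z₀ ∈ Omd d) (hper : g^[m] z₀ = z₀) (hdist : ∀ i, 0 < i → i < m → g^[i] z₀ ≠ z₀)
    {Θ : En d → En d} (hΘ : ContDiff ℝ ∞ Θ) (hΘ0 : Θ 0 = z₀) (hΘb : Function.Bijective (fderiv ℝ Θ 0))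
    {s : Wd d →L[ℝ] Pt} (hs : ‖s‖ ≤ 1 / 10 ^ 8) (hc : ∀ w, fderiv ℝ Θ 0 (0, w) = (s w, w))
    {A : Pt → Wd d →L[ℝ] Wd d} (hA : ContDiff ℝ ∞ A) (hA0 : ‖A 0‖ ≤ 1 / 100) {A0i : Wd d →L[ℝ] Wd d}
    (hA0i : A0i.comp (A 0) = ContinuousLinearMap.id ℝ _)
    (hlin : ∀ᶠ p in 𝓝 (0 : En d), g^[m] (Θ p) = Θ (p.1, A p.1 p.2)) : LocalSpotD g := by
  obtain ⟨c₁, hc₁, -, hc₁l, hc₁r⟩ := inverse_fun
    (Eventually.of_forall fun x => hΘ.contDiffAt (x := x)) hΘb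
  rw [hΘ0] at hc₁r
  obtain ⟨O, hO1, hO, hzO⟩ := mem_nhds_iff.mp hc₁r
  have hΘc : Tendsto Θ (𝓝 0) (𝓝 z₀) := by
    have := hΘ.continuous.continuousAt (x := (0 : En d))
    rwa [ContinuousAt, hΘ0] at this
  have hit := dn19_iter hg hz
  have hz0 : z₀ ∈ Omd d := hz 0 hm
  have hzm : ∀ i ≤ m, g^[i] z₀ ∈ Omd d := by
    intro i hi
    by_cases h : i = m
    · rw [h, hper]
      exact hz0
    · exact hz i (by omega)
  -- the eventual conditions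
  have e1 : ∀ᶠ p in 𝓝 (0 : En d), Θ p ∈ O := hΘc.eventually (hO.mem_nhds hzO)
  have e2 : ∀ᶠ p in 𝓝 (0 : En d), ∀ i ∈ Finset.range (m + 1), g^[i] (Θ p) ∈ Omd d := by
    rw [Filter.eventually_all_finset]
    intro i hi
    have hi' : i ≤ m := Nat.lt_succ_iff.mp (Finset.mem_range.mp hi)
    exact ((hit i hi').tendsto.comp hΘc).eventually (dn19_Om_open.mem_nhds (hzm i hi'))
  have e3 : ∀ᶠ pq in 𝓝 ((0, 0) : En d × En d), ∀ i ∈ Finset.Ioo 0 m,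
      g^[i] (Θ pq.1) ≠ Θ pq.2 := by
    rw [Filter.eventually_all_finset]
    intro i hi
    rw [Finset.mem_Ioo] at hi
    have h1 : Tendsto (fun pq : En d × En d => g^[i] (Θ pq.1)) (𝓝 (0, 0)) (𝓝 (g^[i] z₀)) :=
      ((hit i hi.2.le).tendsto.comp hΘc).comp (continuous_fst.tendsto' (0, 0) (0 : En d) rfl)
    have h2 : Tendsto (fun pq : En d × En d => Θ pq.2) (𝓝 (0, 0)) (𝓝 z₀) :=
      hΘc.comp (continuous_snd.tendsto' (0, 0) (0 : En d) rfl)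
    have h3 : ∀ᶠ ab in 𝓝 ((g^[i] z₀, z₀) : En d × En d), ab.1 ≠ ab.2 :=
      (isOpen_ne_fun continuous_fst continuous_snd).mem_nhds (hdist i hi.1 hi.2)
    exact (h1.prodMk_nhds h2).eventually h3
  obtain ⟨r1, hr1, h1⟩ := dn19_ball (hc₁l.and (e1.and (e2.and hlin)))
  obtain ⟨r2, hr2, h2⟩ := Metric.eventually_nhds_iff.mp e3
  obtain ⟨r3, hr3, h3⟩ := A_small hA hA0 hA0i
  obtain ⟨r4, hr4, h4⟩ := cone_small hΘ hs hc
  set R := min (min r1 r2) (min r3 r4) with hR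
  have hRpos : 0 < R := lt_min (lt_min hr1 hr2) (lt_min hr3 hr4)
  set ρ := R / 4 with hρ
  have hρpos : 0 < ρ := by positivity
  have hsc : ∀ {E : Type} [NormedAddCommGroup E] [NormedSpace ℝ E] (p : E), ‖p‖ < 4 →
      ‖ρ • p‖ < R := by
    intro E _ _ p hp
    rw [norm_smul, Real.norm_of_nonneg hρpos.le, hρ]
    nlinarith
  have hR1 : R ≤ r1 := (min_le_left _ _).trans (min_le_left _ _)
  have hR2 : R ≤ r2 := (min_le_left _ _).trans (min_le_right _ _)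
  have hR3 : R ≤ r3 := (min_le_right _ _).trans (min_le_left _ _)
  have hR4 : R ≤ r4 := (min_le_right _ _).trans (min_le_right _ _)
  have hpair : ∀ {v : Pt} {w : Wd d}, ‖v‖ < 4 → ‖w‖ < 4 → ‖((v, w) : En d)‖ < 4 := by
    intro v w hv hw
    rw [Prod.norm_mk]
    exact max_lt hv hw
  have hsmul : ∀ (v : Pt) (w : Wd d), ρ • ((v, w) : En d) = (ρ • v, ρ • w) := fun v w => rfl
  have hBt : ∀ {p : En d}, p ∈ Bt d → ‖p‖ < 4 := fun hp => mem_ball_zero_iff.mp hp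
  refine ⟨m, fun p => Θ (ρ • p), fun z => ρ⁻¹ • c₁ z, fun v => A (ρ • v), ?_⟩
  refine ⟨hm, ?_, ?_, ?_, ?_, ?_, ?_, ?_, ?_, ?_, ?_, ?_, ?_⟩
  · exact hΘ.comp (contDiff_const_smul ρ)
  · exact hc₁.const_smul ρ⁻¹
  · intro p hp
    have := (h1 (ρ • p) ((hsc p (hBt hp)).trans_le hR1)).1
    show ρ⁻¹ • c₁ (Θ (ρ • p)) = p
    rw [this, smul_smul, inv_mul_cancel₀ hρpos.ne', one_smul]
  · have e : (fun p => Θ (ρ • p)) '' Bt d = O ∩ {z | ‖c₁ z‖ < R} := by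
      ext z
      constructor
      · rintro ⟨p, hp, rfl⟩
        have h := h1 (ρ • p) ((hsc p (hBt hp)).trans_le hR1)
        refine ⟨h.2.1, ?_⟩
        show ‖c₁ (Θ (ρ • p))‖ < R
        rw [h.1]
        exact hsc p (hBt hp)
      · rintro ⟨hz1, hz2⟩
        have hz2' : ‖c₁ z‖ < R := hz2
        refine ⟨ρ⁻¹ • c₁ z, ?_, ?_⟩
        · rw [Bt, mem_ball_zero_iff, norm_smul, norm_inv, Real.norm_of_nonneg hρpos.le, hρ,
            inv_mul_lt_iff₀ (by positivity)]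
          linarith
        · show Θ (ρ • ρ⁻¹ • c₁ z) = z
          rw [smul_smul, mul_inv_cancel₀ hρpos.ne', one_smul]
          exact hO1 hz1
    rw [e]
    exact hO.inter (isOpen_lt (hc₁.continuous.norm) continuous_const)
  · exact hA.comp (contDiff_const_smul ρ)
  · intro v hv
    exact (h3 (ρ • v) ((hsc v hv).trans_le hR3)).1
  · intro v hv
    exact (h3 (ρ • v) ((hsc v hv).trans_le hR3)).2.1
  · intro v hv v' hv'
    exact (h3 (ρ • v) ((hsc v hv).trans_le hR3)).2.2 (ρ • v') ((hsc v' hv').trans_le hR3)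
  · intro v w hv hw
    have h := (h1 (ρ • ((v, w) : En d)) ((hsc _ (hpair hv hw)).trans_le hR1)).2.2.2
    show g^[m] (Θ (ρ • (v, w))) = Θ (ρ • (v, A (ρ • v) w))
    rw [h, hsmul, hsmul]
    show Θ (ρ • v, A (ρ • v) (ρ • w)) = _
    rw [map_smul]
  · intro p hp i hi
    exact (h1 (ρ • p) ((hsc p (hBt hp)).trans_le hR1)).2.2.1 i
      (Finset.mem_range.mpr (Nat.lt_succ_iff.mpr hi))
  · intro i hi0 him p hp q hq
    have hd : dist ((ρ • p, ρ • q) : En d × En d) (0, 0) < r2 := by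
      rw [Prod.dist_eq, dist_zero_right, dist_zero_right]
      exact (max_lt (hsc p (hBt hp)) (hsc q (hBt hq))).trans_le hR2
    exact h2 hd i (Finset.mem_Ioo.mpr ⟨hi0, him⟩)
  · intro v w hv hw
    have h := h4 (ρ • v) (ρ • w) ((hsc v hv).trans_le hR4) ((hsc w hw).trans_le hR4)
    show ‖(Θ (ρ • (v, w))).1 - (Θ (ρ • (v, 0))).1‖ ≤
      1 / 10 ^ 7 * ‖(Θ (ρ • (v, w))).2 - (Θ (ρ • (v, 0))).2‖
    rw [hsmul, hsmul, smul_zero]
    exact h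

end Pool.Agent.Lib.H37D
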