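import Pool.Agent.Lib.H37D.DN03
import Pool.Agent.Lib.H37D.DN05
import Pool.Agent.Lib.H37D.DN15
import Pool.Agent.Lib.H37D.DN16
import Pool.Agent.Lib.H37D.DN17
import Pool.Agent.Lib.H37D.DN18
import Pool.Agent.Lib.H37D.DN19

/-! # H37D, DN20: section NF, main theorem -/

open Set Filter Topology Asymptotics
open scoped ContDiff

namespace Pool.Agent.Lib.H37D

open Pool.Agent.Lib.H37N

variable {d : ℕ}

theorem dn20_isOpen : IsOpen (Omd d) := by
  unfold Omd Om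
  exact ((isOpen_interior.union isOpen_interior).union isOpen_interior).prod Metric.isOpen_ball

theorem dn20_cont {g : En d → En d} (hg : NearS g) {z : En d} {m : ℕ} (hz : ∀ i < m, g^[i] z ∈ Omd d) :
    ∀ᶠ z' in 𝓝 z, ∀ i < m, g^[i] z' ∈ Omd d := by
  have h1 : ∀ i ∈ Finset.range m, ∀ᶠ z' in 𝓝 z, g^[i] z' ∈ Omd d := by
    intro i hi
    have hi' : i < m := Finset.mem_range.1 hi
    have h2 := (hg.fderiv_iterate i (fun j hj => hz j (hj.trans hi'))).1.continuousAt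
    exact h2.eventually (dn20_isOpen.mem_nhds (hz i hi'))
  have h3 := (Finset.eventually_all (Finset.range m)).2 h1
  filter_upwards [h3] with z' h i hi
  exact h i (Finset.mem_range.2 hi)

theorem dn20_smooth {g : En d → En d} (hg : NearS g) {z : En d} {m : ℕ} (hz : ∀ i < m, g^[i] z ∈ Omd d) :
    ∀ᶠ z' in 𝓝 z, ContDiffAt ℝ ∞ g^[m] z' := by
  filter_upwards [dn20_cont hg hz] with z' h
  exact (hg.fderiv_iterate m h).1

/-- Section NF. -/
theorem sectionN {R : ℕ} {U : Set (En d → En d)} (hU : PertOpenD R U) (hN : ∀ g ∈ U, NearS g) {g : En d → En d}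
    (hg : g ∈ U) (h : CentreSpot g) : ∃ g' ∈ U, LocalSpotD g' := by
  have hgN := hN g hg
  obtain ⟨m, hm, ι, hι, hinj, hfix, hdist⟩ := h.minimal hgN
  have h0 := hfix.self_of_nhds
  obtain ⟨s, A0, A0i, hs, hss, hA1, hA2, hAn, hAq⟩ := hgN.strong hm h0.1
  have hf := dn20_smooth hgN h0.1
  have hb := (hgN.fderiv_iterate m h0.1).2.2
  obtain ⟨Θ0, G, hΘ0, hG, hΘ00, hΘ0b, hΘ0w, hconj, hG0, hDG⟩ :=
    flatten hι hinj hf (hfix.mono fun v h => h.2) hAn hss
  obtain ⟨Θ', A, hΘ', hA, hA0, hΘ'0, hDΘ', hO⟩ := normal_form hG hG0 hA1 hA2 hDG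
    (lt_of_le_of_lt hAn (by norm_num)) hAq (R + 1)
  have hΘ'00 : Θ' 0 = 0 := hΘ'0 0
  have hG00 : G 0 = 0 := hG0.self_of_nhds
  set N : En d → En d := fun p => (p.1, A p.1 p.2) with hNdef
  have hNs : ContDiff ℝ ∞ N := contDiff_fst.prodMk ((hA.comp contDiff_fst).clm_apply contDiff_snd)
  have hN0 : N 0 = 0 := by simp [hNdef]
  -- the new chart
  have hΘ : ContDiff ℝ ∞ (fun p => Θ0 (Θ' p)) := hΘ0.comp hΘ'
  have hΘz : Θ0 (Θ' 0) = ι 0 := by rw [hΘ'00, hΘ00]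
  have hDΘ : fderiv ℝ (fun p => Θ0 (Θ' p)) 0 = fderiv ℝ Θ0 0 := by
    have h1 : HasFDerivAt Θ' (ContinuousLinearMap.id ℝ (En d)) 0 := by
      rw [← hDΘ']
      exact (hΘ'.differentiable (by simp) 0).hasFDerivAt
    have h2 : HasFDerivAt Θ0 (fderiv ℝ Θ0 0) (Θ' 0) := by
      rw [hΘ'00]
      exact (hΘ0.differentiable (by simp) 0).hasFDerivAt
    have h3 := h2.comp 0 h1
    have h4 := h3.fderiv
    rw [ContinuousLinearMap.comp_id] at h4
    exact h4
  have hO2 : (fun p : En d => g^[m] (Θ0 (Θ' p)) - Θ0 (Θ' (N p))) =O[𝓝 0] fun p => ‖p.2‖ ^ (R + 1) := by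
    obtain ⟨K, t, ht, hLip⟩ := (hΘ0.contDiffAt (x := (0 : En d))).of_le (m := 1) (by simp) |>.exists_lipschitzOnWith
    have hc1 : Tendsto (fun p => G (Θ' p)) (𝓝 0) (𝓝 0) := by
      have h := (hG.continuous.comp hΘ'.continuous).tendsto 0
      have e : (G ∘ Θ') 0 = 0 := by simp [hΘ'00, hG00]
      rw [e] at h
      exact h
    have hc2 : Tendsto (fun p => Θ' (N p)) (𝓝 0) (𝓝 0) := by
      have h := (hΘ'.continuous.comp hNs.continuous).tendsto 0
      have e : (Θ' ∘ N) 0 = 0 := by simp [hΘ'00, hN0]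
      rw [e] at h
      exact h
    have hc3 : Tendsto Θ' (𝓝 0) (𝓝 0) := by
      have := hΘ'.continuous.tendsto 0
      simpa [hΘ'00] using this
    have h1 : (fun p : En d => g^[m] (Θ0 (Θ' p)) - Θ0 (Θ' (N p))) =O[𝓝 0]
        fun p => G (Θ' p) - Θ' (N p) := by
      refine IsBigO.of_bound K ?_
      filter_upwards [hc1.eventually ht, hc2.eventually ht, hc3.eventually hconj] with p h1 h2 h3
      rw [← h3]
      exact hLip.norm_sub_le h1 h2
    exact h1.trans hO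
  obtain ⟨ψ, hψ, hψO, hψe⟩ := nf_germ hf h0.2 hb hΘ hΘz (by rw [hDΘ]; exact hΘ0b) hA hO2
  obtain ⟨g', hg', hev⟩ := perturb_germ hU hN hg hm h0.1 h0.2 hdist hψ hψO
  refine ⟨g', hg', ?_⟩
  have he := hev.self_of_nhds
  have hz' : ∀ i < m, g'^[i] (ι 0) ∈ Omd d := fun i hi => by
    rw [he.1 i hi]
    exact h0.1 i hi
  have hper : g'^[m] (ι 0) = ι 0 := by
    rw [he.2]
    have h1 := hψe.self_of_nhds
    have h2 : ((0 : En d).1, A (0 : En d).1 (0 : En d).2) = (0 : En d) := hN0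
    rw [h2] at h1
    rw [hΘz] at h1
    exact h1
  refine spot_of_germ (hN g' hg') hm hz' hper (fun i hi hi' => by rw [he.1 i hi']; exact hdist i hi hi')
    hΘ hΘz (by rw [hDΘ]; exact hΘ0b) hs (fun w => by rw [hDΘ]; exact hΘ0w w) hA
    (by rw [hA0]; exact hAn) (A0i := A0i) (by rw [hA0]; exact hA2) ?_
  have hcΘ : Tendsto (fun p => Θ0 (Θ' p)) (𝓝 0) (𝓝 (ι 0)) := by
    have := hΘ.continuous.tendsto 0
    rwa [hΘz] at this
  filter_upwards [hcΘ.eventually hev, hψe] with p h1 h2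
  rw [h1.2, h2]

end Pool.Agent.Lib.H37D
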