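import Pool.Agent.Lib.H37D.DP05

/-!
# H37D DP12 (S/M): vertical families at a place (port of H37P/P12.lean)

`PlaceD.family` with `Ψ(p,v) = ((v.1.1, v.1.2 + χ(v) Φ(p,(v.1.1,v.2))), v.2)`, `χ` a smooth cut-off function, `χ = 1` on the closed ball of radius `r/4`
around `((a,0),wT)`, support in the open ball of radius `r/2`. The function `Φ` may depend on the strongly stable coordinates.
-/

open Set Filter Topology Asymptotics
open scoped ContDiff

namespace Pool.Agent.Lib.H37D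

open Pool.Agent.Lib.H37N

variable {d : ℕ}

theorem PlaceD.vfamily {g : En d → En d} {s : FrD d} {Z : Set (En d)} {b a : ℝ} {wT : Wd d}
    {k l : ℕ} {r : ℝ} {D B : Set (En d)} {Li : En d → En d}
    (hp : PlaceD g s Z b a wT k l r D B Li) {P : Type} [NormedAddCommGroup P] [NormedSpace ℝ P]
    [FiniteDimensional ℝ P] (Φ : P × (ℝ × Wd d) → ℝ) (hΦ : ContDiff ℝ ∞ Φ)
    (h0 : ∀ X, Φ (0, X) = 0) (R : ℕ) :
    ∃ r1 > (0 : ℝ), ∀ ε > (0 : ℝ), ∀ᶠ p in 𝓝 (0 : P), ∃ ψ : En d → En d, SmallD R ε ψ ∧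
      AdmD D ψ ∧ ∀ v : En d, |v.1.1 - a| ≤ r1 → |v.1.2| ≤ r1 → ‖v.2 - wT‖ ≤ r1 →
        v ∈ Metric.ball (((a, 0), wT) : En d) (r / 2) ∧
        PlD g s l (ψ (Li v)) = ((v.1.1, v.1.2 + Φ (p, (v.1.1, v.2))), v.2) := by
  have hr := hp.r_pos
  obtain ⟨χ, hχ, -, hts, -, hχ1⟩ := exists_cutoff
    (isCompact_closedBall (((a, 0), wT) : En d) (r / 4))
    (Metric.isOpen_ball (x := (((a, 0), wT) : En d)) (ε := r / 2))
    (Metric.closedBall_subset_ball (by linarith))
  refine ⟨r / 4, by linarith, fun ε hε => ?_⟩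
  have hfam := hp.family (P := P)
    (fun q => ((q.2.1.1, q.2.1.2 + χ q.2 * Φ (q.1, (q.2.1.1, q.2.2))), q.2.2))
    (by
      have e1 : ContDiff ℝ ∞ (fun q : P × En d => q.2.1.1) :=
        contDiff_fst.comp (contDiff_fst.comp contDiff_snd)
      have e2 : ContDiff ℝ ∞ (fun q : P × En d => q.2.1.2) :=
        contDiff_snd.comp (contDiff_fst.comp contDiff_snd)
      have e3 : ContDiff ℝ ∞ (fun q : P × En d => q.2.2) := contDiff_snd.comp contDiff_snd
      have e4 : ContDiff ℝ ∞ (fun q : P × En d => χ q.2) := hχ.comp contDiff_snd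
      have e5 : ContDiff ℝ ∞ (fun q : P × En d => Φ (q.1, (q.2.1.1, q.2.2))) :=
        hΦ.comp (contDiff_fst.prodMk (e1.prodMk e3))
      exact (e1.prodMk (e2.add (e4.mul e5))).prodMk e3)
    (fun v => by simp only [h0, mul_zero, add_zero])
    (fun p v hv => by
      have h1 : χ v = 0 := by
        apply image_eq_zero_of_notMem_tsupport
        exact fun h => hv (Metric.ball_subset_closedBall (hts h))
      simp only [h1, zero_mul, add_zero]) R hε
  filter_upwards [hfam] with p hp'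
  obtain ⟨ψ, h1, h2, h3⟩ := hp'
  refine ⟨ψ, h1, h2, fun v hv1 hv2 hv3 => ?_⟩
  have hv : v ∈ Metric.closedBall (((a, 0), wT) : En d) (r / 4) := by
    rw [Metric.mem_closedBall, Prod.dist_eq, Prod.dist_eq]
    refine max_le (max_le ?_ ?_) ?_
    · rw [Real.dist_eq]; exact hv1
    · rw [Real.dist_eq, sub_zero]; exact hv2
    · rw [dist_eq_norm]; exact hv3
  have hvb : v ∈ Metric.ball (((a, 0), wT) : En d) (r / 2) :=
    Metric.closedBall_subset_ball (by linarith) hv
  refine ⟨hvb, ?_⟩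
  have h4 : χ v = 1 := hχ1.self_of_nhdsSet v hv
  rw [h3 v (Metric.ball_subset_ball (by linarith) hvb)]
  simp only [h4, one_mul]

end Pool.Agent.Lib.H37D
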