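import Pool.Agent.Lib.H37D.DS3

/-! # H37D, chunk DS: THEOREM AS2W (section S in dimension `2 + d`) -/

open Set Filter Topology Asymptotics
open scoped ContDiff

namespace Pool.Agent.Lib.H37D

open Pool.Agent.Lib.H37N

variable {P' : Type} [NormedAddCommGroup P'] [NormedSpace ℝ P'] [FiniteDimensional ℝ P']
  {W : Type} [NormedAddCommGroup W] [NormedSpace ℝ W] [FiniteDimensional ℝ W] {n e : ℕ} {s₀ : ℝ} {d : ℕ → ℝ}
  {c : W} {G : ℕ → ((ℝ × P') × QQ n e) × (ℝ × ℝ) × W → (ℝ × ℝ) × W} {J : ℕ → (ℝ × QQ n e) × ℝ × ℝ → ℝ}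

theorem ds_jac_congr {f g : ℝ × ℝ → ℝ × ℝ} {x : ℝ × ℝ} (h : f =ᶠ[𝓝 x] g) : jac f x = jac g x := by
  unfold jac
  rw [h.fderiv_eq]

/-- THEOREM AS2W.  Parameters `p = (ρ, ε')`.  (`hG0`) at `p = 0` the block is the planar model block, its `W`-part is `u • c`.
(`hGρ`) at `ρ = 0` the planar part does not depend on the `W`-variable, its Jacobian is `1`.  (`hGε`) at `ε' = 0` the planar
part does not depend on the `W`-variable, its Jacobian is `exp (ρ J)`. -/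
theorem as2w (he : 1 ≤ e) (hn : n = e + 3) (hG : ∀ j < 2 * n, ContDiff ℝ ∞ (G j))
    (hJ : ∀ j < 2 * n, ContDiff ℝ ∞ (J j))
    (hG0 : ∀ j < 2 * n, ∀ᶠ r : QQ n e × (ℝ × ℝ) × W in 𝓝 0, G j ((0, r.1), r.2) =
      ((r.2.1.2, -r.2.1.1 + 2 * Real.cos (sth n) * r.2.1.2 + ∑ i ∈ Finset.range (e + 1), qx r.1 j i * r.2.1.2 ^ i),
        r.2.1.2 • c))
    (hGρ : ∀ j < 2 * n, ∀ᶠ r : (P' × QQ n e) × (ℝ × ℝ) × W in 𝓝 0,
      (G j (((0, r.1.1), r.1.2), r.2)).1 = (G j (((0, r.1.1), r.1.2), (r.2.1, 0))).1 ∧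
      jac (fun v => (G j (((0, r.1.1), r.1.2), (v, 0))).1) r.2.1 = 1)
    (hGε : ∀ j < 2 * n, ∀ᶠ r : (ℝ × QQ n e) × (ℝ × ℝ) × W in 𝓝 0,
      (G j (((r.1.1, 0), r.1.2), r.2)).1 = (G j (((r.1.1, 0), r.1.2), (r.2.1, 0))).1 ∧
      (r.1.1 ≠ 0 → jac (fun v => (G j (((r.1.1, 0), r.1.2), (v, 0))).1) r.2.1 = Real.exp (r.1.1 * J j (r.1, r.2.1))))
    (hJ0 : ∀ j < 2 * n, ∀ᶠ r : QQ n e × ℝ × ℝ in 𝓝 0, J j ((0, r.1), r.2) = s₀ * (r.2.2 + d (j + 1)))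
    (hs : s₀ ≠ 0) (hd : ∑ j ∈ Finset.range (2 * n), d (j + 1) = 0)
    {V : Set (QQ n e)} (hV : V ∈ 𝓝 0) {O : Set ((ℝ × ℝ) × W)} (hO : O ∈ 𝓝 0) :
    ∀ᶠ p : ℝ × P' in 𝓝 0, p.1 ≠ 0 → ∃ q ∈ V, ∃ (om : ℝ × ℝ → W) (φ : ℝ × ℝ → ℝ × ℝ),
      ContDiff ℝ ∞ om ∧ ContDiff ℝ ∞ φ ∧ (∀ᶠ v in 𝓝 0, stW G (2 * n) ((p, q), (v, om v)) = (φ v, om v)) ∧
      ((fun v : ℝ × ℝ => φ v - v) =O[𝓝 0] fun v : ℝ × ℝ => ‖v‖ ^ (e + 1)) ∧
      ∀ j ≤ 2 * n, stW G j ((p, q), (0, om 0)) ∈ O := by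
  have hn2 : 2 ≤ n := by omega
  obtain ⟨om, hom, hom0, homev⟩ := ds1_om hn2 hG hG0
  obtain ⟨B, Ω, hB, hΩ, hBG, hst⟩ := ds2_blocks hn2 hG hG0 hom hom0
  -- the planar blocks at `ρ = 0`
  have hBρ : ∀ j < 2 * n, ∀ᶠ r : (P' × QQ n e) × ℝ × ℝ in 𝓝 0,
      jac (fun v => B j (((0, r.1.1), r.1.2), v)) r.2 = 1 := by
    intro j hj
    have ht : Tendsto (fun r : (P' × QQ n e) × ℝ × ℝ => ((((0 : ℝ), r.1.1), r.1.2), r.2)) (𝓝 0)
        (𝓝 (0 : ((ℝ × P') × QQ n e) × ℝ × ℝ)) := by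
      have h1 : Continuous (fun r : (P' × QQ n e) × ℝ × ℝ => ((((0 : ℝ), r.1.1), r.1.2), r.2)) := by fun_prop
      exact h1.tendsto 0
    have ht2 : Tendsto (fun r : (P' × QQ n e) × ℝ × ℝ => (r.1, (r.2, Ω j (((0, r.1.1), r.1.2), r.2)))) (𝓝 0)
        (𝓝 (0 : (P' × QQ n e) × (ℝ × ℝ) × W)) := by
      have h1 : Continuous (fun r : (P' × QQ n e) × ℝ × ℝ => (r.1, (r.2, Ω j (((0, r.1.1), r.1.2), r.2)))) :=
        continuous_fst.prodMk (continuous_snd.prodMk ((hΩ j hj).1.comp (by fun_prop)))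
      have h2 := h1.tendsto 0
      have h3 : ((0 : (P' × QQ n e) × ℝ × ℝ).1, ((0 : (P' × QQ n e) × ℝ × ℝ).2,
          Ω j (((0, (0 : (P' × QQ n e) × ℝ × ℝ).1.1), (0 : (P' × QQ n e) × ℝ × ℝ).1.2),
            (0 : (P' × QQ n e) × ℝ × ℝ).2))) = (0 : (P' × QQ n e) × (ℝ × ℝ) × W) :=
        Prod.ext rfl (Prod.ext rfl (hΩ j hj).2)
      rw [h3] at h2
      exact h2
    have ht3 : Tendsto (fun r : (P' × QQ n e) × ℝ × ℝ => (r.1, (r.2, (0 : W)))) (𝓝 0)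
        (𝓝 (0 : (P' × QQ n e) × (ℝ × ℝ) × W)) := by
      have h1 : Continuous (fun r : (P' × QQ n e) × ℝ × ℝ => (r.1, (r.2, (0 : W)))) := by fun_prop
      exact h1.tendsto 0
    have hev : ∀ᶠ r : (P' × QQ n e) × ℝ × ℝ in 𝓝 0, B j (((0, r.1.1), r.1.2), r.2) =
        (G j (((0, r.1.1), r.1.2), (r.2, 0))).1 := by
      filter_upwards [ht.eventually (hBG j hj), ht2.eventually (hGρ j hj)] with r h1 h2
      rw [h1]
      exact h2.1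
    filter_upwards [eventually_eventually_nhds.2 hev, ht3.eventually (hGρ j hj)] with r h1 h2
    have h3 : (fun v => B j (((0, r.1.1), r.1.2), v)) =ᶠ[𝓝 r.2] fun v => (G j (((0, r.1.1), r.1.2), (v, 0))).1 := by
      have h4 : Tendsto (fun v : ℝ × ℝ => (r.1, v)) (𝓝 r.2) (𝓝 r) :=
        (continuous_const.prodMk continuous_id).tendsto r.2
      exact h4.eventually h1
    rw [ds_jac_congr h3]
    exact h2.2
  -- the planar blocks at `ε' = 0`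
  have hBε : ∀ j < 2 * n, ∀ᶠ r : (ℝ × QQ n e) × ℝ × ℝ in 𝓝 0, r.1.1 ≠ 0 →
      jac (fun v => B j (((r.1.1, 0), r.1.2), v)) r.2 = Real.exp (r.1.1 * J j r) := by
    intro j hj
    have ht : Tendsto (fun r : (ℝ × QQ n e) × ℝ × ℝ => (((r.1.1, (0 : P')), r.1.2), r.2)) (𝓝 0)
        (𝓝 (0 : ((ℝ × P') × QQ n e) × ℝ × ℝ)) := by
      have h1 : Continuous (fun r : (ℝ × QQ n e) × ℝ × ℝ => (((r.1.1, (0 : P')), r.1.2), r.2)) := by fun_prop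
      exact h1.tendsto 0
    have ht2 : Tendsto (fun r : (ℝ × QQ n e) × ℝ × ℝ => (r.1, (r.2, Ω j (((r.1.1, 0), r.1.2), r.2)))) (𝓝 0)
        (𝓝 (0 : (ℝ × QQ n e) × (ℝ × ℝ) × W)) := by
      have h1 : Continuous (fun r : (ℝ × QQ n e) × ℝ × ℝ => (r.1, (r.2, Ω j (((r.1.1, 0), r.1.2), r.2)))) :=
        continuous_fst.prodMk (continuous_snd.prodMk ((hΩ j hj).1.comp (by fun_prop)))
      have h2 := h1.tendsto 0
      have h3 : ((0 : (ℝ × QQ n e) × ℝ × ℝ).1, ((0 : (ℝ × QQ n e) × ℝ × ℝ).2,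
          Ω j ((((0 : (ℝ × QQ n e) × ℝ × ℝ).1.1, 0), (0 : (ℝ × QQ n e) × ℝ × ℝ).1.2),
            (0 : (ℝ × QQ n e) × ℝ × ℝ).2))) = (0 : (ℝ × QQ n e) × (ℝ × ℝ) × W) :=
        Prod.ext rfl (Prod.ext rfl (hΩ j hj).2)
      rw [h3] at h2
      exact h2
    have ht3 : Tendsto (fun r : (ℝ × QQ n e) × ℝ × ℝ => (r.1, (r.2, (0 : W)))) (𝓝 0)
        (𝓝 (0 : (ℝ × QQ n e) × (ℝ × ℝ) × W)) := by
      have h1 : Continuous (fun r : (ℝ × QQ n e) × ℝ × ℝ => (r.1, (r.2, (0 : W)))) := by fun_prop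
      exact h1.tendsto 0
    have hev : ∀ᶠ r : (ℝ × QQ n e) × ℝ × ℝ in 𝓝 0, B j (((r.1.1, 0), r.1.2), r.2) =
        (G j (((r.1.1, 0), r.1.2), (r.2, 0))).1 := by
      filter_upwards [ht.eventually (hBG j hj), ht2.eventually (hGε j hj)] with r h1 h2
      rw [h1]
      exact h2.1
    filter_upwards [eventually_eventually_nhds.2 hev, ht3.eventually (hGε j hj)] with r h1 h2 h5
    have h3 : (fun v => B j (((r.1.1, 0), r.1.2), v)) =ᶠ[𝓝 r.2] fun v => (G j (((r.1.1, 0), r.1.2), (v, 0))).1 := by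
      have h4 : Tendsto (fun v : ℝ × ℝ => (r.1, v)) (𝓝 r.2) (𝓝 r) :=
        (continuous_const.prodMk continuous_id).tendsto r.2
      exact h4.eventually h1
    rw [ds_jac_congr h3]
    exact h2.2 h5
  -- the planar blocks at `p = 0`
  have hB0 : ∀ j < 2 * n, ∀ᶠ r : QQ n e × ℝ × ℝ in 𝓝 0, B j ((0, r.1), r.2) =
      (r.2.2, -r.2.1 + 2 * Real.cos (sth n) * r.2.2 + ∑ i ∈ Finset.range (e + 1), qx r.1 j i * r.2.2 ^ i) := by
    intro j hj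
    have ht : Tendsto (fun r : QQ n e × ℝ × ℝ => (((0 : ℝ × P'), r.1), r.2)) (𝓝 0)
        (𝓝 (0 : ((ℝ × P') × QQ n e) × ℝ × ℝ)) := by
      have h1 : Continuous (fun r : QQ n e × ℝ × ℝ => (((0 : ℝ × P'), r.1), r.2)) := by fun_prop
      exact h1.tendsto 0
    have ht2 : Tendsto (fun r : QQ n e × ℝ × ℝ => (r.1, (r.2, Ω j ((0, r.1), r.2)))) (𝓝 0)
        (𝓝 (0 : QQ n e × (ℝ × ℝ) × W)) := by
      have h1 : Continuous (fun r : QQ n e × ℝ × ℝ => (r.1, (r.2, Ω j (((0 : ℝ × P'), r.1), r.2)))) :=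
        continuous_fst.prodMk (continuous_snd.prodMk ((hΩ j hj).1.comp (by fun_prop)))
      have h2 := h1.tendsto 0
      have h3 : ((0 : QQ n e × ℝ × ℝ).1, ((0 : QQ n e × ℝ × ℝ).2,
          Ω j ((0, (0 : QQ n e × ℝ × ℝ).1), (0 : QQ n e × ℝ × ℝ).2))) = (0 : QQ n e × (ℝ × ℝ) × W) :=
        Prod.ext rfl (Prod.ext rfl (hΩ j hj).2)
      rw [h3] at h2
      exact h2
    filter_upwards [ht.eventually (hBG j hj), ht2.eventually (hG0 j hj)] with r h1 h2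
    rw [h1]
    show (G j ((0, r.1), (r.2, Ω j ((0, r.1), r.2)))).1 = _
    rw [h2]
  have hJn : ∀ j, ∃ Jn : ((ℝ × P') × QQ n e) × ℝ × ℝ → ℝ, j < 2 * n → (ContDiff ℝ ∞ Jn ∧
      (∀ᶠ r in 𝓝 0, jac (fun v => B j (r.1, v)) r.2 = Real.exp (r.1.1.1 * Jn r)) ∧
      ∀ᶠ r : QQ n e × ℝ × ℝ in 𝓝 0, Jn ((0, r.1), r.2) = s₀ * (r.2.2 + d (j + 1))) := by
    intro j
    by_cases hj : j < 2 * n
    · obtain ⟨Jn, h1, h2, h3⟩ := ds3_log (hB j hj) (hBρ j hj) (hJ j hj).continuous (hBε j hj) (hJ0 j hj)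
      exact ⟨Jn, fun _ => ⟨h1, h2, h3⟩⟩
    · exact ⟨fun _ => 0, fun h => absurd h hj⟩
  choose Jn hJn using hJn
  -- good parameters
  have hg1 : ∀ᶠ z : (ℝ × P') × QQ n e in 𝓝 0, ∀ᶠ v : ℝ × ℝ in 𝓝 0,
      (stW G (2 * n) (z, (v, om (z, v)))).2 = om (z, v) := by
    have h0 : (0 : ((ℝ × P') × QQ n e) × ℝ × ℝ) = ((0 : (ℝ × P') × QQ n e), (0 : ℝ × ℝ)) := rfl
    rw [h0] at homev
    exact homev.curry_nhds
  have hg2 : ∀ᶠ z : (ℝ × P') × QQ n e in 𝓝 0, ∀ᶠ v : ℝ × ℝ in 𝓝 0, st B (2 * n) (z, v) = dPhi G om (2 * n) (z, v) := by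
    have h1 := hst (2 * n) le_rfl
    have h0 : (0 : ((ℝ × P') × QQ n e) × ℝ × ℝ) = ((0 : (ℝ × P') × QQ n e), (0 : ℝ × ℝ)) := rfl
    rw [h0] at h1
    exact h1.curry_nhds
  have hg3 : ∀ᶠ z : (ℝ × P') × QQ n e in 𝓝 0, ∀ j ∈ Finset.range (2 * n + 1), stW G j (z, (0, om (z, 0))) ∈ O := by
    rw [Filter.eventually_all_finset]
    intro j hj
    have hj' : j ≤ 2 * n := Nat.lt_succ_iff.1 (Finset.mem_range.1 hj)
    have h1 : Continuous (fun z : (ℝ × P') × QQ n e => stW G j (z, ((0 : ℝ × ℝ), om (z, 0)))) := by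
      refine (stW_contDiff hG j hj').continuous.comp ?_
      exact continuous_id.prodMk (continuous_const.prodMk (hom.continuous.comp (continuous_id.prodMk continuous_const)))
    have h2 := h1.tendsto 0
    have h3 : stW G j ((0 : (ℝ × P') × QQ n e), ((0 : ℝ × ℝ), om ((0 : (ℝ × P') × QQ n e), (0 : ℝ × ℝ)))) = 0 := by
      have h4 : om ((0 : (ℝ × P') × QQ n e), (0 : ℝ × ℝ)) = 0 := hom0
      rw [h4]
      exact ds1_val0 hn2 hG hG0 hj'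
    rw [h3] at h2
    exact h2.eventually hO
  obtain ⟨pa, hpa, pb, hpb, hpp⟩ := Filter.eventually_prod_iff.1
    ((nhds_prod_eq (x := (0 : ℝ × P')) (y := (0 : QQ n e))) ▸ (hg1.and (hg2.and hg3)))
  have hVn : V ∩ {q : QQ n e | pb q} ∈ 𝓝 (0 : QQ n e) := Filter.inter_mem hV hpb
  have has := as2_local (P := ℝ × P') he hn hB (fun j hj => (hJn j hj).1) hB0 (fun j hj => (hJn j hj).2.2) hs hd
    (ρ := fun p => p.1) (fun j hj => (hJn j hj).2.1.mono fun r hr _ => hr) hVn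
  filter_upwards [hpa, has] with p hp1 hp2 hp3
  obtain ⟨q, ⟨hqV, hqb⟩, hq⟩ := hp2 hp3
  obtain ⟨g1, g2, g3⟩ := hpp hp1 hqb
  refine ⟨q, hqV, fun v => om ((p, q), v), fun v => dPhi G om (2 * n) ((p, q), v),
    hom.comp (contDiff_const.prodMk contDiff_id),
    (ds2_smooth hG hom le_rfl).comp (contDiff_const.prodMk contDiff_id), ?_, ?_, fun j hj => ?_⟩
  · filter_upwards [g1] with v hv
    exact Prod.ext rfl hv
  · refine hq.congr' ?_ EventuallyEq.rfl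
    filter_upwards [g2] with v hv
    rw [hv]
  · exact g3 j (Finset.mem_range.2 (Nat.lt_succ_of_le hj))

end Pool.Agent.Lib.H37D
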