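import Pool.Agent.Lib.H37N.SA8
import Pool.Agent.Lib.H37N.T10b

/-! # H37D, chunk DS0: blocks with a slaved variable (definition, smoothness) -/

open Set Filter Topology Asymptotics
open scoped ContDiff

namespace Pool.Agent.Lib.H37D

open Pool.Agent.Lib.H37N

/-- the point after `j` blocks; `G j (p, (v, w))` is the `j`-th block -/
def stW {X W : Type} (G : ℕ → X × (ℝ × ℝ) × W → (ℝ × ℝ) × W) : ℕ → X × (ℝ × ℝ) × W → (ℝ × ℝ) × W
  | 0, r => r.2
  | j + 1, r => G j (r.1, stW G j r)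

theorem stW_contDiff {X W : Type} [NormedAddCommGroup X] [NormedSpace ℝ X] [NormedAddCommGroup W] [NormedSpace ℝ W]
    {G : ℕ → X × (ℝ × ℝ) × W → (ℝ × ℝ) × W} {N : ℕ} (hG : ∀ j < N, ContDiff ℝ ∞ (G j)) :
    ∀ j ≤ N, ContDiff ℝ ∞ (stW G j) := by
  intro j
  induction j with
  | zero =>
    intro _
    show ContDiff ℝ ∞ (fun r : X × (ℝ × ℝ) × W => r.2)
    exact contDiff_snd
  | succ j ih =>
    intro hj
    show ContDiff ℝ ∞ (fun r : X × (ℝ × ℝ) × W => G j (r.1, stW G j r))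
    exact (hG j (by omega)).comp (contDiff_fst.prodMk (ih (by omega)))

end Pool.Agent.Lib.H37D
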