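import Pool.Agent.Lib.H37D.DS0

/-! # H37D, chunk DS1: the composition at the parameter `p = 0`; the slaved variable -/

open Set Filter Topology Asymptotics
open scoped ContDiff

namespace Pool.Agent.Lib.H37D

open Pool.Agent.Lib.H37N

section model

variable {n e : ℕ}

theorem ds1_st_smooth (n e j : ℕ) : ContDiff ℝ ∞ (st (sMo n e) j) :=
  st_contDiff (N := j) (fun i _ => contDiff_sMo n e i) j le_rfl

theorem ds1_st_zero (hn : 2 ≤ n) (v : ℝ × ℝ) (j : ℕ) :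
    st (sMo n e) j ((0 : QQ n e), v) = (spi n j v, spi n (j + 1) v) := by
  induction j with
  | zero =>
    show v = _
    rw [Nat.cast_zero, zero_add, spi_zero hn, spi_one hn]
  | succ j ih =>
    show sMo n e j ((0 : QQ n e), st (sMo n e) j ((0 : QQ n e), v)) = _
    rw [ih]
    have hq : ∀ i, qx (0 : QQ n e) j i = 0 := by
      intro i
      have := qx_smul (0 : QQ n e) 0 j i
      rwa [zero_smul, zero_mul] at this
    have h2 := spi_rec hn ((j : ℝ) + 1) v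
    rw [add_sub_cancel_right] at h2
    unfold sMo
    simp only [hq, zero_mul, Finset.sum_const_zero, add_zero]
    push_cast
    rw [h2]
    ext
    · rfl
    · show _ = _
      ring

theorem ds1_st_zero' (hn : 2 ≤ n) (j : ℕ) : st (sMo n e) j (0 : QQ n e × ℝ × ℝ) = 0 := by
  have h := ds1_st_zero (e := e) hn (0 : ℝ × ℝ) j
  have h0 : ((0 : QQ n e), (0 : ℝ × ℝ)) = (0 : QQ n e × ℝ × ℝ) := rfl
  rw [h0] at h
  rw [h]
  simp [spi]

/-- the linear part of the composition of `j` model blocks -/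
noncomputable def sLin (n j : ℕ) : ℝ × ℝ →L[ℝ] ℝ × ℝ :=
  (sK n j • ContinuousLinearMap.snd ℝ ℝ ℝ - sK n ((j : ℝ) - 1) • ContinuousLinearMap.fst ℝ ℝ ℝ).prod
    (sK n (j + 1) • ContinuousLinearMap.snd ℝ ℝ ℝ - sK n j • ContinuousLinearMap.fst ℝ ℝ ℝ)

theorem sLin_apply (n j : ℕ) (v : ℝ × ℝ) : sLin n j v = (spi n j v, spi n (j + 1) v) := by
  unfold sLin spi
  simp

theorem sLin_bij (hn : 2 ≤ n) (j : ℕ) : Function.Bijective (sLin n j) := by
  have hinj : Function.Injective (sLin n j : ℝ × ℝ →ₗ[ℝ] ℝ × ℝ) := by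
    rw [← LinearMap.ker_eq_bot, LinearMap.ker_eq_bot']
    intro v hv
    have h1 : (spi n j v, spi n (j + 1) v) = 0 := by
      rw [← sLin_apply]
      exact hv
    have key : ∀ i : ℕ, i ≤ j → spi n ((j : ℝ) - i) v = 0 ∧ spi n ((j : ℝ) - i + 1) v = 0 := by
      intro i
      induction i with
      | zero =>
        intro _
        rw [Nat.cast_zero, sub_zero]
        exact ⟨congrArg Prod.fst h1, congrArg Prod.snd h1⟩
      | succ i ih =>
        intro hi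
        obtain ⟨h2, h3⟩ := ih (by omega)
        have h4 := spi_rec hn ((j : ℝ) - i) v
        rw [h2, h3] at h4
        push_cast
        rw [show (j : ℝ) - (i + 1) + 1 = j - i by ring, show (j : ℝ) - (i + 1) = j - i - 1 by ring]
        exact ⟨by linarith, h2⟩
    obtain ⟨h2, h3⟩ := key j le_rfl
    rw [sub_self] at h2 h3
    rw [spi_zero hn] at h2
    rw [zero_add, spi_one hn] at h3
    exact Prod.ext h2 h3
  exact ⟨hinj, LinearMap.injective_iff_surjective.1 hinj⟩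

end model

section blocks

variable {P' : Type} [NormedAddCommGroup P'] [NormedSpace ℝ P'] [FiniteDimensional ℝ P']
  {W : Type} [NormedAddCommGroup W] [NormedSpace ℝ W] [FiniteDimensional ℝ W] {n e : ℕ}
  {c : W} {G : ℕ → ((ℝ × P') × QQ n e) × (ℝ × ℝ) × W → (ℝ × ℝ) × W}

/-- the values at the parameter `p = 0` -/
theorem ds1_val (hn : 2 ≤ n) (hG : ∀ j < 2 * n, ContDiff ℝ ∞ (G j))
    (hG0 : ∀ j < 2 * n, ∀ᶠ r : QQ n e × (ℝ × ℝ) × W in 𝓝 0, G j ((0, r.1), r.2) =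
      ((r.2.1.2, -r.2.1.1 + 2 * Real.cos (sth n) * r.2.1.2 + ∑ i ∈ Finset.range (e + 1), qx r.1 j i * r.2.1.2 ^ i),
        r.2.1.2 • c)) : ∀ j ≤ 2 * n, ∀ᶠ r : QQ n e × (ℝ × ℝ) × W in 𝓝 0,
      (stW G j ((0, r.1), r.2)).1 = st (sMo n e) j (r.1, r.2.1) ∧
      (j ≠ 0 → (stW G j ((0, r.1), r.2)).2 = (st (sMo n e) j (r.1, r.2.1)).1 • c) := by
  intro j
  induction j with
  | zero => exact fun _ => Eventually.of_forall fun r => ⟨rfl, fun h => absurd rfl h⟩
  | succ j ih =>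
    intro hj
    have ih' := ih (by omega)
    have hs := stW_contDiff hG j (by omega)
    -- the value at `0`
    have h0 : stW G j (((0 : ℝ × P'), (0 : QQ n e)), (0 : (ℝ × ℝ) × W)) = 0 := by
      rcases Nat.eq_zero_or_pos j with rfl | hpos
      · rfl
      · obtain ⟨h1, h2⟩ := ih'.self_of_nhds
        have h3 : st (sMo n e) j ((0 : QQ n e × (ℝ × ℝ) × W).1, (0 : QQ n e × (ℝ × ℝ) × W).2.1) = 0 :=
          ds1_st_zero' hn j
        rw [h3] at h1 h2
        refine Prod.ext h1 ?_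
        exact (h2 hpos.ne').trans (zero_smul ℝ c)
    have ht : Tendsto (fun r : QQ n e × (ℝ × ℝ) × W => (r.1, stW G j ((0, r.1), r.2))) (𝓝 0) (𝓝 0) := by
      have h1 : Continuous (fun r : QQ n e × (ℝ × ℝ) × W => (r.1, stW G j ((0, r.1), r.2))) := by
        refine continuous_fst.prodMk (hs.continuous.comp ?_)
        exact (continuous_const.prodMk continuous_fst).prodMk continuous_snd
      have h2 := h1.tendsto (0 : QQ n e × (ℝ × ℝ) × W)
      have h3 : ((0 : QQ n e × (ℝ × ℝ) × W).1, stW G j ((0, (0 : QQ n e × (ℝ × ℝ) × W).1),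
          (0 : QQ n e × (ℝ × ℝ) × W).2)) = (0 : QQ n e × (ℝ × ℝ) × W) := Prod.ext rfl h0
      rw [h3] at h2
      exact h2
    filter_upwards [ih', ht.eventually (hG0 j (by omega))] with r h1 h2
    have h3 : stW G (j + 1) ((0, r.1), r.2) = G j ((0, r.1), stW G j ((0, r.1), r.2)) := rfl
    have h4 : st (sMo n e) (j + 1) (r.1, r.2.1) = sMo n e j (r.1, st (sMo n e) j (r.1, r.2.1)) := rfl
    rw [h3, h2, h4]
    simp only [h1.1]
    refine ⟨rfl, fun _ => rfl⟩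

/-- the value of the composition at `0` -/
theorem ds1_val0 (hn : 2 ≤ n) (hG : ∀ j < 2 * n, ContDiff ℝ ∞ (G j))
    (hG0 : ∀ j < 2 * n, ∀ᶠ r : QQ n e × (ℝ × ℝ) × W in 𝓝 0, G j ((0, r.1), r.2) =
      ((r.2.1.2, -r.2.1.1 + 2 * Real.cos (sth n) * r.2.1.2 + ∑ i ∈ Finset.range (e + 1), qx r.1 j i * r.2.1.2 ^ i),
        r.2.1.2 • c)) {j : ℕ} (hj : j ≤ 2 * n) :
    stW G j (0 : ((ℝ × P') × QQ n e) × (ℝ × ℝ) × W) = 0 := by
  rcases Nat.eq_zero_or_pos j with rfl | hpos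
  · rfl
  · obtain ⟨h1, h2⟩ := (ds1_val hn hG hG0 j hj).self_of_nhds
    have h3 : st (sMo n e) j ((0 : QQ n e × (ℝ × ℝ) × W).1, (0 : QQ n e × (ℝ × ℝ) × W).2.1) = 0 :=
      ds1_st_zero' hn j
    rw [h3] at h1 h2
    refine Prod.ext h1 ?_
    exact (h2 hpos.ne').trans (zero_smul ℝ c)

/-- the slaved variable -/
theorem ds1_om (hn : 2 ≤ n) (hG : ∀ j < 2 * n, ContDiff ℝ ∞ (G j))
    (hG0 : ∀ j < 2 * n, ∀ᶠ r : QQ n e × (ℝ × ℝ) × W in 𝓝 0, G j ((0, r.1), r.2) =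
      ((r.2.1.2, -r.2.1.1 + 2 * Real.cos (sth n) * r.2.1.2 + ∑ i ∈ Finset.range (e + 1), qx r.1 j i * r.2.1.2 ^ i),
        r.2.1.2 • c)) :
    ∃ om : ((ℝ × P') × QQ n e) × ℝ × ℝ → W, ContDiff ℝ ∞ om ∧ om 0 = 0 ∧
      ∀ᶠ r in 𝓝 0, (stW G (2 * n) (r.1, (r.2, om r))).2 = om r := by
  have hS := stW_contDiff hG (2 * n) le_rfl
  set F : (((ℝ × P') × QQ n e) × ℝ × ℝ) × W → W :=
    fun s => s.2 - (stW G (2 * n) (s.1.1, (s.1.2, s.2))).2 with hF
  have hFs : ContDiff ℝ ∞ F := by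
    refine contDiff_snd.sub (contDiff_snd.comp (hS.comp ?_))
    exact (contDiff_fst.comp contDiff_fst).prodMk ((contDiff_snd.comp contDiff_fst).prodMk contDiff_snd)
  have hev : (fun x : W => F (0, x)) =ᶠ[𝓝 0] fun x => x := by
    have h1 := ds1_val hn hG hG0 (2 * n) le_rfl
    have h2 : Tendsto (fun x : W => (((0 : QQ n e), ((0 : ℝ × ℝ), x)) : QQ n e × (ℝ × ℝ) × W)) (𝓝 0) (𝓝 0) := by
      have h3 : Continuous (fun x : W => (((0 : QQ n e), ((0 : ℝ × ℝ), x)) : QQ n e × (ℝ × ℝ) × W)) :=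
        continuous_const.prodMk (continuous_const.prodMk continuous_id)
      exact h3.tendsto 0
    filter_upwards [h2.eventually h1] with x hx
    have h4 := hx.2 (by omega)
    have h5 : st (sMo n e) (2 * n) ((0 : QQ n e), (0 : ℝ × ℝ)) = 0 := ds1_st_zero' hn _
    have h6 : (stW G (2 * n) (((0 : ℝ × P'), (0 : QQ n e)), ((0 : ℝ × ℝ), x))).2 = 0 := by
      rw [h4]
      show (st (sMo n e) (2 * n) ((0 : QQ n e), (0 : ℝ × ℝ))).1 • c = 0
      rw [h5, Prod.fst_zero, zero_smul]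
    show x - (stW G (2 * n) (((0 : ℝ × P'), (0 : QQ n e)), ((0 : ℝ × ℝ), x))).2 = x
    rw [h6, sub_zero]
  have hb : Function.Bijective (fderiv ℝ (fun x : W => F (0, x)) 0) := by
    rw [hev.fderiv_eq, fderiv_fun_id]
    exact Function.bijective_id
  obtain ⟨ξ, hξ, hξ0, -, hξ2⟩ := implicit_param (P := ((ℝ × P') × QQ n e) × ℝ × ℝ) (E := W) (Z := W) (F := F)
    (p₀ := 0) (x₀ := 0) (Eventually.of_forall fun x => hFs.contDiffAt) hb
  have hF0 : F ((0 : ((ℝ × P') × QQ n e) × ℝ × ℝ), (0 : W)) = 0 := hev.self_of_nhds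
  rw [hF0] at hξ0 hξ2
  refine ⟨fun r => ξ (r, 0), hξ.comp (contDiff_id.prodMk contDiff_const), hξ0, ?_⟩
  have ht : Tendsto (fun r : ((ℝ × P') × QQ n e) × ℝ × ℝ => (r, (0 : W))) (𝓝 0) (𝓝 (0, 0)) :=
    (continuous_id.prodMk continuous_const).tendsto 0
  filter_upwards [ht.eventually hξ2] with r hr
  have h7 : ξ (r, 0) - (stW G (2 * n) (r.1, (r.2, ξ (r, 0)))).2 = 0 := hr
  exact (sub_eq_zero.1 h7).symm

end blocks

end Pool.Agent.Lib.H37D
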