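import Pool.Agent.Lib.H37D.DS1

/-! # H37D, chunk DS2: the planar blocks of a composition with a slaved variable -/

open Set Filter Topology Asymptotics
open scoped ContDiff

namespace Pool.Agent.Lib.H37D

open Pool.Agent.Lib.H37N

section blocks

variable {P' : Type} [NormedAddCommGroup P'] [NormedSpace ℝ P'] [FiniteDimensional ℝ P']
  {W : Type} [NormedAddCommGroup W] [NormedSpace ℝ W] [FiniteDimensional ℝ W] {n e : ℕ}
  {c : W} {G : ℕ → ((ℝ × P') × QQ n e) × (ℝ × ℝ) × W → (ℝ × ℝ) × W}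

/-- the planar part after `j` blocks, the `W`-variable being a function of the planar one -/
def dPhi {X W : Type} (G : ℕ → X × (ℝ × ℝ) × W → (ℝ × ℝ) × W) (om : X × ℝ × ℝ → W) (j : ℕ) (r : X × ℝ × ℝ) : ℝ × ℝ :=
  (stW G j (r.1, (r.2, om r))).1

omit [FiniteDimensional ℝ P'] [FiniteDimensional ℝ W] in
theorem ds2_smooth (hG : ∀ j < 2 * n, ContDiff ℝ ∞ (G j)) {om : ((ℝ × P') × QQ n e) × ℝ × ℝ → W}
    (hom : ContDiff ℝ ∞ om) {j : ℕ} (hj : j ≤ 2 * n) : ContDiff ℝ ∞ (dPhi G om j) := by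
  have hS := stW_contDiff hG j hj
  exact contDiff_fst.comp (hS.comp (contDiff_fst.prodMk (contDiff_snd.prodMk hom)))

theorem ds2_zero (hn : 2 ≤ n) (hG : ∀ j < 2 * n, ContDiff ℝ ∞ (G j))
    (hG0 : ∀ j < 2 * n, ∀ᶠ r : QQ n e × (ℝ × ℝ) × W in 𝓝 0, G j ((0, r.1), r.2) =
      ((r.2.1.2, -r.2.1.1 + 2 * Real.cos (sth n) * r.2.1.2 + ∑ i ∈ Finset.range (e + 1), qx r.1 j i * r.2.1.2 ^ i),
        r.2.1.2 • c)) {om : ((ℝ × P') × QQ n e) × ℝ × ℝ → W} (hom : ContDiff ℝ ∞ om) (hom0 : om 0 = 0) {j : ℕ}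
    (hj : j ≤ 2 * n) : (fun x : ℝ × ℝ => dPhi G om j (0, x)) =ᶠ[𝓝 0] fun x => sLin n j x := by
  have ht : Tendsto (fun x : ℝ × ℝ => (((0 : QQ n e), (x, om (0, x))) : QQ n e × (ℝ × ℝ) × W)) (𝓝 0) (𝓝 0) := by
    have h1 : Continuous (fun x : ℝ × ℝ => (((0 : QQ n e), (x, om (0, x))) : QQ n e × (ℝ × ℝ) × W)) :=
      continuous_const.prodMk (continuous_id.prodMk (hom.continuous.comp (continuous_const.prodMk continuous_id)))
    have h2 := h1.tendsto 0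
    have h3 : (((0 : QQ n e), ((0 : ℝ × ℝ), om (0, 0))) : QQ n e × (ℝ × ℝ) × W) = 0 :=
      Prod.ext rfl (Prod.ext rfl hom0)
    rw [h3] at h2
    exact h2
  filter_upwards [ht.eventually (ds1_val hn hG hG0 j hj)] with x hx
  show (stW G j (0, (x, om (0, x)))).1 = _
  rw [sLin_apply, ← ds1_st_zero (e := e) hn x j]
  exact hx.1

theorem ds2_inv (hn : 2 ≤ n) (hG : ∀ j < 2 * n, ContDiff ℝ ∞ (G j))
    (hG0 : ∀ j < 2 * n, ∀ᶠ r : QQ n e × (ℝ × ℝ) × W in 𝓝 0, G j ((0, r.1), r.2) =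
      ((r.2.1.2, -r.2.1.1 + 2 * Real.cos (sth n) * r.2.1.2 + ∑ i ∈ Finset.range (e + 1), qx r.1 j i * r.2.1.2 ^ i),
        r.2.1.2 • c)) {om : ((ℝ × P') × QQ n e) × ℝ × ℝ → W} (hom : ContDiff ℝ ∞ om) (hom0 : om 0 = 0) (j : ℕ) :
    ∃ ξ : ((ℝ × P') × QQ n e) × ℝ × ℝ → ℝ × ℝ, j ≤ 2 * n → (ContDiff ℝ ∞ ξ ∧ ξ 0 = 0 ∧
      (∀ᶠ r in 𝓝 0, ξ (r.1, dPhi G om j r) = r.2) ∧ ∀ᶠ r in 𝓝 0, dPhi G om j (r.1, ξ r) = r.2) := by
  by_cases hj : j ≤ 2 * n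
  · have hs := ds2_smooth hG hom hj
    have hz := ds2_zero hn hG hG0 hom hom0 hj
    have hb : Function.Bijective (fderiv ℝ (fun x : ℝ × ℝ => dPhi G om j (0, x)) 0) := by
      rw [hz.fderiv_eq, (sLin n j).fderiv]
      exact sLin_bij hn j
    obtain ⟨ξ, h1, h2, h3, h4⟩ := implicit_param (P := (ℝ × P') × QQ n e) (E := ℝ × ℝ) (Z := ℝ × ℝ)
      (F := dPhi G om j) (p₀ := 0) (x₀ := 0) (Eventually.of_forall fun x => hs.contDiffAt) hb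
    have h0 : dPhi G om j ((0 : (ℝ × P') × QQ n e), (0 : ℝ × ℝ)) = 0 := by
      exact (hz.self_of_nhds).trans (map_zero (sLin n j))
    rw [h0] at h2 h4
    exact ⟨ξ, fun _ => ⟨h1, h2, h3, h4⟩⟩
  · exact ⟨fun _ => 0, fun h => absurd h hj⟩

theorem ds2_blocks (hn : 2 ≤ n) (hG : ∀ j < 2 * n, ContDiff ℝ ∞ (G j))
    (hG0 : ∀ j < 2 * n, ∀ᶠ r : QQ n e × (ℝ × ℝ) × W in 𝓝 0, G j ((0, r.1), r.2) =
      ((r.2.1.2, -r.2.1.1 + 2 * Real.cos (sth n) * r.2.1.2 + ∑ i ∈ Finset.range (e + 1), qx r.1 j i * r.2.1.2 ^ i),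
        r.2.1.2 • c)) {om : ((ℝ × P') × QQ n e) × ℝ × ℝ → W} (hom : ContDiff ℝ ∞ om) (hom0 : om 0 = 0) :
    ∃ (B : ℕ → ((ℝ × P') × QQ n e) × ℝ × ℝ → ℝ × ℝ) (Ω : ℕ → ((ℝ × P') × QQ n e) × ℝ × ℝ → W),
      (∀ j < 2 * n, ContDiff ℝ ∞ (B j)) ∧ (∀ j < 2 * n, Continuous (Ω j) ∧ Ω j 0 = 0) ∧
      (∀ j < 2 * n, ∀ᶠ r in 𝓝 0, B j r = (G j (r.1, (r.2, Ω j r))).1) ∧
      ∀ j ≤ 2 * n, ∀ᶠ r in 𝓝 0, st B j r = dPhi G om j r := by
  choose ξ hξ using ds2_inv hn hG hG0 hom hom0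
  refine ⟨fun j r => dPhi G om (j + 1) (r.1, ξ j r), fun j r => (stW G j (r.1, (ξ j r, om (r.1, ξ j r)))).2,
    fun j hj => ?_, fun j hj => ⟨?_, ?_⟩, fun j hj => ?_, fun j => ?_⟩
  · exact (ds2_smooth hG hom hj).comp (contDiff_fst.prodMk (hξ j hj.le).1)
  · have hS := (stW_contDiff hG j hj.le).continuous
    have h1 := (hξ j hj.le).1.continuous
    exact continuous_snd.comp (hS.comp (continuous_fst.prodMk
      (h1.prodMk (hom.continuous.comp (continuous_fst.prodMk h1)))))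
  · have h1 := (hξ j hj.le).2.1
    show (stW G j ((0 : ((ℝ × P') × QQ n e) × ℝ × ℝ).1, (ξ j 0, om ((0 : ((ℝ × P') × QQ n e) × ℝ × ℝ).1, ξ j 0)))).2 = 0
    rw [h1]
    have h2 : om ((0 : ((ℝ × P') × QQ n e) × ℝ × ℝ).1, (0 : ℝ × ℝ)) = 0 := hom0
    rw [h2]
    have h3 := ds1_val0 hn hG hG0 hj.le
    exact congrArg Prod.snd h3
  · filter_upwards [(hξ j hj.le).2.2.2] with r hr
    show (G j (r.1, stW G j (r.1, (ξ j r, om (r.1, ξ j r))))).1 =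
      (G j (r.1, (r.2, (stW G j (r.1, (ξ j r, om (r.1, ξ j r)))).2))).1
    have h1 : (stW G j (r.1, (ξ j r, om (r.1, ξ j r)))).1 = r.2 := hr
    have h2 : stW G j (r.1, (ξ j r, om (r.1, ξ j r))) = (r.2, (stW G j (r.1, (ξ j r, om (r.1, ξ j r)))).2) :=
      Prod.ext h1 rfl
    rw [← h2]
  · induction j with
    | zero => exact fun _ => Eventually.of_forall fun r => rfl
    | succ j ih =>
      intro hj
      filter_upwards [ih (by omega), (hξ j (by omega)).2.2.1] with r h1 h2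
      show dPhi G om (j + 1) (r.1, ξ j (r.1, st _ j r)) = _
      rw [h1, h2]

end blocks

end Pool.Agent.Lib.H37D
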