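import Pool.Agent.Lib.H37D.DS2
import Pool.Agent.Lib.H37N.T2

/-! # H37D, chunk DS3: the logarithm of the Jacobian is divisible by `ρ` -/

open Set Filter Topology Asymptotics
open scoped ContDiff

namespace Pool.Agent.Lib.H37D

open Pool.Agent.Lib.H37N

/-- the planar Jacobian of a family is smooth -/
theorem ds3_jac_smooth {X : Type} [NormedAddCommGroup X] [NormedSpace ℝ X] {B : X × ℝ × ℝ → ℝ × ℝ}
    (hB : ContDiff ℝ ∞ B) : ContDiff ℝ ∞ (fun r : X × ℝ × ℝ => jac (fun v => B (r.1, v)) r.2) := by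
  have h1 : ∀ (r : X × ℝ × ℝ) (w : ℝ × ℝ), fderiv ℝ (fun v => B (r.1, v)) r.2 w = fderiv ℝ B r (0, w) := by
    intro r w
    have h2 : HasFDerivAt (fun v : ℝ × ℝ => (r.1, v)) (ContinuousLinearMap.inr ℝ X (ℝ × ℝ)) r.2 :=
      hasFDerivAt_prodMk_right r.1 r.2
    have h3 : HasFDerivAt B (fderiv ℝ B r) (r.1, r.2) := (hB.differentiable (by simp) r).hasFDerivAt
    have h4 : fderiv ℝ (fun v => B (r.1, v)) r.2 = (fderiv ℝ B r).comp (ContinuousLinearMap.inr ℝ X (ℝ × ℝ)) :=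
      (h3.comp r.2 h2).fderiv
    rw [h4]
    rfl
  have h4 : ∀ w : ℝ × ℝ, ContDiff ℝ ∞ (fun r : X × ℝ × ℝ => fderiv ℝ B r (0, w)) := fun w =>
    (hB.fderiv_right (m := ∞) (by simp)).clm_apply contDiff_const
  have h5 : (fun r : X × ℝ × ℝ => jac (fun v => B (r.1, v)) r.2) = fun r =>
      (fderiv ℝ B r (0, (1, 0))).1 * (fderiv ℝ B r (0, (0, 1))).2 -
        (fderiv ℝ B r (0, (1, 0))).2 * (fderiv ℝ B r (0, (0, 1))).1 := by
    funext r
    unfold jac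
    rw [h1, h1]
  rw [h5]
  exact ((contDiff_fst.comp (h4 _)).mul (contDiff_snd.comp (h4 _))).sub
    ((contDiff_snd.comp (h4 _)).mul (contDiff_fst.comp (h4 _)))

variable {P' : Type} [NormedAddCommGroup P'] [NormedSpace ℝ P'] [FiniteDimensional ℝ P'] {n e : ℕ}

/-- `log jac = ρ * Jn` with a smooth `Jn`, known at `p = 0` -/
theorem ds3_log {B : ((ℝ × P') × QQ n e) × ℝ × ℝ → ℝ × ℝ} (hB : ContDiff ℝ ∞ B)
    (hρ : ∀ᶠ r : (P' × QQ n e) × ℝ × ℝ in 𝓝 0, jac (fun v => B (((0, r.1.1), r.1.2), v)) r.2 = 1)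
    {J : (ℝ × QQ n e) × ℝ × ℝ → ℝ} (hJ : Continuous J)
    (hε : ∀ᶠ r : (ℝ × QQ n e) × ℝ × ℝ in 𝓝 0, r.1.1 ≠ 0 →
      jac (fun v => B (((r.1.1, 0), r.1.2), v)) r.2 = Real.exp (r.1.1 * J r)) {s₀ d' : ℝ}
    (hJ0 : ∀ᶠ r : QQ n e × ℝ × ℝ in 𝓝 0, J ((0, r.1), r.2) = s₀ * (r.2.2 + d')) :
    ∃ Jn : ((ℝ × P') × QQ n e) × ℝ × ℝ → ℝ, ContDiff ℝ ∞ Jn ∧
      (∀ᶠ r in 𝓝 0, jac (fun v => B (r.1, v)) r.2 = Real.exp (r.1.1.1 * Jn r)) ∧
      ∀ᶠ r : QQ n e × ℝ × ℝ in 𝓝 0, Jn ((0, r.1), r.2) = s₀ * (r.2.2 + d') := by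
  set jB : ((ℝ × P') × QQ n e) × ℝ × ℝ → ℝ := fun r => jac (fun v => B (r.1, v)) r.2 with hjB
  have hjs : ContDiff ℝ ∞ jB := ds3_jac_smooth hB
  have h0 : jB 0 = 1 := hρ.self_of_nhds
  have hpos : ∀ᶠ r in 𝓝 0, 0 < jB r := by
    refine hjs.continuous.continuousAt.eventually (lt_mem_nhds ?_)
    rw [h0]
    exact one_pos
  obtain ⟨Lg, hLg, hLe⟩ := localise_at (f := fun r => Real.log (jB r)) (x₀ := 0)
    (hpos.mono fun r hr => hjs.contDiffAt.log hr.ne')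
  set F : ((P' × QQ n e) × ℝ × ℝ) × ℝ → ℝ := fun s => Lg (((s.2, s.1.1.1), s.1.1.2), s.1.2) with hF
  have hFs : ContDiff ℝ ∞ F := by
    refine hLg.comp ?_
    exact ((contDiff_snd.prodMk (contDiff_fst.comp (contDiff_fst.comp contDiff_fst))).prodMk
      (contDiff_snd.comp (contDiff_fst.comp contDiff_fst))).prodMk (contDiff_snd.comp contDiff_fst)
  obtain ⟨K, hK, hK1, -⟩ := hadamard1 hFs
  set Jn : ((ℝ × P') × QQ n e) × ℝ × ℝ → ℝ := fun r => K (((r.1.1.2, r.1.2), r.2), r.1.1.1) with hJn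
  have hJns : ContDiff ℝ ∞ Jn := by
    refine hK.comp ?_
    exact (((contDiff_snd.comp (contDiff_fst.comp contDiff_fst)).prodMk (contDiff_snd.comp contDiff_fst)).prodMk
      contDiff_snd).prodMk (contDiff_fst.comp (contDiff_fst.comp contDiff_fst))
  -- near `0`: `log jac = ρ * Jn`
  have ht : Tendsto (fun r : ((ℝ × P') × QQ n e) × ℝ × ℝ => ((r.1.1.2, r.1.2), r.2)) (𝓝 0) (𝓝 0) := by
    have h1 : Continuous (fun r : ((ℝ × P') × QQ n e) × ℝ × ℝ => ((r.1.1.2, r.1.2), r.2)) := by fun_prop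
    exact h1.tendsto 0
  have ht2 : Tendsto (fun r : ((ℝ × P') × QQ n e) × ℝ × ℝ => (((0, r.1.1.2), r.1.2), r.2)) (𝓝 0)
      (𝓝 (0 : ((ℝ × P') × QQ n e) × ℝ × ℝ)) := by
    have h1 : Continuous (fun r : ((ℝ × P') × QQ n e) × ℝ × ℝ =>
      ((((0 : ℝ), r.1.1.2), r.1.2), r.2)) := by fun_prop
    exact h1.tendsto 0
  have hlog : ∀ᶠ r in 𝓝 0, Real.log (jB r) = r.1.1.1 * Jn r := by
    filter_upwards [hLe, ht.eventually hρ, ht2.eventually hLe] with r h1 h2 h3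
    have h4 := hK1 ((r.1.1.2, r.1.2), r.2) r.1.1.1
    have h5 : F (((r.1.1.2, r.1.2), r.2), r.1.1.1) = Lg r := rfl
    have h6 : F (((r.1.1.2, r.1.2), r.2), 0) = Lg (((0, r.1.1.2), r.1.2), r.2) := rfl
    have h7 : jB (((0, r.1.1.2), r.1.2), r.2) = 1 := h2
    rw [h5, h6, h3, h7, Real.log_one, zero_add, h1] at h4
    exact h4
  refine ⟨Jn, hJns, ?_, ?_⟩
  · filter_upwards [hlog, hpos] with r h1 h2
    show jB r = _
    rw [← h1, Real.exp_log h2]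
  · -- the values at `p = 0`
    have ht3 : Tendsto (fun r : (ℝ × QQ n e) × ℝ × ℝ => (((r.1.1, (0 : P')), r.1.2), r.2)) (𝓝 0) (𝓝 0) := by
      have h1 : Continuous (fun r : (ℝ × QQ n e) × ℝ × ℝ => (((r.1.1, (0 : P')), r.1.2), r.2)) := by fun_prop
      exact h1.tendsto 0
    have hev : ∀ᶠ r : (ℝ × QQ n e) × ℝ × ℝ in 𝓝 0, r.1.1 ≠ 0 → Jn (((r.1.1, 0), r.1.2), r.2) = J r := by
      filter_upwards [hε, ht3.eventually hlog] with r h1 h2 h3
      have h4 : jB (((r.1.1, 0), r.1.2), r.2) = Real.exp (r.1.1 * J r) := h1 h3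
      rw [h4, Real.log_exp] at h2
      exact (mul_left_cancel₀ h3 h2).symm
    have ht4 : Tendsto (fun r : QQ n e × ℝ × ℝ => (((0 : ℝ), r.1), r.2)) (𝓝 0) (𝓝 0) := by
      have h1 : Continuous (fun r : QQ n e × ℝ × ℝ => (((0 : ℝ), r.1), r.2)) := by fun_prop
      exact h1.tendsto 0
    filter_upwards [ht4.eventually (eventually_eventually_nhds.2 hev), hJ0] with s h1 h2
    rw [← h2]
    have h3 : Tendsto (fun t : ℝ => ((t, s.1), s.2)) (𝓝 0) (𝓝 (((0 : ℝ), s.1), s.2)) := by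
      have h4 : Continuous (fun t : ℝ => ((t, s.1), s.2)) := by fun_prop
      exact h4.tendsto 0
    have h5 : ∀ᶠ t in 𝓝[≠] (0 : ℝ), Jn (((t, 0), s.1), s.2) = J ((t, s.1), s.2) := by
      filter_upwards [(h3.eventually h1).filter_mono nhdsWithin_le_nhds, self_mem_nhdsWithin] with t h6 h7
      exact h6 h7
    have h8 : Tendsto (fun t : ℝ => Jn (((t, 0), s.1), s.2)) (𝓝[≠] 0) (𝓝 (Jn (((0, 0), s.1), s.2))) := by
      have h9 : Continuous (fun t : ℝ => Jn (((t, 0), s.1), s.2)) := hJns.continuous.comp (by fun_prop)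
      exact (h9.tendsto 0).mono_left nhdsWithin_le_nhds
    have h9 : Tendsto (fun t : ℝ => J ((t, s.1), s.2)) (𝓝[≠] 0) (𝓝 (J ((0, s.1), s.2))) := by
      have h10 : Continuous (fun t : ℝ => J ((t, s.1), s.2)) := hJ.comp (by fun_prop)
      exact (h10.tendsto 0).mono_left nhdsWithin_le_nhds
    exact tendsto_nhds_unique_of_eventuallyEq h8 h9 h5

end Pool.Agent.Lib.H37D
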