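import Pool.Agent.Lib.H37D.FDefs
import Pool.Agent.Lib.H37P.Z20

/-! # H37D, chunk DZ20 (S/M): the blocks at `ε = 0`, smoothness -/

open Set Filter Topology Asymptotics
open scoped ContDiff

namespace Pool.Agent.Lib.H37D

open Pool.Agent.Lib.H37N

variable {d : ℕ}

/-- PROOF. `mulw a w` is bilinear: componentwise products (`contDiff_pi`). -/
theorem contDiff_mulw {X : Type} [NormedAddCommGroup X] [NormedSpace ℝ X] {f g : X → Wd d} (hf : ContDiff ℝ ∞ f)
    (hg : ContDiff ℝ ∞ g) : ContDiff ℝ ∞ (fun x => mulw (f x) (g x)) := by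
  unfold mulw
  rw [contDiff_pi] at hf hg ⊢
  exact fun k => (hf k).mul (hg k)

theorem mulw_zero_left (w : Wd d) : mulw 0 w = 0 := by
  ext k
  simp [mulw]

theorem mulw_zero_right (w : Wd d) : mulw w 0 = 0 := by
  ext k
  simp [mulw]

/-- the components of the parameter are smooth -/
theorem dz20_eps {X : Type} [NormedAddCommGroup X] [NormedSpace ℝ X] {f : X → EP d} (hf : ContDiff ℝ ∞ f) (i : Fin 6)
    (j : Fin 7) : ContDiff ℝ ∞ (fun x => (f x).1 i) ∧ ContDiff ℝ ∞ (fun x => (f x).2 j) := by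
  have h1 : ContDiff ℝ ∞ (fun x => (f x).1) := contDiff_fst.comp hf
  have h2 : ContDiff ℝ ∞ (fun x => (f x).2) := contDiff_snd.comp hf
  exact ⟨(contDiff_pi.1 h1) i, (contDiff_pi.1 h2) j⟩

/-- PROOF. Composition of smooth functions: `dz20_eps` for `Prod.fst`, `contDiff_mulw`, products, `ContDiff.clm_apply` for `f.Y3 _ _`. -/
theorem contDiff_argF (b : ℝ) : ContDiff ℝ ∞ (fun q : EP d × En d => argF b q.1 q.2) := by
  unfold argF
  have h0 := (dz20_eps (X := EP d × En d) (f := Prod.fst) contDiff_fst 0 0)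
  have h1 := (dz20_eps (X := EP d × En d) (f := Prod.fst) contDiff_fst 1 0)
  have x1 : ContDiff ℝ ∞ (fun q : EP d × En d => q.2.1.1) := by fun_prop
  have x2 : ContDiff ℝ ∞ (fun q : EP d × En d => q.2.1.2) := by fun_prop
  have x3 : ContDiff ℝ ∞ (fun q : EP d × En d => q.2.2) := by fun_prop
  exact ((h0.1.mul x1).prodMk (h1.1.mul (x2.add contDiff_const))).prodMk (contDiff_mulw h0.2 x3)

theorem contDiff_XiFD {f : PFD d} (hf : SmPFD f) (b B0 : ℝ) :
    ContDiff ℝ ∞ (fun q : EP d × En d => XiFD f b B0 q.1 q.2) := by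
  unfold XiFD
  have hE : ∀ i : Fin 6, ContDiff ℝ ∞ (fun q : EP d × En d => q.1.1 i) := fun i =>
    (dz20_eps (X := EP d × En d) (f := Prod.fst) contDiff_fst i 0).1
  have hV : ∀ j : Fin 7, ContDiff ℝ ∞ (fun q : EP d × En d => q.1.2 j) := fun j =>
    (dz20_eps (X := EP d × En d) (f := Prod.fst) contDiff_fst 0 j).2
  have x1 : ContDiff ℝ ∞ (fun q : EP d × En d => q.2.1.1) := by fun_prop
  have x2 : ContDiff ℝ ∞ (fun q : EP d × En d => q.2.1.2) := by fun_prop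
  have x3 : ContDiff ℝ ∞ (fun q : EP d × En d => q.2.2) := by fun_prop
  have y1 : ContDiff ℝ ∞ (fun q : EP d × En d => f.Y1 (q.1.1 0 * q.2.1.1, mulw (q.1.2 0) q.2.2)) :=
    hf.smY1.comp (((hE 0).mul x1).prodMk (contDiff_mulw (hV 0) x3))
  have y2 : ContDiff ℝ ∞ (fun q : EP d × En d => f.Y2 (argF b q.1 q.2)) :=
    hf.smY2.comp (contDiff_argF b)
  have y3 : ContDiff ℝ ∞ (fun q : EP d × En d => f.Y3 (mulw (q.1.2 0) q.2.2) (mulw (q.1.2 1) q.2.2)) :=
    (hf.smY3.comp (contDiff_mulw (hV 0) x3)).clm_apply (contDiff_mulw (hV 1) x3)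
  exact (((((contDiff_const.add (hE 5)).mul x1).mul y1)).add
    (((hE 2).mul (x2.add contDiff_const)).mul y2)).add y3

theorem contDiff_etaFD {f : PFD d} (hf : SmPFD f) (b : ℝ) :
    ContDiff ℝ ∞ (fun q : EP d × En d => etaFD f b q.1 q.2) := by
  unfold etaFD
  have x2 : ContDiff ℝ ∞ (fun q : EP d × En d => q.2.1.2) := by fun_prop
  have y2 : ContDiff ℝ ∞ (fun q : EP d × En d => f.W (argF b q.1 q.2)) :=
    hf.smW.comp (contDiff_argF b)
  exact ((x2.add contDiff_const).mul y2).sub contDiff_const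

theorem contDiff_OmFD {f : PFD d} (hf : SmPFD f) (b dS : ℝ) :
    ContDiff ℝ ∞ (fun q : EP d × En d => OmFD f b dS q.1 q.2) := by
  unfold OmFD
  have hV : ∀ j : Fin 7, ContDiff ℝ ∞ (fun q : EP d × En d => q.1.2 j) := fun j =>
    (dz20_eps (X := EP d × En d) (f := Prod.fst) contDiff_fst 0 j).2
  have x1 : ContDiff ℝ ∞ (fun q : EP d × En d => q.2.1.1) := by fun_prop
  have x2 : ContDiff ℝ ∞ (fun q : EP d × En d => q.2.1.2) := by fun_prop
  have x3 : ContDiff ℝ ∞ (fun q : EP d × En d => q.2.2) := by fun_prop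
  have y1 : ContDiff ℝ ∞ (fun q : EP d × En d => f.Z1 (argF b q.1 q.2)) :=
    hf.smZ1.comp (contDiff_argF b)
  have y2 : ContDiff ℝ ∞ (fun q : EP d × En d => f.Z2 (argF b q.1 q.2)) :=
    hf.smZ2.comp (contDiff_argF b)
  have y3 : ContDiff ℝ ∞ (fun q : EP d × En d => f.Z3 (argF b q.1 q.2) (mulw (q.1.2 6) q.2.2)) :=
    (hf.smZ3.comp (contDiff_argF b)).clm_apply (contDiff_mulw (hV 6) x3)
  exact ((x1.smul (contDiff_mulw (hV 3) y1)).add
    ((x2.add contDiff_const).smul (contDiff_mulw (hV 4) y2))).add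
    ((contDiff_mulw (hV 5) y3).const_smul dS)

theorem contDiff_exD {f : PFD d} (hf : SmPFD f) (b B0 dS : ℝ) :
    ContDiff ℝ ∞ (fun q : EP d × En d => exD f b B0 dS (q.1.1 3) q.1 q.2) := by
  unfold exD
  have hE : ∀ i : Fin 6, ContDiff ℝ ∞ (fun q : EP d × En d => q.1.1 i) := fun i =>
    (dz20_eps (X := EP d × En d) (f := Prod.fst) contDiff_fst i 0).1
  have hV : ∀ j : Fin 7, ContDiff ℝ ∞ (fun q : EP d × En d => q.1.2 j) := fun j =>
    (dz20_eps (X := EP d × En d) (f := Prod.fst) contDiff_fst 0 j).2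
  exact (((hE 4).add ((hE 3).mul (contDiff_XiFD hf b B0))).prodMk (contDiff_etaFD hf b)).prodMk
    ((hV 2).add ((hE 3).smul (contDiff_OmFD hf b dS)))

theorem dz20_argF (b : ℝ) (z : En d) : argF b (0 : EP d) z = ((0, 0), 0) := by
  unfold argF
  have h0 : ∀ i : Fin 6, (0 : EP d).1 i = 0 := fun _ => rfl
  have h1 : ∀ i : Fin 7, (0 : EP d).2 i = 0 := fun _ => rfl
  simp only [h0, h1, zero_mul, mulw_zero_left]

/-- PROOF. argF b 0 z = ((0,0),0) = 0 and W 0 = 1. -/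
theorem etaFD_zero {f : PFD d} (hf : SmPFD f) (b : ℝ) (z : En d) : etaFD f b 0 z = z.1.2 := by
  unfold etaFD
  rw [dz20_argF, hf.W0]
  ring

theorem XiFD_zero (f : PFD d) (b B0 : ℝ) (z : En d) : XiFD f b B0 0 z = B0 * z.1.1 * f.Y1 (0, 0) := by
  unfold XiFD
  have h0 : ∀ i : Fin 6, (0 : EP d).1 i = 0 := fun _ => rfl
  have h1 : ∀ i : Fin 7, (0 : EP d).2 i = 0 := fun _ => rfl
  simp only [h0, h1, zero_mul, mulw_zero_left, map_zero, add_zero]

theorem OmFD_zero (f : PFD d) (b dS : ℝ) (z : En d) : OmFD f b dS 0 z = 0 := by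
  unfold OmFD
  have h1 : ∀ i : Fin 7, (0 : EP d).2 i = 0 := fun _ => rfl
  simp only [h1, mulw_zero_left, smul_zero, add_zero]

theorem exD_zero {f : PFD d} (hf : SmPFD f) (b B0 dS i3 : ℝ) (z : En d) (h : i3 = 0) :
    exD f b B0 dS i3 0 z = ((0, z.1.2), 0) := by
  unfold exD
  have h0 : ∀ i : Fin 6, (0 : EP d).1 i = 0 := fun _ => rfl
  have h1 : ∀ i : Fin 7, (0 : EP d).2 i = 0 := fun _ => rfl
  rw [etaFD_zero hf, h0, h1, h]
  simp only [zero_mul, add_zero, zero_smul]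

/-- The blocks of a flat arc are abstract blocks.

PROOF. Smoothness from `contDiff_exD`, `contDiff_XiFD`, `contDiff_OmFD`, `contDiff_etaFD` (components of the parameter: `dz20_eps`), `ContDiff.clm_apply` for Mw.  Values at 0: `exD_zero`, `XiFD_zero`,
`OmFD_zero`, `etaFD_zero`; argM at (0,z) is ((0,0),((0,U),0)) because `(0 : EP d).1 3 = 0`.  A ((0,0),0) = 0 and Aw ((0,0),0) = 0 are hA0, hAw0. -/
theorem blkD_of {f : PFD d} (hf : SmPFD f) {A : En d → ℝ} {Aw : En d → Wd d} {Mh : (ℝ × Wd d) × En d → ℝ}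
    {Mw : (ℝ × Wd d) × En d → (Wd d →L[ℝ] ℝ)} (smA : ContDiff ℝ ∞ A) (smAw : ContDiff ℝ ∞ Aw) (smM : ContDiff ℝ ∞ Mh)
    (smMw : ContDiff ℝ ∞ Mw) (hA0 : A ((0, 0), 0) = 0) (hAw0 : Aw ((0, 0), 0) = 0) (a b B0 dS : ℝ) (wT : Wd d) :
    BlkD (bXD f a b B0 dS A) (bUD f b B0 dS Mh Mw) (bWD f b B0 dS wT Aw) a (B0 * f.Y1 (0, 0)) wT
      (fun U => A ((0, U), 0)) (fun U => Mh ((0, 0), ((0, U), 0))) (fun U => Aw ((0, U), 0)) := by
  have hE : ∀ i : Fin 6, ContDiff ℝ ∞ (fun q : EP d × En d => q.1.1 i) := fun i =>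
    (dz20_eps (X := EP d × En d) (f := Prod.fst) contDiff_fst i 0).1
  have hV : ∀ j : Fin 7, ContDiff ℝ ∞ (fun q : EP d × En d => q.1.2 j) := fun j =>
    (dz20_eps (X := EP d × En d) (f := Prod.fst) contDiff_fst 0 j).2
  have hX := contDiff_XiFD hf b B0
  have hO := contDiff_OmFD hf b dS
  have hη := contDiff_etaFD hf b
  have hex := contDiff_exD hf b B0 dS
  have h0 : ∀ i : Fin 6, (0 : EP d).1 i = 0 := fun _ => rfl
  have h1 : ∀ i : Fin 7, (0 : EP d).2 i = 0 := fun _ => rfl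
  have hM : ContDiff ℝ ∞ (argM f b B0 dS) := by
    unfold argM
    exact ((hE 4).prodMk (hV 2)).prodMk ((((hE 3).mul hX).prodMk hη).prodMk ((hE 3).smul hO))
  have hM0 : ∀ z : En d, argM f b B0 dS (0, z) = ((0, 0), ((0, z.1.2), 0)) := by
    intro z
    show (((0 : EP d).1 4, (0 : EP d).2 2), (((0 : EP d).1 3 * XiFD f b B0 0 z, etaFD f b 0 z),
      (0 : EP d).1 3 • OmFD f b dS 0 z)) = _
    rw [etaFD_zero hf, h0, h0, h1]
    simp only [zero_mul, zero_smul]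
  have hx0 : ∀ z : En d, exD f b B0 dS ((0 : EP d).1 3) 0 z = ((0, z.1.2), 0) := fun z =>
    exD_zero hf b B0 dS _ z rfl
  have hl : ContDiff ℝ ∞ (fun U : ℝ => (((0, U), 0) : En d)) := by fun_prop
  refine ⟨?_, ?_, ?_, ?_, ?_, ?_, hA0, hAw0, ?_, ?_, ?_⟩
  · unfold bXD
    exact contDiff_const.add (smA.comp hex)
  · unfold bUD
    exact (hX.mul (smM.comp hM)).add ((smMw.comp hM).clm_apply hO)
  · unfold bWD
    exact contDiff_const.add (smAw.comp hex)
  · exact smA.comp hl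
  · exact smM.comp (contDiff_const.prodMk hl)
  · exact smAw.comp hl
  · intro z
    show a + A (exD f b B0 dS ((0 : EP d).1 3) 0 z) = _
    rw [hx0]
  · intro z
    show XiFD f b B0 0 z * Mh (argM f b B0 dS (0, z)) + Mw (argM f b B0 dS (0, z)) (OmFD f b dS 0 z) = _
    rw [hM0, XiFD_zero, OmFD_zero, map_zero]
    ring
  · intro z
    show wT + Aw (exD f b B0 dS ((0 : EP d).1 3) 0 z) = _
    rw [hx0]

end Pool.Agent.Lib.H37D
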