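import Pool.Agent.Lib.H37D.D0
import Pool.Agent.Lib.H37N.T2

/-! # H37D, chunk DZ21 (S): zoom, with the value at `ρ = 0` for all parameters -/

open Set Filter Topology Asymptotics
open scoped ContDiff

namespace Pool.Agent.Lib.H37D

open Pool.Agent.Lib.H37N

/-- PROOF. `hadamard1` (P = P' × E, t = ρ) for ((ε,ξ),ρ) ↦ F (ρ • ε, x0 + ρ • ξ): G smooth with F (ρ • ε, x0 + ρ • ξ) = F (0, x0) + ρ • G ((ε,ξ),ρ) and G ((ε,ξ),0) = deriv at ρ = 0 of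
F (ρ • ε, x0 + ρ • ξ) = fderiv F (0,x0) (ε,ξ) (chain rule along the line ρ ↦ (0,x0) + ρ • (ε,ξ)).  H ((ρ,ε),ξ) := G ((ε,ξ),ρ). -/
theorem zoomD {P' E W : Type} [NormedAddCommGroup P'] [NormedSpace ℝ P'] [FiniteDimensional ℝ P']
    [NormedAddCommGroup E] [NormedSpace ℝ E] [FiniteDimensional ℝ E] [NormedAddCommGroup W] [NormedSpace ℝ W]
    [CompleteSpace W] {F : P' × E → W} (hF : ContDiff ℝ ∞ F) (x0 : E) :
    ∃ H : (ℝ × P') × E → W, ContDiff ℝ ∞ H ∧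
      (∀ (ρ : ℝ) (ε : P') (ξ : E), F (ρ • ε, x0 + ρ • ξ) = F (0, x0) + ρ • H ((ρ, ε), ξ)) ∧
      ∀ (ε : P') (ξ : E), H ((0, ε), ξ) = fderiv ℝ F (0, x0) (ε, ξ) := by
  have h1 : ContDiff ℝ ∞ (fun r : (P' × E) × ℝ => F (r.2 • r.1.1, x0 + r.2 • r.1.2)) :=
    hF.comp (by fun_prop)
  obtain ⟨G, hG, h2, h3⟩ := hadamard1 h1
  refine ⟨fun q => G ((q.1.2, q.2), q.1.1), hG.comp (by fun_prop), fun ρ ε ξ => ?_, fun ε ξ => ?_⟩
  · have h4 := h2 (ε, ξ) ρ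
    simp only [zero_smul, add_zero] at h4
    exact h4
  · have h4 := h3 (ε, ξ)
    show G ((ε, ξ), 0) = _
    rw [h4]
    have h5 : HasDerivAt (fun t : ℝ => ((t • ε, x0 + t • ξ) : P' × E)) (ε, ξ) 0 := by
      have e1 : HasDerivAt (fun t : ℝ => t • ε) ((1 : ℝ) • ε) 0 := (hasDerivAt_id (0 : ℝ)).smul_const ε
      have e2 : HasDerivAt (fun t : ℝ => x0 + t • ξ) ((1 : ℝ) • ξ) 0 :=
        ((hasDerivAt_id (0 : ℝ)).smul_const ξ).const_add x0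
      rw [one_smul] at e1 e2
      exact e1.prodMk e2
    have h6 : HasFDerivAt F (fderiv ℝ F (0, x0)) ((fun t : ℝ => ((t • ε, x0 + t • ξ) : P' × E)) 0) := by
      simp only [zero_smul, add_zero]
      exact (hF.differentiable (by simp) _).hasFDerivAt
    exact (h6.comp_hasDerivAt 0 h5).deriv

end Pool.Agent.Lib.H37D
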