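import Pool.Agent.Lib.H37D.DZ20
import Pool.Agent.Lib.H37D.DZ21
import Pool.Agent.Lib.H37P.Z22

/-! # H37D, chunk DZ22 (M/L): the zoomed blocks (port of H37P/Z22.lean, simpler: the Jacobian function is explicit) -/

open Set Filter Topology Asymptotics
open scoped ContDiff

namespace Pool.Agent.Lib.H37D

open Pool.Agent.Lib.H37N

variable {d : ℕ}

/-- The function J: `exp (ρ J)` is the Jacobian.

PROOF. φ U = - (deriv h U * Ga U) is smooth, c1 * φ 0 = - c1 * hs * Ga 0 = 1 > 0, so U ↦ log (c1 * φ U) is smooth near 0; let ℓ be a global smooth function equal to it near 0 (`localise_at`).  ℓ 0 = log 1 = 0,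
deriv ℓ 0 = s0 (log (c1 φ U) = log c1 + log (φ U) near 0; c1 ≠ 0, φ 0 ≠ 0 have the same sign; in Lean: (log ∘ (c1 φ))' = φ'/φ at 0 = (log ∘ φ)').  `hadamard1` (parameter space ℝ, trivial dependence): ℓ U = U * m U,
m smooth, m 0 = s0.  J j ((ρ,q),(x,u)) := (dj e (j+1) + u) * m (ρ * (dj e (j+1) + u)).  For r near 0 the number ρ (dj e (j+1) + u) is near 0. -/
theorem exists_JD (e : ℕ) {c1 hs s0 : ℝ} {h Ga : ℝ → ℝ} (smh : ContDiff ℝ ∞ h) (smG : ContDiff ℝ ∞ Ga)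
    (hhs : hs = deriv h 0) (h1 : c1 * hs * Ga 0 = -1)
    (hs0 : s0 = deriv (fun U => Real.log (-(deriv h U * Ga U))) 0) :
    ∃ J : ℕ → (ℝ × QQ (e + 3) e) × ℝ × ℝ → ℝ, (∀ j, ContDiff ℝ ∞ (J j)) ∧
      (∀ j (q : QQ (e + 3) e) (v : ℝ × ℝ), J j ((0, q), v) = s0 * (v.2 + dj e (j + 1))) ∧
      ∀ j, ∀ᶠ r : (ℝ × QQ (e + 3) e) × ℝ × ℝ in 𝓝 0,
        c1 * -(deriv h (r.1.1 * (dj e (j + 1) + r.2.2)) * Ga (r.1.1 * (dj e (j + 1) + r.2.2))) =
          Real.exp (r.1.1 * J j r) := by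
  obtain ⟨φ, hφd⟩ : ∃ φ : ℝ → ℝ, φ = fun U => -(deriv h U * Ga U) := ⟨_, rfl⟩
  have smφ : ContDiff ℝ ∞ φ := by
    rw [hφd]
    have h2 : ContDiff ℝ ∞ (deriv h) := (contDiff_infty_iff_deriv.1 smh).2
    exact (h2.mul smG).neg
  have hφ0 : c1 * φ 0 = 1 := by
    rw [hφd]
    simp only
    rw [← hhs]
    linarith
  have hc1 : c1 ≠ 0 := by
    intro h
    rw [h] at hφ0
    norm_num at hφ0
  have hφ0' : φ 0 ≠ 0 := by
    intro h
    rw [h] at hφ0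
    norm_num at hφ0
  have hpos : ∀ᶠ U : ℝ in 𝓝 0, 0 < c1 * φ U := by
    have h2 : Continuous fun U => c1 * φ U := continuous_const.mul smφ.continuous
    refine h2.continuousAt.eventually (lt_mem_nhds ?_)
    show 0 < c1 * φ 0
    rw [hφ0]
    norm_num
  obtain ⟨ℓ, sℓ, eℓ⟩ := localise_at (x₀ := (0 : ℝ)) (f := fun U => Real.log (c1 * φ U)) (by
    filter_upwards [hpos] with U hU
    exact (contDiff_const.mul smφ).contDiffAt.log hU.ne')
  have hℓ0 : ℓ 0 = 0 := by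
    rw [eℓ.self_of_nhds]
    simp only [hφ0, Real.log_one]
  have hdφ : HasDerivAt φ (deriv φ 0) 0 := (smφ.differentiable (by simp) 0).hasDerivAt
  have hℓd : deriv ℓ 0 = s0 := by
    rw [eℓ.deriv_eq]
    have d1 : HasDerivAt (fun U => Real.log (φ U)) (deriv φ 0 / φ 0) 0 := hdφ.log hφ0'
    have d2 : HasDerivAt (fun U => Real.log (c1 * φ U)) (c1 * deriv φ 0 / (c1 * φ 0)) 0 :=
      (hdφ.const_mul c1).log (mul_ne_zero hc1 hφ0')
    rw [d2.deriv, mul_div_mul_left _ _ hc1, hs0]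
    have d3 : (fun U => Real.log (-(deriv h U * Ga U))) = fun U => Real.log (φ U) := by
      rw [hφd]
    rw [d3, d1.deriv]
  obtain ⟨G, sG, hG1, hG2⟩ := hadamard1 (P := ℝ) (W := ℝ) (F := fun q : ℝ × ℝ => ℓ q.2)
    (sℓ.comp contDiff_snd)
  have hm : ∀ t, ℓ t = t * G (0, t) := by
    intro t
    have := hG1 0 t
    simp only [hℓ0, zero_add, smul_eq_mul] at this
    exact this
  have hm0 : G (0, 0) = s0 := by
    rw [hG2 0]
    exact hℓd
  refine ⟨fun j r => (dj e (j + 1) + r.2.2) * G (0, r.1.1 * (dj e (j + 1) + r.2.2)), ?_, ?_, ?_⟩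
  · intro j
    have e1 : ContDiff ℝ ∞ (fun r : (ℝ × QQ (e + 3) e) × ℝ × ℝ => dj e (j + 1) + r.2.2) := by
      fun_prop
    have e2 : ContDiff ℝ ∞ (fun r : (ℝ × QQ (e + 3) e) × ℝ × ℝ => r.1.1) := by fun_prop
    exact e1.mul (sG.comp (contDiff_const.prodMk (e2.mul e1)))
  · intro j q v
    simp only [zero_mul, hm0]
    ring
  · intro j
    have t1 : Tendsto (fun r : (ℝ × QQ (e + 3) e) × ℝ × ℝ => r.1.1 * (dj e (j + 1) + r.2.2))
        (𝓝 0) (𝓝 0) := by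
      have c1' : Continuous (fun r : (ℝ × QQ (e + 3) e) × ℝ × ℝ => r.1.1 * (dj e (j + 1) + r.2.2)) := by
        fun_prop
      have := c1'.tendsto 0
      simpa using this
    filter_upwards [t1.eventually eℓ, t1.eventually hpos] with r h2 h3
    have e3 : r.1.1 * ((dj e (j + 1) + r.2.2) * G (0, r.1.1 * (dj e (j + 1) + r.2.2))) =
        ℓ (r.1.1 * (dj e (j + 1) + r.2.2)) := by
      rw [hm]
      ring
    rw [e3, h2, Real.exp_log h3, hφd]

/-- the partial derivative in the second variable -/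
theorem dz22_part {P' E W : Type} [NormedAddCommGroup P'] [NormedSpace ℝ P'] [NormedAddCommGroup E]
    [NormedSpace ℝ E] [NormedAddCommGroup W] [NormedSpace ℝ W] {F : P' × E → W}
    (hF : ContDiff ℝ ∞ F) (p : P') (x w : E) :
    fderiv ℝ F (p, x) (0, w) = fderiv ℝ (fun x => F (p, x)) x w := by
  have h1 := (hF.differentiable (by simp) (p, x)).hasFDerivAt
  have h2 := h1.comp x (hasFDerivAt_prodMk_right p x)
  have h3 : (fun x => F (p, x)) = F ∘ fun x => (p, x) := rfl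
  rw [h3, h2.fderiv]
  simp

theorem dz22_split {P' E W : Type} [NormedAddCommGroup P'] [NormedSpace ℝ P'] [NormedAddCommGroup E]
    [NormedSpace ℝ E] [NormedAddCommGroup W] [NormedSpace ℝ W] (L : P' × E →L[ℝ] W) (ε : P') (w : E) :
    L (ε, w) = L (ε, 0) + L (0, w) := by
  rw [← map_add]
  simp

/-- Jacobian of a shear of a triangular map -/
theorem dz22_jac {f1 f2 : Pt → ℝ} {φ : ℝ → ℝ} {x : Pt} {p q r : ℝ}
    (h1 : HasFDerivAt f1 (p • ContinuousLinearMap.snd ℝ ℝ ℝ) x)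
    (h2 : HasFDerivAt f2 (q • ContinuousLinearMap.fst ℝ ℝ ℝ + r • ContinuousLinearMap.snd ℝ ℝ ℝ) x)
    (h3 : Differentiable ℝ φ) :
    jac (fun v => (f1 v, f2 v + φ (f1 v))) x = -(p * q) := by
  rw [z22_shear h1.differentiableAt h2.differentiableAt (h3 _), h1.fderiv, h2.fderiv]
  simp
  ring

/-- The zoomed blocks.

PROOF. PROOFN.md, S, and H37P/Z22.lean.  x0 = ((a,0),wT).  `zoomD` for bX, bU, bW at x0: HX, HU, HW.  With ξ = ((hs * (dj e j + x), dj e (j+1) + u), dj e j • c + ϖ) for z = ((x,u),ϖ), κ = ((ρ,ε),ξ):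
x' = HX κ / hs - dj e (j+1),  u' = HU κ + qt e τ q j x' - dj e (j+2),  ϖ' = HW κ - dj e (j+1) • c,  G j (((ρ,ε),q),z) = ((x',u'),ϖ').
Smooth: `contDiff`, qt is a polynomial (see `z22_qt` in H37P/Z22.lean).
Conjugacy (last item): stpD at zmD j z with the parameter ρ • ε: zmD e a hs ρ wT c j z = x0 + ρ • ξ; bX = a + ρ HX κ (bX (0,x0) = a + h 0 = a), bU = c0 + ρ HU κ (bU (0,x0) = c1 a Ga 0 = c0), bW = wT + ρ HW κ;
Qj e a hs c0 τ ρ q j X = -c0 + ρ qt e τ q j ((X - a)/(ρ hs) - dj e (j+1)) and (bX - a)/(ρ hs) - dj e (j+1) = x'.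
Derivatives at (0,x0) in the direction (ε,ξ): D bX (ε,ξ) = D bX (ε,0) + hs ξ.1.2 (zX, h' 0 = hs), D bU (ε,ξ) = D bU (ε,0) + c1 Ga 0 ξ.1.1 + τ ξ.1.2 (zU, τ = c1 a Ga' 0), D bW (ε,ξ) = D bW (ε,0) + ξ.1.2 • c (zW).
hG0: ε = 0, ρ = 0: x' = u, u' = -(dj j + x) + τ (dj (j+1) + u) + qt(u) - dj (j+2) = -x + ttc u + qpoly q j u (c1 Ga 0 hs = -1), ϖ' = u • c.
hGρ: at ρ = 0 x' = u + α, u' = -x + τ u + const + qt (u + α) with α = D bX (ε,0)/hs: independent of ϖ, Jacobian det ((0,1),(-1,*)) = 1 (for all r, not only near 0).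
hGε: at ε = 0: for ρ ≠ 0: a + ρ HX = a + h (ρ ξ.1.2), c0 + ρ HU = c1 (a + ρ ξ.1.1) Ga (ρ ξ.1.2) do not depend on ϖ; for ρ = 0 by the formula before.  Jacobian for ρ ≠ 0: x' = h(ρ (dj (j+1) + u))/(ρ hs) - dj (j+1),
u' = (c1 (a + ρ hs (dj j + x)) Ga (ρ (dj (j+1)+u)) - c0)/ρ + qt(x') - dj (j+2): ∂x'/∂x = 0, ∂x'/∂u = h'(..)/hs, ∂u'/∂x = c1 hs Ga(..), so jac = - c1 h' Ga (`jac` is in H37N/BDefs; the shear term does not matter),
= exp (ρ J) by `exists_JD`. -/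
theorem zoomed_blocksD (e : ℕ) {P' : Type} [NormedAddCommGroup P'] [NormedSpace ℝ P'] [FiniteDimensional ℝ P']
    {bX bU : P' × En d → ℝ} {bW : P' × En d → Wd d} {a c1 : ℝ} {wT : Wd d} {h Ga : ℝ → ℝ} {k : ℝ → Wd d}
    (hB : BlkD bX bU bW a c1 wT h Ga k) {hs c0 τ s0 : ℝ} {c : Wd d} (hhs : hs = deriv h 0)
    (h1 : c1 * hs * Ga 0 = -1) (hc0 : c0 = c1 * a * Ga 0) (hτ : τ = c1 * a * deriv Ga 0)
    (hs0 : s0 = deriv (fun U => Real.log (-(deriv h U * Ga U))) 0) (hc : c = deriv k 0) :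
    ∃ (G : ℕ → ((ℝ × P') × QQ (e + 3) e) × (ℝ × ℝ) × Wd d → (ℝ × ℝ) × Wd d)
      (J : ℕ → (ℝ × QQ (e + 3) e) × ℝ × ℝ → ℝ),
      (∀ j, ContDiff ℝ ∞ (G j)) ∧ (∀ j, ContDiff ℝ ∞ (J j)) ∧
      (∀ j, ∀ r : QQ (e + 3) e × (ℝ × ℝ) × Wd d, G j ((0, r.1), r.2) =
        ((r.2.1.2, -r.2.1.1 + 2 * Real.cos (sth (e + 3)) * r.2.1.2 +
          ∑ i ∈ Finset.range (e + 1), qx r.1 j i * r.2.1.2 ^ i), r.2.1.2 • c)) ∧
      (∀ j, ∀ r : (P' × QQ (e + 3) e) × (ℝ × ℝ) × Wd d,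
        (G j (((0, r.1.1), r.1.2), r.2)).1 = (G j (((0, r.1.1), r.1.2), (r.2.1, 0))).1 ∧
        jac (fun v => (G j (((0, r.1.1), r.1.2), (v, 0))).1) r.2.1 = 1) ∧
      (∀ j, ∀ᶠ r : (ℝ × QQ (e + 3) e) × (ℝ × ℝ) × Wd d in 𝓝 0,
        (G j (((r.1.1, 0), r.1.2), r.2)).1 = (G j (((r.1.1, 0), r.1.2), (r.2.1, 0))).1 ∧
        (r.1.1 ≠ 0 → jac (fun v => (G j (((r.1.1, 0), r.1.2), (v, 0))).1) r.2.1 =
          Real.exp (r.1.1 * J j (r.1, r.2.1)))) ∧
      (∀ j, ∀ r : QQ (e + 3) e × ℝ × ℝ, J j ((0, r.1), r.2) = s0 * (r.2.2 + dj e (j + 1))) ∧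
      ∀ (ρ : ℝ) (ε : P') (q : QQ (e + 3) e) (z : En d) (j : ℕ), ρ ≠ 0 →
        stpD bX bU bW (Qj e a hs c0 τ ρ q) (ρ • ε) j (zmD e a hs ρ wT c j z) =
          zmD e a hs ρ wT c (j + 1) (G j (((ρ, ε), q), z)) := by
  obtain ⟨J, sJ, hJ0, hJe⟩ := exists_JD e (c1 := c1) (hs := hs) (s0 := s0) hB.smh hB.smG hhs h1 hs0
  have hhs0 : hs ≠ 0 := by
    intro h
    rw [h] at h1
    norm_num at h1
  obtain ⟨x0, hx0⟩ : ∃ x0 : En d, x0 = ((a, 0), wT) := ⟨_, rfl⟩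
  obtain ⟨HX, sHX, eHX, zHX⟩ := zoomD hB.smX x0
  obtain ⟨HU, sHU, eHU, zHU⟩ := zoomD hB.smU x0
  obtain ⟨HW, sHW, eHW, zHW⟩ := zoomD hB.smW x0
  have hX0 : bX (0, x0) = a := by
    rw [hB.zX, hx0]
    simp [hB.h0]
  have hU0 : bU (0, x0) = c0 := by
    rw [hB.zU, hx0, hc0]
  have hW0 : bW (0, x0) = wT := by
    rw [hB.zW, hx0]
    simp [hB.k0]
  have dX : ∀ ξ : En d, fderiv ℝ bX (0, x0) (0, ξ) = hs * ξ.1.2 := by
    intro ξ
    rw [dz22_part hB.smX]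
    have e1 : (fun z : En d => bX (0, z)) = fun z => a + h z.1.2 := funext fun z => hB.zX z
    have e3 : HasDerivAt h hs x0.1.2 := by
      rw [hx0, hhs]
      exact (hB.smh.differentiable (by simp) _).hasDerivAt
    have e4 : HasFDerivAt (fun z : En d => z.1.2)
        ((ContinuousLinearMap.snd ℝ ℝ ℝ).comp (ContinuousLinearMap.fst ℝ Pt (Wd d))) x0 :=
      ((ContinuousLinearMap.snd ℝ ℝ ℝ).comp (ContinuousLinearMap.fst ℝ Pt (Wd d))).hasFDerivAt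
    have e2 := (e3.comp_hasFDerivAt x0 e4).const_add a
    have e5 : (fun z : En d => a + h z.1.2) = fun z => a + (h ∘ fun z : En d => z.1.2) z := rfl
    rw [e1, e5, e2.fderiv]
    simp
  have dU : ∀ ξ : En d, fderiv ℝ bU (0, x0) (0, ξ) = c1 * Ga 0 * ξ.1.1 + τ * ξ.1.2 := by
    intro ξ
    rw [dz22_part hB.smU]
    have e1 : (fun z : En d => bU (0, z)) = fun z => c1 * z.1.1 * Ga z.1.2 := funext fun z => hB.zU z
    have e3 : HasDerivAt Ga (deriv Ga 0) x0.1.2 := by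
      rw [hx0]
      exact (hB.smG.differentiable (by simp) _).hasDerivAt
    have e4 : HasFDerivAt (fun z : En d => z.1.2)
        ((ContinuousLinearMap.snd ℝ ℝ ℝ).comp (ContinuousLinearMap.fst ℝ Pt (Wd d))) x0 :=
      ((ContinuousLinearMap.snd ℝ ℝ ℝ).comp (ContinuousLinearMap.fst ℝ Pt (Wd d))).hasFDerivAt
    have e5 : HasFDerivAt (fun z : En d => c1 * z.1.1)
        (c1 • (ContinuousLinearMap.fst ℝ ℝ ℝ).comp (ContinuousLinearMap.fst ℝ Pt (Wd d))) x0 :=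
      (((ContinuousLinearMap.fst ℝ ℝ ℝ).comp (ContinuousLinearMap.fst ℝ Pt (Wd d))).hasFDerivAt).const_mul c1
    have e6 : HasFDerivAt (fun z : En d => c1 * z.1.1 * Ga z.1.2) _ x0 :=
      e5.mul' (e3.comp_hasFDerivAt x0 e4)
    rw [e1, e6.fderiv, hτ]
    simp [hx0]
    ring
  have dW : ∀ ξ : En d, fderiv ℝ bW (0, x0) (0, ξ) = ξ.1.2 • c := by
    intro ξ
    rw [dz22_part hB.smW]
    have e1 : (fun z : En d => bW (0, z)) = fun z => wT + k z.1.2 := funext fun z => hB.zW z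
    have e3 : HasDerivAt k c x0.1.2 := by
      rw [hx0, hc]
      exact (hB.smk.differentiable (by simp) _).hasDerivAt
    have e4 : HasFDerivAt (fun z : En d => z.1.2)
        ((ContinuousLinearMap.snd ℝ ℝ ℝ).comp (ContinuousLinearMap.fst ℝ Pt (Wd d))) x0 :=
      ((ContinuousLinearMap.snd ℝ ℝ ℝ).comp (ContinuousLinearMap.fst ℝ Pt (Wd d))).hasFDerivAt
    have e6 := (e3.hasFDerivAt.comp x0 e4).const_add wT
    have e5 : (fun z : En d => wT + k z.1.2) = fun z => wT + (k ∘ fun z : En d => z.1.2) z := rfl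
    rw [e1, e5, e6.fderiv]
    simp
  have vX : ∀ (ε : P') (ξ : En d), HX ((0, ε), ξ) = fderiv ℝ bX (0, x0) (ε, 0) + hs * ξ.1.2 := by
    intro ε ξ
    rw [zHX, dz22_split, dX]
  have vU : ∀ (ε : P') (ξ : En d), HU ((0, ε), ξ) =
      fderiv ℝ bU (0, x0) (ε, 0) + (c1 * Ga 0 * ξ.1.1 + τ * ξ.1.2) := by
    intro ε ξ
    rw [zHU, dz22_split, dU]
  have vW : ∀ (ε : P') (ξ : En d), HW ((0, ε), ξ) = fderiv ℝ bW (0, x0) (ε, 0) + ξ.1.2 • c := by
    intro ε ξ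
    rw [zHW, dz22_split, dW]
  have z00 : ((0 : P'), (0 : En d)) = 0 := rfl
  obtain ⟨xi, hxi⟩ : ∃ xi : ℕ → En d → En d, ∀ j z, xi j z =
      ((hs * (dj e j + z.1.1), dj e (j + 1) + z.1.2), dj e j • c + z.2) := ⟨_, fun _ _ => rfl⟩
  have sxi : ∀ j, ContDiff ℝ ∞ (xi j) := by
    intro j
    have e1 : xi j = fun z => ((hs * (dj e j + z.1.1), dj e (j + 1) + z.1.2), dj e j • c + z.2) :=
      funext fun z => hxi j z
    rw [e1]
    fun_prop
  obtain ⟨B1, hB1⟩ : ∃ B1 : ℕ → ((ℝ × P') × QQ (e + 3) e) × (ℝ × ℝ) × Wd d → ℝ, ∀ j r, B1 j r =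
      hs⁻¹ * HX (r.1.1, xi j r.2) - dj e (j + 1) := ⟨_, fun _ _ => rfl⟩
  obtain ⟨B2, hB2⟩ : ∃ B2 : ℕ → ((ℝ × P') × QQ (e + 3) e) × (ℝ × ℝ) × Wd d → ℝ, ∀ j r, B2 j r =
      HU (r.1.1, xi j r.2) + qt e τ r.1.2 j (B1 j r) - dj e (j + 2) := ⟨_, fun _ _ => rfl⟩
  obtain ⟨B3, hB3⟩ : ∃ B3 : ℕ → ((ℝ × P') × QQ (e + 3) e) × (ℝ × ℝ) × Wd d → Wd d, ∀ j r, B3 j r =
      HW (r.1.1, xi j r.2) - dj e (j + 1) • c := ⟨_, fun _ _ => rfl⟩
  have szz : ∀ j, ContDiff ℝ ∞ (fun r : ((ℝ × P') × QQ (e + 3) e) × (ℝ × ℝ) × Wd d =>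
      (r.1.1, xi j r.2)) := fun j =>
    (contDiff_fst.comp contDiff_fst).prodMk ((sxi j).comp contDiff_snd)
  have sB1 : ∀ j, ContDiff ℝ ∞ (B1 j) := by
    intro j
    rw [funext fun r => hB1 j r]
    exact (contDiff_const.mul (sHX.comp (szz j))).sub contDiff_const
  have sB2 : ∀ j, ContDiff ℝ ∞ (B2 j) := by
    intro j
    rw [funext fun r => hB2 j r]
    exact ((sHU.comp (szz j)).add
      (z22_qt e τ j (contDiff_snd.comp contDiff_fst) (sB1 j))).sub contDiff_const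
  have sB3 : ∀ j, ContDiff ℝ ∞ (B3 j) := by
    intro j
    rw [funext fun r => hB3 j r]
    exact (sHW.comp (szz j)).sub contDiff_const
  -- values at rho = 0
  have b1v : ∀ j (ε : P') (q : QQ (e + 3) e) (z : (ℝ × ℝ) × Wd d), B1 j (((0, ε), q), z) =
      z.1.2 + hs⁻¹ * fderiv ℝ bX (0, x0) (ε, 0) := by
    intro j ε q z
    rw [hB1]
    simp only
    rw [vX, hxi]
    simp only
    field_simp
    ring
  have b2v : ∀ j (ε : P') (q : QQ (e + 3) e) (z : (ℝ × ℝ) × Wd d), B2 j (((0, ε), q), z) =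
      (-z.1.1 + τ * z.1.2 + (fderiv ℝ bU (0, x0) (ε, 0) - dj e j + τ * dj e (j + 1) - dj e (j + 2))) +
        qt e τ q j (B1 j (((0, ε), q), z)) := by
    intro j ε q z
    rw [hB2]
    simp only
    rw [vU, hxi]
    simp only
    have e7 : c1 * Ga 0 * (hs * (dj e j + z.1.1)) = -(dj e j + z.1.1) := by
      calc c1 * Ga 0 * (hs * (dj e j + z.1.1)) = (c1 * hs * Ga 0) * (dj e j + z.1.1) := by ring
        _ = _ := by rw [h1]; ring
    rw [e7]
    ring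
  -- values at eps = 0, rho not 0
  have hxs : ∀ (ρ : ℝ) (j : ℕ) (z : En d), x0 + ρ • xi j z =
      ((a + ρ * (hs * (dj e j + z.1.1)), ρ * (dj e (j + 1) + z.1.2)), wT + ρ • (dj e j • c + z.2)) := by
    intro ρ j z
    rw [hx0, hxi]
    ext <;> simp
  have b1w : ∀ j (ρ : ℝ) (q : QQ (e + 3) e) (z : (ℝ × ℝ) × Wd d), ρ ≠ 0 →
      B1 j (((ρ, 0), q), z) = hs⁻¹ * (ρ⁻¹ * h (ρ * (dj e (j + 1) + z.1.2))) - dj e (j + 1) := by
    intro j ρ q z hρ
    have e1 := eHX ρ 0 (xi j z)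
    rw [smul_zero, hX0, hB.zX, hxs, smul_eq_mul] at e1
    simp only at e1
    have e2 : HX ((ρ, 0), xi j z) = ρ⁻¹ * h (ρ * (dj e (j + 1) + z.1.2)) := by
      have e3 : ρ * HX ((ρ, 0), xi j z) = h (ρ * (dj e (j + 1) + z.1.2)) := by linarith
      rw [← e3]
      field_simp
    rw [hB1]
    simp only
    rw [e2]
  have b2w : ∀ j (ρ : ℝ) (q : QQ (e + 3) e) (z : (ℝ × ℝ) × Wd d), ρ ≠ 0 →
      B2 j (((ρ, 0), q), z) = (ρ⁻¹ * (c1 * (a + ρ * (hs * (dj e j + z.1.1))) *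
        Ga (ρ * (dj e (j + 1) + z.1.2)) - c0) - dj e (j + 2)) + qt e τ q j (B1 j (((ρ, 0), q), z)) := by
    intro j ρ q z hρ
    have e1 := eHU ρ 0 (xi j z)
    rw [smul_zero, hU0, hB.zU, hxs, smul_eq_mul] at e1
    simp only at e1
    have e2 : HU ((ρ, 0), xi j z) = ρ⁻¹ * (c1 * (a + ρ * (hs * (dj e j + z.1.1))) *
        Ga (ρ * (dj e (j + 1) + z.1.2)) - c0) := by
      rw [e1]
      field_simp
      ring
    rw [hB2]
    simp only
    rw [e2]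
    ring
  have sqt : ∀ (q : QQ (e + 3) e) j, Differentiable ℝ (fun w => qt e τ q j w) := fun q j =>
    (z22_qt e τ j contDiff_const contDiff_id).differentiable (by simp)
  refine ⟨fun j r => ((B1 j r, B2 j r), B3 j r), J, fun j => ((sB1 j).prodMk (sB2 j)).prodMk (sB3 j),
    sJ, ?_, ?_, ?_, ?_, ?_⟩
  · intro j r
    obtain ⟨q, z⟩ := r
    have v1 : B1 j ((0, q), z) = z.1.2 := by
      have := b1v j 0 q z
      rw [z00, map_zero, mul_zero, add_zero] at this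
      exact this
    have v2 : B2 j ((0, q), z) = -z.1.1 + 2 * Real.cos (sth (e + 3)) * z.1.2 +
        ∑ i ∈ Finset.range (e + 1), qx q j i * z.1.2 ^ i := by
      have := b2v j 0 q z
      rw [z00, map_zero] at this
      have h2 : B1 j (((0, 0), q), z) = z.1.2 := v1
      rw [h2] at this
      have h3 : B2 j ((0, q), z) = B2 j (((0, 0), q), z) := rfl
      rw [h3, this]
      unfold qt qpoly ttc
      ring
    have v3 : B3 j ((0, q), z) = z.1.2 • c := by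
      rw [hB3]
      show HW ((0, 0), xi j z) - dj e (j + 1) • c = _
      rw [vW, hxi, z00, map_zero, zero_add]
      simp only
      rw [add_smul]
      abel
    exact Prod.ext (Prod.ext v1 v2) v3
  · intro j r
    obtain ⟨⟨ε, q⟩, ⟨v, w⟩⟩ := r
    refine ⟨?_, ?_⟩
    · show (B1 j (((0, ε), q), (v, w)), B2 j (((0, ε), q), (v, w))) =
        (B1 j (((0, ε), q), (v, 0)), B2 j (((0, ε), q), (v, 0)))
      rw [b2v, b2v, b1v, b1v]
    · show jac (fun v : ℝ × ℝ => (B1 j (((0, ε), q), (v, 0)), B2 j (((0, ε), q), (v, 0)))) v = 1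
      have e1 : (fun v : ℝ × ℝ => (B1 j (((0, ε), q), (v, 0)), B2 j (((0, ε), q), (v, 0)))) =
          fun v : ℝ × ℝ => ((fun v : ℝ × ℝ => v.2 + hs⁻¹ * fderiv ℝ bX (0, x0) (ε, 0)) v,
            (fun v : ℝ × ℝ => -v.1 + τ * v.2 + (fderiv ℝ bU (0, x0) (ε, 0) - dj e j +
              τ * dj e (j + 1) - dj e (j + 2))) v +
            (fun w => qt e τ q j w) ((fun v : ℝ × ℝ => v.2 + hs⁻¹ * fderiv ℝ bX (0, x0) (ε, 0)) v)) := by
        funext v
        rw [b2v, b1v]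
      rw [e1]
      have f1 : HasFDerivAt (fun v : ℝ × ℝ => v.2 + hs⁻¹ * fderiv ℝ bX (0, x0) (ε, 0))
          ((1 : ℝ) • ContinuousLinearMap.snd ℝ ℝ ℝ) v := by
        rw [one_smul]
        exact hasFDerivAt_snd.add_const _
      have f2 : HasFDerivAt (fun v : ℝ × ℝ => -v.1 + τ * v.2 + (fderiv ℝ bU (0, x0) (ε, 0) - dj e j +
              τ * dj e (j + 1) - dj e (j + 2)))
          ((-1 : ℝ) • ContinuousLinearMap.fst ℝ ℝ ℝ + τ • ContinuousLinearMap.snd ℝ ℝ ℝ) v := by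
        have g1 : HasFDerivAt (fun v : ℝ × ℝ => -v.1) ((-1 : ℝ) • ContinuousLinearMap.fst ℝ ℝ ℝ) v := by
          have := (hasFDerivAt_fst (𝕜 := ℝ) (p := v)).neg
          refine this.congr_fderiv ?_
          ext <;> simp
        exact (g1.add (hasFDerivAt_snd.const_mul τ)).add_const _
      rw [dz22_jac f1 f2 (sqt q j)]
      norm_num
  · intro j
    have t1 : Tendsto (fun r : (ℝ × QQ (e + 3) e) × (ℝ × ℝ) × Wd d => (r.1, r.2.1)) (𝓝 0) (𝓝 0) := by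
      have c1' : Continuous (fun r : (ℝ × QQ (e + 3) e) × (ℝ × ℝ) × Wd d => (r.1, r.2.1)) := by
        fun_prop
      exact c1'.tendsto 0
    filter_upwards [t1.eventually (hJe j)] with r hr
    obtain ⟨⟨ρ, q⟩, ⟨v, w⟩⟩ := r
    refine ⟨?_, fun hρ => ?_⟩
    · show (B1 j (((ρ, 0), q), (v, w)), B2 j (((ρ, 0), q), (v, w))) =
        (B1 j (((ρ, 0), q), (v, 0)), B2 j (((ρ, 0), q), (v, 0)))
      by_cases hρ : ρ = 0
      · subst hρ
        rw [b2v, b2v, b1v, b1v]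
      · rw [b2w _ _ _ _ hρ, b2w _ _ _ _ hρ, b1w _ _ _ _ hρ, b1w _ _ _ _ hρ]
    · have hρ' : ρ ≠ 0 := hρ
      show jac (fun v : ℝ × ℝ => (B1 j (((ρ, 0), q), (v, 0)), B2 j (((ρ, 0), q), (v, 0)))) v =
        Real.exp (ρ * J j ((ρ, q), v))
      have hr' : c1 * -(deriv h (ρ * (dj e (j + 1) + v.2)) * Ga (ρ * (dj e (j + 1) + v.2))) =
        Real.exp (ρ * J j ((ρ, q), v)) := hr
      rw [← hr']
      have e1 : (fun v : ℝ × ℝ => (B1 j (((ρ, 0), q), (v, 0)), B2 j (((ρ, 0), q), (v, 0)))) =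
          fun v : ℝ × ℝ => ((fun v : ℝ × ℝ => hs⁻¹ * (ρ⁻¹ * h (ρ * (dj e (j + 1) + v.2))) -
              dj e (j + 1)) v,
            (fun v : ℝ × ℝ => ρ⁻¹ * (c1 * (a + ρ * (hs * (dj e j + v.1))) *
              Ga (ρ * (dj e (j + 1) + v.2)) - c0) - dj e (j + 2)) v +
            (fun w => qt e τ q j w) ((fun v : ℝ × ℝ => hs⁻¹ * (ρ⁻¹ * h (ρ * (dj e (j + 1) + v.2))) -
              dj e (j + 1)) v)) := by
        funext v
        rw [b2w _ _ _ _ hρ', b1w _ _ _ _ hρ']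
      rw [e1]
      have g0 : HasFDerivAt (fun v : ℝ × ℝ => ρ * (dj e (j + 1) + v.2))
          (ρ • ContinuousLinearMap.snd ℝ ℝ ℝ) v := (hasFDerivAt_snd.const_add _).const_mul ρ
      have gh : HasDerivAt h (deriv h (ρ * (dj e (j + 1) + v.2))) (ρ * (dj e (j + 1) + v.2)) :=
        (hB.smh.differentiable (by simp) _).hasDerivAt
      have gG : HasDerivAt Ga (deriv Ga (ρ * (dj e (j + 1) + v.2))) (ρ * (dj e (j + 1) + v.2)) :=
        (hB.smG.differentiable (by simp) _).hasDerivAt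
      have f1 : HasFDerivAt (fun v : ℝ × ℝ => hs⁻¹ * (ρ⁻¹ * h (ρ * (dj e (j + 1) + v.2))) -
              dj e (j + 1)) ((hs⁻¹ * deriv h (ρ * (dj e (j + 1) + v.2))) •
                ContinuousLinearMap.snd ℝ ℝ ℝ) v := by
        have g1 := (((gh.comp_hasFDerivAt v g0).const_mul ρ⁻¹).const_mul hs⁻¹).sub_const (dj e (j + 1))
        have g2 : hs⁻¹ • ρ⁻¹ • deriv h (ρ * (dj e (j + 1) + v.2)) • ρ • ContinuousLinearMap.snd ℝ ℝ ℝ =
            (hs⁻¹ * deriv h (ρ * (dj e (j + 1) + v.2))) • ContinuousLinearMap.snd ℝ ℝ ℝ := by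
          rw [smul_smul, smul_smul, smul_smul]
          have g3 : hs⁻¹ * ρ⁻¹ * deriv h (ρ * (dj e (j + 1) + v.2)) * ρ =
            hs⁻¹ * deriv h (ρ * (dj e (j + 1) + v.2)) := by
            field_simp
          rw [g3]
        rw [g2] at g1
        exact g1
      have f2 : HasFDerivAt (fun v : ℝ × ℝ => ρ⁻¹ * (c1 * (a + ρ * (hs * (dj e j + v.1))) *
              Ga (ρ * (dj e (j + 1) + v.2)) - c0) - dj e (j + 2))
          ((c1 * hs * Ga (ρ * (dj e (j + 1) + v.2))) • ContinuousLinearMap.fst ℝ ℝ ℝ +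
            (c1 * (a + ρ * (hs * (dj e j + v.1))) * deriv Ga (ρ * (dj e (j + 1) + v.2))) •
              ContinuousLinearMap.snd ℝ ℝ ℝ) v := by
        have k1 : HasFDerivAt (fun v : ℝ × ℝ => c1 * (a + ρ * (hs * (dj e j + v.1))))
            ((c1 * (ρ * hs)) • ContinuousLinearMap.fst ℝ ℝ ℝ) v := by
          have k2 := ((((((hasFDerivAt_fst (𝕜 := ℝ) (p := v)).const_add (dj e j)).const_mul hs).const_mul
            ρ).const_add a).const_mul c1)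
          rw [smul_smul, smul_smul] at k2
          have k3 : c1 * (ρ * hs) = c1 * ρ * hs := by ring
          rw [k3]
          exact k2
        have k4 := k1.mul' (gG.comp_hasFDerivAt v g0)
        have k5 := ((k4.sub_const c0).const_mul ρ⁻¹).sub_const (dj e (j + 2))
        refine k5.congr_fderiv ?_
        ext <;> simp <;> field_simp
      rw [dz22_jac f1 f2 (sqt q j)]
      field_simp
  · intro j r
    exact hJ0 j r.1 r.2
  · intro ρ ε q z j hρ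
    have hzm : zmD e a hs ρ wT c j z = x0 + ρ • xi j z := by
      rw [hxs]
      unfold zmD
      rw [mul_assoc]
    rw [hzm]
    unfold stpD
    rw [eHX, eHU, eHW, hX0, hU0, hW0, smul_eq_mul, smul_eq_mul]
    have b1 : a + ρ * HX ((ρ, ε), xi j z) =
        a + ρ * hs * (dj e (j + 1) + B1 j (((ρ, ε), q), z)) := by
      rw [hB1]
      field_simp
      ring
    have b3 : wT + ρ • HW ((ρ, ε), xi j z) =
        wT + ρ • (dj e (j + 1) • c + B3 j (((ρ, ε), q), z)) := by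
      rw [hB3]
      simp only
      rw [add_sub_cancel]
    refine Prod.ext (Prod.ext b1 ?_) b3
    show c0 + ρ * HU ((ρ, ε), xi j z) + Qj e a hs c0 τ ρ q j (a + ρ * HX ((ρ, ε), xi j z)) =
      ρ * (dj e (j + 2) + B2 j (((ρ, ε), q), z))
    unfold Qj
    have b2 : (a + ρ * HX ((ρ, ε), xi j z) - a) / (ρ * hs) - dj e (j + 1) =
        B1 j (((ρ, ε), q), z) := by
      rw [b1]
      field_simp
      ring
    rw [b2, hB2]
    simp only
    ring

end Pool.Agent.Lib.H37D
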