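import Pool.Agent.Lib.H37D.DZ22
import Pool.Agent.Lib.H37D.DS

/-! # H37D, chunk DZ23 (M): Stage II in the coordinates `((X,U),w)` (port of H37P/Z23.lean) -/

open Set Filter Topology Asymptotics
open scoped ContDiff

namespace Pool.Agent.Lib.H37D

open Pool.Agent.Lib.H37N

variable {d : ℕ}

/-- the conjugation of the composition of the blocks by the zoom

PROOF. Induction on j. -/
theorem dz23_conj {P' : Type} [NormedAddCommGroup P'] [NormedSpace ℝ P'] {e : ℕ} {bX bU : P' × En d → ℝ}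
    {bW : P' × En d → Wd d} {a hs c0 τ ρ : ℝ} {wT c : Wd d}
    {G : ℕ → ((ℝ × P') × QQ (e + 3) e) × (ℝ × ℝ) × Wd d → (ℝ × ℝ) × Wd d} {ε : P'} {q : QQ (e + 3) e}
    (hG : ∀ (z : En d) (j : ℕ), stpD bX bU bW (Qj e a hs c0 τ ρ q) (ρ • ε) j (zmD e a hs ρ wT c j z) =
      zmD e a hs ρ wT c (j + 1) (G j (((ρ, ε), q), z))) (z : En d) (j : ℕ) :
    stoD bX bU bW (Qj e a hs c0 τ ρ q) (ρ • ε) j (zmD e a hs ρ wT c 0 z) =
      zmD e a hs ρ wT c j (stW G j (((ρ, ε), q), z)) := by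
  induction j with
  | zero => rfl
  | succ j ih =>
    have h1 : stoD bX bU bW (Qj e a hs c0 τ ρ q) (ρ • ε) (j + 1) (zmD e a hs ρ wT c 0 z) =
        stpD bX bU bW (Qj e a hs c0 τ ρ q) (ρ • ε) j
          (stoD bX bU bW (Qj e a hs c0 τ ρ q) (ρ • ε) j (zmD e a hs ρ wT c 0 z)) := rfl
    have h2 : stW G (j + 1) (((ρ, ε), q), z) = G j (((ρ, ε), q), stW G j (((ρ, ε), q), z)) := rfl
    rw [h1, ih, hG, h2]

/-- Stage II in the coordinates ((X,U),w).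

PROOF. As `stageII_local` in H37P/Z23.lean.  `zoomed_blocksD` and `as2w` (n = e + 3, d = dj e, `sum_dj`, V = ball 0 1 in QQ, O = ball 0 (1/10)): for (ρ,ε') near 0, ρ ≠ 0.  Choose δ for this neighbourhood (sup norm),
0 < ρ < min δ ρ1, η = ρ δ, ε' = ρ⁻¹ • ε.  The composition is transported by `dz23_conj`; zmD (nb e) = zmD 0 because dj e (nb e) = dj e 0, dj e (nb e + 1) = dj e 1 (`dj_add`). -/
theorem stageII_localD {e : ℕ} (he : 1 ≤ e) {P' : Type} [NormedAddCommGroup P'] [NormedSpace ℝ P']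
    [FiniteDimensional ℝ P'] {bX bU : P' × En d → ℝ} {bW : P' × En d → Wd d} {a c1 : ℝ} {wT : Wd d} {h Ga : ℝ → ℝ}
    {k : ℝ → Wd d} (hB : BlkD bX bU bW a c1 wT h Ga k) {hs c0 τ s0 : ℝ} {c : Wd d} (hhs : hs = deriv h 0)
    (h1 : c1 * hs * Ga 0 = -1) (hc0 : c0 = c1 * a * Ga 0) (hτ : τ = c1 * a * deriv Ga 0)
    (hs0 : s0 = deriv (fun U => Real.log (-(deriv h U * Ga U))) 0) (hne : s0 ≠ 0) (hc : c = deriv k 0)
    {ρ1 : ℝ} (hρ1 : 0 < ρ1) :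
    ∃ ρ : ℝ, 0 < ρ ∧ ρ < ρ1 ∧ ∃ η > 0, ∀ ε : P', ‖ε‖ < η → ∃ q : QQ (e + 3) e, ‖q‖ < 1 ∧
      ∃ (om : Pt → Wd d) (φ : Pt → Pt), ContDiff ℝ ∞ om ∧ ContDiff ℝ ∞ φ ∧
      (∀ᶠ v in 𝓝 (0 : Pt), stoD bX bU bW (Qj e a hs c0 τ ρ q) ε (nb e) (zmD e a hs ρ wT c 0 (v, om v)) =
        zmD e a hs ρ wT c 0 (φ v, om v)) ∧
      ((fun v : Pt => φ v - v) =O[𝓝 0] fun v : Pt => ‖v‖ ^ (e + 1)) ∧
      ∀ j ≤ nb e, ∃ z : En d, ‖z‖ < 1 / 10 ∧
        stoD bX bU bW (Qj e a hs c0 τ ρ q) ε j (zmD e a hs ρ wT c 0 (0, om 0)) = zmD e a hs ρ wT c j z := by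
  obtain ⟨G, J, sG, sJ, hG0, hGρ, hGε, hJ0, hconj⟩ := zoomed_blocksD e hB hhs h1 hc0 hτ hs0 hc
  have hVn : Metric.ball (0 : QQ (e + 3) e) 1 ∈ 𝓝 (0 : QQ (e + 3) e) :=
    Metric.ball_mem_nhds _ one_pos
  have hOn : Metric.ball (0 : (ℝ × ℝ) × Wd d) (1 / 10) ∈ 𝓝 (0 : (ℝ × ℝ) × Wd d) :=
    Metric.ball_mem_nhds _ (by norm_num)
  have has := as2w (P' := P') (W := Wd d) (n := e + 3) (e := e) (s₀ := s0) (d := dj e) (c := c)
    (G := G) (J := J) he rfl (fun j _ => sG j) (fun j _ => sJ j)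
    (fun j _ => Eventually.of_forall fun r => hG0 j r)
    (fun j _ => Eventually.of_forall fun r => hGρ j r) (fun j _ => hGε j)
    (fun j _ => Eventually.of_forall fun r => hJ0 j r) hne (sum_dj e) hVn hOn
  obtain ⟨δ, hδ, hδs⟩ := Metric.eventually_nhds_iff.1 has
  have hm : 0 < min δ ρ1 := lt_min hδ hρ1
  obtain ⟨ρ, hρ, hρm⟩ := exists_between hm
  have hρδ : ρ < δ := hρm.trans_le (min_le_left _ _)
  refine ⟨ρ, hρ, hρm.trans_le (min_le_right _ _), ρ * δ, mul_pos hρ hδ, fun ε hε => ?_⟩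
  obtain ⟨ε', hε'⟩ : ∃ ε' : P', ε' = ρ⁻¹ • ε := ⟨_, rfl⟩
  have hεε : ρ • ε' = ε := by
    rw [hε', smul_smul, mul_inv_cancel₀ hρ.ne', one_smul]
  have hεn : ‖ε'‖ < δ := by
    rw [← hεε, norm_smul, Real.norm_eq_abs, abs_of_pos hρ] at hε
    exact lt_of_mul_lt_mul_left hε hρ.le
  have hp : dist ((ρ, ε') : ℝ × P') 0 < δ := by
    rw [dist_zero_right, Prod.norm_def]
    refine max_lt ?_ hεn
    show ‖ρ‖ < δ
    rw [Real.norm_eq_abs, abs_of_pos hρ]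
    exact hρδ
  obtain ⟨q, hq, om, φ, som, sφ, hst, hO, horb⟩ := hδs hp hρ.ne'
  have hcj : ∀ (z : En d) (j : ℕ), stoD bX bU bW (Qj e a hs c0 τ ρ q) ε j (zmD e a hs ρ wT c 0 z) =
      zmD e a hs ρ wT c j (stW G j (((ρ, ε'), q), z)) := by
    intro z j
    have := dz23_conj (G := G) (ε := ε') (q := q) (fun z j => hconj ρ ε' q z j hρ.ne') z j
    rw [hεε] at this
    exact this
  have hd0 : dj e (nb e) = dj e 0 := by
    have := dj_add e 0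
    rwa [zero_add] at this
  have hd1 : dj e (nb e + 1) = dj e 1 := by
    have := dj_add e 1
    rwa [add_comm] at this
  have hz0 : ∀ z : En d, zmD e a hs ρ wT c (nb e) z = zmD e a hs ρ wT c 0 z := by
    intro z
    unfold zmD
    rw [hd0, hd1, zero_add]
  refine ⟨q, by simpa using hq, om, φ, som, sφ, ?_, hO, fun j hj => ?_⟩
  · filter_upwards [hst] with v hv
    rw [hcj, hz0]
    have h5 : stW G (nb e) (((ρ, ε'), q), (v, om v)) = (φ v, om v) := hv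
    rw [h5]
  · refine ⟨stW G j (((ρ, ε'), q), (0, om 0)), ?_, hcj _ j⟩
    have := horb j hj
    simpa using this

end Pool.Agent.Lib.H37D
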