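import Pool.Agent.Lib.H37D.FDefs
import Pool.Agent.Lib.H37D.DP04
import Pool.Agent.Lib.H37D.DP09
import Pool.Agent.Lib.H37P.Z24

/-! # H37D, chunk DZ24 (S/M): the block for an arbitrary admissible perturbation (port of H37P/Z24.lean) -/

open Set Filter Topology Asymptotics
open scoped ContDiff

namespace Pool.Agent.Lib.H37D

open Pool.Agent.Lib.H37N

variable {d : ℕ}

/-- the chart coordinates (relative to `(0,b)`) at the exit of `Q`, as a function of the parameters and of the point at `P` -/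
noncomputable def exE (f : PFD d) (b B0 dS : ℝ) (ε : EP d) (z : En d) : En d := exD f b B0 dS (ε.1 3) ε z

/-- The block.

PROOF. As in H37P/Z24.lean: `pass_XUD` (DP09) gives δ; the three smallness hypotheses follow from ‖epsD‖ < δ: e1D s n = (epsD ..).1 0, e2D g s m = (epsD ..).1 1, s.al P ^ n = (epsD ..).2 0
(norms of components: `norm_le_pi_norm`, `norm_fst_le`, `norm_snd_le`).  The path is in VOD d, where (ψ ∘ g) z = g z (`PlaceD.eqV`, `VOD_sub`), so the same for ψ ∘ g (induction);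
g^[n + kS + m] (κP (YcD z)) = κQ ((v.1.1, b + v.1.2), v.2) with v = exE .. (unfold exE exD; (epsD ..).1 3 = E⁻¹, .1 4 = xi0D, .2 2 = w0D by rfl).  Then `PlaceD.transition` (DP04). -/
theorem blockD {g : En d → En d} {s : FrD d} {Z : Set (En d)} {b a : ℝ} {wT : Wd d} {k l : ℕ} {r : ℝ}
    {D B : Set (En d)} {Li : En d → En d} (hN : NearS g) (hs : IsFrD g s) (hZ : Z ⊆ interior (FFd d))
    (hp : PlaceD g s Z b a wT k l r D B Li) {f : PFD d} {rf : ℝ} (hf : IsPFD g s f rf) :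
    ∃ δ > 0, ∀ ψ, AdmD D ψ → ∀ (B0 : ℝ) (n m : ℕ) (z : En d), ‖epsD g s B0 n m‖ < δ →
      |z.1.1| ≤ 1 → |z.1.2 + b| ≤ 1 → ‖z.2‖ ≤ 1 →
      exE f b B0 (dSD g s) (epsD g s B0 n m) z ∈ B →
      (ψ ∘ g)^[n + s.kS + m + (k + 1 + l)] (s.κ Sy.P (YcD g s f b n m z)) =
        s.κ Sy.P (PlD g s l (ψ (Li (TTD g s b k l (exE f b B0 (dSD g s) (epsD g s B0 n m) z))))) ∧
      ∀ i ≤ n + s.kS + m + (k + 1 + l),
        (ψ ∘ g)^[i] (s.κ Sy.P (YcD g s f b n m z)) ∈ VOD d ∪ Z := by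
  obtain ⟨δ, hδ, hpass⟩ := pass_XUD hs hf
  refine ⟨δ, hδ, fun ψ hψ B0 n m z he hX hU hw hB => ?_⟩
  have h1 : |e1D s n| < δ :=
    ((norm_le_pi_norm (epsD g s B0 n m).1 0).trans (norm_fst_le _)).trans_lt he
  have h2 : |e2D g s m| < δ :=
    ((norm_le_pi_norm (epsD g s B0 n m).1 1).trans (norm_fst_le _)).trans_lt he
  have h0 : ‖s.al Sy.P ^ n‖ < δ :=
    ((norm_le_pi_norm (epsD g s B0 n m).2 0).trans (norm_snd_le _)).trans_lt he
  obtain ⟨h3, h4⟩ := hpass B0 n m b z h1 h2 h0 hX hU hw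
  have hV : ∀ z ∈ VOD d, (ψ ∘ g) z = g z := fun z hz => hp.eqV hN hZ hψ z (VOD_sub hz)
  have key : ∀ i ≤ n + s.kS + m,
      (ψ ∘ g)^[i] (s.κ Sy.P (YcD g s f b n m z)) =
        g^[i] (s.κ Sy.P (YcD g s f b n m z)) := by
    intro i
    induction i with
    | zero => intro _; rfl
    | succ i ih =>
      intro hi
      have ih' := ih (by omega)
      rw [Function.iterate_succ_apply', Function.iterate_succ_apply', ih']
      exact hV _ (h4 i (by omega))
  obtain ⟨t1, t2, -, t4⟩ := hp.transition hN hZ hψ hB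
  have h5 : (ψ ∘ g)^[n + s.kS + m] (s.κ Sy.P (YcD g s f b n m z)) =
      s.κ Sy.Q (((exE f b B0 (dSD g s) (epsD g s B0 n m) z).1.1,
        b + (exE f b B0 (dSD g s) (epsD g s B0 n m) z).1.2),
        (exE f b B0 (dSD g s) (epsD g s B0 n m) z).2) := by
    rw [key _ le_rfl]
    exact h3
  refine ⟨?_, fun i hi => ?_⟩
  · rw [add_comm (n + s.kS + m) (k + 1 + l), Function.iterate_add_apply, h5]
    rw [← t1]
    exact t2
  · rcases le_or_gt i (n + s.kS + m) with hle | hgt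
    · rw [key i hle]
      exact Or.inl (h4 i hle)
    · obtain ⟨j, rfl⟩ := Nat.exists_eq_add_of_lt hgt
      have e : n + s.kS + m + j + 1 = (j + 1) + (n + s.kS + m) := by omega
      rw [e, Function.iterate_add_apply, h5]
      exact t4 (j + 1) (by omega)

end Pool.Agent.Lib.H37D
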