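import Pool.Agent.Lib.H37D.FDefs
import Pool.Agent.Lib.H37D.DP05
import Pool.Agent.Lib.H37D.DZ20
import Pool.Agent.Lib.H37P.Z25

/-! # H37D, chunk DZ25 (M): the family of perturbations of Stage II (port of H37P/Z25.lean) -/

open Set Filter Topology Asymptotics
open scoped ContDiff

namespace Pool.Agent.Lib.H37D

open Pool.Agent.Lib.H37N

variable {d : ℕ}

theorem dz25_bump (c : Wd d) {r1 r2 : ℝ} (h1 : 0 < r1) (h2 : r1 < r2) :
    ∃ χ : Wd d → ℝ, ContDiff ℝ ∞ χ ∧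
      (∀ x, ‖x - c‖ ≤ r1 → χ x = 1) ∧ ∀ x, r2 ≤ ‖x - c‖ → χ x = 0 := by
  let φ : ContDiffBump c := ⟨r1, r2, h1, h2⟩
  refine ⟨φ, φ.contDiff, fun x hx => ?_, fun x hx => ?_⟩
  · apply φ.one_of_mem_closedBall
    rw [Metric.mem_closedBall, dist_eq_norm]
    exact hx
  · apply φ.zero_of_le_dist
    rw [dist_eq_norm]
    exact hx

/-- PROOF. As `z25_phS_smooth` (H37P/Z25.lean) with `contDiff_mulw` (DZ20) for the argument of `f.Th`. -/
theorem dz25_phS_smooth (e : ℕ) (s : FrD d) {f : PFD d} (hTh : ContDiff ℝ ∞ f.Th) {Nn : (ℝ × Wd d) × ℝ → ℝ}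
    (hNn : ContDiff ℝ ∞ Nn) (a b hs c0 τ ρ : ℝ) (j : ℕ) :
    ContDiff ℝ ∞ (fun z : PSD e d × (ℝ × Wd d) => phSD e s f Nn a b hs c0 τ ρ j z.1 z.2.1 z.2.2) := by
  have hu : ContDiff ℝ ∞ (fun z : PSD e d × (ℝ × Wd d) =>
      (z.2.1 - a) / (ρ * hs) - dj e (j + 1)) :=
    (((contDiff_fst.comp contDiff_snd).sub contDiff_const).div_const _).sub contDiff_const
  have hX : ContDiff ℝ ∞ (fun z : PSD e d × (ℝ × Wd d) => z.2.1) := by fun_prop
  have hw : ContDiff ℝ ∞ (fun z : PSD e d × (ℝ × Wd d) => z.2.2) := by fun_prop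
  have p0 : ContDiff ℝ ∞ (fun z : PSD e d × (ℝ × Wd d) => z.1.1) := by fun_prop
  have p1 : ContDiff ℝ ∞ (fun z : PSD e d × (ℝ × Wd d) => z.1.2.1) := by fun_prop
  have p2 : ContDiff ℝ ∞ (fun z : PSD e d × (ℝ × Wd d) => z.1.2.2.1) := by fun_prop
  have p3 : ContDiff ℝ ∞ (fun z : PSD e d × (ℝ × Wd d) => z.1.2.2.2.1) := by fun_prop
  have p4 : ContDiff ℝ ∞ (fun z : PSD e d × (ℝ × Wd d) => z.1.2.2.2.2.1) := by fun_prop
  have p5 : ContDiff ℝ ∞ (fun z : PSD e d × (ℝ × Wd d) => z.1.2.2.2.2.2.1) := by fun_prop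
  have p6 : ContDiff ℝ ∞ (fun z : PSD e d × (ℝ × Wd d) => z.1.2.2.2.2.2.2) := by fun_prop
  have h1 : ContDiff ℝ ∞ (fun z : PSD e d × (ℝ × Wd d) => Nn ((z.1.1, z.1.2.1), z.2.1)) :=
    hNn.comp ((p0.prodMk p1).prodMk hX)
  have h3 : ContDiff ℝ ∞ (fun z : PSD e d × (ℝ × Wd d) =>
      f.Th (z.1.2.2.2.1 * z.2.1, mulw z.1.2.2.2.2.1 z.2.2)) :=
    hTh.comp ((p3.mul hX).prodMk (contDiff_mulw p4 hw))
  have hq : ContDiff ℝ ∞ (fun z : PSD e d × (ℝ × Wd d) =>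
      qpoly e z.1.2.2.2.2.2.2 j ((z.2.1 - a) / (ρ * hs) - dj e (j + 1))) := by
    unfold qpoly
    refine ContDiff.sum fun i _ => ?_
    exact ((z25_qx_smooth j i).comp p6).mul (hu.pow i)
  have hqt : ContDiff ℝ ∞ (fun z : PSD e d × (ℝ × Wd d) =>
      qt e τ 0 j ((z.2.1 - a) / (ρ * hs) - dj e (j + 1))) := by
    unfold qt
    simp only [z25_qpoly_zero, add_zero]
    exact contDiff_const.add (contDiff_const.mul hu)
  unfold phSD
  exact ((h1.neg.add (p2.mul (contDiff_const.add h3))).add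
    (p5.mul (contDiff_const.add (contDiff_const.mul hqt)))).add (contDiff_const.mul hq)

theorem dz25_phS_zero (e : ℕ) (s : FrD d) (f : PFD d) {Nn : (ℝ × Wd d) × ℝ → ℝ} (a b hs c0 τ ρ : ℝ) (j : ℕ) {X : ℝ}
    (w : Wd d) (hX : Nn ((0, 0), X) = 0) : phSD e s f Nn a b hs c0 τ ρ j 0 X w = 0 := by
  unfold phSD
  have e1 : (0 : PSD e d).1 = 0 := rfl
  have e2 : (0 : PSD e d).2.1 = 0 := rfl
  have e3 : (0 : PSD e d).2.2.1 = 0 := rfl
  have e6 : (0 : PSD e d).2.2.2.2.2.1 = 0 := rfl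
  have e7 : (0 : PSD e d).2.2.2.2.2.2 = 0 := rfl
  rw [e1, e2, e3, e6, e7, hX, z25_qpoly_zero]
  ring

/-- The family.

PROOF. As in H37P/Z25.lean with one more bump function: χ1 (X - X_j) (radii ρ|hs|/5, ρ|hs|/3), χ2 (y) (radii r/8, r/4), χ3 (w) : `ContDiffBump wT` in Wd d with the radii r/4, r/2
(`one_of_mem_closedBall`, `zero_of_le_dist`); X_j = a + ρ hs dj (j+1), pairwise distance ≥ ρ|hs| (`dj_sep`).
Ψ (p,((X,y),w)) = ((X, y + ∑_j χ1 (X - X_j) χ2 y χ3 w phSD_j(p,X,w)), w) is smooth; Ψ (0,v) = v because Nn ((0,0),X) = 0 for |X - a| < rF; it is the identity off the closed ball of radius r/2 around ((a,0),wT)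
(χ3 w = 0 for ‖w - wT‖ ≥ r/2).  `PlaceD.family` (DP05).  r1 = r/8.  The point v is in the open ball of radius r/2: |v.1.1 - a| < ρ|hs|(nb e + 1) < r/2 (`z25_dj_bound`), |v.1.2| ≤ r/8, ‖v.2 - wT‖ ≤ r/4. -/
theorem family_SD {g : En d → En d} {s : FrD d} {Z : Set (En d)} {b a : ℝ} {wT : Wd d} {k l : ℕ} {r : ℝ}
    {D B : Set (En d)} {Li : En d → En d} (hp : PlaceD g s Z b a wT k l r D B Li) {f : PFD d}
    (hTh : ContDiff ℝ ∞ f.Th) {Nn : (ℝ × Wd d) × ℝ → ℝ} (hNn : ContDiff ℝ ∞ Nn) {rF : ℝ} (hrF : 0 < rF)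
    (hN0 : ∀ X : ℝ, |X - a| < rF → Nn ((0, 0), X) = 0) (e : ℕ) {hs c0 τ ρ : ℝ} (hhs : hs ≠ 0)
    (hρ : 0 < ρ) (hρr : ρ * |hs| * (nb e + 1) < r / 2) (hρF : ρ * |hs| * (nb e + 1) < rF) (R : ℕ) :
    ∃ r1 > 0, ∀ ε > 0, ∀ᶠ p in 𝓝 (0 : PSD e d), ∃ ψ : En d → En d, SmallD R ε ψ ∧ AdmD D ψ ∧
      ∀ j < nb e, ∀ v : En d, |v.1.1 - (a + ρ * hs * dj e (j + 1))| ≤ ρ * |hs| / 5 → |v.1.2| ≤ r1 →
        ‖v.2 - wT‖ ≤ r / 4 →
        v ∈ Metric.ball (((a, 0), wT) : En d) (r / 2) ∧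
        PlD g s l (ψ (Li v)) = ((v.1.1, v.1.2 + phSD e s f Nn a b hs c0 τ ρ j p v.1.1 v.2), v.2) := by
  have hr := hp.r_pos
  set w : ℝ := ρ * |hs| with hw
  have hwpos : 0 < w := mul_pos hρ (abs_pos.2 hhs)
  set Xc : ℕ → ℝ := fun j => a + ρ * hs * dj e (j + 1) with hXc
  have hnb1 : (1 : ℝ) ≤ (nb e : ℝ) := by
    have : 1 ≤ nb e := by unfold nb; omega
    exact_mod_cast this
  have habs : ∀ j, |Xc j - a| ≤ w * (((nb e : ℝ) - 1) / 2) := by
    intro j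
    have h1 : Xc j - a = ρ * hs * dj e (j + 1) := by simp [hXc]
    rw [h1, abs_mul, abs_mul, abs_of_pos hρ]
    exact mul_le_mul_of_nonneg_left (z25_dj_bound e (j + 1)) hwpos.le
  -- a point close to a centre is close to a
  have hclose : ∀ (j : ℕ) (X : ℝ), |X - Xc j| ≤ w / 3 → |X - a| < w * ((nb e : ℝ) + 1) := by
    intro j X hX
    have h1 : |X - a| ≤ |X - Xc j| + |Xc j - a| := abs_sub_le _ _ _
    have h2 := habs j
    nlinarith
  obtain ⟨χ1, hχ1, hχ1one, hχ1zero⟩ := z25_bump (r1 := w / 5) (r2 := w / 3) (by positivity) (by linarith)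
  obtain ⟨χ2, hχ2, hχ2one, hχ2zero⟩ := z25_bump (r1 := r / 8) (r2 := r / 4) (by positivity) (by linarith)
  obtain ⟨χ3, hχ3, hχ3one, hχ3zero⟩ := dz25_bump wT (r1 := r / 4) (r2 := r / 2) (by positivity) (by linarith)
  set Ψ : PSD e d × En d → En d := fun z => ((z.2.1.1, z.2.1.2 + ∑ j ∈ Finset.range (nb e),
    (χ1 (z.2.1.1 - Xc j) * χ2 z.2.1.2 * χ3 z.2.2) *
      phSD e s f Nn a b hs c0 τ ρ j z.1 z.2.1.1 z.2.2), z.2.2) with hΨdef
  have hΨ : ContDiff ℝ ∞ Ψ := by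
    refine ContDiff.prodMk (ContDiff.prodMk (by fun_prop)
      (ContDiff.add (by fun_prop) (ContDiff.sum fun j _ => ?_))) (by fun_prop)
    have h1 : ContDiff ℝ ∞ (fun z : PSD e d × En d => z.2.1.1 - Xc j) := by fun_prop
    have h2 : ContDiff ℝ ∞ (fun z : PSD e d × En d => z.2.1.2) := by fun_prop
    have h2' : ContDiff ℝ ∞ (fun z : PSD e d × En d => z.2.2) := by fun_prop
    have h3 : ContDiff ℝ ∞ (fun z : PSD e d × En d => (z.1, (z.2.1.1, z.2.2))) := by fun_prop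
    exact (((hχ1.comp h1).mul (hχ2.comp h2)).mul (hχ3.comp h2')).mul
      ((dz25_phS_smooth e s hTh hNn a b hs c0 τ ρ j).comp h3)
  have h0 : ∀ v, Ψ (0, v) = v := by
    intro v
    have hz : ∑ j ∈ Finset.range (nb e), (χ1 (v.1.1 - Xc j) * χ2 v.1.2 * χ3 v.2) *
        phSD e s f Nn a b hs c0 τ ρ j 0 v.1.1 v.2 = 0 := by
      refine Finset.sum_eq_zero fun j _ => ?_
      by_cases hX : w / 3 ≤ |v.1.1 - Xc j|
      · rw [hχ1zero _ hX]
        ring
      · have h1 := hclose j v.1.1 (not_le.1 hX).le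
        rw [dz25_phS_zero e s f a b hs c0 τ ρ j v.2 (hN0 _ (h1.trans hρF))]
        ring
    show ((v.1.1, v.1.2 + _), v.2) = v
    rw [hz, add_zero]
  have hsupp : ∀ (p : PSD e d) (v : En d),
      v ∉ Metric.closedBall (((a, 0), wT) : En d) (r / 2) → Ψ (p, v) = v := by
    intro p v hv
    have hz : ∑ j ∈ Finset.range (nb e), (χ1 (v.1.1 - Xc j) * χ2 v.1.2 * χ3 v.2) *
        phSD e s f Nn a b hs c0 τ ρ j p v.1.1 v.2 = 0 := by
      refine Finset.sum_eq_zero fun j _ => ?_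
      by_cases hX : w / 3 ≤ |v.1.1 - Xc j|
      · rw [hχ1zero _ hX]
        ring
      · have h1 := hclose j v.1.1 (not_le.1 hX).le
        by_cases hY : r / 4 ≤ |v.1.2|
        · rw [hχ2zero _ hY]
          ring
        · by_cases hW : r / 2 ≤ ‖v.2 - wT‖
          · rw [hχ3zero _ hW]
            ring
          · exfalso
            apply hv
            rw [Metric.mem_closedBall, Prod.dist_eq, Prod.dist_eq]
            refine max_le (max_le ?_ ?_) ?_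
            · show dist v.1.1 a ≤ r / 2
              rw [Real.dist_eq]
              linarith
            · show dist v.1.2 0 ≤ r / 2
              rw [Real.dist_eq, sub_zero]
              linarith [not_le.1 hY]
            · show dist v.2 wT ≤ r / 2
              rw [dist_eq_norm]
              exact (not_le.1 hW).le
    show ((v.1.1, v.1.2 + _), v.2) = v
    rw [hz, add_zero]
  refine ⟨r / 8, by positivity, fun ε hε => ?_⟩
  filter_upwards [hp.family Ψ hΨ h0 hsupp R hε] with p hψ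
  obtain ⟨ψ, hS, hA, hP⟩ := hψ
  refine ⟨ψ, hS, hA, fun j hj v hv1 hv2 hv3 => ?_⟩
  have hv1' : |v.1.1 - Xc j| ≤ w / 5 := hv1
  have h1 := hclose j v.1.1 (hv1'.trans (by linarith))
  have hball : v ∈ Metric.ball (((a, 0), wT) : En d) (r / 2) := by
    rw [Metric.mem_ball, Prod.dist_eq, Prod.dist_eq]
    refine max_lt (max_lt ?_ ?_) ?_
    · show dist v.1.1 a < r / 2
      rw [Real.dist_eq]
      linarith
    · show dist v.1.2 0 < r / 2
      rw [Real.dist_eq, sub_zero]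
      linarith
    · show dist v.2 wT < r / 2
      rw [dist_eq_norm]
      linarith
  refine ⟨hball, ?_⟩
  rw [hP v (Metric.ball_subset_ball (by linarith) hball)]
  have hsum : ∑ i ∈ Finset.range (nb e), (χ1 (v.1.1 - Xc i) * χ2 v.1.2 * χ3 v.2) *
      phSD e s f Nn a b hs c0 τ ρ i p v.1.1 v.2 =
      phSD e s f Nn a b hs c0 τ ρ j p v.1.1 v.2 := by
    rw [Finset.sum_eq_single j]
    · rw [hχ1one _ hv1', hχ2one _ hv2, hχ3one _ hv3]
      ring
    · intro i hi hij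
      have hi' : i < nb e := Finset.mem_range.1 hi
      have hmod : (i + 1) % nb e ≠ (j + 1) % nb e := by
        intro h
        have hm : (i + 1) ≡ (j + 1) [MOD nb e] := h
        have hm2 : i ≡ j [MOD nb e] := Nat.ModEq.add_right_cancel' 1 hm
        exact hij (Nat.ModEq.eq_of_lt_of_lt hm2 hi' hj)
      have hsep := dj_sep e hmod
      have h2 : w ≤ |Xc i - Xc j| := by
        have h3 : Xc i - Xc j = ρ * hs * (dj e (i + 1) - dj e (j + 1)) := by
          simp only [hXc]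
          ring
        rw [h3, abs_mul, abs_mul, abs_of_pos hρ]
        have := mul_le_mul_of_nonneg_left hsep hwpos.le
        linarith
      have h4 : |Xc i - Xc j| ≤ |v.1.1 - Xc i| + |v.1.1 - Xc j| := by
        have := abs_sub_le (Xc i) v.1.1 (Xc j)
        rwa [abs_sub_comm (Xc i) v.1.1] at this
      rw [hχ1zero _ (by linarith)]
      ring
    · intro hn
      exact absurd (Finset.mem_range.2 hj) hn
  show ((v.1.1, v.1.2 + _), v.2) = _
  rw [hsum]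

end Pool.Agent.Lib.H37D
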