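import Pool.Agent.Lib.H37D.DZ24
import Pool.Agent.Lib.H37P.Z27

/-! # H37D, chunk DZ26 (M): one step of the perturbed map (port of `z27_shear`, `z27_step` in H37P/Z27.lean) -/

open Set Filter Topology Asymptotics
open scoped ContDiff

namespace Pool.Agent.Lib.H37D

open Pool.Agent.Lib.H37N

variable {d : ℕ}

/-- The shear brings the point to the coordinates of the next block.

PROOF. As `z27_shear` (H37P/Z27.lean): unfold YcD stpD yFD phSD Qj parS, `z27_qpoly_smul`, `z27_qpoly_zero`, then ring on the second coordinate; the first and the third coordinates by rfl. -/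
theorem dz26_shear {g : En d → En d} {s : FrD d} {f : PFD d} (e : ℕ) {a b hs c0 τ ρ B0 dS : ℝ} {wT : Wd d}
    {A : En d → ℝ} {Aw : En d → Wd d} {Nn : (ℝ × Wd d) × ℝ → ℝ} {Mh : (ℝ × Wd d) × En d → ℝ}
    {Mw : (ℝ × Wd d) × En d → (Wd d →L[ℝ] ℝ)} (n m : ℕ) (q : QQ (e + 3) e) (j : ℕ) (z : En d) :
    (((bXD f a b B0 dS A (epsD g s B0 n m, z),
      Nn ((xi0D s m, w0D s m), bXD f a b B0 dS A (epsD g s B0 n m, z)) +
        (EED g s n m)⁻¹ * bUD f b B0 dS Mh Mw (epsD g s B0 n m, z) +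
        phSD e s f Nn a b hs c0 τ ρ j (parS g s e n m q) (bXD f a b B0 dS A (epsD g s B0 n m, z))
          (bWD f b B0 dS wT Aw (epsD g s B0 n m, z))),
      bWD f b B0 dS wT Aw (epsD g s B0 n m, z)) : En d) =
      YcD g s f b n m (stpD (bXD f a b B0 dS A) (bUD f b B0 dS Mh Mw) (bWD f b B0 dS wT Aw)
        (Qj e a hs c0 τ ρ q) (epsD g s B0 n m) j z) := by
  set X := bXD f a b B0 dS A (epsD g s B0 n m, z) with hX
  set Uu := bUD f b B0 dS Mh Mw (epsD g s B0 n m, z) with hUu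
  set Ww := bWD f b B0 dS wT Aw (epsD g s B0 n m, z) with hWw
  have h1 : stpD (bXD f a b B0 dS A) (bUD f b B0 dS Mh Mw) (bWD f b B0 dS wT Aw)
        (Qj e a hs c0 τ ρ q) (epsD g s B0 n m) j z =
      ((X, Uu + Qj e a hs c0 τ ρ q j X), Ww) := rfl
  rw [h1]
  unfold YcD yFD phSD parS Qj
  refine Prod.ext (Prod.ext rfl ?_) rfl
  simp only
  rw [z27_qpoly_smul]
  unfold qt
  rw [z27_qpoly_zero]
  generalize qpoly e q j ((X - a) / (ρ * hs) - dj e (j + 1)) = Qv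
  generalize (X - a) / (ρ * hs) - dj e (j + 1) = w
  rw [div_eq_mul_inv, div_eq_mul_inv]
  ring

theorem dz26_adm {D : Set (En d)} {ψ χ : En d → En d} (h1 : AdmD D ψ) (h2 : AdmD D χ) : AdmD D (χ ∘ ψ) := by
  refine ⟨fun w hw => ?_, fun w hw => h2.2 _ (h1.2 w hw)⟩
  show χ (ψ w) = w
  rw [h1.1 w hw, h2.1 w hw]

/-- One step of the perturbed map.

PROOF. As `z27_step` (H37P/Z27.lean).  `blockD` for χ ∘ ψ (`dz26_adm`).  v = exE f b B0 (dSD g s) (epsD ..) z = ((ξ0 + ζ, t), w0 + η) with ξ0 = (epsD ..).1 4 = xi0D, ζ = (epsD ..).1 3 * XiFD, t = etaFD,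
w0 = (epsD ..).2 2 = w0D, η = (epsD ..).1 3 • OmFD (all by rfl).  `FlatD.fst`, `.thd` (‖v‖ < rF): (TTD v).1.1 = a + A v = bXD, (TTD v).2 = wT + Aw v = bWD; `FlatD.snd`:
(TTD v).1.2 = Nn ((ξ0,w0), bXD) + ζ Mh(argM) + Mw(argM) η = Nn(..) + E⁻¹ bUD (linearity of Mw: map_smul, ring).  `hp.TB`: TTD v is in the ball of radius r/2, so Li (TTD v) ∈ D, ψ (..) ∈ D,
Li (YcD (stpD z)) = ψ (Li (TTD v)) (`hsh`, `dz26_shear`, `hp.Li_Pl`), and YcD (stpD z) = PlD (ψ (Li (TTD v))) is in the ball of radius r (`hp.Pl_mem`). -/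
theorem stepD {g : En d → En d} {s : FrD d} {Z : Set (En d)} {b a : ℝ} {wT : Wd d} {k l : ℕ} {r : ℝ}
    {D B : Set (En d)} {Li : En d → En d} (hN : NearS g) (hs : IsFrD g s) (hZ : Z ⊆ interior (FFd d))
    (hp : PlaceD g s Z b a wT k l r D B Li) {f : PFD d} {rf : ℝ} (hf : IsPFD g s f rf)
    {A : En d → ℝ} {Aw : En d → Wd d} {Nn : (ℝ × Wd d) × ℝ → ℝ} {Mh : (ℝ × Wd d) × En d → ℝ}
    {Mw : (ℝ × Wd d) × En d → (Wd d →L[ℝ] ℝ)} {rF : ℝ} (hF : FlatD g s b a wT k l A Aw Nn Mh Mw rF)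
    (e : ℕ) {hs' c0 τ ρ B0 : ℝ} :
    ∃ δ > 0, ∀ (n m : ℕ), ‖epsD g s B0 n m‖ < δ →
      ∀ (q : QQ (e + 3) e) (j : ℕ) (z : En d) (ψ χ : En d → En d),
      AdmD D ψ → AdmD D χ → |z.1.1| ≤ 1 → |z.1.2 + b| ≤ 1 → ‖z.2‖ ≤ 1 →
      exE f b B0 (dSD g s) (epsD g s B0 n m) z ∈ B →
      ‖exE f b B0 (dSD g s) (epsD g s B0 n m) z‖ < rF →
      |(epsD g s B0 n m).1 4| < rF → |(epsD g s B0 n m).1 3 * XiFD f b B0 (epsD g s B0 n m) z| < rF →
      ‖(epsD g s B0 n m).2 2‖ < rF → ‖(epsD g s B0 n m).1 3 • OmFD f b (dSD g s) (epsD g s B0 n m) z‖ < rF →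
      (∀ v : En d, v.1.1 = bXD f a b B0 (dSD g s) A (epsD g s B0 n m, z) →
        v.1.2 = Nn (((epsD g s B0 n m).1 4, (epsD g s B0 n m).2 2),
            bXD f a b B0 (dSD g s) A (epsD g s B0 n m, z)) +
          (epsD g s B0 n m).1 3 * bUD f b B0 (dSD g s) Mh Mw (epsD g s B0 n m, z) →
        v.2 = bWD f b B0 (dSD g s) wT Aw (epsD g s B0 n m, z) →
        PlD g s l (ψ (Li v)) = ((v.1.1, v.1.2 + phSD e s f Nn a b hs' c0 τ ρ j (parS g s e n m q) v.1.1 v.2), v.2)) →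
      ((χ ∘ ψ) ∘ g)^[n + s.kS + m + (k + 1 + l)] (s.κ Sy.P (YcD g s f b n m z)) =
        s.κ Sy.P (PlD g s l (χ (Li (YcD g s f b n m
          (stpD (bXD f a b B0 (dSD g s) A) (bUD f b B0 (dSD g s) Mh Mw) (bWD f b B0 (dSD g s) wT Aw)
            (Qj e a hs' c0 τ ρ q) (epsD g s B0 n m) j z))))) ∧
      YcD g s f b n m (stpD (bXD f a b B0 (dSD g s) A) (bUD f b B0 (dSD g s) Mh Mw)
          (bWD f b B0 (dSD g s) wT Aw) (Qj e a hs' c0 τ ρ q) (epsD g s B0 n m) j z) ∈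
        Metric.ball (((a, 0), wT) : En d) r ∧
      ∀ i ≤ n + s.kS + m + (k + 1 + l),
        ((χ ∘ ψ) ∘ g)^[i] (s.κ Sy.P (YcD g s f b n m z)) ∈ VOD d ∪ Z := by
  obtain ⟨δ, hδ, H⟩ := blockD hN hs hZ hp hf
  refine ⟨δ, hδ, ?_⟩
  intro n m he q j z ψ χ hψ hχ hV1 hV2 hV3 hwB hwF h4 hz hw2 hη hsh
  obtain ⟨hB1, hB2⟩ := H (χ ∘ ψ) (dz26_adm hψ hχ) B0 n m z he hV1 hV2 hV3 hwB
  set ε := epsD g s B0 n m with hε
  set w := exE f b B0 (dSD g s) ε z with hwdef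
  have hTB : TTD g s b k l w ∈ Metric.ball (((a, 0), wT) : En d) (r / 2) := hp.TB w hwB
  have hTr : TTD g s b k l w ∈ Metric.ball (((a, 0), wT) : En d) r :=
    Metric.ball_subset_ball (by linarith [hp.r_pos]) hTB
  -- the coordinates of `TTD w`
  have hT1 : (TTD g s b k l w).1.1 = bXD f a b B0 (dSD g s) A (ε, z) := hF.fst w hwF
  have hT3 : (TTD g s b k l w).2 = bWD f b B0 (dSD g s) wT Aw (ε, z) := hF.thd w hwF
  have ht : |w.1.2| < rF := by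
    have h1 := (norm_snd_le w.1).trans (norm_fst_le w)
    exact lt_of_le_of_lt h1 hwF
  have hT2 : (TTD g s b k l w).1.2 = Nn ((ε.1 4, ε.2 2), bXD f a b B0 (dSD g s) A (ε, z)) +
      ε.1 3 * bUD f b B0 (dSD g s) Mh Mw (ε, z) := by
    have h := hF.snd (ε.1 4) (ε.1 3 * XiFD f b B0 ε z) w.1.2 (ε.2 2)
      (ε.1 3 • OmFD f b (dSD g s) ε z) h4 hz ht hw2 hη
    have h5 : (((ε.1 4 + ε.1 3 * XiFD f b B0 ε z, w.1.2),
      ε.2 2 + ε.1 3 • OmFD f b (dSD g s) ε z) : En d) = w := rfl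
    rw [h5] at h
    have h6 : a + A w = bXD f a b B0 (dSD g s) A (ε, z) := rfl
    have h7 : (((ε.1 4, ε.2 2), ((ε.1 3 * XiFD f b B0 ε z, w.1.2),
      ε.1 3 • OmFD f b (dSD g s) ε z)) : (ℝ × Wd d) × En d) = argM f b B0 (dSD g s) (ε, z) := rfl
    rw [h6, h7, map_smul, smul_eq_mul] at h
    rw [h]
    unfold bUD
    ring
  have hP := hsh _ hT1 hT2 hT3
  have hY : PlD g s l (ψ (Li (TTD g s b k l w))) = YcD g s f b n m
      (stpD (bXD f a b B0 (dSD g s) A) (bUD f b B0 (dSD g s) Mh Mw) (bWD f b B0 (dSD g s) wT Aw)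
        (Qj e a hs' c0 τ ρ q) ε j z) := by
    rw [hP, ← dz26_shear (hs := hs') (c0 := c0) (τ := τ) (ρ := ρ) (Nn := Nn) e n m q j z]
    refine Prod.ext (Prod.ext ?_ ?_) ?_
    · exact hT1
    · show (TTD g s b k l w).1.2 + phSD e s f Nn a b hs' c0 τ ρ j (parS g s e n m q)
        (TTD g s b k l w).1.1 (TTD g s b k l w).2 = _
      rw [hT1, hT2, hT3]
      rfl
    · exact hT3
  have hD1 : Li (TTD g s b k l w) ∈ D := hp.Li_mem _ hTr
  have hD2 : ψ (Li (TTD g s b k l w)) ∈ D := hψ.2 _ hD1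
  have hYD : Li (YcD g s f b n m
      (stpD (bXD f a b B0 (dSD g s) A) (bUD f b B0 (dSD g s) Mh Mw) (bWD f b B0 (dSD g s) wT Aw)
        (Qj e a hs' c0 τ ρ q) ε j z)) =
      ψ (Li (TTD g s b k l w)) := by
    rw [← hY, hp.Li_Pl _ hD2]
  refine ⟨?_, ?_, ?_⟩
  · rw [hB1, hYD]
    rfl
  · rw [← hY]
    exact hp.Pl_mem _ hD2
  · exact hB2

end Pool.Agent.Lib.H37D
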