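import Pool.Agent.Lib.H37D.DZ20
import Pool.Agent.Lib.H37D.DZ24
import Pool.Agent.Lib.H37P.Z27

/-! # H37D, chunk DZ27a (M): uniform smallness, the coordinates, smoothness (port of `z27_tube`, `z27_coords`, `z27_contDiff_sto` in H37P/Z27.lean) -/

open Set Filter Topology Asymptotics
open scoped ContDiff

namespace Pool.Agent.Lib.H37D

open Pool.Agent.Lib.H37N

variable {d : ℕ}

theorem contDiff_exE {f : PFD d} (hf : SmPFD f) (b B0 dS : ℝ) :
    ContDiff ℝ ∞ (fun q : EP d × En d => exE f b B0 dS q.1 q.2) := contDiff_exD hf b B0 dS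

theorem exE_zero {f : PFD d} (hf : SmPFD f) (b B0 dS : ℝ) (z : En d) : exE f b B0 dS 0 z = ((0, z.1.2), 0) :=
  exD_zero hf b B0 dS _ z rfl

theorem dz27_tube_lt {K : Set (En d × ℝ)} (hK : IsCompact K) {φ : EP d × (En d × ℝ) → ℝ}
    (hφ : Continuous φ) {c : ℝ} (h : ∀ p ∈ K, φ (0, p) < c) :
    ∀ᶠ ε : EP d in 𝓝 0, ∀ p ∈ K, φ (ε, p) < c := by
  apply hK.eventually_forall_of_forall_eventually
  intro p hp
  exact hφ.continuousAt.eventually_lt continuousAt_const (h p hp)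

/-- Uniform smallness of all the quantities of a step.

PROOF. As `z27_tube` (H37P/Z27.lean): the set of (z, X) with |z.1.1| ≤ 1, |z.1.2| ≤ ρU, ‖z.2‖ ≤ 1, |X - a| ≤ ρX is compact (closed and bounded, `isCompact_closedBall`, `isCompact_Icc`, `IsCompact.prod`);
all the functions are continuous in (ε, (z, X)) (`contDiff_exE`, `contDiff_XiFD`, `contDiff_OmFD`, `blkD_of` or the smoothness of bUD) and at ε = 0 they are: ‖exE‖ = |z.1.2| ≤ ρU, 0, 0, 0, 0, |Nn ((0,0),X)| = 0;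
`IsCompact.eventually_forall_of_forall_eventually`. -/
theorem dz27_tube {f : PFD d} (hf : SmPFD f) {Nn : (ℝ × Wd d) × ℝ → ℝ} (hNn : ContDiff ℝ ∞ Nn)
    {Mh : (ℝ × Wd d) × En d → ℝ} (hM : ContDiff ℝ ∞ Mh) {Mw : (ℝ × Wd d) × En d → (Wd d →L[ℝ] ℝ)}
    (hMw : ContDiff ℝ ∞ Mw) {a b B0 dS rF rB ρU ρX r1 : ℝ} (hr1 : 0 < r1) (hrF : 0 < rF) (hUB : ρU < rB)
    (hUF : ρU < rF) (hXF : ρX < rF) (hN0 : ∀ X : ℝ, |X - a| < rF → Nn ((0, 0), X) = 0) :
    ∀ᶠ ε : EP d in 𝓝 0, ∀ z : En d, |z.1.1| ≤ 1 → |z.1.2| ≤ ρU → ‖z.2‖ ≤ 1 → ∀ X : ℝ, |X - a| ≤ ρX →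
      ‖exE f b B0 dS ε z‖ < rB ∧ ‖exE f b B0 dS ε z‖ < rF ∧ |ε.1 4| < rF ∧
      |ε.1 3 * XiFD f b B0 ε z| < rF ∧ ‖ε.2 2‖ < rF ∧ ‖ε.1 3 • OmFD f b dS ε z‖ < rF ∧
      |Nn ((ε.1 4, ε.2 2), X) + ε.1 3 * bUD f b B0 dS Mh Mw (ε, z)| < r1 := by
  have cw := (contDiff_exE hf b B0 dS).continuous
  have cXi := (contDiff_XiFD hf b B0).continuous
  have cOm := (contDiff_OmFD hf b dS).continuous
  have cEt := (contDiff_etaFD hf b).continuous
  have cp : Continuous fun z : EP d × (En d × ℝ) => ((z.1, z.2.1) : EP d × En d) :=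
    continuous_fst.prodMk (continuous_fst.comp continuous_snd)
  have cE : ∀ i : Fin 6, Continuous fun z : EP d × (En d × ℝ) => z.1.1 i := fun i =>
    (continuous_apply i).comp (continuous_fst.comp continuous_fst)
  have cV : ∀ i : Fin 7, Continuous fun z : EP d × (En d × ℝ) => z.1.2 i := fun i =>
    (continuous_apply i).comp (continuous_snd.comp continuous_fst)
  have cwp : Continuous fun z : EP d × (En d × ℝ) => exE f b B0 dS z.1 z.2.1 := cw.comp cp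
  have cXip : Continuous fun z : EP d × (En d × ℝ) => XiFD f b B0 z.1 z.2.1 := cXi.comp cp
  have cOmp : Continuous fun z : EP d × (En d × ℝ) => OmFD f b dS z.1 z.2.1 := cOm.comp cp
  have cEtp : Continuous fun z : EP d × (En d × ℝ) => etaFD f b z.1 z.2.1 := cEt.comp cp
  have cArg : Continuous fun z : EP d × (En d × ℝ) => argM f b B0 dS (z.1, z.2.1) := by
    unfold argM
    exact ((cE 4).prodMk (cV 2)).prodMk ((((cE 3).mul cXip).prodMk cEtp).prodMk ((cE 3).smul cOmp))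
  have cbp : Continuous fun z : EP d × (En d × ℝ) => bUD f b B0 dS Mh Mw (z.1, z.2.1) := by
    unfold bUD
    exact (cXip.mul (hM.continuous.comp cArg)).add ((hMw.continuous.comp cArg).clm_apply cOmp)
  have cNp : Continuous fun z : EP d × (En d × ℝ) => Nn ((z.1.1 4, z.1.2 2), z.2.2) :=
    hNn.continuous.comp (((cE 4).prodMk (cV 2)).prodMk (continuous_snd.comp continuous_snd))
  set K : Set (En d × ℝ) := ((Icc (-1 : ℝ) 1 ×ˢ Icc (-ρU) ρU) ×ˢ Metric.closedBall (0 : Wd d) 1) ×ˢ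
    Icc (a - ρX) (a + ρX) with hKdef
  have hK : IsCompact K :=
    ((isCompact_Icc.prod isCompact_Icc).prod (isCompact_closedBall _ _)).prod isCompact_Icc
  have hw0 : ∀ p ∈ K, ‖exE f b B0 dS 0 p.1‖ ≤ ρU := by
    rintro ⟨⟨⟨x, u⟩, w1⟩, X⟩ ⟨⟨⟨hx, hu⟩, hw1⟩, hX⟩
    rw [exE_zero hf, Prod.norm_def, Prod.norm_def]
    simp only [norm_zero, Real.norm_eq_abs]
    have h0 : 0 ≤ ρU := le_trans (abs_nonneg u) (abs_le.2 hu)
    exact max_le (max_le h0 (abs_le.2 hu)) h0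
  have z1 : ∀ i : Fin 6, (0 : EP d).1 i = 0 := fun _ => rfl
  have z2 : ∀ i : Fin 7, (0 : EP d).2 i = 0 := fun _ => rfl
  have cN1 : Continuous fun z : EP d × (En d × ℝ) => ‖exE f b B0 dS z.1 z.2.1‖ := cwp.norm
  have cN5 : Continuous fun z : EP d × (En d × ℝ) => ‖z.1.2 2‖ := (cV 2).norm
  have cN6 : Continuous fun z : EP d × (En d × ℝ) => ‖z.1.1 3 • OmFD f b dS z.1 z.2.1‖ :=
    ((cE 3).smul cOmp).norm
  have T1 := dz27_tube_lt hK cN1 (c := rB) fun p hp => lt_of_le_of_lt (hw0 p hp) hUB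
  have T2 := dz27_tube_lt hK cN1 (c := rF) fun p hp => lt_of_le_of_lt (hw0 p hp) hUF
  have T3 := dz27_tube_lt hK (cE 4).norm (c := rF) fun p hp => by
    show ‖((0 : EP d).1 4 : ℝ)‖ < rF
    rw [z1, norm_zero]
    exact hrF
  have T4 := dz27_tube_lt hK ((cE 3).mul cXip).norm (c := rF) fun p hp => by
    show ‖(0 : EP d).1 3 * XiFD f b B0 0 p.1‖ < rF
    rw [z1, zero_mul, norm_zero]
    exact hrF
  have T5 := dz27_tube_lt hK cN5 (c := rF) fun p hp => by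
    show ‖(0 : EP d).2 2‖ < rF
    rw [z2, norm_zero]
    exact hrF
  have T6 := dz27_tube_lt hK cN6 (c := rF) fun p hp => by
    show ‖(0 : EP d).1 3 • OmFD f b dS 0 p.1‖ < rF
    rw [z1, zero_smul, norm_zero]
    exact hrF
  have T7 := dz27_tube_lt hK ((cNp.add ((cE 3).mul cbp)).norm) (c := r1) fun p hp => by
    show ‖Nn (((0 : EP d).1 4, (0 : EP d).2 2), p.2) +
      (0 : EP d).1 3 * bUD f b B0 dS Mh Mw (0, p.1)‖ < r1
    obtain ⟨-, hX⟩ := hp
    have hX' : |p.2 - a| < rF := by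
      refine lt_of_le_of_lt (abs_le.2 ⟨?_, ?_⟩) hXF
      · linarith [hX.1]
      · linarith [hX.2]
    rw [z1, z1, z2, hN0 p.2 hX', zero_mul, add_zero, norm_zero]
    exact hr1
  filter_upwards [T1, T2, T3, T4, T5, T6, T7] with ε t1 t2 t3 t4 t5 t6 t7 z hz1 hz2 hz3 X hX
  have hmem : ((z, X) : En d × ℝ) ∈ K := by
    refine ⟨⟨⟨abs_le.1 hz1, abs_le.1 hz2⟩, ?_⟩, ?_, ?_⟩
    · rw [mem_closedBall_zero_iff]
      exact hz3
    · linarith [(abs_le.1 hX).1]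
    · linarith [(abs_le.1 hX).2]
  have u1 : ‖exE f b B0 dS ε z‖ < rB := by
    simpa only using t1 (z, X) hmem
  have u2 : ‖exE f b B0 dS ε z‖ < rF := by
    simpa only using t2 (z, X) hmem
  have u3 : ‖ε.1 4‖ < rF := by
    simpa only using t3 (z, X) hmem
  have u4 : ‖ε.1 3 * XiFD f b B0 ε z‖ < rF := t4 (z, X) hmem
  have u5 : ‖ε.2 2‖ < rF := by
    simpa only using t5 (z, X) hmem
  have u6 : ‖ε.1 3 • OmFD f b dS ε z‖ < rF := by
    simpa only using t6 (z, X) hmem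
  have u7 : ‖Nn ((ε.1 4, ε.2 2), X) + ε.1 3 * bUD f b B0 dS Mh Mw (ε, z)‖ < r1 := t7 (z, X) hmem
  rw [Real.norm_eq_abs] at u3 u4 u7
  exact ⟨u1, u2, u3, u4, u5, u6, u7⟩

/-- The coordinates YcD are a global diffeomorphism.

PROOF. Yi v = ((v.1.1, E * (v.1.2 - (uS + Th (e1 X, mulw al w)) / mn) - b), v.2), X = v.1.1, w = v.2; `contDiff_mulw`; E = EED g s n m ≠ 0 (field_simp). -/
theorem dz27_coords {g : En d → En d} {s : FrD d} {f : PFD d} (hTh : ContDiff ℝ ∞ f.Th) (b : ℝ) (n m : ℕ)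
    (hE : EED g s n m ≠ 0) :
    ∃ Yi : En d → En d, ContDiff ℝ ∞ (YcD g s f b n m) ∧ ContDiff ℝ ∞ Yi ∧
      (∀ z, Yi (YcD g s f b n m z) = z) ∧ ∀ v, YcD g s f b n m (Yi v) = v := by
  have c1 : ContDiff ℝ ∞ fun z : En d => f.Th (e1D s n * z.1.1, mulw (s.al Sy.P ^ n) z.2) := by
    have x1 : ContDiff ℝ ∞ (fun z : En d => z.1.1) := by fun_prop
    exact hTh.comp ((contDiff_const.mul x1).prodMk (contDiff_mulw contDiff_const contDiff_snd))
  have x1 : ContDiff ℝ ∞ (fun z : En d => z.1.1) := by fun_prop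
  have x2 : ContDiff ℝ ∞ (fun z : En d => z.1.2) := by fun_prop
  refine ⟨fun v => ((v.1.1, EED g s n m * (v.1.2 -
    (s.uS + f.Th (e1D s n * v.1.1, mulw (s.al Sy.P ^ n) v.2)) / s.mu Sy.P ^ n) - b), v.2),
    ?_, ?_, ?_, ?_⟩
  · unfold YcD yFD
    exact (x1.prodMk (((x2.add contDiff_const).div_const _).add
      ((contDiff_const.add c1).div_const _))).prodMk contDiff_snd
  · exact (x1.prodMk ((contDiff_const.mul (x2.sub
      ((contDiff_const.add c1).div_const _))).sub contDiff_const)).prodMk contDiff_snd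
  · intro z
    unfold YcD yFD
    refine Prod.ext (Prod.ext rfl ?_) rfl
    simp only
    rw [add_sub_cancel_right, mul_div_cancel₀ _ hE, add_sub_cancel_right]
  · intro v
    unfold YcD yFD
    refine Prod.ext (Prod.ext rfl ?_) rfl
    simp only
    rw [sub_add_cancel, mul_div_cancel_left₀ _ hE, sub_add_cancel]

/-- The zoom is a global diffeomorphism.

PROOF. zi v = (((v.1.1 - a) / (ρ * hs) - dj e j, v.1.2 / ρ - dj e (j + 1)), ρ⁻¹ • (v.2 - wT) - dj e j • c). -/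
theorem dz27_zoom (e : ℕ) (a : ℝ) {hs ρ : ℝ} (hhs : hs ≠ 0) (hρ : ρ ≠ 0) (wT c : Wd d) (j : ℕ) :
    ∃ zi : En d → En d, ContDiff ℝ ∞ (zmD e a hs ρ wT c j) ∧ ContDiff ℝ ∞ zi ∧
      (∀ z, zi (zmD e a hs ρ wT c j z) = z) ∧ ∀ v, zmD e a hs ρ wT c j (zi v) = v := by
  have hρh : ρ * hs ≠ 0 := mul_ne_zero hρ hhs
  have x1 : ContDiff ℝ ∞ (fun z : En d => z.1.1) := by fun_prop
  have x2 : ContDiff ℝ ∞ (fun z : En d => z.1.2) := by fun_prop
  have x3 : ContDiff ℝ ∞ (fun z : En d => z.2) := by fun_prop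
  refine ⟨fun v => (((v.1.1 - a) / (ρ * hs) - dj e j, v.1.2 / ρ - dj e (j + 1)),
    ρ⁻¹ • (v.2 - wT) - dj e j • c), ?_, ?_, ?_, ?_⟩
  · unfold zmD
    exact ((contDiff_const.add (contDiff_const.mul (contDiff_const.add x1))).prodMk
      (contDiff_const.mul (contDiff_const.add x2))).prodMk
      (contDiff_const.add ((contDiff_const.add x3).const_smul ρ))
  · exact ((((x1.sub contDiff_const).div_const _).sub contDiff_const).prodMk
      ((x2.div_const _).sub contDiff_const)).prodMk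
      (((x3.sub contDiff_const).const_smul ρ⁻¹).sub contDiff_const)
  · intro z
    unfold zmD
    refine Prod.ext (Prod.ext ?_ ?_) ?_
    · show (a + ρ * hs * (dj e j + z.1.1) - a) / (ρ * hs) - dj e j = z.1.1
      field_simp
      ring
    · show ρ * (dj e (j + 1) + z.1.2) / ρ - dj e (j + 1) = z.1.2
      field_simp
      ring
    · show ρ⁻¹ • (wT + ρ • (dj e j • c + z.2) - wT) - dj e j • c = z.2
      rw [add_sub_cancel_left, smul_smul, inv_mul_cancel₀ hρ, one_smul, add_sub_cancel_left]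
  · intro v
    unfold zmD
    refine Prod.ext (Prod.ext ?_ ?_) ?_
    · show a + ρ * hs * (dj e j + ((v.1.1 - a) / (ρ * hs) - dj e j)) = v.1.1
      field_simp
      ring
    · show ρ * (dj e (j + 1) + (v.1.2 / ρ - dj e (j + 1))) = v.1.2
      field_simp
      ring
    · show wT + ρ • (dj e j • c + (ρ⁻¹ • (v.2 - wT) - dj e j • c)) = v.2
      rw [add_sub_cancel, smul_smul, mul_inv_cancel₀ hρ, one_smul, add_sub_cancel]

/-- PROOF. Qj is a polynomial (pattern: `z27_contDiff_sto` in H37P/Z27.lean). -/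
theorem dz27_contDiff_Qj (e : ℕ) (a hs c0 τ ρ : ℝ) (q : QQ (e + 3) e) (j : ℕ) :
    ContDiff ℝ ∞ (Qj e a hs c0 τ ρ q j) := by
  exact z27_contDiff_Qj e a hs c0 τ ρ q j

/-- PROOF. Induction on j. -/
theorem dz27_contDiff_sto {P' : Type} [NormedAddCommGroup P'] [NormedSpace ℝ P'] {bX bU : P' × En d → ℝ}
    {bW : P' × En d → Wd d} (hX : ContDiff ℝ ∞ bX) (hU : ContDiff ℝ ∞ bU) (hW : ContDiff ℝ ∞ bW)
    (e : ℕ) (a hs c0 τ ρ : ℝ) (q : QQ (e + 3) e) (ε : P') (j : ℕ) :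
    ContDiff ℝ ∞ (stoD bX bU bW (Qj e a hs c0 τ ρ q) ε j) := by
  induction j with
  | zero => exact contDiff_id
  | succ j ih =>
    have c0' : ContDiff ℝ ∞ fun z : En d => ((ε, stoD bX bU bW (Qj e a hs c0 τ ρ q) ε j z) : P' × En d) :=
      contDiff_const.prodMk ih
    have c1 : ContDiff ℝ ∞ fun z : En d => bX (ε, stoD bX bU bW (Qj e a hs c0 τ ρ q) ε j z) :=
      hX.comp c0'
    have c2 : ContDiff ℝ ∞ fun z : En d => bU (ε, stoD bX bU bW (Qj e a hs c0 τ ρ q) ε j z) :=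
      hU.comp c0'
    have c3 : ContDiff ℝ ∞ fun z : En d => bW (ε, stoD bX bU bW (Qj e a hs c0 τ ρ q) ε j z) :=
      hW.comp c0'
    exact (c1.prodMk (c2.add ((z27_contDiff_Qj e a hs c0 τ ρ q j).comp c1))).prodMk c3

end Pool.Agent.Lib.H37D
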