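import Pool.Agent.Lib.H37D.DZ23
import Pool.Agent.Lib.H37D.DZ25
import Pool.Agent.Lib.H37D.DZ26
import Pool.Agent.Lib.H37D.DZ27a
import Pool.Agent.Lib.H37D.DP08
import Pool.Agent.Lib.H37D.DP10

/-! # H37D, chunk DZ27 (L): the perturbed map with the return map `stoD` (port of `realize` in H37P/Z27.lean) -/

open Set Filter Topology Asymptotics
open scoped ContDiff

namespace Pool.Agent.Lib.H37D

open Pool.Agent.Lib.H37N

variable {d : ℕ}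

theorem dz27_parS {g : En d → En d} {s : FrD d} {e n m : ℕ} {B0 δ : ℝ} (hδ : ‖epsD g s B0 n m‖ < δ)
    (hm : |(s.mu Sy.P ^ n)⁻¹| < δ) {q : QQ (e + 3) e} (hq : ‖q‖ < 1) : ‖parS g s e n m q‖ < δ := by
  have h1 : ∀ i : Fin 6, |(epsD g s B0 n m).1 i| < δ := fun i => by
    have h3 := norm_le_pi_norm (epsD g s B0 n m).1 i
    have h4 := norm_fst_le (epsD g s B0 n m)
    rw [Real.norm_eq_abs] at h3
    linarith
  have h2 : ∀ i : Fin 7, ‖(epsD g s B0 n m).2 i‖ < δ := fun i => by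
    have h3 := norm_le_pi_norm (epsD g s B0 n m).2 i
    have h4 := norm_snd_le (epsD g s B0 n m)
    linarith
  have x0 : |xi0D s m| < δ := h1 4
  have x1 : ‖w0D s m‖ < δ := h2 2
  have x2 : |e1D s n| < δ := h1 0
  have x3 : ‖s.al Sy.P ^ n‖ < δ := h2 0
  have x4 : |(EED g s n m)⁻¹| < δ := h1 3
  have x5 : ‖(EED g s n m)⁻¹ • q‖ < δ := by
    rw [norm_smul, Real.norm_eq_abs]
    calc _ ≤ |(EED g s n m)⁻¹| * 1 := mul_le_mul_of_nonneg_left hq.le (abs_nonneg _)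
      _ < δ := by rw [mul_one]; exact x4
  unfold parS
  rw [Prod.norm_def, Prod.norm_def, Prod.norm_def, Prod.norm_def, Prod.norm_def, Prod.norm_def]
  exact max_lt x0 (max_lt x1 (max_lt hm (max_lt x2 (max_lt x3 (max_lt x4 x5)))))

/-- the regions -/
def dz27_W (e : ℕ) (a hs ρ : ℝ) (wT c : Wd d) (j : ℕ) : Set (En d) :=
  {v | |v.1.1 - (a + ρ * hs * dj e j)| < ρ * |hs| / 5 ∧ |v.1.2 - ρ * dj e (j + 1)| < ρ / 5 ∧
    ‖v.2 - (wT + (ρ * dj e j) • c)‖ < ρ / 5}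

theorem dz27_W_open (e : ℕ) (a hs ρ : ℝ) (wT c : Wd d) (j : ℕ) : IsOpen (dz27_W e a hs ρ wT c j) := by
  have e1 : dz27_W e a hs ρ wT c j = {v : En d | |v.1.1 - (a + ρ * hs * dj e j)| < ρ * |hs| / 5} ∩
      ({v : En d | |v.1.2 - ρ * dj e (j + 1)| < ρ / 5} ∩
        {v : En d | ‖v.2 - (wT + (ρ * dj e j) • c)‖ < ρ / 5}) := rfl
  rw [e1]
  exact (isOpen_lt (by fun_prop) continuous_const).inter
    ((isOpen_lt (by fun_prop) continuous_const).inter (isOpen_lt (by fun_prop) continuous_const))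

theorem dz27_zm_mem {e : ℕ} {a hs ρ : ℝ} {wT c : Wd d} {j : ℕ} {z : En d} (hhs : hs ≠ 0) (hρ : 0 < ρ)
    (hz : ‖z‖ < 1 / 10) : zmD e a hs ρ wT c j z ∈ dz27_W e a hs ρ wT c j := by
  have h0 : 0 < |hs| := abs_pos.2 hhs
  have n1 := norm_fst_le z
  have n2 := norm_fst_le z.1
  have n3 := norm_snd_le z.1
  have n4 := norm_snd_le z
  rw [Real.norm_eq_abs] at n2 n3
  refine ⟨?_, ?_, ?_⟩
  · show |a + ρ * hs * (dj e j + z.1.1) - (a + ρ * hs * dj e j)| < ρ * |hs| / 5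
    have h1 : a + ρ * hs * (dj e j + z.1.1) - (a + ρ * hs * dj e j) = ρ * hs * z.1.1 := by ring
    rw [h1, abs_mul, abs_mul, abs_of_pos hρ]
    have h2 : |z.1.1| < 1 / 10 := by linarith
    have h3 : 0 < ρ * |hs| := mul_pos hρ h0
    nlinarith
  · show |ρ * (dj e (j + 1) + z.1.2) - ρ * dj e (j + 1)| < ρ / 5
    have h1 : ρ * (dj e (j + 1) + z.1.2) - ρ * dj e (j + 1) = ρ * z.1.2 := by ring
    rw [h1, abs_mul, abs_of_pos hρ]
    have h2 : |z.1.2| < 1 / 10 := by linarith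
    nlinarith
  · show ‖wT + ρ • (dj e j • c + z.2) - (wT + (ρ * dj e j) • c)‖ < ρ / 5
    have h1 : wT + ρ • (dj e j • c + z.2) - (wT + (ρ * dj e j) • c) = ρ • z.2 := by
      rw [smul_add, smul_smul]
      abel
    rw [h1, norm_smul, Real.norm_eq_abs, abs_of_pos hρ]
    have h2 : ‖z.2‖ < 1 / 10 := by linarith
    nlinarith

theorem dz27_W_bound {e : ℕ} {a hs ρ : ℝ} {wT c : Wd d} {j : ℕ} {v : En d} (hρ : 0 < ρ)
    (hv : v ∈ dz27_W e a hs ρ wT c j) :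
    |v.1.1 - a| ≤ ρ * |hs| * ((nb e : ℝ) + 1) ∧ |v.1.2| ≤ ρ * ((nb e : ℝ) + 1) ∧
      ‖v.2 - wT‖ ≤ ρ * (‖c‖ * nb e + 1) := by
  obtain ⟨h1, h2, h3⟩ := hv
  have d1 := z27_dj_abs e j
  have d2 := z27_dj_abs e (j + 1)
  have hN : (0 : ℝ) ≤ (nb e : ℝ) := Nat.cast_nonneg _
  have hρh : 0 ≤ ρ * |hs| := mul_nonneg hρ.le (abs_nonneg _)
  refine ⟨?_, ?_, ?_⟩
  · have t1 : |v.1.1 - a| ≤ |v.1.1 - (a + ρ * hs * dj e j)| + |ρ * hs * dj e j| := by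
      have := abs_add_le (v.1.1 - (a + ρ * hs * dj e j)) (ρ * hs * dj e j)
      rwa [show v.1.1 - (a + ρ * hs * dj e j) + ρ * hs * dj e j = v.1.1 - a by ring] at this
    have t2 : |ρ * hs * dj e j| ≤ ρ * |hs| * ((nb e : ℝ) / 2) := by
      rw [abs_mul, abs_mul, abs_of_pos hρ]
      exact mul_le_mul_of_nonneg_left d1 hρh
    have h2 : 0 ≤ ρ * |hs| * ((nb e : ℝ) / 2 + 4 / 5) := mul_nonneg hρh (by linarith)
    nlinarith
  · have t1 : |v.1.2| ≤ |v.1.2 - ρ * dj e (j + 1)| + |ρ * dj e (j + 1)| := by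
      have := abs_add_le (v.1.2 - ρ * dj e (j + 1)) (ρ * dj e (j + 1))
      rwa [sub_add_cancel] at this
    have t2 : |ρ * dj e (j + 1)| ≤ ρ * ((nb e : ℝ) / 2) := by
      rw [abs_mul, abs_of_pos hρ]
      exact mul_le_mul_of_nonneg_left d2 hρ.le
    have h2 : 0 ≤ ρ * ((nb e : ℝ) / 2 + 4 / 5) := mul_nonneg hρ.le (by linarith)
    nlinarith
  · have t1 : ‖v.2 - wT‖ ≤ ‖v.2 - (wT + (ρ * dj e j) • c)‖ + ‖(ρ * dj e j) • c‖ := by
      have := norm_add_le (v.2 - (wT + (ρ * dj e j) • c)) ((ρ * dj e j) • c)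
      rwa [show v.2 - (wT + (ρ * dj e j) • c) + (ρ * dj e j) • c = v.2 - wT by abel] at this
    have t2 : ‖(ρ * dj e j) • c‖ ≤ ρ * ((nb e : ℝ) / 2) * ‖c‖ := by
      rw [norm_smul, Real.norm_eq_abs, abs_mul, abs_of_pos hρ]
      exact mul_le_mul_of_nonneg_right (mul_le_mul_of_nonneg_left d1 hρ.le) (norm_nonneg _)
    have h2 : 0 ≤ ρ * (nb e : ℝ) * ‖c‖ := by positivity
    nlinarith

/-- Realisation of Stage II.

PROOF. As `realize` in H37P/Z27.lean.  f, rf from `exists_PFD`; B0 = -1/(Y1(0,0) hs Ga(0)) > 0; `blkD_of`, `stageII_localD` with h = fun U => A ((0,U),0), Ga = fun U => Mh ((0,0),((0,U),0)), k = fun U => Aw ((0,U),0),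
c = deriv k 0, c1 = B0 Y1(0,0); ρ1 as in the plane and also ρ1 (‖c‖ nb + 1) ≤ r/4.  `family_SD`, `stepD`, `dz27_tube` (ρU = ρ N1), `exists_nmD`, `epsD_tendsto`.
zm = zmD e a hs ρ wT c 0, zi its inverse (`dz27_zoom`); Y = YcD g s f b n m ∘ zm, S j = zi ∘ stoD .. j ∘ zm, Y (S j z) = YcD (stoD j (zm z)).
Regions: W' j = points v with |v.1.1 - (a + ρ hs dj j)| < ρ|hs|/5, |v.1.2 - ρ dj (j+1)| < ρ/5, ‖v.2 - (wT + ρ dj j c)‖ < ρ/5, W j = zm ⁻¹' (W' j).  The point (0, om 0) has S j (0, om 0) ∈ W j by the last item of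
`stageII_localD`.  For v in W' j: ‖v.2 - wT‖ ≤ ρ/5 + ρ nb ‖c‖/2 ≤ r/4, ‖v.2‖ ≤ ‖wT‖ + r < 1.  O = {v | |v.1.1 - X0| < ρ|hs|/5}, X0 = a + ρ hs dj 0 (zmD's first coordinate at the point (0, om 0)). -/
theorem realizeD {R e : ℕ} (he : 1 ≤ e) {U : Set (En d → En d)} (hU : PertOpenD R U)
    {g : En d → En d} (hg : g ∈ U) {s : FrD d} {Z : Set (En d)} {b a : ℝ} {wT : Wd d} {k l : ℕ} {r : ℝ}
    {D B : Set (En d)} {Li : En d → En d} (hN : NearS g) (hs : IsFrD g s) (hZ : Z ⊆ interior (FFd d))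
    (hb : |b| < 1) (hp : PlaceD g s Z b a wT k l r D B Li)
    {A : En d → ℝ} {Aw : En d → Wd d} {Nn : (ℝ × Wd d) × ℝ → ℝ} {Mh : (ℝ × Wd d) × En d → ℝ}
    {Mw : (ℝ × Wd d) × En d → (Wd d →L[ℝ] ℝ)} {rF : ℝ} (hF : FlatD g s b a wT k l A Aw Nn Mh Mw rF)
    (hne : deriv (fun U => Real.log (hGD A Mh U)) 0 ≠ 0) :
    ∃ (ψ : En d → En d) (K : ℕ) (Y Yi : En d → En d) (S : ℕ → En d → En d) (om : Pt → Wd d) (φ : Pt → Pt)
      (W : ℕ → Set (En d)),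
      ψ ∘ g ∈ U ∧ AdmD D ψ ∧ 0 < K ∧
      (ContDiff ℝ ∞ Y ∧ ContDiff ℝ ∞ Yi ∧ (∀ z, Yi (Y z) = z) ∧ ∀ v, Y (Yi v) = v) ∧
      (∀ j, ContDiff ℝ ∞ (S j)) ∧ S 0 = id ∧
      ContDiff ℝ ∞ om ∧ ContDiff ℝ ∞ φ ∧
      (∀ᶠ v in 𝓝 (0 : Pt), S (nb e) (v, om v) = (φ v, om v)) ∧
      ((fun v : Pt => φ v - v) =O[𝓝 0] fun v : Pt => ‖v‖ ^ (e + 1)) ∧
      Y (0, om 0) ∈ Metric.ball (((a, 0), wT) : En d) r ∧
      (∀ j, IsOpen (W j)) ∧
      (∀ j ≤ nb e, ∀ᶠ z in 𝓝 ((0, om 0) : En d), S j z ∈ W j) ∧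
      (∃ O ∈ 𝓝 (Y (0, om 0)), ∀ j, 0 < j → j < nb e → ∀ z ∈ W j, Y z ∉ O) ∧
      ∀ χ : En d → En d, AdmD D χ → (∀ v ∈ Metric.ball (((a, 0), wT) : En d) r, ∀ j, 0 < j → j < nb e →
        (∃ z ∈ W j, Y z = v) → PlD g s l (χ (Li v)) = v) →
        ∀ᶠ z in 𝓝 ((0, om 0) : En d),
          (∀ j, j + 1 < nb e → ((χ ∘ ψ) ∘ g)^[K] (s.κ Sy.P (Y (S j z))) = s.κ Sy.P (Y (S (j + 1) z))) ∧
          ((χ ∘ ψ) ∘ g)^[K] (s.κ Sy.P (Y (S (nb e - 1) z))) =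
            s.κ Sy.P (PlD g s l (χ (Li (Y (S (nb e) z))))) ∧
          ∀ j < nb e, ∀ i ≤ K, ((χ ∘ ψ) ∘ g)^[i] (s.κ Sy.P (Y (S j z))) ∈ VOD d ∪ Z := by
  obtain ⟨f, rf, hf⟩ := exists_PFD hs
  have hsm : SmPFD f := hf.toSmPFD
  have hdS : 0 < dSD g s := hs.sdata.d_pos
  have hjS : 0 < pjac (SSD g s) 0 := hs.sdata.pj_pos
  have hY10 : 0 < f.Y1 (0, 0) := by
    rw [hf.Y10]
    exact div_pos hjS hdS
  have hrF := hF.r_pos
  have hr := hp.r_pos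
  -- the constants
  obtain ⟨h0, hh0def⟩ : ∃ h0, h0 = deriv (fun U => A ((0, U), 0)) 0 := ⟨_, rfl⟩
  have hneg : h0 * Mh ((0, 0), ((0, 0), 0)) < 0 := by
    rw [hh0def]
    exact hF.neg
  have hh0 : h0 ≠ 0 := by
    intro h
    rw [h, zero_mul] at hneg
    exact lt_irrefl _ hneg
  have hh0a : 0 < |h0| := abs_pos.2 hh0
  have hneg2 : f.Y1 (0, 0) * (h0 * Mh ((0, 0), ((0, 0), 0))) < 0 := mul_neg_of_pos_of_neg hY10 hneg
  obtain ⟨B0, hB0⟩ : ∃ B0, B0 = -1 / (f.Y1 (0, 0) * (h0 * Mh ((0, 0), ((0, 0), 0)))) := ⟨_, rfl⟩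
  have hB0pos : 0 < B0 := by
    rw [hB0]
    exact div_pos_of_neg_of_neg (by norm_num) hneg2
  have hB : B0 * f.Y1 (0, 0) * h0 * Mh ((0, 0), ((0, 0), 0)) = -1 := by
    have h1 : B0 * (f.Y1 (0, 0) * (h0 * Mh ((0, 0), ((0, 0), 0)))) = -1 := by
      rw [hB0]
      exact div_mul_cancel₀ _ (ne_of_lt hneg2)
    linarith [h1, mul_assoc (B0 * f.Y1 (0, 0)) h0 (Mh ((0, 0), ((0, 0), 0))),
      mul_assoc B0 (f.Y1 (0, 0)) (h0 * Mh ((0, 0), ((0, 0), 0)))]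
  obtain ⟨c0, hc0⟩ : ∃ c0, c0 = B0 * f.Y1 (0, 0) * a * Mh ((0, 0), ((0, 0), 0)) := ⟨_, rfl⟩
  obtain ⟨τ, hτ⟩ : ∃ τ, τ = B0 * f.Y1 (0, 0) * a * deriv (fun U => Mh ((0, 0), ((0, U), 0))) 0 :=
    ⟨_, rfl⟩
  obtain ⟨s0, hs0⟩ : ∃ s0, s0 = deriv (fun U => Real.log (hGD A Mh U)) 0 := ⟨_, rfl⟩
  have hs0ne : s0 ≠ 0 := by
    rw [hs0]
    exact hne
  obtain ⟨c, hc⟩ : ∃ c, c = deriv (fun U => Aw ((0, U), 0)) 0 := ⟨_, rfl⟩
  -- the radii
  obtain ⟨rB, hrB, hBB⟩ := Metric.mem_nhds_iff.1 hp.nhB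
  obtain ⟨N1, hN1⟩ : ∃ N1 : ℝ, N1 = (nb e : ℝ) + 1 := ⟨_, rfl⟩
  have hNpos : (0 : ℝ) ≤ (nb e : ℝ) := Nat.cast_nonneg _
  have hN1pos : 0 < N1 := by rw [hN1]; linarith
  have hhN : 0 < |h0| * N1 := mul_pos hh0a hN1pos
  have hb1 : 0 < 1 - |b| := by linarith
  have hcN : 0 < ‖c‖ * nb e + 1 := by positivity
  obtain ⟨ρ1, hρ1def⟩ : ∃ ρ1 : ℝ, ρ1 = min (min (r / 2 / (|h0| * N1)) (rF / (|h0| * N1)))
      (min (min ((1 - |b|) / N1) (r / 4 / (‖c‖ * nb e + 1))) (min (rB / N1) (rF / N1))) := ⟨_, rfl⟩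
  have hρ1 : 0 < ρ1 := by
    rw [hρ1def]
    refine lt_min (lt_min ?_ ?_) (lt_min (lt_min ?_ ?_) (lt_min ?_ ?_))
    · exact div_pos (by linarith) hhN
    · exact div_pos hrF hhN
    · exact div_pos hb1 hN1pos
    · exact div_pos (by linarith) hcN
    · exact div_pos hrB hN1pos
    · exact div_pos hrF hN1pos
  have hBlk := blkD_of (f := f) hsm hF.smA hF.smAw hF.smM hF.smMw hF.A0 hF.Aw0 a b B0 (dSD g s) wT
  obtain ⟨ρ, hρ0, hρlt, η, hη, Hloc⟩ := stageII_localD he hBlk hh0def hB hc0 hτ hs0 hs0ne hc hρ1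
  rw [hρ1def] at hρlt
  obtain ⟨hρa, hρb⟩ := lt_min_iff.1 hρlt
  obtain ⟨hρa1, hρa2⟩ := lt_min_iff.1 hρa
  obtain ⟨hρb1, hρb2⟩ := lt_min_iff.1 hρb
  obtain ⟨hρb1, hρc⟩ := lt_min_iff.1 hρb1
  obtain ⟨hρb2, hρb3⟩ := lt_min_iff.1 hρb2
  have hA1 : ρ * |h0| * N1 < r / 2 := by
    have := (lt_div_iff₀ hhN).1 hρa1
    rw [mul_assoc]
    exact this
  have hA2 : ρ * |h0| * N1 < rF := by
    have := (lt_div_iff₀ hhN).1 hρa2
    rw [mul_assoc]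
    exact this
  have hA3 : ρ * N1 < 1 - |b| := (lt_div_iff₀ hN1pos).1 hρb1
  have hA4 : ρ * N1 < rB := (lt_div_iff₀ hN1pos).1 hρb2
  have hA5 : ρ * N1 < rF := (lt_div_iff₀ hN1pos).1 hρb3
  have hA6 : ρ * (‖c‖ * nb e + 1) < r / 4 := (lt_div_iff₀ hcN).1 hρc
  have hρh : 0 < ρ * |h0| := mul_pos hρ0 hh0a
  -- the family of perturbations
  obtain ⟨r1, hr1, Hfam⟩ := family_SD hp hsm.smTh hF.smN hF.r_pos hF.N0 e (hs := h0) (c0 := c0)
    (τ := τ) (ρ := ρ) hh0 hρ0 (by rw [← hN1]; exact hA1) (by rw [← hN1]; exact hA2) R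
  obtain ⟨εU, hεU, HU⟩ := hU g hg
  obtain ⟨δp, hδp, Hp⟩ := Metric.eventually_nhds_iff.1 (Hfam εU hεU)
  obtain ⟨δ, hδ, Hstep⟩ := stepD (hs' := h0) (c0 := c0) (τ := τ) (ρ := ρ) (B0 := B0)
    hN hs hZ hp hf hF e
  have Htube := dz27_tube (a := a) (b := b) (B0 := B0) (dS := dSD g s) (rF := rF) (rB := rB)
    (ρU := ρ * N1) (ρX := ρ * |h0| * N1) (r1 := r1) hsm hF.smN hF.smM hF.smMw hr1 hrF
    hA4 hA5 hA2 hF.N0
  -- the choice of `n, m`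
  obtain ⟨n, m, -, -, hBBt, he1, he2, he4, hxi, hEE, hmu, hW7⟩ := exists_nmD hs hB0pos
  have hεt := epsD_tendsto hBBt he1 he2 he4 hxi hEE hW7
  have hminv : Tendsto (fun j => (s.mu Sy.P ^ (n j))⁻¹) atTop (𝓝 0) :=
    tendsto_inv_atTop_zero.comp hmu
  have hev1 : ∀ c' > (0 : ℝ), ∀ᶠ j in atTop, ‖epsD g s B0 (n j) (m j)‖ < c' := by
    intro c' hc'
    have h := hεt.norm
    rw [norm_zero] at h
    exact h.eventually_lt tendsto_const_nhds hc'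
  have hev2 : ∀ᶠ j in atTop, |(s.mu Sy.P ^ (n j))⁻¹| < δp := by
    have h := hminv.abs
    rw [abs_zero] at h
    exact h.eventually_lt tendsto_const_nhds hδp
  obtain ⟨i, hi1, hi2, hi3, hi4, hi5, hi6⟩ := ((hev1 η hη).and ((hεt.eventually Htube).and
    ((hev1 δ hδ).and ((hev1 δp hδp).and (hev2.and
    (hEE.eventually (eventually_gt_atTop 0))))))).exists
  obtain ⟨nn, hnn⟩ : ∃ nn, nn = n i := ⟨_, rfl⟩
  obtain ⟨mm, hmm⟩ : ∃ mm, mm = m i := ⟨_, rfl⟩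
  rw [← hnn, ← hmm] at hi1 hi2 hi3 hi4 hi6
  rw [← hnn] at hi5
  obtain ⟨ε, hεdef⟩ : ∃ ε, ε = epsD g s B0 nn mm := ⟨_, rfl⟩
  obtain ⟨q, hq, om, φ, hom, hφ, hslice, hO, hclose⟩ := Hloc ε (by rw [hεdef]; exact hi1)
  -- the perturbation
  obtain ⟨ψ, hψs, hψ, hψfam⟩ := @Hp (parS g s e nn mm q) (by
      rw [dist_zero_right]
      exact dz27_parS hi4 hi5 hq)
  have hE0 : EED g s nn mm ≠ 0 := ne_of_gt hi6
  obtain ⟨Yi0, hYs, hYis, hYi1, hYi2⟩ := dz27_coords (g := g) (s := s) hsm.smTh b nn mm hE0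
  obtain ⟨zi, hzs, hzis, hz1, hz2⟩ := dz27_zoom e a hh0 hρ0.ne' wT c 0
  -- the objects
  obtain ⟨T, hT⟩ : ∃ T : ℕ → En d → En d, T = fun j => stoD (bXD f a b B0 (dSD g s) A)
      (bUD f b B0 (dSD g s) Mh Mw) (bWD f b B0 (dSD g s) wT Aw) (Qj e a h0 c0 τ ρ q) ε j := ⟨_, rfl⟩
  have hT1 : ∀ j v, T (j + 1) v = stpD (bXD f a b B0 (dSD g s) A)
      (bUD f b B0 (dSD g s) Mh Mw) (bWD f b B0 (dSD g s) wT Aw) (Qj e a h0 c0 τ ρ q) ε j (T j v) := by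
    intro j v
    rw [hT]
    rfl
  have hTsm : ∀ j, ContDiff ℝ ∞ (T j) := by
    intro j
    rw [hT]
    exact dz27_contDiff_sto hBlk.smX hBlk.smU hBlk.smW e a h0 c0 τ ρ q ε j
  have hT0 : ∀ v, T 0 v = v := by
    intro v
    rw [hT]
    rfl
  obtain ⟨zm, hzm⟩ : ∃ zm : En d → En d, zm = zmD e a h0 ρ wT c 0 := ⟨_, rfl⟩
  rw [← hzm] at hzs
  have hz1' : ∀ z, zi (zm z) = z := fun z => by rw [hzm]; exact hz1 z
  have hz2' : ∀ v, zm (zi v) = v := fun v => by rw [hzm]; exact hz2 v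
  obtain ⟨W', hW'⟩ : ∃ W' : ℕ → Set (En d), W' = dz27_W e a h0 ρ wT c := ⟨_, rfl⟩
  have hWo : ∀ j, IsOpen (W' j) := fun j => by rw [hW']; exact dz27_W_open _ _ _ _ _ _ _
  have hWb : ∀ j v, v ∈ W' j → |v.1.1 - a| ≤ ρ * |h0| * N1 ∧ |v.1.2| ≤ ρ * N1 ∧
      ‖v.2 - wT‖ ≤ ρ * (‖c‖ * nb e + 1) := by
    intro j v hv
    rw [hW'] at hv
    rw [hN1]
    exact dz27_W_bound hρ0 hv
  have hWX : ∀ j v, v ∈ W' j → |v.1.1| ≤ 1 := by
    intro j v hv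
    have h1 := (hWb j v hv).1
    have h2 := hp.r_lt
    have h3 : |v.1.1| ≤ |v.1.1 - a| + |a| := by
      have := abs_add_le (v.1.1 - a) a
      rwa [sub_add_cancel] at this
    linarith
  have hWU : ∀ j v, v ∈ W' j → |v.1.2 + b| ≤ 1 := by
    intro j v hv
    have h1 := (hWb j v hv).2.1
    have h3 := abs_add_le v.1.2 b
    linarith
  have hWw : ∀ j v, v ∈ W' j → ‖v.2‖ ≤ 1 := by
    intro j v hv
    have h1 := (hWb j v hv).2.2
    have h2 := hp.r_ltw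
    have h3 : ‖v.2‖ ≤ ‖v.2 - wT‖ + ‖wT‖ := by
      have := norm_add_le (v.2 - wT) wT
      rwa [sub_add_cancel] at this
    linarith
  obtain ⟨V0, hV0⟩ : ∃ V0 : En d, V0 = (0, om 0) := ⟨_, rfl⟩
  have hTW0 : ∀ j ≤ nb e, T j (zm V0) ∈ W' j := by
    intro j hj
    obtain ⟨z, hz, hz'⟩ := hclose j hj
    rw [hT, hzm, hV0, hW']
    show stoD _ _ _ _ _ _ _ ∈ _
    rw [hz']
    exact dz27_zm_mem hh0 hρ0 hz
  have hTW : ∀ j ≤ nb e, ∀ᶠ z in 𝓝 V0, T j (zm z) ∈ W' j := by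
    intro j hj
    exact ((hTsm j).continuous.comp hzs.continuous).continuousAt.eventually
      ((hWo j).mem_nhds (hTW0 j hj))
  -- one step
  have hone : ∀ χ, AdmD D χ → ∀ j < nb e, ∀ v, T j v ∈ W' j → T (j + 1) v ∈ W' (j + 1) →
      ((χ ∘ ψ) ∘ g)^[nn + s.kS + mm + (k + 1 + l)] (s.κ Sy.P (YcD g s f b nn mm (T j v))) =
        s.κ Sy.P (PlD g s l (χ (Li (YcD g s f b nn mm (T (j + 1) v))))) ∧
      YcD g s f b nn mm (T (j + 1) v) ∈ Metric.ball (((a, 0), wT) : En d) r ∧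
      ∀ i ≤ nn + s.kS + mm + (k + 1 + l),
        ((χ ∘ ψ) ∘ g)^[i] (s.κ Sy.P (YcD g s f b nn mm (T j v))) ∈ VOD d ∪ Z := by
    intro χ hχ j hj v hVj hVj1
    have hbX : (T (j + 1) v).1.1 = bXD f a b B0 (dSD g s) A (ε, T j v) := by
      rw [hT1]
      rfl
    have hbW : (T (j + 1) v).2 = bWD f b B0 (dSD g s) wT Aw (ε, T j v) := by
      rw [hT1]
      rfl
    have hX := (hWb _ _ hVj1).1
    have hTb := hi2 (T j v) (hWX _ _ hVj) (hWb _ _ hVj).2.1 (hWw _ _ hVj) (T (j + 1) v).1.1 hX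
    rw [← hεdef] at hTb
    obtain ⟨t1, t2, t3, t4, t5, t6, t7⟩ := hTb
    have hst := Hstep nn mm hi3 q j (T j v) ψ χ hψ hχ (hWX _ _ hVj) (hWU _ _ hVj) (hWw _ _ hVj)
    rw [← hεdef, ← hT1] at hst
    refine hst ?_ t2 t3 t4 t5 t6 ?_
    · apply hBB
      rw [Metric.mem_ball, dist_zero_right]
      exact t1
    · intro v' hv1 hv2 hv3
      refine (hψfam j hj v' ?_ ?_ ?_).2
      · rw [hv1, ← hbX]
        have h9 := hVj1
        rw [hW'] at h9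
        exact h9.1.le
      · rw [hv2, ← hbX]
        exact t7.le
      · rw [hv3, ← hbW]
        exact (hWb _ _ hVj1).2.2.trans hA6.le
  have hNe : 0 < nb e := by unfold nb; omega
  have hNe1 : nb e - 1 + 1 = nb e := by omega
  have hidA : AdmD D id := ⟨fun w _ => rfl, fun w hw => hw⟩
  have hφ0 : φ 0 = 0 := by
    have h2 := hO.eq_zero_imp.self_of_nhds
    have h3 : φ 0 - 0 = 0 := by
      apply h2
      rw [norm_zero, zero_pow (Nat.succ_ne_zero e)]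
    exact sub_eq_zero.1 h3
  have hTN : T (nb e) (zm V0) = zm V0 := by
    have h1 := hslice.self_of_nhds
    rw [hT, hzm, hV0]
    rw [hφ0] at h1
    exact h1
  have hYball : YcD g s f b nn mm (zm V0) ∈ Metric.ball (((a, 0), wT) : En d) r := by
    have h3 := hone id hidA (nb e - 1) (by omega) (zm V0) (hTW0 _ (by omega))
      (by rw [hNe1]; exact hTW0 _ le_rfl)
    rw [hNe1, hTN] at h3
    exact h3.2.1
  have hYS : ∀ j z, YcD g s f b nn mm (zm (zi (T j (zm z)))) = YcD g s f b nn mm (T j (zm z)) := by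
    intro j z
    rw [hz2']
  refine ⟨ψ, nn + s.kS + mm + (k + 1 + l), fun z => YcD g s f b nn mm (zm z), fun v => zi (Yi0 v),
    fun j z => zi (T j (zm z)), om, φ, fun j => zm ⁻¹' (W' j), HU ψ hψs, hψ, by omega,
    ⟨hYs.comp hzs, hzis.comp hYis, fun z => ?_, fun v => ?_⟩, fun j => hzis.comp ((hTsm j).comp hzs),
    ?_, hom, hφ, ?_, hO, ?_, fun j => (hWo j).preimage hzs.continuous, ?_, ?_, ?_⟩
  · show zi (Yi0 (YcD g s f b nn mm (zm z))) = z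
    rw [hYi1, hz1']
  · show YcD g s f b nn mm (zm (zi (Yi0 v))) = v
    rw [hz2', hYi2]
  · funext z
    show zi (T 0 (zm z)) = z
    rw [hT0, hz1']
  · filter_upwards [hslice] with v hv
    show zi (T (nb e) (zm (v, om v))) = _
    rw [hT, hzm]
    show zi (stoD _ _ _ _ _ _ _) = _
    rw [hv]
    exact hz1 _
  · rw [← hV0]
    exact hYball
  · intro j hj
    rw [← hV0]
    filter_upwards [hTW j hj] with z hz
    show zm (zi (T j (zm z))) ∈ W' j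
    rw [hz2']
    exact hz
  · refine ⟨{v : En d | |v.1.1 - (zm V0).1.1| < ρ * |h0| / 5}, ?_, ?_⟩
    · refine (isOpen_lt (by fun_prop) continuous_const).mem_nhds ?_
      show |(zm (0, om 0)).1.1 - (zm V0).1.1| < ρ * |h0| / 5
      rw [← hV0, sub_self, abs_zero]
      linarith
    · intro j hj0 hjN z hz hzO
      have h1 : |(zm z).1.1 - (zm V0).1.1| < ρ * |h0| / 5 := hzO
      have hz' : zm z ∈ W' j := hz
      rw [hW'] at hz'
      have h2 := hz'.1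
      have hX0 : (zm V0).1.1 = a + ρ * h0 * dj e 0 := by
        rw [hzm, hV0]
        show a + ρ * h0 * (dj e 0 + 0) = _
        rw [add_zero]
      have h3 : 1 ≤ |dj e j - dj e 0| := by
        apply dj_sep
        rw [Nat.mod_eq_of_lt hjN, Nat.zero_mod]
        omega
      have h4 : ρ * |h0| * |dj e j - dj e 0| = |(a + ρ * h0 * dj e j) - (zm V0).1.1| := by
        have h5 : (a + ρ * h0 * dj e j) - (zm V0).1.1 = ρ * h0 * (dj e j - dj e 0) := by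
          rw [hX0]
          ring
        rw [h5, abs_mul, abs_mul, abs_of_pos hρ0]
      have h5 : |(a + ρ * h0 * dj e j) - (zm V0).1.1| ≤
          |(zm z).1.1 - (zm V0).1.1| + |(zm z).1.1 - (a + ρ * h0 * dj e j)| := by
        have := abs_sub_le (a + ρ * h0 * dj e j) (zm z).1.1 (zm V0).1.1
        rw [abs_sub_comm (a + ρ * h0 * dj e j) (zm z).1.1] at this
        linarith
      have h6 : ρ * |h0| * 1 ≤ ρ * |h0| * |dj e j - dj e 0| :=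
        mul_le_mul_of_nonneg_left h3 hρh.le
      linarith
  · intro χ hχ hχt
    rw [← hV0]
    have hall : ∀ᶠ z in 𝓝 V0, ∀ j ∈ Finset.range (nb e + 1), T j (zm z) ∈ W' j := by
      rw [Filter.eventually_all_finset]
      intro j hj
      exact hTW j (by
        have := Finset.mem_range.1 hj
        omega)
    filter_upwards [hall] with z hz
    have hz' : ∀ j ≤ nb e, T j (zm z) ∈ W' j := fun j hj => hz j (Finset.mem_range.2 (by omega))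
    refine ⟨?_, ?_, ?_⟩
    · intro j hj
      show ((χ ∘ ψ) ∘ g)^[_] (s.κ Sy.P (YcD g s f b nn mm (zm (zi (T j (zm z)))))) =
        s.κ Sy.P (YcD g s f b nn mm (zm (zi (T (j + 1) (zm z)))))
      rw [hYS, hYS]
      have h1 := hone χ hχ j (by omega) (zm z) (hz' j (by omega)) (hz' (j + 1) (by omega))
      rw [h1.1, hχt _ h1.2.1 (j + 1) (by omega) hj ⟨zi (T (j + 1) (zm z)), ?_, ?_⟩]
      · show zm (zi (T (j + 1) (zm z))) ∈ W' (j + 1)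
        rw [hz2']
        exact hz' (j + 1) (by omega)
      · exact hYS _ _
    · show ((χ ∘ ψ) ∘ g)^[_] (s.κ Sy.P (YcD g s f b nn mm (zm (zi (T (nb e - 1) (zm z)))))) =
        s.κ Sy.P (PlD g s l (χ (Li (YcD g s f b nn mm (zm (zi (T (nb e) (zm z))))))))
      rw [hYS, hYS]
      have h1 := hone χ hχ (nb e - 1) (by omega) (zm z) (hz' _ (by omega))
        (by rw [hNe1]; exact hz' _ le_rfl)
      rw [hNe1] at h1
      exact h1.1
    · intro j hj i hi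
      show ((χ ∘ ψ) ∘ g)^[_] (s.κ Sy.P (YcD g s f b nn mm (zm (zi (T j (zm z)))))) ∈ _
      rw [hYS]
      exact (hone χ hχ j hj (zm z) (hz' j hj.le) (hz' (j + 1) (by omega))).2.2 i hi

end Pool.Agent.Lib.H37D
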