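import Pool.Agent.Lib.H37D.PDefs

/-!
# H37D: flat arcs and the blocks of Stage II (definitions)

As in H37P/KDefs and H37P/ZDefs (`nb`, `dj`, `ttc`, `qpoly`, `qt`, `Qj` are reused), with the strongly stable coordinates.
-/

open Set Filter Topology Asymptotics
open scoped ContDiff

namespace Pool.Agent.Lib.H37D

open Pool.Agent.Lib.H37N

noncomputable section

variable {d : ℕ}

/-- local form of the transition along a flat arc of the unstable axis which lies on the stable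
hyperplane: for `v = ((ξ0 + ζ, t), w0 + η)`:
`TTD v = ((a + A v, Nn ((ξ0,w0), a + A v) + ζ Mh + Mw η), wT + Aw v)`, `Mh, Mw` at `((ξ0,w0), ((ζ,t),η))` -/
structure FlatD (g : En d → En d) (s : FrD d) (b a : ℝ) (wT : Wd d) (k l : ℕ) (A : En d → ℝ)
    (Aw : En d → Wd d) (Nn : (ℝ × Wd d) × ℝ → ℝ) (Mh : (ℝ × Wd d) × En d → ℝ)
    (Mw : (ℝ × Wd d) × En d → (Wd d →L[ℝ] ℝ)) (r : ℝ) : Prop where
  r_pos : 0 < r
  smA : ContDiff ℝ ∞ A
  smAw : ContDiff ℝ ∞ Aw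
  smN : ContDiff ℝ ∞ Nn
  smM : ContDiff ℝ ∞ Mh
  smMw : ContDiff ℝ ∞ Mw
  fst : ∀ v : En d, ‖v‖ < r → (TTD g s b k l v).1.1 = a + A v
  thd : ∀ v : En d, ‖v‖ < r → (TTD g s b k l v).2 = wT + Aw v
  snd : ∀ (ξ0 ζ t : ℝ) (w0 η : Wd d), |ξ0| < r → |ζ| < r → |t| < r → ‖w0‖ < r → ‖η‖ < r →
    (TTD g s b k l ((ξ0 + ζ, t), w0 + η)).1.2 =
      Nn ((ξ0, w0), a + A ((ξ0 + ζ, t), w0 + η)) + ζ * Mh ((ξ0, w0), ((ζ, t), η)) +
        Mw ((ξ0, w0), ((ζ, t), η)) η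
  N0 : ∀ X : ℝ, |X - a| < r → Nn ((0, 0), X) = 0
  A0 : A ((0, 0), 0) = 0
  Aw0 : Aw ((0, 0), 0) = 0
  neg : deriv (fun t => A ((0, t), 0)) 0 * Mh ((0, 0), ((0, 0), 0)) < 0

/-- the Jacobian of the ideal block, up to a constant factor -/
def hGD (A : En d → ℝ) (Mh : (ℝ × Wd d) × En d → ℝ) (U : ℝ) : ℝ :=
  -(deriv (fun t => A ((0, t), 0)) U * Mh ((0, 0), ((0, U), 0)))

/-- the argument of `Mh, Mw` in the block -/
def argM (f : PFD d) (b B0 dS : ℝ) (q : EP d × En d) : (ℝ × Wd d) × En d :=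
  ((q.1.1 4, q.1.2 2), ((q.1.1 3 * XiFD f b B0 q.1 q.2, etaFD f b q.1 q.2),
    q.1.1 3 • OmFD f b dS q.1 q.2))

/-- first coordinate of the block -/
def bXD (f : PFD d) (a b B0 dS : ℝ) (A : En d → ℝ) (q : EP d × En d) : ℝ :=
  a + A (exD f b B0 dS (q.1.1 3) q.1 q.2)

/-- second coordinate of the block (before the correction) -/
def bUD (f : PFD d) (b B0 dS : ℝ) (Mh : (ℝ × Wd d) × En d → ℝ)
    (Mw : (ℝ × Wd d) × En d → (Wd d →L[ℝ] ℝ)) (q : EP d × En d) : ℝ :=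
  XiFD f b B0 q.1 q.2 * Mh (argM f b B0 dS q) + Mw (argM f b B0 dS q) (OmFD f b dS q.1 q.2)

/-- strongly stable coordinates of the block -/
def bWD (f : PFD d) (b B0 dS : ℝ) (wT : Wd d) (Aw : En d → Wd d) (q : EP d × En d) : Wd d :=
  wT + Aw (exD f b B0 dS (q.1.1 3) q.1 q.2)

/-- abstract blocks: smooth functions of (parameters, `((X,U),w)`) with the ideal values at the
parameter `0` -/
structure BlkD {P' : Type} [NormedAddCommGroup P'] [NormedSpace ℝ P'] (bX bU : P' × En d → ℝ)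
    (bW : P' × En d → Wd d) (a c1 : ℝ) (wT : Wd d) (h Ga : ℝ → ℝ) (k : ℝ → Wd d) : Prop where
  smX : ContDiff ℝ ∞ bX
  smU : ContDiff ℝ ∞ bU
  smW : ContDiff ℝ ∞ bW
  smh : ContDiff ℝ ∞ h
  smG : ContDiff ℝ ∞ Ga
  smk : ContDiff ℝ ∞ k
  h0 : h 0 = 0
  k0 : k 0 = 0
  zX : ∀ z : En d, bX (0, z) = a + h z.1.2
  zU : ∀ z : En d, bU (0, z) = c1 * z.1.1 * Ga z.1.2
  zW : ∀ z : En d, bW (0, z) = wT + k z.1.2

/-- the block `j` with its correction `Q j`, from abstract block functions -/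
def stpD {P' : Type} (bX bU : P' × En d → ℝ) (bW : P' × En d → Wd d) (Q : ℕ → ℝ → ℝ) (ε : P')
    (j : ℕ) (z : En d) : En d :=
  ((bX (ε, z), bU (ε, z) + Q j (bX (ε, z))), bW (ε, z))

/-- the composition of the first `j` blocks -/
def stoD {P' : Type} (bX bU : P' × En d → ℝ) (bW : P' × En d → Wd d) (Q : ℕ → ℝ → ℝ) (ε : P') :
    ℕ → En d → En d
  | 0, z => z
  | j + 1, z => stpD bX bU bW Q ε j (stoD bX bU bW Q ε j z)

/-- the zoom at the block `j`: `((x,u),ϖ) ↦ ((a + ρ hs (dj j + x), ρ (dj (j+1) + u)), wT + ρ (dj j c + ϖ))` -/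
def zmD (e : ℕ) (a hs ρ : ℝ) (wT c : Wd d) (j : ℕ) (z : En d) : En d :=
  ((a + ρ * hs * (dj e j + z.1.1), ρ * (dj e (j + 1) + z.1.2)), wT + ρ • (dj e j • c + z.2))

/-- parameters of the perturbation: `(ξ⁰, w⁰, 1/μ_P^n, ε1, α_P^n, 1/E, q/E)` -/
abbrev PSD (e d : ℕ) := ℝ × Wd d × ℝ × ℝ × Wd d × ℝ × QQ (e + 3) e

/-- the shear at the place of the block `j` -/
def phSD (e : ℕ) (s : FrD d) (f : PFD d) (Nn : (ℝ × Wd d) × ℝ → ℝ) (a b hs c0 τ ρ : ℝ) (j : ℕ)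
    (p : PSD e d) (X : ℝ) (w : Wd d) : ℝ :=
  -Nn ((p.1, p.2.1), X) + p.2.2.1 * (s.uS + f.Th (p.2.2.2.1 * X, mulw p.2.2.2.2.1 w)) +
    p.2.2.2.2.2.1 * (b - c0 + ρ * qt e τ 0 j ((X - a) / (ρ * hs) - dj e (j + 1))) +
    ρ * qpoly e p.2.2.2.2.2.2 j ((X - a) / (ρ * hs) - dj e (j + 1))

/-- the parameter of the perturbation for the pass with `n, m` turns and the polynomial `q` -/
def parS (g : En d → En d) (s : FrD d) (e n m : ℕ) (q : QQ (e + 3) e) : PSD e d :=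
  (xi0D s m, w0D s m, (s.mu Sy.P ^ n)⁻¹, e1D s n, s.al Sy.P ^ n, (EED g s n m)⁻¹,
    (EED g s n m)⁻¹ • q)

end

end Pool.Agent.Lib.H37D
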