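import Pool.Agent.Lib.H37D.PDefs
import Pool.Agent.Lib.H37N.IPar

/-!
# H37D, section I: the composed curve (definitions used by DJ10 and DI99)
-/

open Set Filter Topology Asymptotics
open scoped ContDiff

namespace Pool.Agent.Lib.H37D

open Pool.Agent.Lib.H37N

noncomputable section

variable {d : ℕ}

/-- `n` steps in a linear chart -/
def linD (lam mu : ℝ) (al : Wd d) (n : ℕ) (v : En d) : En d :=
  ((lam ^ n * v.1.1, mu ^ n * v.1.2), mulw (al ^ n) v.2)

/-- the map `κ_P → κ_Q` of the pass (n steps near P, the connection, ν steps near Q), in coordinates -/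
def midD (g : En d → En d) (s : FrD d) (n ν : ℕ) (u : En d) : En d :=
  linD (s.lam Sy.Q) (s.mu Sy.Q) (s.al Sy.Q) ν
    (SSD g s (linD (s.lam Sy.P) (s.mu Sy.P) (s.al Sy.P) n u - ((0, s.uS), 0)))

/-- a vertical perturbation of `T` -/
def vertD (T : En d → En d) (φ : ℝ × Wd d → ℝ) (v : En d) : En d :=
  (((T v).1.1, (T v).1.2 + φ ((T v).1.1, (T v).2)), (T v).2)

/-- the curve of the new datum -/
def cmpD (g : En d → En d) (s : FrD d) (T1 T2 : En d → En d) (b2 : ℝ) (n ν : ℕ)
    (φ1 φ2 : ℝ × Wd d → ℝ) (t : ℝ) : En d :=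
  vertD T2 φ2 (midD g s n ν (vertD T1 φ1 ((0, t), 0)) - ((0, b2), 0))

/-- parameters of the two families of perturbations -/
abbrev PEW (m d : ℕ) : Type := PE m × Wd d

end

end Pool.Agent.Lib.H37D
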