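import Pool.Agent.Lib.H37D.DI1c
import Pool.Agent.Lib.H37D.DZ20

/-!
# H37D, section I: the ingredients of Stage I in dimension `2 + d` (port of H37N/IPar.lean)

A parameter `p : ParD d = ℝ × EP d` is `(s, ε)` with `s = E^(-1/m)`; `ε` as in PDefs.lean (`ε.1 4 = x0`, `ε.2 2 = w0`).
The base space of the rescaled functions is `En d × ℝ`: `(z, η)` with `z = ((X, U), w)`.
Changes: `etaFD`, `XiFD`, `OmFD` of PDefs.lean (smooth by DZ20.lean) in place of `H`, `Xi`; `Mh` is a divided difference,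
`Mh (((x0,w0),t), (Ξ,Ω), s)`; `omg` is the direction of `w`.
-/

open Set Filter Topology Asymptotics
open scoped ContDiff

namespace Pool.Agent.Lib.H37D

open Pool.Agent.Lib.H37N

noncomputable section

/-- the ingredients of Stage I: `a = a_1`, `b = b_2`, `a2 = a_2`;
`T_1((0,t),0) = ((a + t Ah t, t^(m+1) Yh t), w1 + t wh t)`, `T_2 = ((XX, YY), WW)`, `YY ((0,t),0) = t^(m+1) Yk t` -/
structure IngD (m d : ℕ) where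
  a : ℝ
  b : ℝ
  a2 : ℝ
  B0 : ℝ
  uS : ℝ
  dS : ℝ
  w1 : Wd d
  w2 : Wd d
  f : PFD d
  U0 : EP d → ℝ
  Ah : ℝ → ℝ
  Yh : ℝ → ℝ
  wh : ℝ → Wd d
  XX : En d → ℝ
  YY : En d → ℝ
  WW : En d → Wd d
  Yk : ℝ → ℝ
  N : (ℝ × Wd d) × ℝ → ℝ
  Mh : ((ℝ × Wd d) × ℝ) × (ℝ × Wd d) × ℝ → ℝ
  /-- the path of AS1 -/
  G : Fin m → ℝ → ℝ
  /-- divided differences of `HB`, `RB`, `ZB` -/
  DH : ParD d × (En d × ℝ) × ℝ → ℝ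
  DR : ParD d × (En d × ℝ) × ℝ → ℝ
  DZ : ParD d × (En d × ℝ) × ℝ → ℝ

namespace IngD

variable {m d : ℕ} (I : IngD m d)

/-- Ξ as a function of (p, (z, η)) -/
def XiB (q : ParD d × (En d × ℝ)) : ℝ := XiFD I.f I.b I.B0 q.1.2 q.2.1

/-- Ω as a function of (p, (z, η)) -/
def OmB (q : ParD d × (En d × ℝ)) : Wd d := OmFD I.f I.b I.dS q.1.2 q.2.1

/-- η as a function of (p, (z, η)) -/
def HB (q : ParD d × (En d × ℝ)) : ℝ := etaFD I.f I.b q.1.2 q.2.1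

/-- the rescaled remainder as a function of (p, (z, η)) -/
def RB (q : ParD d × (En d × ℝ)) : ℝ :=
  I.Mh (((q.1.2.1 4, q.1.2.2 2), q.2.2), (I.XiB q, I.OmB q), q.1.1 ^ m)

/-- X_2 as a function of (p, (z, η)) -/
def ZB (q : ParD d × (En d × ℝ)) : ℝ :=
  I.XX ((q.1.2.1 4 + q.1.1 ^ m * I.XiB q, q.2.2), q.1.2.2 2 + q.1.1 ^ m • I.OmB q)

/-- the base point (X, U, w, η) = (a_1, U_0, w_1, 0) -/
def base (p : ParD d) : En d × ℝ := (((I.a, I.U0 p.2), I.w1), 0)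

/-- χ = (X_1 - a_1)/s -/
def chi (q : ParD d × ℝ × ℝ) : ℝ := q.2.2 * I.Ah (q.1.1 * q.2.2)

/-- ω = (w - w_1)/s -/
def omg (q : ParD d × ℝ × ℝ) : Wd d := q.2.2 • I.wh (q.1.1 * q.2.2)

/-- V as a function of (p, z, x) -/
def V (q : ParD d × ℝ × ℝ) : ℝ :=
  q.2.2 ^ (m + 1) * I.Yh (q.1.1 * q.2.2) + ∑ j : Fin m, I.G j q.2.1 * I.chi q ^ ((j : ℕ) + 1)

/-- V_2 = η_2/s as a function of (p, z, x) -/
def V2 (q : ParD d × ℝ × ℝ) : ℝ := I.DH (q.1, (((I.chi q, I.V q), I.omg q), 0), q.1.1)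

/-- the direction -/
def vv (q : ParD d × ℝ × ℝ) : En d × ℝ := (((I.chi q, I.V q), I.omg q), I.V2 q)

/-- ζ = (X_2 - X_2^0)/s -/
def zt (q : ParD d × ℝ × ℝ) : ℝ := I.DZ (q.1, I.vv q, q.1.1)

/-- the rescaled K -/
def K (q : ParD d × ℝ × ℝ) : ℝ :=
  I.V2 q ^ (m + 1) * I.Yk (q.1.1 * I.V2 q) + I.DR (q.1, I.vv q, q.1.1)

/-- the first family of perturbations; the parameter is ((μ_P^(-n), ε.1 0, E^(-1)(b+U_0), s^(m-j) g_j), ε.2 0) -/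
def Ph1 (q : PEW m d × ℝ × Wd d) : ℝ :=
  q.1.1.1 * (I.uS + I.f.Th (q.1.1.2.1 * q.2.1, mulw q.1.2 q.2.2)) + q.1.1.2.2.1 +
    ∑ j : Fin m, q.1.1.2.2.2 j * (q.2.1 - I.a) ^ ((j : ℕ) + 1)

/-- the second family of perturbations; the parameter is ((x0, s^m R(base), X_2^0 - a_2, s^(m-j) k_j), w0) -/
def Ph2 (q : PEW m d × ℝ × Wd d) : ℝ :=
  -I.N ((q.1.1.1, q.1.2), q.2.1) - q.1.1.2.1 -
    ∑ j : Fin m, q.1.1.2.2.2 j * (q.2.1 - I.a2 - q.1.1.2.2.1) ^ ((j : ℕ) + 1)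

/-- parameter of the first family -/
def par1 (mi : ℝ) (p : ParD d) (z : ℝ) : PEW m d :=
  ((mi, p.2.1 0, p.1 ^ m * (I.b + I.U0 p.2), fun j => p.1 ^ (m - (j : ℕ)) * I.G j z), p.2.2 0)

/-- parameter of the second family -/
def par2 (p : ParD d) (k : Fin m → ℝ) : PEW m d :=
  ((p.2.1 4, p.1 ^ m * I.RB (p, I.base p), I.ZB (p, I.base p) - I.a2, fun j => p.1 ^ (m - (j : ℕ)) * k j),
    p.2.2 2)

/-- X_1 as a function of (p, z, x) -/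
def X1 (q : ParD d × ℝ × ℝ) : ℝ := I.a + q.1.1 * I.chi q

/-- U as a function of (p, z, x) -/
def U (q : ParD d × ℝ × ℝ) : ℝ := I.U0 q.1.2 + q.1.1 * I.V q

/-- w after the first leg as a function of (p, z, x) -/
def wq (q : ParD d × ℝ × ℝ) : Wd d := I.w1 + q.1.1 • I.omg q

/-- the point ((X_1, U), w) as a function of (p, z, x) -/
def zQ (q : ParD d × ℝ × ℝ) : En d := ((I.X1 q, I.U q), I.wq q)

/-- Ξ as a function of (p, z, x) -/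
def XiQ (q : ParD d × ℝ × ℝ) : ℝ := XiFD I.f I.b I.B0 q.1.2 (I.zQ q)

/-- Ω as a function of (p, z, x) -/
def OmQ (q : ParD d × ℝ × ℝ) : Wd d := OmFD I.f I.b I.dS q.1.2 (I.zQ q)

/-- the argument of the transition (before the shift by Th) as a function of (p, z, x) -/
def uQ (q : ParD d × ℝ × ℝ) : En d := argF I.b q.1.2 (I.zQ q)

/-- the argument of T_2 as a function of (p, z, x) -/
def exQ (q : ParD d × ℝ × ℝ) : En d :=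
  ((q.1.2.1 4 + q.1.1 ^ m * I.XiQ q, q.1.1 * I.V2 q), q.1.2.2 2 + q.1.1 ^ m • I.OmQ q)

/-- the conditions (at (p,z,x)) under which the formulas for the curve hold -/
structure Good (S T1 T2 : En d → En d) (sS : ℝ) (wS : Wd d) (N : Set (En d)) (q : ParD d × ℝ × ℝ) : Prop where
  gT1 : T1 ((0, q.1.1 * q.2.2), 0) =
    ((I.a + (q.1.1 * q.2.2) * I.Ah (q.1.1 * q.2.2), (q.1.1 * q.2.2) ^ (m + 1) * I.Yh (q.1.1 * q.2.2)),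
      I.w1 + (q.1.1 * q.2.2) • I.wh (q.1.1 * q.2.2))
  gU0 : etaFD I.f I.b q.1.2 ((I.a, I.U0 q.1.2), I.w1) = 0
  gS : S (((I.uQ q).1.1, I.f.Th ((I.uQ q).1.1, (I.uQ q).2) + (I.uQ q).1.2), (I.uQ q).2) =
    ((sS + (I.uQ q).1.1 * I.f.Y1 ((I.uQ q).1.1, (I.uQ q).2) + (I.uQ q).1.2 * I.f.Y2 (I.uQ q) +
        I.f.Y3 (I.uQ q).2 (I.uQ q).2, I.dS * (I.uQ q).1.2 * I.f.W (I.uQ q)),
      wS + (I.uQ q).1.1 • I.f.Z1 (I.uQ q) + (I.uQ q).1.2 • I.f.Z2 (I.uQ q) + I.f.Z3 (I.uQ q) (I.uQ q).2)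
  gM : I.YY (I.exQ q) - I.N ((q.1.2.1 4, q.1.2.2 2), I.XX (I.exQ q)) =
    I.YY ((0, q.1.1 * I.V2 q), 0) +
      q.1.1 ^ m * I.Mh (((q.1.2.1 4, q.1.2.2 2), q.1.1 * I.V2 q), (I.XiQ q, I.OmQ q), q.1.1 ^ m)
  gYk : I.YY ((0, q.1.1 * I.V2 q), 0) = (q.1.1 * I.V2 q) ^ (m + 1) * I.Yk (q.1.1 * I.V2 q)
  gT2 : T2 (I.exQ q) = ((I.XX (I.exQ q), I.YY (I.exQ q)), I.WW (I.exQ q))
  gN1 : (((I.uQ q).1.1, I.f.Th ((I.uQ q).1.1, (I.uQ q).2) + (I.uQ q).1.2), (I.uQ q).2) ∈ N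
  gN2 : I.exQ q ∈ N
  gN3 : ((I.ZB (q.1, I.base q.1) + q.1.1 * I.zt q - I.a2, 0), I.WW (I.exQ q) - I.w2) ∈ N

/-- the properties of the ingredients -/
structure OK (S T1 T2 : En d → En d) (sS : ℝ) (wS : Wd d) (al1 al2 ka1 ka2 gm2 el : ℝ) : Prop where
  hm : 1 ≤ m
  smf : SmPFD I.f
  eqS : ∀ᶠ u : En d in 𝓝 0, S ((u.1.1, I.f.Th (u.1.1, u.2) + u.1.2), u.2) =
    ((sS + u.1.1 * I.f.Y1 (u.1.1, u.2) + u.1.2 * I.f.Y2 u + I.f.Y3 u.2 u.2, I.dS * u.1.2 * I.f.W u),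
      wS + u.1.1 • I.f.Z1 u + u.1.2 • I.f.Z2 u + I.f.Z3 u u.2)
  smooth_U0 : ContDiff ℝ ∞ I.U0
  U00 : I.U0 0 = 0
  eqU0 : ∀ᶠ ε : EP d in 𝓝 0, etaFD I.f I.b ε ((I.a, I.U0 ε), I.w1) = 0
  smooth_Ah : ContDiff ℝ ∞ I.Ah
  smooth_Yh : ContDiff ℝ ∞ I.Yh
  smooth_wh : ContDiff ℝ ∞ I.wh
  Ah0 : I.Ah 0 = al1
  Yh0 : I.Yh 0 = ka1
  eqT1 : ∀ᶠ t : ℝ in 𝓝 0, T1 ((0, t), 0) = ((I.a + t * I.Ah t, t ^ (m + 1) * I.Yh t), I.w1 + t • I.wh t)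
  smooth_XX : ContDiff ℝ ∞ I.XX
  smooth_YY : ContDiff ℝ ∞ I.YY
  smooth_WW : ContDiff ℝ ∞ I.WW
  smooth_Yk : ContDiff ℝ ∞ I.Yk
  XX0 : I.XX 0 = I.a2
  WW0 : I.WW 0 = I.w2
  XXt : HasDerivAt (fun t : ℝ => I.XX ((0, t), 0)) al2 0
  Yk0 : I.Yk 0 = ka2
  eqYk : ∀ᶠ t : ℝ in 𝓝 0, I.YY ((0, t), 0) = t ^ (m + 1) * I.Yk t
  eqT2 : ∀ᶠ v : En d in 𝓝 0, T2 v = ((I.XX v, I.YY v), I.WW v)
  smooth_N : ContDiff ℝ ∞ I.N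
  N0 : ∀ X, I.N (0, X) = 0
  smooth_Mh : ContDiff ℝ ∞ I.Mh
  Mh0 : ∀ z : ℝ, I.Mh (0, (z, 0), 0) = gm2 * z
  eqM : ∀ᶠ p : (ℝ × Wd d) × ℝ in 𝓝 0, ∀ (v : ℝ × Wd d) (s : ℝ),
    I.YY ((p.1.1 + s * v.1, p.2), p.1.2 + s • v.2) -
        I.N (p.1, I.XX ((p.1.1 + s * v.1, p.2), p.1.2 + s • v.2)) =
      I.YY ((0, p.2), 0) + s * I.Mh (p, v, s)
  smooth_G : ∀ j, ContDiff ℝ ∞ (I.G j)
  smooth_DH : ContDiff ℝ ∞ I.DH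
  smooth_DR : ContDiff ℝ ∞ I.DR
  smooth_DZ : ContDiff ℝ ∞ I.DZ
  eqDH : ∀ p v s, I.HB (p, I.base p + s • v) = I.HB (p, I.base p) + s * I.DH (p, v, s)
  eqDR : ∀ p v s, I.RB (p, I.base p + s • v) = I.RB (p, I.base p) + s * I.DR (p, v, s)
  eqDZ : ∀ p v s, I.ZB (p, I.base p + s • v) = I.ZB (p, I.base p) + s * I.DZ (p, v, s)
  DH0 : ∀ v, I.DH (0, v, 0) = v.1.1.2
  DR0 : ∀ v, I.DR (0, v, 0) = I.B0 * I.f.Y1 (0, 0) * gm2 * v.1.1.1 + el * v.2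
  DZ0 : ∀ v, I.DZ (0, v, 0) = al2 * v.2

end IngD

end

end Pool.Agent.Lib.H37D
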