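import Pool.Agent.Lib.H37D.L00D
import Pool.Agent.Lib.H37D.DM12
import Pool.Agent.Lib.H37D.DH85

/-!
# H37D: on every closed manifold of dimension at least two, an open set of diffeomorphisms near which the
conjugacy relation is complete analytic
-/

open Set Filter Topology MeasureTheory
open scoped ContDiff Manifold
open Pool.Agent.Lib.Helper37.ConjBorel Pool.Agent.Lib.H37C

namespace Pool.Agent.Lib.H37D

open Pool.Agent.Lib.H37N

/-- a nonempty open set `V` of diffeomorphisms such that topological conjugacy on every open set which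
meets `V` is analytic, complete analytic and not Borel -/
theorem main_open_set {n : ℕ} (hn : 2 ≤ n) (M : Type*) [TopologicalSpace M] [T2Space M]
    [CompactSpace M] [Nonempty M] [ChartedSpace (Euc n) M] [IsManifold (𝓡 n) ∞ M] :
    ∃ V : Set (DiffInf n M), IsOpen V ∧ V.Nonempty ∧
      ∀ S : Set (DiffInf n M), IsOpen S → (S ∩ V).Nonempty →
        MeasureTheory.AnalyticSet {q : S × S | TopConj (q.1 : DiffInf n M) (q.2 : DiffInf n M)} ∧
        (∀ A : Set (ℕ → Bool), MeasureTheory.AnalyticSet A →
          ∃ F : (ℕ → Bool) → S × S, Continuous F ∧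
            ∀ x, x ∈ A ↔ TopConj ((F x).1 : DiffInf n M) ((F x).2 : DiffInf n M)) ∧
        ¬ MeasurableSet[borel (S × S)]
          {q : S × S | TopConj (q.1 : DiffInf n M) (q.2 : DiffInf n M)} := by
  obtain ⟨d, rfl⟩ : ∃ d, n = d + 2 := ⟨n - 2, by omega⟩
  obtain ⟨e, r, V, he, hr, hV, hVne, hV2⟩ := exists_VS d M
  refine ⟨V, hV, hVne, fun S hS hne => ?_⟩
  obtain ⟨f, hf, hL⟩ := dense_localSpot (fun R U hU hN hU0 => local_spotD hU hN hU0) he hr hV
    (fun f hf => (hV2 f hf).1) hS hne
  obtain ⟨-, -, p, hp⟩ := hV2 f hf.2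
  exact main_of_local he hr hS hf.1 hL hp

end Pool.Agent.Lib.H37D
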